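import Mathlib

/-! Averages over the vertices of a square. Hints: `exists_wts` with the weights `(1 -+ x)(1 -+ y)/4` (variance `2 - x^2 - y^2`);
`pow_taylor` by induction or from `a^n - b^n = (a-b) sum a^i b^(n-1-i)`. -/

namespace Pool.Agent.MaxTerm58

/-- corners of the square `[-1,1]^2` -/
noncomputable def crnR : Fin 4 → ℂ := ![⟨-1, -1⟩, ⟨1, -1⟩, ⟨-1, 1⟩, ⟨1, 1⟩]

/-- every point of the square is a convex combination of the corners, with small variance -/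
theorem exists_wts (x y : ℝ) (hx : |x| ≤ 1) (hy : |y| ≤ 1) :
    ∃ w : Fin 4 → ℝ, (∀ i, 0 ≤ w i) ∧ ∑ i, w i = 1 ∧
      ∑ i, (w i : ℂ) * crnR i = (⟨x, y⟩ : ℂ) ∧
      ∑ i, w i * ‖crnR i - (⟨x, y⟩ : ℂ)‖ ^ 2 ≤ 2 := by
  have hx' := abs_le.mp hx
  have hy' := abs_le.mp hy
  have a1 : 0 ≤ 1 - x := by linarith
  have a2 : 0 ≤ 1 + x := by linarith
  have b1 : 0 ≤ 1 - y := by linarith
  have b2 : 0 ≤ 1 + y := by linarith
  refine ⟨![(1 - x) * (1 - y) / 4, (1 + x) * (1 - y) / 4, (1 - x) * (1 + y) / 4,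
    (1 + x) * (1 + y) / 4], ?_, ?_, ?_, ?_⟩
  · intro i
    fin_cases i
    · exact div_nonneg (mul_nonneg a1 b1) (by norm_num)
    · exact div_nonneg (mul_nonneg a2 b1) (by norm_num)
    · exact div_nonneg (mul_nonneg a1 b2) (by norm_num)
    · exact div_nonneg (mul_nonneg a2 b2) (by norm_num)
  · simp only [Fin.sum_univ_four, Matrix.cons_val]
    ring
  · unfold crnR
    simp only [Fin.sum_univ_four, Matrix.cons_val]
    apply Complex.ext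
    · simp only [Complex.add_re, Complex.re_ofReal_mul]
      ring
    · simp only [Complex.add_im, Complex.im_ofReal_mul]
      ring
  · have hn : ∀ u v : ℝ, ‖(⟨u, v⟩ : ℂ) - (⟨x, y⟩ : ℂ)‖ ^ 2 = (u - x) ^ 2 + (v - y) ^ 2 := by
      intro u v
      rw [← Complex.normSq_eq_norm_sq, Complex.normSq_apply]
      simp only [Complex.sub_re, Complex.sub_im]
      ring
    unfold crnR
    simp only [Fin.sum_univ_four, Matrix.cons_val, hn]
    nlinarith [sq_nonneg x, sq_nonneg y]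

/-- Taylor formula of order two for a power -/
theorem pow_taylor (a b : ℂ) (ρ : ℝ) (ha : ‖a‖ ≤ ρ) (hb : ‖b‖ ≤ ρ) (n : ℕ) :
    ‖a ^ n - b ^ n - n * b ^ (n - 1) * (a - b)‖ ≤
      (n : ℝ) * (n - 1) / 2 * ρ ^ (n - 2) * ‖a - b‖ ^ 2 := by
  have hρ : 0 ≤ ρ := (norm_nonneg a).trans ha
  induction n with
  | zero => simp
  | succ n ih =>
    rcases Nat.eq_zero_or_pos n with h0 | h0
    · subst h0
      simp
    · have e1 : a ^ (n + 1) - b ^ (n + 1) - ((n + 1 : ℕ) : ℂ) * b ^ (n + 1 - 1) * (a - b) =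
          a * (a ^ n - b ^ n - n * b ^ (n - 1) * (a - b)) +
            (n : ℂ) * (b ^ (n - 1) * (a - b) ^ 2) := by
        obtain ⟨m, rfl⟩ : ∃ m, n = m + 1 := ⟨n - 1, by omega⟩
        simp only [Nat.add_sub_cancel]
        push_cast
        ring
      rw [e1]
      refine (norm_add_le _ _).trans ?_
      have h1 : ‖a * (a ^ n - b ^ n - n * b ^ (n - 1) * (a - b))‖ ≤
          ρ * ((n : ℝ) * (n - 1) / 2 * ρ ^ (n - 2) * ‖a - b‖ ^ 2) := by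
        rw [norm_mul]
        exact mul_le_mul ha ih (norm_nonneg _) hρ
      have h2 : ‖(n : ℂ) * (b ^ (n - 1) * (a - b) ^ 2)‖ ≤
          (n : ℝ) * (ρ ^ (n - 1) * ‖a - b‖ ^ 2) := by
        rw [norm_mul, norm_mul, norm_pow, norm_pow, Complex.norm_natCast]
        refine mul_le_mul_of_nonneg_left ?_ (Nat.cast_nonneg n)
        exact mul_le_mul_of_nonneg_right (pow_le_pow_left₀ (norm_nonneg _) hb _) (by positivity)
      refine (add_le_add h1 h2).trans (le_of_eq ?_)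
      obtain ⟨m, rfl⟩ : ∃ m, n = m + 1 := ⟨n - 1, by omega⟩
      have e2 : m + 1 + 1 - 2 = m := by omega
      have e3 : m + 1 - 1 = m := by omega
      rw [e2, e3]
      rcases Nat.eq_zero_or_pos m with h3 | h3
      · subst h3
        norm_num
      · obtain ⟨k, rfl⟩ : ∃ k, m = k + 1 := ⟨m - 1, by omega⟩
        have e4 : k + 1 + 1 - 2 = k := by omega
        rw [e4]
        push_cast
        ring

private theorem avg_coef_nonneg (n : ℕ) : (0 : ℝ) ≤ (n : ℝ) * (n - 1) / 2 := by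
  rcases Nat.eq_zero_or_pos n with h | h
  · subst h
    simp
  · have : (1 : ℝ) ≤ n := by exact_mod_cast h
    have h2 : 0 ≤ (n : ℝ) - 1 := by linarith
    positivity

/-- the average of a power over points with mean `q` and variance at most `V` -/
theorem avg_pow (w : Fin 4 → ℝ) (hw0 : ∀ i, 0 ≤ w i) (hw1 : ∑ i, w i = 1) (z : Fin 4 → ℂ) (q : ℂ)
    (hq : ∑ i, (w i : ℂ) * z i = q) (V ρ : ℝ) (hV : ∑ i, w i * ‖z i - q‖ ^ 2 ≤ V)
    (hz : ∀ i, ‖z i‖ ≤ ρ) (hqρ : ‖q‖ ≤ ρ) (n : ℕ) :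
    ‖∑ i, (w i : ℂ) * z i ^ n - q ^ n‖ ≤ (n : ℝ) * (n - 1) / 2 * ρ ^ (n - 2) * V := by
  have hρ : 0 ≤ ρ := (norm_nonneg q).trans hqρ
  have hw1' : ∑ i, (w i : ℂ) = 1 := by exact_mod_cast hw1
  have e1 : ∑ i, (w i : ℂ) * z i ^ n - q ^ n =
      ∑ i, (w i : ℂ) * (z i ^ n - q ^ n - n * q ^ (n - 1) * (z i - q)) := by
    have h1 : ∑ i, (w i : ℂ) * (z i ^ n - q ^ n - n * q ^ (n - 1) * (z i - q)) =
        ∑ i, (w i : ℂ) * z i ^ n - q ^ n * ∑ i, (w i : ℂ) -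
          n * q ^ (n - 1) * (∑ i, (w i : ℂ) * z i - q * ∑ i, (w i : ℂ)) := by
      simp only [Fin.sum_univ_four]
      ring
    rw [h1, hw1', hq]
    ring
  rw [e1]
  refine (norm_sum_le _ _).trans ?_
  calc ∑ i, ‖(w i : ℂ) * (z i ^ n - q ^ n - n * q ^ (n - 1) * (z i - q))‖
      ≤ ∑ i, ((n : ℝ) * (n - 1) / 2 * ρ ^ (n - 2)) * (w i * ‖z i - q‖ ^ 2) := by
        refine Finset.sum_le_sum fun i _ => ?_
        rw [norm_mul, Complex.norm_real, Real.norm_of_nonneg (hw0 i)]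
        have h2 := pow_taylor (z i) q ρ (hz i) hqρ n
        calc w i * ‖z i ^ n - q ^ n - n * q ^ (n - 1) * (z i - q)‖ ≤
            w i * ((n : ℝ) * (n - 1) / 2 * ρ ^ (n - 2) * ‖z i - q‖ ^ 2) :=
              mul_le_mul_of_nonneg_left h2 (hw0 i)
          _ = _ := by ring
    _ = ((n : ℝ) * (n - 1) / 2 * ρ ^ (n - 2)) * ∑ i, w i * ‖z i - q‖ ^ 2 := by
        rw [Finset.mul_sum]
    _ ≤ _ := mul_le_mul_of_nonneg_left hV (mul_nonneg (avg_coef_nonneg n) (by positivity))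

private theorem avg_norm_le (w : Fin 4 → ℝ) (hw0 : ∀ i, 0 ≤ w i) (hw1 : ∑ i, w i = 1)
    (z : Fin 4 → ℂ) (ρ : ℝ) (hz : ∀ i, ‖z i‖ ≤ ρ) : ‖∑ i, (w i : ℂ) * z i‖ ≤ ρ := by
  refine (norm_sum_le _ _).trans ?_
  calc ∑ i, ‖(w i : ℂ) * z i‖ ≤ ∑ i, w i * ρ := by
        refine Finset.sum_le_sum fun i _ => ?_
        rw [norm_mul, Complex.norm_real, Real.norm_of_nonneg (hw0 i)]
        exact mul_le_mul_of_nonneg_left (hz i) (hw0 i)
    _ = ρ := by rw [← Finset.sum_mul, hw1, one_mul]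

/-- error term for the monomial `q^a p^b` -/
noncomputable def errR (ρ σ hq hp : ℝ) (a b : ℕ) : ℝ :=
  (a : ℝ) * (a - 1) * ρ ^ (a - 2) * hq * σ ^ b + (b : ℝ) * (b - 1) * σ ^ (b - 2) * hp * ρ ^ a

/-- the average of a monomial over a product -/
theorem avg_mono (w v : Fin 4 → ℝ) (hw0 : ∀ i, 0 ≤ w i) (hw1 : ∑ i, w i = 1)
    (hv0 : ∀ i, 0 ≤ v i) (hv1 : ∑ i, v i = 1) (z y : Fin 4 → ℂ) (q p : ℂ)
    (hq : ∑ i, (w i : ℂ) * z i = q) (hp : ∑ i, (v i : ℂ) * y i = p) (hq2 hp2 ρ σ : ℝ)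
    (hV : ∑ i, w i * ‖z i - q‖ ^ 2 ≤ 2 * hq2) (hV' : ∑ i, v i * ‖y i - p‖ ^ 2 ≤ 2 * hp2)
    (hz : ∀ i, ‖z i‖ ≤ ρ) (hy : ∀ i, ‖y i‖ ≤ σ) (a b : ℕ) :
    ‖∑ i, ∑ j, (w i : ℂ) * (v j : ℂ) * (z i ^ a * y j ^ b) - q ^ a * p ^ b‖ ≤
      errR ρ σ hq2 hp2 a b := by
  have hρ : 0 ≤ ρ := (norm_nonneg _).trans (hz 0)
  have hσ : 0 ≤ σ := (norm_nonneg _).trans (hy 0)
  have hqρ : ‖q‖ ≤ ρ := by
    rw [← hq]
    exact avg_norm_le w hw0 hw1 z ρ hz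
  have hpσ : ‖p‖ ≤ σ := by
    rw [← hp]
    exact avg_norm_le v hv0 hv1 y σ hy
  have h1 := avg_pow w hw0 hw1 z q hq _ ρ hV hz hqρ a
  have h2 := avg_pow v hv0 hv1 y p hp _ σ hV' hy hpσ b
  have hB : ‖∑ j, (v j : ℂ) * y j ^ b‖ ≤ σ ^ b := by
    refine avg_norm_le v hv0 hv1 (fun j => y j ^ b) (σ ^ b) fun j => ?_
    rw [norm_pow]
    exact pow_le_pow_left₀ (norm_nonneg _) (hy j) _
  have e1 : ∑ i, ∑ j, (w i : ℂ) * (v j : ℂ) * (z i ^ a * y j ^ b) - q ^ a * p ^ b =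
      (∑ i, (w i : ℂ) * z i ^ a - q ^ a) * (∑ j, (v j : ℂ) * y j ^ b) +
        (∑ j, (v j : ℂ) * y j ^ b - p ^ b) * q ^ a := by
    have h3 : ∑ i, ∑ j, (w i : ℂ) * (v j : ℂ) * (z i ^ a * y j ^ b) =
        (∑ i, (w i : ℂ) * z i ^ a) * (∑ j, (v j : ℂ) * y j ^ b) := by
      rw [Finset.sum_mul_sum]
      refine Finset.sum_congr rfl fun i _ => Finset.sum_congr rfl fun j _ => ?_
      ring
    rw [h3]
    ring
  rw [e1]
  refine (norm_add_le _ _).trans ?_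
  rw [norm_mul, norm_mul, norm_pow]
  have c1 := avg_coef_nonneg a
  have c2 := avg_coef_nonneg b
  have t1 : ‖∑ i, (w i : ℂ) * z i ^ a - q ^ a‖ * ‖∑ j, (v j : ℂ) * y j ^ b‖ ≤
      ((a : ℝ) * (a - 1) / 2 * ρ ^ (a - 2) * (2 * hq2)) * σ ^ b :=
    mul_le_mul h1 hB (norm_nonneg _) ((norm_nonneg _).trans h1)
  have t2 : ‖∑ j, (v j : ℂ) * y j ^ b - p ^ b‖ * ‖q‖ ^ a ≤
      ((b : ℝ) * (b - 1) / 2 * σ ^ (b - 2) * (2 * hp2)) * ρ ^ a :=
    mul_le_mul h2 (pow_le_pow_left₀ (norm_nonneg _) hqρ _) (by positivity)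
      ((norm_nonneg _).trans h2)
  refine (add_le_add t1 t2).trans (le_of_eq ?_)
  unfold errR
  ring

end Pool.Agent.MaxTerm58
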