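import Pool.Agent.MaxTerm58.HypF3
import Pool.Agent.MaxTerm58.Avg

/-! Hints: `||q||^(k+1) * ||LL|| = ||q^(k+1) * LL||`, expand in monomials `q^a p^b`, apply `avg_mono` to each of them and the triangle
inequality for the average; `box_main`: the monomials with exponents at most one are reproduced exactly (`BoxAvg.hq`, `BoxAvg.hp`). -/

namespace Pool.Agent.MaxTerm58

/-- sum of the moduli of the moments, weights `F a b` for the monomials `q^a p^b` -/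
noncomputable def momSum (A B C : ℤ → ℂ) (F : ℕ → ℕ → ℝ) (i : ℕ) : ℝ :=
  ‖A (-((i : ℤ) + 2))‖ * F (i + 1) 0 + ‖B (-((i : ℤ) + 2))‖ * F (2 * i + 3) 0 +
    ‖C (-((i : ℤ) + 2))‖ * F (2 * i + 3) (i + 3) +
    ‖C ((i : ℤ) + 3)‖ * F (i + 1) 0 + ‖B ((i : ℤ) + 3)‖ * F (i + 1) (i + 2) +
    ‖A ((i : ℤ) + 3)‖ * F (2 * i + 4) (i + 2)

/-- data of an average over the vertices of a box -/
structure BoxAvg (w v : Fin 4 → ℝ) (z y : Fin 4 → ℂ) (q p : ℂ) (ρ σ hq2 hp2 : ℝ) : Prop where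
  w0 : ∀ i, 0 ≤ w i
  w1 : ∑ i, w i = 1
  v0 : ∀ i, 0 ≤ v i
  v1 : ∑ i, v i = 1
  hq : ∑ i, (w i : ℂ) * z i = q
  hp : ∑ i, (v i : ℂ) * y i = p
  hV : ∑ i, w i * ‖z i - q‖ ^ 2 ≤ 2 * hq2
  hV' : ∑ i, v i * ‖y i - p‖ ^ 2 ≤ 2 * hp2
  hz : ∀ i, ‖z i‖ ≤ ρ
  hy : ∀ i, ‖y i‖ ≤ σ

private theorem box_three {w v : Fin 4 → ℝ} {z y : Fin 4 → ℂ} {q p : ℂ} {ρ σ hq2 hp2 : ℝ}
    (H : BoxAvg w v z y q p ρ σ hq2 hp2) (c1 c2 c3 : ℂ) (a1 b1 a2 b2 a3 b3 : ℕ) :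
    ‖c1 * (q ^ a1 * p ^ b1) + c2 * (q ^ a2 * p ^ b2) + c3 * (q ^ a3 * p ^ b3)‖ ≤
      ∑ i, ∑ j, w i * v j * ‖c1 * (z i ^ a1 * y j ^ b1) + c2 * (z i ^ a2 * y j ^ b2) +
        c3 * (z i ^ a3 * y j ^ b3)‖ +
      (‖c1‖ * errR ρ σ hq2 hp2 a1 b1 + ‖c2‖ * errR ρ σ hq2 hp2 a2 b2 +
        ‖c3‖ * errR ρ σ hq2 hp2 a3 b3) := by
  have mono : ∀ a b : ℕ, ‖∑ i, ∑ j, (w i : ℂ) * (v j : ℂ) * (z i ^ a * y j ^ b) - q ^ a * p ^ b‖ ≤
      errR ρ σ hq2 hp2 a b := fun a b =>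
    avg_mono w v H.w0 H.w1 H.v0 H.v1 z y q p H.hq H.hp hq2 hp2 ρ σ H.hV H.hV' H.hz H.hy a b
  have e1 := mono a1 b1
  have e2 := mono a2 b2
  have e3 := mono a3 b3
  set M1 := ∑ i, ∑ j, (w i : ℂ) * (v j : ℂ) * (z i ^ a1 * y j ^ b1) with hM1
  set M2 := ∑ i, ∑ j, (w i : ℂ) * (v j : ℂ) * (z i ^ a2 * y j ^ b2) with hM2
  set M3 := ∑ i, ∑ j, (w i : ℂ) * (v j : ℂ) * (z i ^ a3 * y j ^ b3) with hM3
  have hM : c1 * M1 + c2 * M2 + c3 * M3 = ∑ i, ∑ j, (w i : ℂ) * (v j : ℂ) *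
      (c1 * (z i ^ a1 * y j ^ b1) + c2 * (z i ^ a2 * y j ^ b2) + c3 * (z i ^ a3 * y j ^ b3)) := by
    rw [hM1, hM2, hM3]
    simp only [Finset.mul_sum, ← Finset.sum_add_distrib]
    refine Finset.sum_congr rfl fun i _ => Finset.sum_congr rfl fun j _ => ?_
    ring
  have hMn : ‖c1 * M1 + c2 * M2 + c3 * M3‖ ≤ ∑ i, ∑ j, w i * v j *
      ‖c1 * (z i ^ a1 * y j ^ b1) + c2 * (z i ^ a2 * y j ^ b2) + c3 * (z i ^ a3 * y j ^ b3)‖ := by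
    rw [hM]
    refine (norm_sum_le _ _).trans (Finset.sum_le_sum fun i _ => ?_)
    refine (norm_sum_le _ _).trans (Finset.sum_le_sum fun j _ => ?_)
    rw [norm_mul, norm_mul, Complex.norm_real, Complex.norm_real, Real.norm_eq_abs,
      Real.norm_eq_abs, abs_of_nonneg (H.w0 i), abs_of_nonneg (H.v0 j)]
  have hdec : c1 * (q ^ a1 * p ^ b1) + c2 * (q ^ a2 * p ^ b2) + c3 * (q ^ a3 * p ^ b3) =
      (c1 * M1 + c2 * M2 + c3 * M3) - (c1 * (M1 - q ^ a1 * p ^ b1) + c2 * (M2 - q ^ a2 * p ^ b2) +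
        c3 * (M3 - q ^ a3 * p ^ b3)) := by ring
  rw [hdec]
  refine (norm_sub_le _ _).trans (add_le_add hMn ?_)
  refine (norm_add₃_le).trans ?_
  rw [norm_mul, norm_mul, norm_mul]
  gcongr

theorem box_LL {w v : Fin 4 → ℝ} {z y : Fin 4 → ℂ} {q p : ℂ} {ρ σ hq2 hp2 : ℝ}
    (H : BoxAvg w v z y q p ρ σ hq2 hp2) (A B C : ℤ → ℂ) (k : ℕ) :
    ‖q‖ ^ (k + 1) * ‖LL A B C q p k‖ ≤
      ∑ i, ∑ j, w i * v j * (‖z i‖ ^ (k + 1) * ‖LL A B C (z i) (y j) k‖) +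
      (‖A (-((k : ℤ) + 2))‖ * errR ρ σ hq2 hp2 (k + 1) 0 +
        ‖B (-((k : ℤ) + 2))‖ * errR ρ σ hq2 hp2 (2 * k + 3) 0 +
        ‖C (-((k : ℤ) + 2))‖ * errR ρ σ hq2 hp2 (2 * k + 3) (k + 3)) := by
  have key : ∀ q p : ℂ, ‖q‖ ^ (k + 1) * ‖LL A B C q p k‖ =
      ‖A (-((k : ℤ) + 2)) * (q ^ (k + 1) * p ^ 0) + B (-((k : ℤ) + 2)) * (q ^ (2 * k + 3) * p ^ 0) +
        C (-((k : ℤ) + 2)) * (q ^ (2 * k + 3) * p ^ (k + 3))‖ := by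
    intro q p
    rw [← norm_pow, ← norm_mul]
    congr 1
    unfold LL
    ring
  rw [key q p]
  simp only [key]
  exact box_three H _ _ _ _ _ _ _ _ _

theorem box_RR {w v : Fin 4 → ℝ} {z y : Fin 4 → ℂ} {q p : ℂ} {ρ σ hq2 hp2 : ℝ}
    (H : BoxAvg w v z y q p ρ σ hq2 hp2) (A B C : ℤ → ℂ) (k : ℕ) :
    ‖q‖ ^ (k + 1) * ‖RR A B C q p k‖ ≤
      ∑ i, ∑ j, w i * v j * (‖z i‖ ^ (k + 1) * ‖RR A B C (z i) (y j) k‖) +
      (‖C ((k : ℤ) + 3)‖ * errR ρ σ hq2 hp2 (k + 1) 0 +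
        ‖B ((k : ℤ) + 3)‖ * errR ρ σ hq2 hp2 (k + 1) (k + 2) +
        ‖A ((k : ℤ) + 3)‖ * errR ρ σ hq2 hp2 (2 * k + 4) (k + 2)) := by
  have key : ∀ q p : ℂ, ‖q‖ ^ (k + 1) * ‖RR A B C q p k‖ =
      ‖C ((k : ℤ) + 3) * (q ^ (k + 1) * p ^ 0) + B ((k : ℤ) + 3) * (q ^ (k + 1) * p ^ (k + 2)) +
        A ((k : ℤ) + 3) * (q ^ (2 * k + 4) * p ^ (k + 2))‖ := by
    intro q p
    rw [← norm_pow, ← norm_mul]
    congr 1
    unfold RR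
    ring
  rw [key q p]
  simp only [key]
  exact box_three H _ _ _ _ _ _ _ _ _

theorem box_main {w v : Fin 4 → ℝ} {z y : Fin 4 → ℂ} {q p : ℂ} {ρ σ hq2 hp2 : ℝ}
    (H : BoxAvg w v z y q p ρ σ hq2 hp2) (A B C : ℤ → ℂ) :
    ∑ i, ∑ j, w i * v j * (mainF A B C (z i) (y j)).re -
      (‖A 2‖ * errR ρ σ hq2 hp2 2 1 + ‖C (-1)‖ * errR ρ σ hq2 hp2 1 2) ≤ (mainF A B C q p).re := by
  have mono : ∀ a b : ℕ, ‖∑ i, ∑ j, (w i : ℂ) * (v j : ℂ) * (z i ^ a * y j ^ b) - q ^ a * p ^ b‖ ≤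
      errR ρ σ hq2 hp2 a b := fun a b =>
    avg_mono w v H.w0 H.w1 H.v0 H.v1 z y q p H.hq H.hp hq2 hp2 ρ σ H.hV H.hV' H.hz H.hy a b
  have e1 := mono 2 1
  have e2 := mono 1 2
  set M1 := ∑ i, ∑ j, (w i : ℂ) * (v j : ℂ) * (z i ^ 2 * y j ^ 1) with hM1
  set M2 := ∑ i, ∑ j, (w i : ℂ) * (v j : ℂ) * (z i ^ 1 * y j ^ 2) with hM2
  have hw1 : ∑ i, (w i : ℂ) = 1 := by exact_mod_cast H.w1
  have hv1 : ∑ i, (v i : ℂ) = 1 := by exact_mod_cast H.v1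
  have E1 : ∑ i, ∑ j, (w i : ℂ) * (v j : ℂ) * z i = q := by
    rw [← H.hq]
    refine Finset.sum_congr rfl fun i _ => ?_
    rw [← Finset.sum_mul, ← Finset.mul_sum, hv1, mul_one]
  have E2 : ∑ i, ∑ j, (w i : ℂ) * (v j : ℂ) * y j = p := by
    have : ∀ i, ∑ j, (w i : ℂ) * (v j : ℂ) * y j = (w i : ℂ) * p := by
      intro i
      rw [← H.hp, Finset.mul_sum]
      exact Finset.sum_congr rfl fun j _ => by ring
    simp only [this]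
    rw [← Finset.sum_mul, hw1, one_mul]
  have hE : ∑ i, ∑ j, (w i : ℂ) * (v j : ℂ) * mainF A B C (z i) (y j) =
      mainF A B C q p + (A 2 * (M1 - q ^ 2 * p ^ 1) + C (-1) * (M2 - q ^ 1 * p ^ 2)) := by
    have h1 : ∀ i j, (w i : ℂ) * (v j : ℂ) * mainF A B C (z i) (y j) =
        ((A (-1) + A 0 + B 0 + B 1 + C 1 + C 2) * ((w i : ℂ) * (v j : ℂ)) +
          (A 1 + B (-1)) * ((w i : ℂ) * (v j : ℂ) * z i) +
          (B 2 + C 0) * ((w i : ℂ) * (v j : ℂ) * y j)) +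
          (A 2 * ((w i : ℂ) * (v j : ℂ) * (z i ^ 2 * y j ^ 1)) +
          C (-1) * ((w i : ℂ) * (v j : ℂ) * (z i ^ 1 * y j ^ 2))) := by
      intro i j
      unfold mainF
      ring
    simp only [h1, Finset.sum_add_distrib, ← Finset.mul_sum, E1, E2, ← hM1, ← hM2, hv1, hw1, mul_one]
    unfold mainF
    ring
  have hre : ∑ i, ∑ j, w i * v j * (mainF A B C (z i) (y j)).re =
      (∑ i, ∑ j, (w i : ℂ) * (v j : ℂ) * mainF A B C (z i) (y j)).re := by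
    simp only [Complex.re_sum]
    refine Finset.sum_congr rfl fun i _ => Finset.sum_congr rfl fun j _ => ?_
    rw [← Complex.ofReal_mul, Complex.re_ofReal_mul]
  rw [hre, hE, Complex.add_re]
  have hb : (A 2 * (M1 - q ^ 2 * p ^ 1) + C (-1) * (M2 - q ^ 1 * p ^ 2)).re ≤
      ‖A 2‖ * errR ρ σ hq2 hp2 2 1 + ‖C (-1)‖ * errR ρ σ hq2 hp2 1 2 := by
    refine (Complex.re_le_norm _).trans ((norm_add_le _ _).trans ?_)
    rw [norm_mul, norm_mul]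
    gcongr
  linarith

/-- lower bound of the functional on a box from its values at the vertices -/
theorem box_lower {w v : Fin 4 → ℝ} {z y : Fin 4 → ℂ} {q p : ℂ} {ρ σ hq2 hp2 : ℝ}
    (H : BoxAvg w v z y q p ρ σ hq2 hp2) (A B C : ℤ → ℂ) (n : ℕ) (m : ℝ)
    (h : ∀ i j, m ≤ (mainF A B C (z i) (y j)).re - 1001 / 1000 * ∑ k ∈ Finset.range n,
      ‖z i‖ ^ (k + 1) * (‖LL A B C (z i) (y j) k‖ + ‖RR A B C (z i) (y j) k‖)) :
    m ≤ (mainF A B C q p).re - 1001 / 1000 * (∑ k ∈ Finset.range n,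
        ‖q‖ ^ (k + 1) * (‖LL A B C q p k‖ + ‖RR A B C q p k‖)) +
      1001 / 1000 * (∑ k ∈ Finset.range n, momSum A B C (errR ρ σ hq2 hp2) k) +
      (‖A 2‖ * errR ρ σ hq2 hp2 2 1 + ‖C (-1)‖ * errR ρ σ hq2 hp2 1 2) := by
  have hmain := box_main H A B C
  have hm : m ≤ ∑ i, ∑ j, w i * v j * ((mainF A B C (z i) (y j)).re -
      1001 / 1000 * ∑ k ∈ Finset.range n,
        ‖z i‖ ^ (k + 1) * (‖LL A B C (z i) (y j) k‖ + ‖RR A B C (z i) (y j) k‖)) := by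
    have h1 : m = ∑ i, ∑ j, w i * v j * m := by
      simp only [← Finset.sum_mul, ← Finset.mul_sum, H.w1, H.v1, one_mul, mul_one]
    calc m = ∑ i, ∑ j, w i * v j * m := h1
      _ ≤ _ := Finset.sum_le_sum fun i _ => Finset.sum_le_sum fun j _ =>
        mul_le_mul_of_nonneg_left (h i j) (mul_nonneg (H.w0 i) (H.v0 j))
  have hsplit : ∑ i, ∑ j, w i * v j * ((mainF A B C (z i) (y j)).re -
      1001 / 1000 * ∑ k ∈ Finset.range n,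
        ‖z i‖ ^ (k + 1) * (‖LL A B C (z i) (y j) k‖ + ‖RR A B C (z i) (y j) k‖)) =
      ∑ i, ∑ j, w i * v j * (mainF A B C (z i) (y j)).re -
      1001 / 1000 * ∑ k ∈ Finset.range n,
        (∑ i, ∑ j, w i * v j * (‖z i‖ ^ (k + 1) * ‖LL A B C (z i) (y j) k‖) +
          ∑ i, ∑ j, w i * v j * (‖z i‖ ^ (k + 1) * ‖RR A B C (z i) (y j) k‖)) := by
    have h2 : ∑ k ∈ Finset.range n,
        (∑ i, ∑ j, w i * v j * (‖z i‖ ^ (k + 1) * ‖LL A B C (z i) (y j) k‖) +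
          ∑ i, ∑ j, w i * v j * (‖z i‖ ^ (k + 1) * ‖RR A B C (z i) (y j) k‖)) =
        ∑ i, ∑ j, w i * v j * ∑ k ∈ Finset.range n,
          ‖z i‖ ^ (k + 1) * (‖LL A B C (z i) (y j) k‖ + ‖RR A B C (z i) (y j) k‖) := by
      simp only [← Finset.sum_add_distrib]
      rw [Finset.sum_comm]
      refine Finset.sum_congr rfl fun i _ => ?_
      rw [Finset.sum_comm]
      refine Finset.sum_congr rfl fun j _ => ?_
      rw [Finset.mul_sum]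
      refine Finset.sum_congr rfl fun k _ => ?_
      ring
    rw [h2, Finset.mul_sum, ← Finset.sum_sub_distrib]
    refine Finset.sum_congr rfl fun i _ => ?_
    rw [Finset.mul_sum, ← Finset.sum_sub_distrib]
    refine Finset.sum_congr rfl fun j _ => ?_
    ring
  rw [hsplit] at hm
  have hk : ∑ k ∈ Finset.range n,
        (‖q‖ ^ (k + 1) * (‖LL A B C q p k‖ + ‖RR A B C q p k‖)) ≤
      ∑ k ∈ Finset.range n,
        (∑ i, ∑ j, w i * v j * (‖z i‖ ^ (k + 1) * ‖LL A B C (z i) (y j) k‖) +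
          ∑ i, ∑ j, w i * v j * (‖z i‖ ^ (k + 1) * ‖RR A B C (z i) (y j) k‖)) +
      ∑ k ∈ Finset.range n, momSum A B C (errR ρ σ hq2 hp2) k := by
    rw [← Finset.sum_add_distrib]
    refine Finset.sum_le_sum fun k _ => ?_
    have hL := box_LL H A B C k
    have hR := box_RR H A B C k
    rw [mul_add]
    unfold momSum
    linarith
  linarith

end Pool.Agent.MaxTerm58
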