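import Pool.Agent.MaxTerm58.HypTI
import Pool.Agent.MaxTerm58.Box

/-! Averages over the vertices of a square, type I. Hints: `avg_pow` (with `V = 2 * hq2`), the main term is affine in `q`. -/

namespace Pool.Agent.MaxTerm58

private theorem BoxTI_q {w v : Fin 4 → ℝ} {z y : Fin 4 → ℂ} {q p : ℂ} {ρ σ hq2 hp2 : ℝ}
    (H : BoxAvg w v z y q p ρ σ hq2 hp2) : ‖q‖ ≤ ρ := by
  rw [← H.hq]
  refine (norm_sum_le _ _).trans ?_
  calc ∑ i, ‖(w i : ℂ) * z i‖ ≤ ∑ i, w i * ρ := by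
        refine Finset.sum_le_sum fun i _ => ?_
        rw [norm_mul, Complex.norm_real, Real.norm_of_nonneg (H.w0 i)]
        exact mul_le_mul_of_nonneg_left (H.hz i) (H.w0 i)
    _ = ρ := by rw [← Finset.sum_mul, H.w1, one_mul]

private theorem BoxTI_two {w v : Fin 4 → ℝ} {z y : Fin 4 → ℂ} {q p : ℂ} {ρ σ hq2 hp2 : ℝ}
    (H : BoxAvg w v z y q p ρ σ hq2 hp2) (c1 c2 : ℂ) (a b : ℕ) :
    ‖c1 * q ^ a + c2 * q ^ b‖ ≤ ∑ j, w j * ‖c1 * z j ^ a + c2 * z j ^ b‖ +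
      (‖c1‖ * e1 ρ hq2 a + ‖c2‖ * e1 ρ hq2 b) := by
  have mono : ∀ n : ℕ, ‖∑ i, (w i : ℂ) * z i ^ n - q ^ n‖ ≤ e1 ρ hq2 n := by
    intro n
    have h1 := avg_pow w H.w0 H.w1 z q H.hq (2 * hq2) ρ H.hV H.hz (BoxTI_q H) n
    refine h1.trans (le_of_eq ?_)
    unfold e1
    ring
  have f1 := mono a
  have f2 := mono b
  set M1 := ∑ i, (w i : ℂ) * z i ^ a with hM1
  set M2 := ∑ i, (w i : ℂ) * z i ^ b with hM2
  have hM : c1 * M1 + c2 * M2 = ∑ i, (w i : ℂ) * (c1 * z i ^ a + c2 * z i ^ b) := by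
    rw [hM1, hM2]
    simp only [Finset.mul_sum, ← Finset.sum_add_distrib]
    refine Finset.sum_congr rfl fun i _ => ?_
    ring
  have hMn : ‖c1 * M1 + c2 * M2‖ ≤ ∑ j, w j * ‖c1 * z j ^ a + c2 * z j ^ b‖ := by
    rw [hM]
    refine (norm_sum_le _ _).trans (Finset.sum_le_sum fun i _ => ?_)
    rw [norm_mul, Complex.norm_real, Real.norm_eq_abs, abs_of_nonneg (H.w0 i)]
  have hdec : c1 * q ^ a + c2 * q ^ b =
      (c1 * M1 + c2 * M2) - (c1 * (M1 - q ^ a) + c2 * (M2 - q ^ b)) := by ring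
  rw [hdec]
  refine (norm_sub_le _ _).trans (add_le_add hMn ?_)
  refine (norm_add_le _ _).trans ?_
  rw [norm_mul, norm_mul]
  gcongr

theorem ti_box_K {w v : Fin 4 → ℝ} {z y : Fin 4 → ℂ} {q p : ℂ} {ρ σ hq2 hp2 : ℝ}
    (H : BoxAvg w v z y q p ρ σ hq2 hp2) (L : ℤ → ℂ) (k : ℕ) :
    ‖coefTI L q k‖ ≤ ∑ j, w j * ‖coefTI L (z j) k‖ + ‖L ((k : ℤ) + 2)‖ * e1 ρ hq2 (k + 2) := by
  have key : ∀ q : ℂ, coefTI L q k =
      L (-((k : ℤ) + 2)) * q ^ 0 + L ((k : ℤ) + 2) * q ^ (k + 2) := by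
    intro q
    unfold coefTI
    ring
  have h := BoxTI_two H (L (-((k : ℤ) + 2))) (L ((k : ℤ) + 2)) 0 (k + 2)
  have h0 : e1 ρ hq2 0 = 0 := by
    unfold e1
    simp
  rw [h0, mul_zero, zero_add] at h
  simp only [key]
  exact h

theorem ti_box_Y {w v : Fin 4 → ℝ} {z y : Fin 4 → ℂ} {q p : ℂ} {ρ σ hq2 hp2 : ℝ}
    (H : BoxAvg w v z y q p ρ σ hq2 hp2) (L : ℤ → ℂ) (k : ℕ) :
    ‖q‖ ^ (k + 1) * ‖coefTI L q k‖ ≤ ∑ j, w j * (‖z j‖ ^ (k + 1) * ‖coefTI L (z j) k‖) +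
      (‖L (-((k : ℤ) + 2))‖ * e1 ρ hq2 (k + 1) + ‖L ((k : ℤ) + 2)‖ * e1 ρ hq2 (2 * k + 3)) := by
  have key : ∀ q : ℂ, ‖q‖ ^ (k + 1) * ‖coefTI L q k‖ =
      ‖L (-((k : ℤ) + 2)) * q ^ (k + 1) + L ((k : ℤ) + 2) * q ^ (2 * k + 3)‖ := by
    intro q
    rw [← norm_pow, ← norm_mul]
    congr 1
    unfold coefTI
    ring
  simp only [key]
  exact BoxTI_two H _ _ _ _

private theorem BoxTI_step {w v : Fin 4 → ℝ} {z y : Fin 4 → ℂ} {q p : ℂ} {ρ σ hq2 hp2 : ℝ}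
    (H : BoxAvg w v z y q p ρ σ hq2 hp2) (L : ℤ → ℂ) (K : ℕ) (sg : ℝ) (hsg : 0 ≤ sg) (k : ℕ) :
    mulTI sg ‖q‖ K k * ‖coefTI L q k‖ ≤
      ∑ j, w j * (mulTI sg ‖z j‖ K k * ‖coefTI L (z j) k‖) + errTI L ρ hq2 sg K k := by
  unfold mulTI errTI
  split_ifs with h
  · have h1 := mul_le_mul_of_nonneg_left (ti_box_K H L k) hsg
    rw [mul_add, Finset.mul_sum] at h1
    refine h1.trans (le_of_eq ?_)
    congr 1
    refine Finset.sum_congr rfl fun j _ => ?_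
    ring
  · exact ti_box_Y H L k

private theorem BoxTI_main {w v : Fin 4 → ℝ} {z y : Fin 4 → ℂ} {q p : ℂ} {ρ σ hq2 hp2 : ℝ}
    (H : BoxAvg w v z y q p ρ σ hq2 hp2) (L : ℤ → ℂ) (N : ℕ) :
    ∑ j, w j * (mainTI L N (z j)).re = (mainTI L N q).re := by
  have hw1 : ∑ i, (w i : ℂ) = 1 := by exact_mod_cast H.w1
  have h1 : ∑ j, (w j : ℂ) * mainTI L N (z j) = mainTI L N q := by
    have h2 : ∀ j, (w j : ℂ) * mainTI L N (z j) =
        (L 0 + (dmpR N 1 : ℂ) * L (-1)) * (w j : ℂ) + ((dmpR N 1 : ℂ) * L 1) * ((w j : ℂ) * z j) := by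
      intro j
      unfold mainTI
      ring
    simp only [h2, Finset.sum_add_distrib, ← Finset.mul_sum, hw1, H.hq]
    unfold mainTI
    ring
  rw [← h1, Complex.re_sum]
  refine Finset.sum_congr rfl fun j _ => ?_
  rw [Complex.re_ofReal_mul]

private theorem BoxTI_dmp (N k : ℕ) : 0 ≤ dmpR N k := by
  unfold dmpR
  split_ifs
  · exact zero_le_one
  · positivity

theorem ti_box {w v : Fin 4 → ℝ} {z y : Fin 4 → ℂ} {q p : ℂ} {ρ σ hq2 hp2 : ℝ}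
    (H : BoxAvg w v z y q p ρ σ hq2 hp2) (L : ℤ → ℂ) (N K n : ℕ) (sg : ℝ) (hsg : 0 ≤ sg) (m : ℝ)
    (h : ∀ j, m ≤ (mainTI L N (z j)).re - 1002 / 1000 * ∑ k ∈ Finset.range n,
      dmpR N (k + 2) * (mulTI sg ‖z j‖ K k * ‖coefTI L (z j) k‖)) :
    m ≤ (mainTI L N q).re - 1002 / 1000 * (∑ k ∈ Finset.range n,
        dmpR N (k + 2) * (mulTI sg ‖q‖ K k * ‖coefTI L q k‖)) +
      1002 / 1000 * (∑ k ∈ Finset.range n, dmpR N (k + 2) * errTI L ρ hq2 sg K k) := by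
  have hm : m ≤ ∑ j, w j * ((mainTI L N (z j)).re - 1002 / 1000 * ∑ k ∈ Finset.range n,
      dmpR N (k + 2) * (mulTI sg ‖z j‖ K k * ‖coefTI L (z j) k‖)) := by
    have h1 : m = ∑ j, w j * m := by
      rw [← Finset.sum_mul, H.w1, one_mul]
    calc m = ∑ j, w j * m := h1
      _ ≤ _ := Finset.sum_le_sum fun j _ => mul_le_mul_of_nonneg_left (h j) (H.w0 j)
  have hsplit : ∑ j, w j * ((mainTI L N (z j)).re - 1002 / 1000 * ∑ k ∈ Finset.range n,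
      dmpR N (k + 2) * (mulTI sg ‖z j‖ K k * ‖coefTI L (z j) k‖)) =
      (mainTI L N q).re - 1002 / 1000 * ∑ k ∈ Finset.range n,
        dmpR N (k + 2) * ∑ j, w j * (mulTI sg ‖z j‖ K k * ‖coefTI L (z j) k‖) := by
    rw [← BoxTI_main H L N]
    have h2 : ∑ k ∈ Finset.range n,
        dmpR N (k + 2) * ∑ j, w j * (mulTI sg ‖z j‖ K k * ‖coefTI L (z j) k‖) =
        ∑ j, w j * ∑ k ∈ Finset.range n,
          dmpR N (k + 2) * (mulTI sg ‖z j‖ K k * ‖coefTI L (z j) k‖) := by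
      simp only [Finset.mul_sum]
      rw [Finset.sum_comm]
      refine Finset.sum_congr rfl fun j _ => Finset.sum_congr rfl fun k _ => ?_
      ring
    rw [h2, Finset.mul_sum, ← Finset.sum_sub_distrib]
    refine Finset.sum_congr rfl fun j _ => ?_
    ring
  rw [hsplit] at hm
  have hk : ∑ k ∈ Finset.range n, dmpR N (k + 2) * (mulTI sg ‖q‖ K k * ‖coefTI L q k‖) ≤
      ∑ k ∈ Finset.range n,
        dmpR N (k + 2) * ∑ j, w j * (mulTI sg ‖z j‖ K k * ‖coefTI L (z j) k‖) +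
      ∑ k ∈ Finset.range n, dmpR N (k + 2) * errTI L ρ hq2 sg K k := by
    rw [← Finset.sum_add_distrib]
    refine Finset.sum_le_sum fun k _ => ?_
    rw [← mul_add]
    exact mul_le_mul_of_nonneg_left (BoxTI_step H L K sg hsg k) (BoxTI_dmp N _)
  linarith

end Pool.Agent.MaxTerm58
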