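import Pool.Agent.MaxTerm58.CheckF3

/-! Representation of Gaussian integers by packed numbers. Hints: `XX` and `MM` are irreducible, use only `XX_sq`, `XX_eq`, `MM_eq`
(cast `XX_sq` to the integers); `CRep.mul`: `(m + nX)(m' + n'X) = (mm' - nn') + (mn' + nm')X + nn'(X^2 + 1)`;
`Nat.mod`, `Nat.mul`, ... are the raw functions (`Nat.mul a b = a * b` by `rfl`, `show` or `simp only [Nat.mul_eq]`).
`nst_spec`: with `g >= 1`, `floor((g + floor(n/g))/2) + 1 >= (g + n/g)/2 >= sqrt n`. -/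

namespace Pool.Agent.MaxTerm58

/-- `x` represents the Gaussian integer `w` -/
def CRep (x : PC) (w : ℂ) : Prop :=
  ∃ m n : ℤ, w = (m : ℂ) + (n : ℂ) * Complex.I ∧
    (MM : ℤ) ∣ (x.a : ℤ) - (m + n * (XX : ℤ)) ∧ (MM : ℤ) ∣ (x.b : ℤ) - (m - n * (XX : ℤ))

theorem XX_sq : XX ^ 2 + 1 = MM := by
  unfold XX MM; rw [← pow_mul]

theorem XX_eq : XX = 2 ^ 640 := by unfold XX; rfl

theorem MM_eq : MM = 2 ^ 1280 + 1 := by unfold MM; rfl

private theorem CRep_X2 : ((XX : ℕ) : ZMod MM) ^ 2 = -1 := by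
  have h1 : (((XX ^ 2 + 1 : ℕ)) : ZMod MM) = ((MM : ℕ) : ZMod MM) := by rw [XX_sq]
  rw [ZMod.natCast_self] at h1
  push_cast at h1
  linear_combination h1

private theorem CRep_dvd (a : ℕ) (t : ℤ) :
    (MM : ℤ) ∣ (a : ℤ) - t ↔ ((a : ℕ) : ZMod MM) = (t : ZMod MM) := by
  rw [← ZMod.intCast_eq_intCast_iff_dvd_sub, Int.cast_natCast]
  exact eq_comm

private theorem CRep_iff (x : PC) (w : ℂ) : CRep x w ↔
    ∃ m n : ℤ, w = (m : ℂ) + (n : ℂ) * Complex.I ∧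
      ((x.a : ℕ) : ZMod MM) = (m : ZMod MM) + (n : ZMod MM) * (XX : ZMod MM) ∧
      ((x.b : ℕ) : ZMod MM) = (m : ZMod MM) - (n : ZMod MM) * (XX : ZMod MM) := by
  unfold CRep
  constructor
  · rintro ⟨m, n, h1, h2, h3⟩
    rw [CRep_dvd] at h2 h3
    push_cast at h2 h3
    exact ⟨m, n, h1, h2, h3⟩
  · rintro ⟨m, n, h1, h2, h3⟩
    refine ⟨m, n, h1, ?_, ?_⟩
    · rw [CRep_dvd]; push_cast; exact h2
    · rw [CRep_dvd]; push_cast; exact h3

private theorem le_of_sq_le_sq_CRep {a b : ℝ} (hb : 0 ≤ b) (h : a ^ 2 ≤ b ^ 2) : a ≤ b := by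
  by_contra hcon
  rw [not_le] at hcon
  nlinarith

private theorem CRep_div (N D : ℕ) (hD : 0 < D) : (N : ℝ) / (D : ℝ) ≤ ((Nat.succ (Nat.div N D) : ℕ) : ℝ) := by
  have h1 : N < D * (N / D + 1) := Nat.lt_mul_div_succ N hD
  have hD' : (0 : ℝ) < D := by exact_mod_cast hD
  rw [div_le_iff₀ hD']
  have h2 : (N : ℝ) < (D : ℝ) * ((N / D : ℕ) + 1) := by exact_mod_cast h1
  have h3 : ((Nat.succ (Nat.div N D) : ℕ) : ℝ) = ((N / D : ℕ) : ℝ) + 1 := by
    push_cast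
    rfl
  rw [h3]
  linarith

theorem CRep.mul {x y : PC} {w v : ℂ} (hx : CRep x w) (hy : CRep y v) : CRep (x.mul y) (w * v) := by
  rw [CRep_iff] at hx hy ⊢
  obtain ⟨m, n, hw, h1, h2⟩ := hx
  obtain ⟨m', n', hv, h1', h2'⟩ := hy
  have hX := CRep_X2
  refine ⟨m * m' - n * n', m * n' + n * m', ?_, ?_, ?_⟩
  · rw [hw, hv]
    push_cast
    linear_combination ((n : ℂ) * (n' : ℂ)) * Complex.I_sq
  · have h3 : (x.mul y).a = (x.a * y.a) % MM := rfl
    rw [h3, ZMod.natCast_mod]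
    push_cast
    rw [h1, h1']
    linear_combination ((n : ZMod MM) * (n' : ZMod MM)) * hX
  · have h3 : (x.mul y).b = (x.b * y.b) % MM := rfl
    rw [h3, ZMod.natCast_mod]
    push_cast
    rw [h2, h2']
    linear_combination ((n : ZMod MM) * (n' : ZMod MM)) * hX

theorem CRep.add {x y : PC} {w v : ℂ} (hx : CRep x w) (hy : CRep y v) : CRep (x.add y) (w + v) := by
  rw [CRep_iff] at hx hy ⊢
  obtain ⟨m, n, hw, h1, h2⟩ := hx
  obtain ⟨m', n', hv, h1', h2'⟩ := hy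
  refine ⟨m + m', n + n', ?_, ?_, ?_⟩
  · rw [hw, hv]
    push_cast
    ring
  · have h3 : (x.add y).a = x.a + y.a := rfl
    rw [h3]
    push_cast
    rw [h1, h1']
    ring
  · have h3 : (x.add y).b = x.b + y.b := rfl
    rw [h3]
    push_cast
    rw [h2, h2']
    ring

theorem CRep.smul {x : PC} {w : ℂ} (n : ℕ) (hx : CRep x w) : CRep (x.smul n) ((n : ℂ) * w) := by
  rw [CRep_iff] at hx ⊢
  obtain ⟨m, k, hw, h1, h2⟩ := hx
  refine ⟨n * m, n * k, ?_, ?_, ?_⟩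
  · rw [hw]
    push_cast
    ring
  · have h3 : (x.smul n).a = n * x.a := rfl
    rw [h3]
    push_cast
    rw [h1]
    ring
  · have h3 : (x.smul n).b = n * x.b := rfl
    rw [h3]
    push_cast
    rw [h2]
    ring

theorem CRep.conj {x : PC} {w : ℂ} (hx : CRep x w) : CRep x.conj ((starRingEnd ℂ) w) := by
  rw [CRep_iff] at hx ⊢
  obtain ⟨m, n, hw, h1, h2⟩ := hx
  refine ⟨m, -n, ?_, ?_, ?_⟩
  · rw [hw, map_add, map_mul, Complex.conj_I, map_intCast, map_intCast]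
    push_cast
    ring
  · have h3 : x.conj.a = x.b := rfl
    rw [h3, h2]
    push_cast
    ring
  · have h3 : x.conj.b = x.a := rfl
    rw [h3, h1]
    push_cast
    ring

theorem CRep.zero : CRep ⟨0, 0⟩ 0 := by
  refine ⟨0, 0, by simp, by simp, by simp⟩

theorem encP_rep (o a b : ℕ) (ho : 0 < o) (hb : b ≤ o * XX) :
    CRep (encP o a b) (((a : ℂ) - o) + ((b : ℂ) - o) * Complex.I) := by
  have hXM := XX_sq
  have hXpos : 1 ≤ XX := by rw [XX_eq]; exact Nat.one_le_two_pow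
  have h1 : o + o * XX ≤ o * MM := by
    rw [← hXM]
    have h2 : XX ≤ XX ^ 2 := by nlinarith
    nlinarith
  have h3 : o + b * XX ≤ a + (o * MM + o * XX) := by
    rw [← hXM]
    have h4 : b * XX ≤ (o * XX) * XX := Nat.mul_le_mul_right XX hb
    nlinarith
  rw [CRep_iff]
  refine ⟨(a : ℤ) - o, (b : ℤ) - o, ?_, ?_, ?_⟩
  · push_cast
    ring
  · have h5 : (encP o a b).a = (a + b * XX) + (o * MM - (o + o * XX)) := rfl
    rw [h5]
    push_cast [Nat.cast_sub h1]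
    rw [ZMod.natCast_self]
    ring
  · have h5 : (encP o a b).b = (a + (o * MM + o * XX)) - (o + b * XX) := rfl
    rw [h5]
    push_cast [Nat.cast_sub h3]
    rw [ZMod.natCast_self]
    ring

/-- the square of the modulus is read off if it is small -/
theorem CRep.nsq_eq {x : PC} {w : ℂ} (h : CRep x w) (hw : ‖w‖ ^ 2 < (MM : ℝ)) :
    ((x.nsq : ℕ) : ℝ) = ‖w‖ ^ 2 := by
  rw [CRep_iff] at h
  obtain ⟨m, n, hw', h1, h2⟩ := h
  have hX := CRep_X2
  have hn : ‖w‖ ^ 2 = ((m ^ 2 + n ^ 2 : ℤ) : ℝ) := by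
    rw [Complex.sq_norm, Complex.normSq_apply, hw']
    simp
    ring
  obtain ⟨N, hN⟩ : ∃ N : ℕ, (m ^ 2 + n ^ 2 : ℤ) = N := ⟨(m ^ 2 + n ^ 2).toNat, by
    rw [Int.toNat_of_nonneg (by positivity)]⟩
  rw [hN] at hn
  rw [hn] at hw ⊢
  have hNM : N < MM := by
    have : ((N : ℤ) : ℝ) < ((MM : ℕ) : ℝ) := hw
    exact_mod_cast this
  have h3 : x.nsq = (x.a * x.b) % MM := rfl
  have h4 : ((x.a * x.b : ℕ) : ZMod MM) = ((N : ℕ) : ZMod MM) := by
    have h5 : (((N : ℤ)) : ZMod MM) = ((m ^ 2 + n ^ 2 : ℤ) : ZMod MM) := by rw [hN]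
    rw [Int.cast_natCast] at h5
    rw [h5]
    push_cast
    rw [h1, h2]
    linear_combination (-(n : ZMod MM) ^ 2) * hX
  rw [ZMod.natCast_eq_natCast_iff'] at h4
  rw [h3, h4, Nat.mod_eq_of_lt hNM]
  simp

/-- the real part is read off if it is small and the residue is in the lower half -/
theorem CRep.re2_eq {x : PC} {w : ℂ} (h : CRep x w) (hw : 4 * |w.re| < (MM : ℝ))
    (h2 : 2 * x.re2 ≤ MM) : ((x.re2 : ℕ) : ℝ) = 2 * w.re := by
  rw [CRep_iff] at h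
  obtain ⟨m, n, hw', h1, h3⟩ := h
  have hre : w.re = (m : ℝ) := by
    rw [hw']
    simp
  rw [hre] at hw ⊢
  have h4 : x.re2 = (x.a + x.b) % MM := rfl
  have h5 : ((x.re2 : ℕ) : ZMod MM) = ((2 * m : ℤ) : ZMod MM) := by
    rw [h4, ZMod.natCast_mod]
    push_cast
    rw [h1, h3]
    ring
  rw [← CRep_dvd] at h5
  have h6 : 4 * |m| < (MM : ℤ) := by exact_mod_cast hw
  have h7 : (2 * (x.re2 : ℤ)) ≤ (MM : ℤ) := by exact_mod_cast h2
  have h8 : (0 : ℤ) ≤ (x.re2 : ℤ) := Int.natCast_nonneg _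
  have h9 := neg_abs_le m
  have h10 := le_abs_self m
  have h11 : (x.re2 : ℤ) - 2 * m = 0 := by
    apply Int.eq_zero_of_abs_lt_dvd h5
    rw [abs_lt]
    constructor <;> linarith
  have h12 : (x.re2 : ℤ) = 2 * m := by linarith
  exact_mod_cast h12

theorem nst_spec (n g : ℕ) (hg : 0 < g) : (n : ℝ) ≤ ((nst n g : ℕ) : ℝ) ^ 2 := by
  have h1 : n < g * (n / g + 1) := Nat.lt_mul_div_succ n hg
  have h2 : nst n g = (g + n / g) / 2 + 1 := rfl
  have h3 : g + n / g ≤ 2 * ((g + n / g) / 2) + 1 := by omega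
  rw [h2]
  set t := n / g
  set s := (g + t) / 2
  have h4 : n ≤ (s + 1) ^ 2 := by
    have h5 : g + (t + 1) ≤ 2 * (s + 1) := by omega
    have h6 : 4 * (g * (t + 1)) ≤ (g + (t + 1)) ^ 2 := by
      have := four_mul_le_pow_two_add g (t + 1)
      linarith
    have h7 : (g + (t + 1)) ^ 2 ≤ (2 * (s + 1)) ^ 2 := Nat.pow_le_pow_left h5 2
    nlinarith
  exact_mod_cast h4

theorem sqU_spec (n : ℕ) : (n : ℝ) ≤ ((sqU n : ℕ) : ℝ) ^ 2 := by
  exact nst_spec n _ (Nat.succ_pos _)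

theorem absP_spec {x : PC} {w v : ℂ} (h : CRep x w) (hw : ‖w‖ ^ 2 < (MM : ℝ)) (den : ℕ) (hd : 0 < den)
    (hv : w = (den : ℂ) * v) : ‖v‖ * 100000000 ≤ ((absP x den : ℕ) : ℝ) := by
  have h1 := h.nsq_eq hw
  have h2 := sqU_spec (Nat.succ (Nat.div (Nat.mul (PC.nsq x) 10000000000000000) (Nat.mul den den)))
  have h3 := CRep_div (Nat.mul (PC.nsq x) 10000000000000000) (Nat.mul den den) (Nat.mul_pos hd hd)
  have h4 : ((Nat.mul (PC.nsq x) 10000000000000000 : ℕ) : ℝ) = ‖w‖ ^ 2 * 10000000000000000 := by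
    rw [Nat.mul_eq, Nat.cast_mul, h1]
    norm_num
  have h5 : ((Nat.mul den den : ℕ) : ℝ) = (den : ℝ) ^ 2 := by
    rw [Nat.mul_eq, Nat.cast_mul]
    ring
  have hd' : (0 : ℝ) < den := by exact_mod_cast hd
  have h6 : ‖w‖ = den * ‖v‖ := by
    rw [hv, norm_mul, Complex.norm_natCast]
  rw [h4, h5, h6] at h3
  have h7 : (den * ‖v‖) ^ 2 * 10000000000000000 / (den : ℝ) ^ 2 = (‖v‖ * 100000000) ^ 2 := by
    field_simp
    ring
  rw [h7] at h3
  have h8 := h3.trans h2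
  exact le_of_sq_le_sq_CRep (by positivity) h8

theorem monUp_spec (rq rp a b : ℕ) :
    ((rq : ℝ) / 10000) ^ a * ((rp : ℝ) / 10000) ^ b * 100000000 ≤ ((monUp rq rp a b : ℕ) : ℝ) := by
  have h1 := CRep_div (Nat.mul (Nat.mul (Nat.pow rq a) (Nat.pow rp b)) 100000000)
    (Nat.pow 10000 (Nat.add a b)) (Nat.pow_pos (by norm_num))
  refine le_trans (le_of_eq ?_) h1
  simp only [Nat.mul_eq, Nat.pow_eq, Nat.add_eq]
  push_cast
  rw [div_pow, div_pow, pow_add]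
  field_simp

theorem errUp_spec (rq rp Q R a b : ℕ) (hQ : 0 < Q) (hR : 0 < R) :
    ((a : ℝ) * (a - 1) * ((rq : ℝ) / 10000) ^ (a - 2) * (1 / (Q : ℝ) ^ 2) * ((rp : ℝ) / 10000) ^ b +
      (b : ℝ) * (b - 1) * ((rp : ℝ) / 10000) ^ (b - 2) * (1 / (R : ℝ) ^ 2) * ((rq : ℝ) / 10000) ^ a) *
      100000000 ≤ ((errUp rq rp Q R a b : ℕ) : ℝ) := by
  have hQ' : (0 : ℝ) < Q := by exact_mod_cast hQ
  have hR' : (0 : ℝ) < R := by exact_mod_cast hR
  have hcast : ∀ c : ℕ, ((c * (c - 1) : ℕ) : ℝ) = (c : ℝ) * ((c : ℝ) - 1) := by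
    intro c
    rcases Nat.eq_zero_or_pos c with rfl | hc
    · simp
    · rw [Nat.cast_mul, Nat.cast_sub hc, Nat.cast_one]
  have h1 := CRep_div
    (Nat.mul (Nat.mul (Nat.mul a (Nat.sub a 1)) (Nat.mul (Nat.pow rq (Nat.sub a 2)) (Nat.pow rp b))) 100000000)
    (Nat.mul (Nat.pow 10000 (Nat.add (Nat.sub a 2) b)) (Nat.mul Q Q))
    (Nat.mul_pos (Nat.pow_pos (by norm_num)) (Nat.mul_pos hQ hQ))
  have h2 := CRep_div
    (Nat.mul (Nat.mul (Nat.mul b (Nat.sub b 1)) (Nat.mul (Nat.pow rp (Nat.sub b 2)) (Nat.pow rq a))) 100000000)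
    (Nat.mul (Nat.pow 10000 (Nat.add (Nat.sub b 2) a)) (Nat.mul R R))
    (Nat.mul_pos (Nat.pow_pos (by norm_num)) (Nat.mul_pos hR hR))
  have h3 : ((errUp rq rp Q R a b : ℕ) : ℝ) =
      ((Nat.succ (Nat.div (Nat.mul (Nat.mul (Nat.mul a (Nat.sub a 1)) (Nat.mul (Nat.pow rq (Nat.sub a 2)) (Nat.pow rp b))) 100000000)
      (Nat.mul (Nat.pow 10000 (Nat.add (Nat.sub a 2) b)) (Nat.mul Q Q))) : ℕ) : ℝ) +
      ((Nat.succ (Nat.div (Nat.mul (Nat.mul (Nat.mul b (Nat.sub b 1)) (Nat.mul (Nat.pow rp (Nat.sub b 2)) (Nat.pow rq a))) 100000000)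
      (Nat.mul (Nat.pow 10000 (Nat.add (Nat.sub b 2) a)) (Nat.mul R R))) : ℕ) : ℝ) := by
    rw [← Nat.cast_add]
    rfl
  rw [h3]
  refine le_trans (le_of_eq ?_) (add_le_add h1 h2)
  have h4 : ∀ (c d k l s : ℕ), (0 : ℝ) < s →
      ((Nat.mul (Nat.mul (Nat.mul c (Nat.sub c 1)) (Nat.mul (Nat.pow k (Nat.sub c 2)) (Nat.pow l d))) 100000000 : ℕ) : ℝ) /
      ((Nat.mul (Nat.pow 10000 (Nat.add (Nat.sub c 2) d)) (Nat.mul s s) : ℕ) : ℝ) =
      (c : ℝ) * (c - 1) * ((k : ℝ) / 10000) ^ (c - 2) * (1 / (s : ℝ) ^ 2) * ((l : ℝ) / 10000) ^ d * 100000000 := by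
    intro c d k l s hs
    have e1 : (Nat.mul (Nat.mul (Nat.mul c (Nat.sub c 1)) (Nat.mul (Nat.pow k (Nat.sub c 2)) (Nat.pow l d))) 100000000) =
      (c * (c - 1)) * (k ^ (c - 2) * l ^ d) * 100000000 := rfl
    have e2 : (Nat.mul (Nat.pow 10000 (Nat.add (Nat.sub c 2) d)) (Nat.mul s s)) =
      10000 ^ ((c - 2) + d) * (s * s) := rfl
    rw [e1, e2, Nat.cast_mul, Nat.cast_mul, hcast]
    push_cast
    rw [div_pow, div_pow, pow_add]
    field_simp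
  rw [h4 a b rq rp Q hQ', h4 b a rp rq R hR']
  ring

theorem rad_spec (Q x y : ℕ) (hQ : 0 < Q) :
    ‖(((x : ℂ) - 100000) + ((y : ℂ) - 100000) * Complex.I) / (Q : ℂ)‖ * 10000 ≤
      ((rad Q x y : ℕ) : ℝ) := by
  have hQ' : (0 : ℝ) < Q := by exact_mod_cast hQ
  have habs : ∀ x : ℕ, ((absD x : ℕ) : ℝ) = |(x : ℝ) - 100000| := by
    intro x
    have h0 : absD x = (x - 100000) + (100000 - x) := rfl
    rw [h0]
    rcases le_total x 100000 with h | h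
    · rw [Nat.sub_eq_zero_of_le h, zero_add, Nat.cast_sub h]
      have h' : (x : ℝ) ≤ 100000 := by exact_mod_cast h
      rw [abs_of_nonpos (by linarith)]
      push_cast
      ring
    · rw [Nat.sub_eq_zero_of_le h, add_zero, Nat.cast_sub h]
      have h' : (100000 : ℝ) ≤ x := by exact_mod_cast h
      rw [abs_of_nonneg (by linarith)]
      push_cast
      ring
  have h1 := sqU_spec (Nat.succ (Nat.div (Nat.mul (Nat.add (Nat.mul (absD x) (absD x)) (Nat.mul (absD y) (absD y))) 100000000)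
    (Nat.mul Q Q)))
  have h2 := CRep_div (Nat.mul (Nat.add (Nat.mul (absD x) (absD x)) (Nat.mul (absD y) (absD y))) 100000000)
    (Nat.mul Q Q) (Nat.mul_pos hQ hQ)
  have h3 : ((Nat.mul (Nat.add (Nat.mul (absD x) (absD x)) (Nat.mul (absD y) (absD y))) 100000000 : ℕ) : ℝ) =
      (((x : ℝ) - 100000) ^ 2 + ((y : ℝ) - 100000) ^ 2) * 100000000 := by
    have e1 : (Nat.mul (Nat.add (Nat.mul (absD x) (absD x)) (Nat.mul (absD y) (absD y))) 100000000) =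
      (absD x * absD x + absD y * absD y) * 100000000 := rfl
    rw [e1]
    push_cast
    rw [habs, habs, abs_mul_abs_self, abs_mul_abs_self]
    ring
  have h4 : ((Nat.mul Q Q : ℕ) : ℝ) = (Q : ℝ) ^ 2 := by
    rw [Nat.mul_eq, Nat.cast_mul]
    ring
  have h5 : ‖(((x : ℂ) - 100000) + ((y : ℂ) - 100000) * Complex.I)‖ ^ 2 =
      ((x : ℝ) - 100000) ^ 2 + ((y : ℝ) - 100000) ^ 2 := by
    rw [Complex.sq_norm, Complex.normSq_apply]
    simp
    ring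
  have h6 : ‖(((x : ℂ) - 100000) + ((y : ℂ) - 100000) * Complex.I) / (Q : ℂ)‖ =
      ‖(((x : ℂ) - 100000) + ((y : ℂ) - 100000) * Complex.I)‖ / Q := by
    rw [norm_div, Complex.norm_natCast]
  rw [h3, h4, ← h5] at h2
  have h8 := h2.trans h1
  rw [h6]
  refine le_of_sq_le_sq_CRep (Nat.cast_nonneg _) (le_trans (le_of_eq ?_) h8)
  field_simp
  ring

end Pool.Agent.MaxTerm58
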