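import Mathlib

/-! The three corner functions at an extremal vertex whose two neighbours are matched. -/

namespace Pool.Agent.MaxTerm58

noncomputable def gA (q p : ℂ) (l r : ℕ → ℂ) (z : ℂ) : ℂ :=
  z ^ (-1 : ℤ) + 1 + q * z + q ^ 2 * p * z ^ 2 + (∑' i : ℕ, l i * z ^ (-((i : ℤ) + 2))) +
    ∑' i : ℕ, r i * (q ^ (i + 3) * p ^ (i + 2)) * z ^ ((i : ℤ) + 3)

noncomputable def gB (q p : ℂ) (l r : ℕ → ℂ) (z : ℂ) : ℂ :=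
  q * z ^ (-1 : ℤ) + 1 + z + p * z ^ 2 + (∑' i : ℕ, l i * q ^ (i + 2) * z ^ (-((i : ℤ) + 2))) +
    ∑' i : ℕ, r i * p ^ (i + 2) * z ^ ((i : ℤ) + 3)

noncomputable def gC (q p : ℂ) (l r : ℕ → ℂ) (z : ℂ) : ℂ :=
  q * p ^ 2 * z ^ (-1 : ℤ) + p + z + z ^ 2 +
    (∑' i : ℕ, l i * (q ^ (i + 2) * p ^ (i + 3)) * z ^ (-((i : ℤ) + 2))) +
    ∑' i : ℕ, r i * z ^ ((i : ℤ) + 3)

/-- The local hypothesis: `q`, `p` are the normalised quotients at the extremal vertex and at its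
right neighbour, `l`, `r` the remaining coefficients. -/
structure HypF3 (q p : ℂ) (l r : ℕ → ℂ) : Prop where
  q_lt : ‖q‖ + 1 / 100000 < 1
  p_le : ‖p‖ ≤ ‖q‖ + 1 / 100000
  sl : ∀ i, ‖l i‖ ≤ (‖q‖ + 1 / 100000) ^ (i + 1)
  sr : ∀ i, ‖r i‖ ≤ (‖q‖ + 1 / 100000) ^ (i + 1)
  bA : ∀ z : ℂ, ‖z‖ = 1 → ‖gA q p l r z‖ ≤ 170919 / 100000
  bB : ∀ z : ℂ, ‖z‖ = 1 → ‖gB q p l r z‖ ≤ 170919 / 100000
  bC : ∀ z : ℂ, ‖z‖ = 1 → ‖gC q p l r z‖ ≤ 170919 / 100000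

/-- moments of a list of nodes `(z, h)` -/
noncomputable def lamC (nd : List (ℂ × ℂ)) (k : ℤ) : ℂ := (nd.map fun x => x.2 * x.1 ^ k).sum

/-- total weight of a list of nodes -/
noncomputable def wtC (nd : List (ℂ × ℂ)) : ℝ := (nd.map fun x => ‖x.2‖).sum

/-- main term of the functional -/
noncomputable def mainF (A B C : ℤ → ℂ) (q p : ℂ) : ℂ :=
  (A (-1) + A 0 + q * A 1 + q ^ 2 * p * A 2) + (q * B (-1) + B 0 + B 1 + p * B 2) +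
    (q * p ^ 2 * C (-1) + p * C 0 + C 1 + C 2)

/-- coefficient of `l i` -/
noncomputable def LL (A B C : ℤ → ℂ) (q p : ℂ) (i : ℕ) : ℂ :=
  A (-((i : ℤ) + 2)) + q ^ (i + 2) * (B (-((i : ℤ) + 2)) + p ^ (i + 3) * C (-((i : ℤ) + 2)))

/-- coefficient of `r i` -/
noncomputable def RR (A B C : ℤ → ℂ) (q p : ℂ) (i : ℕ) : ℂ :=
  C ((i : ℤ) + 3) + p ^ (i + 2) * (B ((i : ℤ) + 3) + q ^ (i + 3) * A ((i : ℤ) + 3))

end Pool.Agent.MaxTerm58
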