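import Pool.Agent.MaxTerm58.CheckF3
import Pool.Agent.MaxTerm58.HypF3
import Pool.Agent.MaxTerm58.Avg

/-! Cells of the parameter space. -/

namespace Pool.Agent.MaxTerm58

/-- centre of the square with offset coordinates `(x, y)` -/
noncomputable def ctr (x y : ℕ) : ℂ := ((x : ℂ) - 100000) + ((y : ℂ) - 100000) * Complex.I

/-- `q` lies in the square with centre `(x, y) / Q` and half width `1 / Q` -/
def InSq (q : ℂ) (x y Q : ℕ) : Prop :=
  |q.re * Q - ((x : ℝ) - 100000)| ≤ 1 ∧ |q.im * Q - ((y : ℝ) - 100000)| ≤ 1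

/-- no admissible configuration in the cell -/
def CellF3 (x y Q u v R : ℕ) : Prop :=
  ∀ q p l r, HypF3 q p l r → 17 / 50 ≤ ‖q‖ → ‖q‖ ≤ 3 / 4 → InSq q x y Q → InSq p u v R → False

end Pool.Agent.MaxTerm58
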