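import Pool.Agent.MaxTerm58.Pack

/-! The check of the three corner certificates on a box of parameters. Nodes have the denominator
`32045`, weights `100000`, all penalties are in units of `10^(-8)`. -/

namespace Pool.Agent.MaxTerm58

/-- moments at index `i`: `va = sum h conj z ^ (i+2)`, `ua = sum h z^(i+3)` for the three lists -/
structure PM where
  va : PC
  vb : PC
  vc : PC
  ua : PC
  ub : PC
  uc : PC

/-- node, `h z^k`, `h conj z ^ l` -/
abbrev StP := List (PC × PC × PC)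

def stepP (l : StP) : StP := l.map fun x => (x.1, x.2.1.mul x.1, x.2.2.mul x.1.conj)
def sumUP (l : StP) : PC := l.foldr (fun x s => x.2.1.add s) ⟨0, 0⟩
def sumVP (l : StP) : PC := l.foldr (fun x s => x.2.2.add s) ⟨0, 0⟩

/-- coordinates (with offsets) of a coded node: `z = (a, b)`, `h = (x, y)` -/
def ndA (n : Nat) : Nat := Nat.div n 18014398509481984
def ndB (n : Nat) : Nat := Nat.mod (Nat.div n 68719476736) 262144
def ndX (n : Nat) : Nat := Nat.mod (Nat.div n 262144) 262144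
def ndY (n : Nat) : Nat := Nat.mod n 262144

/-- the node and the weight -/
def decP (n : Nat) : PC × PC := (encP 32045 (ndA n) (ndB n), encP 100000 (ndX n) (ndY n))

/-- `a^2 + b^2 = 32045^2` in terms of the offset coordinates -/
def okP (n : Nat) : Bool :=
  Nat.beq (Nat.add (Nat.add (Nat.mul (ndA n) (ndA n)) (Nat.mul (ndB n) (ndB n))) 1026882025)
    (Nat.mul 64090 (Nat.add (ndA n) (ndB n)))

/-- upper bound for `1000 * |h|` -/
def wtP (n : Nat) : Nat :=
  sqU (Nat.succ (Nat.mul (Nat.sub (Nat.add (Nat.add (Nat.mul (ndX n) (ndX n)) (Nat.mul (ndY n) (ndY n)))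
    20000000000) (Nat.mul 200000 (Nat.add (ndX n) (ndY n)))) 1000000))

def wsumP (l : List Nat) : Nat := l.foldr (fun n s => Nat.add (wtP n) s) 0

/-- initial state: node, `h z^3`, `h conj z ^ 2` -/
def initP (l : List (PC × PC)) : StP :=
  l.map fun x => (x.1, x.2.mul (x.1.mul (x.1.mul x.1)), x.2.mul (x.1.conj.mul x.1.conj))

/-- the list of the moments -/
def momsP : Nat → StP → StP → StP → List PM
  | 0, _, _, _ => []
  | f+1, a, b, c => ⟨sumVP a, sumVP b, sumVP c, sumUP a, sumUP b, sumUP c⟩ ::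
      momsP f (stepP a) (stepP b) (stepP c)

/-- numerator of the left coefficient; `qr = Q^(i+2) R^(i+3)`, `r3 = R^(i+3)`, `cp = c^(i+2)`, `dpd = d^(i+3)` -/
def numLP (m : PM) (qr r3 : Nat) (cp dpd : PC) : PC :=
  (m.va.smul qr).add (cp.mul ((m.vb.smul r3).add (dpd.mul m.vc)))
/-- numerator of the right coefficient; `rq = R^(i+2) Q^(i+3)`, `q3 = Q^(i+3)`, `cpc = c^(i+3)`, `dp = d^(i+2)` -/
def numRP (m : PM) (rq q3 : Nat) (cpc dp : PC) : PC :=
  (m.uc.smul rq).add (dp.mul ((m.ub.smul q3).add (cpc.mul m.ua)))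

/-- upper bound for `10^8 |q|^a |p|^b` if `|q| <= rq/10^4`, `|p| <= rp/10^4` -/
def monUp (rq rp a b : Nat) : Nat :=
  Nat.succ (Nat.div (Nat.mul (Nat.mul (Nat.pow rq a) (Nat.pow rp b)) 100000000) (Nat.pow 10000 (Nat.add a b)))

/-- upper bound for the interpolation error of `q^a p^b`, times `10^8` -/
def errUp (rq rp Q R a b : Nat) : Nat :=
  Nat.add (Nat.succ (Nat.div (Nat.mul (Nat.mul (Nat.mul a (Nat.sub a 1)) (Nat.mul (Nat.pow rq (Nat.sub a 2)) (Nat.pow rp b))) 100000000)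
      (Nat.mul (Nat.pow 10000 (Nat.add (Nat.sub a 2) b)) (Nat.mul Q Q))))
    (Nat.succ (Nat.div (Nat.mul (Nat.mul (Nat.mul b (Nat.sub b 1)) (Nat.mul (Nat.pow rp (Nat.sub b 2)) (Nat.pow rq a))) 100000000)
      (Nat.mul (Nat.pow 10000 (Nat.add (Nat.sub b 2) a)) (Nat.mul R R))))

/-- accumulated penalty at the vertex `(c/Q, d/R)`, `|c/Q| <= r/10^4`; `cp = c^(i+2)`, `dp = d^(i+2)` -/
def vloopP (c d : PC) (Q R r : Nat) : List PM → Nat → PC → PC → Nat → Nat
  | [], _, _, _, acc => acc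
  | m :: ms, i, cp, dp, acc =>
    vloopP c d Q R r ms (Nat.succ i) (cp.mul c) (dp.mul d)
      (Nat.succ (Nat.add acc (Nat.div (Nat.mul (monUp r 0 (Nat.succ i) 0)
        (Nat.add
          (absP (numLP m (Nat.mul (Nat.pow Q (Nat.add i 2)) (Nat.pow R (Nat.add i 3))) (Nat.pow R (Nat.add i 3)) cp (dp.mul d))
            (Nat.mul (Nat.mul 100000 (Nat.pow 32045 (Nat.add i 2))) (Nat.mul (Nat.pow Q (Nat.add i 2)) (Nat.pow R (Nat.add i 3)))))
          (absP (numRP m (Nat.mul (Nat.pow R (Nat.add i 2)) (Nat.pow Q (Nat.add i 3))) (Nat.pow Q (Nat.add i 3)) (cp.mul c) dp)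
            (Nat.mul (Nat.mul 100000 (Nat.pow 32045 (Nat.add i 3))) (Nat.mul (Nat.pow R (Nat.add i 2)) (Nat.pow Q (Nat.add i 3)))))))
        100000000)))

/-- sum of the moduli of the moments with the weights `f a b` -/
def eloopP (f : Nat → Nat → Nat) : List PM → Nat → Nat → Nat
  | [], _, acc => acc
  | m :: ms, i, acc =>
    eloopP f ms (Nat.succ i) (Nat.succ (Nat.add acc (Nat.div
      (Nat.add (Nat.add
        (Nat.add (Nat.mul (absP m.va (Nat.mul 100000 (Nat.pow 32045 (Nat.add i 2)))) (f (Nat.add i 1) 0))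
          (Nat.mul (absP m.vb (Nat.mul 100000 (Nat.pow 32045 (Nat.add i 2)))) (f (Nat.add (Nat.mul 2 i) 3) 0)))
        (Nat.add (Nat.mul (absP m.vc (Nat.mul 100000 (Nat.pow 32045 (Nat.add i 2)))) (f (Nat.add (Nat.mul 2 i) 3) (Nat.add i 3)))
          (Nat.mul (absP m.uc (Nat.mul 100000 (Nat.pow 32045 (Nat.add i 3)))) (f (Nat.add i 1) 0))))
        (Nat.add (Nat.mul (absP m.ub (Nat.mul 100000 (Nat.pow 32045 (Nat.add i 3)))) (f (Nat.add i 1) (Nat.add i 2)))
          (Nat.mul (absP m.ua (Nat.mul 100000 (Nat.pow 32045 (Nat.add i 3)))) (f (Nat.add (Nat.mul 2 i) 4) (Nat.add i 2)))))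
      100000000)))

/-- `sum h`, `sum h z`, `sum h z^2`, `sum h conj z` -/
def P0 (l : List (PC × PC)) : PC := l.foldr (fun x s => x.2.add s) ⟨0, 0⟩
def P1 (l : List (PC × PC)) : PC := l.foldr (fun x s => (x.2.mul x.1).add s) ⟨0, 0⟩
def P2 (l : List (PC × PC)) : PC := l.foldr (fun x s => (x.2.mul (x.1.mul x.1)).add s) ⟨0, 0⟩
def PT (l : List (PC × PC)) : PC := l.foldr (fun x s => (x.2.mul x.1.conj).add s) ⟨0, 0⟩

def N0 (a b e : List (PC × PC)) : PC :=
  (((PT a).add ((P1 b).add (P1 e))).smul 32045).add ((((P0 a).add (P0 b)).smul 1026882025).add (P2 e))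
def N1 (a b : List (PC × PC)) : PC := ((P1 a).add (PT b)).smul 32045
def N2 (b e : List (PC × PC)) : PC := (P2 b).add ((P0 e).smul 1026882025)
def N4 (e : List (PC × PC)) : PC := (PT e).smul 32045

/-- main term at a vertex, numerator over `100000 * 32045^2 * Q^2 * R^2` -/
def mainP (n0 n1 n2 n3 n4 c d : PC) (Q R : Nat) : PC :=
  ((n0.smul (Nat.mul (Nat.mul Q Q) (Nat.mul R R))).add ((c.mul n1).smul (Nat.mul Q (Nat.mul R R)))).add
    (((d.mul n2).smul (Nat.mul (Nat.mul Q Q) R)).add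
      ((((c.mul c).mul (d.mul n3)).smul R).add ((c.mul ((d.mul d).mul n4)).smul Q)))

/-- check of one vertex; `x` = the main term -/
def vtxOK (x : PC) (Q R v tot : Nat) : Bool :=
  Nat.ble (Nat.mul 2 (PC.re2 x)) MM &&
  Nat.blt (Nat.mul (Nat.mul 2 (Nat.add (Nat.mul 1001 v) tot))
      (Nat.mul 102688202500000 (Nat.mul (Nat.mul Q Q) (Nat.mul R R))))
    (Nat.mul (PC.re2 x) 100000000000)

/-- all terms of the bound that do not depend on the vertex, times 1000 -/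
def totF3 (wac : Nat) (a e : List (PC × PC)) (rq rp Q R P I0 : Nat) (ms : List PM) : Nat :=
  Nat.add
    (Nat.mul 1001 (Nat.add (eloopP (errUp rq rp Q R) (ms.take I0) 0 0) (Nat.add (eloopP (monUp rq rp) (ms.drop I0) I0 0)
      (Nat.succ (Nat.div (Nat.mul (Nat.succ (Nat.div (Nat.mul (monUp rq 0 (Nat.succ P) 0) 10000) (Nat.sub 10000 rq)))
        (Nat.succ (Nat.add wac (Nat.mul 2 (monUp rq 0 (Nat.add P 2) 0))))) 100000000)))))
    (Nat.mul 1000 (Nat.succ (Nat.add 170919000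
      (Nat.div (Nat.add (Nat.mul (absP (P2 a) 102688202500000) (errUp rq rp Q R 2 1))
        (Nat.mul (absP (PT e) 3204500000) (errUp rq rp Q R 1 2))) 100000000))))

/-- `|x - 100000|` -/
def absD (x : Nat) : Nat := Nat.add (Nat.sub x 100000) (Nat.sub 100000 x)

/-- upper bound for `10^4 |c| / Q`, `c` with offset coordinates `(x, y)` -/
def rad (Q x y : Nat) : Nat :=
  sqU (Nat.succ (Nat.div (Nat.mul (Nat.add (Nat.mul (absD x) (absD x)) (Nat.mul (absD y) (absD y))) 100000000)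
    (Nat.mul Q Q)))

/-- the four corners of the square with centre `(x, y)`, offset coordinates -/
def crnL (x y : Nat) : List (Nat × Nat) :=
  [(Nat.sub x 1, Nat.sub y 1), (Nat.add x 1, Nat.sub y 1), (Nat.sub x 1, Nat.add y 1), (Nat.add x 1, Nat.add y 1)]

/-- the sixteen vertices -/
def coreF3 (x y Q u v R : Nat) (n0 n1 n2 n3 n4 : PC) (ms : List PM) (tot : Nat) : Bool :=
  (crnL x y).all fun cc => (crnL u v).all fun dd =>
    vtxOK (mainP n0 n1 n2 n3 n4 (encP 100000 cc.1 cc.2) (encP 100000 dd.1 dd.2) Q R) Q R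
      (vloopP (encP 100000 cc.1 cc.2) (encP 100000 dd.1 dd.2) Q R (rad Q cc.1 cc.2) ms 0
        ((encP 100000 cc.1 cc.2).mul (encP 100000 cc.1 cc.2))
        ((encP 100000 dd.1 dd.2).mul (encP 100000 dd.1 dd.2)) 0) tot

/-- the side conditions -/
def sideF3 (x y Q u v R P I0 rq : Nat) (la lb lc : List Nat) : Bool :=
  Nat.ble 1 Q && Nat.ble 1 R && Nat.ble Q 4096 && Nat.ble R 4096 && Nat.ble P 33 && Nat.ble I0 9 &&
  Nat.ble (Nat.succ (absD x)) (Nat.mul 2 Q) && Nat.ble (Nat.succ (absD y)) (Nat.mul 2 Q) &&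
  Nat.ble (Nat.succ (absD u)) (Nat.mul 2 R) && Nat.ble (Nat.succ (absD v)) (Nat.mul 2 R) &&
  Nat.ble (Nat.succ rq) 10000 && la.all okP && lb.all okP && lc.all okP &&
  Nat.ble (Nat.add (wsumP la) (Nat.add (wsumP lb) (wsumP lc))) 100000000

/-- the check, with the auxiliary quantities as arguments -/
def checkF3' (x y Q u v R P I0 rq rp wac : Nat) (a b e : List (PC × PC)) (ms : List PM) : Bool :=
  coreF3 x y Q u v R (N0 a b e) (N1 a b) (N2 b e) (P2 a) (N4 e) (ms.take I0)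
    (totF3 wac a e rq rp Q R P I0 ms)

/-- the check of a leaf -/
def checkF3 (x y Q u v R P I0 : Nat) (la lb lc : List Nat) : Bool :=
  sideF3 x y Q u v R P I0 (Nat.add (rad Q x y) (Nat.add (Nat.div 14143 Q) 2)) la lb lc &&
  checkF3' x y Q u v R P I0 (Nat.add (rad Q x y) (Nat.add (Nat.div 14143 Q) 2))
    (Nat.add (rad R u v) (Nat.add (Nat.div 14143 R) 2)) (Nat.add (wsumP la) (wsumP lc))
    (la.map decP) (lb.map decP) (lc.map decP)
    (momsP P (initP (la.map decP)) (initP (lb.map decP)) (initP (lc.map decP)))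

/-- the box contains no admissible point -/
def outOK (x y Q u v R : Nat) : Bool :=
  Nat.blt (Nat.mul 10000 (Nat.add (Nat.pow (Nat.succ (absD x)) 2) (Nat.pow (Nat.succ (absD y)) 2))) (Nat.mul 1156 (Nat.pow Q 2)) ||
  Nat.blt (Nat.mul 9 (Nat.pow Q 2)) (Nat.mul 16 (Nat.add (Nat.pow (Nat.sub (absD x) 1) 2) (Nat.pow (Nat.sub (absD y) 1) 2))) ||
  (Nat.blt (Nat.add (Nat.mul 100000 (Nat.mul (Nat.add (Nat.pow (Nat.succ (absD x)) 2) (Nat.pow (Nat.succ (absD y)) 2)) (Nat.pow R 2)))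
      (Nat.mul 3 (Nat.mul (Nat.pow Q 2) (Nat.pow R 2))))
    (Nat.mul 100000 (Nat.mul (Nat.add (Nat.pow (Nat.sub (absD u) 1) 2) (Nat.pow (Nat.sub (absD v) 1) 2)) (Nat.pow Q 2))))

/-- the tree of the subdivision -/
inductive T3 where
  | lf (P I0 : Nat) (a b c : List Nat)
  | out
  | sq (t1 t2 t3 t4 : T3)
  | sp (t1 t2 t3 t4 : T3)

def T3.chk : T3 → Nat → Nat → Nat → Nat → Nat → Nat → Bool
  | .lf P I0 a b c, x, y, Q, u, v, R => checkF3 x y Q u v R P I0 a b c
  | .out, x, y, Q, u, v, R => outOK x y Q u v R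
  | .sq t1 t2 t3 t4, x, y, Q, u, v, R =>
    Nat.ble Q 4096 &&
    T3.chk t1 (Nat.sub (Nat.mul 2 x) 100001) (Nat.sub (Nat.mul 2 y) 100001) (Nat.mul 2 Q) u v R &&
    T3.chk t2 (Nat.sub (Nat.mul 2 x) 99999) (Nat.sub (Nat.mul 2 y) 100001) (Nat.mul 2 Q) u v R &&
    T3.chk t3 (Nat.sub (Nat.mul 2 x) 100001) (Nat.sub (Nat.mul 2 y) 99999) (Nat.mul 2 Q) u v R &&
    T3.chk t4 (Nat.sub (Nat.mul 2 x) 99999) (Nat.sub (Nat.mul 2 y) 99999) (Nat.mul 2 Q) u v R
  | .sp t1 t2 t3 t4, x, y, Q, u, v, R =>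
    Nat.ble R 4096 &&
    T3.chk t1 x y Q (Nat.sub (Nat.mul 2 u) 100001) (Nat.sub (Nat.mul 2 v) 100001) (Nat.mul 2 R) &&
    T3.chk t2 x y Q (Nat.sub (Nat.mul 2 u) 99999) (Nat.sub (Nat.mul 2 v) 100001) (Nat.mul 2 R) &&
    T3.chk t3 x y Q (Nat.sub (Nat.mul 2 u) 100001) (Nat.sub (Nat.mul 2 v) 99999) (Nat.mul 2 R) &&
    T3.chk t4 x y Q (Nat.sub (Nat.mul 2 u) 99999) (Nat.sub (Nat.mul 2 v) 99999) (Nat.mul 2 R)

end Pool.Agent.MaxTerm58
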