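import Pool.Agent.MaxTerm58.CheckF3

/-! The check of the certificates for the averaged corner functions (type I). Moments are those of
`z^(-1) G`; `N` is the length of the Fejer damping (`N = 0`: no damping). -/

namespace Pool.Agent.MaxTerm58

/-- initial state: node, `h z^2`, `h conj z ^ 2` -/
def initI (l : List (PC × PC)) : StP :=
  l.map fun x => (x.1, x.2.mul (x.1.mul x.1), x.2.mul (x.1.conj.mul x.1.conj))

/-- the moments `(sum h conj z ^ (i+2), sum h z ^ (i+2))` -/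
def momsI : Nat → StP → List (PC × PC)
  | 0, _ => []
  | f+1, a => (sumVP a, sumUP a) :: momsI f (stepP a)

/-- damping factors `dnI / ddI` -/
def dnI (N k : Nat) : Nat := bif Nat.beq N 0 then 1 else Nat.sub N k
def ddI (N : Nat) : Nat := bif Nat.beq N 0 then 1 else N

/-- upper bound for `10^8 a (a - 1) (rq / 10^4)^(a-2) / Q^2` -/
def errIU (rq Q a : Nat) : Nat :=
  Nat.succ (Nat.div (Nat.mul (Nat.mul (Nat.mul a (Nat.sub a 1)) (Nat.pow rq (Nat.sub a 2))) 100000000)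
    (Nat.mul (Nat.pow 10000 (Nat.sub a 2)) (Nat.mul Q Q)))

/-- upper bound for `10^8 sqrt (B^2 - 2 - |q|^2)` on the square -/
def sigI (Q x y : Nat) : Nat :=
  sqU (Nat.succ (Nat.div (Nat.sub (Nat.mul 9213304561000000 (Nat.mul Q Q))
    (Nat.mul 10000000000000000 (Nat.add (Nat.pow (Nat.sub (absD x) 1) 2) (Nat.pow (Nat.sub (absD y) 1) 2))))
    (Nat.mul Q Q)))

/-- accumulated penalty at the vertex `c / Q`, `|c / Q| <= r / 10^4`, `cp = c^(i+2)` -/
def vloopI (c : PC) (Q r sg N K : Nat) : List (PC × PC) → Nat → PC → Nat → Nat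
  | [], _, _, acc => acc
  | m :: ms, i, cp, acc =>
    vloopI c Q r sg N K ms (Nat.succ i) (cp.mul c)
      (Nat.succ (Nat.add acc (Nat.div
        (Nat.mul (Nat.mul (bif Nat.blt i K then sg else monUp r 0 (Nat.succ i) 0) (dnI N (Nat.add i 2)))
          (absP ((m.1.smul (Nat.pow Q (Nat.add i 2))).add (cp.mul m.2))
            (Nat.mul (Nat.mul 100000 (Nat.pow 32045 (Nat.add i 2))) (Nat.pow Q (Nat.add i 2)))))
        (Nat.mul 100000000 (ddI N)))))

/-- interpolation errors -/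
def eloopI (rq Q sg N K : Nat) : List (PC × PC) → Nat → Nat → Nat
  | [], _, acc => acc
  | m :: ms, i, acc =>
    eloopI rq Q sg N K ms (Nat.succ i) (Nat.succ (Nat.add acc (Nat.div
      (Nat.mul
        (bif Nat.blt i K then
          Nat.succ (Nat.div (Nat.mul sg (Nat.mul (absP m.2 (Nat.mul 100000 (Nat.pow 32045 (Nat.add i 2))))
            (errIU rq Q (Nat.add i 2)))) 100000000)
        else
          Nat.add (Nat.mul (absP m.1 (Nat.mul 100000 (Nat.pow 32045 (Nat.add i 2)))) (errIU rq Q (Nat.add i 1)))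
            (Nat.mul (absP m.2 (Nat.mul 100000 (Nat.pow 32045 (Nat.add i 2)))) (errIU rq Q (Nat.add (Nat.mul 2 i) 3))))
        (dnI N (Nat.add i 2)))
      (Nat.mul 100000000 (ddI N)))))

def minU (a b : Nat) : Nat := bif Nat.ble a b then a else b

/-- crude bounds of the remaining penalties -/
def cloopI (rq sg N : Nat) : List (PC × PC) → Nat → Nat → Nat
  | [], _, acc => acc
  | m :: ms, i, acc =>
    cloopI rq sg N ms (Nat.succ i) (Nat.succ (Nat.add acc (Nat.div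
      (Nat.mul (Nat.mul (minU (monUp rq 0 (Nat.succ i) 0) sg)
        (Nat.succ (Nat.add (absP m.1 (Nat.mul 100000 (Nat.pow 32045 (Nat.add i 2))))
          (Nat.div (Nat.mul (monUp rq 0 (Nat.add i 2) 0)
            (absP m.2 (Nat.mul 100000 (Nat.pow 32045 (Nat.add i 2))))) 100000000))))
        (dnI N (Nat.add i 2)))
      (Nat.mul 100000000 (ddI N)))))

/-- the tail without damping -/
def tailI (rq N P : Nat) : Nat :=
  bif Nat.beq N 0 then
    Nat.succ (Nat.div (Nat.mul (Nat.succ (Nat.div (Nat.mul (monUp rq 0 (Nat.succ P) 0) 10000) (Nat.sub 10000 rq)))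
      (Nat.succ (Nat.add 100000000 (monUp rq 0 (Nat.add P 2) 0)))) 100000000)
  else 0

/-- terms of the bound that do not depend on the vertex, times 1000 -/
def totI (rq Q sg N K I0 P : Nat) (ms : List (PC × PC)) : Nat :=
  Nat.add (Nat.mul 1002 (Nat.add (eloopI rq Q sg N K (ms.take I0) 0 0)
    (Nat.add (cloopI rq sg N (ms.drop I0) I0 0) (tailI rq N P)))) 170919000000

/-- numerator of the main term over `3204500000 * Q * ddI N` -/
def mainPI (Q N : Nat) (p0 p1 pt c : PC) : PC :=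
  (p0.smul (Nat.mul 32045 (Nat.mul Q (ddI N)))).add (((pt.smul Q).add (c.mul p1)).smul (dnI N 1))

/-- check of one vertex -/
def vtxI (x : PC) (Q N v tot : Nat) : Bool :=
  Nat.ble (Nat.mul 2 (PC.re2 x)) MM &&
  Nat.blt (Nat.mul (Nat.mul 2 (Nat.add (Nat.mul 1002 v) tot)) (Nat.mul 3204500000 (Nat.mul Q (ddI N))))
    (Nat.mul (PC.re2 x) 100000000000)

/-- the four vertices -/
def coreI (x y Q N K sg : Nat) (p0 p1 pt : PC) (ms : List (PC × PC)) (tot : Nat) : Bool :=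
  (crnL x y).all fun cc =>
    vtxI (mainPI Q N p0 p1 pt (encP 100000 cc.1 cc.2)) Q N
      (vloopI (encP 100000 cc.1 cc.2) Q (rad Q cc.1 cc.2) sg N K ms 0
        ((encP 100000 cc.1 cc.2).mul (encP 100000 cc.1 cc.2)) 0) tot

def sideI (x y Q N I0 P rq : Nat) (l : List Nat) : Bool :=
  Nat.ble 1 Q && Nat.ble Q 512 && Nat.ble P 39 && Nat.ble I0 16 &&
  Nat.ble (Nat.succ (absD x)) (Nat.mul 2 Q) && Nat.ble (Nat.succ (absD y)) (Nat.mul 2 Q) &&
  (bif Nat.beq N 0 then Nat.ble (Nat.succ rq) 10000 else Nat.ble N (Nat.add P 2)) && l.all okP &&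
  Nat.ble (wsumP l) 100000000

/-- the check of a leaf -/
def checkTI (x y Q N K I0 P : Nat) (l : List Nat) : Bool :=
  sideI x y Q N I0 P (Nat.add (rad Q x y) (Nat.add (Nat.div 14143 Q) 2)) l &&
  (fun (rq sg : Nat) (nd : List (PC × PC)) (ms : List (PC × PC)) =>
    coreI x y Q N K sg (P0 nd) (P1 nd) (PT nd) (ms.take I0) (totI rq Q sg N K I0 P ms))
    (Nat.add (rad Q x y) (Nat.add (Nat.div 14143 Q) 2)) (sigI Q x y) (l.map decP)
    (momsI P (initI (l.map decP)))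

/-- the square is outside of the domain -/
def outTI (x y Q : Nat) : Bool :=
  Nat.blt (Nat.mul 10000 (Nat.add (Nat.pow (Nat.succ (absD x)) 2) (Nat.pow (Nat.succ (absD y)) 2))) (Nat.mul 1156 (Nat.pow Q 2)) ||
  Nat.blt (Nat.mul 9213304561 (Nat.pow Q 2))
    (Nat.mul 10000000000 (Nat.add (Nat.pow (Nat.sub (absD x) 1) 2) (Nat.pow (Nat.sub (absD y) 1) 2))) ||
  (Nat.ble (Nat.mul 16 (Nat.add (Nat.pow (Nat.succ (absD x)) 2) (Nat.pow (Nat.succ (absD y)) 2))) (Nat.mul 9 (Nat.pow Q 2)) &&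
    Nat.ble 100001 y &&
    ((Nat.ble 400004 (Nat.add (Nat.mul 4 x) (Nat.mul 3 Q)) && Nat.ble (Nat.add (Nat.mul 8 x) (Nat.add (Nat.mul 5 Q) 8)) 800000 &&
        Nat.ble (Nat.add (Nat.mul 8 y) 8) (Nat.add (Nat.mul 3 Q) 800000)) ||
      (Nat.ble 800008 (Nat.add (Nat.mul 8 x) (Nat.mul 5 Q)) && Nat.ble (Nat.add (Nat.mul 2 x) (Nat.add Q 2)) 200000 &&
        Nat.ble (Nat.add (Nat.mul 2 y) 2) (Nat.add Q 200000)) ||
      (Nat.ble 200002 (Nat.add (Nat.mul 2 x) Q) && Nat.ble (Nat.add (Nat.mul 4 x) (Nat.add Q 4)) 400000 &&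
        Nat.ble (Nat.add (Nat.mul 8 y) 8) (Nat.add (Nat.mul 5 Q) 800000)) ||
      (Nat.ble 400004 (Nat.add (Nat.mul 4 x) Q) && Nat.ble (Nat.add (Nat.mul 8 x) (Nat.add Q 8)) 800000 &&
        Nat.ble (Nat.add Q 800008) (Nat.mul 8 y) && Nat.ble (Nat.add (Nat.mul 2 y) 2) (Nat.add Q 200000))))

/-- subdivision tree -/
inductive TI where
  | lf (N K I0 P : Nat) (a : List Nat)
  | out
  | sp (t1 t2 t3 t4 : TI)

def TI.chk : TI → Nat → Nat → Nat → Bool
  | .lf N K I0 P a, x, y, Q => checkTI x y Q N K I0 P a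
  | .out, x, y, Q => outTI x y Q
  | .sp t1 t2 t3 t4, x, y, Q =>
    Nat.ble Q 4096 &&
    TI.chk t1 (Nat.sub (Nat.mul 2 x) 100001) (Nat.sub (Nat.mul 2 y) 100001) (Nat.mul 2 Q) &&
    TI.chk t2 (Nat.sub (Nat.mul 2 x) 99999) (Nat.sub (Nat.mul 2 y) 100001) (Nat.mul 2 Q) &&
    TI.chk t3 (Nat.sub (Nat.mul 2 x) 100001) (Nat.sub (Nat.mul 2 y) 99999) (Nat.mul 2 Q) &&
    TI.chk t4 (Nat.sub (Nat.mul 2 x) 99999) (Nat.sub (Nat.mul 2 y) 99999) (Nat.mul 2 Q)

end Pool.Agent.MaxTerm58
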