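import Pool.Agent.MaxTerm58.GenDef
import Pool.Agent.MaxTerm58.CheckTI

/-! The check of the certificates of the family S: extremal matched vertex, both neighbours mismatched,
right ratio two. Mode `0`: family SA; mode `1`: family SB without the ball; mode `2`: family SB with the ball. -/

namespace Pool.Agent.MaxTerm58

/-- initial state: node, `h z^3`, `h conj z ^ 3` -/
def initS (l : List (PC × PC)) : StP :=
  l.map fun x => (x.1, x.2.mul (x.1.mul (x.1.mul x.1)), x.2.mul (x.1.conj.mul (x.1.conj.mul x.1.conj)))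

/-- `sum h conj z ^ 2` -/
def PTT (l : List (PC × PC)) : PC := l.foldr (fun x s => (x.2.mul (x.1.conj.mul x.1.conj)).add s) ⟨0, 0⟩

/-- penalty polynomial of `l i` -/
def itL (m : PM) (i : Nat) : ItP :=
  ⟨Nat.mul 100000 (Nat.pow 32045 (Nat.add i 3)), Nat.add i 2, Nat.add (Nat.mul 2 i) 4,
    [⟨m.va, 0, Nat.add i 1⟩, ⟨m.vb, Nat.add i 2, Nat.add i 1⟩, ⟨m.vc, Nat.add i 2, Nat.add (Nat.mul 2 i) 4⟩]⟩

/-- penalty polynomial of `r i`, multiplied by `q^a` -/
def itR (a : Nat) (m : PM) (i : Nat) : ItP :=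
  ⟨Nat.mul 100000 (Nat.pow 32045 (Nat.add i 3)), Nat.add a (Nat.add i 4), Nat.add i 3,
    [⟨m.uc, a, 0⟩, ⟨m.ub, a, Nat.add i 3⟩, ⟨m.ua, Nat.add a (Nat.add i 4), Nat.add i 3⟩]⟩

/-- penalty polynomial of `r1` -/
def itR1 (a b e : List (PC × PC)) : ItP := ⟨3204500000, 2, 1, [⟨P1 e, 0, 0⟩, ⟨P1 b, 0, 1⟩, ⟨P1 a, 2, 1⟩]⟩

/-- the main term -/
def itM (a b e : List (PC × PC)) : ItP :=
  ⟨102688202500000, 3, 2,
    [⟨((PTT a).add ((P2 e).add ((PT a).smul 32045))).add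
        (((PT b).smul 32045).add (((P0 b).add (P0 e)).smul 1026882025)), 0, 0⟩,
     ⟨((P0 a).smul 1026882025).add (PTT b), 1, 0⟩,
     ⟨P2 a, 3, 2⟩, ⟨P2 b, 0, 2⟩, ⟨PTT e, 1, 2⟩, ⟨(PT e).smul 32045, 0, 1⟩]⟩

/-- bound for `10^8 sqrt (D (E - min (D, 0.55)^2))`, `D <= rq / 10^4` -/
def c3U (rq : Nat) : Nat :=
  sqU (Nat.succ (Nat.mul (Nat.mul rq 100) (Nat.sub 9213304561 (Nat.mul 100 (Nat.mul (minN rq 5500) (minN rq 5500))))))

/-- bound for `10^8 sqrt (0.9 D)` -/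
def sbU (rq : Nat) : Nat := sqU (Nat.succ (Nat.mul 900000000000 rq))

/-- bound for `10^8 sqrt (E - min (0.9 |q|, 0.55)^2)` on the square -/
def nuU (Q x y : Nat) : Nat :=
  sqU (Nat.succ (Nat.sub 9213304561000000 (minN 3025000000000000
    (Nat.div (Nat.mul 8100000000000000 (Nat.add (Nat.pow (Nat.sub (absD x) 1) 2) (Nat.pow (Nat.sub (absD y) 1) 2)))
      (Nat.mul Q Q)))))

def kapA (c3 i : Nat) : Nat := bif Nat.beq i 0 then c3 else 100100000

def kapB (sb i : Nat) : Nat :=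
  Nat.succ (Nat.div (Nat.mul (Nat.mul (Nat.pow 9 (Nat.div (Nat.succ i) 2)) (bif Nat.beq (Nat.mod i 2) 1 then 100000000 else sb)) 1001)
    (Nat.mul (Nat.pow 10 (Nat.div (Nat.succ i) 2)) 1000))

def lsL (sT : Nat) : List PM → Nat → List (Nat × ItP)
  | [], _ => []
  | m :: ms, i => (bif Nat.beq i 0 then sT else 100000000, itL m i) :: lsL sT ms (Nat.succ i)

def lsR (md c3 sb : Nat) : List PM → Nat → List (Nat × ItP)
  | [], _ => []
  | m :: ms, i => (bif Nat.beq md 0 then kapA c3 i else kapB sb i,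
      itR (bif Nat.beq md 0 then i else Nat.div (Nat.succ i) 2) m i) :: lsR md c3 sb ms (Nat.succ i)

/-- penalty at a vertex -/
def penS (md nu scr mcr : Nat) (c d : PC) (Q R : Nat) (LL RR : List (Nat × ItP)) : Nat :=
  Nat.add (wAbs c d Q R LL 0)
    (bif Nat.beq md 2 then ballP nu scr mcr (bAbs c d Q R RR) else wAbs c d Q R RR 0)

/-- bound for the tails -/
def tailS (md rq rp PL PR : Nat) : Nat :=
  Nat.add (geoU rp (Nat.add PL 1))
    (bif Nat.beq md 0 then geoU rq PR else geoU (sqU (Nat.mul 9000 rq)) (Nat.add PR 1))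

/-- constant part of the bound, times `10^11`; `LL`, `RR` the items checked at the vertices, `lcr`, `rcr` the crude
bounds of the other ones; `rqc`, `rpc` bounds for `10^4 D`, `10^4 |t|` -/
def totS (md rq rp rqc rpc Q R PL PR : Nat) (M : ItP) (LL RR : List (Nat × ItP)) (lcr rcr : List Nat) : Nat :=
  Nat.add 170919000000 (Nat.mul 1000 (Nat.add (Nat.add (itErr rq rp Q R M) (wErr rq rp Q R LL 0))
    (Nat.add (Nat.add (wErr rq rp Q R RR 0) (sumL lcr))
      (Nat.add (bif Nat.beq md 2 then 0 else sumL rcr) (tailS md rqc rpc PL PR)))))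

/-- the sixteen vertices -/
def coreS (x y Q u v R md nu scr mcr : Nat) (M : ItP) (LL RR : List (Nat × ItP)) (tot : Nat) : Bool :=
  (crnL x y).all fun cc => (crnL u v).all fun dd =>
    vtxG (itV (encP 100000 cc.1 cc.2) (encP 100000 dd.1 dd.2) Q R M) (itDen Q R M)
      (penS md nu scr mcr (encP 100000 cc.1 cc.2) (encP 100000 dd.1 dd.2) Q R LL RR) tot

/-- side conditions -/
def sideS (x y Q u v R md P nL nR PL PR rqc : Nat) (la lb lc : List Nat) : Bool :=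
  Nat.ble 1 Q && Nat.ble 1 R && Nat.ble Q 4096 && Nat.ble R 4096 && Nat.ble P 33 && Nat.ble PL P && Nat.ble PR P &&
  Nat.ble nL PL && Nat.ble nR PR && Nat.ble 1 PR && Nat.ble md 2 &&
  Nat.ble (Nat.succ (absD x)) (Nat.mul 2 Q) && Nat.ble (Nat.succ (absD y)) (Nat.mul 2 Q) &&
  Nat.ble (Nat.succ (absD u)) (Nat.mul 2 R) && Nat.ble (Nat.succ (absD v)) (Nat.mul 2 R) &&
  Nat.ble (Nat.succ (sqU (Nat.mul 9000 rqc))) 10000 &&
  la.all okP && lb.all okP && lc.all okP &&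
  Nat.ble (Nat.add (wsumP la) (Nat.add (wsumP lb) (wsumP lc))) 100000000

/-- size conditions and the vertices -/
def checkS' (x y Q u v R md rq rp rqc rpc PL PR nu : Nat) (M : ItP) (LL RR LC RC : List (Nat × ItP)) : Bool :=
  szOK Q R M && LL.all (fun z => szOK Q R z.2) && RR.all (fun z => szOK Q R z.2) &&
  LC.all (fun z => szM z.2) && RC.all (fun z => szM z.2) &&
  coreS x y Q u v R md nu (sqSum (bCr rqc rpc RC)) (maxL (bCr rqc rpc RC)) M LL RR
    (totS md rq rp rqc rpc Q R PL PR M LL RR (bCr rqc rpc LC) (bCr rqc rpc RC))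

def checkS'' (x y Q u v R md nL nR PL PR rq rp rqc rpc sT c3 sb nu : Nat) (a b e : List (PC × PC)) (ms : List PM) : Bool :=
  checkS' x y Q u v R md rq rp rqc rpc PL PR nu (itM a b e) (lsL sT (ms.take nL) 0 ++ [(sT, itR1 a b e)])
    (lsR md c3 sb (ms.take nR) 0) (lsL sT ((ms.take PL).drop nL) nL) (lsR md c3 sb ((ms.take PR).drop nR) nR)

/-- bound for `10^4 (|c| + sqrt 2) / Q + 0.1`, `c` with offset coordinates `(x, y)` -/
def radS (Q x y : Nat) : Nat := Nat.add (rad Q x y) (Nat.add (Nat.div 14143 Q) 2)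

/-- the check of a leaf -/
def checkS (x y Q u v R md P nL nR PL PR : Nat) (la lb lc : List Nat) : Bool :=
  sideS x y Q u v R md P nL nR PL PR (minN (radS Q x y) 7502) la lb lc &&
  checkS'' x y Q u v R md nL nR PL PR (radS Q x y) (radS R u v) (minN (radS Q x y) 7502) (minN (radS R u v) 6752)
    (sigI R u v) (c3U (minN (radS Q x y) 7502)) (sbU (minN (radS Q x y) 7502)) (nuU Q x y)
    (la.map decP) (lb.map decP) (lc.map decP)
    (momsP P (initS (la.map decP)) (initS (lb.map decP)) (initS (lc.map decP)))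

/-- the cell contains no admissible point -/
def outS (x y Q u v R : Nat) : Bool :=
  Nat.blt (Nat.mul 10000 (Nat.add (Nat.pow (Nat.succ (absD x)) 2) (Nat.pow (Nat.succ (absD y)) 2))) (Nat.mul 1156 (Nat.pow Q 2)) ||
  Nat.blt (Nat.mul 9 (Nat.pow Q 2)) (Nat.mul 16 (Nat.add (Nat.pow (Nat.sub (absD x) 1) 2) (Nat.pow (Nat.sub (absD y) 1) 2))) ||
  Nat.blt (Nat.add (Nat.mul 81000 (Nat.mul (Nat.add (Nat.pow (Nat.succ (absD x)) 2) (Nat.pow (Nat.succ (absD y)) 2)) (Nat.pow R 2)))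
      (Nat.mul 2 (Nat.mul (Nat.pow Q 2) (Nat.pow R 2))))
    (Nat.mul 100000 (Nat.mul (Nat.add (Nat.pow (Nat.sub (absD u) 1) 2) (Nat.pow (Nat.sub (absD v) 1) 2)) (Nat.pow Q 2)))

/-- the tree of the subdivision -/
inductive TS where
  | lf (md P nL nR PL PR : Nat) (a b c : List Nat)
  | out
  | sq (t1 t2 t3 t4 : TS)
  | sp (t1 t2 t3 t4 : TS)

/-- `fam = 0` : family SA, otherwise SB -/
def TS.chk (fam : Nat) : TS → Nat → Nat → Nat → Nat → Nat → Nat → Bool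
  | .lf md P nL nR PL PR a b c, x, y, Q, u, v, R =>
    (bif Nat.beq fam 0 then Nat.beq md 0 else Nat.ble 1 md) && checkS x y Q u v R md P nL nR PL PR a b c
  | .out, x, y, Q, u, v, R => outS x y Q u v R
  | .sq t1 t2 t3 t4, x, y, Q, u, v, R =>
    Nat.ble Q 4096 &&
    TS.chk fam t1 (Nat.sub (Nat.mul 2 x) 100001) (Nat.sub (Nat.mul 2 y) 100001) (Nat.mul 2 Q) u v R &&
    TS.chk fam t2 (Nat.sub (Nat.mul 2 x) 99999) (Nat.sub (Nat.mul 2 y) 100001) (Nat.mul 2 Q) u v R &&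
    TS.chk fam t3 (Nat.sub (Nat.mul 2 x) 100001) (Nat.sub (Nat.mul 2 y) 99999) (Nat.mul 2 Q) u v R &&
    TS.chk fam t4 (Nat.sub (Nat.mul 2 x) 99999) (Nat.sub (Nat.mul 2 y) 99999) (Nat.mul 2 Q) u v R
  | .sp t1 t2 t3 t4, x, y, Q, u, v, R =>
    Nat.ble R 4096 &&
    TS.chk fam t1 x y Q (Nat.sub (Nat.mul 2 u) 100001) (Nat.sub (Nat.mul 2 v) 100001) (Nat.mul 2 R) &&
    TS.chk fam t2 x y Q (Nat.sub (Nat.mul 2 u) 99999) (Nat.sub (Nat.mul 2 v) 100001) (Nat.mul 2 R) &&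
    TS.chk fam t3 x y Q (Nat.sub (Nat.mul 2 u) 100001) (Nat.sub (Nat.mul 2 v) 99999) (Nat.mul 2 R) &&
    TS.chk fam t4 x y Q (Nat.sub (Nat.mul 2 u) 99999) (Nat.sub (Nat.mul 2 v) 99999) (Nat.mul 2 R)

end Pool.Agent.MaxTerm58
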