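import Pool.Agent.MaxTerm58.CheckS
import Pool.Agent.MaxTerm58.CheckTI
import Pool.Agent.MaxTerm58.CheckF3

/-! Composition of certificate trees. -/

namespace Pool.Agent.MaxTerm58

theorem T3.chk_sq {t1 t2 t3 t4 : T3} {x y Q u v R : Nat} (h : Nat.ble Q 4096 = true)
    (h1 : T3.chk t1 (Nat.sub (Nat.mul 2 x) 100001) (Nat.sub (Nat.mul 2 y) 100001) (Nat.mul 2 Q) u v R = true)
    (h2 : T3.chk t2 (Nat.sub (Nat.mul 2 x) 99999) (Nat.sub (Nat.mul 2 y) 100001) (Nat.mul 2 Q) u v R = true)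
    (h3 : T3.chk t3 (Nat.sub (Nat.mul 2 x) 100001) (Nat.sub (Nat.mul 2 y) 99999) (Nat.mul 2 Q) u v R = true)
    (h4 : T3.chk t4 (Nat.sub (Nat.mul 2 x) 99999) (Nat.sub (Nat.mul 2 y) 99999) (Nat.mul 2 Q) u v R = true) :
    T3.chk (.sq t1 t2 t3 t4) x y Q u v R = true := by
  rw [T3.chk, h, h1, h2, h3, h4]
  rfl

theorem T3.chk_sp {t1 t2 t3 t4 : T3} {x y Q u v R : Nat} (h : Nat.ble R 4096 = true)
    (h1 : T3.chk t1 x y Q (Nat.sub (Nat.mul 2 u) 100001) (Nat.sub (Nat.mul 2 v) 100001) (Nat.mul 2 R) = true)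
    (h2 : T3.chk t2 x y Q (Nat.sub (Nat.mul 2 u) 99999) (Nat.sub (Nat.mul 2 v) 100001) (Nat.mul 2 R) = true)
    (h3 : T3.chk t3 x y Q (Nat.sub (Nat.mul 2 u) 100001) (Nat.sub (Nat.mul 2 v) 99999) (Nat.mul 2 R) = true)
    (h4 : T3.chk t4 x y Q (Nat.sub (Nat.mul 2 u) 99999) (Nat.sub (Nat.mul 2 v) 99999) (Nat.mul 2 R) = true) :
    T3.chk (.sp t1 t2 t3 t4) x y Q u v R = true := by
  rw [T3.chk, h, h1, h2, h3, h4]
  rfl

theorem TI.chk_sp {t1 t2 t3 t4 : TI} {x y Q : Nat} (h : Nat.ble Q 4096 = true)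
    (h1 : TI.chk t1 (Nat.sub (Nat.mul 2 x) 100001) (Nat.sub (Nat.mul 2 y) 100001) (Nat.mul 2 Q) = true)
    (h2 : TI.chk t2 (Nat.sub (Nat.mul 2 x) 99999) (Nat.sub (Nat.mul 2 y) 100001) (Nat.mul 2 Q) = true)
    (h3 : TI.chk t3 (Nat.sub (Nat.mul 2 x) 100001) (Nat.sub (Nat.mul 2 y) 99999) (Nat.mul 2 Q) = true)
    (h4 : TI.chk t4 (Nat.sub (Nat.mul 2 x) 99999) (Nat.sub (Nat.mul 2 y) 99999) (Nat.mul 2 Q) = true) :
    TI.chk (.sp t1 t2 t3 t4) x y Q = true := by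
  rw [TI.chk, h, h1, h2, h3, h4]
  rfl

theorem TS.chk_sq {fam : Nat} {t1 t2 t3 t4 : TS} {x y Q u v R : Nat} (h : Nat.ble Q 4096 = true)
    (h1 : TS.chk fam t1 (Nat.sub (Nat.mul 2 x) 100001) (Nat.sub (Nat.mul 2 y) 100001) (Nat.mul 2 Q) u v R = true)
    (h2 : TS.chk fam t2 (Nat.sub (Nat.mul 2 x) 99999) (Nat.sub (Nat.mul 2 y) 100001) (Nat.mul 2 Q) u v R = true)
    (h3 : TS.chk fam t3 (Nat.sub (Nat.mul 2 x) 100001) (Nat.sub (Nat.mul 2 y) 99999) (Nat.mul 2 Q) u v R = true)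
    (h4 : TS.chk fam t4 (Nat.sub (Nat.mul 2 x) 99999) (Nat.sub (Nat.mul 2 y) 99999) (Nat.mul 2 Q) u v R = true) :
    TS.chk fam (.sq t1 t2 t3 t4) x y Q u v R = true := by
  rw [TS.chk, h, h1, h2, h3, h4]
  rfl

theorem TS.chk_sp {fam : Nat} {t1 t2 t3 t4 : TS} {x y Q u v R : Nat} (h : Nat.ble R 4096 = true)
    (h1 : TS.chk fam t1 x y Q (Nat.sub (Nat.mul 2 u) 100001) (Nat.sub (Nat.mul 2 v) 100001) (Nat.mul 2 R) = true)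
    (h2 : TS.chk fam t2 x y Q (Nat.sub (Nat.mul 2 u) 99999) (Nat.sub (Nat.mul 2 v) 100001) (Nat.mul 2 R) = true)
    (h3 : TS.chk fam t3 x y Q (Nat.sub (Nat.mul 2 u) 100001) (Nat.sub (Nat.mul 2 v) 99999) (Nat.mul 2 R) = true)
    (h4 : TS.chk fam t4 x y Q (Nat.sub (Nat.mul 2 u) 99999) (Nat.sub (Nat.mul 2 v) 99999) (Nat.mul 2 R) = true) :
    TS.chk fam (.sp t1 t2 t3 t4) x y Q u v R = true := by
  rw [TS.chk, h, h1, h2, h3, h4]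
  rfl

end Pool.Agent.MaxTerm58
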