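import Pool.Agent.MaxTerm58.DEM32_p1_11_p0
import Pool.Agent.MaxTerm58.DEM32_p1_11_p1
import Pool.Agent.MaxTerm58.DEM32_p1_11_p2
import Pool.Agent.MaxTerm58.DEM32_p1_11_p3

/-! Certificates of the family E (ratio 3/2, mode 1) for the square of half width `1/16` with centre `(1 + 11 i)/16`. -/

namespace Pool.Agent.MaxTerm58

set_option maxRecDepth 100000

/-- certificate tree -/
def treeEM32_p1_11_0_c0 : TE :=
  .out

theorem chkEM32_p1_11_0_c0 : TE.chk 1 1 treeEM32_p1_11_0_c0 100001 100011 16 100001 99997 4 = true := by decide +kernel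

/-- certificate tree -/
def treeEM32_p1_11_0_c1 : TE :=
  (.sp .out .out .out .out)

theorem chkEM32_p1_11_0_c1 : TE.chk 1 1 treeEM32_p1_11_0_c1 100001 100011 16 100003 99997 4 = true := by decide +kernel

/-- certificate tree -/
def treeEM32_p1_11_0_c3 : TE :=
  .out

theorem chkEM32_p1_11_0_c3 : TE.chk 1 1 treeEM32_p1_11_0_c3 100001 100011 16 100001 99997 8 = true := by decide +kernel

/-- certificate tree -/
def treeEM32_p1_11_0_c8 : TE :=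
  .sp treeEM32_p1_11_0_c9 treeEM32_p1_11_0_c10 treeEM32_p1_11_0_c11 treeEM32_p1_11_0_c12

theorem chkEM32_p1_11_0_c8 : TE.chk 1 1 treeEM32_p1_11_0_c8 100001 100011 16 100007 99997 16 = true :=
  TE.chk_sp rfl chkEM32_p1_11_0_c9 chkEM32_p1_11_0_c10 chkEM32_p1_11_0_c11 chkEM32_p1_11_0_c12

/-- certificate tree -/
def treeEM32_p1_11_0_c6 : TE :=
  .sp treeEM32_p1_11_0_c7 treeEM32_p1_11_0_c8 treeEM32_p1_11_0_c13 treeEM32_p1_11_0_c14

theorem chkEM32_p1_11_0_c6 : TE.chk 1 1 treeEM32_p1_11_0_c6 100001 100011 16 100003 99999 8 = true :=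
  TE.chk_sp rfl chkEM32_p1_11_0_c7 chkEM32_p1_11_0_c8 chkEM32_p1_11_0_c13 chkEM32_p1_11_0_c14

/-- certificate tree -/
def treeEM32_p1_11_0_c2 : TE :=
  .sp treeEM32_p1_11_0_c3 treeEM32_p1_11_0_c4 treeEM32_p1_11_0_c5 treeEM32_p1_11_0_c6

theorem chkEM32_p1_11_0_c2 : TE.chk 1 1 treeEM32_p1_11_0_c2 100001 100011 16 100001 99999 4 = true :=
  TE.chk_sp rfl chkEM32_p1_11_0_c3 chkEM32_p1_11_0_c4 chkEM32_p1_11_0_c5 chkEM32_p1_11_0_c6

/-- certificate tree -/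
def treeEM32_p1_11_0_c17 : TE :=
  .out

theorem chkEM32_p1_11_0_c17 : TE.chk 1 1 treeEM32_p1_11_0_c17 100001 100011 16 100009 99993 16 = true := by decide +kernel

/-- certificate tree -/
def treeEM32_p1_11_0_c18 : TE :=
  .out

theorem chkEM32_p1_11_0_c18 : TE.chk 1 1 treeEM32_p1_11_0_c18 100001 100011 16 100011 99993 16 = true := by decide +kernel

/-- certificate tree -/
def treeEM32_p1_11_0_c19 : TE :=
  .sp treeEM32_p1_11_0_c20 treeEM32_p1_11_0_c21 treeEM32_p1_11_0_c22 treeEM32_p1_11_0_c23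

theorem chkEM32_p1_11_0_c19 : TE.chk 1 1 treeEM32_p1_11_0_c19 100001 100011 16 100009 99995 16 = true :=
  TE.chk_sp rfl chkEM32_p1_11_0_c20 chkEM32_p1_11_0_c21 chkEM32_p1_11_0_c22 chkEM32_p1_11_0_c23

/-- certificate tree -/
def treeEM32_p1_11_0_c16 : TE :=
  .sp treeEM32_p1_11_0_c17 treeEM32_p1_11_0_c18 treeEM32_p1_11_0_c19 treeEM32_p1_11_0_c24

theorem chkEM32_p1_11_0_c16 : TE.chk 1 1 treeEM32_p1_11_0_c16 100001 100011 16 100005 99997 8 = true :=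
  TE.chk_sp rfl chkEM32_p1_11_0_c17 chkEM32_p1_11_0_c18 chkEM32_p1_11_0_c19 chkEM32_p1_11_0_c24

/-- certificate tree -/
def treeEM32_p1_11_0_c25 : TE :=
  .out

theorem chkEM32_p1_11_0_c25 : TE.chk 1 1 treeEM32_p1_11_0_c25 100001 100011 16 100007 99997 8 = true := by decide +kernel

/-- certificate tree -/
def treeEM32_p1_11_0_c27 : TE :=
  .sp treeEM32_p1_11_0_c28 treeEM32_p1_11_0_c29 treeEM32_p1_11_0_c30 treeEM32_p1_11_0_c31

theorem chkEM32_p1_11_0_c27 : TE.chk 1 1 treeEM32_p1_11_0_c27 100001 100011 16 100009 99997 16 = true :=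
  TE.chk_sp rfl chkEM32_p1_11_0_c28 chkEM32_p1_11_0_c29 chkEM32_p1_11_0_c30 chkEM32_p1_11_0_c31

/-- certificate tree -/
def treeEM32_p1_11_0_c32 : TE :=
  .sp treeEM32_p1_11_0_c33 treeEM32_p1_11_0_c34 treeEM32_p1_11_0_c35 treeEM32_p1_11_0_c36

theorem chkEM32_p1_11_0_c32 : TE.chk 1 1 treeEM32_p1_11_0_c32 100001 100011 16 100011 99997 16 = true :=
  TE.chk_sp rfl chkEM32_p1_11_0_c33 chkEM32_p1_11_0_c34 chkEM32_p1_11_0_c35 chkEM32_p1_11_0_c36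

/-- certificate tree -/
def treeEM32_p1_11_0_c37 : TE :=
  .sp treeEM32_p1_11_0_c38 treeEM32_p1_11_0_c39 treeEM32_p1_11_0_c40 treeEM32_p1_11_0_c41

theorem chkEM32_p1_11_0_c37 : TE.chk 1 1 treeEM32_p1_11_0_c37 100001 100011 16 100009 99999 16 = true :=
  TE.chk_sp rfl chkEM32_p1_11_0_c38 chkEM32_p1_11_0_c39 chkEM32_p1_11_0_c40 chkEM32_p1_11_0_c41

/-- certificate tree -/
def treeEM32_p1_11_0_c42 : TE :=
  .sp treeEM32_p1_11_0_c43 treeEM32_p1_11_0_c44 treeEM32_p1_11_0_c45 treeEM32_p1_11_0_c46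

theorem chkEM32_p1_11_0_c42 : TE.chk 1 1 treeEM32_p1_11_0_c42 100001 100011 16 100011 99999 16 = true :=
  TE.chk_sp rfl chkEM32_p1_11_0_c43 chkEM32_p1_11_0_c44 chkEM32_p1_11_0_c45 chkEM32_p1_11_0_c46

/-- certificate tree -/
def treeEM32_p1_11_0_c26 : TE :=
  .sp treeEM32_p1_11_0_c27 treeEM32_p1_11_0_c32 treeEM32_p1_11_0_c37 treeEM32_p1_11_0_c42

theorem chkEM32_p1_11_0_c26 : TE.chk 1 1 treeEM32_p1_11_0_c26 100001 100011 16 100005 99999 8 = true :=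
  TE.chk_sp rfl chkEM32_p1_11_0_c27 chkEM32_p1_11_0_c32 chkEM32_p1_11_0_c37 chkEM32_p1_11_0_c42

/-- certificate tree -/
def treeEM32_p1_11_0_c47 : TE :=
  .out

theorem chkEM32_p1_11_0_c47 : TE.chk 1 1 treeEM32_p1_11_0_c47 100001 100011 16 100007 99999 8 = true := by decide +kernel

/-- certificate tree -/
def treeEM32_p1_11_0_c15 : TE :=
  .sp treeEM32_p1_11_0_c16 treeEM32_p1_11_0_c25 treeEM32_p1_11_0_c26 treeEM32_p1_11_0_c47

theorem chkEM32_p1_11_0_c15 : TE.chk 1 1 treeEM32_p1_11_0_c15 100001 100011 16 100003 99999 4 = true :=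
  TE.chk_sp rfl chkEM32_p1_11_0_c16 chkEM32_p1_11_0_c25 chkEM32_p1_11_0_c26 chkEM32_p1_11_0_c47

/-- certificate tree -/
def treeEM32_p1_11_0 : TE :=
  .sp treeEM32_p1_11_0_c0 treeEM32_p1_11_0_c1 treeEM32_p1_11_0_c2 treeEM32_p1_11_0_c15

theorem chkEM32_p1_11_0 : TE.chk 1 1 treeEM32_p1_11_0 100001 100011 16 100001 99999 2 = true :=
  TE.chk_sp rfl chkEM32_p1_11_0_c0 chkEM32_p1_11_0_c1 chkEM32_p1_11_0_c2 chkEM32_p1_11_0_c15

/-- certificate tree -/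
def treeEM32_p1_11_1_c6 : TE :=
  .sp treeEM32_p1_11_1_c7 treeEM32_p1_11_1_c8 treeEM32_p1_11_1_c9 treeEM32_p1_11_1_c10

theorem chkEM32_p1_11_1_c6 : TE.chk 1 1 treeEM32_p1_11_1_c6 100001 100011 16 100007 100003 16 = true :=
  TE.chk_sp rfl chkEM32_p1_11_1_c7 chkEM32_p1_11_1_c8 chkEM32_p1_11_1_c9 chkEM32_p1_11_1_c10

/-- certificate tree -/
def treeEM32_p1_11_1_c2 : TE :=
  .sp treeEM32_p1_11_1_c3 treeEM32_p1_11_1_c4 treeEM32_p1_11_1_c5 treeEM32_p1_11_1_c6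

theorem chkEM32_p1_11_1_c2 : TE.chk 1 1 treeEM32_p1_11_1_c2 100001 100011 16 100003 100001 8 = true :=
  TE.chk_sp rfl chkEM32_p1_11_1_c3 chkEM32_p1_11_1_c4 chkEM32_p1_11_1_c5 chkEM32_p1_11_1_c6

/-- certificate tree -/
def treeEM32_p1_11_1_c11 : TE :=
  .out

theorem chkEM32_p1_11_1_c11 : TE.chk 1 1 treeEM32_p1_11_1_c11 100001 100011 16 100001 100003 8 = true := by decide +kernel

/-- certificate tree -/
def treeEM32_p1_11_1_c0 : TE :=
  .sp treeEM32_p1_11_1_c1 treeEM32_p1_11_1_c2 treeEM32_p1_11_1_c11 treeEM32_p1_11_1_c12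

theorem chkEM32_p1_11_1_c0 : TE.chk 1 1 treeEM32_p1_11_1_c0 100001 100011 16 100001 100001 4 = true :=
  TE.chk_sp rfl chkEM32_p1_11_1_c1 chkEM32_p1_11_1_c2 chkEM32_p1_11_1_c11 chkEM32_p1_11_1_c12

/-- certificate tree -/
def treeEM32_p1_11_1_c15 : TE :=
  .sp treeEM32_p1_11_1_c16 treeEM32_p1_11_1_c17 treeEM32_p1_11_1_c18 treeEM32_p1_11_1_c19

theorem chkEM32_p1_11_1_c15 : TE.chk 1 1 treeEM32_p1_11_1_c15 100001 100011 16 100009 100001 16 = true :=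
  TE.chk_sp rfl chkEM32_p1_11_1_c16 chkEM32_p1_11_1_c17 chkEM32_p1_11_1_c18 chkEM32_p1_11_1_c19

/-- certificate tree -/
def treeEM32_p1_11_1_c20 : TE :=
  .sp treeEM32_p1_11_1_c21 treeEM32_p1_11_1_c22 treeEM32_p1_11_1_c23 treeEM32_p1_11_1_c24

theorem chkEM32_p1_11_1_c20 : TE.chk 1 1 treeEM32_p1_11_1_c20 100001 100011 16 100011 100001 16 = true :=
  TE.chk_sp rfl chkEM32_p1_11_1_c21 chkEM32_p1_11_1_c22 chkEM32_p1_11_1_c23 chkEM32_p1_11_1_c24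

/-- certificate tree -/
def treeEM32_p1_11_1_c25 : TE :=
  .sp treeEM32_p1_11_1_c26 treeEM32_p1_11_1_c27 treeEM32_p1_11_1_c28 treeEM32_p1_11_1_c29

theorem chkEM32_p1_11_1_c25 : TE.chk 1 1 treeEM32_p1_11_1_c25 100001 100011 16 100009 100003 16 = true :=
  TE.chk_sp rfl chkEM32_p1_11_1_c26 chkEM32_p1_11_1_c27 chkEM32_p1_11_1_c28 chkEM32_p1_11_1_c29

/-- certificate tree -/
def treeEM32_p1_11_1_c30 : TE :=
  .sp treeEM32_p1_11_1_c31 treeEM32_p1_11_1_c32 treeEM32_p1_11_1_c33 treeEM32_p1_11_1_c34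

theorem chkEM32_p1_11_1_c30 : TE.chk 1 1 treeEM32_p1_11_1_c30 100001 100011 16 100011 100003 16 = true :=
  TE.chk_sp rfl chkEM32_p1_11_1_c31 chkEM32_p1_11_1_c32 chkEM32_p1_11_1_c33 chkEM32_p1_11_1_c34

/-- certificate tree -/
def treeEM32_p1_11_1_c14 : TE :=
  .sp treeEM32_p1_11_1_c15 treeEM32_p1_11_1_c20 treeEM32_p1_11_1_c25 treeEM32_p1_11_1_c30

theorem chkEM32_p1_11_1_c14 : TE.chk 1 1 treeEM32_p1_11_1_c14 100001 100011 16 100005 100001 8 = true :=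
  TE.chk_sp rfl chkEM32_p1_11_1_c15 chkEM32_p1_11_1_c20 chkEM32_p1_11_1_c25 chkEM32_p1_11_1_c30

/-- certificate tree -/
def treeEM32_p1_11_1_c35 : TE :=
  .out

theorem chkEM32_p1_11_1_c35 : TE.chk 1 1 treeEM32_p1_11_1_c35 100001 100011 16 100007 100001 8 = true := by decide +kernel

/-- certificate tree -/
def treeEM32_p1_11_1_c37 : TE :=
  .sp treeEM32_p1_11_1_c38 treeEM32_p1_11_1_c39 treeEM32_p1_11_1_c40 treeEM32_p1_11_1_c41

theorem chkEM32_p1_11_1_c37 : TE.chk 1 1 treeEM32_p1_11_1_c37 100001 100011 16 100009 100005 16 = true :=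
  TE.chk_sp rfl chkEM32_p1_11_1_c38 chkEM32_p1_11_1_c39 chkEM32_p1_11_1_c40 chkEM32_p1_11_1_c41

/-- certificate tree -/
def treeEM32_p1_11_1_c43 : TE :=
  .out

theorem chkEM32_p1_11_1_c43 : TE.chk 1 1 treeEM32_p1_11_1_c43 100001 100011 16 100009 100007 16 = true := by decide +kernel

/-- certificate tree -/
def treeEM32_p1_11_1_c44 : TE :=
  .out

theorem chkEM32_p1_11_1_c44 : TE.chk 1 1 treeEM32_p1_11_1_c44 100001 100011 16 100011 100007 16 = true := by decide +kernel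

/-- certificate tree -/
def treeEM32_p1_11_1_c36 : TE :=
  .sp treeEM32_p1_11_1_c37 treeEM32_p1_11_1_c42 treeEM32_p1_11_1_c43 treeEM32_p1_11_1_c44

theorem chkEM32_p1_11_1_c36 : TE.chk 1 1 treeEM32_p1_11_1_c36 100001 100011 16 100005 100003 8 = true :=
  TE.chk_sp rfl chkEM32_p1_11_1_c37 chkEM32_p1_11_1_c42 chkEM32_p1_11_1_c43 chkEM32_p1_11_1_c44

/-- certificate tree -/
def treeEM32_p1_11_1_c45 : TE :=
  .out

theorem chkEM32_p1_11_1_c45 : TE.chk 1 1 treeEM32_p1_11_1_c45 100001 100011 16 100007 100003 8 = true := by decide +kernel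

/-- certificate tree -/
def treeEM32_p1_11_1_c13 : TE :=
  .sp treeEM32_p1_11_1_c14 treeEM32_p1_11_1_c35 treeEM32_p1_11_1_c36 treeEM32_p1_11_1_c45

theorem chkEM32_p1_11_1_c13 : TE.chk 1 1 treeEM32_p1_11_1_c13 100001 100011 16 100003 100001 4 = true :=
  TE.chk_sp rfl chkEM32_p1_11_1_c14 chkEM32_p1_11_1_c35 chkEM32_p1_11_1_c36 chkEM32_p1_11_1_c45

/-- certificate tree -/
def treeEM32_p1_11_1_c46 : TE :=
  .out

theorem chkEM32_p1_11_1_c46 : TE.chk 1 1 treeEM32_p1_11_1_c46 100001 100011 16 100001 100003 4 = true := by decide +kernel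

/-- certificate tree -/
def treeEM32_p1_11_1_c47 : TE :=
  (.sp .out .out .out .out)

theorem chkEM32_p1_11_1_c47 : TE.chk 1 1 treeEM32_p1_11_1_c47 100001 100011 16 100003 100003 4 = true := by decide +kernel

/-- certificate tree -/
def treeEM32_p1_11_1 : TE :=
  .sp treeEM32_p1_11_1_c0 treeEM32_p1_11_1_c13 treeEM32_p1_11_1_c46 treeEM32_p1_11_1_c47

theorem chkEM32_p1_11_1 : TE.chk 1 1 treeEM32_p1_11_1 100001 100011 16 100001 100001 2 = true :=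
  TE.chk_sp rfl chkEM32_p1_11_1_c0 chkEM32_p1_11_1_c13 chkEM32_p1_11_1_c46 chkEM32_p1_11_1_c47

end Pool.Agent.MaxTerm58
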