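import Pool.Agent.MaxTerm58.DEM32_p1_13_p0
import Pool.Agent.MaxTerm58.DEM32_p1_13_p1
import Pool.Agent.MaxTerm58.DEM32_p1_13_p2
import Pool.Agent.MaxTerm58.DEM32_p1_13_p3
import Pool.Agent.MaxTerm58.DEM32_p1_13_p4
import Pool.Agent.MaxTerm58.DEM32_p1_13_p5
import Pool.Agent.MaxTerm58.DEM32_p1_13_p6

/-! Certificates of the family E (ratio 3/2, mode 1) for the square of half width `1/16` with centre `(1 + 13 i)/16`. -/

namespace Pool.Agent.MaxTerm58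

set_option maxRecDepth 100000

/-- certificate tree -/
def treeEM32_p1_13_0_c0 : TE :=
  .out

theorem chkEM32_p1_13_0_c0 : TE.chk 1 1 treeEM32_p1_13_0_c0 100001 100013 16 100001 99997 4 = true := by decide +kernel

/-- certificate tree -/
def treeEM32_p1_13_0_c1 : TE :=
  (.sp .out .out .out .out)

theorem chkEM32_p1_13_0_c1 : TE.chk 1 1 treeEM32_p1_13_0_c1 100001 100013 16 100003 99997 4 = true := by decide +kernel

/-- certificate tree -/
def treeEM32_p1_13_0_c3 : TE :=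
  .out

theorem chkEM32_p1_13_0_c3 : TE.chk 1 1 treeEM32_p1_13_0_c3 100001 100013 16 100001 99997 8 = true := by decide +kernel

/-- certificate tree -/
def treeEM32_p1_13_0_c6 : TE :=
  .sp treeEM32_p1_13_0_c7 treeEM32_p1_13_0_c8 treeEM32_p1_13_0_c9 treeEM32_p1_13_0_c10

theorem chkEM32_p1_13_0_c6 : TE.chk 1 1 treeEM32_p1_13_0_c6 100001 100013 16 100003 99999 8 = true :=
  TE.chk_sp rfl chkEM32_p1_13_0_c7 chkEM32_p1_13_0_c8 chkEM32_p1_13_0_c9 chkEM32_p1_13_0_c10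

/-- certificate tree -/
def treeEM32_p1_13_0_c2 : TE :=
  .sp treeEM32_p1_13_0_c3 treeEM32_p1_13_0_c4 treeEM32_p1_13_0_c5 treeEM32_p1_13_0_c6

theorem chkEM32_p1_13_0_c2 : TE.chk 1 1 treeEM32_p1_13_0_c2 100001 100013 16 100001 99999 4 = true :=
  TE.chk_sp rfl chkEM32_p1_13_0_c3 chkEM32_p1_13_0_c4 chkEM32_p1_13_0_c5 chkEM32_p1_13_0_c6

/-- certificate tree -/
def treeEM32_p1_13_0_c13 : TE :=
  .out

theorem chkEM32_p1_13_0_c13 : TE.chk 1 1 treeEM32_p1_13_0_c13 100001 100013 16 100009 99993 16 = true := by decide +kernel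

/-- certificate tree -/
def treeEM32_p1_13_0_c15 : TE :=
  .sq treeEM32_p1_13_0_c16 treeEM32_p1_13_0_c17 treeEM32_p1_13_0_c18 treeEM32_p1_13_0_c19

theorem chkEM32_p1_13_0_c15 : TE.chk 1 1 treeEM32_p1_13_0_c15 100001 100013 16 100009 99995 16 = true :=
  TE.chk_sq rfl chkEM32_p1_13_0_c16 chkEM32_p1_13_0_c17 chkEM32_p1_13_0_c18 chkEM32_p1_13_0_c19

/-- certificate tree -/
def treeEM32_p1_13_0_c20 : TE :=
  .sp treeEM32_p1_13_0_c21 treeEM32_p1_13_0_c22 treeEM32_p1_13_0_c23 treeEM32_p1_13_0_c24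

theorem chkEM32_p1_13_0_c20 : TE.chk 1 1 treeEM32_p1_13_0_c20 100001 100013 16 100011 99995 16 = true :=
  TE.chk_sp rfl chkEM32_p1_13_0_c21 chkEM32_p1_13_0_c22 chkEM32_p1_13_0_c23 chkEM32_p1_13_0_c24

/-- certificate tree -/
def treeEM32_p1_13_0_c12 : TE :=
  .sp treeEM32_p1_13_0_c13 treeEM32_p1_13_0_c14 treeEM32_p1_13_0_c15 treeEM32_p1_13_0_c20

theorem chkEM32_p1_13_0_c12 : TE.chk 1 1 treeEM32_p1_13_0_c12 100001 100013 16 100005 99997 8 = true :=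
  TE.chk_sp rfl chkEM32_p1_13_0_c13 chkEM32_p1_13_0_c14 chkEM32_p1_13_0_c15 chkEM32_p1_13_0_c20

/-- certificate tree -/
def treeEM32_p1_13_0_c27 : TE :=
  .out

theorem chkEM32_p1_13_0_c27 : TE.chk 1 1 treeEM32_p1_13_0_c27 100001 100013 16 100015 99993 16 = true := by decide +kernel

/-- certificate tree -/
def treeEM32_p1_13_0_c30 : TE :=
  .out

theorem chkEM32_p1_13_0_c30 : TE.chk 1 1 treeEM32_p1_13_0_c30 100001 100013 16 100027 99989 32 = true := by decide +kernel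

/-- certificate tree -/
def treeEM32_p1_13_0_c31 : TE :=
  .sp treeEM32_p1_13_0_c32 treeEM32_p1_13_0_c33 treeEM32_p1_13_0_c34 treeEM32_p1_13_0_c35

theorem chkEM32_p1_13_0_c31 : TE.chk 1 1 treeEM32_p1_13_0_c31 100001 100013 16 100025 99991 32 = true :=
  TE.chk_sp rfl chkEM32_p1_13_0_c32 chkEM32_p1_13_0_c33 chkEM32_p1_13_0_c34 chkEM32_p1_13_0_c35

/-- certificate tree -/
def treeEM32_p1_13_0_c36 : TE :=
  .out

theorem chkEM32_p1_13_0_c36 : TE.chk 1 1 treeEM32_p1_13_0_c36 100001 100013 16 100027 99991 32 = true := by decide +kernel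

/-- certificate tree -/
def treeEM32_p1_13_0_c28 : TE :=
  .sp treeEM32_p1_13_0_c29 treeEM32_p1_13_0_c30 treeEM32_p1_13_0_c31 treeEM32_p1_13_0_c36

theorem chkEM32_p1_13_0_c28 : TE.chk 1 1 treeEM32_p1_13_0_c28 100001 100013 16 100013 99995 16 = true :=
  TE.chk_sp rfl chkEM32_p1_13_0_c29 chkEM32_p1_13_0_c30 chkEM32_p1_13_0_c31 chkEM32_p1_13_0_c36

/-- certificate tree -/
def treeEM32_p1_13_0_c37 : TE :=
  .out

theorem chkEM32_p1_13_0_c37 : TE.chk 1 1 treeEM32_p1_13_0_c37 100001 100013 16 100015 99995 16 = true := by decide +kernel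

/-- certificate tree -/
def treeEM32_p1_13_0_c25 : TE :=
  .sp treeEM32_p1_13_0_c26 treeEM32_p1_13_0_c27 treeEM32_p1_13_0_c28 treeEM32_p1_13_0_c37

theorem chkEM32_p1_13_0_c25 : TE.chk 1 1 treeEM32_p1_13_0_c25 100001 100013 16 100007 99997 8 = true :=
  TE.chk_sp rfl chkEM32_p1_13_0_c26 chkEM32_p1_13_0_c27 chkEM32_p1_13_0_c28 chkEM32_p1_13_0_c37

/-- certificate tree -/
def treeEM32_p1_13_0_c39 : TE :=
  .sq treeEM32_p1_13_0_c40 treeEM32_p1_13_0_c41 treeEM32_p1_13_0_c42 treeEM32_p1_13_0_c43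

theorem chkEM32_p1_13_0_c39 : TE.chk 1 1 treeEM32_p1_13_0_c39 100001 100013 16 100009 99997 16 = true :=
  TE.chk_sq rfl chkEM32_p1_13_0_c40 chkEM32_p1_13_0_c41 chkEM32_p1_13_0_c42 chkEM32_p1_13_0_c43

/-- certificate tree -/
def treeEM32_p1_13_0_c44 : TE :=
  .sp treeEM32_p1_13_0_c45 treeEM32_p1_13_0_c46 treeEM32_p1_13_0_c47 treeEM32_p1_13_0_c48

theorem chkEM32_p1_13_0_c44 : TE.chk 1 1 treeEM32_p1_13_0_c44 100001 100013 16 100011 99997 16 = true :=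
  TE.chk_sp rfl chkEM32_p1_13_0_c45 chkEM32_p1_13_0_c46 chkEM32_p1_13_0_c47 chkEM32_p1_13_0_c48

/-- certificate tree -/
def treeEM32_p1_13_0_c49 : TE :=
  .sq treeEM32_p1_13_0_c50 treeEM32_p1_13_0_c51 treeEM32_p1_13_0_c52 treeEM32_p1_13_0_c53

theorem chkEM32_p1_13_0_c49 : TE.chk 1 1 treeEM32_p1_13_0_c49 100001 100013 16 100009 99999 16 = true :=
  TE.chk_sq rfl chkEM32_p1_13_0_c50 chkEM32_p1_13_0_c51 chkEM32_p1_13_0_c52 chkEM32_p1_13_0_c53

/-- certificate tree -/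
def treeEM32_p1_13_0_c54 : TE :=
  .sp treeEM32_p1_13_0_c55 treeEM32_p1_13_0_c56 treeEM32_p1_13_0_c57 treeEM32_p1_13_0_c58

theorem chkEM32_p1_13_0_c54 : TE.chk 1 1 treeEM32_p1_13_0_c54 100001 100013 16 100011 99999 16 = true :=
  TE.chk_sp rfl chkEM32_p1_13_0_c55 chkEM32_p1_13_0_c56 chkEM32_p1_13_0_c57 chkEM32_p1_13_0_c58

/-- certificate tree -/
def treeEM32_p1_13_0_c38 : TE :=
  .sp treeEM32_p1_13_0_c39 treeEM32_p1_13_0_c44 treeEM32_p1_13_0_c49 treeEM32_p1_13_0_c54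

theorem chkEM32_p1_13_0_c38 : TE.chk 1 1 treeEM32_p1_13_0_c38 100001 100013 16 100005 99999 8 = true :=
  TE.chk_sp rfl chkEM32_p1_13_0_c39 chkEM32_p1_13_0_c44 chkEM32_p1_13_0_c49 chkEM32_p1_13_0_c54

/-- certificate tree -/
def treeEM32_p1_13_0_c60 : TE :=
  .sp treeEM32_p1_13_0_c61 treeEM32_p1_13_0_c62 treeEM32_p1_13_0_c63 treeEM32_p1_13_0_c64

theorem chkEM32_p1_13_0_c60 : TE.chk 1 1 treeEM32_p1_13_0_c60 100001 100013 16 100013 99997 16 = true :=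
  TE.chk_sp rfl chkEM32_p1_13_0_c61 chkEM32_p1_13_0_c62 chkEM32_p1_13_0_c63 chkEM32_p1_13_0_c64

/-- certificate tree -/
def treeEM32_p1_13_0_c65 : TE :=
  .out

theorem chkEM32_p1_13_0_c65 : TE.chk 1 1 treeEM32_p1_13_0_c65 100001 100013 16 100015 99997 16 = true := by decide +kernel

/-- certificate tree -/
def treeEM32_p1_13_0_c66 : TE :=
  .sp treeEM32_p1_13_0_c67 treeEM32_p1_13_0_c68 treeEM32_p1_13_0_c69 treeEM32_p1_13_0_c70

theorem chkEM32_p1_13_0_c66 : TE.chk 1 1 treeEM32_p1_13_0_c66 100001 100013 16 100013 99999 16 = true :=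
  TE.chk_sp rfl chkEM32_p1_13_0_c67 chkEM32_p1_13_0_c68 chkEM32_p1_13_0_c69 chkEM32_p1_13_0_c70

/-- certificate tree -/
def treeEM32_p1_13_0_c71 : TE :=
  .out

theorem chkEM32_p1_13_0_c71 : TE.chk 1 1 treeEM32_p1_13_0_c71 100001 100013 16 100015 99999 16 = true := by decide +kernel

/-- certificate tree -/
def treeEM32_p1_13_0_c59 : TE :=
  .sp treeEM32_p1_13_0_c60 treeEM32_p1_13_0_c65 treeEM32_p1_13_0_c66 treeEM32_p1_13_0_c71

theorem chkEM32_p1_13_0_c59 : TE.chk 1 1 treeEM32_p1_13_0_c59 100001 100013 16 100007 99999 8 = true :=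
  TE.chk_sp rfl chkEM32_p1_13_0_c60 chkEM32_p1_13_0_c65 chkEM32_p1_13_0_c66 chkEM32_p1_13_0_c71

/-- certificate tree -/
def treeEM32_p1_13_0_c11 : TE :=
  .sp treeEM32_p1_13_0_c12 treeEM32_p1_13_0_c25 treeEM32_p1_13_0_c38 treeEM32_p1_13_0_c59

theorem chkEM32_p1_13_0_c11 : TE.chk 1 1 treeEM32_p1_13_0_c11 100001 100013 16 100003 99999 4 = true :=
  TE.chk_sp rfl chkEM32_p1_13_0_c12 chkEM32_p1_13_0_c25 chkEM32_p1_13_0_c38 chkEM32_p1_13_0_c59

/-- certificate tree -/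
def treeEM32_p1_13_0 : TE :=
  .sp treeEM32_p1_13_0_c0 treeEM32_p1_13_0_c1 treeEM32_p1_13_0_c2 treeEM32_p1_13_0_c11

theorem chkEM32_p1_13_0 : TE.chk 1 1 treeEM32_p1_13_0 100001 100013 16 100001 99999 2 = true :=
  TE.chk_sp rfl chkEM32_p1_13_0_c0 chkEM32_p1_13_0_c1 chkEM32_p1_13_0_c2 chkEM32_p1_13_0_c11

/-- certificate tree -/
def treeEM32_p1_13_1_c2 : TE :=
  .sp treeEM32_p1_13_1_c3 treeEM32_p1_13_1_c4 treeEM32_p1_13_1_c5 treeEM32_p1_13_1_c6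

theorem chkEM32_p1_13_1_c2 : TE.chk 1 1 treeEM32_p1_13_1_c2 100001 100013 16 100003 100001 8 = true :=
  TE.chk_sp rfl chkEM32_p1_13_1_c3 chkEM32_p1_13_1_c4 chkEM32_p1_13_1_c5 chkEM32_p1_13_1_c6

/-- certificate tree -/
def treeEM32_p1_13_1_c7 : TE :=
  .out

theorem chkEM32_p1_13_1_c7 : TE.chk 1 1 treeEM32_p1_13_1_c7 100001 100013 16 100001 100003 8 = true := by decide +kernel

/-- certificate tree -/
def treeEM32_p1_13_1_c0 : TE :=
  .sp treeEM32_p1_13_1_c1 treeEM32_p1_13_1_c2 treeEM32_p1_13_1_c7 treeEM32_p1_13_1_c8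

theorem chkEM32_p1_13_1_c0 : TE.chk 1 1 treeEM32_p1_13_1_c0 100001 100013 16 100001 100001 4 = true :=
  TE.chk_sp rfl chkEM32_p1_13_1_c1 chkEM32_p1_13_1_c2 chkEM32_p1_13_1_c7 chkEM32_p1_13_1_c8

/-- certificate tree -/
def treeEM32_p1_13_1_c11 : TE :=
  .sq treeEM32_p1_13_1_c12 treeEM32_p1_13_1_c13 treeEM32_p1_13_1_c14 treeEM32_p1_13_1_c15

theorem chkEM32_p1_13_1_c11 : TE.chk 1 1 treeEM32_p1_13_1_c11 100001 100013 16 100009 100001 16 = true :=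
  TE.chk_sq rfl chkEM32_p1_13_1_c12 chkEM32_p1_13_1_c13 chkEM32_p1_13_1_c14 chkEM32_p1_13_1_c15

/-- certificate tree -/
def treeEM32_p1_13_1_c16 : TE :=
  .sq treeEM32_p1_13_1_c17 treeEM32_p1_13_1_c18 treeEM32_p1_13_1_c19 treeEM32_p1_13_1_c20

theorem chkEM32_p1_13_1_c16 : TE.chk 1 1 treeEM32_p1_13_1_c16 100001 100013 16 100011 100001 16 = true :=
  TE.chk_sq rfl chkEM32_p1_13_1_c17 chkEM32_p1_13_1_c18 chkEM32_p1_13_1_c19 chkEM32_p1_13_1_c20

/-- certificate tree -/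
def treeEM32_p1_13_1_c21 : TE :=
  .sq treeEM32_p1_13_1_c22 treeEM32_p1_13_1_c23 treeEM32_p1_13_1_c24 treeEM32_p1_13_1_c25

theorem chkEM32_p1_13_1_c21 : TE.chk 1 1 treeEM32_p1_13_1_c21 100001 100013 16 100009 100003 16 = true :=
  TE.chk_sq rfl chkEM32_p1_13_1_c22 chkEM32_p1_13_1_c23 chkEM32_p1_13_1_c24 chkEM32_p1_13_1_c25

/-- certificate tree -/
def treeEM32_p1_13_1_c26 : TE :=
  .sp treeEM32_p1_13_1_c27 treeEM32_p1_13_1_c28 treeEM32_p1_13_1_c29 treeEM32_p1_13_1_c30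

theorem chkEM32_p1_13_1_c26 : TE.chk 1 1 treeEM32_p1_13_1_c26 100001 100013 16 100011 100003 16 = true :=
  TE.chk_sp rfl chkEM32_p1_13_1_c27 chkEM32_p1_13_1_c28 chkEM32_p1_13_1_c29 chkEM32_p1_13_1_c30

/-- certificate tree -/
def treeEM32_p1_13_1_c10 : TE :=
  .sp treeEM32_p1_13_1_c11 treeEM32_p1_13_1_c16 treeEM32_p1_13_1_c21 treeEM32_p1_13_1_c26

theorem chkEM32_p1_13_1_c10 : TE.chk 1 1 treeEM32_p1_13_1_c10 100001 100013 16 100005 100001 8 = true :=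
  TE.chk_sp rfl chkEM32_p1_13_1_c11 chkEM32_p1_13_1_c16 chkEM32_p1_13_1_c21 chkEM32_p1_13_1_c26

/-- certificate tree -/
def treeEM32_p1_13_1_c32 : TE :=
  .sp treeEM32_p1_13_1_c33 treeEM32_p1_13_1_c34 treeEM32_p1_13_1_c35 treeEM32_p1_13_1_c36

theorem chkEM32_p1_13_1_c32 : TE.chk 1 1 treeEM32_p1_13_1_c32 100001 100013 16 100013 100001 16 = true :=
  TE.chk_sp rfl chkEM32_p1_13_1_c33 chkEM32_p1_13_1_c34 chkEM32_p1_13_1_c35 chkEM32_p1_13_1_c36

/-- certificate tree -/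
def treeEM32_p1_13_1_c37 : TE :=
  .out

theorem chkEM32_p1_13_1_c37 : TE.chk 1 1 treeEM32_p1_13_1_c37 100001 100013 16 100015 100001 16 = true := by decide +kernel

/-- certificate tree -/
def treeEM32_p1_13_1_c38 : TE :=
  .sp treeEM32_p1_13_1_c39 treeEM32_p1_13_1_c40 treeEM32_p1_13_1_c41 treeEM32_p1_13_1_c42

theorem chkEM32_p1_13_1_c38 : TE.chk 1 1 treeEM32_p1_13_1_c38 100001 100013 16 100013 100003 16 = true :=
  TE.chk_sp rfl chkEM32_p1_13_1_c39 chkEM32_p1_13_1_c40 chkEM32_p1_13_1_c41 chkEM32_p1_13_1_c42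

/-- certificate tree -/
def treeEM32_p1_13_1_c43 : TE :=
  .out

theorem chkEM32_p1_13_1_c43 : TE.chk 1 1 treeEM32_p1_13_1_c43 100001 100013 16 100015 100003 16 = true := by decide +kernel

/-- certificate tree -/
def treeEM32_p1_13_1_c31 : TE :=
  .sp treeEM32_p1_13_1_c32 treeEM32_p1_13_1_c37 treeEM32_p1_13_1_c38 treeEM32_p1_13_1_c43

theorem chkEM32_p1_13_1_c31 : TE.chk 1 1 treeEM32_p1_13_1_c31 100001 100013 16 100007 100001 8 = true :=
  TE.chk_sp rfl chkEM32_p1_13_1_c32 chkEM32_p1_13_1_c37 chkEM32_p1_13_1_c38 chkEM32_p1_13_1_c43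

/-- certificate tree -/
def treeEM32_p1_13_1_c45 : TE :=
  .sq treeEM32_p1_13_1_c46 treeEM32_p1_13_1_c47 treeEM32_p1_13_1_c48 treeEM32_p1_13_1_c49

theorem chkEM32_p1_13_1_c45 : TE.chk 1 1 treeEM32_p1_13_1_c45 100001 100013 16 100009 100005 16 = true :=
  TE.chk_sq rfl chkEM32_p1_13_1_c46 chkEM32_p1_13_1_c47 chkEM32_p1_13_1_c48 chkEM32_p1_13_1_c49

/-- certificate tree -/
def treeEM32_p1_13_1_c50 : TE :=
  .sp treeEM32_p1_13_1_c51 treeEM32_p1_13_1_c52 treeEM32_p1_13_1_c53 treeEM32_p1_13_1_c54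

theorem chkEM32_p1_13_1_c50 : TE.chk 1 1 treeEM32_p1_13_1_c50 100001 100013 16 100011 100005 16 = true :=
  TE.chk_sp rfl chkEM32_p1_13_1_c51 chkEM32_p1_13_1_c52 chkEM32_p1_13_1_c53 chkEM32_p1_13_1_c54

/-- certificate tree -/
def treeEM32_p1_13_1_c55 : TE :=
  .out

theorem chkEM32_p1_13_1_c55 : TE.chk 1 1 treeEM32_p1_13_1_c55 100001 100013 16 100009 100007 16 = true := by decide +kernel

/-- certificate tree -/
def treeEM32_p1_13_1_c59 : TE :=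
  .out

theorem chkEM32_p1_13_1_c59 : TE.chk 1 1 treeEM32_p1_13_1_c59 100001 100013 16 100021 100015 32 = true := by decide +kernel

/-- certificate tree -/
def treeEM32_p1_13_1_c60 : TE :=
  .out

theorem chkEM32_p1_13_1_c60 : TE.chk 1 1 treeEM32_p1_13_1_c60 100001 100013 16 100023 100015 32 = true := by decide +kernel

/-- certificate tree -/
def treeEM32_p1_13_1_c56 : TE :=
  .sp treeEM32_p1_13_1_c57 treeEM32_p1_13_1_c58 treeEM32_p1_13_1_c59 treeEM32_p1_13_1_c60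

theorem chkEM32_p1_13_1_c56 : TE.chk 1 1 treeEM32_p1_13_1_c56 100001 100013 16 100011 100007 16 = true :=
  TE.chk_sp rfl chkEM32_p1_13_1_c57 chkEM32_p1_13_1_c58 chkEM32_p1_13_1_c59 chkEM32_p1_13_1_c60

/-- certificate tree -/
def treeEM32_p1_13_1_c44 : TE :=
  .sp treeEM32_p1_13_1_c45 treeEM32_p1_13_1_c50 treeEM32_p1_13_1_c55 treeEM32_p1_13_1_c56

theorem chkEM32_p1_13_1_c44 : TE.chk 1 1 treeEM32_p1_13_1_c44 100001 100013 16 100005 100003 8 = true :=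
  TE.chk_sp rfl chkEM32_p1_13_1_c45 chkEM32_p1_13_1_c50 chkEM32_p1_13_1_c55 chkEM32_p1_13_1_c56

/-- certificate tree -/
def treeEM32_p1_13_1_c64 : TE :=
  .out

theorem chkEM32_p1_13_1_c64 : TE.chk 1 1 treeEM32_p1_13_1_c64 100001 100025 32 100025 100009 32 = true := by decide +kernel

/-- certificate tree -/
def treeEM32_p1_13_1_c65 : TE :=
  .out

theorem chkEM32_p1_13_1_c65 : TE.chk 1 1 treeEM32_p1_13_1_c65 100003 100025 32 100025 100009 32 = true := by decide +kernel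

/-- certificate tree -/
def treeEM32_p1_13_1_c63 : TE :=
  .sq treeEM32_p1_13_1_c64 treeEM32_p1_13_1_c65 treeEM32_p1_13_1_c66 treeEM32_p1_13_1_c67

theorem chkEM32_p1_13_1_c63 : TE.chk 1 1 treeEM32_p1_13_1_c63 100001 100013 16 100025 100009 32 = true :=
  TE.chk_sq rfl chkEM32_p1_13_1_c64 chkEM32_p1_13_1_c65 chkEM32_p1_13_1_c66 chkEM32_p1_13_1_c67

/-- certificate tree -/
def treeEM32_p1_13_1_c68 : TE :=
  .out

theorem chkEM32_p1_13_1_c68 : TE.chk 1 1 treeEM32_p1_13_1_c68 100001 100013 16 100027 100009 32 = true := by decide +kernel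

/-- certificate tree -/
def treeEM32_p1_13_1_c70 : TE :=
  .out

theorem chkEM32_p1_13_1_c70 : TE.chk 1 1 treeEM32_p1_13_1_c70 100001 100013 16 100027 100011 32 = true := by decide +kernel

/-- certificate tree -/
def treeEM32_p1_13_1_c62 : TE :=
  .sp treeEM32_p1_13_1_c63 treeEM32_p1_13_1_c68 treeEM32_p1_13_1_c69 treeEM32_p1_13_1_c70

theorem chkEM32_p1_13_1_c62 : TE.chk 1 1 treeEM32_p1_13_1_c62 100001 100013 16 100013 100005 16 = true :=
  TE.chk_sp rfl chkEM32_p1_13_1_c63 chkEM32_p1_13_1_c68 chkEM32_p1_13_1_c69 chkEM32_p1_13_1_c70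

/-- certificate tree -/
def treeEM32_p1_13_1_c71 : TE :=
  .out

theorem chkEM32_p1_13_1_c71 : TE.chk 1 1 treeEM32_p1_13_1_c71 100001 100013 16 100015 100005 16 = true := by decide +kernel

/-- certificate tree -/
def treeEM32_p1_13_1_c73 : TE :=
  .out

theorem chkEM32_p1_13_1_c73 : TE.chk 1 1 treeEM32_p1_13_1_c73 100001 100013 16 100015 100007 16 = true := by decide +kernel

/-- certificate tree -/
def treeEM32_p1_13_1_c61 : TE :=
  .sp treeEM32_p1_13_1_c62 treeEM32_p1_13_1_c71 treeEM32_p1_13_1_c72 treeEM32_p1_13_1_c73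

theorem chkEM32_p1_13_1_c61 : TE.chk 1 1 treeEM32_p1_13_1_c61 100001 100013 16 100007 100003 8 = true :=
  TE.chk_sp rfl chkEM32_p1_13_1_c62 chkEM32_p1_13_1_c71 chkEM32_p1_13_1_c72 chkEM32_p1_13_1_c73

/-- certificate tree -/
def treeEM32_p1_13_1_c9 : TE :=
  .sp treeEM32_p1_13_1_c10 treeEM32_p1_13_1_c31 treeEM32_p1_13_1_c44 treeEM32_p1_13_1_c61

theorem chkEM32_p1_13_1_c9 : TE.chk 1 1 treeEM32_p1_13_1_c9 100001 100013 16 100003 100001 4 = true :=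
  TE.chk_sp rfl chkEM32_p1_13_1_c10 chkEM32_p1_13_1_c31 chkEM32_p1_13_1_c44 chkEM32_p1_13_1_c61

/-- certificate tree -/
def treeEM32_p1_13_1_c74 : TE :=
  .out

theorem chkEM32_p1_13_1_c74 : TE.chk 1 1 treeEM32_p1_13_1_c74 100001 100013 16 100001 100003 4 = true := by decide +kernel

/-- certificate tree -/
def treeEM32_p1_13_1_c75 : TE :=
  (.sp .out .out .out .out)

theorem chkEM32_p1_13_1_c75 : TE.chk 1 1 treeEM32_p1_13_1_c75 100001 100013 16 100003 100003 4 = true := by decide +kernel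

/-- certificate tree -/
def treeEM32_p1_13_1 : TE :=
  .sp treeEM32_p1_13_1_c0 treeEM32_p1_13_1_c9 treeEM32_p1_13_1_c74 treeEM32_p1_13_1_c75

theorem chkEM32_p1_13_1 : TE.chk 1 1 treeEM32_p1_13_1 100001 100013 16 100001 100001 2 = true :=
  TE.chk_sp rfl chkEM32_p1_13_1_c0 chkEM32_p1_13_1_c9 chkEM32_p1_13_1_c74 chkEM32_p1_13_1_c75

end Pool.Agent.MaxTerm58
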