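import Pool.Agent.MaxTerm58.EChunk

/-! Certificates of the family E (ratio 3/2, mode 1) for the square of half width `1/16` with centre `(3 + 11 i)/16`. -/

namespace Pool.Agent.MaxTerm58

set_option maxRecDepth 100000

/-- certificate tree -/
def treeEM32_p3_11_1_c20 : TE :=
  (.sp (.lf 9288 32 8 11 19 29 [13009062684414805007, 524713363465667662] [524526034921818318,
  22051223111003113559, 54332695386718046480, 123309399639549382793, 1004087263572835796284,
  1152923871676572990899, 1139539507491663348272, 1051269712907765385256, 992813261393019376547,
  965953892789950191294, 878187994353025261364, 332784180665373000467, 247774047389128160592]
  [54332695386108037287, 103277491849140733905, 161733943364528474222, 247770431095177578975,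
  367205650220703909846, 455422058360180410337, 821763024090914195218, 906773157367978756035,
  1086629683944462321631, 1125270912688224044646, 1134926753434533725783, 1147753237582689437176,
  1151932705580237555162, 1154400936630289269926, 1152923871675709228465, 1146583002961789945135,
  1139539507491273016426, 1114968170427636351722, 1069914506307624862589, 481727404425967930145,
  367209752498560141726, 247774047388576613527, 176562907085856932462, 115457803458844393688,
  54334560707496739449]) .out .out .out)

theorem chkEM32_p3_11_1_c20 : TE.chk 1 1 treeEM32_p3_11_1_c20 100003 100011 16 100011 100007 16 = true := by decide +kernel

end Pool.Agent.MaxTerm58
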