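import Pool.Agent.MaxTerm58.DEM32_p3_13_p0
import Pool.Agent.MaxTerm58.DEM32_p3_13_p1
import Pool.Agent.MaxTerm58.DEM32_p3_13_p2
import Pool.Agent.MaxTerm58.DEM32_p3_13_p3
import Pool.Agent.MaxTerm58.DEM32_p3_13_p4
import Pool.Agent.MaxTerm58.DEM32_p3_13_p5

/-! Certificates of the family E (ratio 3/2, mode 1) for the square of half width `1/16` with centre `(3 + 13 i)/16`. -/

namespace Pool.Agent.MaxTerm58

set_option maxRecDepth 100000

/-- certificate tree -/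
def treeEM32_p3_13_0_c0 : TE :=
  .out

theorem chkEM32_p3_13_0_c0 : TE.chk 1 1 treeEM32_p3_13_0_c0 100003 100013 16 100001 99997 4 = true := by decide +kernel

/-- certificate tree -/
def treeEM32_p3_13_0_c1 : TE :=
  (.sp .out .out .out .out)

theorem chkEM32_p3_13_0_c1 : TE.chk 1 1 treeEM32_p3_13_0_c1 100003 100013 16 100003 99997 4 = true := by decide +kernel

/-- certificate tree -/
def treeEM32_p3_13_0_c3 : TE :=
  .out

theorem chkEM32_p3_13_0_c3 : TE.chk 1 1 treeEM32_p3_13_0_c3 100003 100013 16 100001 99997 8 = true := by decide +kernel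

/-- certificate tree -/
def treeEM32_p3_13_0_c2 : TE :=
  .sp treeEM32_p3_13_0_c3 treeEM32_p3_13_0_c4 treeEM32_p3_13_0_c5 treeEM32_p3_13_0_c6

theorem chkEM32_p3_13_0_c2 : TE.chk 1 1 treeEM32_p3_13_0_c2 100003 100013 16 100001 99999 4 = true :=
  TE.chk_sp rfl chkEM32_p3_13_0_c3 chkEM32_p3_13_0_c4 chkEM32_p3_13_0_c5 chkEM32_p3_13_0_c6

/-- certificate tree -/
def treeEM32_p3_13_0_c9 : TE :=
  .out

theorem chkEM32_p3_13_0_c9 : TE.chk 1 1 treeEM32_p3_13_0_c9 100003 100013 16 100009 99993 16 = true := by decide +kernel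

/-- certificate tree -/
def treeEM32_p3_13_0_c11 : TE :=
  .out

theorem chkEM32_p3_13_0_c11 : TE.chk 1 1 treeEM32_p3_13_0_c11 100003 100013 16 100021 99985 32 = true := by decide +kernel

/-- certificate tree -/
def treeEM32_p3_13_0_c12 : TE :=
  .out

theorem chkEM32_p3_13_0_c12 : TE.chk 1 1 treeEM32_p3_13_0_c12 100003 100013 16 100023 99985 32 = true := by decide +kernel

/-- certificate tree -/
def treeEM32_p3_13_0_c14 : TE :=
  .sp treeEM32_p3_13_0_c15 treeEM32_p3_13_0_c16 treeEM32_p3_13_0_c17 treeEM32_p3_13_0_c18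

theorem chkEM32_p3_13_0_c14 : TE.chk 1 1 treeEM32_p3_13_0_c14 100003 100013 16 100023 99987 32 = true :=
  TE.chk_sp rfl chkEM32_p3_13_0_c15 chkEM32_p3_13_0_c16 chkEM32_p3_13_0_c17 chkEM32_p3_13_0_c18

/-- certificate tree -/
def treeEM32_p3_13_0_c10 : TE :=
  .sp treeEM32_p3_13_0_c11 treeEM32_p3_13_0_c12 treeEM32_p3_13_0_c13 treeEM32_p3_13_0_c14

theorem chkEM32_p3_13_0_c10 : TE.chk 1 1 treeEM32_p3_13_0_c10 100003 100013 16 100011 99993 16 = true :=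
  TE.chk_sp rfl chkEM32_p3_13_0_c11 chkEM32_p3_13_0_c12 chkEM32_p3_13_0_c13 chkEM32_p3_13_0_c14

/-- certificate tree -/
def treeEM32_p3_13_0_c19 : TE :=
  .sq treeEM32_p3_13_0_c20 treeEM32_p3_13_0_c21 treeEM32_p3_13_0_c22 treeEM32_p3_13_0_c23

theorem chkEM32_p3_13_0_c19 : TE.chk 1 1 treeEM32_p3_13_0_c19 100003 100013 16 100009 99995 16 = true :=
  TE.chk_sq rfl chkEM32_p3_13_0_c20 chkEM32_p3_13_0_c21 chkEM32_p3_13_0_c22 chkEM32_p3_13_0_c23

/-- certificate tree -/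
def treeEM32_p3_13_0_c24 : TE :=
  .sq treeEM32_p3_13_0_c25 treeEM32_p3_13_0_c26 treeEM32_p3_13_0_c27 treeEM32_p3_13_0_c28

theorem chkEM32_p3_13_0_c24 : TE.chk 1 1 treeEM32_p3_13_0_c24 100003 100013 16 100011 99995 16 = true :=
  TE.chk_sq rfl chkEM32_p3_13_0_c25 chkEM32_p3_13_0_c26 chkEM32_p3_13_0_c27 chkEM32_p3_13_0_c28

/-- certificate tree -/
def treeEM32_p3_13_0_c8 : TE :=
  .sp treeEM32_p3_13_0_c9 treeEM32_p3_13_0_c10 treeEM32_p3_13_0_c19 treeEM32_p3_13_0_c24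

theorem chkEM32_p3_13_0_c8 : TE.chk 1 1 treeEM32_p3_13_0_c8 100003 100013 16 100005 99997 8 = true :=
  TE.chk_sp rfl chkEM32_p3_13_0_c9 chkEM32_p3_13_0_c10 chkEM32_p3_13_0_c19 chkEM32_p3_13_0_c24

/-- certificate tree -/
def treeEM32_p3_13_0_c29 : TE :=
  .sq treeEM32_p3_13_0_c30 treeEM32_p3_13_0_c31 treeEM32_p3_13_0_c32 treeEM32_p3_13_0_c33

theorem chkEM32_p3_13_0_c29 : TE.chk 1 1 treeEM32_p3_13_0_c29 100003 100013 16 100007 99997 8 = true :=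
  TE.chk_sq rfl chkEM32_p3_13_0_c30 chkEM32_p3_13_0_c31 chkEM32_p3_13_0_c32 chkEM32_p3_13_0_c33

/-- certificate tree -/
def treeEM32_p3_13_0_c36 : TE :=
  .sq treeEM32_p3_13_0_c37 treeEM32_p3_13_0_c38 treeEM32_p3_13_0_c39 treeEM32_p3_13_0_c40

theorem chkEM32_p3_13_0_c36 : TE.chk 1 1 treeEM32_p3_13_0_c36 100003 100013 16 100011 99997 16 = true :=
  TE.chk_sq rfl chkEM32_p3_13_0_c37 chkEM32_p3_13_0_c38 chkEM32_p3_13_0_c39 chkEM32_p3_13_0_c40

/-- certificate tree -/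
def treeEM32_p3_13_0_c42 : TE :=
  .sq treeEM32_p3_13_0_c43 treeEM32_p3_13_0_c44 treeEM32_p3_13_0_c45 treeEM32_p3_13_0_c46

theorem chkEM32_p3_13_0_c42 : TE.chk 1 1 treeEM32_p3_13_0_c42 100003 100013 16 100011 99999 16 = true :=
  TE.chk_sq rfl chkEM32_p3_13_0_c43 chkEM32_p3_13_0_c44 chkEM32_p3_13_0_c45 chkEM32_p3_13_0_c46

/-- certificate tree -/
def treeEM32_p3_13_0_c34 : TE :=
  .sp treeEM32_p3_13_0_c35 treeEM32_p3_13_0_c36 treeEM32_p3_13_0_c41 treeEM32_p3_13_0_c42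

theorem chkEM32_p3_13_0_c34 : TE.chk 1 1 treeEM32_p3_13_0_c34 100003 100013 16 100005 99999 8 = true :=
  TE.chk_sp rfl chkEM32_p3_13_0_c35 chkEM32_p3_13_0_c36 chkEM32_p3_13_0_c41 chkEM32_p3_13_0_c42

/-- certificate tree -/
def treeEM32_p3_13_0_c51 : TE :=
  .sp treeEM32_p3_13_0_c52 treeEM32_p3_13_0_c53 treeEM32_p3_13_0_c54 treeEM32_p3_13_0_c55

theorem chkEM32_p3_13_0_c51 : TE.chk 1 1 treeEM32_p3_13_0_c51 100005 100027 32 100013 99997 16 = true :=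
  TE.chk_sp rfl chkEM32_p3_13_0_c52 chkEM32_p3_13_0_c53 chkEM32_p3_13_0_c54 chkEM32_p3_13_0_c55

/-- certificate tree -/
def treeEM32_p3_13_0_c56 : TE :=
  .out

theorem chkEM32_p3_13_0_c56 : TE.chk 1 1 treeEM32_p3_13_0_c56 100005 100027 32 100015 99997 16 = true := by decide +kernel

/-- certificate tree -/
def treeEM32_p3_13_0_c57 : TE :=
  .sp treeEM32_p3_13_0_c58 treeEM32_p3_13_0_c59 treeEM32_p3_13_0_c60 treeEM32_p3_13_0_c61

theorem chkEM32_p3_13_0_c57 : TE.chk 1 1 treeEM32_p3_13_0_c57 100005 100027 32 100013 99999 16 = true :=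
  TE.chk_sp rfl chkEM32_p3_13_0_c58 chkEM32_p3_13_0_c59 chkEM32_p3_13_0_c60 chkEM32_p3_13_0_c61

/-- certificate tree -/
def treeEM32_p3_13_0_c62 : TE :=
  .out

theorem chkEM32_p3_13_0_c62 : TE.chk 1 1 treeEM32_p3_13_0_c62 100005 100027 32 100015 99999 16 = true := by decide +kernel

/-- certificate tree -/
def treeEM32_p3_13_0_c50 : TE :=
  .sp treeEM32_p3_13_0_c51 treeEM32_p3_13_0_c56 treeEM32_p3_13_0_c57 treeEM32_p3_13_0_c62

theorem chkEM32_p3_13_0_c50 : TE.chk 1 1 treeEM32_p3_13_0_c50 100005 100027 32 100007 99999 8 = true :=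
  TE.chk_sp rfl chkEM32_p3_13_0_c51 chkEM32_p3_13_0_c56 chkEM32_p3_13_0_c57 chkEM32_p3_13_0_c62

/-- certificate tree -/
def treeEM32_p3_13_0_c66 : TE :=
  (.sq .out .out .out .out)

theorem chkEM32_p3_13_0_c66 : TE.chk 1 1 treeEM32_p3_13_0_c66 100007 100027 32 100027 99993 32 = true := by decide +kernel

/-- certificate tree -/
def treeEM32_p3_13_0_c64 : TE :=
  .sp treeEM32_p3_13_0_c65 treeEM32_p3_13_0_c66 treeEM32_p3_13_0_c67 treeEM32_p3_13_0_c68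

theorem chkEM32_p3_13_0_c64 : TE.chk 1 1 treeEM32_p3_13_0_c64 100007 100027 32 100013 99997 16 = true :=
  TE.chk_sp rfl chkEM32_p3_13_0_c65 chkEM32_p3_13_0_c66 chkEM32_p3_13_0_c67 chkEM32_p3_13_0_c68

/-- certificate tree -/
def treeEM32_p3_13_0_c69 : TE :=
  .out

theorem chkEM32_p3_13_0_c69 : TE.chk 1 1 treeEM32_p3_13_0_c69 100007 100027 32 100015 99997 16 = true := by decide +kernel

/-- certificate tree -/
def treeEM32_p3_13_0_c71 : TE :=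
  .out

theorem chkEM32_p3_13_0_c71 : TE.chk 1 1 treeEM32_p3_13_0_c71 100007 100027 32 100015 99999 16 = true := by decide +kernel

/-- certificate tree -/
def treeEM32_p3_13_0_c63 : TE :=
  .sp treeEM32_p3_13_0_c64 treeEM32_p3_13_0_c69 treeEM32_p3_13_0_c70 treeEM32_p3_13_0_c71

theorem chkEM32_p3_13_0_c63 : TE.chk 1 1 treeEM32_p3_13_0_c63 100007 100027 32 100007 99999 8 = true :=
  TE.chk_sp rfl chkEM32_p3_13_0_c64 chkEM32_p3_13_0_c69 chkEM32_p3_13_0_c70 chkEM32_p3_13_0_c71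

/-- certificate tree -/
def treeEM32_p3_13_0_c47 : TE :=
  .sq treeEM32_p3_13_0_c48 treeEM32_p3_13_0_c49 treeEM32_p3_13_0_c50 treeEM32_p3_13_0_c63

theorem chkEM32_p3_13_0_c47 : TE.chk 1 1 treeEM32_p3_13_0_c47 100003 100013 16 100007 99999 8 = true :=
  TE.chk_sq rfl chkEM32_p3_13_0_c48 chkEM32_p3_13_0_c49 chkEM32_p3_13_0_c50 chkEM32_p3_13_0_c63

/-- certificate tree -/
def treeEM32_p3_13_0_c7 : TE :=
  .sp treeEM32_p3_13_0_c8 treeEM32_p3_13_0_c29 treeEM32_p3_13_0_c34 treeEM32_p3_13_0_c47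

theorem chkEM32_p3_13_0_c7 : TE.chk 1 1 treeEM32_p3_13_0_c7 100003 100013 16 100003 99999 4 = true :=
  TE.chk_sp rfl chkEM32_p3_13_0_c8 chkEM32_p3_13_0_c29 chkEM32_p3_13_0_c34 chkEM32_p3_13_0_c47

/-- certificate tree -/
def treeEM32_p3_13_0 : TE :=
  .sp treeEM32_p3_13_0_c0 treeEM32_p3_13_0_c1 treeEM32_p3_13_0_c2 treeEM32_p3_13_0_c7

theorem chkEM32_p3_13_0 : TE.chk 1 1 treeEM32_p3_13_0 100003 100013 16 100001 99999 2 = true :=
  TE.chk_sp rfl chkEM32_p3_13_0_c0 chkEM32_p3_13_0_c1 chkEM32_p3_13_0_c2 chkEM32_p3_13_0_c7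

/-- certificate tree -/
def treeEM32_p3_13_1_c3 : TE :=
  .out

theorem chkEM32_p3_13_1_c3 : TE.chk 1 1 treeEM32_p3_13_1_c3 100003 100013 16 100001 100003 8 = true := by decide +kernel

/-- certificate tree -/
def treeEM32_p3_13_1_c0 : TE :=
  .sp treeEM32_p3_13_1_c1 treeEM32_p3_13_1_c2 treeEM32_p3_13_1_c3 treeEM32_p3_13_1_c4

theorem chkEM32_p3_13_1_c0 : TE.chk 1 1 treeEM32_p3_13_1_c0 100003 100013 16 100001 100001 4 = true :=
  TE.chk_sp rfl chkEM32_p3_13_1_c1 chkEM32_p3_13_1_c2 chkEM32_p3_13_1_c3 chkEM32_p3_13_1_c4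

/-- certificate tree -/
def treeEM32_p3_13_1_c8 : TE :=
  .sq treeEM32_p3_13_1_c9 treeEM32_p3_13_1_c10 treeEM32_p3_13_1_c11 treeEM32_p3_13_1_c12

theorem chkEM32_p3_13_1_c8 : TE.chk 1 1 treeEM32_p3_13_1_c8 100003 100013 16 100011 100001 16 = true :=
  TE.chk_sq rfl chkEM32_p3_13_1_c9 chkEM32_p3_13_1_c10 chkEM32_p3_13_1_c11 chkEM32_p3_13_1_c12

/-- certificate tree -/
def treeEM32_p3_13_1_c14 : TE :=
  .sq treeEM32_p3_13_1_c15 treeEM32_p3_13_1_c16 treeEM32_p3_13_1_c17 treeEM32_p3_13_1_c18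

theorem chkEM32_p3_13_1_c14 : TE.chk 1 1 treeEM32_p3_13_1_c14 100003 100013 16 100011 100003 16 = true :=
  TE.chk_sq rfl chkEM32_p3_13_1_c15 chkEM32_p3_13_1_c16 chkEM32_p3_13_1_c17 chkEM32_p3_13_1_c18

/-- certificate tree -/
def treeEM32_p3_13_1_c6 : TE :=
  .sp treeEM32_p3_13_1_c7 treeEM32_p3_13_1_c8 treeEM32_p3_13_1_c13 treeEM32_p3_13_1_c14

theorem chkEM32_p3_13_1_c6 : TE.chk 1 1 treeEM32_p3_13_1_c6 100003 100013 16 100005 100001 8 = true :=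
  TE.chk_sp rfl chkEM32_p3_13_1_c7 chkEM32_p3_13_1_c8 chkEM32_p3_13_1_c13 chkEM32_p3_13_1_c14

/-- certificate tree -/
def treeEM32_p3_13_1_c23 : TE :=
  .out

theorem chkEM32_p3_13_1_c23 : TE.chk 1 1 treeEM32_p3_13_1_c23 100005 100025 32 100027 100001 32 = true := by decide +kernel

/-- certificate tree -/
def treeEM32_p3_13_1_c24 : TE :=
  .out

theorem chkEM32_p3_13_1_c24 : TE.chk 1 1 treeEM32_p3_13_1_c24 100007 100025 32 100027 100001 32 = true := by decide +kernel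

/-- certificate tree -/
def treeEM32_p3_13_1_c22 : TE :=
  .sq treeEM32_p3_13_1_c23 treeEM32_p3_13_1_c24 treeEM32_p3_13_1_c25 treeEM32_p3_13_1_c26

theorem chkEM32_p3_13_1_c22 : TE.chk 1 1 treeEM32_p3_13_1_c22 100003 100013 16 100027 100001 32 = true :=
  TE.chk_sq rfl chkEM32_p3_13_1_c23 chkEM32_p3_13_1_c24 chkEM32_p3_13_1_c25 chkEM32_p3_13_1_c26

/-- certificate tree -/
def treeEM32_p3_13_1_c20 : TE :=
  .sp treeEM32_p3_13_1_c21 treeEM32_p3_13_1_c22 treeEM32_p3_13_1_c27 treeEM32_p3_13_1_c28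

theorem chkEM32_p3_13_1_c20 : TE.chk 1 1 treeEM32_p3_13_1_c20 100003 100013 16 100013 100001 16 = true :=
  TE.chk_sp rfl chkEM32_p3_13_1_c21 chkEM32_p3_13_1_c22 chkEM32_p3_13_1_c27 chkEM32_p3_13_1_c28

/-- certificate tree -/
def treeEM32_p3_13_1_c29 : TE :=
  .out

theorem chkEM32_p3_13_1_c29 : TE.chk 1 1 treeEM32_p3_13_1_c29 100003 100013 16 100015 100001 16 = true := by decide +kernel

/-- certificate tree -/
def treeEM32_p3_13_1_c30 : TE :=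
  .sp treeEM32_p3_13_1_c31 treeEM32_p3_13_1_c32 treeEM32_p3_13_1_c33 treeEM32_p3_13_1_c34

theorem chkEM32_p3_13_1_c30 : TE.chk 1 1 treeEM32_p3_13_1_c30 100003 100013 16 100013 100003 16 = true :=
  TE.chk_sp rfl chkEM32_p3_13_1_c31 chkEM32_p3_13_1_c32 chkEM32_p3_13_1_c33 chkEM32_p3_13_1_c34

/-- certificate tree -/
def treeEM32_p3_13_1_c35 : TE :=
  .out

theorem chkEM32_p3_13_1_c35 : TE.chk 1 1 treeEM32_p3_13_1_c35 100003 100013 16 100015 100003 16 = true := by decide +kernel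

/-- certificate tree -/
def treeEM32_p3_13_1_c19 : TE :=
  .sp treeEM32_p3_13_1_c20 treeEM32_p3_13_1_c29 treeEM32_p3_13_1_c30 treeEM32_p3_13_1_c35

theorem chkEM32_p3_13_1_c19 : TE.chk 1 1 treeEM32_p3_13_1_c19 100003 100013 16 100007 100001 8 = true :=
  TE.chk_sp rfl chkEM32_p3_13_1_c20 chkEM32_p3_13_1_c29 chkEM32_p3_13_1_c30 chkEM32_p3_13_1_c35

/-- certificate tree -/
def treeEM32_p3_13_1_c37 : TE :=
  .sq treeEM32_p3_13_1_c38 treeEM32_p3_13_1_c39 treeEM32_p3_13_1_c40 treeEM32_p3_13_1_c41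

theorem chkEM32_p3_13_1_c37 : TE.chk 1 1 treeEM32_p3_13_1_c37 100003 100013 16 100009 100005 16 = true :=
  TE.chk_sq rfl chkEM32_p3_13_1_c38 chkEM32_p3_13_1_c39 chkEM32_p3_13_1_c40 chkEM32_p3_13_1_c41

/-- certificate tree -/
def treeEM32_p3_13_1_c42 : TE :=
  .sp treeEM32_p3_13_1_c43 treeEM32_p3_13_1_c44 treeEM32_p3_13_1_c45 treeEM32_p3_13_1_c46

theorem chkEM32_p3_13_1_c42 : TE.chk 1 1 treeEM32_p3_13_1_c42 100003 100013 16 100011 100005 16 = true :=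
  TE.chk_sp rfl chkEM32_p3_13_1_c43 chkEM32_p3_13_1_c44 chkEM32_p3_13_1_c45 chkEM32_p3_13_1_c46

/-- certificate tree -/
def treeEM32_p3_13_1_c47 : TE :=
  .out

theorem chkEM32_p3_13_1_c47 : TE.chk 1 1 treeEM32_p3_13_1_c47 100003 100013 16 100009 100007 16 = true := by decide +kernel

/-- certificate tree -/
def treeEM32_p3_13_1_c50 : TE :=
  .sp treeEM32_p3_13_1_c51 treeEM32_p3_13_1_c52 treeEM32_p3_13_1_c53 treeEM32_p3_13_1_c54

theorem chkEM32_p3_13_1_c50 : TE.chk 1 1 treeEM32_p3_13_1_c50 100003 100013 16 100023 100013 32 = true :=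
  TE.chk_sp rfl chkEM32_p3_13_1_c51 chkEM32_p3_13_1_c52 chkEM32_p3_13_1_c53 chkEM32_p3_13_1_c54

/-- certificate tree -/
def treeEM32_p3_13_1_c55 : TE :=
  .out

theorem chkEM32_p3_13_1_c55 : TE.chk 1 1 treeEM32_p3_13_1_c55 100003 100013 16 100021 100015 32 = true := by decide +kernel

/-- certificate tree -/
def treeEM32_p3_13_1_c56 : TE :=
  .out

theorem chkEM32_p3_13_1_c56 : TE.chk 1 1 treeEM32_p3_13_1_c56 100003 100013 16 100023 100015 32 = true := by decide +kernel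

/-- certificate tree -/
def treeEM32_p3_13_1_c48 : TE :=
  .sp treeEM32_p3_13_1_c49 treeEM32_p3_13_1_c50 treeEM32_p3_13_1_c55 treeEM32_p3_13_1_c56

theorem chkEM32_p3_13_1_c48 : TE.chk 1 1 treeEM32_p3_13_1_c48 100003 100013 16 100011 100007 16 = true :=
  TE.chk_sp rfl chkEM32_p3_13_1_c49 chkEM32_p3_13_1_c50 chkEM32_p3_13_1_c55 chkEM32_p3_13_1_c56

/-- certificate tree -/
def treeEM32_p3_13_1_c36 : TE :=
  .sp treeEM32_p3_13_1_c37 treeEM32_p3_13_1_c42 treeEM32_p3_13_1_c47 treeEM32_p3_13_1_c48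

theorem chkEM32_p3_13_1_c36 : TE.chk 1 1 treeEM32_p3_13_1_c36 100003 100013 16 100005 100003 8 = true :=
  TE.chk_sp rfl chkEM32_p3_13_1_c37 chkEM32_p3_13_1_c42 chkEM32_p3_13_1_c47 chkEM32_p3_13_1_c48

/-- certificate tree -/
def treeEM32_p3_13_1_c57 : TE :=
  .sq treeEM32_p3_13_1_c58 treeEM32_p3_13_1_c59 treeEM32_p3_13_1_c60 treeEM32_p3_13_1_c61

theorem chkEM32_p3_13_1_c57 : TE.chk 1 1 treeEM32_p3_13_1_c57 100003 100013 16 100007 100003 8 = true :=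
  TE.chk_sq rfl chkEM32_p3_13_1_c58 chkEM32_p3_13_1_c59 chkEM32_p3_13_1_c60 chkEM32_p3_13_1_c61

/-- certificate tree -/
def treeEM32_p3_13_1_c5 : TE :=
  .sp treeEM32_p3_13_1_c6 treeEM32_p3_13_1_c19 treeEM32_p3_13_1_c36 treeEM32_p3_13_1_c57

theorem chkEM32_p3_13_1_c5 : TE.chk 1 1 treeEM32_p3_13_1_c5 100003 100013 16 100003 100001 4 = true :=
  TE.chk_sp rfl chkEM32_p3_13_1_c6 chkEM32_p3_13_1_c19 chkEM32_p3_13_1_c36 chkEM32_p3_13_1_c57

/-- certificate tree -/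
def treeEM32_p3_13_1_c62 : TE :=
  .out

theorem chkEM32_p3_13_1_c62 : TE.chk 1 1 treeEM32_p3_13_1_c62 100003 100013 16 100001 100003 4 = true := by decide +kernel

/-- certificate tree -/
def treeEM32_p3_13_1_c63 : TE :=
  (.sp .out .out .out .out)

theorem chkEM32_p3_13_1_c63 : TE.chk 1 1 treeEM32_p3_13_1_c63 100003 100013 16 100003 100003 4 = true := by decide +kernel

/-- certificate tree -/
def treeEM32_p3_13_1 : TE :=
  .sp treeEM32_p3_13_1_c0 treeEM32_p3_13_1_c5 treeEM32_p3_13_1_c62 treeEM32_p3_13_1_c63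

theorem chkEM32_p3_13_1 : TE.chk 1 1 treeEM32_p3_13_1 100003 100013 16 100001 100001 2 = true :=
  TE.chk_sp rfl chkEM32_p3_13_1_c0 chkEM32_p3_13_1_c5 chkEM32_p3_13_1_c62 chkEM32_p3_13_1_c63

end Pool.Agent.MaxTerm58
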