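import Pool.Agent.MaxTerm58.DEM32_p3_9_p0
import Pool.Agent.MaxTerm58.DEM32_p3_9_p1

/-! Certificates of the family E (ratio 3/2, mode 1) for the square of half width `1/16` with centre `(3 + 9 i)/16`. -/

namespace Pool.Agent.MaxTerm58

set_option maxRecDepth 100000

/-- certificate tree -/
def treeEM32_p3_9_0_c0 : TE :=
  .out

theorem chkEM32_p3_9_0_c0 : TE.chk 1 1 treeEM32_p3_9_0_c0 100003 100009 16 100001 99997 4 = true := by decide +kernel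

/-- certificate tree -/
def treeEM32_p3_9_0_c1 : TE :=
  .out

theorem chkEM32_p3_9_0_c1 : TE.chk 1 1 treeEM32_p3_9_0_c1 100003 100009 16 100003 99997 4 = true := by decide +kernel

/-- certificate tree -/
def treeEM32_p3_9_0_c3 : TE :=
  .out

theorem chkEM32_p3_9_0_c3 : TE.chk 1 1 treeEM32_p3_9_0_c3 100003 100009 16 100001 99997 8 = true := by decide +kernel

/-- certificate tree -/
def treeEM32_p3_9_0_c6 : TE :=
  .sp treeEM32_p3_9_0_c7 treeEM32_p3_9_0_c8 treeEM32_p3_9_0_c9 treeEM32_p3_9_0_c10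

theorem chkEM32_p3_9_0_c6 : TE.chk 1 1 treeEM32_p3_9_0_c6 100003 100009 16 100003 99999 8 = true :=
  TE.chk_sp rfl chkEM32_p3_9_0_c7 chkEM32_p3_9_0_c8 chkEM32_p3_9_0_c9 chkEM32_p3_9_0_c10

/-- certificate tree -/
def treeEM32_p3_9_0_c2 : TE :=
  .sp treeEM32_p3_9_0_c3 treeEM32_p3_9_0_c4 treeEM32_p3_9_0_c5 treeEM32_p3_9_0_c6

theorem chkEM32_p3_9_0_c2 : TE.chk 1 1 treeEM32_p3_9_0_c2 100003 100009 16 100001 99999 4 = true :=
  TE.chk_sp rfl chkEM32_p3_9_0_c3 chkEM32_p3_9_0_c4 chkEM32_p3_9_0_c5 chkEM32_p3_9_0_c6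

/-- certificate tree -/
def treeEM32_p3_9_0_c13 : TE :=
  .out

theorem chkEM32_p3_9_0_c13 : TE.chk 1 1 treeEM32_p3_9_0_c13 100003 100009 16 100007 99997 8 = true := by decide +kernel

/-- certificate tree -/
def treeEM32_p3_9_0_c14 : TE :=
  .sp treeEM32_p3_9_0_c15 treeEM32_p3_9_0_c16 treeEM32_p3_9_0_c17 treeEM32_p3_9_0_c18

theorem chkEM32_p3_9_0_c14 : TE.chk 1 1 treeEM32_p3_9_0_c14 100003 100009 16 100005 99999 8 = true :=
  TE.chk_sp rfl chkEM32_p3_9_0_c15 chkEM32_p3_9_0_c16 chkEM32_p3_9_0_c17 chkEM32_p3_9_0_c18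

/-- certificate tree -/
def treeEM32_p3_9_0_c19 : TE :=
  .out

theorem chkEM32_p3_9_0_c19 : TE.chk 1 1 treeEM32_p3_9_0_c19 100003 100009 16 100007 99999 8 = true := by decide +kernel

/-- certificate tree -/
def treeEM32_p3_9_0_c11 : TE :=
  .sp treeEM32_p3_9_0_c12 treeEM32_p3_9_0_c13 treeEM32_p3_9_0_c14 treeEM32_p3_9_0_c19

theorem chkEM32_p3_9_0_c11 : TE.chk 1 1 treeEM32_p3_9_0_c11 100003 100009 16 100003 99999 4 = true :=
  TE.chk_sp rfl chkEM32_p3_9_0_c12 chkEM32_p3_9_0_c13 chkEM32_p3_9_0_c14 chkEM32_p3_9_0_c19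

/-- certificate tree -/
def treeEM32_p3_9_0 : TE :=
  .sp treeEM32_p3_9_0_c0 treeEM32_p3_9_0_c1 treeEM32_p3_9_0_c2 treeEM32_p3_9_0_c11

theorem chkEM32_p3_9_0 : TE.chk 1 1 treeEM32_p3_9_0 100003 100009 16 100001 99999 2 = true :=
  TE.chk_sp rfl chkEM32_p3_9_0_c0 chkEM32_p3_9_0_c1 chkEM32_p3_9_0_c2 chkEM32_p3_9_0_c11

/-- certificate tree -/
def treeEM32_p3_9_1_c2 : TE :=
  .sp treeEM32_p3_9_1_c3 treeEM32_p3_9_1_c4 treeEM32_p3_9_1_c5 treeEM32_p3_9_1_c6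

theorem chkEM32_p3_9_1_c2 : TE.chk 1 1 treeEM32_p3_9_1_c2 100003 100009 16 100003 100001 8 = true :=
  TE.chk_sp rfl chkEM32_p3_9_1_c3 chkEM32_p3_9_1_c4 chkEM32_p3_9_1_c5 chkEM32_p3_9_1_c6

/-- certificate tree -/
def treeEM32_p3_9_1_c7 : TE :=
  .out

theorem chkEM32_p3_9_1_c7 : TE.chk 1 1 treeEM32_p3_9_1_c7 100003 100009 16 100001 100003 8 = true := by decide +kernel

/-- certificate tree -/
def treeEM32_p3_9_1_c0 : TE :=
  .sp treeEM32_p3_9_1_c1 treeEM32_p3_9_1_c2 treeEM32_p3_9_1_c7 treeEM32_p3_9_1_c8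

theorem chkEM32_p3_9_1_c0 : TE.chk 1 1 treeEM32_p3_9_1_c0 100003 100009 16 100001 100001 4 = true :=
  TE.chk_sp rfl chkEM32_p3_9_1_c1 chkEM32_p3_9_1_c2 chkEM32_p3_9_1_c7 chkEM32_p3_9_1_c8

/-- certificate tree -/
def treeEM32_p3_9_1_c10 : TE :=
  .sp treeEM32_p3_9_1_c11 treeEM32_p3_9_1_c12 treeEM32_p3_9_1_c13 treeEM32_p3_9_1_c14

theorem chkEM32_p3_9_1_c10 : TE.chk 1 1 treeEM32_p3_9_1_c10 100003 100009 16 100005 100001 8 = true :=
  TE.chk_sp rfl chkEM32_p3_9_1_c11 chkEM32_p3_9_1_c12 chkEM32_p3_9_1_c13 chkEM32_p3_9_1_c14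

/-- certificate tree -/
def treeEM32_p3_9_1_c15 : TE :=
  .out

theorem chkEM32_p3_9_1_c15 : TE.chk 1 1 treeEM32_p3_9_1_c15 100003 100009 16 100007 100001 8 = true := by decide +kernel

/-- certificate tree -/
def treeEM32_p3_9_1_c17 : TE :=
  .out

theorem chkEM32_p3_9_1_c17 : TE.chk 1 1 treeEM32_p3_9_1_c17 100003 100009 16 100007 100003 8 = true := by decide +kernel

/-- certificate tree -/
def treeEM32_p3_9_1_c9 : TE :=
  .sp treeEM32_p3_9_1_c10 treeEM32_p3_9_1_c15 treeEM32_p3_9_1_c16 treeEM32_p3_9_1_c17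

theorem chkEM32_p3_9_1_c9 : TE.chk 1 1 treeEM32_p3_9_1_c9 100003 100009 16 100003 100001 4 = true :=
  TE.chk_sp rfl chkEM32_p3_9_1_c10 chkEM32_p3_9_1_c15 chkEM32_p3_9_1_c16 chkEM32_p3_9_1_c17

/-- certificate tree -/
def treeEM32_p3_9_1_c18 : TE :=
  .out

theorem chkEM32_p3_9_1_c18 : TE.chk 1 1 treeEM32_p3_9_1_c18 100003 100009 16 100001 100003 4 = true := by decide +kernel

/-- certificate tree -/
def treeEM32_p3_9_1_c19 : TE :=
  .out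

theorem chkEM32_p3_9_1_c19 : TE.chk 1 1 treeEM32_p3_9_1_c19 100003 100009 16 100003 100003 4 = true := by decide +kernel

/-- certificate tree -/
def treeEM32_p3_9_1 : TE :=
  .sp treeEM32_p3_9_1_c0 treeEM32_p3_9_1_c9 treeEM32_p3_9_1_c18 treeEM32_p3_9_1_c19

theorem chkEM32_p3_9_1 : TE.chk 1 1 treeEM32_p3_9_1 100003 100009 16 100001 100001 2 = true :=
  TE.chk_sp rfl chkEM32_p3_9_1_c0 chkEM32_p3_9_1_c9 chkEM32_p3_9_1_c18 chkEM32_p3_9_1_c19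

end Pool.Agent.MaxTerm58
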