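import Pool.Agent.MaxTerm58.DEM32_p5_13_p0
import Pool.Agent.MaxTerm58.DEM32_p5_13_p1

/-! Certificates of the family E (ratio 3/2, mode 1) for the square of half width `1/16` with centre `(5 + 13 i)/16`. -/

namespace Pool.Agent.MaxTerm58

set_option maxRecDepth 100000

/-- certificate tree -/
def treeEM32_p5_13_0_c0 : TE :=
  .out

theorem chkEM32_p5_13_0_c0 : TE.chk 1 1 treeEM32_p5_13_0_c0 100005 100013 16 100001 99997 4 = true := by decide +kernel

/-- certificate tree -/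
def treeEM32_p5_13_0_c1 : TE :=
  (.sp .out .out .out (.sp .out .out (.sp .out .out .out .out) .out))

theorem chkEM32_p5_13_0_c1 : TE.chk 1 1 treeEM32_p5_13_0_c1 100005 100013 16 100003 99997 4 = true := by decide +kernel

/-- certificate tree -/
def treeEM32_p5_13_0_c5 : TE :=
  .out

theorem chkEM32_p5_13_0_c5 : TE.chk 1 1 treeEM32_p5_13_0_c5 100005 100013 16 100009 99993 16 = true := by decide +kernel

/-- certificate tree -/
def treeEM32_p5_13_0_c4 : TE :=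
  .sp treeEM32_p5_13_0_c5 treeEM32_p5_13_0_c6 treeEM32_p5_13_0_c7 treeEM32_p5_13_0_c8

theorem chkEM32_p5_13_0_c4 : TE.chk 1 1 treeEM32_p5_13_0_c4 100005 100013 16 100005 99997 8 = true :=
  TE.chk_sp rfl chkEM32_p5_13_0_c5 chkEM32_p5_13_0_c6 chkEM32_p5_13_0_c7 chkEM32_p5_13_0_c8

/-- certificate tree -/
def treeEM32_p5_13_0_c13 : TE :=
  (.sq .out .out .out .out)

theorem chkEM32_p5_13_0_c13 : TE.chk 1 1 treeEM32_p5_13_0_c13 100005 100013 16 100015 99997 16 = true := by decide +kernel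

/-- certificate tree -/
def treeEM32_p5_13_0_c15 : TE :=
  (.sq .out .out .out .out)

theorem chkEM32_p5_13_0_c15 : TE.chk 1 1 treeEM32_p5_13_0_c15 100005 100013 16 100015 99999 16 = true := by decide +kernel

/-- certificate tree -/
def treeEM32_p5_13_0_c11 : TE :=
  .sp treeEM32_p5_13_0_c12 treeEM32_p5_13_0_c13 treeEM32_p5_13_0_c14 treeEM32_p5_13_0_c15

theorem chkEM32_p5_13_0_c11 : TE.chk 1 1 treeEM32_p5_13_0_c11 100005 100013 16 100007 99999 8 = true :=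
  TE.chk_sp rfl chkEM32_p5_13_0_c12 chkEM32_p5_13_0_c13 chkEM32_p5_13_0_c14 chkEM32_p5_13_0_c15

/-- certificate tree -/
def treeEM32_p5_13_0_c3 : TE :=
  .sp treeEM32_p5_13_0_c4 treeEM32_p5_13_0_c9 treeEM32_p5_13_0_c10 treeEM32_p5_13_0_c11

theorem chkEM32_p5_13_0_c3 : TE.chk 1 1 treeEM32_p5_13_0_c3 100005 100013 16 100003 99999 4 = true :=
  TE.chk_sp rfl chkEM32_p5_13_0_c4 chkEM32_p5_13_0_c9 chkEM32_p5_13_0_c10 chkEM32_p5_13_0_c11

/-- certificate tree -/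
def treeEM32_p5_13_0 : TE :=
  .sp treeEM32_p5_13_0_c0 treeEM32_p5_13_0_c1 treeEM32_p5_13_0_c2 treeEM32_p5_13_0_c3

theorem chkEM32_p5_13_0 : TE.chk 1 1 treeEM32_p5_13_0 100005 100013 16 100001 99999 2 = true :=
  TE.chk_sp rfl chkEM32_p5_13_0_c0 chkEM32_p5_13_0_c1 chkEM32_p5_13_0_c2 chkEM32_p5_13_0_c3

/-- certificate tree -/
def treeEM32_p5_13_1_c5 : TE :=
  (.sq .out .out .out .out)

theorem chkEM32_p5_13_1_c5 : TE.chk 1 1 treeEM32_p5_13_1_c5 100005 100013 16 100015 100001 16 = true := by decide +kernel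

/-- certificate tree -/
def treeEM32_p5_13_1_c7 : TE :=
  (.sq .out .out .out .out)

theorem chkEM32_p5_13_1_c7 : TE.chk 1 1 treeEM32_p5_13_1_c7 100005 100013 16 100015 100003 16 = true := by decide +kernel

/-- certificate tree -/
def treeEM32_p5_13_1_c3 : TE :=
  .sp treeEM32_p5_13_1_c4 treeEM32_p5_13_1_c5 treeEM32_p5_13_1_c6 treeEM32_p5_13_1_c7

theorem chkEM32_p5_13_1_c3 : TE.chk 1 1 treeEM32_p5_13_1_c3 100005 100013 16 100007 100001 8 = true :=
  TE.chk_sp rfl chkEM32_p5_13_1_c4 chkEM32_p5_13_1_c5 chkEM32_p5_13_1_c6 chkEM32_p5_13_1_c7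

/-- certificate tree -/
def treeEM32_p5_13_1_c11 : TE :=
  .out

theorem chkEM32_p5_13_1_c11 : TE.chk 1 1 treeEM32_p5_13_1_c11 100005 100013 16 100009 100007 16 = true := by decide +kernel

/-- certificate tree -/
def treeEM32_p5_13_1_c8 : TE :=
  .sp treeEM32_p5_13_1_c9 treeEM32_p5_13_1_c10 treeEM32_p5_13_1_c11 treeEM32_p5_13_1_c12

theorem chkEM32_p5_13_1_c8 : TE.chk 1 1 treeEM32_p5_13_1_c8 100005 100013 16 100005 100003 8 = true :=
  TE.chk_sp rfl chkEM32_p5_13_1_c9 chkEM32_p5_13_1_c10 chkEM32_p5_13_1_c11 chkEM32_p5_13_1_c12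

/-- certificate tree -/
def treeEM32_p5_13_1_c1 : TE :=
  .sp treeEM32_p5_13_1_c2 treeEM32_p5_13_1_c3 treeEM32_p5_13_1_c8 treeEM32_p5_13_1_c13

theorem chkEM32_p5_13_1_c1 : TE.chk 1 1 treeEM32_p5_13_1_c1 100005 100013 16 100003 100001 4 = true :=
  TE.chk_sp rfl chkEM32_p5_13_1_c2 chkEM32_p5_13_1_c3 chkEM32_p5_13_1_c8 chkEM32_p5_13_1_c13

/-- certificate tree -/
def treeEM32_p5_13_1_c14 : TE :=
  .out

theorem chkEM32_p5_13_1_c14 : TE.chk 1 1 treeEM32_p5_13_1_c14 100005 100013 16 100001 100003 4 = true := by decide +kernel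

/-- certificate tree -/
def treeEM32_p5_13_1_c15 : TE :=
  (.sp .out (.sp (.sp .out .out .out .out) .out .out .out) .out .out)

theorem chkEM32_p5_13_1_c15 : TE.chk 1 1 treeEM32_p5_13_1_c15 100005 100013 16 100003 100003 4 = true := by decide +kernel

/-- certificate tree -/
def treeEM32_p5_13_1 : TE :=
  .sp treeEM32_p5_13_1_c0 treeEM32_p5_13_1_c1 treeEM32_p5_13_1_c14 treeEM32_p5_13_1_c15

theorem chkEM32_p5_13_1 : TE.chk 1 1 treeEM32_p5_13_1 100005 100013 16 100001 100001 2 = true :=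
  TE.chk_sp rfl chkEM32_p5_13_1_c0 chkEM32_p5_13_1_c1 chkEM32_p5_13_1_c14 chkEM32_p5_13_1_c15

end Pool.Agent.MaxTerm58
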