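import Pool.Agent.MaxTerm58.DEM3_m11_1_p0
import Pool.Agent.MaxTerm58.DEM3_m11_1_p1
import Pool.Agent.MaxTerm58.DEM3_m11_1_p2

/-! Certificates of the family E (ratio 3, mode 1) for the square of half width `1/16` with centre `(-11 + 1 i)/16`. -/

namespace Pool.Agent.MaxTerm58

set_option maxRecDepth 100000

/-- certificate tree -/
def treeEM3_m11_1_0_c1 : TE :=
  .out

theorem chkEM3_m11_1_0_c1 : TE.chk 0 1 treeEM3_m11_1_0_c1 99989 100001 16 100003 99997 4 = true := by decide +kernel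

/-- certificate tree -/
def treeEM3_m11_1_0_c4 : TE :=
  .out

theorem chkEM3_m11_1_0_c4 : TE.chk 0 1 treeEM3_m11_1_0_c4 99989 100001 16 100001 99993 16 = true := by decide +kernel

/-- certificate tree -/
def treeEM3_m11_1_0_c6 : TE :=
  .out

theorem chkEM3_m11_1_0_c6 : TE.chk 0 1 treeEM3_m11_1_0_c6 99989 100001 16 100001 99995 16 = true := by decide +kernel

/-- certificate tree -/
def treeEM3_m11_1_0_c3 : TE :=
  .sp treeEM3_m11_1_0_c4 treeEM3_m11_1_0_c5 treeEM3_m11_1_0_c6 treeEM3_m11_1_0_c7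

theorem chkEM3_m11_1_0_c3 : TE.chk 0 1 treeEM3_m11_1_0_c3 99989 100001 16 100001 99997 8 = true :=
  TE.chk_sp rfl chkEM3_m11_1_0_c4 chkEM3_m11_1_0_c5 chkEM3_m11_1_0_c6 chkEM3_m11_1_0_c7

/-- certificate tree -/
def treeEM3_m11_1_0_c8 : TE :=
  .sp treeEM3_m11_1_0_c9 treeEM3_m11_1_0_c10 treeEM3_m11_1_0_c11 treeEM3_m11_1_0_c12

theorem chkEM3_m11_1_0_c8 : TE.chk 0 1 treeEM3_m11_1_0_c8 99989 100001 16 100003 99997 8 = true :=
  TE.chk_sp rfl chkEM3_m11_1_0_c9 chkEM3_m11_1_0_c10 chkEM3_m11_1_0_c11 chkEM3_m11_1_0_c12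

/-- certificate tree -/
def treeEM3_m11_1_0_c14 : TE :=
  .sp treeEM3_m11_1_0_c15 treeEM3_m11_1_0_c16 treeEM3_m11_1_0_c17 treeEM3_m11_1_0_c18

theorem chkEM3_m11_1_0_c14 : TE.chk 0 1 treeEM3_m11_1_0_c14 99989 100001 16 100003 99999 8 = true :=
  TE.chk_sp rfl chkEM3_m11_1_0_c15 chkEM3_m11_1_0_c16 chkEM3_m11_1_0_c17 chkEM3_m11_1_0_c18

/-- certificate tree -/
def treeEM3_m11_1_0_c2 : TE :=
  .sp treeEM3_m11_1_0_c3 treeEM3_m11_1_0_c8 treeEM3_m11_1_0_c13 treeEM3_m11_1_0_c14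

theorem chkEM3_m11_1_0_c2 : TE.chk 0 1 treeEM3_m11_1_0_c2 99989 100001 16 100001 99999 4 = true :=
  TE.chk_sp rfl chkEM3_m11_1_0_c3 chkEM3_m11_1_0_c8 chkEM3_m11_1_0_c13 chkEM3_m11_1_0_c14

/-- certificate tree -/
def treeEM3_m11_1_0_c21 : TE :=
  .out

theorem chkEM3_m11_1_0_c21 : TE.chk 0 1 treeEM3_m11_1_0_c21 99989 100001 16 100007 99997 8 = true := by decide +kernel

/-- certificate tree -/
def treeEM3_m11_1_0_c22 : TE :=
  .sp treeEM3_m11_1_0_c23 treeEM3_m11_1_0_c24 treeEM3_m11_1_0_c25 treeEM3_m11_1_0_c26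

theorem chkEM3_m11_1_0_c22 : TE.chk 0 1 treeEM3_m11_1_0_c22 99989 100001 16 100005 99999 8 = true :=
  TE.chk_sp rfl chkEM3_m11_1_0_c23 chkEM3_m11_1_0_c24 chkEM3_m11_1_0_c25 chkEM3_m11_1_0_c26

/-- certificate tree -/
def treeEM3_m11_1_0_c27 : TE :=
  .out

theorem chkEM3_m11_1_0_c27 : TE.chk 0 1 treeEM3_m11_1_0_c27 99989 100001 16 100007 99999 8 = true := by decide +kernel

/-- certificate tree -/
def treeEM3_m11_1_0_c19 : TE :=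
  .sp treeEM3_m11_1_0_c20 treeEM3_m11_1_0_c21 treeEM3_m11_1_0_c22 treeEM3_m11_1_0_c27

theorem chkEM3_m11_1_0_c19 : TE.chk 0 1 treeEM3_m11_1_0_c19 99989 100001 16 100003 99999 4 = true :=
  TE.chk_sp rfl chkEM3_m11_1_0_c20 chkEM3_m11_1_0_c21 chkEM3_m11_1_0_c22 chkEM3_m11_1_0_c27

/-- certificate tree -/
def treeEM3_m11_1_0 : TE :=
  .sp treeEM3_m11_1_0_c0 treeEM3_m11_1_0_c1 treeEM3_m11_1_0_c2 treeEM3_m11_1_0_c19

theorem chkEM3_m11_1_0 : TE.chk 0 1 treeEM3_m11_1_0 99989 100001 16 100001 99999 2 = true :=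
  TE.chk_sp rfl chkEM3_m11_1_0_c0 chkEM3_m11_1_0_c1 chkEM3_m11_1_0_c2 chkEM3_m11_1_0_c19

/-- certificate tree -/
def treeEM3_m11_1_1_c2 : TE :=
  .sp treeEM3_m11_1_1_c3 treeEM3_m11_1_1_c4 treeEM3_m11_1_1_c5 treeEM3_m11_1_1_c6

theorem chkEM3_m11_1_1_c2 : TE.chk 0 1 treeEM3_m11_1_1_c2 99989 100001 16 100003 100001 8 = true :=
  TE.chk_sp rfl chkEM3_m11_1_1_c3 chkEM3_m11_1_1_c4 chkEM3_m11_1_1_c5 chkEM3_m11_1_1_c6

/-- certificate tree -/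
def treeEM3_m11_1_1_c8 : TE :=
  .out

theorem chkEM3_m11_1_1_c8 : TE.chk 0 1 treeEM3_m11_1_1_c8 99989 100001 16 100001 100005 16 = true := by decide +kernel

/-- certificate tree -/
def treeEM3_m11_1_1_c10 : TE :=
  .out

theorem chkEM3_m11_1_1_c10 : TE.chk 0 1 treeEM3_m11_1_1_c10 99989 100001 16 100001 100007 16 = true := by decide +kernel

/-- certificate tree -/
def treeEM3_m11_1_1_c7 : TE :=
  .sp treeEM3_m11_1_1_c8 treeEM3_m11_1_1_c9 treeEM3_m11_1_1_c10 treeEM3_m11_1_1_c11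

theorem chkEM3_m11_1_1_c7 : TE.chk 0 1 treeEM3_m11_1_1_c7 99989 100001 16 100001 100003 8 = true :=
  TE.chk_sp rfl chkEM3_m11_1_1_c8 chkEM3_m11_1_1_c9 chkEM3_m11_1_1_c10 chkEM3_m11_1_1_c11

/-- certificate tree -/
def treeEM3_m11_1_1_c12 : TE :=
  .sp treeEM3_m11_1_1_c13 treeEM3_m11_1_1_c14 treeEM3_m11_1_1_c15 treeEM3_m11_1_1_c16

theorem chkEM3_m11_1_1_c12 : TE.chk 0 1 treeEM3_m11_1_1_c12 99989 100001 16 100003 100003 8 = true :=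
  TE.chk_sp rfl chkEM3_m11_1_1_c13 chkEM3_m11_1_1_c14 chkEM3_m11_1_1_c15 chkEM3_m11_1_1_c16

/-- certificate tree -/
def treeEM3_m11_1_1_c0 : TE :=
  .sp treeEM3_m11_1_1_c1 treeEM3_m11_1_1_c2 treeEM3_m11_1_1_c7 treeEM3_m11_1_1_c12

theorem chkEM3_m11_1_1_c0 : TE.chk 0 1 treeEM3_m11_1_1_c0 99989 100001 16 100001 100001 4 = true :=
  TE.chk_sp rfl chkEM3_m11_1_1_c1 chkEM3_m11_1_1_c2 chkEM3_m11_1_1_c7 chkEM3_m11_1_1_c12

/-- certificate tree -/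
def treeEM3_m11_1_1_c18 : TE :=
  .sp treeEM3_m11_1_1_c19 treeEM3_m11_1_1_c20 treeEM3_m11_1_1_c21 treeEM3_m11_1_1_c22

theorem chkEM3_m11_1_1_c18 : TE.chk 0 1 treeEM3_m11_1_1_c18 99989 100001 16 100005 100001 8 = true :=
  TE.chk_sp rfl chkEM3_m11_1_1_c19 chkEM3_m11_1_1_c20 chkEM3_m11_1_1_c21 chkEM3_m11_1_1_c22

/-- certificate tree -/
def treeEM3_m11_1_1_c23 : TE :=
  .out

theorem chkEM3_m11_1_1_c23 : TE.chk 0 1 treeEM3_m11_1_1_c23 99989 100001 16 100007 100001 8 = true := by decide +kernel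

/-- certificate tree -/
def treeEM3_m11_1_1_c25 : TE :=
  .out

theorem chkEM3_m11_1_1_c25 : TE.chk 0 1 treeEM3_m11_1_1_c25 99989 100001 16 100007 100003 8 = true := by decide +kernel

/-- certificate tree -/
def treeEM3_m11_1_1_c17 : TE :=
  .sp treeEM3_m11_1_1_c18 treeEM3_m11_1_1_c23 treeEM3_m11_1_1_c24 treeEM3_m11_1_1_c25

theorem chkEM3_m11_1_1_c17 : TE.chk 0 1 treeEM3_m11_1_1_c17 99989 100001 16 100003 100001 4 = true :=
  TE.chk_sp rfl chkEM3_m11_1_1_c18 chkEM3_m11_1_1_c23 chkEM3_m11_1_1_c24 chkEM3_m11_1_1_c25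

/-- certificate tree -/
def treeEM3_m11_1_1_c27 : TE :=
  .out

theorem chkEM3_m11_1_1_c27 : TE.chk 0 1 treeEM3_m11_1_1_c27 99989 100001 16 100003 100003 4 = true := by decide +kernel

/-- certificate tree -/
def treeEM3_m11_1_1 : TE :=
  .sp treeEM3_m11_1_1_c0 treeEM3_m11_1_1_c17 treeEM3_m11_1_1_c26 treeEM3_m11_1_1_c27

theorem chkEM3_m11_1_1 : TE.chk 0 1 treeEM3_m11_1_1 99989 100001 16 100001 100001 2 = true :=
  TE.chk_sp rfl chkEM3_m11_1_1_c0 chkEM3_m11_1_1_c17 chkEM3_m11_1_1_c26 chkEM3_m11_1_1_c27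

end Pool.Agent.MaxTerm58
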