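import Pool.Agent.MaxTerm58.DEM3_m11_3_p0
import Pool.Agent.MaxTerm58.DEM3_m11_3_p1
import Pool.Agent.MaxTerm58.DEM3_m11_3_p2

/-! Certificates of the family E (ratio 3, mode 1) for the square of half width `1/16` with centre `(-11 + 3 i)/16`. -/

namespace Pool.Agent.MaxTerm58

set_option maxRecDepth 100000

/-- certificate tree -/
def treeEM3_m11_3_0_c1 : TE :=
  .out

theorem chkEM3_m11_3_0_c1 : TE.chk 0 1 treeEM3_m11_3_0_c1 99989 100003 16 100001 99993 8 = true := by decide +kernel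

/-- certificate tree -/
def treeEM3_m11_3_0_c2 : TE :=
  .out

theorem chkEM3_m11_3_0_c2 : TE.chk 0 1 treeEM3_m11_3_0_c2 99989 100003 16 100003 99993 8 = true := by decide +kernel

/-- certificate tree -/
def treeEM3_m11_3_0_c3 : TE :=
  .out

theorem chkEM3_m11_3_0_c3 : TE.chk 0 1 treeEM3_m11_3_0_c3 99989 100003 16 100001 99995 8 = true := by decide +kernel

/-- certificate tree -/
def treeEM3_m11_3_0_c6 : TE :=
  .out

theorem chkEM3_m11_3_0_c6 : TE.chk 0 1 treeEM3_m11_3_0_c6 99989 100003 16 100007 99989 16 = true := by decide +kernel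

/-- certificate tree -/
def treeEM3_m11_3_0_c4 : TE :=
  .sp treeEM3_m11_3_0_c5 treeEM3_m11_3_0_c6 treeEM3_m11_3_0_c7 treeEM3_m11_3_0_c8

theorem chkEM3_m11_3_0_c4 : TE.chk 0 1 treeEM3_m11_3_0_c4 99989 100003 16 100003 99995 8 = true :=
  TE.chk_sp rfl chkEM3_m11_3_0_c5 chkEM3_m11_3_0_c6 chkEM3_m11_3_0_c7 chkEM3_m11_3_0_c8

/-- certificate tree -/
def treeEM3_m11_3_0_c0 : TE :=
  .sp treeEM3_m11_3_0_c1 treeEM3_m11_3_0_c2 treeEM3_m11_3_0_c3 treeEM3_m11_3_0_c4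

theorem chkEM3_m11_3_0_c0 : TE.chk 0 1 treeEM3_m11_3_0_c0 99989 100003 16 100001 99997 4 = true :=
  TE.chk_sp rfl chkEM3_m11_3_0_c1 chkEM3_m11_3_0_c2 chkEM3_m11_3_0_c3 chkEM3_m11_3_0_c4

/-- certificate tree -/
def treeEM3_m11_3_0_c12 : TE :=
  .sp treeEM3_m11_3_0_c13 treeEM3_m11_3_0_c14 treeEM3_m11_3_0_c15 treeEM3_m11_3_0_c16

theorem chkEM3_m11_3_0_c12 : TE.chk 0 1 treeEM3_m11_3_0_c12 99989 100003 16 100003 99997 8 = true :=
  TE.chk_sp rfl chkEM3_m11_3_0_c13 chkEM3_m11_3_0_c14 chkEM3_m11_3_0_c15 chkEM3_m11_3_0_c16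

/-- certificate tree -/
def treeEM3_m11_3_0_c10 : TE :=
  .sp treeEM3_m11_3_0_c11 treeEM3_m11_3_0_c12 treeEM3_m11_3_0_c17 treeEM3_m11_3_0_c18

theorem chkEM3_m11_3_0_c10 : TE.chk 0 1 treeEM3_m11_3_0_c10 99989 100003 16 100001 99999 4 = true :=
  TE.chk_sp rfl chkEM3_m11_3_0_c11 chkEM3_m11_3_0_c12 chkEM3_m11_3_0_c17 chkEM3_m11_3_0_c18

/-- certificate tree -/
def treeEM3_m11_3_0_c22 : TE :=
  .out

theorem chkEM3_m11_3_0_c22 : TE.chk 0 1 treeEM3_m11_3_0_c22 99989 100003 16 100011 99993 16 = true := by decide +kernel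

/-- certificate tree -/
def treeEM3_m11_3_0_c20 : TE :=
  .sp treeEM3_m11_3_0_c21 treeEM3_m11_3_0_c22 treeEM3_m11_3_0_c23 treeEM3_m11_3_0_c24

theorem chkEM3_m11_3_0_c20 : TE.chk 0 1 treeEM3_m11_3_0_c20 99989 100003 16 100005 99997 8 = true :=
  TE.chk_sp rfl chkEM3_m11_3_0_c21 chkEM3_m11_3_0_c22 chkEM3_m11_3_0_c23 chkEM3_m11_3_0_c24

/-- certificate tree -/
def treeEM3_m11_3_0_c25 : TE :=
  .out

theorem chkEM3_m11_3_0_c25 : TE.chk 0 1 treeEM3_m11_3_0_c25 99989 100003 16 100007 99997 8 = true := by decide +kernel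

/-- certificate tree -/
def treeEM3_m11_3_0_c26 : TE :=
  .sp treeEM3_m11_3_0_c27 treeEM3_m11_3_0_c28 treeEM3_m11_3_0_c29 treeEM3_m11_3_0_c30

theorem chkEM3_m11_3_0_c26 : TE.chk 0 1 treeEM3_m11_3_0_c26 99989 100003 16 100005 99999 8 = true :=
  TE.chk_sp rfl chkEM3_m11_3_0_c27 chkEM3_m11_3_0_c28 chkEM3_m11_3_0_c29 chkEM3_m11_3_0_c30

/-- certificate tree -/
def treeEM3_m11_3_0_c31 : TE :=
  .out

theorem chkEM3_m11_3_0_c31 : TE.chk 0 1 treeEM3_m11_3_0_c31 99989 100003 16 100007 99999 8 = true := by decide +kernel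

/-- certificate tree -/
def treeEM3_m11_3_0_c19 : TE :=
  .sp treeEM3_m11_3_0_c20 treeEM3_m11_3_0_c25 treeEM3_m11_3_0_c26 treeEM3_m11_3_0_c31

theorem chkEM3_m11_3_0_c19 : TE.chk 0 1 treeEM3_m11_3_0_c19 99989 100003 16 100003 99999 4 = true :=
  TE.chk_sp rfl chkEM3_m11_3_0_c20 chkEM3_m11_3_0_c25 chkEM3_m11_3_0_c26 chkEM3_m11_3_0_c31

/-- certificate tree -/
def treeEM3_m11_3_0 : TE :=
  .sp treeEM3_m11_3_0_c0 treeEM3_m11_3_0_c9 treeEM3_m11_3_0_c10 treeEM3_m11_3_0_c19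

theorem chkEM3_m11_3_0 : TE.chk 0 1 treeEM3_m11_3_0 99989 100003 16 100001 99999 2 = true :=
  TE.chk_sp rfl chkEM3_m11_3_0_c0 chkEM3_m11_3_0_c9 chkEM3_m11_3_0_c10 chkEM3_m11_3_0_c19

/-- certificate tree -/
def treeEM3_m11_3_1_c4 : TE :=
  .sp treeEM3_m11_3_1_c5 treeEM3_m11_3_1_c6 treeEM3_m11_3_1_c7 treeEM3_m11_3_1_c8

theorem chkEM3_m11_3_1_c4 : TE.chk 0 1 treeEM3_m11_3_1_c4 99989 100003 16 100003 100003 8 = true :=
  TE.chk_sp rfl chkEM3_m11_3_1_c5 chkEM3_m11_3_1_c6 chkEM3_m11_3_1_c7 chkEM3_m11_3_1_c8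

/-- certificate tree -/
def treeEM3_m11_3_1_c0 : TE :=
  .sp treeEM3_m11_3_1_c1 treeEM3_m11_3_1_c2 treeEM3_m11_3_1_c3 treeEM3_m11_3_1_c4

theorem chkEM3_m11_3_1_c0 : TE.chk 0 1 treeEM3_m11_3_1_c0 99989 100003 16 100001 100001 4 = true :=
  TE.chk_sp rfl chkEM3_m11_3_1_c1 chkEM3_m11_3_1_c2 chkEM3_m11_3_1_c3 chkEM3_m11_3_1_c4

/-- certificate tree -/
def treeEM3_m11_3_1_c10 : TE :=
  .sp treeEM3_m11_3_1_c11 treeEM3_m11_3_1_c12 treeEM3_m11_3_1_c13 treeEM3_m11_3_1_c14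

theorem chkEM3_m11_3_1_c10 : TE.chk 0 1 treeEM3_m11_3_1_c10 99989 100003 16 100005 100001 8 = true :=
  TE.chk_sp rfl chkEM3_m11_3_1_c11 chkEM3_m11_3_1_c12 chkEM3_m11_3_1_c13 chkEM3_m11_3_1_c14

/-- certificate tree -/
def treeEM3_m11_3_1_c15 : TE :=
  .out

theorem chkEM3_m11_3_1_c15 : TE.chk 0 1 treeEM3_m11_3_1_c15 99989 100003 16 100007 100001 8 = true := by decide +kernel

/-- certificate tree -/
def treeEM3_m11_3_1_c20 : TE :=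
  .out

theorem chkEM3_m11_3_1_c20 : TE.chk 0 1 treeEM3_m11_3_1_c20 99989 100003 16 100011 100007 16 = true := by decide +kernel

/-- certificate tree -/
def treeEM3_m11_3_1_c16 : TE :=
  .sp treeEM3_m11_3_1_c17 treeEM3_m11_3_1_c18 treeEM3_m11_3_1_c19 treeEM3_m11_3_1_c20

theorem chkEM3_m11_3_1_c16 : TE.chk 0 1 treeEM3_m11_3_1_c16 99989 100003 16 100005 100003 8 = true :=
  TE.chk_sp rfl chkEM3_m11_3_1_c17 chkEM3_m11_3_1_c18 chkEM3_m11_3_1_c19 chkEM3_m11_3_1_c20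

/-- certificate tree -/
def treeEM3_m11_3_1_c21 : TE :=
  .out

theorem chkEM3_m11_3_1_c21 : TE.chk 0 1 treeEM3_m11_3_1_c21 99989 100003 16 100007 100003 8 = true := by decide +kernel

/-- certificate tree -/
def treeEM3_m11_3_1_c9 : TE :=
  .sp treeEM3_m11_3_1_c10 treeEM3_m11_3_1_c15 treeEM3_m11_3_1_c16 treeEM3_m11_3_1_c21

theorem chkEM3_m11_3_1_c9 : TE.chk 0 1 treeEM3_m11_3_1_c9 99989 100003 16 100003 100001 4 = true :=
  TE.chk_sp rfl chkEM3_m11_3_1_c10 chkEM3_m11_3_1_c15 chkEM3_m11_3_1_c16 chkEM3_m11_3_1_c21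

/-- certificate tree -/
def treeEM3_m11_3_1 : TE :=
  .sp treeEM3_m11_3_1_c0 treeEM3_m11_3_1_c9 treeEM3_m11_3_1_c22 treeEM3_m11_3_1_c23

theorem chkEM3_m11_3_1 : TE.chk 0 1 treeEM3_m11_3_1 99989 100003 16 100001 100001 2 = true :=
  TE.chk_sp rfl chkEM3_m11_3_1_c0 chkEM3_m11_3_1_c9 chkEM3_m11_3_1_c22 chkEM3_m11_3_1_c23

end Pool.Agent.MaxTerm58
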