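import Pool.Agent.MaxTerm58.DEM3_m11_5_p0
import Pool.Agent.MaxTerm58.DEM3_m11_5_p1
import Pool.Agent.MaxTerm58.DEM3_m11_5_p2

/-! Certificates of the family E (ratio 3, mode 1) for the square of half width `1/16` with centre `(-11 + 5 i)/16`. -/

namespace Pool.Agent.MaxTerm58

set_option maxRecDepth 100000

/-- certificate tree -/
def treeEM3_m11_5_0_c1 : TE :=
  .out

theorem chkEM3_m11_5_0_c1 : TE.chk 0 1 treeEM3_m11_5_0_c1 99989 100005 16 100001 99993 8 = true := by decide +kernel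

/-- certificate tree -/
def treeEM3_m11_5_0_c2 : TE :=
  .out

theorem chkEM3_m11_5_0_c2 : TE.chk 0 1 treeEM3_m11_5_0_c2 99989 100005 16 100003 99993 8 = true := by decide +kernel

/-- certificate tree -/
def treeEM3_m11_5_0_c3 : TE :=
  .out

theorem chkEM3_m11_5_0_c3 : TE.chk 0 1 treeEM3_m11_5_0_c3 99989 100005 16 100001 99995 8 = true := by decide +kernel

/-- certificate tree -/
def treeEM3_m11_5_0_c6 : TE :=
  (.sp .out .out (.sq .out .out .out .out) .out)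

theorem chkEM3_m11_5_0_c6 : TE.chk 0 1 treeEM3_m11_5_0_c6 99989 100005 16 100007 99989 16 = true := by decide +kernel

/-- certificate tree -/
def treeEM3_m11_5_0_c4 : TE :=
  .sp treeEM3_m11_5_0_c5 treeEM3_m11_5_0_c6 treeEM3_m11_5_0_c7 treeEM3_m11_5_0_c8

theorem chkEM3_m11_5_0_c4 : TE.chk 0 1 treeEM3_m11_5_0_c4 99989 100005 16 100003 99995 8 = true :=
  TE.chk_sp rfl chkEM3_m11_5_0_c5 chkEM3_m11_5_0_c6 chkEM3_m11_5_0_c7 chkEM3_m11_5_0_c8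

/-- certificate tree -/
def treeEM3_m11_5_0_c0 : TE :=
  .sp treeEM3_m11_5_0_c1 treeEM3_m11_5_0_c2 treeEM3_m11_5_0_c3 treeEM3_m11_5_0_c4

theorem chkEM3_m11_5_0_c0 : TE.chk 0 1 treeEM3_m11_5_0_c0 99989 100005 16 100001 99997 4 = true :=
  TE.chk_sp rfl chkEM3_m11_5_0_c1 chkEM3_m11_5_0_c2 chkEM3_m11_5_0_c3 chkEM3_m11_5_0_c4

/-- certificate tree -/
def treeEM3_m11_5_0_c10 : TE :=
  .sp treeEM3_m11_5_0_c11 treeEM3_m11_5_0_c12 treeEM3_m11_5_0_c13 treeEM3_m11_5_0_c14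

theorem chkEM3_m11_5_0_c10 : TE.chk 0 1 treeEM3_m11_5_0_c10 99989 100005 16 100001 99999 4 = true :=
  TE.chk_sp rfl chkEM3_m11_5_0_c11 chkEM3_m11_5_0_c12 chkEM3_m11_5_0_c13 chkEM3_m11_5_0_c14

/-- certificate tree -/
def treeEM3_m11_5_0_c18 : TE :=
  (.sp .out .out (.sq .out .out .out .out) .out)

theorem chkEM3_m11_5_0_c18 : TE.chk 0 1 treeEM3_m11_5_0_c18 99989 100005 16 100011 99993 16 = true := by decide +kernel

/-- certificate tree -/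
def treeEM3_m11_5_0_c16 : TE :=
  .sp treeEM3_m11_5_0_c17 treeEM3_m11_5_0_c18 treeEM3_m11_5_0_c19 treeEM3_m11_5_0_c20

theorem chkEM3_m11_5_0_c16 : TE.chk 0 1 treeEM3_m11_5_0_c16 99989 100005 16 100005 99997 8 = true :=
  TE.chk_sp rfl chkEM3_m11_5_0_c17 chkEM3_m11_5_0_c18 chkEM3_m11_5_0_c19 chkEM3_m11_5_0_c20

/-- certificate tree -/
def treeEM3_m11_5_0_c21 : TE :=
  .out

theorem chkEM3_m11_5_0_c21 : TE.chk 0 1 treeEM3_m11_5_0_c21 99989 100005 16 100007 99997 8 = true := by decide +kernel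

/-- certificate tree -/
def treeEM3_m11_5_0_c22 : TE :=
  .sp treeEM3_m11_5_0_c23 treeEM3_m11_5_0_c24 treeEM3_m11_5_0_c25 treeEM3_m11_5_0_c26

theorem chkEM3_m11_5_0_c22 : TE.chk 0 1 treeEM3_m11_5_0_c22 99989 100005 16 100005 99999 8 = true :=
  TE.chk_sp rfl chkEM3_m11_5_0_c23 chkEM3_m11_5_0_c24 chkEM3_m11_5_0_c25 chkEM3_m11_5_0_c26

/-- certificate tree -/
def treeEM3_m11_5_0_c27 : TE :=
  (.sp .out .out (.sp (.sq .out .out .out .out) .out (.sq .out .out .out .out) .out) .out)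

theorem chkEM3_m11_5_0_c27 : TE.chk 0 1 treeEM3_m11_5_0_c27 99989 100005 16 100007 99999 8 = true := by decide +kernel

/-- certificate tree -/
def treeEM3_m11_5_0_c15 : TE :=
  .sp treeEM3_m11_5_0_c16 treeEM3_m11_5_0_c21 treeEM3_m11_5_0_c22 treeEM3_m11_5_0_c27

theorem chkEM3_m11_5_0_c15 : TE.chk 0 1 treeEM3_m11_5_0_c15 99989 100005 16 100003 99999 4 = true :=
  TE.chk_sp rfl chkEM3_m11_5_0_c16 chkEM3_m11_5_0_c21 chkEM3_m11_5_0_c22 chkEM3_m11_5_0_c27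

/-- certificate tree -/
def treeEM3_m11_5_0 : TE :=
  .sp treeEM3_m11_5_0_c0 treeEM3_m11_5_0_c9 treeEM3_m11_5_0_c10 treeEM3_m11_5_0_c15

theorem chkEM3_m11_5_0 : TE.chk 0 1 treeEM3_m11_5_0 99989 100005 16 100001 99999 2 = true :=
  TE.chk_sp rfl chkEM3_m11_5_0_c0 chkEM3_m11_5_0_c9 chkEM3_m11_5_0_c10 chkEM3_m11_5_0_c15

/-- certificate tree -/
def treeEM3_m11_5_1_c4 : TE :=
  .sp treeEM3_m11_5_1_c5 treeEM3_m11_5_1_c6 treeEM3_m11_5_1_c7 treeEM3_m11_5_1_c8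

theorem chkEM3_m11_5_1_c4 : TE.chk 0 1 treeEM3_m11_5_1_c4 99989 100005 16 100003 100003 8 = true :=
  TE.chk_sp rfl chkEM3_m11_5_1_c5 chkEM3_m11_5_1_c6 chkEM3_m11_5_1_c7 chkEM3_m11_5_1_c8

/-- certificate tree -/
def treeEM3_m11_5_1_c0 : TE :=
  .sp treeEM3_m11_5_1_c1 treeEM3_m11_5_1_c2 treeEM3_m11_5_1_c3 treeEM3_m11_5_1_c4

theorem chkEM3_m11_5_1_c0 : TE.chk 0 1 treeEM3_m11_5_1_c0 99989 100005 16 100001 100001 4 = true :=
  TE.chk_sp rfl chkEM3_m11_5_1_c1 chkEM3_m11_5_1_c2 chkEM3_m11_5_1_c3 chkEM3_m11_5_1_c4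

/-- certificate tree -/
def treeEM3_m11_5_1_c10 : TE :=
  .sp treeEM3_m11_5_1_c11 treeEM3_m11_5_1_c12 treeEM3_m11_5_1_c13 treeEM3_m11_5_1_c14

theorem chkEM3_m11_5_1_c10 : TE.chk 0 1 treeEM3_m11_5_1_c10 99989 100005 16 100005 100001 8 = true :=
  TE.chk_sp rfl chkEM3_m11_5_1_c11 chkEM3_m11_5_1_c12 chkEM3_m11_5_1_c13 chkEM3_m11_5_1_c14

/-- certificate tree -/
def treeEM3_m11_5_1_c15 : TE :=
  (.sp (.sp (.sq .out .out .out .out) .out (.sq .out .out .out .out) .out) .out .out .out)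

theorem chkEM3_m11_5_1_c15 : TE.chk 0 1 treeEM3_m11_5_1_c15 99989 100005 16 100007 100001 8 = true := by decide +kernel

/-- certificate tree -/
def treeEM3_m11_5_1_c23 : TE :=
  (.sq .out .out .out .out)

theorem chkEM3_m11_5_1_c23 : TE.chk 0 1 treeEM3_m11_5_1_c23 99989 100005 16 100019 100015 32 = true := by decide +kernel

/-- certificate tree -/
def treeEM3_m11_5_1_c19 : TE :=
  .sp treeEM3_m11_5_1_c20 treeEM3_m11_5_1_c21 treeEM3_m11_5_1_c22 treeEM3_m11_5_1_c23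

theorem chkEM3_m11_5_1_c19 : TE.chk 0 1 treeEM3_m11_5_1_c19 99989 100005 16 100009 100007 16 = true :=
  TE.chk_sp rfl chkEM3_m11_5_1_c20 chkEM3_m11_5_1_c21 chkEM3_m11_5_1_c22 chkEM3_m11_5_1_c23

/-- certificate tree -/
def treeEM3_m11_5_1_c16 : TE :=
  .sp treeEM3_m11_5_1_c17 treeEM3_m11_5_1_c18 treeEM3_m11_5_1_c19 treeEM3_m11_5_1_c24

theorem chkEM3_m11_5_1_c16 : TE.chk 0 1 treeEM3_m11_5_1_c16 99989 100005 16 100005 100003 8 = true :=
  TE.chk_sp rfl chkEM3_m11_5_1_c17 chkEM3_m11_5_1_c18 chkEM3_m11_5_1_c19 chkEM3_m11_5_1_c24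

/-- certificate tree -/
def treeEM3_m11_5_1_c25 : TE :=
  .out

theorem chkEM3_m11_5_1_c25 : TE.chk 0 1 treeEM3_m11_5_1_c25 99989 100005 16 100007 100003 8 = true := by decide +kernel

/-- certificate tree -/
def treeEM3_m11_5_1_c9 : TE :=
  .sp treeEM3_m11_5_1_c10 treeEM3_m11_5_1_c15 treeEM3_m11_5_1_c16 treeEM3_m11_5_1_c25

theorem chkEM3_m11_5_1_c9 : TE.chk 0 1 treeEM3_m11_5_1_c9 99989 100005 16 100003 100001 4 = true :=
  TE.chk_sp rfl chkEM3_m11_5_1_c10 chkEM3_m11_5_1_c15 chkEM3_m11_5_1_c16 chkEM3_m11_5_1_c25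

/-- certificate tree -/
def treeEM3_m11_5_1_c27 : TE :=
  .out

theorem chkEM3_m11_5_1_c27 : TE.chk 0 1 treeEM3_m11_5_1_c27 99989 100005 16 100001 100005 8 = true := by decide +kernel

/-- certificate tree -/
def treeEM3_m11_5_1_c28 : TE :=
  .sp treeEM3_m11_5_1_c29 treeEM3_m11_5_1_c30 treeEM3_m11_5_1_c31 treeEM3_m11_5_1_c32

theorem chkEM3_m11_5_1_c28 : TE.chk 0 1 treeEM3_m11_5_1_c28 99989 100005 16 100003 100005 8 = true :=
  TE.chk_sp rfl chkEM3_m11_5_1_c29 chkEM3_m11_5_1_c30 chkEM3_m11_5_1_c31 chkEM3_m11_5_1_c32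

/-- certificate tree -/
def treeEM3_m11_5_1_c33 : TE :=
  .out

theorem chkEM3_m11_5_1_c33 : TE.chk 0 1 treeEM3_m11_5_1_c33 99989 100005 16 100001 100007 8 = true := by decide +kernel

/-- certificate tree -/
def treeEM3_m11_5_1_c34 : TE :=
  .out

theorem chkEM3_m11_5_1_c34 : TE.chk 0 1 treeEM3_m11_5_1_c34 99989 100005 16 100003 100007 8 = true := by decide +kernel

/-- certificate tree -/
def treeEM3_m11_5_1_c26 : TE :=
  .sp treeEM3_m11_5_1_c27 treeEM3_m11_5_1_c28 treeEM3_m11_5_1_c33 treeEM3_m11_5_1_c34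

theorem chkEM3_m11_5_1_c26 : TE.chk 0 1 treeEM3_m11_5_1_c26 99989 100005 16 100001 100003 4 = true :=
  TE.chk_sp rfl chkEM3_m11_5_1_c27 chkEM3_m11_5_1_c28 chkEM3_m11_5_1_c33 chkEM3_m11_5_1_c34

/-- certificate tree -/
def treeEM3_m11_5_1_c35 : TE :=
  (.sp (.sp (.sp (.sq .out .out .out .out) (.sp (.sq .out .out .out .out) .out .out .out) (.sp
  (.sq .out .out .out .out) .out .out .out) .out) .out .out .out) .out .out .out)

theorem chkEM3_m11_5_1_c35 : TE.chk 0 1 treeEM3_m11_5_1_c35 99989 100005 16 100003 100003 4 = true := by decide +kernel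

/-- certificate tree -/
def treeEM3_m11_5_1 : TE :=
  .sp treeEM3_m11_5_1_c0 treeEM3_m11_5_1_c9 treeEM3_m11_5_1_c26 treeEM3_m11_5_1_c35

theorem chkEM3_m11_5_1 : TE.chk 0 1 treeEM3_m11_5_1 99989 100005 16 100001 100001 2 = true :=
  TE.chk_sp rfl chkEM3_m11_5_1_c0 chkEM3_m11_5_1_c9 chkEM3_m11_5_1_c26 chkEM3_m11_5_1_c35

end Pool.Agent.MaxTerm58
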