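import Pool.Agent.MaxTerm58.EChunk

/-! Certificates of the family E (ratio 3, mode 1) for the square of half width `1/16` with centre `(-3 + 3 i)/16`. -/

namespace Pool.Agent.MaxTerm58

set_option maxRecDepth 100000

/-- certificate tree -/
def treeEM3_m3_3_0 : TE :=
  (.sp .out .out (.sp (.lf 7073 11 1 6 4 8 [] [1134926753435355283818, 1124569743885300761760,
  1011854401522552638180, 787341554537612023094] [161733943366620907522, 276359210405505631261,
  455422058362759904321, 1114966567753121632201, 1125270912689141288048, 1146583002964828457582,
  564377494612847469068, 276362968949611136180, 103280005746174292945]) .out (.lf 7073 13 2 6 3 10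
  [] [1139539507492713235150, 848932674946303104445] [142692803238448173486,
  305614529812807648606, 332780190950826280052, 488982859077366151673, 1114966567752532331568,
  1125270912689519299880, 1154022491394519959590, 1124569743886623275705, 534041241887852041415,
  393672940537792794051, 220680315615191860267, 115457803460502452011]) (.lf 7073 11 1 8 4 8 []
  [1152923871676402861216, 942967596021655374950, 601829427669987856701] [142692803238643471444,
  367205650222214905435, 522417566767678847221, 1125270912690954014343, 1154022491394348255130,
  1124569743886939945934, 564377494612524242450, 419253416657929737135, 220680315615036933337,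
  103280005746582712639])) .out)

theorem chkEM3_m3_3_0 : TE.chk 0 1 treeEM3_m3_3_0 99997 100003 16 100001 99999 2 = true := by decide +kernel

/-- certificate tree -/
def treeEM3_m3_3_1 : TE :=
  (.sp (.sp (.lf 7073 14 2 6 4 11 [] [1139539507493551833180, 878187994355133946954]
  [84632698449991667645, 211579608738555858369, 332780190950999557385, 367205650221372900271,
  522417566766476918513, 1134926753436642151131, 1152923871678416388437, 1114968170428395520084,
  481727404426943368672, 332784180667789970313, 176562907087871246652]) (.lf 7073 12 1 6 4 9 []
  [1139539507491899802511, 1051269712908540020733, 878187994353497378600, 601829427670178960325]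
  [54332695386251696135, 188593311969065667907, 367205650222441659606, 552717777088220330457,
  1125270912690488445631, 1134926753434307757731, 1154400936631998448652, 1124569743886026375267,
  534041241888031609935, 367209752500199329935, 176562907088221733438]) (.lf 7073 11 2 5 4 8 []
  [1114968170428947071981, 878187994353863070390] [103277491850778092153, 305614529814340667104,
  522417566767099507070, 1134926753437705145109, 1150131746767386280241, 1114968170429182737871,
  446509228473629905109, 197297552410160760398]) .out) .out .out .out)

theorem chkEM3_m3_3_1 : TE.chk 0 1 treeEM3_m3_3_1 99997 100003 16 100001 100001 2 = true := by decide +kernel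

end Pool.Agent.MaxTerm58
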