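import Pool.Agent.MaxTerm58.DEM3_m7_3_p0
import Pool.Agent.MaxTerm58.DEM3_m7_3_p1

/-! Certificates of the family E (ratio 3, mode 1) for the square of half width `1/16` with centre `(-7 + 3 i)/16`. -/

namespace Pool.Agent.MaxTerm58

set_option maxRecDepth 100000

/-- certificate tree -/
def treeEM3_m7_3_0_c0 : TE :=
  (.sp .out .out .out .out)

theorem chkEM3_m7_3_0_c0 : TE.chk 0 1 treeEM3_m7_3_0_c0 99993 100003 16 100001 99997 4 = true := by decide +kernel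

/-- certificate tree -/
def treeEM3_m7_3_0_c1 : TE :=
  .out

theorem chkEM3_m7_3_0_c1 : TE.chk 0 1 treeEM3_m7_3_0_c1 99993 100003 16 100003 99997 4 = true := by decide +kernel

/-- certificate tree -/
def treeEM3_m7_3_0_c5 : TE :=
  .sp treeEM3_m7_3_0_c6 treeEM3_m7_3_0_c7 treeEM3_m7_3_0_c8 treeEM3_m7_3_0_c9

theorem chkEM3_m7_3_0_c5 : TE.chk 0 1 treeEM3_m7_3_0_c5 99993 100003 16 100001 99999 8 = true :=
  TE.chk_sp rfl chkEM3_m7_3_0_c6 chkEM3_m7_3_0_c7 chkEM3_m7_3_0_c8 chkEM3_m7_3_0_c9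

/-- certificate tree -/
def treeEM3_m7_3_0_c10 : TE :=
  .sp treeEM3_m7_3_0_c11 treeEM3_m7_3_0_c12 treeEM3_m7_3_0_c13 treeEM3_m7_3_0_c14

theorem chkEM3_m7_3_0_c10 : TE.chk 0 1 treeEM3_m7_3_0_c10 99993 100003 16 100003 99999 8 = true :=
  TE.chk_sp rfl chkEM3_m7_3_0_c11 chkEM3_m7_3_0_c12 chkEM3_m7_3_0_c13 chkEM3_m7_3_0_c14

/-- certificate tree -/
def treeEM3_m7_3_0_c2 : TE :=
  .sp treeEM3_m7_3_0_c3 treeEM3_m7_3_0_c4 treeEM3_m7_3_0_c5 treeEM3_m7_3_0_c10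

theorem chkEM3_m7_3_0_c2 : TE.chk 0 1 treeEM3_m7_3_0_c2 99993 100003 16 100001 99999 4 = true :=
  TE.chk_sp rfl chkEM3_m7_3_0_c3 chkEM3_m7_3_0_c4 chkEM3_m7_3_0_c5 chkEM3_m7_3_0_c10

/-- certificate tree -/
def treeEM3_m7_3_0 : TE :=
  .sp treeEM3_m7_3_0_c0 treeEM3_m7_3_0_c1 treeEM3_m7_3_0_c2 treeEM3_m7_3_0_c15

theorem chkEM3_m7_3_0 : TE.chk 0 1 treeEM3_m7_3_0 99993 100003 16 100001 99999 2 = true :=
  TE.chk_sp rfl chkEM3_m7_3_0_c0 chkEM3_m7_3_0_c1 chkEM3_m7_3_0_c2 chkEM3_m7_3_0_c15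

/-- certificate tree -/
def treeEM3_m7_3_1_c1 : TE :=
  .sp treeEM3_m7_3_1_c2 treeEM3_m7_3_1_c3 treeEM3_m7_3_1_c4 treeEM3_m7_3_1_c5

theorem chkEM3_m7_3_1_c1 : TE.chk 0 1 treeEM3_m7_3_1_c1 99993 100003 16 100001 100001 8 = true :=
  TE.chk_sp rfl chkEM3_m7_3_1_c2 chkEM3_m7_3_1_c3 chkEM3_m7_3_1_c4 chkEM3_m7_3_1_c5

/-- certificate tree -/
def treeEM3_m7_3_1_c6 : TE :=
  .sp treeEM3_m7_3_1_c7 treeEM3_m7_3_1_c8 treeEM3_m7_3_1_c9 treeEM3_m7_3_1_c10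

theorem chkEM3_m7_3_1_c6 : TE.chk 0 1 treeEM3_m7_3_1_c6 99993 100003 16 100003 100001 8 = true :=
  TE.chk_sp rfl chkEM3_m7_3_1_c7 chkEM3_m7_3_1_c8 chkEM3_m7_3_1_c9 chkEM3_m7_3_1_c10

/-- certificate tree -/
def treeEM3_m7_3_1_c0 : TE :=
  .sp treeEM3_m7_3_1_c1 treeEM3_m7_3_1_c6 treeEM3_m7_3_1_c11 treeEM3_m7_3_1_c12

theorem chkEM3_m7_3_1_c0 : TE.chk 0 1 treeEM3_m7_3_1_c0 99993 100003 16 100001 100001 4 = true :=
  TE.chk_sp rfl chkEM3_m7_3_1_c1 chkEM3_m7_3_1_c6 chkEM3_m7_3_1_c11 chkEM3_m7_3_1_c12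

/-- certificate tree -/
def treeEM3_m7_3_1_c14 : TE :=
  (.sp .out .out .out .out)

theorem chkEM3_m7_3_1_c14 : TE.chk 0 1 treeEM3_m7_3_1_c14 99993 100003 16 100001 100003 4 = true := by decide +kernel

/-- certificate tree -/
def treeEM3_m7_3_1_c15 : TE :=
  .out

theorem chkEM3_m7_3_1_c15 : TE.chk 0 1 treeEM3_m7_3_1_c15 99993 100003 16 100003 100003 4 = true := by decide +kernel

/-- certificate tree -/
def treeEM3_m7_3_1 : TE :=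
  .sp treeEM3_m7_3_1_c0 treeEM3_m7_3_1_c13 treeEM3_m7_3_1_c14 treeEM3_m7_3_1_c15

theorem chkEM3_m7_3_1 : TE.chk 0 1 treeEM3_m7_3_1 99993 100003 16 100001 100001 2 = true :=
  TE.chk_sp rfl chkEM3_m7_3_1_c0 chkEM3_m7_3_1_c13 chkEM3_m7_3_1_c14 chkEM3_m7_3_1_c15

end Pool.Agent.MaxTerm58
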