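import Pool.Agent.MaxTerm58.DEN32_p1_13_p0
import Pool.Agent.MaxTerm58.DEN32_p1_13_p1
import Pool.Agent.MaxTerm58.DEN32_p1_13_p2
import Pool.Agent.MaxTerm58.DEN32_p1_13_p3
import Pool.Agent.MaxTerm58.DEN32_p1_13_p4
import Pool.Agent.MaxTerm58.DEN32_p1_13_p5
import Pool.Agent.MaxTerm58.DEN32_p1_13_p6

/-! Certificates of the family E (ratio 3/2, mode 0) for the square of half width `1/16` with centre `(1 + 13 i)/16`. -/

namespace Pool.Agent.MaxTerm58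

set_option maxRecDepth 100000

/-- certificate tree -/
def treeEN32_p1_13_0_c0 : TE :=
  .out

theorem chkEN32_p1_13_0_c0 : TE.chk 1 0 treeEN32_p1_13_0_c0 100001 100013 16 100001 99997 4 = true := by decide +kernel

/-- certificate tree -/
def treeEN32_p1_13_0_c1 : TE :=
  (.sp .out .out .out .out)

theorem chkEN32_p1_13_0_c1 : TE.chk 1 0 treeEN32_p1_13_0_c1 100001 100013 16 100003 99997 4 = true := by decide +kernel

/-- certificate tree -/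
def treeEN32_p1_13_0_c3 : TE :=
  .out

theorem chkEN32_p1_13_0_c3 : TE.chk 1 0 treeEN32_p1_13_0_c3 100001 100013 16 100001 99997 8 = true := by decide +kernel

/-- certificate tree -/
def treeEN32_p1_13_0_c6 : TE :=
  .sp treeEN32_p1_13_0_c7 treeEN32_p1_13_0_c8 treeEN32_p1_13_0_c9 treeEN32_p1_13_0_c10

theorem chkEN32_p1_13_0_c6 : TE.chk 1 0 treeEN32_p1_13_0_c6 100001 100013 16 100003 99999 8 = true :=
  TE.chk_sp rfl chkEN32_p1_13_0_c7 chkEN32_p1_13_0_c8 chkEN32_p1_13_0_c9 chkEN32_p1_13_0_c10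

/-- certificate tree -/
def treeEN32_p1_13_0_c2 : TE :=
  .sp treeEN32_p1_13_0_c3 treeEN32_p1_13_0_c4 treeEN32_p1_13_0_c5 treeEN32_p1_13_0_c6

theorem chkEN32_p1_13_0_c2 : TE.chk 1 0 treeEN32_p1_13_0_c2 100001 100013 16 100001 99999 4 = true :=
  TE.chk_sp rfl chkEN32_p1_13_0_c3 chkEN32_p1_13_0_c4 chkEN32_p1_13_0_c5 chkEN32_p1_13_0_c6

/-- certificate tree -/
def treeEN32_p1_13_0_c13 : TE :=
  .out

theorem chkEN32_p1_13_0_c13 : TE.chk 1 0 treeEN32_p1_13_0_c13 100001 100013 16 100009 99993 16 = true := by decide +kernel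

/-- certificate tree -/
def treeEN32_p1_13_0_c15 : TE :=
  .out

theorem chkEN32_p1_13_0_c15 : TE.chk 1 0 treeEN32_p1_13_0_c15 100001 100013 16 100021 99985 32 = true := by decide +kernel

/-- certificate tree -/
def treeEN32_p1_13_0_c16 : TE :=
  .out

theorem chkEN32_p1_13_0_c16 : TE.chk 1 0 treeEN32_p1_13_0_c16 100001 100013 16 100023 99985 32 = true := by decide +kernel

/-- certificate tree -/
def treeEN32_p1_13_0_c14 : TE :=
  .sp treeEN32_p1_13_0_c15 treeEN32_p1_13_0_c16 treeEN32_p1_13_0_c17 treeEN32_p1_13_0_c18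

theorem chkEN32_p1_13_0_c14 : TE.chk 1 0 treeEN32_p1_13_0_c14 100001 100013 16 100011 99993 16 = true :=
  TE.chk_sp rfl chkEN32_p1_13_0_c15 chkEN32_p1_13_0_c16 chkEN32_p1_13_0_c17 chkEN32_p1_13_0_c18

/-- certificate tree -/
def treeEN32_p1_13_0_c19 : TE :=
  .sq treeEN32_p1_13_0_c20 treeEN32_p1_13_0_c21 treeEN32_p1_13_0_c22 treeEN32_p1_13_0_c23

theorem chkEN32_p1_13_0_c19 : TE.chk 1 0 treeEN32_p1_13_0_c19 100001 100013 16 100009 99995 16 = true :=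
  TE.chk_sq rfl chkEN32_p1_13_0_c20 chkEN32_p1_13_0_c21 chkEN32_p1_13_0_c22 chkEN32_p1_13_0_c23

/-- certificate tree -/
def treeEN32_p1_13_0_c24 : TE :=
  .sp treeEN32_p1_13_0_c25 treeEN32_p1_13_0_c26 treeEN32_p1_13_0_c27 treeEN32_p1_13_0_c28

theorem chkEN32_p1_13_0_c24 : TE.chk 1 0 treeEN32_p1_13_0_c24 100001 100013 16 100011 99995 16 = true :=
  TE.chk_sp rfl chkEN32_p1_13_0_c25 chkEN32_p1_13_0_c26 chkEN32_p1_13_0_c27 chkEN32_p1_13_0_c28

/-- certificate tree -/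
def treeEN32_p1_13_0_c12 : TE :=
  .sp treeEN32_p1_13_0_c13 treeEN32_p1_13_0_c14 treeEN32_p1_13_0_c19 treeEN32_p1_13_0_c24

theorem chkEN32_p1_13_0_c12 : TE.chk 1 0 treeEN32_p1_13_0_c12 100001 100013 16 100005 99997 8 = true :=
  TE.chk_sp rfl chkEN32_p1_13_0_c13 chkEN32_p1_13_0_c14 chkEN32_p1_13_0_c19 chkEN32_p1_13_0_c24

/-- certificate tree -/
def treeEN32_p1_13_0_c31 : TE :=
  .out

theorem chkEN32_p1_13_0_c31 : TE.chk 1 0 treeEN32_p1_13_0_c31 100001 100013 16 100015 99993 16 = true := by decide +kernel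

/-- certificate tree -/
def treeEN32_p1_13_0_c33 : TE :=
  .out

theorem chkEN32_p1_13_0_c33 : TE.chk 1 0 treeEN32_p1_13_0_c33 100001 100013 16 100015 99995 16 = true := by decide +kernel

/-- certificate tree -/
def treeEN32_p1_13_0_c29 : TE :=
  .sp treeEN32_p1_13_0_c30 treeEN32_p1_13_0_c31 treeEN32_p1_13_0_c32 treeEN32_p1_13_0_c33

theorem chkEN32_p1_13_0_c29 : TE.chk 1 0 treeEN32_p1_13_0_c29 100001 100013 16 100007 99997 8 = true :=
  TE.chk_sp rfl chkEN32_p1_13_0_c30 chkEN32_p1_13_0_c31 chkEN32_p1_13_0_c32 chkEN32_p1_13_0_c33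

/-- certificate tree -/
def treeEN32_p1_13_0_c35 : TE :=
  .sq treeEN32_p1_13_0_c36 treeEN32_p1_13_0_c37 treeEN32_p1_13_0_c38 treeEN32_p1_13_0_c39

theorem chkEN32_p1_13_0_c35 : TE.chk 1 0 treeEN32_p1_13_0_c35 100001 100013 16 100009 99997 16 = true :=
  TE.chk_sq rfl chkEN32_p1_13_0_c36 chkEN32_p1_13_0_c37 chkEN32_p1_13_0_c38 chkEN32_p1_13_0_c39

/-- certificate tree -/
def treeEN32_p1_13_0_c40 : TE :=
  .sp treeEN32_p1_13_0_c41 treeEN32_p1_13_0_c42 treeEN32_p1_13_0_c43 treeEN32_p1_13_0_c44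

theorem chkEN32_p1_13_0_c40 : TE.chk 1 0 treeEN32_p1_13_0_c40 100001 100013 16 100011 99997 16 = true :=
  TE.chk_sp rfl chkEN32_p1_13_0_c41 chkEN32_p1_13_0_c42 chkEN32_p1_13_0_c43 chkEN32_p1_13_0_c44

/-- certificate tree -/
def treeEN32_p1_13_0_c45 : TE :=
  .sq treeEN32_p1_13_0_c46 treeEN32_p1_13_0_c47 treeEN32_p1_13_0_c48 treeEN32_p1_13_0_c49

theorem chkEN32_p1_13_0_c45 : TE.chk 1 0 treeEN32_p1_13_0_c45 100001 100013 16 100009 99999 16 = true :=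
  TE.chk_sq rfl chkEN32_p1_13_0_c46 chkEN32_p1_13_0_c47 chkEN32_p1_13_0_c48 chkEN32_p1_13_0_c49

/-- certificate tree -/
def treeEN32_p1_13_0_c50 : TE :=
  .sp treeEN32_p1_13_0_c51 treeEN32_p1_13_0_c52 treeEN32_p1_13_0_c53 treeEN32_p1_13_0_c54

theorem chkEN32_p1_13_0_c50 : TE.chk 1 0 treeEN32_p1_13_0_c50 100001 100013 16 100011 99999 16 = true :=
  TE.chk_sp rfl chkEN32_p1_13_0_c51 chkEN32_p1_13_0_c52 chkEN32_p1_13_0_c53 chkEN32_p1_13_0_c54

/-- certificate tree -/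
def treeEN32_p1_13_0_c34 : TE :=
  .sp treeEN32_p1_13_0_c35 treeEN32_p1_13_0_c40 treeEN32_p1_13_0_c45 treeEN32_p1_13_0_c50

theorem chkEN32_p1_13_0_c34 : TE.chk 1 0 treeEN32_p1_13_0_c34 100001 100013 16 100005 99999 8 = true :=
  TE.chk_sp rfl chkEN32_p1_13_0_c35 chkEN32_p1_13_0_c40 chkEN32_p1_13_0_c45 chkEN32_p1_13_0_c50

/-- certificate tree -/
def treeEN32_p1_13_0_c56 : TE :=
  .sp treeEN32_p1_13_0_c57 treeEN32_p1_13_0_c58 treeEN32_p1_13_0_c59 treeEN32_p1_13_0_c60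

theorem chkEN32_p1_13_0_c56 : TE.chk 1 0 treeEN32_p1_13_0_c56 100001 100013 16 100013 99997 16 = true :=
  TE.chk_sp rfl chkEN32_p1_13_0_c57 chkEN32_p1_13_0_c58 chkEN32_p1_13_0_c59 chkEN32_p1_13_0_c60

/-- certificate tree -/
def treeEN32_p1_13_0_c61 : TE :=
  .out

theorem chkEN32_p1_13_0_c61 : TE.chk 1 0 treeEN32_p1_13_0_c61 100001 100013 16 100015 99997 16 = true := by decide +kernel

/-- certificate tree -/
def treeEN32_p1_13_0_c62 : TE :=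
  .sp treeEN32_p1_13_0_c63 treeEN32_p1_13_0_c64 treeEN32_p1_13_0_c65 treeEN32_p1_13_0_c66

theorem chkEN32_p1_13_0_c62 : TE.chk 1 0 treeEN32_p1_13_0_c62 100001 100013 16 100013 99999 16 = true :=
  TE.chk_sp rfl chkEN32_p1_13_0_c63 chkEN32_p1_13_0_c64 chkEN32_p1_13_0_c65 chkEN32_p1_13_0_c66

/-- certificate tree -/
def treeEN32_p1_13_0_c67 : TE :=
  .out

theorem chkEN32_p1_13_0_c67 : TE.chk 1 0 treeEN32_p1_13_0_c67 100001 100013 16 100015 99999 16 = true := by decide +kernel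

/-- certificate tree -/
def treeEN32_p1_13_0_c55 : TE :=
  .sp treeEN32_p1_13_0_c56 treeEN32_p1_13_0_c61 treeEN32_p1_13_0_c62 treeEN32_p1_13_0_c67

theorem chkEN32_p1_13_0_c55 : TE.chk 1 0 treeEN32_p1_13_0_c55 100001 100013 16 100007 99999 8 = true :=
  TE.chk_sp rfl chkEN32_p1_13_0_c56 chkEN32_p1_13_0_c61 chkEN32_p1_13_0_c62 chkEN32_p1_13_0_c67

/-- certificate tree -/
def treeEN32_p1_13_0_c11 : TE :=
  .sp treeEN32_p1_13_0_c12 treeEN32_p1_13_0_c29 treeEN32_p1_13_0_c34 treeEN32_p1_13_0_c55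

theorem chkEN32_p1_13_0_c11 : TE.chk 1 0 treeEN32_p1_13_0_c11 100001 100013 16 100003 99999 4 = true :=
  TE.chk_sp rfl chkEN32_p1_13_0_c12 chkEN32_p1_13_0_c29 chkEN32_p1_13_0_c34 chkEN32_p1_13_0_c55

/-- certificate tree -/
def treeEN32_p1_13_0 : TE :=
  .sp treeEN32_p1_13_0_c0 treeEN32_p1_13_0_c1 treeEN32_p1_13_0_c2 treeEN32_p1_13_0_c11

theorem chkEN32_p1_13_0 : TE.chk 1 0 treeEN32_p1_13_0 100001 100013 16 100001 99999 2 = true :=
  TE.chk_sp rfl chkEN32_p1_13_0_c0 chkEN32_p1_13_0_c1 chkEN32_p1_13_0_c2 chkEN32_p1_13_0_c11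

/-- certificate tree -/
def treeEN32_p1_13_1_c2 : TE :=
  .sp treeEN32_p1_13_1_c3 treeEN32_p1_13_1_c4 treeEN32_p1_13_1_c5 treeEN32_p1_13_1_c6

theorem chkEN32_p1_13_1_c2 : TE.chk 1 0 treeEN32_p1_13_1_c2 100001 100013 16 100003 100001 8 = true :=
  TE.chk_sp rfl chkEN32_p1_13_1_c3 chkEN32_p1_13_1_c4 chkEN32_p1_13_1_c5 chkEN32_p1_13_1_c6

/-- certificate tree -/
def treeEN32_p1_13_1_c7 : TE :=
  .out

theorem chkEN32_p1_13_1_c7 : TE.chk 1 0 treeEN32_p1_13_1_c7 100001 100013 16 100001 100003 8 = true := by decide +kernel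

/-- certificate tree -/
def treeEN32_p1_13_1_c0 : TE :=
  .sp treeEN32_p1_13_1_c1 treeEN32_p1_13_1_c2 treeEN32_p1_13_1_c7 treeEN32_p1_13_1_c8

theorem chkEN32_p1_13_1_c0 : TE.chk 1 0 treeEN32_p1_13_1_c0 100001 100013 16 100001 100001 4 = true :=
  TE.chk_sp rfl chkEN32_p1_13_1_c1 chkEN32_p1_13_1_c2 chkEN32_p1_13_1_c7 chkEN32_p1_13_1_c8

/-- certificate tree -/
def treeEN32_p1_13_1_c11 : TE :=
  .sq treeEN32_p1_13_1_c12 treeEN32_p1_13_1_c13 treeEN32_p1_13_1_c14 treeEN32_p1_13_1_c15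

theorem chkEN32_p1_13_1_c11 : TE.chk 1 0 treeEN32_p1_13_1_c11 100001 100013 16 100009 100001 16 = true :=
  TE.chk_sq rfl chkEN32_p1_13_1_c12 chkEN32_p1_13_1_c13 chkEN32_p1_13_1_c14 chkEN32_p1_13_1_c15

/-- certificate tree -/
def treeEN32_p1_13_1_c16 : TE :=
  .sq treeEN32_p1_13_1_c17 treeEN32_p1_13_1_c18 treeEN32_p1_13_1_c19 treeEN32_p1_13_1_c20

theorem chkEN32_p1_13_1_c16 : TE.chk 1 0 treeEN32_p1_13_1_c16 100001 100013 16 100011 100001 16 = true :=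
  TE.chk_sq rfl chkEN32_p1_13_1_c17 chkEN32_p1_13_1_c18 chkEN32_p1_13_1_c19 chkEN32_p1_13_1_c20

/-- certificate tree -/
def treeEN32_p1_13_1_c21 : TE :=
  .sq treeEN32_p1_13_1_c22 treeEN32_p1_13_1_c23 treeEN32_p1_13_1_c24 treeEN32_p1_13_1_c25

theorem chkEN32_p1_13_1_c21 : TE.chk 1 0 treeEN32_p1_13_1_c21 100001 100013 16 100009 100003 16 = true :=
  TE.chk_sq rfl chkEN32_p1_13_1_c22 chkEN32_p1_13_1_c23 chkEN32_p1_13_1_c24 chkEN32_p1_13_1_c25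

/-- certificate tree -/
def treeEN32_p1_13_1_c26 : TE :=
  .sp treeEN32_p1_13_1_c27 treeEN32_p1_13_1_c28 treeEN32_p1_13_1_c29 treeEN32_p1_13_1_c30

theorem chkEN32_p1_13_1_c26 : TE.chk 1 0 treeEN32_p1_13_1_c26 100001 100013 16 100011 100003 16 = true :=
  TE.chk_sp rfl chkEN32_p1_13_1_c27 chkEN32_p1_13_1_c28 chkEN32_p1_13_1_c29 chkEN32_p1_13_1_c30

/-- certificate tree -/
def treeEN32_p1_13_1_c10 : TE :=
  .sp treeEN32_p1_13_1_c11 treeEN32_p1_13_1_c16 treeEN32_p1_13_1_c21 treeEN32_p1_13_1_c26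

theorem chkEN32_p1_13_1_c10 : TE.chk 1 0 treeEN32_p1_13_1_c10 100001 100013 16 100005 100001 8 = true :=
  TE.chk_sp rfl chkEN32_p1_13_1_c11 chkEN32_p1_13_1_c16 chkEN32_p1_13_1_c21 chkEN32_p1_13_1_c26

/-- certificate tree -/
def treeEN32_p1_13_1_c32 : TE :=
  .sp treeEN32_p1_13_1_c33 treeEN32_p1_13_1_c34 treeEN32_p1_13_1_c35 treeEN32_p1_13_1_c36

theorem chkEN32_p1_13_1_c32 : TE.chk 1 0 treeEN32_p1_13_1_c32 100001 100013 16 100013 100001 16 = true :=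
  TE.chk_sp rfl chkEN32_p1_13_1_c33 chkEN32_p1_13_1_c34 chkEN32_p1_13_1_c35 chkEN32_p1_13_1_c36

/-- certificate tree -/
def treeEN32_p1_13_1_c37 : TE :=
  .out

theorem chkEN32_p1_13_1_c37 : TE.chk 1 0 treeEN32_p1_13_1_c37 100001 100013 16 100015 100001 16 = true := by decide +kernel

/-- certificate tree -/
def treeEN32_p1_13_1_c38 : TE :=
  .sp treeEN32_p1_13_1_c39 treeEN32_p1_13_1_c40 treeEN32_p1_13_1_c41 treeEN32_p1_13_1_c42

theorem chkEN32_p1_13_1_c38 : TE.chk 1 0 treeEN32_p1_13_1_c38 100001 100013 16 100013 100003 16 = true :=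
  TE.chk_sp rfl chkEN32_p1_13_1_c39 chkEN32_p1_13_1_c40 chkEN32_p1_13_1_c41 chkEN32_p1_13_1_c42

/-- certificate tree -/
def treeEN32_p1_13_1_c43 : TE :=
  .out

theorem chkEN32_p1_13_1_c43 : TE.chk 1 0 treeEN32_p1_13_1_c43 100001 100013 16 100015 100003 16 = true := by decide +kernel

/-- certificate tree -/
def treeEN32_p1_13_1_c31 : TE :=
  .sp treeEN32_p1_13_1_c32 treeEN32_p1_13_1_c37 treeEN32_p1_13_1_c38 treeEN32_p1_13_1_c43

theorem chkEN32_p1_13_1_c31 : TE.chk 1 0 treeEN32_p1_13_1_c31 100001 100013 16 100007 100001 8 = true :=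
  TE.chk_sp rfl chkEN32_p1_13_1_c32 chkEN32_p1_13_1_c37 chkEN32_p1_13_1_c38 chkEN32_p1_13_1_c43

/-- certificate tree -/
def treeEN32_p1_13_1_c45 : TE :=
  .sq treeEN32_p1_13_1_c46 treeEN32_p1_13_1_c47 treeEN32_p1_13_1_c48 treeEN32_p1_13_1_c49

theorem chkEN32_p1_13_1_c45 : TE.chk 1 0 treeEN32_p1_13_1_c45 100001 100013 16 100009 100005 16 = true :=
  TE.chk_sq rfl chkEN32_p1_13_1_c46 chkEN32_p1_13_1_c47 chkEN32_p1_13_1_c48 chkEN32_p1_13_1_c49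

/-- certificate tree -/
def treeEN32_p1_13_1_c50 : TE :=
  .sp treeEN32_p1_13_1_c51 treeEN32_p1_13_1_c52 treeEN32_p1_13_1_c53 treeEN32_p1_13_1_c54

theorem chkEN32_p1_13_1_c50 : TE.chk 1 0 treeEN32_p1_13_1_c50 100001 100013 16 100011 100005 16 = true :=
  TE.chk_sp rfl chkEN32_p1_13_1_c51 chkEN32_p1_13_1_c52 chkEN32_p1_13_1_c53 chkEN32_p1_13_1_c54

/-- certificate tree -/
def treeEN32_p1_13_1_c55 : TE :=
  .out

theorem chkEN32_p1_13_1_c55 : TE.chk 1 0 treeEN32_p1_13_1_c55 100001 100013 16 100009 100007 16 = true := by decide +kernel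

/-- certificate tree -/
def treeEN32_p1_13_1_c59 : TE :=
  .out

theorem chkEN32_p1_13_1_c59 : TE.chk 1 0 treeEN32_p1_13_1_c59 100001 100013 16 100021 100015 32 = true := by decide +kernel

/-- certificate tree -/
def treeEN32_p1_13_1_c60 : TE :=
  .out

theorem chkEN32_p1_13_1_c60 : TE.chk 1 0 treeEN32_p1_13_1_c60 100001 100013 16 100023 100015 32 = true := by decide +kernel

/-- certificate tree -/
def treeEN32_p1_13_1_c56 : TE :=
  .sp treeEN32_p1_13_1_c57 treeEN32_p1_13_1_c58 treeEN32_p1_13_1_c59 treeEN32_p1_13_1_c60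

theorem chkEN32_p1_13_1_c56 : TE.chk 1 0 treeEN32_p1_13_1_c56 100001 100013 16 100011 100007 16 = true :=
  TE.chk_sp rfl chkEN32_p1_13_1_c57 chkEN32_p1_13_1_c58 chkEN32_p1_13_1_c59 chkEN32_p1_13_1_c60

/-- certificate tree -/
def treeEN32_p1_13_1_c44 : TE :=
  .sp treeEN32_p1_13_1_c45 treeEN32_p1_13_1_c50 treeEN32_p1_13_1_c55 treeEN32_p1_13_1_c56

theorem chkEN32_p1_13_1_c44 : TE.chk 1 0 treeEN32_p1_13_1_c44 100001 100013 16 100005 100003 8 = true :=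
  TE.chk_sp rfl chkEN32_p1_13_1_c45 chkEN32_p1_13_1_c50 chkEN32_p1_13_1_c55 chkEN32_p1_13_1_c56

/-- certificate tree -/
def treeEN32_p1_13_1_c64 : TE :=
  .out

theorem chkEN32_p1_13_1_c64 : TE.chk 1 0 treeEN32_p1_13_1_c64 100001 100013 16 100027 100009 32 = true := by decide +kernel

/-- certificate tree -/
def treeEN32_p1_13_1_c66 : TE :=
  .out

theorem chkEN32_p1_13_1_c66 : TE.chk 1 0 treeEN32_p1_13_1_c66 100001 100013 16 100027 100011 32 = true := by decide +kernel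

/-- certificate tree -/
def treeEN32_p1_13_1_c62 : TE :=
  .sp treeEN32_p1_13_1_c63 treeEN32_p1_13_1_c64 treeEN32_p1_13_1_c65 treeEN32_p1_13_1_c66

theorem chkEN32_p1_13_1_c62 : TE.chk 1 0 treeEN32_p1_13_1_c62 100001 100013 16 100013 100005 16 = true :=
  TE.chk_sp rfl chkEN32_p1_13_1_c63 chkEN32_p1_13_1_c64 chkEN32_p1_13_1_c65 chkEN32_p1_13_1_c66

/-- certificate tree -/
def treeEN32_p1_13_1_c67 : TE :=
  .out

theorem chkEN32_p1_13_1_c67 : TE.chk 1 0 treeEN32_p1_13_1_c67 100001 100013 16 100015 100005 16 = true := by decide +kernel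

/-- certificate tree -/
def treeEN32_p1_13_1_c69 : TE :=
  .out

theorem chkEN32_p1_13_1_c69 : TE.chk 1 0 treeEN32_p1_13_1_c69 100001 100013 16 100015 100007 16 = true := by decide +kernel

/-- certificate tree -/
def treeEN32_p1_13_1_c61 : TE :=
  .sp treeEN32_p1_13_1_c62 treeEN32_p1_13_1_c67 treeEN32_p1_13_1_c68 treeEN32_p1_13_1_c69

theorem chkEN32_p1_13_1_c61 : TE.chk 1 0 treeEN32_p1_13_1_c61 100001 100013 16 100007 100003 8 = true :=
  TE.chk_sp rfl chkEN32_p1_13_1_c62 chkEN32_p1_13_1_c67 chkEN32_p1_13_1_c68 chkEN32_p1_13_1_c69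

/-- certificate tree -/
def treeEN32_p1_13_1_c9 : TE :=
  .sp treeEN32_p1_13_1_c10 treeEN32_p1_13_1_c31 treeEN32_p1_13_1_c44 treeEN32_p1_13_1_c61

theorem chkEN32_p1_13_1_c9 : TE.chk 1 0 treeEN32_p1_13_1_c9 100001 100013 16 100003 100001 4 = true :=
  TE.chk_sp rfl chkEN32_p1_13_1_c10 chkEN32_p1_13_1_c31 chkEN32_p1_13_1_c44 chkEN32_p1_13_1_c61

/-- certificate tree -/
def treeEN32_p1_13_1_c70 : TE :=
  .out

theorem chkEN32_p1_13_1_c70 : TE.chk 1 0 treeEN32_p1_13_1_c70 100001 100013 16 100001 100003 4 = true := by decide +kernel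

/-- certificate tree -/
def treeEN32_p1_13_1_c71 : TE :=
  (.sp .out .out .out .out)

theorem chkEN32_p1_13_1_c71 : TE.chk 1 0 treeEN32_p1_13_1_c71 100001 100013 16 100003 100003 4 = true := by decide +kernel

/-- certificate tree -/
def treeEN32_p1_13_1 : TE :=
  .sp treeEN32_p1_13_1_c0 treeEN32_p1_13_1_c9 treeEN32_p1_13_1_c70 treeEN32_p1_13_1_c71

theorem chkEN32_p1_13_1 : TE.chk 1 0 treeEN32_p1_13_1 100001 100013 16 100001 100001 2 = true :=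
  TE.chk_sp rfl chkEN32_p1_13_1_c0 chkEN32_p1_13_1_c9 chkEN32_p1_13_1_c70 chkEN32_p1_13_1_c71

end Pool.Agent.MaxTerm58
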