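import Pool.Agent.MaxTerm58.DEN32_p1_9_p0
import Pool.Agent.MaxTerm58.DEN32_p1_9_p1

/-! Certificates of the family E (ratio 3/2, mode 0) for the square of half width `1/16` with centre `(1 + 9 i)/16`. -/

namespace Pool.Agent.MaxTerm58

set_option maxRecDepth 100000

/-- certificate tree -/
def treeEN32_p1_9_0_c0 : TE :=
  .out

theorem chkEN32_p1_9_0_c0 : TE.chk 1 0 treeEN32_p1_9_0_c0 100001 100009 16 100001 99997 4 = true := by decide +kernel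

/-- certificate tree -/
def treeEN32_p1_9_0_c1 : TE :=
  .out

theorem chkEN32_p1_9_0_c1 : TE.chk 1 0 treeEN32_p1_9_0_c1 100001 100009 16 100003 99997 4 = true := by decide +kernel

/-- certificate tree -/
def treeEN32_p1_9_0_c3 : TE :=
  .out

theorem chkEN32_p1_9_0_c3 : TE.chk 1 0 treeEN32_p1_9_0_c3 100001 100009 16 100001 99997 8 = true := by decide +kernel

/-- certificate tree -/
def treeEN32_p1_9_0_c6 : TE :=
  .sp treeEN32_p1_9_0_c7 treeEN32_p1_9_0_c8 treeEN32_p1_9_0_c9 treeEN32_p1_9_0_c10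

theorem chkEN32_p1_9_0_c6 : TE.chk 1 0 treeEN32_p1_9_0_c6 100001 100009 16 100003 99999 8 = true :=
  TE.chk_sp rfl chkEN32_p1_9_0_c7 chkEN32_p1_9_0_c8 chkEN32_p1_9_0_c9 chkEN32_p1_9_0_c10

/-- certificate tree -/
def treeEN32_p1_9_0_c2 : TE :=
  .sp treeEN32_p1_9_0_c3 treeEN32_p1_9_0_c4 treeEN32_p1_9_0_c5 treeEN32_p1_9_0_c6

theorem chkEN32_p1_9_0_c2 : TE.chk 1 0 treeEN32_p1_9_0_c2 100001 100009 16 100001 99999 4 = true :=
  TE.chk_sp rfl chkEN32_p1_9_0_c3 chkEN32_p1_9_0_c4 chkEN32_p1_9_0_c5 chkEN32_p1_9_0_c6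

/-- certificate tree -/
def treeEN32_p1_9_0_c13 : TE :=
  .out

theorem chkEN32_p1_9_0_c13 : TE.chk 1 0 treeEN32_p1_9_0_c13 100001 100009 16 100007 99997 8 = true := by decide +kernel

/-- certificate tree -/
def treeEN32_p1_9_0_c16 : TE :=
  .out

theorem chkEN32_p1_9_0_c16 : TE.chk 1 0 treeEN32_p1_9_0_c16 100001 100009 16 100011 99997 16 = true := by decide +kernel

/-- certificate tree -/
def treeEN32_p1_9_0_c17 : TE :=
  .sp treeEN32_p1_9_0_c18 treeEN32_p1_9_0_c19 treeEN32_p1_9_0_c20 treeEN32_p1_9_0_c21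

theorem chkEN32_p1_9_0_c17 : TE.chk 1 0 treeEN32_p1_9_0_c17 100001 100009 16 100009 99999 16 = true :=
  TE.chk_sp rfl chkEN32_p1_9_0_c18 chkEN32_p1_9_0_c19 chkEN32_p1_9_0_c20 chkEN32_p1_9_0_c21

/-- certificate tree -/
def treeEN32_p1_9_0_c22 : TE :=
  .out

theorem chkEN32_p1_9_0_c22 : TE.chk 1 0 treeEN32_p1_9_0_c22 100001 100009 16 100011 99999 16 = true := by decide +kernel

/-- certificate tree -/
def treeEN32_p1_9_0_c14 : TE :=
  .sp treeEN32_p1_9_0_c15 treeEN32_p1_9_0_c16 treeEN32_p1_9_0_c17 treeEN32_p1_9_0_c22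

theorem chkEN32_p1_9_0_c14 : TE.chk 1 0 treeEN32_p1_9_0_c14 100001 100009 16 100005 99999 8 = true :=
  TE.chk_sp rfl chkEN32_p1_9_0_c15 chkEN32_p1_9_0_c16 chkEN32_p1_9_0_c17 chkEN32_p1_9_0_c22

/-- certificate tree -/
def treeEN32_p1_9_0_c23 : TE :=
  .out

theorem chkEN32_p1_9_0_c23 : TE.chk 1 0 treeEN32_p1_9_0_c23 100001 100009 16 100007 99999 8 = true := by decide +kernel

/-- certificate tree -/
def treeEN32_p1_9_0_c11 : TE :=
  .sp treeEN32_p1_9_0_c12 treeEN32_p1_9_0_c13 treeEN32_p1_9_0_c14 treeEN32_p1_9_0_c23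

theorem chkEN32_p1_9_0_c11 : TE.chk 1 0 treeEN32_p1_9_0_c11 100001 100009 16 100003 99999 4 = true :=
  TE.chk_sp rfl chkEN32_p1_9_0_c12 chkEN32_p1_9_0_c13 chkEN32_p1_9_0_c14 chkEN32_p1_9_0_c23

/-- certificate tree -/
def treeEN32_p1_9_0 : TE :=
  .sp treeEN32_p1_9_0_c0 treeEN32_p1_9_0_c1 treeEN32_p1_9_0_c2 treeEN32_p1_9_0_c11

theorem chkEN32_p1_9_0 : TE.chk 1 0 treeEN32_p1_9_0 100001 100009 16 100001 99999 2 = true :=
  TE.chk_sp rfl chkEN32_p1_9_0_c0 chkEN32_p1_9_0_c1 chkEN32_p1_9_0_c2 chkEN32_p1_9_0_c11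

/-- certificate tree -/
def treeEN32_p1_9_1_c2 : TE :=
  .sp treeEN32_p1_9_1_c3 treeEN32_p1_9_1_c4 treeEN32_p1_9_1_c5 treeEN32_p1_9_1_c6

theorem chkEN32_p1_9_1_c2 : TE.chk 1 0 treeEN32_p1_9_1_c2 100001 100009 16 100003 100001 8 = true :=
  TE.chk_sp rfl chkEN32_p1_9_1_c3 chkEN32_p1_9_1_c4 chkEN32_p1_9_1_c5 chkEN32_p1_9_1_c6

/-- certificate tree -/
def treeEN32_p1_9_1_c7 : TE :=
  .out

theorem chkEN32_p1_9_1_c7 : TE.chk 1 0 treeEN32_p1_9_1_c7 100001 100009 16 100001 100003 8 = true := by decide +kernel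

/-- certificate tree -/
def treeEN32_p1_9_1_c0 : TE :=
  .sp treeEN32_p1_9_1_c1 treeEN32_p1_9_1_c2 treeEN32_p1_9_1_c7 treeEN32_p1_9_1_c8

theorem chkEN32_p1_9_1_c0 : TE.chk 1 0 treeEN32_p1_9_1_c0 100001 100009 16 100001 100001 4 = true :=
  TE.chk_sp rfl chkEN32_p1_9_1_c1 chkEN32_p1_9_1_c2 chkEN32_p1_9_1_c7 chkEN32_p1_9_1_c8

/-- certificate tree -/
def treeEN32_p1_9_1_c11 : TE :=
  .sp treeEN32_p1_9_1_c12 treeEN32_p1_9_1_c13 treeEN32_p1_9_1_c14 treeEN32_p1_9_1_c15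

theorem chkEN32_p1_9_1_c11 : TE.chk 1 0 treeEN32_p1_9_1_c11 100001 100009 16 100009 100001 16 = true :=
  TE.chk_sp rfl chkEN32_p1_9_1_c12 chkEN32_p1_9_1_c13 chkEN32_p1_9_1_c14 chkEN32_p1_9_1_c15

/-- certificate tree -/
def treeEN32_p1_9_1_c16 : TE :=
  .out

theorem chkEN32_p1_9_1_c16 : TE.chk 1 0 treeEN32_p1_9_1_c16 100001 100009 16 100011 100001 16 = true := by decide +kernel

/-- certificate tree -/
def treeEN32_p1_9_1_c18 : TE :=
  .out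

theorem chkEN32_p1_9_1_c18 : TE.chk 1 0 treeEN32_p1_9_1_c18 100001 100009 16 100011 100003 16 = true := by decide +kernel

/-- certificate tree -/
def treeEN32_p1_9_1_c10 : TE :=
  .sp treeEN32_p1_9_1_c11 treeEN32_p1_9_1_c16 treeEN32_p1_9_1_c17 treeEN32_p1_9_1_c18

theorem chkEN32_p1_9_1_c10 : TE.chk 1 0 treeEN32_p1_9_1_c10 100001 100009 16 100005 100001 8 = true :=
  TE.chk_sp rfl chkEN32_p1_9_1_c11 chkEN32_p1_9_1_c16 chkEN32_p1_9_1_c17 chkEN32_p1_9_1_c18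

/-- certificate tree -/
def treeEN32_p1_9_1_c19 : TE :=
  .out

theorem chkEN32_p1_9_1_c19 : TE.chk 1 0 treeEN32_p1_9_1_c19 100001 100009 16 100007 100001 8 = true := by decide +kernel

/-- certificate tree -/
def treeEN32_p1_9_1_c21 : TE :=
  .out

theorem chkEN32_p1_9_1_c21 : TE.chk 1 0 treeEN32_p1_9_1_c21 100001 100009 16 100007 100003 8 = true := by decide +kernel

/-- certificate tree -/
def treeEN32_p1_9_1_c9 : TE :=
  .sp treeEN32_p1_9_1_c10 treeEN32_p1_9_1_c19 treeEN32_p1_9_1_c20 treeEN32_p1_9_1_c21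

theorem chkEN32_p1_9_1_c9 : TE.chk 1 0 treeEN32_p1_9_1_c9 100001 100009 16 100003 100001 4 = true :=
  TE.chk_sp rfl chkEN32_p1_9_1_c10 chkEN32_p1_9_1_c19 chkEN32_p1_9_1_c20 chkEN32_p1_9_1_c21

/-- certificate tree -/
def treeEN32_p1_9_1_c22 : TE :=
  .out

theorem chkEN32_p1_9_1_c22 : TE.chk 1 0 treeEN32_p1_9_1_c22 100001 100009 16 100001 100003 4 = true := by decide +kernel

/-- certificate tree -/
def treeEN32_p1_9_1_c23 : TE :=
  .out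

theorem chkEN32_p1_9_1_c23 : TE.chk 1 0 treeEN32_p1_9_1_c23 100001 100009 16 100003 100003 4 = true := by decide +kernel

/-- certificate tree -/
def treeEN32_p1_9_1 : TE :=
  .sp treeEN32_p1_9_1_c0 treeEN32_p1_9_1_c9 treeEN32_p1_9_1_c22 treeEN32_p1_9_1_c23

theorem chkEN32_p1_9_1 : TE.chk 1 0 treeEN32_p1_9_1 100001 100009 16 100001 100001 2 = true :=
  TE.chk_sp rfl chkEN32_p1_9_1_c0 chkEN32_p1_9_1_c9 chkEN32_p1_9_1_c22 chkEN32_p1_9_1_c23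

end Pool.Agent.MaxTerm58
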