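import Pool.Agent.MaxTerm58.EChunk

/-! Certificates of the family E (ratio 3/2, mode 0) for the square of half width `1/16` with centre `(3 + 11 i)/16`. -/

namespace Pool.Agent.MaxTerm58

set_option maxRecDepth 100000

/-- certificate tree -/
def treeEN32_p3_11_1_c20 : TE :=
  (.sp (.lf 9288 39 8 14 16 36 [2614080675088533154, 13008133047286597502, 39579034329467684948,
  84634994229483504858, 39580637005007389696, 13009062684360278977, 524713363478512969]
  [22051223111253985189, 54332695388143586331, 123309399639851111742, 1004087263573111046836,
  1152923871676440608572, 1139539507492445322626, 1051269712908720115516, 965953892790159383409,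
  878187994352984369273, 332784180665760185434, 247774047389202084779, 2202143435622925]
  [161733943364082304651, 230909000543993169649, 906773157368150984610, 1051267199011821029291,
  1100212644049434281731, 1134926753434632553942, 1147753237582496761386, 1151932705580163106232,
  1154400936630142207210, 1146583002961973445687, 1139539507490945598988, 1124569743884112724984,
  1100214509370905560351, 1086631756523642914209, 1051269712907813619050, 481727404425638414548,
  393672940536149674252, 305618415898610730816, 247774047388349597218, 176562907085663732873,
  115457803458680816788]) .out .out .out)

theorem chkEN32_p3_11_1_c20 : TE.chk 1 0 treeEN32_p3_11_1_c20 100003 100011 16 100011 100007 16 = true := by decide +kernel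

end Pool.Agent.MaxTerm58
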