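import Pool.Agent.MaxTerm58.DEN32_p3_11_p0
import Pool.Agent.MaxTerm58.DEN32_p3_11_p1
import Pool.Agent.MaxTerm58.DEN32_p3_11_p2

/-! Certificates of the family E (ratio 3/2, mode 0) for the square of half width `1/16` with centre `(3 + 11 i)/16`. -/

namespace Pool.Agent.MaxTerm58

set_option maxRecDepth 100000

/-- certificate tree -/
def treeEN32_p3_11_0_c0 : TE :=
  .out

theorem chkEN32_p3_11_0_c0 : TE.chk 1 0 treeEN32_p3_11_0_c0 100003 100011 16 100001 99997 4 = true := by decide +kernel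

/-- certificate tree -/
def treeEN32_p3_11_0_c1 : TE :=
  (.sp .out .out .out .out)

theorem chkEN32_p3_11_0_c1 : TE.chk 1 0 treeEN32_p3_11_0_c1 100003 100011 16 100003 99997 4 = true := by decide +kernel

/-- certificate tree -/
def treeEN32_p3_11_0_c3 : TE :=
  .out

theorem chkEN32_p3_11_0_c3 : TE.chk 1 0 treeEN32_p3_11_0_c3 100003 100011 16 100001 99997 8 = true := by decide +kernel

/-- certificate tree -/
def treeEN32_p3_11_0_c6 : TE :=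
  .sp treeEN32_p3_11_0_c7 treeEN32_p3_11_0_c8 treeEN32_p3_11_0_c9 treeEN32_p3_11_0_c10

theorem chkEN32_p3_11_0_c6 : TE.chk 1 0 treeEN32_p3_11_0_c6 100003 100011 16 100003 99999 8 = true :=
  TE.chk_sp rfl chkEN32_p3_11_0_c7 chkEN32_p3_11_0_c8 chkEN32_p3_11_0_c9 chkEN32_p3_11_0_c10

/-- certificate tree -/
def treeEN32_p3_11_0_c2 : TE :=
  .sp treeEN32_p3_11_0_c3 treeEN32_p3_11_0_c4 treeEN32_p3_11_0_c5 treeEN32_p3_11_0_c6

theorem chkEN32_p3_11_0_c2 : TE.chk 1 0 treeEN32_p3_11_0_c2 100003 100011 16 100001 99999 4 = true :=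
  TE.chk_sp rfl chkEN32_p3_11_0_c3 chkEN32_p3_11_0_c4 chkEN32_p3_11_0_c5 chkEN32_p3_11_0_c6

/-- certificate tree -/
def treeEN32_p3_11_0_c13 : TE :=
  .out

theorem chkEN32_p3_11_0_c13 : TE.chk 1 0 treeEN32_p3_11_0_c13 100003 100011 16 100009 99993 16 = true := by decide +kernel

/-- certificate tree -/
def treeEN32_p3_11_0_c12 : TE :=
  .sp treeEN32_p3_11_0_c13 treeEN32_p3_11_0_c14 treeEN32_p3_11_0_c15 treeEN32_p3_11_0_c16

theorem chkEN32_p3_11_0_c12 : TE.chk 1 0 treeEN32_p3_11_0_c12 100003 100011 16 100005 99997 8 = true :=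
  TE.chk_sp rfl chkEN32_p3_11_0_c13 chkEN32_p3_11_0_c14 chkEN32_p3_11_0_c15 chkEN32_p3_11_0_c16

/-- certificate tree -/
def treeEN32_p3_11_0_c17 : TE :=
  .out

theorem chkEN32_p3_11_0_c17 : TE.chk 1 0 treeEN32_p3_11_0_c17 100003 100011 16 100007 99997 8 = true := by decide +kernel

/-- certificate tree -/
def treeEN32_p3_11_0_c19 : TE :=
  .sp treeEN32_p3_11_0_c20 treeEN32_p3_11_0_c21 treeEN32_p3_11_0_c22 treeEN32_p3_11_0_c23

theorem chkEN32_p3_11_0_c19 : TE.chk 1 0 treeEN32_p3_11_0_c19 100003 100011 16 100009 99997 16 = true :=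
  TE.chk_sp rfl chkEN32_p3_11_0_c20 chkEN32_p3_11_0_c21 chkEN32_p3_11_0_c22 chkEN32_p3_11_0_c23

/-- certificate tree -/
def treeEN32_p3_11_0_c24 : TE :=
  .sp treeEN32_p3_11_0_c25 treeEN32_p3_11_0_c26 treeEN32_p3_11_0_c27 treeEN32_p3_11_0_c28

theorem chkEN32_p3_11_0_c24 : TE.chk 1 0 treeEN32_p3_11_0_c24 100003 100011 16 100011 99997 16 = true :=
  TE.chk_sp rfl chkEN32_p3_11_0_c25 chkEN32_p3_11_0_c26 chkEN32_p3_11_0_c27 chkEN32_p3_11_0_c28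

/-- certificate tree -/
def treeEN32_p3_11_0_c29 : TE :=
  .sp treeEN32_p3_11_0_c30 treeEN32_p3_11_0_c31 treeEN32_p3_11_0_c32 treeEN32_p3_11_0_c33

theorem chkEN32_p3_11_0_c29 : TE.chk 1 0 treeEN32_p3_11_0_c29 100003 100011 16 100009 99999 16 = true :=
  TE.chk_sp rfl chkEN32_p3_11_0_c30 chkEN32_p3_11_0_c31 chkEN32_p3_11_0_c32 chkEN32_p3_11_0_c33

/-- certificate tree -/
def treeEN32_p3_11_0_c34 : TE :=
  .sp treeEN32_p3_11_0_c35 treeEN32_p3_11_0_c36 treeEN32_p3_11_0_c37 treeEN32_p3_11_0_c38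

theorem chkEN32_p3_11_0_c34 : TE.chk 1 0 treeEN32_p3_11_0_c34 100003 100011 16 100011 99999 16 = true :=
  TE.chk_sp rfl chkEN32_p3_11_0_c35 chkEN32_p3_11_0_c36 chkEN32_p3_11_0_c37 chkEN32_p3_11_0_c38

/-- certificate tree -/
def treeEN32_p3_11_0_c18 : TE :=
  .sp treeEN32_p3_11_0_c19 treeEN32_p3_11_0_c24 treeEN32_p3_11_0_c29 treeEN32_p3_11_0_c34

theorem chkEN32_p3_11_0_c18 : TE.chk 1 0 treeEN32_p3_11_0_c18 100003 100011 16 100005 99999 8 = true :=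
  TE.chk_sp rfl chkEN32_p3_11_0_c19 chkEN32_p3_11_0_c24 chkEN32_p3_11_0_c29 chkEN32_p3_11_0_c34

/-- certificate tree -/
def treeEN32_p3_11_0_c11 : TE :=
  .sp treeEN32_p3_11_0_c12 treeEN32_p3_11_0_c17 treeEN32_p3_11_0_c18 treeEN32_p3_11_0_c39

theorem chkEN32_p3_11_0_c11 : TE.chk 1 0 treeEN32_p3_11_0_c11 100003 100011 16 100003 99999 4 = true :=
  TE.chk_sp rfl chkEN32_p3_11_0_c12 chkEN32_p3_11_0_c17 chkEN32_p3_11_0_c18 chkEN32_p3_11_0_c39

/-- certificate tree -/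
def treeEN32_p3_11_0 : TE :=
  .sp treeEN32_p3_11_0_c0 treeEN32_p3_11_0_c1 treeEN32_p3_11_0_c2 treeEN32_p3_11_0_c11

theorem chkEN32_p3_11_0 : TE.chk 1 0 treeEN32_p3_11_0 100003 100011 16 100001 99999 2 = true :=
  TE.chk_sp rfl chkEN32_p3_11_0_c0 chkEN32_p3_11_0_c1 chkEN32_p3_11_0_c2 chkEN32_p3_11_0_c11

/-- certificate tree -/
def treeEN32_p3_11_1_c2 : TE :=
  .sp treeEN32_p3_11_1_c3 treeEN32_p3_11_1_c4 treeEN32_p3_11_1_c5 treeEN32_p3_11_1_c6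

theorem chkEN32_p3_11_1_c2 : TE.chk 1 0 treeEN32_p3_11_1_c2 100003 100011 16 100003 100001 8 = true :=
  TE.chk_sp rfl chkEN32_p3_11_1_c3 chkEN32_p3_11_1_c4 chkEN32_p3_11_1_c5 chkEN32_p3_11_1_c6

/-- certificate tree -/
def treeEN32_p3_11_1_c7 : TE :=
  .out

theorem chkEN32_p3_11_1_c7 : TE.chk 1 0 treeEN32_p3_11_1_c7 100003 100011 16 100001 100003 8 = true := by decide +kernel

/-- certificate tree -/
def treeEN32_p3_11_1_c0 : TE :=
  .sp treeEN32_p3_11_1_c1 treeEN32_p3_11_1_c2 treeEN32_p3_11_1_c7 treeEN32_p3_11_1_c8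

theorem chkEN32_p3_11_1_c0 : TE.chk 1 0 treeEN32_p3_11_1_c0 100003 100011 16 100001 100001 4 = true :=
  TE.chk_sp rfl chkEN32_p3_11_1_c1 chkEN32_p3_11_1_c2 chkEN32_p3_11_1_c7 chkEN32_p3_11_1_c8

/-- certificate tree -/
def treeEN32_p3_11_1_c10 : TE :=
  .sp treeEN32_p3_11_1_c11 treeEN32_p3_11_1_c12 treeEN32_p3_11_1_c13 treeEN32_p3_11_1_c14

theorem chkEN32_p3_11_1_c10 : TE.chk 1 0 treeEN32_p3_11_1_c10 100003 100011 16 100005 100001 8 = true :=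
  TE.chk_sp rfl chkEN32_p3_11_1_c11 chkEN32_p3_11_1_c12 chkEN32_p3_11_1_c13 chkEN32_p3_11_1_c14

/-- certificate tree -/
def treeEN32_p3_11_1_c19 : TE :=
  .out

theorem chkEN32_p3_11_1_c19 : TE.chk 1 0 treeEN32_p3_11_1_c19 100003 100011 16 100009 100007 16 = true := by decide +kernel

/-- certificate tree -/
def treeEN32_p3_11_1_c16 : TE :=
  .sp treeEN32_p3_11_1_c17 treeEN32_p3_11_1_c18 treeEN32_p3_11_1_c19 treeEN32_p3_11_1_c20

theorem chkEN32_p3_11_1_c16 : TE.chk 1 0 treeEN32_p3_11_1_c16 100003 100011 16 100005 100003 8 = true :=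
  TE.chk_sp rfl chkEN32_p3_11_1_c17 chkEN32_p3_11_1_c18 chkEN32_p3_11_1_c19 chkEN32_p3_11_1_c20

/-- certificate tree -/
def treeEN32_p3_11_1_c21 : TE :=
  .out

theorem chkEN32_p3_11_1_c21 : TE.chk 1 0 treeEN32_p3_11_1_c21 100003 100011 16 100007 100003 8 = true := by decide +kernel

/-- certificate tree -/
def treeEN32_p3_11_1_c9 : TE :=
  .sp treeEN32_p3_11_1_c10 treeEN32_p3_11_1_c15 treeEN32_p3_11_1_c16 treeEN32_p3_11_1_c21

theorem chkEN32_p3_11_1_c9 : TE.chk 1 0 treeEN32_p3_11_1_c9 100003 100011 16 100003 100001 4 = true :=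
  TE.chk_sp rfl chkEN32_p3_11_1_c10 chkEN32_p3_11_1_c15 chkEN32_p3_11_1_c16 chkEN32_p3_11_1_c21

/-- certificate tree -/
def treeEN32_p3_11_1_c22 : TE :=
  .out

theorem chkEN32_p3_11_1_c22 : TE.chk 1 0 treeEN32_p3_11_1_c22 100003 100011 16 100001 100003 4 = true := by decide +kernel

/-- certificate tree -/
def treeEN32_p3_11_1_c23 : TE :=
  (.sp .out .out .out .out)

theorem chkEN32_p3_11_1_c23 : TE.chk 1 0 treeEN32_p3_11_1_c23 100003 100011 16 100003 100003 4 = true := by decide +kernel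

/-- certificate tree -/
def treeEN32_p3_11_1 : TE :=
  .sp treeEN32_p3_11_1_c0 treeEN32_p3_11_1_c9 treeEN32_p3_11_1_c22 treeEN32_p3_11_1_c23

theorem chkEN32_p3_11_1 : TE.chk 1 0 treeEN32_p3_11_1 100003 100011 16 100001 100001 2 = true :=
  TE.chk_sp rfl chkEN32_p3_11_1_c0 chkEN32_p3_11_1_c9 chkEN32_p3_11_1_c22 chkEN32_p3_11_1_c23

end Pool.Agent.MaxTerm58
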