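import Pool.Agent.MaxTerm58.DEN32_p3_13_p0
import Pool.Agent.MaxTerm58.DEN32_p3_13_p1
import Pool.Agent.MaxTerm58.DEN32_p3_13_p2
import Pool.Agent.MaxTerm58.DEN32_p3_13_p3
import Pool.Agent.MaxTerm58.DEN32_p3_13_p4
import Pool.Agent.MaxTerm58.DEN32_p3_13_p5
import Pool.Agent.MaxTerm58.DEN32_p3_13_p6

/-! Certificates of the family E (ratio 3/2, mode 0) for the square of half width `1/16` with centre `(3 + 13 i)/16`. -/

namespace Pool.Agent.MaxTerm58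

set_option maxRecDepth 100000

/-- certificate tree -/
def treeEN32_p3_13_0_c0 : TE :=
  .out

theorem chkEN32_p3_13_0_c0 : TE.chk 1 0 treeEN32_p3_13_0_c0 100003 100013 16 100001 99997 4 = true := by decide +kernel

/-- certificate tree -/
def treeEN32_p3_13_0_c1 : TE :=
  (.sp .out .out .out .out)

theorem chkEN32_p3_13_0_c1 : TE.chk 1 0 treeEN32_p3_13_0_c1 100003 100013 16 100003 99997 4 = true := by decide +kernel

/-- certificate tree -/
def treeEN32_p3_13_0_c3 : TE :=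
  .out

theorem chkEN32_p3_13_0_c3 : TE.chk 1 0 treeEN32_p3_13_0_c3 100003 100013 16 100001 99997 8 = true := by decide +kernel

/-- certificate tree -/
def treeEN32_p3_13_0_c2 : TE :=
  .sp treeEN32_p3_13_0_c3 treeEN32_p3_13_0_c4 treeEN32_p3_13_0_c5 treeEN32_p3_13_0_c6

theorem chkEN32_p3_13_0_c2 : TE.chk 1 0 treeEN32_p3_13_0_c2 100003 100013 16 100001 99999 4 = true :=
  TE.chk_sp rfl chkEN32_p3_13_0_c3 chkEN32_p3_13_0_c4 chkEN32_p3_13_0_c5 chkEN32_p3_13_0_c6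

/-- certificate tree -/
def treeEN32_p3_13_0_c9 : TE :=
  .out

theorem chkEN32_p3_13_0_c9 : TE.chk 1 0 treeEN32_p3_13_0_c9 100003 100013 16 100009 99993 16 = true := by decide +kernel

/-- certificate tree -/
def treeEN32_p3_13_0_c11 : TE :=
  .out

theorem chkEN32_p3_13_0_c11 : TE.chk 1 0 treeEN32_p3_13_0_c11 100003 100013 16 100021 99985 32 = true := by decide +kernel

/-- certificate tree -/
def treeEN32_p3_13_0_c12 : TE :=
  .out

theorem chkEN32_p3_13_0_c12 : TE.chk 1 0 treeEN32_p3_13_0_c12 100003 100013 16 100023 99985 32 = true := by decide +kernel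

/-- certificate tree -/
def treeEN32_p3_13_0_c14 : TE :=
  .sq treeEN32_p3_13_0_c15 treeEN32_p3_13_0_c16 treeEN32_p3_13_0_c17 treeEN32_p3_13_0_c18

theorem chkEN32_p3_13_0_c14 : TE.chk 1 0 treeEN32_p3_13_0_c14 100003 100013 16 100023 99987 32 = true :=
  TE.chk_sq rfl chkEN32_p3_13_0_c15 chkEN32_p3_13_0_c16 chkEN32_p3_13_0_c17 chkEN32_p3_13_0_c18

/-- certificate tree -/
def treeEN32_p3_13_0_c10 : TE :=
  .sp treeEN32_p3_13_0_c11 treeEN32_p3_13_0_c12 treeEN32_p3_13_0_c13 treeEN32_p3_13_0_c14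

theorem chkEN32_p3_13_0_c10 : TE.chk 1 0 treeEN32_p3_13_0_c10 100003 100013 16 100011 99993 16 = true :=
  TE.chk_sp rfl chkEN32_p3_13_0_c11 chkEN32_p3_13_0_c12 chkEN32_p3_13_0_c13 chkEN32_p3_13_0_c14

/-- certificate tree -/
def treeEN32_p3_13_0_c19 : TE :=
  .sq treeEN32_p3_13_0_c20 treeEN32_p3_13_0_c21 treeEN32_p3_13_0_c22 treeEN32_p3_13_0_c23

theorem chkEN32_p3_13_0_c19 : TE.chk 1 0 treeEN32_p3_13_0_c19 100003 100013 16 100009 99995 16 = true :=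
  TE.chk_sq rfl chkEN32_p3_13_0_c20 chkEN32_p3_13_0_c21 chkEN32_p3_13_0_c22 chkEN32_p3_13_0_c23

/-- certificate tree -/
def treeEN32_p3_13_0_c24 : TE :=
  .sp treeEN32_p3_13_0_c25 treeEN32_p3_13_0_c26 treeEN32_p3_13_0_c27 treeEN32_p3_13_0_c28

theorem chkEN32_p3_13_0_c24 : TE.chk 1 0 treeEN32_p3_13_0_c24 100003 100013 16 100011 99995 16 = true :=
  TE.chk_sp rfl chkEN32_p3_13_0_c25 chkEN32_p3_13_0_c26 chkEN32_p3_13_0_c27 chkEN32_p3_13_0_c28

/-- certificate tree -/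
def treeEN32_p3_13_0_c8 : TE :=
  .sp treeEN32_p3_13_0_c9 treeEN32_p3_13_0_c10 treeEN32_p3_13_0_c19 treeEN32_p3_13_0_c24

theorem chkEN32_p3_13_0_c8 : TE.chk 1 0 treeEN32_p3_13_0_c8 100003 100013 16 100005 99997 8 = true :=
  TE.chk_sp rfl chkEN32_p3_13_0_c9 chkEN32_p3_13_0_c10 chkEN32_p3_13_0_c19 chkEN32_p3_13_0_c24

/-- certificate tree -/
def treeEN32_p3_13_0_c31 : TE :=
  .out

theorem chkEN32_p3_13_0_c31 : TE.chk 1 0 treeEN32_p3_13_0_c31 100003 100013 16 100015 99993 16 = true := by decide +kernel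

/-- certificate tree -/
def treeEN32_p3_13_0_c34 : TE :=
  .out

theorem chkEN32_p3_13_0_c34 : TE.chk 1 0 treeEN32_p3_13_0_c34 100005 100025 32 100025 99989 32 = true := by decide +kernel

/-- certificate tree -/
def treeEN32_p3_13_0_c35 : TE :=
  .out

theorem chkEN32_p3_13_0_c35 : TE.chk 1 0 treeEN32_p3_13_0_c35 100007 100025 32 100025 99989 32 = true := by decide +kernel

/-- certificate tree -/
def treeEN32_p3_13_0_c33 : TE :=
  .sq treeEN32_p3_13_0_c34 treeEN32_p3_13_0_c35 treeEN32_p3_13_0_c36 treeEN32_p3_13_0_c37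

theorem chkEN32_p3_13_0_c33 : TE.chk 1 0 treeEN32_p3_13_0_c33 100003 100013 16 100025 99989 32 = true :=
  TE.chk_sq rfl chkEN32_p3_13_0_c34 chkEN32_p3_13_0_c35 chkEN32_p3_13_0_c36 chkEN32_p3_13_0_c37

/-- certificate tree -/
def treeEN32_p3_13_0_c38 : TE :=
  .out

theorem chkEN32_p3_13_0_c38 : TE.chk 1 0 treeEN32_p3_13_0_c38 100003 100013 16 100027 99989 32 = true := by decide +kernel

/-- certificate tree -/
def treeEN32_p3_13_0_c39 : TE :=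
  .sq treeEN32_p3_13_0_c40 treeEN32_p3_13_0_c41 treeEN32_p3_13_0_c42 treeEN32_p3_13_0_c43

theorem chkEN32_p3_13_0_c39 : TE.chk 1 0 treeEN32_p3_13_0_c39 100003 100013 16 100025 99991 32 = true :=
  TE.chk_sq rfl chkEN32_p3_13_0_c40 chkEN32_p3_13_0_c41 chkEN32_p3_13_0_c42 chkEN32_p3_13_0_c43

/-- certificate tree -/
def treeEN32_p3_13_0_c32 : TE :=
  .sp treeEN32_p3_13_0_c33 treeEN32_p3_13_0_c38 treeEN32_p3_13_0_c39 treeEN32_p3_13_0_c44

theorem chkEN32_p3_13_0_c32 : TE.chk 1 0 treeEN32_p3_13_0_c32 100003 100013 16 100013 99995 16 = true :=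
  TE.chk_sp rfl chkEN32_p3_13_0_c33 chkEN32_p3_13_0_c38 chkEN32_p3_13_0_c39 chkEN32_p3_13_0_c44

/-- certificate tree -/
def treeEN32_p3_13_0_c45 : TE :=
  .out

theorem chkEN32_p3_13_0_c45 : TE.chk 1 0 treeEN32_p3_13_0_c45 100003 100013 16 100015 99995 16 = true := by decide +kernel

/-- certificate tree -/
def treeEN32_p3_13_0_c29 : TE :=
  .sp treeEN32_p3_13_0_c30 treeEN32_p3_13_0_c31 treeEN32_p3_13_0_c32 treeEN32_p3_13_0_c45

theorem chkEN32_p3_13_0_c29 : TE.chk 1 0 treeEN32_p3_13_0_c29 100003 100013 16 100007 99997 8 = true :=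
  TE.chk_sp rfl chkEN32_p3_13_0_c30 chkEN32_p3_13_0_c31 chkEN32_p3_13_0_c32 chkEN32_p3_13_0_c45

/-- certificate tree -/
def treeEN32_p3_13_0_c48 : TE :=
  .sq treeEN32_p3_13_0_c49 treeEN32_p3_13_0_c50 treeEN32_p3_13_0_c51 treeEN32_p3_13_0_c52

theorem chkEN32_p3_13_0_c48 : TE.chk 1 0 treeEN32_p3_13_0_c48 100003 100013 16 100011 99997 16 = true :=
  TE.chk_sq rfl chkEN32_p3_13_0_c49 chkEN32_p3_13_0_c50 chkEN32_p3_13_0_c51 chkEN32_p3_13_0_c52

/-- certificate tree -/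
def treeEN32_p3_13_0_c53 : TE :=
  .sq treeEN32_p3_13_0_c54 treeEN32_p3_13_0_c55 treeEN32_p3_13_0_c56 treeEN32_p3_13_0_c57

theorem chkEN32_p3_13_0_c53 : TE.chk 1 0 treeEN32_p3_13_0_c53 100003 100013 16 100009 99999 16 = true :=
  TE.chk_sq rfl chkEN32_p3_13_0_c54 chkEN32_p3_13_0_c55 chkEN32_p3_13_0_c56 chkEN32_p3_13_0_c57

/-- certificate tree -/
def treeEN32_p3_13_0_c58 : TE :=
  .sq treeEN32_p3_13_0_c59 treeEN32_p3_13_0_c60 treeEN32_p3_13_0_c61 treeEN32_p3_13_0_c62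

theorem chkEN32_p3_13_0_c58 : TE.chk 1 0 treeEN32_p3_13_0_c58 100003 100013 16 100011 99999 16 = true :=
  TE.chk_sq rfl chkEN32_p3_13_0_c59 chkEN32_p3_13_0_c60 chkEN32_p3_13_0_c61 chkEN32_p3_13_0_c62

/-- certificate tree -/
def treeEN32_p3_13_0_c46 : TE :=
  .sp treeEN32_p3_13_0_c47 treeEN32_p3_13_0_c48 treeEN32_p3_13_0_c53 treeEN32_p3_13_0_c58

theorem chkEN32_p3_13_0_c46 : TE.chk 1 0 treeEN32_p3_13_0_c46 100003 100013 16 100005 99999 8 = true :=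
  TE.chk_sp rfl chkEN32_p3_13_0_c47 chkEN32_p3_13_0_c48 chkEN32_p3_13_0_c53 chkEN32_p3_13_0_c58

/-- certificate tree -/
def treeEN32_p3_13_0_c64 : TE :=
  .sp treeEN32_p3_13_0_c65 treeEN32_p3_13_0_c66 treeEN32_p3_13_0_c67 treeEN32_p3_13_0_c68

theorem chkEN32_p3_13_0_c64 : TE.chk 1 0 treeEN32_p3_13_0_c64 100003 100013 16 100013 99997 16 = true :=
  TE.chk_sp rfl chkEN32_p3_13_0_c65 chkEN32_p3_13_0_c66 chkEN32_p3_13_0_c67 chkEN32_p3_13_0_c68

/-- certificate tree -/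
def treeEN32_p3_13_0_c69 : TE :=
  .out

theorem chkEN32_p3_13_0_c69 : TE.chk 1 0 treeEN32_p3_13_0_c69 100003 100013 16 100015 99997 16 = true := by decide +kernel

/-- certificate tree -/
def treeEN32_p3_13_0_c73 : TE :=
  .out

theorem chkEN32_p3_13_0_c73 : TE.chk 1 0 treeEN32_p3_13_0_c73 100005 100025 32 100027 99997 32 = true := by decide +kernel

/-- certificate tree -/
def treeEN32_p3_13_0_c74 : TE :=
  .out

theorem chkEN32_p3_13_0_c74 : TE.chk 1 0 treeEN32_p3_13_0_c74 100007 100025 32 100027 99997 32 = true := by decide +kernel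

/-- certificate tree -/
def treeEN32_p3_13_0_c72 : TE :=
  .sq treeEN32_p3_13_0_c73 treeEN32_p3_13_0_c74 treeEN32_p3_13_0_c75 treeEN32_p3_13_0_c76

theorem chkEN32_p3_13_0_c72 : TE.chk 1 0 treeEN32_p3_13_0_c72 100003 100013 16 100027 99997 32 = true :=
  TE.chk_sq rfl chkEN32_p3_13_0_c73 chkEN32_p3_13_0_c74 chkEN32_p3_13_0_c75 chkEN32_p3_13_0_c76

/-- certificate tree -/
def treeEN32_p3_13_0_c78 : TE :=
  .sp treeEN32_p3_13_0_c79 treeEN32_p3_13_0_c80 treeEN32_p3_13_0_c81 treeEN32_p3_13_0_c82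

theorem chkEN32_p3_13_0_c78 : TE.chk 1 0 treeEN32_p3_13_0_c78 100003 100013 16 100027 99999 32 = true :=
  TE.chk_sp rfl chkEN32_p3_13_0_c79 chkEN32_p3_13_0_c80 chkEN32_p3_13_0_c81 chkEN32_p3_13_0_c82

/-- certificate tree -/
def treeEN32_p3_13_0_c70 : TE :=
  .sp treeEN32_p3_13_0_c71 treeEN32_p3_13_0_c72 treeEN32_p3_13_0_c77 treeEN32_p3_13_0_c78

theorem chkEN32_p3_13_0_c70 : TE.chk 1 0 treeEN32_p3_13_0_c70 100003 100013 16 100013 99999 16 = true :=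
  TE.chk_sp rfl chkEN32_p3_13_0_c71 chkEN32_p3_13_0_c72 chkEN32_p3_13_0_c77 chkEN32_p3_13_0_c78

/-- certificate tree -/
def treeEN32_p3_13_0_c83 : TE :=
  .out

theorem chkEN32_p3_13_0_c83 : TE.chk 1 0 treeEN32_p3_13_0_c83 100003 100013 16 100015 99999 16 = true := by decide +kernel

/-- certificate tree -/
def treeEN32_p3_13_0_c63 : TE :=
  .sp treeEN32_p3_13_0_c64 treeEN32_p3_13_0_c69 treeEN32_p3_13_0_c70 treeEN32_p3_13_0_c83

theorem chkEN32_p3_13_0_c63 : TE.chk 1 0 treeEN32_p3_13_0_c63 100003 100013 16 100007 99999 8 = true :=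
  TE.chk_sp rfl chkEN32_p3_13_0_c64 chkEN32_p3_13_0_c69 chkEN32_p3_13_0_c70 chkEN32_p3_13_0_c83

/-- certificate tree -/
def treeEN32_p3_13_0_c7 : TE :=
  .sp treeEN32_p3_13_0_c8 treeEN32_p3_13_0_c29 treeEN32_p3_13_0_c46 treeEN32_p3_13_0_c63

theorem chkEN32_p3_13_0_c7 : TE.chk 1 0 treeEN32_p3_13_0_c7 100003 100013 16 100003 99999 4 = true :=
  TE.chk_sp rfl chkEN32_p3_13_0_c8 chkEN32_p3_13_0_c29 chkEN32_p3_13_0_c46 chkEN32_p3_13_0_c63

/-- certificate tree -/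
def treeEN32_p3_13_0 : TE :=
  .sp treeEN32_p3_13_0_c0 treeEN32_p3_13_0_c1 treeEN32_p3_13_0_c2 treeEN32_p3_13_0_c7

theorem chkEN32_p3_13_0 : TE.chk 1 0 treeEN32_p3_13_0 100003 100013 16 100001 99999 2 = true :=
  TE.chk_sp rfl chkEN32_p3_13_0_c0 chkEN32_p3_13_0_c1 chkEN32_p3_13_0_c2 chkEN32_p3_13_0_c7

/-- certificate tree -/
def treeEN32_p3_13_1_c3 : TE :=
  .out

theorem chkEN32_p3_13_1_c3 : TE.chk 1 0 treeEN32_p3_13_1_c3 100003 100013 16 100001 100003 8 = true := by decide +kernel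

/-- certificate tree -/
def treeEN32_p3_13_1_c0 : TE :=
  .sp treeEN32_p3_13_1_c1 treeEN32_p3_13_1_c2 treeEN32_p3_13_1_c3 treeEN32_p3_13_1_c4

theorem chkEN32_p3_13_1_c0 : TE.chk 1 0 treeEN32_p3_13_1_c0 100003 100013 16 100001 100001 4 = true :=
  TE.chk_sp rfl chkEN32_p3_13_1_c1 chkEN32_p3_13_1_c2 chkEN32_p3_13_1_c3 chkEN32_p3_13_1_c4

/-- certificate tree -/
def treeEN32_p3_13_1_c8 : TE :=
  .sq treeEN32_p3_13_1_c9 treeEN32_p3_13_1_c10 treeEN32_p3_13_1_c11 treeEN32_p3_13_1_c12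

theorem chkEN32_p3_13_1_c8 : TE.chk 1 0 treeEN32_p3_13_1_c8 100003 100013 16 100011 100001 16 = true :=
  TE.chk_sq rfl chkEN32_p3_13_1_c9 chkEN32_p3_13_1_c10 chkEN32_p3_13_1_c11 chkEN32_p3_13_1_c12

/-- certificate tree -/
def treeEN32_p3_13_1_c6 : TE :=
  .sp treeEN32_p3_13_1_c7 treeEN32_p3_13_1_c8 treeEN32_p3_13_1_c13 treeEN32_p3_13_1_c14

theorem chkEN32_p3_13_1_c6 : TE.chk 1 0 treeEN32_p3_13_1_c6 100003 100013 16 100005 100001 8 = true :=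
  TE.chk_sp rfl chkEN32_p3_13_1_c7 chkEN32_p3_13_1_c8 chkEN32_p3_13_1_c13 chkEN32_p3_13_1_c14

/-- certificate tree -/
def treeEN32_p3_13_1_c18 : TE :=
  .sp treeEN32_p3_13_1_c19 treeEN32_p3_13_1_c20 treeEN32_p3_13_1_c21 treeEN32_p3_13_1_c22

theorem chkEN32_p3_13_1_c18 : TE.chk 1 0 treeEN32_p3_13_1_c18 100003 100013 16 100027 100001 32 = true :=
  TE.chk_sp rfl chkEN32_p3_13_1_c19 chkEN32_p3_13_1_c20 chkEN32_p3_13_1_c21 chkEN32_p3_13_1_c22

/-- certificate tree -/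
def treeEN32_p3_13_1_c24 : TE :=
  .sp treeEN32_p3_13_1_c25 treeEN32_p3_13_1_c26 treeEN32_p3_13_1_c27 treeEN32_p3_13_1_c28

theorem chkEN32_p3_13_1_c24 : TE.chk 1 0 treeEN32_p3_13_1_c24 100003 100013 16 100027 100003 32 = true :=
  TE.chk_sp rfl chkEN32_p3_13_1_c25 chkEN32_p3_13_1_c26 chkEN32_p3_13_1_c27 chkEN32_p3_13_1_c28

/-- certificate tree -/
def treeEN32_p3_13_1_c16 : TE :=
  .sp treeEN32_p3_13_1_c17 treeEN32_p3_13_1_c18 treeEN32_p3_13_1_c23 treeEN32_p3_13_1_c24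

theorem chkEN32_p3_13_1_c16 : TE.chk 1 0 treeEN32_p3_13_1_c16 100003 100013 16 100013 100001 16 = true :=
  TE.chk_sp rfl chkEN32_p3_13_1_c17 chkEN32_p3_13_1_c18 chkEN32_p3_13_1_c23 chkEN32_p3_13_1_c24

/-- certificate tree -/
def treeEN32_p3_13_1_c29 : TE :=
  .out

theorem chkEN32_p3_13_1_c29 : TE.chk 1 0 treeEN32_p3_13_1_c29 100003 100013 16 100015 100001 16 = true := by decide +kernel

/-- certificate tree -/
def treeEN32_p3_13_1_c32 : TE :=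
  .sp treeEN32_p3_13_1_c33 treeEN32_p3_13_1_c34 treeEN32_p3_13_1_c35 treeEN32_p3_13_1_c36

theorem chkEN32_p3_13_1_c32 : TE.chk 1 0 treeEN32_p3_13_1_c32 100003 100013 16 100027 100005 32 = true :=
  TE.chk_sp rfl chkEN32_p3_13_1_c33 chkEN32_p3_13_1_c34 chkEN32_p3_13_1_c35 chkEN32_p3_13_1_c36

/-- certificate tree -/
def treeEN32_p3_13_1_c30 : TE :=
  .sp treeEN32_p3_13_1_c31 treeEN32_p3_13_1_c32 treeEN32_p3_13_1_c37 treeEN32_p3_13_1_c38

theorem chkEN32_p3_13_1_c30 : TE.chk 1 0 treeEN32_p3_13_1_c30 100003 100013 16 100013 100003 16 = true :=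
  TE.chk_sp rfl chkEN32_p3_13_1_c31 chkEN32_p3_13_1_c32 chkEN32_p3_13_1_c37 chkEN32_p3_13_1_c38

/-- certificate tree -/
def treeEN32_p3_13_1_c39 : TE :=
  .out

theorem chkEN32_p3_13_1_c39 : TE.chk 1 0 treeEN32_p3_13_1_c39 100003 100013 16 100015 100003 16 = true := by decide +kernel

/-- certificate tree -/
def treeEN32_p3_13_1_c15 : TE :=
  .sp treeEN32_p3_13_1_c16 treeEN32_p3_13_1_c29 treeEN32_p3_13_1_c30 treeEN32_p3_13_1_c39

theorem chkEN32_p3_13_1_c15 : TE.chk 1 0 treeEN32_p3_13_1_c15 100003 100013 16 100007 100001 8 = true :=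
  TE.chk_sp rfl chkEN32_p3_13_1_c16 chkEN32_p3_13_1_c29 chkEN32_p3_13_1_c30 chkEN32_p3_13_1_c39

/-- certificate tree -/
def treeEN32_p3_13_1_c41 : TE :=
  .sq treeEN32_p3_13_1_c42 treeEN32_p3_13_1_c43 treeEN32_p3_13_1_c44 treeEN32_p3_13_1_c45

theorem chkEN32_p3_13_1_c41 : TE.chk 1 0 treeEN32_p3_13_1_c41 100003 100013 16 100009 100005 16 = true :=
  TE.chk_sq rfl chkEN32_p3_13_1_c42 chkEN32_p3_13_1_c43 chkEN32_p3_13_1_c44 chkEN32_p3_13_1_c45

/-- certificate tree -/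
def treeEN32_p3_13_1_c46 : TE :=
  .sp treeEN32_p3_13_1_c47 treeEN32_p3_13_1_c48 treeEN32_p3_13_1_c49 treeEN32_p3_13_1_c50

theorem chkEN32_p3_13_1_c46 : TE.chk 1 0 treeEN32_p3_13_1_c46 100003 100013 16 100011 100005 16 = true :=
  TE.chk_sp rfl chkEN32_p3_13_1_c47 chkEN32_p3_13_1_c48 chkEN32_p3_13_1_c49 chkEN32_p3_13_1_c50

/-- certificate tree -/
def treeEN32_p3_13_1_c51 : TE :=
  .out

theorem chkEN32_p3_13_1_c51 : TE.chk 1 0 treeEN32_p3_13_1_c51 100003 100013 16 100009 100007 16 = true := by decide +kernel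

/-- certificate tree -/
def treeEN32_p3_13_1_c54 : TE :=
  .sq treeEN32_p3_13_1_c55 treeEN32_p3_13_1_c56 treeEN32_p3_13_1_c57 treeEN32_p3_13_1_c58

theorem chkEN32_p3_13_1_c54 : TE.chk 1 0 treeEN32_p3_13_1_c54 100003 100013 16 100023 100013 32 = true :=
  TE.chk_sq rfl chkEN32_p3_13_1_c55 chkEN32_p3_13_1_c56 chkEN32_p3_13_1_c57 chkEN32_p3_13_1_c58

/-- certificate tree -/
def treeEN32_p3_13_1_c59 : TE :=
  .out

theorem chkEN32_p3_13_1_c59 : TE.chk 1 0 treeEN32_p3_13_1_c59 100003 100013 16 100021 100015 32 = true := by decide +kernel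

/-- certificate tree -/
def treeEN32_p3_13_1_c60 : TE :=
  .out

theorem chkEN32_p3_13_1_c60 : TE.chk 1 0 treeEN32_p3_13_1_c60 100003 100013 16 100023 100015 32 = true := by decide +kernel

/-- certificate tree -/
def treeEN32_p3_13_1_c52 : TE :=
  .sp treeEN32_p3_13_1_c53 treeEN32_p3_13_1_c54 treeEN32_p3_13_1_c59 treeEN32_p3_13_1_c60

theorem chkEN32_p3_13_1_c52 : TE.chk 1 0 treeEN32_p3_13_1_c52 100003 100013 16 100011 100007 16 = true :=
  TE.chk_sp rfl chkEN32_p3_13_1_c53 chkEN32_p3_13_1_c54 chkEN32_p3_13_1_c59 chkEN32_p3_13_1_c60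

/-- certificate tree -/
def treeEN32_p3_13_1_c40 : TE :=
  .sp treeEN32_p3_13_1_c41 treeEN32_p3_13_1_c46 treeEN32_p3_13_1_c51 treeEN32_p3_13_1_c52

theorem chkEN32_p3_13_1_c40 : TE.chk 1 0 treeEN32_p3_13_1_c40 100003 100013 16 100005 100003 8 = true :=
  TE.chk_sp rfl chkEN32_p3_13_1_c41 chkEN32_p3_13_1_c46 chkEN32_p3_13_1_c51 chkEN32_p3_13_1_c52

/-- certificate tree -/
def treeEN32_p3_13_1_c63 : TE :=
  .sq treeEN32_p3_13_1_c64 treeEN32_p3_13_1_c65 treeEN32_p3_13_1_c66 treeEN32_p3_13_1_c67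

theorem chkEN32_p3_13_1_c63 : TE.chk 1 0 treeEN32_p3_13_1_c63 100003 100013 16 100025 100009 32 = true :=
  TE.chk_sq rfl chkEN32_p3_13_1_c64 chkEN32_p3_13_1_c65 chkEN32_p3_13_1_c66 chkEN32_p3_13_1_c67

/-- certificate tree -/
def treeEN32_p3_13_1_c68 : TE :=
  (.sp (.sq .out .out .out (.sq .out .out .out .out)) .out (.sq .out .out .out (.sq .out .out .out
  .out)) .out)

theorem chkEN32_p3_13_1_c68 : TE.chk 1 0 treeEN32_p3_13_1_c68 100003 100013 16 100027 100009 32 = true := by decide +kernel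

/-- certificate tree -/
def treeEN32_p3_13_1_c70 : TE :=
  .out

theorem chkEN32_p3_13_1_c70 : TE.chk 1 0 treeEN32_p3_13_1_c70 100005 100025 32 100025 100011 32 = true := by decide +kernel

/-- certificate tree -/
def treeEN32_p3_13_1_c71 : TE :=
  .out

theorem chkEN32_p3_13_1_c71 : TE.chk 1 0 treeEN32_p3_13_1_c71 100007 100025 32 100025 100011 32 = true := by decide +kernel

/-- certificate tree -/
def treeEN32_p3_13_1_c69 : TE :=
  .sq treeEN32_p3_13_1_c70 treeEN32_p3_13_1_c71 treeEN32_p3_13_1_c72 treeEN32_p3_13_1_c73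

theorem chkEN32_p3_13_1_c69 : TE.chk 1 0 treeEN32_p3_13_1_c69 100003 100013 16 100025 100011 32 = true :=
  TE.chk_sq rfl chkEN32_p3_13_1_c70 chkEN32_p3_13_1_c71 chkEN32_p3_13_1_c72 chkEN32_p3_13_1_c73

/-- certificate tree -/
def treeEN32_p3_13_1_c74 : TE :=
  .out

theorem chkEN32_p3_13_1_c74 : TE.chk 1 0 treeEN32_p3_13_1_c74 100003 100013 16 100027 100011 32 = true := by decide +kernel

/-- certificate tree -/
def treeEN32_p3_13_1_c62 : TE :=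
  .sp treeEN32_p3_13_1_c63 treeEN32_p3_13_1_c68 treeEN32_p3_13_1_c69 treeEN32_p3_13_1_c74

theorem chkEN32_p3_13_1_c62 : TE.chk 1 0 treeEN32_p3_13_1_c62 100003 100013 16 100013 100005 16 = true :=
  TE.chk_sp rfl chkEN32_p3_13_1_c63 chkEN32_p3_13_1_c68 chkEN32_p3_13_1_c69 chkEN32_p3_13_1_c74

/-- certificate tree -/
def treeEN32_p3_13_1_c75 : TE :=
  .out

theorem chkEN32_p3_13_1_c75 : TE.chk 1 0 treeEN32_p3_13_1_c75 100003 100013 16 100015 100005 16 = true := by decide +kernel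

/-- certificate tree -/
def treeEN32_p3_13_1_c77 : TE :=
  .out

theorem chkEN32_p3_13_1_c77 : TE.chk 1 0 treeEN32_p3_13_1_c77 100003 100013 16 100015 100007 16 = true := by decide +kernel

/-- certificate tree -/
def treeEN32_p3_13_1_c61 : TE :=
  .sp treeEN32_p3_13_1_c62 treeEN32_p3_13_1_c75 treeEN32_p3_13_1_c76 treeEN32_p3_13_1_c77

theorem chkEN32_p3_13_1_c61 : TE.chk 1 0 treeEN32_p3_13_1_c61 100003 100013 16 100007 100003 8 = true :=
  TE.chk_sp rfl chkEN32_p3_13_1_c62 chkEN32_p3_13_1_c75 chkEN32_p3_13_1_c76 chkEN32_p3_13_1_c77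

/-- certificate tree -/
def treeEN32_p3_13_1_c5 : TE :=
  .sp treeEN32_p3_13_1_c6 treeEN32_p3_13_1_c15 treeEN32_p3_13_1_c40 treeEN32_p3_13_1_c61

theorem chkEN32_p3_13_1_c5 : TE.chk 1 0 treeEN32_p3_13_1_c5 100003 100013 16 100003 100001 4 = true :=
  TE.chk_sp rfl chkEN32_p3_13_1_c6 chkEN32_p3_13_1_c15 chkEN32_p3_13_1_c40 chkEN32_p3_13_1_c61

/-- certificate tree -/
def treeEN32_p3_13_1_c78 : TE :=
  .out

theorem chkEN32_p3_13_1_c78 : TE.chk 1 0 treeEN32_p3_13_1_c78 100003 100013 16 100001 100003 4 = true := by decide +kernel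

/-- certificate tree -/
def treeEN32_p3_13_1_c79 : TE :=
  (.sp .out .out .out .out)

theorem chkEN32_p3_13_1_c79 : TE.chk 1 0 treeEN32_p3_13_1_c79 100003 100013 16 100003 100003 4 = true := by decide +kernel

/-- certificate tree -/
def treeEN32_p3_13_1 : TE :=
  .sp treeEN32_p3_13_1_c0 treeEN32_p3_13_1_c5 treeEN32_p3_13_1_c78 treeEN32_p3_13_1_c79

theorem chkEN32_p3_13_1 : TE.chk 1 0 treeEN32_p3_13_1 100003 100013 16 100001 100001 2 = true :=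
  TE.chk_sp rfl chkEN32_p3_13_1_c0 chkEN32_p3_13_1_c5 chkEN32_p3_13_1_c78 chkEN32_p3_13_1_c79

end Pool.Agent.MaxTerm58
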