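import Pool.Agent.MaxTerm58.EChunk

/-! Certificates of the family E (ratio 3/2, mode 0) for the square of half width `1/16` with centre `(3 + 7 i)/16`. -/

namespace Pool.Agent.MaxTerm58

set_option maxRecDepth 100000

/-- certificate tree -/
def treeEN32_p3_7_0 : TE :=
  (.sp .out .out .out .out)

theorem chkEN32_p3_7_0 : TE.chk 1 0 treeEN32_p3_7_0 100003 100007 16 100001 99999 2 = true := by decide +kernel

/-- certificate tree -/
def treeEN32_p3_7_1 : TE :=
  (.sp .out .out .out .out)

theorem chkEN32_p3_7_1 : TE.chk 1 0 treeEN32_p3_7_1 100003 100007 16 100001 100001 2 = true := by decide +kernel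

end Pool.Agent.MaxTerm58
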