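import Pool.Agent.MaxTerm58.DEN32_p5_11_p0
import Pool.Agent.MaxTerm58.DEN32_p5_11_p1

/-! Certificates of the family E (ratio 3/2, mode 0) for the square of half width `1/16` with centre `(5 + 11 i)/16`. -/

namespace Pool.Agent.MaxTerm58

set_option maxRecDepth 100000

/-- certificate tree -/
def treeEN32_p5_11_0_c0 : TE :=
  .out

theorem chkEN32_p5_11_0_c0 : TE.chk 1 0 treeEN32_p5_11_0_c0 100005 100011 16 100001 99997 4 = true := by decide +kernel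

/-- certificate tree -/
def treeEN32_p5_11_0_c1 : TE :=
  (.sp .out .out .out .out)

theorem chkEN32_p5_11_0_c1 : TE.chk 1 0 treeEN32_p5_11_0_c1 100005 100011 16 100003 99997 4 = true := by decide +kernel

/-- certificate tree -/
def treeEN32_p5_11_0_c5 : TE :=
  .out

theorem chkEN32_p5_11_0_c5 : TE.chk 1 0 treeEN32_p5_11_0_c5 100005 100011 16 100009 99993 16 = true := by decide +kernel

/-- certificate tree -/
def treeEN32_p5_11_0_c4 : TE :=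
  .sp treeEN32_p5_11_0_c5 treeEN32_p5_11_0_c6 treeEN32_p5_11_0_c7 treeEN32_p5_11_0_c8

theorem chkEN32_p5_11_0_c4 : TE.chk 1 0 treeEN32_p5_11_0_c4 100005 100011 16 100005 99997 8 = true :=
  TE.chk_sp rfl chkEN32_p5_11_0_c5 chkEN32_p5_11_0_c6 chkEN32_p5_11_0_c7 chkEN32_p5_11_0_c8

/-- certificate tree -/
def treeEN32_p5_11_0_c10 : TE :=
  .sp treeEN32_p5_11_0_c11 treeEN32_p5_11_0_c12 treeEN32_p5_11_0_c13 treeEN32_p5_11_0_c14

theorem chkEN32_p5_11_0_c10 : TE.chk 1 0 treeEN32_p5_11_0_c10 100005 100011 16 100005 99999 8 = true :=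
  TE.chk_sp rfl chkEN32_p5_11_0_c11 chkEN32_p5_11_0_c12 chkEN32_p5_11_0_c13 chkEN32_p5_11_0_c14

/-- certificate tree -/
def treeEN32_p5_11_0_c3 : TE :=
  .sp treeEN32_p5_11_0_c4 treeEN32_p5_11_0_c9 treeEN32_p5_11_0_c10 treeEN32_p5_11_0_c15

theorem chkEN32_p5_11_0_c3 : TE.chk 1 0 treeEN32_p5_11_0_c3 100005 100011 16 100003 99999 4 = true :=
  TE.chk_sp rfl chkEN32_p5_11_0_c4 chkEN32_p5_11_0_c9 chkEN32_p5_11_0_c10 chkEN32_p5_11_0_c15

/-- certificate tree -/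
def treeEN32_p5_11_0 : TE :=
  .sp treeEN32_p5_11_0_c0 treeEN32_p5_11_0_c1 treeEN32_p5_11_0_c2 treeEN32_p5_11_0_c3

theorem chkEN32_p5_11_0 : TE.chk 1 0 treeEN32_p5_11_0 100005 100011 16 100001 99999 2 = true :=
  TE.chk_sp rfl chkEN32_p5_11_0_c0 chkEN32_p5_11_0_c1 chkEN32_p5_11_0_c2 chkEN32_p5_11_0_c3

/-- certificate tree -/
def treeEN32_p5_11_1_c2 : TE :=
  .sp treeEN32_p5_11_1_c3 treeEN32_p5_11_1_c4 treeEN32_p5_11_1_c5 treeEN32_p5_11_1_c6

theorem chkEN32_p5_11_1_c2 : TE.chk 1 0 treeEN32_p5_11_1_c2 100005 100011 16 100005 100001 8 = true :=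
  TE.chk_sp rfl chkEN32_p5_11_1_c3 chkEN32_p5_11_1_c4 chkEN32_p5_11_1_c5 chkEN32_p5_11_1_c6

/-- certificate tree -/
def treeEN32_p5_11_1_c11 : TE :=
  .out

theorem chkEN32_p5_11_1_c11 : TE.chk 1 0 treeEN32_p5_11_1_c11 100005 100011 16 100009 100007 16 = true := by decide +kernel

/-- certificate tree -/
def treeEN32_p5_11_1_c8 : TE :=
  .sp treeEN32_p5_11_1_c9 treeEN32_p5_11_1_c10 treeEN32_p5_11_1_c11 treeEN32_p5_11_1_c12

theorem chkEN32_p5_11_1_c8 : TE.chk 1 0 treeEN32_p5_11_1_c8 100005 100011 16 100005 100003 8 = true :=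
  TE.chk_sp rfl chkEN32_p5_11_1_c9 chkEN32_p5_11_1_c10 chkEN32_p5_11_1_c11 chkEN32_p5_11_1_c12

/-- certificate tree -/
def treeEN32_p5_11_1_c1 : TE :=
  .sp treeEN32_p5_11_1_c2 treeEN32_p5_11_1_c7 treeEN32_p5_11_1_c8 treeEN32_p5_11_1_c13

theorem chkEN32_p5_11_1_c1 : TE.chk 1 0 treeEN32_p5_11_1_c1 100005 100011 16 100003 100001 4 = true :=
  TE.chk_sp rfl chkEN32_p5_11_1_c2 chkEN32_p5_11_1_c7 chkEN32_p5_11_1_c8 chkEN32_p5_11_1_c13

/-- certificate tree -/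
def treeEN32_p5_11_1_c14 : TE :=
  .out

theorem chkEN32_p5_11_1_c14 : TE.chk 1 0 treeEN32_p5_11_1_c14 100005 100011 16 100001 100003 4 = true := by decide +kernel

/-- certificate tree -/
def treeEN32_p5_11_1_c15 : TE :=
  (.sp .out .out .out .out)

theorem chkEN32_p5_11_1_c15 : TE.chk 1 0 treeEN32_p5_11_1_c15 100005 100011 16 100003 100003 4 = true := by decide +kernel

/-- certificate tree -/
def treeEN32_p5_11_1 : TE :=
  .sp treeEN32_p5_11_1_c0 treeEN32_p5_11_1_c1 treeEN32_p5_11_1_c14 treeEN32_p5_11_1_c15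

theorem chkEN32_p5_11_1 : TE.chk 1 0 treeEN32_p5_11_1 100005 100011 16 100001 100001 2 = true :=
  TE.chk_sp rfl chkEN32_p5_11_1_c0 chkEN32_p5_11_1_c1 chkEN32_p5_11_1_c14 chkEN32_p5_11_1_c15

end Pool.Agent.MaxTerm58
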