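import Pool.Agent.MaxTerm58.DEN3_m11_1_p0
import Pool.Agent.MaxTerm58.DEN3_m11_1_p1
import Pool.Agent.MaxTerm58.DEN3_m11_1_p2

/-! Certificates of the family E (ratio 3, mode 0) for the square of half width `1/16` with centre `(-11 + 1 i)/16`. -/

namespace Pool.Agent.MaxTerm58

set_option maxRecDepth 100000

/-- certificate tree -/
def treeEN3_m11_1_0_c1 : TE :=
  .out

theorem chkEN3_m11_1_0_c1 : TE.chk 0 0 treeEN3_m11_1_0_c1 99989 100001 16 100003 99997 4 = true := by decide +kernel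

/-- certificate tree -/
def treeEN3_m11_1_0_c4 : TE :=
  .out

theorem chkEN3_m11_1_0_c4 : TE.chk 0 0 treeEN3_m11_1_0_c4 99989 100001 16 100001 99993 16 = true := by decide +kernel

/-- certificate tree -/
def treeEN3_m11_1_0_c6 : TE :=
  .out

theorem chkEN3_m11_1_0_c6 : TE.chk 0 0 treeEN3_m11_1_0_c6 99989 100001 16 100001 99995 16 = true := by decide +kernel

/-- certificate tree -/
def treeEN3_m11_1_0_c3 : TE :=
  .sp treeEN3_m11_1_0_c4 treeEN3_m11_1_0_c5 treeEN3_m11_1_0_c6 treeEN3_m11_1_0_c7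

theorem chkEN3_m11_1_0_c3 : TE.chk 0 0 treeEN3_m11_1_0_c3 99989 100001 16 100001 99997 8 = true :=
  TE.chk_sp rfl chkEN3_m11_1_0_c4 chkEN3_m11_1_0_c5 chkEN3_m11_1_0_c6 chkEN3_m11_1_0_c7

/-- certificate tree -/
def treeEN3_m11_1_0_c8 : TE :=
  .sp treeEN3_m11_1_0_c9 treeEN3_m11_1_0_c10 treeEN3_m11_1_0_c11 treeEN3_m11_1_0_c12

theorem chkEN3_m11_1_0_c8 : TE.chk 0 0 treeEN3_m11_1_0_c8 99989 100001 16 100003 99997 8 = true :=
  TE.chk_sp rfl chkEN3_m11_1_0_c9 chkEN3_m11_1_0_c10 chkEN3_m11_1_0_c11 chkEN3_m11_1_0_c12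

/-- certificate tree -/
def treeEN3_m11_1_0_c14 : TE :=
  .sp treeEN3_m11_1_0_c15 treeEN3_m11_1_0_c16 treeEN3_m11_1_0_c17 treeEN3_m11_1_0_c18

theorem chkEN3_m11_1_0_c14 : TE.chk 0 0 treeEN3_m11_1_0_c14 99989 100001 16 100003 99999 8 = true :=
  TE.chk_sp rfl chkEN3_m11_1_0_c15 chkEN3_m11_1_0_c16 chkEN3_m11_1_0_c17 chkEN3_m11_1_0_c18

/-- certificate tree -/
def treeEN3_m11_1_0_c2 : TE :=
  .sp treeEN3_m11_1_0_c3 treeEN3_m11_1_0_c8 treeEN3_m11_1_0_c13 treeEN3_m11_1_0_c14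

theorem chkEN3_m11_1_0_c2 : TE.chk 0 0 treeEN3_m11_1_0_c2 99989 100001 16 100001 99999 4 = true :=
  TE.chk_sp rfl chkEN3_m11_1_0_c3 chkEN3_m11_1_0_c8 chkEN3_m11_1_0_c13 chkEN3_m11_1_0_c14

/-- certificate tree -/
def treeEN3_m11_1_0_c22 : TE :=
  .out

theorem chkEN3_m11_1_0_c22 : TE.chk 0 0 treeEN3_m11_1_0_c22 99989 100001 16 100011 99993 16 = true := by decide +kernel

/-- certificate tree -/
def treeEN3_m11_1_0_c20 : TE :=
  .sp treeEN3_m11_1_0_c21 treeEN3_m11_1_0_c22 treeEN3_m11_1_0_c23 treeEN3_m11_1_0_c24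

theorem chkEN3_m11_1_0_c20 : TE.chk 0 0 treeEN3_m11_1_0_c20 99989 100001 16 100005 99997 8 = true :=
  TE.chk_sp rfl chkEN3_m11_1_0_c21 chkEN3_m11_1_0_c22 chkEN3_m11_1_0_c23 chkEN3_m11_1_0_c24

/-- certificate tree -/
def treeEN3_m11_1_0_c25 : TE :=
  .out

theorem chkEN3_m11_1_0_c25 : TE.chk 0 0 treeEN3_m11_1_0_c25 99989 100001 16 100007 99997 8 = true := by decide +kernel

/-- certificate tree -/
def treeEN3_m11_1_0_c26 : TE :=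
  .sp treeEN3_m11_1_0_c27 treeEN3_m11_1_0_c28 treeEN3_m11_1_0_c29 treeEN3_m11_1_0_c30

theorem chkEN3_m11_1_0_c26 : TE.chk 0 0 treeEN3_m11_1_0_c26 99989 100001 16 100005 99999 8 = true :=
  TE.chk_sp rfl chkEN3_m11_1_0_c27 chkEN3_m11_1_0_c28 chkEN3_m11_1_0_c29 chkEN3_m11_1_0_c30

/-- certificate tree -/
def treeEN3_m11_1_0_c31 : TE :=
  .out

theorem chkEN3_m11_1_0_c31 : TE.chk 0 0 treeEN3_m11_1_0_c31 99989 100001 16 100007 99999 8 = true := by decide +kernel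

/-- certificate tree -/
def treeEN3_m11_1_0_c19 : TE :=
  .sp treeEN3_m11_1_0_c20 treeEN3_m11_1_0_c25 treeEN3_m11_1_0_c26 treeEN3_m11_1_0_c31

theorem chkEN3_m11_1_0_c19 : TE.chk 0 0 treeEN3_m11_1_0_c19 99989 100001 16 100003 99999 4 = true :=
  TE.chk_sp rfl chkEN3_m11_1_0_c20 chkEN3_m11_1_0_c25 chkEN3_m11_1_0_c26 chkEN3_m11_1_0_c31

/-- certificate tree -/
def treeEN3_m11_1_0 : TE :=
  .sp treeEN3_m11_1_0_c0 treeEN3_m11_1_0_c1 treeEN3_m11_1_0_c2 treeEN3_m11_1_0_c19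

theorem chkEN3_m11_1_0 : TE.chk 0 0 treeEN3_m11_1_0 99989 100001 16 100001 99999 2 = true :=
  TE.chk_sp rfl chkEN3_m11_1_0_c0 chkEN3_m11_1_0_c1 chkEN3_m11_1_0_c2 chkEN3_m11_1_0_c19

/-- certificate tree -/
def treeEN3_m11_1_1_c2 : TE :=
  .sp treeEN3_m11_1_1_c3 treeEN3_m11_1_1_c4 treeEN3_m11_1_1_c5 treeEN3_m11_1_1_c6

theorem chkEN3_m11_1_1_c2 : TE.chk 0 0 treeEN3_m11_1_1_c2 99989 100001 16 100003 100001 8 = true :=
  TE.chk_sp rfl chkEN3_m11_1_1_c3 chkEN3_m11_1_1_c4 chkEN3_m11_1_1_c5 chkEN3_m11_1_1_c6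

/-- certificate tree -/
def treeEN3_m11_1_1_c8 : TE :=
  .out

theorem chkEN3_m11_1_1_c8 : TE.chk 0 0 treeEN3_m11_1_1_c8 99989 100001 16 100001 100005 16 = true := by decide +kernel

/-- certificate tree -/
def treeEN3_m11_1_1_c10 : TE :=
  .out

theorem chkEN3_m11_1_1_c10 : TE.chk 0 0 treeEN3_m11_1_1_c10 99989 100001 16 100001 100007 16 = true := by decide +kernel

/-- certificate tree -/
def treeEN3_m11_1_1_c7 : TE :=
  .sp treeEN3_m11_1_1_c8 treeEN3_m11_1_1_c9 treeEN3_m11_1_1_c10 treeEN3_m11_1_1_c11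

theorem chkEN3_m11_1_1_c7 : TE.chk 0 0 treeEN3_m11_1_1_c7 99989 100001 16 100001 100003 8 = true :=
  TE.chk_sp rfl chkEN3_m11_1_1_c8 chkEN3_m11_1_1_c9 chkEN3_m11_1_1_c10 chkEN3_m11_1_1_c11

/-- certificate tree -/
def treeEN3_m11_1_1_c15 : TE :=
  .sq treeEN3_m11_1_1_c16 treeEN3_m11_1_1_c17 treeEN3_m11_1_1_c18 treeEN3_m11_1_1_c19

theorem chkEN3_m11_1_1_c15 : TE.chk 0 0 treeEN3_m11_1_1_c15 99989 100001 16 100005 100007 16 = true :=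
  TE.chk_sq rfl chkEN3_m11_1_1_c16 chkEN3_m11_1_1_c17 chkEN3_m11_1_1_c18 chkEN3_m11_1_1_c19

/-- certificate tree -/
def treeEN3_m11_1_1_c12 : TE :=
  .sp treeEN3_m11_1_1_c13 treeEN3_m11_1_1_c14 treeEN3_m11_1_1_c15 treeEN3_m11_1_1_c20

theorem chkEN3_m11_1_1_c12 : TE.chk 0 0 treeEN3_m11_1_1_c12 99989 100001 16 100003 100003 8 = true :=
  TE.chk_sp rfl chkEN3_m11_1_1_c13 chkEN3_m11_1_1_c14 chkEN3_m11_1_1_c15 chkEN3_m11_1_1_c20

/-- certificate tree -/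
def treeEN3_m11_1_1_c0 : TE :=
  .sp treeEN3_m11_1_1_c1 treeEN3_m11_1_1_c2 treeEN3_m11_1_1_c7 treeEN3_m11_1_1_c12

theorem chkEN3_m11_1_1_c0 : TE.chk 0 0 treeEN3_m11_1_1_c0 99989 100001 16 100001 100001 4 = true :=
  TE.chk_sp rfl chkEN3_m11_1_1_c1 chkEN3_m11_1_1_c2 chkEN3_m11_1_1_c7 chkEN3_m11_1_1_c12

/-- certificate tree -/
def treeEN3_m11_1_1_c22 : TE :=
  .sp treeEN3_m11_1_1_c23 treeEN3_m11_1_1_c24 treeEN3_m11_1_1_c25 treeEN3_m11_1_1_c26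

theorem chkEN3_m11_1_1_c22 : TE.chk 0 0 treeEN3_m11_1_1_c22 99989 100001 16 100005 100001 8 = true :=
  TE.chk_sp rfl chkEN3_m11_1_1_c23 chkEN3_m11_1_1_c24 chkEN3_m11_1_1_c25 chkEN3_m11_1_1_c26

/-- certificate tree -/
def treeEN3_m11_1_1_c27 : TE :=
  .out

theorem chkEN3_m11_1_1_c27 : TE.chk 0 0 treeEN3_m11_1_1_c27 99989 100001 16 100007 100001 8 = true := by decide +kernel

/-- certificate tree -/
def treeEN3_m11_1_1_c32 : TE :=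
  .out

theorem chkEN3_m11_1_1_c32 : TE.chk 0 0 treeEN3_m11_1_1_c32 99989 100001 16 100011 100007 16 = true := by decide +kernel

/-- certificate tree -/
def treeEN3_m11_1_1_c28 : TE :=
  .sp treeEN3_m11_1_1_c29 treeEN3_m11_1_1_c30 treeEN3_m11_1_1_c31 treeEN3_m11_1_1_c32

theorem chkEN3_m11_1_1_c28 : TE.chk 0 0 treeEN3_m11_1_1_c28 99989 100001 16 100005 100003 8 = true :=
  TE.chk_sp rfl chkEN3_m11_1_1_c29 chkEN3_m11_1_1_c30 chkEN3_m11_1_1_c31 chkEN3_m11_1_1_c32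

/-- certificate tree -/
def treeEN3_m11_1_1_c33 : TE :=
  .out

theorem chkEN3_m11_1_1_c33 : TE.chk 0 0 treeEN3_m11_1_1_c33 99989 100001 16 100007 100003 8 = true := by decide +kernel

/-- certificate tree -/
def treeEN3_m11_1_1_c21 : TE :=
  .sp treeEN3_m11_1_1_c22 treeEN3_m11_1_1_c27 treeEN3_m11_1_1_c28 treeEN3_m11_1_1_c33

theorem chkEN3_m11_1_1_c21 : TE.chk 0 0 treeEN3_m11_1_1_c21 99989 100001 16 100003 100001 4 = true :=
  TE.chk_sp rfl chkEN3_m11_1_1_c22 chkEN3_m11_1_1_c27 chkEN3_m11_1_1_c28 chkEN3_m11_1_1_c33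

/-- certificate tree -/
def treeEN3_m11_1_1_c35 : TE :=
  .out

theorem chkEN3_m11_1_1_c35 : TE.chk 0 0 treeEN3_m11_1_1_c35 99989 100001 16 100003 100003 4 = true := by decide +kernel

/-- certificate tree -/
def treeEN3_m11_1_1 : TE :=
  .sp treeEN3_m11_1_1_c0 treeEN3_m11_1_1_c21 treeEN3_m11_1_1_c34 treeEN3_m11_1_1_c35

theorem chkEN3_m11_1_1 : TE.chk 0 0 treeEN3_m11_1_1 99989 100001 16 100001 100001 2 = true :=
  TE.chk_sp rfl chkEN3_m11_1_1_c0 chkEN3_m11_1_1_c21 chkEN3_m11_1_1_c34 chkEN3_m11_1_1_c35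

end Pool.Agent.MaxTerm58
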