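import Pool.Agent.MaxTerm58.DEN3_m11_5_p0
import Pool.Agent.MaxTerm58.DEN3_m11_5_p1
import Pool.Agent.MaxTerm58.DEN3_m11_5_p2

/-! Certificates of the family E (ratio 3, mode 0) for the square of half width `1/16` with centre `(-11 + 5 i)/16`. -/

namespace Pool.Agent.MaxTerm58

set_option maxRecDepth 100000

/-- certificate tree -/
def treeEN3_m11_5_0_c1 : TE :=
  .out

theorem chkEN3_m11_5_0_c1 : TE.chk 0 0 treeEN3_m11_5_0_c1 99989 100005 16 100001 99993 8 = true := by decide +kernel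

/-- certificate tree -/
def treeEN3_m11_5_0_c2 : TE :=
  .out

theorem chkEN3_m11_5_0_c2 : TE.chk 0 0 treeEN3_m11_5_0_c2 99989 100005 16 100003 99993 8 = true := by decide +kernel

/-- certificate tree -/
def treeEN3_m11_5_0_c3 : TE :=
  .out

theorem chkEN3_m11_5_0_c3 : TE.chk 0 0 treeEN3_m11_5_0_c3 99989 100005 16 100001 99995 8 = true := by decide +kernel

/-- certificate tree -/
def treeEN3_m11_5_0_c4 : TE :=
  .sp treeEN3_m11_5_0_c5 treeEN3_m11_5_0_c6 treeEN3_m11_5_0_c7 treeEN3_m11_5_0_c8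

theorem chkEN3_m11_5_0_c4 : TE.chk 0 0 treeEN3_m11_5_0_c4 99989 100005 16 100003 99995 8 = true :=
  TE.chk_sp rfl chkEN3_m11_5_0_c5 chkEN3_m11_5_0_c6 chkEN3_m11_5_0_c7 chkEN3_m11_5_0_c8

/-- certificate tree -/
def treeEN3_m11_5_0_c0 : TE :=
  .sp treeEN3_m11_5_0_c1 treeEN3_m11_5_0_c2 treeEN3_m11_5_0_c3 treeEN3_m11_5_0_c4

theorem chkEN3_m11_5_0_c0 : TE.chk 0 0 treeEN3_m11_5_0_c0 99989 100005 16 100001 99997 4 = true :=
  TE.chk_sp rfl chkEN3_m11_5_0_c1 chkEN3_m11_5_0_c2 chkEN3_m11_5_0_c3 chkEN3_m11_5_0_c4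

/-- certificate tree -/
def treeEN3_m11_5_0_c10 : TE :=
  .sp treeEN3_m11_5_0_c11 treeEN3_m11_5_0_c12 treeEN3_m11_5_0_c13 treeEN3_m11_5_0_c14

theorem chkEN3_m11_5_0_c10 : TE.chk 0 0 treeEN3_m11_5_0_c10 99989 100005 16 100001 99999 4 = true :=
  TE.chk_sp rfl chkEN3_m11_5_0_c11 chkEN3_m11_5_0_c12 chkEN3_m11_5_0_c13 chkEN3_m11_5_0_c14

/-- certificate tree -/
def treeEN3_m11_5_0_c16 : TE :=
  .sp treeEN3_m11_5_0_c17 treeEN3_m11_5_0_c18 treeEN3_m11_5_0_c19 treeEN3_m11_5_0_c20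

theorem chkEN3_m11_5_0_c16 : TE.chk 0 0 treeEN3_m11_5_0_c16 99989 100005 16 100005 99997 8 = true :=
  TE.chk_sp rfl chkEN3_m11_5_0_c17 chkEN3_m11_5_0_c18 chkEN3_m11_5_0_c19 chkEN3_m11_5_0_c20

/-- certificate tree -/
def treeEN3_m11_5_0_c21 : TE :=
  .out

theorem chkEN3_m11_5_0_c21 : TE.chk 0 0 treeEN3_m11_5_0_c21 99989 100005 16 100007 99997 8 = true := by decide +kernel

/-- certificate tree -/
def treeEN3_m11_5_0_c22 : TE :=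
  .sp treeEN3_m11_5_0_c23 treeEN3_m11_5_0_c24 treeEN3_m11_5_0_c25 treeEN3_m11_5_0_c26

theorem chkEN3_m11_5_0_c22 : TE.chk 0 0 treeEN3_m11_5_0_c22 99989 100005 16 100005 99999 8 = true :=
  TE.chk_sp rfl chkEN3_m11_5_0_c23 chkEN3_m11_5_0_c24 chkEN3_m11_5_0_c25 chkEN3_m11_5_0_c26

/-- certificate tree -/
def treeEN3_m11_5_0_c15 : TE :=
  .sp treeEN3_m11_5_0_c16 treeEN3_m11_5_0_c21 treeEN3_m11_5_0_c22 treeEN3_m11_5_0_c27

theorem chkEN3_m11_5_0_c15 : TE.chk 0 0 treeEN3_m11_5_0_c15 99989 100005 16 100003 99999 4 = true :=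
  TE.chk_sp rfl chkEN3_m11_5_0_c16 chkEN3_m11_5_0_c21 chkEN3_m11_5_0_c22 chkEN3_m11_5_0_c27

/-- certificate tree -/
def treeEN3_m11_5_0 : TE :=
  .sp treeEN3_m11_5_0_c0 treeEN3_m11_5_0_c9 treeEN3_m11_5_0_c10 treeEN3_m11_5_0_c15

theorem chkEN3_m11_5_0 : TE.chk 0 0 treeEN3_m11_5_0 99989 100005 16 100001 99999 2 = true :=
  TE.chk_sp rfl chkEN3_m11_5_0_c0 chkEN3_m11_5_0_c9 chkEN3_m11_5_0_c10 chkEN3_m11_5_0_c15

/-- certificate tree -/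
def treeEN3_m11_5_1_c4 : TE :=
  .sp treeEN3_m11_5_1_c5 treeEN3_m11_5_1_c6 treeEN3_m11_5_1_c7 treeEN3_m11_5_1_c8

theorem chkEN3_m11_5_1_c4 : TE.chk 0 0 treeEN3_m11_5_1_c4 99989 100005 16 100003 100003 8 = true :=
  TE.chk_sp rfl chkEN3_m11_5_1_c5 chkEN3_m11_5_1_c6 chkEN3_m11_5_1_c7 chkEN3_m11_5_1_c8

/-- certificate tree -/
def treeEN3_m11_5_1_c0 : TE :=
  .sp treeEN3_m11_5_1_c1 treeEN3_m11_5_1_c2 treeEN3_m11_5_1_c3 treeEN3_m11_5_1_c4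

theorem chkEN3_m11_5_1_c0 : TE.chk 0 0 treeEN3_m11_5_1_c0 99989 100005 16 100001 100001 4 = true :=
  TE.chk_sp rfl chkEN3_m11_5_1_c1 chkEN3_m11_5_1_c2 chkEN3_m11_5_1_c3 chkEN3_m11_5_1_c4

/-- certificate tree -/
def treeEN3_m11_5_1_c10 : TE :=
  .sp treeEN3_m11_5_1_c11 treeEN3_m11_5_1_c12 treeEN3_m11_5_1_c13 treeEN3_m11_5_1_c14

theorem chkEN3_m11_5_1_c10 : TE.chk 0 0 treeEN3_m11_5_1_c10 99989 100005 16 100005 100001 8 = true :=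
  TE.chk_sp rfl chkEN3_m11_5_1_c11 chkEN3_m11_5_1_c12 chkEN3_m11_5_1_c13 chkEN3_m11_5_1_c14

/-- certificate tree -/
def treeEN3_m11_5_1_c22 : TE :=
  .out

theorem chkEN3_m11_5_1_c22 : TE.chk 0 0 treeEN3_m11_5_1_c22 99989 100005 16 100023 100011 32 = true := by decide +kernel

/-- certificate tree -/
def treeEN3_m11_5_1_c18 : TE :=
  .sp treeEN3_m11_5_1_c19 treeEN3_m11_5_1_c20 treeEN3_m11_5_1_c21 treeEN3_m11_5_1_c22

theorem chkEN3_m11_5_1_c18 : TE.chk 0 0 treeEN3_m11_5_1_c18 99989 100005 16 100011 100005 16 = true :=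
  TE.chk_sp rfl chkEN3_m11_5_1_c19 chkEN3_m11_5_1_c20 chkEN3_m11_5_1_c21 chkEN3_m11_5_1_c22

/-- certificate tree -/
def treeEN3_m11_5_1_c23 : TE :=
  .sp treeEN3_m11_5_1_c24 treeEN3_m11_5_1_c25 treeEN3_m11_5_1_c26 treeEN3_m11_5_1_c27

theorem chkEN3_m11_5_1_c23 : TE.chk 0 0 treeEN3_m11_5_1_c23 99989 100005 16 100009 100007 16 = true :=
  TE.chk_sp rfl chkEN3_m11_5_1_c24 chkEN3_m11_5_1_c25 chkEN3_m11_5_1_c26 chkEN3_m11_5_1_c27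

/-- certificate tree -/
def treeEN3_m11_5_1_c16 : TE :=
  .sp treeEN3_m11_5_1_c17 treeEN3_m11_5_1_c18 treeEN3_m11_5_1_c23 treeEN3_m11_5_1_c28

theorem chkEN3_m11_5_1_c16 : TE.chk 0 0 treeEN3_m11_5_1_c16 99989 100005 16 100005 100003 8 = true :=
  TE.chk_sp rfl chkEN3_m11_5_1_c17 chkEN3_m11_5_1_c18 chkEN3_m11_5_1_c23 chkEN3_m11_5_1_c28

/-- certificate tree -/
def treeEN3_m11_5_1_c29 : TE :=
  .out

theorem chkEN3_m11_5_1_c29 : TE.chk 0 0 treeEN3_m11_5_1_c29 99989 100005 16 100007 100003 8 = true := by decide +kernel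

/-- certificate tree -/
def treeEN3_m11_5_1_c9 : TE :=
  .sp treeEN3_m11_5_1_c10 treeEN3_m11_5_1_c15 treeEN3_m11_5_1_c16 treeEN3_m11_5_1_c29

theorem chkEN3_m11_5_1_c9 : TE.chk 0 0 treeEN3_m11_5_1_c9 99989 100005 16 100003 100001 4 = true :=
  TE.chk_sp rfl chkEN3_m11_5_1_c10 chkEN3_m11_5_1_c15 chkEN3_m11_5_1_c16 chkEN3_m11_5_1_c29

/-- certificate tree -/
def treeEN3_m11_5_1_c31 : TE :=
  .out

theorem chkEN3_m11_5_1_c31 : TE.chk 0 0 treeEN3_m11_5_1_c31 99989 100005 16 100001 100005 8 = true := by decide +kernel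

/-- certificate tree -/
def treeEN3_m11_5_1_c32 : TE :=
  .sp treeEN3_m11_5_1_c33 treeEN3_m11_5_1_c34 treeEN3_m11_5_1_c35 treeEN3_m11_5_1_c36

theorem chkEN3_m11_5_1_c32 : TE.chk 0 0 treeEN3_m11_5_1_c32 99989 100005 16 100003 100005 8 = true :=
  TE.chk_sp rfl chkEN3_m11_5_1_c33 chkEN3_m11_5_1_c34 chkEN3_m11_5_1_c35 chkEN3_m11_5_1_c36

/-- certificate tree -/
def treeEN3_m11_5_1_c37 : TE :=
  .out

theorem chkEN3_m11_5_1_c37 : TE.chk 0 0 treeEN3_m11_5_1_c37 99989 100005 16 100001 100007 8 = true := by decide +kernel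

/-- certificate tree -/
def treeEN3_m11_5_1_c38 : TE :=
  .out

theorem chkEN3_m11_5_1_c38 : TE.chk 0 0 treeEN3_m11_5_1_c38 99989 100005 16 100003 100007 8 = true := by decide +kernel

/-- certificate tree -/
def treeEN3_m11_5_1_c30 : TE :=
  .sp treeEN3_m11_5_1_c31 treeEN3_m11_5_1_c32 treeEN3_m11_5_1_c37 treeEN3_m11_5_1_c38

theorem chkEN3_m11_5_1_c30 : TE.chk 0 0 treeEN3_m11_5_1_c30 99989 100005 16 100001 100003 4 = true :=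
  TE.chk_sp rfl chkEN3_m11_5_1_c31 chkEN3_m11_5_1_c32 chkEN3_m11_5_1_c37 chkEN3_m11_5_1_c38

/-- certificate tree -/
def treeEN3_m11_5_1 : TE :=
  .sp treeEN3_m11_5_1_c0 treeEN3_m11_5_1_c9 treeEN3_m11_5_1_c30 treeEN3_m11_5_1_c39

theorem chkEN3_m11_5_1 : TE.chk 0 0 treeEN3_m11_5_1 99989 100005 16 100001 100001 2 = true :=
  TE.chk_sp rfl chkEN3_m11_5_1_c0 chkEN3_m11_5_1_c9 chkEN3_m11_5_1_c30 chkEN3_m11_5_1_c39

end Pool.Agent.MaxTerm58
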