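import Pool.Agent.MaxTerm58.EChunk

/-! Certificates of the family E (ratio 3, mode 0) for the square of half width `1/16` with centre `(-3 + 3 i)/16`. -/

namespace Pool.Agent.MaxTerm58

set_option maxRecDepth 100000

/-- certificate tree -/
def treeEN3_m3_3_0 : TE :=
  (.sp .out .out (.sp (.lf 7073 19 2 3 4 16 [] [1134926753435331953011, 1124569743885234177199,
  1011854401522427857579, 787341554537505068087] [142692803235936307105, 161733943365535631611,
  276359210406687113987, 395776446950134088246, 522417566766495531555, 1100212644050477092195,
  1147753237584266759353, 1151932705580707055849, 1146583002963902302816, 601829427670095074615,
  393672940537969741871, 247774047390205575852, 150459941185087701545, 84634994230072803237]) .out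
  (.lf 7073 18 2 5 4 15 [878184235809043743133, 1125270912688179216984] [1139539507492835393977,
  1086631756523932583607, 848932674946464585910] [123309399638102870900, 211579608738061191206,
  305614529813427094648, 332780190950479725889, 428058212245528740104, 552717777087603770040,
  1114966567752510049205, 1147753237583621884233, 1151932705580665898959, 1152923871676412823139,
  1150131746766430242215, 1124569743884192416874, 1114968170427745141396, 564377494611853937864,
  419253416657644261086, 305618415899456931822, 276362968948398458583, 197297552406775694688,
  176562907086666957277, 103280005744915481696, 84634994229807514542]) (.lf 7073 17 1 3 5 14 []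
  [1152923871676286731187, 1069914506307939960600, 923638204213889437220, 601829427670099792460]
  [123309399638148222092, 211579608738270906576, 332780190952335704040, 428058212244713735091,
  522417566766682177677, 1125270912689473948005, 1151932705581723125673, 1152923871677636249018,
  1124569743885314916682, 564377494612062867448, 419253416657431138247, 305618415900561083615,
  176562907087198584228, 84634994229948809200])) .out)

theorem chkEN3_m3_3_0 : TE.chk 0 0 treeEN3_m3_3_0 99997 100003 16 100001 99999 2 = true := by decide +kernel

/-- certificate tree -/
def treeEN3_m3_3_1 : TE :=
  (.sp (.sp (.lf 7073 19 1 3 3 16 [] [1139539507491859956809, 878187994353333014381]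
  [103277491849425423438, 188593311969279315646, 305614529814354822357, 395776446949956354709,
  488982859075969974327, 1125270912689561242938, 1151932705582214645786, 1152923871676271265151,
  1146583002963284951687, 1114968170428212019368, 481727404426855812294, 367209752500134841223,
  276362968948396099334, 247774047389589800451, 150459941186294873754]) (.lf 7073 20 2 3 5 17 []
  [1139539507491494266063, 1031237805119794415505, 848932674944989498212] [142692803237539058615,
  276359210406907315464, 395776446950822739693, 552717777087858048533, 1125270912689447209514,
  1151932705582324483537, 1150131746768113468166, 1114968170428361704142, 534041241887258021314,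
  393672940538115755886, 276362968949863582142, 150459941186499083221]) (.lf 7073 21 1 3 4 18 []
  [1114968170427578942949, 878187994352609233437] [123309399638648656282, 211579608738435534695,
  305614529813409531427, 395776446950823788211, 552717777087591710348, 1125270912689795337733,
  1134926753434322437811, 1151932705581748553433, 1152923871678122525439, 1124569743885579419713,
  481727404426801810335, 393672940537265359201, 305618415901367699682, 176562907088204169495])
  .out) .out .out .out)

theorem chkEN3_m3_3_1 : TE.chk 0 0 treeEN3_m3_3_1 99997 100003 16 100001 100001 2 = true := by decide +kernel

end Pool.Agent.MaxTerm58
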