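import Pool.Agent.MaxTerm58.DEN3_m9_1_p0
import Pool.Agent.MaxTerm58.DEN3_m9_1_p1

/-! Certificates of the family E (ratio 3, mode 0) for the square of half width `1/16` with centre `(-9 + 1 i)/16`. -/

namespace Pool.Agent.MaxTerm58

set_option maxRecDepth 100000

/-- certificate tree -/
def treeEN3_m9_1_0_c1 : TE :=
  .out

theorem chkEN3_m9_1_0_c1 : TE.chk 0 0 treeEN3_m9_1_0_c1 99991 100001 16 100003 99997 4 = true := by decide +kernel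

/-- certificate tree -/
def treeEN3_m9_1_0_c4 : TE :=
  .sp treeEN3_m9_1_0_c5 treeEN3_m9_1_0_c6 treeEN3_m9_1_0_c7 treeEN3_m9_1_0_c8

theorem chkEN3_m9_1_0_c4 : TE.chk 0 0 treeEN3_m9_1_0_c4 99991 100001 16 100003 99997 8 = true :=
  TE.chk_sp rfl chkEN3_m9_1_0_c5 chkEN3_m9_1_0_c6 chkEN3_m9_1_0_c7 chkEN3_m9_1_0_c8

/-- certificate tree -/
def treeEN3_m9_1_0_c10 : TE :=
  .sp treeEN3_m9_1_0_c11 treeEN3_m9_1_0_c12 treeEN3_m9_1_0_c13 treeEN3_m9_1_0_c14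

theorem chkEN3_m9_1_0_c10 : TE.chk 0 0 treeEN3_m9_1_0_c10 99991 100001 16 100003 99999 8 = true :=
  TE.chk_sp rfl chkEN3_m9_1_0_c11 chkEN3_m9_1_0_c12 chkEN3_m9_1_0_c13 chkEN3_m9_1_0_c14

/-- certificate tree -/
def treeEN3_m9_1_0_c2 : TE :=
  .sp treeEN3_m9_1_0_c3 treeEN3_m9_1_0_c4 treeEN3_m9_1_0_c9 treeEN3_m9_1_0_c10

theorem chkEN3_m9_1_0_c2 : TE.chk 0 0 treeEN3_m9_1_0_c2 99991 100001 16 100001 99999 4 = true :=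
  TE.chk_sp rfl chkEN3_m9_1_0_c3 chkEN3_m9_1_0_c4 chkEN3_m9_1_0_c9 chkEN3_m9_1_0_c10

/-- certificate tree -/
def treeEN3_m9_1_0 : TE :=
  .sp treeEN3_m9_1_0_c0 treeEN3_m9_1_0_c1 treeEN3_m9_1_0_c2 treeEN3_m9_1_0_c15

theorem chkEN3_m9_1_0 : TE.chk 0 0 treeEN3_m9_1_0 99991 100001 16 100001 99999 2 = true :=
  TE.chk_sp rfl chkEN3_m9_1_0_c0 chkEN3_m9_1_0_c1 chkEN3_m9_1_0_c2 chkEN3_m9_1_0_c15

/-- certificate tree -/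
def treeEN3_m9_1_1_c4 : TE :=
  .sp treeEN3_m9_1_1_c5 treeEN3_m9_1_1_c6 treeEN3_m9_1_1_c7 treeEN3_m9_1_1_c8

theorem chkEN3_m9_1_1_c4 : TE.chk 0 0 treeEN3_m9_1_1_c4 99991 100001 16 100007 100001 16 = true :=
  TE.chk_sp rfl chkEN3_m9_1_1_c5 chkEN3_m9_1_1_c6 chkEN3_m9_1_1_c7 chkEN3_m9_1_1_c8

/-- certificate tree -/
def treeEN3_m9_1_1_c2 : TE :=
  .sp treeEN3_m9_1_1_c3 treeEN3_m9_1_1_c4 treeEN3_m9_1_1_c9 treeEN3_m9_1_1_c10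

theorem chkEN3_m9_1_1_c2 : TE.chk 0 0 treeEN3_m9_1_1_c2 99991 100001 16 100003 100001 8 = true :=
  TE.chk_sp rfl chkEN3_m9_1_1_c3 chkEN3_m9_1_1_c4 chkEN3_m9_1_1_c9 chkEN3_m9_1_1_c10

/-- certificate tree -/
def treeEN3_m9_1_1_c12 : TE :=
  .sp treeEN3_m9_1_1_c13 treeEN3_m9_1_1_c14 treeEN3_m9_1_1_c15 treeEN3_m9_1_1_c16

theorem chkEN3_m9_1_1_c12 : TE.chk 0 0 treeEN3_m9_1_1_c12 99991 100001 16 100003 100003 8 = true :=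
  TE.chk_sp rfl chkEN3_m9_1_1_c13 chkEN3_m9_1_1_c14 chkEN3_m9_1_1_c15 chkEN3_m9_1_1_c16

/-- certificate tree -/
def treeEN3_m9_1_1_c0 : TE :=
  .sp treeEN3_m9_1_1_c1 treeEN3_m9_1_1_c2 treeEN3_m9_1_1_c11 treeEN3_m9_1_1_c12

theorem chkEN3_m9_1_1_c0 : TE.chk 0 0 treeEN3_m9_1_1_c0 99991 100001 16 100001 100001 4 = true :=
  TE.chk_sp rfl chkEN3_m9_1_1_c1 chkEN3_m9_1_1_c2 chkEN3_m9_1_1_c11 chkEN3_m9_1_1_c12

/-- certificate tree -/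
def treeEN3_m9_1_1_c19 : TE :=
  .out

theorem chkEN3_m9_1_1_c19 : TE.chk 0 0 treeEN3_m9_1_1_c19 99991 100001 16 100007 100001 8 = true := by decide +kernel

/-- certificate tree -/
def treeEN3_m9_1_1_c21 : TE :=
  .out

theorem chkEN3_m9_1_1_c21 : TE.chk 0 0 treeEN3_m9_1_1_c21 99991 100001 16 100007 100003 8 = true := by decide +kernel

/-- certificate tree -/
def treeEN3_m9_1_1_c17 : TE :=
  .sp treeEN3_m9_1_1_c18 treeEN3_m9_1_1_c19 treeEN3_m9_1_1_c20 treeEN3_m9_1_1_c21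

theorem chkEN3_m9_1_1_c17 : TE.chk 0 0 treeEN3_m9_1_1_c17 99991 100001 16 100003 100001 4 = true :=
  TE.chk_sp rfl chkEN3_m9_1_1_c18 chkEN3_m9_1_1_c19 chkEN3_m9_1_1_c20 chkEN3_m9_1_1_c21

/-- certificate tree -/
def treeEN3_m9_1_1_c23 : TE :=
  .out

theorem chkEN3_m9_1_1_c23 : TE.chk 0 0 treeEN3_m9_1_1_c23 99991 100001 16 100003 100003 4 = true := by decide +kernel

/-- certificate tree -/
def treeEN3_m9_1_1 : TE :=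
  .sp treeEN3_m9_1_1_c0 treeEN3_m9_1_1_c17 treeEN3_m9_1_1_c22 treeEN3_m9_1_1_c23

theorem chkEN3_m9_1_1 : TE.chk 0 0 treeEN3_m9_1_1 99991 100001 16 100001 100001 2 = true :=
  TE.chk_sp rfl chkEN3_m9_1_1_c0 chkEN3_m9_1_1_c17 chkEN3_m9_1_1_c22 chkEN3_m9_1_1_c23

end Pool.Agent.MaxTerm58
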