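import Pool.Agent.MaxTerm58.DEN3_m9_7_p0
import Pool.Agent.MaxTerm58.DEN3_m9_7_p1

/-! Certificates of the family E (ratio 3, mode 0) for the square of half width `1/16` with centre `(-9 + 7 i)/16`. -/

namespace Pool.Agent.MaxTerm58

set_option maxRecDepth 100000

/-- certificate tree -/
def treeEN3_m9_7_0_c1 : TE :=
  .out

theorem chkEN3_m9_7_0_c1 : TE.chk 0 0 treeEN3_m9_7_0_c1 99991 100007 16 100001 99993 8 = true := by decide +kernel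

/-- certificate tree -/
def treeEN3_m9_7_0_c2 : TE :=
  .out

theorem chkEN3_m9_7_0_c2 : TE.chk 0 0 treeEN3_m9_7_0_c2 99991 100007 16 100003 99993 8 = true := by decide +kernel

/-- certificate tree -/
def treeEN3_m9_7_0_c3 : TE :=
  .out

theorem chkEN3_m9_7_0_c3 : TE.chk 0 0 treeEN3_m9_7_0_c3 99991 100007 16 100001 99995 8 = true := by decide +kernel

/-- certificate tree -/
def treeEN3_m9_7_0_c6 : TE :=
  .out

theorem chkEN3_m9_7_0_c6 : TE.chk 0 0 treeEN3_m9_7_0_c6 99991 100007 16 100007 99989 16 = true := by decide +kernel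

/-- certificate tree -/
def treeEN3_m9_7_0_c4 : TE :=
  .sp treeEN3_m9_7_0_c5 treeEN3_m9_7_0_c6 treeEN3_m9_7_0_c7 treeEN3_m9_7_0_c8

theorem chkEN3_m9_7_0_c4 : TE.chk 0 0 treeEN3_m9_7_0_c4 99991 100007 16 100003 99995 8 = true :=
  TE.chk_sp rfl chkEN3_m9_7_0_c5 chkEN3_m9_7_0_c6 chkEN3_m9_7_0_c7 chkEN3_m9_7_0_c8

/-- certificate tree -/
def treeEN3_m9_7_0_c0 : TE :=
  .sp treeEN3_m9_7_0_c1 treeEN3_m9_7_0_c2 treeEN3_m9_7_0_c3 treeEN3_m9_7_0_c4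

theorem chkEN3_m9_7_0_c0 : TE.chk 0 0 treeEN3_m9_7_0_c0 99991 100007 16 100001 99997 4 = true :=
  TE.chk_sp rfl chkEN3_m9_7_0_c1 chkEN3_m9_7_0_c2 chkEN3_m9_7_0_c3 chkEN3_m9_7_0_c4

/-- certificate tree -/
def treeEN3_m9_7_0_c10 : TE :=
  .sp treeEN3_m9_7_0_c11 treeEN3_m9_7_0_c12 treeEN3_m9_7_0_c13 treeEN3_m9_7_0_c14

theorem chkEN3_m9_7_0_c10 : TE.chk 0 0 treeEN3_m9_7_0_c10 99991 100007 16 100001 99999 4 = true :=
  TE.chk_sp rfl chkEN3_m9_7_0_c11 chkEN3_m9_7_0_c12 chkEN3_m9_7_0_c13 chkEN3_m9_7_0_c14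

/-- certificate tree -/
def treeEN3_m9_7_0_c18 : TE :=
  .out

theorem chkEN3_m9_7_0_c18 : TE.chk 0 0 treeEN3_m9_7_0_c18 99991 100007 16 100011 99993 16 = true := by decide +kernel

/-- certificate tree -/
def treeEN3_m9_7_0_c16 : TE :=
  .sp treeEN3_m9_7_0_c17 treeEN3_m9_7_0_c18 treeEN3_m9_7_0_c19 treeEN3_m9_7_0_c20

theorem chkEN3_m9_7_0_c16 : TE.chk 0 0 treeEN3_m9_7_0_c16 99991 100007 16 100005 99997 8 = true :=
  TE.chk_sp rfl chkEN3_m9_7_0_c17 chkEN3_m9_7_0_c18 chkEN3_m9_7_0_c19 chkEN3_m9_7_0_c20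

/-- certificate tree -/
def treeEN3_m9_7_0_c21 : TE :=
  .out

theorem chkEN3_m9_7_0_c21 : TE.chk 0 0 treeEN3_m9_7_0_c21 99991 100007 16 100007 99997 8 = true := by decide +kernel

/-- certificate tree -/
def treeEN3_m9_7_0_c22 : TE :=
  .sp treeEN3_m9_7_0_c23 treeEN3_m9_7_0_c24 treeEN3_m9_7_0_c25 treeEN3_m9_7_0_c26

theorem chkEN3_m9_7_0_c22 : TE.chk 0 0 treeEN3_m9_7_0_c22 99991 100007 16 100005 99999 8 = true :=
  TE.chk_sp rfl chkEN3_m9_7_0_c23 chkEN3_m9_7_0_c24 chkEN3_m9_7_0_c25 chkEN3_m9_7_0_c26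

/-- certificate tree -/
def treeEN3_m9_7_0_c27 : TE :=
  .out

theorem chkEN3_m9_7_0_c27 : TE.chk 0 0 treeEN3_m9_7_0_c27 99991 100007 16 100007 99999 8 = true := by decide +kernel

/-- certificate tree -/
def treeEN3_m9_7_0_c15 : TE :=
  .sp treeEN3_m9_7_0_c16 treeEN3_m9_7_0_c21 treeEN3_m9_7_0_c22 treeEN3_m9_7_0_c27

theorem chkEN3_m9_7_0_c15 : TE.chk 0 0 treeEN3_m9_7_0_c15 99991 100007 16 100003 99999 4 = true :=
  TE.chk_sp rfl chkEN3_m9_7_0_c16 chkEN3_m9_7_0_c21 chkEN3_m9_7_0_c22 chkEN3_m9_7_0_c27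

/-- certificate tree -/
def treeEN3_m9_7_0 : TE :=
  .sp treeEN3_m9_7_0_c0 treeEN3_m9_7_0_c9 treeEN3_m9_7_0_c10 treeEN3_m9_7_0_c15

theorem chkEN3_m9_7_0 : TE.chk 0 0 treeEN3_m9_7_0 99991 100007 16 100001 99999 2 = true :=
  TE.chk_sp rfl chkEN3_m9_7_0_c0 chkEN3_m9_7_0_c9 chkEN3_m9_7_0_c10 chkEN3_m9_7_0_c15

/-- certificate tree -/
def treeEN3_m9_7_1_c4 : TE :=
  .sp treeEN3_m9_7_1_c5 treeEN3_m9_7_1_c6 treeEN3_m9_7_1_c7 treeEN3_m9_7_1_c8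

theorem chkEN3_m9_7_1_c4 : TE.chk 0 0 treeEN3_m9_7_1_c4 99991 100007 16 100003 100003 8 = true :=
  TE.chk_sp rfl chkEN3_m9_7_1_c5 chkEN3_m9_7_1_c6 chkEN3_m9_7_1_c7 chkEN3_m9_7_1_c8

/-- certificate tree -/
def treeEN3_m9_7_1_c0 : TE :=
  .sp treeEN3_m9_7_1_c1 treeEN3_m9_7_1_c2 treeEN3_m9_7_1_c3 treeEN3_m9_7_1_c4

theorem chkEN3_m9_7_1_c0 : TE.chk 0 0 treeEN3_m9_7_1_c0 99991 100007 16 100001 100001 4 = true :=
  TE.chk_sp rfl chkEN3_m9_7_1_c1 chkEN3_m9_7_1_c2 chkEN3_m9_7_1_c3 chkEN3_m9_7_1_c4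

/-- certificate tree -/
def treeEN3_m9_7_1_c10 : TE :=
  .sp treeEN3_m9_7_1_c11 treeEN3_m9_7_1_c12 treeEN3_m9_7_1_c13 treeEN3_m9_7_1_c14

theorem chkEN3_m9_7_1_c10 : TE.chk 0 0 treeEN3_m9_7_1_c10 99991 100007 16 100005 100001 8 = true :=
  TE.chk_sp rfl chkEN3_m9_7_1_c11 chkEN3_m9_7_1_c12 chkEN3_m9_7_1_c13 chkEN3_m9_7_1_c14

/-- certificate tree -/
def treeEN3_m9_7_1_c15 : TE :=
  .out

theorem chkEN3_m9_7_1_c15 : TE.chk 0 0 treeEN3_m9_7_1_c15 99991 100007 16 100007 100001 8 = true := by decide +kernel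

/-- certificate tree -/
def treeEN3_m9_7_1_c20 : TE :=
  .out

theorem chkEN3_m9_7_1_c20 : TE.chk 0 0 treeEN3_m9_7_1_c20 99991 100007 16 100011 100007 16 = true := by decide +kernel

/-- certificate tree -/
def treeEN3_m9_7_1_c16 : TE :=
  .sp treeEN3_m9_7_1_c17 treeEN3_m9_7_1_c18 treeEN3_m9_7_1_c19 treeEN3_m9_7_1_c20

theorem chkEN3_m9_7_1_c16 : TE.chk 0 0 treeEN3_m9_7_1_c16 99991 100007 16 100005 100003 8 = true :=
  TE.chk_sp rfl chkEN3_m9_7_1_c17 chkEN3_m9_7_1_c18 chkEN3_m9_7_1_c19 chkEN3_m9_7_1_c20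

/-- certificate tree -/
def treeEN3_m9_7_1_c21 : TE :=
  .out

theorem chkEN3_m9_7_1_c21 : TE.chk 0 0 treeEN3_m9_7_1_c21 99991 100007 16 100007 100003 8 = true := by decide +kernel

/-- certificate tree -/
def treeEN3_m9_7_1_c9 : TE :=
  .sp treeEN3_m9_7_1_c10 treeEN3_m9_7_1_c15 treeEN3_m9_7_1_c16 treeEN3_m9_7_1_c21

theorem chkEN3_m9_7_1_c9 : TE.chk 0 0 treeEN3_m9_7_1_c9 99991 100007 16 100003 100001 4 = true :=
  TE.chk_sp rfl chkEN3_m9_7_1_c10 chkEN3_m9_7_1_c15 chkEN3_m9_7_1_c16 chkEN3_m9_7_1_c21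

/-- certificate tree -/
def treeEN3_m9_7_1_c23 : TE :=
  .out

theorem chkEN3_m9_7_1_c23 : TE.chk 0 0 treeEN3_m9_7_1_c23 99991 100007 16 100001 100005 8 = true := by decide +kernel

/-- certificate tree -/
def treeEN3_m9_7_1_c28 : TE :=
  .out

theorem chkEN3_m9_7_1_c28 : TE.chk 0 0 treeEN3_m9_7_1_c28 99991 100007 16 100007 100011 16 = true := by decide +kernel

/-- certificate tree -/
def treeEN3_m9_7_1_c24 : TE :=
  .sp treeEN3_m9_7_1_c25 treeEN3_m9_7_1_c26 treeEN3_m9_7_1_c27 treeEN3_m9_7_1_c28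

theorem chkEN3_m9_7_1_c24 : TE.chk 0 0 treeEN3_m9_7_1_c24 99991 100007 16 100003 100005 8 = true :=
  TE.chk_sp rfl chkEN3_m9_7_1_c25 chkEN3_m9_7_1_c26 chkEN3_m9_7_1_c27 chkEN3_m9_7_1_c28

/-- certificate tree -/
def treeEN3_m9_7_1_c29 : TE :=
  .out

theorem chkEN3_m9_7_1_c29 : TE.chk 0 0 treeEN3_m9_7_1_c29 99991 100007 16 100001 100007 8 = true := by decide +kernel

/-- certificate tree -/
def treeEN3_m9_7_1_c30 : TE :=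
  .out

theorem chkEN3_m9_7_1_c30 : TE.chk 0 0 treeEN3_m9_7_1_c30 99991 100007 16 100003 100007 8 = true := by decide +kernel

/-- certificate tree -/
def treeEN3_m9_7_1_c22 : TE :=
  .sp treeEN3_m9_7_1_c23 treeEN3_m9_7_1_c24 treeEN3_m9_7_1_c29 treeEN3_m9_7_1_c30

theorem chkEN3_m9_7_1_c22 : TE.chk 0 0 treeEN3_m9_7_1_c22 99991 100007 16 100001 100003 4 = true :=
  TE.chk_sp rfl chkEN3_m9_7_1_c23 chkEN3_m9_7_1_c24 chkEN3_m9_7_1_c29 chkEN3_m9_7_1_c30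

/-- certificate tree -/
def treeEN3_m9_7_1 : TE :=
  .sp treeEN3_m9_7_1_c0 treeEN3_m9_7_1_c9 treeEN3_m9_7_1_c22 treeEN3_m9_7_1_c31

theorem chkEN3_m9_7_1 : TE.chk 0 0 treeEN3_m9_7_1 99991 100007 16 100001 100001 2 = true :=
  TE.chk_sp rfl chkEN3_m9_7_1_c0 chkEN3_m9_7_1_c9 chkEN3_m9_7_1_c22 chkEN3_m9_7_1_c31

end Pool.Agent.MaxTerm58
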