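import Pool.Agent.MaxTerm58.Chunk

/-! Certificates for the square of half width `1/16` with centre `(-11 + 1 i)/16`. -/

namespace Pool.Agent.MaxTerm58

set_option maxRecDepth 100000

/-- certificate tree -/
def tree_m11_1_c29 : T3 :=
  (.sp (.lf 33 1 [] [648518363204035123823, 848928788859155228090, 1023939218418403486017,
  1125270912691204101483, 1134926753435569458005, 1152923871680312737621, 1100214509373442847287,
  1069914506308323474230, 942967596021848565036, 726488992512755199423] []) (.lf 33 2 [] []
  [672819800331339275365, 878184235809983011977, 906773157369441000804, 1051267199013305554467,
  1069912210529617550794, 1147753237587681186288, 1139539507492253434237, 1132495981649677350910,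
  1031237805121208151832, 1011854401521755716448, 848932674945007056857, 821767013806890385371])
  (.lf 33 1 [] [488982859074842236617, 672819800331337965867, 821763024091906938705,
  906773157369709961033, 1023939218418341618444, 1114966567755184969267, 1125270912688362719270,
  1154022491395291710783, 1154400936632065294713, 1114968170430310477454, 992813261393971473343,
  821767013807035086234] []) .out)

theorem chk_m11_1_c29 : T3.chk tree_m11_1_c29 99989 100001 16 100003 100001 4 = true := by decide +kernel

/-- certificate tree -/
def tree_m11_1_c30 : T3 :=
  (.sp (.lf 33 3 [] [247770431094138971271, 428058212244769324881, 620505962871124240367,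
  648518363205164707312, 821763024092641730598, 848928788860425842034, 1004087263575966330092,
  1114966567754351350235, 1154022491394347467653] []) (.lf 33 3 [] [230909000543549890011,
  395776446948835699538, 428058212244164286027, 620505962871817357880, 821763024093504452335,
  848928788859082611969, 1004087263575760287228, 1114966567753164362167, 1125270912689495445048,
  1154400936631438509259] []) (.lf 33 5 [] [123309399636839602481, 276359210404213273629,
  455422058360721486829, 552717777087771290670, 708037976288285276877, 821763024092870322933,
  957249652353231598530, 1086629683946893188883, 1151932705581268830238] []) .out)

theorem chk_m11_1_c30 : T3.chk tree_m11_1_c30 99989 100001 16 100001 100003 4 = true := by decide +kernel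

/-- certificate tree -/
def tree_m11_1_c31 : T3 :=
  (.sp (.lf 33 1 [] [524526034144560562, 230909000543605461302, 428058212244027446341,
  455422058359875016280, 672819800332018758448, 848928788859163876484, 906773157368711712008,
  933866889144531525928, 1069912210531195920583, 1147753237586481350411, 1146583002962299814638,
  1132495981648333076650, 1051269712908034080940, 1031237805120041089635, 878187994352442506299,
  665564345681540645601, 39580637005105169951] []) .out .out .out)

theorem chk_m11_1_c31 : T3.chk tree_m11_1_c31 99989 100001 16 100003 100003 4 = true := by decide +kernel

end Pool.Agent.MaxTerm58
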