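import Pool.Agent.MaxTerm58.DF3_m11_1_p0
import Pool.Agent.MaxTerm58.DF3_m11_1_p1

/-! Certificates for the square of half width `1/16` with centre `(-11 + 1 i)/16`. -/

namespace Pool.Agent.MaxTerm58

set_option maxRecDepth 100000

/-- certificate tree -/
def tree_m11_1_c0 : T3 :=
  .sp tree_m11_1_c1 tree_m11_1_c2 tree_m11_1_c3 tree_m11_1_c4

theorem chk_m11_1_c0 : T3.chk tree_m11_1_c0 99989 100001 16 99999 99999 2 = true :=
  T3.chk_sp rfl chk_m11_1_c1 chk_m11_1_c2 chk_m11_1_c3 chk_m11_1_c4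

/-- certificate tree -/
def tree_m11_1_c8 : T3 :=
  .sp tree_m11_1_c9 tree_m11_1_c10 tree_m11_1_c11 tree_m11_1_c12

theorem chk_m11_1_c8 : T3.chk tree_m11_1_c8 99989 100001 16 100001 99999 4 = true :=
  T3.chk_sp rfl chk_m11_1_c9 chk_m11_1_c10 chk_m11_1_c11 chk_m11_1_c12

/-- certificate tree -/
def tree_m11_1_c5 : T3 :=
  .sp tree_m11_1_c6 tree_m11_1_c7 tree_m11_1_c8 tree_m11_1_c13

theorem chk_m11_1_c5 : T3.chk tree_m11_1_c5 99989 100001 16 100001 99999 2 = true :=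
  T3.chk_sp rfl chk_m11_1_c6 chk_m11_1_c7 chk_m11_1_c8 chk_m11_1_c13

/-- certificate tree -/
def tree_m11_1_c16 : T3 :=
  .sp tree_m11_1_c17 tree_m11_1_c18 tree_m11_1_c19 tree_m11_1_c20

theorem chk_m11_1_c16 : T3.chk tree_m11_1_c16 99989 100001 16 99999 100001 4 = true :=
  T3.chk_sp rfl chk_m11_1_c17 chk_m11_1_c18 chk_m11_1_c19 chk_m11_1_c20

/-- certificate tree -/
def tree_m11_1_c14 : T3 :=
  .sp tree_m11_1_c15 tree_m11_1_c16 tree_m11_1_c21 tree_m11_1_c22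

theorem chk_m11_1_c14 : T3.chk tree_m11_1_c14 99989 100001 16 99999 100001 2 = true :=
  T3.chk_sp rfl chk_m11_1_c15 chk_m11_1_c16 chk_m11_1_c21 chk_m11_1_c22

/-- certificate tree -/
def tree_m11_1_c24 : T3 :=
  .sp tree_m11_1_c25 tree_m11_1_c26 tree_m11_1_c27 tree_m11_1_c28

theorem chk_m11_1_c24 : T3.chk tree_m11_1_c24 99989 100001 16 100001 100001 4 = true :=
  T3.chk_sp rfl chk_m11_1_c25 chk_m11_1_c26 chk_m11_1_c27 chk_m11_1_c28

/-- certificate tree -/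
def tree_m11_1_c23 : T3 :=
  .sp tree_m11_1_c24 tree_m11_1_c29 tree_m11_1_c30 tree_m11_1_c31

theorem chk_m11_1_c23 : T3.chk tree_m11_1_c23 99989 100001 16 100001 100001 2 = true :=
  T3.chk_sp rfl chk_m11_1_c24 chk_m11_1_c29 chk_m11_1_c30 chk_m11_1_c31

/-- certificate tree -/
def tree_m11_1 : T3 :=
  .sp tree_m11_1_c0 tree_m11_1_c5 tree_m11_1_c14 tree_m11_1_c23

theorem chk_m11_1 : T3.chk tree_m11_1 99989 100001 16 100000 100000 1 = true :=
  T3.chk_sp rfl chk_m11_1_c0 chk_m11_1_c5 chk_m11_1_c14 chk_m11_1_c23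

end Pool.Agent.MaxTerm58
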