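import Pool.Agent.MaxTerm58.DF3_m11_5_p0
import Pool.Agent.MaxTerm58.DF3_m11_5_p1
import Pool.Agent.MaxTerm58.DF3_m11_5_p2

/-! Certificates for the square of half width `1/16` with centre `(-11 + 5 i)/16`. -/

namespace Pool.Agent.MaxTerm58

set_option maxRecDepth 100000

/-- certificate tree -/
def tree_m11_5_c0 : T3 :=
  .sp tree_m11_5_c1 tree_m11_5_c2 tree_m11_5_c3 tree_m11_5_c4

theorem chk_m11_5_c0 : T3.chk tree_m11_5_c0 99989 100005 16 99999 99999 2 = true :=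
  T3.chk_sp rfl chk_m11_5_c1 chk_m11_5_c2 chk_m11_5_c3 chk_m11_5_c4

/-- certificate tree -/
def tree_m11_5_c5 : T3 :=
  .sp tree_m11_5_c6 tree_m11_5_c7 tree_m11_5_c8 tree_m11_5_c9

theorem chk_m11_5_c5 : T3.chk tree_m11_5_c5 99989 100005 16 100001 99999 2 = true :=
  T3.chk_sp rfl chk_m11_5_c6 chk_m11_5_c7 chk_m11_5_c8 chk_m11_5_c9

/-- certificate tree -/
def tree_m11_5_c12 : T3 :=
  .sp tree_m11_5_c13 tree_m11_5_c14 tree_m11_5_c15 tree_m11_5_c16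

theorem chk_m11_5_c12 : T3.chk tree_m11_5_c12 99989 100005 16 99999 100001 4 = true :=
  T3.chk_sp rfl chk_m11_5_c13 chk_m11_5_c14 chk_m11_5_c15 chk_m11_5_c16

/-- certificate tree -/
def tree_m11_5_c10 : T3 :=
  .sp tree_m11_5_c11 tree_m11_5_c12 tree_m11_5_c17 tree_m11_5_c18

theorem chk_m11_5_c10 : T3.chk tree_m11_5_c10 99989 100005 16 99999 100001 2 = true :=
  T3.chk_sp rfl chk_m11_5_c11 chk_m11_5_c12 chk_m11_5_c17 chk_m11_5_c18

/-- certificate tree -/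
def tree_m11_5_c24 : T3 :=
  .sp tree_m11_5_c25 tree_m11_5_c26 tree_m11_5_c27 tree_m11_5_c28

theorem chk_m11_5_c24 : T3.chk tree_m11_5_c24 99989 100005 16 100003 100003 8 = true :=
  T3.chk_sp rfl chk_m11_5_c25 chk_m11_5_c26 chk_m11_5_c27 chk_m11_5_c28

/-- certificate tree -/
def tree_m11_5_c20 : T3 :=
  .sp tree_m11_5_c21 tree_m11_5_c22 tree_m11_5_c23 tree_m11_5_c24

theorem chk_m11_5_c20 : T3.chk tree_m11_5_c20 99989 100005 16 100001 100001 4 = true :=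
  T3.chk_sp rfl chk_m11_5_c21 chk_m11_5_c22 chk_m11_5_c23 chk_m11_5_c24

/-- certificate tree -/
def tree_m11_5_c30 : T3 :=
  .sp tree_m11_5_c31 tree_m11_5_c32 tree_m11_5_c33 tree_m11_5_c34

theorem chk_m11_5_c30 : T3.chk tree_m11_5_c30 99989 100005 16 100001 100003 4 = true :=
  T3.chk_sp rfl chk_m11_5_c31 chk_m11_5_c32 chk_m11_5_c33 chk_m11_5_c34

/-- certificate tree -/
def tree_m11_5_c19 : T3 :=
  .sp tree_m11_5_c20 tree_m11_5_c29 tree_m11_5_c30 tree_m11_5_c35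

theorem chk_m11_5_c19 : T3.chk tree_m11_5_c19 99989 100005 16 100001 100001 2 = true :=
  T3.chk_sp rfl chk_m11_5_c20 chk_m11_5_c29 chk_m11_5_c30 chk_m11_5_c35

/-- certificate tree -/
def tree_m11_5 : T3 :=
  .sp tree_m11_5_c0 tree_m11_5_c5 tree_m11_5_c10 tree_m11_5_c19

theorem chk_m11_5 : T3.chk tree_m11_5 99989 100005 16 100000 100000 1 = true :=
  T3.chk_sp rfl chk_m11_5_c0 chk_m11_5_c5 chk_m11_5_c10 chk_m11_5_c19

end Pool.Agent.MaxTerm58
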