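import Pool.Agent.MaxTerm58.DF3_m7_9_p0
import Pool.Agent.MaxTerm58.DF3_m7_9_p1

/-! Certificates for the square of half width `1/16` with centre `(-7 + 9 i)/16`. -/

namespace Pool.Agent.MaxTerm58

set_option maxRecDepth 100000

/-- certificate tree -/
def tree_m7_9_c0 : T3 :=
  .sp tree_m7_9_c1 tree_m7_9_c2 tree_m7_9_c3 tree_m7_9_c4

theorem chk_m7_9_c0 : T3.chk tree_m7_9_c0 99993 100009 16 99999 99999 2 = true :=
  T3.chk_sp rfl chk_m7_9_c1 chk_m7_9_c2 chk_m7_9_c3 chk_m7_9_c4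

/-- certificate tree -/
def tree_m7_9_c5 : T3 :=
  .sp tree_m7_9_c6 tree_m7_9_c7 tree_m7_9_c8 tree_m7_9_c9

theorem chk_m7_9_c5 : T3.chk tree_m7_9_c5 99993 100009 16 100001 99999 2 = true :=
  T3.chk_sp rfl chk_m7_9_c6 chk_m7_9_c7 chk_m7_9_c8 chk_m7_9_c9

/-- certificate tree -/
def tree_m7_9_c14 : T3 :=
  .sp tree_m7_9_c15 tree_m7_9_c16 tree_m7_9_c17 tree_m7_9_c18

theorem chk_m7_9_c14 : T3.chk tree_m7_9_c14 99993 100009 16 99999 100003 4 = true :=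
  T3.chk_sp rfl chk_m7_9_c15 chk_m7_9_c16 chk_m7_9_c17 chk_m7_9_c18

/-- certificate tree -/
def tree_m7_9_c10 : T3 :=
  .sp tree_m7_9_c11 tree_m7_9_c12 tree_m7_9_c13 tree_m7_9_c14

theorem chk_m7_9_c10 : T3.chk tree_m7_9_c10 99993 100009 16 99999 100001 2 = true :=
  T3.chk_sp rfl chk_m7_9_c11 chk_m7_9_c12 chk_m7_9_c13 chk_m7_9_c14

/-- certificate tree -/
def tree_m7_9_c19 : T3 :=
  .sp tree_m7_9_c20 tree_m7_9_c21 tree_m7_9_c22 tree_m7_9_c23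

theorem chk_m7_9_c19 : T3.chk tree_m7_9_c19 99993 100009 16 100001 100001 2 = true :=
  T3.chk_sp rfl chk_m7_9_c20 chk_m7_9_c21 chk_m7_9_c22 chk_m7_9_c23

/-- certificate tree -/
def tree_m7_9 : T3 :=
  .sp tree_m7_9_c0 tree_m7_9_c5 tree_m7_9_c10 tree_m7_9_c19

theorem chk_m7_9 : T3.chk tree_m7_9 99993 100009 16 100000 100000 1 = true :=
  T3.chk_sp rfl chk_m7_9_c0 chk_m7_9_c5 chk_m7_9_c10 chk_m7_9_c19

end Pool.Agent.MaxTerm58
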