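import Pool.Agent.MaxTerm58.DF3_m9_7_p0
import Pool.Agent.MaxTerm58.DF3_m9_7_p1

/-! Certificates for the square of half width `1/16` with centre `(-9 + 7 i)/16`. -/

namespace Pool.Agent.MaxTerm58

set_option maxRecDepth 100000

/-- certificate tree -/
def tree_m9_7_c0 : T3 :=
  .sp tree_m9_7_c1 tree_m9_7_c2 tree_m9_7_c3 tree_m9_7_c4

theorem chk_m9_7_c0 : T3.chk tree_m9_7_c0 99991 100007 16 99999 99999 2 = true :=
  T3.chk_sp rfl chk_m9_7_c1 chk_m9_7_c2 chk_m9_7_c3 chk_m9_7_c4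

/-- certificate tree -/
def tree_m9_7_c5 : T3 :=
  .sp tree_m9_7_c6 tree_m9_7_c7 tree_m9_7_c8 tree_m9_7_c9

theorem chk_m9_7_c5 : T3.chk tree_m9_7_c5 99991 100007 16 100001 99999 2 = true :=
  T3.chk_sp rfl chk_m9_7_c6 chk_m9_7_c7 chk_m9_7_c8 chk_m9_7_c9

/-- certificate tree -/
def tree_m9_7_c12 : T3 :=
  .sp tree_m9_7_c13 tree_m9_7_c14 tree_m9_7_c15 tree_m9_7_c16

theorem chk_m9_7_c12 : T3.chk tree_m9_7_c12 99991 100007 16 99999 100001 4 = true :=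
  T3.chk_sp rfl chk_m9_7_c13 chk_m9_7_c14 chk_m9_7_c15 chk_m9_7_c16

/-- certificate tree -/
def tree_m9_7_c18 : T3 :=
  .sp tree_m9_7_c19 tree_m9_7_c20 tree_m9_7_c21 tree_m9_7_c22

theorem chk_m9_7_c18 : T3.chk tree_m9_7_c18 99991 100007 16 99999 100003 4 = true :=
  T3.chk_sp rfl chk_m9_7_c19 chk_m9_7_c20 chk_m9_7_c21 chk_m9_7_c22

/-- certificate tree -/
def tree_m9_7_c10 : T3 :=
  .sp tree_m9_7_c11 tree_m9_7_c12 tree_m9_7_c17 tree_m9_7_c18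

theorem chk_m9_7_c10 : T3.chk tree_m9_7_c10 99991 100007 16 99999 100001 2 = true :=
  T3.chk_sp rfl chk_m9_7_c11 chk_m9_7_c12 chk_m9_7_c17 chk_m9_7_c18

/-- certificate tree -/
def tree_m9_7_c27 : T3 :=
  .sq tree_m9_7_c28 tree_m9_7_c29 tree_m9_7_c30 tree_m9_7_c31

theorem chk_m9_7_c27 : T3.chk tree_m9_7_c27 99991 100007 16 100001 100003 8 = true :=
  T3.chk_sq rfl chk_m9_7_c28 chk_m9_7_c29 chk_m9_7_c30 chk_m9_7_c31

/-- certificate tree -/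
def tree_m9_7_c24 : T3 :=
  .sp tree_m9_7_c25 tree_m9_7_c26 tree_m9_7_c27 tree_m9_7_c32

theorem chk_m9_7_c24 : T3.chk tree_m9_7_c24 99991 100007 16 100001 100001 4 = true :=
  T3.chk_sp rfl chk_m9_7_c25 chk_m9_7_c26 chk_m9_7_c27 chk_m9_7_c32

/-- certificate tree -/
def tree_m9_7_c23 : T3 :=
  .sp tree_m9_7_c24 tree_m9_7_c33 tree_m9_7_c34 tree_m9_7_c35

theorem chk_m9_7_c23 : T3.chk tree_m9_7_c23 99991 100007 16 100001 100001 2 = true :=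
  T3.chk_sp rfl chk_m9_7_c24 chk_m9_7_c33 chk_m9_7_c34 chk_m9_7_c35

/-- certificate tree -/
def tree_m9_7 : T3 :=
  .sp tree_m9_7_c0 tree_m9_7_c5 tree_m9_7_c10 tree_m9_7_c23

theorem chk_m9_7 : T3.chk tree_m9_7 99991 100007 16 100000 100000 1 = true :=
  T3.chk_sp rfl chk_m9_7_c0 chk_m9_7_c5 chk_m9_7_c10 chk_m9_7_c23

end Pool.Agent.MaxTerm58
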