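import Pool.Agent.MaxTerm58.DM12_00_p0
import Pool.Agent.MaxTerm58.DM12_00_p1

/-! Certificates of the family M, gaps 1 and 2, modes 0 and 0. -/

namespace Pool.Agent.MaxTerm58

set_option maxRecDepth 100000

/-- certificate tree -/
def treesM12_00_13 : TM :=
  .out

theorem chkM12_00_13 : TM.chk 1 2 0 0 treesM12_00_13 100003 100013 16 = true := by decide +kernel

/-- certificate tree -/
def treesM12_00_20 : TM :=
  .out

theorem chkM12_00_20 : TM.chk 1 2 0 0 treesM12_00_20 100005 100013 16 = true := by decide +kernel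

/-- certificate tree -/
def treesM12_00_27 : TM :=
  .out

theorem chkM12_00_27 : TM.chk 1 2 0 0 treesM12_00_27 100007 100013 16 = true := by decide +kernel

/-- certificate tree -/
def treesM12_00_33 : TM :=
  .out

theorem chkM12_00_33 : TM.chk 1 2 0 0 treesM12_00_33 100009 100011 16 = true := by decide +kernel

/-- certificate tree -/
def treesM12_00_34 : TM :=
  .out

theorem chkM12_00_34 : TM.chk 1 2 0 0 treesM12_00_34 100009 100013 16 = true := by decide +kernel

/-- certificate tree -/
def treesM12_00_39 : TM :=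
  .out

theorem chkM12_00_39 : TM.chk 1 2 0 0 treesM12_00_39 100011 100009 16 = true := by decide +kernel

/-- certificate tree -/
def treesM12_00_40 : TM :=
  .out

theorem chkM12_00_40 : TM.chk 1 2 0 0 treesM12_00_40 100011 100011 16 = true := by decide +kernel

/-- certificate tree -/
def treesM12_00_41 : TM :=
  .out

theorem chkM12_00_41 : TM.chk 1 2 0 0 treesM12_00_41 100011 100013 16 = true := by decide +kernel

/-- certificate tree -/
def treesM12_00_43 : TM :=
  .out

theorem chkM12_00_43 : TM.chk 1 2 0 0 treesM12_00_43 100013 100003 16 = true := by decide +kernel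

/-- certificate tree -/
def treesM12_00_44 : TM :=
  .out

theorem chkM12_00_44 : TM.chk 1 2 0 0 treesM12_00_44 100013 100005 16 = true := by decide +kernel

/-- certificate tree -/
def treesM12_00_45 : TM :=
  .out

theorem chkM12_00_45 : TM.chk 1 2 0 0 treesM12_00_45 100013 100007 16 = true := by decide +kernel

/-- certificate tree -/
def treesM12_00_46 : TM :=
  .out

theorem chkM12_00_46 : TM.chk 1 2 0 0 treesM12_00_46 100013 100009 16 = true := by decide +kernel

/-- certificate tree -/
def treesM12_00_47 : TM :=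
  .out

theorem chkM12_00_47 : TM.chk 1 2 0 0 treesM12_00_47 100013 100011 16 = true := by decide +kernel

/-- certificate tree -/
def treesM12_00_48 : TM :=
  .out

theorem chkM12_00_48 : TM.chk 1 2 0 0 treesM12_00_48 100013 100013 16 = true := by decide +kernel

/-- certificate trees -/
def treesM12_00 : List TM :=
  [treesM12_00_0, treesM12_00_1, treesM12_00_2, treesM12_00_3, treesM12_00_4, treesM12_00_5,
  treesM12_00_6, treesM12_00_7, treesM12_00_8, treesM12_00_9, treesM12_00_10, treesM12_00_11,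
  treesM12_00_12, treesM12_00_13, treesM12_00_14, treesM12_00_15, treesM12_00_16, treesM12_00_17,
  treesM12_00_18, treesM12_00_19, treesM12_00_20, treesM12_00_21, treesM12_00_22, treesM12_00_23,
  treesM12_00_24, treesM12_00_25, treesM12_00_26, treesM12_00_27, treesM12_00_28, treesM12_00_29,
  treesM12_00_30, treesM12_00_31, treesM12_00_32, treesM12_00_33, treesM12_00_34, treesM12_00_35,
  treesM12_00_36, treesM12_00_37, treesM12_00_38, treesM12_00_39, treesM12_00_40, treesM12_00_41,
  treesM12_00_42, treesM12_00_43, treesM12_00_44, treesM12_00_45, treesM12_00_46, treesM12_00_47,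
  treesM12_00_48]

theorem chkM12_00 : chkGridM 1 2 0 0 treesM12_00 0 = true :=
  chkGridM_cons rfl rfl chkM12_00_0 (chkGridM_cons rfl rfl chkM12_00_1 (chkGridM_cons rfl rfl
  chkM12_00_2 (chkGridM_cons rfl rfl chkM12_00_3 (chkGridM_cons rfl rfl chkM12_00_4 (chkGridM_cons
  rfl rfl chkM12_00_5 (chkGridM_cons rfl rfl chkM12_00_6 (chkGridM_cons rfl rfl chkM12_00_7
  (chkGridM_cons rfl rfl chkM12_00_8 (chkGridM_cons rfl rfl chkM12_00_9 (chkGridM_cons rfl rfl
  chkM12_00_10 (chkGridM_cons rfl rfl chkM12_00_11 (chkGridM_cons rfl rfl chkM12_00_12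
  (chkGridM_cons rfl rfl chkM12_00_13 (chkGridM_cons rfl rfl chkM12_00_14 (chkGridM_cons rfl rfl
  chkM12_00_15 (chkGridM_cons rfl rfl chkM12_00_16 (chkGridM_cons rfl rfl chkM12_00_17
  (chkGridM_cons rfl rfl chkM12_00_18 (chkGridM_cons rfl rfl chkM12_00_19 (chkGridM_cons rfl rfl
  chkM12_00_20 (chkGridM_cons rfl rfl chkM12_00_21 (chkGridM_cons rfl rfl chkM12_00_22
  (chkGridM_cons rfl rfl chkM12_00_23 (chkGridM_cons rfl rfl chkM12_00_24 (chkGridM_cons rfl rfl
  chkM12_00_25 (chkGridM_cons rfl rfl chkM12_00_26 (chkGridM_cons rfl rfl chkM12_00_27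
  (chkGridM_cons rfl rfl chkM12_00_28 (chkGridM_cons rfl rfl chkM12_00_29 (chkGridM_cons rfl rfl
  chkM12_00_30 (chkGridM_cons rfl rfl chkM12_00_31 (chkGridM_cons rfl rfl chkM12_00_32
  (chkGridM_cons rfl rfl chkM12_00_33 (chkGridM_cons rfl rfl chkM12_00_34 (chkGridM_cons rfl rfl
  chkM12_00_35 (chkGridM_cons rfl rfl chkM12_00_36 (chkGridM_cons rfl rfl chkM12_00_37
  (chkGridM_cons rfl rfl chkM12_00_38 (chkGridM_cons rfl rfl chkM12_00_39 (chkGridM_cons rfl rfl
  chkM12_00_40 (chkGridM_cons rfl rfl chkM12_00_41 (chkGridM_cons rfl rfl chkM12_00_42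
  (chkGridM_cons rfl rfl chkM12_00_43 (chkGridM_cons rfl rfl chkM12_00_44 (chkGridM_cons rfl rfl
  chkM12_00_45 (chkGridM_cons rfl rfl chkM12_00_46 (chkGridM_cons rfl rfl chkM12_00_47
  (chkGridM_cons rfl rfl chkM12_00_48 rfl))))))))))))))))))))))))))))))))))))))))))))))))

end Pool.Agent.MaxTerm58
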