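import Pool.Agent.MaxTerm58.DM12_01_p0
import Pool.Agent.MaxTerm58.DM12_01_p1

/-! Certificates of the family M, gaps 1 and 2, modes 0 and 1. -/

namespace Pool.Agent.MaxTerm58

set_option maxRecDepth 100000

/-- certificate tree -/
def treesM12_01_13 : TM :=
  .out

theorem chkM12_01_13 : TM.chk 1 2 0 1 treesM12_01_13 100003 100013 16 = true := by decide +kernel

/-- certificate tree -/
def treesM12_01_20 : TM :=
  .out

theorem chkM12_01_20 : TM.chk 1 2 0 1 treesM12_01_20 100005 100013 16 = true := by decide +kernel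

/-- certificate tree -/
def treesM12_01_27 : TM :=
  .out

theorem chkM12_01_27 : TM.chk 1 2 0 1 treesM12_01_27 100007 100013 16 = true := by decide +kernel

/-- certificate tree -/
def treesM12_01_33 : TM :=
  .out

theorem chkM12_01_33 : TM.chk 1 2 0 1 treesM12_01_33 100009 100011 16 = true := by decide +kernel

/-- certificate tree -/
def treesM12_01_34 : TM :=
  .out

theorem chkM12_01_34 : TM.chk 1 2 0 1 treesM12_01_34 100009 100013 16 = true := by decide +kernel

/-- certificate tree -/
def treesM12_01_39 : TM :=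
  .out

theorem chkM12_01_39 : TM.chk 1 2 0 1 treesM12_01_39 100011 100009 16 = true := by decide +kernel

/-- certificate tree -/
def treesM12_01_40 : TM :=
  .out

theorem chkM12_01_40 : TM.chk 1 2 0 1 treesM12_01_40 100011 100011 16 = true := by decide +kernel

/-- certificate tree -/
def treesM12_01_41 : TM :=
  .out

theorem chkM12_01_41 : TM.chk 1 2 0 1 treesM12_01_41 100011 100013 16 = true := by decide +kernel

/-- certificate tree -/
def treesM12_01_43 : TM :=
  .out

theorem chkM12_01_43 : TM.chk 1 2 0 1 treesM12_01_43 100013 100003 16 = true := by decide +kernel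

/-- certificate tree -/
def treesM12_01_44 : TM :=
  .out

theorem chkM12_01_44 : TM.chk 1 2 0 1 treesM12_01_44 100013 100005 16 = true := by decide +kernel

/-- certificate tree -/
def treesM12_01_45 : TM :=
  .out

theorem chkM12_01_45 : TM.chk 1 2 0 1 treesM12_01_45 100013 100007 16 = true := by decide +kernel

/-- certificate tree -/
def treesM12_01_46 : TM :=
  .out

theorem chkM12_01_46 : TM.chk 1 2 0 1 treesM12_01_46 100013 100009 16 = true := by decide +kernel

/-- certificate tree -/
def treesM12_01_47 : TM :=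
  .out

theorem chkM12_01_47 : TM.chk 1 2 0 1 treesM12_01_47 100013 100011 16 = true := by decide +kernel

/-- certificate tree -/
def treesM12_01_48 : TM :=
  .out

theorem chkM12_01_48 : TM.chk 1 2 0 1 treesM12_01_48 100013 100013 16 = true := by decide +kernel

/-- certificate trees -/
def treesM12_01 : List TM :=
  [treesM12_01_0, treesM12_01_1, treesM12_01_2, treesM12_01_3, treesM12_01_4, treesM12_01_5,
  treesM12_01_6, treesM12_01_7, treesM12_01_8, treesM12_01_9, treesM12_01_10, treesM12_01_11,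
  treesM12_01_12, treesM12_01_13, treesM12_01_14, treesM12_01_15, treesM12_01_16, treesM12_01_17,
  treesM12_01_18, treesM12_01_19, treesM12_01_20, treesM12_01_21, treesM12_01_22, treesM12_01_23,
  treesM12_01_24, treesM12_01_25, treesM12_01_26, treesM12_01_27, treesM12_01_28, treesM12_01_29,
  treesM12_01_30, treesM12_01_31, treesM12_01_32, treesM12_01_33, treesM12_01_34, treesM12_01_35,
  treesM12_01_36, treesM12_01_37, treesM12_01_38, treesM12_01_39, treesM12_01_40, treesM12_01_41,
  treesM12_01_42, treesM12_01_43, treesM12_01_44, treesM12_01_45, treesM12_01_46, treesM12_01_47,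
  treesM12_01_48]

theorem chkM12_01 : chkGridM 1 2 0 1 treesM12_01 0 = true :=
  chkGridM_cons rfl rfl chkM12_01_0 (chkGridM_cons rfl rfl chkM12_01_1 (chkGridM_cons rfl rfl
  chkM12_01_2 (chkGridM_cons rfl rfl chkM12_01_3 (chkGridM_cons rfl rfl chkM12_01_4 (chkGridM_cons
  rfl rfl chkM12_01_5 (chkGridM_cons rfl rfl chkM12_01_6 (chkGridM_cons rfl rfl chkM12_01_7
  (chkGridM_cons rfl rfl chkM12_01_8 (chkGridM_cons rfl rfl chkM12_01_9 (chkGridM_cons rfl rfl
  chkM12_01_10 (chkGridM_cons rfl rfl chkM12_01_11 (chkGridM_cons rfl rfl chkM12_01_12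
  (chkGridM_cons rfl rfl chkM12_01_13 (chkGridM_cons rfl rfl chkM12_01_14 (chkGridM_cons rfl rfl
  chkM12_01_15 (chkGridM_cons rfl rfl chkM12_01_16 (chkGridM_cons rfl rfl chkM12_01_17
  (chkGridM_cons rfl rfl chkM12_01_18 (chkGridM_cons rfl rfl chkM12_01_19 (chkGridM_cons rfl rfl
  chkM12_01_20 (chkGridM_cons rfl rfl chkM12_01_21 (chkGridM_cons rfl rfl chkM12_01_22
  (chkGridM_cons rfl rfl chkM12_01_23 (chkGridM_cons rfl rfl chkM12_01_24 (chkGridM_cons rfl rfl
  chkM12_01_25 (chkGridM_cons rfl rfl chkM12_01_26 (chkGridM_cons rfl rfl chkM12_01_27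
  (chkGridM_cons rfl rfl chkM12_01_28 (chkGridM_cons rfl rfl chkM12_01_29 (chkGridM_cons rfl rfl
  chkM12_01_30 (chkGridM_cons rfl rfl chkM12_01_31 (chkGridM_cons rfl rfl chkM12_01_32
  (chkGridM_cons rfl rfl chkM12_01_33 (chkGridM_cons rfl rfl chkM12_01_34 (chkGridM_cons rfl rfl
  chkM12_01_35 (chkGridM_cons rfl rfl chkM12_01_36 (chkGridM_cons rfl rfl chkM12_01_37
  (chkGridM_cons rfl rfl chkM12_01_38 (chkGridM_cons rfl rfl chkM12_01_39 (chkGridM_cons rfl rfl
  chkM12_01_40 (chkGridM_cons rfl rfl chkM12_01_41 (chkGridM_cons rfl rfl chkM12_01_42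
  (chkGridM_cons rfl rfl chkM12_01_43 (chkGridM_cons rfl rfl chkM12_01_44 (chkGridM_cons rfl rfl
  chkM12_01_45 (chkGridM_cons rfl rfl chkM12_01_46 (chkGridM_cons rfl rfl chkM12_01_47
  (chkGridM_cons rfl rfl chkM12_01_48 rfl))))))))))))))))))))))))))))))))))))))))))))))))

end Pool.Agent.MaxTerm58
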