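import Pool.Agent.MaxTerm58.DM12_10_p0
import Pool.Agent.MaxTerm58.DM12_10_p1

/-! Certificates of the family M, gaps 1 and 2, modes 1 and 0. -/

namespace Pool.Agent.MaxTerm58

set_option maxRecDepth 100000

/-- certificate tree -/
def treesM12_10_13 : TM :=
  .out

theorem chkM12_10_13 : TM.chk 1 2 1 0 treesM12_10_13 100003 100013 16 = true := by decide +kernel

/-- certificate tree -/
def treesM12_10_14 : TM :=
  .sq treesM12_10_14_c0 treesM12_10_14_c1 treesM12_10_14_c2 treesM12_10_14_c3

theorem chkM12_10_14 : TM.chk 1 2 1 0 treesM12_10_14 100005 100001 16 = true :=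
  TM.chk_sq rfl chkM12_10_14_c0 chkM12_10_14_c1 chkM12_10_14_c2 chkM12_10_14_c3

/-- certificate tree -/
def treesM12_10_15 : TM :=
  .sq treesM12_10_15_c0 treesM12_10_15_c1 treesM12_10_15_c2 treesM12_10_15_c3

theorem chkM12_10_15 : TM.chk 1 2 1 0 treesM12_10_15 100005 100003 16 = true :=
  TM.chk_sq rfl chkM12_10_15_c0 chkM12_10_15_c1 chkM12_10_15_c2 chkM12_10_15_c3

/-- certificate tree -/
def treesM12_10_20 : TM :=
  .out

theorem chkM12_10_20 : TM.chk 1 2 1 0 treesM12_10_20 100005 100013 16 = true := by decide +kernel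

/-- certificate tree -/
def treesM12_10_21 : TM :=
  .sq treesM12_10_21_c0 treesM12_10_21_c1 treesM12_10_21_c2 treesM12_10_21_c3

theorem chkM12_10_21 : TM.chk 1 2 1 0 treesM12_10_21 100007 100001 16 = true :=
  TM.chk_sq rfl chkM12_10_21_c0 chkM12_10_21_c1 chkM12_10_21_c2 chkM12_10_21_c3

/-- certificate tree -/
def treesM12_10_22 : TM :=
  .sq treesM12_10_22_c0 treesM12_10_22_c1 treesM12_10_22_c2 treesM12_10_22_c3

theorem chkM12_10_22 : TM.chk 1 2 1 0 treesM12_10_22 100007 100003 16 = true :=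
  TM.chk_sq rfl chkM12_10_22_c0 chkM12_10_22_c1 chkM12_10_22_c2 chkM12_10_22_c3

/-- certificate tree -/
def treesM12_10_27 : TM :=
  .out

theorem chkM12_10_27 : TM.chk 1 2 1 0 treesM12_10_27 100007 100013 16 = true := by decide +kernel

/-- certificate tree -/
def treesM12_10_33 : TM :=
  .out

theorem chkM12_10_33 : TM.chk 1 2 1 0 treesM12_10_33 100009 100011 16 = true := by decide +kernel

/-- certificate tree -/
def treesM12_10_34 : TM :=
  .out

theorem chkM12_10_34 : TM.chk 1 2 1 0 treesM12_10_34 100009 100013 16 = true := by decide +kernel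

/-- certificate tree -/
def treesM12_10_39 : TM :=
  .out

theorem chkM12_10_39 : TM.chk 1 2 1 0 treesM12_10_39 100011 100009 16 = true := by decide +kernel

/-- certificate tree -/
def treesM12_10_40 : TM :=
  .out

theorem chkM12_10_40 : TM.chk 1 2 1 0 treesM12_10_40 100011 100011 16 = true := by decide +kernel

/-- certificate tree -/
def treesM12_10_41 : TM :=
  .out

theorem chkM12_10_41 : TM.chk 1 2 1 0 treesM12_10_41 100011 100013 16 = true := by decide +kernel

/-- certificate tree -/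
def treesM12_10_43 : TM :=
  .out

theorem chkM12_10_43 : TM.chk 1 2 1 0 treesM12_10_43 100013 100003 16 = true := by decide +kernel

/-- certificate tree -/
def treesM12_10_44 : TM :=
  .out

theorem chkM12_10_44 : TM.chk 1 2 1 0 treesM12_10_44 100013 100005 16 = true := by decide +kernel

/-- certificate tree -/
def treesM12_10_45 : TM :=
  .out

theorem chkM12_10_45 : TM.chk 1 2 1 0 treesM12_10_45 100013 100007 16 = true := by decide +kernel

/-- certificate tree -/
def treesM12_10_46 : TM :=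
  .out

theorem chkM12_10_46 : TM.chk 1 2 1 0 treesM12_10_46 100013 100009 16 = true := by decide +kernel

/-- certificate tree -/
def treesM12_10_47 : TM :=
  .out

theorem chkM12_10_47 : TM.chk 1 2 1 0 treesM12_10_47 100013 100011 16 = true := by decide +kernel

/-- certificate tree -/
def treesM12_10_48 : TM :=
  .out

theorem chkM12_10_48 : TM.chk 1 2 1 0 treesM12_10_48 100013 100013 16 = true := by decide +kernel

/-- certificate trees -/
def treesM12_10 : List TM :=
  [treesM12_10_0, treesM12_10_1, treesM12_10_2, treesM12_10_3, treesM12_10_4, treesM12_10_5,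
  treesM12_10_6, treesM12_10_7, treesM12_10_8, treesM12_10_9, treesM12_10_10, treesM12_10_11,
  treesM12_10_12, treesM12_10_13, treesM12_10_14, treesM12_10_15, treesM12_10_16, treesM12_10_17,
  treesM12_10_18, treesM12_10_19, treesM12_10_20, treesM12_10_21, treesM12_10_22, treesM12_10_23,
  treesM12_10_24, treesM12_10_25, treesM12_10_26, treesM12_10_27, treesM12_10_28, treesM12_10_29,
  treesM12_10_30, treesM12_10_31, treesM12_10_32, treesM12_10_33, treesM12_10_34, treesM12_10_35,
  treesM12_10_36, treesM12_10_37, treesM12_10_38, treesM12_10_39, treesM12_10_40, treesM12_10_41,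
  treesM12_10_42, treesM12_10_43, treesM12_10_44, treesM12_10_45, treesM12_10_46, treesM12_10_47,
  treesM12_10_48]

theorem chkM12_10 : chkGridM 1 2 1 0 treesM12_10 0 = true :=
  chkGridM_cons rfl rfl chkM12_10_0 (chkGridM_cons rfl rfl chkM12_10_1 (chkGridM_cons rfl rfl
  chkM12_10_2 (chkGridM_cons rfl rfl chkM12_10_3 (chkGridM_cons rfl rfl chkM12_10_4 (chkGridM_cons
  rfl rfl chkM12_10_5 (chkGridM_cons rfl rfl chkM12_10_6 (chkGridM_cons rfl rfl chkM12_10_7
  (chkGridM_cons rfl rfl chkM12_10_8 (chkGridM_cons rfl rfl chkM12_10_9 (chkGridM_cons rfl rfl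
  chkM12_10_10 (chkGridM_cons rfl rfl chkM12_10_11 (chkGridM_cons rfl rfl chkM12_10_12
  (chkGridM_cons rfl rfl chkM12_10_13 (chkGridM_cons rfl rfl chkM12_10_14 (chkGridM_cons rfl rfl
  chkM12_10_15 (chkGridM_cons rfl rfl chkM12_10_16 (chkGridM_cons rfl rfl chkM12_10_17
  (chkGridM_cons rfl rfl chkM12_10_18 (chkGridM_cons rfl rfl chkM12_10_19 (chkGridM_cons rfl rfl
  chkM12_10_20 (chkGridM_cons rfl rfl chkM12_10_21 (chkGridM_cons rfl rfl chkM12_10_22
  (chkGridM_cons rfl rfl chkM12_10_23 (chkGridM_cons rfl rfl chkM12_10_24 (chkGridM_cons rfl rfl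
  chkM12_10_25 (chkGridM_cons rfl rfl chkM12_10_26 (chkGridM_cons rfl rfl chkM12_10_27
  (chkGridM_cons rfl rfl chkM12_10_28 (chkGridM_cons rfl rfl chkM12_10_29 (chkGridM_cons rfl rfl
  chkM12_10_30 (chkGridM_cons rfl rfl chkM12_10_31 (chkGridM_cons rfl rfl chkM12_10_32
  (chkGridM_cons rfl rfl chkM12_10_33 (chkGridM_cons rfl rfl chkM12_10_34 (chkGridM_cons rfl rfl
  chkM12_10_35 (chkGridM_cons rfl rfl chkM12_10_36 (chkGridM_cons rfl rfl chkM12_10_37
  (chkGridM_cons rfl rfl chkM12_10_38 (chkGridM_cons rfl rfl chkM12_10_39 (chkGridM_cons rfl rfl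
  chkM12_10_40 (chkGridM_cons rfl rfl chkM12_10_41 (chkGridM_cons rfl rfl chkM12_10_42
  (chkGridM_cons rfl rfl chkM12_10_43 (chkGridM_cons rfl rfl chkM12_10_44 (chkGridM_cons rfl rfl
  chkM12_10_45 (chkGridM_cons rfl rfl chkM12_10_46 (chkGridM_cons rfl rfl chkM12_10_47
  (chkGridM_cons rfl rfl chkM12_10_48 rfl))))))))))))))))))))))))))))))))))))))))))))))))

end Pool.Agent.MaxTerm58
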