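import Pool.Agent.MaxTerm58.DM12_11_p0
import Pool.Agent.MaxTerm58.DM12_11_p1

/-! Certificates of the family M, gaps 1 and 2, modes 1 and 1. -/

namespace Pool.Agent.MaxTerm58

set_option maxRecDepth 100000

/-- certificate tree -/
def treesM12_11_13 : TM :=
  .out

theorem chkM12_11_13 : TM.chk 1 2 1 1 treesM12_11_13 100003 100013 16 = true := by decide +kernel

/-- certificate tree -/
def treesM12_11_14 : TM :=
  .sq treesM12_11_14_c0 treesM12_11_14_c1 treesM12_11_14_c2 treesM12_11_14_c3

theorem chkM12_11_14 : TM.chk 1 2 1 1 treesM12_11_14 100005 100001 16 = true :=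
  TM.chk_sq rfl chkM12_11_14_c0 chkM12_11_14_c1 chkM12_11_14_c2 chkM12_11_14_c3

/-- certificate tree -/
def treesM12_11_15 : TM :=
  .sq treesM12_11_15_c0 treesM12_11_15_c1 treesM12_11_15_c2 treesM12_11_15_c3

theorem chkM12_11_15 : TM.chk 1 2 1 1 treesM12_11_15 100005 100003 16 = true :=
  TM.chk_sq rfl chkM12_11_15_c0 chkM12_11_15_c1 chkM12_11_15_c2 chkM12_11_15_c3

/-- certificate tree -/
def treesM12_11_20 : TM :=
  .out

theorem chkM12_11_20 : TM.chk 1 2 1 1 treesM12_11_20 100005 100013 16 = true := by decide +kernel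

/-- certificate tree -/
def treesM12_11_21 : TM :=
  .sq treesM12_11_21_c0 treesM12_11_21_c1 treesM12_11_21_c2 treesM12_11_21_c3

theorem chkM12_11_21 : TM.chk 1 2 1 1 treesM12_11_21 100007 100001 16 = true :=
  TM.chk_sq rfl chkM12_11_21_c0 chkM12_11_21_c1 chkM12_11_21_c2 chkM12_11_21_c3

/-- certificate tree -/
def treesM12_11_22 : TM :=
  .sq treesM12_11_22_c0 treesM12_11_22_c1 treesM12_11_22_c2 treesM12_11_22_c3

theorem chkM12_11_22 : TM.chk 1 2 1 1 treesM12_11_22 100007 100003 16 = true :=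
  TM.chk_sq rfl chkM12_11_22_c0 chkM12_11_22_c1 chkM12_11_22_c2 chkM12_11_22_c3

/-- certificate tree -/
def treesM12_11_27 : TM :=
  .out

theorem chkM12_11_27 : TM.chk 1 2 1 1 treesM12_11_27 100007 100013 16 = true := by decide +kernel

/-- certificate tree -/
def treesM12_11_33 : TM :=
  .out

theorem chkM12_11_33 : TM.chk 1 2 1 1 treesM12_11_33 100009 100011 16 = true := by decide +kernel

/-- certificate tree -/
def treesM12_11_34 : TM :=
  .out

theorem chkM12_11_34 : TM.chk 1 2 1 1 treesM12_11_34 100009 100013 16 = true := by decide +kernel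

/-- certificate tree -/
def treesM12_11_39 : TM :=
  .out

theorem chkM12_11_39 : TM.chk 1 2 1 1 treesM12_11_39 100011 100009 16 = true := by decide +kernel

/-- certificate tree -/
def treesM12_11_40 : TM :=
  .out

theorem chkM12_11_40 : TM.chk 1 2 1 1 treesM12_11_40 100011 100011 16 = true := by decide +kernel

/-- certificate tree -/
def treesM12_11_41 : TM :=
  .out

theorem chkM12_11_41 : TM.chk 1 2 1 1 treesM12_11_41 100011 100013 16 = true := by decide +kernel

/-- certificate tree -/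
def treesM12_11_43 : TM :=
  .out

theorem chkM12_11_43 : TM.chk 1 2 1 1 treesM12_11_43 100013 100003 16 = true := by decide +kernel

/-- certificate tree -/
def treesM12_11_44 : TM :=
  .out

theorem chkM12_11_44 : TM.chk 1 2 1 1 treesM12_11_44 100013 100005 16 = true := by decide +kernel

/-- certificate tree -/
def treesM12_11_45 : TM :=
  .out

theorem chkM12_11_45 : TM.chk 1 2 1 1 treesM12_11_45 100013 100007 16 = true := by decide +kernel

/-- certificate tree -/
def treesM12_11_46 : TM :=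
  .out

theorem chkM12_11_46 : TM.chk 1 2 1 1 treesM12_11_46 100013 100009 16 = true := by decide +kernel

/-- certificate tree -/
def treesM12_11_47 : TM :=
  .out

theorem chkM12_11_47 : TM.chk 1 2 1 1 treesM12_11_47 100013 100011 16 = true := by decide +kernel

/-- certificate tree -/
def treesM12_11_48 : TM :=
  .out

theorem chkM12_11_48 : TM.chk 1 2 1 1 treesM12_11_48 100013 100013 16 = true := by decide +kernel

/-- certificate trees -/
def treesM12_11 : List TM :=
  [treesM12_11_0, treesM12_11_1, treesM12_11_2, treesM12_11_3, treesM12_11_4, treesM12_11_5,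
  treesM12_11_6, treesM12_11_7, treesM12_11_8, treesM12_11_9, treesM12_11_10, treesM12_11_11,
  treesM12_11_12, treesM12_11_13, treesM12_11_14, treesM12_11_15, treesM12_11_16, treesM12_11_17,
  treesM12_11_18, treesM12_11_19, treesM12_11_20, treesM12_11_21, treesM12_11_22, treesM12_11_23,
  treesM12_11_24, treesM12_11_25, treesM12_11_26, treesM12_11_27, treesM12_11_28, treesM12_11_29,
  treesM12_11_30, treesM12_11_31, treesM12_11_32, treesM12_11_33, treesM12_11_34, treesM12_11_35,
  treesM12_11_36, treesM12_11_37, treesM12_11_38, treesM12_11_39, treesM12_11_40, treesM12_11_41,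
  treesM12_11_42, treesM12_11_43, treesM12_11_44, treesM12_11_45, treesM12_11_46, treesM12_11_47,
  treesM12_11_48]

theorem chkM12_11 : chkGridM 1 2 1 1 treesM12_11 0 = true :=
  chkGridM_cons rfl rfl chkM12_11_0 (chkGridM_cons rfl rfl chkM12_11_1 (chkGridM_cons rfl rfl
  chkM12_11_2 (chkGridM_cons rfl rfl chkM12_11_3 (chkGridM_cons rfl rfl chkM12_11_4 (chkGridM_cons
  rfl rfl chkM12_11_5 (chkGridM_cons rfl rfl chkM12_11_6 (chkGridM_cons rfl rfl chkM12_11_7
  (chkGridM_cons rfl rfl chkM12_11_8 (chkGridM_cons rfl rfl chkM12_11_9 (chkGridM_cons rfl rfl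
  chkM12_11_10 (chkGridM_cons rfl rfl chkM12_11_11 (chkGridM_cons rfl rfl chkM12_11_12
  (chkGridM_cons rfl rfl chkM12_11_13 (chkGridM_cons rfl rfl chkM12_11_14 (chkGridM_cons rfl rfl
  chkM12_11_15 (chkGridM_cons rfl rfl chkM12_11_16 (chkGridM_cons rfl rfl chkM12_11_17
  (chkGridM_cons rfl rfl chkM12_11_18 (chkGridM_cons rfl rfl chkM12_11_19 (chkGridM_cons rfl rfl
  chkM12_11_20 (chkGridM_cons rfl rfl chkM12_11_21 (chkGridM_cons rfl rfl chkM12_11_22
  (chkGridM_cons rfl rfl chkM12_11_23 (chkGridM_cons rfl rfl chkM12_11_24 (chkGridM_cons rfl rfl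
  chkM12_11_25 (chkGridM_cons rfl rfl chkM12_11_26 (chkGridM_cons rfl rfl chkM12_11_27
  (chkGridM_cons rfl rfl chkM12_11_28 (chkGridM_cons rfl rfl chkM12_11_29 (chkGridM_cons rfl rfl
  chkM12_11_30 (chkGridM_cons rfl rfl chkM12_11_31 (chkGridM_cons rfl rfl chkM12_11_32
  (chkGridM_cons rfl rfl chkM12_11_33 (chkGridM_cons rfl rfl chkM12_11_34 (chkGridM_cons rfl rfl
  chkM12_11_35 (chkGridM_cons rfl rfl chkM12_11_36 (chkGridM_cons rfl rfl chkM12_11_37
  (chkGridM_cons rfl rfl chkM12_11_38 (chkGridM_cons rfl rfl chkM12_11_39 (chkGridM_cons rfl rfl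
  chkM12_11_40 (chkGridM_cons rfl rfl chkM12_11_41 (chkGridM_cons rfl rfl chkM12_11_42
  (chkGridM_cons rfl rfl chkM12_11_43 (chkGridM_cons rfl rfl chkM12_11_44 (chkGridM_cons rfl rfl
  chkM12_11_45 (chkGridM_cons rfl rfl chkM12_11_46 (chkGridM_cons rfl rfl chkM12_11_47
  (chkGridM_cons rfl rfl chkM12_11_48 rfl))))))))))))))))))))))))))))))))))))))))))))))))

end Pool.Agent.MaxTerm58
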