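import Pool.Agent.MaxTerm58.DM13_00_p0
import Pool.Agent.MaxTerm58.DM13_00_p1

/-! Certificates of the family M, gaps 1 and 3, modes 0 and 0. -/

namespace Pool.Agent.MaxTerm58

set_option maxRecDepth 100000

/-- certificate tree -/
def treesM13_00_2 : TM :=
  .out

theorem chkM13_00_2 : TM.chk 1 3 0 0 treesM13_00_2 100001 100005 16 = true := by decide +kernel

/-- certificate tree -/
def treesM13_00_3 : TM :=
  .out

theorem chkM13_00_3 : TM.chk 1 3 0 0 treesM13_00_3 100001 100007 16 = true := by decide +kernel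

/-- certificate tree -/
def treesM13_00_4 : TM :=
  .out

theorem chkM13_00_4 : TM.chk 1 3 0 0 treesM13_00_4 100001 100009 16 = true := by decide +kernel

/-- certificate tree -/
def treesM13_00_5 : TM :=
  .out

theorem chkM13_00_5 : TM.chk 1 3 0 0 treesM13_00_5 100001 100011 16 = true := by decide +kernel

/-- certificate tree -/
def treesM13_00_6 : TM :=
  .out

theorem chkM13_00_6 : TM.chk 1 3 0 0 treesM13_00_6 100001 100013 16 = true := by decide +kernel

/-- certificate tree -/
def treesM13_00_9 : TM :=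
  .sq treesM13_00_9_c0 treesM13_00_9_c1 treesM13_00_9_c2 treesM13_00_9_c3

theorem chkM13_00_9 : TM.chk 1 3 0 0 treesM13_00_9 100003 100005 16 = true :=
  TM.chk_sq rfl chkM13_00_9_c0 chkM13_00_9_c1 chkM13_00_9_c2 chkM13_00_9_c3

/-- certificate tree -/
def treesM13_00_11 : TM :=
  .out

theorem chkM13_00_11 : TM.chk 1 3 0 0 treesM13_00_11 100003 100009 16 = true := by decide +kernel

/-- certificate tree -/
def treesM13_00_12 : TM :=
  .out

theorem chkM13_00_12 : TM.chk 1 3 0 0 treesM13_00_12 100003 100011 16 = true := by decide +kernel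

/-- certificate tree -/
def treesM13_00_13 : TM :=
  .out

theorem chkM13_00_13 : TM.chk 1 3 0 0 treesM13_00_13 100003 100013 16 = true := by decide +kernel

/-- certificate tree -/
def treesM13_00_14 : TM :=
  .sq treesM13_00_14_c0 treesM13_00_14_c1 treesM13_00_14_c2 treesM13_00_14_c3

theorem chkM13_00_14 : TM.chk 1 3 0 0 treesM13_00_14 100005 100001 16 = true :=
  TM.chk_sq rfl chkM13_00_14_c0 chkM13_00_14_c1 chkM13_00_14_c2 chkM13_00_14_c3

/-- certificate tree -/
def treesM13_00_15 : TM :=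
  .sq treesM13_00_15_c0 treesM13_00_15_c1 treesM13_00_15_c2 treesM13_00_15_c3

theorem chkM13_00_15 : TM.chk 1 3 0 0 treesM13_00_15 100005 100003 16 = true :=
  TM.chk_sq rfl chkM13_00_15_c0 chkM13_00_15_c1 chkM13_00_15_c2 chkM13_00_15_c3

/-- certificate tree -/
def treesM13_00_20 : TM :=
  .out

theorem chkM13_00_20 : TM.chk 1 3 0 0 treesM13_00_20 100005 100013 16 = true := by decide +kernel

/-- certificate tree -/
def treesM13_00_21 : TM :=
  .sq treesM13_00_21_c0 treesM13_00_21_c1 treesM13_00_21_c2 treesM13_00_21_c3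

theorem chkM13_00_21 : TM.chk 1 3 0 0 treesM13_00_21 100007 100001 16 = true :=
  TM.chk_sq rfl chkM13_00_21_c0 chkM13_00_21_c1 chkM13_00_21_c2 chkM13_00_21_c3

/-- certificate tree -/
def treesM13_00_22 : TM :=
  .sq treesM13_00_22_c0 treesM13_00_22_c1 treesM13_00_22_c2 treesM13_00_22_c3

theorem chkM13_00_22 : TM.chk 1 3 0 0 treesM13_00_22 100007 100003 16 = true :=
  TM.chk_sq rfl chkM13_00_22_c0 chkM13_00_22_c1 chkM13_00_22_c2 chkM13_00_22_c3

/-- certificate tree -/
def treesM13_00_27 : TM :=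
  .out

theorem chkM13_00_27 : TM.chk 1 3 0 0 treesM13_00_27 100007 100013 16 = true := by decide +kernel

/-- certificate tree -/
def treesM13_00_33 : TM :=
  .out

theorem chkM13_00_33 : TM.chk 1 3 0 0 treesM13_00_33 100009 100011 16 = true := by decide +kernel

/-- certificate tree -/
def treesM13_00_34 : TM :=
  .out

theorem chkM13_00_34 : TM.chk 1 3 0 0 treesM13_00_34 100009 100013 16 = true := by decide +kernel

/-- certificate tree -/
def treesM13_00_39 : TM :=
  .out

theorem chkM13_00_39 : TM.chk 1 3 0 0 treesM13_00_39 100011 100009 16 = true := by decide +kernel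

/-- certificate tree -/
def treesM13_00_40 : TM :=
  .out

theorem chkM13_00_40 : TM.chk 1 3 0 0 treesM13_00_40 100011 100011 16 = true := by decide +kernel

/-- certificate tree -/
def treesM13_00_41 : TM :=
  .out

theorem chkM13_00_41 : TM.chk 1 3 0 0 treesM13_00_41 100011 100013 16 = true := by decide +kernel

/-- certificate tree -/
def treesM13_00_43 : TM :=
  .out

theorem chkM13_00_43 : TM.chk 1 3 0 0 treesM13_00_43 100013 100003 16 = true := by decide +kernel

/-- certificate tree -/
def treesM13_00_44 : TM :=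
  .out

theorem chkM13_00_44 : TM.chk 1 3 0 0 treesM13_00_44 100013 100005 16 = true := by decide +kernel

/-- certificate tree -/
def treesM13_00_45 : TM :=
  .out

theorem chkM13_00_45 : TM.chk 1 3 0 0 treesM13_00_45 100013 100007 16 = true := by decide +kernel

/-- certificate tree -/
def treesM13_00_46 : TM :=
  .out

theorem chkM13_00_46 : TM.chk 1 3 0 0 treesM13_00_46 100013 100009 16 = true := by decide +kernel

/-- certificate tree -/
def treesM13_00_47 : TM :=
  .out

theorem chkM13_00_47 : TM.chk 1 3 0 0 treesM13_00_47 100013 100011 16 = true := by decide +kernel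

/-- certificate tree -/
def treesM13_00_48 : TM :=
  .out

theorem chkM13_00_48 : TM.chk 1 3 0 0 treesM13_00_48 100013 100013 16 = true := by decide +kernel

/-- certificate trees -/
def treesM13_00 : List TM :=
  [treesM13_00_0, treesM13_00_1, treesM13_00_2, treesM13_00_3, treesM13_00_4, treesM13_00_5,
  treesM13_00_6, treesM13_00_7, treesM13_00_8, treesM13_00_9, treesM13_00_10, treesM13_00_11,
  treesM13_00_12, treesM13_00_13, treesM13_00_14, treesM13_00_15, treesM13_00_16, treesM13_00_17,
  treesM13_00_18, treesM13_00_19, treesM13_00_20, treesM13_00_21, treesM13_00_22, treesM13_00_23,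
  treesM13_00_24, treesM13_00_25, treesM13_00_26, treesM13_00_27, treesM13_00_28, treesM13_00_29,
  treesM13_00_30, treesM13_00_31, treesM13_00_32, treesM13_00_33, treesM13_00_34, treesM13_00_35,
  treesM13_00_36, treesM13_00_37, treesM13_00_38, treesM13_00_39, treesM13_00_40, treesM13_00_41,
  treesM13_00_42, treesM13_00_43, treesM13_00_44, treesM13_00_45, treesM13_00_46, treesM13_00_47,
  treesM13_00_48]

theorem chkM13_00 : chkGridM 1 3 0 0 treesM13_00 0 = true :=
  chkGridM_cons rfl rfl chkM13_00_0 (chkGridM_cons rfl rfl chkM13_00_1 (chkGridM_cons rfl rfl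
  chkM13_00_2 (chkGridM_cons rfl rfl chkM13_00_3 (chkGridM_cons rfl rfl chkM13_00_4 (chkGridM_cons
  rfl rfl chkM13_00_5 (chkGridM_cons rfl rfl chkM13_00_6 (chkGridM_cons rfl rfl chkM13_00_7
  (chkGridM_cons rfl rfl chkM13_00_8 (chkGridM_cons rfl rfl chkM13_00_9 (chkGridM_cons rfl rfl
  chkM13_00_10 (chkGridM_cons rfl rfl chkM13_00_11 (chkGridM_cons rfl rfl chkM13_00_12
  (chkGridM_cons rfl rfl chkM13_00_13 (chkGridM_cons rfl rfl chkM13_00_14 (chkGridM_cons rfl rfl
  chkM13_00_15 (chkGridM_cons rfl rfl chkM13_00_16 (chkGridM_cons rfl rfl chkM13_00_17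
  (chkGridM_cons rfl rfl chkM13_00_18 (chkGridM_cons rfl rfl chkM13_00_19 (chkGridM_cons rfl rfl
  chkM13_00_20 (chkGridM_cons rfl rfl chkM13_00_21 (chkGridM_cons rfl rfl chkM13_00_22
  (chkGridM_cons rfl rfl chkM13_00_23 (chkGridM_cons rfl rfl chkM13_00_24 (chkGridM_cons rfl rfl
  chkM13_00_25 (chkGridM_cons rfl rfl chkM13_00_26 (chkGridM_cons rfl rfl chkM13_00_27
  (chkGridM_cons rfl rfl chkM13_00_28 (chkGridM_cons rfl rfl chkM13_00_29 (chkGridM_cons rfl rfl
  chkM13_00_30 (chkGridM_cons rfl rfl chkM13_00_31 (chkGridM_cons rfl rfl chkM13_00_32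
  (chkGridM_cons rfl rfl chkM13_00_33 (chkGridM_cons rfl rfl chkM13_00_34 (chkGridM_cons rfl rfl
  chkM13_00_35 (chkGridM_cons rfl rfl chkM13_00_36 (chkGridM_cons rfl rfl chkM13_00_37
  (chkGridM_cons rfl rfl chkM13_00_38 (chkGridM_cons rfl rfl chkM13_00_39 (chkGridM_cons rfl rfl
  chkM13_00_40 (chkGridM_cons rfl rfl chkM13_00_41 (chkGridM_cons rfl rfl chkM13_00_42
  (chkGridM_cons rfl rfl chkM13_00_43 (chkGridM_cons rfl rfl chkM13_00_44 (chkGridM_cons rfl rfl
  chkM13_00_45 (chkGridM_cons rfl rfl chkM13_00_46 (chkGridM_cons rfl rfl chkM13_00_47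
  (chkGridM_cons rfl rfl chkM13_00_48 rfl))))))))))))))))))))))))))))))))))))))))))))))))

end Pool.Agent.MaxTerm58
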