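import Pool.Agent.MaxTerm58.DM13_01_p0
import Pool.Agent.MaxTerm58.DM13_01_p1
import Pool.Agent.MaxTerm58.DM13_01_p2

/-! Certificates of the family M, gaps 1 and 3, modes 0 and 1. -/

namespace Pool.Agent.MaxTerm58

set_option maxRecDepth 100000

/-- certificate tree -/
def treesM13_01_2 : TM :=
  .out

theorem chkM13_01_2 : TM.chk 1 3 0 1 treesM13_01_2 100001 100005 16 = true := by decide +kernel

/-- certificate tree -/
def treesM13_01_3 : TM :=
  .out

theorem chkM13_01_3 : TM.chk 1 3 0 1 treesM13_01_3 100001 100007 16 = true := by decide +kernel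

/-- certificate tree -/
def treesM13_01_4 : TM :=
  .out

theorem chkM13_01_4 : TM.chk 1 3 0 1 treesM13_01_4 100001 100009 16 = true := by decide +kernel

/-- certificate tree -/
def treesM13_01_5 : TM :=
  .out

theorem chkM13_01_5 : TM.chk 1 3 0 1 treesM13_01_5 100001 100011 16 = true := by decide +kernel

/-- certificate tree -/
def treesM13_01_6 : TM :=
  .out

theorem chkM13_01_6 : TM.chk 1 3 0 1 treesM13_01_6 100001 100013 16 = true := by decide +kernel

/-- certificate tree -/
def treesM13_01_9_c3 : TM :=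
  .sq treesM13_01_9_c4 treesM13_01_9_c5 treesM13_01_9_c6 treesM13_01_9_c7

theorem chkM13_01_9_c3 : TM.chk 1 3 0 1 treesM13_01_9_c3 100007 100011 32 = true :=
  TM.chk_sq rfl chkM13_01_9_c4 chkM13_01_9_c5 chkM13_01_9_c6 chkM13_01_9_c7

/-- certificate tree -/
def treesM13_01_9 : TM :=
  .sq treesM13_01_9_c0 treesM13_01_9_c1 treesM13_01_9_c2 treesM13_01_9_c3

theorem chkM13_01_9 : TM.chk 1 3 0 1 treesM13_01_9 100003 100005 16 = true :=
  TM.chk_sq rfl chkM13_01_9_c0 chkM13_01_9_c1 chkM13_01_9_c2 chkM13_01_9_c3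

/-- certificate tree -/
def treesM13_01_11 : TM :=
  .out

theorem chkM13_01_11 : TM.chk 1 3 0 1 treesM13_01_11 100003 100009 16 = true := by decide +kernel

/-- certificate tree -/
def treesM13_01_12 : TM :=
  .out

theorem chkM13_01_12 : TM.chk 1 3 0 1 treesM13_01_12 100003 100011 16 = true := by decide +kernel

/-- certificate tree -/
def treesM13_01_13 : TM :=
  .out

theorem chkM13_01_13 : TM.chk 1 3 0 1 treesM13_01_13 100003 100013 16 = true := by decide +kernel

/-- certificate tree -/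
def treesM13_01_14 : TM :=
  .sq treesM13_01_14_c0 treesM13_01_14_c1 treesM13_01_14_c2 treesM13_01_14_c3

theorem chkM13_01_14 : TM.chk 1 3 0 1 treesM13_01_14 100005 100001 16 = true :=
  TM.chk_sq rfl chkM13_01_14_c0 chkM13_01_14_c1 chkM13_01_14_c2 chkM13_01_14_c3

/-- certificate tree -/
def treesM13_01_15_c1 : TM :=
  .sq treesM13_01_15_c2 treesM13_01_15_c3 treesM13_01_15_c4 treesM13_01_15_c5

theorem chkM13_01_15_c1 : TM.chk 1 3 0 1 treesM13_01_15_c1 100011 100005 32 = true :=
  TM.chk_sq rfl chkM13_01_15_c2 chkM13_01_15_c3 chkM13_01_15_c4 chkM13_01_15_c5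

/-- certificate tree -/
def treesM13_01_15_c7 : TM :=
  .sq treesM13_01_15_c8 treesM13_01_15_c9 treesM13_01_15_c10 treesM13_01_15_c11

theorem chkM13_01_15_c7 : TM.chk 1 3 0 1 treesM13_01_15_c7 100011 100007 32 = true :=
  TM.chk_sq rfl chkM13_01_15_c8 chkM13_01_15_c9 chkM13_01_15_c10 chkM13_01_15_c11

/-- certificate tree -/
def treesM13_01_15 : TM :=
  .sq treesM13_01_15_c0 treesM13_01_15_c1 treesM13_01_15_c6 treesM13_01_15_c7

theorem chkM13_01_15 : TM.chk 1 3 0 1 treesM13_01_15 100005 100003 16 = true :=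
  TM.chk_sq rfl chkM13_01_15_c0 chkM13_01_15_c1 chkM13_01_15_c6 chkM13_01_15_c7

/-- certificate tree -/
def treesM13_01_16_c0 : TM :=
  .sq treesM13_01_16_c1 treesM13_01_16_c2 treesM13_01_16_c3 treesM13_01_16_c4

theorem chkM13_01_16_c0 : TM.chk 1 3 0 1 treesM13_01_16_c0 100009 100009 32 = true :=
  TM.chk_sq rfl chkM13_01_16_c1 chkM13_01_16_c2 chkM13_01_16_c3 chkM13_01_16_c4

/-- certificate tree -/
def treesM13_01_16_c5 : TM :=
  .sq treesM13_01_16_c6 treesM13_01_16_c7 treesM13_01_16_c8 treesM13_01_16_c9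

theorem chkM13_01_16_c5 : TM.chk 1 3 0 1 treesM13_01_16_c5 100011 100009 32 = true :=
  TM.chk_sq rfl chkM13_01_16_c6 chkM13_01_16_c7 chkM13_01_16_c8 chkM13_01_16_c9

/-- certificate tree -/
def treesM13_01_16_c10 : TM :=
  .sq treesM13_01_16_c11 treesM13_01_16_c12 treesM13_01_16_c13 treesM13_01_16_c14

theorem chkM13_01_16_c10 : TM.chk 1 3 0 1 treesM13_01_16_c10 100009 100011 32 = true :=
  TM.chk_sq rfl chkM13_01_16_c11 chkM13_01_16_c12 chkM13_01_16_c13 chkM13_01_16_c14

/-- certificate tree -/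
def treesM13_01_16 : TM :=
  .sq treesM13_01_16_c0 treesM13_01_16_c5 treesM13_01_16_c10 treesM13_01_16_c15

theorem chkM13_01_16 : TM.chk 1 3 0 1 treesM13_01_16 100005 100005 16 = true :=
  TM.chk_sq rfl chkM13_01_16_c0 chkM13_01_16_c5 chkM13_01_16_c10 chkM13_01_16_c15

/-- certificate tree -/
def treesM13_01_20 : TM :=
  .out

theorem chkM13_01_20 : TM.chk 1 3 0 1 treesM13_01_20 100005 100013 16 = true := by decide +kernel

/-- certificate tree -/
def treesM13_01_21 : TM :=
  .sq treesM13_01_21_c0 treesM13_01_21_c1 treesM13_01_21_c2 treesM13_01_21_c3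

theorem chkM13_01_21 : TM.chk 1 3 0 1 treesM13_01_21 100007 100001 16 = true :=
  TM.chk_sq rfl chkM13_01_21_c0 chkM13_01_21_c1 chkM13_01_21_c2 chkM13_01_21_c3

/-- certificate tree -/
def treesM13_01_22 : TM :=
  .sq treesM13_01_22_c0 treesM13_01_22_c1 treesM13_01_22_c2 treesM13_01_22_c3

theorem chkM13_01_22 : TM.chk 1 3 0 1 treesM13_01_22 100007 100003 16 = true :=
  TM.chk_sq rfl chkM13_01_22_c0 chkM13_01_22_c1 chkM13_01_22_c2 chkM13_01_22_c3

/-- certificate tree -/
def treesM13_01_27 : TM :=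
  .out

theorem chkM13_01_27 : TM.chk 1 3 0 1 treesM13_01_27 100007 100013 16 = true := by decide +kernel

/-- certificate tree -/
def treesM13_01_33 : TM :=
  .out

theorem chkM13_01_33 : TM.chk 1 3 0 1 treesM13_01_33 100009 100011 16 = true := by decide +kernel

/-- certificate tree -/
def treesM13_01_34 : TM :=
  .out

theorem chkM13_01_34 : TM.chk 1 3 0 1 treesM13_01_34 100009 100013 16 = true := by decide +kernel

/-- certificate tree -/
def treesM13_01_39 : TM :=
  .out

theorem chkM13_01_39 : TM.chk 1 3 0 1 treesM13_01_39 100011 100009 16 = true := by decide +kernel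

/-- certificate tree -/
def treesM13_01_40 : TM :=
  .out

theorem chkM13_01_40 : TM.chk 1 3 0 1 treesM13_01_40 100011 100011 16 = true := by decide +kernel

/-- certificate tree -/
def treesM13_01_41 : TM :=
  .out

theorem chkM13_01_41 : TM.chk 1 3 0 1 treesM13_01_41 100011 100013 16 = true := by decide +kernel

/-- certificate tree -/
def treesM13_01_43 : TM :=
  .out

theorem chkM13_01_43 : TM.chk 1 3 0 1 treesM13_01_43 100013 100003 16 = true := by decide +kernel

/-- certificate tree -/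
def treesM13_01_44 : TM :=
  .out

theorem chkM13_01_44 : TM.chk 1 3 0 1 treesM13_01_44 100013 100005 16 = true := by decide +kernel

/-- certificate tree -/
def treesM13_01_45 : TM :=
  .out

theorem chkM13_01_45 : TM.chk 1 3 0 1 treesM13_01_45 100013 100007 16 = true := by decide +kernel

/-- certificate tree -/
def treesM13_01_46 : TM :=
  .out

theorem chkM13_01_46 : TM.chk 1 3 0 1 treesM13_01_46 100013 100009 16 = true := by decide +kernel

/-- certificate tree -/
def treesM13_01_47 : TM :=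
  .out

theorem chkM13_01_47 : TM.chk 1 3 0 1 treesM13_01_47 100013 100011 16 = true := by decide +kernel

/-- certificate tree -/
def treesM13_01_48 : TM :=
  .out

theorem chkM13_01_48 : TM.chk 1 3 0 1 treesM13_01_48 100013 100013 16 = true := by decide +kernel

/-- certificate trees -/
def treesM13_01 : List TM :=
  [treesM13_01_0, treesM13_01_1, treesM13_01_2, treesM13_01_3, treesM13_01_4, treesM13_01_5,
  treesM13_01_6, treesM13_01_7, treesM13_01_8, treesM13_01_9, treesM13_01_10, treesM13_01_11,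
  treesM13_01_12, treesM13_01_13, treesM13_01_14, treesM13_01_15, treesM13_01_16, treesM13_01_17,
  treesM13_01_18, treesM13_01_19, treesM13_01_20, treesM13_01_21, treesM13_01_22, treesM13_01_23,
  treesM13_01_24, treesM13_01_25, treesM13_01_26, treesM13_01_27, treesM13_01_28, treesM13_01_29,
  treesM13_01_30, treesM13_01_31, treesM13_01_32, treesM13_01_33, treesM13_01_34, treesM13_01_35,
  treesM13_01_36, treesM13_01_37, treesM13_01_38, treesM13_01_39, treesM13_01_40, treesM13_01_41,
  treesM13_01_42, treesM13_01_43, treesM13_01_44, treesM13_01_45, treesM13_01_46, treesM13_01_47,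
  treesM13_01_48]

theorem chkM13_01 : chkGridM 1 3 0 1 treesM13_01 0 = true :=
  chkGridM_cons rfl rfl chkM13_01_0 (chkGridM_cons rfl rfl chkM13_01_1 (chkGridM_cons rfl rfl
  chkM13_01_2 (chkGridM_cons rfl rfl chkM13_01_3 (chkGridM_cons rfl rfl chkM13_01_4 (chkGridM_cons
  rfl rfl chkM13_01_5 (chkGridM_cons rfl rfl chkM13_01_6 (chkGridM_cons rfl rfl chkM13_01_7
  (chkGridM_cons rfl rfl chkM13_01_8 (chkGridM_cons rfl rfl chkM13_01_9 (chkGridM_cons rfl rfl
  chkM13_01_10 (chkGridM_cons rfl rfl chkM13_01_11 (chkGridM_cons rfl rfl chkM13_01_12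
  (chkGridM_cons rfl rfl chkM13_01_13 (chkGridM_cons rfl rfl chkM13_01_14 (chkGridM_cons rfl rfl
  chkM13_01_15 (chkGridM_cons rfl rfl chkM13_01_16 (chkGridM_cons rfl rfl chkM13_01_17
  (chkGridM_cons rfl rfl chkM13_01_18 (chkGridM_cons rfl rfl chkM13_01_19 (chkGridM_cons rfl rfl
  chkM13_01_20 (chkGridM_cons rfl rfl chkM13_01_21 (chkGridM_cons rfl rfl chkM13_01_22
  (chkGridM_cons rfl rfl chkM13_01_23 (chkGridM_cons rfl rfl chkM13_01_24 (chkGridM_cons rfl rfl
  chkM13_01_25 (chkGridM_cons rfl rfl chkM13_01_26 (chkGridM_cons rfl rfl chkM13_01_27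
  (chkGridM_cons rfl rfl chkM13_01_28 (chkGridM_cons rfl rfl chkM13_01_29 (chkGridM_cons rfl rfl
  chkM13_01_30 (chkGridM_cons rfl rfl chkM13_01_31 (chkGridM_cons rfl rfl chkM13_01_32
  (chkGridM_cons rfl rfl chkM13_01_33 (chkGridM_cons rfl rfl chkM13_01_34 (chkGridM_cons rfl rfl
  chkM13_01_35 (chkGridM_cons rfl rfl chkM13_01_36 (chkGridM_cons rfl rfl chkM13_01_37
  (chkGridM_cons rfl rfl chkM13_01_38 (chkGridM_cons rfl rfl chkM13_01_39 (chkGridM_cons rfl rfl
  chkM13_01_40 (chkGridM_cons rfl rfl chkM13_01_41 (chkGridM_cons rfl rfl chkM13_01_42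
  (chkGridM_cons rfl rfl chkM13_01_43 (chkGridM_cons rfl rfl chkM13_01_44 (chkGridM_cons rfl rfl
  chkM13_01_45 (chkGridM_cons rfl rfl chkM13_01_46 (chkGridM_cons rfl rfl chkM13_01_47
  (chkGridM_cons rfl rfl chkM13_01_48 rfl))))))))))))))))))))))))))))))))))))))))))))))))

end Pool.Agent.MaxTerm58
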