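import Pool.Agent.MaxTerm58.DM13_10_p0
import Pool.Agent.MaxTerm58.DM13_10_p1

/-! Certificates of the family M, gaps 1 and 3, modes 1 and 0. -/

namespace Pool.Agent.MaxTerm58

set_option maxRecDepth 100000

/-- certificate tree -/
def treesM13_10_2 : TM :=
  .out

theorem chkM13_10_2 : TM.chk 1 3 1 0 treesM13_10_2 100001 100005 16 = true := by decide +kernel

/-- certificate tree -/
def treesM13_10_3 : TM :=
  .out

theorem chkM13_10_3 : TM.chk 1 3 1 0 treesM13_10_3 100001 100007 16 = true := by decide +kernel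

/-- certificate tree -/
def treesM13_10_4 : TM :=
  .out

theorem chkM13_10_4 : TM.chk 1 3 1 0 treesM13_10_4 100001 100009 16 = true := by decide +kernel

/-- certificate tree -/
def treesM13_10_5 : TM :=
  .out

theorem chkM13_10_5 : TM.chk 1 3 1 0 treesM13_10_5 100001 100011 16 = true := by decide +kernel

/-- certificate tree -/
def treesM13_10_6 : TM :=
  .out

theorem chkM13_10_6 : TM.chk 1 3 1 0 treesM13_10_6 100001 100013 16 = true := by decide +kernel

/-- certificate tree -/
def treesM13_10_11 : TM :=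
  .out

theorem chkM13_10_11 : TM.chk 1 3 1 0 treesM13_10_11 100003 100009 16 = true := by decide +kernel

/-- certificate tree -/
def treesM13_10_12 : TM :=
  .out

theorem chkM13_10_12 : TM.chk 1 3 1 0 treesM13_10_12 100003 100011 16 = true := by decide +kernel

/-- certificate tree -/
def treesM13_10_13 : TM :=
  .out

theorem chkM13_10_13 : TM.chk 1 3 1 0 treesM13_10_13 100003 100013 16 = true := by decide +kernel

/-- certificate tree -/
def treesM13_10_20 : TM :=
  .out

theorem chkM13_10_20 : TM.chk 1 3 1 0 treesM13_10_20 100005 100013 16 = true := by decide +kernel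

/-- certificate tree -/
def treesM13_10_27 : TM :=
  .out

theorem chkM13_10_27 : TM.chk 1 3 1 0 treesM13_10_27 100007 100013 16 = true := by decide +kernel

/-- certificate tree -/
def treesM13_10_29 : TM :=
  .sq treesM13_10_29_c0 treesM13_10_29_c1 treesM13_10_29_c2 treesM13_10_29_c3

theorem chkM13_10_29 : TM.chk 1 3 1 0 treesM13_10_29 100009 100003 16 = true :=
  TM.chk_sq rfl chkM13_10_29_c0 chkM13_10_29_c1 chkM13_10_29_c2 chkM13_10_29_c3

/-- certificate tree -/
def treesM13_10_30 : TM :=
  .sq treesM13_10_30_c0 treesM13_10_30_c1 treesM13_10_30_c2 treesM13_10_30_c3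

theorem chkM13_10_30 : TM.chk 1 3 1 0 treesM13_10_30 100009 100005 16 = true :=
  TM.chk_sq rfl chkM13_10_30_c0 chkM13_10_30_c1 chkM13_10_30_c2 chkM13_10_30_c3

/-- certificate tree -/
def treesM13_10_33 : TM :=
  .out

theorem chkM13_10_33 : TM.chk 1 3 1 0 treesM13_10_33 100009 100011 16 = true := by decide +kernel

/-- certificate tree -/
def treesM13_10_34 : TM :=
  .out

theorem chkM13_10_34 : TM.chk 1 3 1 0 treesM13_10_34 100009 100013 16 = true := by decide +kernel

/-- certificate tree -/
def treesM13_10_39 : TM :=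
  .out

theorem chkM13_10_39 : TM.chk 1 3 1 0 treesM13_10_39 100011 100009 16 = true := by decide +kernel

/-- certificate tree -/
def treesM13_10_40 : TM :=
  .out

theorem chkM13_10_40 : TM.chk 1 3 1 0 treesM13_10_40 100011 100011 16 = true := by decide +kernel

/-- certificate tree -/
def treesM13_10_41 : TM :=
  .out

theorem chkM13_10_41 : TM.chk 1 3 1 0 treesM13_10_41 100011 100013 16 = true := by decide +kernel

/-- certificate tree -/
def treesM13_10_43 : TM :=
  .out

theorem chkM13_10_43 : TM.chk 1 3 1 0 treesM13_10_43 100013 100003 16 = true := by decide +kernel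

/-- certificate tree -/
def treesM13_10_44 : TM :=
  .out

theorem chkM13_10_44 : TM.chk 1 3 1 0 treesM13_10_44 100013 100005 16 = true := by decide +kernel

/-- certificate tree -/
def treesM13_10_45 : TM :=
  .out

theorem chkM13_10_45 : TM.chk 1 3 1 0 treesM13_10_45 100013 100007 16 = true := by decide +kernel

/-- certificate tree -/
def treesM13_10_46 : TM :=
  .out

theorem chkM13_10_46 : TM.chk 1 3 1 0 treesM13_10_46 100013 100009 16 = true := by decide +kernel

/-- certificate tree -/
def treesM13_10_47 : TM :=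
  .out

theorem chkM13_10_47 : TM.chk 1 3 1 0 treesM13_10_47 100013 100011 16 = true := by decide +kernel

/-- certificate tree -/
def treesM13_10_48 : TM :=
  .out

theorem chkM13_10_48 : TM.chk 1 3 1 0 treesM13_10_48 100013 100013 16 = true := by decide +kernel

/-- certificate trees -/
def treesM13_10 : List TM :=
  [treesM13_10_0, treesM13_10_1, treesM13_10_2, treesM13_10_3, treesM13_10_4, treesM13_10_5,
  treesM13_10_6, treesM13_10_7, treesM13_10_8, treesM13_10_9, treesM13_10_10, treesM13_10_11,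
  treesM13_10_12, treesM13_10_13, treesM13_10_14, treesM13_10_15, treesM13_10_16, treesM13_10_17,
  treesM13_10_18, treesM13_10_19, treesM13_10_20, treesM13_10_21, treesM13_10_22, treesM13_10_23,
  treesM13_10_24, treesM13_10_25, treesM13_10_26, treesM13_10_27, treesM13_10_28, treesM13_10_29,
  treesM13_10_30, treesM13_10_31, treesM13_10_32, treesM13_10_33, treesM13_10_34, treesM13_10_35,
  treesM13_10_36, treesM13_10_37, treesM13_10_38, treesM13_10_39, treesM13_10_40, treesM13_10_41,
  treesM13_10_42, treesM13_10_43, treesM13_10_44, treesM13_10_45, treesM13_10_46, treesM13_10_47,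
  treesM13_10_48]

theorem chkM13_10 : chkGridM 1 3 1 0 treesM13_10 0 = true :=
  chkGridM_cons rfl rfl chkM13_10_0 (chkGridM_cons rfl rfl chkM13_10_1 (chkGridM_cons rfl rfl
  chkM13_10_2 (chkGridM_cons rfl rfl chkM13_10_3 (chkGridM_cons rfl rfl chkM13_10_4 (chkGridM_cons
  rfl rfl chkM13_10_5 (chkGridM_cons rfl rfl chkM13_10_6 (chkGridM_cons rfl rfl chkM13_10_7
  (chkGridM_cons rfl rfl chkM13_10_8 (chkGridM_cons rfl rfl chkM13_10_9 (chkGridM_cons rfl rfl
  chkM13_10_10 (chkGridM_cons rfl rfl chkM13_10_11 (chkGridM_cons rfl rfl chkM13_10_12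
  (chkGridM_cons rfl rfl chkM13_10_13 (chkGridM_cons rfl rfl chkM13_10_14 (chkGridM_cons rfl rfl
  chkM13_10_15 (chkGridM_cons rfl rfl chkM13_10_16 (chkGridM_cons rfl rfl chkM13_10_17
  (chkGridM_cons rfl rfl chkM13_10_18 (chkGridM_cons rfl rfl chkM13_10_19 (chkGridM_cons rfl rfl
  chkM13_10_20 (chkGridM_cons rfl rfl chkM13_10_21 (chkGridM_cons rfl rfl chkM13_10_22
  (chkGridM_cons rfl rfl chkM13_10_23 (chkGridM_cons rfl rfl chkM13_10_24 (chkGridM_cons rfl rfl
  chkM13_10_25 (chkGridM_cons rfl rfl chkM13_10_26 (chkGridM_cons rfl rfl chkM13_10_27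
  (chkGridM_cons rfl rfl chkM13_10_28 (chkGridM_cons rfl rfl chkM13_10_29 (chkGridM_cons rfl rfl
  chkM13_10_30 (chkGridM_cons rfl rfl chkM13_10_31 (chkGridM_cons rfl rfl chkM13_10_32
  (chkGridM_cons rfl rfl chkM13_10_33 (chkGridM_cons rfl rfl chkM13_10_34 (chkGridM_cons rfl rfl
  chkM13_10_35 (chkGridM_cons rfl rfl chkM13_10_36 (chkGridM_cons rfl rfl chkM13_10_37
  (chkGridM_cons rfl rfl chkM13_10_38 (chkGridM_cons rfl rfl chkM13_10_39 (chkGridM_cons rfl rfl
  chkM13_10_40 (chkGridM_cons rfl rfl chkM13_10_41 (chkGridM_cons rfl rfl chkM13_10_42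
  (chkGridM_cons rfl rfl chkM13_10_43 (chkGridM_cons rfl rfl chkM13_10_44 (chkGridM_cons rfl rfl
  chkM13_10_45 (chkGridM_cons rfl rfl chkM13_10_46 (chkGridM_cons rfl rfl chkM13_10_47
  (chkGridM_cons rfl rfl chkM13_10_48 rfl))))))))))))))))))))))))))))))))))))))))))))))))

end Pool.Agent.MaxTerm58
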