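import Pool.Agent.MaxTerm58.DM13_11_p0
import Pool.Agent.MaxTerm58.DM13_11_p1

/-! Certificates of the family M, gaps 1 and 3, modes 1 and 1. -/

namespace Pool.Agent.MaxTerm58

set_option maxRecDepth 100000

/-- certificate tree -/
def treesM13_11_2 : TM :=
  .out

theorem chkM13_11_2 : TM.chk 1 3 1 1 treesM13_11_2 100001 100005 16 = true := by decide +kernel

/-- certificate tree -/
def treesM13_11_3 : TM :=
  .out

theorem chkM13_11_3 : TM.chk 1 3 1 1 treesM13_11_3 100001 100007 16 = true := by decide +kernel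

/-- certificate tree -/
def treesM13_11_4 : TM :=
  .out

theorem chkM13_11_4 : TM.chk 1 3 1 1 treesM13_11_4 100001 100009 16 = true := by decide +kernel

/-- certificate tree -/
def treesM13_11_5 : TM :=
  .out

theorem chkM13_11_5 : TM.chk 1 3 1 1 treesM13_11_5 100001 100011 16 = true := by decide +kernel

/-- certificate tree -/
def treesM13_11_6 : TM :=
  .out

theorem chkM13_11_6 : TM.chk 1 3 1 1 treesM13_11_6 100001 100013 16 = true := by decide +kernel

/-- certificate tree -/
def treesM13_11_11 : TM :=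
  .out

theorem chkM13_11_11 : TM.chk 1 3 1 1 treesM13_11_11 100003 100009 16 = true := by decide +kernel

/-- certificate tree -/
def treesM13_11_12 : TM :=
  .out

theorem chkM13_11_12 : TM.chk 1 3 1 1 treesM13_11_12 100003 100011 16 = true := by decide +kernel

/-- certificate tree -/
def treesM13_11_13 : TM :=
  .out

theorem chkM13_11_13 : TM.chk 1 3 1 1 treesM13_11_13 100003 100013 16 = true := by decide +kernel

/-- certificate tree -/
def treesM13_11_20 : TM :=
  .out

theorem chkM13_11_20 : TM.chk 1 3 1 1 treesM13_11_20 100005 100013 16 = true := by decide +kernel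

/-- certificate tree -/
def treesM13_11_24 : TM :=
  .sq treesM13_11_24_c0 treesM13_11_24_c1 treesM13_11_24_c2 treesM13_11_24_c3

theorem chkM13_11_24 : TM.chk 1 3 1 1 treesM13_11_24 100007 100007 16 = true :=
  TM.chk_sq rfl chkM13_11_24_c0 chkM13_11_24_c1 chkM13_11_24_c2 chkM13_11_24_c3

/-- certificate tree -/
def treesM13_11_27 : TM :=
  .out

theorem chkM13_11_27 : TM.chk 1 3 1 1 treesM13_11_27 100007 100013 16 = true := by decide +kernel

/-- certificate tree -/
def treesM13_11_29 : TM :=
  .sq treesM13_11_29_c0 treesM13_11_29_c1 treesM13_11_29_c2 treesM13_11_29_c3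

theorem chkM13_11_29 : TM.chk 1 3 1 1 treesM13_11_29 100009 100003 16 = true :=
  TM.chk_sq rfl chkM13_11_29_c0 chkM13_11_29_c1 chkM13_11_29_c2 chkM13_11_29_c3

/-- certificate tree -/
def treesM13_11_30_c1 : TM :=
  .sq treesM13_11_30_c2 treesM13_11_30_c3 treesM13_11_30_c4 treesM13_11_30_c5

theorem chkM13_11_30_c1 : TM.chk 1 3 1 1 treesM13_11_30_c1 100019 100009 32 = true :=
  TM.chk_sq rfl chkM13_11_30_c2 chkM13_11_30_c3 chkM13_11_30_c4 chkM13_11_30_c5

/-- certificate tree -/
def treesM13_11_30 : TM :=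
  .sq treesM13_11_30_c0 treesM13_11_30_c1 treesM13_11_30_c6 treesM13_11_30_c7

theorem chkM13_11_30 : TM.chk 1 3 1 1 treesM13_11_30 100009 100005 16 = true :=
  TM.chk_sq rfl chkM13_11_30_c0 chkM13_11_30_c1 chkM13_11_30_c6 chkM13_11_30_c7

/-- certificate tree -/
def treesM13_11_33 : TM :=
  .out

theorem chkM13_11_33 : TM.chk 1 3 1 1 treesM13_11_33 100009 100011 16 = true := by decide +kernel

/-- certificate tree -/
def treesM13_11_34 : TM :=
  .out

theorem chkM13_11_34 : TM.chk 1 3 1 1 treesM13_11_34 100009 100013 16 = true := by decide +kernel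

/-- certificate tree -/
def treesM13_11_39 : TM :=
  .out

theorem chkM13_11_39 : TM.chk 1 3 1 1 treesM13_11_39 100011 100009 16 = true := by decide +kernel

/-- certificate tree -/
def treesM13_11_40 : TM :=
  .out

theorem chkM13_11_40 : TM.chk 1 3 1 1 treesM13_11_40 100011 100011 16 = true := by decide +kernel

/-- certificate tree -/
def treesM13_11_41 : TM :=
  .out

theorem chkM13_11_41 : TM.chk 1 3 1 1 treesM13_11_41 100011 100013 16 = true := by decide +kernel

/-- certificate tree -/
def treesM13_11_43 : TM :=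
  .out

theorem chkM13_11_43 : TM.chk 1 3 1 1 treesM13_11_43 100013 100003 16 = true := by decide +kernel

/-- certificate tree -/
def treesM13_11_44 : TM :=
  .out

theorem chkM13_11_44 : TM.chk 1 3 1 1 treesM13_11_44 100013 100005 16 = true := by decide +kernel

/-- certificate tree -/
def treesM13_11_45 : TM :=
  .out

theorem chkM13_11_45 : TM.chk 1 3 1 1 treesM13_11_45 100013 100007 16 = true := by decide +kernel

/-- certificate tree -/
def treesM13_11_46 : TM :=
  .out

theorem chkM13_11_46 : TM.chk 1 3 1 1 treesM13_11_46 100013 100009 16 = true := by decide +kernel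

/-- certificate tree -/
def treesM13_11_47 : TM :=
  .out

theorem chkM13_11_47 : TM.chk 1 3 1 1 treesM13_11_47 100013 100011 16 = true := by decide +kernel

/-- certificate tree -/
def treesM13_11_48 : TM :=
  .out

theorem chkM13_11_48 : TM.chk 1 3 1 1 treesM13_11_48 100013 100013 16 = true := by decide +kernel

/-- certificate trees -/
def treesM13_11 : List TM :=
  [treesM13_11_0, treesM13_11_1, treesM13_11_2, treesM13_11_3, treesM13_11_4, treesM13_11_5,
  treesM13_11_6, treesM13_11_7, treesM13_11_8, treesM13_11_9, treesM13_11_10, treesM13_11_11,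
  treesM13_11_12, treesM13_11_13, treesM13_11_14, treesM13_11_15, treesM13_11_16, treesM13_11_17,
  treesM13_11_18, treesM13_11_19, treesM13_11_20, treesM13_11_21, treesM13_11_22, treesM13_11_23,
  treesM13_11_24, treesM13_11_25, treesM13_11_26, treesM13_11_27, treesM13_11_28, treesM13_11_29,
  treesM13_11_30, treesM13_11_31, treesM13_11_32, treesM13_11_33, treesM13_11_34, treesM13_11_35,
  treesM13_11_36, treesM13_11_37, treesM13_11_38, treesM13_11_39, treesM13_11_40, treesM13_11_41,
  treesM13_11_42, treesM13_11_43, treesM13_11_44, treesM13_11_45, treesM13_11_46, treesM13_11_47,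
  treesM13_11_48]

theorem chkM13_11 : chkGridM 1 3 1 1 treesM13_11 0 = true :=
  chkGridM_cons rfl rfl chkM13_11_0 (chkGridM_cons rfl rfl chkM13_11_1 (chkGridM_cons rfl rfl
  chkM13_11_2 (chkGridM_cons rfl rfl chkM13_11_3 (chkGridM_cons rfl rfl chkM13_11_4 (chkGridM_cons
  rfl rfl chkM13_11_5 (chkGridM_cons rfl rfl chkM13_11_6 (chkGridM_cons rfl rfl chkM13_11_7
  (chkGridM_cons rfl rfl chkM13_11_8 (chkGridM_cons rfl rfl chkM13_11_9 (chkGridM_cons rfl rfl
  chkM13_11_10 (chkGridM_cons rfl rfl chkM13_11_11 (chkGridM_cons rfl rfl chkM13_11_12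
  (chkGridM_cons rfl rfl chkM13_11_13 (chkGridM_cons rfl rfl chkM13_11_14 (chkGridM_cons rfl rfl
  chkM13_11_15 (chkGridM_cons rfl rfl chkM13_11_16 (chkGridM_cons rfl rfl chkM13_11_17
  (chkGridM_cons rfl rfl chkM13_11_18 (chkGridM_cons rfl rfl chkM13_11_19 (chkGridM_cons rfl rfl
  chkM13_11_20 (chkGridM_cons rfl rfl chkM13_11_21 (chkGridM_cons rfl rfl chkM13_11_22
  (chkGridM_cons rfl rfl chkM13_11_23 (chkGridM_cons rfl rfl chkM13_11_24 (chkGridM_cons rfl rfl
  chkM13_11_25 (chkGridM_cons rfl rfl chkM13_11_26 (chkGridM_cons rfl rfl chkM13_11_27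
  (chkGridM_cons rfl rfl chkM13_11_28 (chkGridM_cons rfl rfl chkM13_11_29 (chkGridM_cons rfl rfl
  chkM13_11_30 (chkGridM_cons rfl rfl chkM13_11_31 (chkGridM_cons rfl rfl chkM13_11_32
  (chkGridM_cons rfl rfl chkM13_11_33 (chkGridM_cons rfl rfl chkM13_11_34 (chkGridM_cons rfl rfl
  chkM13_11_35 (chkGridM_cons rfl rfl chkM13_11_36 (chkGridM_cons rfl rfl chkM13_11_37
  (chkGridM_cons rfl rfl chkM13_11_38 (chkGridM_cons rfl rfl chkM13_11_39 (chkGridM_cons rfl rfl
  chkM13_11_40 (chkGridM_cons rfl rfl chkM13_11_41 (chkGridM_cons rfl rfl chkM13_11_42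
  (chkGridM_cons rfl rfl chkM13_11_43 (chkGridM_cons rfl rfl chkM13_11_44 (chkGridM_cons rfl rfl
  chkM13_11_45 (chkGridM_cons rfl rfl chkM13_11_46 (chkGridM_cons rfl rfl chkM13_11_47
  (chkGridM_cons rfl rfl chkM13_11_48 rfl))))))))))))))))))))))))))))))))))))))))))))))))

end Pool.Agent.MaxTerm58
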