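import Pool.Agent.MaxTerm58.DM23_00_p0
import Pool.Agent.MaxTerm58.DM23_00_p1
import Pool.Agent.MaxTerm58.DM23_00_p2

/-! Certificates of the family M, gaps 2 and 3, modes 0 and 0. -/

namespace Pool.Agent.MaxTerm58

set_option maxRecDepth 100000

/-- certificate tree -/
def treesM23_00_1 : TM :=
  .out

theorem chkM23_00_1 : TM.chk 2 3 0 0 treesM23_00_1 100001 100003 16 = true := by decide +kernel

/-- certificate tree -/
def treesM23_00_2 : TM :=
  .out

theorem chkM23_00_2 : TM.chk 2 3 0 0 treesM23_00_2 100001 100005 16 = true := by decide +kernel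

/-- certificate tree -/
def treesM23_00_3 : TM :=
  .out

theorem chkM23_00_3 : TM.chk 2 3 0 0 treesM23_00_3 100001 100007 16 = true := by decide +kernel

/-- certificate tree -/
def treesM23_00_4 : TM :=
  .out

theorem chkM23_00_4 : TM.chk 2 3 0 0 treesM23_00_4 100001 100009 16 = true := by decide +kernel

/-- certificate tree -/
def treesM23_00_5 : TM :=
  .out

theorem chkM23_00_5 : TM.chk 2 3 0 0 treesM23_00_5 100001 100011 16 = true := by decide +kernel

/-- certificate tree -/
def treesM23_00_6 : TM :=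
  .out

theorem chkM23_00_6 : TM.chk 2 3 0 0 treesM23_00_6 100001 100013 16 = true := by decide +kernel

/-- certificate tree -/
def treesM23_00_9 : TM :=
  .out

theorem chkM23_00_9 : TM.chk 2 3 0 0 treesM23_00_9 100003 100005 16 = true := by decide +kernel

/-- certificate tree -/
def treesM23_00_10 : TM :=
  .out

theorem chkM23_00_10 : TM.chk 2 3 0 0 treesM23_00_10 100003 100007 16 = true := by decide +kernel

/-- certificate tree -/
def treesM23_00_11 : TM :=
  .out

theorem chkM23_00_11 : TM.chk 2 3 0 0 treesM23_00_11 100003 100009 16 = true := by decide +kernel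

/-- certificate tree -/
def treesM23_00_12 : TM :=
  .out

theorem chkM23_00_12 : TM.chk 2 3 0 0 treesM23_00_12 100003 100011 16 = true := by decide +kernel

/-- certificate tree -/
def treesM23_00_13 : TM :=
  .out

theorem chkM23_00_13 : TM.chk 2 3 0 0 treesM23_00_13 100003 100013 16 = true := by decide +kernel

/-- certificate tree -/
def treesM23_00_16 : TM :=
  .out

theorem chkM23_00_16 : TM.chk 2 3 0 0 treesM23_00_16 100005 100005 16 = true := by decide +kernel

/-- certificate tree -/
def treesM23_00_17 : TM :=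
  .out

theorem chkM23_00_17 : TM.chk 2 3 0 0 treesM23_00_17 100005 100007 16 = true := by decide +kernel

/-- certificate tree -/
def treesM23_00_18 : TM :=
  .out

theorem chkM23_00_18 : TM.chk 2 3 0 0 treesM23_00_18 100005 100009 16 = true := by decide +kernel

/-- certificate tree -/
def treesM23_00_19 : TM :=
  .out

theorem chkM23_00_19 : TM.chk 2 3 0 0 treesM23_00_19 100005 100011 16 = true := by decide +kernel

/-- certificate tree -/
def treesM23_00_20 : TM :=
  .out

theorem chkM23_00_20 : TM.chk 2 3 0 0 treesM23_00_20 100005 100013 16 = true := by decide +kernel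

/-- certificate tree -/
def treesM23_00_24 : TM :=
  .out

theorem chkM23_00_24 : TM.chk 2 3 0 0 treesM23_00_24 100007 100007 16 = true := by decide +kernel

/-- certificate tree -/
def treesM23_00_25 : TM :=
  .out

theorem chkM23_00_25 : TM.chk 2 3 0 0 treesM23_00_25 100007 100009 16 = true := by decide +kernel

/-- certificate tree -/
def treesM23_00_26 : TM :=
  .out

theorem chkM23_00_26 : TM.chk 2 3 0 0 treesM23_00_26 100007 100011 16 = true := by decide +kernel

/-- certificate tree -/
def treesM23_00_27 : TM :=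
  .out

theorem chkM23_00_27 : TM.chk 2 3 0 0 treesM23_00_27 100007 100013 16 = true := by decide +kernel

/-- certificate tree -/
def treesM23_00_28 : TM :=
  .sq treesM23_00_28_c0 treesM23_00_28_c1 treesM23_00_28_c2 treesM23_00_28_c3

theorem chkM23_00_28 : TM.chk 2 3 0 0 treesM23_00_28 100009 100001 16 = true :=
  TM.chk_sq rfl chkM23_00_28_c0 chkM23_00_28_c1 chkM23_00_28_c2 chkM23_00_28_c3

/-- certificate tree -/
def treesM23_00_29 : TM :=
  .sq treesM23_00_29_c0 treesM23_00_29_c1 treesM23_00_29_c2 treesM23_00_29_c3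

theorem chkM23_00_29 : TM.chk 2 3 0 0 treesM23_00_29 100009 100003 16 = true :=
  TM.chk_sq rfl chkM23_00_29_c0 chkM23_00_29_c1 chkM23_00_29_c2 chkM23_00_29_c3

/-- certificate tree -/
def treesM23_00_30 : TM :=
  .sq treesM23_00_30_c0 treesM23_00_30_c1 treesM23_00_30_c2 treesM23_00_30_c3

theorem chkM23_00_30 : TM.chk 2 3 0 0 treesM23_00_30 100009 100005 16 = true :=
  TM.chk_sq rfl chkM23_00_30_c0 chkM23_00_30_c1 chkM23_00_30_c2 chkM23_00_30_c3

/-- certificate tree -/
def treesM23_00_31 : TM :=
  .out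

theorem chkM23_00_31 : TM.chk 2 3 0 0 treesM23_00_31 100009 100007 16 = true := by decide +kernel

/-- certificate tree -/
def treesM23_00_32 : TM :=
  .out

theorem chkM23_00_32 : TM.chk 2 3 0 0 treesM23_00_32 100009 100009 16 = true := by decide +kernel

/-- certificate tree -/
def treesM23_00_33 : TM :=
  .out

theorem chkM23_00_33 : TM.chk 2 3 0 0 treesM23_00_33 100009 100011 16 = true := by decide +kernel

/-- certificate tree -/
def treesM23_00_34 : TM :=
  .out

theorem chkM23_00_34 : TM.chk 2 3 0 0 treesM23_00_34 100009 100013 16 = true := by decide +kernel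

/-- certificate tree -/
def treesM23_00_35 : TM :=
  .sq treesM23_00_35_c0 treesM23_00_35_c1 treesM23_00_35_c2 treesM23_00_35_c3

theorem chkM23_00_35 : TM.chk 2 3 0 0 treesM23_00_35 100011 100001 16 = true :=
  TM.chk_sq rfl chkM23_00_35_c0 chkM23_00_35_c1 chkM23_00_35_c2 chkM23_00_35_c3

/-- certificate tree -/
def treesM23_00_36 : TM :=
  .sq treesM23_00_36_c0 treesM23_00_36_c1 treesM23_00_36_c2 treesM23_00_36_c3

theorem chkM23_00_36 : TM.chk 2 3 0 0 treesM23_00_36 100011 100003 16 = true :=
  TM.chk_sq rfl chkM23_00_36_c0 chkM23_00_36_c1 chkM23_00_36_c2 chkM23_00_36_c3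

/-- certificate tree -/
def treesM23_00_37 : TM :=
  .sq treesM23_00_37_c0 treesM23_00_37_c1 treesM23_00_37_c2 treesM23_00_37_c3

theorem chkM23_00_37 : TM.chk 2 3 0 0 treesM23_00_37 100011 100005 16 = true :=
  TM.chk_sq rfl chkM23_00_37_c0 chkM23_00_37_c1 chkM23_00_37_c2 chkM23_00_37_c3

/-- certificate tree -/
def treesM23_00_39 : TM :=
  .out

theorem chkM23_00_39 : TM.chk 2 3 0 0 treesM23_00_39 100011 100009 16 = true := by decide +kernel

/-- certificate tree -/
def treesM23_00_40 : TM :=
  .out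

theorem chkM23_00_40 : TM.chk 2 3 0 0 treesM23_00_40 100011 100011 16 = true := by decide +kernel

/-- certificate tree -/
def treesM23_00_41 : TM :=
  .out

theorem chkM23_00_41 : TM.chk 2 3 0 0 treesM23_00_41 100011 100013 16 = true := by decide +kernel

/-- certificate tree -/
def treesM23_00_42 : TM :=
  .sq treesM23_00_42_c0 treesM23_00_42_c1 treesM23_00_42_c2 treesM23_00_42_c3

theorem chkM23_00_42 : TM.chk 2 3 0 0 treesM23_00_42 100013 100001 16 = true :=
  TM.chk_sq rfl chkM23_00_42_c0 chkM23_00_42_c1 chkM23_00_42_c2 chkM23_00_42_c3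

/-- certificate tree -/
def treesM23_00_46 : TM :=
  .out

theorem chkM23_00_46 : TM.chk 2 3 0 0 treesM23_00_46 100013 100009 16 = true := by decide +kernel

/-- certificate tree -/
def treesM23_00_47 : TM :=
  .out

theorem chkM23_00_47 : TM.chk 2 3 0 0 treesM23_00_47 100013 100011 16 = true := by decide +kernel

/-- certificate tree -/
def treesM23_00_48 : TM :=
  .out

theorem chkM23_00_48 : TM.chk 2 3 0 0 treesM23_00_48 100013 100013 16 = true := by decide +kernel

/-- certificate trees -/
def treesM23_00 : List TM :=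
  [treesM23_00_0, treesM23_00_1, treesM23_00_2, treesM23_00_3, treesM23_00_4, treesM23_00_5,
  treesM23_00_6, treesM23_00_7, treesM23_00_8, treesM23_00_9, treesM23_00_10, treesM23_00_11,
  treesM23_00_12, treesM23_00_13, treesM23_00_14, treesM23_00_15, treesM23_00_16, treesM23_00_17,
  treesM23_00_18, treesM23_00_19, treesM23_00_20, treesM23_00_21, treesM23_00_22, treesM23_00_23,
  treesM23_00_24, treesM23_00_25, treesM23_00_26, treesM23_00_27, treesM23_00_28, treesM23_00_29,
  treesM23_00_30, treesM23_00_31, treesM23_00_32, treesM23_00_33, treesM23_00_34, treesM23_00_35,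
  treesM23_00_36, treesM23_00_37, treesM23_00_38, treesM23_00_39, treesM23_00_40, treesM23_00_41,
  treesM23_00_42, treesM23_00_43, treesM23_00_44, treesM23_00_45, treesM23_00_46, treesM23_00_47,
  treesM23_00_48]

theorem chkM23_00 : chkGridM 2 3 0 0 treesM23_00 0 = true :=
  chkGridM_cons rfl rfl chkM23_00_0 (chkGridM_cons rfl rfl chkM23_00_1 (chkGridM_cons rfl rfl
  chkM23_00_2 (chkGridM_cons rfl rfl chkM23_00_3 (chkGridM_cons rfl rfl chkM23_00_4 (chkGridM_cons
  rfl rfl chkM23_00_5 (chkGridM_cons rfl rfl chkM23_00_6 (chkGridM_cons rfl rfl chkM23_00_7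
  (chkGridM_cons rfl rfl chkM23_00_8 (chkGridM_cons rfl rfl chkM23_00_9 (chkGridM_cons rfl rfl
  chkM23_00_10 (chkGridM_cons rfl rfl chkM23_00_11 (chkGridM_cons rfl rfl chkM23_00_12
  (chkGridM_cons rfl rfl chkM23_00_13 (chkGridM_cons rfl rfl chkM23_00_14 (chkGridM_cons rfl rfl
  chkM23_00_15 (chkGridM_cons rfl rfl chkM23_00_16 (chkGridM_cons rfl rfl chkM23_00_17
  (chkGridM_cons rfl rfl chkM23_00_18 (chkGridM_cons rfl rfl chkM23_00_19 (chkGridM_cons rfl rfl
  chkM23_00_20 (chkGridM_cons rfl rfl chkM23_00_21 (chkGridM_cons rfl rfl chkM23_00_22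
  (chkGridM_cons rfl rfl chkM23_00_23 (chkGridM_cons rfl rfl chkM23_00_24 (chkGridM_cons rfl rfl
  chkM23_00_25 (chkGridM_cons rfl rfl chkM23_00_26 (chkGridM_cons rfl rfl chkM23_00_27
  (chkGridM_cons rfl rfl chkM23_00_28 (chkGridM_cons rfl rfl chkM23_00_29 (chkGridM_cons rfl rfl
  chkM23_00_30 (chkGridM_cons rfl rfl chkM23_00_31 (chkGridM_cons rfl rfl chkM23_00_32
  (chkGridM_cons rfl rfl chkM23_00_33 (chkGridM_cons rfl rfl chkM23_00_34 (chkGridM_cons rfl rfl
  chkM23_00_35 (chkGridM_cons rfl rfl chkM23_00_36 (chkGridM_cons rfl rfl chkM23_00_37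
  (chkGridM_cons rfl rfl chkM23_00_38 (chkGridM_cons rfl rfl chkM23_00_39 (chkGridM_cons rfl rfl
  chkM23_00_40 (chkGridM_cons rfl rfl chkM23_00_41 (chkGridM_cons rfl rfl chkM23_00_42
  (chkGridM_cons rfl rfl chkM23_00_43 (chkGridM_cons rfl rfl chkM23_00_44 (chkGridM_cons rfl rfl
  chkM23_00_45 (chkGridM_cons rfl rfl chkM23_00_46 (chkGridM_cons rfl rfl chkM23_00_47
  (chkGridM_cons rfl rfl chkM23_00_48 rfl))))))))))))))))))))))))))))))))))))))))))))))))

end Pool.Agent.MaxTerm58
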