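import Pool.Agent.MaxTerm58.DM23_01_p0
import Pool.Agent.MaxTerm58.DM23_01_p1
import Pool.Agent.MaxTerm58.DM23_01_p2

/-! Certificates of the family M, gaps 2 and 3, modes 0 and 1. -/

namespace Pool.Agent.MaxTerm58

set_option maxRecDepth 100000

/-- certificate tree -/
def treesM23_01_1 : TM :=
  .out

theorem chkM23_01_1 : TM.chk 2 3 0 1 treesM23_01_1 100001 100003 16 = true := by decide +kernel

/-- certificate tree -/
def treesM23_01_2 : TM :=
  .out

theorem chkM23_01_2 : TM.chk 2 3 0 1 treesM23_01_2 100001 100005 16 = true := by decide +kernel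

/-- certificate tree -/
def treesM23_01_3 : TM :=
  .out

theorem chkM23_01_3 : TM.chk 2 3 0 1 treesM23_01_3 100001 100007 16 = true := by decide +kernel

/-- certificate tree -/
def treesM23_01_4 : TM :=
  .out

theorem chkM23_01_4 : TM.chk 2 3 0 1 treesM23_01_4 100001 100009 16 = true := by decide +kernel

/-- certificate tree -/
def treesM23_01_5 : TM :=
  .out

theorem chkM23_01_5 : TM.chk 2 3 0 1 treesM23_01_5 100001 100011 16 = true := by decide +kernel

/-- certificate tree -/
def treesM23_01_6 : TM :=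
  .out

theorem chkM23_01_6 : TM.chk 2 3 0 1 treesM23_01_6 100001 100013 16 = true := by decide +kernel

/-- certificate tree -/
def treesM23_01_9 : TM :=
  .out

theorem chkM23_01_9 : TM.chk 2 3 0 1 treesM23_01_9 100003 100005 16 = true := by decide +kernel

/-- certificate tree -/
def treesM23_01_10 : TM :=
  .out

theorem chkM23_01_10 : TM.chk 2 3 0 1 treesM23_01_10 100003 100007 16 = true := by decide +kernel

/-- certificate tree -/
def treesM23_01_11 : TM :=
  .out

theorem chkM23_01_11 : TM.chk 2 3 0 1 treesM23_01_11 100003 100009 16 = true := by decide +kernel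

/-- certificate tree -/
def treesM23_01_12 : TM :=
  .out

theorem chkM23_01_12 : TM.chk 2 3 0 1 treesM23_01_12 100003 100011 16 = true := by decide +kernel

/-- certificate tree -/
def treesM23_01_13 : TM :=
  .out

theorem chkM23_01_13 : TM.chk 2 3 0 1 treesM23_01_13 100003 100013 16 = true := by decide +kernel

/-- certificate tree -/
def treesM23_01_16 : TM :=
  .out

theorem chkM23_01_16 : TM.chk 2 3 0 1 treesM23_01_16 100005 100005 16 = true := by decide +kernel

/-- certificate tree -/
def treesM23_01_17 : TM :=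
  .out

theorem chkM23_01_17 : TM.chk 2 3 0 1 treesM23_01_17 100005 100007 16 = true := by decide +kernel

/-- certificate tree -/
def treesM23_01_18 : TM :=
  .out

theorem chkM23_01_18 : TM.chk 2 3 0 1 treesM23_01_18 100005 100009 16 = true := by decide +kernel

/-- certificate tree -/
def treesM23_01_19 : TM :=
  .out

theorem chkM23_01_19 : TM.chk 2 3 0 1 treesM23_01_19 100005 100011 16 = true := by decide +kernel

/-- certificate tree -/
def treesM23_01_20 : TM :=
  .out

theorem chkM23_01_20 : TM.chk 2 3 0 1 treesM23_01_20 100005 100013 16 = true := by decide +kernel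

/-- certificate tree -/
def treesM23_01_24 : TM :=
  .out

theorem chkM23_01_24 : TM.chk 2 3 0 1 treesM23_01_24 100007 100007 16 = true := by decide +kernel

/-- certificate tree -/
def treesM23_01_25 : TM :=
  .out

theorem chkM23_01_25 : TM.chk 2 3 0 1 treesM23_01_25 100007 100009 16 = true := by decide +kernel

/-- certificate tree -/
def treesM23_01_26 : TM :=
  .out

theorem chkM23_01_26 : TM.chk 2 3 0 1 treesM23_01_26 100007 100011 16 = true := by decide +kernel

/-- certificate tree -/
def treesM23_01_27 : TM :=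
  .out

theorem chkM23_01_27 : TM.chk 2 3 0 1 treesM23_01_27 100007 100013 16 = true := by decide +kernel

/-- certificate tree -/
def treesM23_01_28 : TM :=
  .sq treesM23_01_28_c0 treesM23_01_28_c1 treesM23_01_28_c2 treesM23_01_28_c3

theorem chkM23_01_28 : TM.chk 2 3 0 1 treesM23_01_28 100009 100001 16 = true :=
  TM.chk_sq rfl chkM23_01_28_c0 chkM23_01_28_c1 chkM23_01_28_c2 chkM23_01_28_c3

/-- certificate tree -/
def treesM23_01_29 : TM :=
  .sq treesM23_01_29_c0 treesM23_01_29_c1 treesM23_01_29_c2 treesM23_01_29_c3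

theorem chkM23_01_29 : TM.chk 2 3 0 1 treesM23_01_29 100009 100003 16 = true :=
  TM.chk_sq rfl chkM23_01_29_c0 chkM23_01_29_c1 chkM23_01_29_c2 chkM23_01_29_c3

/-- certificate tree -/
def treesM23_01_30 : TM :=
  .sq treesM23_01_30_c0 treesM23_01_30_c1 treesM23_01_30_c2 treesM23_01_30_c3

theorem chkM23_01_30 : TM.chk 2 3 0 1 treesM23_01_30 100009 100005 16 = true :=
  TM.chk_sq rfl chkM23_01_30_c0 chkM23_01_30_c1 chkM23_01_30_c2 chkM23_01_30_c3

/-- certificate tree -/
def treesM23_01_31 : TM :=
  .out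

theorem chkM23_01_31 : TM.chk 2 3 0 1 treesM23_01_31 100009 100007 16 = true := by decide +kernel

/-- certificate tree -/
def treesM23_01_32 : TM :=
  .out

theorem chkM23_01_32 : TM.chk 2 3 0 1 treesM23_01_32 100009 100009 16 = true := by decide +kernel

/-- certificate tree -/
def treesM23_01_33 : TM :=
  .out

theorem chkM23_01_33 : TM.chk 2 3 0 1 treesM23_01_33 100009 100011 16 = true := by decide +kernel

/-- certificate tree -/
def treesM23_01_34 : TM :=
  .out

theorem chkM23_01_34 : TM.chk 2 3 0 1 treesM23_01_34 100009 100013 16 = true := by decide +kernel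

/-- certificate tree -/
def treesM23_01_35_c2 : TM :=
  .sq treesM23_01_35_c3 treesM23_01_35_c4 treesM23_01_35_c5 treesM23_01_35_c6

theorem chkM23_01_35_c2 : TM.chk 2 3 0 1 treesM23_01_35_c2 100021 100003 32 = true :=
  TM.chk_sq rfl chkM23_01_35_c3 chkM23_01_35_c4 chkM23_01_35_c5 chkM23_01_35_c6

/-- certificate tree -/
def treesM23_01_35 : TM :=
  .sq treesM23_01_35_c0 treesM23_01_35_c1 treesM23_01_35_c2 treesM23_01_35_c7

theorem chkM23_01_35 : TM.chk 2 3 0 1 treesM23_01_35 100011 100001 16 = true :=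
  TM.chk_sq rfl chkM23_01_35_c0 chkM23_01_35_c1 chkM23_01_35_c2 chkM23_01_35_c7

/-- certificate tree -/
def treesM23_01_36 : TM :=
  .sq treesM23_01_36_c0 treesM23_01_36_c1 treesM23_01_36_c2 treesM23_01_36_c3

theorem chkM23_01_36 : TM.chk 2 3 0 1 treesM23_01_36 100011 100003 16 = true :=
  TM.chk_sq rfl chkM23_01_36_c0 chkM23_01_36_c1 chkM23_01_36_c2 chkM23_01_36_c3

/-- certificate tree -/
def treesM23_01_37 : TM :=
  .sq treesM23_01_37_c0 treesM23_01_37_c1 treesM23_01_37_c2 treesM23_01_37_c3

theorem chkM23_01_37 : TM.chk 2 3 0 1 treesM23_01_37 100011 100005 16 = true :=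
  TM.chk_sq rfl chkM23_01_37_c0 chkM23_01_37_c1 chkM23_01_37_c2 chkM23_01_37_c3

/-- certificate tree -/
def treesM23_01_39 : TM :=
  .out

theorem chkM23_01_39 : TM.chk 2 3 0 1 treesM23_01_39 100011 100009 16 = true := by decide +kernel

/-- certificate tree -/
def treesM23_01_40 : TM :=
  .out

theorem chkM23_01_40 : TM.chk 2 3 0 1 treesM23_01_40 100011 100011 16 = true := by decide +kernel

/-- certificate tree -/
def treesM23_01_41 : TM :=
  .out

theorem chkM23_01_41 : TM.chk 2 3 0 1 treesM23_01_41 100011 100013 16 = true := by decide +kernel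

/-- certificate tree -/
def treesM23_01_46 : TM :=
  .out

theorem chkM23_01_46 : TM.chk 2 3 0 1 treesM23_01_46 100013 100009 16 = true := by decide +kernel

/-- certificate tree -/
def treesM23_01_47 : TM :=
  .out

theorem chkM23_01_47 : TM.chk 2 3 0 1 treesM23_01_47 100013 100011 16 = true := by decide +kernel

/-- certificate tree -/
def treesM23_01_48 : TM :=
  .out

theorem chkM23_01_48 : TM.chk 2 3 0 1 treesM23_01_48 100013 100013 16 = true := by decide +kernel

/-- certificate trees -/
def treesM23_01 : List TM :=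
  [treesM23_01_0, treesM23_01_1, treesM23_01_2, treesM23_01_3, treesM23_01_4, treesM23_01_5,
  treesM23_01_6, treesM23_01_7, treesM23_01_8, treesM23_01_9, treesM23_01_10, treesM23_01_11,
  treesM23_01_12, treesM23_01_13, treesM23_01_14, treesM23_01_15, treesM23_01_16, treesM23_01_17,
  treesM23_01_18, treesM23_01_19, treesM23_01_20, treesM23_01_21, treesM23_01_22, treesM23_01_23,
  treesM23_01_24, treesM23_01_25, treesM23_01_26, treesM23_01_27, treesM23_01_28, treesM23_01_29,
  treesM23_01_30, treesM23_01_31, treesM23_01_32, treesM23_01_33, treesM23_01_34, treesM23_01_35,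
  treesM23_01_36, treesM23_01_37, treesM23_01_38, treesM23_01_39, treesM23_01_40, treesM23_01_41,
  treesM23_01_42, treesM23_01_43, treesM23_01_44, treesM23_01_45, treesM23_01_46, treesM23_01_47,
  treesM23_01_48]

theorem chkM23_01 : chkGridM 2 3 0 1 treesM23_01 0 = true :=
  chkGridM_cons rfl rfl chkM23_01_0 (chkGridM_cons rfl rfl chkM23_01_1 (chkGridM_cons rfl rfl
  chkM23_01_2 (chkGridM_cons rfl rfl chkM23_01_3 (chkGridM_cons rfl rfl chkM23_01_4 (chkGridM_cons
  rfl rfl chkM23_01_5 (chkGridM_cons rfl rfl chkM23_01_6 (chkGridM_cons rfl rfl chkM23_01_7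
  (chkGridM_cons rfl rfl chkM23_01_8 (chkGridM_cons rfl rfl chkM23_01_9 (chkGridM_cons rfl rfl
  chkM23_01_10 (chkGridM_cons rfl rfl chkM23_01_11 (chkGridM_cons rfl rfl chkM23_01_12
  (chkGridM_cons rfl rfl chkM23_01_13 (chkGridM_cons rfl rfl chkM23_01_14 (chkGridM_cons rfl rfl
  chkM23_01_15 (chkGridM_cons rfl rfl chkM23_01_16 (chkGridM_cons rfl rfl chkM23_01_17
  (chkGridM_cons rfl rfl chkM23_01_18 (chkGridM_cons rfl rfl chkM23_01_19 (chkGridM_cons rfl rfl
  chkM23_01_20 (chkGridM_cons rfl rfl chkM23_01_21 (chkGridM_cons rfl rfl chkM23_01_22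
  (chkGridM_cons rfl rfl chkM23_01_23 (chkGridM_cons rfl rfl chkM23_01_24 (chkGridM_cons rfl rfl
  chkM23_01_25 (chkGridM_cons rfl rfl chkM23_01_26 (chkGridM_cons rfl rfl chkM23_01_27
  (chkGridM_cons rfl rfl chkM23_01_28 (chkGridM_cons rfl rfl chkM23_01_29 (chkGridM_cons rfl rfl
  chkM23_01_30 (chkGridM_cons rfl rfl chkM23_01_31 (chkGridM_cons rfl rfl chkM23_01_32
  (chkGridM_cons rfl rfl chkM23_01_33 (chkGridM_cons rfl rfl chkM23_01_34 (chkGridM_cons rfl rfl
  chkM23_01_35 (chkGridM_cons rfl rfl chkM23_01_36 (chkGridM_cons rfl rfl chkM23_01_37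
  (chkGridM_cons rfl rfl chkM23_01_38 (chkGridM_cons rfl rfl chkM23_01_39 (chkGridM_cons rfl rfl
  chkM23_01_40 (chkGridM_cons rfl rfl chkM23_01_41 (chkGridM_cons rfl rfl chkM23_01_42
  (chkGridM_cons rfl rfl chkM23_01_43 (chkGridM_cons rfl rfl chkM23_01_44 (chkGridM_cons rfl rfl
  chkM23_01_45 (chkGridM_cons rfl rfl chkM23_01_46 (chkGridM_cons rfl rfl chkM23_01_47
  (chkGridM_cons rfl rfl chkM23_01_48 rfl))))))))))))))))))))))))))))))))))))))))))))))))

end Pool.Agent.MaxTerm58
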