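import Pool.Agent.MaxTerm58.DM23_10_p0
import Pool.Agent.MaxTerm58.DM23_10_p1
import Pool.Agent.MaxTerm58.DM23_10_p2
import Pool.Agent.MaxTerm58.DM23_10_p3
import Pool.Agent.MaxTerm58.DM23_10_p4

/-! Certificates of the family M, gaps 2 and 3, modes 1 and 0. -/

namespace Pool.Agent.MaxTerm58

set_option maxRecDepth 100000

/-- certificate tree -/
def treesM23_10_1 : TM :=
  .out

theorem chkM23_10_1 : TM.chk 2 3 1 0 treesM23_10_1 100001 100003 16 = true := by decide +kernel

/-- certificate tree -/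
def treesM23_10_2 : TM :=
  .out

theorem chkM23_10_2 : TM.chk 2 3 1 0 treesM23_10_2 100001 100005 16 = true := by decide +kernel

/-- certificate tree -/
def treesM23_10_3 : TM :=
  .out

theorem chkM23_10_3 : TM.chk 2 3 1 0 treesM23_10_3 100001 100007 16 = true := by decide +kernel

/-- certificate tree -/
def treesM23_10_4 : TM :=
  .out

theorem chkM23_10_4 : TM.chk 2 3 1 0 treesM23_10_4 100001 100009 16 = true := by decide +kernel

/-- certificate tree -/
def treesM23_10_5 : TM :=
  .out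

theorem chkM23_10_5 : TM.chk 2 3 1 0 treesM23_10_5 100001 100011 16 = true := by decide +kernel

/-- certificate tree -/
def treesM23_10_6 : TM :=
  .out

theorem chkM23_10_6 : TM.chk 2 3 1 0 treesM23_10_6 100001 100013 16 = true := by decide +kernel

/-- certificate tree -/
def treesM23_10_9 : TM :=
  .out

theorem chkM23_10_9 : TM.chk 2 3 1 0 treesM23_10_9 100003 100005 16 = true := by decide +kernel

/-- certificate tree -/
def treesM23_10_10 : TM :=
  .out

theorem chkM23_10_10 : TM.chk 2 3 1 0 treesM23_10_10 100003 100007 16 = true := by decide +kernel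

/-- certificate tree -/
def treesM23_10_11 : TM :=
  .out

theorem chkM23_10_11 : TM.chk 2 3 1 0 treesM23_10_11 100003 100009 16 = true := by decide +kernel

/-- certificate tree -/
def treesM23_10_12 : TM :=
  .out

theorem chkM23_10_12 : TM.chk 2 3 1 0 treesM23_10_12 100003 100011 16 = true := by decide +kernel

/-- certificate tree -/
def treesM23_10_13 : TM :=
  .out

theorem chkM23_10_13 : TM.chk 2 3 1 0 treesM23_10_13 100003 100013 16 = true := by decide +kernel

/-- certificate tree -/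
def treesM23_10_16 : TM :=
  .out

theorem chkM23_10_16 : TM.chk 2 3 1 0 treesM23_10_16 100005 100005 16 = true := by decide +kernel

/-- certificate tree -/
def treesM23_10_17 : TM :=
  .out

theorem chkM23_10_17 : TM.chk 2 3 1 0 treesM23_10_17 100005 100007 16 = true := by decide +kernel

/-- certificate tree -/
def treesM23_10_18 : TM :=
  .out

theorem chkM23_10_18 : TM.chk 2 3 1 0 treesM23_10_18 100005 100009 16 = true := by decide +kernel

/-- certificate tree -/
def treesM23_10_19 : TM :=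
  .out

theorem chkM23_10_19 : TM.chk 2 3 1 0 treesM23_10_19 100005 100011 16 = true := by decide +kernel

/-- certificate tree -/
def treesM23_10_20 : TM :=
  .out

theorem chkM23_10_20 : TM.chk 2 3 1 0 treesM23_10_20 100005 100013 16 = true := by decide +kernel

/-- certificate tree -/
def treesM23_10_24 : TM :=
  .out

theorem chkM23_10_24 : TM.chk 2 3 1 0 treesM23_10_24 100007 100007 16 = true := by decide +kernel

/-- certificate tree -/
def treesM23_10_25 : TM :=
  .out

theorem chkM23_10_25 : TM.chk 2 3 1 0 treesM23_10_25 100007 100009 16 = true := by decide +kernel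

/-- certificate tree -/
def treesM23_10_26 : TM :=
  .out

theorem chkM23_10_26 : TM.chk 2 3 1 0 treesM23_10_26 100007 100011 16 = true := by decide +kernel

/-- certificate tree -/
def treesM23_10_27 : TM :=
  .out

theorem chkM23_10_27 : TM.chk 2 3 1 0 treesM23_10_27 100007 100013 16 = true := by decide +kernel

/-- certificate tree -/
def treesM23_10_28_c1 : TM :=
  .sq treesM23_10_28_c2 treesM23_10_28_c3 treesM23_10_28_c4 treesM23_10_28_c5

theorem chkM23_10_28_c1 : TM.chk 2 3 1 0 treesM23_10_28_c1 100019 100001 32 = true :=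
  TM.chk_sq rfl chkM23_10_28_c2 chkM23_10_28_c3 chkM23_10_28_c4 chkM23_10_28_c5

/-- certificate tree -/
def treesM23_10_28 : TM :=
  .sq treesM23_10_28_c0 treesM23_10_28_c1 treesM23_10_28_c6 treesM23_10_28_c7

theorem chkM23_10_28 : TM.chk 2 3 1 0 treesM23_10_28 100009 100001 16 = true :=
  TM.chk_sq rfl chkM23_10_28_c0 chkM23_10_28_c1 chkM23_10_28_c6 chkM23_10_28_c7

/-- certificate tree -/
def treesM23_10_29 : TM :=
  .sq treesM23_10_29_c0 treesM23_10_29_c1 treesM23_10_29_c2 treesM23_10_29_c3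

theorem chkM23_10_29 : TM.chk 2 3 1 0 treesM23_10_29 100009 100003 16 = true :=
  TM.chk_sq rfl chkM23_10_29_c0 chkM23_10_29_c1 chkM23_10_29_c2 chkM23_10_29_c3

/-- certificate tree -/
def treesM23_10_30 : TM :=
  .sq treesM23_10_30_c0 treesM23_10_30_c1 treesM23_10_30_c2 treesM23_10_30_c3

theorem chkM23_10_30 : TM.chk 2 3 1 0 treesM23_10_30 100009 100005 16 = true :=
  TM.chk_sq rfl chkM23_10_30_c0 chkM23_10_30_c1 chkM23_10_30_c2 chkM23_10_30_c3

/-- certificate tree -/
def treesM23_10_31 : TM :=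
  .out

theorem chkM23_10_31 : TM.chk 2 3 1 0 treesM23_10_31 100009 100007 16 = true := by decide +kernel

/-- certificate tree -/
def treesM23_10_32 : TM :=
  .out

theorem chkM23_10_32 : TM.chk 2 3 1 0 treesM23_10_32 100009 100009 16 = true := by decide +kernel

/-- certificate tree -/
def treesM23_10_33 : TM :=
  .out

theorem chkM23_10_33 : TM.chk 2 3 1 0 treesM23_10_33 100009 100011 16 = true := by decide +kernel

/-- certificate tree -/
def treesM23_10_34 : TM :=
  .out

theorem chkM23_10_34 : TM.chk 2 3 1 0 treesM23_10_34 100009 100013 16 = true := by decide +kernel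

/-- certificate tree -/
def treesM23_10_35 : TM :=
  .sq treesM23_10_35_c0 treesM23_10_35_c1 treesM23_10_35_c2 treesM23_10_35_c3

theorem chkM23_10_35 : TM.chk 2 3 1 0 treesM23_10_35 100011 100001 16 = true :=
  TM.chk_sq rfl chkM23_10_35_c0 chkM23_10_35_c1 chkM23_10_35_c2 chkM23_10_35_c3

/-- certificate tree -/
def treesM23_10_36 : TM :=
  .sq treesM23_10_36_c0 treesM23_10_36_c1 treesM23_10_36_c2 treesM23_10_36_c3

theorem chkM23_10_36 : TM.chk 2 3 1 0 treesM23_10_36 100011 100003 16 = true :=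
  TM.chk_sq rfl chkM23_10_36_c0 chkM23_10_36_c1 chkM23_10_36_c2 chkM23_10_36_c3

/-- certificate tree -/
def treesM23_10_37_c3 : TM :=
  .sq treesM23_10_37_c4 treesM23_10_37_c5 treesM23_10_37_c6 treesM23_10_37_c7

theorem chkM23_10_37_c3 : TM.chk 2 3 1 0 treesM23_10_37_c3 100023 100011 32 = true :=
  TM.chk_sq rfl chkM23_10_37_c4 chkM23_10_37_c5 chkM23_10_37_c6 chkM23_10_37_c7

/-- certificate tree -/
def treesM23_10_37 : TM :=
  .sq treesM23_10_37_c0 treesM23_10_37_c1 treesM23_10_37_c2 treesM23_10_37_c3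

theorem chkM23_10_37 : TM.chk 2 3 1 0 treesM23_10_37 100011 100005 16 = true :=
  TM.chk_sq rfl chkM23_10_37_c0 chkM23_10_37_c1 chkM23_10_37_c2 chkM23_10_37_c3

/-- certificate tree -/
def treesM23_10_38_c1 : TM :=
  .sq treesM23_10_38_c2 treesM23_10_38_c3 treesM23_10_38_c4 treesM23_10_38_c5

theorem chkM23_10_38_c1 : TM.chk 2 3 1 0 treesM23_10_38_c1 100023 100013 32 = true :=
  TM.chk_sq rfl chkM23_10_38_c2 chkM23_10_38_c3 chkM23_10_38_c4 chkM23_10_38_c5

/-- certificate tree -/
def treesM23_10_38_c6 : TM :=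
  .out

theorem chkM23_10_38_c6 : TM.chk 2 3 1 0 treesM23_10_38_c6 100021 100015 32 = true := by decide +kernel

/-- certificate tree -/
def treesM23_10_38_c7 : TM :=
  .out

theorem chkM23_10_38_c7 : TM.chk 2 3 1 0 treesM23_10_38_c7 100023 100015 32 = true := by decide +kernel

/-- certificate tree -/
def treesM23_10_38 : TM :=
  .sq treesM23_10_38_c0 treesM23_10_38_c1 treesM23_10_38_c6 treesM23_10_38_c7

theorem chkM23_10_38 : TM.chk 2 3 1 0 treesM23_10_38 100011 100007 16 = true :=
  TM.chk_sq rfl chkM23_10_38_c0 chkM23_10_38_c1 chkM23_10_38_c6 chkM23_10_38_c7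

/-- certificate tree -/
def treesM23_10_39 : TM :=
  .out

theorem chkM23_10_39 : TM.chk 2 3 1 0 treesM23_10_39 100011 100009 16 = true := by decide +kernel

/-- certificate tree -/
def treesM23_10_40 : TM :=
  .out

theorem chkM23_10_40 : TM.chk 2 3 1 0 treesM23_10_40 100011 100011 16 = true := by decide +kernel

/-- certificate tree -/
def treesM23_10_41 : TM :=
  .out

theorem chkM23_10_41 : TM.chk 2 3 1 0 treesM23_10_41 100011 100013 16 = true := by decide +kernel

/-- certificate tree -/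
def treesM23_10_42_c0 : TM :=
  .sq treesM23_10_42_c1 treesM23_10_42_c2 treesM23_10_42_c3 treesM23_10_42_c4

theorem chkM23_10_42_c0 : TM.chk 2 3 1 0 treesM23_10_42_c0 100025 100001 32 = true :=
  TM.chk_sq rfl chkM23_10_42_c1 chkM23_10_42_c2 chkM23_10_42_c3 chkM23_10_42_c4

/-- certificate tree -/
def treesM23_10_42_c6 : TM :=
  .sq treesM23_10_42_c7 treesM23_10_42_c8 treesM23_10_42_c9 treesM23_10_42_c10

theorem chkM23_10_42_c6 : TM.chk 2 3 1 0 treesM23_10_42_c6 100025 100003 32 = true :=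
  TM.chk_sq rfl chkM23_10_42_c7 chkM23_10_42_c8 chkM23_10_42_c9 chkM23_10_42_c10

/-- certificate tree -/
def treesM23_10_42_c11 : TM :=
  .sq treesM23_10_42_c12 treesM23_10_42_c13 treesM23_10_42_c14 treesM23_10_42_c15

theorem chkM23_10_42_c11 : TM.chk 2 3 1 0 treesM23_10_42_c11 100027 100003 32 = true :=
  TM.chk_sq rfl chkM23_10_42_c12 chkM23_10_42_c13 chkM23_10_42_c14 chkM23_10_42_c15

/-- certificate tree -/
def treesM23_10_42 : TM :=
  .sq treesM23_10_42_c0 treesM23_10_42_c5 treesM23_10_42_c6 treesM23_10_42_c11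

theorem chkM23_10_42 : TM.chk 2 3 1 0 treesM23_10_42 100013 100001 16 = true :=
  TM.chk_sq rfl chkM23_10_42_c0 chkM23_10_42_c5 chkM23_10_42_c6 chkM23_10_42_c11

/-- certificate tree -/
def treesM23_10_43_c0 : TM :=
  .sq treesM23_10_43_c1 treesM23_10_43_c2 treesM23_10_43_c3 treesM23_10_43_c4

theorem chkM23_10_43_c0 : TM.chk 2 3 1 0 treesM23_10_43_c0 100025 100005 32 = true :=
  TM.chk_sq rfl chkM23_10_43_c1 chkM23_10_43_c2 chkM23_10_43_c3 chkM23_10_43_c4

/-- certificate tree -/
def treesM23_10_43_c6 : TM :=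
  .sq treesM23_10_43_c7 treesM23_10_43_c8 treesM23_10_43_c9 treesM23_10_43_c10

theorem chkM23_10_43_c6 : TM.chk 2 3 1 0 treesM23_10_43_c6 100025 100007 32 = true :=
  TM.chk_sq rfl chkM23_10_43_c7 chkM23_10_43_c8 chkM23_10_43_c9 chkM23_10_43_c10

/-- certificate tree -/
def treesM23_10_43 : TM :=
  .sq treesM23_10_43_c0 treesM23_10_43_c5 treesM23_10_43_c6 treesM23_10_43_c11

theorem chkM23_10_43 : TM.chk 2 3 1 0 treesM23_10_43 100013 100003 16 = true :=
  TM.chk_sq rfl chkM23_10_43_c0 chkM23_10_43_c5 chkM23_10_43_c6 chkM23_10_43_c11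

/-- certificate tree -/
def treesM23_10_44_c0 : TM :=
  .sq treesM23_10_44_c1 treesM23_10_44_c2 treesM23_10_44_c3 treesM23_10_44_c4

theorem chkM23_10_44_c0 : TM.chk 2 3 1 0 treesM23_10_44_c0 100025 100009 32 = true :=
  TM.chk_sq rfl chkM23_10_44_c1 chkM23_10_44_c2 chkM23_10_44_c3 chkM23_10_44_c4

/-- certificate tree -/
def treesM23_10_44 : TM :=
  .sq treesM23_10_44_c0 treesM23_10_44_c5 treesM23_10_44_c6 treesM23_10_44_c7

theorem chkM23_10_44 : TM.chk 2 3 1 0 treesM23_10_44 100013 100005 16 = true :=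
  TM.chk_sq rfl chkM23_10_44_c0 chkM23_10_44_c5 chkM23_10_44_c6 chkM23_10_44_c7

/-- certificate tree -/
def treesM23_10_46 : TM :=
  .out

theorem chkM23_10_46 : TM.chk 2 3 1 0 treesM23_10_46 100013 100009 16 = true := by decide +kernel

/-- certificate tree -/
def treesM23_10_47 : TM :=
  .out

theorem chkM23_10_47 : TM.chk 2 3 1 0 treesM23_10_47 100013 100011 16 = true := by decide +kernel

/-- certificate tree -/
def treesM23_10_48 : TM :=
  .out

theorem chkM23_10_48 : TM.chk 2 3 1 0 treesM23_10_48 100013 100013 16 = true := by decide +kernel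

/-- certificate trees -/
def treesM23_10 : List TM :=
  [treesM23_10_0, treesM23_10_1, treesM23_10_2, treesM23_10_3, treesM23_10_4, treesM23_10_5,
  treesM23_10_6, treesM23_10_7, treesM23_10_8, treesM23_10_9, treesM23_10_10, treesM23_10_11,
  treesM23_10_12, treesM23_10_13, treesM23_10_14, treesM23_10_15, treesM23_10_16, treesM23_10_17,
  treesM23_10_18, treesM23_10_19, treesM23_10_20, treesM23_10_21, treesM23_10_22, treesM23_10_23,
  treesM23_10_24, treesM23_10_25, treesM23_10_26, treesM23_10_27, treesM23_10_28, treesM23_10_29,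
  treesM23_10_30, treesM23_10_31, treesM23_10_32, treesM23_10_33, treesM23_10_34, treesM23_10_35,
  treesM23_10_36, treesM23_10_37, treesM23_10_38, treesM23_10_39, treesM23_10_40, treesM23_10_41,
  treesM23_10_42, treesM23_10_43, treesM23_10_44, treesM23_10_45, treesM23_10_46, treesM23_10_47,
  treesM23_10_48]

theorem chkM23_10 : chkGridM 2 3 1 0 treesM23_10 0 = true :=
  chkGridM_cons rfl rfl chkM23_10_0 (chkGridM_cons rfl rfl chkM23_10_1 (chkGridM_cons rfl rfl
  chkM23_10_2 (chkGridM_cons rfl rfl chkM23_10_3 (chkGridM_cons rfl rfl chkM23_10_4 (chkGridM_cons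
  rfl rfl chkM23_10_5 (chkGridM_cons rfl rfl chkM23_10_6 (chkGridM_cons rfl rfl chkM23_10_7
  (chkGridM_cons rfl rfl chkM23_10_8 (chkGridM_cons rfl rfl chkM23_10_9 (chkGridM_cons rfl rfl
  chkM23_10_10 (chkGridM_cons rfl rfl chkM23_10_11 (chkGridM_cons rfl rfl chkM23_10_12
  (chkGridM_cons rfl rfl chkM23_10_13 (chkGridM_cons rfl rfl chkM23_10_14 (chkGridM_cons rfl rfl
  chkM23_10_15 (chkGridM_cons rfl rfl chkM23_10_16 (chkGridM_cons rfl rfl chkM23_10_17
  (chkGridM_cons rfl rfl chkM23_10_18 (chkGridM_cons rfl rfl chkM23_10_19 (chkGridM_cons rfl rfl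
  chkM23_10_20 (chkGridM_cons rfl rfl chkM23_10_21 (chkGridM_cons rfl rfl chkM23_10_22
  (chkGridM_cons rfl rfl chkM23_10_23 (chkGridM_cons rfl rfl chkM23_10_24 (chkGridM_cons rfl rfl
  chkM23_10_25 (chkGridM_cons rfl rfl chkM23_10_26 (chkGridM_cons rfl rfl chkM23_10_27
  (chkGridM_cons rfl rfl chkM23_10_28 (chkGridM_cons rfl rfl chkM23_10_29 (chkGridM_cons rfl rfl
  chkM23_10_30 (chkGridM_cons rfl rfl chkM23_10_31 (chkGridM_cons rfl rfl chkM23_10_32
  (chkGridM_cons rfl rfl chkM23_10_33 (chkGridM_cons rfl rfl chkM23_10_34 (chkGridM_cons rfl rfl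
  chkM23_10_35 (chkGridM_cons rfl rfl chkM23_10_36 (chkGridM_cons rfl rfl chkM23_10_37
  (chkGridM_cons rfl rfl chkM23_10_38 (chkGridM_cons rfl rfl chkM23_10_39 (chkGridM_cons rfl rfl
  chkM23_10_40 (chkGridM_cons rfl rfl chkM23_10_41 (chkGridM_cons rfl rfl chkM23_10_42
  (chkGridM_cons rfl rfl chkM23_10_43 (chkGridM_cons rfl rfl chkM23_10_44 (chkGridM_cons rfl rfl
  chkM23_10_45 (chkGridM_cons rfl rfl chkM23_10_46 (chkGridM_cons rfl rfl chkM23_10_47
  (chkGridM_cons rfl rfl chkM23_10_48 rfl))))))))))))))))))))))))))))))))))))))))))))))))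

end Pool.Agent.MaxTerm58
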