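import Pool.Agent.MaxTerm58.DM23_11_p0
import Pool.Agent.MaxTerm58.DM23_11_p1
import Pool.Agent.MaxTerm58.DM23_11_p2
import Pool.Agent.MaxTerm58.DM23_11_p3
import Pool.Agent.MaxTerm58.DM23_11_p4

/-! Certificates of the family M, gaps 2 and 3, modes 1 and 1. -/

namespace Pool.Agent.MaxTerm58

set_option maxRecDepth 100000

/-- certificate tree -/
def treesM23_11_1 : TM :=
  .out

theorem chkM23_11_1 : TM.chk 2 3 1 1 treesM23_11_1 100001 100003 16 = true := by decide +kernel

/-- certificate tree -/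
def treesM23_11_2 : TM :=
  .out

theorem chkM23_11_2 : TM.chk 2 3 1 1 treesM23_11_2 100001 100005 16 = true := by decide +kernel

/-- certificate tree -/
def treesM23_11_3 : TM :=
  .out

theorem chkM23_11_3 : TM.chk 2 3 1 1 treesM23_11_3 100001 100007 16 = true := by decide +kernel

/-- certificate tree -/
def treesM23_11_4 : TM :=
  .out

theorem chkM23_11_4 : TM.chk 2 3 1 1 treesM23_11_4 100001 100009 16 = true := by decide +kernel

/-- certificate tree -/
def treesM23_11_5 : TM :=
  .out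

theorem chkM23_11_5 : TM.chk 2 3 1 1 treesM23_11_5 100001 100011 16 = true := by decide +kernel

/-- certificate tree -/
def treesM23_11_6 : TM :=
  .out

theorem chkM23_11_6 : TM.chk 2 3 1 1 treesM23_11_6 100001 100013 16 = true := by decide +kernel

/-- certificate tree -/
def treesM23_11_9 : TM :=
  .out

theorem chkM23_11_9 : TM.chk 2 3 1 1 treesM23_11_9 100003 100005 16 = true := by decide +kernel

/-- certificate tree -/
def treesM23_11_10 : TM :=
  .out

theorem chkM23_11_10 : TM.chk 2 3 1 1 treesM23_11_10 100003 100007 16 = true := by decide +kernel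

/-- certificate tree -/
def treesM23_11_11 : TM :=
  .out

theorem chkM23_11_11 : TM.chk 2 3 1 1 treesM23_11_11 100003 100009 16 = true := by decide +kernel

/-- certificate tree -/
def treesM23_11_12 : TM :=
  .out

theorem chkM23_11_12 : TM.chk 2 3 1 1 treesM23_11_12 100003 100011 16 = true := by decide +kernel

/-- certificate tree -/
def treesM23_11_13 : TM :=
  .out

theorem chkM23_11_13 : TM.chk 2 3 1 1 treesM23_11_13 100003 100013 16 = true := by decide +kernel

/-- certificate tree -/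
def treesM23_11_16 : TM :=
  .out

theorem chkM23_11_16 : TM.chk 2 3 1 1 treesM23_11_16 100005 100005 16 = true := by decide +kernel

/-- certificate tree -/
def treesM23_11_17 : TM :=
  .out

theorem chkM23_11_17 : TM.chk 2 3 1 1 treesM23_11_17 100005 100007 16 = true := by decide +kernel

/-- certificate tree -/
def treesM23_11_18 : TM :=
  .out

theorem chkM23_11_18 : TM.chk 2 3 1 1 treesM23_11_18 100005 100009 16 = true := by decide +kernel

/-- certificate tree -/
def treesM23_11_19 : TM :=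
  .out

theorem chkM23_11_19 : TM.chk 2 3 1 1 treesM23_11_19 100005 100011 16 = true := by decide +kernel

/-- certificate tree -/
def treesM23_11_20 : TM :=
  .out

theorem chkM23_11_20 : TM.chk 2 3 1 1 treesM23_11_20 100005 100013 16 = true := by decide +kernel

/-- certificate tree -/
def treesM23_11_24 : TM :=
  .out

theorem chkM23_11_24 : TM.chk 2 3 1 1 treesM23_11_24 100007 100007 16 = true := by decide +kernel

/-- certificate tree -/
def treesM23_11_25 : TM :=
  .out

theorem chkM23_11_25 : TM.chk 2 3 1 1 treesM23_11_25 100007 100009 16 = true := by decide +kernel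

/-- certificate tree -/
def treesM23_11_26 : TM :=
  .out

theorem chkM23_11_26 : TM.chk 2 3 1 1 treesM23_11_26 100007 100011 16 = true := by decide +kernel

/-- certificate tree -/
def treesM23_11_27 : TM :=
  .out

theorem chkM23_11_27 : TM.chk 2 3 1 1 treesM23_11_27 100007 100013 16 = true := by decide +kernel

/-- certificate tree -/
def treesM23_11_28 : TM :=
  .sq treesM23_11_28_c0 treesM23_11_28_c1 treesM23_11_28_c2 treesM23_11_28_c3

theorem chkM23_11_28 : TM.chk 2 3 1 1 treesM23_11_28 100009 100001 16 = true :=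
  TM.chk_sq rfl chkM23_11_28_c0 chkM23_11_28_c1 chkM23_11_28_c2 chkM23_11_28_c3

/-- certificate tree -/
def treesM23_11_29 : TM :=
  .sq treesM23_11_29_c0 treesM23_11_29_c1 treesM23_11_29_c2 treesM23_11_29_c3

theorem chkM23_11_29 : TM.chk 2 3 1 1 treesM23_11_29 100009 100003 16 = true :=
  TM.chk_sq rfl chkM23_11_29_c0 chkM23_11_29_c1 chkM23_11_29_c2 chkM23_11_29_c3

/-- certificate tree -/
def treesM23_11_30 : TM :=
  .sq treesM23_11_30_c0 treesM23_11_30_c1 treesM23_11_30_c2 treesM23_11_30_c3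

theorem chkM23_11_30 : TM.chk 2 3 1 1 treesM23_11_30 100009 100005 16 = true :=
  TM.chk_sq rfl chkM23_11_30_c0 chkM23_11_30_c1 chkM23_11_30_c2 chkM23_11_30_c3

/-- certificate tree -/
def treesM23_11_31 : TM :=
  .out

theorem chkM23_11_31 : TM.chk 2 3 1 1 treesM23_11_31 100009 100007 16 = true := by decide +kernel

/-- certificate tree -/
def treesM23_11_32 : TM :=
  .out

theorem chkM23_11_32 : TM.chk 2 3 1 1 treesM23_11_32 100009 100009 16 = true := by decide +kernel

/-- certificate tree -/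
def treesM23_11_33 : TM :=
  .out

theorem chkM23_11_33 : TM.chk 2 3 1 1 treesM23_11_33 100009 100011 16 = true := by decide +kernel

/-- certificate tree -/
def treesM23_11_34 : TM :=
  .out

theorem chkM23_11_34 : TM.chk 2 3 1 1 treesM23_11_34 100009 100013 16 = true := by decide +kernel

/-- certificate tree -/
def treesM23_11_35 : TM :=
  .sq treesM23_11_35_c0 treesM23_11_35_c1 treesM23_11_35_c2 treesM23_11_35_c3

theorem chkM23_11_35 : TM.chk 2 3 1 1 treesM23_11_35 100011 100001 16 = true :=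
  TM.chk_sq rfl chkM23_11_35_c0 chkM23_11_35_c1 chkM23_11_35_c2 chkM23_11_35_c3

/-- certificate tree -/
def treesM23_11_36 : TM :=
  .sq treesM23_11_36_c0 treesM23_11_36_c1 treesM23_11_36_c2 treesM23_11_36_c3

theorem chkM23_11_36 : TM.chk 2 3 1 1 treesM23_11_36 100011 100003 16 = true :=
  TM.chk_sq rfl chkM23_11_36_c0 chkM23_11_36_c1 chkM23_11_36_c2 chkM23_11_36_c3

/-- certificate tree -/
def treesM23_11_37_c3 : TM :=
  .sq treesM23_11_37_c4 treesM23_11_37_c5 treesM23_11_37_c6 treesM23_11_37_c7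

theorem chkM23_11_37_c3 : TM.chk 2 3 1 1 treesM23_11_37_c3 100023 100011 32 = true :=
  TM.chk_sq rfl chkM23_11_37_c4 chkM23_11_37_c5 chkM23_11_37_c6 chkM23_11_37_c7

/-- certificate tree -/
def treesM23_11_37 : TM :=
  .sq treesM23_11_37_c0 treesM23_11_37_c1 treesM23_11_37_c2 treesM23_11_37_c3

theorem chkM23_11_37 : TM.chk 2 3 1 1 treesM23_11_37 100011 100005 16 = true :=
  TM.chk_sq rfl chkM23_11_37_c0 chkM23_11_37_c1 chkM23_11_37_c2 chkM23_11_37_c3

/-- certificate tree -/
def treesM23_11_38_c1 : TM :=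
  .sq treesM23_11_38_c2 treesM23_11_38_c3 treesM23_11_38_c4 treesM23_11_38_c5

theorem chkM23_11_38_c1 : TM.chk 2 3 1 1 treesM23_11_38_c1 100023 100013 32 = true :=
  TM.chk_sq rfl chkM23_11_38_c2 chkM23_11_38_c3 chkM23_11_38_c4 chkM23_11_38_c5

/-- certificate tree -/
def treesM23_11_38_c6 : TM :=
  .out

theorem chkM23_11_38_c6 : TM.chk 2 3 1 1 treesM23_11_38_c6 100021 100015 32 = true := by decide +kernel

/-- certificate tree -/
def treesM23_11_38_c7 : TM :=
  .out

theorem chkM23_11_38_c7 : TM.chk 2 3 1 1 treesM23_11_38_c7 100023 100015 32 = true := by decide +kernel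

/-- certificate tree -/
def treesM23_11_38 : TM :=
  .sq treesM23_11_38_c0 treesM23_11_38_c1 treesM23_11_38_c6 treesM23_11_38_c7

theorem chkM23_11_38 : TM.chk 2 3 1 1 treesM23_11_38 100011 100007 16 = true :=
  TM.chk_sq rfl chkM23_11_38_c0 chkM23_11_38_c1 chkM23_11_38_c6 chkM23_11_38_c7

/-- certificate tree -/
def treesM23_11_39 : TM :=
  .out

theorem chkM23_11_39 : TM.chk 2 3 1 1 treesM23_11_39 100011 100009 16 = true := by decide +kernel

/-- certificate tree -/
def treesM23_11_40 : TM :=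
  .out

theorem chkM23_11_40 : TM.chk 2 3 1 1 treesM23_11_40 100011 100011 16 = true := by decide +kernel

/-- certificate tree -/
def treesM23_11_41 : TM :=
  .out

theorem chkM23_11_41 : TM.chk 2 3 1 1 treesM23_11_41 100011 100013 16 = true := by decide +kernel

/-- certificate tree -/
def treesM23_11_42_c0 : TM :=
  .sq treesM23_11_42_c1 treesM23_11_42_c2 treesM23_11_42_c3 treesM23_11_42_c4

theorem chkM23_11_42_c0 : TM.chk 2 3 1 1 treesM23_11_42_c0 100025 100001 32 = true :=
  TM.chk_sq rfl chkM23_11_42_c1 chkM23_11_42_c2 chkM23_11_42_c3 chkM23_11_42_c4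

/-- certificate tree -/
def treesM23_11_42_c5 : TM :=
  .sq treesM23_11_42_c6 treesM23_11_42_c7 treesM23_11_42_c8 treesM23_11_42_c9

theorem chkM23_11_42_c5 : TM.chk 2 3 1 1 treesM23_11_42_c5 100027 100001 32 = true :=
  TM.chk_sq rfl chkM23_11_42_c6 chkM23_11_42_c7 chkM23_11_42_c8 chkM23_11_42_c9

/-- certificate tree -/
def treesM23_11_42_c10 : TM :=
  .sq treesM23_11_42_c11 treesM23_11_42_c12 treesM23_11_42_c13 treesM23_11_42_c14

theorem chkM23_11_42_c10 : TM.chk 2 3 1 1 treesM23_11_42_c10 100025 100003 32 = true :=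
  TM.chk_sq rfl chkM23_11_42_c11 chkM23_11_42_c12 chkM23_11_42_c13 chkM23_11_42_c14

/-- certificate tree -/
def treesM23_11_42 : TM :=
  .sq treesM23_11_42_c0 treesM23_11_42_c5 treesM23_11_42_c10 treesM23_11_42_c15

theorem chkM23_11_42 : TM.chk 2 3 1 1 treesM23_11_42 100013 100001 16 = true :=
  TM.chk_sq rfl chkM23_11_42_c0 chkM23_11_42_c5 chkM23_11_42_c10 chkM23_11_42_c15

/-- certificate tree -/
def treesM23_11_43_c0 : TM :=
  .sq treesM23_11_43_c1 treesM23_11_43_c2 treesM23_11_43_c3 treesM23_11_43_c4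

theorem chkM23_11_43_c0 : TM.chk 2 3 1 1 treesM23_11_43_c0 100025 100005 32 = true :=
  TM.chk_sq rfl chkM23_11_43_c1 chkM23_11_43_c2 chkM23_11_43_c3 chkM23_11_43_c4

/-- certificate tree -/
def treesM23_11_43_c6 : TM :=
  .sq treesM23_11_43_c7 treesM23_11_43_c8 treesM23_11_43_c9 treesM23_11_43_c10

theorem chkM23_11_43_c6 : TM.chk 2 3 1 1 treesM23_11_43_c6 100025 100007 32 = true :=
  TM.chk_sq rfl chkM23_11_43_c7 chkM23_11_43_c8 chkM23_11_43_c9 chkM23_11_43_c10

/-- certificate tree -/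
def treesM23_11_43 : TM :=
  .sq treesM23_11_43_c0 treesM23_11_43_c5 treesM23_11_43_c6 treesM23_11_43_c11

theorem chkM23_11_43 : TM.chk 2 3 1 1 treesM23_11_43 100013 100003 16 = true :=
  TM.chk_sq rfl chkM23_11_43_c0 chkM23_11_43_c5 chkM23_11_43_c6 chkM23_11_43_c11

/-- certificate tree -/
def treesM23_11_44_c0 : TM :=
  .sq treesM23_11_44_c1 treesM23_11_44_c2 treesM23_11_44_c3 treesM23_11_44_c4

theorem chkM23_11_44_c0 : TM.chk 2 3 1 1 treesM23_11_44_c0 100025 100009 32 = true :=
  TM.chk_sq rfl chkM23_11_44_c1 chkM23_11_44_c2 chkM23_11_44_c3 chkM23_11_44_c4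

/-- certificate tree -/
def treesM23_11_44 : TM :=
  .sq treesM23_11_44_c0 treesM23_11_44_c5 treesM23_11_44_c6 treesM23_11_44_c7

theorem chkM23_11_44 : TM.chk 2 3 1 1 treesM23_11_44 100013 100005 16 = true :=
  TM.chk_sq rfl chkM23_11_44_c0 chkM23_11_44_c5 chkM23_11_44_c6 chkM23_11_44_c7

/-- certificate tree -/
def treesM23_11_46 : TM :=
  .out

theorem chkM23_11_46 : TM.chk 2 3 1 1 treesM23_11_46 100013 100009 16 = true := by decide +kernel

/-- certificate tree -/
def treesM23_11_47 : TM :=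
  .out

theorem chkM23_11_47 : TM.chk 2 3 1 1 treesM23_11_47 100013 100011 16 = true := by decide +kernel

/-- certificate tree -/
def treesM23_11_48 : TM :=
  .out

theorem chkM23_11_48 : TM.chk 2 3 1 1 treesM23_11_48 100013 100013 16 = true := by decide +kernel

/-- certificate trees -/
def treesM23_11 : List TM :=
  [treesM23_11_0, treesM23_11_1, treesM23_11_2, treesM23_11_3, treesM23_11_4, treesM23_11_5,
  treesM23_11_6, treesM23_11_7, treesM23_11_8, treesM23_11_9, treesM23_11_10, treesM23_11_11,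
  treesM23_11_12, treesM23_11_13, treesM23_11_14, treesM23_11_15, treesM23_11_16, treesM23_11_17,
  treesM23_11_18, treesM23_11_19, treesM23_11_20, treesM23_11_21, treesM23_11_22, treesM23_11_23,
  treesM23_11_24, treesM23_11_25, treesM23_11_26, treesM23_11_27, treesM23_11_28, treesM23_11_29,
  treesM23_11_30, treesM23_11_31, treesM23_11_32, treesM23_11_33, treesM23_11_34, treesM23_11_35,
  treesM23_11_36, treesM23_11_37, treesM23_11_38, treesM23_11_39, treesM23_11_40, treesM23_11_41,
  treesM23_11_42, treesM23_11_43, treesM23_11_44, treesM23_11_45, treesM23_11_46, treesM23_11_47,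
  treesM23_11_48]

theorem chkM23_11 : chkGridM 2 3 1 1 treesM23_11 0 = true :=
  chkGridM_cons rfl rfl chkM23_11_0 (chkGridM_cons rfl rfl chkM23_11_1 (chkGridM_cons rfl rfl
  chkM23_11_2 (chkGridM_cons rfl rfl chkM23_11_3 (chkGridM_cons rfl rfl chkM23_11_4 (chkGridM_cons
  rfl rfl chkM23_11_5 (chkGridM_cons rfl rfl chkM23_11_6 (chkGridM_cons rfl rfl chkM23_11_7
  (chkGridM_cons rfl rfl chkM23_11_8 (chkGridM_cons rfl rfl chkM23_11_9 (chkGridM_cons rfl rfl
  chkM23_11_10 (chkGridM_cons rfl rfl chkM23_11_11 (chkGridM_cons rfl rfl chkM23_11_12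
  (chkGridM_cons rfl rfl chkM23_11_13 (chkGridM_cons rfl rfl chkM23_11_14 (chkGridM_cons rfl rfl
  chkM23_11_15 (chkGridM_cons rfl rfl chkM23_11_16 (chkGridM_cons rfl rfl chkM23_11_17
  (chkGridM_cons rfl rfl chkM23_11_18 (chkGridM_cons rfl rfl chkM23_11_19 (chkGridM_cons rfl rfl
  chkM23_11_20 (chkGridM_cons rfl rfl chkM23_11_21 (chkGridM_cons rfl rfl chkM23_11_22
  (chkGridM_cons rfl rfl chkM23_11_23 (chkGridM_cons rfl rfl chkM23_11_24 (chkGridM_cons rfl rfl
  chkM23_11_25 (chkGridM_cons rfl rfl chkM23_11_26 (chkGridM_cons rfl rfl chkM23_11_27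
  (chkGridM_cons rfl rfl chkM23_11_28 (chkGridM_cons rfl rfl chkM23_11_29 (chkGridM_cons rfl rfl
  chkM23_11_30 (chkGridM_cons rfl rfl chkM23_11_31 (chkGridM_cons rfl rfl chkM23_11_32
  (chkGridM_cons rfl rfl chkM23_11_33 (chkGridM_cons rfl rfl chkM23_11_34 (chkGridM_cons rfl rfl
  chkM23_11_35 (chkGridM_cons rfl rfl chkM23_11_36 (chkGridM_cons rfl rfl chkM23_11_37
  (chkGridM_cons rfl rfl chkM23_11_38 (chkGridM_cons rfl rfl chkM23_11_39 (chkGridM_cons rfl rfl
  chkM23_11_40 (chkGridM_cons rfl rfl chkM23_11_41 (chkGridM_cons rfl rfl chkM23_11_42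
  (chkGridM_cons rfl rfl chkM23_11_43 (chkGridM_cons rfl rfl chkM23_11_44 (chkGridM_cons rfl rfl
  chkM23_11_45 (chkGridM_cons rfl rfl chkM23_11_46 (chkGridM_cons rfl rfl chkM23_11_47
  (chkGridM_cons rfl rfl chkM23_11_48 rfl))))))))))))))))))))))))))))))))))))))))))))))))

end Pool.Agent.MaxTerm58
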