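import Pool.Agent.MaxTerm58.DSA_m11_1_p0
import Pool.Agent.MaxTerm58.DSA_m11_1_p1

/-! Certificates of the family SA for the square of half width `1/16` with centre `(-11 + 1 i)/16`. -/

namespace Pool.Agent.MaxTerm58

set_option maxRecDepth 100000

/-- certificate tree -/
def treeSA_m11_1_0_c1 : TS :=
  .out

theorem chkSA_m11_1_0_c1 : TS.chk 0 treeSA_m11_1_0_c1 99989 100001 16 100003 99997 4 = true := by decide +kernel

/-- certificate tree -/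
def treeSA_m11_1_0_c10 : TS :=
  .sq treeSA_m11_1_0_c11 treeSA_m11_1_0_c12 treeSA_m11_1_0_c13 treeSA_m11_1_0_c14

theorem chkSA_m11_1_0_c10 : TS.chk 0 treeSA_m11_1_0_c10 99989 100001 16 100007 99999 16 = true :=
  TS.chk_sq rfl chkSA_m11_1_0_c11 chkSA_m11_1_0_c12 chkSA_m11_1_0_c13 chkSA_m11_1_0_c14

/-- certificate tree -/
def treeSA_m11_1_0_c6 : TS :=
  .sp treeSA_m11_1_0_c7 treeSA_m11_1_0_c8 treeSA_m11_1_0_c9 treeSA_m11_1_0_c10

theorem chkSA_m11_1_0_c6 : TS.chk 0 treeSA_m11_1_0_c6 99989 100001 16 100003 99999 8 = true :=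
  TS.chk_sp rfl chkSA_m11_1_0_c7 chkSA_m11_1_0_c8 chkSA_m11_1_0_c9 chkSA_m11_1_0_c10

/-- certificate tree -/
def treeSA_m11_1_0_c2 : TS :=
  .sp treeSA_m11_1_0_c3 treeSA_m11_1_0_c4 treeSA_m11_1_0_c5 treeSA_m11_1_0_c6

theorem chkSA_m11_1_0_c2 : TS.chk 0 treeSA_m11_1_0_c2 99989 100001 16 100001 99999 4 = true :=
  TS.chk_sp rfl chkSA_m11_1_0_c3 chkSA_m11_1_0_c4 chkSA_m11_1_0_c5 chkSA_m11_1_0_c6

/-- certificate tree -/
def treeSA_m11_1_0_c17 : TS :=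
  .out

theorem chkSA_m11_1_0_c17 : TS.chk 0 treeSA_m11_1_0_c17 99989 100001 16 100007 99997 8 = true := by decide +kernel

/-- certificate tree -/
def treeSA_m11_1_0_c18 : TS :=
  .sp treeSA_m11_1_0_c19 treeSA_m11_1_0_c20 treeSA_m11_1_0_c21 treeSA_m11_1_0_c22

theorem chkSA_m11_1_0_c18 : TS.chk 0 treeSA_m11_1_0_c18 99989 100001 16 100005 99999 8 = true :=
  TS.chk_sp rfl chkSA_m11_1_0_c19 chkSA_m11_1_0_c20 chkSA_m11_1_0_c21 chkSA_m11_1_0_c22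

/-- certificate tree -/
def treeSA_m11_1_0_c23 : TS :=
  .out

theorem chkSA_m11_1_0_c23 : TS.chk 0 treeSA_m11_1_0_c23 99989 100001 16 100007 99999 8 = true := by decide +kernel

/-- certificate tree -/
def treeSA_m11_1_0_c15 : TS :=
  .sp treeSA_m11_1_0_c16 treeSA_m11_1_0_c17 treeSA_m11_1_0_c18 treeSA_m11_1_0_c23

theorem chkSA_m11_1_0_c15 : TS.chk 0 treeSA_m11_1_0_c15 99989 100001 16 100003 99999 4 = true :=
  TS.chk_sp rfl chkSA_m11_1_0_c16 chkSA_m11_1_0_c17 chkSA_m11_1_0_c18 chkSA_m11_1_0_c23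

/-- certificate tree -/
def treeSA_m11_1_0 : TS :=
  .sp treeSA_m11_1_0_c0 treeSA_m11_1_0_c1 treeSA_m11_1_0_c2 treeSA_m11_1_0_c15

theorem chkSA_m11_1_0 : TS.chk 0 treeSA_m11_1_0 99989 100001 16 100001 99999 2 = true :=
  TS.chk_sp rfl chkSA_m11_1_0_c0 chkSA_m11_1_0_c1 chkSA_m11_1_0_c2 chkSA_m11_1_0_c15

/-- certificate tree -/
def treeSA_m11_1_1_c4 : TS :=
  .sq treeSA_m11_1_1_c5 treeSA_m11_1_1_c6 treeSA_m11_1_1_c7 treeSA_m11_1_1_c8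

theorem chkSA_m11_1_1_c4 : TS.chk 0 treeSA_m11_1_1_c4 99989 100001 16 100007 100001 16 = true :=
  TS.chk_sq rfl chkSA_m11_1_1_c5 chkSA_m11_1_1_c6 chkSA_m11_1_1_c7 chkSA_m11_1_1_c8

/-- certificate tree -/
def treeSA_m11_1_1_c2 : TS :=
  .sp treeSA_m11_1_1_c3 treeSA_m11_1_1_c4 treeSA_m11_1_1_c9 treeSA_m11_1_1_c10

theorem chkSA_m11_1_1_c2 : TS.chk 0 treeSA_m11_1_1_c2 99989 100001 16 100003 100001 8 = true :=
  TS.chk_sp rfl chkSA_m11_1_1_c3 chkSA_m11_1_1_c4 chkSA_m11_1_1_c9 chkSA_m11_1_1_c10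

/-- certificate tree -/
def treeSA_m11_1_1_c0 : TS :=
  .sp treeSA_m11_1_1_c1 treeSA_m11_1_1_c2 treeSA_m11_1_1_c11 treeSA_m11_1_1_c12

theorem chkSA_m11_1_1_c0 : TS.chk 0 treeSA_m11_1_1_c0 99989 100001 16 100001 100001 4 = true :=
  TS.chk_sp rfl chkSA_m11_1_1_c1 chkSA_m11_1_1_c2 chkSA_m11_1_1_c11 chkSA_m11_1_1_c12

/-- certificate tree -/
def treeSA_m11_1_1_c14 : TS :=
  .sp treeSA_m11_1_1_c15 treeSA_m11_1_1_c16 treeSA_m11_1_1_c17 treeSA_m11_1_1_c18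

theorem chkSA_m11_1_1_c14 : TS.chk 0 treeSA_m11_1_1_c14 99989 100001 16 100005 100001 8 = true :=
  TS.chk_sp rfl chkSA_m11_1_1_c15 chkSA_m11_1_1_c16 chkSA_m11_1_1_c17 chkSA_m11_1_1_c18

/-- certificate tree -/
def treeSA_m11_1_1_c19 : TS :=
  .out

theorem chkSA_m11_1_1_c19 : TS.chk 0 treeSA_m11_1_1_c19 99989 100001 16 100007 100001 8 = true := by decide +kernel

/-- certificate tree -/
def treeSA_m11_1_1_c21 : TS :=
  .out

theorem chkSA_m11_1_1_c21 : TS.chk 0 treeSA_m11_1_1_c21 99989 100001 16 100007 100003 8 = true := by decide +kernel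

/-- certificate tree -/
def treeSA_m11_1_1_c13 : TS :=
  .sp treeSA_m11_1_1_c14 treeSA_m11_1_1_c19 treeSA_m11_1_1_c20 treeSA_m11_1_1_c21

theorem chkSA_m11_1_1_c13 : TS.chk 0 treeSA_m11_1_1_c13 99989 100001 16 100003 100001 4 = true :=
  TS.chk_sp rfl chkSA_m11_1_1_c14 chkSA_m11_1_1_c19 chkSA_m11_1_1_c20 chkSA_m11_1_1_c21

/-- certificate tree -/
def treeSA_m11_1_1_c23 : TS :=
  .out

theorem chkSA_m11_1_1_c23 : TS.chk 0 treeSA_m11_1_1_c23 99989 100001 16 100003 100003 4 = true := by decide +kernel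

/-- certificate tree -/
def treeSA_m11_1_1 : TS :=
  .sp treeSA_m11_1_1_c0 treeSA_m11_1_1_c13 treeSA_m11_1_1_c22 treeSA_m11_1_1_c23

theorem chkSA_m11_1_1 : TS.chk 0 treeSA_m11_1_1 99989 100001 16 100001 100001 2 = true :=
  TS.chk_sp rfl chkSA_m11_1_1_c0 chkSA_m11_1_1_c13 chkSA_m11_1_1_c22 chkSA_m11_1_1_c23

end Pool.Agent.MaxTerm58
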