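import Pool.Agent.MaxTerm58.Chunk

/-! Certificates of the family SA for the square of half width `1/16` with centre `(-3 + 3 i)/16`. -/

namespace Pool.Agent.MaxTerm58

set_option maxRecDepth 100000

/-- certificate tree -/
def treeSA_m3_3_0 : TS :=
  (.sp .out .out (.sp (.lf 0 14 2 4 14 8 [] [1086631756527561443376, 848932674948106657407]
  [2614080677576801981, 6793293587655786495, 103277491849863724837, 123309399638579707092,
  1147753237586734844709, 1124569743887277327450, 54334560708463529191, 39580637006301072174])
  .out (.lf 0 8 1 5 7 8 [] [1139539507493996953748, 878187994355658235518] [524526035811009801,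
  103277491850937464436, 1125270912692495683597, 1124569743888234413469, 103280005746794011226,
  2202144960775561]) (.lf 0 12 2 4 12 7 [] [1150131746767085339162, 992813261395084808002]
  [524526035916915643, 142692803237805910725, 1125270912693116176002, 1124569743889070916517,
  176562907086454889973, 150459941185024790859, 2202145242842138])) .out)

theorem chkSA_m3_3_0 : TS.chk 0 treeSA_m3_3_0 99997 100003 16 100001 99999 2 = true := by decide +kernel

/-- certificate tree -/
def treeSA_m3_3_1 : TS :=
  (.sp (.sp (.lf 0 8 1 6 7 8 [] [1151932705581140378089, 1051269712908580653122,
  1031237805120278595885, 699125146398064220801] [84632698453440161583, 1086629683944091649697,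
  1100212644054303873416, 1086631756528482085963, 84634994232504458705, 67917520813326699997,
  2614499177593670028]) (.lf 0 14 1 5 14 8 [] [1100214509371987428887, 906776773663525802004,
  564377494612206524063] [6793293587497190664, 123309399639998948373, 1100212644052275923827,
  1114966567753905178913, 1100214509376195884367, 130607986342294558644, 115457803460208073531,
  13009062685473344706]) (.lf 0 14 2 3 14 9 [] [1086629683945419407359, 1146583002963860882129,
  1011854401522882677957, 992813261393780116300, 699125146398840431215] [29977460875090035322,
  1114966567754352658818, 1150131746768987716435, 1069914506308686020534, 84634994230559084483,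
  67917520813464064070, 2614499179101000234]) .out) .out .out .out)

theorem chkSA_m3_3_1 : TS.chk 0 treeSA_m3_3_1 99997 100003 16 100001 100001 2 = true := by decide +kernel

end Pool.Agent.MaxTerm58
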