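import Pool.Agent.MaxTerm58.Chunk

/-! Certificates of the family SA for the square of half width `1/16` with centre `(-3 + 5 i)/16`. -/

namespace Pool.Agent.MaxTerm58

set_option maxRecDepth 100000

/-- certificate tree -/
def treeSA_m3_5_0 : TS :=
  (.sp .out .out (.sp (.lf 0 14 3 6 14 12 [] [1051269712915745312915, 821767013814222046103]
  [6793293587567705511, 103277491850194811796, 247770431095622171249, 1151932705581078514210,
  1124569743884454037334, 150459941185271729729, 29276292069925160425]) (.lf 0 20 2 5 20 10 []
  [1114968170430590452892, 923638204216126576721] [29977460874698913694, 188593311969232121046,
  1069912210529192348966, 1141538142074379799706, 1114968170430648649784, 332784180665111645600,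
  305618415898313203321, 67917520813345836329, 524713365602664263]) (.lf 0 11 2 6 7 11
  [933866889142681041035, 1125270912688557489479, 1139539507491656795890] [1132495981657283195201,
  848932674953769767523] [54332695386540049706, 54334560707963882309]) (.lf 0 14 3 7 14 11 []
  [1139539507494017138144, 992813261396596331396] [2614080675564323991, 6793293587200442539,
  161733943366216673477, 1100212644053163280885, 1154022491393862239916, 1114968170431038194582,
  220680315614734688881, 197297552406755250463, 6793967176022591905])) .out)

theorem chkSA_m3_5_0 : TS.chk 0 treeSA_m3_5_0 99997 100005 16 100001 99999 2 = true := by decide +kernel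

/-- certificate tree -/
def treeSA_m3_5_1 : TS :=
  (.sp (.sp (.lf 0 12 2 6 7 12 [] [1152923871679523157930, 1146583002961482974863,
  992813261395922883050, 965953892792184443459, 665564345681579706102, 632129637994446045611]
  [84632698450745327294, 1069912210528721013184, 1154400936631104537092, 1069914506308217831291,
  1051269712908393218312, 130607986342341745220, 524713364449233748]) (.lf 0 14 1 5 14 11 []
  [1154022491394527559717, 1069914506309962664469, 787341554538584317310, 446509228470795606272]
  [22051223112352104530, 188593311968291811121, 1086629683947285350996, 1154400936632001593980,
  1069914506310371080180, 176562907086988091671, 29276292070374741674]) (.lf 0 14 3 6 14 12 []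
  [1134926753436101082101, 1132495981649343643911, 965953892791702360185, 906776773664073683668,
  632129637993250925322] [29977460874046964855, 1069912210528346671413, 1151932705582931083175,
  1114968170429584867224, 103280005746050045516, 6793967176568117121]) (.lf 0 20 3 5 20 12 []
  [1134926753435398799407, 1132495981648838493264, 787341554538811334534, 506028841553672380682]
  [29977460874148938684, 211579608737045900417, 1100212644052603078558, 1150131746767812787615,
  1051269712910539913148, 130607986343027253853, 6793967175819432997])) .out .out .out)

theorem chkSA_m3_5_1 : TS.chk 0 treeSA_m3_5_1 99997 100005 16 100001 100001 2 = true := by decide +kernel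

end Pool.Agent.MaxTerm58
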