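import Pool.Agent.MaxTerm58.DSA_m9_1_p0
import Pool.Agent.MaxTerm58.DSA_m9_1_p1
import Pool.Agent.MaxTerm58.DSA_m9_1_p2

/-! Certificates of the family SA for the square of half width `1/16` with centre `(-9 + 1 i)/16`. -/

namespace Pool.Agent.MaxTerm58

set_option maxRecDepth 100000

/-- certificate tree -/
def treeSA_m9_1_0_c1 : TS :=
  .out

theorem chkSA_m9_1_0_c1 : TS.chk 0 treeSA_m9_1_0_c1 99991 100001 16 100003 99997 4 = true := by decide +kernel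

/-- certificate tree -/
def treeSA_m9_1_0_c19 : TS :=
  .sq treeSA_m9_1_0_c20 treeSA_m9_1_0_c21 treeSA_m9_1_0_c22 treeSA_m9_1_0_c23

theorem chkSA_m9_1_0_c19 : TS.chk 0 treeSA_m9_1_0_c19 99983 100001 32 100023 99999 64 = true :=
  TS.chk_sq rfl chkSA_m9_1_0_c20 chkSA_m9_1_0_c21 chkSA_m9_1_0_c22 chkSA_m9_1_0_c23

/-- certificate tree -/
def treeSA_m9_1_0_c15 : TS :=
  .sp treeSA_m9_1_0_c16 treeSA_m9_1_0_c17 treeSA_m9_1_0_c18 treeSA_m9_1_0_c19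

theorem chkSA_m9_1_0_c15 : TS.chk 0 treeSA_m9_1_0_c15 99983 100001 32 100011 99999 32 = true :=
  TS.chk_sp rfl chkSA_m9_1_0_c16 chkSA_m9_1_0_c17 chkSA_m9_1_0_c18 chkSA_m9_1_0_c19

/-- certificate tree -/
def treeSA_m9_1_0_c13 : TS :=
  .sq treeSA_m9_1_0_c14 treeSA_m9_1_0_c15 treeSA_m9_1_0_c24 treeSA_m9_1_0_c25

theorem chkSA_m9_1_0_c13 : TS.chk 0 treeSA_m9_1_0_c13 99991 100001 16 100011 99999 32 = true :=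
  TS.chk_sq rfl chkSA_m9_1_0_c14 chkSA_m9_1_0_c15 chkSA_m9_1_0_c24 chkSA_m9_1_0_c25

/-- certificate tree -/
def treeSA_m9_1_0_c9 : TS :=
  .sp treeSA_m9_1_0_c10 treeSA_m9_1_0_c11 treeSA_m9_1_0_c12 treeSA_m9_1_0_c13

theorem chkSA_m9_1_0_c9 : TS.chk 0 treeSA_m9_1_0_c9 99991 100001 16 100005 99999 16 = true :=
  TS.chk_sp rfl chkSA_m9_1_0_c10 chkSA_m9_1_0_c11 chkSA_m9_1_0_c12 chkSA_m9_1_0_c13

/-- certificate tree -/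
def treeSA_m9_1_0_c31 : TS :=
  .sp treeSA_m9_1_0_c32 treeSA_m9_1_0_c33 treeSA_m9_1_0_c34 treeSA_m9_1_0_c35

theorem chkSA_m9_1_0_c31 : TS.chk 0 treeSA_m9_1_0_c31 99983 100001 32 100013 99999 32 = true :=
  TS.chk_sp rfl chkSA_m9_1_0_c32 chkSA_m9_1_0_c33 chkSA_m9_1_0_c34 chkSA_m9_1_0_c35

/-- certificate tree -/
def treeSA_m9_1_0_c29 : TS :=
  .sq treeSA_m9_1_0_c30 treeSA_m9_1_0_c31 treeSA_m9_1_0_c36 treeSA_m9_1_0_c37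

theorem chkSA_m9_1_0_c29 : TS.chk 0 treeSA_m9_1_0_c29 99991 100001 16 100013 99999 32 = true :=
  TS.chk_sq rfl chkSA_m9_1_0_c30 chkSA_m9_1_0_c31 chkSA_m9_1_0_c36 chkSA_m9_1_0_c37

/-- certificate tree -/
def treeSA_m9_1_0_c26 : TS :=
  .sp treeSA_m9_1_0_c27 treeSA_m9_1_0_c28 treeSA_m9_1_0_c29 treeSA_m9_1_0_c38

theorem chkSA_m9_1_0_c26 : TS.chk 0 treeSA_m9_1_0_c26 99991 100001 16 100007 99999 16 = true :=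
  TS.chk_sp rfl chkSA_m9_1_0_c27 chkSA_m9_1_0_c28 chkSA_m9_1_0_c29 chkSA_m9_1_0_c38

/-- certificate tree -/
def treeSA_m9_1_0_c6 : TS :=
  .sp treeSA_m9_1_0_c7 treeSA_m9_1_0_c8 treeSA_m9_1_0_c9 treeSA_m9_1_0_c26

theorem chkSA_m9_1_0_c6 : TS.chk 0 treeSA_m9_1_0_c6 99991 100001 16 100003 99999 8 = true :=
  TS.chk_sp rfl chkSA_m9_1_0_c7 chkSA_m9_1_0_c8 chkSA_m9_1_0_c9 chkSA_m9_1_0_c26

/-- certificate tree -/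
def treeSA_m9_1_0_c2 : TS :=
  .sp treeSA_m9_1_0_c3 treeSA_m9_1_0_c4 treeSA_m9_1_0_c5 treeSA_m9_1_0_c6

theorem chkSA_m9_1_0_c2 : TS.chk 0 treeSA_m9_1_0_c2 99991 100001 16 100001 99999 4 = true :=
  TS.chk_sp rfl chkSA_m9_1_0_c3 chkSA_m9_1_0_c4 chkSA_m9_1_0_c5 chkSA_m9_1_0_c6

/-- certificate tree -/
def treeSA_m9_1_0 : TS :=
  .sp treeSA_m9_1_0_c0 treeSA_m9_1_0_c1 treeSA_m9_1_0_c2 treeSA_m9_1_0_c39

theorem chkSA_m9_1_0 : TS.chk 0 treeSA_m9_1_0 99991 100001 16 100001 99999 2 = true :=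
  TS.chk_sp rfl chkSA_m9_1_0_c0 chkSA_m9_1_0_c1 chkSA_m9_1_0_c2 chkSA_m9_1_0_c39

/-- certificate tree -/
def treeSA_m9_1_1_c9 : TS :=
  .sq treeSA_m9_1_1_c10 treeSA_m9_1_1_c11 treeSA_m9_1_1_c12 treeSA_m9_1_1_c13

theorem chkSA_m9_1_1_c9 : TS.chk 0 treeSA_m9_1_1_c9 99983 100001 32 100023 100001 64 = true :=
  TS.chk_sq rfl chkSA_m9_1_1_c10 chkSA_m9_1_1_c11 chkSA_m9_1_1_c12 chkSA_m9_1_1_c13

/-- certificate tree -/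
def treeSA_m9_1_1_c7 : TS :=
  .sp treeSA_m9_1_1_c8 treeSA_m9_1_1_c9 treeSA_m9_1_1_c14 treeSA_m9_1_1_c15

theorem chkSA_m9_1_1_c7 : TS.chk 0 treeSA_m9_1_1_c7 99983 100001 32 100011 100001 32 = true :=
  TS.chk_sp rfl chkSA_m9_1_1_c8 chkSA_m9_1_1_c9 chkSA_m9_1_1_c14 chkSA_m9_1_1_c15

/-- certificate tree -/
def treeSA_m9_1_1_c5 : TS :=
  .sq treeSA_m9_1_1_c6 treeSA_m9_1_1_c7 treeSA_m9_1_1_c16 treeSA_m9_1_1_c17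

theorem chkSA_m9_1_1_c5 : TS.chk 0 treeSA_m9_1_1_c5 99991 100001 16 100011 100001 32 = true :=
  TS.chk_sq rfl chkSA_m9_1_1_c6 chkSA_m9_1_1_c7 chkSA_m9_1_1_c16 chkSA_m9_1_1_c17

/-- certificate tree -/
def treeSA_m9_1_1_c3 : TS :=
  .sp treeSA_m9_1_1_c4 treeSA_m9_1_1_c5 treeSA_m9_1_1_c18 treeSA_m9_1_1_c19

theorem chkSA_m9_1_1_c3 : TS.chk 0 treeSA_m9_1_1_c3 99991 100001 16 100005 100001 16 = true :=
  TS.chk_sp rfl chkSA_m9_1_1_c4 chkSA_m9_1_1_c5 chkSA_m9_1_1_c18 chkSA_m9_1_1_c19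

/-- certificate tree -/
def treeSA_m9_1_1_c23 : TS :=
  .sp treeSA_m9_1_1_c24 treeSA_m9_1_1_c25 treeSA_m9_1_1_c26 treeSA_m9_1_1_c27

theorem chkSA_m9_1_1_c23 : TS.chk 0 treeSA_m9_1_1_c23 99983 100001 32 100013 100001 32 = true :=
  TS.chk_sp rfl chkSA_m9_1_1_c24 chkSA_m9_1_1_c25 chkSA_m9_1_1_c26 chkSA_m9_1_1_c27

/-- certificate tree -/
def treeSA_m9_1_1_c21 : TS :=
  .sq treeSA_m9_1_1_c22 treeSA_m9_1_1_c23 treeSA_m9_1_1_c28 treeSA_m9_1_1_c29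

theorem chkSA_m9_1_1_c21 : TS.chk 0 treeSA_m9_1_1_c21 99991 100001 16 100013 100001 32 = true :=
  TS.chk_sq rfl chkSA_m9_1_1_c22 chkSA_m9_1_1_c23 chkSA_m9_1_1_c28 chkSA_m9_1_1_c29

/-- certificate tree -/
def treeSA_m9_1_1_c20 : TS :=
  .sp treeSA_m9_1_1_c21 treeSA_m9_1_1_c30 treeSA_m9_1_1_c31 treeSA_m9_1_1_c32

theorem chkSA_m9_1_1_c20 : TS.chk 0 treeSA_m9_1_1_c20 99991 100001 16 100007 100001 16 = true :=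
  TS.chk_sp rfl chkSA_m9_1_1_c21 chkSA_m9_1_1_c30 chkSA_m9_1_1_c31 chkSA_m9_1_1_c32

/-- certificate tree -/
def treeSA_m9_1_1_c2 : TS :=
  .sp treeSA_m9_1_1_c3 treeSA_m9_1_1_c20 treeSA_m9_1_1_c33 treeSA_m9_1_1_c34

theorem chkSA_m9_1_1_c2 : TS.chk 0 treeSA_m9_1_1_c2 99991 100001 16 100003 100001 8 = true :=
  TS.chk_sp rfl chkSA_m9_1_1_c3 chkSA_m9_1_1_c20 chkSA_m9_1_1_c33 chkSA_m9_1_1_c34

/-- certificate tree -/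
def treeSA_m9_1_1_c0 : TS :=
  .sp treeSA_m9_1_1_c1 treeSA_m9_1_1_c2 treeSA_m9_1_1_c35 treeSA_m9_1_1_c36

theorem chkSA_m9_1_1_c0 : TS.chk 0 treeSA_m9_1_1_c0 99991 100001 16 100001 100001 4 = true :=
  TS.chk_sp rfl chkSA_m9_1_1_c1 chkSA_m9_1_1_c2 chkSA_m9_1_1_c35 chkSA_m9_1_1_c36

/-- certificate tree -/
def treeSA_m9_1_1_c39 : TS :=
  .out

theorem chkSA_m9_1_1_c39 : TS.chk 0 treeSA_m9_1_1_c39 99991 100001 16 100003 100003 4 = true := by decide +kernel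

/-- certificate tree -/
def treeSA_m9_1_1 : TS :=
  .sp treeSA_m9_1_1_c0 treeSA_m9_1_1_c37 treeSA_m9_1_1_c38 treeSA_m9_1_1_c39

theorem chkSA_m9_1_1 : TS.chk 0 treeSA_m9_1_1 99991 100001 16 100001 100001 2 = true :=
  TS.chk_sp rfl chkSA_m9_1_1_c0 chkSA_m9_1_1_c37 chkSA_m9_1_1_c38 chkSA_m9_1_1_c39

end Pool.Agent.MaxTerm58
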