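import Pool.Agent.MaxTerm58.Chunk

/-! Certificates of the family SB for the square of half width `1/16` with centre `(-3 + 3 i)/16`. -/

namespace Pool.Agent.MaxTerm58

set_option maxRecDepth 100000

/-- certificate tree -/
def treeSB_m3_3_0 : TS :=
  (.sp .out .out (.sp (.lf 2 12 2 4 12 11 [] [1086631756527807072292, 878187994355887348699]
  [524526035295896572, 2614080676702028290, 54332695388679665193, 1134926753436751727422,
  1154400936635021234061, 29276292072043025021]) .out (.lf 2 11 1 2 6 11 []
  [1139539507493456150806, 878187994355249814449] [2614080677963727450, 84632698449960731117,
  103277491850064264442, 1125270912692322406457, 1154400936630624290480, 1124569743887938714880,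
  103280005746539731066, 2614499179339024677]) (.lf 2 11 1 2 11 11 [] [1146583002962783994833,
  1011854401522994351193] [2614080678393904852, 142692803237696072259, 1125270912693341097514,
  1124569743889283513138, 150459941186081760846, 2614499179046996425])) .out)

theorem chkSB_m3_3_0 : TS.chk 1 treeSB_m3_3_0 99997 100003 16 100001 99999 2 = true := by decide +kernel

/-- certificate tree -/
def treeSB_m3_3_1 : TS :=
  (.sp (.sp (.lf 2 12 1 2 6 12 [] [1150131746766752940781, 1031237805121352076117,
  726488992514349571586] [2614080677855200858, 54332695387939633899, 1114966567754842607349,
  1154400936632985420657, 1114968170428849291340, 1100214509372046672149, 84634994231082062521,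
  19620451324759740945]) (.lf 2 13 1 5 12 13 [] [1147753237583614804278, 1051269712909567887839,
  821767013807643267037, 534041241886986179852] [524526036149700579, 22051223111572226223,
  161733943365132971917, 1100212644051207686512, 1114966567752350926712, 1151932705582237713688,
  1146583002963481822000, 1100214509372159132319, 1086631756524873941646, 150459941186171937106,
  19620451324137935804]) (.lf 2 11 2 5 11 11 [] [1114966567752292991736, 1154400936630474343602,
  1132495981647342175715, 1124569743884391908967, 992813261395571347832, 726488992514729418840]
  [2614080679363579853, 1125270912691262032084, 1154400936632100946259, 1114968170428302983536,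
  1100214509372073934965, 67917520814005130332, 54334560708398518216]) .out) .out .out .out)

theorem chkSB_m3_3_1 : TS.chk 1 treeSB_m3_3_1 99997 100003 16 100001 100001 2 = true := by decide +kernel

end Pool.Agent.MaxTerm58
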