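import Pool.Agent.MaxTerm58.Chunk

/-! Certificates of the family SB for the square of half width `1/16` with centre `(-3 + 5 i)/16`. -/

namespace Pool.Agent.MaxTerm58

set_option maxRecDepth 100000

/-- certificate tree -/
def treeSB_m3_5_0 : TS :=
  (.sp .out .out (.sp (.lf 2 16 3 4 11 16 [] [1051269712914394221641, 848932674950321515979]
  [2614080677140070207, 54332695387680373630, 211579608737406876913, 1141538142073504238192,
  1154400936632668753636, 19620451324897626025]) (.lf 2 15 3 4 15 14 [] [1114968170432662176240,
  1051269712908689180576, 942967596025914170329] [6793293588218345350, 67915448234221336951,
  211579608737705981036, 1147753237583676671995, 1154400936632373054552, 305618415898289347030,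
  6793967176043824330]) (.lf 2 17 2 5 7 17 [933866889142692050892, 1114966567751912357381,
  1146583002962403100113] [1132495981656823394311, 848932674953517322893] [13008133047591732734,
  211579608736707478296, 1134926753434626001016, 176562907085886295290, 2614499176937523019]) (.lf
  2 16 2 5 11 16 [] [1146583002964222902066, 992813261396034556025] [39579034330908687178,
  188593311968465612859, 1114966567754729359326, 1154022491394476443166, 1154400936630538569234,
  1114968170430700028424, 220680315614528380751, 67917520813258805584, 524713364459718296,
  2202144344212589])) .out)

theorem chkSB_m3_5_0 : TS.chk 1 treeSB_m3_5_0 99997 100005 16 100001 99999 2 = true := by decide +kernel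

/-- certificate tree -/
def treeSB_m3_5_1 : TS :=
  (.sp (.sp (.lf 2 17 2 6 7 17 [] [1150131746768754146182, 992813261398178371774,
  665564345684968192259] [2614080676647766389, 54332695386646479549, 1086629683945205237921,
  1147753237584473850982, 1139539507492661592003, 1069914506308126867659, 115457803459504214918,
  19620451323659260082]) (.lf 2 18 2 5 12 18 [] [1154022491394913435444, 1069914506309689772034,
  821767013808645970231, 506028841553471839601] [54332695386901282110, 188593311967833323004,
  1086629683945944221926, 1147753237584959341592, 1139539507493268717760, 1069914506308899930097,
  176562907086570757000, 54334560708585952942, 2202144355486603]) (.lf 2 15 2 5 12 15 []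
  [1147753237583704719374, 1124569743886882276107, 965953892792789472443, 906776773663152770367,
  665564345684278488278] [524526036670321485, 1114966567753577236061, 1154022491395230105798,
  1139539507492139925812, 1069914506308644863564, 103280005745806775261, 29276292069725409563])
  (.lf 2 15 3 2 15 14 [] [1147753237584748575582, 1124569743887473935937, 821767013809851572861,
  564377494611303696133, 534041241888550926001] [524526036191646061, 1100212644051349767846,
  1151932705581816447386, 1132495981648256270071, 1051269712907863164290, 130607986342337289693,
  29276292069451469402])) .out .out .out)

theorem chkSB_m3_5_1 : TS.chk 1 treeSB_m3_5_1 99997 100005 16 100001 100001 2 = true := by decide +kernel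

end Pool.Agent.MaxTerm58
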