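import Pool.Agent.MaxTerm58.DSB_m7_1_p0
import Pool.Agent.MaxTerm58.DSB_m7_1_p1
import Pool.Agent.MaxTerm58.DSB_m7_1_p2
import Pool.Agent.MaxTerm58.DSB_m7_1_p3

/-! Certificates of the family SB for the square of half width `1/16` with centre `(-7 + 1 i)/16`. -/

namespace Pool.Agent.MaxTerm58

set_option maxRecDepth 100000

/-- certificate tree -/
def treeSB_m7_1_0_c0 : TS :=
  .out

theorem chkSB_m7_1_0_c0 : TS.chk 1 treeSB_m7_1_0_c0 99993 100001 16 100001 99997 4 = true := by decide +kernel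

/-- certificate tree -/
def treeSB_m7_1_0_c1 : TS :=
  .out

theorem chkSB_m7_1_0_c1 : TS.chk 1 treeSB_m7_1_0_c1 99993 100001 16 100003 99997 4 = true := by decide +kernel

/-- certificate tree -/
def treeSB_m7_1_0_c5 : TS :=
  .sp treeSB_m7_1_0_c6 treeSB_m7_1_0_c7 treeSB_m7_1_0_c8 treeSB_m7_1_0_c9

theorem chkSB_m7_1_0_c5 : TS.chk 1 treeSB_m7_1_0_c5 99993 100001 16 100001 99999 8 = true :=
  TS.chk_sp rfl chkSB_m7_1_0_c6 chkSB_m7_1_0_c7 chkSB_m7_1_0_c8 chkSB_m7_1_0_c9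

/-- certificate tree -/
def treeSB_m7_1_0_c17 : TS :=
  .sp treeSB_m7_1_0_c18 treeSB_m7_1_0_c19 treeSB_m7_1_0_c20 treeSB_m7_1_0_c21

theorem chkSB_m7_1_0_c17 : TS.chk 1 treeSB_m7_1_0_c17 99985 100001 32 100009 99999 32 = true :=
  TS.chk_sp rfl chkSB_m7_1_0_c18 chkSB_m7_1_0_c19 chkSB_m7_1_0_c20 chkSB_m7_1_0_c21

/-- certificate tree -/
def treeSB_m7_1_0_c23 : TS :=
  .sp treeSB_m7_1_0_c24 treeSB_m7_1_0_c25 treeSB_m7_1_0_c26 treeSB_m7_1_0_c27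

theorem chkSB_m7_1_0_c23 : TS.chk 1 treeSB_m7_1_0_c23 99969 100001 64 100011 99999 32 = true :=
  TS.chk_sp rfl chkSB_m7_1_0_c24 chkSB_m7_1_0_c25 chkSB_m7_1_0_c26 chkSB_m7_1_0_c27

/-- certificate tree -/
def treeSB_m7_1_0_c22 : TS :=
  .sq treeSB_m7_1_0_c23 treeSB_m7_1_0_c28 treeSB_m7_1_0_c29 treeSB_m7_1_0_c30

theorem chkSB_m7_1_0_c22 : TS.chk 1 treeSB_m7_1_0_c22 99985 100001 32 100011 99999 32 = true :=
  TS.chk_sq rfl chkSB_m7_1_0_c23 chkSB_m7_1_0_c28 chkSB_m7_1_0_c29 chkSB_m7_1_0_c30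

/-- certificate tree -/
def treeSB_m7_1_0_c14 : TS :=
  .sp treeSB_m7_1_0_c15 treeSB_m7_1_0_c16 treeSB_m7_1_0_c17 treeSB_m7_1_0_c22

theorem chkSB_m7_1_0_c14 : TS.chk 1 treeSB_m7_1_0_c14 99985 100001 32 100005 99999 16 = true :=
  TS.chk_sp rfl chkSB_m7_1_0_c15 chkSB_m7_1_0_c16 chkSB_m7_1_0_c17 chkSB_m7_1_0_c22

/-- certificate tree -/
def treeSB_m7_1_0_c31 : TS :=
  .sq treeSB_m7_1_0_c32 treeSB_m7_1_0_c33 treeSB_m7_1_0_c34 treeSB_m7_1_0_c35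

theorem chkSB_m7_1_0_c31 : TS.chk 1 treeSB_m7_1_0_c31 99987 100001 32 100005 99999 16 = true :=
  TS.chk_sq rfl chkSB_m7_1_0_c32 chkSB_m7_1_0_c33 chkSB_m7_1_0_c34 chkSB_m7_1_0_c35

/-- certificate tree -/
def treeSB_m7_1_0_c36 : TS :=
  .sp treeSB_m7_1_0_c37 treeSB_m7_1_0_c38 treeSB_m7_1_0_c39 treeSB_m7_1_0_c40

theorem chkSB_m7_1_0_c36 : TS.chk 1 treeSB_m7_1_0_c36 99985 100003 32 100005 99999 16 = true :=
  TS.chk_sp rfl chkSB_m7_1_0_c37 chkSB_m7_1_0_c38 chkSB_m7_1_0_c39 chkSB_m7_1_0_c40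

/-- certificate tree -/
def treeSB_m7_1_0_c13 : TS :=
  .sq treeSB_m7_1_0_c14 treeSB_m7_1_0_c31 treeSB_m7_1_0_c36 treeSB_m7_1_0_c41

theorem chkSB_m7_1_0_c13 : TS.chk 1 treeSB_m7_1_0_c13 99993 100001 16 100005 99999 16 = true :=
  TS.chk_sq rfl chkSB_m7_1_0_c14 chkSB_m7_1_0_c31 chkSB_m7_1_0_c36 chkSB_m7_1_0_c41

/-- certificate tree -/
def treeSB_m7_1_0_c42 : TS :=
  .sp treeSB_m7_1_0_c43 treeSB_m7_1_0_c44 treeSB_m7_1_0_c45 treeSB_m7_1_0_c46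

theorem chkSB_m7_1_0_c42 : TS.chk 1 treeSB_m7_1_0_c42 99993 100001 16 100007 99999 16 = true :=
  TS.chk_sp rfl chkSB_m7_1_0_c43 chkSB_m7_1_0_c44 chkSB_m7_1_0_c45 chkSB_m7_1_0_c46

/-- certificate tree -/
def treeSB_m7_1_0_c10 : TS :=
  .sp treeSB_m7_1_0_c11 treeSB_m7_1_0_c12 treeSB_m7_1_0_c13 treeSB_m7_1_0_c42

theorem chkSB_m7_1_0_c10 : TS.chk 1 treeSB_m7_1_0_c10 99993 100001 16 100003 99999 8 = true :=
  TS.chk_sp rfl chkSB_m7_1_0_c11 chkSB_m7_1_0_c12 chkSB_m7_1_0_c13 chkSB_m7_1_0_c42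

/-- certificate tree -/
def treeSB_m7_1_0_c2 : TS :=
  .sp treeSB_m7_1_0_c3 treeSB_m7_1_0_c4 treeSB_m7_1_0_c5 treeSB_m7_1_0_c10

theorem chkSB_m7_1_0_c2 : TS.chk 1 treeSB_m7_1_0_c2 99993 100001 16 100001 99999 4 = true :=
  TS.chk_sp rfl chkSB_m7_1_0_c3 chkSB_m7_1_0_c4 chkSB_m7_1_0_c5 chkSB_m7_1_0_c10

/-- certificate tree -/
def treeSB_m7_1_0_c47 : TS :=
  .out

theorem chkSB_m7_1_0_c47 : TS.chk 1 treeSB_m7_1_0_c47 99993 100001 16 100003 99999 4 = true := by decide +kernel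

/-- certificate tree -/
def treeSB_m7_1_0 : TS :=
  .sp treeSB_m7_1_0_c0 treeSB_m7_1_0_c1 treeSB_m7_1_0_c2 treeSB_m7_1_0_c47

theorem chkSB_m7_1_0 : TS.chk 1 treeSB_m7_1_0 99993 100001 16 100001 99999 2 = true :=
  TS.chk_sp rfl chkSB_m7_1_0_c0 chkSB_m7_1_0_c1 chkSB_m7_1_0_c2 chkSB_m7_1_0_c47

/-- certificate tree -/
def treeSB_m7_1_1_c1 : TS :=
  .sp treeSB_m7_1_1_c2 treeSB_m7_1_1_c3 treeSB_m7_1_1_c4 treeSB_m7_1_1_c5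

theorem chkSB_m7_1_1_c1 : TS.chk 1 treeSB_m7_1_1_c1 99993 100001 16 100001 100001 8 = true :=
  TS.chk_sp rfl chkSB_m7_1_1_c2 chkSB_m7_1_1_c3 chkSB_m7_1_1_c4 chkSB_m7_1_1_c5

/-- certificate tree -/
def treeSB_m7_1_1_c9 : TS :=
  .sp treeSB_m7_1_1_c10 treeSB_m7_1_1_c11 treeSB_m7_1_1_c12 treeSB_m7_1_1_c13

theorem chkSB_m7_1_1_c9 : TS.chk 1 treeSB_m7_1_1_c9 99985 100001 32 100009 100001 32 = true :=
  TS.chk_sp rfl chkSB_m7_1_1_c10 chkSB_m7_1_1_c11 chkSB_m7_1_1_c12 chkSB_m7_1_1_c13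

/-- certificate tree -/
def treeSB_m7_1_1_c17 : TS :=
  .sp treeSB_m7_1_1_c18 treeSB_m7_1_1_c19 treeSB_m7_1_1_c20 treeSB_m7_1_1_c21

theorem chkSB_m7_1_1_c17 : TS.chk 1 treeSB_m7_1_1_c17 99969 100001 64 100023 100001 64 = true :=
  TS.chk_sp rfl chkSB_m7_1_1_c18 chkSB_m7_1_1_c19 chkSB_m7_1_1_c20 chkSB_m7_1_1_c21

/-- certificate tree -/
def treeSB_m7_1_1_c15 : TS :=
  .sp treeSB_m7_1_1_c16 treeSB_m7_1_1_c17 treeSB_m7_1_1_c22 treeSB_m7_1_1_c23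

theorem chkSB_m7_1_1_c15 : TS.chk 1 treeSB_m7_1_1_c15 99969 100001 64 100011 100001 32 = true :=
  TS.chk_sp rfl chkSB_m7_1_1_c16 chkSB_m7_1_1_c17 chkSB_m7_1_1_c22 chkSB_m7_1_1_c23

/-- certificate tree -/
def treeSB_m7_1_1_c25 : TS :=
  .sp treeSB_m7_1_1_c26 treeSB_m7_1_1_c27 treeSB_m7_1_1_c28 treeSB_m7_1_1_c29

theorem chkSB_m7_1_1_c25 : TS.chk 1 treeSB_m7_1_1_c25 99969 100003 64 100011 100001 32 = true :=
  TS.chk_sp rfl chkSB_m7_1_1_c26 chkSB_m7_1_1_c27 chkSB_m7_1_1_c28 chkSB_m7_1_1_c29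

/-- certificate tree -/
def treeSB_m7_1_1_c14 : TS :=
  .sq treeSB_m7_1_1_c15 treeSB_m7_1_1_c24 treeSB_m7_1_1_c25 treeSB_m7_1_1_c30

theorem chkSB_m7_1_1_c14 : TS.chk 1 treeSB_m7_1_1_c14 99985 100001 32 100011 100001 32 = true :=
  TS.chk_sq rfl chkSB_m7_1_1_c15 chkSB_m7_1_1_c24 chkSB_m7_1_1_c25 chkSB_m7_1_1_c30

/-- certificate tree -/
def treeSB_m7_1_1_c8 : TS :=
  .sp treeSB_m7_1_1_c9 treeSB_m7_1_1_c14 treeSB_m7_1_1_c31 treeSB_m7_1_1_c32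

theorem chkSB_m7_1_1_c8 : TS.chk 1 treeSB_m7_1_1_c8 99985 100001 32 100005 100001 16 = true :=
  TS.chk_sp rfl chkSB_m7_1_1_c9 chkSB_m7_1_1_c14 chkSB_m7_1_1_c31 chkSB_m7_1_1_c32

/-- certificate tree -/
def treeSB_m7_1_1_c33 : TS :=
  .sq treeSB_m7_1_1_c34 treeSB_m7_1_1_c35 treeSB_m7_1_1_c36 treeSB_m7_1_1_c37

theorem chkSB_m7_1_1_c33 : TS.chk 1 treeSB_m7_1_1_c33 99987 100001 32 100005 100001 16 = true :=
  TS.chk_sq rfl chkSB_m7_1_1_c34 chkSB_m7_1_1_c35 chkSB_m7_1_1_c36 chkSB_m7_1_1_c37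

/-- certificate tree -/
def treeSB_m7_1_1_c40 : TS :=
  .sq treeSB_m7_1_1_c41 treeSB_m7_1_1_c42 treeSB_m7_1_1_c43 treeSB_m7_1_1_c44

theorem chkSB_m7_1_1_c40 : TS.chk 1 treeSB_m7_1_1_c40 99985 100003 32 100011 100001 32 = true :=
  TS.chk_sq rfl chkSB_m7_1_1_c41 chkSB_m7_1_1_c42 chkSB_m7_1_1_c43 chkSB_m7_1_1_c44

/-- certificate tree -/
def treeSB_m7_1_1_c38 : TS :=
  .sp treeSB_m7_1_1_c39 treeSB_m7_1_1_c40 treeSB_m7_1_1_c45 treeSB_m7_1_1_c46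

theorem chkSB_m7_1_1_c38 : TS.chk 1 treeSB_m7_1_1_c38 99985 100003 32 100005 100001 16 = true :=
  TS.chk_sp rfl chkSB_m7_1_1_c39 chkSB_m7_1_1_c40 chkSB_m7_1_1_c45 chkSB_m7_1_1_c46

/-- certificate tree -/
def treeSB_m7_1_1_c47 : TS :=
  .sq treeSB_m7_1_1_c48 treeSB_m7_1_1_c49 treeSB_m7_1_1_c50 treeSB_m7_1_1_c51

theorem chkSB_m7_1_1_c47 : TS.chk 1 treeSB_m7_1_1_c47 99987 100003 32 100005 100001 16 = true :=
  TS.chk_sq rfl chkSB_m7_1_1_c48 chkSB_m7_1_1_c49 chkSB_m7_1_1_c50 chkSB_m7_1_1_c51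

/-- certificate tree -/
def treeSB_m7_1_1_c7 : TS :=
  .sq treeSB_m7_1_1_c8 treeSB_m7_1_1_c33 treeSB_m7_1_1_c38 treeSB_m7_1_1_c47

theorem chkSB_m7_1_1_c7 : TS.chk 1 treeSB_m7_1_1_c7 99993 100001 16 100005 100001 16 = true :=
  TS.chk_sq rfl chkSB_m7_1_1_c8 chkSB_m7_1_1_c33 chkSB_m7_1_1_c38 chkSB_m7_1_1_c47

/-- certificate tree -/
def treeSB_m7_1_1_c52 : TS :=
  .sp treeSB_m7_1_1_c53 treeSB_m7_1_1_c54 treeSB_m7_1_1_c55 treeSB_m7_1_1_c56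

theorem chkSB_m7_1_1_c52 : TS.chk 1 treeSB_m7_1_1_c52 99993 100001 16 100007 100001 16 = true :=
  TS.chk_sp rfl chkSB_m7_1_1_c53 chkSB_m7_1_1_c54 chkSB_m7_1_1_c55 chkSB_m7_1_1_c56

/-- certificate tree -/
def treeSB_m7_1_1_c6 : TS :=
  .sp treeSB_m7_1_1_c7 treeSB_m7_1_1_c52 treeSB_m7_1_1_c57 treeSB_m7_1_1_c58

theorem chkSB_m7_1_1_c6 : TS.chk 1 treeSB_m7_1_1_c6 99993 100001 16 100003 100001 8 = true :=
  TS.chk_sp rfl chkSB_m7_1_1_c7 chkSB_m7_1_1_c52 chkSB_m7_1_1_c57 chkSB_m7_1_1_c58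

/-- certificate tree -/
def treeSB_m7_1_1_c0 : TS :=
  .sp treeSB_m7_1_1_c1 treeSB_m7_1_1_c6 treeSB_m7_1_1_c59 treeSB_m7_1_1_c60

theorem chkSB_m7_1_1_c0 : TS.chk 1 treeSB_m7_1_1_c0 99993 100001 16 100001 100001 4 = true :=
  TS.chk_sp rfl chkSB_m7_1_1_c1 chkSB_m7_1_1_c6 chkSB_m7_1_1_c59 chkSB_m7_1_1_c60

/-- certificate tree -/
def treeSB_m7_1_1_c61 : TS :=
  .out

theorem chkSB_m7_1_1_c61 : TS.chk 1 treeSB_m7_1_1_c61 99993 100001 16 100003 100001 4 = true := by decide +kernel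

/-- certificate tree -/
def treeSB_m7_1_1_c62 : TS :=
  .out

theorem chkSB_m7_1_1_c62 : TS.chk 1 treeSB_m7_1_1_c62 99993 100001 16 100001 100003 4 = true := by decide +kernel

/-- certificate tree -/
def treeSB_m7_1_1_c63 : TS :=
  .out

theorem chkSB_m7_1_1_c63 : TS.chk 1 treeSB_m7_1_1_c63 99993 100001 16 100003 100003 4 = true := by decide +kernel

/-- certificate tree -/
def treeSB_m7_1_1 : TS :=
  .sp treeSB_m7_1_1_c0 treeSB_m7_1_1_c61 treeSB_m7_1_1_c62 treeSB_m7_1_1_c63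

theorem chkSB_m7_1_1 : TS.chk 1 treeSB_m7_1_1 99993 100001 16 100001 100001 2 = true :=
  TS.chk_sp rfl chkSB_m7_1_1_c0 chkSB_m7_1_1_c61 chkSB_m7_1_1_c62 chkSB_m7_1_1_c63

end Pool.Agent.MaxTerm58
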