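import Pool.Agent.MaxTerm58.Chunk

/-! Certificates of the family SB for the square of half width `1/16` with centre `(-9 + 1 i)/16`. -/

namespace Pool.Agent.MaxTerm58

set_option maxRecDepth 100000

/-- certificate tree -/
def treeSB_m9_1_1_c50 : TS :=
  (.sp (.lf 2 23 0 5 15 23 [] [] [22051223113247067628, 455422058358953574483,
  590169710144123929791, 1100212644051935398371, 1147753237583875375930, 1151932705581015860109,
  1146583002964427374114, 1086631756525823688263, 992813261393764909242, 150459941186941327149,
  54334560708544007916, 29276292070014816094, 2614499177484880960, 524713365143916932]) (.lf 2 24
  1 6 12 24 [] [787337452258393687692, 923638204212983990484, 787341554536996244670,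
  665564345681864132950, 632129637991391791935, 506028841553159097566, 367209752498380573519]
  [6793293587729453817, 276359210404086120196, 305614529811819102527, 488982859074068119147,
  1051267199012834216478, 1069912210527635736652, 1134926753435916535121, 1147753237583802500347,
  1150131746767476720367, 1146583002962363778307, 1086631756525805862821, 965953892790554427746,
  130607986343233296585, 39580637005880069318, 29276292069560258196, 2614499178249295874]) .out
  .out)

theorem chkSB_m9_1_1_c50 : TS.chk 1 treeSB_m9_1_1_c50 99991 100001 16 100001 100003 4 = true := by decide +kernel

end Pool.Agent.MaxTerm58
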