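import Pool.Agent.MaxTerm58.DSB_m9_1_p0
import Pool.Agent.MaxTerm58.DSB_m9_1_p1
import Pool.Agent.MaxTerm58.DSB_m9_1_p2
import Pool.Agent.MaxTerm58.DSB_m9_1_p3

/-! Certificates of the family SB for the square of half width `1/16` with centre `(-9 + 1 i)/16`. -/

namespace Pool.Agent.MaxTerm58

set_option maxRecDepth 100000

/-- certificate tree -/
def treeSB_m9_1_0_c1 : TS :=
  .out

theorem chkSB_m9_1_0_c1 : TS.chk 1 treeSB_m9_1_0_c1 99991 100001 16 100003 99997 4 = true := by decide +kernel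

/-- certificate tree -/
def treeSB_m9_1_0_c21 : TS :=
  .sp treeSB_m9_1_0_c22 treeSB_m9_1_0_c23 treeSB_m9_1_0_c24 treeSB_m9_1_0_c25

theorem chkSB_m9_1_0_c21 : TS.chk 1 treeSB_m9_1_0_c21 99967 100001 64 100023 99999 64 = true :=
  TS.chk_sp rfl chkSB_m9_1_0_c22 chkSB_m9_1_0_c23 chkSB_m9_1_0_c24 chkSB_m9_1_0_c25

/-- certificate tree -/
def treeSB_m9_1_0_c19 : TS :=
  .sq treeSB_m9_1_0_c20 treeSB_m9_1_0_c21 treeSB_m9_1_0_c26 treeSB_m9_1_0_c27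

theorem chkSB_m9_1_0_c19 : TS.chk 1 treeSB_m9_1_0_c19 99983 100001 32 100023 99999 64 = true :=
  TS.chk_sq rfl chkSB_m9_1_0_c20 chkSB_m9_1_0_c21 chkSB_m9_1_0_c26 chkSB_m9_1_0_c27

/-- certificate tree -/
def treeSB_m9_1_0_c15 : TS :=
  .sp treeSB_m9_1_0_c16 treeSB_m9_1_0_c17 treeSB_m9_1_0_c18 treeSB_m9_1_0_c19

theorem chkSB_m9_1_0_c15 : TS.chk 1 treeSB_m9_1_0_c15 99983 100001 32 100011 99999 32 = true :=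
  TS.chk_sp rfl chkSB_m9_1_0_c16 chkSB_m9_1_0_c17 chkSB_m9_1_0_c18 chkSB_m9_1_0_c19

/-- certificate tree -/
def treeSB_m9_1_0_c13 : TS :=
  .sq treeSB_m9_1_0_c14 treeSB_m9_1_0_c15 treeSB_m9_1_0_c28 treeSB_m9_1_0_c29

theorem chkSB_m9_1_0_c13 : TS.chk 1 treeSB_m9_1_0_c13 99991 100001 16 100011 99999 32 = true :=
  TS.chk_sq rfl chkSB_m9_1_0_c14 chkSB_m9_1_0_c15 chkSB_m9_1_0_c28 chkSB_m9_1_0_c29

/-- certificate tree -/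
def treeSB_m9_1_0_c9 : TS :=
  .sp treeSB_m9_1_0_c10 treeSB_m9_1_0_c11 treeSB_m9_1_0_c12 treeSB_m9_1_0_c13

theorem chkSB_m9_1_0_c9 : TS.chk 1 treeSB_m9_1_0_c9 99991 100001 16 100005 99999 16 = true :=
  TS.chk_sp rfl chkSB_m9_1_0_c10 chkSB_m9_1_0_c11 chkSB_m9_1_0_c12 chkSB_m9_1_0_c13

/-- certificate tree -/
def treeSB_m9_1_0_c35 : TS :=
  .sp treeSB_m9_1_0_c36 treeSB_m9_1_0_c37 treeSB_m9_1_0_c38 treeSB_m9_1_0_c39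

theorem chkSB_m9_1_0_c35 : TS.chk 1 treeSB_m9_1_0_c35 99983 100001 32 100013 99999 32 = true :=
  TS.chk_sp rfl chkSB_m9_1_0_c36 chkSB_m9_1_0_c37 chkSB_m9_1_0_c38 chkSB_m9_1_0_c39

/-- certificate tree -/
def treeSB_m9_1_0_c33 : TS :=
  .sq treeSB_m9_1_0_c34 treeSB_m9_1_0_c35 treeSB_m9_1_0_c40 treeSB_m9_1_0_c41

theorem chkSB_m9_1_0_c33 : TS.chk 1 treeSB_m9_1_0_c33 99991 100001 16 100013 99999 32 = true :=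
  TS.chk_sq rfl chkSB_m9_1_0_c34 chkSB_m9_1_0_c35 chkSB_m9_1_0_c40 chkSB_m9_1_0_c41

/-- certificate tree -/
def treeSB_m9_1_0_c30 : TS :=
  .sp treeSB_m9_1_0_c31 treeSB_m9_1_0_c32 treeSB_m9_1_0_c33 treeSB_m9_1_0_c42

theorem chkSB_m9_1_0_c30 : TS.chk 1 treeSB_m9_1_0_c30 99991 100001 16 100007 99999 16 = true :=
  TS.chk_sp rfl chkSB_m9_1_0_c31 chkSB_m9_1_0_c32 chkSB_m9_1_0_c33 chkSB_m9_1_0_c42

/-- certificate tree -/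
def treeSB_m9_1_0_c6 : TS :=
  .sp treeSB_m9_1_0_c7 treeSB_m9_1_0_c8 treeSB_m9_1_0_c9 treeSB_m9_1_0_c30

theorem chkSB_m9_1_0_c6 : TS.chk 1 treeSB_m9_1_0_c6 99991 100001 16 100003 99999 8 = true :=
  TS.chk_sp rfl chkSB_m9_1_0_c7 chkSB_m9_1_0_c8 chkSB_m9_1_0_c9 chkSB_m9_1_0_c30

/-- certificate tree -/
def treeSB_m9_1_0_c2 : TS :=
  .sp treeSB_m9_1_0_c3 treeSB_m9_1_0_c4 treeSB_m9_1_0_c5 treeSB_m9_1_0_c6

theorem chkSB_m9_1_0_c2 : TS.chk 1 treeSB_m9_1_0_c2 99991 100001 16 100001 99999 4 = true :=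
  TS.chk_sp rfl chkSB_m9_1_0_c3 chkSB_m9_1_0_c4 chkSB_m9_1_0_c5 chkSB_m9_1_0_c6

/-- certificate tree -/
def treeSB_m9_1_0 : TS :=
  .sp treeSB_m9_1_0_c0 treeSB_m9_1_0_c1 treeSB_m9_1_0_c2 treeSB_m9_1_0_c43

theorem chkSB_m9_1_0 : TS.chk 1 treeSB_m9_1_0 99991 100001 16 100001 99999 2 = true :=
  TS.chk_sp rfl chkSB_m9_1_0_c0 chkSB_m9_1_0_c1 chkSB_m9_1_0_c2 chkSB_m9_1_0_c43

/-- certificate tree -/
def treeSB_m9_1_1_c11 : TS :=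
  .sq treeSB_m9_1_1_c12 treeSB_m9_1_1_c13 treeSB_m9_1_1_c14 treeSB_m9_1_1_c15

theorem chkSB_m9_1_1_c11 : TS.chk 1 treeSB_m9_1_1_c11 99967 100001 64 100023 100001 64 = true :=
  TS.chk_sq rfl chkSB_m9_1_1_c12 chkSB_m9_1_1_c13 chkSB_m9_1_1_c14 chkSB_m9_1_1_c15

/-- certificate tree -/
def treeSB_m9_1_1_c9 : TS :=
  .sq treeSB_m9_1_1_c10 treeSB_m9_1_1_c11 treeSB_m9_1_1_c16 treeSB_m9_1_1_c17

theorem chkSB_m9_1_1_c9 : TS.chk 1 treeSB_m9_1_1_c9 99983 100001 32 100023 100001 64 = true :=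
  TS.chk_sq rfl chkSB_m9_1_1_c10 chkSB_m9_1_1_c11 chkSB_m9_1_1_c16 chkSB_m9_1_1_c17

/-- certificate tree -/
def treeSB_m9_1_1_c7 : TS :=
  .sp treeSB_m9_1_1_c8 treeSB_m9_1_1_c9 treeSB_m9_1_1_c18 treeSB_m9_1_1_c19

theorem chkSB_m9_1_1_c7 : TS.chk 1 treeSB_m9_1_1_c7 99983 100001 32 100011 100001 32 = true :=
  TS.chk_sp rfl chkSB_m9_1_1_c8 chkSB_m9_1_1_c9 chkSB_m9_1_1_c18 chkSB_m9_1_1_c19

/-- certificate tree -/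
def treeSB_m9_1_1_c21 : TS :=
  .sq treeSB_m9_1_1_c22 treeSB_m9_1_1_c23 treeSB_m9_1_1_c24 treeSB_m9_1_1_c25

theorem chkSB_m9_1_1_c21 : TS.chk 1 treeSB_m9_1_1_c21 99983 100003 32 100011 100001 32 = true :=
  TS.chk_sq rfl chkSB_m9_1_1_c22 chkSB_m9_1_1_c23 chkSB_m9_1_1_c24 chkSB_m9_1_1_c25

/-- certificate tree -/
def treeSB_m9_1_1_c5 : TS :=
  .sq treeSB_m9_1_1_c6 treeSB_m9_1_1_c7 treeSB_m9_1_1_c20 treeSB_m9_1_1_c21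

theorem chkSB_m9_1_1_c5 : TS.chk 1 treeSB_m9_1_1_c5 99991 100001 16 100011 100001 32 = true :=
  TS.chk_sq rfl chkSB_m9_1_1_c6 chkSB_m9_1_1_c7 chkSB_m9_1_1_c20 chkSB_m9_1_1_c21

/-- certificate tree -/
def treeSB_m9_1_1_c3 : TS :=
  .sp treeSB_m9_1_1_c4 treeSB_m9_1_1_c5 treeSB_m9_1_1_c26 treeSB_m9_1_1_c27

theorem chkSB_m9_1_1_c3 : TS.chk 1 treeSB_m9_1_1_c3 99991 100001 16 100005 100001 16 = true :=
  TS.chk_sp rfl chkSB_m9_1_1_c4 chkSB_m9_1_1_c5 chkSB_m9_1_1_c26 chkSB_m9_1_1_c27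

/-- certificate tree -/
def treeSB_m9_1_1_c32 : TS :=
  .sq treeSB_m9_1_1_c33 treeSB_m9_1_1_c34 treeSB_m9_1_1_c35 treeSB_m9_1_1_c36

theorem chkSB_m9_1_1_c32 : TS.chk 1 treeSB_m9_1_1_c32 99983 100001 32 100025 100001 64 = true :=
  TS.chk_sq rfl chkSB_m9_1_1_c33 chkSB_m9_1_1_c34 chkSB_m9_1_1_c35 chkSB_m9_1_1_c36

/-- certificate tree -/
def treeSB_m9_1_1_c31 : TS :=
  .sp treeSB_m9_1_1_c32 treeSB_m9_1_1_c37 treeSB_m9_1_1_c38 treeSB_m9_1_1_c39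

theorem chkSB_m9_1_1_c31 : TS.chk 1 treeSB_m9_1_1_c31 99983 100001 32 100013 100001 32 = true :=
  TS.chk_sp rfl chkSB_m9_1_1_c32 chkSB_m9_1_1_c37 chkSB_m9_1_1_c38 chkSB_m9_1_1_c39

/-- certificate tree -/
def treeSB_m9_1_1_c29 : TS :=
  .sq treeSB_m9_1_1_c30 treeSB_m9_1_1_c31 treeSB_m9_1_1_c40 treeSB_m9_1_1_c41

theorem chkSB_m9_1_1_c29 : TS.chk 1 treeSB_m9_1_1_c29 99991 100001 16 100013 100001 32 = true :=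
  TS.chk_sq rfl chkSB_m9_1_1_c30 chkSB_m9_1_1_c31 chkSB_m9_1_1_c40 chkSB_m9_1_1_c41

/-- certificate tree -/
def treeSB_m9_1_1_c28 : TS :=
  .sp treeSB_m9_1_1_c29 treeSB_m9_1_1_c42 treeSB_m9_1_1_c43 treeSB_m9_1_1_c44

theorem chkSB_m9_1_1_c28 : TS.chk 1 treeSB_m9_1_1_c28 99991 100001 16 100007 100001 16 = true :=
  TS.chk_sp rfl chkSB_m9_1_1_c29 chkSB_m9_1_1_c42 chkSB_m9_1_1_c43 chkSB_m9_1_1_c44

/-- certificate tree -/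
def treeSB_m9_1_1_c2 : TS :=
  .sp treeSB_m9_1_1_c3 treeSB_m9_1_1_c28 treeSB_m9_1_1_c45 treeSB_m9_1_1_c46

theorem chkSB_m9_1_1_c2 : TS.chk 1 treeSB_m9_1_1_c2 99991 100001 16 100003 100001 8 = true :=
  TS.chk_sp rfl chkSB_m9_1_1_c3 chkSB_m9_1_1_c28 chkSB_m9_1_1_c45 chkSB_m9_1_1_c46

/-- certificate tree -/
def treeSB_m9_1_1_c0 : TS :=
  .sp treeSB_m9_1_1_c1 treeSB_m9_1_1_c2 treeSB_m9_1_1_c47 treeSB_m9_1_1_c48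

theorem chkSB_m9_1_1_c0 : TS.chk 1 treeSB_m9_1_1_c0 99991 100001 16 100001 100001 4 = true :=
  TS.chk_sp rfl chkSB_m9_1_1_c1 chkSB_m9_1_1_c2 chkSB_m9_1_1_c47 chkSB_m9_1_1_c48

/-- certificate tree -/
def treeSB_m9_1_1_c51 : TS :=
  .out

theorem chkSB_m9_1_1_c51 : TS.chk 1 treeSB_m9_1_1_c51 99991 100001 16 100003 100003 4 = true := by decide +kernel

/-- certificate tree -/
def treeSB_m9_1_1 : TS :=
  .sp treeSB_m9_1_1_c0 treeSB_m9_1_1_c49 treeSB_m9_1_1_c50 treeSB_m9_1_1_c51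

theorem chkSB_m9_1_1 : TS.chk 1 treeSB_m9_1_1 99991 100001 16 100001 100001 2 = true :=
  TS.chk_sp rfl chkSB_m9_1_1_c0 chkSB_m9_1_1_c49 chkSB_m9_1_1_c50 chkSB_m9_1_1_c51

end Pool.Agent.MaxTerm58
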