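import Pool.Agent.MaxTerm58.Chunk

/-! Certificates of the family SB for the square of half width `1/16` with centre `(-9 + 3 i)/16`. -/

namespace Pool.Agent.MaxTerm58

set_option maxRecDepth 100000

/-- certificate tree -/
def treeSB_m9_3_1_c13 : TS :=
  (.sp (.sp (.lf 2 30 6 7 17 30 [] [276359210404892472626, 1011854401523199869847,
  419253416657112113583, 276362968947695654079] [2614080676350755675, 67915448233756030898,
  188593311967459768552, 305614529812325562709, 977984297671841384722, 1069912210528274843616,
  1134926753435294729896, 1141538142073517344376, 1152923871677850420304, 1114968170428968567682,
  1011854401522332959334, 276362968947896457325, 130607986341618489111, 39580637006013503401])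
  .out (.lf 2 30 6 6 17 30 [1051269712907690674414, 923638204212461538055, 821767013806491666754,
  699125146396356610456] [848928788858483869347, 1114968170427287438751, 1051269712910356939107,
  481727404427638322197, 305618415899319836793] [54332695386395606313, 161733943364259773133,
  305614529812216772654, 1004087263572928334102, 1100212644050633066325, 1141538142073201198639,
  1147753237582631241324, 1154400936630195684830, 1152923871677005268035, 1114968170428537864905,
  1100214509370961397215, 1011854401521996104305, 197297552407166293637, 84634994229750368990,
  67917520812832297061, 19620451322609110357, 524713364358532532]) .out) .out (.sp (.lf 2 27 4 4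
  16 27 [] [1051269712909747716505, 601829427671446170609, 481727404426383169594,
  332784180667266216795] [123309399637575956017, 332780190949691192914, 1004087263573037385846,
  1086629683945305114425, 1141538142074307708509, 1150131746767618016000, 1100214509372402401658,
  992813261393550475930, 115457803459444446632, 29276292069176480328, 524713364346999158]) .out
  .out .out) .out)

theorem chkSB_m9_3_1_c13 : TS.chk 1 treeSB_m9_3_1_c13 99991 100003 16 100003 100001 4 = true := by decide +kernel

/-- certificate tree -/
def treeSB_m9_3_1_c14 : TS :=
  (.sp (.lf 2 25 3 3 15 25 [] [488982859075644654111, 648518363205316739474,
  787337452259813458703, 906773157369209783688, 923638204214720695167, 787341554539448342612,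
  632129637993742440741, 481727404426916894217] [13008133048460216636, 1086629683945579317745,
  1147753237583098905895, 1151932705580980470892, 1139539507492677583471, 1132495981646194509470,
  1051269712908622332657, 942967596020659487908, 84634994230421982317, 13009062685165849663,
  524713363881429561]) (.lf 2 28 3 9 14 28 [] [620505962870858154924, 760874264220874409581,
  787337452258953627208, 906773157368881841631, 977984297671288784454, 923638204213558872767,
  821767013807010974231, 787341554537758823333, 665564345682323148419, 632129637992773556926,
  481727404427540275051, 332784180666008966950] [524526035283579103, 276359210404011409101,
  455422058359547855629, 1023939218416332277962, 1114966567751767918105, 1125270912689115071708,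
  1154022491394966651959, 1132495981647886385572, 1086631756524429607925, 1069914506307435070904,
  942967596021195046898, 67917520813382013726, 13009062684569471431]) .out .out)

theorem chkSB_m9_3_1_c14 : TS.chk 1 treeSB_m9_3_1_c14 99991 100003 16 100001 100003 4 = true := by decide +kernel

end Pool.Agent.MaxTerm58
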