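import Pool.Agent.MaxTerm58.DSB_m9_3_p0
import Pool.Agent.MaxTerm58.DSB_m9_3_p1

/-! Certificates of the family SB for the square of half width `1/16` with centre `(-9 + 3 i)/16`. -/

namespace Pool.Agent.MaxTerm58

set_option maxRecDepth 100000

/-- certificate tree -/
def treeSB_m9_3_0_c1 : TS :=
  .out

theorem chkSB_m9_3_0_c1 : TS.chk 1 treeSB_m9_3_0_c1 99991 100003 16 100003 99997 4 = true := by decide +kernel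

/-- certificate tree -/
def treeSB_m9_3_0_c6 : TS :=
  .sp treeSB_m9_3_0_c7 treeSB_m9_3_0_c8 treeSB_m9_3_0_c9 treeSB_m9_3_0_c10

theorem chkSB_m9_3_0_c6 : TS.chk 1 treeSB_m9_3_0_c6 99991 100003 16 100003 99999 8 = true :=
  TS.chk_sp rfl chkSB_m9_3_0_c7 chkSB_m9_3_0_c8 chkSB_m9_3_0_c9 chkSB_m9_3_0_c10

/-- certificate tree -/
def treeSB_m9_3_0_c2 : TS :=
  .sp treeSB_m9_3_0_c3 treeSB_m9_3_0_c4 treeSB_m9_3_0_c5 treeSB_m9_3_0_c6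

theorem chkSB_m9_3_0_c2 : TS.chk 1 treeSB_m9_3_0_c2 99991 100003 16 100001 99999 4 = true :=
  TS.chk_sp rfl chkSB_m9_3_0_c3 chkSB_m9_3_0_c4 chkSB_m9_3_0_c5 chkSB_m9_3_0_c6

/-- certificate tree -/
def treeSB_m9_3_0 : TS :=
  .sp treeSB_m9_3_0_c0 treeSB_m9_3_0_c1 treeSB_m9_3_0_c2 treeSB_m9_3_0_c11

theorem chkSB_m9_3_0 : TS.chk 1 treeSB_m9_3_0 99991 100003 16 100001 99999 2 = true :=
  TS.chk_sp rfl chkSB_m9_3_0_c0 chkSB_m9_3_0_c1 chkSB_m9_3_0_c2 chkSB_m9_3_0_c11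

/-- certificate tree -/
def treeSB_m9_3_1_c3 : TS :=
  .sq treeSB_m9_3_1_c4 treeSB_m9_3_1_c5 treeSB_m9_3_1_c6 treeSB_m9_3_1_c7

theorem chkSB_m9_3_1_c3 : TS.chk 1 treeSB_m9_3_1_c3 99991 100003 16 100005 100001 16 = true :=
  TS.chk_sq rfl chkSB_m9_3_1_c4 chkSB_m9_3_1_c5 chkSB_m9_3_1_c6 chkSB_m9_3_1_c7

/-- certificate tree -/
def treeSB_m9_3_1_c2 : TS :=
  .sp treeSB_m9_3_1_c3 treeSB_m9_3_1_c8 treeSB_m9_3_1_c9 treeSB_m9_3_1_c10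

theorem chkSB_m9_3_1_c2 : TS.chk 1 treeSB_m9_3_1_c2 99991 100003 16 100003 100001 8 = true :=
  TS.chk_sp rfl chkSB_m9_3_1_c3 chkSB_m9_3_1_c8 chkSB_m9_3_1_c9 chkSB_m9_3_1_c10

/-- certificate tree -/
def treeSB_m9_3_1_c0 : TS :=
  .sp treeSB_m9_3_1_c1 treeSB_m9_3_1_c2 treeSB_m9_3_1_c11 treeSB_m9_3_1_c12

theorem chkSB_m9_3_1_c0 : TS.chk 1 treeSB_m9_3_1_c0 99991 100003 16 100001 100001 4 = true :=
  TS.chk_sp rfl chkSB_m9_3_1_c1 chkSB_m9_3_1_c2 chkSB_m9_3_1_c11 chkSB_m9_3_1_c12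

/-- certificate tree -/
def treeSB_m9_3_1_c15 : TS :=
  .out

theorem chkSB_m9_3_1_c15 : TS.chk 1 treeSB_m9_3_1_c15 99991 100003 16 100003 100003 4 = true := by decide +kernel

/-- certificate tree -/
def treeSB_m9_3_1 : TS :=
  .sp treeSB_m9_3_1_c0 treeSB_m9_3_1_c13 treeSB_m9_3_1_c14 treeSB_m9_3_1_c15

theorem chkSB_m9_3_1 : TS.chk 1 treeSB_m9_3_1 99991 100003 16 100001 100001 2 = true :=
  TS.chk_sp rfl chkSB_m9_3_1_c0 chkSB_m9_3_1_c13 chkSB_m9_3_1_c14 chkSB_m9_3_1_c15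

end Pool.Agent.MaxTerm58
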