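import Pool.Agent.MaxTerm58.DTF_p0
import Pool.Agent.MaxTerm58.DTF_p1
import Pool.Agent.MaxTerm58.DTF_p2

/-! Certificates of the families T, mode 2. -/

namespace Pool.Agent.MaxTerm58

set_option maxRecDepth 100000

/-- certificate tree -/
def treesTF_0_c1 : TT :=
  .sq treesTF_0_c2 treesTF_0_c3 treesTF_0_c4 treesTF_0_c5

theorem chkTF_0_c1 : TT.chk 2 treesTF_0_c1 99979 100001 32 = true :=
  TT.chk_sq rfl chkTF_0_c2 chkTF_0_c3 chkTF_0_c4 chkTF_0_c5

/-- certificate tree -/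
def treesTF_0 : TT :=
  .sq treesTF_0_c0 treesTF_0_c1 treesTF_0_c6 treesTF_0_c7

theorem chkTF_0 : TT.chk 2 treesTF_0 99989 100001 16 = true :=
  TT.chk_sq rfl chkTF_0_c0 chkTF_0_c1 chkTF_0_c6 chkTF_0_c7

/-- certificate tree -/
def treesTF_1_c2 : TT :=
  .out

theorem chkTF_1_c2 : TT.chk 2 treesTF_1_c2 99977 100007 32 = true := by decide +kernel

/-- certificate tree -/
def treesTF_1 : TT :=
  .sq treesTF_1_c0 treesTF_1_c1 treesTF_1_c2 treesTF_1_c3

theorem chkTF_1 : TT.chk 2 treesTF_1 99989 100003 16 = true :=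
  TT.chk_sq rfl chkTF_1_c0 chkTF_1_c1 chkTF_1_c2 chkTF_1_c3

/-- certificate tree -/
def treesTF_3 : TT :=
  .out

theorem chkTF_3 : TT.chk 2 treesTF_3 99989 100007 16 = true := by decide +kernel

/-- certificate tree -/
def treesTF_4 : TT :=
  .out

theorem chkTF_4 : TT.chk 2 treesTF_4 99989 100009 16 = true := by decide +kernel

/-- certificate tree -/
def treesTF_5_c0 : TT :=
  .sq treesTF_5_c1 treesTF_5_c2 treesTF_5_c3 treesTF_5_c4

theorem chkTF_5_c0 : TT.chk 2 treesTF_5_c0 99981 100001 32 = true :=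
  TT.chk_sq rfl chkTF_5_c1 chkTF_5_c2 chkTF_5_c3 chkTF_5_c4

/-- certificate tree -/
def treesTF_5_c6 : TT :=
  .sq treesTF_5_c7 treesTF_5_c8 treesTF_5_c9 treesTF_5_c10

theorem chkTF_5_c6 : TT.chk 2 treesTF_5_c6 99981 100003 32 = true :=
  TT.chk_sq rfl chkTF_5_c7 chkTF_5_c8 chkTF_5_c9 chkTF_5_c10

/-- certificate tree -/
def treesTF_5 : TT :=
  .sq treesTF_5_c0 treesTF_5_c5 treesTF_5_c6 treesTF_5_c11

theorem chkTF_5 : TT.chk 2 treesTF_5 99991 100001 16 = true :=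
  TT.chk_sq rfl chkTF_5_c0 chkTF_5_c5 chkTF_5_c6 chkTF_5_c11

/-- certificate tree -/
def treesTF_6 : TT :=
  .sq treesTF_6_c0 treesTF_6_c1 treesTF_6_c2 treesTF_6_c3

theorem chkTF_6 : TT.chk 2 treesTF_6 99991 100003 16 = true :=
  TT.chk_sq rfl chkTF_6_c0 chkTF_6_c1 chkTF_6_c2 chkTF_6_c3

/-- certificate tree -/
def treesTF_9 : TT :=
  .out

theorem chkTF_9 : TT.chk 2 treesTF_9 99991 100009 16 = true := by decide +kernel

/-- certificate tree -/
def treesTF_10 : TT :=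
  .sq treesTF_10_c0 treesTF_10_c1 treesTF_10_c2 treesTF_10_c3

theorem chkTF_10 : TT.chk 2 treesTF_10 99993 100001 16 = true :=
  TT.chk_sq rfl chkTF_10_c0 chkTF_10_c1 chkTF_10_c2 chkTF_10_c3

/-- certificate tree -/
def treesTF_11 : TT :=
  .sq treesTF_11_c0 treesTF_11_c1 treesTF_11_c2 treesTF_11_c3

theorem chkTF_11 : TT.chk 2 treesTF_11 99993 100003 16 = true :=
  TT.chk_sq rfl chkTF_11_c0 chkTF_11_c1 chkTF_11_c2 chkTF_11_c3

/-- certificate tree -/
def treesTF_14 : TT :=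
  .out

theorem chkTF_14 : TT.chk 2 treesTF_14 99993 100009 16 = true := by decide +kernel

/-- certificate tree -/
def treesTF_19 : TT :=
  .out

theorem chkTF_19 : TT.chk 2 treesTF_19 99995 100009 16 = true := by decide +kernel

/-- certificate tree -/
def treesTF_20 : TT :=
  .out

theorem chkTF_20 : TT.chk 2 treesTF_20 99997 100001 16 = true := by decide +kernel

/-- certificate tree -/
def treesTF_24 : TT :=
  .out

theorem chkTF_24 : TT.chk 2 treesTF_24 99997 100009 16 = true := by decide +kernel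

/-- certificate trees -/
def treesTF : List TT :=
  [treesTF_0, treesTF_1, treesTF_2, treesTF_3, treesTF_4, treesTF_5, treesTF_6, treesTF_7,
  treesTF_8, treesTF_9, treesTF_10, treesTF_11, treesTF_12, treesTF_13, treesTF_14, treesTF_15,
  treesTF_16, treesTF_17, treesTF_18, treesTF_19, treesTF_20, treesTF_21, treesTF_22, treesTF_23,
  treesTF_24]

theorem chkTF : chkGridT 2 treesTF 0 = true :=
  chkGridT_cons rfl rfl chkTF_0 (chkGridT_cons rfl rfl chkTF_1 (chkGridT_cons rfl rfl chkTF_2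
  (chkGridT_cons rfl rfl chkTF_3 (chkGridT_cons rfl rfl chkTF_4 (chkGridT_cons rfl rfl chkTF_5
  (chkGridT_cons rfl rfl chkTF_6 (chkGridT_cons rfl rfl chkTF_7 (chkGridT_cons rfl rfl chkTF_8
  (chkGridT_cons rfl rfl chkTF_9 (chkGridT_cons rfl rfl chkTF_10 (chkGridT_cons rfl rfl chkTF_11
  (chkGridT_cons rfl rfl chkTF_12 (chkGridT_cons rfl rfl chkTF_13 (chkGridT_cons rfl rfl chkTF_14
  (chkGridT_cons rfl rfl chkTF_15 (chkGridT_cons rfl rfl chkTF_16 (chkGridT_cons rfl rfl chkTF_17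
  (chkGridT_cons rfl rfl chkTF_18 (chkGridT_cons rfl rfl chkTF_19 (chkGridT_cons rfl rfl chkTF_20
  (chkGridT_cons rfl rfl chkTF_21 (chkGridT_cons rfl rfl chkTF_22 (chkGridT_cons rfl rfl chkTF_23
  (chkGridT_cons rfl rfl chkTF_24 rfl))))))))))))))))))))))))

end Pool.Agent.MaxTerm58
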