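import Pool.Agent.MaxTerm58.DTI1_p0
import Pool.Agent.MaxTerm58.DTI1_p1

/-! Certificates of the families T, mode 1. -/

namespace Pool.Agent.MaxTerm58

set_option maxRecDepth 100000

/-- certificate tree -/
def treesTI1_3 : TT :=
  .out

theorem chkTI1_3 : TT.chk 1 treesTI1_3 99989 100007 16 = true := by decide +kernel

/-- certificate tree -/
def treesTI1_4 : TT :=
  .out

theorem chkTI1_4 : TT.chk 1 treesTI1_4 99989 100009 16 = true := by decide +kernel

/-- certificate tree -/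
def treesTI1_5 : TT :=
  .sq treesTI1_5_c0 treesTI1_5_c1 treesTI1_5_c2 treesTI1_5_c3

theorem chkTI1_5 : TT.chk 1 treesTI1_5 99991 100001 16 = true :=
  TT.chk_sq rfl chkTI1_5_c0 chkTI1_5_c1 chkTI1_5_c2 chkTI1_5_c3

/-- certificate tree -/
def treesTI1_9 : TT :=
  .out

theorem chkTI1_9 : TT.chk 1 treesTI1_9 99991 100009 16 = true := by decide +kernel

/-- certificate tree -/
def treesTI1_10 : TT :=
  .sq treesTI1_10_c0 treesTI1_10_c1 treesTI1_10_c2 treesTI1_10_c3

theorem chkTI1_10 : TT.chk 1 treesTI1_10 99993 100001 16 = true :=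
  TT.chk_sq rfl chkTI1_10_c0 chkTI1_10_c1 chkTI1_10_c2 chkTI1_10_c3

/-- certificate tree -/
def treesTI1_11 : TT :=
  .sq treesTI1_11_c0 treesTI1_11_c1 treesTI1_11_c2 treesTI1_11_c3

theorem chkTI1_11 : TT.chk 1 treesTI1_11 99993 100003 16 = true :=
  TT.chk_sq rfl chkTI1_11_c0 chkTI1_11_c1 chkTI1_11_c2 chkTI1_11_c3

/-- certificate tree -/
def treesTI1_14 : TT :=
  .out

theorem chkTI1_14 : TT.chk 1 treesTI1_14 99993 100009 16 = true := by decide +kernel

/-- certificate tree -/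
def treesTI1_16 : TT :=
  .sq treesTI1_16_c0 treesTI1_16_c1 treesTI1_16_c2 treesTI1_16_c3

theorem chkTI1_16 : TT.chk 1 treesTI1_16 99995 100003 16 = true :=
  TT.chk_sq rfl chkTI1_16_c0 chkTI1_16_c1 chkTI1_16_c2 chkTI1_16_c3

/-- certificate tree -/
def treesTI1_19 : TT :=
  .out

theorem chkTI1_19 : TT.chk 1 treesTI1_19 99995 100009 16 = true := by decide +kernel

/-- certificate tree -/
def treesTI1_20 : TT :=
  .out

theorem chkTI1_20 : TT.chk 1 treesTI1_20 99997 100001 16 = true := by decide +kernel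

/-- certificate tree -/
def treesTI1_24 : TT :=
  .out

theorem chkTI1_24 : TT.chk 1 treesTI1_24 99997 100009 16 = true := by decide +kernel

/-- certificate trees -/
def treesTI1 : List TT :=
  [treesTI1_0, treesTI1_1, treesTI1_2, treesTI1_3, treesTI1_4, treesTI1_5, treesTI1_6, treesTI1_7,
  treesTI1_8, treesTI1_9, treesTI1_10, treesTI1_11, treesTI1_12, treesTI1_13, treesTI1_14,
  treesTI1_15, treesTI1_16, treesTI1_17, treesTI1_18, treesTI1_19, treesTI1_20, treesTI1_21,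
  treesTI1_22, treesTI1_23, treesTI1_24]

theorem chkTI1 : chkGridT 1 treesTI1 0 = true :=
  chkGridT_cons rfl rfl chkTI1_0 (chkGridT_cons rfl rfl chkTI1_1 (chkGridT_cons rfl rfl chkTI1_2
  (chkGridT_cons rfl rfl chkTI1_3 (chkGridT_cons rfl rfl chkTI1_4 (chkGridT_cons rfl rfl chkTI1_5
  (chkGridT_cons rfl rfl chkTI1_6 (chkGridT_cons rfl rfl chkTI1_7 (chkGridT_cons rfl rfl chkTI1_8
  (chkGridT_cons rfl rfl chkTI1_9 (chkGridT_cons rfl rfl chkTI1_10 (chkGridT_cons rfl rfl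
  chkTI1_11 (chkGridT_cons rfl rfl chkTI1_12 (chkGridT_cons rfl rfl chkTI1_13 (chkGridT_cons rfl
  rfl chkTI1_14 (chkGridT_cons rfl rfl chkTI1_15 (chkGridT_cons rfl rfl chkTI1_16 (chkGridT_cons
  rfl rfl chkTI1_17 (chkGridT_cons rfl rfl chkTI1_18 (chkGridT_cons rfl rfl chkTI1_19
  (chkGridT_cons rfl rfl chkTI1_20 (chkGridT_cons rfl rfl chkTI1_21 (chkGridT_cons rfl rfl
  chkTI1_22 (chkGridT_cons rfl rfl chkTI1_23 (chkGridT_cons rfl rfl chkTI1_24
  rfl))))))))))))))))))))))))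

end Pool.Agent.MaxTerm58
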