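import Pool.Agent.MaxTerm58.DTO_p0
import Pool.Agent.MaxTerm58.DTO_p1

/-! Certificates of the families T, mode 0. -/

namespace Pool.Agent.MaxTerm58

set_option maxRecDepth 100000

/-- certificate tree -/
def treesTO_0_c4 : TT :=
  .out

theorem chkTO_0_c4 : TT.chk 0 treesTO_0_c4 99911 100001 128 = true := by decide +kernel

/-- certificate tree -/
def treesTO_0_c6 : TT :=
  .out

theorem chkTO_0_c6 : TT.chk 0 treesTO_0_c6 99911 100003 128 = true := by decide +kernel

/-- certificate tree -/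
def treesTO_0_c2 : TT :=
  .sq treesTO_0_c3 treesTO_0_c4 treesTO_0_c5 treesTO_0_c6

theorem chkTO_0_c2 : TT.chk 0 treesTO_0_c2 99955 100001 64 = true :=
  TT.chk_sq rfl chkTO_0_c3 chkTO_0_c4 chkTO_0_c5 chkTO_0_c6

/-- certificate tree -/
def treesTO_0_c10 : TT :=
  .out

theorem chkTO_0_c10 : TT.chk 0 treesTO_0_c10 99911 100005 128 = true := by decide +kernel

/-- certificate tree -/
def treesTO_0_c8 : TT :=
  .sq treesTO_0_c9 treesTO_0_c10 treesTO_0_c11 treesTO_0_c12

theorem chkTO_0_c8 : TT.chk 0 treesTO_0_c8 99955 100003 64 = true :=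
  TT.chk_sq rfl chkTO_0_c9 chkTO_0_c10 chkTO_0_c11 chkTO_0_c12

/-- certificate tree -/
def treesTO_0_c0 : TT :=
  .sq treesTO_0_c1 treesTO_0_c2 treesTO_0_c7 treesTO_0_c8

theorem chkTO_0_c0 : TT.chk 0 treesTO_0_c0 99977 100001 32 = true :=
  TT.chk_sq rfl chkTO_0_c1 chkTO_0_c2 chkTO_0_c7 chkTO_0_c8

/-- certificate tree -/
def treesTO_0_c13 : TT :=
  .out

theorem chkTO_0_c13 : TT.chk 0 treesTO_0_c13 99979 100001 32 = true := by decide +kernel

/-- certificate tree -/
def treesTO_0_c16 : TT :=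
  .sq treesTO_0_c17 treesTO_0_c18 treesTO_0_c19 treesTO_0_c20

theorem chkTO_0_c16 : TT.chk 0 treesTO_0_c16 99955 100005 64 = true :=
  TT.chk_sq rfl chkTO_0_c17 chkTO_0_c18 chkTO_0_c19 chkTO_0_c20

/-- certificate tree -/
def treesTO_0_c22 : TT :=
  .sq treesTO_0_c23 treesTO_0_c24 treesTO_0_c25 treesTO_0_c26

theorem chkTO_0_c22 : TT.chk 0 treesTO_0_c22 99955 100007 64 = true :=
  TT.chk_sq rfl chkTO_0_c23 chkTO_0_c24 chkTO_0_c25 chkTO_0_c26

/-- certificate tree -/
def treesTO_0_c14 : TT :=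
  .sq treesTO_0_c15 treesTO_0_c16 treesTO_0_c21 treesTO_0_c22

theorem chkTO_0_c14 : TT.chk 0 treesTO_0_c14 99977 100003 32 = true :=
  TT.chk_sq rfl chkTO_0_c15 chkTO_0_c16 chkTO_0_c21 chkTO_0_c22

/-- certificate tree -/
def treesTO_0_c27 : TT :=
  .out

theorem chkTO_0_c27 : TT.chk 0 treesTO_0_c27 99979 100003 32 = true := by decide +kernel

/-- certificate tree -/
def treesTO_0 : TT :=
  .sq treesTO_0_c0 treesTO_0_c13 treesTO_0_c14 treesTO_0_c27

theorem chkTO_0 : TT.chk 0 treesTO_0 99989 100001 16 = true :=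
  TT.chk_sq rfl chkTO_0_c0 chkTO_0_c13 chkTO_0_c14 chkTO_0_c27

/-- certificate tree -/
def treesTO_1_c0 : TT :=
  .sq treesTO_1_c1 treesTO_1_c2 treesTO_1_c3 treesTO_1_c4

theorem chkTO_1_c0 : TT.chk 0 treesTO_1_c0 99977 100005 32 = true :=
  TT.chk_sq rfl chkTO_1_c1 chkTO_1_c2 chkTO_1_c3 chkTO_1_c4

/-- certificate tree -/
def treesTO_1 : TT :=
  .sq treesTO_1_c0 treesTO_1_c5 treesTO_1_c6 treesTO_1_c7

theorem chkTO_1 : TT.chk 0 treesTO_1 99989 100003 16 = true :=
  TT.chk_sq rfl chkTO_1_c0 chkTO_1_c5 chkTO_1_c6 chkTO_1_c7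

/-- certificate tree -/
def treesTO_4 : TT :=
  .out

theorem chkTO_4 : TT.chk 0 treesTO_4 99989 100009 16 = true := by decide +kernel

/-- certificate tree -/
def treesTO_5 : TT :=
  .out

theorem chkTO_5 : TT.chk 0 treesTO_5 99991 100001 16 = true := by decide +kernel

/-- certificate tree -/
def treesTO_6 : TT :=
  .out

theorem chkTO_6 : TT.chk 0 treesTO_6 99991 100003 16 = true := by decide +kernel

/-- certificate tree -/
def treesTO_10 : TT :=
  .out

theorem chkTO_10 : TT.chk 0 treesTO_10 99993 100001 16 = true := by decide +kernel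

/-- certificate tree -/
def treesTO_11 : TT :=
  .out

theorem chkTO_11 : TT.chk 0 treesTO_11 99993 100003 16 = true := by decide +kernel

/-- certificate tree -/
def treesTO_12 : TT :=
  .out

theorem chkTO_12 : TT.chk 0 treesTO_12 99993 100005 16 = true := by decide +kernel

/-- certificate tree -/
def treesTO_15 : TT :=
  .out

theorem chkTO_15 : TT.chk 0 treesTO_15 99995 100001 16 = true := by decide +kernel

/-- certificate tree -/
def treesTO_16 : TT :=
  .out

theorem chkTO_16 : TT.chk 0 treesTO_16 99995 100003 16 = true := by decide +kernel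

/-- certificate tree -/
def treesTO_17 : TT :=
  .out

theorem chkTO_17 : TT.chk 0 treesTO_17 99995 100005 16 = true := by decide +kernel

/-- certificate tree -/
def treesTO_20 : TT :=
  .out

theorem chkTO_20 : TT.chk 0 treesTO_20 99997 100001 16 = true := by decide +kernel

/-- certificate tree -/
def treesTO_21 : TT :=
  (.sq .out .out .out .out)

theorem chkTO_21 : TT.chk 0 treesTO_21 99997 100003 16 = true := by decide +kernel

/-- certificate trees -/
def treesTO : List TT :=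
  [treesTO_0, treesTO_1, treesTO_2, treesTO_3, treesTO_4, treesTO_5, treesTO_6, treesTO_7,
  treesTO_8, treesTO_9, treesTO_10, treesTO_11, treesTO_12, treesTO_13, treesTO_14, treesTO_15,
  treesTO_16, treesTO_17, treesTO_18, treesTO_19, treesTO_20, treesTO_21, treesTO_22, treesTO_23,
  treesTO_24]

theorem chkTO : chkGridT 0 treesTO 0 = true :=
  chkGridT_cons rfl rfl chkTO_0 (chkGridT_cons rfl rfl chkTO_1 (chkGridT_cons rfl rfl chkTO_2
  (chkGridT_cons rfl rfl chkTO_3 (chkGridT_cons rfl rfl chkTO_4 (chkGridT_cons rfl rfl chkTO_5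
  (chkGridT_cons rfl rfl chkTO_6 (chkGridT_cons rfl rfl chkTO_7 (chkGridT_cons rfl rfl chkTO_8
  (chkGridT_cons rfl rfl chkTO_9 (chkGridT_cons rfl rfl chkTO_10 (chkGridT_cons rfl rfl chkTO_11
  (chkGridT_cons rfl rfl chkTO_12 (chkGridT_cons rfl rfl chkTO_13 (chkGridT_cons rfl rfl chkTO_14
  (chkGridT_cons rfl rfl chkTO_15 (chkGridT_cons rfl rfl chkTO_16 (chkGridT_cons rfl rfl chkTO_17
  (chkGridT_cons rfl rfl chkTO_18 (chkGridT_cons rfl rfl chkTO_19 (chkGridT_cons rfl rfl chkTO_20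
  (chkGridT_cons rfl rfl chkTO_21 (chkGridT_cons rfl rfl chkTO_22 (chkGridT_cons rfl rfl chkTO_23
  (chkGridT_cons rfl rfl chkTO_24 rfl))))))))))))))))))))))))

end Pool.Agent.MaxTerm58
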