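import Pool.Agent.MaxTerm58.HypTI

/-! Fejer damping. Hints: `fejer_bound`: with `K(w) = (1/N) |sum_{j<N} w^j|^2 >= 0`, `int K = 1` (integral over `w = exp(i t)`,
`0 <= t <= 2 pi`, divided by `2 pi`), the function `sum_k (1 - |k|/N)_+ g_k z^k` is the integral of `K(w) G(z w)`; exchange sum and
integral by absolute convergence. The case `N = 0` of `TI_damped` is `HypI_centered`. `1 / 100000 + ||q|| < 1` follows from
`2 + ||q||^2 <= B^2`. -/

namespace Pool.Agent.MaxTerm58

open Pool.Agent.MaxTerm59 (HypI)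

open Complex MeasureTheory

/-! ### The Fejer kernel -/

/-- the integral of a character -/
private theorem DampTI_char (d : ℤ) :
    ∫ t in (0 : ℝ)..(2 * Real.pi), cexp (I * d * t) = if d = 0 then 2 * Real.pi else 0 := by
  by_cases hd : d = 0
  · subst hd
    simp
  · have hd' : (d : ℂ) ≠ 0 := by exact_mod_cast hd
    have hc : I * (d : ℂ) ≠ 0 := mul_ne_zero I_ne_zero hd'
    rw [integral_exp_mul_complex hc, if_neg hd]
    have h1 : I * (d : ℂ) * ((2 * Real.pi : ℝ) : ℂ) = d * (2 * Real.pi * I) := by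
      push_cast
      ring
    rw [h1, Complex.exp_int_mul_two_pi_mul_I]
    simp

/-- the kernel -/
private noncomputable def DampTI_K (N : ℕ) (t : ℝ) : ℝ :=
  ‖∑ j ∈ Finset.range N, cexp (I * j * t)‖ ^ 2 / N

private theorem DampTI_K_eq (N : ℕ) (t : ℝ) :
    (DampTI_K N t : ℂ) = (1 / N) * ∑ i ∈ Finset.range N, ∑ j ∈ Finset.range N,
      cexp (I * ((i : ℤ) - (j : ℤ) : ℤ) * t) := by
  have h1 : ((‖∑ j ∈ Finset.range N, cexp (I * j * t)‖ ^ 2 : ℝ) : ℂ) =
      (∑ j ∈ Finset.range N, cexp (I * j * t)) *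
        (starRingEnd ℂ) (∑ j ∈ Finset.range N, cexp (I * j * t)) := by
    rw [Complex.mul_conj, Complex.normSq_eq_norm_sq]
  unfold DampTI_K
  rw [Complex.ofReal_div, h1, map_sum, Finset.sum_mul_sum, div_eq_inv_mul, one_div]
  push_cast
  congr 1
  refine Finset.sum_congr rfl fun i _ => Finset.sum_congr rfl fun j _ => ?_
  rw [← Complex.exp_conj, ← Complex.exp_add]
  congr 1
  simp only [map_mul, Complex.conj_I, Complex.conj_natCast, Complex.conj_ofReal]
  ring

private theorem DampTI_K_nonneg (N : ℕ) (t : ℝ) : 0 ≤ DampTI_K N t := by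
  unfold DampTI_K
  positivity

private theorem DampTI_K_le (N : ℕ) (t : ℝ) : DampTI_K N t ≤ N := by
  unfold DampTI_K
  rcases Nat.eq_zero_or_pos N with h | h
  · subst h
    simp
  · have hN : (0 : ℝ) < N := by exact_mod_cast h
    rw [div_le_iff₀ hN]
    have h1 : ‖∑ j ∈ Finset.range N, cexp (I * j * t)‖ ≤ N := by
      refine (norm_sum_le _ _).trans ?_
      have h2 : ∀ j ∈ Finset.range N, ‖cexp (I * j * t)‖ ≤ 1 := by
        intro j _
        have h3 : I * (j : ℂ) * (t : ℂ) = ((j * t : ℝ) : ℂ) * I := by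
          push_cast
          ring
        rw [h3, Complex.norm_exp_ofReal_mul_I]
      refine (Finset.sum_le_sum h2).trans ?_
      simp
    nlinarith [norm_nonneg (∑ j ∈ Finset.range N, cexp (I * j * t))]

private theorem DampTI_K_cont (N : ℕ) : Continuous (DampTI_K N) := by
  unfold DampTI_K
  fun_prop

/-- number of pairs with a given difference -/
private theorem DampTI_count (N : ℕ) (k : ℤ) :
    ∑ i ∈ Finset.range N, ∑ j ∈ Finset.range N, (if (i : ℤ) - (j : ℤ) + k = 0 then (1 : ℂ) else 0) =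
      ((N - k.natAbs : ℕ) : ℂ) := by
  have h1 : ∀ i ∈ Finset.range N, ∑ j ∈ Finset.range N,
      (if (i : ℤ) - (j : ℤ) + k = 0 then (1 : ℂ) else 0) =
      if 0 ≤ (i : ℤ) + k ∧ (i : ℤ) + k < N then 1 else 0 := by
    intro i _
    split_ifs with h
    · rw [Finset.sum_eq_single ((i : ℤ) + k).toNat]
      · rw [if_pos (by omega)]
      · intro j _ hj
        rw [if_neg (by omega)]
      · intro hn
        exfalso
        apply hn
        rw [Finset.mem_range]
        omega
    · refine Finset.sum_eq_zero fun j hj => ?_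
      rw [Finset.mem_range] at hj
      rw [if_neg (by omega)]
  rw [Finset.sum_congr rfl h1, Finset.sum_ite, Finset.sum_const_zero, add_zero, Finset.sum_const,
    nsmul_eq_mul, mul_one]
  congr 1
  have h2 : (Finset.range N).filter (fun i : ℕ => 0 ≤ (i : ℤ) + k ∧ (i : ℤ) + k < N) =
      Finset.Ico (-k).toNat (N - k.toNat) := by
    ext i
    rw [Finset.mem_filter, Finset.mem_range, Finset.mem_Ico]
    omega
  rw [h2, Nat.card_Ico]
  omega

private theorem DampTI_coef (N : ℕ) (k : ℤ) :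
    ∫ t in (0 : ℝ)..(2 * Real.pi), (DampTI_K N t : ℂ) * cexp (I * k * t) =
      2 * Real.pi * ((((N - k.natAbs : ℕ) : ℝ) / N : ℝ) : ℂ) := by
  have h1 : ∀ t : ℝ, (DampTI_K N t : ℂ) * cexp (I * k * t) = ∑ i ∈ Finset.range N,
      ∑ j ∈ Finset.range N, (1 / N : ℂ) * cexp (I * ((i : ℤ) - (j : ℤ) + k : ℤ) * t) := by
    intro t
    rw [DampTI_K_eq, mul_assoc, Finset.sum_mul, Finset.mul_sum]
    refine Finset.sum_congr rfl fun i _ => ?_
    rw [Finset.sum_mul, Finset.mul_sum]
    refine Finset.sum_congr rfl fun j _ => ?_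
    rw [← Complex.exp_add]
    congr 2
    push_cast
    ring
  simp only [h1]
  rw [intervalIntegral.integral_finsetSum]
  · have h2 : ∀ i ∈ Finset.range N, ∫ t in (0 : ℝ)..(2 * Real.pi), ∑ j ∈ Finset.range N,
        (1 / N : ℂ) * cexp (I * ((i : ℤ) - (j : ℤ) + k : ℤ) * t) =
        ∑ j ∈ Finset.range N, (1 / N : ℂ) *
          ((2 * Real.pi) * (if (i : ℤ) - (j : ℤ) + k = 0 then (1 : ℂ) else 0)) := by
      intro i _
      rw [intervalIntegral.integral_finsetSum]
      · refine Finset.sum_congr rfl fun j _ => ?_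
        rw [intervalIntegral.integral_const_mul, DampTI_char]
        split_ifs
        · simp
        · simp
      · intro j _
        apply Continuous.intervalIntegrable
        fun_prop
    rw [Finset.sum_congr rfl h2]
    have h3 := DampTI_count N k
    simp only [← Finset.mul_sum]
    rw [h3]
    push_cast
    ring
  · intro i _
    apply Continuous.intervalIntegrable
    fun_prop

theorem fejer_bound (g : ℤ → ℂ) (hg : Summable fun k => ‖g k‖) (B : ℝ)
    (hB : ∀ z : ℂ, ‖z‖ = 1 → ‖∑' k : ℤ, g k * z ^ k‖ ≤ B) (N : ℕ) (hN : 0 < N) (z : ℂ) (hz : ‖z‖ = 1) :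
    ‖∑' k : ℤ, ((((N - k.natAbs : ℕ) : ℝ) / N : ℝ) : ℂ) * g k * z ^ k‖ ≤ B := by
  have hpi : (0 : ℝ) < 2 * Real.pi := by positivity
  have hz0 : z ≠ 0 := by
    intro h
    rw [h, norm_zero] at hz
    exact zero_ne_one hz
  have hnorm : ∀ t : ℝ, ‖cexp (I * t)‖ = 1 := by
    intro t
    rw [mul_comm, Complex.norm_exp_ofReal_mul_I]
  have hpow : ∀ (k : ℤ) (t : ℝ), (cexp (I * t)) ^ k = cexp (I * k * t) := by
    intro k t
    rw [← Complex.exp_int_mul]
    congr 1
    ring
  set F : ℤ → ℝ → ℂ := fun k t => (DampTI_K N t : ℂ) * (g k * (z * cexp (I * t)) ^ k) with hF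
  have hFn : ∀ (k : ℤ) (t : ℝ), ‖F k t‖ ≤ N * ‖g k‖ := by
    intro k t
    rw [hF]
    simp only
    rw [norm_mul, norm_mul, norm_zpow, norm_mul, hz, hnorm, mul_one, one_zpow, mul_one,
      Complex.norm_real, Real.norm_of_nonneg (DampTI_K_nonneg N t)]
    exact mul_le_mul_of_nonneg_right (DampTI_K_le N t) (norm_nonneg _)
  have hFc : ∀ k : ℤ, Continuous (F k) := by
    intro k
    have h1 : F k = fun t : ℝ => (DampTI_K N t : ℂ) * (g k * (z ^ k * cexp (I * k * t))) := by
      funext t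
      rw [hF]
      simp only
      rw [mul_zpow, hpow]
    rw [h1]
    have h2 := DampTI_K_cont N
    fun_prop
  have hsum : ∀ t : ℝ, Summable fun k : ℤ => g k * (z * cexp (I * t)) ^ k := by
    intro t
    refine Summable.of_norm ?_
    refine hg.congr fun k => ?_
    rw [norm_mul, norm_zpow, norm_mul, hz, hnorm, mul_one, one_zpow, mul_one]
  have hsumF : ∀ t : ℝ, HasSum (fun k => F k t)
      ((DampTI_K N t : ℂ) * ∑' k : ℤ, g k * (z * cexp (I * t)) ^ k) := by
    intro t
    exact (hsum t).hasSum.mul_left _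
  have key := intervalIntegral.hasSum_integral_of_dominated_convergence (μ := volume)
    (a := 0) (b := 2 * Real.pi) (F := F)
    (f := fun t => (DampTI_K N t : ℂ) * ∑' k : ℤ, g k * (z * cexp (I * t)) ^ k)
    (fun k _ => N * ‖g k‖) (fun k => (hFc k).aestronglyMeasurable)
    (fun k => Filter.Eventually.of_forall fun t _ => hFn k t)
    (Filter.Eventually.of_forall fun t _ => hg.mul_left _)
    intervalIntegrable_const
    (Filter.Eventually.of_forall fun t _ => hsumF t)
  have hint : ∀ k : ℤ, ∫ t in (0 : ℝ)..(2 * Real.pi), F k t =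
      2 * Real.pi * (((((N - k.natAbs : ℕ) : ℝ) / N : ℝ) : ℂ) * g k * z ^ k) := by
    intro k
    have h1 : F k = fun t : ℝ => (g k * z ^ k) * ((DampTI_K N t : ℂ) * cexp (I * k * t)) := by
      funext t
      rw [hF]
      simp only
      rw [mul_zpow, hpow]
      ring
    rw [h1, intervalIntegral.integral_const_mul, DampTI_coef]
    ring
  simp only [hint] at key
  have h2 := key.tsum_eq
  rw [tsum_mul_left] at h2
  have h3 : ‖∫ t in (0 : ℝ)..(2 * Real.pi),
      (DampTI_K N t : ℂ) * ∑' k : ℤ, g k * (z * cexp (I * t)) ^ k‖ ≤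
      ∫ t in (0 : ℝ)..(2 * Real.pi), DampTI_K N t * B := by
    refine intervalIntegral.norm_integral_le_of_norm_le hpi.le ?_ ?_
    · refine Filter.Eventually.of_forall fun t _ => ?_
      rw [norm_mul, Complex.norm_real, Real.norm_of_nonneg (DampTI_K_nonneg N t)]
      refine mul_le_mul_of_nonneg_left (hB _ ?_) (DampTI_K_nonneg N t)
      rw [norm_mul, hz, hnorm, mul_one]
    · exact ((DampTI_K_cont N).mul continuous_const).intervalIntegrable _ _
  have h4 : ∫ t in (0 : ℝ)..(2 * Real.pi), DampTI_K N t = 2 * Real.pi := by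
    have h5 := DampTI_coef N 0
    simp only [Int.cast_zero, mul_zero, zero_mul, Complex.exp_zero, mul_one, Int.natAbs_zero,
      Nat.sub_zero] at h5
    have h6 : ((N : ℝ) / N : ℝ) = 1 := div_self (by exact_mod_cast hN.ne')
    rw [h6, intervalIntegral.integral_ofReal] at h5
    have h7 : (((∫ t in (0 : ℝ)..(2 * Real.pi), DampTI_K N t) : ℝ) : ℂ) =
        ((2 * Real.pi : ℝ) : ℂ) := by
      rw [h5]
      push_cast
      ring
    exact_mod_cast h7
  rw [intervalIntegral.integral_mul_const, h4, ← h2, norm_mul] at h3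
  have h8 : ‖(2 * (Real.pi : ℂ))‖ = 2 * Real.pi := by
    rw [show (2 * (Real.pi : ℂ)) = ((2 * Real.pi : ℝ) : ℂ) by push_cast; ring, Complex.norm_real,
      Real.norm_of_nonneg hpi.le]
  rw [h8] at h3
  exact le_of_mul_le_mul_left h3 hpi

/-! ### The centred function -/

theorem HypI_centered {B ε : ℝ} {q : ℂ} {s : ℕ → ℂ} (H : HypI B ε q s) (z : ℂ) (hz : ‖z‖ = 1) :
    ‖1 + (z ^ (-1 : ℤ) + q * z) +
      ∑' i : ℕ, s i * (z ^ (-((i : ℤ) + 2)) + q ^ (i + 2) * z ^ ((i : ℤ) + 2))‖ ≤ B := by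
  have hz0 : z ≠ 0 := by
    intro h
    rw [h, norm_zero] at hz
    exact zero_ne_one hz
  have h1 := H.bound z hz
  have h2 : 1 + (z ^ (-1 : ℤ) + q * z) +
      ∑' i : ℕ, s i * (z ^ (-((i : ℤ) + 2)) + q ^ (i + 2) * z ^ ((i : ℤ) + 2)) =
      z⁻¹ * (1 + z + q * z ^ 2 +
        ∑' i : ℕ, s i * (z ^ (-(i + 1 : ℤ)) + q ^ (i + 2) * z ^ (i + 3))) := by
    rw [mul_add, ← tsum_mul_left]
    congr 1
    · rw [zpow_neg_one]
      field_simp
      ring
    · refine tsum_congr fun i => ?_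
      have e1 : z ^ (-((i : ℤ) + 2)) = z⁻¹ * z ^ (-(i + 1 : ℤ)) := by
        rw [← zpow_neg_one, ← zpow_add₀ hz0]
        congr 1
        ring
      have e2 : z ^ ((i : ℤ) + 2) = z⁻¹ * z ^ (i + 3) := by
        rw [← zpow_natCast z (i + 3), ← zpow_neg_one, ← zpow_add₀ hz0]
        congr 1
        push_cast
        ring
      rw [e1, e2]
      ring
  rw [h2, norm_mul, norm_inv, hz, inv_one, one_mul]
  exact h1

theorem HypTI_lt {q : ℂ} {s : ℕ → ℂ} (H : HypI (170919 / 100000) (1 / 100000) q s) :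
    ‖q‖ + 1 / 100000 < 1 := by
  have h := H.q_sq
  by_contra hcon
  push Not at hcon
  have h1 : (99999 / 100000 : ℝ) ≤ ‖q‖ := by linarith
  nlinarith

/-- summation over the integers -/
private theorem DampTI_split {f : ℤ → ℂ} (hf : Summable f) :
    ∑' k : ℤ, f k = f 0 + (f (-1) + f 1) + ∑' i : ℕ, (f (-((i : ℤ) + 2)) + f ((i : ℤ) + 2)) := by
  have s1 : Summable fun n : ℕ => f (n : ℤ) := hf.comp_injective Nat.cast_injective
  have s2 : Summable fun n : ℕ => f (-((n : ℤ) + 1)) := by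
    refine hf.comp_injective (i := fun n : ℕ => -((n : ℤ) + 1)) ?_
    intro a b hab
    simp only at hab
    omega
  have h1 : ∑' k : ℤ, f k = ∑' n : ℕ, f (n : ℤ) + ∑' n : ℕ, f (-((n : ℤ) + 1)) :=
    (HasSum.of_nat_of_neg_add_one s1.hasSum s2.hasSum).tsum_eq
  have h2 := s1.sum_add_tsum_nat_add 2
  have h3 := s2.sum_add_tsum_nat_add 1
  simp only [Finset.sum_range_succ, Finset.sum_range_zero, zero_add, Nat.cast_zero, Nat.cast_one]
    at h2 h3
  have s3 : Summable fun n : ℕ => f ((n : ℤ) + 2) := by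
    have := (summable_nat_add_iff 2).2 s1
    refine this.congr fun n => ?_
    push_cast
    rfl
  have s4 : Summable fun n : ℕ => f (-((n : ℤ) + 2)) := by
    have := (summable_nat_add_iff 1).2 s2
    refine this.congr fun n => ?_
    push_cast
    congr 1
  have e1 : ∑' n : ℕ, f ((n + 2 : ℕ) : ℤ) = ∑' n : ℕ, f ((n : ℤ) + 2) := by
    refine tsum_congr fun n => ?_
    push_cast
    rfl
  have e2 : ∑' n : ℕ, f (-(((n + 1 : ℕ) : ℤ) + 1)) = ∑' n : ℕ, f (-((n : ℤ) + 2)) := by
    refine tsum_congr fun n => ?_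
    push_cast
    congr 1
  rw [h1, ← h2, ← h3, e1, e2, s4.tsum_add s3]
  ring

/-- the coefficients of the centred function -/
private noncomputable def DampTI_g (q : ℂ) (s : ℕ → ℂ) : ℤ → ℂ
  | Int.ofNat 0 => 1
  | Int.ofNat 1 => q
  | Int.ofNat (i + 2) => s i * q ^ (i + 2)
  | Int.negSucc 0 => 1
  | Int.negSucc (i + 1) => s i

private theorem DampTI_g_zero (q : ℂ) (s : ℕ → ℂ) : DampTI_g q s 0 = 1 := rfl

private theorem DampTI_g_one (q : ℂ) (s : ℕ → ℂ) : DampTI_g q s 1 = q := rfl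

private theorem DampTI_g_neg_one (q : ℂ) (s : ℕ → ℂ) : DampTI_g q s (-1) = 1 := rfl

private theorem DampTI_g_pos (q : ℂ) (s : ℕ → ℂ) (i : ℕ) :
    DampTI_g q s ((i : ℤ) + 2) = s i * q ^ (i + 2) := by
  have h : ((i : ℤ) + 2) = Int.ofNat (i + 2) := rfl
  rw [h]
  rfl

private theorem DampTI_g_neg (q : ℂ) (s : ℕ → ℂ) (i : ℕ) :
    DampTI_g q s (-((i : ℤ) + 2)) = s i := by
  have h : (-((i : ℤ) + 2)) = Int.negSucc (i + 1) := by
    rw [Int.negSucc_eq]
    push_cast
    ring
  rw [h]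
  rfl

private theorem DampTI_g_summable {q : ℂ} {s : ℕ → ℂ}
    (H : HypI (170919 / 100000) (1 / 100000) q s) : Summable fun k => ‖DampTI_g q s k‖ := by
  have hY0 : 0 ≤ ‖q‖ + 1 / 100000 := by positivity
  have hY1 := HypTI_lt H
  have hsY : Summable fun i : ℕ => (‖q‖ + 1 / 100000) ^ (i + 1) :=
    (summable_nat_add_iff 1).2 (summable_geometric_of_lt_one hY0 hY1)
  have hs : Summable fun i => ‖s i‖ := Summable.of_nonneg_of_le (fun _ => norm_nonneg _) H.size hsY
  have s1 : Summable fun n : ℕ => ‖DampTI_g q s (n : ℤ)‖ := by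
    rw [← summable_nat_add_iff 2]
    refine Summable.of_nonneg_of_le (fun _ => norm_nonneg _) (fun i => ?_) hs
    have h : (((i + 2 : ℕ)) : ℤ) = (i : ℤ) + 2 := by
      push_cast
      ring
    rw [h, DampTI_g_pos, norm_mul, norm_pow]
    exact mul_le_of_le_one_right (norm_nonneg _) (pow_le_one₀ (norm_nonneg _) H.q_lt.le)
  have s2 : Summable fun n : ℕ => ‖DampTI_g q s (-((n : ℤ) + 1))‖ := by
    rw [← summable_nat_add_iff 1]
    refine hs.congr fun i => ?_
    have h : -((((i + 1 : ℕ)) : ℤ) + 1) = -((i : ℤ) + 2) := by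
      push_cast
      ring
    rw [h, DampTI_g_neg]
  have h3 := HasSum.of_nat_of_neg_add_one (f := fun k : ℤ => ‖DampTI_g q s k‖) s1.hasSum s2.hasSum
  exact h3.summable

/-- the series with weights -/
private theorem DampTI_eval {q : ℂ} {s : ℕ → ℂ} (H : HypI (170919 / 100000) (1 / 100000) q s)
    (c : ℤ → ℂ) (hc : ∀ k, ‖c k‖ ≤ 1) (z : ℂ) (hz : ‖z‖ = 1) :
    ∑' k : ℤ, c k * DampTI_g q s k * z ^ k = c 0 + (c (-1) * z ^ (-1 : ℤ) + c 1 * (q * z)) +
      ∑' i : ℕ, s i * (c (-((i : ℤ) + 2)) * z ^ (-((i : ℤ) + 2)) +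
        c ((i : ℤ) + 2) * (q ^ (i + 2) * z ^ ((i : ℤ) + 2))) := by
  have hsm : Summable fun k : ℤ => c k * DampTI_g q s k * z ^ k := by
    refine Summable.of_norm_bounded (DampTI_g_summable H) fun k => ?_
    rw [norm_mul, norm_zpow, hz, one_zpow, mul_one, norm_mul]
    exact mul_le_of_le_one_left (norm_nonneg _) (hc k)
  rw [DampTI_split hsm]
  simp only [DampTI_g_zero, DampTI_g_one, DampTI_g_neg_one, DampTI_g_pos, DampTI_g_neg]
  congr 1
  · rw [zpow_zero, zpow_one]
    ring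
  · refine tsum_congr fun i => ?_
    ring

theorem TI_damped {q : ℂ} {s : ℕ → ℂ} (H : HypI (170919 / 100000) (1 / 100000) q s) (N : ℕ) (z : ℂ)
    (hz : ‖z‖ = 1) :
    ‖1 + (dmpR N 1 : ℂ) * (z ^ (-1 : ℤ) + q * z) +
      ∑' i : ℕ, s i * ((dmpR N (i + 2) : ℂ) *
        (z ^ (-((i : ℤ) + 2)) + q ^ (i + 2) * z ^ ((i : ℤ) + 2)))‖ ≤ 170919 / 100000 := by
  rcases Nat.eq_zero_or_pos N with hN | hN
  · subst hN
    have h1 : ∀ k, dmpR 0 k = 1 := fun k => by simp [dmpR]
    simp only [h1, Complex.ofReal_one, one_mul]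
    exact HypI_centered H z hz
  · have hN' : (0 : ℝ) < N := by exact_mod_cast hN
    have hB : ∀ z : ℂ, ‖z‖ = 1 → ‖∑' k : ℤ, DampTI_g q s k * z ^ k‖ ≤ 170919 / 100000 := by
      intro z hz
      have h1 := DampTI_eval H (fun _ => 1) (fun _ => by simp) z hz
      simp only [one_mul] at h1
      rw [h1]
      exact HypI_centered H z hz
    have h2 := fejer_bound (DampTI_g q s) (DampTI_g_summable H) _ hB N hN z hz
    have h3 := DampTI_eval H (fun k => ((((N - k.natAbs : ℕ) : ℝ) / N : ℝ) : ℂ)) (fun k => by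
      rw [Complex.norm_real, Real.norm_of_nonneg (by positivity), div_le_one hN']
      exact_mod_cast Nat.sub_le _ _) z hz
    rw [h3] at h2
    have e0 : ∀ k, (dmpR N k : ℂ) = ((((N - k : ℕ) : ℝ) / N : ℝ) : ℂ) := by
      intro k
      unfold dmpR
      rw [if_neg hN.ne']
    have e1 : ((((N - (0 : ℤ).natAbs : ℕ) : ℝ) / N : ℝ) : ℂ) = 1 := by
      rw [Int.natAbs_zero, Nat.sub_zero, div_self hN'.ne', Complex.ofReal_one]
    have e2 : ∀ i : ℕ, (-((i : ℤ) + 2)).natAbs = i + 2 := fun i => by omega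
    have e3 : ∀ i : ℕ, ((i : ℤ) + 2).natAbs = i + 2 := fun i => by omega
    have e4 : (-1 : ℤ).natAbs = 1 := rfl
    have e5 : (1 : ℤ).natAbs = 1 := rfl
    simp only [e1, e2, e3, e4, e5] at h2
    simp only [e0, mul_add]
    simp only [mul_add] at h2
    exact h2

end Pool.Agent.MaxTerm58
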