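import Pool.Agent.MaxTerm58.HypF3

/-! Geometric tails. -/

namespace Pool.Agent.MaxTerm58

/-- bound of one penalty series, split after `P` terms -/
theorem f3_tail (s v : ℕ → ℂ) (y Y w : ℝ) (hy : 0 ≤ y) (hyY : y ≤ Y) (hY : Y < 1) (P : ℕ)
    (hs : ∀ i, ‖s i‖ ≤ y ^ (i + 1)) (hv : ∀ i, ‖v i‖ ≤ w + Y ^ (i + 2)) (hw : 0 ≤ w) :
    ‖∑' i : ℕ, s i * v i‖ ≤ ∑ i ∈ Finset.range P, y ^ (i + 1) * ‖v i‖ +
      Y ^ (P + 1) / (1 - Y) * (w + Y ^ (P + 2)) := by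
  have hY0 : 0 ≤ Y := hy.trans hyY
  set b : ℕ → ℝ := fun i =>
    if i < P then y ^ (i + 1) * ‖v i‖ else Y ^ (i + 1) * (w + Y ^ (P + 2)) with hb
  have h1 : HasSum (fun n => b (n + P)) (Y ^ (P + 1) / (1 - Y) * (w + Y ^ (P + 2))) := by
    have h2 := (hasSum_geometric_of_lt_one hY0 hY).mul_right (Y ^ (P + 1) * (w + Y ^ (P + 2)))
    have h3 : (fun n => b (n + P)) = fun n => Y ^ n * (Y ^ (P + 1) * (w + Y ^ (P + 2))) := by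
      funext n
      rw [hb]
      simp only
      rw [if_neg (by omega)]
      ring
    have h8 : Y ^ (P + 1) / (1 - Y) * (w + Y ^ (P + 2)) =
        (1 - Y)⁻¹ * (Y ^ (P + 1) * (w + Y ^ (P + 2))) := by
      rw [div_eq_mul_inv]
      ring
    rw [h3, h8]
    exact h2
  have h4 := (hasSum_nat_add_iff P).1 h1
  have h5 : ∑ i ∈ Finset.range P, b i = ∑ i ∈ Finset.range P, y ^ (i + 1) * ‖v i‖ := by
    refine Finset.sum_congr rfl fun i hi => ?_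
    rw [hb]
    simp only
    rw [if_pos (Finset.mem_range.1 hi)]
  rw [h5, add_comm] at h4
  refine tsum_of_norm_bounded h4 fun i => ?_
  rw [norm_mul, hb]
  simp only
  split_ifs with h
  · exact mul_le_mul_of_nonneg_right (hs i) (norm_nonneg _)
  · have h6 : ‖s i‖ ≤ Y ^ (i + 1) := (hs i).trans (pow_le_pow_left₀ hy hyY _)
    have h7 : ‖v i‖ ≤ w + Y ^ (P + 2) := by
      refine (hv i).trans ?_
      have : Y ^ (i + 2) ≤ Y ^ (P + 2) := pow_le_pow_of_le_one hY0 hY.le (by omega)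
      linarith
    exact mul_le_mul h6 h7 (norm_nonneg _) (by positivity)

theorem LL_le (A B C : ℤ → ℂ) (q p : ℂ) (Y wa wb wc : ℝ) (hq : ‖q‖ ≤ Y) (hp : ‖p‖ ≤ 1) (hY : Y ≤ 1)
    (hA : ∀ k, ‖A k‖ ≤ wa) (hB : ∀ k, ‖B k‖ ≤ wb) (hC : ∀ k, ‖C k‖ ≤ wc) (hw : wa + wb + wc ≤ 1)
    (i : ℕ) : ‖LL A B C q p i‖ ≤ wa + Y ^ (i + 2) := by
  unfold LL
  have hwa : 0 ≤ wa := (norm_nonneg _).trans (hA 0)
  have hY0 : 0 ≤ Y := (norm_nonneg _).trans hq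
  have h1 : ‖p ^ (i + 3) * C (-((i : ℤ) + 2))‖ ≤ wc := by
    rw [norm_mul, norm_pow]
    have := pow_le_one₀ (n := i + 3) (norm_nonneg p) hp
    calc ‖p‖ ^ (i + 3) * ‖C (-((i : ℤ) + 2))‖ ≤ 1 * ‖C (-((i : ℤ) + 2))‖ :=
          mul_le_mul_of_nonneg_right this (norm_nonneg _)
      _ ≤ wc := by rw [one_mul]; exact hC _
  have h2 : ‖B (-((i : ℤ) + 2)) + p ^ (i + 3) * C (-((i : ℤ) + 2))‖ ≤ 1 := by
    refine (norm_add_le _ _).trans ?_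
    have := hB (-((i : ℤ) + 2))
    linarith
  have h3 : ‖q ^ (i + 2) * (B (-((i : ℤ) + 2)) + p ^ (i + 3) * C (-((i : ℤ) + 2)))‖ ≤
      Y ^ (i + 2) := by
    rw [norm_mul, norm_pow]
    calc ‖q‖ ^ (i + 2) * ‖B (-((i : ℤ) + 2)) + p ^ (i + 3) * C (-((i : ℤ) + 2))‖
        ≤ Y ^ (i + 2) * 1 := mul_le_mul (pow_le_pow_left₀ (norm_nonneg _) hq _) h2
          (norm_nonneg _) (by positivity)
      _ = Y ^ (i + 2) := mul_one _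
  exact (norm_add_le _ _).trans (add_le_add (hA _) h3)

theorem RR_le (A B C : ℤ → ℂ) (q p : ℂ) (Y wa wb wc : ℝ) (hp : ‖p‖ ≤ Y) (hq : ‖q‖ ≤ 1) (hY : Y ≤ 1)
    (hA : ∀ k, ‖A k‖ ≤ wa) (hB : ∀ k, ‖B k‖ ≤ wb) (hC : ∀ k, ‖C k‖ ≤ wc) (hw : wa + wb + wc ≤ 1)
    (i : ℕ) : ‖RR A B C q p i‖ ≤ wc + Y ^ (i + 2) := by
  unfold RR
  have hwc : 0 ≤ wc := (norm_nonneg _).trans (hC 0)
  have hY0 : 0 ≤ Y := (norm_nonneg _).trans hp
  have h1 : ‖q ^ (i + 3) * A ((i : ℤ) + 3)‖ ≤ wa := by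
    rw [norm_mul, norm_pow]
    have := pow_le_one₀ (n := i + 3) (norm_nonneg q) hq
    calc ‖q‖ ^ (i + 3) * ‖A ((i : ℤ) + 3)‖ ≤ 1 * ‖A ((i : ℤ) + 3)‖ :=
          mul_le_mul_of_nonneg_right this (norm_nonneg _)
      _ ≤ wa := by rw [one_mul]; exact hA _
  have h2 : ‖B ((i : ℤ) + 3) + q ^ (i + 3) * A ((i : ℤ) + 3)‖ ≤ 1 := by
    refine (norm_add_le _ _).trans ?_
    have := hB ((i : ℤ) + 3)
    linarith
  have h3 : ‖p ^ (i + 2) * (B ((i : ℤ) + 3) + q ^ (i + 3) * A ((i : ℤ) + 3))‖ ≤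
      Y ^ (i + 2) := by
    rw [norm_mul, norm_pow]
    calc ‖p‖ ^ (i + 2) * ‖B ((i : ℤ) + 3) + q ^ (i + 3) * A ((i : ℤ) + 3)‖
        ≤ Y ^ (i + 2) * 1 := mul_le_mul (pow_le_pow_left₀ (norm_nonneg _) hp _) h2
          (norm_nonneg _) (by positivity)
      _ = Y ^ (i + 2) := mul_one _
  exact (norm_add_le _ _).trans (add_le_add (hC _) h3)

end Pool.Agent.MaxTerm58
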