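import Pool.Agent.MaxTerm58.DualInf
import Pool.Agent.MaxTerm58.DualTail

/-! Hints: `f3_dual_inf` and two applications of `f3_tail` with `y = ||q|| + 1/100000`; `y^(i+1) <= 1.001 * ||q||^(i+1)` for `i + 1 <= 33`
(`(1 + 1/34000)^33 <= 1.001`); `||lamC nd k|| <= wtC nd` is `lamC_le`. -/

namespace Pool.Agent.MaxTerm58

private theorem Dual_pow {t : ℝ} (ht : 17 / 50 ≤ t) (n : ℕ) (hn : n ≤ 33) :
    (t + 1 / 100000) ^ n ≤ 1001 / 1000 * t ^ n := by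
  have h0 : 0 < t := by linarith
  have h1 : t + 1 / 100000 ≤ (34001 / 34000) * t := by linarith
  calc (t + 1 / 100000) ^ n ≤ ((34001 / 34000) * t) ^ n := by gcongr
    _ = (34001 / 34000) ^ n * t ^ n := by rw [mul_pow]
    _ ≤ (34001 / 34000) ^ 33 * t ^ n := by
        gcongr
        norm_num
    _ ≤ 1001 / 1000 * t ^ n := by
        gcongr
        norm_num

private theorem Dual_wt_nonneg (nd : List (ℂ × ℂ)) : 0 ≤ wtC nd := by
  unfold wtC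
  apply List.sum_nonneg
  intro x hx
  obtain ⟨y, -, rfl⟩ := List.mem_map.1 hx
  exact norm_nonneg _

/-- the dual inequality with finitely many terms and a geometric tail -/
theorem f3_dual {q p : ℂ} {l r : ℕ → ℂ} (H : HypF3 q p l r) (hq : 17 / 50 ≤ ‖q‖) (a b e : List (ℂ × ℂ))
    (ha : ∀ x ∈ a, ‖x.1‖ = 1) (hb : ∀ x ∈ b, ‖x.1‖ = 1) (he : ∀ x ∈ e, ‖x.1‖ = 1)
    (hw : wtC a + wtC b + wtC e ≤ 1) (P : ℕ) (hP : P ≤ 33) (Y : ℝ) (hY : ‖q‖ + 1 / 100000 ≤ Y)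
    (hY1 : Y < 1) :
    (mainF (lamC a) (lamC b) (lamC e) q p).re ≤ 170919 / 100000 +
      1001 / 1000 * ∑ i ∈ Finset.range P, ‖q‖ ^ (i + 1) *
        (‖LL (lamC a) (lamC b) (lamC e) q p i‖ + ‖RR (lamC a) (lamC b) (lamC e) q p i‖) +
      Y ^ (P + 1) / (1 - Y) * (wtC a + wtC e + 2 * Y ^ (P + 2)) := by
  have hqY : ‖q‖ ≤ Y := by linarith
  have hpY : ‖p‖ ≤ Y := H.p_le.trans hY
  have hy0 : 0 ≤ ‖q‖ + 1 / 100000 := by positivity
  have h0 := f3_dual_inf H a b e ha hb he hw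
  have h1 := f3_tail l (LL (lamC a) (lamC b) (lamC e) q p) (‖q‖ + 1 / 100000) Y (wtC a) hy0 hY hY1 P
    H.sl (fun i => LL_le _ _ _ q p Y (wtC a) (wtC b) (wtC e) hqY (hpY.trans hY1.le) hY1.le
      (lamC_le a ha) (lamC_le b hb) (lamC_le e he) hw i) (Dual_wt_nonneg a)
  have h2 := f3_tail r (RR (lamC a) (lamC b) (lamC e) q p) (‖q‖ + 1 / 100000) Y (wtC e) hy0 hY hY1 P
    H.sr (fun i => RR_le _ _ _ q p Y (wtC a) (wtC b) (wtC e) hpY (hqY.trans hY1.le) hY1.le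
      (lamC_le a ha) (lamC_le b hb) (lamC_le e he) hw i) (Dual_wt_nonneg e)
  have h3 : ∑ i ∈ Finset.range P, (‖q‖ + 1 / 100000) ^ (i + 1) *
        ‖LL (lamC a) (lamC b) (lamC e) q p i‖ +
      ∑ i ∈ Finset.range P, (‖q‖ + 1 / 100000) ^ (i + 1) *
        ‖RR (lamC a) (lamC b) (lamC e) q p i‖ ≤
      1001 / 1000 * ∑ i ∈ Finset.range P, ‖q‖ ^ (i + 1) *
        (‖LL (lamC a) (lamC b) (lamC e) q p i‖ + ‖RR (lamC a) (lamC b) (lamC e) q p i‖) := by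
    rw [← Finset.sum_add_distrib, Finset.mul_sum]
    apply Finset.sum_le_sum
    intro i hi
    have hi' : i + 1 ≤ 33 := by
      have := Finset.mem_range.1 hi
      omega
    have h4 := Dual_pow hq (i + 1) hi'
    calc (‖q‖ + 1 / 100000) ^ (i + 1) * ‖LL (lamC a) (lamC b) (lamC e) q p i‖ +
          (‖q‖ + 1 / 100000) ^ (i + 1) * ‖RR (lamC a) (lamC b) (lamC e) q p i‖
        = (‖q‖ + 1 / 100000) ^ (i + 1) *
          (‖LL (lamC a) (lamC b) (lamC e) q p i‖ + ‖RR (lamC a) (lamC b) (lamC e) q p i‖) := by ring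
      _ ≤ (1001 / 1000 * ‖q‖ ^ (i + 1)) *
          (‖LL (lamC a) (lamC b) (lamC e) q p i‖ + ‖RR (lamC a) (lamC b) (lamC e) q p i‖) := by
          gcongr
      _ = _ := by ring
  have h5 : Y ^ (P + 1) / (1 - Y) * (wtC a + wtC e + 2 * Y ^ (P + 2)) =
      Y ^ (P + 1) / (1 - Y) * (wtC a + Y ^ (P + 2)) +
        Y ^ (P + 1) / (1 - Y) * (wtC e + Y ^ (P + 2)) := by ring
  linarith

end Pool.Agent.MaxTerm58
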