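import Pool.Agent.MaxTerm58.HypF3

/-! The functional `sum_A h gA(z) + sum_B h gB(z) + sum_C h gC(z)`. Hints: its modulus is at most `B * (wtC a + wtC b + wtC e)`;
exchange the finite sum over the nodes with `tsum` (all series converge absolutely: `||l i|| <= Y^(i+1)`, `Y < 1`, `||p||, ||q|| <= Y`). -/

namespace Pool.Agent.MaxTerm58

private theorem DualInf_nil (k : ℤ) : lamC [] k = 0 := rfl

private theorem DualInf_cons (x : ℂ × ℂ) (t : List (ℂ × ℂ)) (k : ℤ) :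
    lamC (x :: t) k = x.2 * x.1 ^ k + lamC t k := by
  simp [lamC]

private theorem DualInf_wt (x : ℂ × ℂ) (t : List (ℂ × ℂ)) :
    wtC (x :: t) = ‖x.2‖ + wtC t := by
  simp [wtC]

theorem lamC_le (nd : List (ℂ × ℂ)) (h : ∀ x ∈ nd, ‖x.1‖ = 1) (k : ℤ) : ‖lamC nd k‖ ≤ wtC nd := by
  induction nd with
  | nil => simp [lamC, wtC]
  | cons x t ih =>
    rw [DualInf_cons, DualInf_wt]
    refine (norm_add_le _ _).trans (add_le_add ?_ (ih fun y hy => h y (List.mem_cons_of_mem _ hy)))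
    rw [norm_mul, norm_zpow, h x List.mem_cons_self, one_zpow, mul_one]

private theorem DualInf_wt_nonneg (nd : List (ℂ × ℂ)) : 0 ≤ wtC nd := by
  induction nd with
  | nil => simp [wtC]
  | cons x t ih =>
    rw [DualInf_wt]
    exact add_nonneg (norm_nonneg _) ih

private theorem DualInf_summable (nd : List (ℂ × ℂ)) (h : ∀ x ∈ nd, ‖x.1‖ = 1) {c : ℕ → ℂ}
    (hc : Summable fun i => ‖c i‖) (k : ℕ → ℤ) : Summable fun i => c i * lamC nd (k i) := by
  refine Summable.of_norm_bounded (hc.mul_right (wtC nd)) fun i => ?_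
  rw [norm_mul]
  exact mul_le_mul_of_nonneg_left (lamC_le nd h _) (norm_nonneg _)

private theorem DualInf_tsum (nd : List (ℂ × ℂ)) (h : ∀ x ∈ nd, ‖x.1‖ = 1) {c : ℕ → ℂ}
    (hc : Summable fun i => ‖c i‖) (k : ℕ → ℤ) :
    (nd.map fun x => x.2 * ∑' i, c i * x.1 ^ (k i)).sum = ∑' i, c i * lamC nd (k i) := by
  induction nd with
  | nil => simp [lamC]
  | cons x t ih =>
    have ht : ∀ y ∈ t, ‖y.1‖ = 1 := fun y hy => h y (List.mem_cons_of_mem _ hy)
    rw [List.map_cons, List.sum_cons, ih ht, ← tsum_mul_left]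
    have h1 : Summable fun i => x.2 * (c i * x.1 ^ (k i)) := by
      refine Summable.mul_left _ (Summable.of_norm ?_)
      refine hc.congr fun i => ?_
      rw [norm_mul, norm_zpow, h x List.mem_cons_self, one_zpow, mul_one]
    rw [← h1.tsum_add (DualInf_summable t ht hc k)]
    refine tsum_congr fun i => ?_
    rw [DualInf_cons]
    ring

private theorem DualInf_eval (nd : List (ℂ × ℂ)) (h : ∀ x ∈ nd, ‖x.1‖ = 1) {L R : ℕ → ℂ}
    (hL : Summable fun i => ‖L i‖) (hR : Summable fun i => ‖R i‖) (c1 c2 c3 c4 : ℂ) {g : ℂ → ℂ}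
    (hg : ∀ z, g z = c1 * z ^ (-1 : ℤ) + c2 + c3 * z + c4 * z ^ 2 +
      (∑' i : ℕ, L i * z ^ (-((i : ℤ) + 2))) + ∑' i : ℕ, R i * z ^ ((i : ℤ) + 3)) :
    (nd.map fun x => x.2 * g x.1).sum = c1 * lamC nd (-1) + c2 * lamC nd 0 + c3 * lamC nd 1 +
      c4 * lamC nd 2 + (∑' i : ℕ, L i * lamC nd (-((i : ℤ) + 2))) +
        ∑' i : ℕ, R i * lamC nd ((i : ℤ) + 3) := by
  rw [← DualInf_tsum nd h hL, ← DualInf_tsum nd h hR]
  clear h
  induction nd with
  | nil => simp [lamC]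
  | cons x t ih =>
    have h2 : x.1 ^ (2 : ℤ) = x.1 ^ 2 := by norm_cast
    rw [List.map_cons, List.sum_cons, ih, hg x.1]
    simp only [List.map_cons, List.sum_cons, DualInf_cons, zpow_zero, zpow_one, h2]
    ring

private theorem DualInf_norm (nd : List (ℂ × ℂ)) (h : ∀ x ∈ nd, ‖x.1‖ = 1) {g : ℂ → ℂ} {B : ℝ}
    (hg : ∀ z : ℂ, ‖z‖ = 1 → ‖g z‖ ≤ B) :
    ‖(nd.map fun x => x.2 * g x.1).sum‖ ≤ B * wtC nd := by
  induction nd with
  | nil => simp [wtC]
  | cons x t ih =>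
    rw [List.map_cons, List.sum_cons, DualInf_wt, mul_add]
    refine (norm_add_le _ _).trans (add_le_add ?_ (ih fun y hy => h y (List.mem_cons_of_mem _ hy)))
    rw [norm_mul, mul_comm]
    exact mul_le_mul_of_nonneg_right (hg _ (h x List.mem_cons_self)) (norm_nonneg _)

/-- The functional applied to the three corner functions. -/
theorem f3_dual_inf {q p : ℂ} {l r : ℕ → ℂ} (H : HypF3 q p l r) (a b e : List (ℂ × ℂ))
    (ha : ∀ x ∈ a, ‖x.1‖ = 1) (hb : ∀ x ∈ b, ‖x.1‖ = 1) (he : ∀ x ∈ e, ‖x.1‖ = 1)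
    (hw : wtC a + wtC b + wtC e ≤ 1) :
    (mainF (lamC a) (lamC b) (lamC e) q p).re ≤ 170919 / 100000 +
      ‖∑' i : ℕ, l i * LL (lamC a) (lamC b) (lamC e) q p i‖ +
      ‖∑' i : ℕ, r i * RR (lamC a) (lamC b) (lamC e) q p i‖ := by
  have hY0 : 0 ≤ ‖q‖ + 1 / 100000 := by positivity
  have hY1 := H.q_lt
  have hq1 : ‖q‖ ≤ 1 := by linarith
  have hp1 : ‖p‖ ≤ 1 := H.p_le.trans hY1.le
  have hsY : Summable fun i : ℕ => (‖q‖ + 1 / 100000) ^ (i + 1) :=
    (summable_nat_add_iff 1).2 (summable_geometric_of_lt_one hY0 hY1)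
  have hl : Summable fun i => ‖l i‖ := Summable.of_nonneg_of_le (fun _ => norm_nonneg _) H.sl hsY
  have hr : Summable fun i => ‖r i‖ := Summable.of_nonneg_of_le (fun _ => norm_nonneg _) H.sr hsY
  have key : ∀ {u m : ℕ → ℂ}, (Summable fun i => ‖u i‖) → (∀ i, ‖m i‖ ≤ 1) →
      Summable fun i => ‖u i * m i‖ := by
    intro u m hu hm
    refine Summable.of_nonneg_of_le (fun _ => norm_nonneg _) (fun i => ?_) hu
    rw [norm_mul]
    exact mul_le_of_le_one_right (norm_nonneg _) (hm i)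
  have m1 : ∀ i : ℕ, ‖q ^ (i + 3) * p ^ (i + 2)‖ ≤ 1 := fun i => by
    rw [norm_mul, norm_pow, norm_pow]
    exact mul_le_one₀ (pow_le_one₀ (norm_nonneg _) hq1) (by positivity)
      (pow_le_one₀ (norm_nonneg _) hp1)
  have m2 : ∀ i : ℕ, ‖q ^ (i + 2)‖ ≤ 1 := fun i => by
    rw [norm_pow]
    exact pow_le_one₀ (norm_nonneg _) hq1
  have m3 : ∀ i : ℕ, ‖p ^ (i + 2)‖ ≤ 1 := fun i => by
    rw [norm_pow]
    exact pow_le_one₀ (norm_nonneg _) hp1
  have m4 : ∀ i : ℕ, ‖q ^ (i + 2) * p ^ (i + 3)‖ ≤ 1 := fun i => by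
    rw [norm_mul, norm_pow, norm_pow]
    exact mul_le_one₀ (pow_le_one₀ (norm_nonneg _) hq1) (by positivity)
      (pow_le_one₀ (norm_nonneg _) hp1)
  have eA := DualInf_eval a ha hl (key hr m1) 1 1 q (q ^ 2 * p) (g := gA q p l r)
    (fun z => by rw [gA, one_mul])
  have eB := DualInf_eval b hb (key hl m2) (key hr m3) q 1 1 p (g := gB q p l r)
    (fun z => by rw [gB, one_mul])
  have eC := DualInf_eval e he (key hl m4) hr (q * p ^ 2) p 1 1 (g := gC q p l r)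
    (fun z => by rw [gC, one_mul, one_mul])
  have nA := DualInf_norm a ha H.bA
  have nB := DualInf_norm b hb H.bB
  have nC := DualInf_norm e he H.bC
  have sL : ∑' i : ℕ, l i * LL (lamC a) (lamC b) (lamC e) q p i =
      (∑' i : ℕ, l i * lamC a (-((i : ℤ) + 2))) +
      (∑' i : ℕ, l i * q ^ (i + 2) * lamC b (-((i : ℤ) + 2))) +
      ∑' i : ℕ, l i * (q ^ (i + 2) * p ^ (i + 3)) * lamC e (-((i : ℤ) + 2)) := by
    have s1 := DualInf_summable a ha hl (fun i : ℕ => -((i : ℤ) + 2))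
    have s2 := DualInf_summable b hb (key hl m2) (fun i : ℕ => -((i : ℤ) + 2))
    have s3 := DualInf_summable e he (key hl m4) (fun i : ℕ => -((i : ℤ) + 2))
    rw [← s1.tsum_add s2, ← (s1.add s2).tsum_add s3]
    refine tsum_congr fun i => ?_
    unfold LL
    ring
  have sR : ∑' i : ℕ, r i * RR (lamC a) (lamC b) (lamC e) q p i =
      (∑' i : ℕ, r i * (q ^ (i + 3) * p ^ (i + 2)) * lamC a ((i : ℤ) + 3)) +
      (∑' i : ℕ, r i * p ^ (i + 2) * lamC b ((i : ℤ) + 3)) +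
      ∑' i : ℕ, r i * lamC e ((i : ℤ) + 3) := by
    have s1 := DualInf_summable a ha (key hr m1) (fun i : ℕ => (i : ℤ) + 3)
    have s2 := DualInf_summable b hb (key hr m3) (fun i : ℕ => (i : ℤ) + 3)
    have s3 := DualInf_summable e he hr (fun i : ℕ => (i : ℤ) + 3)
    rw [← s1.tsum_add s2, ← (s1.add s2).tsum_add s3]
    refine tsum_congr fun i => ?_
    unfold RR
    ring
  have hmain : mainF (lamC a) (lamC b) (lamC e) q p =
      ((a.map fun x => x.2 * gA q p l r x.1).sum + (b.map fun x => x.2 * gB q p l r x.1).sum +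
        (e.map fun x => x.2 * gC q p l r x.1).sum) -
      (∑' i : ℕ, l i * LL (lamC a) (lamC b) (lamC e) q p i) -
      ∑' i : ℕ, r i * RR (lamC a) (lamC b) (lamC e) q p i := by
    rw [eA, eB, eC, sL, sR]
    unfold mainF
    ring
  have hn : ‖mainF (lamC a) (lamC b) (lamC e) q p‖ ≤ 170919 / 100000 +
      ‖∑' i : ℕ, l i * LL (lamC a) (lamC b) (lamC e) q p i‖ +
      ‖∑' i : ℕ, r i * RR (lamC a) (lamC b) (lamC e) q p i‖ := by
    rw [hmain]
    refine (norm_sub_le _ _).trans (add_le_add ?_ le_rfl)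
    refine (norm_sub_le _ _).trans (add_le_add ?_ le_rfl)
    refine (norm_add₃_le).trans ?_
    have w1 := DualInf_wt_nonneg a
    have w2 := DualInf_wt_nonneg b
    have w3 := DualInf_wt_nonneg e
    nlinarith
  exact (Complex.re_le_norm _).trans hn

end Pool.Agent.MaxTerm58
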