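import Pool.Agent.MaxTerm58.Box

/-! Polynomials in two complex parameters, given by lists of monomials. Hints: `avg_mono` for every monomial, triangle inequality. -/

namespace Pool.Agent.MaxTerm58

/-- value -/
noncomputable def pval (f : List (ℂ × ℕ × ℕ)) (q t : ℂ) : ℂ :=
  (f.map fun x => x.1 * (q ^ x.2.1 * t ^ x.2.2)).sum

/-- interpolation error -/
noncomputable def perr (f : List (ℂ × ℕ × ℕ)) (ρ σ h k : ℝ) : ℝ :=
  (f.map fun x => ‖x.1‖ * errR ρ σ h k x.2.1 x.2.2).sum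

/-- crude bound -/
noncomputable def pabs (f : List (ℂ × ℕ × ℕ)) (ρ σ : ℝ) : ℝ :=
  (f.map fun x => ‖x.1‖ * (ρ ^ x.2.1 * σ ^ x.2.2)).sum

private theorem GenPoly_pval_cons (x : ℂ × ℕ × ℕ) (f : List (ℂ × ℕ × ℕ)) (q t : ℂ) :
    pval (x :: f) q t = x.1 * (q ^ x.2.1 * t ^ x.2.2) + pval f q t := by
  simp [pval]

private theorem GenPoly_perr_cons (x : ℂ × ℕ × ℕ) (f : List (ℂ × ℕ × ℕ)) (ρ σ h k : ℝ) :
    perr (x :: f) ρ σ h k = ‖x.1‖ * errR ρ σ h k x.2.1 x.2.2 + perr f ρ σ h k := by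
  simp [perr]

private theorem GenPoly_pabs_cons (x : ℂ × ℕ × ℕ) (f : List (ℂ × ℕ × ℕ)) (ρ σ : ℝ) :
    pabs (x :: f) ρ σ = ‖x.1‖ * (ρ ^ x.2.1 * σ ^ x.2.2) + pabs f ρ σ := by
  simp [pabs]

theorem pval_le_pabs (f : List (ℂ × ℕ × ℕ)) (q t : ℂ) (ρ σ : ℝ) (hq : ‖q‖ ≤ ρ) (ht : ‖t‖ ≤ σ) :
    ‖pval f q t‖ ≤ pabs f ρ σ := by
  induction f with
  | nil => simp [pval, pabs]
  | cons x f ih =>
    rw [GenPoly_pval_cons, GenPoly_pabs_cons]
    refine (norm_add_le _ _).trans (add_le_add ?_ ih)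
    rw [norm_mul, norm_mul, norm_pow, norm_pow]
    have hρ : 0 ≤ ρ := (norm_nonneg q).trans hq
    refine mul_le_mul_of_nonneg_left ?_ (norm_nonneg _)
    exact mul_le_mul (pow_le_pow_left₀ (norm_nonneg _) hq _) (pow_le_pow_left₀ (norm_nonneg _) ht _)
      (by positivity) (by positivity)

private theorem GenPoly_nat (a : ℕ) : (0 : ℝ) ≤ (a : ℝ) * ((a : ℝ) - 1) := by
  rcases Nat.eq_zero_or_pos a with rfl | h
  · simp
  · have : (1 : ℝ) ≤ a := by exact_mod_cast h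
    exact mul_nonneg (by linarith) (by linarith)

private theorem GenPoly_errR {ρ σ h k : ℝ} (hρ : 0 ≤ ρ) (hσ : 0 ≤ σ) (hh : 0 ≤ h) (hk : 0 ≤ k)
    (a b : ℕ) : 0 ≤ errR ρ σ h k a b := by
  have h1 := GenPoly_nat a
  have h2 := GenPoly_nat b
  unfold errR
  positivity

theorem perr_nonneg (f : List (ℂ × ℕ × ℕ)) (ρ σ h k : ℝ) (hρ : 0 ≤ ρ) (hσ : 0 ≤ σ) (hh : 0 ≤ h)
    (hk : 0 ≤ k) : 0 ≤ perr f ρ σ h k := by
  induction f with
  | nil => simp [perr]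
  | cons x f ih =>
    rw [GenPoly_perr_cons]
    exact add_nonneg (mul_nonneg (norm_nonneg _) (GenPoly_errR hρ hσ hh hk _ _)) ih

theorem gen_avg {w v : Fin 4 → ℝ} {z y : Fin 4 → ℂ} {q p : ℂ} {ρ σ hq2 hp2 : ℝ}
    (H : BoxAvg w v z y q p ρ σ hq2 hp2) (f : List (ℂ × ℕ × ℕ)) :
    ‖∑ i, ∑ j, (w i : ℂ) * (v j : ℂ) * pval f (z i) (y j) - pval f q p‖ ≤ perr f ρ σ hq2 hp2 := by
  induction f with
  | nil => simp [pval, perr]
  | cons x f ih =>
    have e := avg_mono w v H.w0 H.w1 H.v0 H.v1 z y q p H.hq H.hp hq2 hp2 ρ σ H.hV H.hV' H.hz H.hy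
      x.2.1 x.2.2
    have hs : ∑ i, ∑ j, (w i : ℂ) * (v j : ℂ) * pval (x :: f) (z i) (y j) - pval (x :: f) q p =
        x.1 * (∑ i, ∑ j, (w i : ℂ) * (v j : ℂ) * (z i ^ x.2.1 * y j ^ x.2.2) -
          q ^ x.2.1 * p ^ x.2.2) +
        (∑ i, ∑ j, (w i : ℂ) * (v j : ℂ) * pval f (z i) (y j) - pval f q p) := by
      have h1 : ∑ i, ∑ j, (w i : ℂ) * (v j : ℂ) * pval (x :: f) (z i) (y j) =
          x.1 * ∑ i, ∑ j, (w i : ℂ) * (v j : ℂ) * (z i ^ x.2.1 * y j ^ x.2.2) +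
          ∑ i, ∑ j, (w i : ℂ) * (v j : ℂ) * pval f (z i) (y j) := by
        simp only [Finset.mul_sum, ← Finset.sum_add_distrib]
        refine Finset.sum_congr rfl fun i _ => Finset.sum_congr rfl fun j _ => ?_
        rw [GenPoly_pval_cons]
        ring
      rw [h1, GenPoly_pval_cons]
      ring
    rw [hs, GenPoly_perr_cons]
    refine (norm_add_le _ _).trans (add_le_add ?_ ih)
    rw [norm_mul]
    exact mul_le_mul_of_nonneg_left e (norm_nonneg _)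

theorem gen_norm {w v : Fin 4 → ℝ} {z y : Fin 4 → ℂ} {q p : ℂ} {ρ σ hq2 hp2 : ℝ}
    (H : BoxAvg w v z y q p ρ σ hq2 hp2) (f : List (ℂ × ℕ × ℕ)) :
    ‖pval f q p‖ ≤ ∑ i, ∑ j, w i * v j * ‖pval f (z i) (y j)‖ + perr f ρ σ hq2 hp2 := by
  have h := gen_avg H f
  have h1 : ‖∑ i, ∑ j, (w i : ℂ) * (v j : ℂ) * pval f (z i) (y j)‖ ≤
      ∑ i, ∑ j, w i * v j * ‖pval f (z i) (y j)‖ := by
    refine (norm_sum_le _ _).trans (Finset.sum_le_sum fun i _ => ?_)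
    refine (norm_sum_le _ _).trans (Finset.sum_le_sum fun j _ => ?_)
    rw [norm_mul, norm_mul, Complex.norm_real, Complex.norm_real, Real.norm_eq_abs,
      Real.norm_eq_abs, abs_of_nonneg (H.w0 i), abs_of_nonneg (H.v0 j)]
  have h2 : ‖pval f q p‖ ≤ ‖∑ i, ∑ j, (w i : ℂ) * (v j : ℂ) * pval f (z i) (y j)‖ +
      ‖∑ i, ∑ j, (w i : ℂ) * (v j : ℂ) * pval f (z i) (y j) - pval f q p‖ := by
    have h3 := norm_sub_le (∑ i, ∑ j, (w i : ℂ) * (v j : ℂ) * pval f (z i) (y j))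
      (∑ i, ∑ j, (w i : ℂ) * (v j : ℂ) * pval f (z i) (y j) - pval f q p)
    rwa [sub_sub_cancel] at h3
  linarith

theorem gen_re {w v : Fin 4 → ℝ} {z y : Fin 4 → ℂ} {q p : ℂ} {ρ σ hq2 hp2 : ℝ}
    (H : BoxAvg w v z y q p ρ σ hq2 hp2) (f : List (ℂ × ℕ × ℕ)) :
    ∑ i, ∑ j, w i * v j * (pval f (z i) (y j)).re ≤ (pval f q p).re + perr f ρ σ hq2 hp2 := by
  have h := gen_avg H f
  have hre : ∑ i, ∑ j, w i * v j * (pval f (z i) (y j)).re =
      (∑ i, ∑ j, (w i : ℂ) * (v j : ℂ) * pval f (z i) (y j)).re := by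
    simp only [Complex.re_sum]
    refine Finset.sum_congr rfl fun i _ => Finset.sum_congr rfl fun j _ => ?_
    rw [← Complex.ofReal_mul, Complex.re_ofReal_mul]
  have h1 := (Complex.re_le_norm _).trans h
  rw [Complex.sub_re] at h1
  rw [hre]
  linarith

private theorem GenPoly_pen {w v : Fin 4 → ℝ} {z y : Fin 4 → ℂ} {q p : ℂ} {ρ σ hq2 hp2 : ℝ}
    (H : BoxAvg w v z y q p ρ σ hq2 hp2) (L : List (ℝ × List (ℂ × ℕ × ℕ)))
    (hL : ∀ x ∈ L, 0 ≤ x.1) :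
    (L.map fun x => x.1 * ‖pval x.2 q p‖).sum ≤
      ∑ i, ∑ j, w i * v j * (L.map fun x => x.1 * ‖pval x.2 (z i) (y j)‖).sum +
      (L.map fun x => x.1 * perr x.2 ρ σ hq2 hp2).sum := by
  induction L with
  | nil => simp
  | cons x L ih =>
    have ih' := ih fun y hy => hL y (List.mem_cons_of_mem _ hy)
    have hx : 0 ≤ x.1 := hL x List.mem_cons_self
    have h1 := mul_le_mul_of_nonneg_left (gen_norm H x.2) hx
    have h2 : ∑ i, ∑ j, w i * v j *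
        (x.1 * ‖pval x.2 (z i) (y j)‖ + (L.map fun x => x.1 * ‖pval x.2 (z i) (y j)‖).sum) =
        x.1 * ∑ i, ∑ j, w i * v j * ‖pval x.2 (z i) (y j)‖ +
        ∑ i, ∑ j, w i * v j * (L.map fun x => x.1 * ‖pval x.2 (z i) (y j)‖).sum := by
      simp only [Finset.mul_sum, ← Finset.sum_add_distrib]
      refine Finset.sum_congr rfl fun i _ => Finset.sum_congr rfl fun j _ => ?_
      ring
    simp only [List.map_cons, List.sum_cons]
    rw [h2]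
    rw [mul_add] at h1
    linarith

/-- lower bound on a box from the values at the vertices, for any nonnegative weights of the penalties -/
theorem gen_box {w v : Fin 4 → ℝ} {z y : Fin 4 → ℂ} {q p : ℂ} {ρ σ hq2 hp2 : ℝ}
    (H : BoxAvg w v z y q p ρ σ hq2 hp2) (f0 : List (ℂ × ℕ × ℕ)) (L : List (ℝ × List (ℂ × ℕ × ℕ)))
    (hL : ∀ x ∈ L, 0 ≤ x.1) (m : ℝ)
    (h : ∀ i j, m ≤ (pval f0 (z i) (y j)).re - (L.map fun x => x.1 * ‖pval x.2 (z i) (y j)‖).sum) :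
    m ≤ (pval f0 q p).re - (L.map fun x => x.1 * ‖pval x.2 q p‖).sum + perr f0 ρ σ hq2 hp2 +
      (L.map fun x => x.1 * perr x.2 ρ σ hq2 hp2).sum := by
  have h0 := gen_re H f0
  have hm : m ≤ ∑ i, ∑ j, w i * v j * ((pval f0 (z i) (y j)).re -
      (L.map fun x => x.1 * ‖pval x.2 (z i) (y j)‖).sum) := by
    have h1 : m = ∑ i, ∑ j, w i * v j * m := by
      simp only [← Finset.sum_mul, ← Finset.mul_sum, H.w1, H.v1, one_mul, mul_one]
    calc m = ∑ i, ∑ j, w i * v j * m := h1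
      _ ≤ _ := Finset.sum_le_sum fun i _ => Finset.sum_le_sum fun j _ =>
        mul_le_mul_of_nonneg_left (h i j) (mul_nonneg (H.w0 i) (H.v0 j))
  have hsplit : ∑ i, ∑ j, w i * v j * ((pval f0 (z i) (y j)).re -
      (L.map fun x => x.1 * ‖pval x.2 (z i) (y j)‖).sum) =
      ∑ i, ∑ j, w i * v j * (pval f0 (z i) (y j)).re -
      ∑ i, ∑ j, w i * v j * (L.map fun x => x.1 * ‖pval x.2 (z i) (y j)‖).sum := by
    simp only [mul_sub, Finset.sum_sub_distrib]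
  rw [hsplit] at hm
  have hpen := GenPoly_pen H L hL
  linarith

end Pool.Agent.MaxTerm58
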