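import Pool.Agent.MaxTerm58.HypS
import Pool.Agent.MaxTerm58.GenPoly
import Pool.Agent.MaxTerm58.DualInf
import Pool.Agent.MaxTerm58.DualTail

/-! The dual inequalities of the family S. Hints: `s_dual_inf` as `f3_dual_inf` (DualInf.lean): sum of `h * corner(z)` over
the nodes; `||l i|| * ||cL|| <= ||t||^(i+1) ||cL|| = ||pval (fL ..)||`; every coefficient is at most
`wtC a + wtC b + wtC e <= 1` in modulus, so the tails are geometric; in `s_dual_B` take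
`c i = ||r i|| / sqrt (D'^(i+1))` (`D' > 0` since `||q|| >= 17/50`). -/

namespace Pool.Agent.MaxTerm58

/-- the main term -/
noncomputable def f0S (A B C : ℤ → ℂ) : List (ℂ × ℕ × ℕ) :=
  [(A (-2) + (C 2 + A (-1)) + (B (-1) + (B 0 + C 0)), 0, 0), (A 0 + B (-2), 1, 0), (A 2, 3, 2),
    (B 2, 0, 2), (C (-2), 1, 2), (C (-1), 0, 1)]

/-- `t^(i+1)` times the coefficient of `l i` -/
noncomputable def fLS (A B C : ℤ → ℂ) (i : ℕ) : List (ℂ × ℕ × ℕ) :=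
  [(A (-((i : ℤ) + 3)), 0, i + 1), (B (-((i : ℤ) + 3)), i + 2, i + 1), (C (-((i : ℤ) + 3)), i + 2, 2 * i + 4)]

/-- `q^a` times the coefficient of `r i` -/
noncomputable def fRS (A B C : ℤ → ℂ) (a i : ℕ) : List (ℂ × ℕ × ℕ) :=
  [(C ((i : ℤ) + 3), a, 0), (B ((i : ℤ) + 3), a, i + 3), (A ((i : ℤ) + 3), a + (i + 4), i + 3)]

/-- the coefficient of `r1` -/
noncomputable def fR1S (A B C : ℤ → ℂ) : List (ℂ × ℕ × ℕ) := [(C 1, 0, 0), (B 1, 0, 1), (A 1, 2, 1)]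

noncomputable def cLS (A B C : ℤ → ℂ) (q t : ℂ) (i : ℕ) : ℂ :=
  A (-((i : ℤ) + 3)) + q ^ (i + 2) * (B (-((i : ℤ) + 3)) + t ^ (i + 3) * C (-((i : ℤ) + 3)))

noncomputable def cRS (A B C : ℤ → ℂ) (q t : ℂ) (i : ℕ) : ℂ :=
  C ((i : ℤ) + 3) + t ^ (i + 3) * (B ((i : ℤ) + 3) + q ^ (i + 4) * A ((i : ℤ) + 3))

/-- weights of the penalties of `l i` -/
noncomputable def wLS (sT : ℝ) (i : ℕ) : ℝ := if i = 0 then sT else 1

private theorem DualS_nil (k : ℤ) : lamC [] k = 0 := rfl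

private theorem DualS_cons (x : ℂ × ℂ) (t : List (ℂ × ℂ)) (k : ℤ) :
    lamC (x :: t) k = x.2 * x.1 ^ k + lamC t k := by
  simp [lamC]

private theorem DualS_wt (x : ℂ × ℂ) (t : List (ℂ × ℂ)) :
    wtC (x :: t) = ‖x.2‖ + wtC t := by
  simp [wtC]

private theorem DualS_wt_nonneg (nd : List (ℂ × ℂ)) : 0 ≤ wtC nd := by
  induction nd with
  | nil => simp [wtC]
  | cons x t ih =>
    rw [DualS_wt]
    exact add_nonneg (norm_nonneg _) ih

private theorem DualS_summable (nd : List (ℂ × ℂ)) (h : ∀ x ∈ nd, ‖x.1‖ = 1) {c : ℕ → ℂ}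
    (hc : Summable fun i => ‖c i‖) (k : ℕ → ℤ) : Summable fun i => c i * lamC nd (k i) := by
  refine Summable.of_norm_bounded (hc.mul_right (wtC nd)) fun i => ?_
  rw [norm_mul]
  exact mul_le_mul_of_nonneg_left (lamC_le nd h _) (norm_nonneg _)

private theorem DualS_tsum (nd : List (ℂ × ℂ)) (h : ∀ x ∈ nd, ‖x.1‖ = 1) {c : ℕ → ℂ}
    (hc : Summable fun i => ‖c i‖) (k : ℕ → ℤ) :
    (nd.map fun x => x.2 * ∑' i, c i * x.1 ^ (k i)).sum = ∑' i, c i * lamC nd (k i) := by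
  induction nd with
  | nil => simp [lamC]
  | cons x t ih =>
    have ht : ∀ y ∈ t, ‖y.1‖ = 1 := fun y hy => h y (List.mem_cons_of_mem _ hy)
    rw [List.map_cons, List.sum_cons, ih ht, ← tsum_mul_left]
    have h1 : Summable fun i => x.2 * (c i * x.1 ^ (k i)) := by
      refine Summable.mul_left _ (Summable.of_norm ?_)
      refine hc.congr fun i => ?_
      rw [norm_mul, norm_zpow, h x List.mem_cons_self, one_zpow, mul_one]
    rw [← h1.tsum_add (DualS_summable t ht hc k)]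
    refine tsum_congr fun i => ?_
    rw [DualS_cons]
    ring

private theorem DualS_eval (nd : List (ℂ × ℂ)) (h : ∀ x ∈ nd, ‖x.1‖ = 1) {L R : ℕ → ℂ}
    (hL : Summable fun i => ‖L i‖) (hR : Summable fun i => ‖R i‖) (c0 c1 c2 c3 c4 : ℂ) {g : ℂ → ℂ}
    (hg : ∀ z, g z = c0 * z ^ (-2 : ℤ) + c1 * z ^ (-1 : ℤ) + c2 + c3 * z ^ 2 + c4 * z +
      (∑' i : ℕ, L i * z ^ (-((i : ℤ) + 3))) + ∑' i : ℕ, R i * z ^ ((i : ℤ) + 3)) :
    (nd.map fun x => x.2 * g x.1).sum = c0 * lamC nd (-2) + c1 * lamC nd (-1) + c2 * lamC nd 0 +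
      c3 * lamC nd 2 + c4 * lamC nd 1 + (∑' i : ℕ, L i * lamC nd (-((i : ℤ) + 3))) +
        ∑' i : ℕ, R i * lamC nd ((i : ℤ) + 3) := by
  rw [← DualS_tsum nd h hL, ← DualS_tsum nd h hR]
  clear h
  induction nd with
  | nil => simp [lamC]
  | cons x t ih =>
    have h2 : x.1 ^ (2 : ℤ) = x.1 ^ 2 := by norm_cast
    rw [List.map_cons, List.sum_cons, ih, hg x.1]
    simp only [List.map_cons, List.sum_cons, DualS_cons, zpow_zero, zpow_one, h2]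
    ring

private theorem DualS_norm (nd : List (ℂ × ℂ)) (h : ∀ x ∈ nd, ‖x.1‖ = 1) {g : ℂ → ℂ} {B : ℝ}
    (hg : ∀ z : ℂ, ‖z‖ = 1 → ‖g z‖ ≤ B) :
    ‖(nd.map fun x => x.2 * g x.1).sum‖ ≤ B * wtC nd := by
  induction nd with
  | nil => simp [wtC]
  | cons x t ih =>
    rw [List.map_cons, List.sum_cons, DualS_wt, mul_add]
    refine (norm_add_le _ _).trans (add_le_add ?_ (ih fun y hy => h y (List.mem_cons_of_mem _ hy)))
    rw [norm_mul, mul_comm]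
    exact mul_le_mul_of_nonneg_right (hg _ (h x List.mem_cons_self)) (norm_nonneg _)

private theorem DualS_t1 {q t r1 : ℂ} {l r : ℕ → ℂ} (H : HypS0 q t r1 l r) : ‖t‖ < 1 := by
  have h1 := H.q_lt
  have h2 := H.t_le
  have h3 := norm_nonneg q
  linarith

private theorem DualS_suml {q t r1 : ℂ} {l r : ℕ → ℂ} (H : HypS0 q t r1 l r) :
    Summable fun i => ‖l i‖ := by
  have hs : Summable fun i : ℕ => ‖t‖ ^ (i + 1) :=
    (summable_nat_add_iff 1).2 (summable_geometric_of_lt_one (norm_nonneg _) (DualS_t1 H))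
  exact Summable.of_nonneg_of_le (fun _ => norm_nonneg _) H.sl hs

theorem s_dual_inf {q t r1 : ℂ} {l r : ℕ → ℂ} (H : HypS0 q t r1 l r) (hr : Summable fun i => ‖r i‖)
    (a b e : List (ℂ × ℂ))
    (ha : ∀ x ∈ a, ‖x.1‖ = 1) (hb : ∀ x ∈ b, ‖x.1‖ = 1) (he : ∀ x ∈ e, ‖x.1‖ = 1)
    (hw : wtC a + wtC b + wtC e ≤ 1) :
    (pval (f0S (lamC a) (lamC b) (lamC e)) q t).re ≤ 170919 / 100000 +
      ‖r1‖ * ‖pval (fR1S (lamC a) (lamC b) (lamC e)) q t‖ +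
      ‖∑' i : ℕ, l i * cLS (lamC a) (lamC b) (lamC e) q t i‖ +
      ‖∑' i : ℕ, r i * cRS (lamC a) (lamC b) (lamC e) q t i‖ := by
  have hY1 := H.q_lt
  have hq1 : ‖q‖ ≤ 1 := by linarith
  have hp1 : ‖t‖ ≤ 1 := (DualS_t1 H).le
  have hl := DualS_suml H
  have key : ∀ {u m : ℕ → ℂ}, (Summable fun i => ‖u i‖) → (∀ i, ‖m i‖ ≤ 1) →
      Summable fun i => ‖u i * m i‖ := by
    intro u m hu hm
    refine Summable.of_nonneg_of_le (fun _ => norm_nonneg _) (fun i => ?_) hu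
    rw [norm_mul]
    exact mul_le_of_le_one_right (norm_nonneg _) (hm i)
  have m1 : ∀ i : ℕ, ‖q ^ (i + 4) * t ^ (i + 3)‖ ≤ 1 := fun i => by
    rw [norm_mul, norm_pow, norm_pow]
    exact mul_le_one₀ (pow_le_one₀ (norm_nonneg _) hq1) (by positivity)
      (pow_le_one₀ (norm_nonneg _) hp1)
  have m2 : ∀ i : ℕ, ‖q ^ (i + 2)‖ ≤ 1 := fun i => by
    rw [norm_pow]
    exact pow_le_one₀ (norm_nonneg _) hq1
  have m3 : ∀ i : ℕ, ‖t ^ (i + 3)‖ ≤ 1 := fun i => by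
    rw [norm_pow]
    exact pow_le_one₀ (norm_nonneg _) hp1
  have m4 : ∀ i : ℕ, ‖q ^ (i + 2) * t ^ (i + 3)‖ ≤ 1 := fun i => by
    rw [norm_mul, norm_pow, norm_pow]
    exact mul_le_one₀ (pow_le_one₀ (norm_nonneg _) hq1) (by positivity)
      (pow_le_one₀ (norm_nonneg _) hp1)
  have eA := DualS_eval a ha hl (key hr m1) 1 1 q (q ^ 3 * t ^ 2) (r1 * (t * q ^ 2))
    (g := sA q t r1 l r) (fun z => by rw [sA, one_mul, one_mul])
  have eB := DualS_eval b hb (key hl m2) (key hr m3) q 1 1 (t ^ 2) (r1 * t)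
    (g := sB q t r1 l r) (fun z => by rw [sB, one_mul])
  have eC := DualS_eval e he (key hl m4) hr (q * t ^ 2) t 1 1 r1
    (g := sC q t r1 l r) (fun z => by rw [sC, one_mul])
  have nA := DualS_norm a ha H.bA
  have nB := DualS_norm b hb H.bB
  have nC := DualS_norm e he H.bC
  have sL : ∑' i : ℕ, l i * cLS (lamC a) (lamC b) (lamC e) q t i =
      (∑' i : ℕ, l i * lamC a (-((i : ℤ) + 3))) +
      (∑' i : ℕ, l i * q ^ (i + 2) * lamC b (-((i : ℤ) + 3))) +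
      ∑' i : ℕ, l i * (q ^ (i + 2) * t ^ (i + 3)) * lamC e (-((i : ℤ) + 3)) := by
    have s1 := DualS_summable a ha hl (fun i : ℕ => -((i : ℤ) + 3))
    have s2 := DualS_summable b hb (key hl m2) (fun i : ℕ => -((i : ℤ) + 3))
    have s3 := DualS_summable e he (key hl m4) (fun i : ℕ => -((i : ℤ) + 3))
    rw [← s1.tsum_add s2, ← (s1.add s2).tsum_add s3]
    refine tsum_congr fun i => ?_
    unfold cLS
    ring
  have sR : ∑' i : ℕ, r i * cRS (lamC a) (lamC b) (lamC e) q t i =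
      (∑' i : ℕ, r i * (q ^ (i + 4) * t ^ (i + 3)) * lamC a ((i : ℤ) + 3)) +
      (∑' i : ℕ, r i * t ^ (i + 3) * lamC b ((i : ℤ) + 3)) +
      ∑' i : ℕ, r i * lamC e ((i : ℤ) + 3) := by
    have s1 := DualS_summable a ha (key hr m1) (fun i : ℕ => (i : ℤ) + 3)
    have s2 := DualS_summable b hb (key hr m3) (fun i : ℕ => (i : ℤ) + 3)
    have s3 := DualS_summable e he hr (fun i : ℕ => (i : ℤ) + 3)
    rw [← s1.tsum_add s2, ← (s1.add s2).tsum_add s3]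
    refine tsum_congr fun i => ?_
    unfold cRS
    ring
  have hmain : pval (f0S (lamC a) (lamC b) (lamC e)) q t =
      ((a.map fun x => x.2 * sA q t r1 l r x.1).sum + (b.map fun x => x.2 * sB q t r1 l r x.1).sum +
        (e.map fun x => x.2 * sC q t r1 l r x.1).sum) -
      r1 * pval (fR1S (lamC a) (lamC b) (lamC e)) q t -
      (∑' i : ℕ, l i * cLS (lamC a) (lamC b) (lamC e) q t i) -
      ∑' i : ℕ, r i * cRS (lamC a) (lamC b) (lamC e) q t i := by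
    rw [eA, eB, eC, sL, sR]
    simp only [pval, f0S, fR1S, List.map_cons, List.map_nil, List.sum_cons, List.sum_nil]
    ring
  have hn : ‖pval (f0S (lamC a) (lamC b) (lamC e)) q t‖ ≤ 170919 / 100000 +
      ‖r1‖ * ‖pval (fR1S (lamC a) (lamC b) (lamC e)) q t‖ +
      ‖∑' i : ℕ, l i * cLS (lamC a) (lamC b) (lamC e) q t i‖ +
      ‖∑' i : ℕ, r i * cRS (lamC a) (lamC b) (lamC e) q t i‖ := by
    rw [hmain]
    refine (norm_sub_le _ _).trans (add_le_add ?_ le_rfl)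
    refine (norm_sub_le _ _).trans (add_le_add ?_ le_rfl)
    refine (norm_sub_le _ _).trans (add_le_add ?_ (norm_mul _ _).le)
    refine (norm_add₃_le).trans ?_
    have w1 := DualS_wt_nonneg a
    have w2 := DualS_wt_nonneg b
    have w3 := DualS_wt_nonneg e
    nlinarith
  exact (Complex.re_le_norm _).trans hn

private theorem DualS_tail (s v : ℕ → ℂ) (hs : Summable fun i => ‖s i‖) (hv : ∀ i, ‖v i‖ ≤ 1) (P : ℕ) :
    ‖∑' i : ℕ, s i * v i‖ ≤ ∑ i ∈ Finset.range P, ‖s i‖ * ‖v i‖ + ∑' i : ℕ, ‖s (P + i)‖ := by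
  have h0 : Summable fun i => ‖s i * v i‖ := by
    refine Summable.of_nonneg_of_le (fun _ => norm_nonneg _) (fun i => ?_) hs
    rw [norm_mul]
    exact mul_le_of_le_one_right (norm_nonneg _) (hv i)
  refine (norm_tsum_le_tsum_norm h0).trans ?_
  rw [← h0.sum_add_tsum_nat_add P]
  have h1 : Summable fun i => ‖s (i + P)‖ := (summable_nat_add_iff P).2 hs
  have h2 : Summable fun i => ‖s (i + P) * v (i + P)‖ := (summable_nat_add_iff P).2 h0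
  have h3 : ∑' i, ‖s (i + P) * v (i + P)‖ ≤ ∑' i, ‖s (i + P)‖ := by
    refine h2.tsum_le_tsum (fun i => ?_) h1
    rw [norm_mul]
    exact mul_le_of_le_one_right (norm_nonneg _) (hv _)
  have h4 : ∑' i : ℕ, ‖s (P + i)‖ = ∑' i, ‖s (i + P)‖ :=
    tsum_congr fun i => by rw [add_comm]
  rw [h4]
  refine add_le_add (le_of_eq ?_) h3
  exact Finset.sum_congr rfl fun i _ => norm_mul _ _

private theorem DualS_geo (s : ℕ → ℂ) (y Y : ℝ) (hy : 0 ≤ y) (hyY : y ≤ Y) (hY : Y < 1) (P n : ℕ)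
    (hs : ∀ i, ‖s (P + i)‖ ≤ y ^ (n + i)) : ∑' i : ℕ, ‖s (P + i)‖ ≤ Y ^ n / (1 - Y) := by
  have hY0 : 0 ≤ Y := hy.trans hyY
  have h1 : HasSum (fun i : ℕ => Y ^ (n + i)) (Y ^ n / (1 - Y)) := by
    have h2 := (hasSum_geometric_of_lt_one hY0 hY).mul_left (Y ^ n)
    have h3 : (fun i : ℕ => Y ^ (n + i)) = fun i => Y ^ n * Y ^ i := by
      funext i
      rw [pow_add]
    rw [h3, div_eq_mul_inv]
    exact h2
  have h4 : ∀ i, ‖s (P + i)‖ ≤ Y ^ (n + i) := fun i =>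
    (hs i).trans (pow_le_pow_left₀ hy hyY _)
  have h5 : Summable fun i => ‖s (P + i)‖ :=
    Summable.of_nonneg_of_le (fun _ => norm_nonneg _) h4 h1.summable
  rw [← h1.tsum_eq]
  exact h5.tsum_le_tsum h4 h1.summable

private theorem DualS_three (x y z u v : ℂ) (hu : ‖u‖ ≤ 1) (hv : ‖v‖ ≤ 1) {wa wb wc : ℝ}
    (hx : ‖x‖ ≤ wa) (hy : ‖y‖ ≤ wb) (hz : ‖z‖ ≤ wc) (hw : wa + wb + wc ≤ 1) :
    ‖x + u * (y + v * z)‖ ≤ 1 := by
  have h1 : ‖v * z‖ ≤ wc := by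
    rw [norm_mul]
    calc ‖v‖ * ‖z‖ ≤ 1 * ‖z‖ := mul_le_mul_of_nonneg_right hv (norm_nonneg _)
      _ ≤ wc := by rw [one_mul]; exact hz
  have h2 : ‖u * (y + v * z)‖ ≤ wb + wc := by
    rw [norm_mul]
    calc ‖u‖ * ‖y + v * z‖ ≤ 1 * ‖y + v * z‖ := mul_le_mul_of_nonneg_right hu (norm_nonneg _)
      _ ≤ wb + wc := by
        rw [one_mul]
        exact (norm_add_le _ _).trans (add_le_add hy h1)
  refine (norm_add_le _ _).trans ?_
  linarith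

private theorem DualS_fLS (A B C : ℤ → ℂ) (q t : ℂ) (i : ℕ) :
    pval (fLS A B C i) q t = t ^ (i + 1) * cLS A B C q t i := by
  simp only [pval, fLS, cLS, List.map_cons, List.map_nil, List.sum_cons, List.sum_nil]
  ring

private theorem DualS_fRS (A B C : ℤ → ℂ) (q t : ℂ) (a i : ℕ) :
    pval (fRS A B C a i) q t = q ^ a * cRS A B C q t i := by
  simp only [pval, fRS, cRS, List.map_cons, List.map_nil, List.sum_cons, List.sum_nil]
  ring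

/-- the part which is common to both families; `tau` bounds the `r i` -/
theorem s_dual_common {q t r1 : ℂ} {l r : ℕ → ℂ} (H : HypS0 q t r1 l r) (hr : Summable fun i => ‖r i‖)
    (a b e : List (ℂ × ℂ))
    (ha : ∀ x ∈ a, ‖x.1‖ = 1) (hb : ∀ x ∈ b, ‖x.1‖ = 1) (he : ∀ x ∈ e, ‖x.1‖ = 1)
    (hw : wtC a + wtC b + wtC e ≤ 1) (sT T : ℝ) (hsT0 : 0 ≤ sT)
    (hsT : (170919 / 100000 : ℝ) ^ 2 - 2 - ‖t‖ ^ 2 ≤ sT ^ 2) (hT : ‖t‖ ≤ T) (hT1 : T < 1) (PL PR : ℕ) :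
    (pval (f0S (lamC a) (lamC b) (lamC e)) q t).re ≤ 170919 / 100000 +
      sT * ‖pval (fR1S (lamC a) (lamC b) (lamC e)) q t‖ +
      ∑ i ∈ Finset.range PL, wLS sT i * ‖pval (fLS (lamC a) (lamC b) (lamC e) i) q t‖ +
      ∑ i ∈ Finset.range PR, ‖r i‖ * ‖cRS (lamC a) (lamC b) (lamC e) q t i‖ +
      T ^ (PL + 1) / (1 - T) + ∑' i : ℕ, ‖r (PR + i)‖ := by
  have h0 := s_dual_inf H hr a b e ha hb he hw
  have hY1 := H.q_lt
  have hq1 : ‖q‖ ≤ 1 := by linarith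
  have hp1 : ‖t‖ ≤ 1 := (DualS_t1 H).le
  have hqp : ∀ n : ℕ, ‖q ^ n‖ ≤ 1 := fun n => by
    rw [norm_pow]
    exact pow_le_one₀ (norm_nonneg _) hq1
  have htp : ∀ n : ℕ, ‖t ^ n‖ ≤ 1 := fun n => by
    rw [norm_pow]
    exact pow_le_one₀ (norm_nonneg _) hp1
  have hcL : ∀ i, ‖cLS (lamC a) (lamC b) (lamC e) q t i‖ ≤ 1 := fun i =>
    DualS_three _ _ _ _ _ (hqp _) (htp _) (lamC_le a ha _) (lamC_le b hb _) (lamC_le e he _) hw
  have hcR : ∀ i, ‖cRS (lamC a) (lamC b) (lamC e) q t i‖ ≤ 1 := fun i =>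
    DualS_three _ _ _ _ _ (htp _) (hqp _) (lamC_le e he _) (lamC_le b hb _) (lamC_le a ha _)
      (by linarith)
  have hL := DualS_tail l _ (DualS_suml H) hcL PL
  have hR := DualS_tail r _ hr hcR PR
  have hr1 : ‖r1‖ ≤ sT := by
    have := H.sr1.trans hsT
    exact (sq_le_sq₀ (norm_nonneg _) hsT0).1 this
  have hLt : ∑' i : ℕ, ‖l (PL + i)‖ ≤ T ^ (PL + 1) / (1 - T) :=
    DualS_geo l ‖t‖ T (norm_nonneg _) hT hT1 PL (PL + 1) fun i => by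
      have := H.sl (PL + i)
      rwa [show PL + i + 1 = PL + 1 + i by ring] at this
  have hLs : ∑ i ∈ Finset.range PL, ‖l i‖ * ‖cLS (lamC a) (lamC b) (lamC e) q t i‖ ≤
      ∑ i ∈ Finset.range PL, wLS sT i * ‖pval (fLS (lamC a) (lamC b) (lamC e) i) q t‖ := by
    refine Finset.sum_le_sum fun i _ => ?_
    rw [DualS_fLS, norm_mul, norm_pow, ← mul_assoc]
    refine mul_le_mul_of_nonneg_right ?_ (norm_nonneg _)
    unfold wLS
    split_ifs with hi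
    · subst hi
      rw [zero_add, pow_one]
      have h1 : ‖l 0‖ ^ 2 ≤ (sT * ‖t‖) ^ 2 := by
        refine H.sl0.trans ?_
        rw [mul_pow, mul_comm]
        exact mul_le_mul_of_nonneg_right hsT (by positivity)
      exact (sq_le_sq₀ (norm_nonneg _) (by positivity)).1 h1
    · rw [one_mul]
      exact H.sl i
  have hr1' : ‖r1‖ * ‖pval (fR1S (lamC a) (lamC b) (lamC e)) q t‖ ≤
      sT * ‖pval (fR1S (lamC a) (lamC b) (lamC e)) q t‖ :=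
    mul_le_mul_of_nonneg_right hr1 (norm_nonneg _)
  linarith

theorem s_dual_A {q t r1 : ℂ} {l r : ℕ → ℂ} (H : HypSA q t r1 l r) (hq : 17 / 50 ≤ ‖q‖)
    (a b e : List (ℂ × ℂ))
    (ha : ∀ x ∈ a, ‖x.1‖ = 1) (hb : ∀ x ∈ b, ‖x.1‖ = 1) (he : ∀ x ∈ e, ‖x.1‖ = 1)
    (hw : wtC a + wtC b + wtC e ≤ 1) (sT T Y : ℝ) (hsT0 : 0 ≤ sT)
    (hsT : (170919 / 100000 : ℝ) ^ 2 - 2 - ‖t‖ ^ 2 ≤ sT ^ 2) (hT : ‖t‖ ≤ T) (hT1 : T < 1)
    (hY : ‖q‖ + 1 / 100000 ≤ Y) (hY1 : Y < 1) (PL PR : ℕ) (hPR : 1 ≤ PR) (κ : ℕ → ℝ)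
    (hκ0 : ∀ i, 0 ≤ κ i)
    (hκ : (‖q‖ + 1 / 100000) * ((170919 / 100000) ^ 2 - 2 - (min (‖q‖ + 1 / 100000) (11 / 20)) ^ 2) ≤ κ 0 ^ 2)
    (hκ1 : ∀ i, 1 ≤ i → i < PR → (‖q‖ + 1 / 100000) ^ i ≤ κ i * ‖q‖ ^ i) :
    (pval (f0S (lamC a) (lamC b) (lamC e)) q t).re ≤ 170919 / 100000 +
      sT * ‖pval (fR1S (lamC a) (lamC b) (lamC e)) q t‖ +
      ∑ i ∈ Finset.range PL, wLS sT i * ‖pval (fLS (lamC a) (lamC b) (lamC e) i) q t‖ +
      ∑ i ∈ Finset.range PR, κ i * ‖pval (fRS (lamC a) (lamC b) (lamC e) i i) q t‖ +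
      (T ^ (PL + 1) / (1 - T) + Y ^ PR / (1 - Y)) := by
  have hD0 : 0 ≤ ‖q‖ + 1 / 100000 := by positivity
  have hr : Summable fun i => ‖r i‖ := by
    rw [← summable_nat_add_iff 1]
    have hs : Summable fun i : ℕ => (‖q‖ + 1 / 100000) ^ (i + 1) :=
      (summable_nat_add_iff 1).2 (summable_geometric_of_lt_one hD0 H.q_lt)
    exact Summable.of_nonneg_of_le (fun _ => norm_nonneg _) (fun i => H.ra (i + 1) (by omega)) hs
  have h0 := s_dual_common H.toHypS0 hr a b e ha hb he hw sT T hsT0 hsT hT hT1 PL PR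
  have hRt : ∑' i : ℕ, ‖r (PR + i)‖ ≤ Y ^ PR / (1 - Y) :=
    DualS_geo r _ Y hD0 hY hY1 PR PR fun i => H.ra (PR + i) (by omega)
  have hRs : ∑ i ∈ Finset.range PR, ‖r i‖ * ‖cRS (lamC a) (lamC b) (lamC e) q t i‖ ≤
      ∑ i ∈ Finset.range PR, κ i * ‖pval (fRS (lamC a) (lamC b) (lamC e) i i) q t‖ := by
    refine Finset.sum_le_sum fun i hi => ?_
    rw [DualS_fRS, norm_mul, norm_pow, ← mul_assoc]
    refine mul_le_mul_of_nonneg_right ?_ (norm_nonneg _)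
    rcases Nat.eq_zero_or_pos i with h | h
    · subst h
      rw [pow_zero, mul_one]
      exact (sq_le_sq₀ (norm_nonneg _) (hκ0 0)).1 (H.ra0.trans hκ)
    · exact (H.ra i h).trans (hκ1 i h (Finset.mem_range.1 hi))
  linarith

theorem s_dual_B {q t r1 : ℂ} {l r : ℕ → ℂ} (H : HypSB q t r1 l r) (hq : 17 / 50 ≤ ‖q‖) :
    ∃ c : ℕ → ℝ, (∀ i, 0 ≤ c i) ∧ (∀ i, c i ≤ 1) ∧ (∃ u : ℕ, u ≠ 1 ∧ ∀ s : Finset ℕ, u ∉ s →
      ∑ i ∈ s, c i ^ 2 ≤ (170919 / 100000) ^ 2 - 2 - (min (9 / 10 * (‖q‖ + 1 / 100000)) (11 / 20)) ^ 2) ∧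
    ∀ (a b e : List (ℂ × ℂ)) (_ : ∀ x ∈ a, ‖x.1‖ = 1) (_ : ∀ x ∈ b, ‖x.1‖ = 1) (_ : ∀ x ∈ e, ‖x.1‖ = 1)
      (_ : wtC a + wtC b + wtC e ≤ 1) (sT T Y : ℝ) (_ : 0 ≤ sT)
      (_ : (170919 / 100000 : ℝ) ^ 2 - 2 - ‖t‖ ^ 2 ≤ sT ^ 2) (_ : ‖t‖ ≤ T) (_ : T < 1)
      (_ : 0 ≤ Y) (_ : 9 / 10 * (‖q‖ + 1 / 100000) ≤ Y ^ 2) (_ : Y < 1) (PL PR : ℕ) (κ : ℕ → ℝ)
      (_ : ∀ i, 0 ≤ κ i)
      (_ : ∀ i < PR, (9 / 10 * (‖q‖ + 1 / 100000)) ^ (i + 1) ≤ (κ i * ‖q‖ ^ ((i + 1) / 2)) ^ 2),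
    (pval (f0S (lamC a) (lamC b) (lamC e)) q t).re ≤ 170919 / 100000 +
      sT * ‖pval (fR1S (lamC a) (lamC b) (lamC e)) q t‖ +
      ∑ i ∈ Finset.range PL, wLS sT i * ‖pval (fLS (lamC a) (lamC b) (lamC e) i) q t‖ +
      ∑ i ∈ Finset.range PR, c i * (κ i * ‖pval (fRS (lamC a) (lamC b) (lamC e) ((i + 1) / 2) i) q t‖) +
      (T ^ (PL + 1) / (1 - T) + Y ^ (PR + 1) / (1 - Y)) := by
  obtain ⟨D, hDdef⟩ : ∃ D : ℝ, D = 9 / 10 * (‖q‖ + 1 / 100000) := ⟨_, rfl⟩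
  have hD0 : 0 < D := by rw [hDdef]; linarith
  have hD1 : D < 1 := by
    have := H.q_lt
    rw [hDdef]
    linarith [norm_nonneg q]
  have hrb := H.rb
  obtain ⟨u, hu, hball⟩ := H.ball
  simp only [← hDdef] at hrb hball ⊢
  have hDp : ∀ i, 0 < D ^ (i + 1) := fun i => by positivity
  obtain ⟨c, hc⟩ : ∃ c : ℕ → ℝ, c = fun i => ‖r i‖ / Real.sqrt (D ^ (i + 1)) := ⟨_, rfl⟩
  have hc0 : ∀ i, 0 ≤ c i := fun i => by
    rw [hc]
    positivity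
  have hcsq : ∀ i, c i ^ 2 = ‖r i‖ ^ 2 / D ^ (i + 1) := fun i => by
    rw [hc]
    simp only
    rw [div_pow, Real.sq_sqrt (hDp i).le]
  have hcr : ∀ i, ‖r i‖ = c i * Real.sqrt (D ^ (i + 1)) := fun i => by
    rw [hc]
    simp only
    rw [div_mul_cancel₀]
    exact (Real.sqrt_pos.2 (hDp i)).ne'
  have hc1 : ∀ i, c i ≤ 1 := fun i => by
    have h1 : c i ^ 2 ≤ 1 ^ 2 := by
      rw [hcsq, one_pow]
      exact (div_le_one (hDp i)).2 (hrb i)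
    exact (sq_le_sq₀ (hc0 i) zero_le_one).1 h1
  have hrs : ∀ i, ‖r i‖ ≤ Real.sqrt D ^ (i + 1) := fun i => by
    have h1 : ‖r i‖ ^ 2 ≤ (Real.sqrt D ^ (i + 1)) ^ 2 := by
      rw [← pow_mul, mul_comm, pow_mul, Real.sq_sqrt hD0.le]
      exact hrb i
    exact (sq_le_sq₀ (norm_nonneg _) (by positivity)).1 h1
  have hsD1 : Real.sqrt D < 1 := by
    rw [Real.sqrt_lt' one_pos]
    simpa using hD1
  have hr : Summable fun i => ‖r i‖ := by
    have hs : Summable fun i : ℕ => Real.sqrt D ^ (i + 1) :=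
      (summable_nat_add_iff 1).2 (summable_geometric_of_lt_one (Real.sqrt_nonneg _) hsD1)
    exact Summable.of_nonneg_of_le (fun _ => norm_nonneg _) hrs hs
  refine ⟨c, hc0, hc1, ⟨u, hu, fun s hs => ?_⟩, ?_⟩
  · refine le_trans (le_of_eq ?_) (hball s hs)
    exact Finset.sum_congr rfl fun i _ => hcsq i
  · intro a b e ha hb he hw sT T Y hsT0 hsT hT hT1 hY0 hY hY1 PL PR κ hκ0 hκ
    have h0 := s_dual_common H.toHypS0 hr a b e ha hb he hw sT T hsT0 hsT hT hT1 PL PR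
    have hsDY : Real.sqrt D ≤ Y := by
      rw [Real.sqrt_le_left hY0]
      exact hY
    have hRt : ∑' i : ℕ, ‖r (PR + i)‖ ≤ Y ^ (PR + 1) / (1 - Y) :=
      DualS_geo r _ Y (Real.sqrt_nonneg _) hsDY hY1 PR (PR + 1) fun i => by
        have := hrs (PR + i)
        rwa [show PR + i + 1 = PR + 1 + i by ring] at this
    have hRs : ∑ i ∈ Finset.range PR, ‖r i‖ * ‖cRS (lamC a) (lamC b) (lamC e) q t i‖ ≤
        ∑ i ∈ Finset.range PR, c i * (κ i * ‖pval (fRS (lamC a) (lamC b) (lamC e) ((i + 1) / 2) i) q t‖) := by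
      refine Finset.sum_le_sum fun i hi => ?_
      rw [DualS_fRS, norm_mul, norm_pow, ← mul_assoc, ← mul_assoc]
      refine mul_le_mul_of_nonneg_right ?_ (norm_nonneg _)
      rw [hcr i, mul_assoc]
      refine mul_le_mul_of_nonneg_left ?_ (hc0 i)
      refine Real.sqrt_le_iff.2 ⟨mul_nonneg (hκ0 i) (by positivity), ?_⟩
      exact hκ i (Finset.mem_range.1 hi)
    linarith

end Pool.Agent.MaxTerm58
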