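import Pool.Agent.MaxTerm58.DampTI
import Pool.Agent.MaxTerm58.DualInf
import Pool.Agent.MaxTerm58.DualTail

/-! The dual inequality for type I. Hints: `ti_dual_inf` is the sum of `h * (function)(z)` over the nodes (as in `DualInf`);
`ti_dual`: for `N = 0` use `f3_tail`-type estimates, `||coefTI|| <= 1 + Y^(i+2)`; for `N > 0` the terms `i >= P` vanish since `N <= P + 2`. -/

namespace Pool.Agent.MaxTerm58

open Pool.Agent.MaxTerm59 (HypI)

private theorem DualTI_cons (x : ℂ × ℂ) (t : List (ℂ × ℂ)) (k : ℤ) :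
    lamC (x :: t) k = x.2 * x.1 ^ k + lamC t k := by
  simp [lamC]

private theorem DualTI_wt (x : ℂ × ℂ) (t : List (ℂ × ℂ)) :
    wtC (x :: t) = ‖x.2‖ + wtC t := by
  simp [wtC]

private theorem DualTI_wt_nonneg (nd : List (ℂ × ℂ)) : 0 ≤ wtC nd := by
  induction nd with
  | nil => simp [wtC]
  | cons x t ih =>
    rw [DualTI_wt]
    exact add_nonneg (norm_nonneg _) ih

private theorem DualTI_norm (nd : List (ℂ × ℂ)) (h : ∀ x ∈ nd, ‖x.1‖ = 1) {g : ℂ → ℂ} {B : ℝ}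
    (hg : ∀ z : ℂ, ‖z‖ = 1 → ‖g z‖ ≤ B) :
    ‖(nd.map fun x => x.2 * g x.1).sum‖ ≤ B * wtC nd := by
  induction nd with
  | nil => simp [wtC]
  | cons x t ih =>
    rw [List.map_cons, List.sum_cons, DualTI_wt, mul_add]
    refine (norm_add_le _ _).trans (add_le_add ?_ (ih fun y hy => h y (List.mem_cons_of_mem _ hy)))
    rw [norm_mul, mul_comm]
    exact mul_le_mul_of_nonneg_right (hg _ (h x List.mem_cons_self)) (norm_nonneg _)

private theorem DualTI_dmp0 (N k : ℕ) : 0 ≤ dmpR N k := by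
  unfold dmpR
  split_ifs
  · exact zero_le_one
  · positivity

private theorem DualTI_dmp1 (N k : ℕ) : dmpR N k ≤ 1 := by
  unfold dmpR
  split_ifs with h
  · exact le_refl 1
  · have hN : (0 : ℝ) < N := by exact_mod_cast Nat.pos_of_ne_zero h
    rw [div_le_one hN]
    exact_mod_cast Nat.sub_le _ _

private theorem DualTI_coef (nd : List (ℂ × ℂ)) (h : ∀ x ∈ nd, ‖x.1‖ = 1) (q : ℂ) (Y : ℝ)
    (hq : ‖q‖ ≤ Y) (i : ℕ) : ‖coefTI (lamC nd) q i‖ ≤ wtC nd * (1 + Y ^ (i + 2)) := by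
  unfold coefTI
  refine (norm_add_le _ _).trans ?_
  rw [mul_add, mul_one, norm_mul, norm_pow, mul_comm (wtC nd)]
  refine add_le_add (lamC_le nd h _) ?_
  exact mul_le_mul (pow_le_pow_left₀ (norm_nonneg _) hq _) (lamC_le nd h _) (norm_nonneg _)
    (pow_nonneg ((norm_nonneg _).trans hq) _)

private theorem DualTI_summable_s {q : ℂ} {s : ℕ → ℂ}
    (H : HypI (170919 / 100000) (1 / 100000) q s) : Summable fun i => ‖s i‖ := by
  have hY0 : 0 ≤ ‖q‖ + 1 / 100000 := by positivity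
  have hY1 := HypTI_lt H
  have hsY : Summable fun i : ℕ => (‖q‖ + 1 / 100000) ^ (i + 1) :=
    (summable_nat_add_iff 1).2 (summable_geometric_of_lt_one hY0 hY1)
  exact Summable.of_nonneg_of_le (fun _ => norm_nonneg _) H.size hsY

private theorem DualTI_summable {q : ℂ} {s : ℕ → ℂ}
    (H : HypI (170919 / 100000) (1 / 100000) q s) (N : ℕ) (nd : List (ℂ × ℂ))
    (h : ∀ x ∈ nd, ‖x.1‖ = 1) :
    Summable fun i : ℕ => s i * ((dmpR N (i + 2) : ℂ) * coefTI (lamC nd) q i) := by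
  refine Summable.of_norm_bounded ((DualTI_summable_s H).mul_right (wtC nd * 2)) fun i => ?_
  rw [norm_mul, norm_mul, Complex.norm_real, Real.norm_of_nonneg (DualTI_dmp0 N _)]
  refine mul_le_mul_of_nonneg_left ?_ (norm_nonneg _)
  have h1 := DualTI_coef nd h q ‖q‖ le_rfl i
  have h2 : ‖q‖ ^ (i + 2) ≤ 1 := pow_le_one₀ (norm_nonneg _) H.q_lt.le
  have h3 := DualTI_wt_nonneg nd
  calc dmpR N (i + 2) * ‖coefTI (lamC nd) q i‖ ≤ 1 * ‖coefTI (lamC nd) q i‖ :=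
        mul_le_mul_of_nonneg_right (DualTI_dmp1 N _) (norm_nonneg _)
    _ ≤ wtC nd * (1 + ‖q‖ ^ (i + 2)) := by rw [one_mul]; exact h1
    _ ≤ wtC nd * 2 := mul_le_mul_of_nonneg_left (by linarith) h3

private theorem DualTI_single {q : ℂ} {s : ℕ → ℂ}
    (H : HypI (170919 / 100000) (1 / 100000) q s) (N : ℕ) (z : ℂ) (hz : ‖z‖ = 1) :
    Summable fun i : ℕ => s i * ((dmpR N (i + 2) : ℂ) *
        (z ^ (-((i : ℤ) + 2)) + q ^ (i + 2) * z ^ ((i : ℤ) + 2))) := by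
  have h1 := DualTI_summable H N [(z, 1)] (by simp [hz])
  refine h1.congr fun i => ?_
  simp [coefTI, lamC]

private theorem DualTI_eval {q : ℂ} {s : ℕ → ℂ}
    (H : HypI (170919 / 100000) (1 / 100000) q s) (N : ℕ) (nd : List (ℂ × ℂ))
    (h : ∀ x ∈ nd, ‖x.1‖ = 1) :
    (nd.map fun x => x.2 * (1 + (dmpR N 1 : ℂ) * (x.1 ^ (-1 : ℤ) + q * x.1) +
      ∑' i : ℕ, s i * ((dmpR N (i + 2) : ℂ) *
        (x.1 ^ (-((i : ℤ) + 2)) + q ^ (i + 2) * x.1 ^ ((i : ℤ) + 2))))).sum =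
      mainTI (lamC nd) N q + ∑' i : ℕ, s i * ((dmpR N (i + 2) : ℂ) * coefTI (lamC nd) q i) := by
  induction nd with
  | nil => simp [lamC, mainTI, coefTI]
  | cons x t ih =>
    have ht : ∀ y ∈ t, ‖y.1‖ = 1 := fun y hy => h y (List.mem_cons_of_mem _ hy)
    have hx : ‖x.1‖ = 1 := h x List.mem_cons_self
    rw [List.map_cons, List.sum_cons, ih ht]
    have s1 := DualTI_summable H N t ht
    have s2 := (DualTI_single H N x.1 hx).mul_left x.2
    have e1 : ∑' i : ℕ, s i * ((dmpR N (i + 2) : ℂ) * coefTI (lamC (x :: t)) q i) =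
        x.2 * (∑' i : ℕ, s i * ((dmpR N (i + 2) : ℂ) *
          (x.1 ^ (-((i : ℤ) + 2)) + q ^ (i + 2) * x.1 ^ ((i : ℤ) + 2)))) +
        ∑' i : ℕ, s i * ((dmpR N (i + 2) : ℂ) * coefTI (lamC t) q i) := by
      rw [← tsum_mul_left, ← s2.tsum_add s1]
      refine tsum_congr fun i => ?_
      unfold coefTI
      rw [DualTI_cons, DualTI_cons]
      ring
    rw [e1]
    unfold mainTI
    rw [DualTI_cons, DualTI_cons, DualTI_cons, zpow_zero, zpow_one]
    ring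

theorem ti_dual_inf {q : ℂ} {s : ℕ → ℂ} (H : HypI (170919 / 100000) (1 / 100000) q s) (N : ℕ)
    (nd : List (ℂ × ℂ)) (hnd : ∀ x ∈ nd, ‖x.1‖ = 1) (hw : wtC nd ≤ 1) :
    (mainTI (lamC nd) N q).re ≤ 170919 / 100000 +
      ‖∑' i : ℕ, s i * ((dmpR N (i + 2) : ℂ) * coefTI (lamC nd) q i)‖ := by
  have h1 := DualTI_eval H N nd hnd
  have h2 := DualTI_norm nd hnd (g := fun z => 1 + (dmpR N 1 : ℂ) * (z ^ (-1 : ℤ) + q * z) +
      ∑' i : ℕ, s i * ((dmpR N (i + 2) : ℂ) *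
        (z ^ (-((i : ℤ) + 2)) + q ^ (i + 2) * z ^ ((i : ℤ) + 2)))) (fun z hz => TI_damped H N z hz)
  have h3 : mainTI (lamC nd) N q = (nd.map fun x => x.2 * (1 + (dmpR N 1 : ℂ) *
      (x.1 ^ (-1 : ℤ) + q * x.1) + ∑' i : ℕ, s i * ((dmpR N (i + 2) : ℂ) *
        (x.1 ^ (-((i : ℤ) + 2)) + q ^ (i + 2) * x.1 ^ ((i : ℤ) + 2))))).sum -
      ∑' i : ℕ, s i * ((dmpR N (i + 2) : ℂ) * coefTI (lamC nd) q i) := by
    rw [h1]
    ring
  have hn : ‖mainTI (lamC nd) N q‖ ≤ 170919 / 100000 +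
      ‖∑' i : ℕ, s i * ((dmpR N (i + 2) : ℂ) * coefTI (lamC nd) q i)‖ := by
    rw [h3]
    refine (norm_sub_le _ _).trans (add_le_add ?_ le_rfl)
    refine h2.trans ?_
    nlinarith [DualTI_wt_nonneg nd]
  exact (Complex.re_le_norm _).trans hn

theorem ti_dual {q : ℂ} {s : ℕ → ℂ} (H : HypI (170919 / 100000) (1 / 100000) q s)
    (nd : List (ℂ × ℂ)) (hnd : ∀ x ∈ nd, ‖x.1‖ = 1) (hw : wtC nd ≤ 1) (N P : ℕ)
    (Y T : ℝ) (hY : ‖q‖ + 1 / 100000 ≤ Y) (hT : 0 ≤ T)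
    (h0 : N = 0 → Y < 1 ∧ Y ^ (P + 1) / (1 - Y) * (1 + Y ^ (P + 2)) ≤ T) (h1 : N ≠ 0 → N ≤ P + 2)
    (τ : ℕ → ℝ) (hτ : ∀ i < P, ‖s i‖ ≤ τ i) :
    (mainTI (lamC nd) N q).re ≤ 170919 / 100000 +
      ∑ i ∈ Finset.range P, dmpR N (i + 2) * (τ i * ‖coefTI (lamC nd) q i‖) + T := by
  have hY0 : 0 ≤ Y := le_trans (by positivity) hY
  have hqY : ‖q‖ ≤ Y := by linarith
  have hinf := ti_dual_inf H N nd hnd hw
  have hkey : ‖∑' i : ℕ, s i * ((dmpR N (i + 2) : ℂ) * coefTI (lamC nd) q i)‖ ≤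
      ∑ i ∈ Finset.range P, dmpR N (i + 2) * (τ i * ‖coefTI (lamC nd) q i‖) + T := by
    have hfin : ∀ i < P, ‖s i * ((dmpR N (i + 2) : ℂ) * coefTI (lamC nd) q i)‖ ≤
        dmpR N (i + 2) * (τ i * ‖coefTI (lamC nd) q i‖) := by
      intro i hi
      rw [norm_mul, norm_mul, Complex.norm_real, Real.norm_of_nonneg (DualTI_dmp0 N _)]
      calc ‖s i‖ * (dmpR N (i + 2) * ‖coefTI (lamC nd) q i‖)
          = dmpR N (i + 2) * (‖s i‖ * ‖coefTI (lamC nd) q i‖) := by ring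
        _ ≤ _ := mul_le_mul_of_nonneg_left
          (mul_le_mul_of_nonneg_right (hτ i hi) (norm_nonneg _)) (DualTI_dmp0 N _)
    rcases Nat.eq_zero_or_pos N with hN | hN
    · obtain ⟨hY1, hT'⟩ := h0 hN
      subst hN
      have hd : ∀ k, dmpR 0 k = 1 := fun k => by simp [dmpR]
      set b : ℕ → ℝ := fun i =>
        if i < P then dmpR 0 (i + 2) * (τ i * ‖coefTI (lamC nd) q i‖)
          else Y ^ (i + 1) * (1 + Y ^ (P + 2)) with hb
      have g1 : HasSum (fun n => b (n + P)) (Y ^ (P + 1) / (1 - Y) * (1 + Y ^ (P + 2))) := by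
        have g2 := (hasSum_geometric_of_lt_one hY0 hY1).mul_right (Y ^ (P + 1) * (1 + Y ^ (P + 2)))
        have g3 : (fun n => b (n + P)) = fun n => Y ^ n * (Y ^ (P + 1) * (1 + Y ^ (P + 2))) := by
          funext n
          rw [hb]
          simp only
          rw [if_neg (by omega)]
          ring
        have g8 : Y ^ (P + 1) / (1 - Y) * (1 + Y ^ (P + 2)) =
            (1 - Y)⁻¹ * (Y ^ (P + 1) * (1 + Y ^ (P + 2))) := by
          rw [div_eq_mul_inv]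
          ring
        rw [g3, g8]
        exact g2
      have g4 := (hasSum_nat_add_iff P).1 g1
      have g5 : ∑ i ∈ Finset.range P, b i =
          ∑ i ∈ Finset.range P, dmpR 0 (i + 2) * (τ i * ‖coefTI (lamC nd) q i‖) := by
        refine Finset.sum_congr rfl fun i hi => ?_
        rw [hb]
        simp only
        rw [if_pos (Finset.mem_range.1 hi)]
      rw [g5, add_comm] at g4
      refine (tsum_of_norm_bounded g4 fun i => ?_).trans (by linarith)
      rw [hb]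
      simp only
      split_ifs with h
      · exact hfin i h
      · rw [hd, Complex.ofReal_one, one_mul, norm_mul]
        have g6 : ‖s i‖ ≤ Y ^ (i + 1) := (H.size i).trans
          (pow_le_pow_left₀ (by positivity) hY _)
        have g7 : ‖coefTI (lamC nd) q i‖ ≤ 1 + Y ^ (P + 2) := by
          refine (DualTI_coef nd hnd q Y hqY i).trans ?_
          have g9 : Y ^ (i + 2) ≤ Y ^ (P + 2) := pow_le_pow_of_le_one hY0 hY1.le (by omega)
          have g10 : 0 ≤ Y ^ (i + 2) := by positivity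
          nlinarith [DualTI_wt_nonneg nd]
        exact mul_le_mul g6 g7 (norm_nonneg _) (by positivity)
    · have hNP := h1 hN.ne'
      have hz : ∀ i ∉ Finset.range P, s i * ((dmpR N (i + 2) : ℂ) * coefTI (lamC nd) q i) = 0 := by
        intro i hi
        rw [Finset.mem_range] at hi
        have g1 : dmpR N (i + 2) = 0 := by
          unfold dmpR
          rw [if_neg hN.ne', Nat.sub_eq_zero_of_le (by omega)]
          simp
        rw [g1]
        simp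
      rw [tsum_eq_sum hz]
      refine (norm_sum_le _ _).trans ?_
      have g2 := Finset.sum_le_sum fun i (hi : i ∈ Finset.range P) =>
        hfin i (Finset.mem_range.1 hi)
      linarith
  linarith

private theorem DualTI_pow {t : ℝ} (ht : 17 / 50 ≤ t) (n : ℕ) (hn : n ≤ 39) :
    (t + 1 / 100000) ^ n ≤ 1002 / 1000 * t ^ n := by
  have h0 : 0 < t := by linarith
  have h1 : t + 1 / 100000 ≤ (34001 / 34000) * t := by linarith
  calc (t + 1 / 100000) ^ n ≤ ((34001 / 34000) * t) ^ n := by gcongr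
    _ = (34001 / 34000) ^ n * t ^ n := by rw [mul_pow]
    _ ≤ (34001 / 34000) ^ 39 * t ^ n := by
        gcongr
        norm_num
    _ ≤ 1002 / 1000 * t ^ n := by
        gcongr
        norm_num

/-- sizes of the coefficients -/
theorem ti_sizes {q : ℂ} {s : ℕ → ℂ} (H : HypI (170919 / 100000) (1 / 100000) q s)
    (hq : 17 / 50 ≤ ‖q‖) (sg Y : ℝ) (hsg0 : 0 ≤ sg) (hsg : (170919 / 100000 : ℝ) ^ 2 - 2 - ‖q‖ ^ 2 ≤ sg ^ 2)
    (hY : ‖q‖ + 1 / 100000 ≤ Y) (i : ℕ) :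
    ‖s i‖ ≤ min (Y ^ (i + 1)) sg ∧ (i < 39 → ‖s i‖ ≤ 1002 / 1000 * ‖q‖ ^ (i + 1)) := by
  have h1 := H.size i
  refine ⟨le_min (h1.trans (pow_le_pow_left₀ (by positivity) hY _)) ?_, fun hi => ?_⟩
  · have h2 := H.energy i
    have h3 : ‖s i‖ ^ 2 ≤ sg ^ 2 := by linarith
    exact le_of_sq_le_sq h3 hsg0
  · exact h1.trans (DualTI_pow hq (i + 1) (by omega))

end Pool.Agent.MaxTerm58
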