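import Pool.Agent.MaxTerm58.EDef

/-! Checks for `HypM a b`; modes of the two sides: `0` = matched (box), otherwise mismatched (ball). -/

namespace Pool.Agent.MaxTerm58

/-- weight `(cr / 10^4)^(i + 1 + (i + 1 - g)^+)` (mode `0`) or `(cr / 10^4)^(i + 1)` -/
def wtM (md g cr i : Nat) : Nat × Nat × Nat :=
  (monUp cr 0 (Nat.add (Nat.succ i) (bif Nat.beq md 0 then Nat.sub (Nat.succ i) g else 0)) 0, 0, 0)

/-- upper bound for `10^8 sqrt (E - |z|^(2 m))` on the square -/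
def sigM (m Q x y : Nat) : Nat :=
  sqU (Nat.succ (Nat.sub 9213304561000000
    (Nat.div (Nat.mul 10000000000000000 (Nat.pow (mnS x y) m)) (Nat.pow Q (Nat.mul 2 m)))))

/-- upper bound for `10^8 D`, `rx / 10^4` an upper bound for `|x|` -/
def dU (a rx : Nat) : Nat :=
  maxU 34001000 (minN (Nat.succ (Nat.div (Nat.mul 10 (monUp rx 0 a 0)) 9)) 76010000)

/-- `nu / 10^8` is an admissible radius for `w = cr / 10^4` and the gap `g` -/
def okNu (g cr nu : Nat) : Bool :=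
  (Nat.ble (Nat.mul (Nat.succ g) (Nat.mul (Nat.pow cr (Nat.mul 2 g)) 10000000000)) (Nat.mul 9213304561 (Nat.pow 100000000 g)) &&
    Nat.ble (Nat.mul 9213304561000000 (Nat.pow 100000000 g))
      (Nat.add (Nat.mul (Nat.mul nu nu) (Nat.pow 100000000 g)) (Nat.mul 10000000000000000 (Nat.pow cr (Nat.mul 2 g))))) ||
  Nat.ble (Nat.mul (Nat.mul (Nat.pow g g) (Nat.pow 9213304561 (Nat.succ g))) (Nat.pow 10 (Nat.mul 24 g)))
    (Nat.mul (Nat.mul (Nat.pow (Nat.succ g) (Nat.succ g)) (Nat.pow (Nat.mul nu cr) (Nat.mul 2 g)))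
      (Nat.pow 10 (Nat.mul 10 (Nat.succ g))))

/-- upper bound for `10^8 sqrt ((E - w^(2 g)) / (1 - w^2))` -/
def ktM (g cr : Nat) : Nat :=
  sqU (Nat.succ (Nat.div (Nat.mul (Nat.sub 9213304561000000
    (Nat.div (Nat.mul 10000000000000000 (Nat.pow cr (Nat.mul 2 g))) (Nat.pow 100000000 g))) 100000000)
    (Nat.sub 100000000 (Nat.mul cr cr))))

/-- upper bound for `10^8` times the tail from the index `P` -/
def tauM (md g cr P : Nat) : Nat :=
  bif Nat.beq md 0 then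
    Nat.succ (Nat.div (Nat.mul (monUp cr 0 (Nat.sub (Nat.mul 2 (Nat.succ P)) g) 0) 100000000) (Nat.sub 100000000 (Nat.mul cr cr)))
  else Nat.succ (Nat.div (Nat.mul (monUp cr 0 (Nat.succ P) 0) (Nat.add 100000000 (ktM g cr))) 100000000)

def tailM (a b mR mL crR crL rqc PR PL wa wb : Nat) : Nat :=
  Nat.succ (Nat.div (Nat.add
    (Nat.mul (Nat.add wb (monUp rqc 0 (Nat.add (Nat.add b 1) PR) 0)) (tauM mR b crR PR))
    (Nat.mul (Nat.add wa (monUp rqc 0 (Nat.add (Nat.add a 1) PL) 0)) (tauM mL a crL PL))) 100000000)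

def famM (a b mR mL crR crL nuR nuL nL nR PL PR rqc sA sB wa wb : Nat) : FamS :=
  { kd := 0, m1 := 0, m2 := a, b := b, E0 := b, A0 := b, B0 := 0,
    fx := [(false, a), (true, 0), (true, b)],
    inn := posL true (fun _ => (sA, 0, 0)) (Nat.sub b 1) 1 0 ++ posL false (fun _ => (sB, 0, 0)) (Nat.sub a 1) 1 0,
    wR := wtM mR b crR, wL := wtM mL a crL, mR := mR, mL := mL,
    nuR := nuR, exR := Nat.sub b 1, nuL := nuL, exL := Nat.sub a 1, nR := nR, nL := nL, PR := PR, PL := PL,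
    tail := tailM a b mR mL crR crL rqc PR PL wa wb, rqc := rqc, rpc := 0 }

/-- conditions for one side -/
def sideM1 (md g cr nu P dd : Nat) : Bool :=
  Nat.ble (Nat.mul dd (Nat.pow 10000 g)) (Nat.mul (Nat.pow cr g) 100000000) && Nat.ble (Nat.succ cr) 10000 &&
  Nat.ble g (Nat.succ P) && (Nat.beq md 0 ||
    (okNu g cr nu && Nat.ble (Nat.mul (Nat.mul (Nat.add g (Nat.succ P)) (Nat.pow cr (Nat.mul 2 g))) 10000000000)
      (Nat.mul (Nat.mul (Nat.succ P) 9213304561) (Nat.pow 100000000 g))))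

/-- the check of a leaf -/
def checkM (a b mR mL x y Q crR crL nuR nuL P nL nR PL PR : Nat) (la lb : List Nat) : Bool :=
  sideM1 mR b crR nuR PR (dU a (radS Q x y)) && sideM1 mL a crL nuL PL (dU a (radS Q x y)) &&
  (famM a b mR mL crR crL nuR nuL nL nR PL PR (radS Q x y) (sigM a Q x y) (sigM b Q x y) (wsumP la) (wsumP lb)).chk
    [(100000, 100000)] P x y Q 1 0 la lb []

/-- no admissible point in the square: `|x|^a > 19/25` or outside the sector -/
def outM (a b x y Q : Nat) : Bool :=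
  Nat.blt (Nat.mul 5776 (Nat.pow Q (Nat.mul 2 a))) (Nat.mul 10000 (Nat.pow (mnS x y) a)) ||
  (Nat.beq (Nat.mul a b) 3 && Nat.blt (Nat.mul 3 (Nat.pow (Nat.succ (absD x)) 2)) (Nat.pow (Nat.sub (absD y) 1) 2)) ||
  (Nat.beq (Nat.mul a b) 6 && Nat.blt (Nat.pow (Nat.succ (absD x)) 2) (Nat.mul 3 (Nat.pow (Nat.sub (absD y) 1) 2)))

inductive TM where
  | lf (crR crL nuR nuL P nL nR PL PR : Nat) (a b : List Nat)
  | out
  | sq (t1 t2 t3 t4 : TM)

def TM.chk (a b mR mL : Nat) : TM → Nat → Nat → Nat → Bool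
  | .lf crR crL nuR nuL P nL nR PL PR la lb, x, y, Q => checkM a b mR mL x y Q crR crL nuR nuL P nL nR PL PR la lb
  | .out, x, y, Q => outM a b x y Q
  | .sq t1 t2 t3 t4, x, y, Q =>
    Nat.ble Q 4096 &&
    TM.chk a b mR mL t1 (Nat.sub (Nat.mul 2 x) 100001) (Nat.sub (Nat.mul 2 y) 100001) (Nat.mul 2 Q) &&
    TM.chk a b mR mL t2 (Nat.sub (Nat.mul 2 x) 99999) (Nat.sub (Nat.mul 2 y) 100001) (Nat.mul 2 Q) &&
    TM.chk a b mR mL t3 (Nat.sub (Nat.mul 2 x) 100001) (Nat.sub (Nat.mul 2 y) 99999) (Nat.mul 2 Q) &&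
    TM.chk a b mR mL t4 (Nat.sub (Nat.mul 2 x) 99999) (Nat.sub (Nat.mul 2 y) 99999) (Nat.mul 2 Q)

/-- trees for the squares `(100001 + 2 i, 100001 + 2 j)`, `k = 7 i + j`, half width `1 / 16` -/
def chkGridM (a b mR mL : Nat) : List TM → Nat → Bool
  | [], k => Nat.beq k 49
  | t :: l, k => TM.chk a b mR mL t (Nat.add 100001 (Nat.mul 2 (Nat.div k 7))) (Nat.add 100001 (Nat.mul 2 (Nat.mod k 7))) 16 &&
    chkGridM a b mR mL l (Nat.succ k)

end Pool.Agent.MaxTerm58
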