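import Pool.Agent.MaxTerm58.TDef

/-! Trees for all squares of the families `T`. -/

namespace Pool.Agent.MaxTerm58

/-- trees for the squares `(99989 + 2 i, 100001 + 2 j)`, `k = 5 i + j`, half width `1 / 16` -/
def chkGridT (md : Nat) : List TT → Nat → Bool
  | [], k => Nat.beq k 25
  | t :: l, k => TT.chk md t (Nat.add 99989 (Nat.mul 2 (Nat.div k 5))) (Nat.add 100001 (Nat.mul 2 (Nat.mod k 5))) 16 &&
    chkGridT md l (Nat.succ k)

end Pool.Agent.MaxTerm58
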