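import Pool.Agent.MaxTerm58.EDef
import Pool.Agent.MaxTerm58.TGDef
import Pool.Agent.MaxTerm58.MDef

/-! Composition of certificate trees. -/

namespace Pool.Agent.MaxTerm58

theorem TE.chk_sq {fam md : Nat} {t1 t2 t3 t4 : TE} {x y Q u v R : Nat} (h : Nat.ble Q 4096 = true)
    (h1 : TE.chk fam md t1 (Nat.sub (Nat.mul 2 x) 100001) (Nat.sub (Nat.mul 2 y) 100001) (Nat.mul 2 Q) u v R = true)
    (h2 : TE.chk fam md t2 (Nat.sub (Nat.mul 2 x) 99999) (Nat.sub (Nat.mul 2 y) 100001) (Nat.mul 2 Q) u v R = true)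
    (h3 : TE.chk fam md t3 (Nat.sub (Nat.mul 2 x) 100001) (Nat.sub (Nat.mul 2 y) 99999) (Nat.mul 2 Q) u v R = true)
    (h4 : TE.chk fam md t4 (Nat.sub (Nat.mul 2 x) 99999) (Nat.sub (Nat.mul 2 y) 99999) (Nat.mul 2 Q) u v R = true) :
    TE.chk fam md (.sq t1 t2 t3 t4) x y Q u v R = true := by
  rw [TE.chk, h, h1, h2, h3, h4]
  rfl

theorem TE.chk_sp {fam md : Nat} {t1 t2 t3 t4 : TE} {x y Q u v R : Nat} (h : Nat.ble R 4096 = true)
    (h1 : TE.chk fam md t1 x y Q (Nat.sub (Nat.mul 2 u) 100001) (Nat.sub (Nat.mul 2 v) 100001) (Nat.mul 2 R) = true)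
    (h2 : TE.chk fam md t2 x y Q (Nat.sub (Nat.mul 2 u) 99999) (Nat.sub (Nat.mul 2 v) 100001) (Nat.mul 2 R) = true)
    (h3 : TE.chk fam md t3 x y Q (Nat.sub (Nat.mul 2 u) 100001) (Nat.sub (Nat.mul 2 v) 99999) (Nat.mul 2 R) = true)
    (h4 : TE.chk fam md t4 x y Q (Nat.sub (Nat.mul 2 u) 99999) (Nat.sub (Nat.mul 2 v) 99999) (Nat.mul 2 R) = true) :
    TE.chk fam md (.sp t1 t2 t3 t4) x y Q u v R = true := by
  rw [TE.chk, h, h1, h2, h3, h4]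
  rfl

theorem TT.chk_sq {md : Nat} {t1 t2 t3 t4 : TT} {x y Q : Nat} (h : Nat.ble Q 4096 = true)
    (h1 : TT.chk md t1 (Nat.sub (Nat.mul 2 x) 100001) (Nat.sub (Nat.mul 2 y) 100001) (Nat.mul 2 Q) = true)
    (h2 : TT.chk md t2 (Nat.sub (Nat.mul 2 x) 99999) (Nat.sub (Nat.mul 2 y) 100001) (Nat.mul 2 Q) = true)
    (h3 : TT.chk md t3 (Nat.sub (Nat.mul 2 x) 100001) (Nat.sub (Nat.mul 2 y) 99999) (Nat.mul 2 Q) = true)
    (h4 : TT.chk md t4 (Nat.sub (Nat.mul 2 x) 99999) (Nat.sub (Nat.mul 2 y) 99999) (Nat.mul 2 Q) = true) :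
    TT.chk md (.sq t1 t2 t3 t4) x y Q = true := by
  rw [TT.chk, h, h1, h2, h3, h4]
  rfl

theorem TM.chk_sq {a b mR mL : Nat} {t1 t2 t3 t4 : TM} {x y Q : Nat} (h : Nat.ble Q 4096 = true)
    (h1 : TM.chk a b mR mL t1 (Nat.sub (Nat.mul 2 x) 100001) (Nat.sub (Nat.mul 2 y) 100001) (Nat.mul 2 Q) = true)
    (h2 : TM.chk a b mR mL t2 (Nat.sub (Nat.mul 2 x) 99999) (Nat.sub (Nat.mul 2 y) 100001) (Nat.mul 2 Q) = true)
    (h3 : TM.chk a b mR mL t3 (Nat.sub (Nat.mul 2 x) 100001) (Nat.sub (Nat.mul 2 y) 99999) (Nat.mul 2 Q) = true)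
    (h4 : TM.chk a b mR mL t4 (Nat.sub (Nat.mul 2 x) 99999) (Nat.sub (Nat.mul 2 y) 99999) (Nat.mul 2 Q) = true) :
    TM.chk a b mR mL (.sq t1 t2 t3 t4) x y Q = true := by
  rw [TM.chk, h, h1, h2, h3, h4]
  rfl

theorem chkGridT_cons {md x y k : Nat} {t : TT} {l : List TT} (hx : Nat.add 99989 (Nat.mul 2 (Nat.div k 5)) = x)
    (hy : Nat.add 100001 (Nat.mul 2 (Nat.mod k 5)) = y) (ht : TT.chk md t x y 16 = true)
    (hl : chkGridT md l (Nat.succ k) = true) : chkGridT md (t :: l) k = true := by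
  subst hx hy
  rw [chkGridT, ht, hl]
  rfl

theorem chkGridM_cons {a b mR mL x y k : Nat} {t : TM} {l : List TM} (hx : Nat.add 100001 (Nat.mul 2 (Nat.div k 7)) = x)
    (hy : Nat.add 100001 (Nat.mul 2 (Nat.mod k 7)) = y) (ht : TM.chk a b mR mL t x y 16 = true)
    (hl : chkGridM a b mR mL l (Nat.succ k) = true) : chkGridM a b mR mL (t :: l) k = true := by
  subst hx hy
  rw [chkGridM, ht, hl]
  rfl

end Pool.Agent.MaxTerm58
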