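import Pool.Agent.MaxTerm58.WFam

/-! The families with the ratio `3` (`fam = 0`, vertices `-2, -1, 0, 3`, `s = q`) and `3/2` (`fam = 1`, vertices
`-4, -2, 0, 3`, `q = s^2`): extremal matched vertex, both neighbours mismatched. `md = 0`: the vertex `3` is
mismatched, otherwise matched (next unit at `6`). -/

namespace Pool.Agent.MaxTerm58

/-- the exponent of `D^(1/3)` for the position `4 + i` -/
def exE (md i : Nat) : Nat := Nat.add (Nat.succ i) (bif Nat.beq md 0 then 0 else Nat.sub i 2)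

/-- weight of the position `4 + i`: `j = exE md i`, `kp = 1` for the ratio `3`, `2` for `3/2`; `cr / 10^4` is
an upper bound for `|s|^(1/3)` -/
def wtE (kp md cr i : Nat) : Nat × Nat × Nat :=
  (Nat.succ (Nat.div
    (Nat.mul (Nat.mul 100100000000 (bif Nat.beq md 0 then Nat.mul (Nat.pow 9 (Nat.div (exE md i) 3)) (Nat.pow 9655 (Nat.mod (exE md i) 3)) else 1))
      (Nat.pow cr (Nat.mod (Nat.mul kp (exE md i)) 3)))
    (Nat.mul (Nat.mul 1000 (bif Nat.beq md 0 then Nat.mul (Nat.pow 10 (Nat.div (exE md i) 3)) (Nat.pow 10000 (Nat.mod (exE md i) 3)) else 1))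
      (Nat.pow 10000 (Nat.mod (Nat.mul kp (exE md i)) 3)))),
   Nat.div (Nat.mul kp (exE md i)) 3, 0)

def wtL1 (i : Nat) : Nat × Nat × Nat := (100000000, 0, Nat.succ i)

/-- upper bound for `10^4 (0.9 D)^(1/3)` (`md = 0`), `10^4 D^(1/3)` -/
def rrE (kp md cr : Nat) : Nat :=
  bif Nat.beq md 0 then Nat.succ (Nat.div (Nat.mul 9655 (Nat.pow cr kp)) (Nat.pow 10000 kp))
  else Nat.succ (Nat.div (Nat.pow cr kp) (Nat.pow 10000 (Nat.sub kp 1)))

/-- upper bound for `10^8 sqrt (E - |z|^4)` on the square -/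
def sig4 (Q x y : Nat) : Nat :=
  sqU (Nat.succ (Nat.sub 9213304561000000
    (Nat.div (Nat.mul 10000000000000000 (Nat.pow (Nat.add (Nat.pow (Nat.sub (absD x) 1) 2) (Nat.pow (Nat.sub (absD y) 1) 2)) 2))
      (Nat.pow Q 4))))

/-- bound for `sum_(i >= PR) |v (4 + i)|`, times `10^8` -/
def tauE (md rr PR : Nat) : Nat :=
  bif Nat.beq md 0 then geoU rr (Nat.succ PR)
  else Nat.succ (Nat.div (Nat.mul (monUp rr 0 (Nat.sub (Nat.mul 2 PR) 1) 0) 100000000) (Nat.sub 100000000 (Nat.mul rr rr)))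

def tailE (md rr rqc rpc n0 PR PL wa wc : Nat) : Nat :=
  Nat.succ (Nat.div (Nat.add
    (Nat.mul (Nat.add wc (monUp 0 rpc 0 (Nat.add PR 4))) (tauE md rr PR))
    (Nat.mul (Nat.add wa (monUp rqc 0 (Nat.add PL n0) 0)) (geoU rpc (Nat.succ PL)))) 100000000)

def famE (fam md cr nL nR PL PR rqc rpc sS sA wa wc : Nat) : FamS :=
  bif Nat.beq fam 0 then
    { kd := 1, m1 := 1, m2 := 2, b := 3, E0 := 3, A0 := 4, B0 := 3,
      fx := [(false, 2), (false, 1), (true, 0), (true, 3)],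
      inn := [⟨true, 1, sS, 0, 0⟩, ⟨true, 2, sS, 0, 0⟩],
      wR := wtE 1 md cr, wL := wtL1, mR := 0, mL := 0, nuR := 0, exR := 0, nuL := 0, exL := 0,
      nR := nR, nL := nL, PR := PR, PL := PL, tail := tailE md (rrE 1 md cr) rqc rpc 2 PR PL wa wc, rqc := rqc, rpc := rpc }
  else
    { kd := 1, m1 := 2, m2 := 4, b := 3, E0 := 4, A0 := 5, B0 := 4,
      fx := [(false, 4), (false, 2), (true, 0), (true, 3)],
      inn := [⟨true, 1, sS, 0, 0⟩, ⟨true, 2, sS, 0, 0⟩, ⟨false, 1, sA, 0, 0⟩, ⟨false, 3, sA, 0, 0⟩],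
      wR := wtE 2 md cr, wL := wtL1, mR := 0, mL := 0, nuR := 0, exR := 0, nuL := 0, exL := 0,
      nR := nR, nL := nL, PR := PR, PL := PL, tail := tailE md (rrE 2 md cr) rqc rpc 3 PR PL wa wc, rqc := rqc, rpc := rpc }

def sideE (fam md cr u v R PR rqc rpc : Nat) : Bool :=
  Nat.ble (Nat.mul rqc 100000000) (Nat.pow cr 3) && Nat.ble cr 10000 &&
  Nat.ble (Nat.succ (rrE (bif Nat.beq fam 0 then 1 else 2) md cr)) 10000 && Nat.ble (Nat.succ rpc) 10000 &&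
  Nat.ble 3 PR && Nat.ble PR 37 &&
  Nat.ble (Nat.succ (absD u)) (Nat.mul 2 R) && Nat.ble (Nat.succ (absD v)) (Nat.mul 2 R)

/-- the check of a leaf -/
def checkE (fam md x y Q u v R cr P nL nR PL PR : Nat) (la lb lc : List Nat) : Bool :=
  sideE fam md cr u v R PR (minN (radS Q x y) (bif Nat.beq fam 0 then 7052 else 8398))
    (minN (radS R u v) (bif Nat.beq fam 0 then 6348 else 7968)) &&
  (famE fam md cr nL nR PL PR (minN (radS Q x y) (bif Nat.beq fam 0 then 7052 else 8398))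
    (minN (radS R u v) (bif Nat.beq fam 0 then 6348 else 7968))
    (bif Nat.beq fam 0 then sigI R u v else sig4 R u v) (sig4 Q x y) (wsumP la) (wsumP lc)).chk
    (crnL u v) P x y Q R (radS R u v) la lb lc

/-- the square does not meet the rectangle `[-a/32, -b/32] x [-c/32, c/32]` -/
def disR (x y Q a b c : Nat) : Bool :=
  Nat.blt (Nat.add (Nat.mul 32 (Nat.succ x)) (Nat.mul a Q)) 3200000 ||
  Nat.blt 3200032 (Nat.add (Nat.mul 32 x) (Nat.mul b Q)) ||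
  Nat.blt (Nat.mul c Q) (Nat.mul 32 (Nat.sub (absD y) 1))

/-- the squares of the points of the square do not meet the rectangle -/
def disS (x y Q a b c : Nat) : Bool :=
  Nat.blt (Nat.add (Nat.mul 32 (Nat.pow (Nat.succ (absD x)) 2)) (Nat.mul a (Nat.pow Q 2)))
    (Nat.mul 32 (Nat.pow (Nat.sub (absD y) 1) 2)) ||
  Nat.blt (Nat.mul 32 (Nat.pow (Nat.succ (absD y)) 2))
    (Nat.add (Nat.mul 32 (Nat.pow (Nat.sub (absD x) 1) 2)) (Nat.mul b (Nat.pow Q 2))) ||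
  Nat.blt (Nat.mul c (Nat.pow Q 2)) (Nat.mul 64 (Nat.mul (Nat.sub (absD x) 1) (Nat.sub (absD y) 1)))

/-- squares of minimal and maximal modulus, times `Q^2` -/
def mnS (x y : Nat) : Nat := Nat.add (Nat.pow (Nat.sub (absD x) 1) 2) (Nat.pow (Nat.sub (absD y) 1) 2)
def mxS (x y : Nat) : Nat := Nat.add (Nat.pow (Nat.succ (absD x)) 2) (Nat.pow (Nat.succ (absD y)) 2)

/-- ratio `3`: no admissible point in the cell; `u`, `v`, `R`: sector `|arg t| <= 60` -/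
def outE3 (x y Q u v R : Nat) : Bool :=
  Nat.blt (Nat.mul 10000 (mxS x y)) (Nat.mul 1156 (Nat.pow Q 2)) ||
  Nat.blt (Nat.mul 19881 (Nat.pow Q 2)) (Nat.mul 40000 (mnS x y)) ||
  (disR x y Q 23 21 7 && disR x y Q 21 17 11 && disR x y Q 17 8 13 && disR x y Q 8 6 11) ||
  Nat.blt (Nat.add (Nat.mul 81000 (Nat.mul (mxS x y) (Nat.pow R 2))) (Nat.mul 2 (Nat.mul (Nat.pow Q 2) (Nat.pow R 2))))
    (Nat.mul 100000 (Nat.mul (mnS u v) (Nat.pow Q 2))) ||
  Nat.blt (Nat.succ u) 100000 ||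
  Nat.blt (Nat.mul 3 (Nat.pow (Nat.sub (Nat.succ u) 100000) 2)) (Nat.pow (Nat.sub (absD v) 1) 2)

/-- ratio `3/2`: no admissible point in the cell; sector `|arg t| <= 30` -/
def outE32 (x y Q u v R : Nat) : Bool :=
  Nat.blt (Nat.mul 100 (mxS x y)) (Nat.mul 34 (Nat.pow Q 2)) ||
  Nat.blt (Nat.mul 141 (Nat.pow Q 2)) (Nat.mul 200 (mnS x y)) ||
  (disS x y Q 23 21 7 && disS x y Q 21 17 11 && disS x y Q 17 8 13 && disS x y Q 8 6 11) ||
  Nat.blt (Nat.add (Nat.mul 90000 (Nat.mul (mxS x y) (Nat.pow R 2))) (Nat.mul (Nat.pow Q 2) (Nat.pow R 2)))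
    (Nat.mul 100000 (Nat.mul (mnS u v) (Nat.pow Q 2))) ||
  Nat.blt (Nat.succ u) 100000 ||
  Nat.blt (Nat.pow (Nat.sub (Nat.succ u) 100000) 2) (Nat.mul 3 (Nat.pow (Nat.sub (absD v) 1) 2))

inductive TE where
  | lf (cr P nL nR PL PR : Nat) (a b c : List Nat)
  | out
  | sq (t1 t2 t3 t4 : TE)
  | sp (t1 t2 t3 t4 : TE)

def TE.chk (fam md : Nat) : TE → Nat → Nat → Nat → Nat → Nat → Nat → Bool
  | .lf cr P nL nR PL PR a b c, x, y, Q, u, v, R => checkE fam md x y Q u v R cr P nL nR PL PR a b c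
  | .out, x, y, Q, u, v, R => bif Nat.beq fam 0 then outE3 x y Q u v R else outE32 x y Q u v R
  | .sq t1 t2 t3 t4, x, y, Q, u, v, R =>
    Nat.ble Q 4096 &&
    TE.chk fam md t1 (Nat.sub (Nat.mul 2 x) 100001) (Nat.sub (Nat.mul 2 y) 100001) (Nat.mul 2 Q) u v R &&
    TE.chk fam md t2 (Nat.sub (Nat.mul 2 x) 99999) (Nat.sub (Nat.mul 2 y) 100001) (Nat.mul 2 Q) u v R &&
    TE.chk fam md t3 (Nat.sub (Nat.mul 2 x) 100001) (Nat.sub (Nat.mul 2 y) 99999) (Nat.mul 2 Q) u v R &&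
    TE.chk fam md t4 (Nat.sub (Nat.mul 2 x) 99999) (Nat.sub (Nat.mul 2 y) 99999) (Nat.mul 2 Q) u v R
  | .sp t1 t2 t3 t4, x, y, Q, u, v, R =>
    Nat.ble R 4096 &&
    TE.chk fam md t1 x y Q (Nat.sub (Nat.mul 2 u) 100001) (Nat.sub (Nat.mul 2 v) 100001) (Nat.mul 2 R) &&
    TE.chk fam md t2 x y Q (Nat.sub (Nat.mul 2 u) 99999) (Nat.sub (Nat.mul 2 v) 100001) (Nat.mul 2 R) &&
    TE.chk fam md t3 x y Q (Nat.sub (Nat.mul 2 u) 100001) (Nat.sub (Nat.mul 2 v) 99999) (Nat.mul 2 R) &&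
    TE.chk fam md t4 x y Q (Nat.sub (Nat.mul 2 u) 99999) (Nat.sub (Nat.mul 2 v) 99999) (Nat.mul 2 R)

end Pool.Agent.MaxTerm58
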