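import Pool.Agent.MaxTerm58.EHyp

/-! Symmetries of the family E and normalisation of the parameters. Model: the end of `TreeS.lean`.
The change of `t` to `w t`: `v n` is multiplied by `w ^ (-n)` for `n ≥ 0` (then the corners `X = 0, 1` do not
change and the corner `2` is rotated). `HypE32.neg`: the corner `1` (and `0`) is evaluated at `-z`, the corner `2` does
not change. `HypE32.neg_s`: the corner `0` is evaluated at `-z`, the others do not change. -/

namespace Pool.Agent.MaxTerm58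

private theorem ESym_nc (z : ℂ) : ‖(starRingEnd ℂ) z‖ = ‖z‖ := RCLike.norm_conj z

private theorem ESym_conj_sum (m1 X : ℕ) (q t : ℂ) (v : ℤ → ℂ) (z : ℂ) :
    ∑' n : ℤ, (starRingEnd ℂ) (v n) *
      ((starRingEnd ℂ) q ^ eaZ m1 X n * (starRingEnd ℂ) t ^ ebZ 1 X n) * z ^ n =
    (starRingEnd ℂ) (∑' n : ℤ, v n * (q ^ eaZ m1 X n * t ^ ebZ 1 X n) *
      ((starRingEnd ℂ) z) ^ n) := by
  simp only [map_mul, map_pow, map_zpow₀, Complex.conj_tsum, Complex.conj_conj]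

private theorem ESym_wn {w : ℂ} (hw : w ^ 3 = 1) : ‖w‖ = 1 :=
  Complex.norm_eq_one_of_pow_eq_one hw (by norm_num)

private theorem ESym_w0 {w : ℂ} (hw : w ^ 3 = 1) : w ≠ 0 := by
  rintro rfl
  norm_num at hw

private theorem ESym_rot_norm {w : ℂ} (hw : w ^ 3 = 1) (a : ℂ) (k : ℕ) :
    ‖a * (w⁻¹) ^ k‖ = ‖a‖ := by
  rw [norm_mul, norm_pow, norm_inv, ESym_wn hw, inv_one, one_pow, mul_one]

private theorem ESym_rot_sum (m1 X : ℕ) (q t : ℂ) (v : ℤ → ℂ) (z : ℂ) {w : ℂ} (hw : w ^ 3 = 1)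
    (hz : ‖z‖ = 1) : ∃ z' : ℂ, ‖z'‖ = 1 ∧
    ∑' n : ℤ, v n * (w⁻¹) ^ n.toNat * (q ^ eaZ m1 X n * (w * t) ^ ebZ 1 X n) * z ^ n =
    ∑' n : ℤ, v n * (q ^ eaZ m1 X n * t ^ ebZ 1 X n) * z' ^ n := by
  have hw0 := ESym_w0 hw
  by_cases hX : X = 2
  · refine ⟨w⁻¹ * z, ?_, ?_⟩
    · rw [norm_mul, norm_inv, ESym_wn hw, hz]
      norm_num
    · refine tsum_congr fun n => ?_
      have hb : ebZ 1 X n = (-n).toNat := by
        unfold ebZ
        rw [if_neg one_ne_zero, if_pos hX]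
      rw [hb, mul_zpow, mul_pow]
      have key : (w⁻¹) ^ n.toNat * w ^ (-n).toNat = (w⁻¹) ^ n := by
        rcases le_total 0 n with h | h
        · obtain ⟨k, rfl⟩ := Int.eq_ofNat_of_zero_le h
          have e1 : ((k : ℤ)).toNat = k := by simp
          have e2 : (-(k : ℤ)).toNat = 0 := by simp
          rw [e1, e2, pow_zero, mul_one, zpow_natCast]
        · obtain ⟨k, hk⟩ := Int.eq_ofNat_of_zero_le (neg_nonneg.2 h)
          have hk' : n = -(k : ℤ) := by omega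
          subst hk'
          have e1 : (-(k : ℤ)).toNat = 0 := by simp
          have e2 : (-(-(k : ℤ))).toNat = k := by simp
          rw [e1, e2, pow_zero, one_mul, zpow_neg, zpow_natCast, inv_pow, inv_inv]
      rw [← key]
      ring
  · refine ⟨z, hz, ?_⟩
    refine tsum_congr fun n => ?_
    have hb : ebZ 1 X n = n.toNat := by
      unfold ebZ
      rw [if_neg one_ne_zero, if_neg hX]
    rw [hb, mul_pow]
    have key : (w⁻¹) ^ n.toNat * w ^ n.toNat = 1 := by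
      rw [← mul_pow, inv_mul_cancel₀ hw0, one_pow]
    linear_combination (v n * q ^ eaZ m1 X n * t ^ n.toNat * z ^ n) * key

private theorem ESym_neg_norm (a : ℂ) (k : ℕ) : ‖a * (-1) ^ k‖ = ‖a‖ := by
  rw [norm_mul, norm_pow, norm_neg, norm_one, one_pow, mul_one]

private theorem ESym_neg_zpow (z : ℂ) (n : ℤ) (k : ℕ) (h : (k : ℤ) = n ∨ (k : ℤ) = -n ∨
    (k : ℤ) = n + 2 ∨ (k : ℤ) = -n - 2) : (-z) ^ n = (-1) ^ k * z ^ n := by
  have h1 : (-z) ^ n = (-1 : ℂ) ^ n * z ^ n := by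
    rw [← mul_zpow, neg_one_mul]
  rw [h1]
  congr 1
  have hp : Even k ↔ Even n := by
    constructor
    · intro hk
      have hk' : Even (k : ℤ) := by exact_mod_cast hk
      rcases h with h | h | h | h
      · rwa [h] at hk'
      · rw [h] at hk'
        exact (even_neg.1 hk')
      · rw [h] at hk'
        obtain ⟨a, ha⟩ := hk'
        exact ⟨a - 1, by omega⟩
      · rw [h] at hk'
        obtain ⟨a, ha⟩ := hk'
        exact ⟨-a - 1, by omega⟩
    · intro hn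
      have : Even (k : ℤ) := by
        obtain ⟨a, ha⟩ := hn
        rcases h with h | h | h | h
        · exact ⟨a, by omega⟩
        · exact ⟨-a, by omega⟩
        · exact ⟨a + 1, by omega⟩
        · exact ⟨-a - 1, by omega⟩
      exact_mod_cast this
  rcases Nat.even_or_odd k with hk | hk
  · rw [hk.neg_one_pow, (hp.1 hk).neg_one_zpow]
  · have hn : Odd n := by
      rw [← Int.not_even_iff_odd]
      intro hn
      exact (Nat.not_even_iff_odd.2 hk) (hp.2 hn)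
    rw [hk.neg_one_pow, hn.neg_one_zpow]

private theorem ESym_neg_sum (m1 X : ℕ) (q t : ℂ) (v : ℤ → ℂ) (z : ℂ) (hz : ‖z‖ = 1) :
    ∃ z' : ℂ, ‖z'‖ = 1 ∧
    ∑' n : ℤ, v n * (-1) ^ (-n).toNat * (q ^ eaZ m1 X n * (-t) ^ ebZ 1 X n) * z ^ n =
    ∑' n : ℤ, v n * (q ^ eaZ m1 X n * t ^ ebZ 1 X n) * z' ^ n := by
  by_cases hX : X = 2
  · refine ⟨z, hz, tsum_congr fun n => ?_⟩
    have hb : ebZ 1 X n = (-n).toNat := by
      unfold ebZ
      rw [if_neg one_ne_zero, if_pos hX]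
    rw [hb, neg_pow t]
    have key : ((-1 : ℂ)) ^ (-n).toNat * (-1) ^ (-n).toNat = 1 := by
      rw [← mul_pow]
      norm_num
    linear_combination (v n * q ^ eaZ m1 X n * t ^ (-n).toNat * z ^ n) * key
  · refine ⟨-z, by rw [norm_neg, hz], tsum_congr fun n => ?_⟩
    have hb : ebZ 1 X n = n.toNat := by
      unfold ebZ
      rw [if_neg one_ne_zero, if_neg hX]
    rw [hb, neg_pow t]
    rcases le_total 0 n with h | h
    · rw [ESym_neg_zpow z n n.toNat (by omega)]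
      have e : (-n).toNat = 0 := by omega
      rw [e, pow_zero]
      ring
    · rw [ESym_neg_zpow z n (-n).toNat (by omega)]
      have e : n.toNat = 0 := by omega
      rw [e, pow_zero, pow_zero]
      ring

private theorem ESym_negs_sum (X : ℕ) (s t : ℂ) (v : ℤ → ℂ) (z : ℂ) (hz : ‖z‖ = 1) :
    ∃ z' : ℂ, ‖z'‖ = 1 ∧
    ∑' n : ℤ, v n * (-1) ^ (-n - 2).toNat * ((-s) ^ eaZ 2 X n * t ^ ebZ 1 X n) * z ^ n =
    ∑' n : ℤ, v n * (s ^ eaZ 2 X n * t ^ ebZ 1 X n) * z' ^ n := by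
  by_cases hX : X = 0
  · refine ⟨-z, by rw [norm_neg, hz], tsum_congr fun n => ?_⟩
    have ha : eaZ 2 X n = (n + 2).toNat := by
      unfold eaZ
      rw [if_pos hX]
      rfl
    rw [ha, neg_pow s]
    rcases le_total 0 (n + 2) with h | h
    · rw [ESym_neg_zpow z n (n + 2).toNat (by omega)]
      have e : (-n - 2).toNat = 0 := by omega
      rw [e, pow_zero]
      ring
    · rw [ESym_neg_zpow z n (-n - 2).toNat (by omega)]
      have e : (n + 2).toNat = 0 := by omega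
      rw [e, pow_zero, pow_zero]
      ring
  · refine ⟨z, hz, tsum_congr fun n => ?_⟩
    have ha : eaZ 2 X n = (-n - 2).toNat := by
      unfold eaZ
      rw [if_neg hX]
      rfl
    rw [ha, neg_pow s]
    have key : ((-1 : ℂ)) ^ (-n - 2).toNat * (-1) ^ (-n - 2).toNat = 1 := by
      rw [← mul_pow]
      norm_num
    linear_combination (v n * s ^ (-n - 2).toNat * t ^ ebZ 1 X n * z ^ n) * key

theorem HypE3.conj {md : ℕ} {q t : ℂ} {v : ℤ → ℂ} (H : HypE3 md q t v) :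
    HypE3 md ((starRingEnd ℂ) q) ((starRingEnd ℂ) t) (fun n => (starRingEnd ℂ) (v n)) where
  v2 := by rw [H.v2, map_one]
  v1 := by rw [H.v1, map_one]
  v0 := by rw [H.v0, map_one]
  v3 := by rw [H.v3, map_one]
  t_le := by
    rw [ESym_nc, ESym_nc]
    exact H.t_le
  oL := fun i => by
    rw [ESym_nc, ESym_nc]
    exact H.oL i
  oR0 := fun h i => by
    rw [ESym_nc, ESym_nc]
    exact H.oR0 h i
  oR1 := fun h i => by
    rw [ESym_nc, ESym_nc]
    exact H.oR1 h i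
  bd := fun X hX z hz => by
    rw [ESym_conj_sum, ESym_nc]
    exact H.bd X hX _ (by rw [ESym_nc]; exact hz)

theorem HypE3.rot {md : ℕ} {q t : ℂ} {v : ℤ → ℂ} (H : HypE3 md q t v) (w : ℂ) (hw : w ^ 3 = 1) :
    HypE3 md q (w * t) (fun n => v n * (w⁻¹) ^ n.toNat) := by
  have hwt : ‖w * t‖ = ‖t‖ := by rw [norm_mul, ESym_wn hw, one_mul]
  have hw3 : (w⁻¹) ^ 3 = 1 := by rw [inv_pow, hw, inv_one]
  refine ⟨?_, ?_, ?_, ?_, ?_, ?_, ?_, ?_, ?_⟩
  · show v (-2) * (w⁻¹) ^ 0 = 1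
    rw [H.v2, pow_zero, one_mul]
  · show v (-1) * (w⁻¹) ^ 0 = 1
    rw [H.v1, pow_zero, one_mul]
  · show v 0 * (w⁻¹) ^ 0 = 1
    rw [H.v0, pow_zero, one_mul]
  · show v 3 * (w⁻¹) ^ 3 = 1
    rw [H.v3, hw3, one_mul]
  · rw [hwt]
    exact H.t_le
  · intro i
    show ‖v (-3 - (i : ℤ)) * (w⁻¹) ^ (-3 - (i : ℤ)).toNat‖ ≤ _
    rw [ESym_rot_norm hw, hwt]
    exact H.oL i
  · intro h i
    show ‖v (4 + (i : ℤ)) * (w⁻¹) ^ (4 + (i : ℤ)).toNat‖ ^ 3 ≤ _
    rw [ESym_rot_norm hw]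
    exact H.oR0 h i
  · intro h i
    show ‖v (4 + (i : ℤ)) * (w⁻¹) ^ (4 + (i : ℤ)).toNat‖ ^ 3 ≤ _
    rw [ESym_rot_norm hw]
    exact H.oR1 h i
  · intro X hX z hz
    obtain ⟨z', hz', e⟩ := ESym_rot_sum 1 X q t v z hw hz
    rw [e]
    exact H.bd X hX z' hz'

theorem HypE32.conj {md : ℕ} {s t : ℂ} {v : ℤ → ℂ} (H : HypE32 md s t v) :
    HypE32 md ((starRingEnd ℂ) s) ((starRingEnd ℂ) t) (fun n => (starRingEnd ℂ) (v n)) where
  v4 := by rw [H.v4, map_one]
  v2 := by rw [H.v2, map_one]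
  v0 := by rw [H.v0, map_one]
  v3 := by rw [H.v3, map_one]
  t_le := by
    rw [ESym_nc, ESym_nc]
    exact H.t_le
  oL := fun i => by
    rw [ESym_nc, ESym_nc]
    exact H.oL i
  oR0 := fun h i => by
    rw [ESym_nc, ESym_nc]
    exact H.oR0 h i
  oR1 := fun h i => by
    rw [ESym_nc, ESym_nc]
    exact H.oR1 h i
  bd := fun X hX z hz => by
    rw [ESym_conj_sum, ESym_nc]
    exact H.bd X hX _ (by rw [ESym_nc]; exact hz)

theorem HypE32.rot {md : ℕ} {s t : ℂ} {v : ℤ → ℂ} (H : HypE32 md s t v) (w : ℂ) (hw : w ^ 3 = 1) :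
    HypE32 md s (w * t) (fun n => v n * (w⁻¹) ^ n.toNat) := by
  have hwt : ‖w * t‖ = ‖t‖ := by rw [norm_mul, ESym_wn hw, one_mul]
  have hw3 : (w⁻¹) ^ 3 = 1 := by rw [inv_pow, hw, inv_one]
  refine ⟨?_, ?_, ?_, ?_, ?_, ?_, ?_, ?_, ?_⟩
  · show v (-4) * (w⁻¹) ^ 0 = 1
    rw [H.v4, pow_zero, one_mul]
  · show v (-2) * (w⁻¹) ^ 0 = 1
    rw [H.v2, pow_zero, one_mul]
  · show v 0 * (w⁻¹) ^ 0 = 1
    rw [H.v0, pow_zero, one_mul]
  · show v 3 * (w⁻¹) ^ 3 = 1
    rw [H.v3, hw3, one_mul]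
  · rw [hwt]
    exact H.t_le
  · intro i
    show ‖v (-5 - (i : ℤ)) * (w⁻¹) ^ (-5 - (i : ℤ)).toNat‖ ≤ _
    rw [ESym_rot_norm hw, hwt]
    exact H.oL i
  · intro h i
    show ‖v (4 + (i : ℤ)) * (w⁻¹) ^ (4 + (i : ℤ)).toNat‖ ^ 3 ≤ _
    rw [ESym_rot_norm hw]
    exact H.oR0 h i
  · intro h i
    show ‖v (4 + (i : ℤ)) * (w⁻¹) ^ (4 + (i : ℤ)).toNat‖ ^ 3 ≤ _
    rw [ESym_rot_norm hw]
    exact H.oR1 h i
  · intro X hX z hz
    obtain ⟨z', hz', e⟩ := ESym_rot_sum 2 X s t v z hw hz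
    rw [e]
    exact H.bd X hX z' hz'

theorem HypE32.neg {md : ℕ} {s t : ℂ} {v : ℤ → ℂ} (H : HypE32 md s t v) :
    HypE32 md s (-t) (fun n => v n * (-1) ^ (-n).toNat) := by
  refine ⟨?_, ?_, ?_, ?_, ?_, ?_, ?_, ?_, ?_⟩
  · show v (-4) * (-1) ^ 4 = 1
    rw [H.v4]
    norm_num
  · show v (-2) * (-1) ^ 2 = 1
    rw [H.v2]
    norm_num
  · show v 0 * (-1) ^ 0 = 1
    rw [H.v0, pow_zero, one_mul]
  · show v 3 * (-1) ^ 0 = 1
    rw [H.v3, pow_zero, one_mul]
  · rw [norm_neg]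
    exact H.t_le
  · intro i
    show ‖v (-5 - (i : ℤ)) * (-1) ^ (-(-5 - (i : ℤ))).toNat‖ ≤ _
    rw [ESym_neg_norm, norm_neg]
    exact H.oL i
  · intro h i
    show ‖v (4 + (i : ℤ)) * (-1) ^ (-(4 + (i : ℤ))).toNat‖ ^ 3 ≤ _
    rw [ESym_neg_norm]
    exact H.oR0 h i
  · intro h i
    show ‖v (4 + (i : ℤ)) * (-1) ^ (-(4 + (i : ℤ))).toNat‖ ^ 3 ≤ _
    rw [ESym_neg_norm]
    exact H.oR1 h i
  · intro X hX z hz
    obtain ⟨z', hz', e⟩ := ESym_neg_sum 2 X s t v z hz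
    rw [e]
    exact H.bd X hX z' hz'

theorem HypE32.neg_s {md : ℕ} {s t : ℂ} {v : ℤ → ℂ} (H : HypE32 md s t v) :
    HypE32 md (-s) t (fun n => v n * (-1) ^ (-n - 2).toNat) := by
  refine ⟨?_, ?_, ?_, ?_, ?_, ?_, ?_, ?_, ?_⟩
  · show v (-4) * (-1) ^ 2 = 1
    rw [H.v4]
    norm_num
  · show v (-2) * (-1) ^ 0 = 1
    rw [H.v2, pow_zero, one_mul]
  · show v 0 * (-1) ^ 0 = 1
    rw [H.v0, pow_zero, one_mul]
  · show v 3 * (-1) ^ 0 = 1
    rw [H.v3, pow_zero, one_mul]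
  · rw [norm_neg]
    exact H.t_le
  · intro i
    show ‖v (-5 - (i : ℤ)) * (-1) ^ (-(-5 - (i : ℤ)) - 2).toNat‖ ≤ _
    rw [ESym_neg_norm]
    exact H.oL i
  · intro h i
    show ‖v (4 + (i : ℤ)) * (-1) ^ (-(4 + (i : ℤ)) - 2).toNat‖ ^ 3 ≤ _
    rw [ESym_neg_norm, norm_neg]
    exact H.oR0 h i
  · intro h i
    show ‖v (4 + (i : ℤ)) * (-1) ^ (-(4 + (i : ℤ)) - 2).toNat‖ ^ 3 ≤ _
    rw [ESym_neg_norm, norm_neg]
    exact H.oR1 h i
  · intro X hX z hz
    obtain ⟨z', hz', e⟩ := ESym_negs_sum X s t v z hz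
    rw [e]
    exact H.bd X hX z' hz'

/-- the cube root of unity `(-1 + i √3) / 2` -/
private noncomputable def ESym_om : ℂ := ⟨-1 / 2, √3 / 2⟩

private theorem ESym_om3 : ESym_om ^ 3 = 1 := by
  have h3 : √3 * √3 = 3 := Real.mul_self_sqrt (by norm_num)
  apply Complex.ext
  · simp only [ESym_om, pow_succ, pow_zero, one_mul, Complex.mul_re, Complex.mul_im, Complex.one_re]
    linear_combination (3 / 8) * h3
  · simp only [ESym_om, pow_succ, pow_zero, one_mul, Complex.mul_re, Complex.mul_im, Complex.one_im]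
    linear_combination (-√3 / 8) * h3

private theorem ESym_om_re (u : ℂ) : (ESym_om * u).re = (-u.re - √3 * u.im) / 2 := by
  simp only [ESym_om, Complex.mul_re]
  ring

private theorem ESym_om_im (u : ℂ) : (ESym_om * u).im = (√3 * u.re - u.im) / 2 := by
  simp only [ESym_om, Complex.mul_im]
  ring

/-- the sector condition at the rotation with the largest real part -/
private theorem ESym_sector {u : ℂ} (hu : u ≠ 0) (h1 : (ESym_om * u).re ≤ u.re)
    (h2 : (ESym_om ^ 2 * u).re ≤ u.re) : 0 < u.re ∧ u.im ^ 2 ≤ 3 * u.re ^ 2 := by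
  have h3 : √3 * √3 = 3 := Real.mul_self_sqrt (by norm_num)
  have h30 : 0 < √3 := Real.sqrt_pos.2 (by norm_num)
  have e2 : ESym_om ^ 2 * u = ESym_om * (ESym_om * u) := by ring
  rw [e2, ESym_om_re, ESym_om_re, ESym_om_im] at h2
  rw [ESym_om_re] at h1
  have a1 : 0 ≤ √3 * u.re + u.im := by
    have : 0 ≤ √3 * (√3 * u.re + u.im) := by
      have e : √3 * (√3 * u.re + u.im) = 3 * u.re + √3 * u.im := by
        linear_combination u.re * h3
      rw [e]
      linarith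
    exact nonneg_of_mul_nonneg_right this h30
  have a2 : 0 ≤ √3 * u.re - u.im := by
    have : 0 ≤ √3 * (√3 * u.re - u.im) := by
      have e : √3 * (√3 * u.re - u.im) = 3 * u.re - √3 * u.im := by
        linear_combination u.re * h3
      rw [e]
      have e3 : (-((-u.re - √3 * u.im) / 2) - √3 * ((√3 * u.re - u.im) / 2)) / 2 =
          (-u.re + √3 * u.im) / 2 := by
        linear_combination (-u.re / 4) * h3
      rw [e3] at h2
      linarith
    exact nonneg_of_mul_nonneg_right this h30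
  have a3 : 0 ≤ u.re := by
    have : 0 ≤ √3 * u.re := by linarith
    exact nonneg_of_mul_nonneg_right this h30
  have a4 : u.im ^ 2 ≤ 3 * u.re ^ 2 := by
    have := mul_nonneg a1 a2
    have e : (√3 * u.re + u.im) * (√3 * u.re - u.im) = 3 * u.re ^ 2 - u.im ^ 2 := by
      linear_combination u.re ^ 2 * h3
    rw [e] at this
    linarith
  refine ⟨lt_of_le_of_ne a3 ?_, a4⟩
  intro h0
  apply hu
  rw [← h0] at a4
  have h5 : u.im = 0 := by
    have : u.im ^ 2 ≤ 0 := by linarith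
    have h6 := le_antisymm this (sq_nonneg _)
    exact pow_eq_zero_iff (two_ne_zero) |>.1 h6
  exact Complex.ext h0.symm h5

/-- rotation into the sector `|arg| ≤ 60` -/
theorem exists_rot3 {t : ℂ} (ht : t ≠ 0) :
    ∃ w : ℂ, w ^ 3 = 1 ∧ 0 < (w * t).re ∧ (w * t).im ^ 2 ≤ 3 * (w * t).re ^ 2 := by
  have o3 := ESym_om3
  have o0 : ESym_om ≠ 0 := ESym_w0 o3
  set a := t.re with ha
  set b := (ESym_om * t).re with hb
  set c := (ESym_om ^ 2 * t).re with hc
  have e1 : ESym_om * (ESym_om * t) = ESym_om ^ 2 * t := by ring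
  have e2 : ESym_om ^ 2 * (ESym_om * t) = t := by
    have : ESym_om ^ 2 * (ESym_om * t) = ESym_om ^ 3 * t := by ring
    rw [this, o3, one_mul]
  have e3 : ESym_om * (ESym_om ^ 2 * t) = t := by
    have : ESym_om * (ESym_om ^ 2 * t) = ESym_om ^ 3 * t := by ring
    rw [this, o3, one_mul]
  have e4 : ESym_om ^ 2 * (ESym_om ^ 2 * t) = ESym_om * t := by
    have : ESym_om ^ 2 * (ESym_om ^ 2 * t) = ESym_om ^ 3 * (ESym_om * t) := by ring
    rw [this, o3, one_mul]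
  by_cases h1 : b ≤ a ∧ c ≤ a
  · refine ⟨1, one_pow 3, ?_⟩
    rw [one_mul]
    exact ESym_sector ht h1.1 h1.2
  · by_cases h2 : a ≤ b ∧ c ≤ b
    · refine ⟨ESym_om, o3, ?_⟩
      refine ESym_sector (mul_ne_zero o0 ht) ?_ ?_
      · rw [e1]
        exact h2.2
      · rw [e2]
        exact h2.1
    · refine ⟨ESym_om ^ 2, ?_, ?_⟩
      · have : (ESym_om ^ 2) ^ 3 = (ESym_om ^ 3) ^ 2 := by ring
        rw [this, o3, one_pow]
      · have h3 : a ≤ c ∧ b ≤ c := by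
          rw [not_and_or, not_le, not_le] at h1 h2
          constructor
          · rcases h1 with h1 | h1
            · rcases h2 with h2 | h2 <;> linarith
            · linarith
          · rcases h2 with h2 | h2
            · rcases h1 with h1 | h1 <;> linarith
            · linarith
        refine ESym_sector (mul_ne_zero (pow_ne_zero 2 o0) ht) ?_ ?_
        · rw [e3]
          exact h3.1
        · rw [e4]
          exact h3.2

/-- rotation into the sector `|arg| ≤ 30` -/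
theorem exists_rot6 {t : ℂ} (ht : t ≠ 0) :
    ∃ w : ℂ, w ^ 3 = 1 ∧ ((0 < (w * t).re ∧ 3 * (w * t).im ^ 2 ≤ (w * t).re ^ 2) ∨
      (0 < (w * -t).re ∧ 3 * (w * -t).im ^ 2 ≤ (w * -t).re ^ 2)) := by
  obtain ⟨w, hw, hre, him⟩ := exists_rot3 ht
  have o3 := ESym_om3
  have h3 : √3 * √3 = 3 := Real.mul_self_sqrt (by norm_num)
  have h30 : 0 < √3 := Real.sqrt_pos.2 (by norm_num)
  by_cases h : 3 * (w * t).im ^ 2 ≤ (w * t).re ^ 2
  · exact ⟨w, hw, Or.inl ⟨hre, h⟩⟩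
  · rw [not_le] at h
    set a := (w * t).re with ha
    set b := (w * t).im with hb
    have hb1 : |b| ≤ √3 * a := by
      apply abs_le_of_sq_le_sq _ (by positivity)
      have : (√3 * a) ^ 2 = 3 * a ^ 2 := by
        linear_combination a ^ 2 * h3
      rw [this]
      exact him
    have hb2 : a < √3 * |b| := by
      have h5 : a ^ 2 < (√3 * |b|) ^ 2 := by
        have : (√3 * |b|) ^ 2 = 3 * b ^ 2 := by
          rw [mul_pow, sq_abs]
          linear_combination b ^ 2 * h3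
        rw [this]
        exact h
      exact lt_of_pow_lt_pow_left₀ 2 (by positivity) h5
    rcases le_total 0 b with hb0 | hb0
    · rw [abs_of_nonneg hb0] at hb1 hb2
      refine ⟨ESym_om * w, ?_, Or.inr ?_⟩
      · rw [mul_pow, o3, hw, one_mul]
      · have e1 : ESym_om * w * -t = -(ESym_om * (w * t)) := by ring
        rw [e1, Complex.neg_re, Complex.neg_im, ESym_om_re, ESym_om_im, ← ha, ← hb]
        constructor
        · have : 0 ≤ √3 * b := by positivity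
          linarith
        · have k1 : 0 ≤ √3 * b - a := by linarith
          have k2 : 0 ≤ √3 * (√3 * a - b) := by
            apply mul_nonneg h30.le
            linarith
          have k3 : 0 ≤ (√3 * b - a) * (2 * a) := mul_nonneg k1 (by linarith)
          have k4 : (-((-a - √3 * b) / 2)) ^ 2 - 3 * (-((√3 * a - b) / 2)) ^ 2 =
              (√3 * b - a) * (2 * a) := by
            linear_combination (-3 * a ^ 2 / 4 + b ^ 2 / 4) * h3
          linarith
    · rw [abs_of_nonpos hb0] at hb1 hb2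
      refine ⟨ESym_om ^ 2 * w, ?_, Or.inr ?_⟩
      · have e : (ESym_om ^ 2 * w) ^ 3 = (ESym_om ^ 3) ^ 2 * w ^ 3 := by ring
        rw [e, o3, hw]
        norm_num
      · have e1 : ESym_om ^ 2 * w * -t = -(ESym_om * (ESym_om * (w * t))) := by ring
        rw [e1, Complex.neg_re, Complex.neg_im]
        simp only [ESym_om_re, ESym_om_im, ← ha, ← hb]
        have r1 : -((-((-a - √3 * b) / 2) - √3 * ((√3 * a - b) / 2)) / 2) = (a - √3 * b) / 2 := by
          linear_combination (a / 4) * h3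
        have r2 : -((√3 * ((-a - √3 * b) / 2) - (√3 * a - b) / 2) / 2) = (√3 * a + b) / 2 := by
          linear_combination (b / 4) * h3
        rw [r1, r2]
        constructor
        · have : 0 ≤ √3 * (-b) := mul_nonneg h30.le (by linarith)
          linarith
        · have k1 : 0 ≤ -(√3 * b) - a := by linarith
          have k3 : 0 ≤ (-(√3 * b) - a) * (2 * a) := mul_nonneg k1 (by linarith)
          have k4 : ((a - √3 * b) / 2) ^ 2 - 3 * ((√3 * a + b) / 2) ^ 2 =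
              (-(√3 * b) - a) * (2 * a) := by
            linear_combination (-3 * a ^ 2 / 4 + b ^ 2 / 4) * h3
          linarith

theorem HypE3.normalize {md : ℕ} {q t : ℂ} {v : ℤ → ℂ} (H : HypE3 md q t v) (ht : t ≠ 0) :
    ∃ q' t' v', HypE3 md q' t' v' ∧ ‖q'‖ = ‖q‖ ∧ q'.re = q.re ∧ q'.im = |q.im| ∧ 0 < t'.re ∧
      t'.im ^ 2 ≤ 3 * t'.re ^ 2 := by
  obtain ⟨q', t', v', H', h1, h2, h3, h4⟩ : ∃ q' t' v', HypE3 md q' t' v' ∧ ‖q'‖ = ‖q‖ ∧
      q'.re = q.re ∧ q'.im = |q.im| ∧ t' ≠ 0 := by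
    rcases le_total 0 q.im with h | h
    · exact ⟨q, t, v, H, rfl, rfl, (abs_of_nonneg h).symm, ht⟩
    · refine ⟨_, _, _, H.conj, ESym_nc q, Complex.conj_re q, ?_, ?_⟩
      · rw [Complex.conj_im, abs_of_nonpos h]
      · rw [Ne, map_eq_zero]
        exact ht
  obtain ⟨w, hw, r1, r2⟩ := exists_rot3 h4
  exact ⟨q', _, _, H'.rot w hw, h1, h2, h3, r1, r2⟩

theorem HypE32.normalize {md : ℕ} {s t : ℂ} {v : ℤ → ℂ} (H : HypE32 md s t v) (ht : t ≠ 0) :
    ∃ s' t' v', HypE32 md s' t' v' ∧ ‖s'‖ = ‖s‖ ∧ s'.re = |s.re| ∧ s'.im = |s.im| ∧ 0 < t'.re ∧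
      3 * t'.im ^ 2 ≤ t'.re ^ 2 := by
  obtain ⟨s1, t1, v1, H1, a1, a2, a3, a4⟩ : ∃ s' t' v', HypE32 md s' t' v' ∧ ‖s'‖ = ‖s‖ ∧
      s'.re = |s.re| ∧ |s'.im| = |s.im| ∧ t' ≠ 0 := by
    rcases le_total 0 s.re with h | h
    · exact ⟨s, t, v, H, rfl, (abs_of_nonneg h).symm, rfl, ht⟩
    · refine ⟨_, _, _, H.neg_s, norm_neg s, ?_, ?_, ht⟩
      · rw [Complex.neg_re, abs_of_nonpos h]
      · rw [Complex.neg_im, abs_neg]
  obtain ⟨s2, t2, v2, H2, b1, b2, b3, b4⟩ : ∃ s' t' v', HypE32 md s' t' v' ∧ ‖s'‖ = ‖s‖ ∧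
      s'.re = |s.re| ∧ s'.im = |s.im| ∧ t' ≠ 0 := by
    rcases le_total 0 s1.im with h | h
    · exact ⟨s1, t1, v1, H1, a1, a2, by rw [← a3, abs_of_nonneg h], a4⟩
    · refine ⟨_, _, _, H1.conj, (ESym_nc s1).trans a1, (Complex.conj_re s1).trans a2, ?_, ?_⟩
      · rw [Complex.conj_im, ← a3, abs_of_nonpos h]
      · rw [Ne, map_eq_zero]
        exact a4
  obtain ⟨w, hw, r | r⟩ := exists_rot6 b4
  · exact ⟨s2, _, _, H2.rot w hw, b1, b2, b3, r.1, r.2⟩
  · exact ⟨s2, _, _, H2.neg.rot w hw, b1, b2, b3, r.1, r.2⟩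

end Pool.Agent.MaxTerm58
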