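import Mathlib

namespace Pool.Agent.MaxTerm58

/-- the region where the matched configurations are excluded by the three corner certificates -/
def InU (x y : ℝ) : Prop :=
  (-3 / 4 ≤ x ∧ x ≤ -5 / 8 ∧ y ≤ 3 / 8) ∨ (-5 / 8 ≤ x ∧ x ≤ -1 / 2 ∧ y ≤ 1 / 2) ∨
    (-1 / 2 ≤ x ∧ x ≤ -1 / 4 ∧ y ≤ 5 / 8) ∨ (-1 / 4 ≤ x ∧ x ≤ -1 / 8 ∧ 1 / 8 ≤ y ∧ y ≤ 1 / 2)

end Pool.Agent.MaxTerm58
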