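import Pool.Agent.MaxTerm58.TreeF3
import Pool.Agent.MaxTerm58.Region
import Pool.Agent.MaxTerm58.DF3_m11_1
import Pool.Agent.MaxTerm58.DF3_m11_3
import Pool.Agent.MaxTerm58.DF3_m11_5
import Pool.Agent.MaxTerm58.DF3_m9_1
import Pool.Agent.MaxTerm58.DF3_m9_3
import Pool.Agent.MaxTerm58.DF3_m9_5
import Pool.Agent.MaxTerm58.DF3_m9_7
import Pool.Agent.MaxTerm58.DF3_m7_1
import Pool.Agent.MaxTerm58.DF3_m7_3
import Pool.Agent.MaxTerm58.DF3_m7_5
import Pool.Agent.MaxTerm58.DF3_m7_7
import Pool.Agent.MaxTerm58.DF3_m7_9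
import Pool.Agent.MaxTerm58.DF3_m5_1
import Pool.Agent.MaxTerm58.DF3_m5_3
import Pool.Agent.MaxTerm58.DF3_m5_5
import Pool.Agent.MaxTerm58.DF3_m5_7
import Pool.Agent.MaxTerm58.DF3_m5_9
import Pool.Agent.MaxTerm58.DF3_m3_3
import Pool.Agent.MaxTerm58.DF3_m3_5
import Pool.Agent.MaxTerm58.DF3_m3_7

/-! The exclusion of matched configurations. -/

namespace Pool.Agent.MaxTerm58

theorem inSq_of (q : ℂ) (a b : ℤ) (x y : ℕ) (hx : (x : ℝ) = 100000 + a) (hy : (y : ℝ) = 100000 + b)
    (h1 : (a : ℝ) - 1 ≤ q.re * 16) (h2 : q.re * 16 ≤ a + 1) (h3 : (b : ℝ) - 1 ≤ q.im * 16)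
    (h4 : q.im * 16 ≤ b + 1) : InSq q x y 16 := by
  refine ⟨abs_le.2 ⟨?_, ?_⟩, abs_le.2 ⟨?_, ?_⟩⟩ <;> push_cast <;> linarith

theorem sq_m11_1 : SquareF3 99989 100001 16 := square_of_chk _ _ _ _ chk_m11_1
theorem sq_m11_3 : SquareF3 99989 100003 16 := square_of_chk _ _ _ _ chk_m11_3
theorem sq_m11_5 : SquareF3 99989 100005 16 := square_of_chk _ _ _ _ chk_m11_5
theorem sq_m9_1 : SquareF3 99991 100001 16 := square_of_chk _ _ _ _ chk_m9_1
theorem sq_m9_3 : SquareF3 99991 100003 16 := square_of_chk _ _ _ _ chk_m9_3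
theorem sq_m9_5 : SquareF3 99991 100005 16 := square_of_chk _ _ _ _ chk_m9_5
theorem sq_m9_7 : SquareF3 99991 100007 16 := square_of_chk _ _ _ _ chk_m9_7
theorem sq_m7_1 : SquareF3 99993 100001 16 := square_of_chk _ _ _ _ chk_m7_1
theorem sq_m7_3 : SquareF3 99993 100003 16 := square_of_chk _ _ _ _ chk_m7_3
theorem sq_m7_5 : SquareF3 99993 100005 16 := square_of_chk _ _ _ _ chk_m7_5
theorem sq_m7_7 : SquareF3 99993 100007 16 := square_of_chk _ _ _ _ chk_m7_7
theorem sq_m7_9 : SquareF3 99993 100009 16 := square_of_chk _ _ _ _ chk_m7_9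
theorem sq_m5_1 : SquareF3 99995 100001 16 := square_of_chk _ _ _ _ chk_m5_1
theorem sq_m5_3 : SquareF3 99995 100003 16 := square_of_chk _ _ _ _ chk_m5_3
theorem sq_m5_5 : SquareF3 99995 100005 16 := square_of_chk _ _ _ _ chk_m5_5
theorem sq_m5_7 : SquareF3 99995 100007 16 := square_of_chk _ _ _ _ chk_m5_7
theorem sq_m5_9 : SquareF3 99995 100009 16 := square_of_chk _ _ _ _ chk_m5_9
theorem sq_m3_3 : SquareF3 99997 100003 16 := square_of_chk _ _ _ _ chk_m3_3
theorem sq_m3_5 : SquareF3 99997 100005 16 := square_of_chk _ _ _ _ chk_m3_5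
theorem sq_m3_7 : SquareF3 99997 100007 16 := square_of_chk _ _ _ _ chk_m3_7

theorem f3_upper {q p : ℂ} {l r : ℕ → ℂ} (H : HypF3 q p l r) (h1 : 17 / 50 ≤ ‖q‖) (h2 : ‖q‖ ≤ 3 / 4)
    (h0 : 0 ≤ q.im) (hU : InU q.re q.im) : False := by
  rcases hU with ⟨a1, a2, a3⟩ | ⟨a1, a2, a3⟩ | ⟨a1, a2, a3⟩ | ⟨a1, a2, a3, a4⟩
  · rcases le_total q.im (2 / 16) with b0 | b0
    · exact sq_m11_1 q p l r H h1 h2 (inSq_of q (-11) 1 _ _ (by norm_num) (by norm_num) (by push_cast; linarith) (by push_cast; linarith) (by push_cast; linarith) (by push_cast; linarith))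
    rcases le_total q.im (4 / 16) with b1 | b1
    · exact sq_m11_3 q p l r H h1 h2 (inSq_of q (-11) 3 _ _ (by norm_num) (by norm_num) (by push_cast; linarith) (by push_cast; linarith) (by push_cast; linarith) (by push_cast; linarith))
    exact sq_m11_5 q p l r H h1 h2 (inSq_of q (-11) 5 _ _ (by norm_num) (by norm_num) (by push_cast; linarith) (by push_cast; linarith) (by push_cast; linarith) (by push_cast; linarith))
  · rcases le_total q.im (2 / 16) with b0 | b0
    · exact sq_m9_1 q p l r H h1 h2 (inSq_of q (-9) 1 _ _ (by norm_num) (by norm_num) (by push_cast; linarith) (by push_cast; linarith) (by push_cast; linarith) (by push_cast; linarith))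
    rcases le_total q.im (4 / 16) with b1 | b1
    · exact sq_m9_3 q p l r H h1 h2 (inSq_of q (-9) 3 _ _ (by norm_num) (by norm_num) (by push_cast; linarith) (by push_cast; linarith) (by push_cast; linarith) (by push_cast; linarith))
    rcases le_total q.im (6 / 16) with b2 | b2
    · exact sq_m9_5 q p l r H h1 h2 (inSq_of q (-9) 5 _ _ (by norm_num) (by norm_num) (by push_cast; linarith) (by push_cast; linarith) (by push_cast; linarith) (by push_cast; linarith))
    exact sq_m9_7 q p l r H h1 h2 (inSq_of q (-9) 7 _ _ (by norm_num) (by norm_num) (by push_cast; linarith) (by push_cast; linarith) (by push_cast; linarith) (by push_cast; linarith))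
  · rcases le_total q.re (-3 / 8) with c | c
    · rcases le_total q.im (2 / 16) with b0 | b0
      · exact sq_m7_1 q p l r H h1 h2 (inSq_of q (-7) 1 _ _ (by norm_num) (by norm_num) (by push_cast; linarith) (by push_cast; linarith) (by push_cast; linarith) (by push_cast; linarith))
      rcases le_total q.im (4 / 16) with b1 | b1
      · exact sq_m7_3 q p l r H h1 h2 (inSq_of q (-7) 3 _ _ (by norm_num) (by norm_num) (by push_cast; linarith) (by push_cast; linarith) (by push_cast; linarith) (by push_cast; linarith))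
      rcases le_total q.im (6 / 16) with b2 | b2
      · exact sq_m7_5 q p l r H h1 h2 (inSq_of q (-7) 5 _ _ (by norm_num) (by norm_num) (by push_cast; linarith) (by push_cast; linarith) (by push_cast; linarith) (by push_cast; linarith))
      rcases le_total q.im (8 / 16) with b3 | b3
      · exact sq_m7_7 q p l r H h1 h2 (inSq_of q (-7) 7 _ _ (by norm_num) (by norm_num) (by push_cast; linarith) (by push_cast; linarith) (by push_cast; linarith) (by push_cast; linarith))
      exact sq_m7_9 q p l r H h1 h2 (inSq_of q (-7) 9 _ _ (by norm_num) (by norm_num) (by push_cast; linarith) (by push_cast; linarith) (by push_cast; linarith) (by push_cast; linarith))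
    · rcases le_total q.im (2 / 16) with b0 | b0
      · exact sq_m5_1 q p l r H h1 h2 (inSq_of q (-5) 1 _ _ (by norm_num) (by norm_num) (by push_cast; linarith) (by push_cast; linarith) (by push_cast; linarith) (by push_cast; linarith))
      rcases le_total q.im (4 / 16) with b1 | b1
      · exact sq_m5_3 q p l r H h1 h2 (inSq_of q (-5) 3 _ _ (by norm_num) (by norm_num) (by push_cast; linarith) (by push_cast; linarith) (by push_cast; linarith) (by push_cast; linarith))
      rcases le_total q.im (6 / 16) with b2 | b2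
      · exact sq_m5_5 q p l r H h1 h2 (inSq_of q (-5) 5 _ _ (by norm_num) (by norm_num) (by push_cast; linarith) (by push_cast; linarith) (by push_cast; linarith) (by push_cast; linarith))
      rcases le_total q.im (8 / 16) with b3 | b3
      · exact sq_m5_7 q p l r H h1 h2 (inSq_of q (-5) 7 _ _ (by norm_num) (by norm_num) (by push_cast; linarith) (by push_cast; linarith) (by push_cast; linarith) (by push_cast; linarith))
      exact sq_m5_9 q p l r H h1 h2 (inSq_of q (-5) 9 _ _ (by norm_num) (by norm_num) (by push_cast; linarith) (by push_cast; linarith) (by push_cast; linarith) (by push_cast; linarith))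
  · rcases le_total q.im (4 / 16) with b0 | b0
    · exact sq_m3_3 q p l r H h1 h2 (inSq_of q (-3) 3 _ _ (by norm_num) (by norm_num) (by push_cast; linarith) (by push_cast; linarith) (by push_cast; linarith) (by push_cast; linarith))
    rcases le_total q.im (6 / 16) with b1 | b1
    · exact sq_m3_5 q p l r H h1 h2 (inSq_of q (-3) 5 _ _ (by norm_num) (by norm_num) (by push_cast; linarith) (by push_cast; linarith) (by push_cast; linarith) (by push_cast; linarith))
    exact sq_m3_7 q p l r H h1 h2 (inSq_of q (-3) 7 _ _ (by norm_num) (by norm_num) (by push_cast; linarith) (by push_cast; linarith) (by push_cast; linarith) (by push_cast; linarith))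

/-- no matched configuration with `q` in the region -/
theorem f3_final {q p : ℂ} {l r : ℕ → ℂ} (H : HypF3 q p l r) (h1 : 17 / 50 ≤ ‖q‖) (h2 : ‖q‖ ≤ 3 / 4)
    (hU : InU q.re |q.im|) : False := by
  rcases le_total 0 q.im with h0 | h0
  · rw [abs_of_nonneg h0] at hU
    exact f3_upper H h1 h2 h0 hU
  · rw [abs_of_nonpos h0] at hU
    refine f3_upper H.conj ?_ ?_ ?_ ?_
    · rwa [RCLike.norm_conj]
    · rwa [RCLike.norm_conj]
    · simpa using h0
    · simpa using hU

end Pool.Agent.MaxTerm58
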