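import Pool.Agent.MaxTerm58.ETree
import Pool.Agent.MaxTerm58.ESym
import Pool.Agent.MaxTerm58.FinalF3
import Pool.Agent.MaxTerm58.DEN3_m11_1
import Pool.Agent.MaxTerm58.DEN3_m11_3
import Pool.Agent.MaxTerm58.DEN3_m11_5
import Pool.Agent.MaxTerm58.DEN3_m9_1
import Pool.Agent.MaxTerm58.DEN3_m9_3
import Pool.Agent.MaxTerm58.DEN3_m9_5
import Pool.Agent.MaxTerm58.DEN3_m9_7
import Pool.Agent.MaxTerm58.DEN3_m7_1
import Pool.Agent.MaxTerm58.DEN3_m7_3
import Pool.Agent.MaxTerm58.DEN3_m7_5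
import Pool.Agent.MaxTerm58.DEN3_m7_7
import Pool.Agent.MaxTerm58.DEN3_m5_1
import Pool.Agent.MaxTerm58.DEN3_m5_3
import Pool.Agent.MaxTerm58.DEN3_m5_5
import Pool.Agent.MaxTerm58.DEN3_m5_7
import Pool.Agent.MaxTerm58.DEN3_m3_3
import Pool.Agent.MaxTerm58.DEN3_m3_5
import Pool.Agent.MaxTerm58.DEN3_m3_7
import Pool.Agent.MaxTerm58.DEM3_m11_1
import Pool.Agent.MaxTerm58.DEM3_m11_3
import Pool.Agent.MaxTerm58.DEM3_m11_5
import Pool.Agent.MaxTerm58.DEM3_m9_1
import Pool.Agent.MaxTerm58.DEM3_m9_3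
import Pool.Agent.MaxTerm58.DEM3_m9_5
import Pool.Agent.MaxTerm58.DEM3_m9_7
import Pool.Agent.MaxTerm58.DEM3_m7_1
import Pool.Agent.MaxTerm58.DEM3_m7_3
import Pool.Agent.MaxTerm58.DEM3_m7_5
import Pool.Agent.MaxTerm58.DEM3_m7_7
import Pool.Agent.MaxTerm58.DEM3_m5_1
import Pool.Agent.MaxTerm58.DEM3_m5_3
import Pool.Agent.MaxTerm58.DEM3_m5_5
import Pool.Agent.MaxTerm58.DEM3_m5_7
import Pool.Agent.MaxTerm58.DEM3_m3_3
import Pool.Agent.MaxTerm58.DEM3_m3_5
import Pool.Agent.MaxTerm58.DEM3_m3_7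
import Pool.Agent.MaxTerm58.DEN32_p1_7
import Pool.Agent.MaxTerm58.DEN32_p1_9
import Pool.Agent.MaxTerm58.DEN32_p1_11
import Pool.Agent.MaxTerm58.DEN32_p1_13
import Pool.Agent.MaxTerm58.DEN32_p3_7
import Pool.Agent.MaxTerm58.DEN32_p3_9
import Pool.Agent.MaxTerm58.DEN32_p3_11
import Pool.Agent.MaxTerm58.DEN32_p3_13
import Pool.Agent.MaxTerm58.DEN32_p5_7
import Pool.Agent.MaxTerm58.DEN32_p5_9
import Pool.Agent.MaxTerm58.DEN32_p5_11
import Pool.Agent.MaxTerm58.DEN32_p5_13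
import Pool.Agent.MaxTerm58.DEN32_p7_7
import Pool.Agent.MaxTerm58.DEN32_p7_9
import Pool.Agent.MaxTerm58.DEN32_p7_11
import Pool.Agent.MaxTerm58.DEN32_p7_13
import Pool.Agent.MaxTerm58.DEM32_p1_7
import Pool.Agent.MaxTerm58.DEM32_p1_9
import Pool.Agent.MaxTerm58.DEM32_p1_11
import Pool.Agent.MaxTerm58.DEM32_p1_13
import Pool.Agent.MaxTerm58.DEM32_p3_7
import Pool.Agent.MaxTerm58.DEM32_p3_9
import Pool.Agent.MaxTerm58.DEM32_p3_11
import Pool.Agent.MaxTerm58.DEM32_p3_13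
import Pool.Agent.MaxTerm58.DEM32_p5_7
import Pool.Agent.MaxTerm58.DEM32_p5_9
import Pool.Agent.MaxTerm58.DEM32_p5_11
import Pool.Agent.MaxTerm58.DEM32_p5_13
import Pool.Agent.MaxTerm58.DEM32_p7_7
import Pool.Agent.MaxTerm58.DEM32_p7_9
import Pool.Agent.MaxTerm58.DEM32_p7_11
import Pool.Agent.MaxTerm58.DEM32_p7_13

/-! The exclusion of the family E. -/

namespace Pool.Agent.MaxTerm58

theorem sqEN3_m11_1 : SquareE3 0 99989 100001 16 := squareE3_of_chk _ _ _ _ _ _ chkEN3_m11_1_0 chkEN3_m11_1_1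
theorem sqEN3_m11_3 : SquareE3 0 99989 100003 16 := squareE3_of_chk _ _ _ _ _ _ chkEN3_m11_3_0 chkEN3_m11_3_1
theorem sqEN3_m11_5 : SquareE3 0 99989 100005 16 := squareE3_of_chk _ _ _ _ _ _ chkEN3_m11_5_0 chkEN3_m11_5_1
theorem sqEN3_m9_1 : SquareE3 0 99991 100001 16 := squareE3_of_chk _ _ _ _ _ _ chkEN3_m9_1_0 chkEN3_m9_1_1
theorem sqEN3_m9_3 : SquareE3 0 99991 100003 16 := squareE3_of_chk _ _ _ _ _ _ chkEN3_m9_3_0 chkEN3_m9_3_1
theorem sqEN3_m9_5 : SquareE3 0 99991 100005 16 := squareE3_of_chk _ _ _ _ _ _ chkEN3_m9_5_0 chkEN3_m9_5_1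
theorem sqEN3_m9_7 : SquareE3 0 99991 100007 16 := squareE3_of_chk _ _ _ _ _ _ chkEN3_m9_7_0 chkEN3_m9_7_1
theorem sqEN3_m7_1 : SquareE3 0 99993 100001 16 := squareE3_of_chk _ _ _ _ _ _ chkEN3_m7_1_0 chkEN3_m7_1_1
theorem sqEN3_m7_3 : SquareE3 0 99993 100003 16 := squareE3_of_chk _ _ _ _ _ _ chkEN3_m7_3_0 chkEN3_m7_3_1
theorem sqEN3_m7_5 : SquareE3 0 99993 100005 16 := squareE3_of_chk _ _ _ _ _ _ chkEN3_m7_5_0 chkEN3_m7_5_1
theorem sqEN3_m7_7 : SquareE3 0 99993 100007 16 := squareE3_of_chk _ _ _ _ _ _ chkEN3_m7_7_0 chkEN3_m7_7_1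
theorem sqEN3_m5_1 : SquareE3 0 99995 100001 16 := squareE3_of_chk _ _ _ _ _ _ chkEN3_m5_1_0 chkEN3_m5_1_1
theorem sqEN3_m5_3 : SquareE3 0 99995 100003 16 := squareE3_of_chk _ _ _ _ _ _ chkEN3_m5_3_0 chkEN3_m5_3_1
theorem sqEN3_m5_5 : SquareE3 0 99995 100005 16 := squareE3_of_chk _ _ _ _ _ _ chkEN3_m5_5_0 chkEN3_m5_5_1
theorem sqEN3_m5_7 : SquareE3 0 99995 100007 16 := squareE3_of_chk _ _ _ _ _ _ chkEN3_m5_7_0 chkEN3_m5_7_1
theorem sqEN3_m3_3 : SquareE3 0 99997 100003 16 := squareE3_of_chk _ _ _ _ _ _ chkEN3_m3_3_0 chkEN3_m3_3_1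
theorem sqEN3_m3_5 : SquareE3 0 99997 100005 16 := squareE3_of_chk _ _ _ _ _ _ chkEN3_m3_5_0 chkEN3_m3_5_1
theorem sqEN3_m3_7 : SquareE3 0 99997 100007 16 := squareE3_of_chk _ _ _ _ _ _ chkEN3_m3_7_0 chkEN3_m3_7_1
theorem sqEM3_m11_1 : SquareE3 1 99989 100001 16 := squareE3_of_chk _ _ _ _ _ _ chkEM3_m11_1_0 chkEM3_m11_1_1
theorem sqEM3_m11_3 : SquareE3 1 99989 100003 16 := squareE3_of_chk _ _ _ _ _ _ chkEM3_m11_3_0 chkEM3_m11_3_1
theorem sqEM3_m11_5 : SquareE3 1 99989 100005 16 := squareE3_of_chk _ _ _ _ _ _ chkEM3_m11_5_0 chkEM3_m11_5_1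
theorem sqEM3_m9_1 : SquareE3 1 99991 100001 16 := squareE3_of_chk _ _ _ _ _ _ chkEM3_m9_1_0 chkEM3_m9_1_1
theorem sqEM3_m9_3 : SquareE3 1 99991 100003 16 := squareE3_of_chk _ _ _ _ _ _ chkEM3_m9_3_0 chkEM3_m9_3_1
theorem sqEM3_m9_5 : SquareE3 1 99991 100005 16 := squareE3_of_chk _ _ _ _ _ _ chkEM3_m9_5_0 chkEM3_m9_5_1
theorem sqEM3_m9_7 : SquareE3 1 99991 100007 16 := squareE3_of_chk _ _ _ _ _ _ chkEM3_m9_7_0 chkEM3_m9_7_1
theorem sqEM3_m7_1 : SquareE3 1 99993 100001 16 := squareE3_of_chk _ _ _ _ _ _ chkEM3_m7_1_0 chkEM3_m7_1_1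
theorem sqEM3_m7_3 : SquareE3 1 99993 100003 16 := squareE3_of_chk _ _ _ _ _ _ chkEM3_m7_3_0 chkEM3_m7_3_1
theorem sqEM3_m7_5 : SquareE3 1 99993 100005 16 := squareE3_of_chk _ _ _ _ _ _ chkEM3_m7_5_0 chkEM3_m7_5_1
theorem sqEM3_m7_7 : SquareE3 1 99993 100007 16 := squareE3_of_chk _ _ _ _ _ _ chkEM3_m7_7_0 chkEM3_m7_7_1
theorem sqEM3_m5_1 : SquareE3 1 99995 100001 16 := squareE3_of_chk _ _ _ _ _ _ chkEM3_m5_1_0 chkEM3_m5_1_1
theorem sqEM3_m5_3 : SquareE3 1 99995 100003 16 := squareE3_of_chk _ _ _ _ _ _ chkEM3_m5_3_0 chkEM3_m5_3_1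
theorem sqEM3_m5_5 : SquareE3 1 99995 100005 16 := squareE3_of_chk _ _ _ _ _ _ chkEM3_m5_5_0 chkEM3_m5_5_1
theorem sqEM3_m5_7 : SquareE3 1 99995 100007 16 := squareE3_of_chk _ _ _ _ _ _ chkEM3_m5_7_0 chkEM3_m5_7_1
theorem sqEM3_m3_3 : SquareE3 1 99997 100003 16 := squareE3_of_chk _ _ _ _ _ _ chkEM3_m3_3_0 chkEM3_m3_3_1
theorem sqEM3_m3_5 : SquareE3 1 99997 100005 16 := squareE3_of_chk _ _ _ _ _ _ chkEM3_m3_5_0 chkEM3_m3_5_1
theorem sqEM3_m3_7 : SquareE3 1 99997 100007 16 := squareE3_of_chk _ _ _ _ _ _ chkEM3_m3_7_0 chkEM3_m3_7_1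
theorem sqEN32_p1_7 : SquareE32 0 100001 100007 16 := squareE32_of_chk _ _ _ _ _ _ chkEN32_p1_7_0 chkEN32_p1_7_1
theorem sqEN32_p1_9 : SquareE32 0 100001 100009 16 := squareE32_of_chk _ _ _ _ _ _ chkEN32_p1_9_0 chkEN32_p1_9_1
theorem sqEN32_p1_11 : SquareE32 0 100001 100011 16 := squareE32_of_chk _ _ _ _ _ _ chkEN32_p1_11_0 chkEN32_p1_11_1
theorem sqEN32_p1_13 : SquareE32 0 100001 100013 16 := squareE32_of_chk _ _ _ _ _ _ chkEN32_p1_13_0 chkEN32_p1_13_1
theorem sqEN32_p3_7 : SquareE32 0 100003 100007 16 := squareE32_of_chk _ _ _ _ _ _ chkEN32_p3_7_0 chkEN32_p3_7_1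
theorem sqEN32_p3_9 : SquareE32 0 100003 100009 16 := squareE32_of_chk _ _ _ _ _ _ chkEN32_p3_9_0 chkEN32_p3_9_1
theorem sqEN32_p3_11 : SquareE32 0 100003 100011 16 := squareE32_of_chk _ _ _ _ _ _ chkEN32_p3_11_0 chkEN32_p3_11_1
theorem sqEN32_p3_13 : SquareE32 0 100003 100013 16 := squareE32_of_chk _ _ _ _ _ _ chkEN32_p3_13_0 chkEN32_p3_13_1
theorem sqEN32_p5_7 : SquareE32 0 100005 100007 16 := squareE32_of_chk _ _ _ _ _ _ chkEN32_p5_7_0 chkEN32_p5_7_1
theorem sqEN32_p5_9 : SquareE32 0 100005 100009 16 := squareE32_of_chk _ _ _ _ _ _ chkEN32_p5_9_0 chkEN32_p5_9_1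
theorem sqEN32_p5_11 : SquareE32 0 100005 100011 16 := squareE32_of_chk _ _ _ _ _ _ chkEN32_p5_11_0 chkEN32_p5_11_1
theorem sqEN32_p5_13 : SquareE32 0 100005 100013 16 := squareE32_of_chk _ _ _ _ _ _ chkEN32_p5_13_0 chkEN32_p5_13_1
theorem sqEN32_p7_7 : SquareE32 0 100007 100007 16 := squareE32_of_chk _ _ _ _ _ _ chkEN32_p7_7_0 chkEN32_p7_7_1
theorem sqEN32_p7_9 : SquareE32 0 100007 100009 16 := squareE32_of_chk _ _ _ _ _ _ chkEN32_p7_9_0 chkEN32_p7_9_1
theorem sqEN32_p7_11 : SquareE32 0 100007 100011 16 := squareE32_of_chk _ _ _ _ _ _ chkEN32_p7_11_0 chkEN32_p7_11_1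
theorem sqEN32_p7_13 : SquareE32 0 100007 100013 16 := squareE32_of_chk _ _ _ _ _ _ chkEN32_p7_13_0 chkEN32_p7_13_1
theorem sqEM32_p1_7 : SquareE32 1 100001 100007 16 := squareE32_of_chk _ _ _ _ _ _ chkEM32_p1_7_0 chkEM32_p1_7_1
theorem sqEM32_p1_9 : SquareE32 1 100001 100009 16 := squareE32_of_chk _ _ _ _ _ _ chkEM32_p1_9_0 chkEM32_p1_9_1
theorem sqEM32_p1_11 : SquareE32 1 100001 100011 16 := squareE32_of_chk _ _ _ _ _ _ chkEM32_p1_11_0 chkEM32_p1_11_1
theorem sqEM32_p1_13 : SquareE32 1 100001 100013 16 := squareE32_of_chk _ _ _ _ _ _ chkEM32_p1_13_0 chkEM32_p1_13_1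
theorem sqEM32_p3_7 : SquareE32 1 100003 100007 16 := squareE32_of_chk _ _ _ _ _ _ chkEM32_p3_7_0 chkEM32_p3_7_1
theorem sqEM32_p3_9 : SquareE32 1 100003 100009 16 := squareE32_of_chk _ _ _ _ _ _ chkEM32_p3_9_0 chkEM32_p3_9_1
theorem sqEM32_p3_11 : SquareE32 1 100003 100011 16 := squareE32_of_chk _ _ _ _ _ _ chkEM32_p3_11_0 chkEM32_p3_11_1
theorem sqEM32_p3_13 : SquareE32 1 100003 100013 16 := squareE32_of_chk _ _ _ _ _ _ chkEM32_p3_13_0 chkEM32_p3_13_1
theorem sqEM32_p5_7 : SquareE32 1 100005 100007 16 := squareE32_of_chk _ _ _ _ _ _ chkEM32_p5_7_0 chkEM32_p5_7_1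
theorem sqEM32_p5_9 : SquareE32 1 100005 100009 16 := squareE32_of_chk _ _ _ _ _ _ chkEM32_p5_9_0 chkEM32_p5_9_1
theorem sqEM32_p5_11 : SquareE32 1 100005 100011 16 := squareE32_of_chk _ _ _ _ _ _ chkEM32_p5_11_0 chkEM32_p5_11_1
theorem sqEM32_p5_13 : SquareE32 1 100005 100013 16 := squareE32_of_chk _ _ _ _ _ _ chkEM32_p5_13_0 chkEM32_p5_13_1
theorem sqEM32_p7_7 : SquareE32 1 100007 100007 16 := squareE32_of_chk _ _ _ _ _ _ chkEM32_p7_7_0 chkEM32_p7_7_1
theorem sqEM32_p7_9 : SquareE32 1 100007 100009 16 := squareE32_of_chk _ _ _ _ _ _ chkEM32_p7_9_0 chkEM32_p7_9_1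
theorem sqEM32_p7_11 : SquareE32 1 100007 100011 16 := squareE32_of_chk _ _ _ _ _ _ chkEM32_p7_11_0 chkEM32_p7_11_1
theorem sqEM32_p7_13 : SquareE32 1 100007 100013 16 := squareE32_of_chk _ _ _ _ _ _ chkEM32_p7_13_0 chkEM32_p7_13_1

theorem e3_upper_0 {q t : ℂ} {v : ℤ → ℂ} (H : HypE3 0 q t v) (h1 : 17 / 50 ≤ ‖q‖) (h2 : ‖q‖ ≤ 141 / 200)
    (h0 : 0 ≤ q.im) (hU : InU2 q.re |q.im|) (t1 : 0 < t.re) (t2 : t.im ^ 2 ≤ 3 * t.re ^ 2) : False := by
  have hU' := hU
  rw [abs_of_nonneg h0] at hU'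
  have hn : q.re ^ 2 + q.im ^ 2 = ‖q‖ ^ 2 := by
    rw [Complex.sq_norm, Complex.normSq_apply]; ring
  have hn1 : (17 / 50 : ℝ) ^ 2 ≤ ‖q‖ ^ 2 := pow_le_pow_left₀ (by norm_num) h1 2
  have b1 : -12 / 16 ≤ q.re := by rcases hU' with ⟨a1, a2, a3⟩ | ⟨a1, a2, a3⟩ | ⟨a1, a2, a3⟩ | ⟨a1, a2, a3⟩ <;> linarith
  have b2 : q.re ≤ -3 / 16 := by rcases hU' with ⟨a1, a2, a3⟩ | ⟨a1, a2, a3⟩ | ⟨a1, a2, a3⟩ | ⟨a1, a2, a3⟩ <;> linarith
  have b3 : q.im ≤ 13 / 32 := by rcases hU' with ⟨a1, a2, a3⟩ | ⟨a1, a2, a3⟩ | ⟨a1, a2, a3⟩ | ⟨a1, a2, a3⟩ <;> linarith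
  have b4 : q.re ≤ -10 / 16 → q.im ≤ 11 / 32 := by
    intro hc
    rcases hU' with ⟨a1, a2, a3⟩ | ⟨a1, a2, a3⟩ | ⟨a1, a2, a3⟩ | ⟨a1, a2, a3⟩ <;> linarith
  have b5 : -4 / 16 ≤ q.re → 2 / 16 ≤ q.im := by
    intro hc
    by_contra hd
    push Not at hd
    nlinarith
  rcases le_total q.re (-10 / 16) with c0 | c0
  · have b6 := b4 (by linarith)
    rcases le_total q.im (2 / 16) with d0 | d0
    · exact sqEN3_m11_1 q t v H h1 h2 hU t1 t2 (inSq_of q (-11) 1 _ _ (by norm_num) (by norm_num) (by push_cast; linarith) (by push_cast; linarith) (by push_cast; linarith) (by push_cast; linarith))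
    rcases le_total q.im (4 / 16) with d1 | d1
    · exact sqEN3_m11_3 q t v H h1 h2 hU t1 t2 (inSq_of q (-11) 3 _ _ (by norm_num) (by norm_num) (by push_cast; linarith) (by push_cast; linarith) (by push_cast; linarith) (by push_cast; linarith))
    exact sqEN3_m11_5 q t v H h1 h2 hU t1 t2 (inSq_of q (-11) 5 _ _ (by norm_num) (by norm_num) (by push_cast; linarith) (by push_cast; linarith) (by push_cast; linarith) (by push_cast; linarith))
  rcases le_total q.re (-8 / 16) with c1 | c1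
  · rcases le_total q.im (2 / 16) with d0 | d0
    · exact sqEN3_m9_1 q t v H h1 h2 hU t1 t2 (inSq_of q (-9) 1 _ _ (by norm_num) (by norm_num) (by push_cast; linarith) (by push_cast; linarith) (by push_cast; linarith) (by push_cast; linarith))
    rcases le_total q.im (4 / 16) with d1 | d1
    · exact sqEN3_m9_3 q t v H h1 h2 hU t1 t2 (inSq_of q (-9) 3 _ _ (by norm_num) (by norm_num) (by push_cast; linarith) (by push_cast; linarith) (by push_cast; linarith) (by push_cast; linarith))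
    rcases le_total q.im (6 / 16) with d2 | d2
    · exact sqEN3_m9_5 q t v H h1 h2 hU t1 t2 (inSq_of q (-9) 5 _ _ (by norm_num) (by norm_num) (by push_cast; linarith) (by push_cast; linarith) (by push_cast; linarith) (by push_cast; linarith))
    exact sqEN3_m9_7 q t v H h1 h2 hU t1 t2 (inSq_of q (-9) 7 _ _ (by norm_num) (by norm_num) (by push_cast; linarith) (by push_cast; linarith) (by push_cast; linarith) (by push_cast; linarith))
  rcases le_total q.re (-6 / 16) with c2 | c2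
  · rcases le_total q.im (2 / 16) with d0 | d0
    · exact sqEN3_m7_1 q t v H h1 h2 hU t1 t2 (inSq_of q (-7) 1 _ _ (by norm_num) (by norm_num) (by push_cast; linarith) (by push_cast; linarith) (by push_cast; linarith) (by push_cast; linarith))
    rcases le_total q.im (4 / 16) with d1 | d1
    · exact sqEN3_m7_3 q t v H h1 h2 hU t1 t2 (inSq_of q (-7) 3 _ _ (by norm_num) (by norm_num) (by push_cast; linarith) (by push_cast; linarith) (by push_cast; linarith) (by push_cast; linarith))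
    rcases le_total q.im (6 / 16) with d2 | d2
    · exact sqEN3_m7_5 q t v H h1 h2 hU t1 t2 (inSq_of q (-7) 5 _ _ (by norm_num) (by norm_num) (by push_cast; linarith) (by push_cast; linarith) (by push_cast; linarith) (by push_cast; linarith))
    exact sqEN3_m7_7 q t v H h1 h2 hU t1 t2 (inSq_of q (-7) 7 _ _ (by norm_num) (by norm_num) (by push_cast; linarith) (by push_cast; linarith) (by push_cast; linarith) (by push_cast; linarith))
  rcases le_total q.re (-4 / 16) with c3 | c3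
  · rcases le_total q.im (2 / 16) with d0 | d0
    · exact sqEN3_m5_1 q t v H h1 h2 hU t1 t2 (inSq_of q (-5) 1 _ _ (by norm_num) (by norm_num) (by push_cast; linarith) (by push_cast; linarith) (by push_cast; linarith) (by push_cast; linarith))
    rcases le_total q.im (4 / 16) with d1 | d1
    · exact sqEN3_m5_3 q t v H h1 h2 hU t1 t2 (inSq_of q (-5) 3 _ _ (by norm_num) (by norm_num) (by push_cast; linarith) (by push_cast; linarith) (by push_cast; linarith) (by push_cast; linarith))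
    rcases le_total q.im (6 / 16) with d2 | d2
    · exact sqEN3_m5_5 q t v H h1 h2 hU t1 t2 (inSq_of q (-5) 5 _ _ (by norm_num) (by norm_num) (by push_cast; linarith) (by push_cast; linarith) (by push_cast; linarith) (by push_cast; linarith))
    exact sqEN3_m5_7 q t v H h1 h2 hU t1 t2 (inSq_of q (-5) 7 _ _ (by norm_num) (by norm_num) (by push_cast; linarith) (by push_cast; linarith) (by push_cast; linarith) (by push_cast; linarith))
  have b6 := b5 (by linarith)
  rcases le_total q.im (4 / 16) with d0 | d0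
  · exact sqEN3_m3_3 q t v H h1 h2 hU t1 t2 (inSq_of q (-3) 3 _ _ (by norm_num) (by norm_num) (by push_cast; linarith) (by push_cast; linarith) (by push_cast; linarith) (by push_cast; linarith))
  rcases le_total q.im (6 / 16) with d1 | d1
  · exact sqEN3_m3_5 q t v H h1 h2 hU t1 t2 (inSq_of q (-3) 5 _ _ (by norm_num) (by norm_num) (by push_cast; linarith) (by push_cast; linarith) (by push_cast; linarith) (by push_cast; linarith))
  exact sqEN3_m3_7 q t v H h1 h2 hU t1 t2 (inSq_of q (-3) 7 _ _ (by norm_num) (by norm_num) (by push_cast; linarith) (by push_cast; linarith) (by push_cast; linarith) (by push_cast; linarith))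

theorem e3_upper_1 {q t : ℂ} {v : ℤ → ℂ} (H : HypE3 1 q t v) (h1 : 17 / 50 ≤ ‖q‖) (h2 : ‖q‖ ≤ 141 / 200)
    (h0 : 0 ≤ q.im) (hU : InU2 q.re |q.im|) (t1 : 0 < t.re) (t2 : t.im ^ 2 ≤ 3 * t.re ^ 2) : False := by
  have hU' := hU
  rw [abs_of_nonneg h0] at hU'
  have hn : q.re ^ 2 + q.im ^ 2 = ‖q‖ ^ 2 := by
    rw [Complex.sq_norm, Complex.normSq_apply]; ring
  have hn1 : (17 / 50 : ℝ) ^ 2 ≤ ‖q‖ ^ 2 := pow_le_pow_left₀ (by norm_num) h1 2
  have b1 : -12 / 16 ≤ q.re := by rcases hU' with ⟨a1, a2, a3⟩ | ⟨a1, a2, a3⟩ | ⟨a1, a2, a3⟩ | ⟨a1, a2, a3⟩ <;> linarith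
  have b2 : q.re ≤ -3 / 16 := by rcases hU' with ⟨a1, a2, a3⟩ | ⟨a1, a2, a3⟩ | ⟨a1, a2, a3⟩ | ⟨a1, a2, a3⟩ <;> linarith
  have b3 : q.im ≤ 13 / 32 := by rcases hU' with ⟨a1, a2, a3⟩ | ⟨a1, a2, a3⟩ | ⟨a1, a2, a3⟩ | ⟨a1, a2, a3⟩ <;> linarith
  have b4 : q.re ≤ -10 / 16 → q.im ≤ 11 / 32 := by
    intro hc
    rcases hU' with ⟨a1, a2, a3⟩ | ⟨a1, a2, a3⟩ | ⟨a1, a2, a3⟩ | ⟨a1, a2, a3⟩ <;> linarith
  have b5 : -4 / 16 ≤ q.re → 2 / 16 ≤ q.im := by
    intro hc
    by_contra hd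
    push Not at hd
    nlinarith
  rcases le_total q.re (-10 / 16) with c0 | c0
  · have b6 := b4 (by linarith)
    rcases le_total q.im (2 / 16) with d0 | d0
    · exact sqEM3_m11_1 q t v H h1 h2 hU t1 t2 (inSq_of q (-11) 1 _ _ (by norm_num) (by norm_num) (by push_cast; linarith) (by push_cast; linarith) (by push_cast; linarith) (by push_cast; linarith))
    rcases le_total q.im (4 / 16) with d1 | d1
    · exact sqEM3_m11_3 q t v H h1 h2 hU t1 t2 (inSq_of q (-11) 3 _ _ (by norm_num) (by norm_num) (by push_cast; linarith) (by push_cast; linarith) (by push_cast; linarith) (by push_cast; linarith))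
    exact sqEM3_m11_5 q t v H h1 h2 hU t1 t2 (inSq_of q (-11) 5 _ _ (by norm_num) (by norm_num) (by push_cast; linarith) (by push_cast; linarith) (by push_cast; linarith) (by push_cast; linarith))
  rcases le_total q.re (-8 / 16) with c1 | c1
  · rcases le_total q.im (2 / 16) with d0 | d0
    · exact sqEM3_m9_1 q t v H h1 h2 hU t1 t2 (inSq_of q (-9) 1 _ _ (by norm_num) (by norm_num) (by push_cast; linarith) (by push_cast; linarith) (by push_cast; linarith) (by push_cast; linarith))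
    rcases le_total q.im (4 / 16) with d1 | d1
    · exact sqEM3_m9_3 q t v H h1 h2 hU t1 t2 (inSq_of q (-9) 3 _ _ (by norm_num) (by norm_num) (by push_cast; linarith) (by push_cast; linarith) (by push_cast; linarith) (by push_cast; linarith))
    rcases le_total q.im (6 / 16) with d2 | d2
    · exact sqEM3_m9_5 q t v H h1 h2 hU t1 t2 (inSq_of q (-9) 5 _ _ (by norm_num) (by norm_num) (by push_cast; linarith) (by push_cast; linarith) (by push_cast; linarith) (by push_cast; linarith))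
    exact sqEM3_m9_7 q t v H h1 h2 hU t1 t2 (inSq_of q (-9) 7 _ _ (by norm_num) (by norm_num) (by push_cast; linarith) (by push_cast; linarith) (by push_cast; linarith) (by push_cast; linarith))
  rcases le_total q.re (-6 / 16) with c2 | c2
  · rcases le_total q.im (2 / 16) with d0 | d0
    · exact sqEM3_m7_1 q t v H h1 h2 hU t1 t2 (inSq_of q (-7) 1 _ _ (by norm_num) (by norm_num) (by push_cast; linarith) (by push_cast; linarith) (by push_cast; linarith) (by push_cast; linarith))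
    rcases le_total q.im (4 / 16) with d1 | d1
    · exact sqEM3_m7_3 q t v H h1 h2 hU t1 t2 (inSq_of q (-7) 3 _ _ (by norm_num) (by norm_num) (by push_cast; linarith) (by push_cast; linarith) (by push_cast; linarith) (by push_cast; linarith))
    rcases le_total q.im (6 / 16) with d2 | d2
    · exact sqEM3_m7_5 q t v H h1 h2 hU t1 t2 (inSq_of q (-7) 5 _ _ (by norm_num) (by norm_num) (by push_cast; linarith) (by push_cast; linarith) (by push_cast; linarith) (by push_cast; linarith))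
    exact sqEM3_m7_7 q t v H h1 h2 hU t1 t2 (inSq_of q (-7) 7 _ _ (by norm_num) (by norm_num) (by push_cast; linarith) (by push_cast; linarith) (by push_cast; linarith) (by push_cast; linarith))
  rcases le_total q.re (-4 / 16) with c3 | c3
  · rcases le_total q.im (2 / 16) with d0 | d0
    · exact sqEM3_m5_1 q t v H h1 h2 hU t1 t2 (inSq_of q (-5) 1 _ _ (by norm_num) (by norm_num) (by push_cast; linarith) (by push_cast; linarith) (by push_cast; linarith) (by push_cast; linarith))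
    rcases le_total q.im (4 / 16) with d1 | d1
    · exact sqEM3_m5_3 q t v H h1 h2 hU t1 t2 (inSq_of q (-5) 3 _ _ (by norm_num) (by norm_num) (by push_cast; linarith) (by push_cast; linarith) (by push_cast; linarith) (by push_cast; linarith))
    rcases le_total q.im (6 / 16) with d2 | d2
    · exact sqEM3_m5_5 q t v H h1 h2 hU t1 t2 (inSq_of q (-5) 5 _ _ (by norm_num) (by norm_num) (by push_cast; linarith) (by push_cast; linarith) (by push_cast; linarith) (by push_cast; linarith))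
    exact sqEM3_m5_7 q t v H h1 h2 hU t1 t2 (inSq_of q (-5) 7 _ _ (by norm_num) (by norm_num) (by push_cast; linarith) (by push_cast; linarith) (by push_cast; linarith) (by push_cast; linarith))
  have b6 := b5 (by linarith)
  rcases le_total q.im (4 / 16) with d0 | d0
  · exact sqEM3_m3_3 q t v H h1 h2 hU t1 t2 (inSq_of q (-3) 3 _ _ (by norm_num) (by norm_num) (by push_cast; linarith) (by push_cast; linarith) (by push_cast; linarith) (by push_cast; linarith))
  rcases le_total q.im (6 / 16) with d1 | d1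
  · exact sqEM3_m3_5 q t v H h1 h2 hU t1 t2 (inSq_of q (-3) 5 _ _ (by norm_num) (by norm_num) (by push_cast; linarith) (by push_cast; linarith) (by push_cast; linarith) (by push_cast; linarith))
  exact sqEM3_m3_7 q t v H h1 h2 hU t1 t2 (inSq_of q (-3) 7 _ _ (by norm_num) (by norm_num) (by push_cast; linarith) (by push_cast; linarith) (by push_cast; linarith) (by push_cast; linarith))

/-- ratio `3`, extremal matched vertex with both neighbours mismatched -/
theorem e3_final {md : ℕ} {q t : ℂ} {v : ℤ → ℂ} (H : HypE3 md q t v) (hmd : md = 0 ∨ md = 1) (h1 : 17 / 50 ≤ ‖q‖)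
    (h2 : ‖q‖ ≤ 141 / 200) (hU : InU2 q.re |q.im|) (ht : t ≠ 0) : False := by
  obtain ⟨q', t', v', H', e1, e2, e3, t1, t2⟩ := H.normalize ht
  have h0 : 0 ≤ q'.im := by rw [e3]; exact abs_nonneg _
  have hU' : InU2 q'.re |q'.im| := by rw [e2, e3, abs_abs]; exact hU
  rw [← e1] at h1 h2
  rcases hmd with rfl | rfl
  · exact e3_upper_0 H' h1 h2 h0 hU' t1 t2
  · exact e3_upper_1 H' h1 h2 h0 hU' t1 t2

theorem e32_upper_0 {s t : ℂ} {v : ℤ → ℂ} (H : HypE32 0 s t v) (h1 : 17 / 50 ≤ ‖s‖ ^ 2) (h2 : ‖s‖ ^ 2 ≤ 141 / 200)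
    (h0 : 0 ≤ s.re) (h0' : 0 ≤ s.im) (hU : InU2 (s ^ 2).re |(s ^ 2).im|) (t1 : 0 < t.re)
    (t2 : 3 * t.im ^ 2 ≤ t.re ^ 2) : False := by
  have hn : ‖s‖ ^ 2 = s.re ^ 2 + s.im ^ 2 := by
    rw [Complex.sq_norm, Complex.normSq_apply]; ring
  have er : (s ^ 2).re = s.re ^ 2 - s.im ^ 2 := by rw [pow_two, Complex.mul_re]; ring
  have ei : |(s ^ 2).im| = 2 * s.re * s.im := by
    rw [pow_two, Complex.mul_im, abs_of_nonneg (by positivity)]; ring
  have hU' := hU
  rw [er, ei] at hU'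
  have b1 : -23 / 32 ≤ s.re ^ 2 - s.im ^ 2 := by rcases hU' with ⟨a1, a2, a3⟩ | ⟨a1, a2, a3⟩ | ⟨a1, a2, a3⟩ | ⟨a1, a2, a3⟩ <;> linarith
  have b2 : s.re ^ 2 - s.im ^ 2 ≤ -6 / 32 := by rcases hU' with ⟨a1, a2, a3⟩ | ⟨a1, a2, a3⟩ | ⟨a1, a2, a3⟩ | ⟨a1, a2, a3⟩ <;> linarith
  have b3 : 2 * s.re * s.im ≤ 13 / 32 := by rcases hU' with ⟨a1, a2, a3⟩ | ⟨a1, a2, a3⟩ | ⟨a1, a2, a3⟩ | ⟨a1, a2, a3⟩ <;> linarith
  have i1 : 1 / 2 ≤ s.im := by
    by_contra hd
    push Not at hd
    nlinarith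
  have i2 : s.im ≤ 14 / 16 := by
    by_contra hd
    push Not at hd
    nlinarith
  have r1 : s.re ≤ 8 / 16 := by
    by_contra hd
    push Not at hd
    nlinarith
  rcases le_total s.re (2 / 16) with c0 | c0
  · rcases le_total s.im (8 / 16) with d0 | d0
    · exact sqEN32_p1_7 s t v H h1 h2 hU t1 t2 (inSq_of s 1 7 _ _ (by norm_num) (by norm_num) (by push_cast; linarith) (by push_cast; linarith) (by push_cast; linarith) (by push_cast; linarith))
    rcases le_total s.im (10 / 16) with d1 | d1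
    · exact sqEN32_p1_9 s t v H h1 h2 hU t1 t2 (inSq_of s 1 9 _ _ (by norm_num) (by norm_num) (by push_cast; linarith) (by push_cast; linarith) (by push_cast; linarith) (by push_cast; linarith))
    rcases le_total s.im (12 / 16) with d2 | d2
    · exact sqEN32_p1_11 s t v H h1 h2 hU t1 t2 (inSq_of s 1 11 _ _ (by norm_num) (by norm_num) (by push_cast; linarith) (by push_cast; linarith) (by push_cast; linarith) (by push_cast; linarith))
    exact sqEN32_p1_13 s t v H h1 h2 hU t1 t2 (inSq_of s 1 13 _ _ (by norm_num) (by norm_num) (by push_cast; linarith) (by push_cast; linarith) (by push_cast; linarith) (by push_cast; linarith))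
  rcases le_total s.re (4 / 16) with c1 | c1
  · rcases le_total s.im (8 / 16) with d0 | d0
    · exact sqEN32_p3_7 s t v H h1 h2 hU t1 t2 (inSq_of s 3 7 _ _ (by norm_num) (by norm_num) (by push_cast; linarith) (by push_cast; linarith) (by push_cast; linarith) (by push_cast; linarith))
    rcases le_total s.im (10 / 16) with d1 | d1
    · exact sqEN32_p3_9 s t v H h1 h2 hU t1 t2 (inSq_of s 3 9 _ _ (by norm_num) (by norm_num) (by push_cast; linarith) (by push_cast; linarith) (by push_cast; linarith) (by push_cast; linarith))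
    rcases le_total s.im (12 / 16) with d2 | d2
    · exact sqEN32_p3_11 s t v H h1 h2 hU t1 t2 (inSq_of s 3 11 _ _ (by norm_num) (by norm_num) (by push_cast; linarith) (by push_cast; linarith) (by push_cast; linarith) (by push_cast; linarith))
    exact sqEN32_p3_13 s t v H h1 h2 hU t1 t2 (inSq_of s 3 13 _ _ (by norm_num) (by norm_num) (by push_cast; linarith) (by push_cast; linarith) (by push_cast; linarith) (by push_cast; linarith))
  rcases le_total s.re (6 / 16) with c2 | c2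
  · rcases le_total s.im (8 / 16) with d0 | d0
    · exact sqEN32_p5_7 s t v H h1 h2 hU t1 t2 (inSq_of s 5 7 _ _ (by norm_num) (by norm_num) (by push_cast; linarith) (by push_cast; linarith) (by push_cast; linarith) (by push_cast; linarith))
    rcases le_total s.im (10 / 16) with d1 | d1
    · exact sqEN32_p5_9 s t v H h1 h2 hU t1 t2 (inSq_of s 5 9 _ _ (by norm_num) (by norm_num) (by push_cast; linarith) (by push_cast; linarith) (by push_cast; linarith) (by push_cast; linarith))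
    rcases le_total s.im (12 / 16) with d2 | d2
    · exact sqEN32_p5_11 s t v H h1 h2 hU t1 t2 (inSq_of s 5 11 _ _ (by norm_num) (by norm_num) (by push_cast; linarith) (by push_cast; linarith) (by push_cast; linarith) (by push_cast; linarith))
    exact sqEN32_p5_13 s t v H h1 h2 hU t1 t2 (inSq_of s 5 13 _ _ (by norm_num) (by norm_num) (by push_cast; linarith) (by push_cast; linarith) (by push_cast; linarith) (by push_cast; linarith))
  rcases le_total s.im (8 / 16) with d0 | d0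
  · exact sqEN32_p7_7 s t v H h1 h2 hU t1 t2 (inSq_of s 7 7 _ _ (by norm_num) (by norm_num) (by push_cast; linarith) (by push_cast; linarith) (by push_cast; linarith) (by push_cast; linarith))
  rcases le_total s.im (10 / 16) with d1 | d1
  · exact sqEN32_p7_9 s t v H h1 h2 hU t1 t2 (inSq_of s 7 9 _ _ (by norm_num) (by norm_num) (by push_cast; linarith) (by push_cast; linarith) (by push_cast; linarith) (by push_cast; linarith))
  rcases le_total s.im (12 / 16) with d2 | d2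
  · exact sqEN32_p7_11 s t v H h1 h2 hU t1 t2 (inSq_of s 7 11 _ _ (by norm_num) (by norm_num) (by push_cast; linarith) (by push_cast; linarith) (by push_cast; linarith) (by push_cast; linarith))
  exact sqEN32_p7_13 s t v H h1 h2 hU t1 t2 (inSq_of s 7 13 _ _ (by norm_num) (by norm_num) (by push_cast; linarith) (by push_cast; linarith) (by push_cast; linarith) (by push_cast; linarith))

theorem e32_upper_1 {s t : ℂ} {v : ℤ → ℂ} (H : HypE32 1 s t v) (h1 : 17 / 50 ≤ ‖s‖ ^ 2) (h2 : ‖s‖ ^ 2 ≤ 141 / 200)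
    (h0 : 0 ≤ s.re) (h0' : 0 ≤ s.im) (hU : InU2 (s ^ 2).re |(s ^ 2).im|) (t1 : 0 < t.re)
    (t2 : 3 * t.im ^ 2 ≤ t.re ^ 2) : False := by
  have hn : ‖s‖ ^ 2 = s.re ^ 2 + s.im ^ 2 := by
    rw [Complex.sq_norm, Complex.normSq_apply]; ring
  have er : (s ^ 2).re = s.re ^ 2 - s.im ^ 2 := by rw [pow_two, Complex.mul_re]; ring
  have ei : |(s ^ 2).im| = 2 * s.re * s.im := by
    rw [pow_two, Complex.mul_im, abs_of_nonneg (by positivity)]; ring
  have hU' := hU
  rw [er, ei] at hU'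
  have b1 : -23 / 32 ≤ s.re ^ 2 - s.im ^ 2 := by rcases hU' with ⟨a1, a2, a3⟩ | ⟨a1, a2, a3⟩ | ⟨a1, a2, a3⟩ | ⟨a1, a2, a3⟩ <;> linarith
  have b2 : s.re ^ 2 - s.im ^ 2 ≤ -6 / 32 := by rcases hU' with ⟨a1, a2, a3⟩ | ⟨a1, a2, a3⟩ | ⟨a1, a2, a3⟩ | ⟨a1, a2, a3⟩ <;> linarith
  have b3 : 2 * s.re * s.im ≤ 13 / 32 := by rcases hU' with ⟨a1, a2, a3⟩ | ⟨a1, a2, a3⟩ | ⟨a1, a2, a3⟩ | ⟨a1, a2, a3⟩ <;> linarith
  have i1 : 1 / 2 ≤ s.im := by
    by_contra hd
    push Not at hd
    nlinarith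
  have i2 : s.im ≤ 14 / 16 := by
    by_contra hd
    push Not at hd
    nlinarith
  have r1 : s.re ≤ 8 / 16 := by
    by_contra hd
    push Not at hd
    nlinarith
  rcases le_total s.re (2 / 16) with c0 | c0
  · rcases le_total s.im (8 / 16) with d0 | d0
    · exact sqEM32_p1_7 s t v H h1 h2 hU t1 t2 (inSq_of s 1 7 _ _ (by norm_num) (by norm_num) (by push_cast; linarith) (by push_cast; linarith) (by push_cast; linarith) (by push_cast; linarith))
    rcases le_total s.im (10 / 16) with d1 | d1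
    · exact sqEM32_p1_9 s t v H h1 h2 hU t1 t2 (inSq_of s 1 9 _ _ (by norm_num) (by norm_num) (by push_cast; linarith) (by push_cast; linarith) (by push_cast; linarith) (by push_cast; linarith))
    rcases le_total s.im (12 / 16) with d2 | d2
    · exact sqEM32_p1_11 s t v H h1 h2 hU t1 t2 (inSq_of s 1 11 _ _ (by norm_num) (by norm_num) (by push_cast; linarith) (by push_cast; linarith) (by push_cast; linarith) (by push_cast; linarith))
    exact sqEM32_p1_13 s t v H h1 h2 hU t1 t2 (inSq_of s 1 13 _ _ (by norm_num) (by norm_num) (by push_cast; linarith) (by push_cast; linarith) (by push_cast; linarith) (by push_cast; linarith))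
  rcases le_total s.re (4 / 16) with c1 | c1
  · rcases le_total s.im (8 / 16) with d0 | d0
    · exact sqEM32_p3_7 s t v H h1 h2 hU t1 t2 (inSq_of s 3 7 _ _ (by norm_num) (by norm_num) (by push_cast; linarith) (by push_cast; linarith) (by push_cast; linarith) (by push_cast; linarith))
    rcases le_total s.im (10 / 16) with d1 | d1
    · exact sqEM32_p3_9 s t v H h1 h2 hU t1 t2 (inSq_of s 3 9 _ _ (by norm_num) (by norm_num) (by push_cast; linarith) (by push_cast; linarith) (by push_cast; linarith) (by push_cast; linarith))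
    rcases le_total s.im (12 / 16) with d2 | d2
    · exact sqEM32_p3_11 s t v H h1 h2 hU t1 t2 (inSq_of s 3 11 _ _ (by norm_num) (by norm_num) (by push_cast; linarith) (by push_cast; linarith) (by push_cast; linarith) (by push_cast; linarith))
    exact sqEM32_p3_13 s t v H h1 h2 hU t1 t2 (inSq_of s 3 13 _ _ (by norm_num) (by norm_num) (by push_cast; linarith) (by push_cast; linarith) (by push_cast; linarith) (by push_cast; linarith))
  rcases le_total s.re (6 / 16) with c2 | c2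
  · rcases le_total s.im (8 / 16) with d0 | d0
    · exact sqEM32_p5_7 s t v H h1 h2 hU t1 t2 (inSq_of s 5 7 _ _ (by norm_num) (by norm_num) (by push_cast; linarith) (by push_cast; linarith) (by push_cast; linarith) (by push_cast; linarith))
    rcases le_total s.im (10 / 16) with d1 | d1
    · exact sqEM32_p5_9 s t v H h1 h2 hU t1 t2 (inSq_of s 5 9 _ _ (by norm_num) (by norm_num) (by push_cast; linarith) (by push_cast; linarith) (by push_cast; linarith) (by push_cast; linarith))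
    rcases le_total s.im (12 / 16) with d2 | d2
    · exact sqEM32_p5_11 s t v H h1 h2 hU t1 t2 (inSq_of s 5 11 _ _ (by norm_num) (by norm_num) (by push_cast; linarith) (by push_cast; linarith) (by push_cast; linarith) (by push_cast; linarith))
    exact sqEM32_p5_13 s t v H h1 h2 hU t1 t2 (inSq_of s 5 13 _ _ (by norm_num) (by norm_num) (by push_cast; linarith) (by push_cast; linarith) (by push_cast; linarith) (by push_cast; linarith))
  rcases le_total s.im (8 / 16) with d0 | d0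
  · exact sqEM32_p7_7 s t v H h1 h2 hU t1 t2 (inSq_of s 7 7 _ _ (by norm_num) (by norm_num) (by push_cast; linarith) (by push_cast; linarith) (by push_cast; linarith) (by push_cast; linarith))
  rcases le_total s.im (10 / 16) with d1 | d1
  · exact sqEM32_p7_9 s t v H h1 h2 hU t1 t2 (inSq_of s 7 9 _ _ (by norm_num) (by norm_num) (by push_cast; linarith) (by push_cast; linarith) (by push_cast; linarith) (by push_cast; linarith))
  rcases le_total s.im (12 / 16) with d2 | d2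
  · exact sqEM32_p7_11 s t v H h1 h2 hU t1 t2 (inSq_of s 7 11 _ _ (by norm_num) (by norm_num) (by push_cast; linarith) (by push_cast; linarith) (by push_cast; linarith) (by push_cast; linarith))
  exact sqEM32_p7_13 s t v H h1 h2 hU t1 t2 (inSq_of s 7 13 _ _ (by norm_num) (by norm_num) (by push_cast; linarith) (by push_cast; linarith) (by push_cast; linarith) (by push_cast; linarith))

/-- ratio `3/2` -/
theorem e32_final {md : ℕ} {s t : ℂ} {v : ℤ → ℂ} (H : HypE32 md s t v) (hmd : md = 0 ∨ md = 1)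
    (h1 : 17 / 50 ≤ ‖s‖ ^ 2) (h2 : ‖s‖ ^ 2 ≤ 141 / 200) (hU : InU2 (s ^ 2).re |(s ^ 2).im|) (ht : t ≠ 0) : False := by
  obtain ⟨s', t', v', H', e1, e2, e3, t1, t2⟩ := H.normalize ht
  have h0 : 0 ≤ s'.re := by rw [e2]; exact abs_nonneg _
  have h0' : 0 ≤ s'.im := by rw [e3]; exact abs_nonneg _
  have er : (s' ^ 2).re = (s ^ 2).re := by
    rw [pow_two, pow_two, Complex.mul_re, Complex.mul_re, e2, e3, abs_mul_abs_self, abs_mul_abs_self]
  have ei : |(s' ^ 2).im| = |(s ^ 2).im| := by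
    have h3 : (s' ^ 2).im = 2 * (|s.re| * |s.im|) := by rw [pow_two, Complex.mul_im, e2, e3]; ring
    have h4 : (s ^ 2).im = 2 * (s.re * s.im) := by rw [pow_two, Complex.mul_im]; ring
    rw [h3, h4, abs_mul, abs_mul, abs_mul, abs_abs, abs_mul, abs_abs]
  have hU' : InU2 (s' ^ 2).re |(s' ^ 2).im| := by rw [er, ei]; exact hU
  rw [← e1] at h1 h2
  rcases hmd with rfl | rfl
  · exact e32_upper_0 H' h1 h2 h0 h0' hU' t1 t2
  · exact e32_upper_1 H' h1 h2 h0 h0' hU' t1 t2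

end Pool.Agent.MaxTerm58
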