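import Pool.Agent.MaxTerm58.WDual
import Pool.Agent.MaxTerm59.Parseval

/-! Hypotheses for the family E (ratios `3` and `3/2`, extremal matched vertex with both neighbours mismatched) and
their direct consequences. Hints: `Pool.Agent.MaxTerm59.parseval_le` applied to
`c n = v n * (s ^ eaZ m1 X n * t ^ ebZ 1 X n)` for a suitable corner `X` and a set `S` of four positions
(ratio `3`: `X = 2`, `S = {0, 3, -1, n}`; ratio `3/2`, `inn`: `X = 2`, `S = {0, 3, -2, n}`; `inA`, `n = -1`: `X = 1`,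
`S = {-2, 0, -4, n}`, `n = -3`: `X = 0`, `S = {-4, -2, 0, n}`); `eaZ`, `ebZ` are in `WRep.lean`. Summability:
split at `0`, compare with geometric series (`‖v (4 + i)‖ ^ 3 ≤ D ^ (i + 1)` gives `‖v (4 + i)‖ ≤ (D ^ (1/3)) ^ (i + 1)`). -/

namespace Pool.Agent.MaxTerm58

/-- region of `q`, `y = |Im q|` -/
def InU2 (x y : ℝ) : Prop :=
  (-23 / 32 ≤ x ∧ x ≤ -21 / 32 ∧ y ≤ 7 / 32) ∨ (-21 / 32 ≤ x ∧ x ≤ -17 / 32 ∧ y ≤ 11 / 32) ∨
    (-17 / 32 ≤ x ∧ x ≤ -8 / 32 ∧ y ≤ 13 / 32) ∨ (-8 / 32 ≤ x ∧ x ≤ -6 / 32 ∧ y ≤ 11 / 32)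

/-- ratio `3`: units `-2, -1, 0, 3`; `md = 0`: the vertex `3` is mismatched, otherwise matched -/
structure HypE3 (md : ℕ) (q t : ℂ) (v : ℤ → ℂ) : Prop where
  v2 : v (-2) = 1
  v1 : v (-1) = 1
  v0 : v 0 = 1
  v3 : v 3 = 1
  t_le : ‖t‖ ≤ 9 / 10 * (‖q‖ + 1 / 100000)
  oL : ∀ i : ℕ, ‖v (-3 - (i : ℤ))‖ ≤ ‖t‖ ^ (i + 1)
  oR0 : md = 0 → ∀ i : ℕ, ‖v (4 + (i : ℤ))‖ ^ 3 ≤ (9 / 10 * (‖q‖ + 1 / 100000)) ^ (i + 1)
  oR1 : md ≠ 0 → ∀ i : ℕ, ‖v (4 + (i : ℤ))‖ ^ 3 ≤ (‖q‖ + 1 / 100000) ^ (i + 1 + (i - 2))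
  bd : ∀ X < 3, ∀ z : ℂ, ‖z‖ = 1 →
    ‖∑' n : ℤ, v n * (q ^ eaZ 1 X n * t ^ ebZ 1 X n) * z ^ n‖ ≤ 170919 / 100000

/-- ratio `3/2`: units `-4, -2, 0, 3`; the parameter of the extremal vertex is `s ^ 2` -/
structure HypE32 (md : ℕ) (s t : ℂ) (v : ℤ → ℂ) : Prop where
  v4 : v (-4) = 1
  v2 : v (-2) = 1
  v0 : v 0 = 1
  v3 : v 3 = 1
  t_le : ‖t‖ ^ 2 ≤ 9 / 10 * (‖s‖ ^ 2 + 1 / 100000)
  oL : ∀ i : ℕ, ‖v (-5 - (i : ℤ))‖ ≤ ‖t‖ ^ (i + 1)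
  oR0 : md = 0 → ∀ i : ℕ, ‖v (4 + (i : ℤ))‖ ^ 3 ≤ (9 / 10 * (‖s‖ ^ 2 + 1 / 100000)) ^ (i + 1)
  oR1 : md ≠ 0 → ∀ i : ℕ, ‖v (4 + (i : ℤ))‖ ^ 3 ≤ (‖s‖ ^ 2 + 1 / 100000) ^ (i + 1 + (i - 2))
  bd : ∀ X < 3, ∀ z : ℂ, ‖z‖ = 1 →
    ‖∑' n : ℤ, v n * (s ^ eaZ 2 X n * t ^ ebZ 1 X n) * z ^ n‖ ≤ 170919 / 100000

private theorem EHyp_summ (v : ℤ → ℂ) (D T : ℝ) (k : ℤ) (hk : 0 ≤ k) (hD0 : 0 ≤ D) (hD1 : D < 1)
    (hT0 : 0 ≤ T) (hT1 : T < 1)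
    (hR : ∀ i : ℕ, ‖v (4 + (i : ℤ))‖ ^ 3 ≤ D ^ (i + 1))
    (hL : ∀ i : ℕ, ‖v (-k - (i : ℤ))‖ ≤ T ^ (i + 1)) : Summable fun n => ‖v n‖ := by
  obtain ⟨r, hr0, hr1, hr3⟩ : ∃ r : ℝ, 0 ≤ r ∧ r < 1 ∧ r ^ 3 = D := by
    refine ⟨D ^ (((3 : ℕ) : ℝ)⁻¹), Real.rpow_nonneg hD0 _, Real.rpow_lt_one hD0 hD1 (by positivity), ?_⟩
    exact Real.rpow_inv_natCast_pow hD0 (by norm_num)
  have h1 : Summable fun n : ℕ => ‖v (n : ℤ)‖ := by
    refine (summable_nat_add_iff 4).1 ?_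
    refine Summable.of_nonneg_of_le (fun _ => norm_nonneg _) (fun i => ?_)
      ((summable_nat_add_iff 1).2 (summable_geometric_of_lt_one hr0 hr1))
    have h2 := hR i
    rw [← hr3, ← pow_mul, mul_comm 3 (i + 1), pow_mul] at h2
    have h3 := le_of_pow_le_pow_left₀ (by norm_num) (pow_nonneg hr0 _) h2
    have h4 : (((i + 4 : ℕ) : ℤ)) = 4 + (i : ℤ) := by
      push_cast
      ring
    rw [h4]
    exact h3
  have h2 : Summable fun n : ℕ => ‖v (-(n : ℤ))‖ := by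
    refine (summable_nat_add_iff k.toNat).1 ?_
    refine Summable.of_nonneg_of_le (fun _ => norm_nonneg _) (fun i => ?_)
      ((summable_nat_add_iff 1).2 (summable_geometric_of_lt_one hT0 hT1))
    have h3 := hL i
    have h4 : -(((i + k.toNat : ℕ) : ℤ)) = -k - (i : ℤ) := by
      push_cast
      omega
    rw [h4]
    exact h3
  exact Summable.of_nat_of_neg h1 h2

private theorem EHyp_pow (D : ℝ) (h0 : 0 ≤ D) (h1 : D ≤ 1) (i : ℕ) :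
    D ^ (i + 1 + (i - 2)) ≤ D ^ (i + 1) :=
  pow_le_pow_of_le_one h0 h1 (Nat.le_add_right _ _)

private theorem EHyp_pow9 (D : ℝ) (h0 : 0 ≤ D) (i : ℕ) :
    (9 / 10 * D) ^ (i + 1) ≤ D ^ (i + 1) :=
  pow_le_pow_left₀ (by positivity) (by linarith) _

theorem HypE3.toV {md : ℕ} {q t : ℂ} {v : ℤ → ℂ} (H : HypE3 md q t v) (h2 : ‖q‖ ≤ 141 / 200) :
    HypV 1 1 q t v := by
  have hq := norm_nonneg q
  have ht := H.t_le
  have ht1 : ‖t‖ < 1 := by linarith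
  refine ⟨by linarith, ht1.le, ?_, H.bd⟩
  refine EHyp_summ v (‖q‖ + 1 / 100000) ‖t‖ 3 (by norm_num) (by positivity) (by linarith)
    (norm_nonneg _) ht1 ?_ H.oL
  intro i
  by_cases hm : md = 0
  · exact (H.oR0 hm i).trans (EHyp_pow9 _ (by positivity) i)
  · exact (H.oR1 hm i).trans (EHyp_pow _ (by positivity) (by linarith) i)

private theorem EHyp_pars {m1 : ℕ} {s t : ℂ} {v : ℤ → ℂ} (H : HypV 1 m1 s t v) (X : ℕ) (hX : X < 3)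
    (S : Finset ℤ) :
    ∑ n ∈ S, ‖v n * (s ^ eaZ m1 X n * t ^ ebZ 1 X n)‖ ^ 2 ≤ (170919 / 100000 : ℝ) ^ 2 := by
  refine Pool.Agent.MaxTerm59.parseval_le (fun n => v n * (s ^ eaZ m1 X n * t ^ ebZ 1 X n)) ?_
    (170919 / 100000) (H.bd X hX) S
  refine Summable.of_nonneg_of_le (fun _ => norm_nonneg _) (fun n => ?_) H.summ
  rw [norm_mul, norm_mul, norm_pow, norm_pow]
  exact mul_le_of_le_one_right (norm_nonneg _) (mul_le_one₀ (pow_le_one₀ (norm_nonneg _) H.s_le)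
    (by positivity) (pow_le_one₀ (norm_nonneg _) H.t_le))

theorem HypE3.inn {md : ℕ} {q t : ℂ} {v : ℤ → ℂ} (H : HypE3 md q t v) (h2 : ‖q‖ ≤ 141 / 200)
    (n : ℤ) (hn : n = 1 ∨ n = 2) : ‖v n‖ ^ 2 ≤ (170919 / 100000) ^ 2 - 2 - ‖t‖ ^ 2 := by
  have h := EHyp_pars (H.toV h2) 2 (by norm_num) {0, 3, -1, n}
  rcases hn with rfl | rfl
  · rw [Finset.sum_insert (by decide), Finset.sum_insert (by decide), Finset.sum_insert (by decide),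
      Finset.sum_singleton] at h
    simp [eaZ, ebZ, H.v1, H.v0, H.v3] at h
    linarith
  · rw [Finset.sum_insert (by decide), Finset.sum_insert (by decide), Finset.sum_insert (by decide),
      Finset.sum_singleton] at h
    simp [eaZ, ebZ, H.v1, H.v0, H.v3] at h
    linarith

theorem HypE32.toV {md : ℕ} {s t : ℂ} {v : ℤ → ℂ} (H : HypE32 md s t v) (h2 : ‖s‖ ^ 2 ≤ 141 / 200) :
    HypV 1 2 s t v := by
  have hs := norm_nonneg s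
  have htt := norm_nonneg t
  have ht := H.t_le
  have ht1 : ‖t‖ < 1 := by nlinarith
  refine ⟨by nlinarith, ht1.le, ?_, H.bd⟩
  refine EHyp_summ v (‖s‖ ^ 2 + 1 / 100000) ‖t‖ 5 (by norm_num) (by positivity) (by linarith)
    (norm_nonneg _) ht1 ?_ H.oL
  intro i
  by_cases hm : md = 0
  · exact (H.oR0 hm i).trans (EHyp_pow9 _ (by positivity) i)
  · exact (H.oR1 hm i).trans (EHyp_pow _ (by positivity) (by linarith) i)

theorem HypE32.inn {md : ℕ} {s t : ℂ} {v : ℤ → ℂ} (H : HypE32 md s t v) (h2 : ‖s‖ ^ 2 ≤ 141 / 200)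
    (n : ℤ) (hn : n = 1 ∨ n = 2) : ‖v n‖ ^ 2 ≤ (170919 / 100000) ^ 2 - 2 - ‖t‖ ^ 4 := by
  have h := EHyp_pars (H.toV h2) 2 (by norm_num) {0, 3, -2, n}
  rcases hn with rfl | rfl
  · rw [Finset.sum_insert (by decide), Finset.sum_insert (by decide), Finset.sum_insert (by decide),
      Finset.sum_singleton] at h
    simp [eaZ, ebZ, H.v2, H.v0, H.v3, ← pow_mul] at h
    linarith
  · rw [Finset.sum_insert (by decide), Finset.sum_insert (by decide), Finset.sum_insert (by decide),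
      Finset.sum_singleton] at h
    simp [eaZ, ebZ, H.v2, H.v0, H.v3, ← pow_mul] at h
    linarith

theorem HypE32.inA {md : ℕ} {s t : ℂ} {v : ℤ → ℂ} (H : HypE32 md s t v) (h2 : ‖s‖ ^ 2 ≤ 141 / 200)
    (n : ℤ) (hn : n = -1 ∨ n = -3) : ‖v n‖ ^ 2 ≤ (170919 / 100000) ^ 2 - 2 - ‖s‖ ^ 4 := by
  rcases hn with rfl | rfl
  · have h := EHyp_pars (H.toV h2) 1 (by norm_num) {-2, 0, -4, -1}
    rw [Finset.sum_insert (by decide), Finset.sum_insert (by decide), Finset.sum_insert (by decide),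
      Finset.sum_singleton] at h
    simp [eaZ, ebZ, H.v2, H.v0, H.v4, ← pow_mul] at h
    linarith
  · have h := EHyp_pars (H.toV h2) 0 (by norm_num) {-4, -2, 0, -3}
    rw [Finset.sum_insert (by decide), Finset.sum_insert (by decide), Finset.sum_insert (by decide),
      Finset.sum_singleton] at h
    simp [eaZ, ebZ, H.v2, H.v0, H.v4, ← pow_mul] at h
    linarith

end Pool.Agent.MaxTerm58
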