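import Pool.Agent.MaxTerm58.EWt
import Pool.Agent.MaxTerm58.EHyp

/-! Soundness of a leaf: `checkE` = `sideE` and `FamS.chk`; apply `fam_sound` (`WFam.lean`) with
`w', δ` from `tside_sq` (`WTs.lean`), `rqc = minN (radS Q x y) _`, `rpc = minN (radS R u v) _` (`radS_spec`),
`inn` from `HypE3.inn` and `sigI_spec` / `HypE32.inn`, `inA` and `sig4_spec`, `SeqOK` (mode `0`) from `wtE_spec` with
`x = ‖q‖ + 1 / 100000` resp. `x = sqrt (‖s‖ ^ 2 + 1 / 100000)`, the tails from `tauE_spec`, `tailE_spec`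
(`gW` at `n ≥ 4 + PR`: at most `wc + ‖t‖ ^ (PR + 4)`, as the sum of the weights is at most one; at
`n ≤ -(m2 + 1 + PL)`: at most `wa + ‖s‖ ^ (PL + n0)`, `n0 = m2 + 1 - m1`). `wtC` and `wsumP`: `wsumP_spec`.
Model: the last part of `LeafS.lean`. -/

namespace Pool.Agent.MaxTerm58

def CellE3 (md x y Q u v R : ℕ) : Prop :=
  ∀ (q t : ℂ) (w : ℤ → ℂ), HypE3 md q t w → 17 / 50 ≤ ‖q‖ → ‖q‖ ≤ 141 / 200 → InU2 q.re |q.im| →
    0 < t.re → t.im ^ 2 ≤ 3 * t.re ^ 2 → InSq q x y Q → InSq t u v R → False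

def CellE32 (md x y Q u v R : ℕ) : Prop :=
  ∀ (s t : ℂ) (w : ℤ → ℂ), HypE32 md s t w → 17 / 50 ≤ ‖s‖ ^ 2 → ‖s‖ ^ 2 ≤ 141 / 200 →
    InU2 (s ^ 2).re |(s ^ 2).im| → 0 < t.re → 3 * t.im ^ 2 ≤ t.re ^ 2 → InSq s x y Q → InSq t u v R → False

private theorem ELeaf_wt0 (nd : List (ℂ × ℂ)) : 0 ≤ wtC nd := by
  unfold wtC
  apply List.sum_nonneg
  intro x hx
  obtain ⟨y, _, rfl⟩ := List.mem_map.1 hx
  exact norm_nonneg _

private theorem ELeaf_side {F : FamS} {dl : List (ℕ × ℕ)} {P x y Q R rp : ℕ} {la lb lc : List ℕ}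
    (h : F.chk dl P x y Q R rp la lb lc = true) :
    0 < Q ∧ 0 < R ∧ R ≤ 4096 ∧ wtC (la.map ndC) + wtC (lb.map ndC) + wtC (lc.map ndC) ≤ 1 := by
  unfold FamS.chk checkW sideW at h
  simp only [Bool.and_eq_true, Nat.ble_eq, List.all_eq_true] at h
  obtain ⟨_, ⟨⟨⟨⟨⟨⟨⟨⟨⟨⟨⟨⟨⟨⟨⟨⟨h1, h2⟩, h3⟩, h4⟩, h5⟩, h6⟩, h7⟩, h8⟩, h9⟩, h10⟩, h11⟩, h12⟩, h13⟩, h14⟩,
    h15⟩, h16⟩, h17⟩, _⟩ := h
  refine ⟨h1, h2, h4, ?_⟩
  have a1 := wsumP_spec la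
  have a2 := wsumP_spec lb
  have a3 := wsumP_spec lc
  have a4 : ((wsumP la : ℕ) : ℝ) + (((wsumP lb : ℕ) : ℝ) + ((wsumP lc : ℕ) : ℝ)) ≤ 100000000 := by
    have h21 : wsumP la + (wsumP lb + wsumP lc) ≤ 100000000 := h10
    exact_mod_cast h21
  linarith

/-- the multiplier at the right tail -/
private theorem ELeaf_gR (m1 : ℕ) (s t : ℂ) (wa wb wc : ℝ) (ha : 0 ≤ wa)
    (hw : wa + wb ≤ 1) (hs : ‖s‖ ≤ 1) (ρ : ℝ) (ht : ‖t‖ ≤ ρ) (hρ : ρ ≤ 1) (n k : ℕ) (hk : k ≤ n) (c : ℝ)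
    (hc : wc ≤ c) : gW 1 m1 s t wa wb wc (n : ℤ) ≤ c + ρ ^ k := by
  have e0 : ebZ 1 0 (n : ℤ) = n := by simp [ebZ]
  have e1 : ebZ 1 1 (n : ℤ) = n := by simp [ebZ]
  have e2 : ebZ 1 2 (n : ℤ) = 0 := by simp [ebZ]
  have f1 : eaZ m1 1 (n : ℤ) = 0 := by
    unfold eaZ
    rw [if_neg (by norm_num)]
    exact Int.toNat_of_nonpos (by omega)
  have f2 : eaZ m1 2 (n : ℤ) = 0 := by
    unfold eaZ
    rw [if_neg (by norm_num)]
    exact Int.toNat_of_nonpos (by omega)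
  unfold gW
  rw [e0, e1, e2, f1, f2, pow_zero, pow_zero, one_mul, one_mul, mul_one]
  have h1 : ‖t‖ ^ n ≤ ρ ^ k :=
    (pow_le_pow_left₀ (norm_nonneg t) ht n).trans (pow_le_pow_of_le_one ((norm_nonneg t).trans ht) hρ hk)
  have h2 : ‖s‖ ^ eaZ m1 0 (n : ℤ) ≤ 1 := pow_le_one₀ (norm_nonneg s) hs
  have h3 : ‖s‖ ^ eaZ m1 0 (n : ℤ) * ‖t‖ ^ n ≤ 1 * ‖t‖ ^ n :=
    mul_le_mul_of_nonneg_right h2 (by positivity)
  have h4 : wa * (‖s‖ ^ eaZ m1 0 (n : ℤ) * ‖t‖ ^ n) ≤ wa * ‖t‖ ^ n := by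
    rw [one_mul] at h3
    exact mul_le_mul_of_nonneg_left h3 ha
  have h5 : (wa + wb) * ‖t‖ ^ n ≤ 1 * ‖t‖ ^ n := mul_le_mul_of_nonneg_right hw (by positivity)
  linarith

/-- the multiplier at the left tail -/
private theorem ELeaf_gL (m1 : ℕ) (s t : ℂ) (wa wb wc : ℝ) (hc : 0 ≤ wc)
    (hw : wb + wc ≤ 1) (ht : ‖t‖ ≤ 1) (ρ : ℝ) (hs : ‖s‖ ≤ ρ) (hρ : ρ ≤ 1) (n k : ℕ) (hk : k + m1 ≤ n) (c : ℝ)
    (ha : wa ≤ c) : gW 1 m1 s t wa wb wc (-(n : ℤ)) ≤ c + ρ ^ k := by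
  have e0 : ebZ 1 0 (-(n : ℤ)) = 0 := by
    unfold ebZ
    rw [if_neg (by norm_num), if_neg (by norm_num)]
    exact Int.toNat_of_nonpos (by omega)
  have e1 : ebZ 1 1 (-(n : ℤ)) = 0 := by
    unfold ebZ
    rw [if_neg (by norm_num), if_neg (by norm_num)]
    exact Int.toNat_of_nonpos (by omega)
  have f0 : eaZ m1 0 (-(n : ℤ)) = 0 := by
    unfold eaZ
    rw [if_pos rfl]
    exact Int.toNat_of_nonpos (by omega)
  have f1 : eaZ m1 1 (-(n : ℤ)) = n - m1 := by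
    unfold eaZ
    rw [if_neg (by norm_num)]
    omega
  have f2 : eaZ m1 2 (-(n : ℤ)) = n - m1 := by
    unfold eaZ
    rw [if_neg (by norm_num)]
    omega
  unfold gW
  rw [e0, e1, f0, f1, f2, pow_zero, pow_zero, mul_one, mul_one, mul_one]
  have h1 : ‖s‖ ^ (n - m1) ≤ ρ ^ k :=
    (pow_le_pow_left₀ (norm_nonneg s) hs _).trans
      (pow_le_pow_of_le_one ((norm_nonneg s).trans hs) hρ (by omega))
  have h2 : ‖t‖ ^ ebZ 1 2 (-(n : ℤ)) ≤ 1 := pow_le_one₀ (norm_nonneg t) ht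
  have h3 : ‖s‖ ^ (n - m1) * ‖t‖ ^ ebZ 1 2 (-(n : ℤ)) ≤ ‖s‖ ^ (n - m1) * 1 :=
    mul_le_mul_of_nonneg_left h2 (by positivity)
  have h4 : wc * (‖s‖ ^ (n - m1) * ‖t‖ ^ ebZ 1 2 (-(n : ℤ))) ≤ wc * ‖s‖ ^ (n - m1) := by
    rw [mul_one] at h3
    exact mul_le_mul_of_nonneg_left h3 hc
  have h5 : (wb + wc) * ‖s‖ ^ (n - m1) ≤ 1 * ‖s‖ ^ (n - m1) :=
    mul_le_mul_of_nonneg_right hw (by positivity)
  linarith

/-- a geometric tail -/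
private theorem ELeaf_geo (r : ℕ → ℝ) (hr0 : ∀ i, 0 ≤ r i) (a ρ : ℝ) (ha0 : 0 ≤ a) (ha : a ≤ ρ)
    (hρ : ρ < 1) (k : ℕ) (h : ∀ i, r i ≤ a ^ (k + i + 1)) :
    ∑' i, r i ≤ ρ ^ (k + 1) / (1 - ρ) := by
  have hρ0 : 0 ≤ ρ := ha0.trans ha
  have h1 : ∀ i, r i ≤ ρ ^ (k + 1) * ρ ^ i := fun i => by
    refine (h i).trans ((pow_le_pow_left₀ ha0 ha _).trans (le_of_eq ?_))
    rw [← pow_add]
    congr 1
    omega
  have hg : Summable fun i : ℕ => ρ ^ (k + 1) * ρ ^ i :=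
    (summable_geometric_of_lt_one hρ0 hρ).mul_left _
  have hr : Summable r := Summable.of_nonneg_of_le hr0 h1 hg
  calc ∑' i, r i ≤ ∑' i : ℕ, ρ ^ (k + 1) * ρ ^ i := hr.tsum_le_tsum h1 hg
    _ = ρ ^ (k + 1) / (1 - ρ) := by
      rw [tsum_mul_left, tsum_geometric_of_lt_one hρ0 hρ, div_eq_mul_inv]

/-- common part of the two families -/
private theorem ELeaf_main (kp md cr m1 m2 n0 E0 A0 B0 : ℕ) (hkp : kp = 1 ∨ kp = 2) (hn0 : n0 + m1 = m2 + 1)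
    (fx : List (Bool × ℕ)) (inn : List PosW) (nL nR PL PR rqc rpc : ℕ) {P x y Q u v R : ℕ}
    {la lb lc : List ℕ}
    (h : (FamS.mk 1 m1 m2 3 E0 A0 B0 fx inn (wtE kp md cr) wtL1 0 0 0 0 0 0 nR nL PR PL
      (tailE md (rrE kp md cr) rqc rpc n0 PR PL (wsumP la) (wsumP lc)) rqc rpc).chk
      (crnL u v) P x y Q R (radS R u v) la lb lc = true)
    {s t : ℂ} {w : ℤ → ℂ} (H : HypV 1 m1 s t w) (hs : InSq s x y Q) (ht : InSq t u v R)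
    (hu : |(u : ℝ) - 100000| + 1 ≤ 2 * R) (hv : |(v : ℝ) - 100000| + 1 ≤ 2 * R)
    (hrp : rpc < 10000) (hrr : rrE kp md cr < 10000) (h3 : 3 ≤ PR) (h37 : PR ≤ 37)
    (hsc : ‖s‖ ≤ (rqc : ℝ) / 10000) (hsc1 : (rqc : ℝ) / 10000 ≤ 1) (htc : ‖t‖ ≤ (rpc : ℝ) / 10000)
    (hfx : ∀ p ∈ fx, w (posZ p.1 p.2) = 1)
    (hperm : (fx.map (fun p => posZ p.1 p.2) ++ inn.map PosW.z).Perm
      ((List.range (m2 + 3 + 1)).map (fun i => (i : ℤ) - m2)))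
    (hinn : ∀ p ∈ inn, ‖w p.z‖ ≤ wtV (p.k, p.al, p.be) s t)
    (X : ℝ) (hX0 : 0 ≤ X) (hX : X ≤ ‖s‖ + 1 / 100000) (hy : 17 / 50 ≤ ‖s‖ ^ kp)
    (hcr : X * 1000000000000 ≤ (cr : ℝ) ^ 3)
    (oR : ∀ i : ℕ, ‖w (4 + (i : ℤ))‖ ^ 3 ≤ ((if md = 0 then 9 / 10 else 1) * X ^ kp) ^ exE md i)
    (oL : ∀ i : ℕ, ‖w (-(m2 : ℤ) - 1 - (i : ℤ))‖ ≤ ‖t‖ ^ (i + 1)) : False := by
  obtain ⟨hQ, hR, hR', hw⟩ := ELeaf_side h
  obtain ⟨w', hT⟩ := tside_sq u v R hR hR' hu hv t ht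
  have ha0 := ELeaf_wt0 (la.map ndC)
  have hb0 := ELeaf_wt0 (lb.map ndC)
  have hc0 := ELeaf_wt0 (lc.map ndC)
  have hwa : wtC (la.map ndC) ≤ (wsumP la : ℝ) / 100000000 := by
    rw [le_div_iff₀ (by norm_num)]
    exact wsumP_spec la
  have hwc : wtC (lc.map ndC) ≤ (wsumP lc : ℝ) / 100000000 := by
    rw [le_div_iff₀ (by norm_num)]
    exact wsumP_spec lc
  have hrp1 : (rpc : ℝ) / 10000 < 1 := by
    rw [div_lt_one (by norm_num)]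
    exact_mod_cast hrp
  have ht0 := norm_nonneg t
  have hD0 : (0 : ℝ) ≤ (if md = 0 then 9 / 10 else 1) * X ^ kp := by
    refine mul_nonneg ?_ (pow_nonneg hX0 _)
    split_ifs <;> norm_num
  have hD := rrE_spec kp md cr hkp X hX0 hcr
  have hτR := tauE_spec md (rrE kp md cr) PR h3 hrr _ hD0 hD (fun i => ‖w (4 + (i : ℤ))‖)
    (fun i => norm_nonneg _) oR
  have hτL : ∑' i : ℕ, ‖w (-(m2 : ℤ) - 1 - PL - i)‖ ≤
      ((rpc : ℝ) / 10000) ^ (PL + 1) / (1 - (rpc : ℝ) / 10000) := by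
    refine ELeaf_geo _ (fun i => norm_nonneg _) ‖t‖ _ ht0 htc hrp1 PL fun i => ?_
    have := oL (PL + i)
    have e : -(m2 : ℤ) - 1 - ((PL + i : ℕ) : ℤ) = -(m2 : ℤ) - 1 - PL - i := by
      push_cast
      ring
    rw [e] at this
    exact this
  refine fam_sound _ h H hs hT hsc htc hfx hperm hinn ?_ ?_
    ((wsumP lc : ℝ) / 100000000 + ((rpc : ℝ) / 10000) ^ (PR + 4))
    ((wsumP la : ℝ) / 100000000 + ((rqc : ℝ) / 10000) ^ (PL + n0))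
    ((tauE md (rrE kp md cr) PR : ℝ) / 100000000)
    (((rpc : ℝ) / 10000) ^ (PL + 1) / (1 - (rpc : ℝ) / 10000)) ?_ ?_ ?_ hτL ?_
  · unfold SeqOK
    rw [if_pos rfl]
    intro i hi
    have h1 := wtE_spec kp md cr i hkp (lt_of_lt_of_le hi h37) X ‖s‖ ‖w (4 + (i : ℤ))‖ (norm_nonneg _)
      (norm_nonneg _) hy hX0 hX hcr (oR i)
    have e2 : (wtE kp md cr i).2.2 = 0 := rfl
    have e3 : (((3 : ℕ) : ℤ) + 1 + (i : ℤ)) = 4 + (i : ℤ) := by norm_num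
    show ‖w (((3 : ℕ) : ℤ) + 1 + (i : ℤ))‖ ≤ wtV (wtE kp md cr i) s t
    unfold wtV
    rw [e3, e2, pow_zero, mul_one]
    exact h1
  · unfold SeqOK
    rw [if_pos rfl]
    intro i hi
    show ‖w (-(m2 : ℤ) - 1 - (i : ℤ))‖ ≤ wtV (wtL1 i) s t
    unfold wtV wtL1
    simp only [pow_zero, one_mul]
    have := oL i
    norm_num
    exact this
  · intro i
    have e : (((3 : ℕ) : ℤ) + 1 + (PR : ℤ) + (i : ℤ)) = ((4 + PR + i : ℕ) : ℤ) := by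
      push_cast
      ring
    show gW 1 m1 s t _ _ _ (((3 : ℕ) : ℤ) + 1 + (PR : ℤ) + (i : ℤ)) ≤ _
    rw [e]
    exact ELeaf_gR m1 s t _ _ _ ha0 (by linarith) H.s_le _ htc hrp1.le _ _ (by omega) _ hwc
  · intro i
    have e : (-(m2 : ℤ) - 1 - (PL : ℤ) - (i : ℤ)) = -((m2 + 1 + PL + i : ℕ) : ℤ) := by
      push_cast
      ring
    show gW 1 m1 s t _ _ _ (-(m2 : ℤ) - 1 - (PL : ℤ) - (i : ℤ)) ≤ _
    rw [e]
    exact ELeaf_gL m1 s t _ _ _ hc0 (by linarith) H.t_le _ hsc hsc1 _ _ (by omega) _ hwa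
  · have e : ∀ i : ℕ, (((3 : ℕ) : ℤ) + 1 + (PR : ℤ) + (i : ℤ)) = 4 + ((PR + i : ℕ) : ℤ) := by
      intro i
      push_cast
      ring
    show ∑' i : ℕ, ‖w (((3 : ℕ) : ℤ) + 1 + (PR : ℤ) + (i : ℤ))‖ ≤ _
    simp only [e]
    exact hτR
  · exact tailE_spec md (rrE kp md cr) rqc rpc n0 PR PL (wsumP la) (wsumP lc) _ _ le_rfl le_rfl hrp

private theorem ELeaf_exE0 (i : ℕ) : exE 0 i = i + 1 := rfl

private theorem ELeaf_exE1 {md : ℕ} (h : md ≠ 0) (i : ℕ) : exE md i = i + 1 + (i - 2) := by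
  have e : Nat.beq md 0 = false := by
    cases hc : Nat.beq md 0
    · rfl
    · exact absurd (Nat.eq_of_beq_eq_true hc) h
  unfold exE
  rw [e]
  rfl

private theorem ELeaf_sq {a E z : ℝ} {k : ℕ} (h1 : a ^ 2 ≤ E - z) (h2 : E - z ≤ ((k : ℝ) / 100000000) ^ 2) :
    a ≤ (k : ℝ) / 100000000 :=
  abs_le_of_sq_le_sq' (h1.trans h2) (by positivity) |>.2

private theorem ELeaf_wtV0 (k : ℕ) (s t : ℂ) : wtV (k, 0, 0) s t = (k : ℝ) / 100000000 := by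
  simp [wtV]

theorem checkE_sound3 (md x y Q u v R cr P nL nR PL PR : ℕ) (la lb lc : List ℕ)
    (h : checkE 0 md x y Q u v R cr P nL nR PL PR la lb lc = true) : CellE3 md x y Q u v R := by
  intro q t w H hq1 hq2 _ _ _ hs hts
  unfold checkE at h
  rw [Bool.and_eq_true] at h
  obtain ⟨h1, h2⟩ := h
  have e0 : (bif Nat.beq 0 0 then 7052 else 8398 : ℕ) = 7052 := rfl
  have e1 : (bif Nat.beq 0 0 then 6348 else 7968 : ℕ) = 6348 := rfl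
  rw [e0, e1] at h1 h2
  obtain ⟨rqc, e2⟩ : ∃ n, n = minN (radS Q x y) 7052 := ⟨_, rfl⟩
  obtain ⟨rpc, e3⟩ : ∃ n, n = minN (radS R u v) 6348 := ⟨_, rfl⟩
  rw [← e2, ← e3] at h1 h2
  obtain ⟨s1, s2, s3, s4, s5, s6, s7, s8⟩ := sideE_spec h1
  rw [if_pos rfl] at s3
  have h2' := h2
  obtain ⟨hQ, hR, hR', hw⟩ := ELeaf_side h2'
  have htle := H.t_le
  have hradq : ‖q‖ + 1 / 100000 ≤ (rqc : ℝ) / 10000 := by
    rw [e2]
    exact radS_spec x y Q hQ q hs 7052 (by push_cast; linarith)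
  have hradt : ‖t‖ + 1 / 100000 ≤ (rpc : ℝ) / 10000 := by
    rw [e3]
    exact radS_spec u v R hR t hts 6348 (by push_cast; linarith)
  have hrq1 : (rqc : ℝ) / 10000 ≤ 1 := by
    have : rqc ≤ 7052 := by
      rw [e2, minN_eq]
      exact min_le_right _ _
    have : (rqc : ℝ) ≤ 7052 := by exact_mod_cast this
    linarith
  refine ELeaf_main 1 md cr 1 2 2 3 4 3 (Or.inl rfl) rfl _ _ nL nR PL PR rqc rpc h2 (H.toV hq2) hs hts s7 s8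
    s4 s3 s5 s6 (by linarith) hrq1 (by linarith) ?_ ?_ ?_ (‖q‖ + 1 / 100000) (by positivity) le_rfl
    (by rw [pow_one]; exact hq1) ?_ ?_ ?_
  · intro p hp
    fin_cases hp
    · exact H.v2
    · exact H.v1
    · exact H.v0
    · exact H.v3
  · show List.Perm ([-2, -1, 0, 3, 1, 2] : List ℤ) [-2, -1, 0, 1, 2, 3]
    decide
  · intro p hp
    have h5 := sigI_spec u v R hR t hts
    fin_cases hp
    · show ‖w 1‖ ≤ wtV (sigI R u v, 0, 0) q t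
      rw [ELeaf_wtV0]
      exact ELeaf_sq (H.inn hq2 1 (Or.inl rfl)) h5
    · show ‖w 2‖ ≤ wtV (sigI R u v, 0, 0) q t
      rw [ELeaf_wtV0]
      exact ELeaf_sq (H.inn hq2 2 (Or.inr rfl)) h5
  · have : (‖q‖ + 1 / 100000) * 1000000000000 ≤ (rqc : ℝ) / 10000 * 1000000000000 :=
      mul_le_mul_of_nonneg_right hradq (by norm_num)
    linarith
  · intro i
    rw [pow_one]
    by_cases hmd : md = 0
    · rw [if_pos hmd, hmd, ELeaf_exE0]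
      exact H.oR0 hmd i
    · rw [if_neg hmd, ELeaf_exE1 hmd, one_mul]
      exact H.oR1 hmd i
  · intro i
    have := H.oL i
    have e : (-((2 : ℕ) : ℤ) - 1 - (i : ℤ)) = -3 - (i : ℤ) := by norm_num
    rw [e]
    exact this

theorem checkE_sound32 (md x y Q u v R cr P nL nR PL PR : ℕ) (la lb lc : List ℕ)
    (h : checkE 1 md x y Q u v R cr P nL nR PL PR la lb lc = true) : CellE32 md x y Q u v R := by
  intro q t w H hq1 hq2 _ _ _ hs hts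
  unfold checkE at h
  rw [Bool.and_eq_true] at h
  obtain ⟨h1, h2⟩ := h
  have e0 : (bif Nat.beq 1 0 then 7052 else 8398 : ℕ) = 8398 := rfl
  have e1 : (bif Nat.beq 1 0 then 6348 else 7968 : ℕ) = 7968 := rfl
  rw [e0, e1] at h1 h2
  obtain ⟨rqc, e2⟩ : ∃ n, n = minN (radS Q x y) 8398 := ⟨_, rfl⟩
  obtain ⟨rpc, e3⟩ : ∃ n, n = minN (radS R u v) 7968 := ⟨_, rfl⟩
  rw [← e2, ← e3] at h1 h2
  obtain ⟨s1, s2, s3, s4, s5, s6, s7, s8⟩ := sideE_spec h1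
  rw [if_neg one_ne_zero] at s3
  have h2' := h2
  obtain ⟨hQ, hR, hR', hw⟩ := ELeaf_side h2'
  have htle := H.t_le
  have hq0 := norm_nonneg q
  have ht0 := norm_nonneg t
  have hqa : ‖q‖ ≤ 8398 / 10000 - 1 / 100000 := by
    by_contra hc
    rw [not_le] at hc
    nlinarith
  have hta : ‖t‖ ≤ 7968 / 10000 - 1 / 100000 := by
    by_contra hc
    rw [not_le] at hc
    nlinarith
  have hqb : 1 / 2 ≤ ‖q‖ := by
    by_contra hc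
    rw [not_le] at hc
    nlinarith
  have hradq : ‖q‖ + 1 / 100000 ≤ (rqc : ℝ) / 10000 := by
    rw [e2]
    exact radS_spec x y Q hQ q hs 8398 (by push_cast; linarith)
  have hradt : ‖t‖ + 1 / 100000 ≤ (rpc : ℝ) / 10000 := by
    rw [e3]
    exact radS_spec u v R hR t hts 7968 (by push_cast; linarith)
  have hrq1 : (rqc : ℝ) / 10000 ≤ 1 := by
    have : rqc ≤ 8398 := by
      rw [e2, minN_eq]
      exact min_le_right _ _
    have : (rqc : ℝ) ≤ 8398 := by exact_mod_cast this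
    linarith
  have hX2 : Real.sqrt (‖q‖ ^ 2 + 1 / 100000) ^ 2 = ‖q‖ ^ 2 + 1 / 100000 := Real.sq_sqrt (by positivity)
  have hXle : Real.sqrt (‖q‖ ^ 2 + 1 / 100000) ≤ ‖q‖ + 1 / 100000 := by
    rw [Real.sqrt_le_left (by positivity)]
    nlinarith
  refine ELeaf_main 2 md cr 2 4 3 4 5 4 (Or.inr rfl) rfl _ _ nL nR PL PR rqc rpc h2 (H.toV hq2) hs hts s7 s8
    s4 s3 s5 s6 (by linarith) hrq1 (by linarith) ?_ ?_ ?_ (Real.sqrt (‖q‖ ^ 2 + 1 / 100000))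
    (Real.sqrt_nonneg _) hXle hq1 ?_ ?_ ?_
  · intro p hp
    fin_cases hp
    · exact H.v4
    · exact H.v2
    · exact H.v0
    · exact H.v3
  · show List.Perm ([-4, -2, 0, 3, 1, 2, -1, -3] : List ℤ) [-4, -3, -2, -1, 0, 1, 2, 3]
    decide
  · intro p hp
    have h5 := sig4_spec u v R hR t hts
    have h6 := sig4_spec x y Q hQ q hs
    fin_cases hp
    · show ‖w 1‖ ≤ wtV (sig4 R u v, 0, 0) q t
      rw [ELeaf_wtV0]
      exact ELeaf_sq (H.inn hq2 1 (Or.inl rfl)) h5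
    · show ‖w 2‖ ≤ wtV (sig4 R u v, 0, 0) q t
      rw [ELeaf_wtV0]
      exact ELeaf_sq (H.inn hq2 2 (Or.inr rfl)) h5
    · show ‖w (-1)‖ ≤ wtV (sig4 Q x y, 0, 0) q t
      rw [ELeaf_wtV0]
      exact ELeaf_sq (H.inA hq2 (-1) (Or.inl rfl)) h6
    · show ‖w (-3)‖ ≤ wtV (sig4 Q x y, 0, 0) q t
      rw [ELeaf_wtV0]
      exact ELeaf_sq (H.inA hq2 (-3) (Or.inr rfl)) h6
  · have h5 : Real.sqrt (‖q‖ ^ 2 + 1 / 100000) ≤ (rqc : ℝ) / 10000 := hXle.trans hradq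
    have : Real.sqrt (‖q‖ ^ 2 + 1 / 100000) * 1000000000000 ≤ (rqc : ℝ) / 10000 * 1000000000000 :=
      mul_le_mul_of_nonneg_right h5 (by norm_num)
    linarith
  · intro i
    rw [hX2]
    by_cases hmd : md = 0
    · rw [if_pos hmd, hmd, ELeaf_exE0]
      exact H.oR0 hmd i
    · rw [if_neg hmd, ELeaf_exE1 hmd, one_mul]
      exact H.oR1 hmd i
  · intro i
    have := H.oL i
    have e : (-((4 : ℕ) : ℤ) - 1 - (i : ℤ)) = -5 - (i : ℤ) := by norm_num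
    rw [e]
    exact this

end Pool.Agent.MaxTerm58
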