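import Pool.Agent.MaxTerm58.NodeRep
import Pool.Agent.MaxTerm58.Box

/-! Hints: induction on `ms`; `absP_spec` with the smallness `(10^5 * 32045^35)^2 < 2^1280` (`MM_eq`). -/

namespace Pool.Agent.MaxTerm58

private theorem ELoop_small : ((100000 : ℝ) * 32045 ^ 35) ^ 2 < (MM : ℝ) := by
  have h1 : ((100000 : ℝ) * 32045 ^ 35) ^ 2 ≤ (2 ^ 17 * (2 ^ 15) ^ 35) ^ 2 := by
    have ha : (100000 : ℝ) ≤ 2 ^ 17 := by norm_num
    have hb : (32045 : ℝ) ≤ 2 ^ 15 := by norm_num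
    gcongr
  have h2 : ((2 : ℝ) ^ 17 * (2 ^ 15) ^ 35) ^ 2 = 2 ^ 1084 := by
    rw [← pow_mul, ← pow_add, ← pow_mul]
  have h3 : (2 : ℝ) ^ 1084 ≤ 2 ^ 1280 := pow_le_pow_right₀ (by norm_num) (by norm_num)
  have h4 : ((MM : ℕ) : ℝ) = (2 : ℝ) ^ 1280 + 1 := by
    rw [MM_eq, Nat.cast_add, Nat.cast_pow, Nat.cast_ofNat, Nat.cast_one]
  rw [h4]
  rw [h2] at h1
  exact lt_of_le_of_lt (h1.trans h3) (lt_add_one _)

private theorem ELoop_term {x : PC} {v : ℂ} {j : ℕ} (h : CRep x (100000 * 32045 ^ j * v))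
    (hv : ‖v‖ ≤ 1) (hj : j ≤ 35) :
    ‖v‖ * 100000000 ≤ ((absP x (Nat.mul 100000 (Nat.pow 32045 j)) : ℕ) : ℝ) := by
  refine absP_spec h ?_ _ ?_ ?_
  · refine lt_of_le_of_lt ?_ ELoop_small
    have h1 : ‖(100000 * 32045 ^ j * v : ℂ)‖ = 100000 * 32045 ^ j * ‖v‖ := by
      rw [norm_mul, norm_mul, norm_pow]
      norm_num
    rw [h1]
    have h2 : (32045 : ℝ) ^ j ≤ 32045 ^ 35 := pow_le_pow_right₀ (by norm_num) hj
    have h3 : (0 : ℝ) ≤ 32045 ^ j := by positivity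
    have h4 : 100000 * (32045 : ℝ) ^ j * ‖v‖ ≤ 100000 * 32045 ^ 35 := by
      calc 100000 * (32045 : ℝ) ^ j * ‖v‖ ≤ 100000 * (32045 : ℝ) ^ j * 1 :=
            mul_le_mul_of_nonneg_left hv (by positivity)
        _ ≤ 100000 * 32045 ^ 35 := by linarith
    exact pow_le_pow_left₀ (by positivity) h4 2
  · exact Nat.mul_pos (by norm_num) (Nat.pow_pos (by norm_num))
  · have h1 : ((Nat.mul 100000 (Nat.pow 32045 j) : ℕ) : ℂ) = 100000 * 32045 ^ j := by
      have : Nat.mul 100000 (Nat.pow 32045 j) = 100000 * 32045 ^ j := rfl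
      rw [this]
      push_cast
      rfl
    rw [h1]

private theorem ELoop_prod {a F : ℝ} {x y : ℕ} (ha : 0 ≤ a) (hF : 0 ≤ F)
    (h1 : a * 100000000 ≤ (x : ℝ)) (h2 : F * 100000000 ≤ (y : ℝ)) :
    a * F * 10000000000000000 ≤ (x : ℝ) * y := by
  have h3 : (a * 100000000) * (F * 100000000) ≤ (x : ℝ) * y :=
    mul_le_mul h1 h2 (by positivity) (by positivity)
  linarith

/-- the loop bounds the weighted sum of the moments -/
theorem eloopP_spec (A B C : ℤ → ℂ) (hA : ∀ k, ‖A k‖ ≤ 1) (hB : ∀ k, ‖B k‖ ≤ 1) (hC : ∀ k, ‖C k‖ ≤ 1)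
    (f : ℕ → ℕ → ℕ) (F : ℕ → ℕ → ℝ) (hF : ∀ a b, 0 ≤ F a b) (hf : ∀ a b, F a b * 100000000 ≤ ((f a b : ℕ) : ℝ)) :
    ∀ (ms : List PM) (i acc : ℕ), MsRep ms i A B C → i + ms.length ≤ 33 →
      (acc : ℝ) + 100000000 * ∑ k ∈ Finset.range ms.length, momSum A B C F (i + k) ≤
      ((eloopP f ms i acc : ℕ) : ℝ) := by
  intro ms
  induction ms with
  | nil =>
    intro i acc _ _
    simp [eloopP]
  | cons m ms ih =>
    intro i acc hms hlen
    obtain ⟨hm, hms'⟩ := hms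
    rw [List.length_cons] at hlen
    have hlen' : (i + 1) + ms.length ≤ 33 := by omega
    obtain ⟨hva, hvb, hvc, hua, hub, huc⟩ := hm
    have e1 := ELoop_prod (norm_nonneg _) (hF (i + 1) 0) (ELoop_term hva (hA _) (by omega)) (hf (i + 1) 0)
    have e2 := ELoop_prod (norm_nonneg _) (hF (2 * i + 3) 0) (ELoop_term hvb (hB _) (by omega)) (hf (2 * i + 3) 0)
    have e3 := ELoop_prod (norm_nonneg _) (hF (2 * i + 3) (i + 3)) (ELoop_term hvc (hC _) (by omega))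
      (hf (2 * i + 3) (i + 3))
    have e4 := ELoop_prod (norm_nonneg _) (hF (i + 1) 0) (ELoop_term huc (hC _) (by omega)) (hf (i + 1) 0)
    have e5 := ELoop_prod (norm_nonneg _) (hF (i + 1) (i + 2)) (ELoop_term hub (hB _) (by omega))
      (hf (i + 1) (i + 2))
    have e6 := ELoop_prod (norm_nonneg _) (hF (2 * i + 4) (i + 2)) (ELoop_term hua (hA _) (by omega))
      (hf (2 * i + 4) (i + 2))
    set S : ℕ := (Nat.add (Nat.add
        (Nat.add (Nat.mul (absP m.va (Nat.mul 100000 (Nat.pow 32045 (Nat.add i 2)))) (f (Nat.add i 1) 0))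
          (Nat.mul (absP m.vb (Nat.mul 100000 (Nat.pow 32045 (Nat.add i 2)))) (f (Nat.add (Nat.mul 2 i) 3) 0)))
        (Nat.add (Nat.mul (absP m.vc (Nat.mul 100000 (Nat.pow 32045 (Nat.add i 2)))) (f (Nat.add (Nat.mul 2 i) 3) (Nat.add i 3)))
          (Nat.mul (absP m.uc (Nat.mul 100000 (Nat.pow 32045 (Nat.add i 3)))) (f (Nat.add i 1) 0))))
        (Nat.add (Nat.mul (absP m.ub (Nat.mul 100000 (Nat.pow 32045 (Nat.add i 3)))) (f (Nat.add i 1) (Nat.add i 2)))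
          (Nat.mul (absP m.ua (Nat.mul 100000 (Nat.pow 32045 (Nat.add i 3)))) (f (Nat.add (Nat.mul 2 i) 4) (Nat.add i 2)))))
      with hS
    have hS' : (S : ℝ) =
        ((absP m.va (Nat.mul 100000 (Nat.pow 32045 (i + 2))) : ℕ) : ℝ) * ((f (i + 1) 0 : ℕ) : ℝ) +
        ((absP m.vb (Nat.mul 100000 (Nat.pow 32045 (i + 2))) : ℕ) : ℝ) * ((f (2 * i + 3) 0 : ℕ) : ℝ) +
        (((absP m.vc (Nat.mul 100000 (Nat.pow 32045 (i + 2))) : ℕ) : ℝ) * ((f (2 * i + 3) (i + 3) : ℕ) : ℝ) +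
        ((absP m.uc (Nat.mul 100000 (Nat.pow 32045 (i + 3))) : ℕ) : ℝ) * ((f (i + 1) 0 : ℕ) : ℝ)) +
        (((absP m.ub (Nat.mul 100000 (Nat.pow 32045 (i + 3))) : ℕ) : ℝ) * ((f (i + 1) (i + 2) : ℕ) : ℝ) +
        ((absP m.ua (Nat.mul 100000 (Nat.pow 32045 (i + 3))) : ℕ) : ℝ) * ((f (2 * i + 4) (i + 2) : ℕ) : ℝ)) := by
      rw [hS]
      simp only [Nat.add_eq, Nat.mul_eq]
      push_cast
      rfl
    have hrec : eloopP f (m :: ms) i acc = eloopP f ms (Nat.succ i) (Nat.succ (Nat.add acc (Nat.div S 100000000))) := rfl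
    rw [hrec]
    have h1 := ih (i + 1) (Nat.succ (Nat.add acc (Nat.div S 100000000))) hms' hlen'
    refine le_trans ?_ h1
    rw [List.length_cons, Finset.sum_range_succ']
    have h2 : ∀ k, momSum A B C F (i + (k + 1)) = momSum A B C F (i + 1 + k) := fun k => by
      rw [show i + (k + 1) = i + 1 + k by ring]
    simp only [h2, add_zero]
    have h3 : (S : ℝ) / 100000000 ≤ ((S / 100000000 : ℕ) : ℝ) + 1 := by
      have h4 : S < 100000000 * (S / 100000000 + 1) := Nat.lt_mul_div_succ S (by norm_num)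
      rw [div_le_iff₀ (by norm_num)]
      have h5 : (S : ℝ) < 100000000 * (((S / 100000000 : ℕ) : ℝ) + 1) := by exact_mod_cast h4
      linarith
    have h6 : ((Nat.succ (Nat.add acc (Nat.div S 100000000)) : ℕ) : ℝ) = acc + ((S / 100000000 : ℕ) : ℝ) + 1 := by
      have : Nat.succ (Nat.add acc (Nat.div S 100000000)) = acc + S / 100000000 + 1 := rfl
      rw [this]
      push_cast
      ring
    rw [h6]
    have h7 : momSum A B C F i * 10000000000000000 ≤ S := by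
      rw [hS']
      unfold momSum
      linarith
    have h8 : 100000000 * momSum A B C F i ≤ (S : ℝ) / 100000000 := by
      rw [le_div_iff₀ (by norm_num)]
      linarith
    rw [mul_add]
    linarith

end Pool.Agent.MaxTerm58
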