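import Pool.Agent.MaxTerm58.ELeaf

/-! Soundness of the tree. Model: `TreeS.lean` (same structure; copy its private lemmas). -/

namespace Pool.Agent.MaxTerm58

private theorem ETree_absD (x : ℕ) : ((absD x : ℕ) : ℝ) = |(x : ℝ) - 100000| := by
  unfold absD
  rcases le_total x 100000 with h | h
  · have h1 : Nat.add (Nat.sub x 100000) (Nat.sub 100000 x) = 100000 - x := by
      show (x - 100000) + (100000 - x) = 100000 - x
      omega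
    have h2 : (x : ℝ) ≤ 100000 := by exact_mod_cast h
    rw [h1, Nat.cast_sub h, abs_of_nonpos (by linarith)]
    push_cast
    ring
  · have h1 : Nat.add (Nat.sub x 100000) (Nat.sub 100000 x) = x - 100000 := by
      show (x - 100000) + (100000 - x) = x - 100000
      omega
    have h2 : (100000 : ℝ) ≤ x := by exact_mod_cast h
    rw [h1, Nat.cast_sub h, abs_of_nonneg (by linarith)]
    push_cast
    ring

/-- one coordinate: upper and lower bound of the square -/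
private theorem ETree_lin (t : ℝ) (x Q : ℕ) (h : |t * Q - ((x : ℝ) - 100000)| ≤ 1) :
    |t * Q| ≤ ((Nat.succ (absD x) : ℕ) : ℝ) ∧ ((absD x - 1 : ℕ) : ℝ) ≤ |t * Q| := by
  have e := ETree_absD x
  have h1 : |t * Q| ≤ |(x : ℝ) - 100000| + 1 := by
    have := abs_add_le (t * Q - ((x : ℝ) - 100000)) ((x : ℝ) - 100000)
    rw [sub_add_cancel] at this
    linarith
  have h2 : |(x : ℝ) - 100000| - 1 ≤ |t * Q| := by
    have := abs_add_le (((x : ℝ) - 100000) - t * Q) (t * Q)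
    rw [sub_add_cancel, abs_sub_comm ((x : ℝ) - 100000) (t * Q)] at this
    linarith
  constructor
  · rw [Nat.succ_eq_add_one]
    push_cast
    rw [e]
    exact h1
  · rcases Nat.eq_zero_or_pos (absD x) with h0 | h0
    · rw [h0]
      simp only [Nat.zero_sub, Nat.cast_zero]
      exact abs_nonneg _
    · rw [Nat.cast_sub h0, e, Nat.cast_one]
      exact h2

private theorem ETree_coord (t : ℝ) (x Q : ℕ) (h : |t * Q - ((x : ℝ) - 100000)| ≤ 1) :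
    (t * Q) ^ 2 ≤ (((Nat.succ (absD x)) ^ 2 : ℕ) : ℝ) ∧
      (((absD x - 1) ^ 2 : ℕ) : ℝ) ≤ (t * Q) ^ 2 := by
  obtain ⟨h1, h2⟩ := ETree_lin t x Q h
  constructor
  · rw [← sq_abs (t * Q), Nat.cast_pow]
    exact pow_le_pow_left₀ (abs_nonneg _) h1 2
  · rw [← sq_abs (t * Q), Nat.cast_pow]
    exact pow_le_pow_left₀ (Nat.cast_nonneg _) h2 2

private theorem ETree_norm (z : ℂ) (Q : ℕ) :
    (z.re * Q) ^ 2 + (z.im * Q) ^ 2 = ‖z‖ ^ 2 * (Q : ℝ) ^ 2 := by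
  rw [Complex.sq_norm, Complex.normSq_apply]
  ring

/-- the offset coordinate of a nonempty cell is large -/
private theorem ETree_large (t : ℝ) (x Q : ℕ) (ht : |t| ≤ 1) (hQ : Q ≤ 4096)
    (h : |t * Q - ((x : ℝ) - 100000)| ≤ 1) : 60000 ≤ x := by
  have hQ' : (Q : ℝ) ≤ 4096 := by exact_mod_cast hQ
  have h0 : (0 : ℝ) ≤ Q := Nat.cast_nonneg _
  have h1 : |t * Q| ≤ 4096 := by
    rw [abs_mul, abs_of_nonneg h0]
    nlinarith [abs_nonneg t]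
  have h2 := abs_le.1 h1
  have h3 := abs_le.1 h
  have : (60000 : ℝ) ≤ x := by linarith
  exact_mod_cast this

private theorem ETree_cast1 (x : ℕ) (hx : 60000 ≤ x) :
    (((Nat.sub (Nat.mul 2 x) 100001) : ℕ) : ℝ) = 2 * x - 100001 := by
  show ((2 * x - 100001 : ℕ) : ℝ) = 2 * x - 100001
  rw [Nat.cast_sub (by omega)]
  push_cast
  ring

private theorem ETree_cast2 (x : ℕ) (hx : 60000 ≤ x) :
    (((Nat.sub (Nat.mul 2 x) 99999) : ℕ) : ℝ) = 2 * x - 99999 := by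
  show ((2 * x - 99999 : ℕ) : ℝ) = 2 * x - 99999
  rw [Nat.cast_sub (by omega)]
  push_cast
  ring

/-- halving one coordinate -/
private theorem ETree_split (t : ℝ) (x Q : ℕ) (ht : |t| ≤ 1) (hQ : Q ≤ 4096)
    (h : |t * Q - ((x : ℝ) - 100000)| ≤ 1) :
    |t * ((Nat.mul 2 Q : ℕ) : ℝ) - ((((Nat.sub (Nat.mul 2 x) 100001) : ℕ) : ℝ) - 100000)| ≤ 1 ∨
    |t * ((Nat.mul 2 Q : ℕ) : ℝ) - ((((Nat.sub (Nat.mul 2 x) 99999) : ℕ) : ℝ) - 100000)| ≤ 1 := by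
  have hx := ETree_large t x Q ht hQ h
  rw [ETree_cast1 x hx, ETree_cast2 x hx]
  have e : ((Nat.mul 2 Q : ℕ) : ℝ) = 2 * Q := by
    show ((2 * Q : ℕ) : ℝ) = 2 * Q
    push_cast
    ring
  rw [e]
  have h3 := abs_le.1 h
  rcases le_total (t * Q - ((x : ℝ) - 100000)) 0 with h0 | h0
  · left
    rw [abs_le]
    constructor <;> linarith
  · right
    rw [abs_le]
    constructor <;> linarith


/-- soundness of the disjointness test -/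
private theorem ETree_disR {x y Q a b c : ℕ} (h : disR x y Q a b c = true) {q : ℂ}
    (hq : InSq q x y Q) (hl : -(a : ℝ) / 32 ≤ q.re) (hr : q.re ≤ -(b : ℝ) / 32)
    (hi : |q.im| ≤ (c : ℝ) / 32) : False := by
  have hQ : (0 : ℝ) ≤ Q := Nat.cast_nonneg _
  have b1 := abs_le.1 hq.1
  obtain ⟨_, y2⟩ := ETree_lin _ _ _ hq.2
  unfold disR at h
  simp only [Bool.or_eq_true, Nat.blt_eq] at h
  rcases h with (h | h) | h
  · have h1 : 32 * (x + 1) + a * Q < 3200000 := h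
    have h2 : (32 : ℝ) * (x + 1) + a * Q < 3200000 := by exact_mod_cast h1
    have h3 := mul_le_mul_of_nonneg_right hl hQ
    have h4 : -(a : ℝ) / 32 * Q = -(a * Q) / 32 := by ring
    rw [h4] at h3
    linarith [b1.2]
  · have h1 : 3200032 < 32 * x + b * Q := h
    have h2 : (3200032 : ℝ) < 32 * x + b * Q := by exact_mod_cast h1
    have h3 := mul_le_mul_of_nonneg_right hr hQ
    have h4 : -(b : ℝ) / 32 * Q = -(b * Q) / 32 := by ring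
    rw [h4] at h3
    linarith [b1.1]
  · have h1 : c * Q < 32 * (absD y - 1) := h
    have h2 : (c : ℝ) * Q < 32 * ((absD y - 1 : ℕ) : ℝ) := by exact_mod_cast h1
    have h3 := mul_le_mul_of_nonneg_right hi hQ
    have h4 : (c : ℝ) / 32 * Q = c * Q / 32 := by ring
    rw [h4] at h3
    rw [abs_mul, abs_of_nonneg hQ] at y2
    linarith

private theorem ETree_disS {x y Q a b c : ℕ} (h : disS x y Q a b c = true) {s : ℂ}
    (hq : InSq s x y Q) (hl : -(a : ℝ) / 32 ≤ (s ^ 2).re) (hr : (s ^ 2).re ≤ -(b : ℝ) / 32)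
    (hi : |(s ^ 2).im| ≤ (c : ℝ) / 32) : False := by
  have hQ : (0 : ℝ) ≤ (Q : ℝ) ^ 2 := by positivity
  obtain ⟨x1, x2⟩ := ETree_coord _ _ _ hq.1
  obtain ⟨y1, y2⟩ := ETree_coord _ _ _ hq.2
  obtain ⟨_, x4⟩ := ETree_lin _ _ _ hq.1
  obtain ⟨_, y4⟩ := ETree_lin _ _ _ hq.2
  have e1 : (s ^ 2).re * (Q : ℝ) ^ 2 = (s.re * Q) ^ 2 - (s.im * Q) ^ 2 := by
    rw [sq s, Complex.mul_re]
    ring
  have e2 : |(s ^ 2).im| * (Q : ℝ) ^ 2 = 2 * (|s.re * Q| * |s.im * Q|) := by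
    have e3 : |(s ^ 2).im| * (Q : ℝ) ^ 2 = |(s ^ 2).im * (Q : ℝ) ^ 2| := by
      rw [abs_mul, abs_of_nonneg hQ]
    have e4 : 2 * (|s.re * Q| * |s.im * Q|) = |2 * ((s.re * Q) * (s.im * Q))| := by
      rw [abs_mul 2, abs_mul (s.re * Q), abs_two]
    rw [e3, e4, sq s, Complex.mul_im]
    congr 1
    ring
  unfold disS at h
  simp only [Bool.or_eq_true, Nat.blt_eq] at h
  rcases h with (h | h) | h
  · have h1 : 32 * (Nat.succ (absD x)) ^ 2 + a * Q ^ 2 < 32 * (absD y - 1) ^ 2 := h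
    have h2 : (32 : ℝ) * (((Nat.succ (absD x)) ^ 2 : ℕ) : ℝ) + a * (Q : ℝ) ^ 2 <
        32 * (((absD y - 1) ^ 2 : ℕ) : ℝ) := by exact_mod_cast h1
    have h3 := mul_le_mul_of_nonneg_right hl hQ
    have h4 : -(a : ℝ) / 32 * (Q : ℝ) ^ 2 = -(a * (Q : ℝ) ^ 2) / 32 := by ring
    rw [h4, e1] at h3
    linarith
  · have h1 : 32 * (Nat.succ (absD y)) ^ 2 < 32 * (absD x - 1) ^ 2 + b * Q ^ 2 := h
    have h2 : (32 : ℝ) * (((Nat.succ (absD y)) ^ 2 : ℕ) : ℝ) <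
        32 * (((absD x - 1) ^ 2 : ℕ) : ℝ) + b * (Q : ℝ) ^ 2 := by exact_mod_cast h1
    have h3 := mul_le_mul_of_nonneg_right hr hQ
    have h4 : -(b : ℝ) / 32 * (Q : ℝ) ^ 2 = -(b * (Q : ℝ) ^ 2) / 32 := by ring
    rw [h4, e1] at h3
    linarith
  · have h1 : c * Q ^ 2 < 64 * ((absD x - 1) * (absD y - 1)) := h
    have h2 : (c : ℝ) * (Q : ℝ) ^ 2 < 64 * (((absD x - 1 : ℕ) : ℝ) * ((absD y - 1 : ℕ) : ℝ)) := by
      exact_mod_cast h1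
    have h3 := mul_le_mul_of_nonneg_right hi hQ
    have h4 : (c : ℝ) / 32 * (Q : ℝ) ^ 2 = (c * (Q : ℝ) ^ 2) / 32 := by ring
    rw [h4, e2] at h3
    have h5 : ((absD x - 1 : ℕ) : ℝ) * ((absD y - 1 : ℕ) : ℝ) ≤ |s.re * Q| * |s.im * Q| :=
      mul_le_mul x4 y4 (Nat.cast_nonneg _) (abs_nonneg _)
    linarith

/-- the rectangles of `InU2` -/
private theorem ETree_U {P : ℕ → ℕ → ℕ → Prop} {x y : ℝ} (h : InU2 x y)
    (hP : ∀ a b c, P a b c → -(a : ℝ) / 32 ≤ x → x ≤ -(b : ℝ) / 32 → y ≤ (c : ℝ) / 32 → False)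
    (h1 : P 23 21 7) (h2 : P 21 17 11) (h3 : P 17 8 13) (h4 : P 8 6 11) : False := by
  rcases h with ⟨a, b, c⟩ | ⟨a, b, c⟩ | ⟨a, b, c⟩ | ⟨a, b, c⟩
  · exact hP _ _ _ h1 (by push_cast; linarith) (by push_cast; linarith) (by push_cast; linarith)
  · exact hP _ _ _ h2 (by push_cast; linarith) (by push_cast; linarith) (by push_cast; linarith)
  · exact hP _ _ _ h3 (by push_cast; linarith) (by push_cast; linarith) (by push_cast; linarith)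
  · exact hP _ _ _ h4 (by push_cast; linarith) (by push_cast; linarith) (by push_cast; linarith)

/-- the two conditions for the sector: a point with `0 < re t` -/
private theorem ETree_re {t : ℂ} {u v R : ℕ} (hp : InSq t u v R) (h0 : 0 < t.re) :
    ¬ (Nat.succ u < 100000) ∧ (t.re * R) ^ 2 ≤ (((Nat.succ u - 100000) ^ 2 : ℕ) : ℝ) := by
  have hR : (0 : ℝ) ≤ R := Nat.cast_nonneg _
  have b1 := abs_le.1 hp.1
  have h1 : 0 ≤ t.re * R := mul_nonneg h0.le hR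
  have h2 : t.re * R ≤ (u : ℝ) + 1 - 100000 := by linarith [b1.2]
  have h3 : (100000 : ℝ) ≤ (u : ℝ) + 1 := by linarith
  have h4 : 100000 ≤ u + 1 := by exact_mod_cast h3
  refine ⟨not_lt.2 h4, ?_⟩
  have h5 : (((Nat.succ u - 100000 : ℕ)) : ℝ) = (u : ℝ) + 1 - 100000 := by
    rw [Nat.succ_eq_add_one, Nat.cast_sub h4]
    push_cast
    ring
  rw [Nat.cast_pow, h5]
  exact pow_le_pow_left₀ h1 h2 2

theorem outE3_sound (md x y Q u v R : ℕ) (h : outE3 x y Q u v R = true) : CellE3 md x y Q u v R := by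
  intro q t w H h1 h2 hU ht0 hts hq hp
  obtain ⟨x1, x2⟩ := ETree_coord _ _ _ hq.1
  obtain ⟨y1, y2⟩ := ETree_coord _ _ _ hq.2
  obtain ⟨u1, u2⟩ := ETree_coord _ _ _ hp.1
  obtain ⟨v1, v2⟩ := ETree_coord _ _ _ hp.2
  have nq := ETree_norm q Q
  have np := ETree_norm t R
  have hQ0 : (0 : ℝ) ≤ (Q : ℝ) ^ 2 := by positivity
  have hR0 : (0 : ℝ) ≤ (R : ℝ) ^ 2 := by positivity
  have q0 := norm_nonneg q
  have p0 := norm_nonneg t
  unfold outE3 at h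
  simp only [Bool.or_eq_true, Bool.and_eq_true, Nat.blt_eq] at h
  rcases h with ((((h | h) | h) | h) | h) | h
  · have h3 : 10000 * ((Nat.succ (absD x)) ^ 2 + (Nat.succ (absD y)) ^ 2) < 1156 * Q ^ 2 := h
    have h4 : (10000 : ℝ) * ((((Nat.succ (absD x)) ^ 2 : ℕ) : ℝ) + (((Nat.succ (absD y)) ^ 2 : ℕ) : ℝ)) <
        1156 * (Q : ℝ) ^ 2 := by exact_mod_cast h3
    have h5 : (17 / 50 : ℝ) ^ 2 ≤ ‖q‖ ^ 2 := pow_le_pow_left₀ (by norm_num) h1 2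
    have h6 : (17 / 50 : ℝ) ^ 2 * (Q : ℝ) ^ 2 ≤ ‖q‖ ^ 2 * (Q : ℝ) ^ 2 :=
      mul_le_mul_of_nonneg_right h5 hQ0
    linarith
  · have h3 : 19881 * Q ^ 2 < 40000 * ((absD x - 1) ^ 2 + (absD y - 1) ^ 2) := h
    have h4 : (19881 : ℝ) * (Q : ℝ) ^ 2 <
        40000 * ((((absD x - 1) ^ 2 : ℕ) : ℝ) + (((absD y - 1) ^ 2 : ℕ) : ℝ)) := by exact_mod_cast h3
    have h5 : ‖q‖ ^ 2 ≤ (141 / 200 : ℝ) ^ 2 := pow_le_pow_left₀ q0 h2 2
    have h6 : ‖q‖ ^ 2 * (Q : ℝ) ^ 2 ≤ (141 / 200 : ℝ) ^ 2 * (Q : ℝ) ^ 2 :=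
      mul_le_mul_of_nonneg_right h5 hQ0
    linarith
  · obtain ⟨⟨⟨d1, d2⟩, d3⟩, d4⟩ := h
    exact ETree_U (P := fun a b c => disR x y Q a b c = true) hU
      (fun a b c hd ha hb hc => ETree_disR hd hq ha hb hc) d1 d2 d3 d4
  · have h3 : 81000 * (((Nat.succ (absD x)) ^ 2 + (Nat.succ (absD y)) ^ 2) * R ^ 2) +
        2 * (Q ^ 2 * R ^ 2) < 100000 * (((absD u - 1) ^ 2 + (absD v - 1) ^ 2) * Q ^ 2) := h
    have h4 : (81000 : ℝ) * (((((Nat.succ (absD x)) ^ 2 : ℕ) : ℝ) +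
        (((Nat.succ (absD y)) ^ 2 : ℕ) : ℝ)) * (R : ℝ) ^ 2) + 2 * ((Q : ℝ) ^ 2 * (R : ℝ) ^ 2) <
        100000 * (((((absD u - 1) ^ 2 : ℕ) : ℝ) + (((absD v - 1) ^ 2 : ℕ) : ℝ)) * (Q : ℝ) ^ 2) := by
      exact_mod_cast h3
    have h5 : ‖t‖ ^ 2 ≤ 81 / 100 * ‖q‖ ^ 2 + 2 / 100000 := by
      have := pow_le_pow_left₀ p0 H.t_le 2
      nlinarith
    have a1 : ‖q‖ ^ 2 * (Q : ℝ) ^ 2 ≤ (((Nat.succ (absD x)) ^ 2 : ℕ) : ℝ) +
        (((Nat.succ (absD y)) ^ 2 : ℕ) : ℝ) := by rw [← nq]; linarith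
    have a2 : (((absD u - 1) ^ 2 : ℕ) : ℝ) + (((absD v - 1) ^ 2 : ℕ) : ℝ) ≤
        ‖t‖ ^ 2 * (R : ℝ) ^ 2 := by rw [← np]; linarith
    have b1 := mul_le_mul_of_nonneg_right a1 hR0
    have b2 := mul_le_mul_of_nonneg_right a2 hQ0
    have b3 := mul_le_mul_of_nonneg_right h5 (mul_nonneg hQ0 hR0)
    nlinarith
  · exact (ETree_re hp ht0).1 h
  · have r2 := (ETree_re hp ht0).2
    have h3 : 3 * (Nat.succ u - 100000) ^ 2 < (absD v - 1) ^ 2 := h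
    have h4 : (3 : ℝ) * (((Nat.succ u - 100000) ^ 2 : ℕ) : ℝ) < (((absD v - 1) ^ 2 : ℕ) : ℝ) := by
      exact_mod_cast h3
    have h5 := mul_le_mul_of_nonneg_right hts hR0
    have h6 : t.im ^ 2 * (R : ℝ) ^ 2 = (t.im * R) ^ 2 := by ring
    have h7 : 3 * t.re ^ 2 * (R : ℝ) ^ 2 = 3 * (t.re * R) ^ 2 := by ring
    rw [h6, h7] at h5
    linarith

theorem outE32_sound (md x y Q u v R : ℕ) (h : outE32 x y Q u v R = true) : CellE32 md x y Q u v R := by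
  intro s t w H h1 h2 hU ht0 hts hq hp
  obtain ⟨x1, x2⟩ := ETree_coord _ _ _ hq.1
  obtain ⟨y1, y2⟩ := ETree_coord _ _ _ hq.2
  obtain ⟨u1, u2⟩ := ETree_coord _ _ _ hp.1
  obtain ⟨v1, v2⟩ := ETree_coord _ _ _ hp.2
  have nq := ETree_norm s Q
  have np := ETree_norm t R
  have hQ0 : (0 : ℝ) ≤ (Q : ℝ) ^ 2 := by positivity
  have hR0 : (0 : ℝ) ≤ (R : ℝ) ^ 2 := by positivity
  unfold outE32 at h
  simp only [Bool.or_eq_true, Bool.and_eq_true, Nat.blt_eq] at h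
  rcases h with ((((h | h) | h) | h) | h) | h
  · have h3 : 100 * ((Nat.succ (absD x)) ^ 2 + (Nat.succ (absD y)) ^ 2) < 34 * Q ^ 2 := h
    have h4 : (100 : ℝ) * ((((Nat.succ (absD x)) ^ 2 : ℕ) : ℝ) + (((Nat.succ (absD y)) ^ 2 : ℕ) : ℝ)) <
        34 * (Q : ℝ) ^ 2 := by exact_mod_cast h3
    have h6 : (17 / 50 : ℝ) * (Q : ℝ) ^ 2 ≤ ‖s‖ ^ 2 * (Q : ℝ) ^ 2 :=
      mul_le_mul_of_nonneg_right h1 hQ0
    linarith
  · have h3 : 141 * Q ^ 2 < 200 * ((absD x - 1) ^ 2 + (absD y - 1) ^ 2) := h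
    have h4 : (141 : ℝ) * (Q : ℝ) ^ 2 <
        200 * ((((absD x - 1) ^ 2 : ℕ) : ℝ) + (((absD y - 1) ^ 2 : ℕ) : ℝ)) := by exact_mod_cast h3
    have h6 : ‖s‖ ^ 2 * (Q : ℝ) ^ 2 ≤ (141 / 200 : ℝ) * (Q : ℝ) ^ 2 :=
      mul_le_mul_of_nonneg_right h2 hQ0
    linarith
  · obtain ⟨⟨⟨d1, d2⟩, d3⟩, d4⟩ := h
    exact ETree_U (P := fun a b c => disS x y Q a b c = true) hU
      (fun a b c hd ha hb hc => ETree_disS hd hq ha hb hc) d1 d2 d3 d4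
  · have h3 : 90000 * (((Nat.succ (absD x)) ^ 2 + (Nat.succ (absD y)) ^ 2) * R ^ 2) +
        Q ^ 2 * R ^ 2 < 100000 * (((absD u - 1) ^ 2 + (absD v - 1) ^ 2) * Q ^ 2) := h
    have h4 : (90000 : ℝ) * (((((Nat.succ (absD x)) ^ 2 : ℕ) : ℝ) +
        (((Nat.succ (absD y)) ^ 2 : ℕ) : ℝ)) * (R : ℝ) ^ 2) + (Q : ℝ) ^ 2 * (R : ℝ) ^ 2 <
        100000 * (((((absD u - 1) ^ 2 : ℕ) : ℝ) + (((absD v - 1) ^ 2 : ℕ) : ℝ)) * (Q : ℝ) ^ 2) := by
      exact_mod_cast h3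
    have h5 := H.t_le
    have a1 : ‖s‖ ^ 2 * (Q : ℝ) ^ 2 ≤ (((Nat.succ (absD x)) ^ 2 : ℕ) : ℝ) +
        (((Nat.succ (absD y)) ^ 2 : ℕ) : ℝ) := by rw [← nq]; linarith
    have a2 : (((absD u - 1) ^ 2 : ℕ) : ℝ) + (((absD v - 1) ^ 2 : ℕ) : ℝ) ≤
        ‖t‖ ^ 2 * (R : ℝ) ^ 2 := by rw [← np]; linarith
    have b1 := mul_le_mul_of_nonneg_right a1 hR0
    have b2 := mul_le_mul_of_nonneg_right a2 hQ0
    have b3 := mul_le_mul_of_nonneg_right h5 (mul_nonneg hQ0 hR0)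
    have b4 := mul_nonneg hQ0 hR0
    nlinarith
  · exact (ETree_re hp ht0).1 h
  · have r2 := (ETree_re hp ht0).2
    have h3 : (Nat.succ u - 100000) ^ 2 < 3 * (absD v - 1) ^ 2 := h
    have h4 : ((((Nat.succ u - 100000) ^ 2 : ℕ) : ℝ)) < 3 * (((absD v - 1) ^ 2 : ℕ) : ℝ) := by
      exact_mod_cast h3
    have h5 := mul_le_mul_of_nonneg_right hts hR0
    have h6 : 3 * t.im ^ 2 * (R : ℝ) ^ 2 = 3 * (t.im * R) ^ 2 := by ring
    have h7 : t.re ^ 2 * (R : ℝ) ^ 2 = (t.re * R) ^ 2 := by ring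
    rw [h6, h7] at h5
    linarith

/-- subdivision of the square of `q` -/
private theorem ETree_sq {F : ℂ → ℂ → Prop} {x y Q u v R : ℕ} (hQ : Q ≤ 4096)
    (hF : ∀ q t, F q t → ‖q‖ ≤ 1)
    (h1 : ∀ q t, F q t → InSq q (Nat.sub (Nat.mul 2 x) 100001) (Nat.sub (Nat.mul 2 y) 100001)
      (Nat.mul 2 Q) → InSq t u v R → False)
    (h2 : ∀ q t, F q t → InSq q (Nat.sub (Nat.mul 2 x) 99999) (Nat.sub (Nat.mul 2 y) 100001)
      (Nat.mul 2 Q) → InSq t u v R → False)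
    (h3 : ∀ q t, F q t → InSq q (Nat.sub (Nat.mul 2 x) 100001) (Nat.sub (Nat.mul 2 y) 99999)
      (Nat.mul 2 Q) → InSq t u v R → False)
    (h4 : ∀ q t, F q t → InSq q (Nat.sub (Nat.mul 2 x) 99999) (Nat.sub (Nat.mul 2 y) 99999)
      (Nat.mul 2 Q) → InSq t u v R → False) :
    ∀ q t, F q t → InSq q x y Q → InSq t u v R → False := by
  intro q p H hq hp
  have n1 : |q.re| ≤ 1 := (Complex.abs_re_le_norm q).trans (hF q p H)
  have n2 : |q.im| ≤ 1 := (Complex.abs_im_le_norm q).trans (hF q p H)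
  rcases ETree_split _ _ _ n1 hQ hq.1 with b | b <;>
    rcases ETree_split _ _ _ n2 hQ hq.2 with c | c
  · exact h1 q p H ⟨b, c⟩ hp
  · exact h3 q p H ⟨b, c⟩ hp
  · exact h2 q p H ⟨b, c⟩ hp
  · exact h4 q p H ⟨b, c⟩ hp

/-- subdivision of the square of `t` -/
private theorem ETree_sp {F : ℂ → ℂ → Prop} {x y Q u v R : ℕ} (hR : R ≤ 4096)
    (hF : ∀ q t, F q t → ‖t‖ ≤ 1)
    (h1 : ∀ q t, F q t → InSq q x y Q → InSq t (Nat.sub (Nat.mul 2 u) 100001)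
      (Nat.sub (Nat.mul 2 v) 100001) (Nat.mul 2 R) → False)
    (h2 : ∀ q t, F q t → InSq q x y Q → InSq t (Nat.sub (Nat.mul 2 u) 99999)
      (Nat.sub (Nat.mul 2 v) 100001) (Nat.mul 2 R) → False)
    (h3 : ∀ q t, F q t → InSq q x y Q → InSq t (Nat.sub (Nat.mul 2 u) 100001)
      (Nat.sub (Nat.mul 2 v) 99999) (Nat.mul 2 R) → False)
    (h4 : ∀ q t, F q t → InSq q x y Q → InSq t (Nat.sub (Nat.mul 2 u) 99999)
      (Nat.sub (Nat.mul 2 v) 99999) (Nat.mul 2 R) → False) :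
    ∀ q t, F q t → InSq q x y Q → InSq t u v R → False := by
  intro q p H hq hp
  have n1 : |p.re| ≤ 1 := (Complex.abs_re_le_norm p).trans (hF q p H)
  have n2 : |p.im| ≤ 1 := (Complex.abs_im_le_norm p).trans (hF q p H)
  rcases ETree_split _ _ _ n1 hR hp.1 with b | b <;>
    rcases ETree_split _ _ _ n2 hR hp.2 with c | c
  · exact h1 q p H hq ⟨b, c⟩
  · exact h3 q p H hq ⟨b, c⟩
  · exact h2 q p H hq ⟨b, c⟩
  · exact h4 q p H hq ⟨b, c⟩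


private def ETree_F3 (md : ℕ) (q t : ℂ) : Prop :=
  ∃ w : ℤ → ℂ, HypE3 md q t w ∧ 17 / 50 ≤ ‖q‖ ∧ ‖q‖ ≤ 141 / 200 ∧ InU2 q.re |q.im| ∧
    0 < t.re ∧ t.im ^ 2 ≤ 3 * t.re ^ 2

private def ETree_F32 (md : ℕ) (s t : ℂ) : Prop :=
  ∃ w : ℤ → ℂ, HypE32 md s t w ∧ 17 / 50 ≤ ‖s‖ ^ 2 ∧ ‖s‖ ^ 2 ≤ 141 / 200 ∧
    InU2 (s ^ 2).re |(s ^ 2).im| ∧ 0 < t.re ∧ 3 * t.im ^ 2 ≤ t.re ^ 2

private theorem ETree_cell3 (md x y Q u v R : ℕ) : CellE3 md x y Q u v R ↔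
    ∀ q t, ETree_F3 md q t → InSq q x y Q → InSq t u v R → False := by
  constructor
  · rintro h q t ⟨w, H, h1, h2, h3, h4, h5⟩ hq ht
    exact h q t w H h1 h2 h3 h4 h5 hq ht
  · intro h q t w H h1 h2 h3 h4 h5 hq ht
    exact h q t ⟨w, H, h1, h2, h3, h4, h5⟩ hq ht

private theorem ETree_cell32 (md x y Q u v R : ℕ) : CellE32 md x y Q u v R ↔
    ∀ q t, ETree_F32 md q t → InSq q x y Q → InSq t u v R → False := by
  constructor
  · rintro h q t ⟨w, H, h1, h2, h3, h4, h5⟩ hq ht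
    exact h q t w H h1 h2 h3 h4 h5 hq ht
  · intro h q t w H h1 h2 h3 h4 h5 hq ht
    exact h q t ⟨w, H, h1, h2, h3, h4, h5⟩ hq ht

private theorem ETree_q3 (md : ℕ) (q t : ℂ) (h : ETree_F3 md q t) : ‖q‖ ≤ 1 := by
  obtain ⟨w, H, h1, h2, _⟩ := h
  linarith

private theorem ETree_t3' {md : ℕ} {q t : ℂ} {w : ℤ → ℂ} (H : HypE3 md q t w)
    (h2 : ‖q‖ ≤ 141 / 200) : ‖t‖ ≤ 1 := by
  have h3 := H.t_le
  linarith

private theorem ETree_t3 (md : ℕ) (q t : ℂ) (h : ETree_F3 md q t) : ‖t‖ ≤ 1 := by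
  obtain ⟨w, H, h1, h2, _⟩ := h
  exact ETree_t3' H h2

private theorem ETree_q32 (md : ℕ) (q t : ℂ) (h : ETree_F32 md q t) : ‖q‖ ≤ 1 := by
  obtain ⟨w, H, h1, h2, _⟩ := h
  have h3 : ‖q‖ ^ 2 ≤ 1 ^ 2 := by linarith
  exact le_of_sq_le_sq h3 (by norm_num)

private theorem ETree_t32' {md : ℕ} {q t : ℂ} {w : ℤ → ℂ} (H : HypE32 md q t w)
    (h2 : ‖q‖ ^ 2 ≤ 141 / 200) : ‖t‖ ≤ 1 := by
  have h3 := H.t_le
  have h4 : ‖t‖ ^ 2 ≤ 1 ^ 2 := by linarith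
  exact le_of_sq_le_sq h4 (by norm_num)

private theorem ETree_t32 (md : ℕ) (q t : ℂ) (h : ETree_F32 md q t) : ‖t‖ ≤ 1 := by
  obtain ⟨w, H, h1, h2, _⟩ := h
  exact ETree_t32' H h2

theorem TE_sound3 (md : ℕ) (T : TE) : ∀ x y Q u v R : ℕ, TE.chk 0 md T x y Q u v R = true →
    CellE3 md x y Q u v R := by
  induction T with
  | lf cr P nL nR PL PR a b c =>
    intro x y Q u v R h
    rw [TE.chk] at h
    exact checkE_sound3 md x y Q u v R cr P nL nR PL PR a b c h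
  | out =>
    intro x y Q u v R h
    rw [TE.chk, show Nat.beq 0 0 = true from rfl, cond_true] at h
    exact outE3_sound md x y Q u v R h
  | sq t1 t2 t3 t4 i1 i2 i3 i4 =>
    intro x y Q u v R h
    rw [TE.chk] at h
    simp only [Bool.and_eq_true, Nat.ble_eq] at h
    obtain ⟨⟨⟨⟨h0, h1⟩, h2⟩, h3⟩, h4⟩ := h
    exact (ETree_cell3 _ _ _ _ _ _ _).2 (ETree_sq h0 (ETree_q3 md)
      ((ETree_cell3 _ _ _ _ _ _ _).1 (i1 _ _ _ _ _ _ h1))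
      ((ETree_cell3 _ _ _ _ _ _ _).1 (i2 _ _ _ _ _ _ h2))
      ((ETree_cell3 _ _ _ _ _ _ _).1 (i3 _ _ _ _ _ _ h3))
      ((ETree_cell3 _ _ _ _ _ _ _).1 (i4 _ _ _ _ _ _ h4)))
  | sp t1 t2 t3 t4 i1 i2 i3 i4 =>
    intro x y Q u v R h
    rw [TE.chk] at h
    simp only [Bool.and_eq_true, Nat.ble_eq] at h
    obtain ⟨⟨⟨⟨h0, h1⟩, h2⟩, h3⟩, h4⟩ := h
    exact (ETree_cell3 _ _ _ _ _ _ _).2 (ETree_sp h0 (ETree_t3 md)
      ((ETree_cell3 _ _ _ _ _ _ _).1 (i1 _ _ _ _ _ _ h1))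
      ((ETree_cell3 _ _ _ _ _ _ _).1 (i2 _ _ _ _ _ _ h2))
      ((ETree_cell3 _ _ _ _ _ _ _).1 (i3 _ _ _ _ _ _ h3))
      ((ETree_cell3 _ _ _ _ _ _ _).1 (i4 _ _ _ _ _ _ h4)))

theorem TE_sound32 (md : ℕ) (T : TE) : ∀ x y Q u v R : ℕ, TE.chk 1 md T x y Q u v R = true →
    CellE32 md x y Q u v R := by
  induction T with
  | lf cr P nL nR PL PR a b c =>
    intro x y Q u v R h
    rw [TE.chk] at h
    exact checkE_sound32 md x y Q u v R cr P nL nR PL PR a b c h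
  | out =>
    intro x y Q u v R h
    rw [TE.chk, show Nat.beq 1 0 = false from rfl, cond_false] at h
    exact outE32_sound md x y Q u v R h
  | sq t1 t2 t3 t4 i1 i2 i3 i4 =>
    intro x y Q u v R h
    rw [TE.chk] at h
    simp only [Bool.and_eq_true, Nat.ble_eq] at h
    obtain ⟨⟨⟨⟨h0, h1⟩, h2⟩, h3⟩, h4⟩ := h
    exact (ETree_cell32 _ _ _ _ _ _ _).2 (ETree_sq h0 (ETree_q32 md)
      ((ETree_cell32 _ _ _ _ _ _ _).1 (i1 _ _ _ _ _ _ h1))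
      ((ETree_cell32 _ _ _ _ _ _ _).1 (i2 _ _ _ _ _ _ h2))
      ((ETree_cell32 _ _ _ _ _ _ _).1 (i3 _ _ _ _ _ _ h3))
      ((ETree_cell32 _ _ _ _ _ _ _).1 (i4 _ _ _ _ _ _ h4)))
  | sp t1 t2 t3 t4 i1 i2 i3 i4 =>
    intro x y Q u v R h
    rw [TE.chk] at h
    simp only [Bool.and_eq_true, Nat.ble_eq] at h
    obtain ⟨⟨⟨⟨h0, h1⟩, h2⟩, h3⟩, h4⟩ := h
    exact (ETree_cell32 _ _ _ _ _ _ _).2 (ETree_sp h0 (ETree_t32 md)
      ((ETree_cell32 _ _ _ _ _ _ _).1 (i1 _ _ _ _ _ _ h1))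
      ((ETree_cell32 _ _ _ _ _ _ _).1 (i2 _ _ _ _ _ _ h2))
      ((ETree_cell32 _ _ _ _ _ _ _).1 (i3 _ _ _ _ _ _ h3))
      ((ETree_cell32 _ _ _ _ _ _ _).1 (i4 _ _ _ _ _ _ h4)))

def SquareE3 (md x y Q : ℕ) : Prop :=
  ∀ (q t : ℂ) (w : ℤ → ℂ), HypE3 md q t w → 17 / 50 ≤ ‖q‖ → ‖q‖ ≤ 141 / 200 → InU2 q.re |q.im| →
    0 < t.re → t.im ^ 2 ≤ 3 * t.re ^ 2 → InSq q x y Q → False

def SquareE32 (md x y Q : ℕ) : Prop :=
  ∀ (s t : ℂ) (w : ℤ → ℂ), HypE32 md s t w → 17 / 50 ≤ ‖s‖ ^ 2 → ‖s‖ ^ 2 ≤ 141 / 200 →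
    InU2 (s ^ 2).re |(s ^ 2).im| → 0 < t.re → 3 * t.im ^ 2 ≤ t.re ^ 2 → InSq s x y Q → False

private theorem ETree_root {t : ℂ} (ht : ‖t‖ ≤ 1) (h0 : 0 ≤ t.re) :
    InSq t 100001 99999 2 ∨ InSq t 100001 100001 2 := by
  have n1 := abs_le.1 ((Complex.abs_re_le_norm t).trans ht)
  have n2 := abs_le.1 ((Complex.abs_im_le_norm t).trans ht)
  rcases le_total t.im 0 with h | h
  · left
    constructor
    · rw [abs_le]
      push_cast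
      constructor <;> linarith
    · rw [abs_le]
      push_cast
      constructor <;> linarith
  · right
    constructor
    · rw [abs_le]
      push_cast
      constructor <;> linarith
    · rw [abs_le]
      push_cast
      constructor <;> linarith

/-- the two root squares of `t` cover the right half of the unit disc -/
theorem squareE3_of_chk (md : ℕ) (T1 T2 : TE) (x y Q : ℕ) (h1 : TE.chk 0 md T1 x y Q 100001 99999 2 = true)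
    (h2 : TE.chk 0 md T2 x y Q 100001 100001 2 = true) : SquareE3 md x y Q := by
  intro q t w H a1 a2 a3 a4 a5 hq
  rcases ETree_root (ETree_t3' H a2) a4.le with h | h
  · exact TE_sound3 md T1 _ _ _ _ _ _ h1 q t w H a1 a2 a3 a4 a5 hq h
  · exact TE_sound3 md T2 _ _ _ _ _ _ h2 q t w H a1 a2 a3 a4 a5 hq h

theorem squareE32_of_chk (md : ℕ) (T1 T2 : TE) (x y Q : ℕ) (h1 : TE.chk 1 md T1 x y Q 100001 99999 2 = true)
    (h2 : TE.chk 1 md T2 x y Q 100001 100001 2 = true) : SquareE32 md x y Q := by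
  intro s t w H a1 a2 a3 a4 a5 hq
  rcases ETree_root (ETree_t32' H a2) a4.le with h | h
  · exact TE_sound32 md T1 _ _ _ _ _ _ h1 s t w H a1 a2 a3 a4 a5 hq h
  · exact TE_sound32 md T2 _ _ _ _ _ _ h2 s t w H a1 a2 a3 a4 a5 hq h

end Pool.Agent.MaxTerm58
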