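import Pool.Agent.MaxTerm58.EDef

/-! Weights and tails of the family E. Models: `WtS.lean` (`radS_spec`, `sideS_spec`, `c3U_spec`), `sigI_spec`
(`LoopTI.lean`), `geoU_spec`, `monUp_spec`, `sqU_spec`. `x` is `‖q‖ + eps` (`kp = 1`) or `sqrt (‖s‖ ^ 2 + eps)` (`kp = 2`).

Hint for `wtE_spec`: with `j = exE md i = 3 * j1 + j2`, `kp * j = 3 * m1 + m2` (`m1 ≤ 47`) the cube of
`c^j1 * 0.9655^j2 * x^m1 * (cr/10^4)^m2` is at least `(c * x^kp)^j` (`0.9655^3 > 0.9`), and `x^m1 ≤ 1.001 * y^m1` since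
`x / y ≤ 1 + 10^(-5) / y` and (`kp = 1`: `y ≥ 0.34`, `m1 ≤ 23`; `kp = 2`: `y ≥ 0.583`, `m1 ≤ 47`). -/

namespace Pool.Agent.MaxTerm58

private theorem EWt_absD (x : ℕ) : ((absD x : ℕ) : ℝ) = |(x : ℝ) - 100000| := by
  have h0 : absD x = (x - 100000) + (100000 - x) := rfl
  rw [h0]
  rcases le_total x 100000 with h | h
  · rw [Nat.sub_eq_zero_of_le h, zero_add, Nat.cast_sub h]
    have h' : (x : ℝ) ≤ 100000 := by exact_mod_cast h
    rw [abs_of_nonpos (by linarith)]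
    push_cast
    ring
  · rw [Nat.sub_eq_zero_of_le h, add_zero, Nat.cast_sub h]
    have h' : (100000 : ℝ) ≤ x := by exact_mod_cast h
    rw [abs_of_nonneg (by linarith)]
    push_cast
    ring

private theorem EWt_sq (x : ℕ) (a : ℝ) (h : |a - ((x : ℝ) - 100000)| ≤ 1) :
    ((absD x - 1 : ℕ) : ℝ) ^ 2 ≤ a ^ 2 := by
  have h1 : ((absD x - 1 : ℕ) : ℝ) ≤ |a| := by
    rcases Nat.eq_zero_or_pos (absD x) with h0 | h0
    · rw [h0]
      simp
    · rw [Nat.cast_sub h0, EWt_absD, Nat.cast_one]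
      have h2 : |(x : ℝ) - 100000| ≤ |a| + |a - ((x : ℝ) - 100000)| := by
        have h3 := abs_sub a (a - ((x : ℝ) - 100000))
        have h4 : a - (a - ((x : ℝ) - 100000)) = (x : ℝ) - 100000 := by ring
        rw [h4] at h3
        exact h3
      linarith
  rw [← sq_abs a]
  exact pow_le_pow_left₀ (Nat.cast_nonneg _) h1 2

private theorem EWt_div (a b : ℕ) (hb : 0 < b) : (a : ℝ) / (b : ℝ) ≤ ((Nat.succ (a / b) : ℕ) : ℝ) := by
  have hb' : (0 : ℝ) < b := by exact_mod_cast hb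
  rw [div_le_iff₀ hb']
  have h1 : a < b * (a / b + 1) := Nat.lt_mul_div_succ a hb
  have h2 : a ≤ (a / b + 1) * b := by
    rw [mul_comm]
    exact h1.le
  exact_mod_cast h2

private theorem EWt_cube {a b : ℝ} (hb : 0 ≤ b) (h : a ^ 3 ≤ b ^ 3) : a ≤ b := by
  by_contra hc
  have hc' : b < a := not_le.1 hc
  have := pow_lt_pow_left₀ hc' hb (by norm_num : (3 : ℕ) ≠ 0)
  linarith

private theorem EWt_beq (md : ℕ) : Nat.beq md 0 = decide (md = 0) := by
  cases md with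
  | zero => rfl
  | succ n => rfl

private theorem EWt_exE (md i : ℕ) : exE md i = (i + 1) + (if md = 0 then 0 else i - 2) := by
  unfold exE
  rw [EWt_beq]
  by_cases h : md = 0
  · simp [h]
  · simp [h]

/-- `x ^ m <= 1.001 y ^ m` -/
private theorem EWt_pow (kp : ℕ) (hkp : kp = 1 ∨ kp = 2) (x y : ℝ) (hy0 : 0 ≤ y)
    (hy : 17 / 50 ≤ y ^ kp) (hx0 : 0 ≤ x) (hx : x ≤ y + 1 / 100000) (j : ℕ) (hj : j ≤ 71) :
    x ^ (kp * j / 3) ≤ 1001 / 1000 * y ^ (kp * j / 3) := by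
  have hx1 : x ^ (kp * j / 3) ≤ (y + 1 / 100000) ^ (kp * j / 3) := pow_le_pow_left₀ hx0 hx _
  refine hx1.trans ?_
  rcases hkp with rfl | rfl
  · have hy' : 17 / 50 ≤ y := by simpa using hy
    have h1 : y + 1 / 100000 ≤ (1 + 1 / 34000) * y := by linarith
    have h2 : (y + 1 / 100000) ^ (1 * j / 3) ≤ ((1 + 1 / 34000) * y) ^ (1 * j / 3) :=
      pow_le_pow_left₀ (by linarith) h1 _
    have h3 : (1 + 1 / 34000 : ℝ) ^ (1 * j / 3) ≤ (1 + 1 / 34000) ^ 23 :=
      pow_le_pow_right₀ (by norm_num) (by omega)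
    have h4 : (1 + 1 / 34000 : ℝ) ^ 23 ≤ 1001 / 1000 := by norm_num
    rw [mul_pow] at h2
    exact h2.trans (mul_le_mul_of_nonneg_right (h3.trans h4) (by positivity))
  · have hy' : 583 / 1000 ≤ y := by
      by_contra hc
      have hc' : y < 583 / 1000 := not_le.1 hc
      have := pow_lt_pow_left₀ hc' hy0 (by norm_num : (2 : ℕ) ≠ 0)
      norm_num at this
      linarith
    have h1 : y + 1 / 100000 ≤ (1 + 1 / 58300) * y := by linarith
    have h2 : (y + 1 / 100000) ^ (2 * j / 3) ≤ ((1 + 1 / 58300) * y) ^ (2 * j / 3) :=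
      pow_le_pow_left₀ (by linarith) h1 _
    have h3 : (1 + 1 / 58300 : ℝ) ^ (2 * j / 3) ≤ (1 + 1 / 58300) ^ 47 :=
      pow_le_pow_right₀ (by norm_num) (by omega)
    have h4 : (1 + 1 / 58300 : ℝ) ^ 47 ≤ 1001 / 1000 := by norm_num
    rw [mul_pow] at h2
    exact h2.trans (mul_le_mul_of_nonneg_right (h3.trans h4) (by positivity))

/-- the numerical factor -/
private noncomputable def EWt_c (md j : ℕ) : ℝ :=
  if md = 0 then (9 / 10) ^ (j / 3) * (9655 / 10000) ^ (j % 3) else 1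

private theorem EWt_c_nonneg (md j : ℕ) : 0 ≤ EWt_c md j := by
  unfold EWt_c
  split_ifs <;> positivity

private theorem EWt_c_spec (md j : ℕ) :
    (if md = 0 then (9 / 10 : ℝ) else 1) ^ j ≤ EWt_c md j ^ 3 := by
  unfold EWt_c
  by_cases h : md = 0
  · rw [if_pos h, if_pos h, mul_pow, ← pow_mul, ← pow_mul]
    have hj : j = j / 3 * 3 + j % 3 := by omega
    calc (9 / 10 : ℝ) ^ j = (9 / 10) ^ (j / 3 * 3) * (9 / 10) ^ (j % 3) := by
          rw [← pow_add, ← hj]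
      _ ≤ (9 / 10) ^ (j / 3 * 3) * (9655 / 10000) ^ (j % 3 * 3) := by
          apply mul_le_mul_of_nonneg_left _ (by positivity)
          rw [mul_comm (j % 3) 3, pow_mul]
          exact pow_le_pow_left₀ (by norm_num) (by norm_num) _
  · rw [if_neg h, if_neg h, one_pow, one_pow]

private theorem EWt_wt (kp md cr i : ℕ) :
    1001 / 1000 * EWt_c md (exE md i) * ((cr : ℝ) / 10000) ^ (kp * exE md i % 3) ≤
      ((wtE kp md cr i).1 : ℝ) / 100000000 := by
  set j := exE md i with hj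
  rw [le_div_iff₀ (by norm_num)]
  by_cases h : md = 0
  · have e : (wtE kp md cr i).1 = Nat.succ ((100100000000 * (9 ^ (j / 3) * 9655 ^ (j % 3)) *
        cr ^ (kp * j % 3)) / (1000 * (10 ^ (j / 3) * 10000 ^ (j % 3)) * 10000 ^ (kp * j % 3))) := by
      unfold wtE
      rw [EWt_beq, decide_eq_true h, cond_true, cond_true]
      rfl
    rw [e]
    have h2 := EWt_div (100100000000 * (9 ^ (j / 3) * 9655 ^ (j % 3)) *
        cr ^ (kp * j % 3)) (1000 * (10 ^ (j / 3) * 10000 ^ (j % 3)) * 10000 ^ (kp * j % 3))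
        (by positivity)
    refine le_trans (le_of_eq ?_) h2
    unfold EWt_c
    rw [if_pos h]
    push_cast
    rw [div_pow, div_pow, div_pow]
    field_simp
    ring
  · have e : (wtE kp md cr i).1 = Nat.succ ((100100000000 * 1 *
        cr ^ (kp * j % 3)) / (1000 * 1 * 10000 ^ (kp * j % 3))) := by
      unfold wtE
      rw [EWt_beq, decide_eq_false h, cond_false, cond_false]
      rfl
    rw [e]
    have h2 := EWt_div (100100000000 * 1 *
        cr ^ (kp * j % 3)) (1000 * 1 * 10000 ^ (kp * j % 3))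
        (by positivity)
    refine le_trans (le_of_eq ?_) h2
    unfold EWt_c
    rw [if_neg h]
    push_cast
    rw [div_pow]
    field_simp
    ring

private theorem EWt_bound (kp md cr j : ℕ) (x a : ℝ) (hx0 : 0 ≤ x)
    (hcr : x * 1000000000000 ≤ (cr : ℝ) ^ 3)
    (h : a ^ 3 ≤ ((if md = 0 then 9 / 10 else 1) * x ^ kp) ^ j) :
    a ≤ EWt_c md j * x ^ (kp * j / 3) * ((cr : ℝ) / 10000) ^ (kp * j % 3) := by
  have hc0 := EWt_c_nonneg md j
  have hcr' : x ≤ ((cr : ℝ) / 10000) ^ 3 := by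
    rw [div_pow, le_div_iff₀ (by norm_num)]
    norm_num
    exact hcr
  refine EWt_cube (by positivity) (h.trans ?_)
  rw [mul_pow, mul_pow, mul_pow, ← pow_mul x kp j]
  have hj : kp * j = kp * j / 3 * 3 + kp * j % 3 := by omega
  have e1 : x ^ (kp * j) = (x ^ (kp * j / 3)) ^ 3 * x ^ (kp * j % 3) := by
    rw [← pow_mul, ← pow_add, ← hj]
  have e2 : x ^ (kp * j % 3) ≤ (((cr : ℝ) / 10000) ^ (kp * j % 3)) ^ 3 := by
    rw [← pow_mul, mul_comm (kp * j % 3) 3, pow_mul]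
    exact pow_le_pow_left₀ hx0 hcr' _
  rw [e1]
  calc (if md = 0 then (9 / 10 : ℝ) else 1) ^ j * ((x ^ (kp * j / 3)) ^ 3 * x ^ (kp * j % 3))
      ≤ EWt_c md j ^ 3 * ((x ^ (kp * j / 3)) ^ 3 * (((cr : ℝ) / 10000) ^ (kp * j % 3)) ^ 3) := by
        apply mul_le_mul (EWt_c_spec md j) _ (by positivity) (by positivity)
        exact mul_le_mul_of_nonneg_left e2 (by positivity)
    _ = EWt_c md j ^ 3 * (x ^ (kp * j / 3)) ^ 3 * (((cr : ℝ) / 10000) ^ (kp * j % 3)) ^ 3 := by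
        ring

private theorem EWt_tsum {r : ℕ → ℝ} (hr0 : ∀ i, 0 ≤ r i) (A b B : ℝ) (hb0 : 0 ≤ b) (hb1 : b < 1)
    (h : ∀ i, r i ≤ A * b ^ i) (hB : A / (1 - b) ≤ B) : ∑' i, r i ≤ B := by
  have hs : Summable fun i : ℕ => A * b ^ i := (summable_geometric_of_lt_one hb0 hb1).mul_left A
  have hr : Summable r := Summable.of_nonneg_of_le hr0 h hs
  refine (hr.tsum_le_tsum h hs).trans ?_
  rw [tsum_mul_left, tsum_geometric_of_lt_one hb0 hb1, ← div_eq_mul_inv]
  exact hB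

theorem sig4_spec (x y Q : ℕ) (hQ : 0 < Q) (q : ℂ) (h : InSq q x y Q) :
    (170919 / 100000 : ℝ) ^ 2 - 2 - ‖q‖ ^ 4 ≤ (((sig4 Q x y : ℕ) : ℝ) / 100000000) ^ 2 := by
  obtain ⟨hx, hy⟩ := h
  have hQ' : (0 : ℝ) < Q := by exact_mod_cast hQ
  have hE : ((170919 / 100000 : ℝ) ^ 2 - 2) = 9213304561 / 10000000000 := by norm_num
  set B : ℕ := 10000000000000000 * ((absD x - 1) ^ 2 + (absD y - 1) ^ 2) ^ 2 with hB
  set M : ℕ := B / Q ^ 4 with hM
  have e : sig4 Q x y = sqU (Nat.succ (Nat.sub 9213304561000000 M)) := rfl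
  have h1 := sqU_spec (Nat.succ (Nat.sub 9213304561000000 M))
  rw [← e] at h1
  have h2 : 9213304561000000 - (M : ℝ) ≤ ((Nat.succ (Nat.sub 9213304561000000 M) : ℕ) : ℝ) := by
    have h3 : 9213304561000000 ≤ Nat.succ (Nat.sub 9213304561000000 M) + M := by
      have e2 : Nat.succ (Nat.sub 9213304561000000 M) = 9213304561000000 - M + 1 := rfl
      rw [e2]
      omega
    have h4 : (9213304561000000 : ℝ) ≤
        ((Nat.succ (Nat.sub 9213304561000000 M) : ℕ) : ℝ) + (M : ℝ) := by exact_mod_cast h3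
    linarith
  have h4 := EWt_sq x _ hx
  have h5 := EWt_sq y _ hy
  have h6 : ‖q‖ ^ 2 * (Q : ℝ) ^ 2 = (q.re * Q) ^ 2 + (q.im * Q) ^ 2 := by
    rw [Complex.sq_norm, Complex.normSq_apply]
    ring
  have hM2 : (M : ℝ) ≤ 10000000000000000 * ‖q‖ ^ 4 := by
    have h8 : (M : ℝ) ≤ (B : ℝ) / ((Q ^ 4 : ℕ) : ℝ) := Nat.cast_div_le
    refine h8.trans ?_
    rw [div_le_iff₀ (by positivity), hB]
    push_cast
    have h10 : 10000000000000000 * ‖q‖ ^ 4 * (Q : ℝ) ^ 4 =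
        10000000000000000 * (‖q‖ ^ 2 * (Q : ℝ) ^ 2) ^ 2 := by ring
    rw [h10, h6]
    apply mul_le_mul_of_nonneg_left _ (by norm_num)
    exact pow_le_pow_left₀ (by positivity) (by linarith) 2
  rw [hE, div_pow, le_div_iff₀ (by norm_num)]
  have h12 : (9213304561 / 10000000000 - ‖q‖ ^ 4) * (100000000 : ℝ) ^ 2 =
      9213304561000000 - 10000000000000000 * ‖q‖ ^ 4 := by ring
  rw [h12]
  linarith

theorem wtE_spec (kp md cr i : ℕ) (hkp : kp = 1 ∨ kp = 2) (hi : i < 37) (x y a : ℝ) (ha : 0 ≤ a) (hy0 : 0 ≤ y)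
    (hy : 17 / 50 ≤ y ^ kp) (hx0 : 0 ≤ x) (hx : x ≤ y + 1 / 100000)
    (hcr : x * 1000000000000 ≤ (cr : ℝ) ^ 3)
    (h : a ^ 3 ≤ ((if md = 0 then 9 / 10 else 1) * x ^ kp) ^ exE md i) :
    a ≤ ((wtE kp md cr i).1 : ℝ) / 100000000 * y ^ (wtE kp md cr i).2.1 := by
  have hj : exE md i ≤ 71 := by
    rw [EWt_exE]
    split_ifs <;> omega
  have h1 := EWt_bound kp md cr (exE md i) x a hx0 hcr h
  have h2 := EWt_pow kp hkp x y hy0 hy hx0 hx (exE md i) hj
  have h3 := EWt_wt kp md cr i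
  have hc0 := EWt_c_nonneg md (exE md i)
  have e : (wtE kp md cr i).2.1 = kp * exE md i / 3 := rfl
  rw [e]
  calc a ≤ EWt_c md (exE md i) * x ^ (kp * exE md i / 3) *
        ((cr : ℝ) / 10000) ^ (kp * exE md i % 3) := h1
    _ ≤ EWt_c md (exE md i) * (1001 / 1000 * y ^ (kp * exE md i / 3)) *
        ((cr : ℝ) / 10000) ^ (kp * exE md i % 3) :=
        mul_le_mul_of_nonneg_right (mul_le_mul_of_nonneg_left h2 hc0) (by positivity)
    _ = (1001 / 1000 * EWt_c md (exE md i) * ((cr : ℝ) / 10000) ^ (kp * exE md i % 3)) *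
        y ^ (kp * exE md i / 3) := by ring
    _ ≤ ((wtE kp md cr i).1 : ℝ) / 100000000 * y ^ (kp * exE md i / 3) :=
        mul_le_mul_of_nonneg_right h3 (by positivity)

theorem rrE_spec (kp md cr : ℕ) (hkp : kp = 1 ∨ kp = 2) (x : ℝ) (hx0 : 0 ≤ x) (hcr : x * 1000000000000 ≤ (cr : ℝ) ^ 3) :
    (if md = 0 then 9 / 10 else 1) * x ^ kp ≤ ((rrE kp md cr : ℝ) / 10000) ^ 3 := by
  have hcr' : x ≤ ((cr : ℝ) / 10000) ^ 3 := by
    rw [div_pow, le_div_iff₀ (by norm_num)]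
    norm_num
    exact hcr
  have h1 : x ^ kp ≤ (((cr : ℝ) / 10000) ^ kp) ^ 3 := by
    rw [← pow_mul, mul_comm kp 3, pow_mul]
    exact pow_le_pow_left₀ hx0 hcr' _
  by_cases h : md = 0
  · have e : rrE kp md cr = Nat.succ ((9655 * cr ^ kp) / 10000 ^ kp) := by
      unfold rrE
      rw [EWt_beq, decide_eq_true h, cond_true]
      rfl
    have h2 := EWt_div (9655 * cr ^ kp) (10000 ^ kp) (by positivity)
    rw [← e] at h2
    have h3 : 9655 / 10000 * ((cr : ℝ) / 10000) ^ kp ≤ (rrE kp md cr : ℝ) / 10000 := by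
      rw [le_div_iff₀ (by norm_num)]
      refine le_trans (le_of_eq ?_) h2
      push_cast
      rw [div_pow]
      field_simp
    rw [if_pos h]
    calc 9 / 10 * x ^ kp ≤ (9655 / 10000) ^ 3 * (((cr : ℝ) / 10000) ^ kp) ^ 3 := by
          apply mul_le_mul (by norm_num) h1 (by positivity) (by positivity)
      _ = (9655 / 10000 * ((cr : ℝ) / 10000) ^ kp) ^ 3 := by rw [mul_pow]
      _ ≤ ((rrE kp md cr : ℝ) / 10000) ^ 3 := pow_le_pow_left₀ (by positivity) h3 3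
  · have e : rrE kp md cr = Nat.succ ((cr ^ kp) / 10000 ^ (kp - 1)) := by
      unfold rrE
      rw [EWt_beq, decide_eq_false h, cond_false]
      rfl
    have h2 := EWt_div (cr ^ kp) (10000 ^ (kp - 1)) (by positivity)
    rw [← e] at h2
    have h3 : ((cr : ℝ) / 10000) ^ kp ≤ (rrE kp md cr : ℝ) / 10000 := by
      rw [le_div_iff₀ (by norm_num)]
      refine le_trans (le_of_eq ?_) h2
      rcases hkp with rfl | rfl
      · push_cast
        norm_num
      · push_cast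
        ring
    rw [if_neg h, one_mul]
    exact h1.trans (pow_le_pow_left₀ (by positivity) h3 3)

theorem tauE_spec (md rr PR : ℕ) (h3 : 3 ≤ PR) (hr : rr < 10000) (D : ℝ) (hD0 : 0 ≤ D)
    (hD : D ≤ ((rr : ℝ) / 10000) ^ 3) (r : ℕ → ℝ) (hr0 : ∀ i, 0 ≤ r i) (h : ∀ i, r i ^ 3 ≤ D ^ exE md i) :
    ∑' i, r (PR + i) ≤ (tauE md rr PR : ℝ) / 100000000 := by
  have hρ0 : 0 ≤ (rr : ℝ) / 10000 := by positivity
  have hrr : (rr : ℝ) < 10000 := by exact_mod_cast hr
  have hρ1 : (rr : ℝ) / 10000 < 1 := by rw [div_lt_one (by norm_num)]; exact hrr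
  have hri : ∀ i, r i ≤ ((rr : ℝ) / 10000) ^ exE md i := by
    intro i
    refine EWt_cube (by positivity) ((h i).trans ?_)
    rw [← pow_mul, mul_comm (exE md i) 3, pow_mul]
    exact pow_le_pow_left₀ hD0 hD _
  by_cases hmd : md = 0
  · have e : tauE md rr PR = geoU rr (PR + 1) := by
      unfold tauE
      rw [EWt_beq, decide_eq_true hmd, cond_true]
    have h1 := geoU_spec rr (PR + 1) hr
    rw [← e] at h1
    refine EWt_tsum (fun i => hr0 _) (((rr : ℝ) / 10000) ^ (PR + 1)) ((rr : ℝ) / 10000) _ hρ0 hρ1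
      (fun i => ?_) ?_
    · refine (hri (PR + i)).trans (le_of_eq ?_)
      rw [EWt_exE, if_pos hmd, ← pow_add]
      congr 1
      omega
    · rw [le_div_iff₀ (by norm_num)]
      exact h1
  · have e : tauE md rr PR = Nat.succ ((monUp rr 0 (2 * PR - 1) 0 * 100000000) /
        (100000000 - rr * rr)) := by
      unfold tauE
      rw [EWt_beq, decide_eq_false hmd, cond_false]
      rfl
    have hlt : rr * rr < 100000000 := by nlinarith
    have h1 := EWt_div (monUp rr 0 (2 * PR - 1) 0 * 100000000) (100000000 - rr * rr) (by omega)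
    rw [← e] at h1
    have h2 := monUp_spec rr 0 (2 * PR - 1) 0
    rw [pow_zero, mul_one] at h2
    rw [Nat.cast_mul, Nat.cast_sub hlt.le] at h1
    push_cast at h1
    have hpos : (0 : ℝ) < 100000000 - (rr : ℝ) * rr := by nlinarith
    have hsq : ((rr : ℝ) / 10000) ^ 2 < 1 := by
      rw [div_pow, div_lt_one (by norm_num)]
      nlinarith
    refine EWt_tsum (fun i => hr0 _) (((rr : ℝ) / 10000) ^ (2 * PR - 1)) (((rr : ℝ) / 10000) ^ 2) _
      (by positivity) hsq (fun i => ?_) ?_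
    · refine (hri (PR + i)).trans (le_of_eq ?_)
      rw [EWt_exE, if_neg hmd, ← pow_mul, ← pow_add]
      congr 1
      omega
    · rw [le_div_iff₀ (by norm_num)]
      refine le_trans ?_ h1
      have e3 : (1 - ((rr : ℝ) / 10000) ^ 2) = (100000000 - (rr : ℝ) * rr) / 100000000 := by ring
      rw [e3, div_div_eq_mul_div, div_mul_eq_mul_div]
      apply div_le_div_of_nonneg_right _ hpos.le
      have h3 := mul_le_mul_of_nonneg_right h2 (by norm_num : (0 : ℝ) ≤ 100000000)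
      linarith

theorem tailE_spec (md rr rqc rpc n0 PR PL wa wc : ℕ) (τR τL : ℝ) (h1 : τR ≤ (tauE md rr PR : ℝ) / 100000000)
    (h2 : τL ≤ ((rpc : ℝ) / 10000) ^ (PL + 1) / (1 - (rpc : ℝ) / 10000)) (hr : rpc < 10000) :
    (((wc : ℝ) / 100000000 + ((rpc : ℝ) / 10000) ^ (PR + 4)) * τR +
      ((wa : ℝ) / 100000000 + ((rqc : ℝ) / 10000) ^ (PL + n0)) * τL) * 100000000 ≤
      (tailE md rr rqc rpc n0 PR PL wa wc : ℝ) := by
  have g := geoU_spec rpc (PL + 1) hr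
  have m1 := monUp_spec 0 rpc 0 (PR + 4)
  have m2 := monUp_spec rqc 0 (PL + n0) 0
  rw [pow_zero, one_mul] at m1
  rw [pow_zero, mul_one] at m2
  set T : ℕ := tauE md rr PR with hT
  have e : tailE md rr rqc rpc n0 PR PL wa wc = Nat.succ (((wc + monUp 0 rpc 0 (PR + 4)) * T +
      (wa + monUp rqc 0 (PL + n0) 0) * geoU rpc (PL + 1)) / 100000000) := rfl
  have h3 := EWt_div ((wc + monUp 0 rpc 0 (PR + 4)) * T +
      (wa + monUp rqc 0 (PL + n0) 0) * geoU rpc (PL + 1)) 100000000 (by norm_num)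
  rw [← e] at h3
  refine le_trans ?_ h3
  rw [le_div_iff₀ (by norm_num)]
  push_cast
  have h1' : τR * 100000000 ≤ (T : ℝ) := by
    rw [le_div_iff₀ (by norm_num)] at h1
    exact h1
  have h2' : τL * 100000000 ≤ ((geoU rpc (PL + 1) : ℕ) : ℝ) := by
    refine le_trans ?_ g
    exact mul_le_mul_of_nonneg_right h2 (by norm_num)
  have c1 : ((wc : ℝ) / 100000000 + ((rpc : ℝ) / 10000) ^ (PR + 4)) * 100000000 ≤
      (wc : ℝ) + ((monUp 0 rpc 0 (PR + 4) : ℕ) : ℝ) := by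
    have e1 : ((wc : ℝ) / 100000000 + ((rpc : ℝ) / 10000) ^ (PR + 4)) * 100000000 =
        (wc : ℝ) + ((rpc : ℝ) / 10000) ^ (PR + 4) * 100000000 := by ring
    rw [e1]
    linarith
  have c2 : ((wa : ℝ) / 100000000 + ((rqc : ℝ) / 10000) ^ (PL + n0)) * 100000000 ≤
      (wa : ℝ) + ((monUp rqc 0 (PL + n0) 0 : ℕ) : ℝ) := by
    have e1 : ((wa : ℝ) / 100000000 + ((rqc : ℝ) / 10000) ^ (PL + n0)) * 100000000 =
        (wa : ℝ) + ((rqc : ℝ) / 10000) ^ (PL + n0) * 100000000 := by ring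
    rw [e1]
    linarith
  have c1' : 0 ≤ ((wc : ℝ) / 100000000 + ((rpc : ℝ) / 10000) ^ (PR + 4)) * 100000000 := by
    positivity
  have c2' : 0 ≤ ((wa : ℝ) / 100000000 + ((rqc : ℝ) / 10000) ^ (PL + n0)) * 100000000 := by
    positivity
  have f1 := (mul_le_mul_of_nonneg_left h1' c1').trans
    (mul_le_mul_of_nonneg_right c1 (Nat.cast_nonneg T))
  have f2 := (mul_le_mul_of_nonneg_left h2' c2').trans
    (mul_le_mul_of_nonneg_right c2 (Nat.cast_nonneg (geoU rpc (PL + 1))))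
  linarith

/-- facts from the side conditions -/
theorem sideE_spec {fam md cr u v R PR rqc rpc : ℕ} (h : sideE fam md cr u v R PR rqc rpc = true) :
    (rqc : ℝ) * 100000000 ≤ (cr : ℝ) ^ 3 ∧ cr ≤ 10000 ∧ rrE (if fam = 0 then 1 else 2) md cr < 10000 ∧ rpc < 10000 ∧
    3 ≤ PR ∧ PR ≤ 37 ∧ |(u : ℝ) - 100000| + 1 ≤ 2 * R ∧ |(v : ℝ) - 100000| + 1 ≤ 2 * R := by
  unfold sideE at h
  simp only [Bool.and_eq_true, Nat.ble_eq] at h
  obtain ⟨⟨⟨⟨⟨⟨⟨h1, h2⟩, h3⟩, h4⟩, h5⟩, h6⟩, h7⟩, h8⟩ := h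
  have key : ∀ z N : ℕ, Nat.succ (absD z) ≤ Nat.mul 2 N → |(z : ℝ) - 100000| + 1 ≤ 2 * N := by
    intro z N hz
    rw [← EWt_absD]
    have hz' : absD z + 1 ≤ 2 * N := hz
    exact_mod_cast hz'
  refine ⟨?_, h2, ?_, h4, h5, h6, key _ _ h7, key _ _ h8⟩
  · have h1' : rqc * 100000000 ≤ cr ^ 3 := h1
    exact_mod_cast h1'
  · have h3' : rrE (bif Nat.beq fam 0 then 1 else 2) md cr < 10000 := h3
    rw [EWt_beq] at h3'
    by_cases hf : fam = 0
    · rw [decide_eq_true hf, cond_true] at h3'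
      rw [if_pos hf]
      exact h3'
    · rw [decide_eq_false hf, cond_false] at h3'
      rw [if_neg hf]
      exact h3'

end Pool.Agent.MaxTerm58
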