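import Pool.Agent.MaxTerm58.TreeS
import Pool.Agent.MaxTerm58.FinalF3
import Pool.Agent.MaxTerm58.DSA_m11_1
import Pool.Agent.MaxTerm58.DSA_m11_3
import Pool.Agent.MaxTerm58.DSA_m11_5
import Pool.Agent.MaxTerm58.DSA_m9_1
import Pool.Agent.MaxTerm58.DSA_m9_3
import Pool.Agent.MaxTerm58.DSA_m9_5
import Pool.Agent.MaxTerm58.DSA_m9_7
import Pool.Agent.MaxTerm58.DSA_m7_1
import Pool.Agent.MaxTerm58.DSA_m7_3
import Pool.Agent.MaxTerm58.DSA_m7_5
import Pool.Agent.MaxTerm58.DSA_m7_7
import Pool.Agent.MaxTerm58.DSA_m7_9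
import Pool.Agent.MaxTerm58.DSA_m5_1
import Pool.Agent.MaxTerm58.DSA_m5_3
import Pool.Agent.MaxTerm58.DSA_m5_5
import Pool.Agent.MaxTerm58.DSA_m5_7
import Pool.Agent.MaxTerm58.DSA_m5_9
import Pool.Agent.MaxTerm58.DSA_m3_3
import Pool.Agent.MaxTerm58.DSA_m3_5
import Pool.Agent.MaxTerm58.DSA_m3_7
import Pool.Agent.MaxTerm58.DSB_m11_1
import Pool.Agent.MaxTerm58.DSB_m11_3
import Pool.Agent.MaxTerm58.DSB_m11_5
import Pool.Agent.MaxTerm58.DSB_m9_1
import Pool.Agent.MaxTerm58.DSB_m9_3
import Pool.Agent.MaxTerm58.DSB_m9_5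
import Pool.Agent.MaxTerm58.DSB_m9_7
import Pool.Agent.MaxTerm58.DSB_m7_1
import Pool.Agent.MaxTerm58.DSB_m7_3
import Pool.Agent.MaxTerm58.DSB_m7_5
import Pool.Agent.MaxTerm58.DSB_m7_7
import Pool.Agent.MaxTerm58.DSB_m7_9
import Pool.Agent.MaxTerm58.DSB_m5_1
import Pool.Agent.MaxTerm58.DSB_m5_3
import Pool.Agent.MaxTerm58.DSB_m5_5
import Pool.Agent.MaxTerm58.DSB_m5_7
import Pool.Agent.MaxTerm58.DSB_m5_9
import Pool.Agent.MaxTerm58.DSB_m3_3
import Pool.Agent.MaxTerm58.DSB_m3_5
import Pool.Agent.MaxTerm58.DSB_m3_7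

/-! The exclusion of the family S. -/

namespace Pool.Agent.MaxTerm58

theorem sqSA_m11_1 : SquareSA 99989 100001 16 := squareSA_of_chk _ _ _ _ _ chkSA_m11_1_0 chkSA_m11_1_1
theorem sqSA_m11_3 : SquareSA 99989 100003 16 := squareSA_of_chk _ _ _ _ _ chkSA_m11_3_0 chkSA_m11_3_1
theorem sqSA_m11_5 : SquareSA 99989 100005 16 := squareSA_of_chk _ _ _ _ _ chkSA_m11_5_0 chkSA_m11_5_1
theorem sqSA_m9_1 : SquareSA 99991 100001 16 := squareSA_of_chk _ _ _ _ _ chkSA_m9_1_0 chkSA_m9_1_1
theorem sqSA_m9_3 : SquareSA 99991 100003 16 := squareSA_of_chk _ _ _ _ _ chkSA_m9_3_0 chkSA_m9_3_1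
theorem sqSA_m9_5 : SquareSA 99991 100005 16 := squareSA_of_chk _ _ _ _ _ chkSA_m9_5_0 chkSA_m9_5_1
theorem sqSA_m9_7 : SquareSA 99991 100007 16 := squareSA_of_chk _ _ _ _ _ chkSA_m9_7_0 chkSA_m9_7_1
theorem sqSA_m7_1 : SquareSA 99993 100001 16 := squareSA_of_chk _ _ _ _ _ chkSA_m7_1_0 chkSA_m7_1_1
theorem sqSA_m7_3 : SquareSA 99993 100003 16 := squareSA_of_chk _ _ _ _ _ chkSA_m7_3_0 chkSA_m7_3_1
theorem sqSA_m7_5 : SquareSA 99993 100005 16 := squareSA_of_chk _ _ _ _ _ chkSA_m7_5_0 chkSA_m7_5_1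
theorem sqSA_m7_7 : SquareSA 99993 100007 16 := squareSA_of_chk _ _ _ _ _ chkSA_m7_7_0 chkSA_m7_7_1
theorem sqSA_m7_9 : SquareSA 99993 100009 16 := squareSA_of_chk _ _ _ _ _ chkSA_m7_9_0 chkSA_m7_9_1
theorem sqSA_m5_1 : SquareSA 99995 100001 16 := squareSA_of_chk _ _ _ _ _ chkSA_m5_1_0 chkSA_m5_1_1
theorem sqSA_m5_3 : SquareSA 99995 100003 16 := squareSA_of_chk _ _ _ _ _ chkSA_m5_3_0 chkSA_m5_3_1
theorem sqSA_m5_5 : SquareSA 99995 100005 16 := squareSA_of_chk _ _ _ _ _ chkSA_m5_5_0 chkSA_m5_5_1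
theorem sqSA_m5_7 : SquareSA 99995 100007 16 := squareSA_of_chk _ _ _ _ _ chkSA_m5_7_0 chkSA_m5_7_1
theorem sqSA_m5_9 : SquareSA 99995 100009 16 := squareSA_of_chk _ _ _ _ _ chkSA_m5_9_0 chkSA_m5_9_1
theorem sqSA_m3_3 : SquareSA 99997 100003 16 := squareSA_of_chk _ _ _ _ _ chkSA_m3_3_0 chkSA_m3_3_1
theorem sqSA_m3_5 : SquareSA 99997 100005 16 := squareSA_of_chk _ _ _ _ _ chkSA_m3_5_0 chkSA_m3_5_1
theorem sqSA_m3_7 : SquareSA 99997 100007 16 := squareSA_of_chk _ _ _ _ _ chkSA_m3_7_0 chkSA_m3_7_1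
theorem sqSB_m11_1 : SquareSB 99989 100001 16 := squareSB_of_chk _ _ _ _ _ chkSB_m11_1_0 chkSB_m11_1_1
theorem sqSB_m11_3 : SquareSB 99989 100003 16 := squareSB_of_chk _ _ _ _ _ chkSB_m11_3_0 chkSB_m11_3_1
theorem sqSB_m11_5 : SquareSB 99989 100005 16 := squareSB_of_chk _ _ _ _ _ chkSB_m11_5_0 chkSB_m11_5_1
theorem sqSB_m9_1 : SquareSB 99991 100001 16 := squareSB_of_chk _ _ _ _ _ chkSB_m9_1_0 chkSB_m9_1_1
theorem sqSB_m9_3 : SquareSB 99991 100003 16 := squareSB_of_chk _ _ _ _ _ chkSB_m9_3_0 chkSB_m9_3_1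
theorem sqSB_m9_5 : SquareSB 99991 100005 16 := squareSB_of_chk _ _ _ _ _ chkSB_m9_5_0 chkSB_m9_5_1
theorem sqSB_m9_7 : SquareSB 99991 100007 16 := squareSB_of_chk _ _ _ _ _ chkSB_m9_7_0 chkSB_m9_7_1
theorem sqSB_m7_1 : SquareSB 99993 100001 16 := squareSB_of_chk _ _ _ _ _ chkSB_m7_1_0 chkSB_m7_1_1
theorem sqSB_m7_3 : SquareSB 99993 100003 16 := squareSB_of_chk _ _ _ _ _ chkSB_m7_3_0 chkSB_m7_3_1
theorem sqSB_m7_5 : SquareSB 99993 100005 16 := squareSB_of_chk _ _ _ _ _ chkSB_m7_5_0 chkSB_m7_5_1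
theorem sqSB_m7_7 : SquareSB 99993 100007 16 := squareSB_of_chk _ _ _ _ _ chkSB_m7_7_0 chkSB_m7_7_1
theorem sqSB_m7_9 : SquareSB 99993 100009 16 := squareSB_of_chk _ _ _ _ _ chkSB_m7_9_0 chkSB_m7_9_1
theorem sqSB_m5_1 : SquareSB 99995 100001 16 := squareSB_of_chk _ _ _ _ _ chkSB_m5_1_0 chkSB_m5_1_1
theorem sqSB_m5_3 : SquareSB 99995 100003 16 := squareSB_of_chk _ _ _ _ _ chkSB_m5_3_0 chkSB_m5_3_1
theorem sqSB_m5_5 : SquareSB 99995 100005 16 := squareSB_of_chk _ _ _ _ _ chkSB_m5_5_0 chkSB_m5_5_1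
theorem sqSB_m5_7 : SquareSB 99995 100007 16 := squareSB_of_chk _ _ _ _ _ chkSB_m5_7_0 chkSB_m5_7_1
theorem sqSB_m5_9 : SquareSB 99995 100009 16 := squareSB_of_chk _ _ _ _ _ chkSB_m5_9_0 chkSB_m5_9_1
theorem sqSB_m3_3 : SquareSB 99997 100003 16 := squareSB_of_chk _ _ _ _ _ chkSB_m3_3_0 chkSB_m3_3_1
theorem sqSB_m3_5 : SquareSB 99997 100005 16 := squareSB_of_chk _ _ _ _ _ chkSB_m3_5_0 chkSB_m3_5_1
theorem sqSB_m3_7 : SquareSB 99997 100007 16 := squareSB_of_chk _ _ _ _ _ chkSB_m3_7_0 chkSB_m3_7_1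

theorem sA_upper {q t r1 : ℂ} {l r : ℕ → ℂ} (H : HypSA q t r1 l r) (h1 : 17 / 50 ≤ ‖q‖) (h2 : ‖q‖ ≤ 3 / 4)
    (h0 : 0 ≤ q.im) (hU : InU q.re q.im) : False := by
  rcases hU with ⟨a1, a2, a3⟩ | ⟨a1, a2, a3⟩ | ⟨a1, a2, a3⟩ | ⟨a1, a2, a3, a4⟩
  · rcases le_total q.im (2 / 16) with b0 | b0
    · exact sqSA_m11_1 q t r1 l r H h1 h2 (inSq_of q (-11) 1 _ _ (by norm_num) (by norm_num) (by push_cast; linarith) (by push_cast; linarith) (by push_cast; linarith) (by push_cast; linarith))
    rcases le_total q.im (4 / 16) with b1 | b1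
    · exact sqSA_m11_3 q t r1 l r H h1 h2 (inSq_of q (-11) 3 _ _ (by norm_num) (by norm_num) (by push_cast; linarith) (by push_cast; linarith) (by push_cast; linarith) (by push_cast; linarith))
    exact sqSA_m11_5 q t r1 l r H h1 h2 (inSq_of q (-11) 5 _ _ (by norm_num) (by norm_num) (by push_cast; linarith) (by push_cast; linarith) (by push_cast; linarith) (by push_cast; linarith))
  · rcases le_total q.im (2 / 16) with b0 | b0
    · exact sqSA_m9_1 q t r1 l r H h1 h2 (inSq_of q (-9) 1 _ _ (by norm_num) (by norm_num) (by push_cast; linarith) (by push_cast; linarith) (by push_cast; linarith) (by push_cast; linarith))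
    rcases le_total q.im (4 / 16) with b1 | b1
    · exact sqSA_m9_3 q t r1 l r H h1 h2 (inSq_of q (-9) 3 _ _ (by norm_num) (by norm_num) (by push_cast; linarith) (by push_cast; linarith) (by push_cast; linarith) (by push_cast; linarith))
    rcases le_total q.im (6 / 16) with b2 | b2
    · exact sqSA_m9_5 q t r1 l r H h1 h2 (inSq_of q (-9) 5 _ _ (by norm_num) (by norm_num) (by push_cast; linarith) (by push_cast; linarith) (by push_cast; linarith) (by push_cast; linarith))
    exact sqSA_m9_7 q t r1 l r H h1 h2 (inSq_of q (-9) 7 _ _ (by norm_num) (by norm_num) (by push_cast; linarith) (by push_cast; linarith) (by push_cast; linarith) (by push_cast; linarith))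
  · rcases le_total q.re (-3 / 8) with c | c
    · rcases le_total q.im (2 / 16) with b0 | b0
      · exact sqSA_m7_1 q t r1 l r H h1 h2 (inSq_of q (-7) 1 _ _ (by norm_num) (by norm_num) (by push_cast; linarith) (by push_cast; linarith) (by push_cast; linarith) (by push_cast; linarith))
      rcases le_total q.im (4 / 16) with b1 | b1
      · exact sqSA_m7_3 q t r1 l r H h1 h2 (inSq_of q (-7) 3 _ _ (by norm_num) (by norm_num) (by push_cast; linarith) (by push_cast; linarith) (by push_cast; linarith) (by push_cast; linarith))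
      rcases le_total q.im (6 / 16) with b2 | b2
      · exact sqSA_m7_5 q t r1 l r H h1 h2 (inSq_of q (-7) 5 _ _ (by norm_num) (by norm_num) (by push_cast; linarith) (by push_cast; linarith) (by push_cast; linarith) (by push_cast; linarith))
      rcases le_total q.im (8 / 16) with b3 | b3
      · exact sqSA_m7_7 q t r1 l r H h1 h2 (inSq_of q (-7) 7 _ _ (by norm_num) (by norm_num) (by push_cast; linarith) (by push_cast; linarith) (by push_cast; linarith) (by push_cast; linarith))
      exact sqSA_m7_9 q t r1 l r H h1 h2 (inSq_of q (-7) 9 _ _ (by norm_num) (by norm_num) (by push_cast; linarith) (by push_cast; linarith) (by push_cast; linarith) (by push_cast; linarith))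
    · rcases le_total q.im (2 / 16) with b0 | b0
      · exact sqSA_m5_1 q t r1 l r H h1 h2 (inSq_of q (-5) 1 _ _ (by norm_num) (by norm_num) (by push_cast; linarith) (by push_cast; linarith) (by push_cast; linarith) (by push_cast; linarith))
      rcases le_total q.im (4 / 16) with b1 | b1
      · exact sqSA_m5_3 q t r1 l r H h1 h2 (inSq_of q (-5) 3 _ _ (by norm_num) (by norm_num) (by push_cast; linarith) (by push_cast; linarith) (by push_cast; linarith) (by push_cast; linarith))
      rcases le_total q.im (6 / 16) with b2 | b2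
      · exact sqSA_m5_5 q t r1 l r H h1 h2 (inSq_of q (-5) 5 _ _ (by norm_num) (by norm_num) (by push_cast; linarith) (by push_cast; linarith) (by push_cast; linarith) (by push_cast; linarith))
      rcases le_total q.im (8 / 16) with b3 | b3
      · exact sqSA_m5_7 q t r1 l r H h1 h2 (inSq_of q (-5) 7 _ _ (by norm_num) (by norm_num) (by push_cast; linarith) (by push_cast; linarith) (by push_cast; linarith) (by push_cast; linarith))
      exact sqSA_m5_9 q t r1 l r H h1 h2 (inSq_of q (-5) 9 _ _ (by norm_num) (by norm_num) (by push_cast; linarith) (by push_cast; linarith) (by push_cast; linarith) (by push_cast; linarith))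
  · rcases le_total q.im (4 / 16) with b0 | b0
    · exact sqSA_m3_3 q t r1 l r H h1 h2 (inSq_of q (-3) 3 _ _ (by norm_num) (by norm_num) (by push_cast; linarith) (by push_cast; linarith) (by push_cast; linarith) (by push_cast; linarith))
    rcases le_total q.im (6 / 16) with b1 | b1
    · exact sqSA_m3_5 q t r1 l r H h1 h2 (inSq_of q (-3) 5 _ _ (by norm_num) (by norm_num) (by push_cast; linarith) (by push_cast; linarith) (by push_cast; linarith) (by push_cast; linarith))
    exact sqSA_m3_7 q t r1 l r H h1 h2 (inSq_of q (-3) 7 _ _ (by norm_num) (by norm_num) (by push_cast; linarith) (by push_cast; linarith) (by push_cast; linarith) (by push_cast; linarith))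

/-- no configuration of the family SA with `q` in the region -/
theorem sA_final {q t r1 : ℂ} {l r : ℕ → ℂ} (H : HypSA q t r1 l r) (h1 : 17 / 50 ≤ ‖q‖) (h2 : ‖q‖ ≤ 3 / 4)
    (hU : InU q.re |q.im|) : False := by
  rcases le_total 0 q.im with h0 | h0
  · rw [abs_of_nonneg h0] at hU
    exact sA_upper H h1 h2 h0 hU
  · rw [abs_of_nonpos h0] at hU
    refine sA_upper H.conj ?_ ?_ ?_ ?_
    · rwa [RCLike.norm_conj]
    · rwa [RCLike.norm_conj]
    · simpa using h0
    · simpa using hU

theorem sB_upper {q t r1 : ℂ} {l r : ℕ → ℂ} (H : HypSB q t r1 l r) (h1 : 17 / 50 ≤ ‖q‖) (h2 : ‖q‖ ≤ 3 / 4)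
    (h0 : 0 ≤ q.im) (hU : InU q.re q.im) : False := by
  rcases hU with ⟨a1, a2, a3⟩ | ⟨a1, a2, a3⟩ | ⟨a1, a2, a3⟩ | ⟨a1, a2, a3, a4⟩
  · rcases le_total q.im (2 / 16) with b0 | b0
    · exact sqSB_m11_1 q t r1 l r H h1 h2 (inSq_of q (-11) 1 _ _ (by norm_num) (by norm_num) (by push_cast; linarith) (by push_cast; linarith) (by push_cast; linarith) (by push_cast; linarith))
    rcases le_total q.im (4 / 16) with b1 | b1
    · exact sqSB_m11_3 q t r1 l r H h1 h2 (inSq_of q (-11) 3 _ _ (by norm_num) (by norm_num) (by push_cast; linarith) (by push_cast; linarith) (by push_cast; linarith) (by push_cast; linarith))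
    exact sqSB_m11_5 q t r1 l r H h1 h2 (inSq_of q (-11) 5 _ _ (by norm_num) (by norm_num) (by push_cast; linarith) (by push_cast; linarith) (by push_cast; linarith) (by push_cast; linarith))
  · rcases le_total q.im (2 / 16) with b0 | b0
    · exact sqSB_m9_1 q t r1 l r H h1 h2 (inSq_of q (-9) 1 _ _ (by norm_num) (by norm_num) (by push_cast; linarith) (by push_cast; linarith) (by push_cast; linarith) (by push_cast; linarith))
    rcases le_total q.im (4 / 16) with b1 | b1
    · exact sqSB_m9_3 q t r1 l r H h1 h2 (inSq_of q (-9) 3 _ _ (by norm_num) (by norm_num) (by push_cast; linarith) (by push_cast; linarith) (by push_cast; linarith) (by push_cast; linarith))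
    rcases le_total q.im (6 / 16) with b2 | b2
    · exact sqSB_m9_5 q t r1 l r H h1 h2 (inSq_of q (-9) 5 _ _ (by norm_num) (by norm_num) (by push_cast; linarith) (by push_cast; linarith) (by push_cast; linarith) (by push_cast; linarith))
    exact sqSB_m9_7 q t r1 l r H h1 h2 (inSq_of q (-9) 7 _ _ (by norm_num) (by norm_num) (by push_cast; linarith) (by push_cast; linarith) (by push_cast; linarith) (by push_cast; linarith))
  · rcases le_total q.re (-3 / 8) with c | c
    · rcases le_total q.im (2 / 16) with b0 | b0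
      · exact sqSB_m7_1 q t r1 l r H h1 h2 (inSq_of q (-7) 1 _ _ (by norm_num) (by norm_num) (by push_cast; linarith) (by push_cast; linarith) (by push_cast; linarith) (by push_cast; linarith))
      rcases le_total q.im (4 / 16) with b1 | b1
      · exact sqSB_m7_3 q t r1 l r H h1 h2 (inSq_of q (-7) 3 _ _ (by norm_num) (by norm_num) (by push_cast; linarith) (by push_cast; linarith) (by push_cast; linarith) (by push_cast; linarith))
      rcases le_total q.im (6 / 16) with b2 | b2
      · exact sqSB_m7_5 q t r1 l r H h1 h2 (inSq_of q (-7) 5 _ _ (by norm_num) (by norm_num) (by push_cast; linarith) (by push_cast; linarith) (by push_cast; linarith) (by push_cast; linarith))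
      rcases le_total q.im (8 / 16) with b3 | b3
      · exact sqSB_m7_7 q t r1 l r H h1 h2 (inSq_of q (-7) 7 _ _ (by norm_num) (by norm_num) (by push_cast; linarith) (by push_cast; linarith) (by push_cast; linarith) (by push_cast; linarith))
      exact sqSB_m7_9 q t r1 l r H h1 h2 (inSq_of q (-7) 9 _ _ (by norm_num) (by norm_num) (by push_cast; linarith) (by push_cast; linarith) (by push_cast; linarith) (by push_cast; linarith))
    · rcases le_total q.im (2 / 16) with b0 | b0
      · exact sqSB_m5_1 q t r1 l r H h1 h2 (inSq_of q (-5) 1 _ _ (by norm_num) (by norm_num) (by push_cast; linarith) (by push_cast; linarith) (by push_cast; linarith) (by push_cast; linarith))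
      rcases le_total q.im (4 / 16) with b1 | b1
      · exact sqSB_m5_3 q t r1 l r H h1 h2 (inSq_of q (-5) 3 _ _ (by norm_num) (by norm_num) (by push_cast; linarith) (by push_cast; linarith) (by push_cast; linarith) (by push_cast; linarith))
      rcases le_total q.im (6 / 16) with b2 | b2
      · exact sqSB_m5_5 q t r1 l r H h1 h2 (inSq_of q (-5) 5 _ _ (by norm_num) (by norm_num) (by push_cast; linarith) (by push_cast; linarith) (by push_cast; linarith) (by push_cast; linarith))
      rcases le_total q.im (8 / 16) with b3 | b3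
      · exact sqSB_m5_7 q t r1 l r H h1 h2 (inSq_of q (-5) 7 _ _ (by norm_num) (by norm_num) (by push_cast; linarith) (by push_cast; linarith) (by push_cast; linarith) (by push_cast; linarith))
      exact sqSB_m5_9 q t r1 l r H h1 h2 (inSq_of q (-5) 9 _ _ (by norm_num) (by norm_num) (by push_cast; linarith) (by push_cast; linarith) (by push_cast; linarith) (by push_cast; linarith))
  · rcases le_total q.im (4 / 16) with b0 | b0
    · exact sqSB_m3_3 q t r1 l r H h1 h2 (inSq_of q (-3) 3 _ _ (by norm_num) (by norm_num) (by push_cast; linarith) (by push_cast; linarith) (by push_cast; linarith) (by push_cast; linarith))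
    rcases le_total q.im (6 / 16) with b1 | b1
    · exact sqSB_m3_5 q t r1 l r H h1 h2 (inSq_of q (-3) 5 _ _ (by norm_num) (by norm_num) (by push_cast; linarith) (by push_cast; linarith) (by push_cast; linarith) (by push_cast; linarith))
    exact sqSB_m3_7 q t r1 l r H h1 h2 (inSq_of q (-3) 7 _ _ (by norm_num) (by norm_num) (by push_cast; linarith) (by push_cast; linarith) (by push_cast; linarith) (by push_cast; linarith))

/-- no configuration of the family SB with `q` in the region -/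
theorem sB_final {q t r1 : ℂ} {l r : ℕ → ℂ} (H : HypSB q t r1 l r) (h1 : 17 / 50 ≤ ‖q‖) (h2 : ‖q‖ ≤ 3 / 4)
    (hU : InU q.re |q.im|) : False := by
  rcases le_total 0 q.im with h0 | h0
  · rw [abs_of_nonneg h0] at hU
    exact sB_upper H h1 h2 h0 hU
  · rw [abs_of_nonpos h0] at hU
    refine sB_upper H.conj ?_ ?_ ?_ ?_
    · rwa [RCLike.norm_conj]
    · rwa [RCLike.norm_conj]
    · simpa using h0
    · simpa using hU

end Pool.Agent.MaxTerm58
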