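import Pool.Agent.MaxTerm58.TreeTI
import Pool.Agent.MaxTerm58.DTI_m7_1
import Pool.Agent.MaxTerm58.DTI_m5_1
import Pool.Agent.MaxTerm58.DTI_m7_3
import Pool.Agent.MaxTerm58.DTI_m5_3
import Pool.Agent.MaxTerm58.DTI_a
import Pool.Agent.MaxTerm58.DTI_b

/-! The exclusion of the remaining parameters by the averaged corner functions. -/

namespace Pool.Agent.MaxTerm58

open Pool.Agent.MaxTerm59 (HypI)

theorem ti_cells (a b : ℕ) (ha : a < 8) (hb : b < 4) : CellTI (99993 + 2 * a) (100001 + 2 * b) 8 := by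
  interval_cases a <;> interval_cases b
  · exact TI_sound _ _ _ _ chkI_m7_1
  · exact TI_sound _ _ _ _ chkI_m7_3
  · exact TI_sound _ _ _ _ chkI_m7_5
  · exact TI_sound _ _ _ _ chkI_m7_7
  · exact TI_sound _ _ _ _ chkI_m5_1
  · exact TI_sound _ _ _ _ chkI_m5_3
  · exact TI_sound _ _ _ _ chkI_m5_5
  · exact TI_sound _ _ _ _ chkI_m5_7
  · exact TI_sound _ _ _ _ chkI_m3_1
  · exact TI_sound _ _ _ _ chkI_m3_3
  · exact TI_sound _ _ _ _ chkI_m3_5
  · exact TI_sound _ _ _ _ chkI_m3_7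
  · exact TI_sound _ _ _ _ chkI_m1_1
  · exact TI_sound _ _ _ _ chkI_m1_3
  · exact TI_sound _ _ _ _ chkI_m1_5
  · exact TI_sound _ _ _ _ chkI_m1_7
  · exact TI_sound _ _ _ _ chkI_p1_1
  · exact TI_sound _ _ _ _ chkI_p1_3
  · exact TI_sound _ _ _ _ chkI_p1_5
  · exact TI_sound _ _ _ _ chkI_p1_7
  · exact TI_sound _ _ _ _ chkI_p3_1
  · exact TI_sound _ _ _ _ chkI_p3_3
  · exact TI_sound _ _ _ _ chkI_p3_5
  · exact TI_sound _ _ _ _ chkI_p3_7
  · exact TI_sound _ _ _ _ chkI_p5_1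
  · exact TI_sound _ _ _ _ chkI_p5_3
  · exact TI_sound _ _ _ _ chkI_p5_5
  · exact TI_sound _ _ _ _ chkI_p5_7
  · exact TI_sound _ _ _ _ chkI_p7_1
  · exact TI_sound _ _ _ _ chkI_p7_3
  · exact TI_sound _ _ _ _ chkI_p7_5
  · exact TI_sound _ _ _ _ chkI_p7_7

/-- no type I configuration outside of the region of the matched configurations -/
theorem ti_final {q : ℂ} {s : ℕ → ℂ} (H : HypI (170919 / 100000) (1 / 100000) q s)
    (h1 : 17 / 50 ≤ ‖q‖) (hU : ¬(‖q‖ ≤ 3 / 4 ∧ InU q.re |q.im|)) : False :=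
  ti_of_cells ti_cells H h1 hU

end Pool.Agent.MaxTerm58
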