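import Pool.Agent.MaxTerm58.CheckF3

/-! Generic machinery: polynomials in two complex parameters with packed coefficients. -/

namespace Pool.Agent.MaxTerm58

def PC.pow (x : PC) (n : Nat) : PC := ⟨Nat.mod (Nat.pow x.a n) MM, Nat.mod (Nat.pow x.b n) MM⟩

/-- a monomial: numerator of the coefficient, exponents -/
structure TmP where
  m : PC
  a : Nat
  b : Nat

/-- a polynomial with common denominator `den`, exponents at most `A`, `B` -/
structure ItP where
  den : Nat
  A : Nat
  B : Nat
  ts : List TmP

/-- value of a monomial at `(c/Q, d/R)`, times `den Q^A R^B` -/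
def tmV (c d : PC) (Q R A B : Nat) (t : TmP) : PC :=
  (t.m.mul ((c.pow t.a).mul (d.pow t.b))).smul
    (Nat.mul (Nat.pow Q (Nat.sub A t.a)) (Nat.pow R (Nat.sub B t.b)))

/-- value of a polynomial at `(c/Q, d/R)`, times `itDen` -/
def itV (c d : PC) (Q R : Nat) (I : ItP) : PC :=
  I.ts.foldr (fun t s => (tmV c d Q R I.A I.B t).add s) ⟨0, 0⟩

def itDen (Q R : Nat) (I : ItP) : Nat := Nat.mul I.den (Nat.mul (Nat.pow Q I.A) (Nat.pow R I.B))

/-- upper bound of `10^8 |value|` -/
def itAbs (c d : PC) (Q R : Nat) (I : ItP) : Nat := absP (itV c d Q R I) (itDen Q R I)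

/-- upper bound of `10^8` times the interpolation error -/
def itErr (rq rp Q R : Nat) (I : ItP) : Nat :=
  Nat.succ (Nat.div (I.ts.foldr (fun t s =>
    Nat.add (Nat.mul (absP t.m I.den) (errUp rq rp Q R t.a t.b)) s) 0) 100000000)

/-- crude upper bound of `10^8 |value|` on the cell -/
def itCr (rq rp : Nat) (I : ItP) : Nat :=
  Nat.succ (Nat.div (I.ts.foldr (fun t s =>
    Nat.add (Nat.mul (absP t.m I.den) (monUp rq rp t.a t.b)) s) 0) 100000000)

/-- the coefficients are small compared with the modulus -/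
def szM (I : ItP) : Bool := Nat.ble 1 I.den && Nat.blt (Nat.pow (Nat.mul 6 I.den) 2) MM

/-- the values are small compared with the modulus -/
def szOK (Q R : Nat) (I : ItP) : Bool :=
  szM I && I.ts.all (fun t => Nat.ble t.a I.A && Nat.ble t.b I.B) &&
  Nat.blt (Nat.pow (Nat.mul (Nat.mul (Nat.mul 6 (Nat.succ I.ts.length)) (Nat.pow 3 (Nat.add I.A I.B)))
    (itDen Q R I)) 2) MM

/-- weighted sum of the absolute values at a vertex -/
def wAbs (c d : PC) (Q R : Nat) : List (Nat × ItP) → Nat → Nat
  | [], acc => acc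
  | x :: l, acc =>
    wAbs c d Q R l (Nat.succ (Nat.add acc (Nat.div (Nat.mul x.1 (itAbs c d Q R x.2)) 100000000)))

/-- weighted sum of the errors -/
def wErr (rq rp Q R : Nat) : List (Nat × ItP) → Nat → Nat
  | [], acc => acc
  | x :: l, acc =>
    wErr rq rp Q R l (Nat.succ (Nat.add acc (Nat.div (Nat.mul x.1 (itErr rq rp Q R x.2)) 100000000)))

/-- the crude bounds of the weighted absolute values -/
def bCr (rq rp : Nat) : List (Nat × ItP) → List Nat
  | [] => []
  | x :: l => Nat.succ (Nat.div (Nat.mul x.1 (itCr rq rp x.2)) 100000000) :: bCr rq rp l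

/-- the weighted absolute values at a vertex -/
def bAbs (c d : PC) (Q R : Nat) : List (Nat × ItP) → List Nat
  | [] => []
  | x :: l => Nat.succ (Nat.div (Nat.mul x.1 (itAbs c d Q R x.2)) 100000000) :: bAbs c d Q R l

def sumL (l : List Nat) : Nat := l.foldr (fun b s => Nat.add b s) 0
def sqSum (l : List Nat) : Nat := l.foldr (fun b s => Nat.add (Nat.mul b b) s) 0
def maxU (a b : Nat) : Nat := bif Nat.ble a b then b else a
def maxL (l : List Nat) : Nat := l.foldr (fun b s => maxU b s) 0

/-- maximum of `b_u + nu sqrt (S - b_u^2)` over the entries whose index is not `1` -/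
def ballMx (nu S : Nat) : List Nat → Nat → Nat → Nat
  | [], _, acc => acc
  | b :: l, u, acc =>
    ballMx nu S l (Nat.succ u) (bif Nat.beq u 1 then acc else
      maxU acc (Nat.succ (Nat.add b (Nat.div (Nat.mul nu (sqU (Nat.sub S (Nat.mul b b)))) 100000000))))

/-- upper bound for `sum c_i b_i`, `c` in the ball of radius `nu` except for one coordinate, which is not
the coordinate `1` and is at most one; `scr`, `mcr` sum of the squares and maximum of the remaining entries -/
def ballP (nu scr mcr : Nat) (bs : List Nat) : Nat :=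
  ballMx nu (Nat.add scr (sqSum bs)) bs 0
    (Nat.succ (Nat.add mcr (Nat.div (Nat.mul nu (sqU (Nat.add scr (sqSum bs)))) 100000000)))

/-- check of one vertex; `x` = numerator of the main term over `den` -/
def vtxG (x : PC) (den pen tot : Nat) : Bool :=
  Nat.ble (Nat.mul 2 (PC.re2 x)) MM &&
  Nat.blt (Nat.mul (Nat.mul 2 (Nat.add (Nat.mul 1000 pen) tot)) den) (Nat.mul (PC.re2 x) 100000000000)

/-- upper bound for `10^8 (r/10^4)^n / (1 - r/10^4)` -/
def geoU (r n : Nat) : Nat :=
  Nat.succ (Nat.div (Nat.mul (monUp r 0 n 0) 10000) (Nat.sub 10000 r))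

def minN (a b : Nat) : Nat := bif Nat.ble a b then a else b

end Pool.Agent.MaxTerm58
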