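import Pool.Agent.MaxTerm58.GenDef
import Pool.Agent.MaxTerm58.GenPoly
import Pool.Agent.MaxTerm58.CRep

/-! Representation of polynomials by packed data. Hints: `CRep.mul`, `CRep.add`, `CRep.smul`, `absP_spec`, `monUp_spec`,
`errUp_spec`, `sqU_spec`, `CRep.re2_eq`. For `itAbs_spec`: `||den Q^A R^B * value|| <= 6 * (length + 1) * 3^(A+B) * itDen`. -/

namespace Pool.Agent.MaxTerm58

private theorem GenRep_div (N D : ℕ) (hD : 0 < D) :
    (N : ℝ) / (D : ℝ) ≤ ((Nat.succ (Nat.div N D) : ℕ) : ℝ) := by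
  have h1 : N < D * (N / D + 1) := Nat.lt_mul_div_succ N hD
  have hD' : (0 : ℝ) < D := by exact_mod_cast hD
  rw [div_le_iff₀ hD']
  have h2 : (N : ℝ) < (D : ℝ) * ((N / D : ℕ) + 1) := by exact_mod_cast h1
  have h3 : ((Nat.succ (Nat.div N D) : ℕ) : ℝ) = ((N / D : ℕ) : ℝ) + 1 := by
    push_cast
    rfl
  rw [h3]
  linarith

private theorem GenRep_div8 {N : ℕ} {t : ℝ} (h : t * 100000000 ≤ (N : ℝ)) :
    t ≤ ((Nat.succ (Nat.div N 100000000) : ℕ) : ℝ) := by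
  have h1 := GenRep_div N 100000000 (by norm_num)
  refine le_trans ?_ h1
  push_cast
  rw [le_div_iff₀ (by norm_num)]
  exact h

private theorem GenRep_step {acc N : ℕ} {t : ℝ} (h : t * 100000000 ≤ (N : ℝ)) :
    (acc : ℝ) + t ≤ ((Nat.succ (Nat.add acc (Nat.div N 100000000)) : ℕ) : ℝ) := by
  have h1 := GenRep_div8 h
  have e : Nat.succ (Nat.add acc (Nat.div N 100000000)) = acc + Nat.succ (Nat.div N 100000000) := rfl
  rw [e, Nat.cast_add]
  linarith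

private theorem GenRep_MM : 16 < MM := by
  rw [MM_eq]
  have h : ∀ k : ℕ, 4 ≤ k → 16 < 2 ^ k + 1 := by
    intro k hk
    have h1 : (2 : ℕ) ^ 4 ≤ 2 ^ k := Nat.pow_le_pow_right (by norm_num) hk
    have h2 : (2 : ℕ) ^ 4 = 16 := by norm_num
    omega
  exact h 1280 (by norm_num)

theorem CRep.pow {x : PC} {w : ℂ} (h : CRep x w) (n : ℕ) : CRep (x.pow n) (w ^ n) := by
  have hM : 1 < MM := lt_trans (by norm_num) GenRep_MM
  induction n with
  | zero =>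
    refine ⟨1, 0, by simp, ?_, ?_⟩
    · have h1 : (x.pow 0).a = 1 % MM := rfl
      rw [h1, Nat.mod_eq_of_lt hM]
      simp
    · have h1 : (x.pow 0).b = 1 % MM := rfl
      rw [h1, Nat.mod_eq_of_lt hM]
      simp
  | succ n ih =>
    have e : x.pow (n + 1) = (x.pow n).mul x := by
      have ea : (x.pow (n + 1)).a = ((x.pow n).mul x).a := by
        have e1 : (x.pow (n + 1)).a = x.a ^ (n + 1) % MM := rfl
        have e2 : ((x.pow n).mul x).a = (x.a ^ n % MM * x.a) % MM := rfl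
        rw [e1, e2, pow_succ]
        exact ((Nat.mod_modEq _ _).mul_right _).symm
      have eb : (x.pow (n + 1)).b = ((x.pow n).mul x).b := by
        have e1 : (x.pow (n + 1)).b = x.b ^ (n + 1) % MM := rfl
        have e2 : ((x.pow n).mul x).b = (x.b ^ n % MM * x.b) % MM := rfl
        rw [e1, e2, pow_succ]
        exact ((Nat.mod_modEq _ _).mul_right _).symm
      cases hx : x.pow (n + 1)
      cases hy : (x.pow n).mul x
      rw [hx, hy] at ea eb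
      simp only at ea eb
      rw [ea, eb]
    rw [e, pow_succ]
    exact ih.mul h

/-- the polynomial `f` is represented by `I` -/
def ItRep (I : ItP) (f : List (ℂ × ℕ × ℕ)) : Prop :=
  List.Forall₂ (fun t x => CRep t.m ((I.den : ℂ) * x.1) ∧ t.a = x.2.1 ∧ t.b = x.2.2 ∧ ‖x.1‖ ≤ 6) I.ts f

private abbrev GRel (den : ℕ) (t : TmP) (x : ℂ × ℕ × ℕ) : Prop :=
  CRep t.m ((den : ℂ) * x.1) ∧ t.a = x.2.1 ∧ t.b = x.2.2 ∧ ‖x.1‖ ≤ 6

private theorem GenRep_szM {I : ItP} (hs : szM I = true) :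
    0 < I.den ∧ (6 * I.den) ^ 2 < MM := by
  unfold szM at hs
  rw [Bool.and_eq_true, Nat.ble_eq, Nat.blt_eq] at hs
  exact ⟨hs.1, hs.2⟩

private theorem GenRep_sz {Q R : ℕ} {I : ItP} (hs : szOK Q R I = true) :
    szM I = true ∧ (∀ t ∈ I.ts, t.a ≤ I.A ∧ t.b ≤ I.B) ∧
      ((6 * (I.ts.length + 1) * 3 ^ (I.A + I.B)) * itDen Q R I) ^ 2 < MM := by
  unfold szOK at hs
  rw [Bool.and_eq_true, Bool.and_eq_true, Nat.blt_eq] at hs
  obtain ⟨⟨h1, h2⟩, h3⟩ := hs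
  refine ⟨h1, fun t ht => ?_, h3⟩
  rw [List.all_eq_true] at h2
  have h4 := h2 t ht
  rw [Bool.and_eq_true, Nat.ble_eq, Nat.ble_eq] at h4
  exact h4

private theorem GenRep_denPos {Q R : ℕ} {I : ItP} (hs : szM I = true) (hQ : 0 < Q) (hR : 0 < R) :
    0 < itDen Q R I :=
  Nat.mul_pos (GenRep_szM hs).1 (Nat.mul_pos (Nat.pow_pos hQ) (Nat.pow_pos hR))

private theorem GenRep_fold {c d : PC} {cz dz : ℂ} (hc : CRep c cz) (hd : CRep d dz)
    {Q R : ℕ} (A B den : ℕ) (hQ : 0 < Q) (hR : 0 < R) {ts : List TmP} {f : List (ℂ × ℕ × ℕ)}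
    (h : List.Forall₂ (GRel den) ts f) (hs : ∀ t ∈ ts, t.a ≤ A ∧ t.b ≤ B) :
    CRep (ts.foldr (fun t s => (tmV c d Q R A B t).add s) ⟨0, 0⟩)
      (((den * (Q ^ A * R ^ B) : ℕ) : ℂ) * pval f (cz / Q) (dz / R)) := by
  induction h with
  | nil =>
    have e : ((den * (Q ^ A * R ^ B) : ℕ) : ℂ) * pval [] (cz / Q) (dz / R) = 0 := by
      simp [pval]
    rw [e]
    exact CRep.zero
  | @cons t x ts f hx hl ih =>
    have h1 := ih (fun t ht => hs t (List.mem_cons_of_mem _ ht))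
    obtain ⟨hta, htb⟩ := hs t List.mem_cons_self
    obtain ⟨hm, ha, hb, -⟩ := hx
    rw [List.foldr_cons]
    have h2 : CRep (tmV c d Q R A B t)
        (((Nat.mul (Nat.pow Q (Nat.sub A t.a)) (Nat.pow R (Nat.sub B t.b)) : ℕ) : ℂ) *
          ((den : ℂ) * x.1 * (cz ^ t.a * dz ^ t.b))) :=
      (hm.mul ((hc.pow t.a).mul (hd.pow t.b))).smul _
    have h3 := h2.add h1
    have hQ' : (Q : ℂ) ≠ 0 := by exact_mod_cast hQ.ne'
    have hR' : (R : ℂ) ≠ 0 := by exact_mod_cast hR.ne'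
    have e : ((den * (Q ^ A * R ^ B) : ℕ) : ℂ) * pval (x :: f) (cz / Q) (dz / R) =
        ((Nat.mul (Nat.pow Q (Nat.sub A t.a)) (Nat.pow R (Nat.sub B t.b)) : ℕ) : ℂ) *
          ((den : ℂ) * x.1 * (cz ^ t.a * dz ^ t.b)) +
        ((den * (Q ^ A * R ^ B) : ℕ) : ℂ) * pval f (cz / Q) (dz / R) := by
      have e1 : pval (x :: f) (cz / Q) (dz / R) =
          x.1 * ((cz / Q) ^ x.2.1 * (dz / R) ^ x.2.2) + pval f (cz / Q) (dz / R) := by
        unfold pval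
        rw [List.map_cons, List.sum_cons]
      rw [e1, mul_add, ← ha, ← hb]
      congr 1
      have e2 : (Nat.mul (Nat.pow Q (Nat.sub A t.a)) (Nat.pow R (Nat.sub B t.b)) : ℕ) =
          Q ^ (A - t.a) * R ^ (B - t.b) := rfl
      rw [e2]
      have e3 : Q ^ A = Q ^ (A - t.a) * Q ^ t.a := by rw [← pow_add, Nat.sub_add_cancel hta]
      have e4 : R ^ B = R ^ (B - t.b) * R ^ t.b := by rw [← pow_add, Nat.sub_add_cancel htb]
      rw [e3, e4]
      push_cast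
      rw [div_pow, div_pow]
      field_simp
    rw [e]
    exact h3

private theorem GenRep_pval {A B den : ℕ} {ts : List TmP} {f : List (ℂ × ℕ × ℕ)}
    (h : List.Forall₂ (GRel den) ts f) (hs : ∀ t ∈ ts, t.a ≤ A ∧ t.b ≤ B) {q t : ℂ}
    (hq : ‖q‖ ≤ 3) (ht : ‖t‖ ≤ 3) :
    ‖pval f q t‖ ≤ 6 * (ts.length : ℝ) * 3 ^ (A + B) := by
  induction h with
  | nil => simp [pval]
  | @cons s x ts f hx hl ih =>
    have h1 := ih (fun t ht => hs t (List.mem_cons_of_mem _ ht))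
    obtain ⟨hta, htb⟩ := hs s List.mem_cons_self
    obtain ⟨-, ha, hb, h6⟩ := hx
    have e1 : pval (x :: f) q t = x.1 * (q ^ x.2.1 * t ^ x.2.2) + pval f q t := by
      unfold pval
      rw [List.map_cons, List.sum_cons]
    have h2 : ‖x.1 * (q ^ x.2.1 * t ^ x.2.2)‖ ≤ 6 * 3 ^ (A + B) := by
      rw [norm_mul, norm_mul, norm_pow, norm_pow, ← ha, ← hb, pow_add]
      have h3 : ‖q‖ ^ s.a ≤ 3 ^ A :=
        (pow_le_pow_left₀ (norm_nonneg _) hq _).trans (pow_le_pow_right₀ (by norm_num) hta)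
      have h4 : ‖t‖ ^ s.b ≤ 3 ^ B :=
        (pow_le_pow_left₀ (norm_nonneg _) ht _).trans (pow_le_pow_right₀ (by norm_num) htb)
      exact mul_le_mul h6 (mul_le_mul h3 h4 (by positivity) (by positivity)) (by positivity)
        (by norm_num)
    rw [e1, List.length_cons]
    push_cast
    have h5 := norm_add_le (x.1 * (q ^ x.2.1 * t ^ x.2.2)) (pval f q t)
    have h7 : 6 * ((ts.length : ℝ) + 1) * 3 ^ (A + B) =
        6 * 3 ^ (A + B) + 6 * (ts.length : ℝ) * 3 ^ (A + B) := by ring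
    rw [h7]
    linarith

private theorem GenRep_sum {den : ℕ} (hden : 0 < den) (hM : (6 * den) ^ 2 < MM) (F : ℕ → ℕ → ℝ)
    (G : ℕ → ℕ → ℕ) (hFG : ∀ a b, F a b * 100000000 ≤ ((G a b : ℕ) : ℝ)) {ts : List TmP}
    {f : List (ℂ × ℕ × ℕ)} (h : List.Forall₂ (GRel den) ts f) :
    (f.map fun x => ‖x.1‖ * F x.2.1 x.2.2).sum * 100000000 * 100000000 ≤
      ((ts.foldr (fun t s => Nat.add (Nat.mul (absP t.m den) (G t.a t.b)) s) 0 : ℕ) : ℝ) := by
  induction h with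
  | nil => simp
  | @cons s x ts f hx hl ih =>
    obtain ⟨hm, ha, hb, h6⟩ := hx
    rw [List.map_cons, List.sum_cons, List.foldr_cons]
    have e : (Nat.add (Nat.mul (absP s.m den) (G s.a s.b))
        (ts.foldr (fun t s => Nat.add (Nat.mul (absP t.m den) (G t.a t.b)) s) 0) : ℕ) =
        absP s.m den * G s.a s.b +
          ts.foldr (fun t s => Nat.add (Nat.mul (absP t.m den) (G t.a t.b)) s) 0 := rfl
    rw [e, Nat.cast_add, Nat.cast_mul]
    have hw : ‖(den : ℂ) * x.1‖ ^ 2 < (MM : ℝ) := by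
      have h7 : ‖(den : ℂ) * x.1‖ ≤ 6 * den := by
        rw [norm_mul, Complex.norm_natCast]
        have : (den : ℝ) * ‖x.1‖ ≤ den * 6 := mul_le_mul_of_nonneg_left h6 (Nat.cast_nonneg _)
        linarith
      have h8 : ((6 : ℝ) * den) ^ 2 < (MM : ℝ) := by exact_mod_cast hM
      exact lt_of_le_of_lt (pow_le_pow_left₀ (norm_nonneg _) h7 2) h8
    have h9 := absP_spec hm hw den hden rfl
    have h10 := hFG s.a s.b
    rw [ha, hb] at h10 ⊢
    have h11 : ‖x.1‖ * 100000000 * (F x.2.1 x.2.2 * 100000000) ≤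
        (absP s.m den : ℝ) * ((G x.2.1 x.2.2 : ℕ) : ℝ) :=
      (mul_le_mul_of_nonneg_left h10 (by positivity)).trans
        (mul_le_mul_of_nonneg_right h9 (Nat.cast_nonneg _))
    have h12 : (‖x.1‖ * F x.2.1 x.2.2 + (f.map fun x => ‖x.1‖ * F x.2.1 x.2.2).sum) *
        100000000 * 100000000 = ‖x.1‖ * 100000000 * (F x.2.1 x.2.2 * 100000000) +
        (f.map fun x => ‖x.1‖ * F x.2.1 x.2.2).sum * 100000000 * 100000000 := by ring
    rw [h12]
    linarith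

theorem itV_rep {I : ItP} {f : List (ℂ × ℕ × ℕ)} (h : ItRep I f) (Q R : ℕ) (hs : szOK Q R I = true)
    (hQ : 0 < Q) (hR : 0 < R) (c d : PC) (cz dz : ℂ) (hc : CRep c cz) (hd : CRep d dz) :
    CRep (itV c d Q R I) (((itDen Q R I : ℕ) : ℂ) * pval f (cz / Q) (dz / R)) := by
  exact GenRep_fold hc hd I.A I.B I.den hQ hR h (GenRep_sz hs).2.1

theorem itV_small {I : ItP} {f : List (ℂ × ℕ × ℕ)} (h : ItRep I f) (Q R : ℕ) (hs : szOK Q R I = true)
    (hQ : 0 < Q) (hR : 0 < R) (q t : ℂ) (hq : ‖q‖ ≤ 3) (ht : ‖t‖ ≤ 3) :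
    ‖((itDen Q R I : ℕ) : ℂ) * pval f q t‖ ^ 2 < (MM : ℝ) := by
  obtain ⟨h1, h2, h3⟩ := GenRep_sz hs
  have h4 := GenRep_pval h h2 hq ht
  have h5 : ‖((itDen Q R I : ℕ) : ℂ) * pval f q t‖ ≤
      ((6 * (I.ts.length + 1) * 3 ^ (I.A + I.B)) * itDen Q R I : ℕ) := by
    rw [norm_mul, Complex.norm_natCast]
    push_cast
    have h6 : ‖pval f q t‖ ≤ 6 * ((I.ts.length : ℝ) + 1) * 3 ^ (I.A + I.B) := by
      refine h4.trans ?_
      have h7 : (0 : ℝ) ≤ 3 ^ (I.A + I.B) := by positivity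
      have h8 : 6 * (I.ts.length : ℝ) ≤ 6 * ((I.ts.length : ℝ) + 1) := by linarith
      exact mul_le_mul_of_nonneg_right h8 h7
    have h9 := mul_le_mul_of_nonneg_left h6 (Nat.cast_nonneg (α := ℝ) (itDen Q R I))
    linarith
  have h10 := pow_le_pow_left₀ (norm_nonneg _) h5 2
  refine lt_of_le_of_lt h10 ?_
  exact_mod_cast h3

theorem itAbs_spec {I : ItP} {f : List (ℂ × ℕ × ℕ)} (h : ItRep I f) (Q R : ℕ) (hs : szOK Q R I = true)
    (hQ : 0 < Q) (hR : 0 < R) (c d : PC) (cz dz : ℂ) (hc : CRep c cz) (hd : CRep d dz)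
    (hq : ‖cz / Q‖ ≤ 3) (ht : ‖dz / R‖ ≤ 3) :
    ‖pval f (cz / Q) (dz / R)‖ * 100000000 ≤ ((itAbs c d Q R I : ℕ) : ℝ) := by
  exact absP_spec (itV_rep h Q R hs hQ hR c d cz dz hc hd)
    (itV_small h Q R hs hQ hR _ _ hq ht) (itDen Q R I)
    (GenRep_denPos (GenRep_sz hs).1 hQ hR) rfl

theorem itErr_spec {I : ItP} {f : List (ℂ × ℕ × ℕ)} (h : ItRep I f) (hs : szM I = true)
    (rq rp Q R : ℕ) (hQ : 0 < Q) (hR : 0 < R) :
    perr f ((rq : ℝ) / 10000) ((rp : ℝ) / 10000) (1 / (Q : ℝ) ^ 2) (1 / (R : ℝ) ^ 2) * 100000000 ≤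
      ((itErr rq rp Q R I : ℕ) : ℝ) := by
  obtain ⟨h1, h2⟩ := GenRep_szM hs
  have h3 := GenRep_sum h1 h2 (errR ((rq : ℝ) / 10000) ((rp : ℝ) / 10000)
    (1 / (Q : ℝ) ^ 2) (1 / (R : ℝ) ^ 2)) (errUp rq rp Q R)
    (fun a b => by
      unfold errR
      exact errUp_spec rq rp Q R a b hQ hR) h
  exact GenRep_div8 h3

theorem itCr_spec {I : ItP} {f : List (ℂ × ℕ × ℕ)} (h : ItRep I f) (hs : szM I = true) (rq rp : ℕ) :
    pabs f ((rq : ℝ) / 10000) ((rp : ℝ) / 10000) * 100000000 ≤ ((itCr rq rp I : ℕ) : ℝ) := by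
  obtain ⟨h1, h2⟩ := GenRep_szM hs
  have h3 := GenRep_sum h1 h2 (fun a b => ((rq : ℝ) / 10000) ^ a * ((rp : ℝ) / 10000) ^ b)
    (monUp rq rp) (fun a b => monUp_spec rq rp a b) h
  exact GenRep_div8 h3

/-- the check of a vertex -/
theorem vtxG_spec {I : ItP} {f : List (ℂ × ℕ × ℕ)} (h : ItRep I f) (Q R : ℕ) (hs : szOK Q R I = true)
    (hQ : 0 < Q) (hR : 0 < R) (c d : PC) (cz dz : ℂ) (hc : CRep c cz) (hd : CRep d dz)
    (hq : ‖cz / Q‖ ≤ 3) (ht : ‖dz / R‖ ≤ 3) (pen tot : ℕ)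
    (hv : vtxG (itV c d Q R I) (itDen Q R I) pen tot = true) :
    (tot : ℝ) / 100000000000 < (pval f (cz / Q) (dz / R)).re - (pen : ℝ) / 100000000 := by
  have hsm := itV_small h Q R hs hQ hR _ _ hq ht
  have hrep := itV_rep h Q R hs hQ hR c d cz dz hc hd
  have hden : 0 < itDen Q R I := GenRep_denPos (GenRep_sz hs).1 hQ hR
  unfold vtxG at hv
  rw [Bool.and_eq_true, Nat.ble_eq, Nat.blt_eq] at hv
  obtain ⟨hv1, hv2⟩ := hv
  set X : PC := itV c d Q R I with hX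
  set D : ℕ := itDen Q R I with hD
  set w : ℂ := (D : ℂ) * pval f (cz / Q) (dz / R) with hw
  have hMM : (16 : ℝ) < (MM : ℝ) := by exact_mod_cast GenRep_MM
  have h4 : 4 * |w.re| < (MM : ℝ) := by
    have h5 := Complex.abs_re_le_norm w
    have h6 : ‖w‖ ^ 2 < (MM : ℝ) := hsm
    have h7 : 4 * ‖w‖ < (MM : ℝ) := by
      by_contra hcon
      rw [not_lt] at hcon
      nlinarith [norm_nonneg w]
    linarith
  have hv1' : 2 * X.re2 ≤ MM := hv1
  have h8 := hrep.re2_eq h4 hv1'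
  have hv2' : (2 * (1000 * pen + tot)) * D < X.re2 * 100000000000 := hv2
  have hv3 : ((2 : ℝ) * (1000 * pen + tot)) * D < (X.re2 : ℝ) * 100000000000 := by
    exact_mod_cast hv2'
  have h9 : w.re = D * (pval f (cz / Q) (dz / R)).re := by
    rw [hw]
    simp
  have hD' : (0 : ℝ) < D := by exact_mod_cast hden
  rw [h8, h9] at hv3
  have h10 : (1000 * (pen : ℝ) + tot) * D < ((pval f (cz / Q) (dz / R)).re * 100000000000) * D := by
    linarith
  have h11 := lt_of_mul_lt_mul_right h10 hD'.le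
  linarith

/-- weighted lists -/
def LsRep (l : List (ℕ × ItP)) (L : List (ℝ × List (ℂ × ℕ × ℕ))) : Prop :=
  List.Forall₂ (fun x y => 0 ≤ y.1 ∧ y.1 * 100000000 ≤ (x.1 : ℝ) ∧ ItRep x.2 y.2) l L

theorem wAbs_spec {l : List (ℕ × ItP)} {L : List (ℝ × List (ℂ × ℕ × ℕ))} (h : LsRep l L) (Q R : ℕ)
    (hs : l.all (fun z => szOK Q R z.2) = true) (hQ : 0 < Q) (hR : 0 < R) (c d : PC) (cz dz : ℂ)
    (hc : CRep c cz) (hd : CRep d dz) (hq : ‖cz / Q‖ ≤ 3) (ht : ‖dz / R‖ ≤ 3) (acc : ℕ) :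
    (acc : ℝ) + (L.map fun x => x.1 * ‖pval x.2 (cz / Q) (dz / R)‖).sum * 100000000 ≤
      ((wAbs c d Q R l acc : ℕ) : ℝ) := by
  unfold LsRep at h
  induction h generalizing acc with
  | nil => simp [wAbs]
  | @cons x y l L hx hl ih =>
    rw [List.all_cons, Bool.and_eq_true] at hs
    obtain ⟨h0, h1, h2⟩ := hx
    have h3 := itAbs_spec h2 Q R hs.1 hQ hR c d cz dz hc hd hq ht
    rw [List.map_cons, List.sum_cons]
    have h4 : y.1 * ‖pval y.2 (cz / Q) (dz / R)‖ * 100000000 * 100000000 ≤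
        ((Nat.mul x.1 (itAbs c d Q R x.2) : ℕ) : ℝ) := by
      rw [Nat.mul_eq, Nat.cast_mul]
      have h5 := mul_le_mul h1 h3 (by positivity) (Nat.cast_nonneg _)
      linarith
    have h6 := GenRep_step (acc := acc) h4
    have h7 := ih hs.2 (Nat.succ (Nat.add acc (Nat.div (Nat.mul x.1 (itAbs c d Q R x.2)) 100000000)))
    have h8 : wAbs c d Q R (x :: l) acc = wAbs c d Q R l
        (Nat.succ (Nat.add acc (Nat.div (Nat.mul x.1 (itAbs c d Q R x.2)) 100000000))) := rfl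
    rw [h8]
    refine le_trans ?_ h7
    rw [add_mul]
    linarith

theorem wErr_spec {l : List (ℕ × ItP)} {L : List (ℝ × List (ℂ × ℕ × ℕ))} (h : LsRep l L) (Q R : ℕ)
    (hs : l.all (fun z => szOK Q R z.2) = true) (hQ : 0 < Q) (hR : 0 < R) (rq rp acc : ℕ) :
    (acc : ℝ) + (L.map fun x => x.1 * perr x.2 ((rq : ℝ) / 10000) ((rp : ℝ) / 10000)
      (1 / (Q : ℝ) ^ 2) (1 / (R : ℝ) ^ 2)).sum * 100000000 ≤ ((wErr rq rp Q R l acc : ℕ) : ℝ) := by
  unfold LsRep at h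
  induction h generalizing acc with
  | nil => simp [wErr]
  | @cons x y l L hx hl ih =>
    rw [List.all_cons, Bool.and_eq_true] at hs
    obtain ⟨h0, h1, h2⟩ := hx
    have h3 := itErr_spec h2 (GenRep_sz hs.1).1 rq rp Q R hQ hR
    rw [List.map_cons, List.sum_cons]
    set P : ℝ := perr y.2 ((rq : ℝ) / 10000) ((rp : ℝ) / 10000) (1 / (Q : ℝ) ^ 2)
      (1 / (R : ℝ) ^ 2) with hP
    have h4 : y.1 * P * 100000000 * 100000000 ≤
        ((Nat.mul x.1 (itErr rq rp Q R x.2) : ℕ) : ℝ) := by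
      rw [Nat.mul_eq, Nat.cast_mul]
      have h5 := mul_le_mul_of_nonneg_left h3 (mul_nonneg h0 (by norm_num : (0 : ℝ) ≤ 100000000))
      have h5' := mul_le_mul_of_nonneg_right h1 (Nat.cast_nonneg (α := ℝ) (itErr rq rp Q R x.2))
      linarith
    have h6 := GenRep_step (acc := acc) h4
    have h7 := ih hs.2 (Nat.succ (Nat.add acc (Nat.div (Nat.mul x.1 (itErr rq rp Q R x.2)) 100000000)))
    have h8 : wErr rq rp Q R (x :: l) acc = wErr rq rp Q R l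
        (Nat.succ (Nat.add acc (Nat.div (Nat.mul x.1 (itErr rq rp Q R x.2)) 100000000))) := rfl
    rw [h8]
    refine le_trans ?_ h7
    rw [add_mul]
    linarith

theorem bAbs_spec {l : List (ℕ × ItP)} {L : List (ℝ × List (ℂ × ℕ × ℕ))} (h : LsRep l L) (Q R : ℕ)
    (hs : l.all (fun z => szOK Q R z.2) = true) (hQ : 0 < Q) (hR : 0 < R) (c d : PC) (cz dz : ℂ)
    (hc : CRep c cz) (hd : CRep d dz) (hq : ‖cz / Q‖ ≤ 3) (ht : ‖dz / R‖ ≤ 3) :
    List.Forall₂ (fun (x : ℕ) (y : ℝ × List (ℂ × ℕ × ℕ)) =>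
      y.1 * ‖pval y.2 (cz / Q) (dz / R)‖ * 100000000 ≤ (x : ℝ)) (bAbs c d Q R l) L := by
  unfold LsRep at h
  induction h with
  | nil => exact List.Forall₂.nil
  | @cons x y l L hx hl ih =>
    rw [List.all_cons, Bool.and_eq_true] at hs
    obtain ⟨h0, h1, h2⟩ := hx
    have h3 := itAbs_spec h2 Q R hs.1 hQ hR c d cz dz hc hd hq ht
    have h4 : y.1 * ‖pval y.2 (cz / Q) (dz / R)‖ * 100000000 * 100000000 ≤
        ((Nat.mul x.1 (itAbs c d Q R x.2) : ℕ) : ℝ) := by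
      rw [Nat.mul_eq, Nat.cast_mul]
      have h5 := mul_le_mul h1 h3 (by positivity) (Nat.cast_nonneg _)
      linarith
    exact List.Forall₂.cons (GenRep_div8 h4) (ih hs.2)

theorem bCr_spec {l : List (ℕ × ItP)} {L : List (ℝ × List (ℂ × ℕ × ℕ))} (h : LsRep l L)
    (hs : l.all (fun z => szM z.2) = true) (rq rp : ℕ) :
    List.Forall₂ (fun (x : ℕ) (y : ℝ × List (ℂ × ℕ × ℕ)) =>
      y.1 * pabs y.2 ((rq : ℝ) / 10000) ((rp : ℝ) / 10000) * 100000000 ≤ (x : ℝ)) (bCr rq rp l) L := by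
  unfold LsRep at h
  induction h with
  | nil => exact List.Forall₂.nil
  | @cons x y l L hx hl ih =>
    rw [List.all_cons, Bool.and_eq_true] at hs
    obtain ⟨h0, h1, h2⟩ := hx
    have h3 := itCr_spec h2 hs.1 rq rp
    have h4 : y.1 * pabs y.2 ((rq : ℝ) / 10000) ((rp : ℝ) / 10000) * 100000000 * 100000000 ≤
        ((Nat.mul x.1 (itCr rq rp x.2) : ℕ) : ℝ) := by
      rw [Nat.mul_eq, Nat.cast_mul]
      have h5 := mul_le_mul_of_nonneg_left h3 (mul_nonneg h0 (by norm_num : (0 : ℝ) ≤ 100000000))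
      have h5' := mul_le_mul_of_nonneg_right h1 (Nat.cast_nonneg (α := ℝ) (itCr rq rp x.2))
      linarith
    exact List.Forall₂.cons (GenRep_div8 h4) (ih hs.2)

theorem geoU_spec (r n : ℕ) (hr : r < 10000) :
    ((r : ℝ) / 10000) ^ n / (1 - (r : ℝ) / 10000) * 100000000 ≤ ((geoU r n : ℕ) : ℝ) := by
  have h1 := monUp_spec r 0 n 0
  have h2 := GenRep_div (Nat.mul (monUp r 0 n 0) 10000) (Nat.sub 10000 r) (Nat.sub_pos_of_lt hr)
  have h3 : ((Nat.mul (monUp r 0 n 0) 10000 : ℕ) : ℝ) = (monUp r 0 n 0 : ℝ) * 10000 := by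
    rw [Nat.mul_eq, Nat.cast_mul]
    norm_num
  have h4 : ((Nat.sub 10000 r : ℕ) : ℝ) = 10000 - (r : ℝ) := by
    have : (Nat.sub 10000 r : ℕ) = 10000 - r := rfl
    rw [this, Nat.cast_sub hr.le]
    norm_num
  rw [h3, h4] at h2
  have h5 : ((geoU r n : ℕ) : ℝ) =
      ((Nat.succ (Nat.div (Nat.mul (monUp r 0 n 0) 10000) (Nat.sub 10000 r)) : ℕ) : ℝ) := rfl
  rw [h5]
  refine le_trans ?_ h2
  have hr' : (0 : ℝ) < 10000 - (r : ℝ) := by
    have : (r : ℝ) < 10000 := by exact_mod_cast hr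
    linarith
  rw [pow_zero, mul_one] at h1
  have h6 : ((r : ℝ) / 10000) ^ n / (1 - (r : ℝ) / 10000) * 100000000 =
      ((r : ℝ) / 10000) ^ n * 100000000 * 10000 / (10000 - (r : ℝ)) := by
    have h7 : (1 - (r : ℝ) / 10000) = (10000 - (r : ℝ)) / 10000 := by ring
    rw [h7, div_div_eq_mul_div]
    ring
  rw [h6]
  exact div_le_div_of_nonneg_right (mul_le_mul_of_nonneg_right h1 (by norm_num)) hr'.le

end Pool.Agent.MaxTerm58
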