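import Mathlib

/-! The three corner functions at an extremal matched vertex whose two neighbours are mismatched, the right one
with the gaps `1, 2`. -/

namespace Pool.Agent.MaxTerm58

noncomputable def sA (q t r1 : ℂ) (l r : ℕ → ℂ) (z : ℂ) : ℂ :=
  z ^ (-2 : ℤ) + z ^ (-1 : ℤ) + q + q ^ 3 * t ^ 2 * z ^ 2 + r1 * (t * q ^ 2) * z +
    (∑' i : ℕ, l i * z ^ (-((i : ℤ) + 3))) + ∑' i : ℕ, r i * (q ^ (i + 4) * t ^ (i + 3)) * z ^ ((i : ℤ) + 3)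

noncomputable def sB (q t r1 : ℂ) (l r : ℕ → ℂ) (z : ℂ) : ℂ :=
  q * z ^ (-2 : ℤ) + z ^ (-1 : ℤ) + 1 + t ^ 2 * z ^ 2 + r1 * t * z +
    (∑' i : ℕ, l i * q ^ (i + 2) * z ^ (-((i : ℤ) + 3))) + ∑' i : ℕ, r i * t ^ (i + 3) * z ^ ((i : ℤ) + 3)

noncomputable def sC (q t r1 : ℂ) (l r : ℕ → ℂ) (z : ℂ) : ℂ :=
  q * t ^ 2 * z ^ (-2 : ℤ) + t * z ^ (-1 : ℤ) + 1 + z ^ 2 + r1 * z +
    (∑' i : ℕ, l i * (q ^ (i + 2) * t ^ (i + 3)) * z ^ (-((i : ℤ) + 3))) +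
    ∑' i : ℕ, r i * z ^ ((i : ℤ) + 3)

/-- common part of the hypotheses -/
structure HypS0 (q t r1 : ℂ) (l r : ℕ → ℂ) : Prop where
  q_lt : ‖q‖ + 1 / 100000 < 1
  t_le : ‖t‖ ≤ 9 / 10 * (‖q‖ + 1 / 100000)
  sl : ∀ i, ‖l i‖ ≤ ‖t‖ ^ (i + 1)
  sl0 : ‖l 0‖ ^ 2 ≤ ‖t‖ ^ 2 * ((170919 / 100000) ^ 2 - 2 - ‖t‖ ^ 2)
  sr1 : ‖r1‖ ^ 2 ≤ (170919 / 100000) ^ 2 - 2 - ‖t‖ ^ 2
  bA : ∀ z : ℂ, ‖z‖ = 1 → ‖sA q t r1 l r z‖ ≤ 170919 / 100000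
  bB : ∀ z : ℂ, ‖z‖ = 1 → ‖sB q t r1 l r z‖ ≤ 170919 / 100000
  bC : ∀ z : ℂ, ‖z‖ = 1 → ‖sC q t r1 l r z‖ ≤ 170919 / 100000

/-- the vertex `2` is matched (next unit at the position `4`) -/
structure HypSA (q t r1 : ℂ) (l r : ℕ → ℂ) : Prop extends HypS0 q t r1 l r where
  ra : ∀ i, 1 ≤ i → ‖r i‖ ≤ (‖q‖ + 1 / 100000) ^ i
  ra0 : ‖r 0‖ ^ 2 ≤ (‖q‖ + 1 / 100000) *
    ((170919 / 100000) ^ 2 - 2 - (min (‖q‖ + 1 / 100000) (11 / 20)) ^ 2)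

/-- the vertex `2` is mismatched -/
structure HypSB (q t r1 : ℂ) (l r : ℕ → ℂ) : Prop extends HypS0 q t r1 l r where
  rb : ∀ i, ‖r i‖ ^ 2 ≤ (9 / 10 * (‖q‖ + 1 / 100000)) ^ (i + 1)
  ball : ∃ u : ℕ, u ≠ 1 ∧ ∀ s : Finset ℕ, u ∉ s →
    ∑ i ∈ s, ‖r i‖ ^ 2 / (9 / 10 * (‖q‖ + 1 / 100000)) ^ (i + 1) ≤
      (170919 / 100000) ^ 2 - 2 - (min (9 / 10 * (‖q‖ + 1 / 100000)) (11 / 20)) ^ 2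

end Pool.Agent.MaxTerm58
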