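import Pool.Agent.MaxTerm59.HypIDef
import Pool.Agent.MaxTerm58.HypF3
import Pool.Agent.MaxTerm58.CellDef
import Pool.Agent.MaxTerm58.CheckTI
import Pool.Agent.MaxTerm58.Region

/-! Definitions for the averaged corner functions (type I). -/

namespace Pool.Agent.MaxTerm58

open Pool.Agent.MaxTerm59 (HypI)

/-- damping factors; `N = 0` means no damping -/
noncomputable def dmpR (N k : ℕ) : ℝ := if N = 0 then 1 else ((N - k : ℕ) : ℝ) / N

/-- main term -/
noncomputable def mainTI (L : ℤ → ℂ) (N : ℕ) (q : ℂ) : ℂ :=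
  L 0 + (dmpR N 1 : ℂ) * (L (-1) + q * L 1)

/-- coefficient of `s i` (without the damping factor) -/
noncomputable def coefTI (L : ℤ → ℂ) (q : ℂ) (i : ℕ) : ℂ :=
  L (-((i : ℤ) + 2)) + q ^ (i + 2) * L ((i : ℤ) + 2)

/-- interpolation error of the power `q ^ a` on a square with `h = 1 / Q^2` -/
noncomputable def e1 (ρ h : ℝ) (a : ℕ) : ℝ := (a : ℝ) * (a - 1) * ρ ^ (a - 2) * h

/-- interpolation error of a penalty -/
noncomputable def errTI (L : ℤ → ℂ) (ρ h sg : ℝ) (K k : ℕ) : ℝ :=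
  if k < K then sg * (‖L ((k : ℤ) + 2)‖ * e1 ρ h (k + 2))
  else ‖L (-((k : ℤ) + 2))‖ * e1 ρ h (k + 1) + ‖L ((k : ℤ) + 2)‖ * e1 ρ h (2 * k + 3)

/-- weight of a penalty -/
noncomputable def mulTI (sg y : ℝ) (K k : ℕ) : ℝ := if k < K then sg else y ^ (k + 1)

/-- no admissible point in the cell -/
def CellTI (x y Q : ℕ) : Prop :=
  ∀ q s, HypI (170919 / 100000) (1 / 100000) q s → 17 / 50 ≤ ‖q‖ →
    ¬(‖q‖ ≤ 3 / 4 ∧ InU q.re |q.im|) → InSq q x y Q → False

end Pool.Agent.MaxTerm58
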