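import Pool.Agent.MaxTerm58.NodeRep
import Pool.Agent.MaxTerm58.CellDef

/-! The main term and the check of a vertex.
Hints: `P0 ... PT` by induction on `l` with `decP_fst`, `decP_snd`, `CRep.mul`, `CRep.add`, `CRep.conj` (for `PT` use
`conj_node` and `okP_norm`); `mainP_rep` combines them with `CRep.smul`, the final equality by `field_simp; ring`;
`vtxOK_spec` from `CRep.re2_eq` (numbers below `10^60`, `MM_eq`). -/

namespace Pool.Agent.MaxTerm58

private theorem LeafA_lam_cons (x : ℂ × ℂ) (l : List (ℂ × ℂ)) (k : ℤ) :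
    lamC (x :: l) k = x.2 * x.1 ^ k + lamC l k := by
  unfold lamC
  rw [List.map_cons, List.sum_cons]

private theorem LeafA_lam_nil (k : ℤ) : lamC [] k = 0 := by
  unfold lamC
  simp

theorem P0_rep (l : List ℕ) : CRep (P0 (l.map decP)) (100000 * lamC (l.map ndC) 0) := by
  induction l with
  | nil =>
    rw [List.map_nil, List.map_nil, LeafA_lam_nil, mul_zero]
    exact CRep.zero
  | cons n l ih =>
    rw [List.map_cons, List.map_cons, LeafA_lam_cons]
    have h : CRep (P0 (decP n :: l.map decP)) (100000 * (ndC n).2 + 100000 * lamC (l.map ndC) 0) :=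
      (decP_snd n).add ih
    have e : 100000 * ((ndC n).2 * (ndC n).1 ^ (0 : ℤ) + lamC (l.map ndC) 0) =
      100000 * (ndC n).2 + 100000 * lamC (l.map ndC) 0 := by
      rw [zpow_zero]
      ring
    rw [e]
    exact h

theorem P1_rep (l : List ℕ) : CRep (P1 (l.map decP)) (3204500000 * lamC (l.map ndC) 1) := by
  induction l with
  | nil =>
    rw [List.map_nil, List.map_nil, LeafA_lam_nil, mul_zero]
    exact CRep.zero
  | cons n l ih =>
    rw [List.map_cons, List.map_cons, LeafA_lam_cons]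
    have h : CRep (P1 (decP n :: l.map decP))
        ((100000 * (ndC n).2) * (32045 * (ndC n).1) + 3204500000 * lamC (l.map ndC) 1) :=
      ((decP_snd n).mul (decP_fst n)).add ih
    have e : 3204500000 * ((ndC n).2 * (ndC n).1 ^ (1 : ℤ) + lamC (l.map ndC) 1) =
      (100000 * (ndC n).2) * (32045 * (ndC n).1) + 3204500000 * lamC (l.map ndC) 1 := by
      rw [zpow_one]
      ring
    rw [e]
    exact h

theorem P2_rep (l : List ℕ) : CRep (P2 (l.map decP)) (102688202500000 * lamC (l.map ndC) 2) := by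
  induction l with
  | nil =>
    rw [List.map_nil, List.map_nil, LeafA_lam_nil, mul_zero]
    exact CRep.zero
  | cons n l ih =>
    rw [List.map_cons, List.map_cons, LeafA_lam_cons]
    have h : CRep (P2 (decP n :: l.map decP))
        ((100000 * (ndC n).2) * ((32045 * (ndC n).1) * (32045 * (ndC n).1)) +
          102688202500000 * lamC (l.map ndC) 2) :=
      ((decP_snd n).mul ((decP_fst n).mul (decP_fst n))).add ih
    have e : 102688202500000 * ((ndC n).2 * (ndC n).1 ^ (2 : ℤ) + lamC (l.map ndC) 2) =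
      (100000 * (ndC n).2) * ((32045 * (ndC n).1) * (32045 * (ndC n).1)) +
          102688202500000 * lamC (l.map ndC) 2 := by
      have e2 : (ndC n).1 ^ (2 : ℤ) = (ndC n).1 * (ndC n).1 := by
        rw [show (2 : ℤ) = ((2 : ℕ) : ℤ) from rfl, zpow_natCast, sq]
      rw [e2]
      ring
    rw [e]
    exact h

theorem PT_rep (l : List ℕ) (h : ∀ n ∈ l, okP n = true) :
    CRep (PT (l.map decP)) (3204500000 * lamC (l.map ndC) (-1)) := by
  induction l with
  | nil =>
    rw [List.map_nil, List.map_nil, LeafA_lam_nil, mul_zero]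
    exact CRep.zero
  | cons n l ih =>
    have ih' := ih fun k hk => h k (List.mem_cons_of_mem _ hk)
    have hn := okP_norm n (h n List.mem_cons_self)
    rw [List.map_cons, List.map_cons, LeafA_lam_cons]
    have h : CRep (PT (decP n :: l.map decP))
        ((100000 * (ndC n).2) * (starRingEnd ℂ) (32045 * (ndC n).1) +
          3204500000 * lamC (l.map ndC) (-1)) :=
      ((decP_snd n).mul (decP_fst n).conj).add ih'
    have e : 3204500000 * ((ndC n).2 * (ndC n).1 ^ (-1 : ℤ) + lamC (l.map ndC) (-1)) =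
      (100000 * (ndC n).2) * (starRingEnd ℂ) (32045 * (ndC n).1) +
          3204500000 * lamC (l.map ndC) (-1) := by
      rw [map_mul, conj_node _ hn, zpow_neg_one]
      have e3 : (starRingEnd ℂ) (32045 : ℂ) = 32045 := by
        have : (32045 : ℂ) = ((32045 : ℝ) : ℂ) := by norm_num
        rw [this, Complex.conj_ofReal]
      rw [e3]
      ring
    rw [e]
    exact h

/-- the main term -/
theorem mainP_rep (la lb lc : List ℕ) (ha : ∀ n ∈ la, okP n = true) (hb : ∀ n ∈ lb, okP n = true)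
    (hc : ∀ n ∈ lc, okP n = true) (c d : PC) (cz dz : ℂ) (hcz : CRep c cz) (hdz : CRep d dz)
    (Q R : ℕ) (hQ : 0 < Q) (hR : 0 < R) :
    CRep (mainP (N0 (la.map decP) (lb.map decP) (lc.map decP)) (N1 (la.map decP) (lb.map decP))
      (N2 (lb.map decP) (lc.map decP)) (P2 (la.map decP)) (N4 (lc.map decP)) c d Q R)
      (((102688202500000 * ((Q * Q) * (R * R)) : ℕ) : ℂ) *
        mainF (lamC (la.map ndC)) (lamC (lb.map ndC)) (lamC (lc.map ndC)) (cz / Q) (dz / R)) := by
  have a0 := P0_rep la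
  have a1 := P1_rep la
  have a2 := P2_rep la
  have aT := PT_rep la ha
  have b0 := P0_rep lb
  have b1 := P1_rep lb
  have b2 := P2_rep lb
  have bT := PT_rep lb hb
  have c0 := P0_rep lc
  have c1 := P1_rep lc
  have c2 := P2_rep lc
  have cT := PT_rep lc hc
  have hN0 : CRep (N0 (la.map decP) (lb.map decP) (lc.map decP)) _ :=
    ((aT.add (b1.add c1)).smul 32045).add (((a0.add b0).smul 1026882025).add c2)
  have hN1 : CRep (N1 (la.map decP) (lb.map decP)) _ := (a1.add bT).smul 32045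
  have hN2 : CRep (N2 (lb.map decP) (lc.map decP)) _ := b2.add (c0.smul 1026882025)
  have hN4 : CRep (N4 (lc.map decP)) _ := cT.smul 32045
  have hmain := ((hN0.smul (Nat.mul (Nat.mul Q Q) (Nat.mul R R))).add
    ((hcz.mul hN1).smul (Nat.mul Q (Nat.mul R R)))).add
    (((hdz.mul hN2).smul (Nat.mul (Nat.mul Q Q) R)).add
      ((((hcz.mul hcz).mul (hdz.mul a2)).smul R).add ((hcz.mul ((hdz.mul hdz).mul hN4)).smul Q)))
  have hQ' : (Q : ℂ) ≠ 0 := by exact_mod_cast hQ.ne'
  have hR' : (R : ℂ) ≠ 0 := by exact_mod_cast hR.ne'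
  unfold mainP
  convert hmain using 1
  unfold mainF
  simp only [Nat.mul_eq]
  push_cast
  field_simp
  ring

/-- the check of a vertex -/
theorem vtxOK_spec {x : PC} {m : ℂ} (Q R v tot : ℕ) (hQ : 0 < Q) (hR : 0 < R) (hQ' : Q ≤ 4096)
    (hR' : R ≤ 4096) (hm : ‖m‖ ≤ 1000)
    (hx : CRep x (((102688202500000 * ((Q * Q) * (R * R)) : ℕ) : ℂ) * m)) (h : vtxOK x Q R v tot = true) :
    (tot : ℝ) / 100000000000 < m.re - 1001 / 1000 * ((v : ℝ) / 100000000) := by
  unfold vtxOK at h
  rw [Bool.and_eq_true] at h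
  obtain ⟨h1, h2⟩ := h
  have h1' : 2 * x.re2 ≤ MM := Nat.le_of_ble_eq_true h1
  have h2' : (2 * (1001 * v + tot)) * (102688202500000 * ((Q * Q) * (R * R))) <
      x.re2 * 100000000000 := by
    have := Nat.le_of_ble_eq_true h2
    exact this
  set T : ℕ := 102688202500000 * ((Q * Q) * (R * R)) with hT
  have hTpos : 0 < T := by positivity
  have hTle : T ≤ 102688202500000 * ((4096 * 4096) * (4096 * 4096)) := by
    rw [hT]
    gcongr
  have hTr : (0 : ℝ) < T := by exact_mod_cast hTpos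
  have hTrle : (T : ℝ) ≤ 102688202500000 * ((4096 * 4096) * (4096 * 4096)) := by exact_mod_cast hTle
  have hre : ((T : ℂ) * m).re = T * m.re := by
    have : (T : ℂ) = ((T : ℝ) : ℂ) := by norm_num
    rw [this, Complex.re_ofReal_mul]
  have habs : |m.re| ≤ 1000 := (Complex.abs_re_le_norm m).trans hm
  have hMM : (10 : ℝ) ^ 60 < (MM : ℝ) := by
    rw [MM_eq]
    push_cast
    have : (10 : ℝ) ^ 60 ≤ 2 ^ 1280 := by
      calc (10 : ℝ) ^ 60 ≤ (2 ^ 4) ^ 60 := by gcongr; norm_num
        _ = 2 ^ 240 := by rw [← pow_mul]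
        _ ≤ 2 ^ 1280 := pow_le_pow_right₀ (by norm_num) (by norm_num)
    exact lt_of_le_of_lt this (lt_add_one _)
  have h3 : 4 * |((T : ℂ) * m).re| < (MM : ℝ) := by
    rw [hre, abs_mul, abs_of_pos hTr]
    have h4 : (T : ℝ) * |m.re| ≤ (102688202500000 * ((4096 * 4096) * (4096 * 4096))) * 1000 :=
      mul_le_mul hTrle habs (abs_nonneg _) (by positivity)
    have h5 : (4 : ℝ) * ((102688202500000 * ((4096 * 4096) * (4096 * 4096))) * 1000) < 10 ^ 60 := by
      norm_num
    linarith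
  have h6 := hx.re2_eq h3 h1'
  rw [hre] at h6
  have h7 : (2 * (1001 * (v : ℝ) + tot)) * T < (x.re2 : ℝ) * 100000000000 := by
    exact_mod_cast h2'
  rw [h6] at h7
  have h8 : (1001 * (v : ℝ) + tot) * (2 * T) < (m.re * 100000000000) * (2 * T) := by
    linarith
  have h9 : 1001 * (v : ℝ) + tot < m.re * 100000000000 := lt_of_mul_lt_mul_right h8 (by positivity)
  linarith

/-- crude bound of the main term -/
theorem mainF_le (A B C : ℤ → ℂ) (hA : ∀ k, ‖A k‖ ≤ 1) (hB : ∀ k, ‖B k‖ ≤ 1) (hC : ∀ k, ‖C k‖ ≤ 1)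
    (q p : ℂ) (hq : ‖q‖ ≤ 3) (hp : ‖p‖ ≤ 3) : ‖mainF A B C q p‖ ≤ 1000 := by
  have hm : ∀ {x y : ℂ} {a b : ℝ}, ‖x‖ ≤ a → ‖y‖ ≤ b → ‖x * y‖ ≤ a * b := by
    intro x y a b hx hy
    rw [norm_mul]
    exact mul_le_mul hx hy (norm_nonneg _) ((norm_nonneg _).trans hx)
  have hs : ∀ {x y : ℂ} {a b : ℝ}, ‖x‖ ≤ a → ‖y‖ ≤ b → ‖x + y‖ ≤ a + b := fun hx hy =>
    (norm_add_le _ _).trans (add_le_add hx hy)
  have hq2 : ‖q ^ 2‖ ≤ 3 * 3 := by rw [sq]; exact hm hq hq
  have hp2 : ‖p ^ 2‖ ≤ 3 * 3 := by rw [sq]; exact hm hp hp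
  unfold mainF
  refine (hs (hs (hs (hs (hs (hA _) (hA _)) (hm hq (hA _))) (hm (hm hq2 hp) (hA _)))
    (hs (hs (hs (hm hq (hB _)) (hB _)) (hB _)) (hm hp (hB _))))
    (hs (hs (hs (hm (hm hq hp2) (hC _)) (hm hp (hC _))) (hC _)) (hC _))).trans ?_
  norm_num

end Pool.Agent.MaxTerm58
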