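import Pool.Agent.MaxTerm58.ELoop
import Pool.Agent.MaxTerm58.CellDef
import Pool.Agent.MaxTerm58.LeafA

/-! The constant part of the bound.
Hints: unfold `totF3`; two applications of `eloopP_spec` (with `MsRep.take`, `MsRep.drop`, `momsP_rep`, `momsP_length`),
`errUp_spec`, `monUp_spec`, `wsumP_spec`, `absP_spec` (`P2_rep`, `PT_rep` of `LeafA`), `Nat.lt_floor_add_one`-type bounds for
`Nat.succ (Nat.div _ _)`. The case `P < I0` : the list `drop` is empty. -/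

namespace Pool.Agent.MaxTerm58

private theorem LeafB_div (N D : ℕ) (hD : 0 < D) :
    (N : ℝ) / (D : ℝ) ≤ ((Nat.succ (Nat.div N D) : ℕ) : ℝ) := by
  have h1 : N < D * (N / D + 1) := Nat.lt_mul_div_succ N hD
  have hD' : (0 : ℝ) < D := by exact_mod_cast hD
  rw [div_le_iff₀ hD']
  have h2 : (N : ℝ) < (D : ℝ) * ((N / D : ℕ) + 1) := by exact_mod_cast h1
  have h3 : ((Nat.succ (Nat.div N D) : ℕ) : ℝ) = ((N / D : ℕ) : ℝ) + 1 := by
    push_cast
    rfl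
  rw [h3]
  linarith

private theorem LeafB_lam (l : List ℕ) (h : ∀ n ∈ l, okP n = true) (k : ℤ) :
    ‖lamC (l.map ndC) k‖ ≤ wtC (l.map ndC) := by
  induction l with
  | nil => simp [lamC, wtC]
  | cons n l ih =>
    have h1 : lamC ((n :: l).map ndC) k = (ndC n).2 * (ndC n).1 ^ k + lamC (l.map ndC) k := by
      simp [lamC]
    have h2 : wtC ((n :: l).map ndC) = ‖(ndC n).2‖ + wtC (l.map ndC) := by simp [wtC]
    rw [h1, h2]
    refine (norm_add_le _ _).trans (add_le_add ?_ (ih fun m hm => h m (List.mem_cons_of_mem _ hm)))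
    rw [norm_mul, norm_zpow, okP_norm n (h n List.mem_cons_self), one_zpow, mul_one]

private theorem LeafB_wt0 (nd : List (ℂ × ℂ)) : 0 ≤ wtC nd := by
  unfold wtC
  apply List.sum_nonneg
  intro x hx
  obtain ⟨y, _, rfl⟩ := List.mem_map.1 hx
  exact norm_nonneg _

private theorem LeafB_c0 (a : ℕ) : (0 : ℝ) ≤ (a : ℝ) * ((a : ℝ) - 1) := by
  rcases Nat.eq_zero_or_pos a with rfl | h
  · simp
  · have : (1 : ℝ) ≤ a := by exact_mod_cast h
    exact mul_nonneg (by linarith) (by linarith)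

private theorem LeafB_err0 {ρ σ hq hp : ℝ} (h1 : 0 ≤ ρ) (h2 : 0 ≤ σ) (h3 : 0 ≤ hq) (h4 : 0 ≤ hp)
    (a b : ℕ) : 0 ≤ errR ρ σ hq hp a b := by
  unfold errR
  have ha := LeafB_c0 a
  have hb := LeafB_c0 b
  exact add_nonneg (mul_nonneg (mul_nonneg (mul_nonneg ha (pow_nonneg h1 _)) h3) (pow_nonneg h2 _))
    (mul_nonneg (mul_nonneg (mul_nonneg hb (pow_nonneg h2 _)) h4) (pow_nonneg h1 _))

private theorem LeafB_small {v : ℂ} (hv : ‖v‖ ≤ 1) (d : ℕ) (hd : d ≤ 1000000000000000) :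
    ‖((d : ℕ) : ℂ) * v‖ ^ 2 < (MM : ℝ) := by
  have h1 : ‖((d : ℕ) : ℂ) * v‖ ≤ 1000000000000000 := by
    rw [norm_mul, Complex.norm_natCast]
    have : (d : ℝ) ≤ 1000000000000000 := by exact_mod_cast hd
    calc (d : ℝ) * ‖v‖ ≤ d * 1 := mul_le_mul_of_nonneg_left hv (Nat.cast_nonneg _)
      _ ≤ _ := by linarith
  have h2 : ‖((d : ℕ) : ℂ) * v‖ ^ 2 ≤ 1000000000000000 ^ 2 := pow_le_pow_left₀ (norm_nonneg _) h1 2
  have h3 : (1000000000000000 : ℝ) ^ 2 < 2 ^ 100 := by norm_num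
  have h4 : (2 : ℝ) ^ 100 ≤ 2 ^ 1280 := pow_le_pow_right₀ (by norm_num) (by norm_num)
  have h5 : (MM : ℝ) = (2 : ℝ) ^ 1280 + 1 := by
    rw [MM_eq, Nat.cast_add, Nat.cast_pow, Nat.cast_one, Nat.cast_ofNat]
  rw [h5]
  generalize (2 : ℝ) ^ 1280 = y at h4 ⊢
  linarith

/-- the constant part of the bound -/
theorem totF3_spec (la lb lc : List ℕ) (ha : ∀ n ∈ la, okP n = true) (hb : ∀ n ∈ lb, okP n = true)
    (hc : ∀ n ∈ lc, okP n = true) (hw : wtC (la.map ndC) + wtC (lb.map ndC) + wtC (lc.map ndC) ≤ 1)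
    (rq rp Q R P I0 : ℕ) (hQ : 0 < Q) (hR : 0 < R) (hP : P ≤ 33) (hrq : rq < 10000) :
    170919 / 100000 +
      1001 / 1000 * (∑ k ∈ Finset.range (min I0 P), momSum (lamC (la.map ndC)) (lamC (lb.map ndC))
        (lamC (lc.map ndC)) (errR ((rq : ℝ) / 10000) ((rp : ℝ) / 10000) (1 / (Q : ℝ) ^ 2) (1 / (R : ℝ) ^ 2)) k) +
      1001 / 1000 * (∑ k ∈ Finset.range (P - I0), momSum (lamC (la.map ndC)) (lamC (lb.map ndC))
        (lamC (lc.map ndC)) (fun a b => ((rq : ℝ) / 10000) ^ a * ((rp : ℝ) / 10000) ^ b) (I0 + k)) +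
      ((rq : ℝ) / 10000) ^ (P + 1) / (1 - (rq : ℝ) / 10000) *
        (wtC (la.map ndC) + wtC (lc.map ndC) + 2 * ((rq : ℝ) / 10000) ^ (P + 2)) +
      (‖lamC (la.map ndC) 2‖ * errR ((rq : ℝ) / 10000) ((rp : ℝ) / 10000) (1 / (Q : ℝ) ^ 2) (1 / (R : ℝ) ^ 2) 2 1 +
        ‖lamC (lc.map ndC) (-1)‖ * errR ((rq : ℝ) / 10000) ((rp : ℝ) / 10000) (1 / (Q : ℝ) ^ 2) (1 / (R : ℝ) ^ 2) 1 2) ≤
    ((totF3 (Nat.add (wsumP la) (wsumP lc)) (la.map decP) (lc.map decP) rq rp Q R P I0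
      (momsP P (initP (la.map decP)) (initP (lb.map decP)) (initP (lc.map decP))) : ℕ) : ℝ) / 100000000000 := by
  have wa := LeafB_wt0 (la.map ndC)
  have wb := LeafB_wt0 (lb.map ndC)
  have wc := LeafB_wt0 (lc.map ndC)
  have hA : ∀ k, ‖lamC (la.map ndC) k‖ ≤ 1 := fun k => (LeafB_lam la ha k).trans (by linarith)
  have hB : ∀ k, ‖lamC (lb.map ndC) k‖ ≤ 1 := fun k => (LeafB_lam lb hb k).trans (by linarith)
  have hC : ∀ k, ‖lamC (lc.map ndC) k‖ ≤ 1 := fun k => (LeafB_lam lc hc k).trans (by linarith)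
  set ms := momsP P (initP (la.map decP)) (initP (lb.map decP)) (initP (lc.map decP)) with hms
  have hrep : MsRep ms 0 (lamC (la.map ndC)) (lamC (lb.map ndC)) (lamC (lc.map ndC)) :=
    momsP_rep la lb lc ha hb hc P
  have hlen : ms.length = P := momsP_length _ _ _ _
  set A := lamC (la.map ndC) with hAdef
  set B := lamC (lb.map ndC) with hBdef
  set C := lamC (lc.map ndC) with hCdef
  set ρ : ℝ := (rq : ℝ) / 10000 with hρ
  set σ : ℝ := (rp : ℝ) / 10000 with hσ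
  have hρ0 : 0 ≤ ρ := by positivity
  have hσ0 : 0 ≤ σ := by positivity
  have hρ1 : ρ < 1 := by
    rw [hρ, div_lt_one (by norm_num)]
    exact_mod_cast hrq
  have hQ2 : (0 : ℝ) ≤ 1 / (Q : ℝ) ^ 2 := by positivity
  have hR2 : (0 : ℝ) ≤ 1 / (R : ℝ) ^ 2 := by positivity
  -- the two loops
  have E1 := eloopP_spec A B C hA hB hC (errUp rq rp Q R) (errR ρ σ (1 / (Q : ℝ) ^ 2) (1 / (R : ℝ) ^ 2))
    (LeafB_err0 hρ0 hσ0 hQ2 hR2) (fun a b => errUp_spec rq rp Q R a b hQ hR) (ms.take I0) 0 0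
    (hrep.take I0) (by rw [List.length_take, hlen]; omega)
  rw [List.length_take, hlen] at E1
  have E2 : 100000000 * (∑ k ∈ Finset.range (P - I0), momSum A B C (fun a b => ρ ^ a * σ ^ b) (I0 + k)) ≤
      ((eloopP (monUp rq rp) (ms.drop I0) I0 0 : ℕ) : ℝ) := by
    rcases Nat.lt_or_ge P I0 with h | h
    · have h1 : P - I0 = 0 := by omega
      rw [h1, Finset.range_zero, Finset.sum_empty, mul_zero]
      exact Nat.cast_nonneg _
    · have hr := hrep.drop I0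
      rw [zero_add] at hr
      have E := eloopP_spec A B C hA hB hC (monUp rq rp) (fun a b => ρ ^ a * σ ^ b)
        (fun a b => by positivity) (fun a b => monUp_spec rq rp a b) (ms.drop I0) I0 0 hr
        (by rw [List.length_drop, hlen]; omega)
      rw [List.length_drop, hlen, Nat.cast_zero, zero_add] at E
      exact E
  simp only [Nat.cast_zero, zero_add] at E1
  -- the tail
  have m1 := monUp_spec rq 0 (P + 1) 0
  have m2 := monUp_spec rq 0 (P + 2) 0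
  rw [pow_zero, mul_one] at m1 m2
  have hsub : ((Nat.sub 10000 rq : ℕ) : ℝ) = 10000 - rq := by
    rw [Nat.sub_eq, Nat.cast_sub hrq.le]
    norm_num
  have hsub0 : 0 < Nat.sub 10000 rq := Nat.sub_pos_of_lt hrq
  have d1 := LeafB_div (Nat.mul (monUp rq 0 (Nat.succ P) 0) 10000) (Nat.sub 10000 rq) hsub0
  set t1 : ℕ := Nat.succ (Nat.div (Nat.mul (monUp rq 0 (Nat.succ P) 0) 10000) (Nat.sub 10000 rq))
    with ht1
  set t2 : ℕ := Nat.succ (Nat.add (Nat.add (wsumP la) (wsumP lc))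
    (Nat.mul 2 (monUp rq 0 (Nat.add P 2) 0))) with ht2
  have b1 : ρ ^ (P + 1) / (1 - ρ) * 100000000 ≤ (t1 : ℝ) := by
    refine le_trans ?_ d1
    rw [hsub, Nat.mul_eq, Nat.cast_mul]
    have h1 : ρ ^ (P + 1) * 100000000 ≤ ((monUp rq 0 (Nat.succ P) 0 : ℕ) : ℝ) := m1
    have h2 : (0 : ℝ) < 10000 - rq := by
      have : (rq : ℝ) < 10000 := by exact_mod_cast hrq
      linarith
    have h3 : 1 - ρ = (10000 - rq) / 10000 := by
      rw [hρ]
      ring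
    rw [h3, le_div_iff₀ h2]
    have h4 : ρ ^ (P + 1) / ((10000 - (rq : ℝ)) / 10000) * 100000000 * (10000 - rq) =
        ρ ^ (P + 1) * 100000000 * 10000 := by
      field_simp
    rw [h4]
    push_cast
    exact mul_le_mul_of_nonneg_right h1 (by norm_num)
  have wA := wsumP_spec la
  have wC := wsumP_spec lc
  have b2 : (wtC (la.map ndC) + wtC (lc.map ndC) + 2 * ρ ^ (P + 2)) * 100000000 ≤ (t2 : ℝ) := by
    have h1 : ρ ^ (P + 2) * 100000000 ≤ ((monUp rq 0 (Nat.add P 2) 0 : ℕ) : ℝ) := m2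
    have h2 : (t2 : ℝ) = (wsumP la : ℝ) + (wsumP lc : ℝ) +
        2 * ((monUp rq 0 (Nat.add P 2) 0 : ℕ) : ℝ) + 1 := by
      have : t2 = wsumP la + wsumP lc + 2 * monUp rq 0 (Nat.add P 2) 0 + 1 := rfl
      rw [this]
      push_cast
      ring
    rw [h2]
    linarith
  have d2 := LeafB_div (Nat.mul t1 t2) 100000000 (by norm_num)
  have hTp : 0 ≤ ρ ^ (P + 1) / (1 - ρ) := div_nonneg (pow_nonneg hρ0 _) (by linarith)
  have hWp : 0 ≤ wtC (la.map ndC) + wtC (lc.map ndC) + 2 * ρ ^ (P + 2) := by positivity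
  have b3 : ρ ^ (P + 1) / (1 - ρ) * (wtC (la.map ndC) + wtC (lc.map ndC) + 2 * ρ ^ (P + 2)) *
      100000000 ≤ ((Nat.succ (Nat.div (Nat.mul t1 t2) 100000000) : ℕ) : ℝ) := by
    refine le_trans ?_ d2
    rw [Nat.mul_eq, Nat.cast_mul, le_div_iff₀ (by norm_num)]
    have h1 := mul_le_mul b1 b2 (by positivity) (Nat.cast_nonneg _)
    refine le_trans (le_of_eq ?_) h1
    push_cast
    ring
  -- the main term
  have hA2 : ‖A 2‖ * 100000000 ≤ ((absP (P2 (la.map decP)) 102688202500000 : ℕ) : ℝ) := by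
    have h1 := P2_rep la
    have h2 : (102688202500000 * lamC (la.map ndC) 2 : ℂ) =
        ((102688202500000 : ℕ) : ℂ) * lamC (la.map ndC) 2 := by norm_num
    refine absP_spec h1 ?_ 102688202500000 (by norm_num) h2
    rw [h2]
    exact LeafB_small (hA 2) _ (by norm_num)
  have hC1 : ‖C (-1)‖ * 100000000 ≤ ((absP (PT (lc.map decP)) 3204500000 : ℕ) : ℝ) := by
    have h1 := PT_rep lc hc
    have h2 : (3204500000 * lamC (lc.map ndC) (-1) : ℂ) =
        ((3204500000 : ℕ) : ℂ) * lamC (lc.map ndC) (-1) := by norm_num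
    refine absP_spec h1 ?_ 3204500000 (by norm_num) h2
    rw [h2]
    exact LeafB_small (hC (-1)) _ (by norm_num)
  have e21 : errR ρ σ (1 / (Q : ℝ) ^ 2) (1 / (R : ℝ) ^ 2) 2 1 * 100000000 ≤
      ((errUp rq rp Q R 2 1 : ℕ) : ℝ) := errUp_spec rq rp Q R 2 1 hQ hR
  have e12 : errR ρ σ (1 / (Q : ℝ) ^ 2) (1 / (R : ℝ) ^ 2) 1 2 * 100000000 ≤
      ((errUp rq rp Q R 1 2 : ℕ) : ℝ) := errUp_spec rq rp Q R 1 2 hQ hR
  have p21 := LeafB_err0 hρ0 hσ0 hQ2 hR2 2 1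
  have p12 := LeafB_err0 hρ0 hσ0 hQ2 hR2 1 2
  set u1 : ℕ := absP (P2 (la.map decP)) 102688202500000 with hu1
  set u2 : ℕ := absP (PT (lc.map decP)) 3204500000 with hu2
  set v1 : ℕ := errUp rq rp Q R 2 1 with hv1
  set v2 : ℕ := errUp rq rp Q R 1 2 with hv2
  have d3 := LeafB_div (Nat.add (Nat.mul u1 v1) (Nat.mul u2 v2)) 100000000 (by norm_num)
  have b4 : (‖A 2‖ * errR ρ σ (1 / (Q : ℝ) ^ 2) (1 / (R : ℝ) ^ 2) 2 1 +
      ‖C (-1)‖ * errR ρ σ (1 / (Q : ℝ) ^ 2) (1 / (R : ℝ) ^ 2) 1 2) * 100000000 ≤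
      ((Nat.succ (Nat.div (Nat.add (Nat.mul u1 v1) (Nat.mul u2 v2)) 100000000) : ℕ) : ℝ) := by
    refine le_trans ?_ d3
    have h0 : ((Nat.add (Nat.mul u1 v1) (Nat.mul u2 v2) : ℕ) : ℝ) = (u1 : ℝ) * v1 + u2 * v2 := by
      have : Nat.add (Nat.mul u1 v1) (Nat.mul u2 v2) = u1 * v1 + u2 * v2 := rfl
      rw [this]
      push_cast
      ring
    rw [h0, le_div_iff₀ (by norm_num)]
    have h1 := mul_le_mul hA2 e21 (by positivity) (Nat.cast_nonneg _)
    have h2 := mul_le_mul hC1 e12 (by positivity) (Nat.cast_nonneg _)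
    refine le_trans (le_of_eq ?_) (add_le_add h1 h2)
    push_cast
    ring
  have htot : totF3 (Nat.add (wsumP la) (wsumP lc)) (la.map decP) (lc.map decP) rq rp Q R P I0 ms =
      Nat.add (Nat.mul 1001 (Nat.add (eloopP (errUp rq rp Q R) (ms.take I0) 0 0)
        (Nat.add (eloopP (monUp rq rp) (ms.drop I0) I0 0) (Nat.succ (Nat.div (Nat.mul t1 t2) 100000000)))))
      (Nat.mul 1000 (Nat.succ (Nat.add 170919000
        (Nat.div (Nat.add (Nat.mul u1 v1) (Nat.mul u2 v2)) 100000000)))) := by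
    unfold totF3
    rfl
  rw [htot]
  generalize eloopP (errUp rq rp Q R) (ms.take I0) 0 0 = X1 at E1 ⊢
  generalize eloopP (monUp rq rp) (ms.drop I0) I0 0 = X2 at E2 ⊢
  generalize Nat.div (Nat.mul t1 t2) 100000000 = X3 at b3 ⊢
  generalize Nat.div (Nat.add (Nat.mul u1 v1) (Nat.mul u2 v2)) 100000000 = X4 at b4 ⊢
  rw [Nat.add_eq, Nat.add_eq, Nat.add_eq, Nat.add_eq, Nat.mul_eq, Nat.mul_eq, Nat.succ_eq_add_one,
    Nat.succ_eq_add_one]
  have b30 : (0 : ℝ) ≤ ρ ^ (P + 1) / (1 - ρ) *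
    (wtC (la.map ndC) + wtC (lc.map ndC) + 2 * ρ ^ (P + 2)) := mul_nonneg hTp hWp
  rw [le_div_iff₀ (by norm_num)]
  rw [Nat.succ_eq_add_one] at b3 b4
  push_cast
  push_cast at b3 b4
  clear_value u1 u2 v1 v2 t1 t2
  clear d1 d2 d3 b1 b2 hA2 hC1 e21 e12 htot hrep
  linarith

end Pool.Agent.MaxTerm58
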