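import Pool.Agent.MaxTerm58.NodeRep
import Pool.Agent.MaxTerm58.Box
import Pool.Agent.MaxTerm58.CellDef

/-! Geometry of the cells.
Hints: `rad_spec`, `exists_wts` (applied to `q * Q - ctr x y`, coordinates at most 1), `||crnR i|| = sqrt 2 < 1.4143`,
`encP_rep`; `XX = 2^640`. -/

namespace Pool.Agent.MaxTerm58

private theorem LeafC_absD (x : ℕ) : ((absD x : ℕ) : ℝ) = |(x : ℝ) - 100000| := by
  unfold absD
  rcases le_total x 100000 with h | h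
  · have h1 : Nat.add (Nat.sub x 100000) (Nat.sub 100000 x) = 100000 - x := by
      show (x - 100000) + (100000 - x) = 100000 - x
      omega
    have h2 : (x : ℝ) ≤ 100000 := by exact_mod_cast h
    rw [h1, Nat.cast_sub h, abs_of_nonpos (by linarith)]
    push_cast
    ring
  · have h1 : Nat.add (Nat.sub x 100000) (Nat.sub 100000 x) = x - 100000 := by
      show (x - 100000) + (100000 - x) = x - 100000
      omega
    have h2 : (100000 : ℝ) ≤ x := by exact_mod_cast h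
    rw [h1, Nat.cast_sub h, abs_of_nonneg (by linarith)]
    push_cast
    ring

private theorem LeafC_norm_le {z : ℂ} {a b : ℝ} (hb : 0 ≤ b) (h : z.re ^ 2 + z.im ^ 2 ≤ a)
    (hab : a ≤ b ^ 2) : ‖z‖ ≤ b := by
  have h1 : ‖z‖ ^ 2 = z.re ^ 2 + z.im ^ 2 := by
    rw [Complex.sq_norm, Complex.normSq_apply]
    ring
  nlinarith [norm_nonneg z]

private theorem LeafC_ctr_re (x y : ℕ) : (ctr x y).re = (x : ℝ) - 100000 := by
  unfold ctr
  simp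

private theorem LeafC_ctr_im (x y : ℕ) : (ctr x y).im = (y : ℝ) - 100000 := by
  unfold ctr
  simp

private theorem LeafC_floor (Q : ℕ) (hQ : 0 < Q) :
    (14143 : ℝ) / Q ≤ (((Nat.div 14143 Q) : ℕ) : ℝ) + 1 := by
  have h1 : 14143 < Q * (14143 / Q + 1) := Nat.lt_mul_div_succ 14143 hQ
  have hQ' : (0 : ℝ) < Q := by exact_mod_cast hQ
  rw [div_le_iff₀ hQ']
  have h2 : (14143 : ℝ) < (Q : ℝ) * (((14143 / Q : ℕ) : ℝ) + 1) := by exact_mod_cast h1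
  have h3 : Nat.div 14143 Q = 14143 / Q := rfl
  rw [h3]
  linarith

/-- a point at distance at most `√2/Q` from the centre -/
private theorem LeafC_near (x y Q : ℕ) (hQ : 0 < Q) (d : ℂ) (h1 : |d.re| ≤ 1) (h2 : |d.im| ≤ 1) :
    ‖(ctr x y + d) / Q‖ + 1 / 100000 ≤
      ((Nat.add (rad Q x y) (Nat.add (Nat.div 14143 Q) 2) : ℕ) : ℝ) / 10000 := by
  have hQ' : (0 : ℝ) < Q := by exact_mod_cast hQ
  have hr := rad_spec Q x y hQ
  have hd : ‖d‖ ≤ 14143 / 10000 := by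
    refine LeafC_norm_le (a := 2) (by norm_num) ?_ (by norm_num)
    have a1 : d.re ^ 2 ≤ 1 := by rw [← sq_abs]; nlinarith [abs_nonneg d.re]
    have a2 : d.im ^ 2 ≤ 1 := by rw [← sq_abs]; nlinarith [abs_nonneg d.im]
    linarith
  have h3 : ‖(ctr x y + d) / Q‖ ≤ ‖ctr x y / Q‖ + ‖d‖ / Q := by
    rw [add_div]
    refine (norm_add_le _ _).trans (le_of_eq ?_)
    rw [norm_div d, Complex.norm_natCast]
  have h4 : ‖d‖ / Q ≤ (14143 / 10000) / Q := div_le_div_of_nonneg_right hd hQ'.le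
  have h5 := LeafC_floor Q hQ
  have h6 : (14143 / 10000 : ℝ) / Q = (14143 / Q) / 10000 := by ring
  have h7 : ((Nat.add (rad Q x y) (Nat.add (Nat.div 14143 Q) 2) : ℕ) : ℝ) =
      ((rad Q x y : ℕ) : ℝ) + ((((Nat.div 14143 Q) : ℕ) : ℝ) + 2) := by
    show (((rad Q x y) + ((Nat.div 14143 Q) + 2) : ℕ) : ℝ) = _
    push_cast
    ring
  rw [h7]
  have h8 : ‖ctr x y / Q‖ * 10000 ≤ ((rad Q x y : ℕ) : ℝ) := hr
  rw [h6] at h4
  have h9 : (14143 / (Q : ℝ)) / 10000 ≤ ((((Nat.div 14143 Q) : ℕ) : ℝ) + 1) / 10000 :=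
    div_le_div_of_nonneg_right h5 (by norm_num)
  linarith

private theorem LeafC_q (x y Q : ℕ) (hQ : 0 < Q) (q : ℂ) :
    q = (ctr x y + (⟨q.re * Q - ((x : ℝ) - 100000), q.im * Q - ((y : ℝ) - 100000)⟩ : ℂ)) / Q := by
  have hQ' : (Q : ℂ) ≠ 0 := by exact_mod_cast hQ.ne'
  rw [eq_div_iff hQ']
  apply Complex.ext
  · rw [Complex.add_re, LeafC_ctr_re]
    simp
  · rw [Complex.add_im, LeafC_ctr_im]
    simp

/-- the radius of the square -/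
theorem radius_spec (x y Q : ℕ) (hQ : 0 < Q) (q : ℂ) (h : InSq q x y Q) :
    ‖q‖ + 1 / 100000 ≤ ((Nat.add (rad Q x y) (Nat.add (Nat.div 14143 Q) 2) : ℕ) : ℝ) / 10000 := by
  have h1 := LeafC_near x y Q hQ
    (⟨q.re * Q - ((x : ℝ) - 100000), q.im * Q - ((y : ℝ) - 100000)⟩ : ℂ) h.1 h.2
  rw [← LeafC_q x y Q hQ q] at h1
  exact h1

private theorem LeafC_crnR (i : Fin 4) : |(crnR i).re| ≤ 1 ∧ |(crnR i).im| ≤ 1 := by
  fin_cases i <;> simp [crnR]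

private theorem LeafC_half (x y Q : ℕ) (hQ : 0 < Q) (q : ℂ) (hq : InSq q x y Q) :
    ∃ w : Fin 4 → ℝ, (∀ i, 0 ≤ w i) ∧ ∑ i, w i = 1 ∧
      ∑ i, (w i : ℂ) * ((ctr x y + crnR i) / Q) = q ∧
      ∑ i, w i * ‖(ctr x y + crnR i) / Q - q‖ ^ 2 ≤ 2 * (1 / (Q : ℝ) ^ 2) ∧
      ∀ i, ‖(ctr x y + crnR i) / Q‖ ≤
        ((Nat.add (rad Q x y) (Nat.add (Nat.div 14143 Q) 2) : ℕ) : ℝ) / 10000 := by
  have hQ' : (0 : ℝ) < Q := by exact_mod_cast hQ
  have hQc : (Q : ℂ) ≠ 0 := by exact_mod_cast hQ.ne'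
  obtain ⟨w, w0, w1, wm, wv⟩ := exists_wts _ _ hq.1 hq.2
  have hqe := LeafC_q x y Q hQ q
  set d : ℂ := (⟨q.re * Q - ((x : ℝ) - 100000), q.im * Q - ((y : ℝ) - 100000)⟩ : ℂ) with hd
  refine ⟨w, w0, w1, ?_, ?_, fun i => ?_⟩
  · have e1 : ∀ i, (w i : ℂ) * ((ctr x y + crnR i) / Q) =
        (((w i : ℝ) : ℂ) * ctr x y + (w i : ℂ) * crnR i) / Q := fun i => by ring
    simp_rw [e1]
    rw [← Finset.sum_div, Finset.sum_add_distrib, ← Finset.sum_mul, wm, ← Complex.ofReal_sum, w1]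
    rw [Complex.ofReal_one, one_mul]
    exact hqe.symm
  · have e1 : ∀ i, (ctr x y + crnR i) / Q - q = (crnR i - d) / Q := fun i => by
      rw [hqe]
      ring
    have e2 : ∀ i, w i * ‖(ctr x y + crnR i) / Q - q‖ ^ 2 =
        w i * ‖crnR i - d‖ ^ 2 / (Q : ℝ) ^ 2 := fun i => by
      rw [e1, norm_div, Complex.norm_natCast, div_pow]
      ring
    simp_rw [e2]
    rw [← Finset.sum_div, mul_one_div]
    exact div_le_div_of_nonneg_right wv (by positivity)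
  · have h1 := LeafC_near x y Q hQ (crnR i) (LeafC_crnR i).1 (LeafC_crnR i).2
    linarith

/-- a point of a box is an average of the vertices -/
theorem boxAvg_of_mem (x y Q u v R : ℕ) (hQ : 0 < Q) (hR : 0 < R) (q p : ℂ) (hq : InSq q x y Q)
    (hp : InSq p u v R) : ∃ w w' : Fin 4 → ℝ,
    BoxAvg w w' (fun i => (ctr x y + crnR i) / Q) (fun i => (ctr u v + crnR i) / R) q p
      (((Nat.add (rad Q x y) (Nat.add (Nat.div 14143 Q) 2) : ℕ) : ℝ) / 10000)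
      (((Nat.add (rad R u v) (Nat.add (Nat.div 14143 R) 2) : ℕ) : ℝ) / 10000)
      (1 / (Q : ℝ) ^ 2) (1 / (R : ℝ) ^ 2) := by
  obtain ⟨w, w0, w1, wm, wv, wz⟩ := LeafC_half x y Q hQ q hq
  obtain ⟨w', w0', w1', wm', wv', wz'⟩ := LeafC_half u v R hR p hp
  exact ⟨w, w', ⟨w0, w1, w0', w1', wm, wm', wv, wv', wz, wz'⟩⟩

/-- facts from the side conditions -/
theorem side_spec {x y Q u v R P I0 rq : ℕ} {la lb lc : List ℕ}
    (h : sideF3 x y Q u v R P I0 rq la lb lc = true) :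
    0 < Q ∧ 0 < R ∧ Q ≤ 4096 ∧ R ≤ 4096 ∧ P ≤ 33 ∧ I0 ≤ 9 ∧
    |(x : ℝ) - 100000| + 1 ≤ 2 * Q ∧ |(y : ℝ) - 100000| + 1 ≤ 2 * Q ∧
    |(u : ℝ) - 100000| + 1 ≤ 2 * R ∧ |(v : ℝ) - 100000| + 1 ≤ 2 * R ∧ rq < 10000 ∧
    (∀ n ∈ la, okP n = true) ∧ (∀ n ∈ lb, okP n = true) ∧ (∀ n ∈ lc, okP n = true) ∧
    wtC (la.map ndC) + wtC (lb.map ndC) + wtC (lc.map ndC) ≤ 1 := by
  unfold sideF3 at h
  simp only [Bool.and_eq_true, Nat.ble_eq, List.all_eq_true] at h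
  obtain ⟨⟨⟨⟨⟨⟨⟨⟨⟨⟨⟨⟨⟨⟨h1, h2⟩, h3⟩, h4⟩, h5⟩, h6⟩, h7⟩, h8⟩, h9⟩, h10⟩, h11⟩, h12⟩, h13⟩, h14⟩, h15⟩ := h
  have key : ∀ z N : ℕ, Nat.succ (absD z) ≤ Nat.mul 2 N → |(z : ℝ) - 100000| + 1 ≤ 2 * N := by
    intro z N hz
    rw [← LeafC_absD]
    have hz' : absD z + 1 ≤ 2 * N := hz
    exact_mod_cast hz'
  refine ⟨h1, h2, h3, h4, h5, h6, key _ _ h7, key _ _ h8, key _ _ h9, key _ _ h10, h11, h12, h13,
    h14, ?_⟩
  have a1 := wsumP_spec la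
  have a2 := wsumP_spec lb
  have a3 := wsumP_spec lc
  have a4 : ((wsumP la : ℕ) : ℝ) + (((wsumP lb : ℕ) : ℝ) + ((wsumP lc : ℕ) : ℝ)) ≤ 100000000 := by
    have h16 : wsumP la + (wsumP lb + wsumP lc) ≤ 100000000 := h15
    exact_mod_cast h16
  linarith

private theorem LeafC_big (b : ℕ) (hb : b ≤ 200000) : b ≤ 100000 * XX := by
  have h1 : 2 ≤ XX := by
    rw [XX_eq]
    exact Nat.le_self_pow (by norm_num) 2
  calc b ≤ 100000 * 2 := hb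
    _ ≤ 100000 * XX := Nat.mul_le_mul_left _ h1

private theorem LeafC_one (x y Q : ℕ) (hQ : 0 < Q) (d : ℂ) (x' y' : ℕ) (hy' : y' ≤ 200000)
    (hx : |(x : ℝ) - 100000| + 1 ≤ 2 * Q) (hy : |(y : ℝ) - 100000| + 1 ≤ 2 * Q)
    (hd1 : |d.re| ≤ 1) (hd2 : |d.im| ≤ 1)
    (ex : (x' : ℝ) - 100000 = (x : ℝ) - 100000 + d.re)
    (ey : (y' : ℝ) - 100000 = (y : ℝ) - 100000 + d.im) :
    CRep (encP 100000 x' y') (ctr x y + d) ∧ ‖(ctr x y + d) / Q‖ ≤ 3 ∧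
      ‖(ctr x y + d) / Q‖ ≤ ((rad Q x' y' : ℕ) : ℝ) / 10000 := by
  have hQ' : (0 : ℝ) < Q := by exact_mod_cast hQ
  have e : ctr x y + d = (((x' : ℕ) : ℂ) - ((100000 : ℕ) : ℂ)) +
      (((y' : ℕ) : ℂ) - ((100000 : ℕ) : ℂ)) * Complex.I := by
    apply Complex.ext
    · rw [Complex.add_re, LeafC_ctr_re]
      simp
      linarith
    · rw [Complex.add_im, LeafC_ctr_im]
      simp
      linarith
  have e' : ctr x y + d = (((x' : ℕ) : ℂ) - 100000) + (((y' : ℕ) : ℂ) - 100000) * Complex.I := by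
    rw [e]
    push_cast
    ring
  refine ⟨?_, ?_, ?_⟩
  · rw [e]
    exact encP_rep 100000 x' y' (by norm_num) (LeafC_big y' hy')
  · rw [norm_div, Complex.norm_natCast, div_le_iff₀ hQ']
    refine LeafC_norm_le (a := 8 * (Q : ℝ) ^ 2) (by positivity) ?_ (by nlinarith)
    rw [Complex.add_re, LeafC_ctr_re, Complex.add_im, LeafC_ctr_im]
    have b1 : |(x : ℝ) - 100000 + d.re| ≤ 2 * Q := (abs_add_le _ _).trans (by linarith)
    have b2 : |(y : ℝ) - 100000 + d.im| ≤ 2 * Q := (abs_add_le _ _).trans (by linarith)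
    have c1 : ((x : ℝ) - 100000 + d.re) ^ 2 ≤ (2 * Q) ^ 2 := by
      rw [← sq_abs]
      exact pow_le_pow_left₀ (abs_nonneg _) b1 2
    have c2 : ((y : ℝ) - 100000 + d.im) ^ 2 ≤ (2 * Q) ^ 2 := by
      rw [← sq_abs]
      exact pow_le_pow_left₀ (abs_nonneg _) b2 2
    nlinarith
  · rw [e']
    have := rad_spec Q x' y' hQ
    linarith

/-- the vertices: the corners in `crnL` are the points `ctr x y + crnR i` -/
theorem crnL_rep (x y Q : ℕ) (hQ' : Q ≤ 4096) (hx : |(x : ℝ) - 100000| + 1 ≤ 2 * Q)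
    (hy : |(y : ℝ) - 100000| + 1 ≤ 2 * Q) (hQ : 0 < Q) (i : Fin 4) :
    ∃ cc ∈ crnL x y, CRep (encP 100000 cc.1 cc.2) (ctr x y + crnR i) ∧
      ‖(ctr x y + crnR i) / Q‖ ≤ 3 ∧ ‖(ctr x y + crnR i) / Q‖ ≤ ((rad Q cc.1 cc.2 : ℕ) : ℝ) / 10000 := by
  have hQr : (Q : ℝ) ≤ 4096 := by exact_mod_cast hQ'
  have bx := abs_le.1 (show |(x : ℝ) - 100000| ≤ 8191 by linarith)
  have by' := abs_le.1 (show |(y : ℝ) - 100000| ≤ 8191 by linarith)
  have x1 : 1 ≤ x := by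
    have : (1 : ℝ) ≤ x := by linarith [bx.1]
    exact_mod_cast this
  have y1 : 1 ≤ y := by
    have : (1 : ℝ) ≤ y := by linarith [by'.1]
    exact_mod_cast this
  have y2 : y ≤ 150000 := by
    have : (y : ℝ) ≤ 150000 := by linarith [by'.2]
    exact_mod_cast this
  have sx : ((x - 1 : ℕ) : ℝ) = x - 1 := by rw [Nat.cast_sub x1, Nat.cast_one]
  have sy : ((y - 1 : ℕ) : ℝ) = y - 1 := by rw [Nat.cast_sub y1, Nat.cast_one]
  have hc := LeafC_crnR i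
  fin_cases i
  · exact ⟨(x - 1, y - 1), by simp [crnL], LeafC_one x y Q hQ _ (x - 1) (y - 1) (by omega) hx hy
      hc.1 hc.2 (by rw [sx]; simp [crnR]; ring) (by rw [sy]; simp [crnR]; ring)⟩
  · exact ⟨(x + 1, y - 1), by simp [crnL], LeafC_one x y Q hQ _ (x + 1) (y - 1) (by omega) hx hy
      hc.1 hc.2 (by push_cast; simp [crnR]; ring) (by rw [sy]; simp [crnR]; ring)⟩
  · exact ⟨(x - 1, y + 1), by simp [crnL], LeafC_one x y Q hQ _ (x - 1) (y + 1) (by omega) hx hy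
      hc.1 hc.2 (by rw [sx]; simp [crnR]; ring) (by push_cast; simp [crnR]; ring)⟩
  · exact ⟨(x + 1, y + 1), by simp [crnL], LeafC_one x y Q hQ _ (x + 1) (y + 1) (by omega) hx hy
      hc.1 hc.2 (by push_cast; simp [crnR]; ring) (by push_cast; simp [crnR]; ring)⟩

end Pool.Agent.MaxTerm58
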