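import Pool.Agent.MaxTerm58.VLoop
import Pool.Agent.MaxTerm58.LeafA
import Pool.Agent.MaxTerm58.LeafB
import Pool.Agent.MaxTerm58.LeafC
import Pool.Agent.MaxTerm58.Dual

/-! Soundness of the check of a leaf.
Hints: `core_spec` from `crnL_rep`, `mainP_rep`, `vtxOK_spec`, `mainF_le`, `vloopP_spec` (start `i = 0`, `acc = 0`);
`||lamC|| <= 1` from `lamC_le`. `checkF3_sound`: let `Y = rho = rq/10^4`, `sigma = rp/10^4` (`radius_spec`); `f3_dual` with `P` terms,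
split the sum at `min I0 P`; the part beyond is at most `momSum` of the monomials (`pen_le_momSum`);
`box_lower` with `m` = the minimum of the sixteen values, which is `> tot / 10^11` by `core_spec`; finally `totF3_spec`. -/

namespace Pool.Agent.MaxTerm58

private theorem Leaf_nd1 {la : List ℕ} (ha : ∀ n ∈ la, okP n = true) :
    ∀ x ∈ la.map ndC, ‖x.1‖ = 1 := by
  intro x hx
  obtain ⟨n, hn, rfl⟩ := List.mem_map.1 hx
  exact okP_norm n (ha n hn)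

private theorem Leaf_wt0 (nd : List (ℂ × ℂ)) : 0 ≤ wtC nd := by
  unfold wtC
  apply List.sum_nonneg
  intro x hx
  obtain ⟨y, _, rfl⟩ := List.mem_map.1 hx
  exact norm_nonneg _

/-- the value at every vertex -/
theorem core_spec {x y Q u v R P I0 rq : ℕ} {la lb lc : List ℕ}
    (hs : sideF3 x y Q u v R P I0 rq la lb lc = true) (tot : ℕ)
    (h : coreF3 x y Q u v R (N0 (la.map decP) (lb.map decP) (lc.map decP)) (N1 (la.map decP) (lb.map decP))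
      (N2 (lb.map decP) (lc.map decP)) (P2 (la.map decP)) (N4 (lc.map decP))
      ((momsP P (initP (la.map decP)) (initP (lb.map decP)) (initP (lc.map decP))).take I0) tot = true)
    (i j : Fin 4) :
    (tot : ℝ) / 100000000000 <
      (mainF (lamC (la.map ndC)) (lamC (lb.map ndC)) (lamC (lc.map ndC)) ((ctr x y + crnR i) / Q)
        ((ctr u v + crnR j) / R)).re - 1001 / 1000 * ∑ k ∈ Finset.range (min I0 P),
        ‖(ctr x y + crnR i) / Q‖ ^ (k + 1) *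
          (‖LL (lamC (la.map ndC)) (lamC (lb.map ndC)) (lamC (lc.map ndC)) ((ctr x y + crnR i) / Q)
            ((ctr u v + crnR j) / R) k‖ +
            ‖RR (lamC (la.map ndC)) (lamC (lb.map ndC)) (lamC (lc.map ndC)) ((ctr x y + crnR i) / Q)
            ((ctr u v + crnR j) / R) k‖) := by
  obtain ⟨hQ, hR, hQ', hR', hP, hI0, hx, hy, hu, hv, hrq, hla, hlb, hlc, hw⟩ := side_spec hs
  obtain ⟨cc, hcc, hcrep, hc3, hcr⟩ := crnL_rep x y Q hQ' hx hy hQ i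
  obtain ⟨dd, hdd, hdrep, hd3, hdr⟩ := crnL_rep u v R hR' hu hv hR j
  have hA : ∀ k, ‖lamC (la.map ndC) k‖ ≤ 1 := fun k => by
    have h1 := lamC_le _ (Leaf_nd1 hla) k
    have h2 := Leaf_wt0 (lb.map ndC)
    have h3 := Leaf_wt0 (lc.map ndC)
    linarith
  have hB : ∀ k, ‖lamC (lb.map ndC) k‖ ≤ 1 := fun k => by
    have h1 := lamC_le _ (Leaf_nd1 hlb) k
    have h2 := Leaf_wt0 (la.map ndC)
    have h3 := Leaf_wt0 (lc.map ndC)
    linarith
  have hC : ∀ k, ‖lamC (lc.map ndC) k‖ ≤ 1 := fun k => by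
    have h1 := lamC_le _ (Leaf_nd1 hlc) k
    have h2 := Leaf_wt0 (la.map ndC)
    have h3 := Leaf_wt0 (lb.map ndC)
    linarith
  unfold coreF3 at h
  have h1 := List.all_eq_true.1 h cc hcc
  have h2 := List.all_eq_true.1 h1 dd hdd
  have hmain := mainP_rep la lb lc hla hlb hlc (encP 100000 cc.1 cc.2) (encP 100000 dd.1 dd.2)
    (ctr x y + crnR i) (ctr u v + crnR j) hcrep hdrep Q R hQ hR
  have hfin := vtxOK_spec Q R _ tot hQ hR hQ' hR' (mainF_le _ _ _ hA hB hC _ _ hc3 hd3) hmain h2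
  have hms := (momsP_rep la lb lc hla hlb hlc P).take I0
  have hlen : ((momsP P (initP (la.map decP)) (initP (lb.map decP)) (initP (lc.map decP))).take I0).length
      = min I0 P := by
    rw [List.length_take, momsP_length]
  have hv1 := vloopP_spec _ _ _ hA hB hC (encP 100000 cc.1 cc.2) (encP 100000 dd.1 dd.2)
    (ctr x y + crnR i) (ctr u v + crnR j) hcrep hdrep Q R (rad Q cc.1 cc.2) hQ hR hQ' hR' hc3 hd3 hcr
    _ 0 0 ((encP 100000 cc.1 cc.2).mul (encP 100000 cc.1 cc.2))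
    ((encP 100000 dd.1 dd.2).mul (encP 100000 dd.1 dd.2)) hms
    (by simpa [pow_two] using hcrep.mul hcrep) (by simpa [pow_two] using hdrep.mul hdrep)
    (by rw [hlen]; omega)
  rw [hlen] at hv1
  simp only [Nat.cast_zero, zero_add] at hv1
  linarith

/-- the penalties beyond `I0` -/
theorem pen_le_momSum (A B C : ℤ → ℂ) (q p : ℂ) (ρ σ : ℝ) (hq : ‖q‖ ≤ ρ) (hp : ‖p‖ ≤ σ) (k : ℕ) :
    ‖q‖ ^ (k + 1) * (‖LL A B C q p k‖ + ‖RR A B C q p k‖) ≤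
      momSum A B C (fun a b => ρ ^ a * σ ^ b) k := by
  have hq0 := norm_nonneg q
  have hp0 := norm_nonneg p
  have hρ : 0 ≤ ρ := hq0.trans hq
  have hσ : 0 ≤ σ := hp0.trans hp
  have key : ∀ a b : ℕ, ‖q‖ ^ a * ‖p‖ ^ b ≤ ρ ^ a * σ ^ b := fun a b =>
    mul_le_mul (pow_le_pow_left₀ hq0 hq a) (pow_le_pow_left₀ hp0 hp b) (by positivity) (by positivity)
  have h1 : ‖LL A B C q p k‖ ≤ ‖A (-((k : ℤ) + 2))‖ + ‖q‖ ^ (k + 2) * (‖B (-((k : ℤ) + 2))‖ +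
      ‖p‖ ^ (k + 3) * ‖C (-((k : ℤ) + 2))‖) := by
    unfold LL
    refine (norm_add_le _ _).trans ?_
    gcongr
    rw [norm_mul, norm_pow]
    gcongr
    refine (norm_add_le _ _).trans ?_
    rw [norm_mul, norm_pow]
  have h2 : ‖RR A B C q p k‖ ≤ ‖C ((k : ℤ) + 3)‖ + ‖p‖ ^ (k + 2) * (‖B ((k : ℤ) + 3)‖ +
      ‖q‖ ^ (k + 3) * ‖A ((k : ℤ) + 3)‖) := by
    unfold RR
    refine (norm_add_le _ _).trans ?_
    gcongr
    rw [norm_mul, norm_pow]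
    gcongr
    refine (norm_add_le _ _).trans ?_
    rw [norm_mul, norm_pow]
  have h3 : ‖q‖ ^ (k + 1) * (‖LL A B C q p k‖ + ‖RR A B C q p k‖) ≤
      ‖q‖ ^ (k + 1) * ((‖A (-((k : ℤ) + 2))‖ + ‖q‖ ^ (k + 2) * (‖B (-((k : ℤ) + 2))‖ +
      ‖p‖ ^ (k + 3) * ‖C (-((k : ℤ) + 2))‖)) + (‖C ((k : ℤ) + 3)‖ + ‖p‖ ^ (k + 2) * (‖B ((k : ℤ) + 3)‖ +
      ‖q‖ ^ (k + 3) * ‖A ((k : ℤ) + 3)‖))) := by
    gcongr
  refine h3.trans ?_
  have e : ‖q‖ ^ (k + 1) * ((‖A (-((k : ℤ) + 2))‖ + ‖q‖ ^ (k + 2) * (‖B (-((k : ℤ) + 2))‖ +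
      ‖p‖ ^ (k + 3) * ‖C (-((k : ℤ) + 2))‖)) + (‖C ((k : ℤ) + 3)‖ + ‖p‖ ^ (k + 2) * (‖B ((k : ℤ) + 3)‖ +
      ‖q‖ ^ (k + 3) * ‖A ((k : ℤ) + 3)‖))) =
      ‖A (-((k : ℤ) + 2))‖ * (‖q‖ ^ (k + 1) * ‖p‖ ^ 0) + ‖B (-((k : ℤ) + 2))‖ * (‖q‖ ^ (2 * k + 3) * ‖p‖ ^ 0) +
      ‖C (-((k : ℤ) + 2))‖ * (‖q‖ ^ (2 * k + 3) * ‖p‖ ^ (k + 3)) +
      ‖C ((k : ℤ) + 3)‖ * (‖q‖ ^ (k + 1) * ‖p‖ ^ 0) + ‖B ((k : ℤ) + 3)‖ * (‖q‖ ^ (k + 1) * ‖p‖ ^ (k + 2)) +
      ‖A ((k : ℤ) + 3)‖ * (‖q‖ ^ (2 * k + 4) * ‖p‖ ^ (k + 2)) := by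
    have e1 : ‖q‖ ^ (2 * k + 3) = ‖q‖ ^ (k + 1) * ‖q‖ ^ (k + 2) := by rw [← pow_add]; congr 1; ring
    have e2 : ‖q‖ ^ (2 * k + 4) = ‖q‖ ^ (k + 1) * ‖q‖ ^ (k + 3) := by rw [← pow_add]; congr 1; ring
    rw [e1, e2]
    ring
  rw [e]
  unfold momSum
  simp only
  gcongr

/-- soundness of the check -/
theorem checkF3_sound (x y Q u v R P I0 : ℕ) (la lb lc : List ℕ)
    (h : checkF3 x y Q u v R P I0 la lb lc = true) : CellF3 x y Q u v R := by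
  intro q p l r H hq1 hq2 hqs hps
  unfold checkF3 at h
  rw [Bool.and_eq_true] at h
  obtain ⟨hs, h⟩ := h
  unfold checkF3' at h
  obtain ⟨hQ, hR, hQ', hR', hP, hI0, hx, hy, hu, hv, hrq, hla, hlb, hlc, hw⟩ := side_spec hs
  have hradq := radius_spec x y Q hQ q hqs
  have hradp := radius_spec u v R hR p hps
  obtain ⟨w, w', hBox⟩ := boxAvg_of_mem x y Q u v R hQ hR q p hqs hps
  have hcore := core_spec hs _ h
  have htot := totF3_spec la lb lc hla hlb hlc hw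
    (Nat.add (rad Q x y) (Nat.add (Nat.div 14143 Q) 2))
    (Nat.add (rad R u v) (Nat.add (Nat.div 14143 R) 2)) Q R P I0 hQ hR hP hrq
  have hY1 : ((Nat.add (rad Q x y) (Nat.add (Nat.div 14143 Q) 2) : ℕ) : ℝ) / 10000 < 1 := by
    rw [div_lt_one (by norm_num)]
    exact_mod_cast hrq
  have hdual := f3_dual H hq1 (la.map ndC) (lb.map ndC) (lc.map ndC) (Leaf_nd1 hla) (Leaf_nd1 hlb)
    (Leaf_nd1 hlc) hw P hP _ hradq hY1
  generalize (Nat.add (rad Q x y) (Nat.add (Nat.div 14143 Q) 2)) = rq at *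
  generalize (Nat.add (rad R u v) (Nat.add (Nat.div 14143 R) 2)) = rp at *
  obtain ⟨ij, _, hmin⟩ := Finset.exists_min_image (Finset.univ : Finset (Fin 4 × Fin 4))
    (fun ij => (mainF (lamC (la.map ndC)) (lamC (lb.map ndC)) (lamC (lc.map ndC)) ((ctr x y + crnR ij.1) / Q)
        ((ctr u v + crnR ij.2) / R)).re - 1001 / 1000 * ∑ k ∈ Finset.range (min I0 P),
        ‖(ctr x y + crnR ij.1) / Q‖ ^ (k + 1) *
          (‖LL (lamC (la.map ndC)) (lamC (lb.map ndC)) (lamC (lc.map ndC)) ((ctr x y + crnR ij.1) / Q)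
            ((ctr u v + crnR ij.2) / R) k‖ +
            ‖RR (lamC (la.map ndC)) (lamC (lb.map ndC)) (lamC (lc.map ndC)) ((ctr x y + crnR ij.1) / Q)
            ((ctr u v + crnR ij.2) / R) k‖)) ⟨(0, 0), Finset.mem_univ _⟩
  have hlow := box_lower hBox (lamC (la.map ndC)) (lamC (lb.map ndC)) (lamC (lc.map ndC)) (min I0 P) _
    (fun i j => hmin (i, j) (Finset.mem_univ _))
  have hc := hcore ij.1 ij.2
  have hsplit : ∑ i ∈ Finset.range P, ‖q‖ ^ (i + 1) *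
        (‖LL (lamC (la.map ndC)) (lamC (lb.map ndC)) (lamC (lc.map ndC)) q p i‖ +
          ‖RR (lamC (la.map ndC)) (lamC (lb.map ndC)) (lamC (lc.map ndC)) q p i‖) ≤
      ∑ i ∈ Finset.range (min I0 P), ‖q‖ ^ (i + 1) *
        (‖LL (lamC (la.map ndC)) (lamC (lb.map ndC)) (lamC (lc.map ndC)) q p i‖ +
          ‖RR (lamC (la.map ndC)) (lamC (lb.map ndC)) (lamC (lc.map ndC)) q p i‖) +
      ∑ k ∈ Finset.range (P - I0), momSum (lamC (la.map ndC)) (lamC (lb.map ndC))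
        (lamC (lc.map ndC)) (fun a b => ((rq : ℝ) / 10000) ^ a * ((rp : ℝ) / 10000) ^ b) (I0 + k) := by
    rcases le_total I0 P with h1 | h1
    · rw [min_eq_left h1]
      conv_lhs => rw [show P = I0 + (P - I0) by omega]
      rw [Finset.sum_range_add]
      gcongr with k hk
      exact pen_le_momSum _ _ _ q p _ _ (by linarith) (by linarith) (I0 + k)
    · rw [min_eq_right h1, Nat.sub_eq_zero_of_le h1]
      simp

  linarith

end Pool.Agent.MaxTerm58
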