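import Pool.Agent.MaxTerm58.WtS
import Pool.Agent.MaxTerm58.GenBall

/-! Soundness of the check of a leaf of the family S. Hints: model `Leaf.lean` (`core_spec`, `checkF3_sound`), `crnL_rep`,
`boxAvg_of_mem`, `radius_spec`. With `A = lamC (la.map ndC)`, ...: the polynomials are `f0 = f0S A B C`; the vertex list
`L1 = ((range nL).map (wLS .., fLS i)) ++ [(sT, fR1S)]`; `R1 = (range nR).map (kapR .., fRS (expR md i) i)` (families SA, SB
without ball), or `(c i * kapR .., fRS ..)` for the ball. `gen_box` with the list `L1 ++ R1`, and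
`m = tot / 10^11` (box), `m = tot / 10^11 + sum_{nR <= i < PR} c i * (crude bound i)` (ball). Then the dual inequality
`s_dual_A` / `s_dual_B`, `pval_le_pabs` with `rho = rqc / 10^4`, `sigma = rpc / 10^4` for the crude terms, `geoU_spec`. -/

namespace Pool.Agent.MaxTerm58

def CellSA (x y Q u v R : ℕ) : Prop :=
  ∀ q t r1 l r, HypSA q t r1 l r → 17 / 50 ≤ ‖q‖ → ‖q‖ ≤ 3 / 4 → InSq q x y Q → InSq t u v R → False

def CellSB (x y Q u v R : ℕ) : Prop :=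
  ∀ q t r1 l r, HypSB q t r1 l r → 17 / 50 ≤ ‖q‖ → ‖q‖ ≤ 3 / 4 → InSq q x y Q → InSq t u v R → False

private theorem LeafS_sum (n : ℕ) (f : ℕ → ℝ) :
    ((List.range n).map f).sum = ∑ i ∈ Finset.range n, f i := by
  induction n with
  | zero => simp
  | succ n ih =>
    rw [List.range_succ, List.map_append, List.sum_append, ih, Finset.sum_range_succ]
    simp

private theorem LeafS_sum2 (n : ℕ) (κ : ℕ → ℝ) (f : ℕ → List (ℂ × ℕ × ℕ)) (F : List (ℂ × ℕ × ℕ) → ℝ) :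
    (((List.range n).map fun k => (κ k, f k)).map fun x => x.1 * F x.2).sum =
      ∑ i ∈ Finset.range n, κ i * F (f i) := by
  rw [List.map_map, ← LeafS_sum]
  rfl

private theorem LeafS_vtx {x y Q u v R md nu scr mcr tot : ℕ} {M : ItP} {LL RR : List (ℕ × ItP)}
    (hQ : 0 < Q) (hR : 0 < R) (hQ' : Q ≤ 4096) (hR' : R ≤ 4096)
    (hx : |(x : ℝ) - 100000| + 1 ≤ 2 * Q) (hy : |(y : ℝ) - 100000| + 1 ≤ 2 * Q)
    (hu : |(u : ℝ) - 100000| + 1 ≤ 2 * R) (hv : |(v : ℝ) - 100000| + 1 ≤ 2 * R)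
    (h : coreS x y Q u v R md nu scr mcr M LL RR tot = true) (i j : Fin 4) :
    ∃ c d : PC, CRep c (ctr x y + crnR i) ∧ CRep d (ctr u v + crnR j) ∧
      ‖(ctr x y + crnR i) / Q‖ ≤ 3 ∧ ‖(ctr u v + crnR j) / R‖ ≤ 3 ∧
      vtxG (itV c d Q R M) (itDen Q R M) (penS md nu scr mcr c d Q R LL RR) tot = true := by
  obtain ⟨cc, hcc, hcrep, hc3, -⟩ := crnL_rep x y Q hQ' hx hy hQ i
  obtain ⟨dd, hdd, hdrep, hd3, -⟩ := crnL_rep u v R hR' hu hv hR j
  unfold coreS at h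
  exact ⟨_, _, hcrep, hdrep, hc3, hd3, List.all_eq_true.1 (List.all_eq_true.1 h cc hcc) dd hdd⟩

private theorem LeafS_beq {m n : ℕ} (h : m ≠ n) : Nat.beq m n = false := by
  cases hc : Nat.beq m n
  · rfl
  · exact absurd (Nat.eq_of_beq_eq_true hc) h

private theorem LeafS_box {x y Q u v R md nu scr mcr tot : ℕ} {M : ItP} {LL RR : List (ℕ × ItP)}
    {f0 : List (ℂ × ℕ × ℕ)} {L1 R1 : List (ℝ × List (ℂ × ℕ × ℕ))}
    (hQ : 0 < Q) (hR : 0 < R) (hQ' : Q ≤ 4096) (hR' : R ≤ 4096)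
    (hx : |(x : ℝ) - 100000| + 1 ≤ 2 * Q) (hy : |(y : ℝ) - 100000| + 1 ≤ 2 * Q)
    (hu : |(u : ℝ) - 100000| + 1 ≤ 2 * R) (hv : |(v : ℝ) - 100000| + 1 ≤ 2 * R)
    (h0 : ItRep M f0) (h1 : LsRep LL L1) (h2 : LsRep RR R1) (hs0 : szOK Q R M = true)
    (hs1 : LL.all (fun z => szOK Q R z.2) = true) (hs2 : RR.all (fun z => szOK Q R z.2) = true)
    (hmd : md ≠ 2) (h : coreS x y Q u v R md nu scr mcr M LL RR tot = true) (i j : Fin 4) :
    (tot : ℝ) / 100000000000 < (pval f0 ((ctr x y + crnR i) / Q) ((ctr u v + crnR j) / R)).re -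
      ((L1 ++ R1).map fun z => z.1 * ‖pval z.2 ((ctr x y + crnR i) / Q) ((ctr u v + crnR j) / R)‖).sum := by
  obtain ⟨c, d, hc, hd, hc3, hd3, hvx⟩ := LeafS_vtx hQ hR hQ' hR' hx hy hu hv h i j
  have h3 := vtxG_spec h0 Q R hs0 hQ hR c d _ _ hc hd hc3 hd3 _ _ hvx
  have h4 := wAbs_spec h1 Q R hs1 hQ hR c d _ _ hc hd hc3 hd3 0
  have h5 := wAbs_spec h2 Q R hs2 hQ hR c d _ _ hc hd hc3 hd3 0
  have hpen : penS md nu scr mcr c d Q R LL RR = wAbs c d Q R LL 0 + wAbs c d Q R RR 0 := by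
    unfold penS
    rw [LeafS_beq hmd]
    rfl
  rw [hpen] at h3
  push_cast at h3 h4 h5
  rw [List.map_append, List.sum_append]
  linarith

/-- the vertices, without the ball -/
theorem coreS_box {x y Q u v R md nu scr mcr tot : ℕ} {M : ItP} {LL RR : List (ℕ × ItP)}
    {f0 : List (ℂ × ℕ × ℕ)} {L1 R1 : List (ℝ × List (ℂ × ℕ × ℕ))}
    (hQ : 0 < Q) (hR : 0 < R) (hQ' : Q ≤ 4096) (hR' : R ≤ 4096)
    (hx : |(x : ℝ) - 100000| + 1 ≤ 2 * Q) (hy : |(y : ℝ) - 100000| + 1 ≤ 2 * Q)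
    (hu : |(u : ℝ) - 100000| + 1 ≤ 2 * R) (hv : |(v : ℝ) - 100000| + 1 ≤ 2 * R)
    (h0 : ItRep M f0) (h1 : LsRep LL L1) (h2 : LsRep RR R1) (hs0 : szOK Q R M = true)
    (hs1 : LL.all (fun z => szOK Q R z.2) = true) (hs2 : RR.all (fun z => szOK Q R z.2) = true)
    (hmd : md ≠ 2) (h : coreS x y Q u v R md nu scr mcr M LL RR tot = true) (i j : Fin 4) :
    (tot : ℝ) / 100000000000 ≤ (pval f0 ((ctr x y + crnR i) / Q) ((ctr u v + crnR j) / R)).re -
      ((L1 ++ R1).map fun z => z.1 * ‖pval z.2 ((ctr x y + crnR i) / Q) ((ctr u v + crnR j) / R)‖).sum :=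
  (LeafS_box hQ hR hQ' hR' hx hy hu hv h0 h1 h2 hs0 hs1 hs2 hmd h i j).le

private theorem LeafS_ball {x y Q u v R nu tot nR : ℕ} {M : ItP} {LL RR : List (ℕ × ItP)} {cr : List ℕ}
    {f0 : List (ℂ × ℕ × ℕ)} {L1 : List (ℝ × List (ℂ × ℕ × ℕ))} {κ : ℕ → ℝ} {fR : ℕ → List (ℂ × ℕ × ℕ)}
    (hQ : 0 < Q) (hR : 0 < R) (hQ' : Q ≤ 4096) (hR' : R ≤ 4096)
    (hx : |(x : ℝ) - 100000| + 1 ≤ 2 * Q) (hy : |(y : ℝ) - 100000| + 1 ≤ 2 * Q)
    (hu : |(u : ℝ) - 100000| + 1 ≤ 2 * R) (hv : |(v : ℝ) - 100000| + 1 ≤ 2 * R)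
    (h0 : ItRep M f0) (h1 : LsRep LL L1)
    (h2 : LsRep RR ((List.range nR).map fun k => (κ k, fR k))) (hs0 : szOK Q R M = true)
    (hs1 : LL.all (fun z => szOK Q R z.2) = true) (hs2 : RR.all (fun z => szOK Q R z.2) = true)
    (h : coreS x y Q u v R 2 nu (sqSum cr) (maxL cr) M LL RR tot = true) (c : ℕ → ℝ)
    (hc0 : ∀ i, 0 ≤ c i) (hc1 : ∀ i, c i ≤ 1) (u0 : ℕ) (hu0 : u0 ≠ 1)
    (hball : ∀ s : Finset ℕ, u0 ∉ s → ∑ i ∈ s, c i ^ 2 ≤ ((nu : ℝ) / 100000000) ^ 2)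
    (β : ℕ → ℝ) (hβ0 : ∀ i, 0 ≤ β i)
    (hβ : ∀ i (hi : i < cr.length), β (nR + i) * 100000000 ≤ ((cr[i] : ℕ) : ℝ)) (i j : Fin 4) :
    (tot : ℝ) / 100000000000 + ∑ k ∈ Finset.range cr.length, c (nR + k) * β (nR + k) <
      (pval f0 ((ctr x y + crnR i) / Q) ((ctr u v + crnR j) / R)).re -
      ((L1 ++ (List.range nR).map fun k => (c k * κ k, fR k)).map fun z =>
        z.1 * ‖pval z.2 ((ctr x y + crnR i) / Q) ((ctr u v + crnR j) / R)‖).sum := by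
  obtain ⟨cp, dp, hc, hd, hc3, hd3, hvx⟩ := LeafS_vtx hQ hR hQ' hR' hx hy hu hv h i j
  have h3 := vtxG_spec h0 Q R hs0 hQ hR cp dp _ _ hc hd hc3 hd3 _ _ hvx
  have h4 := wAbs_spec h1 Q R hs1 hQ hR cp dp _ _ hc hd hc3 hd3 0
  have h5 := bAbs_spec h2 Q R hs2 hQ hR cp dp _ _ hc hd hc3 hd3
  have hpen : penS 2 nu (sqSum cr) (maxL cr) cp dp Q R LL RR =
      wAbs cp dp Q R LL 0 + ballP nu (sqSum cr) (maxL cr) (bAbs cp dp Q R RR) := rfl
  rw [hpen] at h3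
  generalize (ctr x y + crnR i) / (Q : ℂ) = z at *
  generalize (ctr u v + crnR j) / (R : ℂ) = y' at *
  obtain ⟨hlen, h6⟩ := List.forall₂_iff_get.1 h5
  obtain ⟨-, h7⟩ := List.forall₂_iff_get.1 h2
  have hlenR : RR.length = nR := by
    have := List.Forall₂.length_eq h2
    simpa using this
  rw [List.length_map, List.length_range] at hlen
  have hκ0 : ∀ k, k < nR → 0 ≤ κ k := by
    intro k hk
    have := (h7 k (by rw [hlenR]; exact hk) (by simpa using hk)).1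
    simpa using this
  have h8 := ballP_spec nu (bAbs cp dp Q R RR) cr c
    (fun k => if k < nR then κ k * ‖pval (fR k) z y'‖ else β k) hc0 hc1 u0 hu0 hball
    (fun k => by
      split_ifs with hk
      · exact mul_nonneg (hκ0 k hk) (norm_nonneg _)
      · exact hβ0 k)
    (fun k hk => by
      have hk' : k < nR := by rw [← hlen]; exact hk
      have := h6 k hk (by simpa using hk')
      simp only [List.get_eq_getElem, List.getElem_map, List.getElem_range] at this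
      simp only [hk', if_true]
      exact this)
    (fun k hk => by
      have hk' : ¬ ((bAbs cp dp Q R RR).length + k < nR) := by rw [hlen]; omega
      simp only [hk', if_false]
      rw [hlen]
      exact hβ k hk)
  rw [hlen, Finset.sum_range_add] at h8
  have e1 : ∑ k ∈ Finset.range nR, c k * (if k < nR then κ k * ‖pval (fR k) z y'‖ else β k) =
      ∑ k ∈ Finset.range nR, (c k * κ k) * ‖pval (fR k) z y'‖ := by
    refine Finset.sum_congr rfl fun k hk => ?_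
    rw [if_pos (Finset.mem_range.1 hk), mul_assoc]
  have e2 : ∑ k ∈ Finset.range cr.length, c (nR + k) *
      (if nR + k < nR then κ (nR + k) * ‖pval (fR (nR + k)) z y'‖ else β (nR + k)) =
      ∑ k ∈ Finset.range cr.length, c (nR + k) * β (nR + k) := by
    refine Finset.sum_congr rfl fun k _ => ?_
    rw [if_neg (by omega)]
  rw [e1, e2] at h8
  push_cast at h3 h4
  rw [List.map_append, List.sum_append,
    LeafS_sum2 nR (fun k => c k * κ k) fR (fun f => ‖pval f z y'‖)]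
  linarith

/-- the vertices, with the ball -/
theorem coreS_ball {x y Q u v R nu tot nR : ℕ} {M : ItP} {LL RR : List (ℕ × ItP)} {cr : List ℕ}
    {f0 : List (ℂ × ℕ × ℕ)} {L1 : List (ℝ × List (ℂ × ℕ × ℕ))} {κ : ℕ → ℝ} {fR : ℕ → List (ℂ × ℕ × ℕ)}
    (hQ : 0 < Q) (hR : 0 < R) (hQ' : Q ≤ 4096) (hR' : R ≤ 4096)
    (hx : |(x : ℝ) - 100000| + 1 ≤ 2 * Q) (hy : |(y : ℝ) - 100000| + 1 ≤ 2 * Q)
    (hu : |(u : ℝ) - 100000| + 1 ≤ 2 * R) (hv : |(v : ℝ) - 100000| + 1 ≤ 2 * R)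
    (h0 : ItRep M f0) (h1 : LsRep LL L1)
    (h2 : LsRep RR ((List.range nR).map fun k => (κ k, fR k))) (hs0 : szOK Q R M = true)
    (hs1 : LL.all (fun z => szOK Q R z.2) = true) (hs2 : RR.all (fun z => szOK Q R z.2) = true)
    (h : coreS x y Q u v R 2 nu (sqSum cr) (maxL cr) M LL RR tot = true) (c : ℕ → ℝ)
    (hc0 : ∀ i, 0 ≤ c i) (hc1 : ∀ i, c i ≤ 1) (u0 : ℕ) (hu0 : u0 ≠ 1)
    (hball : ∀ s : Finset ℕ, u0 ∉ s → ∑ i ∈ s, c i ^ 2 ≤ ((nu : ℝ) / 100000000) ^ 2)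
    (β : ℕ → ℝ) (hβ0 : ∀ i, 0 ≤ β i)
    (hβ : ∀ i (hi : i < cr.length), β (nR + i) * 100000000 ≤ ((cr[i] : ℕ) : ℝ)) (i j : Fin 4) :
    (tot : ℝ) / 100000000000 + ∑ k ∈ Finset.range cr.length, c (nR + k) * β (nR + k) ≤
      (pval f0 ((ctr x y + crnR i) / Q) ((ctr u v + crnR j) / R)).re -
      ((L1 ++ (List.range nR).map fun k => (c k * κ k, fR k)).map fun z =>
        z.1 * ‖pval z.2 ((ctr x y + crnR i) / Q) ((ctr u v + crnR j) / R)‖).sum :=
  (LeafS_ball hQ hR hQ' hR' hx hy hu hv h0 h1 h2 hs0 hs1 hs2 h c hc0 hc1 u0 hu0 hball β hβ0 hβ i j).le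

/-- strict version of `gen_box` -/
private theorem LeafS_fin {w w' : Fin 4 → ℝ} {z y : Fin 4 → ℂ} {q t : ℂ} {ρ σ h k : ℝ}
    (H : BoxAvg w w' z y q t ρ σ h k) (hh : 0 ≤ h) (hk : 0 ≤ k) (f0 : List (ℂ × ℕ × ℕ))
    (L1 : List (ℝ × List (ℂ × ℕ × ℕ))) (hL1 : ∀ x ∈ L1, 0 ≤ x.1) (nR : ℕ) (ω κ : ℕ → ℝ)
    (fR : ℕ → List (ℂ × ℕ × ℕ)) (hω : ∀ i, 0 ≤ ω i) (hκ : ∀ i, ω i ≤ κ i) (τ : ℝ)
    (hv : ∀ i j, τ < (pval f0 (z i) (y j)).re -
      ((L1 ++ (List.range nR).map fun k => (ω k, fR k)).map fun x => x.1 * ‖pval x.2 (z i) (y j)‖).sum) :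
    τ < (pval f0 q t).re - ((L1.map fun x => x.1 * ‖pval x.2 q t‖).sum +
        ∑ i ∈ Finset.range nR, ω i * ‖pval (fR i) q t‖) + perr f0 ρ σ h k +
      ((L1.map fun x => x.1 * perr x.2 ρ σ h k).sum +
        ∑ i ∈ Finset.range nR, κ i * perr (fR i) ρ σ h k) := by
  have hρ : 0 ≤ ρ := (norm_nonneg _).trans (H.hz 0)
  have hσ : 0 ≤ σ := (norm_nonneg _).trans (H.hy 0)
  obtain ⟨ij, _, hmin⟩ := Finset.exists_min_image (Finset.univ : Finset (Fin 4 × Fin 4))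
    (fun ij => (pval f0 (z ij.1) (y ij.2)).re -
      ((L1 ++ (List.range nR).map fun k => (ω k, fR k)).map fun x =>
        x.1 * ‖pval x.2 (z ij.1) (y ij.2)‖).sum) ⟨(0, 0), Finset.mem_univ _⟩
  have hL : ∀ x ∈ L1 ++ (List.range nR).map fun k => (ω k, fR k), 0 ≤ x.1 := by
    intro x hx
    rcases List.mem_append.1 hx with hx | hx
    · exact hL1 x hx
    · obtain ⟨k, -, rfl⟩ := List.mem_map.1 hx
      exact hω k
  have h1 := gen_box H f0 _ hL _ (fun i j => hmin (i, j) (Finset.mem_univ _))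
  have h2 := hv ij.1 ij.2
  have a1 : ((L1 ++ (List.range nR).map fun k => (ω k, fR k)).map fun x => x.1 * ‖pval x.2 q t‖).sum =
      (L1.map fun x => x.1 * ‖pval x.2 q t‖).sum + ∑ i ∈ Finset.range nR, ω i * ‖pval (fR i) q t‖ := by
    rw [List.map_append, List.sum_append, LeafS_sum2 nR ω fR (fun f => ‖pval f q t‖)]
  have a2 : ((L1 ++ (List.range nR).map fun k => (ω k, fR k)).map fun x =>
      x.1 * perr x.2 ρ σ h k).sum =
      (L1.map fun x => x.1 * perr x.2 ρ σ h k).sum +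
        ∑ i ∈ Finset.range nR, ω i * perr (fR i) ρ σ h k := by
    rw [List.map_append, List.sum_append, LeafS_sum2 nR ω fR (fun f => perr f ρ σ h k)]
  rw [a1, a2] at h1
  have h3 : ∑ i ∈ Finset.range nR, ω i * perr (fR i) ρ σ h k ≤
      ∑ i ∈ Finset.range nR, κ i * perr (fR i) ρ σ h k :=
    Finset.sum_le_sum fun i _ => mul_le_mul_of_nonneg_right (hκ i) (perr_nonneg _ _ _ _ _ hρ hσ hh hk)
  linarith

private theorem LeafS_pabs0 (f : List (ℂ × ℕ × ℕ)) (ρ σ : ℝ) (hρ : 0 ≤ ρ) (hσ : 0 ≤ σ) :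
    0 ≤ pabs f ρ σ := by
  unfold pabs
  apply List.sum_nonneg
  intro x hx
  obtain ⟨y, -, rfl⟩ := List.mem_map.1 hx
  positivity

private theorem LeafS_sumL {l : List ℕ} {L : List (ℝ × List (ℂ × ℕ × ℕ))} {F : List (ℂ × ℕ × ℕ) → ℝ}
    (h : List.Forall₂ (fun (x : ℕ) (y : ℝ × List (ℂ × ℕ × ℕ)) => y.1 * F y.2 * 100000000 ≤ (x : ℝ)) l L) :
    (L.map fun y => y.1 * F y.2).sum * 100000000 ≤ ((sumL l : ℕ) : ℝ) := by
  induction h with
  | nil => simp [sumL]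
  | @cons a b l L hab _ ih =>
    have e : sumL (a :: l) = a + sumL l := rfl
    rw [e, List.map_cons, List.sum_cons]
    push_cast
    linarith

/-- the terms beyond the vertex list -/
private theorem LeafS_crude {l : List (ℕ × ItP)} {κ : ℕ → ℝ} {f : ℕ → List (ℂ × ℕ × ℕ)} {n0 n : ℕ}
    (h : LsRep l ((List.range n).map fun k => (κ (n0 + k), f (n0 + k))))
    (hs : l.all (fun z => szM z.2) = true) (rq rp : ℕ) (hκ : ∀ i, 0 ≤ κ i) (q t : ℂ)
    (hq : ‖q‖ ≤ (rq : ℝ) / 10000) (ht : ‖t‖ ≤ (rp : ℝ) / 10000) :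
    ∑ k ∈ Finset.range n, κ (n0 + k) * ‖pval (f (n0 + k)) q t‖ ≤
      ((sumL (bCr rq rp l) : ℕ) : ℝ) / 100000000 := by
  have h1 := LeafS_sumL (F := fun f => pabs f ((rq : ℝ) / 10000) ((rp : ℝ) / 10000)) (bCr_spec h hs rq rp)
  rw [LeafS_sum2 n (fun k => κ (n0 + k)) (fun k => f (n0 + k))
    (fun f => pabs f ((rq : ℝ) / 10000) ((rp : ℝ) / 10000))] at h1
  rw [le_div_iff₀ (by norm_num)]
  refine le_trans ?_ h1
  refine mul_le_mul_of_nonneg_right ?_ (by norm_num)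
  exact Finset.sum_le_sum fun k _ => mul_le_mul_of_nonneg_left (pval_le_pabs _ _ _ _ _ hq ht) (hκ _)

private theorem LeafS_app {l l' : List (ℕ × ItP)} {L L' : List (ℝ × List (ℂ × ℕ × ℕ))} (h : LsRep l L)
    (h' : LsRep l' L') : LsRep (l ++ l') (L ++ L') := by
  unfold LsRep at *
  induction h with
  | nil => simpa using h'
  | cons hab _ ih => exact List.Forall₂.cons hab ih

private theorem LeafS_nd1 {la : List ℕ} (ha : ∀ n ∈ la, okP n = true) :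
    ∀ x ∈ la.map ndC, ‖x.1‖ = 1 := by
  intro x hx
  obtain ⟨n, hn, rfl⟩ := List.mem_map.1 hx
  exact okP_norm n (ha n hn)

private theorem LeafS_wt0 (nd : List (ℂ × ℂ)) : 0 ≤ wtC nd := by
  unfold wtC
  apply List.sum_nonneg
  intro x hx
  obtain ⟨y, _, rfl⟩ := List.mem_map.1 hx
  exact norm_nonneg _

private theorem LeafS_le1 {la lb lc : List ℕ} (ha : ∀ n ∈ la, okP n = true)
    (hw : wtC (la.map ndC) + wtC (lb.map ndC) + wtC (lc.map ndC) ≤ 1) (k : ℤ) :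
    ‖lamC (la.map ndC) k‖ ≤ 1 := by
  have h1 := lamC_le _ (LeafS_nd1 ha) k
  have h2 := LeafS_wt0 (lb.map ndC)
  have h3 := LeafS_wt0 (lc.map ndC)
  linarith

private theorem LeafS_setup {x y Q u v R md P nL nR PL PR : ℕ} {la lb lc : List ℕ}
    (h : checkS x y Q u v R md P nL nR PL PR la lb lc = true) (A B C : ℤ → ℂ)
    (eA : A = lamC (la.map ndC)) (eB : B = lamC (lb.map ndC)) (eC : C = lamC (lc.map ndC))
    (rq rp rqc rpc sT c3 sb nu : ℕ) (e1 : rq = radS Q x y) (e2 : rp = radS R u v)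
    (e3 : rqc = minN rq 7502) (e4 : rpc = minN rp 6752) (e5 : sT = sigI R u v) (e6 : c3 = c3U rqc)
    (e7 : sb = sbU rqc) (e8 : nu = nuU Q x y) :
    sideS x y Q u v R md P nL nR PL PR rqc la lb lc = true ∧
    ∃ (M : ItP) (LL RR LC RC : List (ℕ × ItP)), ItRep M (f0S A B C) ∧
      LsRep LL (((List.range nL).map fun k => (wLS ((sT : ℝ) / 100000000) k, fLS A B C k)) ++
        [((sT : ℝ) / 100000000, fR1S A B C)]) ∧
      LsRep RR ((List.range nR).map fun k => (kapR md c3 sb k, fRS A B C (expR md k) k)) ∧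
      LsRep LC ((List.range (PL - nL)).map fun k =>
        (wLS ((sT : ℝ) / 100000000) (nL + k), fLS A B C (nL + k))) ∧
      LsRep RC ((List.range (PR - nR)).map fun k =>
        (kapR md c3 sb (nR + k), fRS A B C (expR md (nR + k)) (nR + k))) ∧
      szOK Q R M = true ∧ LL.all (fun z => szOK Q R z.2) = true ∧
      RR.all (fun z => szOK Q R z.2) = true ∧ LC.all (fun z => szM z.2) = true ∧
      RC.all (fun z => szM z.2) = true ∧
      coreS x y Q u v R md nu (sqSum (bCr rqc rpc RC)) (maxL (bCr rqc rpc RC)) M LL RR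
        (totS md rq rp rqc rpc Q R PL PR M LL RR (bCr rqc rpc LC) (bCr rqc rpc RC)) = true := by
  unfold checkS at h
  rw [Bool.and_eq_true] at h
  obtain ⟨hs, h⟩ := h
  rw [← e1, ← e2, ← e3, ← e4, ← e5, ← e6, ← e7, ← e8] at h
  rw [← e1, ← e3] at hs
  refine ⟨hs, ?_⟩
  obtain ⟨hQ, hR, hQ', hR', hP, hPL, hPR, hnL, hnR, h1PR, hmd, hx, hy, hu, hv, hsq, hla, hlb, hlc, hw⟩ :=
    sideS_spec hs
  have hA : ∀ k, ‖A k‖ ≤ 1 := fun k => by rw [eA]; exact LeafS_le1 hla hw k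
  have hB : ∀ k, ‖B k‖ ≤ 1 := fun k => by
    rw [eB]
    exact LeafS_le1 (lb := la) (lc := lc) hlb (by linarith) k
  have hC : ∀ k, ‖C k‖ ≤ 1 := fun k => by
    rw [eC]
    exact LeafS_le1 (lb := la) (lc := lb) hlc (by linarith) k
  have hms := momsS_rep la lb lc hla hlb hlc P
  have hlen := momsP_length P (initS (la.map decP)) (initS (lb.map decP)) (initS (lc.map decP))
  rw [← eA, ← eB, ← eC] at hms
  have hM := itM_rep la lb lc hla hlb hlc hw
  have hM1 := itR1_rep la lb lc hla hlb hlc hw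
  rw [← eA, ← eB, ← eC] at hM hM1
  unfold checkS'' checkS' at h
  generalize momsP P (initS (la.map decP)) (initS (lb.map decP)) (initS (lc.map decP)) = ms at *
  simp only [Bool.and_eq_true] at h
  obtain ⟨⟨⟨⟨⟨s1, s2⟩, s3⟩, s4⟩, s5⟩, s6⟩ := h
  refine ⟨_, _, _, _, _, hM, ?_, ?_, ?_, ?_, s1, s2, s3, s4, s5, s6⟩
  · refine LeafS_app ?_ ?_
    · have h1 := lsL_rep hA hB hC sT (ms.take nL) 0 (hms.take nL)
      rw [List.length_take, hlen, min_eq_left (hnL.trans hPL)] at h1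
      simpa only [zero_add] using h1
    · refine List.Forall₂.cons ⟨by positivity, ?_, hM1⟩ List.Forall₂.nil
      simp only
      rw [div_mul_cancel₀ _ (by norm_num)]
  · have h1 := lsR_rep hA hB hC md c3 sb (ms.take nR) 0 (hms.take nR)
    rw [List.length_take, hlen, min_eq_left (hnR.trans hPR)] at h1
    simpa only [zero_add] using h1
  · have h1 := lsL_rep hA hB hC sT ((ms.take PL).drop nL) nL (by
      have := (hms.take PL).drop nL
      rwa [zero_add] at this)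
    rw [List.length_drop, List.length_take, hlen, min_eq_left hPL] at h1
    exact h1
  · have h1 := lsR_rep hA hB hC md c3 sb ((ms.take PR).drop nR) nR (by
      have := (hms.take PR).drop nR
      rwa [zero_add] at this)
    rw [List.length_drop, List.length_take, hlen, min_eq_left hPR] at h1
    exact h1

private theorem LeafS_tot (md rq rp rqc rpc Q R PL PR : ℕ) (M : ItP) (LL RR : List (ℕ × ItP))
    (lcr rcr : List ℕ) :
    ((totS md rq rp rqc rpc Q R PL PR M LL RR lcr rcr : ℕ) : ℝ) / 100000000000 =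
      170919 / 100000 + (((itErr rq rp Q R M : ℕ) : ℝ) + ((wErr rq rp Q R LL 0 : ℕ) : ℝ) +
        ((wErr rq rp Q R RR 0 : ℕ) : ℝ) + ((sumL lcr : ℕ) : ℝ) +
        (((bif Nat.beq md 2 then 0 else sumL rcr) : ℕ) : ℝ) +
        ((tailS md rqc rpc PL PR : ℕ) : ℝ)) / 100000000 := by
  have e : totS md rq rp rqc rpc Q R PL PR M LL RR lcr rcr = 170919000000 + 1000 *
      ((itErr rq rp Q R M + wErr rq rp Q R LL 0) + ((wErr rq rp Q R RR 0 + sumL lcr) +
        ((bif Nat.beq md 2 then 0 else sumL rcr) + tailS md rqc rpc PL PR))) := rfl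
  rw [e]
  push_cast
  ring

private theorem LeafS_kap0 (md c3 sb i : ℕ) : 0 ≤ kapR md c3 sb i := by
  unfold kapR
  positivity

private theorem LeafS_w0 {σ : ℝ} (h : 0 ≤ σ) (i : ℕ) : 0 ≤ wLS σ i := by
  unfold wLS
  split_ifs
  · exact h
  · norm_num

private theorem LeafS_split (g : ℕ → ℝ) {n N : ℕ} (h : n ≤ N) :
    ∑ i ∈ Finset.range N, g i = ∑ i ∈ Finset.range n, g i + ∑ k ∈ Finset.range (N - n), g (n + k) := by
  conv_lhs => rw [show N = n + (N - n) by omega]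
  rw [Finset.sum_range_add]

private theorem LeafS_L1 (σ : ℝ) (n : ℕ) (f : ℕ → List (ℂ × ℕ × ℕ)) (g : List (ℂ × ℕ × ℕ))
    (F : List (ℂ × ℕ × ℕ) → ℝ) :
    ((((List.range n).map fun k => (wLS σ k, f k)) ++ [(σ, g)]).map fun x => x.1 * F x.2).sum =
      ∑ i ∈ Finset.range n, wLS σ i * F (f i) + σ * F g := by
  rw [List.map_append, List.sum_append, LeafS_sum2 n (wLS σ) f F]
  simp

private theorem LeafS_final {x y Q u v R md nL nR PL PR rq rp rqc rpc sT c3 sb : ℕ} {A B C : ℤ → ℂ}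
    {M : ItP} {LL RR LC RC : List (ℕ × ItP)} {q t : ℂ} (hQ : 0 < Q) (hR : 0 < R)
    (e1 : rq = radS Q x y) (e2 : rp = radS R u v) (hqs : InSq q x y Q) (hts : InSq t u v R)
    (hM : ItRep M (f0S A B C))
    (hLL : LsRep LL (((List.range nL).map fun k => (wLS ((sT : ℝ) / 100000000) k, fLS A B C k)) ++
        [((sT : ℝ) / 100000000, fR1S A B C)]))
    (hRR : LsRep RR ((List.range nR).map fun k => (kapR md c3 sb k, fRS A B C (expR md k) k)))
    (hLC : LsRep LC ((List.range (PL - nL)).map fun k =>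
        (wLS ((sT : ℝ) / 100000000) (nL + k), fLS A B C (nL + k))))
    (s1 : szOK Q R M = true) (s2 : LL.all (fun z => szOK Q R z.2) = true)
    (s3 : RR.all (fun z => szOK Q R z.2) = true) (s4 : LC.all (fun z => szM z.2) = true)
    (hnL : nL ≤ PL) (hnR : nR ≤ PR)
    (hq : ‖q‖ ≤ (rqc : ℝ) / 10000) (ht : ‖t‖ ≤ (rpc : ℝ) / 10000)
    (ω : ℕ → ℝ) (hω : ∀ i, 0 ≤ ω i) (hωκ : ∀ i, ω i ≤ kapR md c3 sb i) (X τ : ℝ)
    (hv : ∀ i j, ((totS md rq rp rqc rpc Q R PL PR M LL RR (bCr rqc rpc LC) (bCr rqc rpc RC) : ℕ) : ℝ) /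
        100000000000 + X < (pval (f0S A B C) ((ctr x y + crnR i) / Q) ((ctr u v + crnR j) / R)).re -
      (((((List.range nL).map fun k => (wLS ((sT : ℝ) / 100000000) k, fLS A B C k)) ++
        [((sT : ℝ) / 100000000, fR1S A B C)]) ++ (List.range nR).map fun k =>
          (ω k, fRS A B C (expR md k) k)).map fun z =>
        z.1 * ‖pval z.2 ((ctr x y + crnR i) / Q) ((ctr u v + crnR j) / R)‖).sum)
    (hcr : ∑ k ∈ Finset.range (PR - nR), ω (nR + k) *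
        ‖pval (fRS A B C (expR md (nR + k)) (nR + k)) q t‖ ≤
      X + (((bif Nat.beq md 2 then 0 else sumL (bCr rqc rpc RC)) : ℕ) : ℝ) / 100000000)
    (hτ : τ * 100000000 ≤ ((tailS md rqc rpc PL PR : ℕ) : ℝ))
    (hD : (pval (f0S A B C) q t).re ≤ 170919 / 100000 +
      (sT : ℝ) / 100000000 * ‖pval (fR1S A B C) q t‖ +
      ∑ i ∈ Finset.range PL, wLS ((sT : ℝ) / 100000000) i * ‖pval (fLS A B C i) q t‖ +
      ∑ i ∈ Finset.range PR, ω i * ‖pval (fRS A B C (expR md i) i) q t‖ + τ) : False := by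
  obtain ⟨w, w', hBox⟩ := boxAvg_of_mem x y Q u v R hQ hR q t hqs hts
  have hh : (0 : ℝ) ≤ 1 / (Q : ℝ) ^ 2 := by positivity
  have hk : (0 : ℝ) ≤ 1 / (R : ℝ) ^ 2 := by positivity
  have hBox' : BoxAvg w w' (fun i => (ctr x y + crnR i) / Q) (fun i => (ctr u v + crnR i) / R) q t
      ((rq : ℝ) / 10000) ((rp : ℝ) / 10000) (1 / (Q : ℝ) ^ 2) (1 / (R : ℝ) ^ 2) := by
    rw [e1, e2]
    exact hBox
  have hσ0 : (0 : ℝ) ≤ (sT : ℝ) / 100000000 := by positivity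
  have hL1 : ∀ x ∈ ((List.range nL).map fun k => (wLS ((sT : ℝ) / 100000000) k, fLS A B C k)) ++
        [((sT : ℝ) / 100000000, fR1S A B C)], 0 ≤ x.1 := by
    intro x hx
    rcases List.mem_append.1 hx with hx | hx
    · obtain ⟨k, -, rfl⟩ := List.mem_map.1 hx
      exact LeafS_w0 hσ0 k
    · rw [List.mem_singleton] at hx
      subst hx
      exact hσ0
  have hfin := LeafS_fin hBox' hh hk (f0S A B C) _ hL1 nR ω (kapR md c3 sb)
    (fun k => fRS A B C (expR md k) k) hω hωκ _ hv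
  have s1' : szM M = true := by
    unfold szOK at s1
    simp only [Bool.and_eq_true] at s1
    exact s1.1.1
  have hE := itErr_spec hM s1' rq rp Q R hQ hR
  have hW1 := wErr_spec hLL Q R s2 hQ hR rq rp 0
  have hW2 := wErr_spec hRR Q R s3 hQ hR rq rp 0
  have hC1 := LeafS_crude (κ := wLS ((sT : ℝ) / 100000000)) (f := fLS A B C) hLC s4 rqc rpc
    (LeafS_w0 hσ0) q t hq ht
  rw [LeafS_tot, LeafS_L1 _ nL (fLS A B C) (fR1S A B C) (fun f => ‖pval f q t‖),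
    LeafS_L1 _ nL (fLS A B C) (fR1S A B C) (fun f => perr f ((rq : ℝ) / 10000) ((rp : ℝ) / 10000)
      (1 / (Q : ℝ) ^ 2) (1 / (R : ℝ) ^ 2))] at hfin
  rw [LeafS_L1 _ nL (fLS A B C) (fR1S A B C) (fun f => perr f ((rq : ℝ) / 10000) ((rp : ℝ) / 10000)
      (1 / (Q : ℝ) ^ 2) (1 / (R : ℝ) ^ 2))] at hW1
  rw [LeafS_sum2 nR (kapR md c3 sb) (fun k => fRS A B C (expR md k) k)
    (fun f => perr f ((rq : ℝ) / 10000) ((rp : ℝ) / 10000)
      (1 / (Q : ℝ) ^ 2) (1 / (R : ℝ) ^ 2))] at hW2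
  rw [LeafS_split _ hnL, LeafS_split (fun i => ω i * ‖pval (fRS A B C (expR md i) i) q t‖) hnR] at hD
  push_cast at hW1 hW2
  linarith

theorem checkS_sound_A (x y Q u v R P nL nR PL PR : ℕ) (la lb lc : List ℕ)
    (h : checkS x y Q u v R 0 P nL nR PL PR la lb lc = true) : CellSA x y Q u v R := by
  intro q t r1 l r H hq1 hq2 hqs hts
  obtain ⟨A, eA⟩ : ∃ A, A = lamC (la.map ndC) := ⟨_, rfl⟩
  obtain ⟨B, eB⟩ : ∃ B, B = lamC (lb.map ndC) := ⟨_, rfl⟩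
  obtain ⟨C, eC⟩ : ∃ C, C = lamC (lc.map ndC) := ⟨_, rfl⟩
  obtain ⟨rq, e1⟩ : ∃ n, n = radS Q x y := ⟨_, rfl⟩
  obtain ⟨rp, e2⟩ : ∃ n, n = radS R u v := ⟨_, rfl⟩
  obtain ⟨rqc, e3⟩ : ∃ n, n = minN rq 7502 := ⟨_, rfl⟩
  obtain ⟨rpc, e4⟩ : ∃ n, n = minN rp 6752 := ⟨_, rfl⟩
  obtain ⟨sT, e5⟩ : ∃ n, n = sigI R u v := ⟨_, rfl⟩
  obtain ⟨c3, e6⟩ : ∃ n, n = c3U rqc := ⟨_, rfl⟩
  obtain ⟨sb, e7⟩ : ∃ n, n = sbU rqc := ⟨_, rfl⟩
  obtain ⟨nu, e8⟩ : ∃ n, n = nuU Q x y := ⟨_, rfl⟩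
  obtain ⟨hs, M, LL, RR, LC, RC, hM, hLL, hRR, hLC, hRC, s1, s2, s3, s4, s5, hcore⟩ :=
    LeafS_setup h A B C eA eB eC rq rp rqc rpc sT c3 sb nu e1 e2 e3 e4 e5 e6 e7 e8
  obtain ⟨hQ, hR, hQ', hR', hP, hPL, hPR, hnL, hnR, h1PR, hmd, hx, hy, hu, hv, hsq, hla, hlb, hlc, hw⟩ :=
    sideS_spec hs
  have hq0 := norm_nonneg q
  have htle := H.t_le
  have hradq : ‖q‖ + 1 / 100000 ≤ (rqc : ℝ) / 10000 := by
    rw [e3, e1]
    exact radS_spec x y Q hQ q hqs 7502 (by push_cast; linarith)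
  have hradt : ‖t‖ + 1 / 100000 ≤ (rpc : ℝ) / 10000 := by
    rw [e4, e2]
    exact radS_spec u v R hR t hts 6752 (by push_cast; linarith)
  have hrqc : rqc < 10000 := by
    rw [e3, minN_eq]
    omega
  have hrpc : rpc < 10000 := by
    rw [e4, minN_eq]
    omega
  have hY1 : (rqc : ℝ) / 10000 < 1 := by
    rw [div_lt_one (by norm_num)]
    exact_mod_cast hrqc
  have hT1 : (rpc : ℝ) / 10000 < 1 := by
    rw [div_lt_one (by norm_num)]
    exact_mod_cast hrpc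
  have hgT := geoU_spec rpc (PL + 1) hrpc
  have hgY := geoU_spec rqc PR hrqc
  have hsT := sigI_spec u v R hR t hts
  rw [← e5] at hsT
  refine LeafS_final (X := 0) (rqc := rqc) (rpc := rpc) hQ hR e1 e2 hqs hts hM hLL hRR hLC s1 s2 s3 s4 hnL hnR (by linarith)
    (by linarith) (kapR 0 c3 sb) (LeafS_kap0 _ _ _) (fun _ => le_rfl)
    (((rpc : ℝ) / 10000) ^ (PL + 1) / (1 - (rpc : ℝ) / 10000) +
      ((rqc : ℝ) / 10000) ^ PR / (1 - (rqc : ℝ) / 10000)) (RC := RC) ?_ ?_ ?_ ?_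
  · intro i j
    rw [add_zero]
    exact LeafS_box hQ hR hQ' hR' hx hy hu hv hM hLL hRR s1 s2 s3 (by norm_num) hcore i j
  · rw [zero_add]
    exact LeafS_crude (κ := kapR 0 c3 sb) (f := fun i => fRS A B C (expR 0 i) i) hRC s5 rqc rpc
      (LeafS_kap0 _ _ _) q t (by linarith) (by linarith)
  · have e : tailS 0 rqc rpc PL PR = geoU rpc (PL + 1) + geoU rqc PR := rfl
    rw [e]
    push_cast
    linarith
  · have hD := s_dual_A H hq1 _ _ _ (LeafS_nd1 hla) (LeafS_nd1 hlb) (LeafS_nd1 hlc) hw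
      ((sT : ℝ) / 100000000) ((rpc : ℝ) / 10000) ((rqc : ℝ) / 10000) (by positivity) hsT
      (by linarith) hT1 hradq hY1 PL PR h1PR (kapR 0 c3 sb) (LeafS_kap0 _ _ _)
      (by
        rw [e6]
        exact c3U_spec rqc _ (by positivity) hradq hrqc)
      (fun i hi hi2 => kapA_spec sb c3 q hq1 i hi (by omega))
    rw [← eA, ← eB, ← eC] at hD
    exact hD

theorem checkS_sound_B (x y Q u v R md P nL nR PL PR : ℕ) (la lb lc : List ℕ) (hmd : 1 ≤ md)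
    (h : checkS x y Q u v R md P nL nR PL PR la lb lc = true) : CellSB x y Q u v R := by
  intro q t r1 l r H hq1 hq2 hqs hts
  obtain ⟨A, eA⟩ : ∃ A, A = lamC (la.map ndC) := ⟨_, rfl⟩
  obtain ⟨B, eB⟩ : ∃ B, B = lamC (lb.map ndC) := ⟨_, rfl⟩
  obtain ⟨C, eC⟩ : ∃ C, C = lamC (lc.map ndC) := ⟨_, rfl⟩
  obtain ⟨rq, e1⟩ : ∃ n, n = radS Q x y := ⟨_, rfl⟩
  obtain ⟨rp, e2⟩ : ∃ n, n = radS R u v := ⟨_, rfl⟩
  obtain ⟨rqc, e3⟩ : ∃ n, n = minN rq 7502 := ⟨_, rfl⟩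
  obtain ⟨rpc, e4⟩ : ∃ n, n = minN rp 6752 := ⟨_, rfl⟩
  obtain ⟨sT, e5⟩ : ∃ n, n = sigI R u v := ⟨_, rfl⟩
  obtain ⟨c3, e6⟩ : ∃ n, n = c3U rqc := ⟨_, rfl⟩
  obtain ⟨sb, e7⟩ : ∃ n, n = sbU rqc := ⟨_, rfl⟩
  obtain ⟨nu, e8⟩ : ∃ n, n = nuU Q x y := ⟨_, rfl⟩
  obtain ⟨hs, M, LL, RR, LC, RC, hM, hLL, hRR, hLC, hRC, s1, s2, s3, s4, s5, hcore⟩ :=
    LeafS_setup h A B C eA eB eC rq rp rqc rpc sT c3 sb nu e1 e2 e3 e4 e5 e6 e7 e8
  obtain ⟨hQ, hR, hQ', hR', hP, hPL, hPR, hnL, hnR, h1PR, hmd2, hx, hy, hu, hv, hsq, hla, hlb, hlc, hw⟩ :=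
    sideS_spec hs
  have hq0 := norm_nonneg q
  have htle := H.t_le
  have hradq : ‖q‖ + 1 / 100000 ≤ (rqc : ℝ) / 10000 := by
    rw [e3, e1]
    exact radS_spec x y Q hQ q hqs 7502 (by push_cast; linarith)
  have hradt : ‖t‖ + 1 / 100000 ≤ (rpc : ℝ) / 10000 := by
    rw [e4, e2]
    exact radS_spec u v R hR t hts 6752 (by push_cast; linarith)
  have hrpc : rpc < 10000 := by
    rw [e4, minN_eq]
    omega
  have hT1 : (rpc : ℝ) / 10000 < 1 := by
    rw [div_lt_one (by norm_num)]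
    exact_mod_cast hrpc
  have hgT := geoU_spec rpc (PL + 1) hrpc
  have hgY := geoU_spec (sqU (Nat.mul 9000 rqc)) (PR + 1) hsq
  have hYs := rsU_spec rqc _ hradq
  obtain ⟨Yn, hYn⟩ : ∃ n, n = sqU (Nat.mul 9000 rqc) := ⟨_, rfl⟩
  have htail : tailS md rqc rpc PL PR = geoU rpc (PL + 1) + geoU Yn (PR + 1) := by
    unfold tailS
    rw [LeafS_beq (by omega : md ≠ 0), hYn]
    rfl
  rw [← hYn] at hgY hYs hsq
  have hY1 : (Yn : ℝ) / 10000 < 1 := by
    rw [div_lt_one (by norm_num)]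
    exact_mod_cast hsq
  have hsT := sigI_spec u v R hR t hts
  rw [← e5] at hsT
  have hexp : ∀ i, expR md i = (i + 1) / 2 := by
    intro i
    unfold expR
    rw [LeafS_beq (by omega : md ≠ 0)]
    rfl
  obtain ⟨c, hc0, hc1, ⟨u0, hu0, hball⟩, hdual⟩ := s_dual_B H hq1
  have hD := hdual _ _ _ (LeafS_nd1 hla) (LeafS_nd1 hlb) (LeafS_nd1 hlc) hw
      ((sT : ℝ) / 100000000) ((rpc : ℝ) / 10000) ((Yn : ℝ) / 10000) (by positivity) hsT
      (by linarith) hT1 (by positivity) hYs hY1 PL PR (kapR md c3 sb) (LeafS_kap0 _ _ _)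
      (fun i hi => kapB_spec md c3 sb hmd q hq1 (by
        rw [e7]
        exact sbU_spec rqc _ hradq) i (by omega))
  rw [← eA, ← eB, ← eC] at hD
  have hτ : (((rpc : ℝ) / 10000) ^ (PL + 1) / (1 - (rpc : ℝ) / 10000) +
      ((Yn : ℝ) / 10000) ^ (PR + 1) / (1 - (Yn : ℝ) / 10000)) * 100000000 ≤
      ((tailS md rqc rpc PL PR : ℕ) : ℝ) := by
    rw [htail]
    push_cast
    linarith
  have hck : ∀ i, c i * kapR md c3 sb i ≤ kapR md c3 sb i := fun i => by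
    have := mul_le_mul_of_nonneg_right (hc1 i) (LeafS_kap0 md c3 sb i)
    linarith
  rcases Nat.lt_or_ge md 2 with h2 | h2
  · have hmd1 : md ≠ 2 := by omega
    refine LeafS_final (X := 0) (rqc := rqc) (rpc := rpc) hQ hR e1 e2 hqs hts hM hLL hRR hLC s1 s2 s3 s4 hnL hnR (by linarith)
      (by linarith) (kapR md c3 sb) (LeafS_kap0 _ _ _) (fun _ => le_rfl) _ (RC := RC) ?_ ?_ hτ ?_
    · intro i j
      rw [add_zero]
      exact LeafS_box hQ hR hQ' hR' hx hy hu hv hM hLL hRR s1 s2 s3 hmd1 hcore i j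
    · rw [zero_add, LeafS_beq hmd1]
      exact LeafS_crude (κ := kapR md c3 sb) (f := fun i => fRS A B C (expR md i) i) hRC s5 rqc rpc
        (LeafS_kap0 _ _ _) q t (by linarith) (by linarith)
    · refine hD.trans ?_
      have h5 : ∑ i ∈ Finset.range PR, c i * (kapR md c3 sb i *
          ‖pval (fRS A B C ((i + 1) / 2) i) q t‖) ≤
          ∑ i ∈ Finset.range PR, kapR md c3 sb i * ‖pval (fRS A B C (expR md i) i) q t‖ := by
        refine Finset.sum_le_sum fun i _ => ?_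
        rw [hexp i, ← mul_assoc]
        exact mul_le_mul_of_nonneg_right (hck i) (norm_nonneg _)
      linarith
  · have hmd1 : md = 2 := by omega
    subst hmd1
    obtain ⟨β, hβ⟩ : ∃ β : ℕ → ℝ, β = fun i => kapR 2 c3 sb i *
      pabs (fRS A B C (expR 2 i) i) ((rqc : ℝ) / 10000) ((rpc : ℝ) / 10000) := ⟨_, rfl⟩
    have hlen : (bCr rqc rpc RC).length = PR - nR := by
      have := (bCr_spec hRC s5 rqc rpc).length_eq
      rw [this, List.length_map, List.length_range]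
    have hβ0 : ∀ i, 0 ≤ β i := fun i => by
      rw [hβ]
      exact mul_nonneg (LeafS_kap0 _ _ _ _) (LeafS_pabs0 _ _ _ (by positivity) (by positivity))
    refine LeafS_final (X := ∑ k ∈ Finset.range (bCr rqc rpc RC).length, c (nR + k) * β (nR + k))
      (rqc := rqc) (rpc := rpc)
      hQ hR e1 e2 hqs hts hM hLL hRR hLC s1 s2 s3 s4 hnL hnR (by linarith)
      (by linarith) (fun i => c i * kapR 2 c3 sb i)
      (fun i => mul_nonneg (hc0 i) (LeafS_kap0 _ _ _ _)) hck _ (RC := RC) ?_ ?_ hτ ?_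
    · intro i j
      refine LeafS_ball hQ hR hQ' hR' hx hy hu hv hM hLL hRR s1 s2 s3 hcore c hc0 hc1 u0 hu0 ?_ β hβ0
        ?_ i j
      · intro s hs'
        refine (hball s hs').trans ?_
        rw [e8]
        exact nuU_spec x y Q hQ q hqs
      · intro k hk
        have hf := List.forall₂_iff_get.1 (bCr_spec hRC s5 rqc rpc)
        have := hf.2 k hk (by rw [← hf.1]; exact hk)
        simp only [List.get_eq_getElem, List.getElem_map, List.getElem_range] at this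
        rw [hβ]
        exact this
    · rw [hlen]
      have e0 : (((bif Nat.beq 2 2 then 0 else sumL (bCr rqc rpc RC)) : ℕ) : ℝ) = 0 := by
        norm_num
      rw [e0, zero_div, add_zero]
      refine Finset.sum_le_sum fun k _ => ?_
      rw [mul_assoc]
      refine mul_le_mul_of_nonneg_left ?_ (hc0 _)
      rw [hβ]
      exact mul_le_mul_of_nonneg_left (pval_le_pabs _ _ _ _ _ (by linarith) (by linarith))
        (LeafS_kap0 _ _ _ _)
    · refine hD.trans (le_of_eq ?_)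
      have h5 : ∑ i ∈ Finset.range PR, c i * (kapR 2 c3 sb i *
          ‖pval (fRS A B C ((i + 1) / 2) i) q t‖) =
          ∑ i ∈ Finset.range PR, c i * kapR 2 c3 sb i * ‖pval (fRS A B C (expR 2 i) i) q t‖ := by
        refine Finset.sum_congr rfl fun i _ => ?_
        rw [hexp i, mul_assoc]
      rw [h5]

end Pool.Agent.MaxTerm58
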