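import Pool.Agent.MaxTerm58.LoopTI
import Pool.Agent.MaxTerm58.BoxTI
import Pool.Agent.MaxTerm58.DualTI
import Pool.Agent.MaxTerm58.LeafA
import Pool.Agent.MaxTerm58.LeafC

/-! Soundness of the check of a leaf, type I. Hints: as in `Leaf.lean`: `coreTI_spec` from `crnL_rep`, `mainPI_rep`, `vtxI_spec`,
`mainTI_le`, `vloopI_spec`; `checkTI_sound`: `boxAvg_of_mem x y Q x y Q` with `p = q`, `rho = Y = rq/10^4` (`radius_spec`),
`sg = sigI/10^8` (`sigI_spec`), `ti_dual` with `tau i = if i < I0 then 1002/1000 * mulTI sg ||q|| K i else min (rho^(i+1)) sg`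
(`ti_sizes`), `ti_box` with `n = min I0 P` and `m` = minimum of the four values, `totI_spec`. -/

namespace Pool.Agent.MaxTerm58

open Pool.Agent.MaxTerm59 (HypI)

private theorem LeafTI_nd1 {la : List ℕ} (ha : ∀ n ∈ la, okP n = true) :
    ∀ x ∈ la.map ndC, ‖x.1‖ = 1 := by
  intro x hx
  obtain ⟨n, hn, rfl⟩ := List.mem_map.1 hx
  exact okP_norm n (ha n hn)

private theorem LeafTI_absD (x : ℕ) : ((absD x : ℕ) : ℝ) = |(x : ℝ) - 100000| := by
  unfold absD
  rcases le_total x 100000 with h | h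
  · have h1 : Nat.add (Nat.sub x 100000) (Nat.sub 100000 x) = 100000 - x := by
      show (x - 100000) + (100000 - x) = 100000 - x
      omega
    have h2 : (x : ℝ) ≤ 100000 := by exact_mod_cast h
    rw [h1, Nat.cast_sub h, abs_of_nonpos (by linarith)]
    push_cast
    ring
  · have h1 : Nat.add (Nat.sub x 100000) (Nat.sub 100000 x) = x - 100000 := by
      show (x - 100000) + (100000 - x) = x - 100000
      omega
    have h2 : (100000 : ℝ) ≤ x := by exact_mod_cast h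
    rw [h1, Nat.cast_sub h, abs_of_nonneg (by linarith)]
    push_cast
    ring

private theorem LeafTI_dmp0 (N k : ℕ) : 0 ≤ dmpR N k := by
  unfold dmpR
  split_ifs
  · exact zero_le_one
  · positivity

private theorem LeafTI_dmp1 (N k : ℕ) : dmpR N k ≤ 1 := by
  unfold dmpR
  split_ifs with h
  · exact le_rfl
  · have hN : (0 : ℝ) < N := by exact_mod_cast Nat.pos_of_ne_zero h
    rw [div_le_one hN]
    exact_mod_cast Nat.sub_le N k

private theorem LeafTI_ddI (N : ℕ) (hN : N ≤ 41) : ddI N ≤ 41 := by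
  unfold ddI
  cases h : Nat.beq N 0
  · exact hN
  · show 1 ≤ 41
    norm_num

theorem mainPI_rep (l : List ℕ) (h : ∀ n ∈ l, okP n = true) (c : PC) (cz : ℂ) (hc : CRep c cz)
    (Q N : ℕ) (hQ : 0 < Q) :
    CRep (mainPI Q N (P0 (l.map decP)) (P1 (l.map decP)) (PT (l.map decP)) c)
      (((3204500000 * (Q * ddI N) : ℕ) : ℂ) * mainTI (lamC (l.map ndC)) N (cz / Q)) := by
  have a0 := P0_rep l
  have a1 := P1_rep l
  have aT := PT_rep l h
  have hmain := (a0.smul (Nat.mul 32045 (Nat.mul Q (ddI N)))).add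
    (((aT.smul Q).add (hc.mul a1)).smul (dnI N 1))
  have hQ' : (Q : ℂ) ≠ 0 := by exact_mod_cast hQ.ne'
  have hd : ((ddI N : ℕ) : ℂ) ≠ 0 := by exact_mod_cast (ddI_pos N).ne'
  have hdm : ((dmpR N 1 : ℝ) : ℂ) = ((dnI N 1 : ℕ) : ℂ) / ((ddI N : ℕ) : ℂ) := by
    rw [dmpR_eq]
    push_cast
    rfl
  unfold mainPI
  convert hmain using 1
  unfold mainTI
  rw [hdm]
  simp only [Nat.mul_eq]
  push_cast
  field_simp
  ring

theorem vtxI_spec {x : PC} {m : ℂ} (Q N v tot : ℕ) (hQ : 0 < Q) (hQ' : Q ≤ 512) (hN : N ≤ 41)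
    (hm : ‖m‖ ≤ 1000) (hx : CRep x (((3204500000 * (Q * ddI N) : ℕ) : ℂ) * m))
    (h : vtxI x Q N v tot = true) :
    (tot : ℝ) / 100000000000 < m.re - 1002 / 1000 * ((v : ℝ) / 100000000) := by
  unfold vtxI at h
  rw [Bool.and_eq_true] at h
  obtain ⟨h1, h2⟩ := h
  have h1' : 2 * x.re2 ≤ MM := Nat.le_of_ble_eq_true h1
  have h2' : (2 * (1002 * v + tot)) * (3204500000 * (Q * ddI N)) <
      x.re2 * 100000000000 := by
    have := Nat.le_of_ble_eq_true h2
    exact this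
  have hd0 := ddI_pos N
  have hd1 := LeafTI_ddI N hN
  set T : ℕ := 3204500000 * (Q * ddI N) with hT
  have hTpos : 0 < T := by positivity
  have hTle : T ≤ 3204500000 * (512 * 41) := by
    rw [hT]
    gcongr
  have hTr : (0 : ℝ) < T := by exact_mod_cast hTpos
  have hTrle : (T : ℝ) ≤ 3204500000 * (512 * 41) := by exact_mod_cast hTle
  have hre : ((T : ℂ) * m).re = T * m.re := by
    have : (T : ℂ) = ((T : ℝ) : ℂ) := by norm_num
    rw [this, Complex.re_ofReal_mul]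
  have habs : |m.re| ≤ 1000 := (Complex.abs_re_le_norm m).trans hm
  have hMM : (10 : ℝ) ^ 60 < (MM : ℝ) := by
    rw [MM_eq]
    push_cast
    have : (10 : ℝ) ^ 60 ≤ 2 ^ 1280 := by
      calc (10 : ℝ) ^ 60 ≤ (2 ^ 4) ^ 60 := by gcongr; norm_num
        _ = 2 ^ 240 := by rw [← pow_mul]
        _ ≤ 2 ^ 1280 := pow_le_pow_right₀ (by norm_num) (by norm_num)
    exact lt_of_le_of_lt this (lt_add_one _)
  have h3 : 4 * |((T : ℂ) * m).re| < (MM : ℝ) := by
    rw [hre, abs_mul, abs_of_pos hTr]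
    have h4 : (T : ℝ) * |m.re| ≤ (3204500000 * (512 * 41)) * 1000 :=
      mul_le_mul hTrle habs (abs_nonneg _) (by positivity)
    have h5 : (4 : ℝ) * ((3204500000 * (512 * 41)) * 1000) < 10 ^ 60 := by
      norm_num
    linarith
  have h6 := hx.re2_eq h3 h1'
  rw [hre] at h6
  have h7 : (2 * (1002 * (v : ℝ) + tot)) * T < (x.re2 : ℝ) * 100000000000 := by
    exact_mod_cast h2'
  rw [h6] at h7
  have h8 : (1002 * (v : ℝ) + tot) * (2 * T) < (m.re * 100000000000) * (2 * T) := by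
    linarith
  have h9 : 1002 * (v : ℝ) + tot < m.re * 100000000000 := lt_of_mul_lt_mul_right h8 (by positivity)
  linarith

theorem mainTI_le (L : ℤ → ℂ) (hL : ∀ k, ‖L k‖ ≤ 1) (N : ℕ) (q : ℂ) (hq : ‖q‖ ≤ 3) :
    ‖mainTI L N q‖ ≤ 1000 := by
  have hd : ‖((dmpR N 1 : ℝ) : ℂ)‖ ≤ 1 := by
    rw [Complex.norm_real, Real.norm_of_nonneg (LeafTI_dmp0 N 1)]
    exact LeafTI_dmp1 N 1
  have h1 : ‖L (-1) + q * L 1‖ ≤ 4 := by
    refine (norm_add_le _ _).trans ?_
    rw [norm_mul]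
    have a1 := hL (-1)
    have a2 := hL 1
    have a3 : ‖q‖ * ‖L 1‖ ≤ 3 * 1 := mul_le_mul hq a2 (norm_nonneg _) (by norm_num)
    linarith
  unfold mainTI
  refine (norm_add_le _ _).trans ?_
  rw [norm_mul]
  have a1 := hL 0
  have a2 : ‖((dmpR N 1 : ℝ) : ℂ)‖ * ‖L (-1) + q * L 1‖ ≤ 1 * 4 :=
    mul_le_mul hd h1 (norm_nonneg _) (by norm_num)
  linarith

theorem sideTI_spec {x y Q N I0 P rq : ℕ} {l : List ℕ} (h : sideI x y Q N I0 P rq l = true) :
    0 < Q ∧ Q ≤ 512 ∧ P ≤ 39 ∧ I0 ≤ 16 ∧ |(x : ℝ) - 100000| + 1 ≤ 2 * Q ∧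
    |(y : ℝ) - 100000| + 1 ≤ 2 * Q ∧ (N = 0 → rq < 10000) ∧ (N ≠ 0 → N ≤ P + 2) ∧
    (∀ n ∈ l, okP n = true) ∧ wtC (l.map ndC) ≤ 1 := by
  unfold sideI at h
  simp only [Bool.and_eq_true, Nat.ble_eq, List.all_eq_true] at h
  obtain ⟨⟨⟨⟨⟨⟨⟨⟨h1, h2⟩, h3⟩, h4⟩, h5⟩, h6⟩, h7⟩, h8⟩, h9⟩ := h
  have key : ∀ z N : ℕ, Nat.succ (absD z) ≤ Nat.mul 2 N → |(z : ℝ) - 100000| + 1 ≤ 2 * N := by
    intro z N hz
    rw [← LeafTI_absD]
    have hz' : absD z + 1 ≤ 2 * N := hz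
    exact_mod_cast hz'
  refine ⟨h1, h2, h3, h4, key _ _ h5, key _ _ h6, ?_, ?_, h8, ?_⟩
  · intro hN
    subst hN
    have h7' : Nat.ble (Nat.succ rq) 10000 = true := h7
    exact Nat.le_of_ble_eq_true h7'
  · intro hN
    have hb : Nat.beq N 0 = false := by
      cases hc : Nat.beq N 0
      · rfl
      · exact absurd (Nat.eq_of_beq_eq_true hc) hN
    rw [hb] at h7
    exact Nat.le_of_ble_eq_true h7
  · have a1 := wsumP_spec l
    have a4 : ((wsumP l : ℕ) : ℝ) ≤ 100000000 := by exact_mod_cast h9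
    linarith

private theorem LeafTI_N {N P : ℕ} (hP : P ≤ 39) (h : N ≠ 0 → N ≤ P + 2) : N ≤ 41 := by
  rcases Nat.eq_zero_or_pos N with h0 | h0
  · omega
  · have := h h0.ne'
    omega

theorem coreTI_spec {x y Q N K I0 P rq : ℕ} {l : List ℕ} (hs : sideI x y Q N I0 P rq l = true) (sg tot : ℕ)
    (h : coreI x y Q N K sg (P0 (l.map decP)) (P1 (l.map decP)) (PT (l.map decP))
      ((momsI P (initI (l.map decP))).take I0) tot = true) (i : Fin 4) :
    (tot : ℝ) / 100000000000 <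
      (mainTI (lamC (l.map ndC)) N ((ctr x y + crnR i) / Q)).re - 1002 / 1000 *
        ∑ k ∈ Finset.range (min I0 P), dmpR N (k + 2) *
          (mulTI ((sg : ℝ) / 100000000) ‖(ctr x y + crnR i) / Q‖ K k *
            ‖coefTI (lamC (l.map ndC)) ((ctr x y + crnR i) / Q) k‖) := by
  obtain ⟨hQ, hQ', hP, hI0, hx, hy, hN0, hN1, hl, hw⟩ := sideTI_spec hs
  obtain ⟨cc, hcc, hcrep, hc3, hcr⟩ := crnL_rep x y Q (hQ'.trans (by norm_num)) hx hy hQ i
  have hA : ∀ k, ‖lamC (l.map ndC) k‖ ≤ 1 := fun k =>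
    (lamC_le _ (LeafTI_nd1 hl) k).trans hw
  unfold coreI at h
  have h1 := List.all_eq_true.1 h cc hcc
  have hmain := mainPI_rep l hl (encP 100000 cc.1 cc.2) (ctr x y + crnR i) hcrep Q N hQ
  have hfin := vtxI_spec Q N _ tot hQ hQ' (LeafTI_N hP hN1) (mainTI_le _ hA N _ hc3) hmain h1
  have hms := (momsI_rep l hl P).take I0
  have hlen : ((momsI P (initI (l.map decP))).take I0).length = min I0 P := by
    rw [List.length_take, momsI_length]
  have hv1 := vloopI_spec _ hA (encP 100000 cc.1 cc.2) (ctr x y + crnR i) hcrep Q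
    (rad Q cc.1 cc.2) sg N K hQ hQ' hc3 hcr _ 0 0
    ((encP 100000 cc.1 cc.2).mul (encP 100000 cc.1 cc.2)) hms
    (by simpa [pow_two] using hcrep.mul hcrep) (by rw [hlen]; omega)
  rw [hlen] at hv1
  simp only [Nat.cast_zero, zero_add] at hv1
  linarith

theorem totI_spec {x y Q N I0 P rq : ℕ} {l : List ℕ} (hs : sideI x y Q N I0 P rq l = true) (sg K : ℕ) :
    170919 / 100000 +
      1002 / 1000 * (∑ k ∈ Finset.range (min I0 P), dmpR N (k + 2) *
        errTI (lamC (l.map ndC)) ((rq : ℝ) / 10000) (1 / (Q : ℝ) ^ 2) ((sg : ℝ) / 100000000) K k) +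
      1002 / 1000 * (∑ k ∈ Finset.range (P - I0), dmpR N (I0 + k + 2) *
        (min (((rq : ℝ) / 10000) ^ (I0 + k + 1)) ((sg : ℝ) / 100000000) *
          (‖lamC (l.map ndC) (-(((I0 + k : ℕ) : ℤ) + 2))‖ +
            ((rq : ℝ) / 10000) ^ (I0 + k + 2) * ‖lamC (l.map ndC) (((I0 + k : ℕ) : ℤ) + 2)‖))) +
      (if N = 0 then ((rq : ℝ) / 10000) ^ (P + 1) / (1 - (rq : ℝ) / 10000) *
        (1 + ((rq : ℝ) / 10000) ^ (P + 2)) else 0) ≤
    ((totI rq Q sg N K I0 P (momsI P (initI (l.map decP))) : ℕ) : ℝ) / 100000000000 := by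
  obtain ⟨hQ, hQ', hP, hI0, hx, hy, hN0, hN1, hl, hw⟩ := sideTI_spec hs
  have hA : ∀ k, ‖lamC (l.map ndC) k‖ ≤ 1 := fun k =>
    (lamC_le _ (LeafTI_nd1 hl) k).trans hw
  have hrep := momsI_rep l hl P
  have hlen := momsI_length P (initI (l.map decP))
  set ms := momsI P (initI (l.map decP)) with hms
  set L := lamC (l.map ndC) with hL
  set Y : ℝ := (rq : ℝ) / 10000 with hY
  have hY0 : 0 ≤ Y := by positivity
  have E1 := eloopI_spec L hA rq Q sg N K hQ (ms.take I0) 0 0 (hrep.take I0)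
    (by rw [List.length_take, hlen]; omega)
  rw [List.length_take, hlen] at E1
  simp only [Nat.cast_zero, zero_add] at E1
  have E2 : 100000000 * (∑ k ∈ Finset.range (P - I0), dmpR N (I0 + k + 2) *
        (min (Y ^ (I0 + k + 1)) ((sg : ℝ) / 100000000) *
          (‖L (-(((I0 + k : ℕ) : ℤ) + 2))‖ +
            Y ^ (I0 + k + 2) * ‖L (((I0 + k : ℕ) : ℤ) + 2)‖))) ≤
      ((cloopI rq sg N (ms.drop I0) I0 0 : ℕ) : ℝ) := by
    rcases Nat.lt_or_ge P I0 with h | h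
    · have h1 : P - I0 = 0 := by omega
      rw [h1, Finset.range_zero, Finset.sum_empty, mul_zero]
      exact Nat.cast_nonneg _
    · have hr := hrep.drop I0
      rw [zero_add] at hr
      have E := cloopI_spec L hA rq sg N (ms.drop I0) I0 0 hr
        (by rw [List.length_drop, hlen]; omega)
      rw [List.length_drop, hlen, Nat.cast_zero, zero_add] at E
      exact E
  have E3 : 0 ≤ (if N = 0 then Y ^ (P + 1) / (1 - Y) * (1 + Y ^ (P + 2)) else 0) ∧
      (if N = 0 then Y ^ (P + 1) / (1 - Y) * (1 + Y ^ (P + 2)) else 0) * 100000000 ≤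
      ((tailI rq N P : ℕ) : ℝ) := by
    by_cases hN : N = 0
    · subst hN
      have hrq := hN0 rfl
      have hY1 : Y < 1 := by
        rw [hY, div_lt_one (by norm_num)]
        exact_mod_cast hrq
      rw [if_pos rfl]
      refine ⟨?_, tailI_spec rq P hrq⟩
      have : 0 < 1 - Y := by linarith
      positivity
    · rw [if_neg hN]
      refine ⟨le_rfl, ?_⟩
      rw [zero_mul]
      exact Nat.cast_nonneg _
  obtain ⟨E30, E3⟩ := E3
  have htot : ((totI rq Q sg N K I0 P ms : ℕ) : ℝ) =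
      1002 * (((eloopI rq Q sg N K (ms.take I0) 0 0 : ℕ) : ℝ) +
        (((cloopI rq sg N (ms.drop I0) I0 0 : ℕ) : ℝ) + ((tailI rq N P : ℕ) : ℝ))) +
        170919000000 := by
    have : totI rq Q sg N K I0 P ms = 1002 * (eloopI rq Q sg N K (ms.take I0) 0 0 +
      (cloopI rq sg N (ms.drop I0) I0 0 + tailI rq N P)) + 170919000000 := rfl
    rw [this]
    push_cast
    ring
  rw [htot]
  generalize ((eloopI rq Q sg N K (ms.take I0) 0 0 : ℕ) : ℝ) = X1 at E1 ⊢
  generalize ((cloopI rq sg N (ms.drop I0) I0 0 : ℕ) : ℝ) = X2 at E2 ⊢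
  generalize ((tailI rq N P : ℕ) : ℝ) = X3 at E3 ⊢
  rw [le_div_iff₀ (by norm_num)]
  linarith

theorem checkTI_sound (x y Q N K I0 P : ℕ) (l : List ℕ) (h : checkTI x y Q N K I0 P l = true) :
    CellTI x y Q := by
  intro q s H hq hU hqs
  unfold checkTI at h
  rw [Bool.and_eq_true] at h
  obtain ⟨hs, h⟩ := h
  obtain ⟨hQ, hQ', hP, hI0, hx, hy, hN0, hN1, hl, hw⟩ := sideTI_spec hs
  have hradq := radius_spec x y Q hQ q hqs
  have hsig := sigI_spec x y Q hQ q hqs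
  obtain ⟨w, w', hBox⟩ := boxAvg_of_mem x y Q x y Q hQ hQ q q hqs hqs
  have hcore := coreTI_spec hs (sigI Q x y) _ h
  have htot := totI_spec hs (sigI Q x y) K
  generalize (Nat.add (rad Q x y) (Nat.add (Nat.div 14143 Q) 2)) = rq at *
  generalize sigI Q x y = sg at *
  set L := lamC (l.map ndC) with hL
  set Y : ℝ := (rq : ℝ) / 10000 with hY
  set σ : ℝ := (sg : ℝ) / 100000000 with hσ
  have hσ0 : 0 ≤ σ := by positivity
  have hY0 : 0 ≤ Y := by positivity
  have hA : ∀ k, ‖L k‖ ≤ 1 := fun k => (lamC_le _ (LeafTI_nd1 hl) k).trans hw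
  have hsz := ti_sizes H hq σ Y hσ0 hsig hradq
  have hm0 : ∀ i, 0 ≤ mulTI σ ‖q‖ K i := by
    intro i
    unfold mulTI
    split_ifs
    · exact hσ0
    · positivity
  obtain ⟨τ, hτdef⟩ : ∃ τ : ℕ → ℝ, τ = fun i =>
    if i < I0 then 1002 / 1000 * mulTI σ ‖q‖ K i else min (Y ^ (i + 1)) σ := ⟨_, rfl⟩
  have hτ : ∀ i < P, ‖s i‖ ≤ τ i := by
    intro i hi
    obtain ⟨s1, s2⟩ := hsz i
    rw [hτdef]
    simp only
    split_ifs with h1
    · unfold mulTI
      split_ifs with h2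
      · have := s1.trans (min_le_right _ _)
        linarith
      · exact s2 (by omega)
    · exact s1
  obtain ⟨T, hT⟩ : ∃ T : ℝ, T = if N = 0 then Y ^ (P + 1) / (1 - Y) * (1 + Y ^ (P + 2)) else 0 :=
    ⟨_, rfl⟩
  have hT0 : 0 ≤ T := by
    rw [hT]
    split_ifs with h0
    · have hY1 : Y < 1 := by
        rw [hY, div_lt_one (by norm_num)]
        exact_mod_cast hN0 h0
      have : 0 < 1 - Y := by linarith
      positivity
    · exact le_rfl
  have hdual := ti_dual H (l.map ndC) (LeafTI_nd1 hl) hw N P Y T hradq hT0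
    (fun h0 => ⟨by
      rw [hY, div_lt_one (by norm_num)]
      exact_mod_cast hN0 h0, by rw [hT, if_pos h0]⟩) hN1 τ hτ
  rw [← hT] at htot
  rw [← hL] at hdual
  obtain ⟨j0, _, hmin⟩ := Finset.exists_min_image (Finset.univ : Finset (Fin 4))
    (fun i => (mainTI L N ((ctr x y + crnR i) / Q)).re - 1002 / 1000 *
        ∑ k ∈ Finset.range (min I0 P), dmpR N (k + 2) *
          (mulTI σ ‖(ctr x y + crnR i) / Q‖ K k * ‖coefTI L ((ctr x y + crnR i) / Q) k‖))
    ⟨0, Finset.mem_univ _⟩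
  have hlow := ti_box hBox L N K (min I0 P) σ hσ0 _ (fun i => hmin i (Finset.mem_univ _))
  have hc := hcore j0
  have hcr : ∀ k, ‖coefTI L q k‖ ≤ ‖L (-((k : ℤ) + 2))‖ + Y ^ (k + 2) * ‖L ((k : ℤ) + 2)‖ := by
    intro k
    unfold coefTI
    refine (norm_add_le _ _).trans ?_
    rw [norm_mul, norm_pow]
    have hqY : ‖q‖ ≤ Y := by linarith
    gcongr
  have hsplit : ∑ i ∈ Finset.range P, dmpR N (i + 2) * (τ i * ‖coefTI L q i‖) ≤
      1002 / 1000 * (∑ i ∈ Finset.range (min I0 P), dmpR N (i + 2) *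
        (mulTI σ ‖q‖ K i * ‖coefTI L q i‖)) +
      ∑ k ∈ Finset.range (P - I0), dmpR N (I0 + k + 2) * (min (Y ^ (I0 + k + 1)) σ *
        (‖L (-(((I0 + k : ℕ) : ℤ) + 2))‖ + Y ^ (I0 + k + 2) * ‖L (((I0 + k : ℕ) : ℤ) + 2)‖)) := by
    have hfirst : ∀ n, n ≤ I0 → ∑ i ∈ Finset.range n, dmpR N (i + 2) * (τ i * ‖coefTI L q i‖) =
        1002 / 1000 * (∑ i ∈ Finset.range n, dmpR N (i + 2) *
        (mulTI σ ‖q‖ K i * ‖coefTI L q i‖)) := by
      intro n hn
      rw [Finset.mul_sum]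
      refine Finset.sum_congr rfl fun i hi => ?_
      have hi' : i < I0 := lt_of_lt_of_le (Finset.mem_range.1 hi) hn
      rw [hτdef]
      simp only
      rw [if_pos hi']
      ring
    rcases le_total I0 P with h1 | h1
    · rw [min_eq_left h1]
      conv_lhs => rw [show P = I0 + (P - I0) by omega]
      rw [Finset.sum_range_add, hfirst I0 le_rfl]
      gcongr with k hk
      · exact LeafTI_dmp0 _ _
      · rw [hτdef]
        simp only
        rw [if_neg (by omega)]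
      · exact hcr (I0 + k)
    · rw [min_eq_right h1, Nat.sub_eq_zero_of_le h1, hfirst P h1]
      simp
  have hnn : 0 ≤ ∑ k ∈ Finset.range (P - I0), dmpR N (I0 + k + 2) * (min (Y ^ (I0 + k + 1)) σ *
        (‖L (-(((I0 + k : ℕ) : ℤ) + 2))‖ + Y ^ (I0 + k + 2) * ‖L (((I0 + k : ℕ) : ℤ) + 2)‖)) := by
    refine Finset.sum_nonneg fun k _ => mul_nonneg (LeafTI_dmp0 _ _) (mul_nonneg ?_ ?_)
    · exact le_min (by positivity) hσ0
    · positivity
  linarith

end Pool.Agent.MaxTerm58
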