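import Pool.Agent.MaxTerm58.RepTI

/-! The loops, type I. Hints: induction on `ms`, `absP_spec`, `monUp_spec` (with `b = 0`), `dmpR N k = dnI N k / ddI N`. -/

namespace Pool.Agent.MaxTerm58

private theorem LoopTI_div (N D : ℕ) (hD : 0 < D) :
    (N : ℝ) / (D : ℝ) ≤ ((Nat.succ (Nat.div N D) : ℕ) : ℝ) := by
  have h1 : N < D * (N / D + 1) := Nat.lt_mul_div_succ N hD
  have hD' : (0 : ℝ) < D := by exact_mod_cast hD
  rw [div_le_iff₀ hD']
  have h2 : (N : ℝ) < (D : ℝ) * ((N / D : ℕ) + 1) := by exact_mod_cast h1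
  have h3 : ((Nat.succ (Nat.div N D) : ℕ) : ℝ) = ((N / D : ℕ) : ℝ) + 1 := by
    push_cast
    rfl
  rw [h3]
  linarith

private theorem LoopTI_step {acc S D : ℕ} {t : ℝ} (hD : 0 < D)
    (h : t * (100000000 * (D : ℝ)) ≤ (S : ℝ)) :
    (acc : ℝ) + t ≤
      ((Nat.succ (Nat.add acc (Nat.div S (Nat.mul 100000000 D))) : ℕ) : ℝ) := by
  have hpos : 0 < 100000000 * D := Nat.mul_pos (by norm_num) hD
  have hD' : (0 : ℝ) < 100000000 * (D : ℝ) := by
    have : (0 : ℝ) < D := by exact_mod_cast hD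
    positivity
  have h1 := LoopTI_div S (100000000 * D) hpos
  have e : (Nat.succ (Nat.add acc (Nat.div S (Nat.mul 100000000 D))) : ℕ)
      = acc + Nat.succ (Nat.div S (100000000 * D)) := rfl
  rw [e, Nat.cast_add]
  have h2 : t ≤ (S : ℝ) / (((100000000 * D : ℕ)) : ℝ) := by
    push_cast
    rw [le_div_iff₀ hD']
    exact h
  linarith

theorem dmpR_eq (N k : ℕ) : dmpR N k = ((dnI N k : ℕ) : ℝ) / ((ddI N : ℕ) : ℝ) := by
  cases N with
  | zero =>
    have h1 : dnI 0 k = 1 := rfl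
    have h2 : ddI 0 = 1 := rfl
    rw [h1, h2]
    simp [dmpR]
  | succ n =>
    have h1 : dnI (n + 1) k = n + 1 - k := rfl
    have h2 : ddI (n + 1) = n + 1 := rfl
    rw [h1, h2, dmpR, if_neg (Nat.succ_ne_zero n)]

theorem ddI_pos (N : ℕ) : 0 < ddI N := by
  cases N with
  | zero => exact Nat.one_pos
  | succ n => exact Nat.succ_pos n

private theorem LoopTI_dmp (N k : ℕ) (u : ℝ) :
    100000000 * (dmpR N k * u) * (100000000 * ((ddI N : ℕ) : ℝ))
      = 10000000000000000 * u * ((dnI N k : ℕ) : ℝ) := by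
  have h : ((ddI N : ℕ) : ℝ) ≠ 0 := by exact_mod_cast (ddI_pos N).ne'
  rw [dmpR_eq]
  field_simp
  ring

theorem errIU_spec (rq Q a : ℕ) (hQ : 0 < Q) :
    e1 ((rq : ℝ) / 10000) (1 / (Q : ℝ) ^ 2) a * 100000000 ≤ ((errIU rq Q a : ℕ) : ℝ) := by
  have hQ' : (0 : ℝ) < Q := by exact_mod_cast hQ
  have hcast : ((a * (a - 1) : ℕ) : ℝ) = (a : ℝ) * ((a : ℝ) - 1) := by
    rcases Nat.eq_zero_or_pos a with rfl | hc
    · simp
    · rw [Nat.cast_mul, Nat.cast_sub hc, Nat.cast_one]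
  have h1 := LoopTI_div
    (Nat.mul (Nat.mul (Nat.mul a (Nat.sub a 1)) (Nat.pow rq (Nat.sub a 2))) 100000000)
    (Nat.mul (Nat.pow 10000 (Nat.sub a 2)) (Nat.mul Q Q))
    (Nat.mul_pos (Nat.pow_pos (by norm_num)) (Nat.mul_pos hQ hQ))
  refine le_trans (le_of_eq ?_) h1
  have e2 : (Nat.mul (Nat.mul (Nat.mul a (Nat.sub a 1)) (Nat.pow rq (Nat.sub a 2))) 100000000)
      = (a * (a - 1)) * rq ^ (a - 2) * 100000000 := rfl
  have e3 : (Nat.mul (Nat.pow 10000 (Nat.sub a 2)) (Nat.mul Q Q))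
      = 10000 ^ (a - 2) * (Q * Q) := rfl
  rw [e2, e3, Nat.cast_mul, Nat.cast_mul, hcast, e1]
  push_cast
  rw [div_pow]
  field_simp

private theorem LoopTI_absD (x : ℕ) : ((absD x : ℕ) : ℝ) = |(x : ℝ) - 100000| := by
  have h0 : absD x = (x - 100000) + (100000 - x) := rfl
  rw [h0]
  rcases le_total x 100000 with h | h
  · rw [Nat.sub_eq_zero_of_le h, zero_add, Nat.cast_sub h]
    have h' : (x : ℝ) ≤ 100000 := by exact_mod_cast h
    rw [abs_of_nonpos (by linarith)]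
    push_cast
    ring
  · rw [Nat.sub_eq_zero_of_le h, add_zero, Nat.cast_sub h]
    have h' : (100000 : ℝ) ≤ x := by exact_mod_cast h
    rw [abs_of_nonneg (by linarith)]
    push_cast
    ring

private theorem LoopTI_sq (x : ℕ) (a : ℝ) (h : |a - ((x : ℝ) - 100000)| ≤ 1) :
    ((absD x - 1 : ℕ) : ℝ) ^ 2 ≤ a ^ 2 := by
  have h1 : ((absD x - 1 : ℕ) : ℝ) ≤ |a| := by
    rcases Nat.eq_zero_or_pos (absD x) with h0 | h0
    · rw [h0]
      simp
    · rw [Nat.cast_sub h0, LoopTI_absD, Nat.cast_one]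
      have h2 : |(x : ℝ) - 100000| ≤ |a| + |a - ((x : ℝ) - 100000)| := by
        have h3 := abs_sub a (a - ((x : ℝ) - 100000))
        have h4 : a - (a - ((x : ℝ) - 100000)) = (x : ℝ) - 100000 := by ring
        rw [h4] at h3
        exact h3
      linarith
  rw [← sq_abs a]
  exact pow_le_pow_left₀ (Nat.cast_nonneg _) h1 2

theorem sigI_spec (x y Q : ℕ) (hQ : 0 < Q) (q : ℂ) (h : InSq q x y Q) :
    (170919 / 100000 : ℝ) ^ 2 - 2 - ‖q‖ ^ 2 ≤ (((sigI Q x y : ℕ) : ℝ) / 100000000) ^ 2 := by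
  obtain ⟨hx, hy⟩ := h
  have hQ' : (0 : ℝ) < Q := by exact_mod_cast hQ
  set A : ℕ := 9213304561000000 * (Q * Q) with hA
  set B : ℕ := 10000000000000000 * ((absD x - 1) ^ 2 + (absD y - 1) ^ 2) with hB
  have e : sigI Q x y = sqU (Nat.succ (Nat.div (A - B) (Q * Q))) := rfl
  have h1 := sqU_spec (Nat.succ (Nat.div (A - B) (Q * Q)))
  have h2 := LoopTI_div (A - B) (Q * Q) (Nat.mul_pos hQ hQ)
  rw [e]
  have h3 : (A : ℝ) - (B : ℝ) ≤ ((A - B : ℕ) : ℝ) := by
    rw [sub_le_iff_le_add]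
    have : A ≤ A - B + B := by omega
    exact_mod_cast this
  have h4 := LoopTI_sq x _ hx
  have h5 := LoopTI_sq y _ hy
  have h6 : ‖q‖ ^ 2 * (Q : ℝ) ^ 2 = (q.re * Q) ^ 2 + (q.im * Q) ^ 2 := by
    rw [Complex.sq_norm, Complex.normSq_apply]
    ring
  have h7 : ((Q * Q : ℕ) : ℝ) = (Q : ℝ) ^ 2 := by
    push_cast
    ring
  rw [h7] at h2
  have h8 : (A : ℝ) = 9213304561000000 * (Q : ℝ) ^ 2 := by
    rw [hA]
    push_cast
    ring
  have h9 : (B : ℝ) = 10000000000000000 * (((absD x - 1 : ℕ) : ℝ) ^ 2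
      + ((absD y - 1 : ℕ) : ℝ) ^ 2) := by
    rw [hB]
    push_cast
    ring
  have h10 : 9213304561000000 - 10000000000000000 * ‖q‖ ^ 2
      ≤ ((A - B : ℕ) : ℝ) / (Q : ℝ) ^ 2 := by
    rw [le_div_iff₀ (by positivity)]
    refine le_trans ?_ h3
    rw [h8, h9, sub_mul, mul_assoc (10000000000000000 : ℝ), h6]
    linarith
  have h11 := h10.trans (h2.trans h1)
  set s : ℝ := ((sqU (Nat.succ (Nat.div (A - B) (Q * Q))) : ℕ) : ℝ) with hs
  have h12 : (s / 100000000) ^ 2 = s ^ 2 / 10000000000000000 := by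
    rw [div_pow]
    norm_num
  rw [h12, le_div_iff₀ (by norm_num)]
  refine le_trans (le_of_eq ?_) h11
  ring

private theorem LoopTI_sum (f : ℕ → ℝ) (i n : ℕ) :
    ∑ k ∈ Finset.range (n + 1), f (i + k)
      = f i + ∑ k ∈ Finset.range n, f (i + 1 + k) := by
  rw [Finset.sum_range_succ', add_comm, add_zero]
  congr 1
  refine Finset.sum_congr rfl fun k _ => ?_
  rw [show i + (k + 1) = i + 1 + k by ring]

private theorem LoopTI_den (i : ℕ) : 0 < Nat.mul 100000 (Nat.pow 32045 (Nat.add i 2)) :=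
  Nat.mul_pos (by norm_num) (Nat.pow_pos (by norm_num))

private theorem LoopTI_abs {m : PC} {i : ℕ} {w : ℂ} (h : CRep m (100000 * 32045 ^ (i + 2) * w))
    (hw : ‖w‖ ≤ 1) (hi : i ≤ 38) :
    ‖w‖ * 100000000 ≤ ((absP m (Nat.mul 100000 (Nat.pow 32045 (Nat.add i 2))) : ℕ) : ℝ) := by
  refine absP_spec h (momTI_small w hw i hi) _ (LoopTI_den i) ?_
  have e : Nat.mul 100000 (Nat.pow 32045 (Nat.add i 2)) = 100000 * 32045 ^ (i + 2) := rfl
  rw [e]
  push_cast
  rfl

private theorem LoopTI_mon (r a : ℕ) :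
    ((r : ℝ) / 10000) ^ a * 100000000 ≤ ((monUp r 0 a 0 : ℕ) : ℝ) := by
  have h := monUp_spec r 0 a 0
  rwa [pow_zero, mul_one] at h

theorem vloopI_spec (L : ℤ → ℂ) (hL : ∀ k, ‖L k‖ ≤ 1) (c : PC) (cz : ℂ) (hc : CRep c cz)
    (Q r sg N K : ℕ) (hQ : 0 < Q) (hQ' : Q ≤ 512) (hcz : ‖cz / Q‖ ≤ 3) (hr : ‖cz / Q‖ ≤ (r : ℝ) / 10000) :
    ∀ (ms : List (PC × PC)) (i acc : ℕ) (cp : PC), MsRepI ms i L → CRep cp (cz ^ (i + 2)) →
      i + ms.length ≤ 16 →
      (acc : ℝ) + 100000000 * ∑ k ∈ Finset.range ms.length, dmpR N (i + k + 2) *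
        (mulTI ((sg : ℝ) / 100000000) ‖cz / Q‖ K (i + k) * ‖coefTI L (cz / Q) (i + k)‖) ≤
      ((vloopI c Q r sg N K ms i cp acc : ℕ) : ℝ) := by
  intro ms
  induction ms with
  | nil =>
    intro i acc cp _ _ _
    simp [vloopI]
  | cons m ms ih =>
    intro i acc cp hms hcp hlen
    obtain ⟨⟨hm1, hm2⟩, hms'⟩ := hms
    rw [List.length_cons] at hlen
    have hi15 : i ≤ 15 := by omega
    have hcp' : CRep (cp.mul c) (cz ^ (i + 1 + 2)) := by
      have := hcp.mul hc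
      rwa [← pow_succ] at this
    have hden : 0 < Nat.mul (Nat.mul 100000 (Nat.pow 32045 (Nat.add i 2)))
        (Nat.pow Q (Nat.add i 2)) := Nat.mul_pos (LoopTI_den i) (Nat.pow_pos hQ)
    have hco := absP_spec (numTI_rep hm1 hm2 Q hQ cz cp hcp)
      (numTI_small L hL Q hQ' _ hcz i hi15) _ hden rfl
    set P : ℕ := absP ((m.1.smul (Nat.pow Q (Nat.add i 2))).add (cp.mul m.2))
      (Nat.mul (Nat.mul 100000 (Nat.pow 32045 (Nat.add i 2))) (Nat.pow Q (Nat.add i 2))) with hP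
    set M : ℕ := bif Nat.blt i K then sg else monUp r 0 (Nat.succ i) 0 with hM
    have hmul : mulTI ((sg : ℝ) / 100000000) ‖cz / Q‖ K i * 100000000 ≤ (M : ℝ) := by
      unfold mulTI
      by_cases hiK : i < K
      · have h1 : Nat.blt i K = true := by
          rw [Nat.blt_eq]
          exact hiK
        rw [if_pos hiK, hM, h1, cond_true]
        exact le_of_eq (div_mul_cancel₀ _ (by norm_num))
      · have h1 : Nat.blt i K = false := by
          rw [← Bool.not_eq_true, Nat.blt_eq]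
          exact hiK
        rw [if_neg hiK, hM, h1, cond_false]
        refine le_trans ?_ (LoopTI_mon r (Nat.succ i))
        exact mul_le_mul_of_nonneg_right (pow_le_pow_left₀ (norm_nonneg _) hr _) (by norm_num)
    have hmul0 : 0 ≤ mulTI ((sg : ℝ) / 100000000) ‖cz / Q‖ K i := by
      unfold mulTI
      split_ifs <;> positivity
    have hrec : vloopI c Q r sg N K (m :: ms) i cp acc = vloopI c Q r sg N K ms (Nat.succ i)
        (cp.mul c) (Nat.succ (Nat.add acc (Nat.div (Nat.mul (Nat.mul M (dnI N (Nat.add i 2))) P)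
          (Nat.mul 100000000 (ddI N))))) := rfl
    rw [hrec, List.length_cons]
    have hih := ih (i + 1) (Nat.succ (Nat.add acc (Nat.div (Nat.mul (Nat.mul M
      (dnI N (Nat.add i 2))) P) (Nat.mul 100000000 (ddI N))))) (cp.mul c) hms' hcp' (by omega)
    refine le_trans ?_ hih
    rw [LoopTI_sum (fun k => dmpR N (k + 2) *
      (mulTI ((sg : ℝ) / 100000000) ‖cz / Q‖ K k * ‖coefTI L (cz / Q) k‖)) i ms.length, mul_add,
      ← add_assoc]
    refine add_le_add_left (LoopTI_step (ddI_pos N) ?_) _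
    rw [LoopTI_dmp]
    have hprod : (mulTI ((sg : ℝ) / 100000000) ‖cz / Q‖ K i * 100000000) *
        (‖coefTI L (cz / Q) i‖ * 100000000) ≤ (M : ℝ) * (P : ℝ) :=
      mul_le_mul hmul hco (by positivity) (Nat.cast_nonneg _)
    have hd0 : (0 : ℝ) ≤ ((dnI N (i + 2) : ℕ) : ℝ) := Nat.cast_nonneg _
    have h5 := mul_le_mul_of_nonneg_right hprod hd0
    have e : ((Nat.mul (Nat.mul M (dnI N (Nat.add i 2))) P : ℕ) : ℝ)
        = (M : ℝ) * (P : ℝ) * ((dnI N (i + 2) : ℕ) : ℝ) := by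
      have e1 : Nat.mul (Nat.mul M (dnI N (Nat.add i 2))) P = M * dnI N (i + 2) * P := rfl
      rw [e1]
      push_cast
      ring
    rw [e]
    refine le_trans (le_of_eq ?_) h5
    ring

private theorem LoopTI_e1 (ρ h : ℝ) (a : ℕ) (hρ : 0 ≤ ρ) (hh : 0 ≤ h) : 0 ≤ e1 ρ h a := by
  unfold e1
  have h1 : (0 : ℝ) ≤ (a : ℝ) * (a - 1) := by
    rcases Nat.eq_zero_or_pos a with rfl | h0
    · simp
    · have : (1 : ℝ) ≤ a := by exact_mod_cast h0
      exact mul_nonneg (by linarith) (by linarith)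
  positivity

theorem eloopI_spec (L : ℤ → ℂ) (hL : ∀ k, ‖L k‖ ≤ 1) (rq Q sg N K : ℕ) (hQ : 0 < Q) :
    ∀ (ms : List (PC × PC)) (i acc : ℕ), MsRepI ms i L → i + ms.length ≤ 39 →
      (acc : ℝ) + 100000000 * ∑ k ∈ Finset.range ms.length, dmpR N (i + k + 2) *
        errTI L ((rq : ℝ) / 10000) (1 / (Q : ℝ) ^ 2) ((sg : ℝ) / 100000000) K (i + k) ≤
      ((eloopI rq Q sg N K ms i acc : ℕ) : ℝ) := by
  intro ms
  induction ms with
  | nil =>
    intro i acc _ _
    simp [eloopI]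
  | cons m ms ih =>
    intro i acc hms hlen
    obtain ⟨⟨hm1, hm2⟩, hms'⟩ := hms
    rw [List.length_cons] at hlen
    have a1 := LoopTI_abs hm1 (hL _) (by omega)
    have a2 := LoopTI_abs hm2 (hL _) (by omega)
    set P1 : ℕ := absP m.1 (Nat.mul 100000 (Nat.pow 32045 (Nat.add i 2))) with hP1
    set P2 : ℕ := absP m.2 (Nat.mul 100000 (Nat.pow 32045 (Nat.add i 2))) with hP2
    set T : ℕ := bif Nat.blt i K then
          Nat.succ (Nat.div (Nat.mul sg (Nat.mul P2 (errIU rq Q (Nat.add i 2)))) 100000000)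
        else
          Nat.add (Nat.mul P1 (errIU rq Q (Nat.add i 1)))
            (Nat.mul P2 (errIU rq Q (Nat.add (Nat.mul 2 i) 3))) with hT
    have hρ : (0 : ℝ) ≤ (rq : ℝ) / 10000 := by positivity
    have hh : (0 : ℝ) ≤ 1 / (Q : ℝ) ^ 2 := by positivity
    have hpr : ∀ (w : ℂ) (P a : ℕ), ‖w‖ * 100000000 ≤ (P : ℝ) →
        10000000000000000 * (‖w‖ * e1 ((rq : ℝ) / 10000) (1 / (Q : ℝ) ^ 2) a)
          ≤ (P : ℝ) * ((errIU rq Q a : ℕ) : ℝ) := by
      intro w P a hw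
      have h1 := errIU_spec rq Q a hQ
      have h2 := LoopTI_e1 _ _ a hρ hh
      have h3 := mul_le_mul hw h1 (by positivity) (Nat.cast_nonneg P)
      refine le_trans (le_of_eq ?_) h3
      ring
    have hT' : 10000000000000000 * errTI L ((rq : ℝ) / 10000) (1 / (Q : ℝ) ^ 2)
        ((sg : ℝ) / 100000000) K i ≤ (T : ℝ) := by
      unfold errTI
      by_cases hiK : i < K
      · have h1 : Nat.blt i K = true := by
          rw [Nat.blt_eq]
          exact hiK
        rw [if_pos hiK, hT, h1, cond_true]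
        have h2 := LoopTI_div (Nat.mul sg (Nat.mul P2 (errIU rq Q (Nat.add i 2)))) 100000000
          (by norm_num)
        refine le_trans ?_ h2
        have e : ((Nat.mul sg (Nat.mul P2 (errIU rq Q (Nat.add i 2))) : ℕ) : ℝ)
            = (sg : ℝ) * ((P2 : ℝ) * ((errIU rq Q (i + 2) : ℕ) : ℝ)) := by
          have e1 : Nat.mul sg (Nat.mul P2 (errIU rq Q (Nat.add i 2)))
              = sg * (P2 * errIU rq Q (i + 2)) := rfl
          rw [e1]
          push_cast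
          ring
        rw [e, le_div_iff₀ (by norm_num)]
        have h3 := mul_le_mul_of_nonneg_left (hpr (L ((i : ℤ) + 2)) P2 (i + 2) a2)
          (Nat.cast_nonneg (α := ℝ) sg)
        refine le_trans (le_of_eq ?_) h3
        push_cast
        ring
      · have h1 : Nat.blt i K = false := by
          rw [← Bool.not_eq_true, Nat.blt_eq]
          exact hiK
        rw [if_neg hiK, hT, h1, cond_false]
        have e : ((Nat.add (Nat.mul P1 (errIU rq Q (Nat.add i 1)))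
            (Nat.mul P2 (errIU rq Q (Nat.add (Nat.mul 2 i) 3))) : ℕ) : ℝ)
            = (P1 : ℝ) * ((errIU rq Q (i + 1) : ℕ) : ℝ)
              + (P2 : ℝ) * ((errIU rq Q (2 * i + 3) : ℕ) : ℝ) := by
          have e1 : Nat.add (Nat.mul P1 (errIU rq Q (Nat.add i 1)))
            (Nat.mul P2 (errIU rq Q (Nat.add (Nat.mul 2 i) 3)))
              = P1 * errIU rq Q (i + 1) + P2 * errIU rq Q (2 * i + 3) := rfl
          rw [e1]
          push_cast
          ring
        rw [e, mul_add]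
        exact add_le_add (hpr _ P1 (i + 1) a1) (hpr _ P2 (2 * i + 3) a2)
    have hrec : eloopI rq Q sg N K (m :: ms) i acc = eloopI rq Q sg N K ms (Nat.succ i)
        (Nat.succ (Nat.add acc (Nat.div (Nat.mul T (dnI N (Nat.add i 2)))
          (Nat.mul 100000000 (ddI N))))) := rfl
    rw [hrec, List.length_cons]
    have hih := ih (i + 1) (Nat.succ (Nat.add acc (Nat.div (Nat.mul T (dnI N (Nat.add i 2)))
          (Nat.mul 100000000 (ddI N))))) hms' (by omega)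
    refine le_trans ?_ hih
    rw [LoopTI_sum (fun k => dmpR N (k + 2) *
      errTI L ((rq : ℝ) / 10000) (1 / (Q : ℝ) ^ 2) ((sg : ℝ) / 100000000) K k) i ms.length,
      mul_add, ← add_assoc]
    refine add_le_add_left (LoopTI_step (ddI_pos N) ?_) _
    rw [LoopTI_dmp]
    have hd0 : (0 : ℝ) ≤ ((dnI N (i + 2) : ℕ) : ℝ) := Nat.cast_nonneg _
    have h5 := mul_le_mul_of_nonneg_right hT' hd0
    have e : ((Nat.mul T (dnI N (Nat.add i 2)) : ℕ) : ℝ)
        = (T : ℝ) * ((dnI N (i + 2) : ℕ) : ℝ) := by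
      have e1 : Nat.mul T (dnI N (Nat.add i 2)) = T * dnI N (i + 2) := rfl
      rw [e1]
      push_cast
      ring
    rw [e]
    exact h5

private theorem LoopTI_min (x y : ℝ) (a b : ℕ) (hx : x * 100000000 ≤ (a : ℝ))
    (hy : y * 100000000 ≤ (b : ℝ)) : min x y * 100000000 ≤ ((minU a b : ℕ) : ℝ) := by
  have h2 : ((minU a b : ℕ) : ℝ) = min (a : ℝ) (b : ℝ) := by
    unfold minU
    by_cases h : a ≤ b
    · have h3 : Nat.ble a b = true := by
        rw [Nat.ble_eq]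
        exact h
      rw [h3, cond_true, min_eq_left (by exact_mod_cast h)]
    · have h3 : Nat.ble a b = false := by
        rw [← Bool.not_eq_true, Nat.ble_eq]
        exact h
      rw [h3, cond_false, min_eq_right (by exact_mod_cast (not_le.1 h).le)]
  rw [h2, min_mul_of_nonneg _ _ (by norm_num)]
  exact min_le_min hx hy

private theorem LoopTI_two (u v ρ : ℝ) (P1 P2 M : ℕ) (hu : u * 100000000 ≤ (P1 : ℝ))
    (hv : v * 100000000 ≤ (P2 : ℝ)) (hρ : ρ * 100000000 ≤ (M : ℝ)) (hv0 : 0 ≤ v) :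
    (u + ρ * v) * 100000000 ≤
      ((Nat.succ (Nat.add P1 (Nat.div (Nat.mul M P2) 100000000)) : ℕ) : ℝ) := by
  have h1 := LoopTI_div (Nat.mul M P2) 100000000 (by norm_num)
  have h3 := mul_le_mul hρ hv (by positivity) (Nat.cast_nonneg _)
  have e1 : ((Nat.mul M P2 : ℕ) : ℝ) = (M : ℝ) * (P2 : ℝ) := Nat.cast_mul M P2
  have e2 : Nat.succ (Nat.add P1 (Nat.div (Nat.mul M P2) 100000000))
      = P1 + Nat.succ (Nat.div (Nat.mul M P2) 100000000) := by
    generalize Nat.div (Nat.mul M P2) 100000000 = d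
    rfl
  rw [e1, div_le_iff₀ (by norm_num)] at h1
  rw [e2, Nat.cast_add]
  generalize ((Nat.succ (Nat.div (Nat.mul M P2) 100000000) : ℕ) : ℝ) = t at h1 ⊢
  push_cast at h1
  have h4 : ρ * v * 100000000 * 100000000 ≤ t * 100000000 := by
    refine le_trans (le_of_eq ?_) (h3.trans h1)
    ring
  have h5 := le_of_mul_le_mul_right h4 (by norm_num)
  rw [add_mul]
  exact add_le_add hu h5

theorem cloopI_spec (L : ℤ → ℂ) (hL : ∀ k, ‖L k‖ ≤ 1) (rq sg N : ℕ) :
    ∀ (ms : List (PC × PC)) (i acc : ℕ), MsRepI ms i L → i + ms.length ≤ 39 →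
      (acc : ℝ) + 100000000 * ∑ k ∈ Finset.range ms.length, dmpR N (i + k + 2) *
        (min (((rq : ℝ) / 10000) ^ (i + k + 1)) ((sg : ℝ) / 100000000) *
          (‖L (-(((i + k : ℕ) : ℤ) + 2))‖ + ((rq : ℝ) / 10000) ^ (i + k + 2) * ‖L (((i + k : ℕ) : ℤ) + 2)‖)) ≤
      ((cloopI rq sg N ms i acc : ℕ) : ℝ) := by
  intro ms
  induction ms with
  | nil =>
    intro i acc _ _
    simp [cloopI]
  | cons m ms ih =>
    intro i acc hms hlen
    obtain ⟨⟨hm1, hm2⟩, hms'⟩ := hms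
    rw [List.length_cons] at hlen
    have a1 := LoopTI_abs hm1 (hL _) (by omega)
    have a2 := LoopTI_abs hm2 (hL _) (by omega)
    set P1 : ℕ := absP m.1 (Nat.mul 100000 (Nat.pow 32045 (Nat.add i 2))) with hP1
    set P2 : ℕ := absP m.2 (Nat.mul 100000 (Nat.pow 32045 (Nat.add i 2))) with hP2
    set X : ℕ := minU (monUp rq 0 (Nat.succ i) 0) sg with hX
    set Y : ℕ := Nat.succ (Nat.add P1 (Nat.div (Nat.mul (monUp rq 0 (Nat.add i 2) 0) P2)
      100000000)) with hY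
    have hρ : (0 : ℝ) ≤ (rq : ℝ) / 10000 := by positivity
    have hX' : min (((rq : ℝ) / 10000) ^ (i + 1)) ((sg : ℝ) / 100000000) * 100000000
        ≤ (X : ℝ) :=
      LoopTI_min _ _ _ _ (LoopTI_mon rq (Nat.succ i)) (le_of_eq (div_mul_cancel₀ _ (by norm_num)))
    have hX0 : 0 ≤ min (((rq : ℝ) / 10000) ^ (i + 1)) ((sg : ℝ) / 100000000) :=
      le_min (by positivity) (by positivity)
    have hY' : (‖L (-((i : ℤ) + 2))‖ + ((rq : ℝ) / 10000) ^ (i + 2) * ‖L ((i : ℤ) + 2)‖)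
        * 100000000 ≤ (Y : ℝ) :=
      LoopTI_two _ _ _ _ _ _ a1 a2 (LoopTI_mon rq (i + 2)) (norm_nonneg _)
    have hrec : cloopI rq sg N (m :: ms) i acc = cloopI rq sg N ms (Nat.succ i)
        (Nat.succ (Nat.add acc (Nat.div (Nat.mul (Nat.mul X Y) (dnI N (Nat.add i 2)))
          (Nat.mul 100000000 (ddI N))))) := rfl
    rw [hrec, List.length_cons]
    have hih := ih (i + 1) (Nat.succ (Nat.add acc (Nat.div (Nat.mul (Nat.mul X Y)
      (dnI N (Nat.add i 2))) (Nat.mul 100000000 (ddI N))))) hms' (by omega)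
    refine le_trans ?_ hih
    rw [LoopTI_sum (fun k => dmpR N (k + 2) *
      (min (((rq : ℝ) / 10000) ^ (k + 1)) ((sg : ℝ) / 100000000) *
          (‖L (-(((k : ℕ) : ℤ) + 2))‖ + ((rq : ℝ) / 10000) ^ (k + 2) * ‖L (((k : ℕ) : ℤ) + 2)‖)))
      i ms.length, mul_add, ← add_assoc]
    refine add_le_add_left (LoopTI_step (ddI_pos N) ?_) _
    rw [LoopTI_dmp]
    have hprod := mul_le_mul hX' hY' (by positivity) (Nat.cast_nonneg _)
    have hd0 : (0 : ℝ) ≤ ((dnI N (i + 2) : ℕ) : ℝ) := Nat.cast_nonneg _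
    have h5 := mul_le_mul_of_nonneg_right hprod hd0
    have e : ((Nat.mul (Nat.mul X Y) (dnI N (Nat.add i 2)) : ℕ) : ℝ)
        = (X : ℝ) * (Y : ℝ) * ((dnI N (i + 2) : ℕ) : ℝ) := by
      have e1 : Nat.mul (Nat.mul X Y) (dnI N (Nat.add i 2)) = X * Y * dnI N (i + 2) := rfl
      rw [e1]
      push_cast
      ring
    rw [e]
    refine le_trans (le_of_eq ?_) h5
    ring

theorem tailI_spec (rq P : ℕ) (h : rq < 10000) :
    ((rq : ℝ) / 10000) ^ (P + 1) / (1 - (rq : ℝ) / 10000) * (1 + ((rq : ℝ) / 10000) ^ (P + 2)) * 100000000 ≤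
      ((tailI rq 0 P : ℕ) : ℝ) := by
  have h' : (rq : ℝ) < 10000 := by exact_mod_cast h
  have hρ : (0 : ℝ) ≤ (rq : ℝ) / 10000 := by positivity
  have hρ1 : 0 < 1 - (rq : ℝ) / 10000 := by
    rw [sub_pos, div_lt_one (by norm_num)]
    exact h'
  set a : ℕ := Nat.succ (Nat.div (Nat.mul (monUp rq 0 (Nat.succ P) 0) 10000)
    (Nat.sub 10000 rq)) with ha
  set b : ℕ := Nat.succ (Nat.add 100000000 (monUp rq 0 (Nat.add P 2) 0)) with hb
  have e : tailI rq 0 P = Nat.succ (Nat.div (Nat.mul a b) 100000000) := rfl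
  have h1 := LoopTI_mon rq (P + 1)
  have h2 := LoopTI_mon rq (P + 2)
  have ha' : ((rq : ℝ) / 10000) ^ (P + 1) / (1 - (rq : ℝ) / 10000) * 100000000 ≤ (a : ℝ) := by
    have h3 := LoopTI_div (Nat.mul (monUp rq 0 (Nat.succ P) 0) 10000) (Nat.sub 10000 rq)
      (Nat.sub_pos_of_lt h)
    refine le_trans ?_ h3
    have e1 : ((Nat.mul (monUp rq 0 (Nat.succ P) 0) 10000 : ℕ) : ℝ)
        = ((monUp rq 0 (P + 1) 0 : ℕ) : ℝ) * 10000 := by
      have e2 : Nat.mul (monUp rq 0 (Nat.succ P) 0) 10000 = monUp rq 0 (P + 1) 0 * 10000 := rfl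
      rw [e2]
      push_cast
      ring
    have e3 : ((Nat.sub 10000 rq : ℕ) : ℝ) = 10000 - (rq : ℝ) := by
      have e4 : Nat.sub 10000 rq = 10000 - rq := rfl
      rw [e4, Nat.cast_sub h.le]
      push_cast
      ring
    rw [e1, e3, le_div_iff₀ (by linarith)]
    have e5 : (10000 : ℝ) - rq = 10000 * (1 - (rq : ℝ) / 10000) := by
      field_simp
    rw [e5]
    have e6 : ((rq : ℝ) / 10000) ^ (P + 1) / (1 - (rq : ℝ) / 10000) * 100000000 *
        (10000 * (1 - (rq : ℝ) / 10000)) = ((rq : ℝ) / 10000) ^ (P + 1) * 100000000 * 10000 := by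
      have hne : (1 - (rq : ℝ) / 10000) ≠ 0 := hρ1.ne'
      generalize (1 - (rq : ℝ) / 10000) = d at hne ⊢
      field_simp
    rw [e6]
    exact mul_le_mul_of_nonneg_right h1 (by norm_num)
  have hb' : (1 + ((rq : ℝ) / 10000) ^ (P + 2)) * 100000000 ≤ (b : ℝ) := by
    have e1 : b = 100000000 + monUp rq 0 (P + 2) 0 + 1 := rfl
    rw [e1]
    push_cast
    linarith
  rw [e]
  have h4 := LoopTI_div (Nat.mul a b) 100000000 (by norm_num)
  refine le_trans ?_ h4
  have e7 : ((Nat.mul a b : ℕ) : ℝ) = (a : ℝ) * (b : ℝ) := by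
    have e2 : Nat.mul a b = a * b := rfl
    rw [e2]
    push_cast
    ring
  rw [e7, le_div_iff₀ (by norm_num)]
  have h5 := mul_le_mul ha' hb' (by positivity) (Nat.cast_nonneg _)
  norm_num at h5 ⊢
  refine le_trans (le_of_eq ?_) h5
  ring

end Pool.Agent.MaxTerm58
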