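import Pool.Agent.MaxTerm58.MTree
import Pool.Agent.MaxTerm58.DM12_00
import Pool.Agent.MaxTerm58.DM12_01
import Pool.Agent.MaxTerm58.DM12_10
import Pool.Agent.MaxTerm58.DM12_11
import Pool.Agent.MaxTerm58.DM23_00
import Pool.Agent.MaxTerm58.DM23_01
import Pool.Agent.MaxTerm58.DM23_10
import Pool.Agent.MaxTerm58.DM23_11
import Pool.Agent.MaxTerm58.DM13_00
import Pool.Agent.MaxTerm58.DM13_01
import Pool.Agent.MaxTerm58.DM13_10
import Pool.Agent.MaxTerm58.DM13_11

/-! Exclusion of the mismatched vertices with the gaps `1, 2`, `2, 3` or `1, 3`. -/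

namespace Pool.Agent.MaxTerm58

private theorem MFinal_box {g : ℕ} {D : ℝ} {r : ℕ → ℂ} (h : OutM g D r) : OutX 0 g D r := by
  unfold OutX
  rw [if_pos rfl]
  exact h

private theorem MFinal_ball {g : ℕ} {D : ℝ} {r : ℕ → ℂ} (h : OutN g D r) : OutX 1 g D r := by
  unfold OutX
  rw [if_neg one_ne_zero]
  exact h

theorem mvs_final (a b : ℕ) (x : ℂ) (D : ℝ) (v : ℤ → ℂ)
    (hab : (a = 1 ∧ b = 2) ∨ (a = 2 ∧ b = 3) ∨ (a = 1 ∧ b = 3)) (H : HypM a b x D v)
    (hR : OutM b D (fun i => v (b + 1 + (i : ℤ))) ∨ OutN b D (fun i => v (b + 1 + (i : ℤ))))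
    (hL : OutM a D (fun i => v (-(a : ℤ) - 1 - (i : ℤ))) ∨ OutN a D (fun i => v (-(a : ℤ) - 1 - (i : ℤ)))) :
    False := by
  rcases hab with ⟨rfl, rfl⟩ | ⟨rfl, rfl⟩ | ⟨rfl, rfl⟩
  · rcases hR with hR | hR <;> rcases hL with hL | hL
    · exact gridM_final 1 2 0 0 (by norm_num) treesM12_00 chkM12_00 H (MFinal_box hR) (MFinal_box hL)
    · exact gridM_final 1 2 0 1 (by norm_num) treesM12_01 chkM12_01 H (MFinal_box hR) (MFinal_ball hL)
    · exact gridM_final 1 2 1 0 (by norm_num) treesM12_10 chkM12_10 H (MFinal_ball hR) (MFinal_box hL)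
    · exact gridM_final 1 2 1 1 (by norm_num) treesM12_11 chkM12_11 H (MFinal_ball hR) (MFinal_ball hL)
  · rcases hR with hR | hR <;> rcases hL with hL | hL
    · exact gridM_final 2 3 0 0 (by norm_num) treesM23_00 chkM23_00 H (MFinal_box hR) (MFinal_box hL)
    · exact gridM_final 2 3 0 1 (by norm_num) treesM23_01 chkM23_01 H (MFinal_box hR) (MFinal_ball hL)
    · exact gridM_final 2 3 1 0 (by norm_num) treesM23_10 chkM23_10 H (MFinal_ball hR) (MFinal_box hL)
    · exact gridM_final 2 3 1 1 (by norm_num) treesM23_11 chkM23_11 H (MFinal_ball hR) (MFinal_ball hL)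
  · rcases hR with hR | hR <;> rcases hL with hL | hL
    · exact gridM_final 1 3 0 0 (by norm_num) treesM13_00 chkM13_00 H (MFinal_box hR) (MFinal_box hL)
    · exact gridM_final 1 3 0 1 (by norm_num) treesM13_01 chkM13_01 H (MFinal_box hR) (MFinal_ball hL)
    · exact gridM_final 1 3 1 0 (by norm_num) treesM13_10 chkM13_10 H (MFinal_ball hR) (MFinal_box hL)
    · exact gridM_final 1 3 1 1 (by norm_num) treesM13_11 chkM13_11 H (MFinal_ball hR) (MFinal_ball hL)

end Pool.Agent.MaxTerm58
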