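import Pool.Agent.MaxTerm58.MWt

/-! Soundness of a leaf for the family `M`. Model: `ELeaf.lean` (apply `fam_sound` with `s = x`, `t = 0`,
`tside_zero`, `HypM.toV`, `HypM.innR`, `HypM.innL`, `sigM_spec`); sides: mode `0`: `tail_box`, `wtM_spec`, otherwise
`OutN.scaleN` with `w = cr / 10^4`, `ν = nu / 10^8` (`okNu_spec`, `sideM1_spec`, `dU_spec`), `wtM_spec`, `tail_ball`,
`tauM_spec`; `gW` at `n ≥ b + 1 + PR`: at most `wb + rqc^(b + 1 + PR)`, at `n ≤ -(a + 1 + PL)`: at most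
`wa + rqc^(a + 1 + PL)` (`lc = []`; `rqc = radS Q x y`, `radius_spec`; the sum of the weights is at most one). -/

namespace Pool.Agent.MaxTerm58

def OutX (md g : ℕ) (D : ℝ) (r : ℕ → ℂ) : Prop := if md = 0 then OutM g D r else OutN g D r

/-- the sector of the parameter -/
def SecM (a b : ℕ) (x : ℂ) : Prop :=
  0 ≤ x.re ∧ (a * b = 3 → x.im ^ 2 ≤ 3 * x.re ^ 2) ∧ (a * b = 6 → 3 * x.im ^ 2 ≤ x.re ^ 2)

def CellM (a b mR mL x y Q : ℕ) : Prop :=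
  ∀ (s : ℂ) (D : ℝ) (v : ℤ → ℂ), HypM a b s D v → OutX mR b D (fun i => v (b + 1 + (i : ℤ))) →
    OutX mL a D (fun i => v (-(a : ℤ) - 1 - (i : ℤ))) → SecM a b s → InSq s x y Q → False

private theorem MLeaf_wt0 (nd : List (ℂ × ℂ)) : 0 ≤ wtC nd := by
  unfold wtC
  apply List.sum_nonneg
  intro x hx
  obtain ⟨y, _, rfl⟩ := List.mem_map.1 hx
  exact norm_nonneg _

private theorem MLeaf_side {F : FamS} {dl : List (ℕ × ℕ)} {P x y Q R rp : ℕ} {la lb lc : List ℕ}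
    (h : F.chk dl P x y Q R rp la lb lc = true) :
    0 < Q ∧ wtC (la.map ndC) + wtC (lb.map ndC) ≤ 1 := by
  unfold FamS.chk checkW sideW at h
  simp only [Bool.and_eq_true, Nat.ble_eq, List.all_eq_true] at h
  obtain ⟨_, ⟨⟨⟨⟨⟨⟨⟨⟨⟨⟨⟨⟨⟨⟨⟨⟨h1, h2⟩, h3⟩, h4⟩, h5⟩, h6⟩, h7⟩, h8⟩, h9⟩, h10⟩, h11⟩, h12⟩, h13⟩, h14⟩,
    h15⟩, h16⟩, h17⟩, _⟩ := h
  refine ⟨h1, ?_⟩
  have a1 := wsumP_spec la
  have a2 := wsumP_spec lb
  have a3 := wsumP_spec lc
  have a5 := MLeaf_wt0 (lc.map ndC)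
  have a4 : ((wsumP la : ℕ) : ℝ) + (((wsumP lb : ℕ) : ℝ) + ((wsumP lc : ℕ) : ℝ)) ≤ 100000000 := by
    have h21 : wsumP la + (wsumP lb + wsumP lc) ≤ 100000000 := h10
    exact_mod_cast h21
  linarith

/-- the multiplier at the right tail -/
private theorem MLeaf_gR (s t : ℂ) (wa wb : ℝ) (ha1 : wa ≤ 1) (hs1 : ‖s‖ ≤ 1)
    (ρ : ℝ) (hs : ‖s‖ ≤ ρ) (n k : ℕ) (hk : k ≤ n) (c : ℝ)
    (hc : wb ≤ c) : gW 0 0 s t wa wb 0 (n : ℤ) ≤ c + ρ ^ k := by
  have e : ∀ X : ℕ, ebZ 0 X (n : ℤ) = 0 := fun X => by simp [ebZ]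
  have f0 : eaZ 0 0 (n : ℤ) = n := by
    unfold eaZ
    rw [if_pos rfl]
    omega
  have f1 : eaZ 0 1 (n : ℤ) = 0 := by
    unfold eaZ
    rw [if_neg (by norm_num)]
    exact Int.toNat_of_nonpos (by omega)
  unfold gW
  rw [e, e, e, f0, f1, pow_zero, pow_zero, mul_one, mul_one, mul_one, zero_mul, add_zero]
  have h1 : ‖s‖ ^ n ≤ ρ ^ k :=
    (pow_le_pow_of_le_one (norm_nonneg s) hs1 hk).trans (pow_le_pow_left₀ (norm_nonneg s) hs _)
  have h2 : wa * ‖s‖ ^ n ≤ 1 * ‖s‖ ^ n :=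
    mul_le_mul_of_nonneg_right ha1 (by positivity)
  linarith

/-- the multiplier at the left tail -/
private theorem MLeaf_gL (s t : ℂ) (wa wb : ℝ) (hb1 : wb ≤ 1) (hs1 : ‖s‖ ≤ 1)
    (ρ : ℝ) (hs : ‖s‖ ≤ ρ) (n k : ℕ) (hk : k ≤ n) (c : ℝ)
    (hc : wa ≤ c) : gW 0 0 s t wa wb 0 (-(n : ℤ)) ≤ c + ρ ^ k := by
  have e : ∀ X : ℕ, ebZ 0 X (-(n : ℤ)) = 0 := fun X => by simp [ebZ]
  have f0 : eaZ 0 0 (-(n : ℤ)) = 0 := by
    unfold eaZ
    rw [if_pos rfl]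
    exact Int.toNat_of_nonpos (by omega)
  have f1 : eaZ 0 1 (-(n : ℤ)) = n := by
    unfold eaZ
    rw [if_neg (by norm_num)]
    omega
  unfold gW
  rw [e, e, e, f0, f1, pow_zero, pow_zero, mul_one, mul_one, mul_one, zero_mul, add_zero]
  have h1 : ‖s‖ ^ n ≤ ρ ^ k :=
    (pow_le_pow_of_le_one (norm_nonneg s) hs1 hk).trans (pow_le_pow_left₀ (norm_nonneg s) hs _)
  have h2 : wb * ‖s‖ ^ n ≤ 1 * ‖s‖ ^ n :=
    mul_le_mul_of_nonneg_right hb1 (by positivity)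
  linarith

/-- one side -/
private theorem MLeaf_out {md g cr nu P dd : ℕ} (hg : g = 1 ∨ g = 2 ∨ g = 3) (hdd : 0 < dd)
    (h : sideM1 md g cr nu P dd = true) {D : ℝ} (hD : D ≤ (dd : ℝ) / 100000000) {r : ℕ → ℂ}
    (hO : OutX md g D r) (s t : ℂ) :
    SeqOK md nu (g - 1) (wtM md g cr) P r s t ∧
      ∑' i, ‖r (P + i)‖ ≤ (tauM md g cr P : ℝ) / 100000000 := by
  obtain ⟨h1, h2, h3, h4⟩ := sideM1_spec h
  have hg0 : 0 < g := by omega
  have hτ := tauM_spec md g cr P hg0 h2 h3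
  have hDw := hD.trans h1
  have hw1 : (cr : ℝ) / 10000 < 1 := by
    rw [div_lt_one (by norm_num)]
    exact_mod_cast h2
  have hw0 : (0 : ℝ) ≤ (cr : ℝ) / 10000 := by positivity
  have hwt := fun i => wtM_spec md g cr i s t
  unfold OutX at hO
  unfold SeqOK
  by_cases hmd : md = 0
  · rw [if_pos hmd] at hO hτ ⊢
    have hD0 : 0 ≤ D := by
      have h5 := hO 0
      have h6 : 0 + 1 + (0 + 1 - g) = 1 := by omega
      rw [h6, pow_one] at h5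
      exact (pow_nonneg (norm_nonneg _) _).trans h5
    obtain ⟨h5, h6⟩ := tail_box hg0 hw0 hw1 hD0 hDw h3 hO
    refine ⟨fun i _ => (h5 i).trans ?_, h6.trans hτ⟩
    have h7 := hwt i
    rw [if_pos hmd] at h7
    exact h7
  · rw [if_neg hmd] at hO hτ ⊢
    obtain ⟨h5, h6⟩ := h4 hmd
    have hwp : (0 : ℝ) < (cr : ℝ) / 10000 := by
      rcases hw0.lt_or_eq with h7 | h7
      · exact h7
      · exfalso
        rw [← h7, zero_pow hg0.ne'] at h1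
        have h8 : (0 : ℝ) < (dd : ℝ) / 100000000 := by
          have : (0 : ℝ) < dd := by exact_mod_cast hdd
          positivity
        linarith
    obtain ⟨c, u, c0, c1, hu, hS1, hS2, hr⟩ := hO.scaleN hg hwp hw1.le hDw
      (by positivity : (0 : ℝ) ≤ (nu : ℝ) / 100000000) (okNu_spec h5) h6
    refine ⟨⟨c, u, c0, c1, by omega, hS1, fun i _ => (hr i).trans ?_⟩, ?_⟩
    · refine mul_le_mul_of_nonneg_left ?_ (c0 i)
      have h7 := hwt i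
      rw [if_neg hmd, add_zero] at h7
      exact h7
    · have hκ : (0 : ℝ) ≤ (170919 / 100000) ^ 2 - 2 - ((cr : ℝ) / 10000) ^ (2 * g) := by
        have h7 := hS2 ∅ (Finset.notMem_empty u) (fun i hi => absurd hi (Finset.notMem_empty i))
        rw [Finset.sum_empty] at h7
        exact h7
      exact (tail_ball hw0 hw1 hκ c0 c1 hS2 (r := fun i => ‖r i‖) (fun i => norm_nonneg _) hr).trans hτ

private theorem MLeaf_sq {a E z : ℝ} {k : ℕ} (h1 : a ^ 2 ≤ E - z) (h2 : E - z ≤ ((k : ℝ) / 100000000) ^ 2) :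
    a ≤ (k : ℝ) / 100000000 :=
  abs_le_of_sq_le_sq' (h1.trans h2) (by positivity) |>.2

private theorem MLeaf_wtV0 (k : ℕ) (s t : ℂ) : wtV (k, 0, 0) s t = (k : ℝ) / 100000000 := by
  simp [wtV]

private theorem MLeaf_dU (a rx : ℕ) : 0 < dU a rx := by
  unfold dU
  rw [maxU_eq]
  exact lt_of_lt_of_le (by norm_num : 0 < 34001000) (le_max_left _ _)

private theorem MLeaf_perm (a b : ℕ) (hab : (a = 1 ∧ b = 2) ∨ (a = 2 ∧ b = 3) ∨ (a = 1 ∧ b = 3))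
    (wA wB : ℕ → ℕ × ℕ × ℕ) :
    (([(false, a), (true, 0), (true, b)] : List (Bool × ℕ)).map (fun p => posZ p.1 p.2) ++
      (posL true wA (Nat.sub b 1) 1 0 ++ posL false wB (Nat.sub a 1) 1 0).map PosW.z).Perm
      ((List.range (a + b + 1)).map (fun i => (i : ℤ) - a)) := by
  rcases hab with ⟨rfl, rfl⟩ | ⟨rfl, rfl⟩ | ⟨rfl, rfl⟩
  · show List.Perm ([-1, 0, 2, 1] : List ℤ) [-1, 0, 1, 2]
    decide
  · show List.Perm ([-2, 0, 3, 1, 2, -1] : List ℤ) [-2, -1, 0, 1, 2, 3]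
    decide
  · show List.Perm ([-1, 0, 3, 1, 2] : List ℤ) [-1, 0, 1, 2, 3]
    decide

theorem checkM_sound (a b mR mL x y Q crR crL nuR nuL P nL nR PL PR : ℕ)
    (hab : (a = 1 ∧ b = 2) ∨ (a = 2 ∧ b = 3) ∨ (a = 1 ∧ b = 3)) (la lb : List ℕ)
    (h : checkM a b mR mL x y Q crR crL nuR nuL P nL nR PL PR la lb = true) : CellM a b mR mL x y Q := by
  intro s D v H hR hL _ hs
  have ha : 0 < a := by omega
  have hb : 0 < b := by omega
  unfold checkM at h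
  rw [Bool.and_eq_true, Bool.and_eq_true] at h
  obtain ⟨⟨h1, h2⟩, h3⟩ := h
  obtain ⟨rqc, e2⟩ : ∃ n, n = radS Q x y := ⟨_, rfl⟩
  rw [← e2] at h1 h2 h3
  have h3' := h3
  obtain ⟨hQ, hw⟩ := MLeaf_side h3'
  have ha0 := MLeaf_wt0 (la.map ndC)
  have hb0 := MLeaf_wt0 (lb.map ndC)
  have hwa : wtC (la.map ndC) ≤ (wsumP la : ℝ) / 100000000 := by
    rw [le_div_iff₀ (by norm_num)]
    exact wsumP_spec la
  have hwb : wtC (lb.map ndC) ≤ (wsumP lb : ℝ) / 100000000 := by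
    rw [le_div_iff₀ (by norm_num)]
    exact wsumP_spec lb
  have hc0 : wtC (([] : List ℕ).map ndC) = 0 := by simp [wtC]
  have hsr : ‖s‖ ≤ (rqc : ℝ) / 10000 := by
    have h5 : ‖s‖ + 1 / 100000 ≤ ((radS Q x y : ℕ) : ℝ) / 10000 := radius_spec x y Q hQ s hs
    rw [e2]
    linarith
  have HV : HypV 0 0 s 0 v := by
    refine H.toV ha hb ?_ ?_
    · unfold OutX at hR
      by_cases hm : mR = 0
      · rw [if_pos hm] at hR
        exact Or.inl hR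
      · rw [if_neg hm] at hR
        exact Or.inr hR
    · unfold OutX at hL
      by_cases hm : mL = 0
      · rw [if_pos hm] at hL
        exact Or.inl hL
      · rw [if_neg hm] at hL
        exact Or.inr hL
  have hs1 := HV.s_le
  have hDU := dU_spec a rqc s hsr D H.hD H.hD1
  obtain ⟨sR, tR⟩ := MLeaf_out (by omega : b = 1 ∨ b = 2 ∨ b = 3) (MLeaf_dU a rqc) h1 hDU hR s 0
  obtain ⟨sL, tL⟩ := MLeaf_out (by omega : a = 1 ∨ a = 2 ∨ a = 3) (MLeaf_dU a rqc) h2 hDU hL s 0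
  obtain ⟨w', hTS⟩ := tside_zero 0
  have hsA := sigM_spec a x y Q hQ s hs
  have hsB := sigM_spec b x y Q hQ s hs
  refine fam_sound (famM a b mR mL crR crL nuR nuL nL nR PL PR rqc (sigM a Q x y) (sigM b Q x y)
    (wsumP la) (wsumP lb)) h3 HV hs hTS hsr
    (by rw [norm_zero]; exact div_nonneg (Nat.cast_nonneg _) (by norm_num)) ?_ ?_ ?_ sR sL
    ((wsumP lb : ℝ) / 100000000 + ((rqc : ℝ) / 10000) ^ (b + 1 + PR))
    ((wsumP la : ℝ) / 100000000 + ((rqc : ℝ) / 10000) ^ (a + 1 + PL))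
    ((tauM mR b crR PR : ℝ) / 100000000) ((tauM mL a crL PL : ℝ) / 100000000) ?_ ?_ ?_ ?_ ?_
  · intro p hp
    have hp' : p ∈ [(false, a), (true, 0), (true, b)] := hp
    rcases List.mem_cons.1 hp' with rfl | hp'
    · exact H.va
    rcases List.mem_cons.1 hp' with rfl | hp'
    · exact H.v0
    rcases List.mem_cons.1 hp' with rfl | hp'
    · exact H.vb
    · exact absurd hp' List.not_mem_nil
  · exact MLeaf_perm a b hab _ _
  · intro p hp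
    have hp' : p ∈ posL true (fun _ => (sigM a Q x y, 0, 0)) (Nat.sub b 1) 1 0 ++
      posL false (fun _ => (sigM b Q x y, 0, 0)) (Nat.sub a 1) 1 0 := hp
    rcases List.mem_append.1 hp' with hp | hp
    · obtain ⟨i, hi, rfl⟩ := List.getElem_of_mem hp
      rw [posL_get]
      rw [posL_length] at hi
      have hi' : i < b - 1 := hi
      show ‖v (((1 + i : ℕ)) : ℤ)‖ ≤ wtV (sigM a Q x y, 0, 0) s 0
      rw [MLeaf_wtV0]
      exact MLeaf_sq (H.innR ha HV (1 + i) (by omega) (by omega)) hsA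
    · obtain ⟨i, hi, rfl⟩ := List.getElem_of_mem hp
      rw [posL_get]
      rw [posL_length] at hi
      have hi' : i < a - 1 := hi
      show ‖v (-((1 + i : ℕ) : ℤ))‖ ≤ wtV (sigM b Q x y, 0, 0) s 0
      rw [MLeaf_wtV0]
      exact MLeaf_sq (H.innL hb HV (1 + i) (by omega) (by omega)) hsB
  · intro i
    have e : ((b : ℤ) + 1 + (PR : ℤ) + (i : ℤ)) = ((b + 1 + PR + i : ℕ) : ℤ) := by
      push_cast
      ring
    show gW 0 0 s 0 _ _ _ ((b : ℤ) + 1 + (PR : ℤ) + (i : ℤ)) ≤ _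
    rw [e, hc0]
    exact MLeaf_gR s 0 _ _ (by linarith) hs1 _ hsr _ _ (by omega) _ hwb
  · intro i
    have e : (-(a : ℤ) - 1 - (PL : ℤ) - (i : ℤ)) = -((a + 1 + PL + i : ℕ) : ℤ) := by
      push_cast
      ring
    show gW 0 0 s 0 _ _ _ (-(a : ℤ) - 1 - (PL : ℤ) - (i : ℤ)) ≤ _
    rw [e, hc0]
    exact MLeaf_gL s 0 _ _ (by linarith) hs1 _ hsr _ _ (by omega) _ hwa
  · have e : ∀ i : ℕ, ((b : ℤ) + 1 + (PR : ℤ) + (i : ℤ)) = (b : ℤ) + 1 + ((PR + i : ℕ) : ℤ) := by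
      intro i
      push_cast
      ring
    show ∑' i : ℕ, ‖v ((b : ℤ) + 1 + (PR : ℤ) + (i : ℤ))‖ ≤ _
    simp only [e]
    exact tR
  · have e : ∀ i : ℕ, (-(a : ℤ) - 1 - (PL : ℤ) - (i : ℤ)) = -(a : ℤ) - 1 - ((PL + i : ℕ) : ℤ) := by
      intro i
      push_cast
      ring
    show ∑' i : ℕ, ‖v (-(a : ℤ) - 1 - (PL : ℤ) - (i : ℤ))‖ ≤ _
    simp only [e]
    exact tL
  · exact tailM_spec a b mR mL crR crL rqc PR PL (wsumP la) (wsumP lb) _ _ le_rfl le_rfl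

end Pool.Agent.MaxTerm58
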