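import Pool.Agent.MaxTerm58.THyp
import Pool.Agent.MaxTerm58.MDef

/-! Rescaling of the raw data beyond a mismatched vertex, tails. Model: `OutN.scale` in `THyp.lean`.
With `s = y ^ 2`: `s (E - s^g) ≤ w^2 ν^2` for `0 ≤ s ≤ w^2`: in the first case the left side is increasing, in the
second case `(s (E - s^g))^g = p (E - p)^g ≤ g^g E^(g+1) / (g+1)^(g+1)`, `p = s^g` (`g = 1, 2, 3`).
Second ball: `y^(2(i+1)) (E - y^(2g))` is increasing on `[0, w]` for `i ≥ P`. -/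

namespace Pool.Agent.MaxTerm58

private theorem MScale_geo (n : ℕ) {t : ℝ} (h0 : 0 ≤ t) (h1 : t ≤ 1) :
    (n : ℝ) * t ^ n * (1 - t) ≤ 1 - t ^ n := by
  induction n with
  | zero => simp
  | succ n ih =>
    have h2 : 0 ≤ (1 - t) * (1 - t ^ (n + 1)) :=
      mul_nonneg (by linarith) (by linarith [pow_le_one₀ (n := n + 1) h0 h1])
    have h3 := mul_le_mul_of_nonneg_left ih h0
    push_cast
    have e1 : ((n : ℝ) + 1) * t ^ (n + 1) * (1 - t) =
        t * ((n : ℝ) * t ^ n * (1 - t)) + t ^ (n + 1) * (1 - t) := by ring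
    rw [e1]
    have e2 : t * (1 - t ^ n) = t - t ^ (n + 1) := by ring
    rw [e2] at h3
    nlinarith

private theorem MScale_amgm (n g : ℕ) {t : ℝ} (h0 : 0 ≤ t) (h1 : t ≤ 1) :
    ((n : ℝ) + g) * t ^ n ≤ g + n * t ^ (n + g) := by
  induction g with
  | zero => simp
  | succ g ih =>
    have h2 := MScale_geo n h0 h1
    have h3 : t ^ (n + g) ≤ t ^ n := pow_le_pow_of_le_one h0 h1 (Nat.le_add_right n g)
    have h4 : (n : ℝ) * t ^ (n + g) * (1 - t) ≤ (n : ℝ) * t ^ n * (1 - t) :=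
      mul_le_mul_of_nonneg_right (mul_le_mul_of_nonneg_left h3 (Nat.cast_nonneg n)) (by linarith)
    push_cast
    have e1 : t ^ (n + (g + 1)) = t ^ (n + g) * t := by rw [← add_assoc, pow_succ]
    rw [e1]
    nlinarith

/-- monotonicity of `s^n (E - s^g)` -/
private theorem MScale_mono (n g : ℕ) (hn : 0 < n) {t X E : ℝ} (h0 : 0 ≤ t) (h1 : t ≤ 1)
    (hX : 0 ≤ X) (hE : ((g : ℝ) + n) * X ≤ n * E) : t ^ n * (E - t ^ g * X) ≤ E - X := by
  have h2 := MScale_amgm n g h0 h1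
  have h3 : 0 ≤ 1 - t ^ n := by linarith [pow_le_one₀ (n := n) h0 h1]
  have hn' : (0 : ℝ) < n := by exact_mod_cast hn
  have h4 := mul_le_mul_of_nonneg_right hE h3
  have h5 := mul_le_mul_of_nonneg_left h2 hX
  have h6 : (n : ℝ) * (t ^ n * (E - t ^ g * X)) ≤ n * (E - X) := by
    have e1 : (n : ℝ) * (t ^ n * (E - t ^ g * X)) = n * E * t ^ n - X * (n * t ^ (n + g)) := by
      rw [pow_add]
      ring
    rw [e1]
    nlinarith
  exact le_of_mul_le_mul_left h6 hn'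

private theorem MScale_max {g : ℕ} (hg : g = 1 ∨ g = 2 ∨ g = 3) {p E : ℝ} (hpE : p ≤ E)
    (hE : 0 ≤ E) : ((g : ℝ) + 1) ^ (g + 1) * (p * (E - p) ^ g) ≤ (g : ℝ) ^ g * E ^ (g + 1) := by
  rcases hg with rfl | rfl | rfl
  · push_cast
    nlinarith [sq_nonneg (E - 2 * p)]
  · push_cast
    have h : 0 ≤ (E - 3 * p) ^ 2 * (4 * E - 3 * p) := mul_nonneg (sq_nonneg _) (by linarith)
    nlinarith
  · push_cast
    have h : 0 ≤ (E - 4 * p) ^ 2 * (27 * E ^ 2 - 40 * E * p + 16 * p ^ 2) :=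
      mul_nonneg (sq_nonneg _) (by nlinarith [sq_nonneg (5 * E - 4 * p), sq_nonneg E])
    nlinarith

theorem OutN.scaleN {g : ℕ} (hg : g = 1 ∨ g = 2 ∨ g = 3) {D w ν : ℝ} {P : ℕ} {r : ℕ → ℂ} (h : OutN g D r)
    (hw : 0 < w) (hw1 : w ≤ 1) (hD : D ≤ w ^ g) (hν0 : 0 ≤ ν)
    (hν : (((g : ℝ) + 1) * w ^ (2 * g) ≤ (170919 / 100000) ^ 2 - 2 ∧
        (170919 / 100000) ^ 2 - 2 - w ^ (2 * g) ≤ ν ^ 2) ∨
      (g : ℝ) ^ g * ((170919 / 100000) ^ 2 - 2) ^ (g + 1) ≤ ((g : ℝ) + 1) ^ (g + 1) * (ν * w) ^ (2 * g))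
    (hP : ((g : ℝ) + (P + 1)) * w ^ (2 * g) ≤ (P + 1) * ((170919 / 100000) ^ 2 - 2)) :
    ∃ (c : ℕ → ℝ) (u : ℕ), (∀ i, 0 ≤ c i) ∧ (∀ i, c i ≤ 1) ∧ u + 1 ≠ g ∧
      (∀ S : Finset ℕ, u ∉ S → ∑ i ∈ S, c i ^ 2 ≤ ν ^ 2) ∧
      (∀ S : Finset ℕ, u ∉ S → (∀ i ∈ S, P ≤ i) → ∑ i ∈ S, c i ^ 2 ≤ (170919 / 100000) ^ 2 - 2 - w ^ (2 * g)) ∧
      ∀ i, ‖r i‖ ≤ c i * w ^ (i + 1) := by
  have hE0 : (0 : ℝ) ≤ (170919 / 100000) ^ 2 - 2 := by norm_num
  generalize hEE : ((170919 / 100000 : ℝ)) ^ 2 - 2 = E at *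
  have hg0 : 0 < g := by omega
  obtain ⟨y, c, u, hy0, hyD, hc0, hc1, hu, hS, hr⟩ := h
  rw [hEE] at hS
  have hyw : y ^ g ≤ w ^ g := hyD.trans hD
  have hyw' : y ≤ w := le_of_pow_le_pow_left₀ (by omega) hw.le hyw
  have hq0 : 0 ≤ y / w := by positivity
  have hq1 : y / w ≤ 1 := (div_le_one hw).2 hyw'
  set t : ℝ := (y / w) ^ 2 with ht
  have ht0 : 0 ≤ t := by rw [ht]; positivity
  have ht1 : t ≤ 1 := by rw [ht]; exact pow_le_one₀ hq0 hq1
  have hyt : y ^ (2 * g) = t ^ g * w ^ (2 * g) := by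
    rw [ht, ← pow_mul, ← mul_pow, div_mul_cancel₀ _ hw.ne']
  have hci : ∀ i, (c i * (y / w) ^ (i + 1)) ^ 2 = c i ^ 2 * t ^ (i + 1) := by
    intro i
    rw [mul_pow, ht, ← pow_mul, ← pow_mul, mul_comm 2 (i + 1)]
  -- sums
  have key : ∀ (n : ℕ) (S : Finset ℕ), u ∉ S → (∀ i ∈ S, n ≤ i) →
      ∑ i ∈ S, (c i * (y / w) ^ (i + 1)) ^ 2 ≤ t ^ (n + 1) * (E - t ^ g * w ^ (2 * g)) := by
    intro n S huS hn
    have h1 := hS S huS
    rw [hyt] at h1
    refine le_trans ?_ (mul_le_mul_of_nonneg_left h1 (pow_nonneg ht0 (n + 1)))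
    rw [Finset.mul_sum]
    refine Finset.sum_le_sum fun i hi => ?_
    rw [hci i, mul_comm]
    refine mul_le_mul_of_nonneg_right ?_ (sq_nonneg _)
    exact pow_le_pow_of_le_one ht0 ht1 (by have := hn i hi; omega)
  refine ⟨fun i => c i * (y / w) ^ (i + 1), u, fun i => mul_nonneg (hc0 i) (by positivity),
      fun i => mul_le_one₀ (hc1 i) (by positivity) (pow_le_one₀ hq0 hq1), hu, ?_, ?_, ?_⟩
  · intro S huS
    have h1 := key 0 S huS (fun i _ => Nat.zero_le i)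
    refine h1.trans ?_
    rw [zero_add, pow_one]
    rcases hν with ⟨h2, h3⟩ | h2
    · have h4 := MScale_mono 1 g one_pos ht0 ht1 (by positivity : (0 : ℝ) ≤ w ^ (2 * g))
        (E := E) (by push_cast; linarith)
      rw [pow_one] at h4
      exact h4.trans h3
    · rcases le_or_gt (E - t ^ g * w ^ (2 * g)) 0 with h3 | h3
      · exact (mul_nonpos_of_nonneg_of_nonpos ht0 h3).trans (sq_nonneg ν)
      · have h4 := MScale_max hg (p := t ^ g * w ^ (2 * g)) (E := E) (by linarith) hE0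
        have h5 := h4.trans h2
        have hgp : (0 : ℝ) < ((g : ℝ) + 1) ^ (g + 1) := by positivity
        have h6 := le_of_mul_le_mul_left h5 hgp
        -- p (E - p)^g ≤ (ν w)^(2 g)
        have h7 : (t * w ^ 2 * (E - t ^ g * w ^ (2 * g))) ^ g ≤ (ν ^ 2 * w ^ 2) ^ g := by
          have e1 : (t * w ^ 2 * (E - t ^ g * w ^ (2 * g))) ^ g =
              t ^ g * w ^ (2 * g) * (E - t ^ g * w ^ (2 * g)) ^ g := by
            rw [mul_pow, mul_pow, ← pow_mul w 2 g]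
          have e2 : (ν ^ 2 * w ^ 2) ^ g = (ν * w) ^ (2 * g) := by
            rw [← mul_pow, ← pow_mul]
          rw [e1, e2]
          exact h6
        have h8 := le_of_pow_le_pow_left₀ hg0.ne' (by positivity) h7
        have hw2 : (0 : ℝ) < w ^ 2 := by positivity
        refine le_of_mul_le_mul_right ?_ hw2
        refine le_trans (le_of_eq ?_) h8
        ring
  · intro S huS hSP
    have h1 := key P S huS hSP
    refine h1.trans ?_
    exact MScale_mono (P + 1) g (Nat.succ_pos P) ht0 ht1 (by positivity) (by push_cast; exact hP)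
  · intro i
    refine (hr i).trans (le_of_eq ?_)
    show c i * y ^ (i + 1) = c i * (y / w) ^ (i + 1) * w ^ (i + 1)
    rw [mul_assoc, ← mul_pow, div_mul_cancel₀ _ hw.ne']

/-- the tail of a ball side -/
theorem tail_ball {w κ : ℝ} {P u : ℕ} {c r : ℕ → ℝ} (hw : 0 ≤ w) (hw1 : w < 1) (hκ : 0 ≤ κ) (hc0 : ∀ i, 0 ≤ c i)
    (hc1 : ∀ i, c i ≤ 1)
    (hS : ∀ S : Finset ℕ, u ∉ S → (∀ i ∈ S, P ≤ i) → ∑ i ∈ S, c i ^ 2 ≤ κ)
    (hr0 : ∀ i, 0 ≤ r i) (hr : ∀ i, r i ≤ c i * w ^ (i + 1)) :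
    ∑' i, r (P + i) ≤ w ^ (P + 1) * (1 + √(κ / (1 - w ^ 2))) := by
  have hw2 : w ^ 2 < 1 := pow_lt_one₀ hw hw1 (by norm_num)
  refine Real.tsum_le_of_sum_le (fun i => hr0 (P + i)) fun T => ?_
  have hsplit : ∑ i ∈ T, r (P + i) ≤ r (P + (u - P)) + ∑ i ∈ T.erase (u - P), r (P + i) := by
    by_cases hk : u - P ∈ T
    · rw [Finset.add_sum_erase T (fun i => r (P + i)) hk]
    · rw [Finset.erase_eq_of_notMem hk]
      linarith [hr0 (P + (u - P))]
  have hone : r (P + (u - P)) ≤ w ^ (P + 1) := by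
    refine (hr _).trans ?_
    refine (mul_le_of_le_one_left (by positivity) (hc1 _)).trans ?_
    exact pow_le_pow_of_le_one hw hw1.le (by omega)
  have hsum : ∑ i ∈ T.erase (u - P), r (P + i) ≤ w ^ (P + 1) * √(κ / (1 - w ^ 2)) := by
    have h1 : ∑ i ∈ T.erase (u - P), r (P + i) ≤
        w ^ (P + 1) * ∑ i ∈ T.erase (u - P), c (P + i) * w ^ i := by
      rw [Finset.mul_sum]
      refine Finset.sum_le_sum fun i _ => ?_
      refine (hr _).trans (le_of_eq ?_)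
      have e : w ^ (P + i + 1) = w ^ (P + 1) * w ^ i := by
        rw [← pow_add]
        congr 1
        omega
      rw [e]
      ring
    refine h1.trans (mul_le_mul_of_nonneg_left ?_ (by positivity))
    refine (Real.sum_mul_le_sqrt_mul_sqrt _ _ _).trans ?_
    have h2 : ∑ i ∈ T.erase (u - P), c (P + i) ^ 2 ≤ κ := by
      have h3 := hS ((T.erase (u - P)).map (addLeftEmbedding P)) (by
        rw [Finset.mem_map]
        rintro ⟨i, hi, hiu⟩
        have hiu' : P + i = u := hiu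
        have h4 := (Finset.mem_erase.1 hi).1
        omega) (by
        intro i hi
        rw [Finset.mem_map] at hi
        obtain ⟨j, _, rfl⟩ := hi
        exact Nat.le_add_right P j)
      rw [Finset.sum_map] at h3
      exact h3
    have h3 : ∑ i ∈ T.erase (u - P), (w ^ i) ^ 2 ≤ 1 / (1 - w ^ 2) := by
      have hs : Summable fun i : ℕ => (w ^ 2) ^ i := summable_geometric_of_lt_one (by positivity) hw2
      have h4 := hs.sum_le_tsum (T.erase (u - P)) (fun i _ => by positivity)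
      rw [tsum_geometric_of_lt_one (by positivity) hw2, inv_eq_one_div] at h4
      refine le_trans (le_of_eq ?_) h4
      refine Finset.sum_congr rfl fun i _ => ?_
      rw [← pow_mul, ← pow_mul, mul_comm]
    calc √(∑ i ∈ T.erase (u - P), c (P + i) ^ 2) * √(∑ i ∈ T.erase (u - P), (w ^ i) ^ 2)
        ≤ √κ * √(1 / (1 - w ^ 2)) :=
          mul_le_mul (Real.sqrt_le_sqrt h2) (Real.sqrt_le_sqrt h3) (Real.sqrt_nonneg _)
            (Real.sqrt_nonneg _)
      _ = √(κ / (1 - w ^ 2)) := by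
          rw [← Real.sqrt_mul hκ, mul_one_div]
  calc ∑ i ∈ T, r (P + i) ≤ w ^ (P + 1) + w ^ (P + 1) * √(κ / (1 - w ^ 2)) := by linarith
    _ = w ^ (P + 1) * (1 + √(κ / (1 - w ^ 2))) := by ring

/-- the tail of a box side -/
theorem tail_box {w D : ℝ} {g P : ℕ} (hg : 0 < g) {r : ℕ → ℂ} (hw : 0 ≤ w) (hw1 : w < 1) (hD0 : 0 ≤ D)
    (hD : D ≤ w ^ g) (hP : g ≤ P + 1) (hr : OutM g D r) :
    (∀ i, ‖r i‖ ≤ w ^ (i + 1 + (i + 1 - g))) ∧ ∑' i, ‖r (P + i)‖ ≤ w ^ (2 * (P + 1) - g) / (1 - w ^ 2) := by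
  have h1 : ∀ i, ‖r i‖ ≤ w ^ (i + 1 + (i + 1 - g)) := by
    intro i
    refine le_of_pow_le_pow_left₀ hg.ne' (by positivity) ((hr i).trans ?_)
    rw [← pow_mul, mul_comm (i + 1 + (i + 1 - g)) g, pow_mul]
    exact pow_le_pow_left₀ hD0 hD _
  refine ⟨h1, ?_⟩
  have hw2 : w ^ 2 < 1 := pow_lt_one₀ hw hw1 (by norm_num)
  have hs : Summable fun i : ℕ => w ^ (2 * (P + 1) - g) * (w ^ 2) ^ i :=
    (summable_geometric_of_lt_one (by positivity) hw2).mul_left _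
  have hle : ∀ i, ‖r (P + i)‖ ≤ w ^ (2 * (P + 1) - g) * (w ^ 2) ^ i := by
    intro i
    refine (h1 (P + i)).trans (le_of_eq ?_)
    rw [← pow_mul, ← pow_add]
    congr 1
    omega
  have hr' : Summable fun i => ‖r (P + i)‖ := Summable.of_nonneg_of_le (fun _ => norm_nonneg _) hle hs
  refine (hr'.tsum_le_tsum hle hs).trans ?_
  rw [tsum_mul_left, tsum_geometric_of_lt_one (by positivity) hw2, ← div_eq_mul_inv]

private theorem MScale_E : ((170919 / 100000 : ℝ)) ^ 2 - 2 = 9213304561 / 10000000000 := by norm_num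

private theorem MScale_cr (cr g : ℕ) : ((cr : ℝ) / 10000) ^ (2 * g) = (cr : ℝ) ^ (2 * g) / 100000000 ^ g := by
  rw [div_pow]
  congr 1
  rw [pow_mul]
  norm_num

theorem okNu_spec {g cr nu : ℕ} (h : okNu g cr nu = true) :
    (((g : ℝ) + 1) * ((cr : ℝ) / 10000) ^ (2 * g) ≤ (170919 / 100000) ^ 2 - 2 ∧
        (170919 / 100000) ^ 2 - 2 - ((cr : ℝ) / 10000) ^ (2 * g) ≤ ((nu : ℝ) / 100000000) ^ 2) ∨
      (g : ℝ) ^ g * ((170919 / 100000) ^ 2 - 2) ^ (g + 1) ≤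
        ((g : ℝ) + 1) ^ (g + 1) * ((nu : ℝ) / 100000000 * ((cr : ℝ) / 10000)) ^ (2 * g) := by
  unfold okNu at h
  simp only [Bool.or_eq_true, Bool.and_eq_true, Nat.ble_eq] at h
  rw [MScale_E, MScale_cr]
  have hp : (0 : ℝ) < 100000000 ^ g := by positivity
  rcases h with ⟨h1, h2⟩ | h1
  · left
    have h1' : (g + 1) * (cr ^ (2 * g) * 10000000000) ≤ 9213304561 * 100000000 ^ g := h1
    have h2' : 9213304561000000 * 100000000 ^ g ≤
        nu * nu * 100000000 ^ g + 10000000000000000 * cr ^ (2 * g) := h2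
    have h1'' : ((g : ℝ) + 1) * ((cr : ℝ) ^ (2 * g) * 10000000000) ≤ 9213304561 * 100000000 ^ g := by
      exact_mod_cast h1'
    have h2'' : (9213304561000000 : ℝ) * 100000000 ^ g ≤
        nu * nu * 100000000 ^ g + 10000000000000000 * (cr : ℝ) ^ (2 * g) := by
      exact_mod_cast h2'
    constructor
    · rw [← mul_div_assoc, div_le_div_iff₀ hp (by norm_num)]
      linarith
    · rw [sub_le_iff_le_add, div_pow, div_add_div _ _ (by positivity) hp.ne',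
        div_le_div_iff₀ (by norm_num) (by positivity)]
      nlinarith
  · right
    have h1' : g ^ g * 9213304561 ^ (g + 1) * 10 ^ (24 * g) ≤
        (g + 1) ^ (g + 1) * (nu * cr) ^ (2 * g) * 10 ^ (10 * (g + 1)) := h1
    have h1'' : (g : ℝ) ^ g * 9213304561 ^ (g + 1) * 10 ^ (24 * g) ≤
        ((g : ℝ) + 1) ^ (g + 1) * ((nu : ℝ) * cr) ^ (2 * g) * 10 ^ (10 * (g + 1)) := by
      exact_mod_cast h1'
    have e1 : ((nu : ℝ) / 100000000 * ((cr : ℝ) / 10000)) ^ (2 * g) =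
        ((nu : ℝ) * cr) ^ (2 * g) / 10 ^ (24 * g) := by
      have e2 : (nu : ℝ) / 100000000 * ((cr : ℝ) / 10000) = ((nu : ℝ) * cr) / 10 ^ 12 := by
        rw [div_mul_div_comm]
        norm_num
      rw [e2, div_pow, ← pow_mul]
      congr 2
      ring
    have e2 : (9213304561 / 10000000000 : ℝ) ^ (g + 1) =
        9213304561 ^ (g + 1) / 10 ^ (10 * (g + 1)) := by
      rw [div_pow]
      congr 1
      rw [pow_mul]
      norm_num
    rw [e1, e2, ← mul_div_assoc, ← mul_div_assoc, div_le_div_iff₀ (by positivity) (by positivity)]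
    exact h1''

theorem sideM1_spec {md g cr nu P dd : ℕ} (h : sideM1 md g cr nu P dd = true) :
    (dd : ℝ) / 100000000 ≤ ((cr : ℝ) / 10000) ^ g ∧ cr < 10000 ∧ g ≤ P + 1 ∧
    (md ≠ 0 → okNu g cr nu = true ∧
      ((g : ℝ) + (P + 1)) * ((cr : ℝ) / 10000) ^ (2 * g) ≤ (P + 1) * ((170919 / 100000) ^ 2 - 2)) := by
  unfold sideM1 at h
  simp only [Bool.or_eq_true, Bool.and_eq_true, Nat.ble_eq] at h
  obtain ⟨⟨⟨h1, h2⟩, h3⟩, h4⟩ := h
  refine ⟨?_, h2, h3, fun hmd => ?_⟩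
  · have h1' : dd * 10000 ^ g ≤ cr ^ g * 100000000 := h1
    have h1'' : (dd : ℝ) * 10000 ^ g ≤ (cr : ℝ) ^ g * 100000000 := by exact_mod_cast h1'
    rw [div_pow, div_le_div_iff₀ (by norm_num) (by positivity)]
    exact h1''
  · rcases h4 with h4 | ⟨h4, h5⟩
    · exact absurd (Nat.eq_of_beq_eq_true h4) hmd
    · refine ⟨h4, ?_⟩
      rw [MScale_E, MScale_cr]
      have hp : (0 : ℝ) < 100000000 ^ g := by positivity
      have h5' : (g + (P + 1)) * cr ^ (2 * g) * 10000000000 ≤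
          (P + 1) * 9213304561 * 100000000 ^ g := h5
      have h5'' : ((g : ℝ) + (P + 1)) * (cr : ℝ) ^ (2 * g) * 10000000000 ≤
          (P + 1) * 9213304561 * 100000000 ^ g := by exact_mod_cast h5'
      rw [← mul_div_assoc, ← mul_div_assoc, div_le_div_iff₀ hp (by norm_num)]
      exact h5''

end Pool.Agent.MaxTerm58
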