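import Pool.Agent.MaxTerm58.MLeaf
import Pool.Agent.MaxTerm58.ESym

/-! Soundness of the tree for the family `M`, symmetries, assembly. Models: `ETree.lean`, `ESym.lean`.
`HypM.rot`: `X = 1` is evaluated at `ρ₁ z`, `X = 0` at `ρ₀ z`. `normalize`: `a b = 2`: `ρ₀ = 1`, `ρ₁ = ±1`; `a b = 3`:
`ρ₀ = 1`, `ρ₁ ^ 3 = 1` (`exists_rot3`); `a b = 6`: `ρ₀ = ±1`, `ρ₁ ^ 3 = 1` (`exists_rot6`); then conjugation.
`gridM_final`: `i = ⌊8 s.re⌋`, `j = ⌊8 s.im⌋`, both at most `6` since `‖s‖ ≤ 7/8`. -/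

namespace Pool.Agent.MaxTerm58

private theorem MTree_absD (x : ℕ) : ((absD x : ℕ) : ℝ) = |(x : ℝ) - 100000| := by
  unfold absD
  rcases le_total x 100000 with h | h
  · have h1 : Nat.add (Nat.sub x 100000) (Nat.sub 100000 x) = 100000 - x := by
      show (x - 100000) + (100000 - x) = 100000 - x
      omega
    have h2 : (x : ℝ) ≤ 100000 := by exact_mod_cast h
    rw [h1, Nat.cast_sub h, abs_of_nonpos (by linarith)]
    push_cast
    ring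
  · have h1 : Nat.add (Nat.sub x 100000) (Nat.sub 100000 x) = x - 100000 := by
      show (x - 100000) + (100000 - x) = x - 100000
      omega
    have h2 : (100000 : ℝ) ≤ x := by exact_mod_cast h
    rw [h1, Nat.cast_sub h, abs_of_nonneg (by linarith)]
    push_cast
    ring

/-- one coordinate: upper and lower bound of the square -/
private theorem MTree_lin (t : ℝ) (x Q : ℕ) (h : |t * Q - ((x : ℝ) - 100000)| ≤ 1) :
    |t * Q| ≤ ((Nat.succ (absD x) : ℕ) : ℝ) ∧ ((absD x - 1 : ℕ) : ℝ) ≤ |t * Q| := by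
  have e := MTree_absD x
  have h1 : |t * Q| ≤ |(x : ℝ) - 100000| + 1 := by
    have := abs_add_le (t * Q - ((x : ℝ) - 100000)) ((x : ℝ) - 100000)
    rw [sub_add_cancel] at this
    linarith
  have h2 : |(x : ℝ) - 100000| - 1 ≤ |t * Q| := by
    have := abs_add_le (((x : ℝ) - 100000) - t * Q) (t * Q)
    rw [sub_add_cancel, abs_sub_comm ((x : ℝ) - 100000) (t * Q)] at this
    linarith
  constructor
  · rw [Nat.succ_eq_add_one]
    push_cast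
    rw [e]
    exact h1
  · rcases Nat.eq_zero_or_pos (absD x) with h0 | h0
    · rw [h0]
      simp only [Nat.zero_sub, Nat.cast_zero]
      exact abs_nonneg _
    · rw [Nat.cast_sub h0, e, Nat.cast_one]
      exact h2

private theorem MTree_coord (t : ℝ) (x Q : ℕ) (h : |t * Q - ((x : ℝ) - 100000)| ≤ 1) :
    (t * Q) ^ 2 ≤ (((Nat.succ (absD x)) ^ 2 : ℕ) : ℝ) ∧
      (((absD x - 1) ^ 2 : ℕ) : ℝ) ≤ (t * Q) ^ 2 := by
  obtain ⟨h1, h2⟩ := MTree_lin t x Q h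
  constructor
  · rw [← sq_abs (t * Q), Nat.cast_pow]
    exact pow_le_pow_left₀ (abs_nonneg _) h1 2
  · rw [← sq_abs (t * Q), Nat.cast_pow]
    exact pow_le_pow_left₀ (Nat.cast_nonneg _) h2 2

private theorem MTree_norm (z : ℂ) (Q : ℕ) :
    (z.re * Q) ^ 2 + (z.im * Q) ^ 2 = ‖z‖ ^ 2 * (Q : ℝ) ^ 2 := by
  rw [Complex.sq_norm, Complex.normSq_apply]
  ring

/-- the offset coordinate of a nonempty cell is large -/
private theorem MTree_large (t : ℝ) (x Q : ℕ) (ht : |t| ≤ 1) (hQ : Q ≤ 4096)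
    (h : |t * Q - ((x : ℝ) - 100000)| ≤ 1) : 60000 ≤ x := by
  have hQ' : (Q : ℝ) ≤ 4096 := by exact_mod_cast hQ
  have h0 : (0 : ℝ) ≤ Q := Nat.cast_nonneg _
  have h1 : |t * Q| ≤ 4096 := by
    rw [abs_mul, abs_of_nonneg h0]
    nlinarith [abs_nonneg t]
  have h2 := abs_le.1 h1
  have h3 := abs_le.1 h
  have : (60000 : ℝ) ≤ x := by linarith
  exact_mod_cast this

private theorem MTree_cast1 (x : ℕ) (hx : 60000 ≤ x) :
    (((Nat.sub (Nat.mul 2 x) 100001) : ℕ) : ℝ) = 2 * x - 100001 := by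
  show ((2 * x - 100001 : ℕ) : ℝ) = 2 * x - 100001
  rw [Nat.cast_sub (by omega)]
  push_cast
  ring

private theorem MTree_cast2 (x : ℕ) (hx : 60000 ≤ x) :
    (((Nat.sub (Nat.mul 2 x) 99999) : ℕ) : ℝ) = 2 * x - 99999 := by
  show ((2 * x - 99999 : ℕ) : ℝ) = 2 * x - 99999
  rw [Nat.cast_sub (by omega)]
  push_cast
  ring

/-- halving one coordinate -/
private theorem MTree_split (t : ℝ) (x Q : ℕ) (ht : |t| ≤ 1) (hQ : Q ≤ 4096)
    (h : |t * Q - ((x : ℝ) - 100000)| ≤ 1) :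
    |t * ((Nat.mul 2 Q : ℕ) : ℝ) - ((((Nat.sub (Nat.mul 2 x) 100001) : ℕ) : ℝ) - 100000)| ≤ 1 ∨
    |t * ((Nat.mul 2 Q : ℕ) : ℝ) - ((((Nat.sub (Nat.mul 2 x) 99999) : ℕ) : ℝ) - 100000)| ≤ 1 := by
  have hx := MTree_large t x Q ht hQ h
  rw [MTree_cast1 x hx, MTree_cast2 x hx]
  have e : ((Nat.mul 2 Q : ℕ) : ℝ) = 2 * Q := by
    show ((2 * Q : ℕ) : ℝ) = 2 * Q
    push_cast
    ring
  rw [e]
  have h3 := abs_le.1 h
  rcases le_total (t * Q - ((x : ℝ) - 100000)) 0 with h0 | h0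
  · left
    rw [abs_le]
    constructor <;> linarith
  · right
    rw [abs_le]
    constructor <;> linarith

private theorem MTree_beq {m n : ℕ} (h : Nat.beq m n = true) : m = n := Nat.eq_of_beq_eq_true h

theorem outM_sound (a b mR mL x y Q : ℕ) (ha : 0 < a) (h : outM a b x y Q = true) : CellM a b mR mL x y Q := by
  intro s D v H _ _ hS hq
  obtain ⟨hS0, hS3, hS6⟩ := hS
  obtain ⟨x1, x2⟩ := MTree_coord _ _ _ hq.1
  obtain ⟨y1, y2⟩ := MTree_coord _ _ _ hq.2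
  have nq := MTree_norm s Q
  have hQ0 : (0 : ℝ) ≤ (Q : ℝ) ^ 2 := by positivity
  unfold outM at h
  simp only [Bool.or_eq_true, Bool.and_eq_true, Nat.blt_eq] at h
  rcases h with (h | ⟨e, h⟩) | ⟨e, h⟩
  · have h3 : 5776 * Q ^ (2 * a) < 10000 * ((absD x - 1) ^ 2 + (absD y - 1) ^ 2) ^ a := h
    have h4 : (5776 : ℝ) * (Q : ℝ) ^ (2 * a) <
        10000 * ((((absD x - 1) ^ 2 : ℕ) : ℝ) + (((absD y - 1) ^ 2 : ℕ) : ℝ)) ^ a := by exact_mod_cast h3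
    have h5 : ((((absD x - 1) ^ 2 : ℕ) : ℝ) + (((absD y - 1) ^ 2 : ℕ) : ℝ)) ^ a ≤
        (‖s‖ ^ 2 * (Q : ℝ) ^ 2) ^ a := by
      rw [← nq]
      exact pow_le_pow_left₀ (by positivity) (by linarith) a
    have h6 : (‖s‖ ^ 2 * (Q : ℝ) ^ 2) ^ a = (‖s‖ ^ a) ^ 2 * (Q : ℝ) ^ (2 * a) := by
      rw [mul_pow, ← pow_mul, ← pow_mul, ← pow_mul, mul_comm a 2]
    have h7 : (‖s‖ ^ a) ^ 2 ≤ (19 / 25) ^ 2 := pow_le_pow_left₀ (by positivity) H.ht 2
    have h8 : (‖s‖ ^ a) ^ 2 * (Q : ℝ) ^ (2 * a) ≤ (19 / 25) ^ 2 * (Q : ℝ) ^ (2 * a) :=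
      mul_le_mul_of_nonneg_right h7 (by positivity)
    rw [h6] at h5
    linarith
  · have e' : a * b = 3 := MTree_beq e
    have h3 : 3 * (Nat.succ (absD x)) ^ 2 < (absD y - 1) ^ 2 := h
    have h4 : (3 : ℝ) * (((Nat.succ (absD x)) ^ 2 : ℕ) : ℝ) < (((absD y - 1) ^ 2 : ℕ) : ℝ) := by
      exact_mod_cast h3
    have h5 := mul_le_mul_of_nonneg_right (hS3 e') hQ0
    have h6 : s.im ^ 2 * (Q : ℝ) ^ 2 = (s.im * Q) ^ 2 := by ring
    have h7 : 3 * s.re ^ 2 * (Q : ℝ) ^ 2 = 3 * (s.re * Q) ^ 2 := by ring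
    rw [h6, h7] at h5
    linarith
  · have e' : a * b = 6 := MTree_beq e
    have h3 : (Nat.succ (absD x)) ^ 2 < 3 * (absD y - 1) ^ 2 := h
    have h4 : (((Nat.succ (absD x)) ^ 2 : ℕ) : ℝ) < 3 * (((absD y - 1) ^ 2 : ℕ) : ℝ) := by
      exact_mod_cast h3
    have h5 := mul_le_mul_of_nonneg_right (hS6 e') hQ0
    have h6 : 3 * s.im ^ 2 * (Q : ℝ) ^ 2 = 3 * (s.im * Q) ^ 2 := by ring
    have h7 : s.re ^ 2 * (Q : ℝ) ^ 2 = (s.re * Q) ^ 2 := by ring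
    rw [h6, h7] at h5
    linarith

private theorem MTree_le_one {a b : ℕ} (ha : 0 < a) {x : ℂ} {D : ℝ} {v : ℤ → ℂ} (H : HypM a b x D v) :
    ‖x‖ ≤ 1 := by
  by_contra hc
  push Not at hc
  have h1 := one_le_pow₀ hc.le (n := a)
  have h2 := H.ht
  linarith

theorem TM_sound (a b mR mL : ℕ) (hab : (a = 1 ∧ b = 2) ∨ (a = 2 ∧ b = 3) ∨ (a = 1 ∧ b = 3)) (T : TM) :
    ∀ x y Q : ℕ, TM.chk a b mR mL T x y Q = true → CellM a b mR mL x y Q := by
  have ha : 0 < a := by omega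
  induction T with
  | lf crR crL nuR nuL P nL nR PL PR la lb =>
    intro x y Q h
    rw [TM.chk] at h
    exact checkM_sound a b mR mL x y Q crR crL nuR nuL P nL nR PL PR hab la lb h
  | out =>
    intro x y Q h
    rw [TM.chk] at h
    exact outM_sound a b mR mL x y Q ha h
  | sq t1 t2 t3 t4 i1 i2 i3 i4 =>
    intro x y Q h
    rw [TM.chk] at h
    simp only [Bool.and_eq_true, Nat.ble_eq] at h
    obtain ⟨⟨⟨⟨h0, h1⟩, h2⟩, h3⟩, h4⟩ := h
    intro s D v H hR hL hS hq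
    have n1 : |s.re| ≤ 1 := (Complex.abs_re_le_norm s).trans (MTree_le_one ha H)
    have n2 : |s.im| ≤ 1 := (Complex.abs_im_le_norm s).trans (MTree_le_one ha H)
    rcases MTree_split _ _ _ n1 h0 hq.1 with b | b <;>
      rcases MTree_split _ _ _ n2 h0 hq.2 with c | c
    · exact i1 _ _ _ h1 s D v H hR hL hS ⟨b, c⟩
    · exact i3 _ _ _ h3 s D v H hR hL hS ⟨b, c⟩
    · exact i2 _ _ _ h2 s D v H hR hL hS ⟨b, c⟩
    · exact i4 _ _ _ h4 s D v H hR hL hS ⟨b, c⟩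

private theorem MTree_grid (a b mR mL : ℕ) (hab : (a = 1 ∧ b = 2) ∨ (a = 2 ∧ b = 3) ∨ (a = 1 ∧ b = 3))
    (l : List TM) : ∀ k, chkGridM a b mR mL l k = true → ∀ m, k ≤ m → m < 49 →
      CellM a b mR mL (100001 + 2 * (m / 7)) (100001 + 2 * (m % 7)) 16 := by
  induction l with
  | nil =>
    intro k h m h1 h2
    rw [chkGridM] at h
    have := MTree_beq h
    omega
  | cons t l ih =>
    intro k h m h1 h2
    rw [chkGridM, Bool.and_eq_true] at h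
    rcases Nat.eq_or_lt_of_le h1 with e | e
    · subst e
      exact TM_sound a b mR mL hab t _ _ _ h.1
    · exact ih (Nat.succ k) h.2 m e h2

theorem gridM_sound (a b mR mL : ℕ) (hab : (a = 1 ∧ b = 2) ∨ (a = 2 ∧ b = 3) ∨ (a = 1 ∧ b = 3)) (l : List TM)
    (h : chkGridM a b mR mL l 0 = true) (i j : ℕ) (hi : i < 7) (hj : j < 7) :
    CellM a b mR mL (100001 + 2 * i) (100001 + 2 * j) 16 := by
  have h1 := MTree_grid a b mR mL hab l 0 h (7 * i + j) (by omega) (by omega)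
  have e1 : (7 * i + j) / 7 = i := by omega
  have e2 : (7 * i + j) % 7 = j := by omega
  rw [e1, e2] at h1
  exact h1

private theorem MTree_rn {ρ : ℂ} {n : ℕ} (h : ρ ^ n = 1) (hn : 0 < n) : ‖ρ‖ = 1 :=
  Complex.norm_eq_one_of_pow_eq_one h (by omega)

private theorem MTree_r0 {ρ : ℂ} (h : ‖ρ‖ = 1) : ρ ≠ 0 := by
  rintro rfl
  norm_num at h

/-- the corner `X = 0` is evaluated at `ρ₀ z`, the corner `1` at `ρ₁ z` -/
private theorem MTree_term {ρ₀ ρ₁ : ℂ} (h0 : ρ₀ ≠ 0) (h1 : ρ₁ ≠ 0) (X : ℕ) (x z : ℂ) (v : ℤ → ℂ) (n : ℤ) :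
    v n * (if 0 ≤ n then ρ₁ ^ n else ρ₀ ^ n) * (ρ₀ / ρ₁ * x) ^ eaZ 0 X n * z ^ n =
      v n * x ^ eaZ 0 X n * ((if X = 0 then ρ₀ else ρ₁) * z) ^ n := by
  rw [mul_zpow, mul_pow]
  have key : (if 0 ≤ n then ρ₁ ^ n else ρ₀ ^ n) * (ρ₀ / ρ₁) ^ eaZ 0 X n =
      (if X = 0 then ρ₀ else ρ₁) ^ n := by
    unfold eaZ
    by_cases hX : X = 0
    · rw [if_pos hX, if_pos hX]
      rcases le_or_gt 0 n with h | h
      · rw [if_pos h]
        obtain ⟨k, rfl⟩ := Int.eq_ofNat_of_zero_le h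
        have e1 : ((k : ℤ) + ((0 : ℕ) : ℤ)).toNat = k := by simp
        rw [e1, zpow_natCast, zpow_natCast, div_pow, mul_div_cancel₀]
        exact pow_ne_zero _ h1
      · rw [if_neg (not_le.2 h)]
        have e1 : (n + ((0 : ℕ) : ℤ)).toNat = 0 := by omega
        rw [e1, pow_zero, mul_one]
    · rw [if_neg hX, if_neg hX]
      rcases le_or_gt 0 n with h | h
      · rw [if_pos h]
        have e1 : (-n - ((0 : ℕ) : ℤ)).toNat = 0 := by omega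
        rw [e1, pow_zero, mul_one]
      · rw [if_neg (not_le.2 h)]
        obtain ⟨k, hk⟩ := Int.eq_ofNat_of_zero_le (neg_nonneg.2 h.le)
        have hk' : n = -(k : ℤ) := by omega
        subst hk'
        have e1 : (-(-(k : ℤ)) - ((0 : ℕ) : ℤ)).toNat = k := by simp
        rw [e1, zpow_neg, zpow_neg, zpow_natCast, zpow_natCast, div_pow]
        have := pow_ne_zero k h0
        have := pow_ne_zero k h1
        field_simp
  rw [← key]
  ring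

theorem HypM.rot {a b : ℕ} {x : ℂ} {D : ℝ} {v : ℤ → ℂ} (H : HypM a b x D v) (ρ₀ ρ₁ : ℂ) (h0 : ρ₀ ^ a = 1)
    (h1 : ρ₁ ^ b = 1) (ha : 0 < a) (hb : 0 < b) :
    HypM a b (ρ₀ / ρ₁ * x) D (fun n => v n * (if 0 ≤ n then ρ₁ ^ n else ρ₀ ^ n)) := by
  have n0 := MTree_rn h0 ha
  have n1 := MTree_rn h1 hb
  have z0 := MTree_r0 n0
  have z1 := MTree_r0 n1
  have hn : ‖ρ₀ / ρ₁ * x‖ = ‖x‖ := by
    rw [norm_mul, norm_div, n0, n1, div_one, one_mul]
  refine ⟨?_, ?_, ?_, ?_, ?_, ?_, H.hD1, ?_⟩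
  · show v (-(a : ℤ)) * (if 0 ≤ -(a : ℤ) then ρ₁ ^ (-(a : ℤ)) else ρ₀ ^ (-(a : ℤ))) = 1
    rw [if_neg (by omega), H.va, zpow_neg, zpow_natCast, h0]
    norm_num
  · show v 0 * (if (0 : ℤ) ≤ 0 then ρ₁ ^ (0 : ℤ) else ρ₀ ^ (0 : ℤ)) = 1
    rw [if_pos le_rfl, H.v0, zpow_zero, mul_one]
  · show v b * (if (0 : ℤ) ≤ b then ρ₁ ^ (b : ℤ) else ρ₀ ^ (b : ℤ)) = 1
    rw [if_pos (by omega), H.vb, zpow_natCast, h1, mul_one]
  · exact mul_ne_zero (div_ne_zero z0 z1) H.x0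
  · rw [hn]
    exact H.ht
  · rw [hn]
    exact H.hD
  · intro X hX z hz
    have e : ∑' n : ℤ, (fun n => v n * (if 0 ≤ n then ρ₁ ^ n else ρ₀ ^ n)) n *
        (ρ₀ / ρ₁ * x) ^ eaZ 0 X n * z ^ n =
        ∑' n : ℤ, v n * x ^ eaZ 0 X n * ((if X = 0 then ρ₀ else ρ₁) * z) ^ n :=
      tsum_congr fun n => MTree_term z0 z1 X x z v n
    rw [e]
    apply H.bd X hX
    rw [norm_mul, hz, mul_one]
    split_ifs
    · exact n0
    · exact n1

private theorem MTree_nc (z : ℂ) : ‖(starRingEnd ℂ) z‖ = ‖z‖ := RCLike.norm_conj z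

theorem HypM.conj {a b : ℕ} {x : ℂ} {D : ℝ} {v : ℤ → ℂ} (H : HypM a b x D v) :
    HypM a b ((starRingEnd ℂ) x) D (fun n => (starRingEnd ℂ) (v n)) where
  va := by rw [H.va, map_one]
  v0 := by rw [H.v0, map_one]
  vb := by rw [H.vb, map_one]
  x0 := by
    rw [Ne, map_eq_zero]
    exact H.x0
  ht := by
    rw [MTree_nc]
    exact H.ht
  hD := by
    rw [MTree_nc]
    exact H.hD
  hD1 := H.hD1
  bd := fun X hX z hz => by
    have e : ∑' n : ℤ, (starRingEnd ℂ) (v n) * (starRingEnd ℂ) x ^ eaZ 0 X n * z ^ n =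
        (starRingEnd ℂ) (∑' n : ℤ, v n * x ^ eaZ 0 X n * ((starRingEnd ℂ) z) ^ n) := by
      simp only [map_mul, map_pow, map_zpow₀, Complex.conj_tsum, Complex.conj_conj]
    rw [e, MTree_nc]
    exact H.bd X hX _ (by rw [MTree_nc]; exact hz)

theorem OutX.congr {md g : ℕ} {D : ℝ} {r r' : ℕ → ℂ} (H : OutX md g D r) (h : ∀ i, ‖r' i‖ = ‖r i‖) :
    OutX md g D r' := by
  unfold OutX at H ⊢
  by_cases hm : md = 0
  · rw [if_pos hm] at H ⊢
    intro i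
    rw [h i]
    exact H i
  · rw [if_neg hm] at H ⊢
    obtain ⟨y, c, u, a1, a2, a3, a4, a5, a6, a7⟩ := H
    exact ⟨y, c, u, a1, a2, a3, a4, a5, a6, fun i => by rw [h i]; exact a7 i⟩

private theorem MTree_rotn {ρ₀ ρ₁ : ℂ} (n0 : ‖ρ₀‖ = 1) (n1 : ‖ρ₁‖ = 1) (v : ℤ → ℂ) (n : ℤ) :
    ‖v n * (if 0 ≤ n then ρ₁ ^ n else ρ₀ ^ n)‖ = ‖v n‖ := by
  rw [norm_mul]
  split_ifs
  · rw [norm_zpow, n1, one_zpow, mul_one]
  · rw [norm_zpow, n0, one_zpow, mul_one]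

/-- existence of a suitable rotation -/
private theorem MTree_rot {a b : ℕ} {x : ℂ} (hx : x ≠ 0)
    (hab : (a = 1 ∧ b = 2) ∨ (a = 2 ∧ b = 3) ∨ (a = 1 ∧ b = 3)) :
    ∃ ρ₀ ρ₁ : ℂ, ρ₀ ^ a = 1 ∧ ρ₁ ^ b = 1 ∧ SecM a b (ρ₀ / ρ₁ * x) := by
  rcases hab with ⟨rfl, rfl⟩ | ⟨rfl, rfl⟩ | ⟨rfl, rfl⟩
  · rcases le_total 0 x.re with h | h
    · refine ⟨1, 1, by norm_num, by norm_num, ?_, fun h => by omega, fun h => by omega⟩
      rw [div_one, one_mul]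
      exact h
    · refine ⟨1, -1, by norm_num, by norm_num, ?_, fun h => by omega, fun h => by omega⟩
      have e : (1 : ℂ) / -1 * x = -x := by ring
      rw [e, Complex.neg_re]
      linarith
  · obtain ⟨w, hw, h | h⟩ := exists_rot6 hx
    · refine ⟨1, w⁻¹, by norm_num, by rw [inv_pow, hw, inv_one], ?_, fun h => by omega, fun _ => ?_⟩
      · rw [one_div, inv_inv]
        exact h.1.le
      · rw [one_div, inv_inv]
        exact h.2
    · have e : (-1 : ℂ) / w⁻¹ * x = w * -x := by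
        rw [div_inv_eq_mul]
        ring
      refine ⟨-1, w⁻¹, by norm_num, by rw [inv_pow, hw, inv_one], ?_, fun h => by omega, fun _ => ?_⟩
      · rw [e]
        exact h.1.le
      · rw [e]
        exact h.2
  · obtain ⟨w, hw, h⟩ := exists_rot3 hx
    refine ⟨1, w⁻¹, by norm_num, by rw [inv_pow, hw, inv_one], ?_, fun _ => ?_, fun h => by omega⟩
    · rw [one_div, inv_inv]
      exact h.1.le
    · rw [one_div, inv_inv]
      exact h.2

theorem HypM.normalize {a b : ℕ} {x : ℂ} {D : ℝ} {v : ℤ → ℂ}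
    (hab : (a = 1 ∧ b = 2) ∨ (a = 2 ∧ b = 3) ∨ (a = 1 ∧ b = 3)) (H : HypM a b x D v) :
    ∃ x' v', HypM a b x' D v' ∧ SecM a b x' ∧ 0 ≤ x'.im ∧ ∀ n, ‖v' n‖ = ‖v n‖ := by
  have ha : 0 < a := by omega
  have hb : 0 < b := by omega
  obtain ⟨ρ₀, ρ₁, h0, h1, hS⟩ := MTree_rot H.x0 hab
  have n0 := MTree_rn h0 ha
  have n1 := MTree_rn h1 hb
  have H' := H.rot ρ₀ ρ₁ h0 h1 ha hb
  rcases le_total 0 (ρ₀ / ρ₁ * x).im with h | h
  · exact ⟨_, _, H', hS, h, fun n => MTree_rotn n0 n1 v n⟩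
  · refine ⟨_, _, H'.conj, ?_, ?_, fun n => ?_⟩
    · obtain ⟨s1, s2, s3⟩ := hS
      refine ⟨?_, fun e => ?_, fun e => ?_⟩
      · rw [Complex.conj_re]
        exact s1
      · rw [Complex.conj_re, Complex.conj_im, neg_sq]
        exact s2 e
      · rw [Complex.conj_re, Complex.conj_im, neg_sq]
        exact s3 e
    · rw [Complex.conj_im]
      linarith
    · rw [MTree_nc]
      exact MTree_rotn n0 n1 v n

private theorem MTree_floor (t : ℝ) (h0 : 0 ≤ t) (h1 : t < 7 / 8) :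
    ⌊8 * t⌋₊ < 7 ∧ |t * ((16 : ℕ) : ℝ) - (((100001 + 2 * ⌊8 * t⌋₊ : ℕ) : ℝ) - 100000)| ≤ 1 := by
  have h2 : (0 : ℝ) ≤ 8 * t := by linarith
  have h3 := Nat.floor_le h2
  have h4 := Nat.lt_floor_add_one (8 * t)
  constructor
  · rw [Nat.floor_lt h2]
    push_cast
    linarith
  · push_cast
    rw [abs_le]
    constructor <;> linarith

theorem gridM_final (a b mR mL : ℕ) (hab : (a = 1 ∧ b = 2) ∨ (a = 2 ∧ b = 3) ∨ (a = 1 ∧ b = 3)) (l : List TM)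
    (h : chkGridM a b mR mL l 0 = true) {x : ℂ} {D : ℝ} {v : ℤ → ℂ} (H : HypM a b x D v)
    (hR : OutX mR b D (fun i => v (b + 1 + (i : ℤ)))) (hL : OutX mL a D (fun i => v (-(a : ℤ) - 1 - (i : ℤ)))) :
    False := by
  have ha : 0 < a := by omega
  obtain ⟨x', v', H', hS, him, hn⟩ := H.normalize hab
  have hR' : OutX mR b D (fun i => v' (b + 1 + (i : ℤ))) := hR.congr fun i => hn _
  have hL' : OutX mL a D (fun i => v' (-(a : ℤ) - 1 - (i : ℤ))) := hL.congr fun i => hn _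
  have hx : ‖x'‖ < 7 / 8 := by
    by_contra hc
    push Not at hc
    have h1 := H'.ht
    have h2 : (7 / 8 : ℝ) ^ 2 ≤ ‖x'‖ ^ a := by
      rcases hab with ⟨rfl, rfl⟩ | ⟨rfl, rfl⟩ | ⟨rfl, rfl⟩
      · rw [pow_one]
        linarith
      · exact pow_le_pow_left₀ (by norm_num) hc 2
      · rw [pow_one]
        linarith
    norm_num at h2
    linarith
  have hre0 := hS.1
  have hre : x'.re < 7 / 8 := lt_of_le_of_lt (Complex.re_le_norm x') hx
  have him' : x'.im < 7 / 8 := lt_of_le_of_lt ((le_abs_self _).trans (Complex.abs_im_le_norm x')) hx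
  obtain ⟨i1, i2⟩ := MTree_floor x'.re hre0 hre
  obtain ⟨j1, j2⟩ := MTree_floor x'.im him him'
  exact gridM_sound a b mR mL hab l h _ _ i1 j1 x' D v' H' hR' hL' hS ⟨i2, j2⟩

end Pool.Agent.MaxTerm58
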