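import Pool.Agent.MaxTerm58.MScale

/-! Weights and tails of the family `M`. Models: `EWt.lean`, `WtS.lean`. -/

namespace Pool.Agent.MaxTerm58

private theorem MWt_absD (x : ℕ) : ((absD x : ℕ) : ℝ) = |(x : ℝ) - 100000| := by
  have h0 : absD x = (x - 100000) + (100000 - x) := rfl
  rw [h0]
  rcases le_total x 100000 with h | h
  · rw [Nat.sub_eq_zero_of_le h, zero_add, Nat.cast_sub h]
    have h' : (x : ℝ) ≤ 100000 := by exact_mod_cast h
    rw [abs_of_nonpos (by linarith)]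
    push_cast
    ring
  · rw [Nat.sub_eq_zero_of_le h, add_zero, Nat.cast_sub h]
    have h' : (100000 : ℝ) ≤ x := by exact_mod_cast h
    rw [abs_of_nonneg (by linarith)]
    push_cast
    ring

private theorem MWt_sq (x : ℕ) (a : ℝ) (h : |a - ((x : ℝ) - 100000)| ≤ 1) :
    ((absD x - 1 : ℕ) : ℝ) ^ 2 ≤ a ^ 2 := by
  have h1 : ((absD x - 1 : ℕ) : ℝ) ≤ |a| := by
    rcases Nat.eq_zero_or_pos (absD x) with h0 | h0
    · rw [h0]
      simp
    · rw [Nat.cast_sub h0, MWt_absD, Nat.cast_one]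
      have h2 : |(x : ℝ) - 100000| ≤ |a| + |a - ((x : ℝ) - 100000)| := by
        have h3 := abs_sub a (a - ((x : ℝ) - 100000))
        have h4 : a - (a - ((x : ℝ) - 100000)) = (x : ℝ) - 100000 := by ring
        rw [h4] at h3
        exact h3
      linarith
  rw [← sq_abs a]
  exact pow_le_pow_left₀ (Nat.cast_nonneg _) h1 2

private theorem MWt_div (a b : ℕ) (hb : 0 < b) : (a : ℝ) / (b : ℝ) ≤ ((Nat.succ (a / b) : ℕ) : ℝ) := by
  have hb' : (0 : ℝ) < b := by exact_mod_cast hb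
  rw [div_le_iff₀ hb']
  have h1 : a < b * (a / b + 1) := Nat.lt_mul_div_succ a hb
  have h2 : a ≤ (a / b + 1) * b := by
    rw [mul_comm]
    exact h1.le
  exact_mod_cast h2

private theorem MWt_beq (md : ℕ) : Nat.beq md 0 = decide (md = 0) := by
  cases md with
  | zero => rfl
  | succ n => rfl

/-- `9213304561000000 - M` with a natural subtraction -/
private theorem MWt_sub (M : ℕ) : 9213304561000000 - (M : ℝ) ≤ ((Nat.sub 9213304561000000 M : ℕ) : ℝ) := by
  have h3 : 9213304561000000 ≤ Nat.sub 9213304561000000 M + M := by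
    have e2 : Nat.sub 9213304561000000 M = 9213304561000000 - M := rfl
    rw [e2]
    omega
  have h4 : (9213304561000000 : ℝ) ≤
      ((Nat.sub 9213304561000000 M : ℕ) : ℝ) + (M : ℝ) := by exact_mod_cast h3
  linarith

theorem sigM_spec (m x y Q : ℕ) (hQ : 0 < Q) (q : ℂ) (h : InSq q x y Q) :
    (170919 / 100000 : ℝ) ^ 2 - 2 - ‖q‖ ^ (2 * m) ≤ (((sigM m Q x y : ℕ) : ℝ) / 100000000) ^ 2 := by
  obtain ⟨hx, hy⟩ := h
  have hQ' : (0 : ℝ) < Q := by exact_mod_cast hQ
  have hE : ((170919 / 100000 : ℝ) ^ 2 - 2) = 9213304561 / 10000000000 := by norm_num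
  set B : ℕ := 10000000000000000 * ((absD x - 1) ^ 2 + (absD y - 1) ^ 2) ^ m with hB
  set M : ℕ := B / Q ^ (2 * m) with hM
  have e : sigM m Q x y = sqU (Nat.succ (Nat.sub 9213304561000000 M)) := rfl
  have h1 := sqU_spec (Nat.succ (Nat.sub 9213304561000000 M))
  rw [← e] at h1
  have h2 : ((Nat.succ (Nat.sub 9213304561000000 M) : ℕ) : ℝ) =
      ((Nat.sub 9213304561000000 M : ℕ) : ℝ) + 1 := Nat.cast_succ _
  have h3 := MWt_sub M
  have h4 := MWt_sq x _ hx
  have h5 := MWt_sq y _ hy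
  have h6 : ‖q‖ ^ 2 * (Q : ℝ) ^ 2 = (q.re * Q) ^ 2 + (q.im * Q) ^ 2 := by
    rw [Complex.sq_norm, Complex.normSq_apply]
    ring
  have hM2 : (M : ℝ) ≤ 10000000000000000 * ‖q‖ ^ (2 * m) := by
    have h8 : (M : ℝ) ≤ (B : ℝ) / ((Q ^ (2 * m) : ℕ) : ℝ) := Nat.cast_div_le
    refine h8.trans ?_
    rw [div_le_iff₀ (by positivity), hB]
    push_cast
    have h10 : 10000000000000000 * ‖q‖ ^ (2 * m) * (Q : ℝ) ^ (2 * m) =
        10000000000000000 * (‖q‖ ^ 2 * (Q : ℝ) ^ 2) ^ m := by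
      rw [mul_pow, pow_mul, pow_mul]
      ring
    rw [h10, h6]
    apply mul_le_mul_of_nonneg_left _ (by norm_num)
    exact pow_le_pow_left₀ (by positivity) (by linarith) m
  rw [hE, div_pow, le_div_iff₀ (by norm_num)]
  have h12 : (9213304561 / 10000000000 - ‖q‖ ^ (2 * m)) * (100000000 : ℝ) ^ 2 =
      9213304561000000 - 10000000000000000 * ‖q‖ ^ (2 * m) := by ring
  rw [h12]
  linarith

theorem dU_spec (a rx : ℕ) (s : ℂ) (hs : ‖s‖ ≤ (rx : ℝ) / 10000) (D : ℝ)
    (hD : D ≤ 17 / 50 + 1 / 100000 ∨ D ≤ 10 / 9 * ‖s‖ ^ a) (hD1 : D ≤ 7601 / 10000) :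
    D ≤ (dU a rx : ℝ) / 100000000 := by
  unfold dU
  rw [maxU_eq, minN_eq, le_div_iff₀ (by norm_num)]
  rcases hD with h | h
  · have h1 : (34001000 : ℝ) ≤ ((max 34001000 (min (Nat.succ (Nat.div (Nat.mul 10 (monUp rx 0 a 0)) 9))
        76010000) : ℕ) : ℝ) := by
      exact_mod_cast le_max_left _ _
    refine le_trans ?_ h1
    linarith
  · have h1 : ((min (Nat.succ (Nat.div (Nat.mul 10 (monUp rx 0 a 0)) 9)) 76010000 : ℕ) : ℝ) ≤
        ((max 34001000 (min (Nat.succ (Nat.div (Nat.mul 10 (monUp rx 0 a 0)) 9))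
        76010000) : ℕ) : ℝ) := by
      exact_mod_cast le_max_right _ _
    refine le_trans ?_ h1
    rw [Nat.cast_min]
    apply le_min
    · have h2 := MWt_div (10 * monUp rx 0 a 0) 9 (by norm_num)
      have h3 := monUp_spec rx 0 a 0
      rw [pow_zero, mul_one] at h3
      have h4 : ‖s‖ ^ a ≤ ((rx : ℝ) / 10000) ^ a := pow_le_pow_left₀ (norm_nonneg _) hs a
      have e : Nat.succ (Nat.div (Nat.mul 10 (monUp rx 0 a 0)) 9) =
          Nat.succ ((10 * monUp rx 0 a 0) / 9) := rfl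
      rw [e]
      refine le_trans ?_ h2
      push_cast
      rw [le_div_iff₀ (by norm_num)]
      nlinarith
    · norm_num
      linarith

theorem wtM_spec (md g cr i : ℕ) (s t : ℂ) :
    ((cr : ℝ) / 10000) ^ (i + 1 + (if md = 0 then i + 1 - g else 0)) ≤ wtV (wtM md g cr i) s t := by
  have h1 := monUp_spec cr 0 (i + 1 + (if md = 0 then i + 1 - g else 0)) 0
  rw [pow_zero, mul_one] at h1
  have e : (wtM md g cr i) = (monUp cr 0 (i + 1 + (if md = 0 then i + 1 - g else 0)) 0, 0, 0) := by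
    unfold wtM
    rw [MWt_beq]
    by_cases h : md = 0
    · rw [decide_eq_true h, cond_true, if_pos h]
      rfl
    · rw [decide_eq_false h, cond_false, if_neg h]
  rw [e]
  unfold wtV
  dsimp only
  rw [pow_zero, pow_zero, mul_one, mul_one, le_div_iff₀ (by norm_num)]
  exact h1

/-- the root -/
private theorem MWt_kt (g cr : ℕ) (hcr : cr < 10000) :
    √(((170919 / 100000) ^ 2 - 2 - ((cr : ℝ) / 10000) ^ (2 * g)) / (1 - ((cr : ℝ) / 10000) ^ 2)) * 100000000 ≤
      (ktM g cr : ℝ) := by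
  have hE : ((170919 / 100000 : ℝ) ^ 2 - 2) = 9213304561 / 10000000000 := by norm_num
  set M : ℕ := (10000000000000000 * cr ^ (2 * g)) / 100000000 ^ g with hM
  have hlt : cr * cr < 100000000 := by nlinarith
  have hcr' : (cr : ℝ) < 10000 := by exact_mod_cast hcr
  have hcr0 : (0 : ℝ) ≤ cr := Nat.cast_nonneg _
  have hpos : (0 : ℝ) < 100000000 - (cr : ℝ) * cr := by nlinarith
  have e : ktM g cr = sqU (Nat.succ ((Nat.sub 9213304561000000 M * 100000000) / (100000000 - cr * cr))) := rfl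
  have h1 := sqU_spec (Nat.succ ((Nat.sub 9213304561000000 M * 100000000) / (100000000 - cr * cr)))
  rw [← e] at h1
  have h2 := MWt_div (Nat.sub 9213304561000000 M * 100000000) (100000000 - cr * cr) (by omega)
  have h3 := MWt_sub M
  have hM2 : (M : ℝ) ≤ 10000000000000000 * ((cr : ℝ) / 10000) ^ (2 * g) := by
    have h8 : (M : ℝ) ≤ ((10000000000000000 * cr ^ (2 * g) : ℕ) : ℝ) / ((100000000 ^ g : ℕ) : ℝ) :=
      Nat.cast_div_le
    refine h8.trans (le_of_eq ?_)
    push_cast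
    rw [div_pow]
    have h9 : (10000 : ℝ) ^ (2 * g) = 100000000 ^ g := by
      rw [pow_mul]
      norm_num
    rw [h9]
    ring
  have h4 := h2.trans h1
  rw [Nat.cast_mul, Nat.cast_sub hlt.le] at h4
  push_cast at h4
  have h5 : ((170919 / 100000) ^ 2 - 2 - ((cr : ℝ) / 10000) ^ (2 * g)) / (1 - ((cr : ℝ) / 10000) ^ 2) ≤
      ((ktM g cr : ℝ) / 100000000) ^ 2 := by
    have h6 : (1 - ((cr : ℝ) / 10000) ^ 2) = (100000000 - (cr : ℝ) * cr) / 100000000 := by ring
    rw [h6, hE, div_pow ((ktM g cr : ℕ) : ℝ), le_div_iff₀ (by norm_num)]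
    refine le_trans ?_ h4
    rw [div_div_eq_mul_div, div_mul_eq_mul_div]
    apply div_le_div_of_nonneg_right _ hpos.le
    linarith
  have h6 : √(((170919 / 100000) ^ 2 - 2 - ((cr : ℝ) / 10000) ^ (2 * g)) / (1 - ((cr : ℝ) / 10000) ^ 2)) ≤
      (ktM g cr : ℝ) / 100000000 := by
    rw [Real.sqrt_le_left (by positivity)]
    exact h5
  rw [le_div_iff₀ (by norm_num)] at h6
  exact h6

theorem tauM_spec (md g cr P : ℕ) (hg : 0 < g) (hcr : cr < 10000) (hP : g ≤ P + 1) :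
    (if md = 0 then ((cr : ℝ) / 10000) ^ (2 * (P + 1) - g) / (1 - ((cr : ℝ) / 10000) ^ 2)
      else ((cr : ℝ) / 10000) ^ (P + 1) *
        (1 + √(((170919 / 100000) ^ 2 - 2 - ((cr : ℝ) / 10000) ^ (2 * g)) / (1 - ((cr : ℝ) / 10000) ^ 2)))) ≤
      (tauM md g cr P : ℝ) / 100000000 := by
  have hlt : cr * cr < 100000000 := by nlinarith
  have hcr' : (cr : ℝ) < 10000 := by exact_mod_cast hcr
  have hcr0 : (0 : ℝ) ≤ cr := Nat.cast_nonneg _
  have hpos : (0 : ℝ) < 100000000 - (cr : ℝ) * cr := by nlinarith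
  by_cases hmd : md = 0
  · rw [if_pos hmd]
    have e : tauM md g cr P = Nat.succ ((monUp cr 0 (2 * (P + 1) - g) 0 * 100000000) /
        (100000000 - cr * cr)) := by
      unfold tauM
      rw [MWt_beq, decide_eq_true hmd, cond_true]
      rfl
    have h1 := MWt_div (monUp cr 0 (2 * (P + 1) - g) 0 * 100000000) (100000000 - cr * cr) (by omega)
    rw [← e] at h1
    have h2 := monUp_spec cr 0 (2 * (P + 1) - g) 0
    rw [pow_zero, mul_one] at h2
    rw [Nat.cast_mul, Nat.cast_sub hlt.le] at h1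
    push_cast at h1
    rw [le_div_iff₀ (by norm_num)]
    refine le_trans ?_ h1
    have e3 : (1 - ((cr : ℝ) / 10000) ^ 2) = (100000000 - (cr : ℝ) * cr) / 100000000 := by ring
    rw [e3, div_div_eq_mul_div, div_mul_eq_mul_div]
    apply div_le_div_of_nonneg_right _ hpos.le
    have h3 := mul_le_mul_of_nonneg_right h2 (by norm_num : (0 : ℝ) ≤ 100000000)
    linarith
  · rw [if_neg hmd]
    have e : tauM md g cr P = Nat.succ ((monUp cr 0 (P + 1) 0 * (100000000 + ktM g cr)) / 100000000) := by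
      unfold tauM
      rw [MWt_beq, decide_eq_false hmd, cond_false]
      rfl
    have h1 := MWt_div (monUp cr 0 (P + 1) 0 * (100000000 + ktM g cr)) 100000000 (by norm_num)
    rw [← e] at h1
    have h2 := monUp_spec cr 0 (P + 1) 0
    rw [pow_zero, mul_one] at h2
    have h3 := MWt_kt g cr hcr
    rw [le_div_iff₀ (by norm_num)]
    refine le_trans ?_ h1
    rw [le_div_iff₀ (by norm_num)]
    push_cast
    have h4 : (1 + √(((170919 / 100000) ^ 2 - 2 - ((cr : ℝ) / 10000) ^ (2 * g)) /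
        (1 - ((cr : ℝ) / 10000) ^ 2))) * 100000000 ≤ 100000000 + (ktM g cr : ℝ) := by linarith
    have h5 := mul_le_mul h2 h4 (by positivity) (Nat.cast_nonneg _)
    linarith

theorem tailM_spec (a b mR mL crR crL rqc PR PL wa wb : ℕ) (τR τL : ℝ)
    (h1 : τR ≤ (tauM mR b crR PR : ℝ) / 100000000) (h2 : τL ≤ (tauM mL a crL PL : ℝ) / 100000000) :
    (((wb : ℝ) / 100000000 + ((rqc : ℝ) / 10000) ^ (b + 1 + PR)) * τR +
      ((wa : ℝ) / 100000000 + ((rqc : ℝ) / 10000) ^ (a + 1 + PL)) * τL) * 100000000 ≤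
      (tailM a b mR mL crR crL rqc PR PL wa wb : ℝ) := by
  have m1 := monUp_spec rqc 0 (b + 1 + PR) 0
  have m2 := monUp_spec rqc 0 (a + 1 + PL) 0
  rw [pow_zero, mul_one] at m1 m2
  set T : ℕ := tauM mR b crR PR with hT
  set U : ℕ := tauM mL a crL PL with hU
  have e : tailM a b mR mL crR crL rqc PR PL wa wb = Nat.succ (((wb + monUp rqc 0 (b + 1 + PR) 0) * T +
      (wa + monUp rqc 0 (a + 1 + PL) 0) * U) / 100000000) := rfl
  have h3 := MWt_div ((wb + monUp rqc 0 (b + 1 + PR) 0) * T +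
      (wa + monUp rqc 0 (a + 1 + PL) 0) * U) 100000000 (by norm_num)
  rw [← e] at h3
  refine le_trans ?_ h3
  rw [le_div_iff₀ (by norm_num)]
  push_cast
  have h1' : τR * 100000000 ≤ (T : ℝ) := by
    rw [le_div_iff₀ (by norm_num)] at h1
    exact h1
  have h2' : τL * 100000000 ≤ (U : ℝ) := by
    rw [le_div_iff₀ (by norm_num)] at h2
    exact h2
  have c1 : ((wb : ℝ) / 100000000 + ((rqc : ℝ) / 10000) ^ (b + 1 + PR)) * 100000000 ≤
      (wb : ℝ) + ((monUp rqc 0 (b + 1 + PR) 0 : ℕ) : ℝ) := by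
    have e1 : ((wb : ℝ) / 100000000 + ((rqc : ℝ) / 10000) ^ (b + 1 + PR)) * 100000000 =
        (wb : ℝ) + ((rqc : ℝ) / 10000) ^ (b + 1 + PR) * 100000000 := by ring
    rw [e1]
    linarith
  have c2 : ((wa : ℝ) / 100000000 + ((rqc : ℝ) / 10000) ^ (a + 1 + PL)) * 100000000 ≤
      (wa : ℝ) + ((monUp rqc 0 (a + 1 + PL) 0 : ℕ) : ℝ) := by
    have e1 : ((wa : ℝ) / 100000000 + ((rqc : ℝ) / 10000) ^ (a + 1 + PL)) * 100000000 =
        (wa : ℝ) + ((rqc : ℝ) / 10000) ^ (a + 1 + PL) * 100000000 := by ring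
    rw [e1]
    linarith
  have c1' : 0 ≤ ((wb : ℝ) / 100000000 + ((rqc : ℝ) / 10000) ^ (b + 1 + PR)) * 100000000 := by
    positivity
  have c2' : 0 ≤ ((wa : ℝ) / 100000000 + ((rqc : ℝ) / 10000) ^ (a + 1 + PL)) * 100000000 := by
    positivity
  have f1 := (mul_le_mul_of_nonneg_left h1' c1').trans
    (mul_le_mul_of_nonneg_right c1 (Nat.cast_nonneg T))
  have f2 := (mul_le_mul_of_nonneg_left h2' c2').trans
    (mul_le_mul_of_nonneg_right c2 (Nat.cast_nonneg U))
  linarith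

end Pool.Agent.MaxTerm58
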