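import Pool.Agent.MaxTerm58.CRep
import Pool.Agent.MaxTerm58.HypF3

/-! Hints: everything by induction on the lists from the lemmas of `CRep`; `1026882025 = 32045^2`. -/

namespace Pool.Agent.MaxTerm58

/-- the node and the weight coded by `n` -/
noncomputable def ndC (n : ℕ) : ℂ × ℂ :=
  ((((ndA n : ℕ) : ℂ) - 32045 + (((ndB n : ℕ) : ℂ) - 32045) * Complex.I) / 32045,
   (((ndX n : ℕ) : ℂ) - 100000 + (((ndY n : ℕ) : ℂ) - 100000) * Complex.I) / 100000)

private theorem nodeRep_XX_big : 262144 ≤ XX := by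
  rw [XX_eq]
  calc (262144 : ℕ) = 2 ^ 18 := by norm_num
    _ ≤ 2 ^ 640 := Nat.pow_le_pow_right (by norm_num) (by norm_num)

private theorem nodeRep_ndB (n : ℕ) : ndB n < 262144 := by
  have : ndB n = (n / 68719476736) % 262144 := rfl
  rw [this]; exact Nat.mod_lt _ (by norm_num)

private theorem nodeRep_ndY (n : ℕ) : ndY n < 262144 := by
  have : ndY n = n % 262144 := rfl
  rw [this]; exact Nat.mod_lt _ (by norm_num)

theorem decP_fst (n : ℕ) : CRep (decP n).1 (32045 * (ndC n).1) := by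
  have h := encP_rep 32045 (ndA n) (ndB n) (by norm_num) (by
    have h1 := nodeRep_ndB n
    have h2 := nodeRep_XX_big
    nlinarith)
  have e : (32045 * (ndC n).1 : ℂ) = (((ndA n : ℕ) : ℂ) - ((32045 : ℕ) : ℂ)) + (((ndB n : ℕ) : ℂ) - ((32045 : ℕ) : ℂ)) * Complex.I := by
    unfold ndC
    push_cast
    field_simp
  rw [e]
  exact h

theorem decP_snd (n : ℕ) : CRep (decP n).2 (100000 * (ndC n).2) := by
  have h := encP_rep 100000 (ndX n) (ndY n) (by norm_num) (by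
    have h1 := nodeRep_ndY n
    have h2 := nodeRep_XX_big
    nlinarith)
  have e : (100000 * (ndC n).2 : ℂ) = (((ndX n : ℕ) : ℂ) - ((100000 : ℕ) : ℂ)) + (((ndY n : ℕ) : ℂ) - ((100000 : ℕ) : ℂ)) * Complex.I := by
    unfold ndC
    push_cast
    field_simp
  rw [e]
  exact h

private theorem nodeRep_norm_sq (x y : ℝ) : ‖((x : ℂ) + (y : ℂ) * Complex.I)‖ ^ 2 = x ^ 2 + y ^ 2 := by
  rw [← Complex.normSq_eq_norm_sq, Complex.normSq_add_mul_I]

private theorem nodeRep_norm_sq' (a b : ℕ) (o : ℝ) :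
    ‖((a : ℂ) - (o : ℂ) + ((b : ℂ) - (o : ℂ)) * Complex.I)‖ ^ 2 = ((a : ℝ) - o) ^ 2 + ((b : ℝ) - o) ^ 2 := by
  have := nodeRep_norm_sq ((a : ℝ) - o) ((b : ℝ) - o)
  push_cast at this
  exact this

theorem okP_norm (n : ℕ) (h : okP n = true) : ‖(ndC n).1‖ = 1 := by
  have h1 : ndA n * ndA n + ndB n * ndB n + 1026882025 = 64090 * (ndA n + ndB n) := by
    have := Nat.eq_of_beq_eq_true h
    exact this
  have h2 : (((ndA n * ndA n + ndB n * ndB n + 1026882025 : ℕ)) : ℝ) = ((64090 * (ndA n + ndB n) : ℕ) : ℝ) := by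
    rw [h1]
  push_cast at h2
  have h3 : ‖((ndA n : ℂ) - ((32045 : ℝ) : ℂ) + ((ndB n : ℂ) - ((32045 : ℝ) : ℂ)) * Complex.I)‖ ^ 2 = 32045 ^ 2 := by
    rw [nodeRep_norm_sq']
    linarith
  have h4 : ‖((ndA n : ℂ) - ((32045 : ℝ) : ℂ) + ((ndB n : ℂ) - ((32045 : ℝ) : ℂ)) * Complex.I)‖ = 32045 := by
    have h5 := norm_nonneg ((ndA n : ℂ) - ((32045 : ℝ) : ℂ) + ((ndB n : ℂ) - ((32045 : ℝ) : ℂ)) * Complex.I)
    exact (sq_eq_sq₀ h5 (by norm_num)).1 h3
  have h6 : (ndC n).1 = ((ndA n : ℂ) - ((32045 : ℝ) : ℂ) + ((ndB n : ℂ) - ((32045 : ℝ) : ℂ)) * Complex.I) / 32045 := by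
    unfold ndC
    push_cast
    rfl
  rw [h6, norm_div, h4]
  norm_num

theorem wtP_spec (n : ℕ) : ‖(ndC n).2‖ * 100000000 ≤ ((wtP n : ℕ) : ℝ) := by
  have h6 : (ndC n).2 = ((ndX n : ℂ) - ((100000 : ℝ) : ℂ) + ((ndY n : ℂ) - ((100000 : ℝ) : ℂ)) * Complex.I) / 100000 := by
    unfold ndC
    push_cast
    rfl
  set W : ℝ := ‖((ndX n : ℂ) - ((100000 : ℝ) : ℂ) + ((ndY n : ℂ) - ((100000 : ℝ) : ℂ)) * Complex.I)‖ with hW
  have hW2 : W ^ 2 = ((ndX n : ℝ) - 100000) ^ 2 + ((ndY n : ℝ) - 100000) ^ 2 := by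
    rw [hW, nodeRep_norm_sq']
  have hn : ‖(ndC n).2‖ = W / 100000 := by
    rw [h6, norm_div, ← hW]
    norm_num
  set N : ℕ := (ndX n * ndX n + ndY n * ndY n + 20000000000 - 200000 * (ndX n + ndY n)) * 1000000 + 1 with hN
  have hw : wtP n = sqU N := rfl
  have hle : 200000 * (ndX n + ndY n) ≤ ndX n * ndX n + ndY n * ndY n + 20000000000 := by
    have h1 : (200000 * ((ndX n : ℝ) + ndY n)) ≤ (ndX n : ℝ) * ndX n + (ndY n : ℝ) * ndY n + 20000000000 := by
      nlinarith [sq_nonneg ((ndX n : ℝ) - 100000), sq_nonneg ((ndY n : ℝ) - 100000)]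
    exact_mod_cast h1
  have hNr : (N : ℝ) = W ^ 2 * 1000000 + 1 := by
    rw [hN, hW2]
    push_cast [Nat.cast_sub hle]
    ring
  have hs := sqU_spec N
  rw [hn, hw]
  have h0 : (0 : ℝ) ≤ ((sqU N : ℕ) : ℝ) := Nat.cast_nonneg _
  have hW0 : 0 ≤ W := norm_nonneg _
  have : (W * 1000) ^ 2 ≤ ((sqU N : ℕ) : ℝ) ^ 2 := by
    rw [hNr] at hs
    nlinarith
  have h7 : W * 1000 ≤ ((sqU N : ℕ) : ℝ) := by
    exact (pow_le_pow_iff_left₀ (by positivity) h0 (by norm_num)).1 this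
  linarith

theorem wsumP_spec (l : List ℕ) : wtC (l.map ndC) * 100000000 ≤ ((wsumP l : ℕ) : ℝ) := by
  induction l with
  | nil => simp [wtC, wsumP]
  | cons n l ih =>
    have h1 : wtC ((n :: l).map ndC) = ‖(ndC n).2‖ + wtC (l.map ndC) := by
      simp [wtC]
    have h2 : wsumP (n :: l) = wtP n + wsumP l := rfl
    rw [h1, h2]
    push_cast
    have := wtP_spec n
    linarith

/-- the conjugate of a node is its inverse -/
theorem conj_node (z : ℂ) (h : ‖z‖ = 1) : (starRingEnd ℂ) z = z⁻¹ := by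
  exact (Complex.inv_eq_conj h).symm

/-- The state represents `(z, h z^k, h conj z ^ m)`, `k >= 0` and `m >= 0`. -/
def StRep (st : StP) (nd : List (ℂ × ℂ)) (k m : ℕ) : Prop :=
  List.Forall₂ (fun x y => CRep x.1 (32045 * y.1) ∧
    CRep x.2.1 (100000 * 32045 ^ k * (y.2 * y.1 ^ (k : ℤ))) ∧
    CRep x.2.2 (100000 * 32045 ^ m * (y.2 * y.1 ^ (-(m : ℤ))))) st nd

private theorem nodeRep_congr {x : PC} {w v : ℂ} (h : CRep x w) (e : w = v) : CRep x v := e ▸ h

private theorem nodeRep_conj (x : PC) (z : ℂ) (hz : ‖z‖ = 1) (h : CRep x (32045 * z)) :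
    CRep x.conj (32045 * z⁻¹) := by
  refine nodeRep_congr h.conj ?_
  rw [map_mul, conj_node z hz]
  congr 1
  exact map_ofNat (starRingEnd ℂ) 32045

theorem StRep.init (l : List ℕ) (h : ∀ n ∈ l, okP n = true) :
    StRep (initP (l.map decP)) (l.map ndC) 3 2 := by
  unfold StRep initP
  induction l with
  | nil => simp
  | cons n l ih =>
    simp only [List.map_cons]
    refine List.Forall₂.cons ?_ (ih (fun m hm => h m (List.mem_cons_of_mem _ hm)))
    have hn : ‖(ndC n).1‖ = 1 := okP_norm n (h n List.mem_cons_self)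
    have h0 : (ndC n).1 ≠ 0 := by
      intro h0
      rw [h0] at hn
      simp at hn
    have h1 := decP_fst n
    have h2 := decP_snd n
    have h3 := nodeRep_conj _ _ hn h1
    refine ⟨h1, ?_, ?_⟩
    · refine nodeRep_congr (h2.mul (h1.mul (h1.mul h1))) ?_
      rw [zpow_natCast]
      ring
    · refine nodeRep_congr (h2.mul (h3.mul h3)) ?_
      rw [zpow_neg, zpow_natCast, ← inv_pow]
      ring

theorem StRep.step {st : StP} {nd : List (ℂ × ℂ)} {k m : ℕ} (h : StRep st nd k m)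
    (hn : ∀ x ∈ nd, ‖x.1‖ = 1) : StRep (stepP st) nd (k + 1) (m + 1) := by
  unfold StRep stepP at *
  induction h with
  | nil => simp
  | @cons x y st nd hxy _ ih =>
    simp only [List.map_cons]
    refine List.Forall₂.cons ?_ (ih (fun z hz => hn z (List.mem_cons_of_mem _ hz)))
    have hy : ‖y.1‖ = 1 := hn y List.mem_cons_self
    have h0 : y.1 ≠ 0 := by
      intro h0
      rw [h0] at hy
      simp at hy
    obtain ⟨h1, h2, h3⟩ := hxy
    have h4 := nodeRep_conj _ _ hy h1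
    refine ⟨h1, ?_, ?_⟩
    · refine nodeRep_congr (h2.mul h1) ?_
      rw [zpow_natCast, zpow_natCast]
      ring
    · refine nodeRep_congr (h3.mul h4) ?_
      rw [zpow_neg, zpow_natCast, ← inv_pow, zpow_neg, zpow_natCast, ← inv_pow]
      ring

theorem StRep.sumU {st : StP} {nd : List (ℂ × ℂ)} {k m : ℕ} (h : StRep st nd k m) :
    CRep (sumUP st) (100000 * 32045 ^ k * lamC nd (k : ℤ)) := by
  unfold StRep at h
  induction h with
  | nil =>
    refine nodeRep_congr CRep.zero ?_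
    simp [lamC]
  | @cons x y st nd hxy _ ih =>
    have h1 : sumUP (x :: st) = x.2.1.add (sumUP st) := rfl
    rw [h1]
    refine nodeRep_congr (hxy.2.1.add ih) ?_
    have h2 : lamC (y :: nd) (k : ℤ) = y.2 * y.1 ^ (k : ℤ) + lamC nd (k : ℤ) := by
      simp [lamC]
    rw [h2]
    ring

theorem StRep.sumV {st : StP} {nd : List (ℂ × ℂ)} {k m : ℕ} (h : StRep st nd k m) :
    CRep (sumVP st) (100000 * 32045 ^ m * lamC nd (-(m : ℤ))) := by
  unfold StRep at h
  induction h with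
  | nil =>
    refine nodeRep_congr CRep.zero ?_
    simp [lamC]
  | @cons x y st nd hxy _ ih =>
    have h1 : sumVP (x :: st) = x.2.2.add (sumVP st) := rfl
    rw [h1]
    refine nodeRep_congr (hxy.2.2.add ih) ?_
    have h2 : lamC (y :: nd) (-(m : ℤ)) = y.2 * y.1 ^ (-(m : ℤ)) + lamC nd (-(m : ℤ)) := by
      simp [lamC]
    rw [h2]
    ring

/-- the moments at index `i` -/
def MRep (m : PM) (i : ℕ) (A B C : ℤ → ℂ) : Prop :=
  CRep m.va (100000 * 32045 ^ (i + 2) * A (-((i : ℤ) + 2))) ∧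
  CRep m.vb (100000 * 32045 ^ (i + 2) * B (-((i : ℤ) + 2))) ∧
  CRep m.vc (100000 * 32045 ^ (i + 2) * C (-((i : ℤ) + 2))) ∧
  CRep m.ua (100000 * 32045 ^ (i + 3) * A ((i : ℤ) + 3)) ∧
  CRep m.ub (100000 * 32045 ^ (i + 3) * B ((i : ℤ) + 3)) ∧
  CRep m.uc (100000 * 32045 ^ (i + 3) * C ((i : ℤ) + 3))

/-- a list of moments starting at index `i` -/
def MsRep : List PM → ℕ → (ℤ → ℂ) → (ℤ → ℂ) → (ℤ → ℂ) → Prop
  | [], _, _, _, _ => True
  | m :: ms, i, A, B, C => MRep m i A B C ∧ MsRep ms (i + 1) A B C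

theorem MsRep.take {ms : List PM} {i : ℕ} {A B C : ℤ → ℂ} (h : MsRep ms i A B C) (n : ℕ) :
    MsRep (ms.take n) i A B C := by
  induction ms generalizing i n with
  | nil => simpa using h
  | cons m ms ih =>
    cases n with
    | zero => simp [MsRep]
    | succ n =>
      rw [List.take_succ_cons]
      exact ⟨h.1, ih h.2 n⟩

theorem MsRep.drop {ms : List PM} {i : ℕ} {A B C : ℤ → ℂ} (h : MsRep ms i A B C) (n : ℕ) :
    MsRep (ms.drop n) (i + n) A B C := by
  induction ms generalizing i n with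
  | nil => simp [MsRep]
  | cons m ms ih =>
    cases n with
    | zero => simpa using h
    | succ n =>
      rw [List.drop_succ_cons]
      have := ih h.2 n
      have e : i + 1 + n = i + (n + 1) := by ring
      rw [e] at this
      exact this

theorem momsP_length (f : ℕ) (a b c : StP) : (momsP f a b c).length = f := by
  induction f generalizing a b c with
  | zero => rfl
  | succ f ih => simp [momsP, ih]

private theorem nodeRep_moms (A B C : List (ℂ × ℂ)) (hA : ∀ x ∈ A, ‖x.1‖ = 1)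
    (hB : ∀ x ∈ B, ‖x.1‖ = 1) (hC : ∀ x ∈ C, ‖x.1‖ = 1) (P : ℕ) :
    ∀ (i : ℕ) (a b c : StP), StRep a A (i + 3) (i + 2) → StRep b B (i + 3) (i + 2) →
      StRep c C (i + 3) (i + 2) → MsRep (momsP P a b c) i (lamC A) (lamC B) (lamC C) := by
  induction P with
  | zero => intro i a b c _ _ _; simp [momsP, MsRep]
  | succ P ih =>
    intro i a b c ha hb hc
    have e1 : -((i : ℤ) + 2) = -((i + 2 : ℕ) : ℤ) := by push_cast; ring
    have e2 : ((i : ℤ) + 3) = ((i + 3 : ℕ) : ℤ) := by push_cast; ring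
    refine ⟨⟨?_, ?_, ?_, ?_, ?_, ?_⟩, ?_⟩
    · rw [e1]; exact ha.sumV
    · rw [e1]; exact hb.sumV
    · rw [e1]; exact hc.sumV
    · rw [e2]; exact ha.sumU
    · rw [e2]; exact hb.sumU
    · rw [e2]; exact hc.sumU
    · exact ih (i + 1) _ _ _ (ha.step hA) (hb.step hB) (hc.step hC)

private theorem nodeRep_nodes (l : List ℕ) (h : ∀ n ∈ l, okP n = true) :
    ∀ x ∈ l.map ndC, ‖x.1‖ = 1 := by
  intro x hx
  obtain ⟨n, hn, rfl⟩ := List.mem_map.1 hx
  exact okP_norm n (h n hn)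

theorem momsP_rep (la lb lc : List ℕ) (ha : ∀ n ∈ la, okP n = true) (hb : ∀ n ∈ lb, okP n = true)
    (hc : ∀ n ∈ lc, okP n = true) (P : ℕ) :
    MsRep (momsP P (initP (la.map decP)) (initP (lb.map decP)) (initP (lc.map decP))) 0
      (lamC (la.map ndC)) (lamC (lb.map ndC)) (lamC (lc.map ndC)) := by
  exact nodeRep_moms _ _ _ (nodeRep_nodes la ha) (nodeRep_nodes lb hb) (nodeRep_nodes lc hc) P 0 _ _ _
    (StRep.init la ha) (StRep.init lb hb) (StRep.init lc hc)

end Pool.Agent.MaxTerm58
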