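import Mathlib

/-! Packed Gaussian integers: `x + y i` is represented by the pair of residues of `x + y X` and
`x - y X` modulo `M = X^2 + 1`, `X = 2^640`. Only the accelerated operations on natural numbers
are used, so that the kernel evaluates the checks quickly. -/

namespace Pool.Agent.MaxTerm58

/-- base of the packing -/
@[irreducible] def XX : Nat := 2 ^ 640
/-- modulus of the packing, `XX ^ 2 = -1` -/
@[irreducible] def MM : Nat := 2 ^ 1280 + 1

/-- a packed Gaussian integer -/
structure PC where
  a : Nat
  b : Nat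

def PC.mul (x y : PC) : PC := ⟨Nat.mod (Nat.mul x.a y.a) MM, Nat.mod (Nat.mul x.b y.b) MM⟩
def PC.add (x y : PC) : PC := ⟨Nat.add x.a y.a, Nat.add x.b y.b⟩
def PC.conj (x : PC) : PC := ⟨x.b, x.a⟩
def PC.smul (n : Nat) (x : PC) : PC := ⟨Nat.mul n x.a, Nat.mul n x.b⟩
/-- square of the modulus -/
def PC.nsq (x : PC) : Nat := Nat.mod (Nat.mul x.a x.b) MM
/-- twice the real part (modulo `MM`) -/
def PC.re2 (x : PC) : Nat := Nat.mod (Nat.add x.a x.b) MM

/-- the packed number `(a - o) + (b - o) i` -/
def encP (o a b : Nat) : PC :=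
  ⟨Nat.add (Nat.add a (Nat.mul b XX)) (Nat.sub (Nat.mul o MM) (Nat.add o (Nat.mul o XX))),
   Nat.sub (Nat.add a (Nat.add (Nat.mul o MM) (Nat.mul o XX))) (Nat.add o (Nat.mul b XX))⟩

/-- one Newton step for the square root, rounded up -/
def nst (n g : Nat) : Nat := Nat.succ (Nat.div (Nat.add g (Nat.div n g)) 2)

/-- starting value of the Newton iteration -/
def nguess (n : Nat) : Nat :=
  bif Nat.ble n 274877906944 then
    (bif Nat.ble n 268435456 then (bif Nat.ble n 8388608 then 1448 else 7000)
      else (bif Nat.ble n 8589934592 then 40000 else 230000))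
  else
    (bif Nat.ble n 281474976710656 then (bif Nat.ble n 8796093022208 then 1300000 else 7000000)
      else (bif Nat.ble n 9007199254740992 then 40000000 else 200000000))

/-- an upper bound for the square root -/
def sqU (n : Nat) : Nat := nst n (nst n (nst n (nst n (nguess n))))

/-- an upper bound for `10^8 |w| / den` -/
def absP (w : PC) (den : Nat) : Nat :=
  sqU (Nat.succ (Nat.div (Nat.mul (PC.nsq w) 10000000000000000) (Nat.mul den den)))

end Pool.Agent.MaxTerm58
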