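import Pool.Agent.MaxTerm58.CheckS
import Pool.Agent.MaxTerm58.GenRep
import Pool.Agent.MaxTerm58.DualS
import Pool.Agent.MaxTerm58.NodeRep
import Pool.Agent.MaxTerm58.LeafA

/-! Representation of the data of the family S. Hints: as `NodeRep.lean`, `LeafA.lean` (`StRep.step`, `StRep.sumU`,
`StRep.sumV`, `P0_rep`, ..., `PT_rep`); `momsP` is the same function with another initial state. -/

namespace Pool.Agent.MaxTerm58

private theorem repS_congr {x : PC} {w v : ℂ} (h : CRep x w) (e : w = v) : CRep x v := e ▸ h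

private theorem repS_conj (x : PC) (z : ℂ) (hz : ‖z‖ = 1) (h : CRep x (32045 * z)) :
    CRep x.conj (32045 * z⁻¹) := by
  refine repS_congr h.conj ?_
  rw [map_mul, conj_node z hz]
  congr 1
  exact map_ofNat (starRingEnd ℂ) 32045

private theorem repS_nodes (l : List ℕ) (h : ∀ n ∈ l, okP n = true) :
    ∀ x ∈ l.map ndC, ‖x.1‖ = 1 := by
  intro x hx
  obtain ⟨n, hn, rfl⟩ := List.mem_map.1 hx
  exact okP_norm n (h n hn)

private theorem repS_lam_cons (x : ℂ × ℂ) (l : List (ℂ × ℂ)) (k : ℤ) :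
    lamC (x :: l) k = x.2 * x.1 ^ k + lamC l k := by
  unfold lamC
  rw [List.map_cons, List.sum_cons]

private theorem repS_lam_nil (k : ℤ) : lamC [] k = 0 := by
  unfold lamC
  simp

private theorem repS_wt_nonneg (nd : List (ℂ × ℂ)) : 0 ≤ wtC nd := by
  unfold wtC
  refine List.sum_nonneg ?_
  intro x hx
  obtain ⟨y, _, rfl⟩ := List.mem_map.1 hx
  exact norm_nonneg _

private theorem repS_le (l : List ℕ) (h : ∀ n ∈ l, okP n = true) (hw : wtC (l.map ndC) ≤ 1) (k : ℤ) :
    ‖lamC (l.map ndC) k‖ ≤ 1 := (lamC_le _ (repS_nodes l h) k).trans hw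

private theorem repS_wts {la lb lc : List ℕ}
    (hw : wtC (la.map ndC) + wtC (lb.map ndC) + wtC (lc.map ndC) ≤ 1) :
    wtC (la.map ndC) ≤ 1 ∧ wtC (lb.map ndC) ≤ 1 ∧ wtC (lc.map ndC) ≤ 1 := by
  have h1 := repS_wt_nonneg (la.map ndC)
  have h2 := repS_wt_nonneg (lb.map ndC)
  have h3 := repS_wt_nonneg (lc.map ndC)
  exact ⟨by linarith, by linarith, by linarith⟩

theorem StRep.initS (l : List ℕ) (h : ∀ n ∈ l, okP n = true) :
    StRep (Pool.Agent.MaxTerm58.initS (l.map decP)) (l.map ndC) 3 3 := by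
  unfold StRep Pool.Agent.MaxTerm58.initS
  induction l with
  | nil => simp
  | cons n l ih =>
    simp only [List.map_cons]
    refine List.Forall₂.cons ?_ (ih (fun m hm => h m (List.mem_cons_of_mem _ hm)))
    have hn : ‖(ndC n).1‖ = 1 := okP_norm n (h n List.mem_cons_self)
    have h0 : (ndC n).1 ≠ 0 := by
      intro h0
      rw [h0] at hn
      simp at hn
    have h1 := decP_fst n
    have h2 := decP_snd n
    have h3 := repS_conj _ _ hn h1
    refine ⟨h1, ?_, ?_⟩
    · refine repS_congr (h2.mul (h1.mul (h1.mul h1))) ?_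
      rw [zpow_natCast]
      ring
    · refine repS_congr (h2.mul (h3.mul (h3.mul h3))) ?_
      rw [zpow_neg, zpow_natCast, ← inv_pow]
      ring

/-- the moments with the exponents `i + 3` and `-(i + 3)` -/
def MRepS (m : PM) (i : ℕ) (A B C : ℤ → ℂ) : Prop :=
  CRep m.va (100000 * 32045 ^ (i + 3) * A (-((i : ℤ) + 3))) ∧
  CRep m.vb (100000 * 32045 ^ (i + 3) * B (-((i : ℤ) + 3))) ∧
  CRep m.vc (100000 * 32045 ^ (i + 3) * C (-((i : ℤ) + 3))) ∧
  CRep m.ua (100000 * 32045 ^ (i + 3) * A ((i : ℤ) + 3)) ∧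
  CRep m.ub (100000 * 32045 ^ (i + 3) * B ((i : ℤ) + 3)) ∧
  CRep m.uc (100000 * 32045 ^ (i + 3) * C ((i : ℤ) + 3))

def MsRepS : List PM → ℕ → (ℤ → ℂ) → (ℤ → ℂ) → (ℤ → ℂ) → Prop
  | [], _, _, _, _ => True
  | m :: ms, i, A, B, C => MRepS m i A B C ∧ MsRepS ms (i + 1) A B C

theorem MsRepS.take {ms : List PM} {i : ℕ} {A B C : ℤ → ℂ} (h : MsRepS ms i A B C) (n : ℕ) :
    MsRepS (ms.take n) i A B C := by
  induction ms generalizing i n with
  | nil => simpa using h
  | cons m ms ih =>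
    cases n with
    | zero => simp [MsRepS]
    | succ n =>
      rw [List.take_succ_cons]
      exact ⟨h.1, ih h.2 n⟩

theorem MsRepS.drop {ms : List PM} {i : ℕ} {A B C : ℤ → ℂ} (h : MsRepS ms i A B C) (n : ℕ) :
    MsRepS (ms.drop n) (i + n) A B C := by
  induction ms generalizing i n with
  | nil => simp [MsRepS]
  | cons m ms ih =>
    cases n with
    | zero => simpa using h
    | succ n =>
      rw [List.drop_succ_cons]
      have := ih h.2 n
      have e : i + 1 + n = i + (n + 1) := by ring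
      rw [e] at this
      exact this

private theorem repS_moms (A B C : List (ℂ × ℂ)) (hA : ∀ x ∈ A, ‖x.1‖ = 1)
    (hB : ∀ x ∈ B, ‖x.1‖ = 1) (hC : ∀ x ∈ C, ‖x.1‖ = 1) (P : ℕ) :
    ∀ (i : ℕ) (a b c : StP), StRep a A (i + 3) (i + 3) → StRep b B (i + 3) (i + 3) →
      StRep c C (i + 3) (i + 3) → MsRepS (momsP P a b c) i (lamC A) (lamC B) (lamC C) := by
  induction P with
  | zero => intro i a b c _ _ _; simp [momsP, MsRepS]
  | succ P ih =>
    intro i a b c ha hb hc
    have e1 : -((i : ℤ) + 3) = -((i + 3 : ℕ) : ℤ) := by push_cast; ring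
    have e2 : ((i : ℤ) + 3) = ((i + 3 : ℕ) : ℤ) := by push_cast; ring
    refine ⟨⟨?_, ?_, ?_, ?_, ?_, ?_⟩, ?_⟩
    · rw [e1]; exact ha.sumV
    · rw [e1]; exact hb.sumV
    · rw [e1]; exact hc.sumV
    · rw [e2]; exact ha.sumU
    · rw [e2]; exact hb.sumU
    · rw [e2]; exact hc.sumU
    · exact ih (i + 1) _ _ _ (ha.step hA) (hb.step hB) (hc.step hC)

theorem momsS_rep (la lb lc : List ℕ) (ha : ∀ n ∈ la, okP n = true) (hb : ∀ n ∈ lb, okP n = true)
    (hc : ∀ n ∈ lc, okP n = true) (P : ℕ) :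
    MsRepS (momsP P (initS (la.map decP)) (initS (lb.map decP)) (initS (lc.map decP))) 0
      (lamC (la.map ndC)) (lamC (lb.map ndC)) (lamC (lc.map ndC)) := by
  exact repS_moms _ _ _ (repS_nodes la ha) (repS_nodes lb hb) (repS_nodes lc hc) P 0 _ _ _
    (StRep.initS la ha) (StRep.initS lb hb) (StRep.initS lc hc)

theorem PTT_rep (l : List ℕ) (h : ∀ n ∈ l, okP n = true) :
    CRep (PTT (l.map decP)) (102688202500000 * lamC (l.map ndC) (-2)) := by
  induction l with
  | nil =>
    rw [List.map_nil, List.map_nil, repS_lam_nil, mul_zero]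
    exact CRep.zero
  | cons n l ih =>
    have ih' := ih fun k hk => h k (List.mem_cons_of_mem _ hk)
    have hn := okP_norm n (h n List.mem_cons_self)
    rw [List.map_cons, List.map_cons, repS_lam_cons]
    have h3 := repS_conj _ _ hn (decP_fst n)
    have h : CRep (PTT (decP n :: l.map decP))
        ((100000 * (ndC n).2) * ((32045 * (ndC n).1⁻¹) * (32045 * (ndC n).1⁻¹)) +
          102688202500000 * lamC (l.map ndC) (-2)) :=
      ((decP_snd n).mul (h3.mul h3)).add ih'
    refine repS_congr h ?_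
    have e2 : (ndC n).1 ^ (-2 : ℤ) = (ndC n).1⁻¹ * (ndC n).1⁻¹ := by
      rw [show (-2 : ℤ) = -((2 : ℕ) : ℤ) from rfl, zpow_neg, zpow_natCast, ← inv_pow, sq]
    rw [e2]
    ring

theorem itM_rep (la lb lc : List ℕ) (ha : ∀ n ∈ la, okP n = true) (hb : ∀ n ∈ lb, okP n = true)
    (hc : ∀ n ∈ lc, okP n = true) (hw : wtC (la.map ndC) + wtC (lb.map ndC) + wtC (lc.map ndC) ≤ 1) :
    ItRep (itM (la.map decP) (lb.map decP) (lc.map decP))
      (f0S (lamC (la.map ndC)) (lamC (lb.map ndC)) (lamC (lc.map ndC))) := by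
  obtain ⟨wa, wb, wc⟩ := repS_wts hw
  have a0 := P0_rep la
  have a2 := P2_rep la
  have aT := PT_rep la ha
  have aTT := PTT_rep la ha
  have b0 := P0_rep lb
  have b2 := P2_rep lb
  have bT := PT_rep lb hb
  have bTT := PTT_rep lb hb
  have c0 := P0_rep lc
  have c2 := P2_rep lc
  have cT := PT_rep lc hc
  have cTT := PTT_rep lc hc
  have hA := repS_le la ha wa
  have hB := repS_le lb hb wb
  have hC := repS_le lc hc wc
  unfold ItRep itM f0S
  refine List.Forall₂.cons ⟨?_, rfl, rfl, ?_⟩ (List.Forall₂.cons ⟨?_, rfl, rfl, ?_⟩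
    (List.Forall₂.cons ⟨?_, rfl, rfl, ?_⟩ (List.Forall₂.cons ⟨?_, rfl, rfl, ?_⟩
    (List.Forall₂.cons ⟨?_, rfl, rfl, ?_⟩ (List.Forall₂.cons ⟨?_, rfl, rfl, ?_⟩ List.Forall₂.nil)))))
  · refine repS_congr ((aTT.add (c2.add (aT.smul 32045))).add
      ((bT.smul 32045).add ((b0.add c0).smul 1026882025))) ?_
    push_cast
    ring
  · refine (norm_add_le _ _).trans ?_
    have h1 := norm_add_le (lamC (la.map ndC) (-2)) (lamC (lc.map ndC) 2 + lamC (la.map ndC) (-1))
    have h2 := norm_add_le (lamC (lc.map ndC) 2) (lamC (la.map ndC) (-1))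
    have h3 := norm_add_le (lamC (lb.map ndC) (-1)) (lamC (lb.map ndC) 0 + lamC (lc.map ndC) 0)
    have h4 := norm_add_le (lamC (lb.map ndC) 0) (lamC (lc.map ndC) 0)
    have := hA (-2)
    have := hC 2
    have := hA (-1)
    have := hB (-1)
    have := hB 0
    have := hC 0
    linarith
  · refine repS_congr ((a0.smul 1026882025).add bTT) ?_
    push_cast
    ring
  · refine (norm_add_le _ _).trans ?_
    have := hA 0
    have := hB (-2)
    linarith
  · refine repS_congr a2 ?_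
    push_cast
    ring
  · exact (hA 2).trans (by norm_num)
  · refine repS_congr b2 ?_
    push_cast
    ring
  · exact (hB 2).trans (by norm_num)
  · refine repS_congr cTT ?_
    push_cast
    ring
  · exact (hC (-2)).trans (by norm_num)
  · refine repS_congr (cT.smul 32045) ?_
    push_cast
    ring
  · exact (hC (-1)).trans (by norm_num)

theorem itR1_rep (la lb lc : List ℕ) (ha : ∀ n ∈ la, okP n = true) (hb : ∀ n ∈ lb, okP n = true)
    (hc : ∀ n ∈ lc, okP n = true) (hw : wtC (la.map ndC) + wtC (lb.map ndC) + wtC (lc.map ndC) ≤ 1) :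
    ItRep (itR1 (la.map decP) (lb.map decP) (lc.map decP))
      (fR1S (lamC (la.map ndC)) (lamC (lb.map ndC)) (lamC (lc.map ndC))) := by
  obtain ⟨wa, wb, wc⟩ := repS_wts hw
  have hA := repS_le la ha wa
  have hB := repS_le lb hb wb
  have hC := repS_le lc hc wc
  unfold ItRep itR1 fR1S
  refine List.Forall₂.cons ⟨?_, rfl, rfl, ?_⟩ (List.Forall₂.cons ⟨?_, rfl, rfl, ?_⟩
    (List.Forall₂.cons ⟨?_, rfl, rfl, ?_⟩ List.Forall₂.nil))
  · refine repS_congr (P1_rep lc) ?_
    push_cast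
    ring
  · exact (hC 1).trans (by norm_num)
  · refine repS_congr (P1_rep lb) ?_
    push_cast
    ring
  · exact (hB 1).trans (by norm_num)
  · refine repS_congr (P1_rep la) ?_
    push_cast
    ring
  · exact (hA 1).trans (by norm_num)

theorem itL_rep {m : PM} {i : ℕ} {A B C : ℤ → ℂ} (h : MRepS m i A B C) (hA : ∀ k, ‖A k‖ ≤ 1)
    (hB : ∀ k, ‖B k‖ ≤ 1) (hC : ∀ k, ‖C k‖ ≤ 1) : ItRep (itL m i) (fLS A B C i) := by
  obtain ⟨h1, h2, h3, h4, h5, h6⟩ := h
  unfold ItRep itL fLS
  have e : ((Nat.mul 100000 (Nat.pow 32045 (Nat.add i 3)) : ℕ) : ℂ) = 100000 * 32045 ^ (i + 3) := by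
    simp only [Nat.mul_eq, Nat.pow_eq, Nat.add_eq]
    push_cast
    rfl
  refine List.Forall₂.cons ⟨?_, rfl, rfl, ?_⟩ (List.Forall₂.cons ⟨?_, rfl, rfl, ?_⟩
    (List.Forall₂.cons ⟨?_, rfl, rfl, ?_⟩ List.Forall₂.nil))
  · exact repS_congr h1 (by rw [← e])
  · exact (hA _).trans (by norm_num)
  · exact repS_congr h2 (by rw [← e])
  · exact (hB _).trans (by norm_num)
  · exact repS_congr h3 (by rw [← e])
  · exact (hC _).trans (by norm_num)

theorem itR_rep {m : PM} {i : ℕ} {A B C : ℤ → ℂ} (h : MRepS m i A B C) (hA : ∀ k, ‖A k‖ ≤ 1)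
    (hB : ∀ k, ‖B k‖ ≤ 1) (hC : ∀ k, ‖C k‖ ≤ 1) (a : ℕ) : ItRep (itR a m i) (fRS A B C a i) := by
  obtain ⟨h1, h2, h3, h4, h5, h6⟩ := h
  unfold ItRep itR fRS
  have e : ((Nat.mul 100000 (Nat.pow 32045 (Nat.add i 3)) : ℕ) : ℂ) = 100000 * 32045 ^ (i + 3) := by
    simp only [Nat.mul_eq, Nat.pow_eq, Nat.add_eq]
    push_cast
    rfl
  refine List.Forall₂.cons ⟨?_, rfl, rfl, ?_⟩ (List.Forall₂.cons ⟨?_, rfl, rfl, ?_⟩
    (List.Forall₂.cons ⟨?_, rfl, rfl, ?_⟩ List.Forall₂.nil))
  · exact repS_congr h6 (by rw [← e])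
  · exact (hC _).trans (by norm_num)
  · exact repS_congr h5 (by rw [← e])
  · exact (hB _).trans (by norm_num)
  · exact repS_congr h4 (by rw [← e])
  · exact (hA _).trans (by norm_num)

/-- the list of the items of the `l i`, `i0 <= i < i0 + length` -/
theorem lsL_rep {A B C : ℤ → ℂ} (hA : ∀ k, ‖A k‖ ≤ 1) (hB : ∀ k, ‖B k‖ ≤ 1) (hC : ∀ k, ‖C k‖ ≤ 1)
    (sT : ℕ) : ∀ (ms : List PM) (i0 : ℕ), MsRepS ms i0 A B C →
      LsRep (lsL sT ms i0) ((List.range ms.length).map fun k =>
        (wLS ((sT : ℝ) / 100000000) (i0 + k), fLS A B C (i0 + k))) := by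
  intro ms
  induction ms with
  | nil =>
    intro i0 _
    simp only [List.length_nil, List.range_zero, List.map_nil]
    exact List.Forall₂.nil
  | cons m ms ih =>
    intro i0 h
    rw [List.length_cons, List.range_succ_eq_map, List.map_cons, List.map_map]
    refine List.Forall₂.cons ⟨?_, ?_, ?_⟩ ?_
    · unfold wLS
      split_ifs
      · positivity
      · norm_num
    · show wLS ((sT : ℝ) / 100000000) (i0 + 0) * 100000000 ≤
        (((bif Nat.beq i0 0 then sT else 100000000 : ℕ)) : ℝ)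
      unfold wLS
      rw [Nat.add_zero]
      rcases Nat.eq_zero_or_pos i0 with h0 | h0
      · subst h0
        simp
      · have h1 : Nat.beq i0 0 = false := by
          cases i0 with
          | zero => exact absurd h0 (lt_irrefl 0)
          | succ n => rfl
        rw [h1, if_neg (by omega)]
        simp
    · exact itL_rep h.1 hA hB hC
    · have h2 := ih (i0 + 1) h.2
      have e : ((fun k => (wLS ((sT : ℝ) / 100000000) (i0 + k), fLS A B C (i0 + k))) ∘ Nat.succ) =
          fun k => (wLS ((sT : ℝ) / 100000000) (i0 + 1 + k), fLS A B C (i0 + 1 + k)) := by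
        funext k
        simp only [Function.comp]
        rw [show i0 + Nat.succ k = i0 + 1 + k by omega]
      rw [e]
      exact h2

/-- weights of the penalties of the `r i` -/
noncomputable def kapR (md c3 sb i : ℕ) : ℝ :=
  (((bif Nat.beq md 0 then kapA c3 i else kapB sb i : ℕ)) : ℝ) / 100000000

/-- exponent of `q` in the penalties of the `r i` -/
def expR (md i : ℕ) : ℕ := bif Nat.beq md 0 then i else Nat.div (Nat.succ i) 2

theorem lsR_rep {A B C : ℤ → ℂ} (hA : ∀ k, ‖A k‖ ≤ 1) (hB : ∀ k, ‖B k‖ ≤ 1) (hC : ∀ k, ‖C k‖ ≤ 1)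
    (md c3 sb : ℕ) : ∀ (ms : List PM) (i0 : ℕ), MsRepS ms i0 A B C →
      LsRep (lsR md c3 sb ms i0) ((List.range ms.length).map fun k =>
        (kapR md c3 sb (i0 + k), fRS A B C (expR md (i0 + k)) (i0 + k))) := by
  intro ms
  induction ms with
  | nil =>
    intro i0 _
    simp only [List.length_nil, List.range_zero, List.map_nil]
    exact List.Forall₂.nil
  | cons m ms ih =>
    intro i0 h
    rw [List.length_cons, List.range_succ_eq_map, List.map_cons, List.map_map]
    refine List.Forall₂.cons ⟨?_, ?_, ?_⟩ ?_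
    · unfold kapR
      positivity
    · show kapR md c3 sb (i0 + 0) * 100000000 ≤
        (((bif Nat.beq md 0 then kapA c3 i0 else kapB sb i0 : ℕ)) : ℝ)
      unfold kapR
      rw [Nat.add_zero]
      rw [div_mul_cancel₀ _ (by norm_num)]
    · exact itR_rep h.1 hA hB hC _
    · have h2 := ih (i0 + 1) h.2
      have e : ((fun k => (kapR md c3 sb (i0 + k), fRS A B C (expR md (i0 + k)) (i0 + k))) ∘ Nat.succ) =
          fun k => (kapR md c3 sb (i0 + 1 + k), fRS A B C (expR md (i0 + 1 + k)) (i0 + 1 + k)) := by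
        funext k
        simp only [Function.comp]
        rw [show i0 + Nat.succ k = i0 + 1 + k by omega]
      rw [e]
      exact h2

end Pool.Agent.MaxTerm58
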