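import Pool.Agent.MaxTerm58.HypTI
import Pool.Agent.MaxTerm58.NodeRep

/-! Representation of the moments, type I. Hints: as in `NodeRep`, `VLoop`; `StRep.step`, `StRep.sumU`, `StRep.sumV`. -/

namespace Pool.Agent.MaxTerm58

private theorem repTI_congr {x : PC} {w v : ℂ} (h : CRep x w) (e : w = v) : CRep x v := e ▸ h

private theorem repTI_conj (x : PC) (z : ℂ) (hz : ‖z‖ = 1) (h : CRep x (32045 * z)) :
    CRep x.conj (32045 * z⁻¹) := by
  refine repTI_congr h.conj ?_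
  rw [map_mul, conj_node z hz]
  congr 1
  exact map_ofNat (starRingEnd ℂ) 32045

private theorem repTI_nodes (l : List ℕ) (h : ∀ n ∈ l, okP n = true) :
    ∀ x ∈ l.map ndC, ‖x.1‖ = 1 := by
  intro x hx
  obtain ⟨n, hn, rfl⟩ := List.mem_map.1 hx
  exact okP_norm n (h n hn)

theorem StRep.initI (l : List ℕ) (h : ∀ n ∈ l, okP n = true) :
    StRep (Pool.Agent.MaxTerm58.initI (l.map decP)) (l.map ndC) 2 2 := by
  unfold StRep Pool.Agent.MaxTerm58.initI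
  induction l with
  | nil => simp
  | cons n l ih =>
    simp only [List.map_cons]
    refine List.Forall₂.cons ?_ (ih (fun m hm => h m (List.mem_cons_of_mem _ hm)))
    have hn : ‖(ndC n).1‖ = 1 := okP_norm n (h n List.mem_cons_self)
    have h0 : (ndC n).1 ≠ 0 := by
      intro h0
      rw [h0] at hn
      simp at hn
    have h1 := decP_fst n
    have h2 := decP_snd n
    have h3 := repTI_conj _ _ hn h1
    refine ⟨h1, ?_, ?_⟩
    · refine repTI_congr (h2.mul (h1.mul h1)) ?_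
      rw [zpow_natCast]
      ring
    · refine repTI_congr (h2.mul (h3.mul h3)) ?_
      rw [zpow_neg, zpow_natCast, ← inv_pow]
      ring

/-- a list of pairs of moments starting at index `i` -/
def MsRepI : List (PC × PC) → ℕ → (ℤ → ℂ) → Prop
  | [], _, _ => True
  | m :: ms, i, L => (CRep m.1 (100000 * 32045 ^ (i + 2) * L (-((i : ℤ) + 2))) ∧
      CRep m.2 (100000 * 32045 ^ (i + 2) * L ((i : ℤ) + 2))) ∧ MsRepI ms (i + 1) L

theorem MsRepI.take {ms : List (PC × PC)} {i : ℕ} {L : ℤ → ℂ} (h : MsRepI ms i L) (n : ℕ) :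
    MsRepI (ms.take n) i L := by
  induction ms generalizing i n with
  | nil => simpa using h
  | cons m ms ih =>
    cases n with
    | zero => simp [MsRepI]
    | succ n =>
      rw [List.take_succ_cons]
      exact ⟨h.1, ih h.2 n⟩

theorem MsRepI.drop {ms : List (PC × PC)} {i : ℕ} {L : ℤ → ℂ} (h : MsRepI ms i L) (n : ℕ) :
    MsRepI (ms.drop n) (i + n) L := by
  induction ms generalizing i n with
  | nil => simp [MsRepI]
  | cons m ms ih =>
    cases n with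
    | zero => simpa using h
    | succ n =>
      rw [List.drop_succ_cons]
      have := ih h.2 n
      have e : i + 1 + n = i + (n + 1) := by ring
      rw [e] at this
      exact this

theorem momsI_length (f : ℕ) (a : StP) : (momsI f a).length = f := by
  induction f generalizing a with
  | zero => rfl
  | succ f ih => simp [momsI, ih]

private theorem repTI_moms (A : List (ℂ × ℂ)) (hA : ∀ x ∈ A, ‖x.1‖ = 1) (P : ℕ) :
    ∀ (i : ℕ) (a : StP), StRep a A (i + 2) (i + 2) → MsRepI (momsI P a) i (lamC A) := by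
  induction P with
  | zero => intro i a _; simp [momsI, MsRepI]
  | succ P ih =>
    intro i a ha
    have e1 : -((i : ℤ) + 2) = -((i + 2 : ℕ) : ℤ) := by push_cast; ring
    have e2 : ((i : ℤ) + 2) = ((i + 2 : ℕ) : ℤ) := by push_cast; ring
    refine ⟨⟨?_, ?_⟩, ?_⟩
    · rw [e1]; exact ha.sumV
    · rw [e2]; exact ha.sumU
    · exact ih (i + 1) _ (ha.step hA)

theorem momsI_rep (l : List ℕ) (h : ∀ n ∈ l, okP n = true) (P : ℕ) :
    MsRepI (momsI P (initI (l.map decP))) 0 (lamC (l.map ndC)) := by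
  exact repTI_moms _ (repTI_nodes l h) P 0 _ (StRep.initI l h)

/-- numerator of a coefficient -/
theorem numTI_rep {V U : PC} {i : ℕ} {L : ℤ → ℂ} (hV : CRep V (100000 * 32045 ^ (i + 2) * L (-((i : ℤ) + 2))))
    (hU : CRep U (100000 * 32045 ^ (i + 2) * L ((i : ℤ) + 2))) (Q : ℕ) (hQ : 0 < Q) (cz : ℂ) (cp : PC)
    (hcp : CRep cp (cz ^ (i + 2))) :
    CRep ((V.smul (Nat.pow Q (Nat.add i 2))).add (cp.mul U))
      (((Nat.mul (Nat.mul 100000 (Nat.pow 32045 (Nat.add i 2))) (Nat.pow Q (Nat.add i 2)) : ℕ) : ℂ) *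
        coefTI L (cz / Q) i) := by
  have hQ' : (Q : ℂ) ≠ 0 := by exact_mod_cast hQ.ne'
  have key := (hV.smul (Nat.pow Q (Nat.add i 2))).add (hcp.mul hU)
  convert key using 1
  unfold coefTI
  simp only [Nat.mul_eq, Nat.pow_eq, Nat.add_eq]
  push_cast
  rw [div_pow]
  field_simp

private theorem repTI_small (n : ℕ) (w : ℂ) (hn : n ≤ 2 ^ 500) (hw : ‖w‖ ≤ 2 ^ 100) :
    ‖(n : ℂ) * w‖ ^ 2 < (MM : ℝ) := by
  have h1 : ‖(n : ℂ) * w‖ ≤ 2 ^ 500 * 2 ^ 100 := by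
    rw [norm_mul, Complex.norm_natCast]
    have hn' : (n : ℝ) ≤ 2 ^ 500 := by exact_mod_cast hn
    gcongr
  have h2 : ‖(n : ℂ) * w‖ ^ 2 ≤ (2 ^ 500 * 2 ^ 100) ^ 2 :=
    pow_le_pow_left₀ (norm_nonneg _) h1 2
  rw [MM_eq]
  push_cast
  refine lt_of_le_of_lt h2 ?_
  rw [← pow_add, ← pow_mul]
  have : (2 : ℝ) ^ ((500 + 100) * 2) ≤ 2 ^ 1280 := pow_le_pow_right₀ (by norm_num) (by norm_num)
  linarith

private theorem repTI_nat (Q : ℕ) (hQ : Q ≤ 512) (a b : ℕ) (ha : a ≤ 17) (hb : b ≤ 17) :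
    100000 * 32045 ^ a * Q ^ b ≤ 2 ^ 500 := by
  have h1 : 32045 ^ a ≤ (2 ^ 15) ^ 17 :=
    (Nat.pow_le_pow_left (by norm_num) a).trans (Nat.pow_le_pow_right (by norm_num) ha)
  have h2 : Q ^ b ≤ (2 ^ 9) ^ 17 :=
    (Nat.pow_le_pow_left (hQ.trans (by norm_num)) b).trans (Nat.pow_le_pow_right (by norm_num) hb)
  calc 100000 * 32045 ^ a * Q ^ b ≤ 2 ^ 17 * (2 ^ 15) ^ 17 * (2 ^ 9) ^ 17 := by
        gcongr
        norm_num
    _ ≤ 2 ^ 500 := by
        rw [← pow_mul, ← pow_mul, ← pow_add, ← pow_add]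
        exact Nat.pow_le_pow_right (by norm_num) (by norm_num)

private theorem repTI_norm (x y q : ℂ) (hx : ‖x‖ ≤ 1) (hy : ‖y‖ ≤ 1)
    (hq : ‖q‖ ≤ 3) (a : ℕ) (ha : a ≤ 17) :
    ‖x + q ^ a * y‖ ≤ 2 ^ 100 := by
  have h1 : ‖q ^ a‖ ≤ 3 ^ 17 := by
    rw [norm_pow]
    exact (pow_le_pow_left₀ (norm_nonneg _) hq a).trans (pow_le_pow_right₀ (by norm_num) ha)
  have h3 : ‖q ^ a * y‖ ≤ 3 ^ 17 * 1 := by
    rw [norm_mul]
    exact mul_le_mul h1 hy (norm_nonneg _) (by norm_num)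
  have h4 : ‖x + q ^ a * y‖ ≤ 1 + 3 ^ 17 * 1 := (norm_add_le _ _).trans (add_le_add hx h3)
  exact h4.trans (by norm_num)

theorem numTI_small (L : ℤ → ℂ) (hL : ∀ k, ‖L k‖ ≤ 1) (Q : ℕ) (hQ : Q ≤ 512) (q : ℂ) (hq : ‖q‖ ≤ 3)
    (i : ℕ) (hi : i ≤ 15) :
    ‖((Nat.mul (Nat.mul 100000 (Nat.pow 32045 (Nat.add i 2))) (Nat.pow Q (Nat.add i 2)) : ℕ) : ℂ) *
        coefTI L q i‖ ^ 2 < (MM : ℝ) := by
  refine repTI_small _ _ ?_ ?_
  · simp only [Nat.mul_eq, Nat.pow_eq, Nat.add_eq]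
    exact repTI_nat Q hQ (i + 2) (i + 2) (by omega) (by omega)
  · unfold coefTI
    exact repTI_norm _ _ q (hL _) (hL _) hq (i + 2) (by omega)

theorem momTI_small (w : ℂ) (hw : ‖w‖ ≤ 1) (i : ℕ) (hi : i ≤ 38) :
    ‖(100000 * 32045 ^ (i + 2) : ℂ) * w‖ ^ 2 < (MM : ℝ) := by
  have e : (100000 * 32045 ^ (i + 2) : ℂ) = ((100000 * 32045 ^ (i + 2) : ℕ) : ℂ) := by push_cast; rfl
  have hn : (100000 * 32045 ^ (i + 2) : ℕ) ≤ 2 ^ 617 := by
    have h1 : 32045 ^ (i + 2) ≤ (2 ^ 15) ^ 40 :=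
      (Nat.pow_le_pow_left (by norm_num) _).trans (Nat.pow_le_pow_right (by norm_num) (by omega))
    calc 100000 * 32045 ^ (i + 2) ≤ 2 ^ 17 * (2 ^ 15) ^ 40 := by
          gcongr
          norm_num
      _ = 2 ^ 617 := by
          rw [← pow_mul, ← pow_add]
  rw [e]
  generalize (100000 * 32045 ^ (i + 2) : ℕ) = n at hn
  have h1 : ‖(n : ℂ) * w‖ ≤ 2 ^ 617 * 1 := by
    rw [norm_mul, Complex.norm_natCast]
    have hn' : (n : ℝ) ≤ 2 ^ 617 := by exact_mod_cast hn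
    gcongr
  have h2 : ‖(n : ℂ) * w‖ ^ 2 ≤ (2 ^ 617 * 1) ^ 2 :=
    pow_le_pow_left₀ (norm_nonneg _) h1 2
  rw [MM_eq]
  push_cast
  refine lt_of_le_of_lt h2 ?_
  rw [mul_one, ← pow_mul]
  have : (2 : ℝ) ^ (617 * 2) ≤ 2 ^ 1280 := pow_le_pow_right₀ (by norm_num) (by norm_num)
  linarith

end Pool.Agent.MaxTerm58
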