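import Pool.Agent.MaxTerm58.EDef

/-! Checks for `HypT`: `md = 0`: outside the region `InU2` (box), `md = 1`: small `T` (balls), `md = 2`: right ratio
at most `17/20` (right box, left ball). -/

namespace Pool.Agent.MaxTerm58

def lamT (md : Nat) : Nat := bif Nat.beq md 1 then 640 else 900

/-- weight `1.001 (lam/1000)^(i+1) |q|^(i+1)` -/
def wtT (lam i : Nat) : Nat × Nat × Nat :=
  (Nat.succ (Nat.div (Nat.mul 100100000 (Nat.pow lam (Nat.succ i))) (Nat.pow 1000 (Nat.succ i))), Nat.succ i, 0)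

/-- weight of the position `i + 1`: `(0.9 D)^(i+1) D^((20 i + 3)/17)`, `c17 / 10^4` an upper bound for `D^(1/17)` -/
def wtF (c17 i : Nat) : Nat × Nat × Nat :=
  (Nat.succ (Nat.div
    (Nat.mul (Nat.mul 100100000 (Nat.pow 9 (Nat.succ i))) (Nat.pow c17 (Nat.mod (Nat.add (Nat.mul 20 i) 3) 17)))
    (Nat.mul (Nat.pow 10 (Nat.succ i)) (Nat.pow 10000 (Nat.mod (Nat.add (Nat.mul 20 i) 3) 17)))),
   Nat.add (Nat.succ i) (Nat.div (Nat.add (Nat.mul 20 i) 3) 17), 0)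

/-- upper bound for `10^8 sqrt (E - T^2)`, `T = lam / 1000 * (|q| + eps)`, `|q| >= 17/50` -/
def nuT (lam Q x y : Nat) : Nat :=
  sqU (Nat.succ (Nat.sub 9213304561000000 (Nat.div (Nat.mul (Nat.mul lam lam)
    (maxU (Nat.div (Nat.mul 10000000000000000 (mnS x y)) (Nat.mul Q Q)) 1156000000000000)) 1000000)))

def rtcT (md rqc : Nat) : Nat := Nat.succ (Nat.div (Nat.mul (lamT md) rqc) 1000)

def tailT (md rqc rtc PL PR wa wb : Nat) : Nat :=
  Nat.succ (Nat.div (Nat.add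
    (Nat.mul (Nat.add wb (monUp rqc 0 (Nat.add PR 2) 0))
      (bif Nat.beq md 2 then Nat.succ (Nat.div (Nat.mul (geoU rtc (Nat.succ PR)) (monUp rqc 0 PR 0)) 100000000)
        else geoU rtc (Nat.succ PR)))
    (Nat.mul (Nat.add wa (monUp rqc 0 (Nat.add PL 2) 0)) (geoU rtc (Nat.succ PL)))) 100000000)

def famT (md c17 nL nR PL PR rqc nu wa wb : Nat) : FamS :=
  { kd := 0, m1 := 1, m2 := 2, b := 0, E0 := 2, A0 := 1, B0 := 0,
    fx := [(false, 2), (false, 1), (true, 0)], inn := [],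
    wR := bif Nat.beq md 2 then wtF c17 else wtT (lamT md), wL := wtT (lamT md),
    mR := bif Nat.beq md 1 then 1 else 0, mL := bif Nat.beq md 0 then 0 else 1,
    nuR := nu, exR := 0, nuL := nu, exL := 0, nR := nR, nL := nL, PR := PR, PL := PL,
    tail := tailT md rqc (rtcT md rqc) PL PR wa wb, rqc := rqc, rpc := 0 }

def sideT (md c17 PL PR rqc : Nat) : Bool :=
  Nat.ble (Nat.succ (rtcT md rqc)) 10000 && Nat.ble PL 33 && Nat.ble PR (bif Nat.beq md 2 then 15 else 33) &&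
  (bif Nat.beq md 2 then Nat.ble (Nat.mul rqc (Nat.pow 10000 16)) (Nat.pow c17 17) else true)

def capT (md : Nat) : Nat := bif Nat.beq md 0 then 7502 else 7052

/-- the check of a leaf -/
def checkT (md x y Q c17 P nL nR PL PR : Nat) (la lb : List Nat) : Bool :=
  sideT md c17 PL PR (minN (radS Q x y) (capT md)) &&
  (famT md c17 nL nR PL PR (minN (radS Q x y) (capT md)) (nuT (lamT md) Q x y) (wsumP la) (wsumP lb)).chk
    [(100000, 100000)] P x y Q 1 0 la lb []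

/-- the part of the square with real part in `[-a/32, -b/32]` is empty or a segment, or `32 |Im| <= c` -/
def inR (x y Q a b c : Nat) : Bool :=
  Nat.ble (Nat.add (Nat.mul 32 (Nat.succ x)) (Nat.mul a Q)) 3200000 ||
  Nat.ble 3200032 (Nat.add (Nat.mul 32 x) (Nat.mul b Q)) ||
  Nat.ble (Nat.mul 32 (Nat.succ (absD y))) (Nat.mul c Q)

/-- the square lies in the region `InU2` -/
def insU (x y Q : Nat) : Bool :=
  Nat.ble 1 Q && Nat.ble 3200032 (Nat.add (Nat.mul 32 x) (Nat.mul 23 Q)) &&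
  Nat.ble (Nat.add (Nat.mul 32 (Nat.succ x)) (Nat.mul 6 Q)) 3200000 &&
  inR x y Q 23 21 7 && inR x y Q 21 17 11 && inR x y Q 17 8 13 && inR x y Q 8 6 11

def outT0 (x y Q : Nat) : Bool :=
  Nat.blt (Nat.mul 10000 (mxS x y)) (Nat.mul 1156 (Nat.pow Q 2)) ||
  Nat.blt (Nat.mul 9 (Nat.pow Q 2)) (Nat.mul 16 (mnS x y)) ||
  (disR x y Q 24 20 12 && disR x y Q 20 16 16 && disR x y Q 16 8 20 && disR x y Q 8 4 16) ||
  (insU x y Q && Nat.ble (Nat.mul 40000 (mxS x y)) (Nat.mul 19881 (Nat.pow Q 2)))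

def outT1 (x y Q : Nat) : Bool :=
  Nat.blt (Nat.mul 10000 (mxS x y)) (Nat.mul 1156 (Nat.pow Q 2)) ||
  Nat.blt (Nat.mul 19881 (Nat.pow Q 2)) (Nat.mul 40000 (mnS x y)) ||
  (disR x y Q 23 21 7 && disR x y Q 21 17 11 && disR x y Q 17 8 13 && disR x y Q 8 6 11)

inductive TT where
  | lf (c17 P nL nR PL PR : Nat) (a b : List Nat)
  | out
  | sq (t1 t2 t3 t4 : TT)

def TT.chk (md : Nat) : TT → Nat → Nat → Nat → Bool
  | .lf c17 P nL nR PL PR a b, x, y, Q => checkT md x y Q c17 P nL nR PL PR a b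
  | .out, x, y, Q => bif Nat.beq md 0 then outT0 x y Q else outT1 x y Q
  | .sq t1 t2 t3 t4, x, y, Q =>
    Nat.ble Q 4096 &&
    TT.chk md t1 (Nat.sub (Nat.mul 2 x) 100001) (Nat.sub (Nat.mul 2 y) 100001) (Nat.mul 2 Q) &&
    TT.chk md t2 (Nat.sub (Nat.mul 2 x) 99999) (Nat.sub (Nat.mul 2 y) 100001) (Nat.mul 2 Q) &&
    TT.chk md t3 (Nat.sub (Nat.mul 2 x) 100001) (Nat.sub (Nat.mul 2 y) 99999) (Nat.mul 2 Q) &&
    TT.chk md t4 (Nat.sub (Nat.mul 2 x) 99999) (Nat.sub (Nat.mul 2 y) 99999) (Nat.mul 2 Q)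

end Pool.Agent.MaxTerm58
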