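import Pool.Agent.MaxTerm58.TFinal0
import Pool.Agent.MaxTerm58.DTO
import Pool.Agent.MaxTerm58.DTI1
import Pool.Agent.MaxTerm58.DTF

/-! Exclusion of the families `T`: an extremal matched vertex with both neighbours mismatched (outside and inside of
the inner region) and the family with a small quotient. -/

namespace Pool.Agent.MaxTerm58

theorem t1out_final (q : ℂ) (T : ℝ) (v : ℤ → ℂ) (H : HypT q T v) (hT : T ≤ 9 / 10 * (‖q‖ + 1 / 100000))
    (h1 : 17 / 50 ≤ ‖q‖) (h2 : ‖q‖ ≤ 3 / 4) (hU : InU q.re |q.im|)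
    (hn : ¬(‖q‖ ≤ 141 / 200 ∧ InU2 q.re |q.im|)) : False := by
  refine gridT_final 0 (by norm_num) treesTO chkTO H ⟨?_, fun h => absurd rfl h, fun h => absurd h (by norm_num),
    fun h => absurd h (by norm_num)⟩ h1 ?_
  · rw [show lamT 0 = 900 from rfl]
    norm_num at hT ⊢
    exact hT
  · unfold DomT
    rw [if_pos rfl]
    exact ⟨h2, hU, hn⟩

theorem t1in_final (q : ℂ) (T : ℝ) (v : ℤ → ℂ) (H : HypT q T v) (hT : T ≤ 64 / 100 * (‖q‖ + 1 / 100000))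
    (hl : OutN 1 T (fun i => v (-3 - (i : ℤ)))) (hr : OutN 1 T (fun i => v (1 + (i : ℤ))))
    (h1 : 17 / 50 ≤ ‖q‖) (h2 : ‖q‖ ≤ 141 / 200) (hU : InU2 q.re |q.im|) : False := by
  refine gridT_final 1 (by norm_num) treesTI1 chkTI1 H ⟨?_, fun _ => hl, fun _ => hr,
    fun h => absurd h (by norm_num)⟩ h1 ?_
  · rw [show lamT 1 = 640 from rfl]
    norm_num at hT ⊢
    exact hT
  · unfold DomT
    rw [if_neg (by norm_num)]
    exact ⟨h2, hU⟩

theorem f2small_final (q : ℂ) (T : ℝ) (v : ℤ → ℂ) (H : HypT q T v) (hT : T ≤ 9 / 10 * (‖q‖ + 1 / 100000))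
    (hl : OutN 1 T (fun i => v (-3 - (i : ℤ))))
    (hr : ∀ i : ℕ, ‖v (1 + (i : ℤ))‖ ^ 17 ≤ (T ^ 17) ^ (i + 1) * (‖q‖ + 1 / 100000) ^ (20 * i + 3))
    (h1 : 17 / 50 ≤ ‖q‖) (h2 : ‖q‖ ≤ 141 / 200) (hU : InU2 q.re |q.im|) : False := by
  refine gridT_final 2 (by norm_num) treesTF chkTF H ⟨?_, fun _ => hl, fun h => absurd h (by norm_num),
    fun _ => hr⟩ h1 ?_
  · rw [show lamT 2 = 900 from rfl]
    norm_num at hT ⊢
    exact hT
  · unfold DomT
    rw [if_neg (by norm_num)]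
    exact ⟨h2, hU⟩

end Pool.Agent.MaxTerm58
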