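import Pool.Agent.MaxTerm58.TTree
import Pool.Agent.MaxTerm58.TGDef

/-! From the trees to the exclusion of the families `T`. `gridT_final`: by conjugation `0 ≤ q.im`; `DomT` gives
`-12/16 ≤ q.re ≤ -2/16`, `q.im ≤ 10/16`; `i = ⌊(16 q.re + 12) / 2⌋` (at most `4`), `j = ⌊8 q.im⌋` (at most `4`). -/

namespace Pool.Agent.MaxTerm58

private theorem TFinal0_list (md : ℕ) (l : List TT) : ∀ k : ℕ, chkGridT md l k = true →
    ∀ n : ℕ, k ≤ n → n < 25 →
      ∃ t : TT, TT.chk md t (99989 + 2 * (n / 5)) (100001 + 2 * (n % 5)) 16 = true := by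
  induction l with
  | nil =>
    intro k h n hk hn
    rw [chkGridT] at h
    have h1 := Nat.eq_of_beq_eq_true h
    omega
  | cons t l ih =>
    intro k h n hk hn
    rw [chkGridT, Bool.and_eq_true] at h
    rcases Nat.eq_or_lt_of_le hk with e | e
    · subst e
      exact ⟨t, h.1⟩
    · exact ih (Nat.succ k) h.2 n e hn

theorem gridT_sound (md : ℕ) (hmd : md ≤ 2) (l : List TT) (h : chkGridT md l 0 = true) (i j : ℕ) (hi : i < 5)
    (hj : j < 5) : CellT md (99989 + 2 * i) (100001 + 2 * j) 16 := by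
  obtain ⟨t, ht⟩ := TFinal0_list md l 0 h (5 * i + j) (Nat.zero_le _) (by omega)
  have e1 : (5 * i + j) / 5 = i := by omega
  have e2 : (5 * i + j) % 5 = j := by omega
  rw [e1, e2] at ht
  exact TT_sound md hmd t _ _ _ ht

/-- bounds from the domain -/
private theorem TFinal0_dom {md : ℕ} {q : ℂ} (h : DomT md q) :
    -(12 / 16) ≤ q.re ∧ q.re ≤ -(2 / 16) ∧ |q.im| ≤ 10 / 16 := by
  unfold DomT at h
  split_ifs at h
  · obtain ⟨-, h, -⟩ := h
    unfold InU at h
    rcases h with h | h | h | h <;>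
      exact ⟨by linarith [h.1], by linarith [h.2.1], by linarith [h.2.2]⟩
  · obtain ⟨-, h⟩ := h
    unfold InU2 at h
    rcases h with h | h | h | h <;>
      exact ⟨by linarith [h.1], by linarith [h.2.1], by linarith [h.2.2]⟩

/-- a real number in `[0, 10]` lies in one of the intervals `[2 i, 2 i + 2]`, `i < 5` -/
private theorem TFinal0_cell {t : ℝ} (h0 : 0 ≤ t) (h1 : t ≤ 10) :
    ∃ i : ℕ, i < 5 ∧ |t - (2 * i + 1)| ≤ 1 := by
  rcases le_total t 2 with a | a
  · exact ⟨0, by norm_num, by rw [abs_le]; constructor <;> push_cast <;> linarith⟩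
  rcases le_total t 4 with b | b
  · exact ⟨1, by norm_num, by rw [abs_le]; constructor <;> push_cast <;> linarith⟩
  rcases le_total t 6 with c | c
  · exact ⟨2, by norm_num, by rw [abs_le]; constructor <;> push_cast <;> linarith⟩
  rcases le_total t 8 with d | d
  · exact ⟨3, by norm_num, by rw [abs_le]; constructor <;> push_cast <;> linarith⟩
  · exact ⟨4, by norm_num, by rw [abs_le]; constructor <;> push_cast <;> linarith⟩

/-- the case of nonnegative imaginary part -/
private theorem TFinal0_pos (md : ℕ) (hmd : md ≤ 2) (l : List TT) (h : chkGridT md l 0 = true)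
    {q : ℂ} {T : ℝ} {v : ℤ → ℂ} (H : HypT q T v) (HA : AuxT md q T v) (h1 : 17 / 50 ≤ ‖q‖)
    (hD : DomT md q) (hq : 0 ≤ q.im) : False := by
  obtain ⟨d1, d2, d3⟩ := TFinal0_dom hD
  rw [abs_of_nonneg hq] at d3
  obtain ⟨i, hi, hx⟩ := TFinal0_cell (t := 16 * q.re + 12) (by linarith) (by linarith)
  obtain ⟨j, hj, hy⟩ := TFinal0_cell (t := 16 * q.im) (by linarith) (by linarith)
  refine gridT_sound md hmd l h i j hi hj q T v H HA h1 hD ⟨?_, ?_⟩
  · have e : q.re * ((16 : ℕ) : ℝ) - (((99989 + 2 * i : ℕ) : ℝ) - 100000) =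
        16 * q.re + 12 - (2 * i + 1) := by
      push_cast
      ring
    rw [e]
    exact hx
  · have e : q.im * ((16 : ℕ) : ℝ) - (((100001 + 2 * j : ℕ) : ℝ) - 100000) =
        16 * q.im - (2 * j + 1) := by
      push_cast
      ring
    rw [e]
    exact hy

theorem gridT_final (md : ℕ) (hmd : md ≤ 2) (l : List TT) (h : chkGridT md l 0 = true) {q : ℂ} {T : ℝ} {v : ℤ → ℂ}
    (H : HypT q T v) (HA : AuxT md q T v) (h1 : 17 / 50 ≤ ‖q‖) (hD : DomT md q) : False := by
  rcases le_total 0 q.im with c | c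
  · exact TFinal0_pos md hmd l h H HA h1 hD c
  · refine TFinal0_pos md hmd l h H.conj HA.conj ?_ hD.conj ?_
    · rw [RCLike.norm_conj]
      exact h1
    · rw [Complex.conj_im]
      linarith

end Pool.Agent.MaxTerm58
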