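import Pool.Agent.MaxTerm58.EHyp
import Pool.Agent.MaxTerm58.Region

/-! Hypotheses for the two-corner families: `HypT` (extremal matched vertex, both neighbours mismatched, class-zero
coefficients) and `HypM` (mismatched vertex with the gaps `a`, `b`). -/

namespace Pool.Agent.MaxTerm58

/-- outer coefficients beyond a vertex with the quotient `y` whose inner gap is `g` and whose outer gap is not `g`
(index `u`: the next unit, if it is one of the positions) -/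
def OutN (g : ℕ) (D : ℝ) (r : ℕ → ℂ) : Prop :=
  ∃ (y : ℝ) (c : ℕ → ℝ) (u : ℕ), 0 ≤ y ∧ y ^ g ≤ D ∧ (∀ i, 0 ≤ c i) ∧ (∀ i, c i ≤ 1) ∧ u + 1 ≠ g ∧
    (∀ S : Finset ℕ, u ∉ S → ∑ i ∈ S, c i ^ 2 ≤ (170919 / 100000) ^ 2 - 2 - y ^ (2 * g)) ∧
    ∀ i, ‖r i‖ ≤ c i * y ^ (i + 1)

/-- outer coefficients beyond a vertex with both gaps equal to `g` -/
def OutM (g : ℕ) (D : ℝ) (r : ℕ → ℂ) : Prop :=
  ∀ i : ℕ, ‖r i‖ ^ g ≤ D ^ (i + 1 + (i + 1 - g))

/-- class-zero coefficients `v` at an extremal matched vertex: units `-2, -1, 0`, both neighbours mismatched with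
quotients (per gap) at most `T` -/
structure HypT (q : ℂ) (T : ℝ) (v : ℤ → ℂ) : Prop where
  v2 : v (-2) = 1
  v1 : v (-1) = 1
  v0 : v 0 = 1
  T0 : 0 ≤ T
  oL : ∀ i : ℕ, ‖v (-3 - (i : ℤ))‖ ≤ T ^ (i + 1)
  oR : ∀ i : ℕ, ‖v (1 + (i : ℤ))‖ ≤ T ^ (i + 1)
  bd : ∀ X < 2, ∀ z : ℂ, ‖z‖ = 1 → ‖∑' n : ℤ, v n * q ^ eaZ 1 X n * z ^ n‖ ≤ 170919 / 100000

/-- mismatched vertex with the gaps `a` (left) and `b` (right), quotient `x` -/
structure HypM (a b : ℕ) (x : ℂ) (D : ℝ) (v : ℤ → ℂ) : Prop where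
  va : v (-(a : ℤ)) = 1
  v0 : v 0 = 1
  vb : v b = 1
  x0 : x ≠ 0
  ht : ‖x‖ ^ a ≤ 19 / 25
  hD : D ≤ 17 / 50 + 1 / 100000 ∨ D ≤ 10 / 9 * ‖x‖ ^ a
  hD1 : D ≤ 7601 / 10000
  bd : ∀ X < 2, ∀ z : ℂ, ‖z‖ = 1 → ‖∑' n : ℤ, v n * x ^ eaZ 0 X n * z ^ n‖ ≤ 170919 / 100000

theorem HypM.D_le {a b : ℕ} {x : ℂ} {D : ℝ} {v : ℤ → ℂ} (H : HypM a b x D v) : D ≤ 761 / 1000 := by
  have h := H.hD1
  linarith

private theorem THyp_summ (r : ℕ → ℂ) (ρ : ℝ) (h0 : 0 ≤ ρ) (h1 : ρ < 1)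
    (h : ∀ i, ‖r i‖ ≤ ρ ^ (i + 1)) : Summable fun i => ‖r i‖ :=
  Summable.of_nonneg_of_le (fun _ => norm_nonneg _) h
    ((summable_nat_add_iff 1).2 (summable_geometric_of_lt_one h0 h1))

private theorem THyp_summV (v : ℤ → ℂ) (k l : ℕ) (hR : Summable fun i : ℕ => ‖v (k + (i : ℤ))‖)
    (hL : Summable fun i : ℕ => ‖v (-(l : ℤ) - (i : ℤ))‖) : Summable fun n => ‖v n‖ := by
  have h1 : Summable fun n : ℕ => ‖v (n : ℤ)‖ := by
    refine (summable_nat_add_iff k).1 (hR.congr fun i => ?_)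
    congr 2
    push_cast
    ring
  have h2 : Summable fun n : ℕ => ‖v (-(n : ℤ))‖ := by
    refine (summable_nat_add_iff l).1 (hL.congr fun i => ?_)
    congr 2
    push_cast
    ring
  exact Summable.of_nat_of_neg h1 h2

private theorem THyp_bd {m1 : ℕ} {s : ℂ} {v : ℤ → ℂ}
    (H : ∀ X < 2, ∀ z : ℂ, ‖z‖ = 1 → ‖∑' n : ℤ, v n * s ^ eaZ m1 X n * z ^ n‖ ≤ 170919 / 100000) :
    ∀ X < 3, ∀ z : ℂ, ‖z‖ = 1 →
      ‖∑' n : ℤ, v n * (s ^ eaZ m1 X n * (0 : ℂ) ^ ebZ 0 X n) * z ^ n‖ ≤ 170919 / 100000 := by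
  intro X hX z hz
  have h0 : ∀ n : ℤ, ebZ 0 X n = 0 := fun n => by
    unfold ebZ
    rw [if_pos rfl]
  simp_rw [h0, pow_zero, mul_one]
  rcases Nat.lt_or_ge X 2 with h | h
  · exact H X h z hz
  · have h2 : X = 2 := by omega
    subst h2
    have h3 : ∀ n : ℤ, eaZ m1 2 n = eaZ m1 1 n := fun n => by
      unfold eaZ
      rw [if_neg (by norm_num), if_neg (by norm_num)]
    simp_rw [h3]
    exact H 1 (by norm_num) z hz

theorem HypT.toV1 {q : ℂ} {T : ℝ} {v : ℤ → ℂ} (H : HypT q T v) (hT : T ≤ ‖q‖ + 1 / 100000)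
    (h2 : ‖q‖ ≤ 3 / 4) : HypV 0 1 q 0 v := by
  have hT1 : T < 1 := by linarith
  refine ⟨by linarith, by simp, ?_, THyp_bd H.bd⟩
  refine THyp_summV v 1 3 ?_ ?_
  · exact THyp_summ (fun i => v ((1 : ℕ) + (i : ℤ))) T H.T0 hT1 fun i => by
      have := H.oR i
      simpa using this
  · exact THyp_summ (fun i => v (-((3 : ℕ) : ℤ) - (i : ℤ))) T H.T0 hT1 fun i => by
      have := H.oL i
      simpa using this

theorem HypT.toV {q : ℂ} {T : ℝ} {v : ℤ → ℂ} (H : HypT q T v) (hT : T ≤ 9 / 10 * (‖q‖ + 1 / 100000))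
    (h2 : ‖q‖ ≤ 3 / 4) : HypV 0 1 q 0 v :=
  H.toV1 (by have := norm_nonneg q; linarith) h2

private theorem THyp_out {g : ℕ} (hg : 0 < g) {D : ℝ} (hD : D ≤ 761 / 1000) {r : ℕ → ℂ}
    (h : OutM g D r ∨ OutN g D r) : Summable fun i => ‖r i‖ := by
  rcases h with h | ⟨y, c, u, hy0, hyD, hc0, hc1, -, -, hr⟩
  · have h0 := h 0
    have hD0 : 0 ≤ D := by
      have h1 : 0 + 1 + (0 + 1 - g) = 1 := by omega
      rw [h1, pow_one] at h0
      exact (pow_nonneg (norm_nonneg _) _).trans h0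
    obtain ⟨ρ, hρ0, hρ1, hρ⟩ : ∃ ρ : ℝ, 0 ≤ ρ ∧ ρ < 1 ∧ ρ ^ g = D := by
      refine ⟨D ^ ((g : ℝ)⁻¹), Real.rpow_nonneg hD0 _,
        Real.rpow_lt_one hD0 (by linarith) (by positivity), ?_⟩
      exact Real.rpow_inv_natCast_pow hD0 (by omega)
    refine THyp_summ r ρ hρ0 hρ1 fun i => ?_
    have h2 := (h i).trans (pow_le_pow_of_le_one hD0 (by linarith) (Nat.le_add_right (i + 1) _))
    rw [← hρ, ← pow_mul, mul_comm g (i + 1), pow_mul] at h2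
    exact le_of_pow_le_pow_left₀ (by omega) (pow_nonneg hρ0 _) h2
  · have hy1 : y < 1 := by
      by_contra hc
      push Not at hc
      have := one_le_pow₀ hc (n := g)
      linarith
    refine THyp_summ r y hy0 hy1 fun i => ?_
    exact (hr i).trans (mul_le_of_le_one_left (pow_nonneg hy0 _) (hc1 i))

theorem HypM.toV {a b : ℕ} {x : ℂ} {D : ℝ} {v : ℤ → ℂ} (ha : 0 < a) (hb : 0 < b) (H : HypM a b x D v)
    (hR : OutM b D (fun i => v (b + 1 + (i : ℤ))) ∨ OutN b D (fun i => v (b + 1 + (i : ℤ))))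
    (hL : OutM a D (fun i => v (-(a : ℤ) - 1 - (i : ℤ))) ∨ OutN a D (fun i => v (-(a : ℤ) - 1 - (i : ℤ)))) :
    HypV 0 0 x 0 v := by
  have hx1 : ‖x‖ ≤ 1 := by
    by_contra hc
    push Not at hc
    have h1 := one_le_pow₀ hc.le (n := a)
    have h2 := H.ht
    linarith
  refine ⟨hx1, by simp, ?_, THyp_bd H.bd⟩
  refine THyp_summV v (b + 1) (a + 1) ?_ ?_
  · refine (THyp_out hb H.D_le hR).congr fun i => ?_
    congr 2
  · refine (THyp_out ha H.D_le hL).congr fun i => ?_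
    congr 2
    push_cast
    ring

private theorem THyp_pars {m1 : ℕ} {s t : ℂ} {v : ℤ → ℂ} (H : HypV 0 m1 s t v) (X : ℕ) (hX : X < 3)
    (S : Finset ℤ) :
    ∑ n ∈ S, ‖v n * (s ^ eaZ m1 X n * t ^ ebZ 0 X n)‖ ^ 2 ≤ (170919 / 100000 : ℝ) ^ 2 := by
  refine Pool.Agent.MaxTerm59.parseval_le (fun n => v n * (s ^ eaZ m1 X n * t ^ ebZ 0 X n)) ?_
    (170919 / 100000) (H.bd X hX) S
  refine Summable.of_nonneg_of_le (fun _ => norm_nonneg _) (fun n => ?_) H.summ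
  rw [norm_mul, norm_mul, norm_pow, norm_pow]
  exact mul_le_of_le_one_right (norm_nonneg _) (mul_le_one₀ (pow_le_one₀ (norm_nonneg _) H.s_le)
    (by positivity) (pow_le_one₀ (norm_nonneg _) H.t_le))

/-- Parseval: positions between the units -/
theorem HypM.innR {a b : ℕ} {x : ℂ} {D : ℝ} {v : ℤ → ℂ} (ha : 0 < a) (H : HypM a b x D v)
    (HV : HypV 0 0 x 0 v) (n : ℕ) (hn : 0 < n) (hnb : n < b) :
    ‖v (n : ℤ)‖ ^ 2 ≤ (170919 / 100000) ^ 2 - 2 - ‖x‖ ^ (2 * a) := by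
  have h := THyp_pars HV 1 (by norm_num) {0, (b : ℤ), -(a : ℤ), (n : ℤ)}
  rw [Finset.sum_insert (by simp only [Finset.mem_insert, Finset.mem_singleton]; omega),
    Finset.sum_insert (by simp only [Finset.mem_insert, Finset.mem_singleton]; omega),
    Finset.sum_insert (by simp only [Finset.mem_singleton]; omega), Finset.sum_singleton] at h
  have e0 : eaZ 0 1 0 = 0 := rfl
  have e1 : eaZ 0 1 (b : ℤ) = 0 := by
    unfold eaZ
    rw [if_neg (by norm_num)]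
    omega
  have e2 : eaZ 0 1 (-(a : ℤ)) = a := by
    unfold eaZ
    rw [if_neg (by norm_num)]
    omega
  have e3 : eaZ 0 1 (n : ℤ) = 0 := by
    unfold eaZ
    rw [if_neg (by norm_num)]
    omega
  have f : ∀ k : ℤ, ebZ 0 1 k = 0 := fun k => by
    unfold ebZ
    rw [if_pos rfl]
  rw [e0, e1, e2, e3, f, f, f, f, H.v0, H.vb, H.va] at h
  simp only [pow_zero, mul_one, one_mul, norm_one, one_pow, norm_pow] at h
  rw [← pow_mul, mul_comm a 2] at h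
  linarith

theorem HypM.innL {a b : ℕ} {x : ℂ} {D : ℝ} {v : ℤ → ℂ} (hb : 0 < b) (H : HypM a b x D v)
    (HV : HypV 0 0 x 0 v) (n : ℕ) (hn : 0 < n) (hna : n < a) :
    ‖v (-(n : ℤ))‖ ^ 2 ≤ (170919 / 100000) ^ 2 - 2 - ‖x‖ ^ (2 * b) := by
  have h := THyp_pars HV 0 (by norm_num) {-(a : ℤ), 0, (b : ℤ), -(n : ℤ)}
  rw [Finset.sum_insert (by simp only [Finset.mem_insert, Finset.mem_singleton]; omega),
    Finset.sum_insert (by simp only [Finset.mem_insert, Finset.mem_singleton]; omega),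
    Finset.sum_insert (by simp only [Finset.mem_singleton]; omega), Finset.sum_singleton] at h
  have e0 : eaZ 0 0 0 = 0 := rfl
  have e1 : eaZ 0 0 (b : ℤ) = b := by
    unfold eaZ
    rw [if_pos rfl]
    omega
  have e2 : eaZ 0 0 (-(a : ℤ)) = 0 := by
    unfold eaZ
    rw [if_pos rfl]
    omega
  have e3 : eaZ 0 0 (-(n : ℤ)) = 0 := by
    unfold eaZ
    rw [if_pos rfl]
    omega
  have f : ∀ k : ℤ, ebZ 0 0 k = 0 := fun k => by
    unfold ebZ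
    rw [if_pos rfl]
  rw [e0, e1, e2, e3, f, f, f, f, H.v0, H.vb, H.va] at h
  simp only [pow_zero, mul_one, one_mul, norm_one, one_pow, norm_pow] at h
  rw [← pow_mul, mul_comm b 2] at h
  linarith

private theorem THyp_pow (g : ℕ) {a b : ℝ} (ha : 0 ≤ a) (hab : a ≤ b) :
    b ^ (g + 1) - a ^ (g + 1) ≤ ((g : ℝ) + 1) * b ^ g * (b - a) := by
  have hb : 0 ≤ b := ha.trans hab
  induction g with
  | zero => simp
  | succ g ih =>
    have h1 : b ^ (g + 1 + 1) - a ^ (g + 1 + 1) =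
        b * (b ^ (g + 1) - a ^ (g + 1)) + a ^ (g + 1) * (b - a) := by ring
    have h2 : b * (b ^ (g + 1) - a ^ (g + 1)) ≤ b * (((g : ℝ) + 1) * b ^ g * (b - a)) :=
      mul_le_mul_of_nonneg_left ih hb
    have h3 : a ^ (g + 1) * (b - a) ≤ b ^ (g + 1) * (b - a) :=
      mul_le_mul_of_nonneg_right (pow_le_pow_left₀ ha hab _) (by linarith)
    rw [h1]
    push_cast
    calc b * (b ^ (g + 1) - a ^ (g + 1)) + a ^ (g + 1) * (b - a)
        ≤ b * (((g : ℝ) + 1) * b ^ g * (b - a)) + b ^ (g + 1) * (b - a) := add_le_add h2 h3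
      _ = ((g : ℝ) + 1 + 1) * b ^ (g + 1) * (b - a) := by ring

private theorem THyp_mono (g : ℕ) {a b E : ℝ} (ha : 0 ≤ a) (hab : a ≤ b)
    (hE : ((g : ℝ) + 1) * b ^ g ≤ E) : a * (E - a ^ g) ≤ b * (E - b ^ g) := by
  have h1 := THyp_pow g ha hab
  have h2 : ((g : ℝ) + 1) * b ^ g * (b - a) ≤ E * (b - a) :=
    mul_le_mul_of_nonneg_right hE (by linarith)
  have h3 : b ^ (g + 1) - a ^ (g + 1) = b * b ^ g - a * a ^ g := by ring
  nlinarith

private theorem THyp_core {g : ℕ} (hg : 0 < g) {D0 E : ℝ} (h0 : 0 < D0)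
    (hE : ((g : ℝ) + 1) * D0 ^ 2 ≤ E) {y w s : ℝ} (hy : 0 ≤ y) (hw : 0 < w) (hyw : y ^ g ≤ w ^ g)
    (hs : 0 ≤ s) (hsE : s ≤ E - y ^ (2 * g)) : (y / w) ^ 2 * s ≤ E - (min (w ^ g) D0) ^ 2 := by
  have hyw' : y ≤ w := le_of_pow_le_pow_left₀ (by omega) hw.le hyw
  have hq1 : (y / w) ^ 2 ≤ 1 := pow_le_one₀ (by positivity) ((div_le_one hw).2 hyw')
  have hE0 : 0 ≤ E - y ^ (2 * g) := hs.trans hsE
  rcases le_or_gt D0 (y ^ g) with h | h
  · rw [min_eq_right (h.trans hyw)]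
    have h1 : D0 ^ 2 ≤ y ^ (2 * g) := by
      rw [mul_comm, pow_mul]
      exact pow_le_pow_left₀ h0.le h 2
    have h2 : (y / w) ^ 2 * s ≤ 1 * s := mul_le_mul_of_nonneg_right hq1 hs
    linarith
  · obtain ⟨w', hw'0, hw'w, hyw'', hw'm⟩ : ∃ w' : ℝ, 0 < w' ∧ w' ≤ w ∧ y ≤ w' ∧
        w' ^ g = min (w ^ g) D0 := by
      rcases le_or_gt (w ^ g) D0 with h1 | h1
      · exact ⟨w, hw, le_rfl, hyw', (min_eq_left h1).symm⟩
      · have h2 : (D0 ^ ((g : ℝ)⁻¹)) ^ g = D0 := Real.rpow_inv_natCast_pow h0.le (by omega)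
        have h3 : 0 < D0 ^ ((g : ℝ)⁻¹) := Real.rpow_pos_of_pos h0 _
        refine ⟨D0 ^ ((g : ℝ)⁻¹), h3, ?_, ?_, by rw [h2, min_eq_right h1.le]⟩
        · exact le_of_pow_le_pow_left₀ hg.ne' hw.le (by rw [h2]; exact h1.le)
        · exact le_of_pow_le_pow_left₀ hg.ne' h3.le (by rw [h2]; exact h.le)
    have hm : (w' ^ 2) ^ g = (min (w ^ g) D0) ^ 2 := by
      rw [← pow_mul, mul_comm, pow_mul, hw'm]
    have hm2 : (min (w ^ g) D0) ^ 2 ≤ D0 ^ 2 :=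
      pow_le_pow_left₀ (by positivity) (min_le_right _ _) 2
    have h4 : y ^ 2 * (E - (y ^ 2) ^ g) ≤ w' ^ 2 * (E - (w' ^ 2) ^ g) := by
      refine THyp_mono g (by positivity) (pow_le_pow_left₀ hy hyw'' 2) ?_
      rw [hm]
      refine le_trans ?_ hE
      exact mul_le_mul_of_nonneg_left hm2 (by positivity)
    have h5 : (y / w) ^ 2 ≤ (y / w') ^ 2 := by
      refine pow_le_pow_left₀ (by positivity) ?_ 2
      exact div_le_div_of_nonneg_left hy hw'0 hw'w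
    calc (y / w) ^ 2 * s ≤ (y / w') ^ 2 * (E - y ^ (2 * g)) :=
          mul_le_mul h5 hsE hs (by positivity)
      _ = (y ^ 2 * (E - (y ^ 2) ^ g)) / w' ^ 2 := by
          rw [← pow_mul y 2 g]
          field_simp
      _ ≤ (w' ^ 2 * (E - (w' ^ 2) ^ g)) / w' ^ 2 :=
          div_le_div_of_nonneg_right h4 (by positivity)
      _ = E - (min (w ^ g) D0) ^ 2 := by
          rw [hm]
          field_simp

private theorem THyp_scale {g : ℕ} (hg : 0 < g) {D0 : ℝ} (h0 : 0 < D0)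
    (hE : ((g : ℝ) + 1) * D0 ^ 2 ≤ (170919 / 100000) ^ 2 - 2) {D w : ℝ} {r : ℕ → ℂ} (h : OutN g D r)
    (hw : 0 ≤ w) (hD : D ≤ w ^ g) :
    ∃ (c : ℕ → ℝ) (u : ℕ), (∀ i, 0 ≤ c i) ∧ (∀ i, c i ≤ 1) ∧ u + 1 ≠ g ∧
      (∀ S : Finset ℕ, u ∉ S → ∑ i ∈ S, c i ^ 2 ≤ (170919 / 100000) ^ 2 - 2 -
        (min (w ^ g) D0) ^ 2) ∧
      ∀ i, ‖r i‖ ≤ c i * w ^ (i + 1) := by
  obtain ⟨y, c, u, hy0, hyD, hc0, hc1, hu, hS, hr⟩ := h
  rcases hw.lt_or_eq with hw | hw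
  · have hyw : y ^ g ≤ w ^ g := hyD.trans hD
    have hyw' : y ≤ w := le_of_pow_le_pow_left₀ (by omega) hw.le hyw
    have hq0 : 0 ≤ y / w := by positivity
    have hq1 : y / w ≤ 1 := (div_le_one hw).2 hyw'
    refine ⟨fun i => c i * (y / w) ^ (i + 1), u, fun i => mul_nonneg (hc0 i) (by positivity),
      fun i => mul_le_one₀ (hc1 i) (by positivity) (pow_le_one₀ hq0 hq1), hu, ?_, ?_⟩
    · intro S huS
      have h1 := THyp_core hg h0 hE hy0 hw hyw (Finset.sum_nonneg fun i _ => sq_nonneg (c i)) (hS S huS)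
      refine le_trans ?_ h1
      rw [Finset.mul_sum]
      refine Finset.sum_le_sum fun i _ => ?_
      show (c i * (y / w) ^ (i + 1)) ^ 2 ≤ _
      rw [mul_pow, ← pow_mul, mul_comm]
      refine mul_le_mul_of_nonneg_right ?_ (sq_nonneg _)
      exact pow_le_pow_of_le_one hq0 hq1 (by omega)
    · intro i
      refine (hr i).trans (le_of_eq ?_)
      show c i * y ^ (i + 1) = c i * (y / w) ^ (i + 1) * w ^ (i + 1)
      rw [mul_assoc, ← mul_pow, div_mul_cancel₀ _ hw.ne']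
  · subst hw
    have hy : y = 0 := by
      rw [zero_pow (by omega)] at hD
      have h1 : y ^ g = 0 := le_antisymm (hyD.trans hD) (pow_nonneg hy0 g)
      exact pow_eq_zero_iff (by omega) |>.1 h1
    refine ⟨fun _ => 0, g, fun _ => le_rfl, fun _ => zero_le_one, by omega, ?_, ?_⟩
    · intro S _
      rw [zero_pow (by omega : g ≠ 0), min_eq_left h0.le]
      norm_num
    · intro i
      refine (hr i).trans ?_
      rw [hy, zero_pow (by omega)]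
      simp

/-- change of the quotient to the bound, gap one -/
theorem OutN.scale1 {T T' : ℝ} {r : ℕ → ℂ} (h : OutN 1 T r) (hT : T ≤ T') (hT' : T' ^ 2 ≤ 46 / 100) :
    ∃ (c : ℕ → ℝ) (u : ℕ), (∀ i, 0 ≤ c i) ∧ (∀ i, c i ≤ 1) ∧ u ≠ 0 ∧
      (∀ S : Finset ℕ, u ∉ S → ∑ i ∈ S, c i ^ 2 ≤ (170919 / 100000) ^ 2 - 2 - T' ^ 2) ∧
      ∀ i, ‖r i‖ ≤ c i * T' ^ (i + 1) := by
  have hT0 : 0 ≤ T' := by
    obtain ⟨y, c, u, hy0, hyD, -⟩ := h
    rw [pow_one] at hyD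
    linarith
  have hD0 : (0 : ℝ) < 6787 / 10000 := by norm_num
  obtain ⟨c, u, h1, h2, h3, h4, h5⟩ := THyp_scale one_pos hD0 (by norm_num) h hT0
    (by rw [pow_one]; exact hT)
  refine ⟨c, u, h1, h2, by omega, ?_, h5⟩
  have h6 : T' ≤ 6787 / 10000 := by nlinarith
  rw [pow_one, min_eq_left h6] at h4
  exact h4

/-- the same for `g = 1, 2, 3`; `w = D' ^ (1 / g)` -/
theorem OutN.scale {g : ℕ} (hg : g = 1 ∨ g = 2 ∨ g = 3) {D w : ℝ} {r : ℕ → ℂ} (h : OutN g D r) (hw : 0 ≤ w)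
    (hD : D ≤ w ^ g) (hw1 : w ≤ 1) :
    ∃ (c : ℕ → ℝ) (u : ℕ), (∀ i, 0 ≤ c i) ∧ (∀ i, c i ≤ 1) ∧ u + 1 ≠ g ∧
      (∀ S : Finset ℕ, u ∉ S → ∑ i ∈ S, c i ^ 2 ≤ (170919 / 100000) ^ 2 - 2 -
        (min (w ^ g) (if g = 1 then 67 / 100 else if g = 2 then 55 / 100 else 47 / 100)) ^ 2) ∧
      ∀ i, ‖r i‖ ≤ c i * w ^ (i + 1) := by
  rcases hg with rfl | rfl | rfl
  · rw [if_pos rfl]
    exact THyp_scale one_pos (by norm_num) (by norm_num) h hw hD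
  · rw [if_neg (by norm_num), if_pos rfl]
    exact THyp_scale two_pos (by norm_num) (by norm_num) h hw hD
  · rw [if_neg (by norm_num), if_neg (by norm_num)]
    exact THyp_scale three_pos (by norm_num) (by norm_num) h hw hD

end Pool.Agent.MaxTerm58
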