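import Pool.Agent.MaxTerm58.TWt
import Pool.Agent.MaxTerm58.THyp

/-! Soundness of a leaf for the families `T`. Model: `ELeaf.lean` (apply `fam_sound` with `s = q`, `t = 0`,
`tside_zero`, `HypT.toV`); balls: `OutN.scale1` with `T' = lamT md / 1000 * (‖q‖ + 1 / 100000)`, `nuT_spec`,
`wtT_spec`, `wtF_spec`; tails: right `T'^(PR+1) / (1 - T')` (for `md = 2` times `D^PR`, as
`D ^ ((20 i + 3) / 17) ≤ D ^ i`), left `T'^(PL+1) / (1 - T')`; `gW` at `n ≥ 1 + PR`: at most `wb + rqc^(PR + 2)`, at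
`n ≤ -(3 + PL)`: at most `wa + rqc^(PL + 2)` (`lc = []`, the sum of the weights is at most one). -/

namespace Pool.Agent.MaxTerm58

/-- additional hypotheses of the mode `md` -/
def AuxT (md : ℕ) (q : ℂ) (T : ℝ) (v : ℤ → ℂ) : Prop :=
  T ≤ (lamT md : ℝ) / 1000 * (‖q‖ + 1 / 100000) ∧
  (md ≠ 0 → OutN 1 T (fun i => v (-3 - (i : ℤ)))) ∧
  (md = 1 → OutN 1 T (fun i => v (1 + (i : ℤ)))) ∧
  (md = 2 → ∀ i : ℕ, ‖v (1 + (i : ℤ))‖ ^ 17 ≤ (T ^ 17) ^ (i + 1) * (‖q‖ + 1 / 100000) ^ (20 * i + 3))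

/-- domain of the mode `md` -/
def DomT (md : ℕ) (q : ℂ) : Prop :=
  if md = 0 then ‖q‖ ≤ 3 / 4 ∧ InU q.re |q.im| ∧ ¬(‖q‖ ≤ 141 / 200 ∧ InU2 q.re |q.im|)
  else ‖q‖ ≤ 141 / 200 ∧ InU2 q.re |q.im|

def CellT (md x y Q : ℕ) : Prop :=
  ∀ (q : ℂ) (T : ℝ) (v : ℤ → ℂ), HypT q T v → AuxT md q T v → 17 / 50 ≤ ‖q‖ → DomT md q → InSq q x y Q → False

private theorem TLeaf_wt0 (nd : List (ℂ × ℂ)) : 0 ≤ wtC nd := by
  unfold wtC
  apply List.sum_nonneg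
  intro x hx
  obtain ⟨y, _, rfl⟩ := List.mem_map.1 hx
  exact norm_nonneg _

private theorem TLeaf_side {F : FamS} {dl : List (ℕ × ℕ)} {P x y Q R rp : ℕ} {la lb lc : List ℕ}
    (h : F.chk dl P x y Q R rp la lb lc = true) :
    0 < Q ∧ wtC (la.map ndC) + wtC (lb.map ndC) ≤ 1 := by
  unfold FamS.chk checkW sideW at h
  simp only [Bool.and_eq_true, Nat.ble_eq, List.all_eq_true] at h
  obtain ⟨_, ⟨⟨⟨⟨⟨⟨⟨⟨⟨⟨⟨⟨⟨⟨⟨⟨h1, h2⟩, h3⟩, h4⟩, h5⟩, h6⟩, h7⟩, h8⟩, h9⟩, h10⟩, h11⟩, h12⟩, h13⟩, h14⟩,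
    h15⟩, h16⟩, h17⟩, _⟩ := h
  refine ⟨h1, ?_⟩
  have a1 := wsumP_spec la
  have a2 := wsumP_spec lb
  have a3 := wsumP_spec lc
  have a5 := TLeaf_wt0 (lc.map ndC)
  have a4 : ((wsumP la : ℕ) : ℝ) + (((wsumP lb : ℕ) : ℝ) + ((wsumP lc : ℕ) : ℝ)) ≤ 100000000 := by
    have h21 : wsumP la + (wsumP lb + wsumP lc) ≤ 100000000 := h10
    exact_mod_cast h21
  linarith

/-- the multiplier at the right tail -/
private theorem TLeaf_gR (s t : ℂ) (wa wb : ℝ) (ha1 : wa ≤ 1)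
    (ρ : ℝ) (hs : ‖s‖ ≤ ρ) (hρ : ρ ≤ 1) (n k : ℕ) (hk : k ≤ n + 1) (c : ℝ)
    (hc : wb ≤ c) : gW 0 1 s t wa wb 0 (n : ℤ) ≤ c + ρ ^ k := by
  have e : ∀ X : ℕ, ebZ 0 X (n : ℤ) = 0 := fun X => by simp [ebZ]
  have f0 : eaZ 1 0 (n : ℤ) = n + 1 := by
    unfold eaZ
    rw [if_pos rfl]
    omega
  have f1 : eaZ 1 1 (n : ℤ) = 0 := by
    unfold eaZ
    rw [if_neg (by norm_num)]
    exact Int.toNat_of_nonpos (by omega)
  unfold gW
  rw [e, e, e, f0, f1, pow_zero, pow_zero, mul_one, mul_one, mul_one, zero_mul, add_zero]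
  have h1 : ‖s‖ ^ (n + 1) ≤ ρ ^ k :=
    (pow_le_pow_left₀ (norm_nonneg s) hs _).trans
      (pow_le_pow_of_le_one ((norm_nonneg s).trans hs) hρ hk)
  have h2 : wa * ‖s‖ ^ (n + 1) ≤ 1 * ‖s‖ ^ (n + 1) :=
    mul_le_mul_of_nonneg_right ha1 (by positivity)
  linarith

/-- the multiplier at the left tail -/
private theorem TLeaf_gL (s t : ℂ) (wa wb : ℝ) (hb1 : wb ≤ 1)
    (ρ : ℝ) (hs : ‖s‖ ≤ ρ) (hρ : ρ ≤ 1) (n k : ℕ) (hk : k + 1 ≤ n) (c : ℝ)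
    (hc : wa ≤ c) : gW 0 1 s t wa wb 0 (-(n : ℤ)) ≤ c + ρ ^ k := by
  have e : ∀ X : ℕ, ebZ 0 X (-(n : ℤ)) = 0 := fun X => by simp [ebZ]
  have f0 : eaZ 1 0 (-(n : ℤ)) = 0 := by
    unfold eaZ
    rw [if_pos rfl]
    exact Int.toNat_of_nonpos (by omega)
  have f1 : eaZ 1 1 (-(n : ℤ)) = n - 1 := by
    unfold eaZ
    rw [if_neg (by norm_num)]
    omega
  unfold gW
  rw [e, e, e, f0, f1, pow_zero, pow_zero, mul_one, mul_one, mul_one, zero_mul, add_zero]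
  have h1 : ‖s‖ ^ (n - 1) ≤ ρ ^ k :=
    (pow_le_pow_left₀ (norm_nonneg s) hs _).trans
      (pow_le_pow_of_le_one ((norm_nonneg s).trans hs) hρ (by omega))
  have h2 : wb * ‖s‖ ^ (n - 1) ≤ 1 * ‖s‖ ^ (n - 1) :=
    mul_le_mul_of_nonneg_right hb1 (by positivity)
  linarith

/-- a geometric tail -/
private theorem TLeaf_geo (r : ℕ → ℝ) (hr0 : ∀ i, 0 ≤ r i) (a ρ C : ℝ) (ha0 : 0 ≤ a) (ha : a ≤ ρ)
    (hC : 0 ≤ C) (hρ : ρ < 1) (k : ℕ) (h : ∀ i, r i ≤ a ^ (k + i + 1) * C) :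
    ∑' i, r i ≤ ρ ^ (k + 1) / (1 - ρ) * C := by
  have hρ0 : 0 ≤ ρ := ha0.trans ha
  have h1 : ∀ i, r i ≤ ρ ^ (k + 1) * C * ρ ^ i := fun i => by
    refine (h i).trans ((mul_le_mul_of_nonneg_right (pow_le_pow_left₀ ha0 ha _) hC).trans (le_of_eq ?_))
    have : ρ ^ (k + i + 1) = ρ ^ (k + 1) * ρ ^ i := by
      rw [← pow_add]
      congr 1
      omega
    rw [this]
    ring
  have hg : Summable fun i : ℕ => ρ ^ (k + 1) * C * ρ ^ i :=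
    (summable_geometric_of_lt_one hρ0 hρ).mul_left _
  have hr : Summable r := Summable.of_nonneg_of_le hr0 h1 hg
  calc ∑' i, r i ≤ ∑' i : ℕ, ρ ^ (k + 1) * C * ρ ^ i := hr.tsum_le_tsum h1 hg
    _ = ρ ^ (k + 1) / (1 - ρ) * C := by
      rw [tsum_mul_left, tsum_geometric_of_lt_one hρ0 hρ, div_eq_mul_inv]
      ring

private theorem TLeaf_lam (md : ℕ) : lamT md = 640 ∨ lamT md = 900 := by
  unfold lamT
  cases Nat.beq md 1
  · right; rfl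
  · left; rfl

private theorem TLeaf_lamle (md : ℕ) : (lamT md : ℝ) ≤ 900 := by
  rcases TLeaf_lam md with h | h <;> rw [h] <;> norm_num

private theorem TLeaf_ball (md lam Q x y P : ℕ) (hmd : md ≠ 0) (hlam : (lam : ℝ) ≤ 900) (hP : P ≤ 33)
    (hQ : 0 < Q) (q : ℂ) (hs : InSq q x y Q) (hq : 17 / 50 ≤ ‖q‖) (hq2 : ‖q‖ ≤ 141 / 200) (T : ℝ)
    (hT : T ≤ (lam : ℝ) / 1000 * (‖q‖ + 1 / 100000)) (r : ℕ → ℂ) (h : OutN 1 T r) :
    SeqOK md (nuT lam Q x y) 0 (wtT lam) P r q 0 := by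
  unfold SeqOK
  rw [if_neg hmd]
  have h0 : 0 ≤ (lam : ℝ) / 1000 * (‖q‖ + 1 / 100000) := by positivity
  have hT1 : (lam : ℝ) / 1000 * (‖q‖ + 1 / 100000) ≤ 900 / 1000 * (141 / 200 + 1 / 100000) :=
    mul_le_mul (by linarith) (by linarith) (by positivity) (by norm_num)
  have hT' : ((lam : ℝ) / 1000 * (‖q‖ + 1 / 100000)) ^ 2 ≤ 46 / 100 :=
    (pow_le_pow_left₀ h0 hT1 2).trans (by norm_num)
  obtain ⟨c, u, h0, h1, h2, h3, h4⟩ := h.scale1 hT hT'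
  refine ⟨c, u, h0, h1, h2, fun S hS => (h3 S hS).trans (nuT_spec lam x y Q hQ q hs hq),
    fun i hi => (h4 i).trans ?_⟩
  exact mul_le_mul_of_nonneg_left (wtT_spec lam i (by omega) q hq) (h0 i)

private theorem TLeaf_box (lam P nu ex : ℕ) (hP : P ≤ 33) (q : ℂ) (hq : 17 / 50 ≤ ‖q‖) (T : ℝ)
    (hT0 : 0 ≤ T) (hT : T ≤ (lam : ℝ) / 1000 * (‖q‖ + 1 / 100000)) (r : ℕ → ℂ)
    (h : ∀ i, ‖r i‖ ≤ T ^ (i + 1)) : SeqOK 0 nu ex (wtT lam) P r q 0 := by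
  unfold SeqOK
  rw [if_pos rfl]
  intro i hi
  exact (h i).trans ((pow_le_pow_left₀ hT0 hT _).trans (wtT_spec lam i (by omega) q hq))

private theorem TLeaf_dom {md : ℕ} {q : ℂ} (h : DomT md q) :
    ‖q‖ ≤ 3 / 4 ∧ (md ≠ 0 → ‖q‖ ≤ 141 / 200) ∧ ‖q‖ + 1 / 100000 ≤ (capT md : ℝ) / 10000 ∧
      capT md ≤ 10000 := by
  unfold DomT at h
  by_cases hmd : md = 0
  · rw [if_pos hmd] at h
    subst hmd
    have e : capT 0 = 7502 := rfl
    rw [e]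
    refine ⟨h.1, fun h1 => absurd rfl h1, ?_, by norm_num⟩
    push_cast
    linarith [h.1]
  · rw [if_neg hmd] at h
    have e : capT md = 7052 := by
      unfold capT
      have : Nat.beq md 0 = false := by
        cases hc : Nat.beq md 0
        · rfl
        · exact absurd (Nat.eq_of_beq_eq_true hc) hmd
      rw [this]
      rfl
    rw [e]
    refine ⟨by linarith [h.1], fun _ => h.1, ?_, by norm_num⟩
    push_cast
    linarith [h.1]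

theorem checkT_sound (md x y Q c17 P nL nR PL PR : ℕ) (hmd : md ≤ 2) (la lb : List ℕ)
    (h : checkT md x y Q c17 P nL nR PL PR la lb = true) : CellT md x y Q := by
  intro q T v H hA hq hdom hs
  obtain ⟨hq34, hq705, hcap, hcap1⟩ := TLeaf_dom hdom
  obtain ⟨hT, hoL, hoR, hF⟩ := hA
  unfold checkT at h
  rw [Bool.and_eq_true] at h
  obtain ⟨h1, h2⟩ := h
  obtain ⟨rqc, e2⟩ : ∃ n, n = minN (radS Q x y) (capT md) := ⟨_, rfl⟩
  rw [← e2] at h1 h2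
  obtain ⟨s1, s2, s3, s4⟩ := sideT_spec h1
  have h2' := h2
  obtain ⟨hQ, hw⟩ := TLeaf_side h2'
  have ha0 := TLeaf_wt0 (la.map ndC)
  have hb0 := TLeaf_wt0 (lb.map ndC)
  have hwa : wtC (la.map ndC) ≤ (wsumP la : ℝ) / 100000000 := by
    rw [le_div_iff₀ (by norm_num)]
    exact wsumP_spec la
  have hwb : wtC (lb.map ndC) ≤ (wsumP lb : ℝ) / 100000000 := by
    rw [le_div_iff₀ (by norm_num)]
    exact wsumP_spec lb
  have hc0 : wtC (([] : List ℕ).map ndC) = 0 := by simp [wtC]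
  have hq0 := norm_nonneg q
  have hD : ‖q‖ + 1 / 100000 ≤ (rqc : ℝ) / 10000 := by
    rw [e2]
    exact radS_spec x y Q hQ q hs _ hcap
  have hrq1 : (rqc : ℝ) / 10000 ≤ 1 := by
    have h5 : rqc ≤ capT md := by
      rw [e2, minN_eq]
      exact min_le_right _ _
    have : (rqc : ℝ) ≤ 10000 := by exact_mod_cast h5.trans hcap1
    linarith
  have hlam := TLeaf_lamle md
  have hT9 : T ≤ 9 / 10 * (‖q‖ + 1 / 100000) := by
    refine hT.trans (mul_le_mul_of_nonneg_right (by linarith) (by positivity))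
  have hrt := rtcT_spec md rqc (‖q‖ + 1 / 100000) (by positivity) hD
  have hρ : T ≤ (rtcT md rqc : ℝ) / 10000 := hT.trans hrt
  have hρ1 : (rtcT md rqc : ℝ) / 10000 < 1 := by
    rw [div_lt_one (by norm_num)]
    exact_mod_cast s1
  obtain ⟨w', hTS⟩ := tside_zero 0
  -- the right coefficients for `md = 2`
  have hF2 : md = 2 → ∀ j : ℕ, ‖v (1 + (j : ℤ))‖ ≤ T ^ (j + 1) * ((rqc : ℝ) / 10000) ^ j := by
    intro hm j
    have h5 := hF hm j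
    have hX0 : 0 ≤ ‖q‖ + 1 / 100000 := by positivity
    have hX1 : ‖q‖ + 1 / 100000 ≤ 1 := hD.trans hrq1
    have h6 : (‖q‖ + 1 / 100000) ^ (20 * j + 3) ≤ (‖q‖ + 1 / 100000) ^ (17 * j) :=
      pow_le_pow_of_le_one hX0 hX1 (by omega)
    have h7 : (‖q‖ + 1 / 100000) ^ (17 * j) ≤ ((rqc : ℝ) / 10000) ^ (17 * j) :=
      pow_le_pow_left₀ hX0 hD _
    have h8 : (T ^ 17) ^ (j + 1) * (‖q‖ + 1 / 100000) ^ (20 * j + 3) ≤
        (T ^ (j + 1) * ((rqc : ℝ) / 10000) ^ j) ^ 17 := by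
      have e9 : (T ^ (j + 1) * ((rqc : ℝ) / 10000) ^ j) ^ 17 =
          (T ^ 17) ^ (j + 1) * ((rqc : ℝ) / 10000) ^ (17 * j) := by
        rw [mul_pow, ← pow_mul, ← pow_mul, ← pow_mul, mul_comm (j + 1) 17, mul_comm j 17]
      rw [e9]
      exact mul_le_mul_of_nonneg_left (h6.trans h7) (pow_nonneg (pow_nonneg H.T0 _) _)
    exact le_of_pow_le_pow_left₀ (by norm_num)
      (mul_nonneg (pow_nonneg H.T0 _) (by positivity)) (h5.trans h8)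
  refine fam_sound (famT md c17 nL nR PL PR rqc (nuT (lamT md) Q x y) (wsumP la) (wsumP lb)) h2
    (H.toV hT9 hq34) hs hTS (by linarith : ‖q‖ ≤ (rqc : ℝ) / 10000)
    (by rw [norm_zero]; exact div_nonneg (Nat.cast_nonneg _) (by norm_num)) ?_ ?_ ?_ ?_ ?_
    ((wsumP lb : ℝ) / 100000000 + ((rqc : ℝ) / 10000) ^ (PR + 2))
    ((wsumP la : ℝ) / 100000000 + ((rqc : ℝ) / 10000) ^ (PL + 2))
    (((rtcT md rqc : ℝ) / 10000) ^ (PR + 1) / (1 - (rtcT md rqc : ℝ) / 10000) *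
      (if md = 2 then ((rqc : ℝ) / 10000) ^ PR else 1))
    (((rtcT md rqc : ℝ) / 10000) ^ (PL + 1) / (1 - (rtcT md rqc : ℝ) / 10000)) ?_ ?_ ?_ ?_ ?_
  · intro p hp
    have hp' : p ∈ [(false, 2), (false, 1), (true, 0)] := hp
    fin_cases hp'
    · exact H.v2
    · exact H.v1
    · exact H.v0
  · show List.Perm ([-2, -1, 0] : List ℤ) [-2, -1, 0]
    exact List.Perm.refl _
  · intro p hp
    have hp' : p ∈ ([] : List PosW) := hp
    exact absurd hp' List.not_mem_nil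
  · have e3 : (fun i : ℕ => v (((0 : ℕ) : ℤ) + 1 + (i : ℤ))) = fun i : ℕ => v (1 + (i : ℤ)) := by
      funext i
      norm_num
    show SeqOK (famT md c17 nL nR PL PR rqc (nuT (lamT md) Q x y) (wsumP la) (wsumP lb)).mR
      (nuT (lamT md) Q x y) 0
      (famT md c17 nL nR PL PR rqc (nuT (lamT md) Q x y) (wsumP la) (wsumP lb)).wR PR
      (fun i : ℕ => v (((0 : ℕ) : ℤ) + 1 + (i : ℤ))) q 0
    rw [e3]
    interval_cases md
    · exact TLeaf_box 900 PR _ _ s3 q hq T H.T0 hT _ H.oR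
    · exact TLeaf_ball 1 640 Q x y PR one_ne_zero (by norm_num) s3 hQ q hs hq
        (hq705 (by norm_num)) T hT _ (hoR rfl)
    · show SeqOK 0 _ 0 (wtF c17) PR _ q 0
      unfold SeqOK
      rw [if_pos rfl]
      obtain ⟨s5, s6⟩ := s4 rfl
      intro i hi
      refine wtF_spec c17 i (by omega) q hq ?_ T _ H.T0 hT9 (norm_nonneg _) (hF rfl i)
      exact (mul_le_mul_of_nonneg_right hD (by norm_num)).trans s6
  · have e3 : (fun i : ℕ => v (-((2 : ℕ) : ℤ) - 1 - (i : ℤ))) = fun i : ℕ => v (-3 - (i : ℤ)) := by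
      funext i
      norm_num
    show SeqOK (famT md c17 nL nR PL PR rqc (nuT (lamT md) Q x y) (wsumP la) (wsumP lb)).mL
      (nuT (lamT md) Q x y) 0 (wtT (lamT md)) PL
      (fun i : ℕ => v (-((2 : ℕ) : ℤ) - 1 - (i : ℤ))) q 0
    rw [e3]
    interval_cases md
    · exact TLeaf_box 900 PL _ _ s2 q hq T H.T0 hT _ H.oL
    · exact TLeaf_ball 1 640 Q x y PL one_ne_zero (by norm_num) s2 hQ q hs hq
        (hq705 (by norm_num)) T hT _ (hoL one_ne_zero)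
    · exact TLeaf_ball 1 900 Q x y PL one_ne_zero (by norm_num) s2 hQ q hs hq
        (hq705 (by norm_num)) T hT _ (hoL two_ne_zero)
  · intro i
    have e : (((0 : ℕ) : ℤ) + 1 + (PR : ℤ) + (i : ℤ)) = ((1 + PR + i : ℕ) : ℤ) := by
      push_cast
      ring
    show gW 0 1 q 0 _ _ _ (((0 : ℕ) : ℤ) + 1 + (PR : ℤ) + (i : ℤ)) ≤ _
    rw [e, hc0]
    exact TLeaf_gR q 0 _ _ (by linarith) _ (by linarith : ‖q‖ ≤ (rqc : ℝ) / 10000) hrq1 _ _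
      (by omega) _ hwb
  · intro i
    have e : (-((2 : ℕ) : ℤ) - 1 - (PL : ℤ) - (i : ℤ)) = -((2 + 1 + PL + i : ℕ) : ℤ) := by
      push_cast
      ring
    show gW 0 1 q 0 _ _ _ (-((2 : ℕ) : ℤ) - 1 - (PL : ℤ) - (i : ℤ)) ≤ _
    rw [e, hc0]
    exact TLeaf_gL q 0 _ _ (by linarith) _ (by linarith : ‖q‖ ≤ (rqc : ℝ) / 10000) hrq1 _ _
      (by omega) _ hwa
  · have e : ∀ i : ℕ, (((0 : ℕ) : ℤ) + 1 + (PR : ℤ) + (i : ℤ)) = 1 + ((PR + i : ℕ) : ℤ) := by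
      intro i
      push_cast
      ring
    show ∑' i : ℕ, ‖v (((0 : ℕ) : ℤ) + 1 + (PR : ℤ) + (i : ℤ))‖ ≤ _
    simp only [e]
    have hrq0 : (0 : ℝ) ≤ (rqc : ℝ) / 10000 := by positivity
    refine TLeaf_geo _ (fun i => norm_nonneg _) T _ _ H.T0 hρ ?_ hρ1 PR fun i => ?_
    · split_ifs
      · positivity
      · exact zero_le_one
    · split_ifs with hm
      · refine (hF2 hm (PR + i)).trans (mul_le_mul_of_nonneg_left ?_ (pow_nonneg H.T0 _))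
        exact pow_le_pow_of_le_one hrq0 hrq1 (by omega)
      · rw [mul_one]
        exact H.oR (PR + i)
  · have e : ∀ i : ℕ, (-((2 : ℕ) : ℤ) - 1 - (PL : ℤ) - (i : ℤ)) = -3 - ((PL + i : ℕ) : ℤ) := by
      intro i
      push_cast
      ring
    show ∑' i : ℕ, ‖v (-((2 : ℕ) : ℤ) - 1 - (PL : ℤ) - (i : ℤ))‖ ≤ _
    simp only [e]
    have h9 := TLeaf_geo (fun i : ℕ => ‖v (-3 - ((PL + i : ℕ) : ℤ))‖) (fun i => norm_nonneg _) T
      ((rtcT md rqc : ℝ) / 10000) 1 H.T0 hρ zero_le_one hρ1 PL fun i => by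
        rw [mul_one]
        exact H.oL (PL + i)
    rw [mul_one] at h9
    exact h9
  · exact tailT_spec md rqc PL PR (wsumP la) (wsumP lb) _ _ s1 le_rfl le_rfl

end Pool.Agent.MaxTerm58
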