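import Pool.Agent.MaxTerm58.TLeaf

/-! Soundness of the tree for the families `T`, conjugation. Model: `ETree.lean`, `TreeS.lean`. `insU`: if the real
part of `q` lies in the strip `[-a/32, -b/32]` and in no other strip in whose interior the square has points, then
`32 |Im q| ≤ c` there (the three alternatives of `inR` in this order: the square is left of the strip, right of the
strip, below `c`); a boundary point of two strips belongs to both. -/

namespace Pool.Agent.MaxTerm58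

private theorem TTree_absD (x : ℕ) : ((absD x : ℕ) : ℝ) = |(x : ℝ) - 100000| := by
  unfold absD
  rcases le_total x 100000 with h | h
  · have h1 : Nat.add (Nat.sub x 100000) (Nat.sub 100000 x) = 100000 - x := by
      show (x - 100000) + (100000 - x) = 100000 - x
      omega
    have h2 : (x : ℝ) ≤ 100000 := by exact_mod_cast h
    rw [h1, Nat.cast_sub h, abs_of_nonpos (by linarith)]
    push_cast
    ring
  · have h1 : Nat.add (Nat.sub x 100000) (Nat.sub 100000 x) = x - 100000 := by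
      show (x - 100000) + (100000 - x) = x - 100000
      omega
    have h2 : (100000 : ℝ) ≤ x := by exact_mod_cast h
    rw [h1, Nat.cast_sub h, abs_of_nonneg (by linarith)]
    push_cast
    ring

/-- one coordinate: upper and lower bound of the square -/
private theorem TTree_lin (t : ℝ) (x Q : ℕ) (h : |t * Q - ((x : ℝ) - 100000)| ≤ 1) :
    |t * Q| ≤ ((Nat.succ (absD x) : ℕ) : ℝ) ∧ ((absD x - 1 : ℕ) : ℝ) ≤ |t * Q| := by
  have e := TTree_absD x
  have h1 : |t * Q| ≤ |(x : ℝ) - 100000| + 1 := by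
    have := abs_add_le (t * Q - ((x : ℝ) - 100000)) ((x : ℝ) - 100000)
    rw [sub_add_cancel] at this
    linarith
  have h2 : |(x : ℝ) - 100000| - 1 ≤ |t * Q| := by
    have := abs_add_le (((x : ℝ) - 100000) - t * Q) (t * Q)
    rw [sub_add_cancel, abs_sub_comm ((x : ℝ) - 100000) (t * Q)] at this
    linarith
  constructor
  · rw [Nat.succ_eq_add_one]
    push_cast
    rw [e]
    exact h1
  · rcases Nat.eq_zero_or_pos (absD x) with h0 | h0
    · rw [h0]
      simp only [Nat.zero_sub, Nat.cast_zero]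
      exact abs_nonneg _
    · rw [Nat.cast_sub h0, e, Nat.cast_one]
      exact h2

private theorem TTree_coord (t : ℝ) (x Q : ℕ) (h : |t * Q - ((x : ℝ) - 100000)| ≤ 1) :
    (t * Q) ^ 2 ≤ (((Nat.succ (absD x)) ^ 2 : ℕ) : ℝ) ∧
      (((absD x - 1) ^ 2 : ℕ) : ℝ) ≤ (t * Q) ^ 2 := by
  obtain ⟨h1, h2⟩ := TTree_lin t x Q h
  constructor
  · rw [← sq_abs (t * Q), Nat.cast_pow]
    exact pow_le_pow_left₀ (abs_nonneg _) h1 2
  · rw [← sq_abs (t * Q), Nat.cast_pow]
    exact pow_le_pow_left₀ (Nat.cast_nonneg _) h2 2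

private theorem TTree_norm (z : ℂ) (Q : ℕ) :
    (z.re * Q) ^ 2 + (z.im * Q) ^ 2 = ‖z‖ ^ 2 * (Q : ℝ) ^ 2 := by
  rw [Complex.sq_norm, Complex.normSq_apply]
  ring

/-- the offset coordinate of a nonempty cell is large -/
private theorem TTree_large (t : ℝ) (x Q : ℕ) (ht : |t| ≤ 1) (hQ : Q ≤ 4096)
    (h : |t * Q - ((x : ℝ) - 100000)| ≤ 1) : 60000 ≤ x := by
  have hQ' : (Q : ℝ) ≤ 4096 := by exact_mod_cast hQ
  have h0 : (0 : ℝ) ≤ Q := Nat.cast_nonneg _
  have h1 : |t * Q| ≤ 4096 := by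
    rw [abs_mul, abs_of_nonneg h0]
    nlinarith [abs_nonneg t]
  have h2 := abs_le.1 h1
  have h3 := abs_le.1 h
  have : (60000 : ℝ) ≤ x := by linarith
  exact_mod_cast this

private theorem TTree_cast1 (x : ℕ) (hx : 60000 ≤ x) :
    (((Nat.sub (Nat.mul 2 x) 100001) : ℕ) : ℝ) = 2 * x - 100001 := by
  show ((2 * x - 100001 : ℕ) : ℝ) = 2 * x - 100001
  rw [Nat.cast_sub (by omega)]
  push_cast
  ring

private theorem TTree_cast2 (x : ℕ) (hx : 60000 ≤ x) :
    (((Nat.sub (Nat.mul 2 x) 99999) : ℕ) : ℝ) = 2 * x - 99999 := by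
  show ((2 * x - 99999 : ℕ) : ℝ) = 2 * x - 99999
  rw [Nat.cast_sub (by omega)]
  push_cast
  ring

/-- halving one coordinate -/
private theorem TTree_split (t : ℝ) (x Q : ℕ) (ht : |t| ≤ 1) (hQ : Q ≤ 4096)
    (h : |t * Q - ((x : ℝ) - 100000)| ≤ 1) :
    |t * ((Nat.mul 2 Q : ℕ) : ℝ) - ((((Nat.sub (Nat.mul 2 x) 100001) : ℕ) : ℝ) - 100000)| ≤ 1 ∨
    |t * ((Nat.mul 2 Q : ℕ) : ℝ) - ((((Nat.sub (Nat.mul 2 x) 99999) : ℕ) : ℝ) - 100000)| ≤ 1 := by
  have hx := TTree_large t x Q ht hQ h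
  rw [TTree_cast1 x hx, TTree_cast2 x hx]
  have e : ((Nat.mul 2 Q : ℕ) : ℝ) = 2 * Q := by
    show ((2 * Q : ℕ) : ℝ) = 2 * Q
    push_cast
    ring
  rw [e]
  have h3 := abs_le.1 h
  rcases le_total (t * Q - ((x : ℝ) - 100000)) 0 with h0 | h0
  · left
    rw [abs_le]
    constructor <;> linarith
  · right
    rw [abs_le]
    constructor <;> linarith


/-- soundness of the disjointness test -/
private theorem TTree_disR {x y Q a b c : ℕ} (h : disR x y Q a b c = true) {q : ℂ}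
    (hq : InSq q x y Q) (hl : -(a : ℝ) / 32 ≤ q.re) (hr : q.re ≤ -(b : ℝ) / 32)
    (hi : |q.im| ≤ (c : ℝ) / 32) : False := by
  have hQ : (0 : ℝ) ≤ Q := Nat.cast_nonneg _
  have b1 := abs_le.1 hq.1
  obtain ⟨_, y2⟩ := TTree_lin _ _ _ hq.2
  unfold disR at h
  simp only [Bool.or_eq_true, Nat.blt_eq] at h
  rcases h with (h | h) | h
  · have h1 : 32 * (x + 1) + a * Q < 3200000 := h
    have h2 : (32 : ℝ) * (x + 1) + a * Q < 3200000 := by exact_mod_cast h1
    have h3 := mul_le_mul_of_nonneg_right hl hQ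
    have h4 : -(a : ℝ) / 32 * Q = -(a * Q) / 32 := by ring
    rw [h4] at h3
    linarith [b1.2]
  · have h1 : 3200032 < 32 * x + b * Q := h
    have h2 : (3200032 : ℝ) < 32 * x + b * Q := by exact_mod_cast h1
    have h3 := mul_le_mul_of_nonneg_right hr hQ
    have h4 : -(b : ℝ) / 32 * Q = -(b * Q) / 32 := by ring
    rw [h4] at h3
    linarith [b1.1]
  · have h1 : c * Q < 32 * (absD y - 1) := h
    have h2 : (c : ℝ) * Q < 32 * ((absD y - 1 : ℕ) : ℝ) := by exact_mod_cast h1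
    have h3 := mul_le_mul_of_nonneg_right hi hQ
    have h4 : (c : ℝ) / 32 * Q = c * Q / 32 := by ring
    rw [h4] at h3
    rw [abs_mul, abs_of_nonneg hQ] at y2
    linarith


/-- one strip of the region -/
private theorem TTree_inR {x y Q a b c : ℕ} (h : inR x y Q a b c = true) (hQ : 0 < Q) {q : ℂ}
    (hq : InSq q x y Q) :
    (q.re ≤ -(a : ℝ) / 32 ∧ (x : ℝ) - 100000 + 1 ≤ -(a : ℝ) / 32 * Q) ∨
    (-(b : ℝ) / 32 ≤ q.re ∧ -(b : ℝ) / 32 * Q ≤ (x : ℝ) - 100000 - 1) ∨ |q.im| ≤ (c : ℝ) / 32 := by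
  have hQ0 : (0 : ℝ) < Q := by exact_mod_cast hQ
  have b1 := abs_le.1 hq.1
  obtain ⟨y1, _⟩ := TTree_lin _ _ _ hq.2
  unfold inR at h
  simp only [Bool.or_eq_true, Nat.ble_eq] at h
  rcases h with (h | h) | h
  · left
    have h1 : 32 * (x + 1) + a * Q ≤ 3200000 := h
    have h2 : (32 : ℝ) * (x + 1) + a * Q ≤ 3200000 := by exact_mod_cast h1
    have h3 : (x : ℝ) - 100000 + 1 ≤ -(a : ℝ) / 32 * Q := by
      have h4 : -(a : ℝ) / 32 * Q = -(a * Q) / 32 := by ring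
      rw [h4]
      linarith
    refine ⟨?_, h3⟩
    have h5 : q.re * Q ≤ -(a : ℝ) / 32 * Q := by linarith [b1.2]
    exact le_of_mul_le_mul_right h5 hQ0
  · right; left
    have h1 : 3200032 ≤ 32 * x + b * Q := h
    have h2 : (3200032 : ℝ) ≤ 32 * x + b * Q := by exact_mod_cast h1
    have h3 : -(b : ℝ) / 32 * Q ≤ (x : ℝ) - 100000 - 1 := by
      have h4 : -(b : ℝ) / 32 * Q = -(b * Q) / 32 := by ring
      rw [h4]
      linarith
    refine ⟨?_, h3⟩
    have h5 : -(b : ℝ) / 32 * Q ≤ q.re * Q := by linarith [b1.1]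
    exact le_of_mul_le_mul_right h5 hQ0
  · right; right
    have h1 : 32 * (absD y + 1) ≤ c * Q := h
    have h2 : (32 : ℝ) * (((Nat.succ (absD y)) : ℕ) : ℝ) ≤ c * Q := by exact_mod_cast h1
    rw [abs_mul, abs_of_nonneg hQ0.le] at y1
    have h5 : |q.im| * Q ≤ (c : ℝ) / 32 * Q := by
      have h4 : (c : ℝ) / 32 * Q = c * Q / 32 := by ring
      rw [h4]
      linarith
    exact le_of_mul_le_mul_right h5 hQ0

theorem insU_sound (x y Q : ℕ) (h : insU x y Q = true) (q : ℂ) (hq : InSq q x y Q) : InU2 q.re |q.im| := by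
  unfold insU at h
  simp only [Bool.and_eq_true, Nat.ble_eq] at h
  obtain ⟨⟨⟨⟨⟨⟨hQ, hl⟩, hr⟩, h1⟩, h2⟩, h3⟩, h4⟩ := h
  have hQ0 : (0 : ℝ) < Q := by exact_mod_cast hQ
  have b1 := abs_le.1 hq.1
  have hl' : (3200032 : ℝ) ≤ 32 * x + 23 * Q := by
    have : 3200032 ≤ 32 * x + 23 * Q := hl
    exact_mod_cast this
  have hr' : (32 : ℝ) * (x + 1) + 6 * Q ≤ 3200000 := by
    have : 32 * (x + 1) + 6 * Q ≤ 3200000 := hr
    exact_mod_cast this
  have l0 : -23 / 32 ≤ q.re := by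
    have h5 : -23 / 32 * (Q : ℝ) ≤ q.re * Q := by linarith [b1.1]
    exact le_of_mul_le_mul_right h5 hQ0
  have r0 : q.re ≤ -6 / 32 := by
    have h5 : q.re * Q ≤ -6 / 32 * (Q : ℝ) := by linarith [b1.2]
    exact le_of_mul_le_mul_right h5 hQ0
  have g1 := TTree_inR h1 hQ hq
  have g2 := TTree_inR h2 hQ hq
  have g3 := TTree_inR h3 hQ hq
  have g4 := TTree_inR h4 hQ hq
  push_cast at g1 g2 g3 g4
  unfold InU2
  rcases le_total q.re (-21 / 32) with c1 | c1
  · rcases g1 with g1 | g1 | g1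
    · linarith [g1.2]
    · rcases g2 with g2 | g2 | g2
      · linarith [g1.2, g2.2]
      · linarith [g2.1]
      · right; left
        exact ⟨by linarith [g1.1], by linarith, g2⟩
    · left
      exact ⟨l0, c1, g1⟩
  · rcases le_total q.re (-17 / 32) with c2 | c2
    · rcases g2 with g2 | g2 | g2
      · rcases g1 with g1 | g1 | g1
        · linarith [g1.2]
        · linarith [g1.2, g2.2]
        · left
          exact ⟨l0, by linarith [g2.1], g1⟩
      · rcases g3 with g3 | g3 | g3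
        · linarith [g2.2, g3.2]
        · linarith [g3.1]
        · right; right; left
          exact ⟨by linarith [g2.1], by linarith, g3⟩
      · right; left
        exact ⟨c1, c2, g2⟩
    · rcases le_total q.re (-8 / 32) with c3 | c3
      · rcases g3 with g3 | g3 | g3
        · rcases g2 with g2 | g2 | g2
          · linarith [g2.1]
          · linarith [g2.2, g3.2]
          · right; left
            exact ⟨c1, by linarith [g3.1], g2⟩
        · rcases g4 with g4 | g4 | g4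
          · linarith [g3.2, g4.2]
          · linarith [g4.2]
          · right; right; right
            exact ⟨by linarith [g3.1], by linarith, g4⟩
        · right; right; left
          exact ⟨c2, c3, g3⟩
      · rcases g4 with g4 | g4 | g4
        · rcases g3 with g3 | g3 | g3
          · linarith [g3.1]
          · linarith [g3.2, g4.2]
          · right; right; left
            exact ⟨c2, by linarith [g4.1], g3⟩
        · linarith [g4.2]
        · right; right; right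
          exact ⟨c3, r0, g4⟩

private theorem TTree_mx {q : ℂ} {x y Q k : ℕ} (hq : InSq q x y Q)
    (h : 10000 * ((Nat.succ (absD x)) ^ 2 + (Nat.succ (absD y)) ^ 2) < 1156 * Q ^ 2)
    (h1 : 17 / 50 ≤ ‖q‖) (_ : k = k) : False := by
  obtain ⟨x1, _⟩ := TTree_coord _ _ _ hq.1
  obtain ⟨y1, _⟩ := TTree_coord _ _ _ hq.2
  have nq := TTree_norm q Q
  have hQ0 : (0 : ℝ) ≤ (Q : ℝ) ^ 2 := by positivity
  have h4 : (10000 : ℝ) * ((((Nat.succ (absD x)) ^ 2 : ℕ) : ℝ) + (((Nat.succ (absD y)) ^ 2 : ℕ) : ℝ)) <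
      1156 * (Q : ℝ) ^ 2 := by exact_mod_cast h
  have h5 : (17 / 50 : ℝ) ^ 2 ≤ ‖q‖ ^ 2 := pow_le_pow_left₀ (by norm_num) h1 2
  have h6 : (17 / 50 : ℝ) ^ 2 * (Q : ℝ) ^ 2 ≤ ‖q‖ ^ 2 * (Q : ℝ) ^ 2 :=
    mul_le_mul_of_nonneg_right h5 hQ0
  linarith

private theorem TTree_mn {q : ℂ} {x y Q a b : ℕ} (hq : InSq q x y Q)
    (h : a * Q ^ 2 < b * ((absD x - 1) ^ 2 + (absD y - 1) ^ 2)) {r : ℝ} (hr : (b : ℝ) * r ^ 2 ≤ a)
    (h1 : ‖q‖ ≤ r) : False := by
  obtain ⟨_, x2⟩ := TTree_coord _ _ _ hq.1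
  obtain ⟨_, y2⟩ := TTree_coord _ _ _ hq.2
  have nq := TTree_norm q Q
  have hQ0 : (0 : ℝ) ≤ (Q : ℝ) ^ 2 := by positivity
  have h4 : (a : ℝ) * (Q : ℝ) ^ 2 <
      b * ((((absD x - 1) ^ 2 : ℕ) : ℝ) + (((absD y - 1) ^ 2 : ℕ) : ℝ)) := by exact_mod_cast h
  have h5 : ‖q‖ ^ 2 ≤ r ^ 2 := pow_le_pow_left₀ (norm_nonneg q) h1 2
  have h6 : ‖q‖ ^ 2 * (Q : ℝ) ^ 2 ≤ r ^ 2 * (Q : ℝ) ^ 2 := mul_le_mul_of_nonneg_right h5 hQ0
  have hb : (0 : ℝ) ≤ b := Nat.cast_nonneg _
  have h7 : (b : ℝ) * ((((absD x - 1) ^ 2 : ℕ) : ℝ) + (((absD y - 1) ^ 2 : ℕ) : ℝ)) ≤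
      b * (r ^ 2 * (Q : ℝ) ^ 2) := mul_le_mul_of_nonneg_left (by linarith) hb
  have h8 : (b : ℝ) * (r ^ 2 * (Q : ℝ) ^ 2) ≤ a * (Q : ℝ) ^ 2 := by
    rw [← mul_assoc]
    exact mul_le_mul_of_nonneg_right hr hQ0
  linarith

theorem outT0_sound (x y Q : ℕ) (h : outT0 x y Q = true) : CellT 0 x y Q := by
  intro q T v _ _ h1 hdom hq
  unfold DomT at hdom
  rw [if_pos rfl] at hdom
  obtain ⟨d1, d2, d3⟩ := hdom
  unfold outT0 at h
  simp only [Bool.or_eq_true, Bool.and_eq_true, Nat.blt_eq, Nat.ble_eq] at h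
  rcases h with ((h | h) | h) | h
  · exact TTree_mx (k := 0) hq h h1 rfl
  · exact TTree_mn (a := 9) (b := 16) hq h (r := 3 / 4) (by norm_num) d1
  · obtain ⟨⟨⟨e1, e2⟩, e3⟩, e4⟩ := h
    rcases d2 with ⟨a, b, c⟩ | ⟨a, b, c⟩ | ⟨a, b, c⟩ | ⟨a, b, _, c⟩
    · exact TTree_disR e1 hq (by push_cast; linarith) (by push_cast; linarith) (by push_cast; linarith)
    · exact TTree_disR e2 hq (by push_cast; linarith) (by push_cast; linarith) (by push_cast; linarith)
    · exact TTree_disR e3 hq (by push_cast; linarith) (by push_cast; linarith) (by push_cast; linarith)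
    · exact TTree_disR e4 hq (by push_cast; linarith) (by push_cast; linarith) (by push_cast; linarith)
  · obtain ⟨e1, e2⟩ := h
    refine d3 ⟨?_, insU_sound x y Q e1 q hq⟩
    have hQ : 0 < Q := by
      unfold insU at e1
      simp only [Bool.and_eq_true, Nat.ble_eq] at e1
      exact e1.1.1.1.1.1.1
    obtain ⟨x1, _⟩ := TTree_coord _ _ _ hq.1
    obtain ⟨y1, _⟩ := TTree_coord _ _ _ hq.2
    have nq := TTree_norm q Q
    have hQ0 : (0 : ℝ) < (Q : ℝ) ^ 2 := by positivity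
    have h3 : 40000 * ((Nat.succ (absD x)) ^ 2 + (Nat.succ (absD y)) ^ 2) ≤ 19881 * Q ^ 2 := e2
    have h4 : (40000 : ℝ) * ((((Nat.succ (absD x)) ^ 2 : ℕ) : ℝ) + (((Nat.succ (absD y)) ^ 2 : ℕ) : ℝ)) ≤
        19881 * (Q : ℝ) ^ 2 := by exact_mod_cast h3
    have h5 : ‖q‖ ^ 2 * (Q : ℝ) ^ 2 ≤ (141 / 200 : ℝ) ^ 2 * (Q : ℝ) ^ 2 := by
      rw [← nq]
      linarith
    have h6 := le_of_mul_le_mul_right h5 hQ0
    exact le_of_sq_le_sq h6 (by norm_num)

theorem outT1_sound (md x y Q : ℕ) (hmd : md ≠ 0) (h : outT1 x y Q = true) : CellT md x y Q := by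
  intro q T v _ _ h1 hdom hq
  unfold DomT at hdom
  rw [if_neg hmd] at hdom
  obtain ⟨d1, d2⟩ := hdom
  unfold outT1 at h
  simp only [Bool.or_eq_true, Bool.and_eq_true, Nat.blt_eq] at h
  rcases h with (h | h) | h
  · exact TTree_mx (k := 0) hq h h1 rfl
  · exact TTree_mn (a := 19881) (b := 40000) hq h (r := 141 / 200) (by norm_num) d1
  · obtain ⟨⟨⟨e1, e2⟩, e3⟩, e4⟩ := h
    rcases d2 with ⟨a, b, c⟩ | ⟨a, b, c⟩ | ⟨a, b, c⟩ | ⟨a, b, c⟩
    · exact TTree_disR e1 hq (by push_cast; linarith) (by push_cast; linarith) (by push_cast; linarith)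
    · exact TTree_disR e2 hq (by push_cast; linarith) (by push_cast; linarith) (by push_cast; linarith)
    · exact TTree_disR e3 hq (by push_cast; linarith) (by push_cast; linarith) (by push_cast; linarith)
    · exact TTree_disR e4 hq (by push_cast; linarith) (by push_cast; linarith) (by push_cast; linarith)

private theorem TTree_one {md : ℕ} {q : ℂ} (h : DomT md q) : ‖q‖ ≤ 1 := by
  unfold DomT at h
  split_ifs at h
  · linarith [h.1]
  · linarith [h.1]

theorem TT_sound (md : ℕ) (hmd : md ≤ 2) (T : TT) : ∀ x y Q : ℕ, TT.chk md T x y Q = true → CellT md x y Q := by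
  induction T with
  | lf c17 P nL nR PL PR a b =>
    intro x y Q h
    rw [TT.chk] at h
    exact checkT_sound md x y Q c17 P nL nR PL PR hmd a b h
  | out =>
    intro x y Q h
    rw [TT.chk] at h
    cases hc : Nat.beq md 0
    · rw [hc, cond_false] at h
      refine outT1_sound md x y Q ?_ h
      rintro rfl
      exact absurd hc (by decide)
    · rw [hc, cond_true] at h
      have := Nat.eq_of_beq_eq_true hc
      subst this
      exact outT0_sound x y Q h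
  | sq t1 t2 t3 t4 i1 i2 i3 i4 =>
    intro x y Q h
    rw [TT.chk] at h
    simp only [Bool.and_eq_true, Nat.ble_eq] at h
    obtain ⟨⟨⟨⟨h0, h1⟩, h2⟩, h3⟩, h4⟩ := h
    intro q T v H hA h5 hdom hq
    have n1 : |q.re| ≤ 1 := (Complex.abs_re_le_norm q).trans (TTree_one hdom)
    have n2 : |q.im| ≤ 1 := (Complex.abs_im_le_norm q).trans (TTree_one hdom)
    rcases TTree_split _ _ _ n1 h0 hq.1 with b | b <;>
      rcases TTree_split _ _ _ n2 h0 hq.2 with c | c
    · exact i1 _ _ _ h1 q T v H hA h5 hdom ⟨b, c⟩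
    · exact i3 _ _ _ h3 q T v H hA h5 hdom ⟨b, c⟩
    · exact i2 _ _ _ h2 q T v H hA h5 hdom ⟨b, c⟩
    · exact i4 _ _ _ h4 q T v H hA h5 hdom ⟨b, c⟩

private theorem TTree_nc (z : ℂ) : ‖(starRingEnd ℂ) z‖ = ‖z‖ := RCLike.norm_conj z

private theorem TTree_conj_sum (m1 X : ℕ) (q : ℂ) (v : ℤ → ℂ) (z : ℂ) :
    ∑' n : ℤ, (starRingEnd ℂ) (v n) * (starRingEnd ℂ) q ^ eaZ m1 X n * z ^ n =
    (starRingEnd ℂ) (∑' n : ℤ, v n * q ^ eaZ m1 X n * ((starRingEnd ℂ) z) ^ n) := by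
  simp only [map_mul, map_pow, map_zpow₀, Complex.conj_tsum, Complex.conj_conj]

theorem HypT.conj {q : ℂ} {T : ℝ} {v : ℤ → ℂ} (H : HypT q T v) :
    HypT ((starRingEnd ℂ) q) T (fun n => (starRingEnd ℂ) (v n)) := by
  refine ⟨?_, ?_, ?_, H.T0, fun i => ?_, fun i => ?_, fun X hX z hz => ?_⟩
  · show (starRingEnd ℂ) (v (-2)) = 1
    rw [H.v2, map_one]
  · show (starRingEnd ℂ) (v (-1)) = 1
    rw [H.v1, map_one]
  · show (starRingEnd ℂ) (v 0) = 1
    rw [H.v0, map_one]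
  · rw [TTree_nc]
    exact H.oL i
  · rw [TTree_nc]
    exact H.oR i
  · rw [TTree_conj_sum, TTree_nc]
    exact H.bd X hX _ (by rw [TTree_nc]; exact hz)

private theorem TTree_outN {g : ℕ} {D : ℝ} {r : ℕ → ℂ} (h : OutN g D r) :
    OutN g D (fun i => (starRingEnd ℂ) (r i)) := by
  obtain ⟨y, c, u, h1, h2, h3, h4, h5, h6, h7⟩ := h
  refine ⟨y, c, u, h1, h2, h3, h4, h5, h6, fun i => ?_⟩
  rw [TTree_nc]
  exact h7 i

theorem AuxT.conj {md : ℕ} {q : ℂ} {T : ℝ} {v : ℤ → ℂ} (H : AuxT md q T v) :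
    AuxT md ((starRingEnd ℂ) q) T (fun n => (starRingEnd ℂ) (v n)) := by
  obtain ⟨h1, h2, h3, h4⟩ := H
  refine ⟨?_, fun h => TTree_outN (h2 h), fun h => TTree_outN (h3 h), fun h i => ?_⟩
  · rw [TTree_nc]
    exact h1
  · rw [TTree_nc, TTree_nc]
    exact h4 h i

theorem DomT.conj {md : ℕ} {q : ℂ} (H : DomT md q) : DomT md ((starRingEnd ℂ) q) := by
  unfold DomT at H ⊢
  rw [TTree_nc, Complex.conj_re, Complex.conj_im, abs_neg]
  exact H

end Pool.Agent.MaxTerm58
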