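import Pool.Agent.MaxTerm58.TDef

/-! Weights and tails of the families `T`. Models: `EWt.lean`, `WtS.lean`. `(1 + 10^(-5) / 0.34)^33 ≤ 1.001`. -/

namespace Pool.Agent.MaxTerm58

private theorem TWt_absD (x : ℕ) : ((absD x : ℕ) : ℝ) = |(x : ℝ) - 100000| := by
  have h0 : absD x = (x - 100000) + (100000 - x) := rfl
  rw [h0]
  rcases le_total x 100000 with h | h
  · rw [Nat.sub_eq_zero_of_le h, zero_add, Nat.cast_sub h]
    have h' : (x : ℝ) ≤ 100000 := by exact_mod_cast h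
    rw [abs_of_nonpos (by linarith)]
    push_cast
    ring
  · rw [Nat.sub_eq_zero_of_le h, add_zero, Nat.cast_sub h]
    have h' : (100000 : ℝ) ≤ x := by exact_mod_cast h
    rw [abs_of_nonneg (by linarith)]
    push_cast
    ring

private theorem TWt_sq (x : ℕ) (a : ℝ) (h : |a - ((x : ℝ) - 100000)| ≤ 1) :
    ((absD x - 1 : ℕ) : ℝ) ^ 2 ≤ a ^ 2 := by
  have h1 : ((absD x - 1 : ℕ) : ℝ) ≤ |a| := by
    rcases Nat.eq_zero_or_pos (absD x) with h0 | h0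
    · rw [h0]
      simp
    · rw [Nat.cast_sub h0, TWt_absD, Nat.cast_one]
      have h2 : |(x : ℝ) - 100000| ≤ |a| + |a - ((x : ℝ) - 100000)| := by
        have h3 := abs_sub a (a - ((x : ℝ) - 100000))
        have h4 : a - (a - ((x : ℝ) - 100000)) = (x : ℝ) - 100000 := by ring
        rw [h4] at h3
        exact h3
      linarith
  rw [← sq_abs a]
  exact pow_le_pow_left₀ (Nat.cast_nonneg _) h1 2

private theorem TWt_div (a b : ℕ) (hb : 0 < b) : (a : ℝ) / (b : ℝ) ≤ ((Nat.succ (a / b) : ℕ) : ℝ) := by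
  have hb' : (0 : ℝ) < b := by exact_mod_cast hb
  rw [div_le_iff₀ hb']
  have h1 : a < b * (a / b + 1) := Nat.lt_mul_div_succ a hb
  have h2 : a ≤ (a / b + 1) * b := by
    rw [mul_comm]
    exact h1.le
  exact_mod_cast h2

private theorem TWt_root {a b : ℝ} (hb : 0 ≤ b) (h : a ^ 17 ≤ b ^ 17) : a ≤ b := by
  by_contra hc
  have hc' : b < a := not_le.1 hc
  have := pow_lt_pow_left₀ hc' hb (by norm_num : (17 : ℕ) ≠ 0)
  linarith

private theorem TWt_beq2 (md : ℕ) : Nat.beq md 2 = decide (md = 2) := by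
  match md with
  | 0 => rfl
  | 1 => rfl
  | 2 => rfl
  | (n + 3) =>
    have h : ¬ (n + 3 = 2) := by omega
    rw [decide_eq_false h]
    rfl

/-- `x ^ m <= 1.001 y ^ m` -/
private theorem TWt_pow (y : ℝ) (hy : 17 / 50 ≤ y) (m : ℕ) (hm : m ≤ 33) :
    (y + 1 / 100000) ^ m ≤ 1001 / 1000 * y ^ m := by
  have h1 : y + 1 / 100000 ≤ (1 + 1 / 34000) * y := by linarith
  have h2 : (y + 1 / 100000) ^ m ≤ ((1 + 1 / 34000) * y) ^ m :=
    pow_le_pow_left₀ (by linarith) h1 _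
  have h3 : (1 + 1 / 34000 : ℝ) ^ m ≤ (1 + 1 / 34000) ^ 33 :=
    pow_le_pow_right₀ (by norm_num) hm
  have h4 : (1 + 1 / 34000 : ℝ) ^ 33 ≤ 1001 / 1000 := by norm_num
  rw [mul_pow] at h2
  exact h2.trans (mul_le_mul_of_nonneg_right (h3.trans h4) (by positivity))

private theorem TWt_wtV (a b : ℕ) (q : ℂ) : wtV (a, b, 0) q 0 = (a : ℝ) / 100000000 * ‖q‖ ^ b := by
  unfold wtV
  simp

theorem wtT_spec (lam i : ℕ) (hi : i < 33) (q : ℂ) (hq : 17 / 50 ≤ ‖q‖) :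
    ((lam : ℝ) / 1000 * (‖q‖ + 1 / 100000)) ^ (i + 1) ≤ wtV (wtT lam i) q 0 := by
  have e : wtT lam i = (Nat.succ ((100100000 * lam ^ (i + 1)) / (1000 ^ (i + 1))), i + 1, 0) := rfl
  rw [e, TWt_wtV]
  have h1 := TWt_pow ‖q‖ hq (i + 1) (by omega)
  have h2 := TWt_div (100100000 * lam ^ (i + 1)) (1000 ^ (i + 1)) (by positivity)
  have h3 : 1001 / 1000 * ((lam : ℝ) / 1000) ^ (i + 1) ≤
      ((Nat.succ ((100100000 * lam ^ (i + 1)) / (1000 ^ (i + 1))) : ℕ) : ℝ) / 100000000 := by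
    rw [le_div_iff₀ (by norm_num)]
    refine le_trans (le_of_eq ?_) h2
    push_cast
    rw [div_pow]
    field_simp
    ring
  rw [mul_pow]
  calc ((lam : ℝ) / 1000) ^ (i + 1) * (‖q‖ + 1 / 100000) ^ (i + 1)
      ≤ ((lam : ℝ) / 1000) ^ (i + 1) * (1001 / 1000 * ‖q‖ ^ (i + 1)) :=
        mul_le_mul_of_nonneg_left h1 (by positivity)
    _ = (1001 / 1000 * ((lam : ℝ) / 1000) ^ (i + 1)) * ‖q‖ ^ (i + 1) := by ring
    _ ≤ _ := mul_le_mul_of_nonneg_right h3 (by positivity)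

theorem wtF_spec (c17 i : ℕ) (hi : i < 15) (q : ℂ) (hq : 17 / 50 ≤ ‖q‖)
    (hc : (‖q‖ + 1 / 100000) * 10000 ^ 17 ≤ (c17 : ℝ) ^ 17) (T a : ℝ) (hT0 : 0 ≤ T)
    (hT : T ≤ 9 / 10 * (‖q‖ + 1 / 100000)) (ha : 0 ≤ a)
    (h : a ^ 17 ≤ (T ^ 17) ^ (i + 1) * (‖q‖ + 1 / 100000) ^ (20 * i + 3)) : a ≤ wtV (wtF c17 i) q 0 := by
  set D : ℝ := ‖q‖ + 1 / 100000 with hD
  have hD0 : 0 ≤ D := by rw [hD]; positivity
  set k : ℕ := (20 * i + 3) / 17 with hk
  set m : ℕ := (20 * i + 3) % 17 with hm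
  have hkm : 20 * i + 3 = k * 17 + m := by omega
  have hk33 : (i + 1) + k ≤ 33 := by omega
  have e : wtF c17 i = (Nat.succ ((100100000 * 9 ^ (i + 1) * c17 ^ m) / (10 ^ (i + 1) * 10000 ^ m)),
      (i + 1) + k, 0) := rfl
  rw [e, TWt_wtV]
  have h1 := TWt_pow ‖q‖ hq ((i + 1) + k) hk33
  rw [← hD] at h1
  have h2 := TWt_div (100100000 * 9 ^ (i + 1) * c17 ^ m) (10 ^ (i + 1) * 10000 ^ m) (by positivity)
  have h3 : 1001 / 1000 * ((9 : ℝ) / 10) ^ (i + 1) * ((c17 : ℝ) / 10000) ^ m ≤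
      ((Nat.succ ((100100000 * 9 ^ (i + 1) * c17 ^ m) / (10 ^ (i + 1) * 10000 ^ m)) : ℕ) : ℝ) / 100000000 := by
    rw [le_div_iff₀ (by norm_num)]
    refine le_trans (le_of_eq ?_) h2
    push_cast
    rw [div_pow, div_pow]
    field_simp
    ring
  have hcr : D ≤ ((c17 : ℝ) / 10000) ^ 17 := by
    rw [div_pow, le_div_iff₀ (by positivity)]
    exact hc
  have h4 : a ≤ T ^ (i + 1) * D ^ k * ((c17 : ℝ) / 10000) ^ m := by
    refine TWt_root (by positivity) (h.trans ?_)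
    rw [hkm, pow_add D (k * 17) m, mul_pow, mul_pow]
    have e1 : (T ^ 17) ^ (i + 1) = (T ^ (i + 1)) ^ 17 := by
      rw [← pow_mul, ← pow_mul, mul_comm]
    have e2 : D ^ (k * 17) = (D ^ k) ^ 17 := pow_mul _ _ _
    have e3 : D ^ m ≤ (((c17 : ℝ) / 10000) ^ m) ^ 17 := by
      rw [← pow_mul, mul_comm m 17, pow_mul]
      exact pow_le_pow_left₀ hD0 hcr _
    rw [e1, e2, mul_assoc]
    exact mul_le_mul_of_nonneg_left (mul_le_mul_of_nonneg_left e3 (by positivity)) (by positivity)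
  refine h4.trans ?_
  have h5 : T ^ (i + 1) ≤ (9 / 10) ^ (i + 1) * D ^ (i + 1) := by
    rw [← mul_pow]
    exact pow_le_pow_left₀ hT0 hT _
  calc T ^ (i + 1) * D ^ k * ((c17 : ℝ) / 10000) ^ m
      ≤ ((9 / 10) ^ (i + 1) * D ^ (i + 1)) * D ^ k * ((c17 : ℝ) / 10000) ^ m :=
        mul_le_mul_of_nonneg_right (mul_le_mul_of_nonneg_right h5 (by positivity)) (by positivity)
    _ = ((9 / 10) ^ (i + 1) * ((c17 : ℝ) / 10000) ^ m) * D ^ ((i + 1) + k) := by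
        rw [pow_add D (i + 1) k]
        ring
    _ ≤ ((9 / 10) ^ (i + 1) * ((c17 : ℝ) / 10000) ^ m) * (1001 / 1000 * ‖q‖ ^ ((i + 1) + k)) :=
        mul_le_mul_of_nonneg_left h1 (by positivity)
    _ = (1001 / 1000 * ((9 : ℝ) / 10) ^ (i + 1) * ((c17 : ℝ) / 10000) ^ m) * ‖q‖ ^ ((i + 1) + k) := by
        ring
    _ ≤ _ := mul_le_mul_of_nonneg_right h3 (by positivity)

theorem nuT_spec (lam x y Q : ℕ) (hQ : 0 < Q) (q : ℂ) (h : InSq q x y Q) (hq : 17 / 50 ≤ ‖q‖) :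
    (170919 / 100000 : ℝ) ^ 2 - 2 - ((lam : ℝ) / 1000 * (‖q‖ + 1 / 100000)) ^ 2 ≤
      (((nuT lam Q x y : ℕ) : ℝ) / 100000000) ^ 2 := by
  obtain ⟨hx, hy⟩ := h
  have hQ' : (0 : ℝ) < Q := by exact_mod_cast hQ
  have hE : ((170919 / 100000 : ℝ) ^ 2 - 2) = 9213304561 / 10000000000 := by norm_num
  set S : ℕ := (absD x - 1) ^ 2 + (absD y - 1) ^ 2 with hS
  set A : ℕ := (10000000000000000 * S) / (Q * Q) with hA
  set X : ℕ := maxU A 1156000000000000 with hX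
  set M : ℕ := (lam * lam * X) / 1000000 with hM
  have e : nuT lam Q x y = sqU (Nat.succ (Nat.sub 9213304561000000 M)) := rfl
  have h1 := sqU_spec (Nat.succ (Nat.sub 9213304561000000 M))
  rw [← e] at h1
  have h2 : 9213304561000000 - (M : ℝ) ≤ ((Nat.succ (Nat.sub 9213304561000000 M) : ℕ) : ℝ) := by
    have h3 : 9213304561000000 ≤ Nat.succ (Nat.sub 9213304561000000 M) + M := by
      have e2 : Nat.succ (Nat.sub 9213304561000000 M) = 9213304561000000 - M + 1 := rfl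
      rw [e2]
      omega
    have h4 : (9213304561000000 : ℝ) ≤
        ((Nat.succ (Nat.sub 9213304561000000 M) : ℕ) : ℝ) + (M : ℝ) := by exact_mod_cast h3
    linarith
  have h4 := TWt_sq x _ hx
  have h5 := TWt_sq y _ hy
  have h6 : ‖q‖ ^ 2 * (Q : ℝ) ^ 2 = (q.re * Q) ^ 2 + (q.im * Q) ^ 2 := by
    rw [Complex.sq_norm, Complex.normSq_apply]
    ring
  have hA2 : (A : ℝ) ≤ 10000000000000000 * ‖q‖ ^ 2 := by
    have h8 : (A : ℝ) ≤ ((10000000000000000 * S : ℕ) : ℝ) / ((Q * Q : ℕ) : ℝ) := Nat.cast_div_le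
    refine h8.trans ?_
    have hQQ : (0 : ℝ) < ((Q * Q : ℕ) : ℝ) := by
      push_cast
      positivity
    rw [div_le_iff₀ hQQ, hS]
    push_cast
    have h10 : 10000000000000000 * ‖q‖ ^ 2 * ((Q : ℝ) * Q) =
        10000000000000000 * (‖q‖ ^ 2 * (Q : ℝ) ^ 2) := by ring
    rw [h10, h6]
    apply mul_le_mul_of_nonneg_left _ (by norm_num)
    linarith
  have hB2 : (1156000000000000 : ℝ) ≤ 10000000000000000 * ‖q‖ ^ 2 := by
    have h7 : (17 / 50 : ℝ) ^ 2 ≤ ‖q‖ ^ 2 := pow_le_pow_left₀ (by norm_num) hq 2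
    have h8 : (1156000000000000 : ℝ) = 10000000000000000 * (17 / 50) ^ 2 := by norm_num
    rw [h8]
    exact mul_le_mul_of_nonneg_left h7 (by norm_num)
  have hX2 : (X : ℝ) ≤ 10000000000000000 * ‖q‖ ^ 2 := by
    rw [hX]
    unfold maxU
    cases Nat.ble A 1156000000000000 with
    | false => rw [cond_false]; exact hA2
    | true => rw [cond_true]; push_cast; exact hB2
  have hM2 : (M : ℝ) ≤ ((lam : ℝ) / 1000) ^ 2 * (10000000000000000 * ‖q‖ ^ 2) := by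
    have h8 : (M : ℝ) ≤ ((lam * lam * X : ℕ) : ℝ) / ((1000000 : ℕ) : ℝ) := Nat.cast_div_le
    refine h8.trans ?_
    rw [div_le_iff₀ (by norm_num)]
    push_cast
    have h10 : ((lam : ℝ) / 1000) ^ 2 * (10000000000000000 * ‖q‖ ^ 2) * 1000000 =
        (lam : ℝ) * lam * (10000000000000000 * ‖q‖ ^ 2) := by ring
    rw [h10]
    exact mul_le_mul_of_nonneg_left hX2 (by positivity)
  have hD2 : ‖q‖ ^ 2 ≤ (‖q‖ + 1 / 100000) ^ 2 :=
    pow_le_pow_left₀ (norm_nonneg _) (by linarith) 2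
  have hD3 : ((lam : ℝ) / 1000) ^ 2 * (10000000000000000 * ‖q‖ ^ 2) ≤
      ((lam : ℝ) / 1000 * (‖q‖ + 1 / 100000)) ^ 2 * 10000000000000000 := by
    rw [mul_pow]
    have h11 := mul_le_mul_of_nonneg_left hD2 (by positivity : (0 : ℝ) ≤ ((lam : ℝ) / 1000) ^ 2)
    linarith
  rw [hE, div_pow, le_div_iff₀ (by norm_num)]
  have h12 : (9213304561 / 10000000000 - ((lam : ℝ) / 1000 * (‖q‖ + 1 / 100000)) ^ 2) * (100000000 : ℝ) ^ 2 =
      9213304561000000 - ((lam : ℝ) / 1000 * (‖q‖ + 1 / 100000)) ^ 2 * 10000000000000000 := by ring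
  rw [h12]
  linarith

theorem tailT_spec (md rqc PL PR wa wb : ℕ) (τR τL : ℝ) (hr : rtcT md rqc < 10000)
    (h1 : τR ≤ ((rtcT md rqc : ℝ) / 10000) ^ (PR + 1) / (1 - (rtcT md rqc : ℝ) / 10000) *
      (if md = 2 then ((rqc : ℝ) / 10000) ^ PR else 1))
    (h2 : τL ≤ ((rtcT md rqc : ℝ) / 10000) ^ (PL + 1) / (1 - (rtcT md rqc : ℝ) / 10000)) :
    (((wb : ℝ) / 100000000 + ((rqc : ℝ) / 10000) ^ (PR + 2)) * τR +
      ((wa : ℝ) / 100000000 + ((rqc : ℝ) / 10000) ^ (PL + 2)) * τL) * 100000000 ≤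
      (tailT md rqc (rtcT md rqc) PL PR wa wb : ℝ) := by
  set rtc : ℕ := rtcT md rqc with hrtc
  have g := geoU_spec rtc (PL + 1) hr
  have g' := geoU_spec rtc (PR + 1) hr
  have m1 := monUp_spec rqc 0 (PR + 2) 0
  have m2 := monUp_spec rqc 0 (PL + 2) 0
  have m3 := monUp_spec rqc 0 PR 0
  rw [pow_zero, mul_one] at m1 m2 m3
  have hrr : (rtc : ℝ) < 10000 := by exact_mod_cast hr
  have hpos : (0 : ℝ) < 1 - (rtc : ℝ) / 10000 := by
    rw [sub_pos, div_lt_one (by norm_num)]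
    exact hrr
  set G : ℕ := (bif Nat.beq md 2 then Nat.succ ((geoU rtc (PR + 1) * monUp rqc 0 PR 0) / 100000000)
        else geoU rtc (PR + 1)) with hG
  have h1' : τR * 100000000 ≤ (G : ℝ) := by
    by_cases hmd : md = 2
    · have eG : G = Nat.succ ((geoU rtc (PR + 1) * monUp rqc 0 PR 0) / 100000000) := by
        rw [hG, TWt_beq2, decide_eq_true hmd, cond_true]
      rw [eG]
      have h3 := TWt_div (geoU rtc (PR + 1) * monUp rqc 0 PR 0) 100000000 (by norm_num)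
      refine le_trans ?_ h3
      rw [le_div_iff₀ (by norm_num)]
      rw [if_pos hmd] at h1
      push_cast
      have h4 := mul_le_mul g' m3 (by positivity) (Nat.cast_nonneg (geoU rtc (PR + 1)))
      have h5 := mul_le_mul_of_nonneg_right h1 (by norm_num : (0 : ℝ) ≤ 100000000 * 100000000)
      have e5 : τR * (100000000 * 100000000) = τR * 100000000 * 100000000 := by ring
      rw [e5] at h5
      refine h5.trans (le_trans (le_of_eq ?_) h4)
      ring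
    · have eG : G = geoU rtc (PR + 1) := by
        rw [hG, TWt_beq2, decide_eq_false hmd, cond_false]
      rw [eG]
      rw [if_neg hmd, mul_one] at h1
      refine le_trans ?_ g'
      exact mul_le_mul_of_nonneg_right h1 (by norm_num)
  have e : tailT md rqc rtc PL PR wa wb = Nat.succ (((wb + monUp rqc 0 (PR + 2) 0) * G +
      (wa + monUp rqc 0 (PL + 2) 0) * geoU rtc (PL + 1)) / 100000000) := rfl
  have h3 := TWt_div ((wb + monUp rqc 0 (PR + 2) 0) * G +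
      (wa + monUp rqc 0 (PL + 2) 0) * geoU rtc (PL + 1)) 100000000 (by norm_num)
  rw [← e] at h3
  refine le_trans ?_ h3
  rw [le_div_iff₀ (by norm_num)]
  push_cast
  have h2' : τL * 100000000 ≤ ((geoU rtc (PL + 1) : ℕ) : ℝ) := by
    refine le_trans ?_ g
    exact mul_le_mul_of_nonneg_right h2 (by norm_num)
  have c1 : ((wb : ℝ) / 100000000 + ((rqc : ℝ) / 10000) ^ (PR + 2)) * 100000000 ≤
      (wb : ℝ) + ((monUp rqc 0 (PR + 2) 0 : ℕ) : ℝ) := by
    have e1 : ((wb : ℝ) / 100000000 + ((rqc : ℝ) / 10000) ^ (PR + 2)) * 100000000 =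
        (wb : ℝ) + ((rqc : ℝ) / 10000) ^ (PR + 2) * 100000000 := by ring
    rw [e1]
    linarith
  have c2 : ((wa : ℝ) / 100000000 + ((rqc : ℝ) / 10000) ^ (PL + 2)) * 100000000 ≤
      (wa : ℝ) + ((monUp rqc 0 (PL + 2) 0 : ℕ) : ℝ) := by
    have e1 : ((wa : ℝ) / 100000000 + ((rqc : ℝ) / 10000) ^ (PL + 2)) * 100000000 =
        (wa : ℝ) + ((rqc : ℝ) / 10000) ^ (PL + 2) * 100000000 := by ring
    rw [e1]
    linarith
  have c1' : 0 ≤ ((wb : ℝ) / 100000000 + ((rqc : ℝ) / 10000) ^ (PR + 2)) * 100000000 := by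
    positivity
  have c2' : 0 ≤ ((wa : ℝ) / 100000000 + ((rqc : ℝ) / 10000) ^ (PL + 2)) * 100000000 := by
    positivity
  have f1 := (mul_le_mul_of_nonneg_left h1' c1').trans
    (mul_le_mul_of_nonneg_right c1 (Nat.cast_nonneg G))
  have f2 := (mul_le_mul_of_nonneg_left h2' c2').trans
    (mul_le_mul_of_nonneg_right c2 (Nat.cast_nonneg (geoU rtc (PL + 1))))
  linarith

/-- facts from the side conditions -/
theorem sideT_spec {md c17 PL PR rqc : ℕ} (h : sideT md c17 PL PR rqc = true) :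
    rtcT md rqc < 10000 ∧ PL ≤ 33 ∧ PR ≤ 33 ∧
    (md = 2 → PR ≤ 15 ∧ (rqc : ℝ) / 10000 * 10000 ^ 17 ≤ (c17 : ℝ) ^ 17) := by
  unfold sideT at h
  rw [TWt_beq2] at h
  simp only [Bool.and_eq_true, Nat.ble_eq] at h
  obtain ⟨⟨⟨h1, h2⟩, h3⟩, h4⟩ := h
  refine ⟨h1, h2, ?_, fun hmd => ?_⟩
  · by_cases hmd : md = 2
    · rw [decide_eq_true hmd, cond_true] at h3
      omega
    · rw [decide_eq_false hmd, cond_false] at h3
      exact h3
  · rw [decide_eq_true hmd, cond_true] at h3 h4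
    refine ⟨h3, ?_⟩
    have h5 : rqc * 10000 ^ 16 ≤ c17 ^ 17 := Nat.le_of_ble_eq_true h4
    have h6 : (rqc : ℝ) * 10000 ^ 16 ≤ (c17 : ℝ) ^ 17 := by exact_mod_cast h5
    refine le_trans (le_of_eq ?_) h6
    ring

theorem rtcT_spec (md rqc : ℕ) (D : ℝ) (hD0 : 0 ≤ D) (hD : D ≤ (rqc : ℝ) / 10000) :
    (lamT md : ℝ) / 1000 * D ≤ (rtcT md rqc : ℝ) / 10000 := by
  have e : rtcT md rqc = Nat.succ ((lamT md * rqc) / 1000) := rfl
  have h1 := TWt_div (lamT md * rqc) 1000 (by norm_num)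
  rw [← e] at h1
  rw [le_div_iff₀ (by norm_num)]
  refine le_trans ?_ h1
  push_cast
  have h2 := mul_le_mul_of_nonneg_left hD (by positivity : (0 : ℝ) ≤ (lamT md : ℝ) / 1000)
  have h3 := mul_le_mul_of_nonneg_right h2 (by norm_num : (0 : ℝ) ≤ 10000)
  refine h3.trans (le_of_eq ?_)
  ring

end Pool.Agent.MaxTerm58
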