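import Pool.Agent.MaxTerm58.Leaf

/-! Soundness of the subdivision tree. Hints: in `CellF3.sq` the cell is nonempty, so `x, y >= 100000 - 4097` and the
truncated subtractions are exact (same for `sp`: `||p|| <= ||q|| + 1/100000 < 1`); otherwise the claim is trivial.
`outOK`: three cases (`||q|| < 17/50`, `||q|| > 3/4`, `||p|| > ||q|| + 1/100000`). -/

namespace Pool.Agent.MaxTerm58

private theorem TreeF3_absD (x : ℕ) : ((absD x : ℕ) : ℝ) = |(x : ℝ) - 100000| := by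
  unfold absD
  rcases le_total x 100000 with h | h
  · have h1 : Nat.add (Nat.sub x 100000) (Nat.sub 100000 x) = 100000 - x := by
      show (x - 100000) + (100000 - x) = 100000 - x
      omega
    have h2 : (x : ℝ) ≤ 100000 := by exact_mod_cast h
    rw [h1, Nat.cast_sub h, abs_of_nonpos (by linarith)]
    push_cast
    ring
  · have h1 : Nat.add (Nat.sub x 100000) (Nat.sub 100000 x) = x - 100000 := by
      show (x - 100000) + (100000 - x) = x - 100000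
      omega
    have h2 : (100000 : ℝ) ≤ x := by exact_mod_cast h
    rw [h1, Nat.cast_sub h, abs_of_nonneg (by linarith)]
    push_cast
    ring

/-- one coordinate: upper and lower bound of the square -/
private theorem TreeF3_coord (t : ℝ) (x Q : ℕ) (h : |t * Q - ((x : ℝ) - 100000)| ≤ 1) :
    (t * Q) ^ 2 ≤ (((Nat.succ (absD x)) ^ 2 : ℕ) : ℝ) ∧
      (((absD x - 1) ^ 2 : ℕ) : ℝ) ≤ (t * Q) ^ 2 := by
  have e := TreeF3_absD x
  have h1 : |t * Q| ≤ |(x : ℝ) - 100000| + 1 := by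
    have := abs_add_le (t * Q - ((x : ℝ) - 100000)) ((x : ℝ) - 100000)
    rw [sub_add_cancel] at this
    linarith
  have h2 : |(x : ℝ) - 100000| - 1 ≤ |t * Q| := by
    have := abs_add_le (((x : ℝ) - 100000) - t * Q) (t * Q)
    rw [sub_add_cancel, abs_sub_comm ((x : ℝ) - 100000) (t * Q)] at this
    linarith
  constructor
  · rw [← sq_abs (t * Q)]
    push_cast
    rw [e]
    exact pow_le_pow_left₀ (abs_nonneg _) h1 2
  · rw [← sq_abs (t * Q)]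
    push_cast
    refine pow_le_pow_left₀ (Nat.cast_nonneg _) ?_ 2
    rcases Nat.eq_zero_or_pos (absD x) with h0 | h0
    · rw [h0]
      simp only [Nat.zero_sub, Nat.cast_zero]
      exact abs_nonneg _
    · rw [Nat.cast_sub h0, e, Nat.cast_one]
      exact h2

private theorem TreeF3_norm (z : ℂ) (Q : ℕ) :
    (z.re * Q) ^ 2 + (z.im * Q) ^ 2 = ‖z‖ ^ 2 * (Q : ℝ) ^ 2 := by
  rw [Complex.sq_norm, Complex.normSq_apply]
  ring

theorem outOK_sound (x y Q u v R : ℕ) (h : outOK x y Q u v R = true) : CellF3 x y Q u v R := by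
  intro q p l r H h1 h2 hq hp
  obtain ⟨x1, x2⟩ := TreeF3_coord _ _ _ hq.1
  obtain ⟨y1, y2⟩ := TreeF3_coord _ _ _ hq.2
  obtain ⟨u1, u2⟩ := TreeF3_coord _ _ _ hp.1
  obtain ⟨v1, v2⟩ := TreeF3_coord _ _ _ hp.2
  have nq := TreeF3_norm q Q
  have np := TreeF3_norm p R
  have hQ0 : (0 : ℝ) ≤ (Q : ℝ) ^ 2 := by positivity
  have hR0 : (0 : ℝ) ≤ (R : ℝ) ^ 2 := by positivity
  have q0 := norm_nonneg q
  have p0 := norm_nonneg p
  unfold outOK at h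
  simp only [Bool.or_eq_true, Nat.blt_eq] at h
  rcases h with (h | h) | h
  · have h3 : 10000 * ((Nat.succ (absD x)) ^ 2 + (Nat.succ (absD y)) ^ 2) < 1156 * Q ^ 2 := h
    have h4 : (10000 : ℝ) * ((((Nat.succ (absD x)) ^ 2 : ℕ) : ℝ) + (((Nat.succ (absD y)) ^ 2 : ℕ) : ℝ)) <
        1156 * (Q : ℝ) ^ 2 := by exact_mod_cast h3
    have h5 : (17 / 50 : ℝ) ^ 2 ≤ ‖q‖ ^ 2 := pow_le_pow_left₀ (by norm_num) h1 2
    have h6 : (17 / 50 : ℝ) ^ 2 * (Q : ℝ) ^ 2 ≤ ‖q‖ ^ 2 * (Q : ℝ) ^ 2 :=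
      mul_le_mul_of_nonneg_right h5 hQ0
    linarith
  · have h3 : 9 * Q ^ 2 < 16 * ((absD x - 1) ^ 2 + (absD y - 1) ^ 2) := h
    have h4 : (9 : ℝ) * (Q : ℝ) ^ 2 <
        16 * ((((absD x - 1) ^ 2 : ℕ) : ℝ) + (((absD y - 1) ^ 2 : ℕ) : ℝ)) := by exact_mod_cast h3
    have h5 : ‖q‖ ^ 2 ≤ (3 / 4 : ℝ) ^ 2 := pow_le_pow_left₀ q0 h2 2
    have h6 : ‖q‖ ^ 2 * (Q : ℝ) ^ 2 ≤ (3 / 4 : ℝ) ^ 2 * (Q : ℝ) ^ 2 :=
      mul_le_mul_of_nonneg_right h5 hQ0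
    linarith
  · have h3 : 100000 * (((Nat.succ (absD x)) ^ 2 + (Nat.succ (absD y)) ^ 2) * R ^ 2) +
        3 * (Q ^ 2 * R ^ 2) < 100000 * (((absD u - 1) ^ 2 + (absD v - 1) ^ 2) * Q ^ 2) := h
    have h4 : (100000 : ℝ) * (((((Nat.succ (absD x)) ^ 2 : ℕ) : ℝ) +
        (((Nat.succ (absD y)) ^ 2 : ℕ) : ℝ)) * (R : ℝ) ^ 2) + 3 * ((Q : ℝ) ^ 2 * (R : ℝ) ^ 2) <
        100000 * (((((absD u - 1) ^ 2 : ℕ) : ℝ) + (((absD v - 1) ^ 2 : ℕ) : ℝ)) * (Q : ℝ) ^ 2) := by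
      exact_mod_cast h3
    have h5 : ‖p‖ ^ 2 ≤ ‖q‖ ^ 2 + 3 / 100000 := by
      have := pow_le_pow_left₀ p0 H.p_le 2
      nlinarith
    have a1 : ‖q‖ ^ 2 * (Q : ℝ) ^ 2 ≤ (((Nat.succ (absD x)) ^ 2 : ℕ) : ℝ) +
        (((Nat.succ (absD y)) ^ 2 : ℕ) : ℝ) := by rw [← nq]; linarith
    have a2 : (((absD u - 1) ^ 2 : ℕ) : ℝ) + (((absD v - 1) ^ 2 : ℕ) : ℝ) ≤
        ‖p‖ ^ 2 * (R : ℝ) ^ 2 := by rw [← np]; linarith
    have b1 := mul_le_mul_of_nonneg_right a1 hR0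
    have b2 := mul_le_mul_of_nonneg_right a2 hQ0
    have b3 := mul_le_mul_of_nonneg_right h5 (mul_nonneg hQ0 hR0)
    nlinarith

/-- the offset coordinate of a nonempty cell is large -/
private theorem TreeF3_large (t : ℝ) (x Q : ℕ) (ht : |t| ≤ 1) (hQ : Q ≤ 4096)
    (h : |t * Q - ((x : ℝ) - 100000)| ≤ 1) : 60000 ≤ x := by
  have hQ' : (Q : ℝ) ≤ 4096 := by exact_mod_cast hQ
  have h0 : (0 : ℝ) ≤ Q := Nat.cast_nonneg _
  have h1 : |t * Q| ≤ 4096 := by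
    rw [abs_mul, abs_of_nonneg h0]
    nlinarith [abs_nonneg t]
  have h2 := abs_le.1 h1
  have h3 := abs_le.1 h
  have : (60000 : ℝ) ≤ x := by linarith
  exact_mod_cast this

private theorem TreeF3_cast1 (x : ℕ) (hx : 60000 ≤ x) :
    (((Nat.sub (Nat.mul 2 x) 100001) : ℕ) : ℝ) = 2 * x - 100001 := by
  show ((2 * x - 100001 : ℕ) : ℝ) = 2 * x - 100001
  rw [Nat.cast_sub (by omega)]
  push_cast
  ring

private theorem TreeF3_cast2 (x : ℕ) (hx : 60000 ≤ x) :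
    (((Nat.sub (Nat.mul 2 x) 99999) : ℕ) : ℝ) = 2 * x - 99999 := by
  show ((2 * x - 99999 : ℕ) : ℝ) = 2 * x - 99999
  rw [Nat.cast_sub (by omega)]
  push_cast
  ring

/-- halving one coordinate -/
private theorem TreeF3_split (t : ℝ) (x Q : ℕ) (ht : |t| ≤ 1) (hQ : Q ≤ 4096)
    (h : |t * Q - ((x : ℝ) - 100000)| ≤ 1) :
    |t * ((Nat.mul 2 Q : ℕ) : ℝ) - ((((Nat.sub (Nat.mul 2 x) 100001) : ℕ) : ℝ) - 100000)| ≤ 1 ∨
    |t * ((Nat.mul 2 Q : ℕ) : ℝ) - ((((Nat.sub (Nat.mul 2 x) 99999) : ℕ) : ℝ) - 100000)| ≤ 1 := by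
  have hx := TreeF3_large t x Q ht hQ h
  rw [TreeF3_cast1 x hx, TreeF3_cast2 x hx]
  have e : ((Nat.mul 2 Q : ℕ) : ℝ) = 2 * Q := by
    show ((2 * Q : ℕ) : ℝ) = 2 * Q
    push_cast
    ring
  rw [e]
  have h3 := abs_le.1 h
  rcases le_total (t * Q - ((x : ℝ) - 100000)) 0 with h0 | h0
  · left
    rw [abs_le]
    constructor <;> linarith
  · right
    rw [abs_le]
    constructor <;> linarith

/-- subdivision of the square of `q` -/
theorem CellF3.sq {x y Q u v R : ℕ} (hQ : Q ≤ 4096)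
    (h1 : CellF3 (Nat.sub (Nat.mul 2 x) 100001) (Nat.sub (Nat.mul 2 y) 100001) (Nat.mul 2 Q) u v R)
    (h2 : CellF3 (Nat.sub (Nat.mul 2 x) 99999) (Nat.sub (Nat.mul 2 y) 100001) (Nat.mul 2 Q) u v R)
    (h3 : CellF3 (Nat.sub (Nat.mul 2 x) 100001) (Nat.sub (Nat.mul 2 y) 99999) (Nat.mul 2 Q) u v R)
    (h4 : CellF3 (Nat.sub (Nat.mul 2 x) 99999) (Nat.sub (Nat.mul 2 y) 99999) (Nat.mul 2 Q) u v R) :
    CellF3 x y Q u v R := by
  intro q p l r H a1 a2 hq hp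
  have n1 : |q.re| ≤ 1 := (Complex.abs_re_le_norm q).trans (by linarith)
  have n2 : |q.im| ≤ 1 := (Complex.abs_im_le_norm q).trans (by linarith)
  rcases TreeF3_split _ _ _ n1 hQ hq.1 with b | b <;>
    rcases TreeF3_split _ _ _ n2 hQ hq.2 with c | c
  · exact h1 q p l r H a1 a2 ⟨b, c⟩ hp
  · exact h3 q p l r H a1 a2 ⟨b, c⟩ hp
  · exact h2 q p l r H a1 a2 ⟨b, c⟩ hp
  · exact h4 q p l r H a1 a2 ⟨b, c⟩ hp

private theorem TreeF3_p {q p : ℂ} {l r : ℕ → ℂ} (H : HypF3 q p l r) : ‖p‖ ≤ 1 :=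
  H.p_le.trans H.q_lt.le

/-- subdivision of the square of `p` -/
theorem CellF3.sp {x y Q u v R : ℕ} (hR : R ≤ 4096)
    (h1 : CellF3 x y Q (Nat.sub (Nat.mul 2 u) 100001) (Nat.sub (Nat.mul 2 v) 100001) (Nat.mul 2 R))
    (h2 : CellF3 x y Q (Nat.sub (Nat.mul 2 u) 99999) (Nat.sub (Nat.mul 2 v) 100001) (Nat.mul 2 R))
    (h3 : CellF3 x y Q (Nat.sub (Nat.mul 2 u) 100001) (Nat.sub (Nat.mul 2 v) 99999) (Nat.mul 2 R))
    (h4 : CellF3 x y Q (Nat.sub (Nat.mul 2 u) 99999) (Nat.sub (Nat.mul 2 v) 99999) (Nat.mul 2 R)) :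
    CellF3 x y Q u v R := by
  intro q p l r H a1 a2 hq hp
  have n1 : |p.re| ≤ 1 := (Complex.abs_re_le_norm p).trans (TreeF3_p H)
  have n2 : |p.im| ≤ 1 := (Complex.abs_im_le_norm p).trans (TreeF3_p H)
  rcases TreeF3_split _ _ _ n1 hR hp.1 with b | b <;>
    rcases TreeF3_split _ _ _ n2 hR hp.2 with c | c
  · exact h1 q p l r H a1 a2 hq ⟨b, c⟩
  · exact h3 q p l r H a1 a2 hq ⟨b, c⟩
  · exact h2 q p l r H a1 a2 hq ⟨b, c⟩
  · exact h4 q p l r H a1 a2 hq ⟨b, c⟩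

/-- soundness of the tree -/
theorem T3_sound (t : T3) : ∀ x y Q u v R : ℕ, T3.chk t x y Q u v R = true → CellF3 x y Q u v R := by
  induction t with
  | lf P I0 a b c =>
    intro x y Q u v R h
    rw [T3.chk] at h
    exact checkF3_sound x y Q u v R P I0 a b c h
  | out =>
    intro x y Q u v R h
    rw [T3.chk] at h
    exact outOK_sound x y Q u v R h
  | sq t1 t2 t3 t4 i1 i2 i3 i4 =>
    intro x y Q u v R h
    rw [T3.chk] at h
    simp only [Bool.and_eq_true, Nat.ble_eq] at h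
    obtain ⟨⟨⟨⟨h0, h1⟩, h2⟩, h3⟩, h4⟩ := h
    exact CellF3.sq h0 (i1 _ _ _ _ _ _ h1) (i2 _ _ _ _ _ _ h2) (i3 _ _ _ _ _ _ h3)
      (i4 _ _ _ _ _ _ h4)
  | sp t1 t2 t3 t4 i1 i2 i3 i4 =>
    intro x y Q u v R h
    rw [T3.chk] at h
    simp only [Bool.and_eq_true, Nat.ble_eq] at h
    obtain ⟨⟨⟨⟨h0, h1⟩, h2⟩, h3⟩, h4⟩ := h
    exact CellF3.sp h0 (i1 _ _ _ _ _ _ h1) (i2 _ _ _ _ _ _ h2) (i3 _ _ _ _ _ _ h3)
      (i4 _ _ _ _ _ _ h4)

/-- no matched configuration with `q` in the square -/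
def SquareF3 (x y Q : ℕ) : Prop :=
  ∀ q p l r, HypF3 q p l r → 17 / 50 ≤ ‖q‖ → ‖q‖ ≤ 3 / 4 → InSq q x y Q → False

theorem square_of_chk (t : T3) (x y Q : ℕ) (h : T3.chk t x y Q 100000 100000 1 = true) :
    SquareF3 x y Q := by
  intro q p l r H a1 a2 hq
  refine T3_sound t x y Q 100000 100000 1 h q p l r H a1 a2 hq ?_
  have n1 : |p.re| ≤ 1 := (Complex.abs_re_le_norm p).trans (TreeF3_p H)
  have n2 : |p.im| ≤ 1 := (Complex.abs_im_le_norm p).trans (TreeF3_p H)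
  constructor
  · simpa using n1
  · simpa using n2

private theorem TreeF3_gA (q p : ℂ) (l r : ℕ → ℂ) (z : ℂ) :
    gA ((starRingEnd ℂ) q) ((starRingEnd ℂ) p) (fun i => (starRingEnd ℂ) (l i))
      (fun i => (starRingEnd ℂ) (r i)) z = (starRingEnd ℂ) (gA q p l r ((starRingEnd ℂ) z)) := by
  unfold gA
  simp only [map_add, map_mul, map_pow, map_zpow₀, map_one, Complex.conj_tsum, Complex.conj_conj]

private theorem TreeF3_gB (q p : ℂ) (l r : ℕ → ℂ) (z : ℂ) :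
    gB ((starRingEnd ℂ) q) ((starRingEnd ℂ) p) (fun i => (starRingEnd ℂ) (l i))
      (fun i => (starRingEnd ℂ) (r i)) z = (starRingEnd ℂ) (gB q p l r ((starRingEnd ℂ) z)) := by
  unfold gB
  simp only [map_add, map_mul, map_pow, map_zpow₀, map_one, Complex.conj_tsum, Complex.conj_conj]

private theorem TreeF3_gC (q p : ℂ) (l r : ℕ → ℂ) (z : ℂ) :
    gC ((starRingEnd ℂ) q) ((starRingEnd ℂ) p) (fun i => (starRingEnd ℂ) (l i))
      (fun i => (starRingEnd ℂ) (r i)) z = (starRingEnd ℂ) (gC q p l r ((starRingEnd ℂ) z)) := by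
  unfold gC
  simp only [map_add, map_mul, map_pow, map_zpow₀, Complex.conj_tsum, Complex.conj_conj]

private theorem TreeF3_norm_conj (z : ℂ) : ‖(starRingEnd ℂ) z‖ = ‖z‖ := RCLike.norm_conj z

/-- conjugation symmetry -/
theorem HypF3.conj {q p : ℂ} {l r : ℕ → ℂ} (H : HypF3 q p l r) :
    HypF3 ((starRingEnd ℂ) q) ((starRingEnd ℂ) p) (fun i => (starRingEnd ℂ) (l i))
      (fun i => (starRingEnd ℂ) (r i)) where
  q_lt := by
    rw [TreeF3_norm_conj]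
    exact H.q_lt
  p_le := by
    rw [TreeF3_norm_conj, TreeF3_norm_conj]
    exact H.p_le
  sl := fun i => by
    rw [TreeF3_norm_conj, TreeF3_norm_conj]
    exact H.sl i
  sr := fun i => by
    rw [TreeF3_norm_conj, TreeF3_norm_conj]
    exact H.sr i
  bA := fun z hz => by
    rw [TreeF3_gA, TreeF3_norm_conj]
    exact H.bA _ (by rw [TreeF3_norm_conj]; exact hz)
  bB := fun z hz => by
    rw [TreeF3_gB, TreeF3_norm_conj]
    exact H.bB _ (by rw [TreeF3_norm_conj]; exact hz)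
  bC := fun z hz => by
    rw [TreeF3_gC, TreeF3_norm_conj]
    exact H.bC _ (by rw [TreeF3_norm_conj]; exact hz)

end Pool.Agent.MaxTerm58
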