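import Pool.Agent.MaxTerm58.LeafS

/-! Soundness of the tree, symmetries. Model: `TreeF3.lean`. -/

namespace Pool.Agent.MaxTerm58

private theorem TreeS_absD (x : ℕ) : ((absD x : ℕ) : ℝ) = |(x : ℝ) - 100000| := by
  unfold absD
  rcases le_total x 100000 with h | h
  · have h1 : Nat.add (Nat.sub x 100000) (Nat.sub 100000 x) = 100000 - x := by
      show (x - 100000) + (100000 - x) = 100000 - x
      omega
    have h2 : (x : ℝ) ≤ 100000 := by exact_mod_cast h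
    rw [h1, Nat.cast_sub h, abs_of_nonpos (by linarith)]
    push_cast
    ring
  · have h1 : Nat.add (Nat.sub x 100000) (Nat.sub 100000 x) = x - 100000 := by
      show (x - 100000) + (100000 - x) = x - 100000
      omega
    have h2 : (100000 : ℝ) ≤ x := by exact_mod_cast h
    rw [h1, Nat.cast_sub h, abs_of_nonneg (by linarith)]
    push_cast
    ring

/-- one coordinate: upper and lower bound of the square -/
private theorem TreeS_coord (t : ℝ) (x Q : ℕ) (h : |t * Q - ((x : ℝ) - 100000)| ≤ 1) :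
    (t * Q) ^ 2 ≤ (((Nat.succ (absD x)) ^ 2 : ℕ) : ℝ) ∧
      (((absD x - 1) ^ 2 : ℕ) : ℝ) ≤ (t * Q) ^ 2 := by
  have e := TreeS_absD x
  have h1 : |t * Q| ≤ |(x : ℝ) - 100000| + 1 := by
    have := abs_add_le (t * Q - ((x : ℝ) - 100000)) ((x : ℝ) - 100000)
    rw [sub_add_cancel] at this
    linarith
  have h2 : |(x : ℝ) - 100000| - 1 ≤ |t * Q| := by
    have := abs_add_le (((x : ℝ) - 100000) - t * Q) (t * Q)
    rw [sub_add_cancel, abs_sub_comm ((x : ℝ) - 100000) (t * Q)] at this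
    linarith
  constructor
  · rw [← sq_abs (t * Q)]
    push_cast
    rw [e]
    exact pow_le_pow_left₀ (abs_nonneg _) h1 2
  · rw [← sq_abs (t * Q)]
    push_cast
    refine pow_le_pow_left₀ (Nat.cast_nonneg _) ?_ 2
    rcases Nat.eq_zero_or_pos (absD x) with h0 | h0
    · rw [h0]
      simp only [Nat.zero_sub, Nat.cast_zero]
      exact abs_nonneg _
    · rw [Nat.cast_sub h0, e, Nat.cast_one]
      exact h2

private theorem TreeS_norm (z : ℂ) (Q : ℕ) :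
    (z.re * Q) ^ 2 + (z.im * Q) ^ 2 = ‖z‖ ^ 2 * (Q : ℝ) ^ 2 := by
  rw [Complex.sq_norm, Complex.normSq_apply]
  ring

/-- the offset coordinate of a nonempty cell is large -/
private theorem TreeS_large (t : ℝ) (x Q : ℕ) (ht : |t| ≤ 1) (hQ : Q ≤ 4096)
    (h : |t * Q - ((x : ℝ) - 100000)| ≤ 1) : 60000 ≤ x := by
  have hQ' : (Q : ℝ) ≤ 4096 := by exact_mod_cast hQ
  have h0 : (0 : ℝ) ≤ Q := Nat.cast_nonneg _
  have h1 : |t * Q| ≤ 4096 := by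
    rw [abs_mul, abs_of_nonneg h0]
    nlinarith [abs_nonneg t]
  have h2 := abs_le.1 h1
  have h3 := abs_le.1 h
  have : (60000 : ℝ) ≤ x := by linarith
  exact_mod_cast this

private theorem TreeS_cast1 (x : ℕ) (hx : 60000 ≤ x) :
    (((Nat.sub (Nat.mul 2 x) 100001) : ℕ) : ℝ) = 2 * x - 100001 := by
  show ((2 * x - 100001 : ℕ) : ℝ) = 2 * x - 100001
  rw [Nat.cast_sub (by omega)]
  push_cast
  ring

private theorem TreeS_cast2 (x : ℕ) (hx : 60000 ≤ x) :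
    (((Nat.sub (Nat.mul 2 x) 99999) : ℕ) : ℝ) = 2 * x - 99999 := by
  show ((2 * x - 99999 : ℕ) : ℝ) = 2 * x - 99999
  rw [Nat.cast_sub (by omega)]
  push_cast
  ring

/-- halving one coordinate -/
private theorem TreeS_split (t : ℝ) (x Q : ℕ) (ht : |t| ≤ 1) (hQ : Q ≤ 4096)
    (h : |t * Q - ((x : ℝ) - 100000)| ≤ 1) :
    |t * ((Nat.mul 2 Q : ℕ) : ℝ) - ((((Nat.sub (Nat.mul 2 x) 100001) : ℕ) : ℝ) - 100000)| ≤ 1 ∨
    |t * ((Nat.mul 2 Q : ℕ) : ℝ) - ((((Nat.sub (Nat.mul 2 x) 99999) : ℕ) : ℝ) - 100000)| ≤ 1 := by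
  have hx := TreeS_large t x Q ht hQ h
  rw [TreeS_cast1 x hx, TreeS_cast2 x hx]
  have e : ((Nat.mul 2 Q : ℕ) : ℝ) = 2 * Q := by
    show ((2 * Q : ℕ) : ℝ) = 2 * Q
    push_cast
    ring
  rw [e]
  have h3 := abs_le.1 h
  rcases le_total (t * Q - ((x : ℝ) - 100000)) 0 with h0 | h0
  · left
    rw [abs_le]
    constructor <;> linarith
  · right
    rw [abs_le]
    constructor <;> linarith

private theorem TreeS_norm_conj (z : ℂ) : ‖(starRingEnd ℂ) z‖ = ‖z‖ := RCLike.norm_conj z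


private theorem TreeS_out (x y Q u v R : ℕ) (h : outS x y Q u v R = true) {q t r1 : ℂ}
    {l r : ℕ → ℂ} (H : HypS0 q t r1 l r) (h1 : 17 / 50 ≤ ‖q‖) (h2 : ‖q‖ ≤ 3 / 4)
    (hq : InSq q x y Q) (hp : InSq t u v R) : False := by
  obtain ⟨x1, x2⟩ := TreeS_coord _ _ _ hq.1
  obtain ⟨y1, y2⟩ := TreeS_coord _ _ _ hq.2
  obtain ⟨u1, u2⟩ := TreeS_coord _ _ _ hp.1
  obtain ⟨v1, v2⟩ := TreeS_coord _ _ _ hp.2
  have nq := TreeS_norm q Q
  have np := TreeS_norm t R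
  have hQ0 : (0 : ℝ) ≤ (Q : ℝ) ^ 2 := by positivity
  have hR0 : (0 : ℝ) ≤ (R : ℝ) ^ 2 := by positivity
  have q0 := norm_nonneg q
  have p0 := norm_nonneg t
  unfold outS at h
  simp only [Bool.or_eq_true, Nat.blt_eq] at h
  rcases h with (h | h) | h
  · have h3 : 10000 * ((Nat.succ (absD x)) ^ 2 + (Nat.succ (absD y)) ^ 2) < 1156 * Q ^ 2 := h
    have h4 : (10000 : ℝ) * ((((Nat.succ (absD x)) ^ 2 : ℕ) : ℝ) + (((Nat.succ (absD y)) ^ 2 : ℕ) : ℝ)) <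
        1156 * (Q : ℝ) ^ 2 := by exact_mod_cast h3
    have h5 : (17 / 50 : ℝ) ^ 2 ≤ ‖q‖ ^ 2 := pow_le_pow_left₀ (by norm_num) h1 2
    have h6 : (17 / 50 : ℝ) ^ 2 * (Q : ℝ) ^ 2 ≤ ‖q‖ ^ 2 * (Q : ℝ) ^ 2 :=
      mul_le_mul_of_nonneg_right h5 hQ0
    linarith
  · have h3 : 9 * Q ^ 2 < 16 * ((absD x - 1) ^ 2 + (absD y - 1) ^ 2) := h
    have h4 : (9 : ℝ) * (Q : ℝ) ^ 2 <
        16 * ((((absD x - 1) ^ 2 : ℕ) : ℝ) + (((absD y - 1) ^ 2 : ℕ) : ℝ)) := by exact_mod_cast h3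
    have h5 : ‖q‖ ^ 2 ≤ (3 / 4 : ℝ) ^ 2 := pow_le_pow_left₀ q0 h2 2
    have h6 : ‖q‖ ^ 2 * (Q : ℝ) ^ 2 ≤ (3 / 4 : ℝ) ^ 2 * (Q : ℝ) ^ 2 :=
      mul_le_mul_of_nonneg_right h5 hQ0
    linarith
  · have h3 : 81000 * (((Nat.succ (absD x)) ^ 2 + (Nat.succ (absD y)) ^ 2) * R ^ 2) +
        2 * (Q ^ 2 * R ^ 2) < 100000 * (((absD u - 1) ^ 2 + (absD v - 1) ^ 2) * Q ^ 2) := h
    have h4 : (81000 : ℝ) * (((((Nat.succ (absD x)) ^ 2 : ℕ) : ℝ) +
        (((Nat.succ (absD y)) ^ 2 : ℕ) : ℝ)) * (R : ℝ) ^ 2) + 2 * ((Q : ℝ) ^ 2 * (R : ℝ) ^ 2) <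
        100000 * (((((absD u - 1) ^ 2 : ℕ) : ℝ) + (((absD v - 1) ^ 2 : ℕ) : ℝ)) * (Q : ℝ) ^ 2) := by
      exact_mod_cast h3
    have h5 : ‖t‖ ^ 2 ≤ 81 / 100 * ‖q‖ ^ 2 + 2 / 100000 := by
      have := pow_le_pow_left₀ p0 H.t_le 2
      nlinarith
    have a1 : ‖q‖ ^ 2 * (Q : ℝ) ^ 2 ≤ (((Nat.succ (absD x)) ^ 2 : ℕ) : ℝ) +
        (((Nat.succ (absD y)) ^ 2 : ℕ) : ℝ) := by rw [← nq]; linarith
    have a2 : (((absD u - 1) ^ 2 : ℕ) : ℝ) + (((absD v - 1) ^ 2 : ℕ) : ℝ) ≤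
        ‖t‖ ^ 2 * (R : ℝ) ^ 2 := by rw [← np]; linarith
    have b1 := mul_le_mul_of_nonneg_right a1 hR0
    have b2 := mul_le_mul_of_nonneg_right a2 hQ0
    have b3 := mul_le_mul_of_nonneg_right h5 (mul_nonneg hQ0 hR0)
    nlinarith

theorem outS_sound (x y Q u v R : ℕ) (h : outS x y Q u v R = true) :
    CellSA x y Q u v R ∧ CellSB x y Q u v R :=
  ⟨fun _ _ _ _ _ H h1 h2 hq hp => TreeS_out x y Q u v R h H.toHypS0 h1 h2 hq hp,
    fun _ _ _ _ _ H h1 h2 hq hp => TreeS_out x y Q u v R h H.toHypS0 h1 h2 hq hp⟩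

private theorem TreeS_t {q t r1 : ℂ} {l r : ℕ → ℂ} (H : HypS0 q t r1 l r) : ‖t‖ ≤ 1 := by
  have h1 := H.t_le
  have h2 := H.q_lt
  have h3 := norm_nonneg q
  linarith

/-- subdivision of the square of `q` -/
private theorem TreeS_sq {F : ℂ → ℂ → Prop} {x y Q u v R : ℕ} (hQ : Q ≤ 4096)
    (hF : ∀ q t, F q t → ‖q‖ ≤ 1)
    (h1 : ∀ q t, F q t → InSq q (Nat.sub (Nat.mul 2 x) 100001) (Nat.sub (Nat.mul 2 y) 100001)
      (Nat.mul 2 Q) → InSq t u v R → False)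
    (h2 : ∀ q t, F q t → InSq q (Nat.sub (Nat.mul 2 x) 99999) (Nat.sub (Nat.mul 2 y) 100001)
      (Nat.mul 2 Q) → InSq t u v R → False)
    (h3 : ∀ q t, F q t → InSq q (Nat.sub (Nat.mul 2 x) 100001) (Nat.sub (Nat.mul 2 y) 99999)
      (Nat.mul 2 Q) → InSq t u v R → False)
    (h4 : ∀ q t, F q t → InSq q (Nat.sub (Nat.mul 2 x) 99999) (Nat.sub (Nat.mul 2 y) 99999)
      (Nat.mul 2 Q) → InSq t u v R → False) :
    ∀ q t, F q t → InSq q x y Q → InSq t u v R → False := by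
  intro q p H hq hp
  have n1 : |q.re| ≤ 1 := (Complex.abs_re_le_norm q).trans (hF q p H)
  have n2 : |q.im| ≤ 1 := (Complex.abs_im_le_norm q).trans (hF q p H)
  rcases TreeS_split _ _ _ n1 hQ hq.1 with b | b <;>
    rcases TreeS_split _ _ _ n2 hQ hq.2 with c | c
  · exact h1 q p H ⟨b, c⟩ hp
  · exact h3 q p H ⟨b, c⟩ hp
  · exact h2 q p H ⟨b, c⟩ hp
  · exact h4 q p H ⟨b, c⟩ hp

/-- subdivision of the square of `t` -/
private theorem TreeS_sp {F : ℂ → ℂ → Prop} {x y Q u v R : ℕ} (hR : R ≤ 4096)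
    (hF : ∀ q t, F q t → ‖t‖ ≤ 1)
    (h1 : ∀ q t, F q t → InSq q x y Q → InSq t (Nat.sub (Nat.mul 2 u) 100001)
      (Nat.sub (Nat.mul 2 v) 100001) (Nat.mul 2 R) → False)
    (h2 : ∀ q t, F q t → InSq q x y Q → InSq t (Nat.sub (Nat.mul 2 u) 99999)
      (Nat.sub (Nat.mul 2 v) 100001) (Nat.mul 2 R) → False)
    (h3 : ∀ q t, F q t → InSq q x y Q → InSq t (Nat.sub (Nat.mul 2 u) 100001)
      (Nat.sub (Nat.mul 2 v) 99999) (Nat.mul 2 R) → False)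
    (h4 : ∀ q t, F q t → InSq q x y Q → InSq t (Nat.sub (Nat.mul 2 u) 99999)
      (Nat.sub (Nat.mul 2 v) 99999) (Nat.mul 2 R) → False) :
    ∀ q t, F q t → InSq q x y Q → InSq t u v R → False := by
  intro q p H hq hp
  have n1 : |p.re| ≤ 1 := (Complex.abs_re_le_norm p).trans (hF q p H)
  have n2 : |p.im| ≤ 1 := (Complex.abs_im_le_norm p).trans (hF q p H)
  rcases TreeS_split _ _ _ n1 hR hp.1 with b | b <;>
    rcases TreeS_split _ _ _ n2 hR hp.2 with c | c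
  · exact h1 q p H hq ⟨b, c⟩
  · exact h3 q p H hq ⟨b, c⟩
  · exact h2 q p H hq ⟨b, c⟩
  · exact h4 q p H hq ⟨b, c⟩

private def TreeS_FA (q t : ℂ) : Prop :=
  ∃ r1 l r, HypSA q t r1 l r ∧ 17 / 50 ≤ ‖q‖ ∧ ‖q‖ ≤ 3 / 4

private def TreeS_FB (q t : ℂ) : Prop :=
  ∃ r1 l r, HypSB q t r1 l r ∧ 17 / 50 ≤ ‖q‖ ∧ ‖q‖ ≤ 3 / 4

private theorem TreeS_cellA (x y Q u v R : ℕ) : CellSA x y Q u v R ↔
    ∀ q t, TreeS_FA q t → InSq q x y Q → InSq t u v R → False := by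
  constructor
  · rintro h q t ⟨r1, l, r, H, h1, h2⟩ hq ht
    exact h q t r1 l r H h1 h2 hq ht
  · intro h q t r1 l r H h1 h2 hq ht
    exact h q t ⟨r1, l, r, H, h1, h2⟩ hq ht

private theorem TreeS_cellB (x y Q u v R : ℕ) : CellSB x y Q u v R ↔
    ∀ q t, TreeS_FB q t → InSq q x y Q → InSq t u v R → False := by
  constructor
  · rintro h q t ⟨r1, l, r, H, h1, h2⟩ hq ht
    exact h q t r1 l r H h1 h2 hq ht
  · intro h q t r1 l r H h1 h2 hq ht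
    exact h q t ⟨r1, l, r, H, h1, h2⟩ hq ht

private theorem TreeS_FAq (q t : ℂ) (h : TreeS_FA q t) : ‖q‖ ≤ 1 := by
  obtain ⟨r1, l, r, H, h1, h2⟩ := h
  linarith

private theorem TreeS_FBq (q t : ℂ) (h : TreeS_FB q t) : ‖q‖ ≤ 1 := by
  obtain ⟨r1, l, r, H, h1, h2⟩ := h
  linarith

private theorem TreeS_FAt (q t : ℂ) (h : TreeS_FA q t) : ‖t‖ ≤ 1 := by
  obtain ⟨r1, l, r, H, h1, h2⟩ := h
  exact TreeS_t H.toHypS0

private theorem TreeS_FBt (q t : ℂ) (h : TreeS_FB q t) : ‖t‖ ≤ 1 := by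
  obtain ⟨r1, l, r, H, h1, h2⟩ := h
  exact TreeS_t H.toHypS0

theorem TS_sound_A (T : TS) : ∀ x y Q u v R : ℕ, TS.chk 0 T x y Q u v R = true → CellSA x y Q u v R := by
  induction T with
  | lf md P nL nR PL PR a b c =>
    intro x y Q u v R h
    rw [TS.chk] at h
    simp only [Bool.and_eq_true] at h
    obtain ⟨h0, h1⟩ := h
    have hmd : md = 0 := by simpa using h0
    subst hmd
    exact checkS_sound_A x y Q u v R P nL nR PL PR a b c h1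
  | out =>
    intro x y Q u v R h
    rw [TS.chk] at h
    exact (outS_sound x y Q u v R h).1
  | sq t1 t2 t3 t4 i1 i2 i3 i4 =>
    intro x y Q u v R h
    rw [TS.chk] at h
    simp only [Bool.and_eq_true, Nat.ble_eq] at h
    obtain ⟨⟨⟨⟨h0, h1⟩, h2⟩, h3⟩, h4⟩ := h
    exact (TreeS_cellA _ _ _ _ _ _).2 (TreeS_sq h0 TreeS_FAq
      ((TreeS_cellA _ _ _ _ _ _).1 (i1 _ _ _ _ _ _ h1))
      ((TreeS_cellA _ _ _ _ _ _).1 (i2 _ _ _ _ _ _ h2))
      ((TreeS_cellA _ _ _ _ _ _).1 (i3 _ _ _ _ _ _ h3))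
      ((TreeS_cellA _ _ _ _ _ _).1 (i4 _ _ _ _ _ _ h4)))
  | sp t1 t2 t3 t4 i1 i2 i3 i4 =>
    intro x y Q u v R h
    rw [TS.chk] at h
    simp only [Bool.and_eq_true, Nat.ble_eq] at h
    obtain ⟨⟨⟨⟨h0, h1⟩, h2⟩, h3⟩, h4⟩ := h
    exact (TreeS_cellA _ _ _ _ _ _).2 (TreeS_sp h0 TreeS_FAt
      ((TreeS_cellA _ _ _ _ _ _).1 (i1 _ _ _ _ _ _ h1))
      ((TreeS_cellA _ _ _ _ _ _).1 (i2 _ _ _ _ _ _ h2))
      ((TreeS_cellA _ _ _ _ _ _).1 (i3 _ _ _ _ _ _ h3))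
      ((TreeS_cellA _ _ _ _ _ _).1 (i4 _ _ _ _ _ _ h4)))

theorem TS_sound_B (T : TS) : ∀ x y Q u v R : ℕ, TS.chk 1 T x y Q u v R = true → CellSB x y Q u v R := by
  induction T with
  | lf md P nL nR PL PR a b c =>
    intro x y Q u v R h
    rw [TS.chk] at h
    simp only [Bool.and_eq_true] at h
    obtain ⟨h0, h1⟩ := h
    have hmd : 1 ≤ md := by simpa using h0
    exact checkS_sound_B x y Q u v R md P nL nR PL PR a b c hmd h1
  | out =>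
    intro x y Q u v R h
    rw [TS.chk] at h
    exact (outS_sound x y Q u v R h).2
  | sq t1 t2 t3 t4 i1 i2 i3 i4 =>
    intro x y Q u v R h
    rw [TS.chk] at h
    simp only [Bool.and_eq_true, Nat.ble_eq] at h
    obtain ⟨⟨⟨⟨h0, h1⟩, h2⟩, h3⟩, h4⟩ := h
    exact (TreeS_cellB _ _ _ _ _ _).2 (TreeS_sq h0 TreeS_FBq
      ((TreeS_cellB _ _ _ _ _ _).1 (i1 _ _ _ _ _ _ h1))
      ((TreeS_cellB _ _ _ _ _ _).1 (i2 _ _ _ _ _ _ h2))
      ((TreeS_cellB _ _ _ _ _ _).1 (i3 _ _ _ _ _ _ h3))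
      ((TreeS_cellB _ _ _ _ _ _).1 (i4 _ _ _ _ _ _ h4)))
  | sp t1 t2 t3 t4 i1 i2 i3 i4 =>
    intro x y Q u v R h
    rw [TS.chk] at h
    simp only [Bool.and_eq_true, Nat.ble_eq] at h
    obtain ⟨⟨⟨⟨h0, h1⟩, h2⟩, h3⟩, h4⟩ := h
    exact (TreeS_cellB _ _ _ _ _ _).2 (TreeS_sp h0 TreeS_FBt
      ((TreeS_cellB _ _ _ _ _ _).1 (i1 _ _ _ _ _ _ h1))
      ((TreeS_cellB _ _ _ _ _ _).1 (i2 _ _ _ _ _ _ h2))
      ((TreeS_cellB _ _ _ _ _ _).1 (i3 _ _ _ _ _ _ h3))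
      ((TreeS_cellB _ _ _ _ _ _).1 (i4 _ _ _ _ _ _ h4)))

private theorem TreeS_sA (q t r1 : ℂ) (l r : ℕ → ℂ) (z : ℂ) :
    sA ((starRingEnd ℂ) q) ((starRingEnd ℂ) t) ((starRingEnd ℂ) r1) (fun i => (starRingEnd ℂ) (l i))
      (fun i => (starRingEnd ℂ) (r i)) z =
      (starRingEnd ℂ) (sA q t r1 l r ((starRingEnd ℂ) z)) := by
  unfold sA
  simp only [map_add, map_mul, map_pow, map_zpow₀, Complex.conj_tsum, Complex.conj_conj]

private theorem TreeS_sB (q t r1 : ℂ) (l r : ℕ → ℂ) (z : ℂ) :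
    sB ((starRingEnd ℂ) q) ((starRingEnd ℂ) t) ((starRingEnd ℂ) r1) (fun i => (starRingEnd ℂ) (l i))
      (fun i => (starRingEnd ℂ) (r i)) z =
      (starRingEnd ℂ) (sB q t r1 l r ((starRingEnd ℂ) z)) := by
  unfold sB
  simp only [map_add, map_mul, map_pow, map_zpow₀, map_one, Complex.conj_tsum, Complex.conj_conj]

private theorem TreeS_sC (q t r1 : ℂ) (l r : ℕ → ℂ) (z : ℂ) :
    sC ((starRingEnd ℂ) q) ((starRingEnd ℂ) t) ((starRingEnd ℂ) r1) (fun i => (starRingEnd ℂ) (l i))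
      (fun i => (starRingEnd ℂ) (r i)) z =
      (starRingEnd ℂ) (sC q t r1 l r ((starRingEnd ℂ) z)) := by
  unfold sC
  simp only [map_add, map_mul, map_pow, map_zpow₀, map_one, Complex.conj_tsum, Complex.conj_conj]

private theorem TreeS_conj0 {q t r1 : ℂ} {l r : ℕ → ℂ} (H : HypS0 q t r1 l r) :
    HypS0 ((starRingEnd ℂ) q) ((starRingEnd ℂ) t) ((starRingEnd ℂ) r1) (fun i => (starRingEnd ℂ) (l i))
      (fun i => (starRingEnd ℂ) (r i)) where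
  q_lt := by
    rw [TreeS_norm_conj]
    exact H.q_lt
  t_le := by
    rw [TreeS_norm_conj, TreeS_norm_conj]
    exact H.t_le
  sl := fun i => by
    rw [TreeS_norm_conj, TreeS_norm_conj]
    exact H.sl i
  sl0 := by
    rw [TreeS_norm_conj, TreeS_norm_conj]
    exact H.sl0
  sr1 := by
    rw [TreeS_norm_conj, TreeS_norm_conj]
    exact H.sr1
  bA := fun z hz => by
    rw [TreeS_sA, TreeS_norm_conj]
    exact H.bA _ (by rw [TreeS_norm_conj]; exact hz)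
  bB := fun z hz => by
    rw [TreeS_sB, TreeS_norm_conj]
    exact H.bB _ (by rw [TreeS_norm_conj]; exact hz)
  bC := fun z hz => by
    rw [TreeS_sC, TreeS_norm_conj]
    exact H.bC _ (by rw [TreeS_norm_conj]; exact hz)

/-- conjugation -/
theorem HypSA.conj {q t r1 : ℂ} {l r : ℕ → ℂ} (H : HypSA q t r1 l r) :
    HypSA ((starRingEnd ℂ) q) ((starRingEnd ℂ) t) ((starRingEnd ℂ) r1) (fun i => (starRingEnd ℂ) (l i))
      (fun i => (starRingEnd ℂ) (r i)) where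
  toHypS0 := TreeS_conj0 H.toHypS0
  ra := fun i hi => by
    rw [TreeS_norm_conj, TreeS_norm_conj]
    exact H.ra i hi
  ra0 := by
    rw [TreeS_norm_conj, TreeS_norm_conj]
    exact H.ra0

theorem HypSB.conj {q t r1 : ℂ} {l r : ℕ → ℂ} (H : HypSB q t r1 l r) :
    HypSB ((starRingEnd ℂ) q) ((starRingEnd ℂ) t) ((starRingEnd ℂ) r1) (fun i => (starRingEnd ℂ) (l i))
      (fun i => (starRingEnd ℂ) (r i)) where
  toHypS0 := TreeS_conj0 H.toHypS0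
  rb := fun i => by
    rw [TreeS_norm_conj, TreeS_norm_conj]
    exact H.rb i
  ball := by
    obtain ⟨u, hu, hb⟩ := H.ball
    refine ⟨u, hu, fun s hs => ?_⟩
    simp only [TreeS_norm_conj]
    exact hb s hs

private theorem TreeS_neg_norm (i : ℕ) (z : ℂ) : ‖(-1) ^ (i + 3) * z‖ = ‖z‖ := by
  rw [norm_mul, norm_pow, norm_neg, norm_one, one_pow, one_mul]

private theorem TreeS_sgn (i : ℕ) : ((-1 : ℂ) ^ (i + 3)) * (-1) ^ (i + 3) = 1 := by
  rw [← mul_pow]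
  norm_num

private theorem TreeS_negA (q t r1 : ℂ) (l r : ℕ → ℂ) (z : ℂ) :
    sA q (-t) (-r1) l (fun i => (-1) ^ (i + 3) * r i) z = sA q t r1 l r z := by
  unfold sA
  have e : ∀ i : ℕ, (-1) ^ (i + 3) * r i * (q ^ (i + 4) * (-t) ^ (i + 3)) * z ^ ((i : ℤ) + 3) =
      r i * (q ^ (i + 4) * t ^ (i + 3)) * z ^ ((i : ℤ) + 3) := by
    intro i
    rw [neg_pow t (i + 3)]
    linear_combination (r i * q ^ (i + 4) * t ^ (i + 3) * z ^ ((i : ℤ) + 3)) * TreeS_sgn i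
  simp only [e]
  ring

private theorem TreeS_negB (q t r1 : ℂ) (l r : ℕ → ℂ) (z : ℂ) :
    sB q (-t) (-r1) l (fun i => (-1) ^ (i + 3) * r i) z = sB q t r1 l r z := by
  unfold sB
  have e : ∀ i : ℕ, (-1) ^ (i + 3) * r i * (-t) ^ (i + 3) * z ^ ((i : ℤ) + 3) =
      r i * t ^ (i + 3) * z ^ ((i : ℤ) + 3) := by
    intro i
    rw [neg_pow t (i + 3)]
    linear_combination (r i * t ^ (i + 3) * z ^ ((i : ℤ) + 3)) * TreeS_sgn i
  simp only [e]
  ring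

private theorem TreeS_negC (q t r1 : ℂ) (l r : ℕ → ℂ) (z : ℂ) :
    sC q (-t) (-r1) l (fun i => (-1) ^ (i + 3) * r i) z = sC q t r1 l r (-z) := by
  unfold sC
  have e0 : ∀ i : ℕ, (-z) ^ ((i : ℤ) + 3) = (-1) ^ (i + 3) * z ^ ((i : ℤ) + 3) := by
    intro i
    have : ((i : ℤ) + 3) = ((i + 3 : ℕ) : ℤ) := by push_cast; ring
    rw [this, zpow_natCast, zpow_natCast, neg_pow]
  have e1 : ∀ i : ℕ, (-z) ^ (-((i : ℤ) + 3)) = (-1) ^ (i + 3) * z ^ (-((i : ℤ) + 3)) := by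
    intro i
    have : ((i : ℤ) + 3) = ((i + 3 : ℕ) : ℤ) := by push_cast; ring
    rw [this, zpow_neg, zpow_neg, zpow_natCast, zpow_natCast, neg_pow z, mul_inv, ← inv_pow]
    norm_num
  have e2 : (-z) ^ (-2 : ℤ) = z ^ (-2 : ℤ) := by
    rw [zpow_neg, zpow_neg]
    norm_cast
    rw [neg_sq]
  have e3 : (-z) ^ (-1 : ℤ) = -z ^ (-1 : ℤ) := by
    rw [zpow_neg_one, zpow_neg_one, inv_neg]
  simp only [e0, e1]
  rw [e2, e3]
  have e4 : ∀ i : ℕ, l i * (q ^ (i + 2) * (-t) ^ (i + 3)) * z ^ (-((i : ℤ) + 3)) =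
      l i * (q ^ (i + 2) * t ^ (i + 3)) * ((-1) ^ (i + 3) * z ^ (-((i : ℤ) + 3))) := by
    intro i
    rw [neg_pow t (i + 3)]
    ring
  have e5 : ∀ i : ℕ, (-1) ^ (i + 3) * r i * z ^ ((i : ℤ) + 3) =
      r i * ((-1) ^ (i + 3) * z ^ ((i : ℤ) + 3)) := by
    intro i
    ring
  simp only [e4, e5]
  ring

private theorem TreeS_neg0 {q t r1 : ℂ} {l r : ℕ → ℂ} (H : HypS0 q t r1 l r) :
    HypS0 q (-t) (-r1) l (fun i => (-1) ^ (i + 3) * r i) where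
  q_lt := H.q_lt
  t_le := by
    rw [norm_neg]
    exact H.t_le
  sl := fun i => by
    rw [norm_neg]
    exact H.sl i
  sl0 := by
    rw [norm_neg]
    exact H.sl0
  sr1 := by
    rw [norm_neg, norm_neg]
    exact H.sr1
  bA := fun z hz => by
    rw [TreeS_negA]
    exact H.bA z hz
  bB := fun z hz => by
    rw [TreeS_negB]
    exact H.bB z hz
  bC := fun z hz => by
    rw [TreeS_negC]
    exact H.bC _ (by rw [norm_neg]; exact hz)

/-- change of sign: `z -> -z` in the third corner -/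
theorem HypSA.neg {q t r1 : ℂ} {l r : ℕ → ℂ} (H : HypSA q t r1 l r) :
    HypSA q (-t) (-r1) l (fun i => (-1) ^ (i + 3) * r i) where
  toHypS0 := TreeS_neg0 H.toHypS0
  ra := fun i hi => by
    rw [TreeS_neg_norm]
    exact H.ra i hi
  ra0 := by
    rw [TreeS_neg_norm]
    exact H.ra0

theorem HypSB.neg {q t r1 : ℂ} {l r : ℕ → ℂ} (H : HypSB q t r1 l r) :
    HypSB q (-t) (-r1) l (fun i => (-1) ^ (i + 3) * r i) where
  toHypS0 := TreeS_neg0 H.toHypS0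
  rb := fun i => by
    rw [TreeS_neg_norm]
    exact H.rb i
  ball := by
    obtain ⟨u, hu, hb⟩ := H.ball
    refine ⟨u, hu, fun s hs => ?_⟩
    simp only [TreeS_neg_norm]
    exact hb s hs

def SquareSA (x y Q : ℕ) : Prop :=
  ∀ q t r1 l r, HypSA q t r1 l r → 17 / 50 ≤ ‖q‖ → ‖q‖ ≤ 3 / 4 → InSq q x y Q → False

def SquareSB (x y Q : ℕ) : Prop :=
  ∀ q t r1 l r, HypSB q t r1 l r → 17 / 50 ≤ ‖q‖ → ‖q‖ ≤ 3 / 4 → InSq q x y Q → False

private theorem TreeS_root {t : ℂ} (ht : ‖t‖ ≤ 1) (h0 : 0 ≤ t.re) :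
    InSq t 100001 99999 2 ∨ InSq t 100001 100001 2 := by
  have n1 := abs_le.1 ((Complex.abs_re_le_norm t).trans ht)
  have n2 := abs_le.1 ((Complex.abs_im_le_norm t).trans ht)
  rcases le_total t.im 0 with h | h
  · left
    constructor
    · rw [abs_le]
      push_cast
      constructor <;> linarith
    · rw [abs_le]
      push_cast
      constructor <;> linarith
  · right
    constructor
    · rw [abs_le]
      push_cast
      constructor <;> linarith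
    · rw [abs_le]
      push_cast
      constructor <;> linarith

/-- the two root squares of `t` cover the right half of the unit disc, the sign change gives the left half -/
theorem squareSA_of_chk (T1 T2 : TS) (x y Q : ℕ) (h1 : TS.chk 0 T1 x y Q 100001 99999 2 = true)
    (h2 : TS.chk 0 T2 x y Q 100001 100001 2 = true) : SquareSA x y Q := by
  have key : ∀ q t r1 l r, HypSA q t r1 l r → 17 / 50 ≤ ‖q‖ → ‖q‖ ≤ 3 / 4 → InSq q x y Q →
      0 ≤ t.re → False := by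
    intro q t r1 l r H a1 a2 hq h0
    rcases TreeS_root (TreeS_t H.toHypS0) h0 with h | h
    · exact TS_sound_A T1 _ _ _ _ _ _ h1 q t r1 l r H a1 a2 hq h
    · exact TS_sound_A T2 _ _ _ _ _ _ h2 q t r1 l r H a1 a2 hq h
  intro q t r1 l r H a1 a2 hq
  rcases le_total 0 t.re with h0 | h0
  · exact key q t r1 l r H a1 a2 hq h0
  · refine key q (-t) (-r1) l _ H.neg a1 a2 hq ?_
    rw [Complex.neg_re]
    linarith

theorem squareSB_of_chk (T1 T2 : TS) (x y Q : ℕ) (h1 : TS.chk 1 T1 x y Q 100001 99999 2 = true)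
    (h2 : TS.chk 1 T2 x y Q 100001 100001 2 = true) : SquareSB x y Q := by
  have key : ∀ q t r1 l r, HypSB q t r1 l r → 17 / 50 ≤ ‖q‖ → ‖q‖ ≤ 3 / 4 → InSq q x y Q →
      0 ≤ t.re → False := by
    intro q t r1 l r H a1 a2 hq h0
    rcases TreeS_root (TreeS_t H.toHypS0) h0 with h | h
    · exact TS_sound_B T1 _ _ _ _ _ _ h1 q t r1 l r H a1 a2 hq h
    · exact TS_sound_B T2 _ _ _ _ _ _ h2 q t r1 l r H a1 a2 hq h
  intro q t r1 l r H a1 a2 hq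
  rcases le_total 0 t.re with h0 | h0
  · exact key q t r1 l r H a1 a2 hq h0
  · refine key q (-t) (-r1) l _ H.neg a1 a2 hq ?_
    rw [Complex.neg_re]
    linarith

end Pool.Agent.MaxTerm58
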