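import Pool.Agent.MaxTerm58.LeafTI
import Pool.Agent.MaxTerm59.ConjI

/-! Soundness of the subdivision tree, type I (as in `TreeF3.lean`). -/

namespace Pool.Agent.MaxTerm58

open Pool.Agent.MaxTerm59 (HypI)

private theorem TreeTI_absD (x : ℕ) : ((absD x : ℕ) : ℝ) = |(x : ℝ) - 100000| := by
  unfold absD
  rcases le_total x 100000 with h | h
  · have h1 : Nat.add (Nat.sub x 100000) (Nat.sub 100000 x) = 100000 - x := by
      show (x - 100000) + (100000 - x) = 100000 - x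
      omega
    have h2 : (x : ℝ) ≤ 100000 := by exact_mod_cast h
    rw [h1, Nat.cast_sub h, abs_of_nonpos (by linarith)]
    push_cast
    ring
  · have h1 : Nat.add (Nat.sub x 100000) (Nat.sub 100000 x) = x - 100000 := by
      show (x - 100000) + (100000 - x) = x - 100000
      omega
    have h2 : (100000 : ℝ) ≤ x := by exact_mod_cast h
    rw [h1, Nat.cast_sub h, abs_of_nonneg (by linarith)]
    push_cast
    ring

/-- one coordinate: upper and lower bound of the square -/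
private theorem TreeTI_coord (t : ℝ) (x Q : ℕ) (h : |t * Q - ((x : ℝ) - 100000)| ≤ 1) :
    (t * Q) ^ 2 ≤ (((Nat.succ (absD x)) ^ 2 : ℕ) : ℝ) ∧
      (((absD x - 1) ^ 2 : ℕ) : ℝ) ≤ (t * Q) ^ 2 := by
  have e := TreeTI_absD x
  have h1 : |t * Q| ≤ |(x : ℝ) - 100000| + 1 := by
    have := abs_add_le (t * Q - ((x : ℝ) - 100000)) ((x : ℝ) - 100000)
    rw [sub_add_cancel] at this
    linarith
  have h2 : |(x : ℝ) - 100000| - 1 ≤ |t * Q| := by
    have := abs_add_le (((x : ℝ) - 100000) - t * Q) (t * Q)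
    rw [sub_add_cancel, abs_sub_comm ((x : ℝ) - 100000) (t * Q)] at this
    linarith
  constructor
  · rw [← sq_abs (t * Q)]
    push_cast
    rw [e]
    exact pow_le_pow_left₀ (abs_nonneg _) h1 2
  · rw [← sq_abs (t * Q)]
    push_cast
    refine pow_le_pow_left₀ (Nat.cast_nonneg _) ?_ 2
    rcases Nat.eq_zero_or_pos (absD x) with h0 | h0
    · rw [h0]
      simp only [Nat.zero_sub, Nat.cast_zero]
      exact abs_nonneg _
    · rw [Nat.cast_sub h0, e, Nat.cast_one]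
      exact h2

private theorem TreeTI_norm (z : ℂ) (Q : ℕ) :
    (z.re * Q) ^ 2 + (z.im * Q) ^ 2 = ‖z‖ ^ 2 * (Q : ℝ) ^ 2 := by
  rw [Complex.sq_norm, Complex.normSq_apply]
  ring

/-- the offset coordinate of a nonempty cell is large -/
private theorem TreeTI_large (t : ℝ) (x Q : ℕ) (ht : |t| ≤ 1) (hQ : Q ≤ 4096)
    (h : |t * Q - ((x : ℝ) - 100000)| ≤ 1) : 60000 ≤ x := by
  have hQ' : (Q : ℝ) ≤ 4096 := by exact_mod_cast hQ
  have h0 : (0 : ℝ) ≤ Q := Nat.cast_nonneg _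
  have h1 : |t * Q| ≤ 4096 := by
    rw [abs_mul, abs_of_nonneg h0]
    nlinarith [abs_nonneg t]
  have h2 := abs_le.1 h1
  have h3 := abs_le.1 h
  have : (60000 : ℝ) ≤ x := by linarith
  exact_mod_cast this

private theorem TreeTI_cast1 (x : ℕ) (hx : 60000 ≤ x) :
    (((Nat.sub (Nat.mul 2 x) 100001) : ℕ) : ℝ) = 2 * x - 100001 := by
  show ((2 * x - 100001 : ℕ) : ℝ) = 2 * x - 100001
  rw [Nat.cast_sub (by omega)]
  push_cast
  ring

private theorem TreeTI_cast2 (x : ℕ) (hx : 60000 ≤ x) :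
    (((Nat.sub (Nat.mul 2 x) 99999) : ℕ) : ℝ) = 2 * x - 99999 := by
  show ((2 * x - 99999 : ℕ) : ℝ) = 2 * x - 99999
  rw [Nat.cast_sub (by omega)]
  push_cast
  ring

/-- halving one coordinate -/
private theorem TreeTI_split (t : ℝ) (x Q : ℕ) (ht : |t| ≤ 1) (hQ : Q ≤ 4096)
    (h : |t * Q - ((x : ℝ) - 100000)| ≤ 1) :
    |t * ((Nat.mul 2 Q : ℕ) : ℝ) - ((((Nat.sub (Nat.mul 2 x) 100001) : ℕ) : ℝ) - 100000)| ≤ 1 ∨
    |t * ((Nat.mul 2 Q : ℕ) : ℝ) - ((((Nat.sub (Nat.mul 2 x) 99999) : ℕ) : ℝ) - 100000)| ≤ 1 := by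
  have hx := TreeTI_large t x Q ht hQ h
  rw [TreeTI_cast1 x hx, TreeTI_cast2 x hx]
  have e : ((Nat.mul 2 Q : ℕ) : ℝ) = 2 * Q := by
    show ((2 * Q : ℕ) : ℝ) = 2 * Q
    push_cast
    ring
  rw [e]
  have h3 := abs_le.1 h
  rcases le_total (t * Q - ((x : ℝ) - 100000)) 0 with h0 | h0
  · left
    rw [abs_le]
    constructor <;> linarith
  · right
    rw [abs_le]
    constructor <;> linarith

theorem outTI_sound (x y Q : ℕ) (h : outTI x y Q = true) : CellTI x y Q := by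
  intro q s H h1 hU hq
  obtain ⟨x1, x2⟩ := TreeTI_coord _ _ _ hq.1
  obtain ⟨y1, y2⟩ := TreeTI_coord _ _ _ hq.2
  have nq := TreeTI_norm q Q
  have hQ0 : (0 : ℝ) ≤ (Q : ℝ) ^ 2 := by positivity
  have q0 := norm_nonneg q
  unfold outTI at h
  rw [Bool.or_eq_true, Bool.or_eq_true] at h
  rcases h with (h | h) | h
  · have h3 : 10000 * ((Nat.succ (absD x)) ^ 2 + (Nat.succ (absD y)) ^ 2) < 1156 * Q ^ 2 :=
      Nat.blt_eq.mp h
    have h4 : (10000 : ℝ) * ((((Nat.succ (absD x)) ^ 2 : ℕ) : ℝ) + (((Nat.succ (absD y)) ^ 2 : ℕ) : ℝ)) <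
        1156 * (Q : ℝ) ^ 2 := by exact_mod_cast h3
    have h5 : (17 / 50 : ℝ) ^ 2 ≤ ‖q‖ ^ 2 := pow_le_pow_left₀ (by norm_num) h1 2
    have h6 : (17 / 50 : ℝ) ^ 2 * (Q : ℝ) ^ 2 ≤ ‖q‖ ^ 2 * (Q : ℝ) ^ 2 :=
      mul_le_mul_of_nonneg_right h5 hQ0
    linarith
  · have h3 : 9213304561 * Q ^ 2 < 10000000000 * ((absD x - 1) ^ 2 + (absD y - 1) ^ 2) :=
      Nat.blt_eq.mp h
    have h4 : (9213304561 : ℝ) * (Q : ℝ) ^ 2 <
        10000000000 * ((((absD x - 1) ^ 2 : ℕ) : ℝ) + (((absD y - 1) ^ 2 : ℕ) : ℝ)) := by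
      exact_mod_cast h3
    have h5 : ‖q‖ ^ 2 ≤ 9213304561 / 10000000000 := by
      have := H.q_sq
      norm_num at this ⊢
      linarith
    have h6 : ‖q‖ ^ 2 * (Q : ℝ) ^ 2 ≤ 9213304561 / 10000000000 * (Q : ℝ) ^ 2 :=
      mul_le_mul_of_nonneg_right h5 hQ0
    linarith
  · simp only [Bool.and_eq_true, Bool.or_eq_true, Nat.ble_eq] at h
    obtain ⟨⟨hn, hy⟩, hU'⟩ := h
    have hn' : 16 * ((Nat.succ (absD x)) ^ 2 + (Nat.succ (absD y)) ^ 2) ≤ 9 * Q ^ 2 := hn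
    have hQpos : 0 < Q := by
      rcases Nat.eq_zero_or_pos Q with h0 | h0
      · exfalso
        rw [h0] at hn'
        have h1 : 0 < (Nat.succ (absD x)) ^ 2 := by positivity
        omega
      · exact h0
    have hQr : (0 : ℝ) < Q := by exact_mod_cast hQpos
    have h4 : (16 : ℝ) * ((((Nat.succ (absD x)) ^ 2 : ℕ) : ℝ) + (((Nat.succ (absD y)) ^ 2 : ℕ) : ℝ)) ≤
        9 * (Q : ℝ) ^ 2 := by exact_mod_cast hn'
    have hq34 : ‖q‖ ≤ 3 / 4 := by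
      have h5 : ‖q‖ ^ 2 * (Q : ℝ) ^ 2 ≤ (3 / 4 * Q) ^ 2 := by
        rw [← nq]
        linarith
      have h6 : ‖q‖ * Q ≤ 3 / 4 * Q := by
        rw [← mul_pow] at h5
        exact (abs_le_of_sq_le_sq' h5 (by positivity)).2
      exact le_of_mul_le_mul_right h6 hQr
    apply hU
    refine ⟨hq34, ?_⟩
    obtain ⟨a1, a2⟩ := abs_le.1 hq.1
    obtain ⟨b1, b2⟩ := abs_le.1 hq.2
    have hy' : (100001 : ℝ) ≤ y := by exact_mod_cast hy
    have him : 0 ≤ q.im := by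
      have : 0 ≤ q.im * Q := by linarith
      exact nonneg_of_mul_nonneg_left this hQr
    rw [abs_of_nonneg him]
    have key1 : ∀ c t : ℝ, c * Q ≤ t * Q → c ≤ t := fun c t h => le_of_mul_le_mul_right h hQr
    rcases hU' with ((⟨⟨c1, c2⟩, c3⟩ | ⟨⟨c1, c2⟩, c3⟩) | ⟨⟨c1, c2⟩, c3⟩) | ⟨⟨⟨c1, c2⟩, c3⟩, c4⟩
    · left
      have d1 : (400004 : ℝ) ≤ 4 * x + 3 * Q := by exact_mod_cast c1
      have d2 : (8 : ℝ) * x + (5 * Q + 8) ≤ 800000 := by exact_mod_cast c2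
      have d3 : (8 : ℝ) * y + 8 ≤ 3 * Q + 800000 := by exact_mod_cast c3
      refine ⟨key1 _ _ ?_, key1 _ _ ?_, key1 _ _ ?_⟩ <;> linarith
    · right; left
      have d1 : (800008 : ℝ) ≤ 8 * x + 5 * Q := by exact_mod_cast c1
      have d2 : (2 : ℝ) * x + (Q + 2) ≤ 200000 := by exact_mod_cast c2
      have d3 : (2 : ℝ) * y + 2 ≤ Q + 200000 := by exact_mod_cast c3
      refine ⟨key1 _ _ ?_, key1 _ _ ?_, key1 _ _ ?_⟩ <;> linarith
    · right; right; left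
      have d1 : (200002 : ℝ) ≤ 2 * x + Q := by exact_mod_cast c1
      have d2 : (4 : ℝ) * x + (Q + 4) ≤ 400000 := by exact_mod_cast c2
      have d3 : (8 : ℝ) * y + 8 ≤ 5 * Q + 800000 := by exact_mod_cast c3
      refine ⟨key1 _ _ ?_, key1 _ _ ?_, key1 _ _ ?_⟩ <;> linarith
    · right; right; right
      have d1 : (400004 : ℝ) ≤ 4 * x + Q := by exact_mod_cast c1
      have d2 : (8 : ℝ) * x + (Q + 8) ≤ 800000 := by exact_mod_cast c2
      have d3 : (Q : ℝ) + 800008 ≤ 8 * y := by exact_mod_cast c3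
      have d4 : (2 : ℝ) * y + 2 ≤ Q + 200000 := by exact_mod_cast c4
      refine ⟨key1 _ _ ?_, key1 _ _ ?_, key1 _ _ ?_, key1 _ _ ?_⟩ <;> linarith

/-- subdivision of the square -/
theorem CellTI.sp {x y Q : ℕ} (hQ : Q ≤ 4096)
    (h1 : CellTI (Nat.sub (Nat.mul 2 x) 100001) (Nat.sub (Nat.mul 2 y) 100001) (Nat.mul 2 Q))
    (h2 : CellTI (Nat.sub (Nat.mul 2 x) 99999) (Nat.sub (Nat.mul 2 y) 100001) (Nat.mul 2 Q))
    (h3 : CellTI (Nat.sub (Nat.mul 2 x) 100001) (Nat.sub (Nat.mul 2 y) 99999) (Nat.mul 2 Q))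
    (h4 : CellTI (Nat.sub (Nat.mul 2 x) 99999) (Nat.sub (Nat.mul 2 y) 99999) (Nat.mul 2 Q)) :
    CellTI x y Q := by
  intro q s H a1 a2 hq
  have n1 : |q.re| ≤ 1 := (Complex.abs_re_le_norm q).trans H.q_lt.le
  have n2 : |q.im| ≤ 1 := (Complex.abs_im_le_norm q).trans H.q_lt.le
  rcases TreeTI_split _ _ _ n1 hQ hq.1 with b | b <;>
    rcases TreeTI_split _ _ _ n2 hQ hq.2 with c | c
  · exact h1 q s H a1 a2 ⟨b, c⟩
  · exact h3 q s H a1 a2 ⟨b, c⟩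
  · exact h2 q s H a1 a2 ⟨b, c⟩
  · exact h4 q s H a1 a2 ⟨b, c⟩

theorem TI_sound (t : TI) : ∀ x y Q : ℕ, TI.chk t x y Q = true → CellTI x y Q := by
  induction t with
  | lf N K I0 P a =>
    intro x y Q h
    rw [TI.chk] at h
    exact checkTI_sound x y Q N K I0 P a h
  | out =>
    intro x y Q h
    rw [TI.chk] at h
    exact outTI_sound x y Q h
  | sp t1 t2 t3 t4 i1 i2 i3 i4 =>
    intro x y Q h
    rw [TI.chk] at h
    simp only [Bool.and_eq_true, Nat.ble_eq] at h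
    obtain ⟨⟨⟨⟨h0, h1⟩, h2⟩, h3⟩, h4⟩ := h
    exact CellTI.sp h0 (i1 _ _ _ h1) (i2 _ _ _ h2) (i3 _ _ _ h3) (i4 _ _ _ h4)

/-- a coordinate in `[-1, 1)` lies in one of the eight intervals -/
private theorem TreeTI_pick (t : ℝ) (h0 : -1 ≤ t) (h1 : t < 1) :
    ∃ a : ℕ, a < 8 ∧ |t * ((8 : ℕ) : ℝ) - (((99993 + 2 * a : ℕ) : ℝ) - 100000)| ≤ 1 := by
  refine ⟨⌊4 * (t + 1)⌋₊, ?_, ?_⟩
  · have h2 : (0 : ℝ) ≤ 4 * (t + 1) := by linarith
    rw [Nat.floor_lt h2]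
    push_cast
    linarith
  · have h2 : (0 : ℝ) ≤ 4 * (t + 1) := by linarith
    have h3 := Nat.floor_le h2
    have h4 := Nat.lt_floor_add_one (4 * (t + 1))
    push_cast
    rw [abs_le]
    constructor <;> linarith

private theorem TreeTI_pick' (t : ℝ) (h0 : 0 ≤ t) (h1 : t < 1) :
    ∃ b : ℕ, b < 4 ∧ |t * ((8 : ℕ) : ℝ) - (((100001 + 2 * b : ℕ) : ℝ) - 100000)| ≤ 1 := by
  refine ⟨⌊4 * t⌋₊, ?_, ?_⟩
  · have h2 : (0 : ℝ) ≤ 4 * t := by linarith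
    rw [Nat.floor_lt h2]
    push_cast
    linarith
  · have h2 : (0 : ℝ) ≤ 4 * t := by linarith
    have h3 := Nat.floor_le h2
    have h4 := Nat.lt_floor_add_one (4 * t)
    push_cast
    rw [abs_le]
    constructor <;> linarith

/-- if all cells of the upper half of the square `[-1,1]^2` are excluded then there is no admissible point -/
theorem ti_of_cells (h : ∀ a b : ℕ, a < 8 → b < 4 → CellTI (99993 + 2 * a) (100001 + 2 * b) 8)
    {q : ℂ} {s : ℕ → ℂ} (H : HypI (170919 / 100000) (1 / 100000) q s) (h1 : 17 / 50 ≤ ‖q‖)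
    (hU : ¬(‖q‖ ≤ 3 / 4 ∧ InU q.re |q.im|)) : False := by
  have key : ∀ (q : ℂ) (s : ℕ → ℂ), HypI (170919 / 100000) (1 / 100000) q s → 17 / 50 ≤ ‖q‖ →
      ¬(‖q‖ ≤ 3 / 4 ∧ InU q.re |q.im|) → 0 ≤ q.im → False := by
    intro q s H h1 hU him
    have n1 : |q.re| < 1 := (Complex.abs_re_le_norm q).trans_lt H.q_lt
    have n2 : |q.im| < 1 := (Complex.abs_im_le_norm q).trans_lt H.q_lt
    rw [abs_lt] at n1 n2
    obtain ⟨a, ha, ha'⟩ := TreeTI_pick q.re n1.1.le n1.2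
    obtain ⟨b, hb, hb'⟩ := TreeTI_pick' q.im him n2.2
    exact h a b ha hb q s H h1 hU ⟨ha', hb'⟩
  rcases le_total 0 q.im with h0 | h0
  · exact key q s H h1 hU h0
  · refine key _ _ H.conj ?_ ?_ ?_
    · rw [RCLike.norm_conj]
      exact h1
    · rw [RCLike.norm_conj, Complex.conj_re, Complex.conj_im, abs_neg]
      exact hU
    · rw [Complex.conj_im]
      linarith

end Pool.Agent.MaxTerm58
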