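import Pool.Agent.MaxTerm58.NodeRep

/-! Hints: `numLP_small`: `10^5 * 32045^11 * 4096^21 * (1 + 3^11 (1 + 3^11))`, squared, is less than `2^1280` (`MM_eq`); prove it through
a chain of `pow_le_pow_left` and a final `norm_num`; the loop by induction on `ms` (`absP_spec`, `monUp_spec`, `MRep`, `CRep.mul`). -/

namespace Pool.Agent.MaxTerm58

/-- numerator of the left coefficient -/
theorem numLP_rep {m : PM} {i : ℕ} {A B C : ℤ → ℂ} (h : MRep m i A B C) (Q R : ℕ) (hQ : 0 < Q)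
    (hR : 0 < R) (cz dz : ℂ) (cp dpd : PC) (hcp : CRep cp (cz ^ (i + 2))) (hdp : CRep dpd (dz ^ (i + 3))) :
    CRep (numLP m (Nat.mul (Nat.pow Q (Nat.add i 2)) (Nat.pow R (Nat.add i 3))) (Nat.pow R (Nat.add i 3)) cp dpd)
      (((Nat.mul (Nat.mul 100000 (Nat.pow 32045 (Nat.add i 2)))
        (Nat.mul (Nat.pow Q (Nat.add i 2)) (Nat.pow R (Nat.add i 3))) : ℕ) : ℂ) *
        LL A B C (cz / Q) (dz / R) i) := by
  obtain ⟨h1, h2, h3, h4, h5, h6⟩ := h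
  have hQ' : (Q : ℂ) ≠ 0 := by exact_mod_cast hQ.ne'
  have hR' : (R : ℂ) ≠ 0 := by exact_mod_cast hR.ne'
  have key := (h1.smul (Nat.mul (Nat.pow Q (Nat.add i 2)) (Nat.pow R (Nat.add i 3)))).add
    (hcp.mul ((h2.smul (Nat.pow R (Nat.add i 3))).add (hdp.mul h3)))
  unfold numLP
  convert key using 1
  unfold LL
  simp only [Nat.mul_eq, Nat.pow_eq, Nat.add_eq]
  push_cast
  rw [div_pow, div_pow]
  field_simp

/-- numerator of the right coefficient -/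
theorem numRP_rep {m : PM} {i : ℕ} {A B C : ℤ → ℂ} (h : MRep m i A B C) (Q R : ℕ) (hQ : 0 < Q)
    (hR : 0 < R) (cz dz : ℂ) (cpc dp : PC) (hcp : CRep cpc (cz ^ (i + 3))) (hdp : CRep dp (dz ^ (i + 2))) :
    CRep (numRP m (Nat.mul (Nat.pow R (Nat.add i 2)) (Nat.pow Q (Nat.add i 3))) (Nat.pow Q (Nat.add i 3)) cpc dp)
      (((Nat.mul (Nat.mul 100000 (Nat.pow 32045 (Nat.add i 3)))
        (Nat.mul (Nat.pow R (Nat.add i 2)) (Nat.pow Q (Nat.add i 3))) : ℕ) : ℂ) *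
        RR A B C (cz / Q) (dz / R) i) := by
  obtain ⟨h1, h2, h3, h4, h5, h6⟩ := h
  have hQ' : (Q : ℂ) ≠ 0 := by exact_mod_cast hQ.ne'
  have hR' : (R : ℂ) ≠ 0 := by exact_mod_cast hR.ne'
  have key := (h6.smul (Nat.mul (Nat.pow R (Nat.add i 2)) (Nat.pow Q (Nat.add i 3)))).add
    (hdp.mul ((h5.smul (Nat.pow Q (Nat.add i 3))).add (hcp.mul h4)))
  unfold numRP
  convert key using 1
  unfold RR
  simp only [Nat.mul_eq, Nat.pow_eq, Nat.add_eq]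
  push_cast
  rw [div_pow, div_pow]
  field_simp

private theorem VLoop_small (n : ℕ) (w : ℂ) (hn : n ≤ 2 ^ 500) (hw : ‖w‖ ≤ 2 ^ 100) :
    ‖(n : ℂ) * w‖ ^ 2 < (MM : ℝ) := by
  have h1 : ‖(n : ℂ) * w‖ ≤ 2 ^ 500 * 2 ^ 100 := by
    rw [norm_mul, Complex.norm_natCast]
    have hn' : (n : ℝ) ≤ 2 ^ 500 := by exact_mod_cast hn
    gcongr
  have h2 : ‖(n : ℂ) * w‖ ^ 2 ≤ (2 ^ 500 * 2 ^ 100) ^ 2 :=
    pow_le_pow_left₀ (norm_nonneg _) h1 2
  rw [MM_eq]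
  push_cast
  refine lt_of_le_of_lt h2 ?_
  rw [← pow_add, ← pow_mul]
  have : (2 : ℝ) ^ ((500 + 100) * 2) ≤ 2 ^ 1280 := pow_le_pow_right₀ (by norm_num) (by norm_num)
  linarith

private theorem VLoop_nat (Q R : ℕ) (hQ : Q ≤ 4096) (hR : R ≤ 4096) (a b c : ℕ)
    (ha : a ≤ 11) (hb : b ≤ 11) (hc : c ≤ 11) :
    100000 * 32045 ^ a * (Q ^ b * R ^ c) ≤ 2 ^ 500 := by
  have h1 : 32045 ^ a ≤ (2 ^ 15) ^ 11 :=
    (Nat.pow_le_pow_left (by norm_num) a).trans (Nat.pow_le_pow_right (by norm_num) ha)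
  have h2 : Q ^ b ≤ (2 ^ 12) ^ 11 :=
    (Nat.pow_le_pow_left (hQ.trans (by norm_num)) b).trans (Nat.pow_le_pow_right (by norm_num) hb)
  have h3 : R ^ c ≤ (2 ^ 12) ^ 11 :=
    (Nat.pow_le_pow_left (hR.trans (by norm_num)) c).trans (Nat.pow_le_pow_right (by norm_num) hc)
  calc 100000 * 32045 ^ a * (Q ^ b * R ^ c) ≤ 2 ^ 17 * (2 ^ 15) ^ 11 * ((2 ^ 12) ^ 11 * (2 ^ 12) ^ 11) := by
        gcongr
        norm_num
    _ ≤ 2 ^ 500 := by
        rw [← pow_mul, ← pow_mul, ← pow_add, ← pow_add, ← pow_add]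
        exact Nat.pow_le_pow_right (by norm_num) (by norm_num)

private theorem VLoop_norm (x y z q p : ℂ) (hx : ‖x‖ ≤ 1) (hy : ‖y‖ ≤ 1) (hz : ‖z‖ ≤ 1)
    (hq : ‖q‖ ≤ 3) (hp : ‖p‖ ≤ 3) (a b : ℕ) (ha : a ≤ 11) (hb : b ≤ 11) :
    ‖x + q ^ a * (y + p ^ b * z)‖ ≤ 2 ^ 100 := by
  have h1 : ‖q ^ a‖ ≤ 3 ^ 11 := by
    rw [norm_pow]
    exact (pow_le_pow_left₀ (norm_nonneg _) hq a).trans (pow_le_pow_right₀ (by norm_num) ha)
  have h2 : ‖p ^ b‖ ≤ 3 ^ 11 := by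
    rw [norm_pow]
    exact (pow_le_pow_left₀ (norm_nonneg _) hp b).trans (pow_le_pow_right₀ (by norm_num) hb)
  have h3 : ‖p ^ b * z‖ ≤ 3 ^ 11 * 1 := by
    rw [norm_mul]
    exact mul_le_mul h2 hz (norm_nonneg _) (by norm_num)
  have h4 : ‖y + p ^ b * z‖ ≤ 1 + 3 ^ 11 * 1 := (norm_add_le _ _).trans (add_le_add hy h3)
  have h5 : ‖q ^ a * (y + p ^ b * z)‖ ≤ 3 ^ 11 * (1 + 3 ^ 11 * 1) := by
    rw [norm_mul]
    exact mul_le_mul h1 h4 (norm_nonneg _) (by norm_num)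
  have h6 : ‖x + q ^ a * (y + p ^ b * z)‖ ≤ 1 + 3 ^ 11 * (1 + 3 ^ 11 * 1) :=
    (norm_add_le _ _).trans (add_le_add hx h5)
  exact h6.trans (by norm_num)

/-- the numerators are small compared with the modulus -/
theorem numLP_small (A B C : ℤ → ℂ) (hA : ∀ k, ‖A k‖ ≤ 1) (hB : ∀ k, ‖B k‖ ≤ 1) (hC : ∀ k, ‖C k‖ ≤ 1)
    (Q R : ℕ) (hQ : Q ≤ 4096) (hR : R ≤ 4096) (q p : ℂ) (hq : ‖q‖ ≤ 3) (hp : ‖p‖ ≤ 3) (i : ℕ) (hi : i ≤ 8) :
    ‖((Nat.mul (Nat.mul 100000 (Nat.pow 32045 (Nat.add i 2)))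
        (Nat.mul (Nat.pow Q (Nat.add i 2)) (Nat.pow R (Nat.add i 3))) : ℕ) : ℂ) * LL A B C q p i‖ ^ 2 < (MM : ℝ) := by
  refine VLoop_small _ _ ?_ ?_
  · simp only [Nat.mul_eq, Nat.pow_eq, Nat.add_eq]
    exact VLoop_nat Q R hQ hR (i + 2) (i + 2) (i + 3) (by omega) (by omega) (by omega)
  · unfold LL
    exact VLoop_norm _ _ _ q p (hA _) (hB _) (hC _) hq hp (i + 2) (i + 3) (by omega) (by omega)

theorem numRP_small (A B C : ℤ → ℂ) (hA : ∀ k, ‖A k‖ ≤ 1) (hB : ∀ k, ‖B k‖ ≤ 1) (hC : ∀ k, ‖C k‖ ≤ 1)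
    (Q R : ℕ) (hQ : Q ≤ 4096) (hR : R ≤ 4096) (q p : ℂ) (hq : ‖q‖ ≤ 3) (hp : ‖p‖ ≤ 3) (i : ℕ) (hi : i ≤ 8) :
    ‖((Nat.mul (Nat.mul 100000 (Nat.pow 32045 (Nat.add i 3)))
        (Nat.mul (Nat.pow R (Nat.add i 2)) (Nat.pow Q (Nat.add i 3))) : ℕ) : ℂ) * RR A B C q p i‖ ^ 2 < (MM : ℝ) := by
  refine VLoop_small _ _ ?_ ?_
  · simp only [Nat.mul_eq, Nat.pow_eq, Nat.add_eq]
    exact VLoop_nat R Q hR hQ (i + 3) (i + 2) (i + 3) (by omega) (by omega) (by omega)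
  · unfold RR
    exact VLoop_norm _ _ _ p q (hC _) (hB _) (hA _) hp hq (i + 2) (i + 3) (by omega) (by omega)

private theorem VLoop_step (acc mon aL aR : ℕ) (x y z : ℝ) (hx : 0 ≤ x) (hy : 0 ≤ y) (hz : 0 ≤ z)
    (h1 : x * 100000000 ≤ (mon : ℝ)) (h2 : y * 100000000 ≤ (aL : ℝ))
    (h3 : z * 100000000 ≤ (aR : ℝ)) :
    (acc : ℝ) + 100000000 * (x * (y + z)) ≤
      ((Nat.succ (Nat.add acc (Nat.div (Nat.mul mon (Nat.add aL aR)) 100000000)) : ℕ) : ℝ) := by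
  have hprod : (x * 100000000) * ((y + z) * 100000000) ≤ (mon : ℝ) * ((aL : ℝ) + (aR : ℝ)) := by
    apply mul_le_mul h1 _ (by positivity) (by positivity)
    rw [add_mul]
    exact add_le_add h2 h3
  have hdiv : ((mon * (aL + aR) : ℕ) : ℝ) <
      (((mon * (aL + aR)) / 100000000 + 1 : ℕ) : ℝ) * 100000000 := by
    have h2 : mon * (aL + aR) < (mon * (aL + aR) / 100000000 + 1) * 100000000 := by
      omega
    exact_mod_cast h2
  have e : (Nat.succ (Nat.add acc (Nat.div (Nat.mul mon (Nat.add aL aR)) 100000000)) : ℕ) =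
      acc + (mon * (aL + aR) / 100000000 + 1) := by
    show (acc + (mon * (aL + aR)) / 100000000) + 1 = _
    omega
  rw [e, Nat.cast_add]
  generalize ((mon * (aL + aR) / 100000000 + 1 : ℕ) : ℝ) = t at hdiv ⊢
  push_cast at hdiv
  nlinarith [hdiv, hprod]

/-- the loop bounds the penalties at a vertex -/
theorem vloopP_spec (A B C : ℤ → ℂ) (hA : ∀ k, ‖A k‖ ≤ 1) (hB : ∀ k, ‖B k‖ ≤ 1) (hC : ∀ k, ‖C k‖ ≤ 1)
    (c d : PC) (cz dz : ℂ) (hc : CRep c cz) (hd : CRep d dz) (Q R r : ℕ) (hQ : 0 < Q) (hR : 0 < R)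
    (hQ' : Q ≤ 4096) (hR' : R ≤ 4096) (hcz : ‖cz / Q‖ ≤ 3) (hdz : ‖dz / R‖ ≤ 3)
    (hr : ‖cz / Q‖ ≤ (r : ℝ) / 10000) :
    ∀ (ms : List PM) (i acc : ℕ) (cp dp : PC), MsRep ms i A B C → CRep cp (cz ^ (i + 2)) →
      CRep dp (dz ^ (i + 2)) → i + ms.length ≤ 9 →
      (acc : ℝ) + 100000000 * ∑ k ∈ Finset.range ms.length, ‖cz / Q‖ ^ (i + k + 1) *
        (‖LL A B C (cz / Q) (dz / R) (i + k)‖ + ‖RR A B C (cz / Q) (dz / R) (i + k)‖) ≤
      ((vloopP c d Q R r ms i cp dp acc : ℕ) : ℝ) := by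
  intro ms
  induction ms with
  | nil =>
    intro i acc cp dp _ _ _ _
    simp [vloopP]
  | cons m ms ih =>
    intro i acc cp dp hms hcp hdp hlen
    obtain ⟨hm, hms'⟩ := hms
    have hi8 : i ≤ 8 := by simp only [List.length_cons] at hlen; omega
    have hcp' : CRep (cp.mul c) (cz ^ (i + 3)) := by
      have := hcp.mul hc
      rwa [← pow_succ] at this
    have hdp' : CRep (dp.mul d) (dz ^ (i + 3)) := by
      have := hdp.mul hd
      rwa [← pow_succ] at this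
    have hdenL : 0 < Nat.mul (Nat.mul 100000 (Nat.pow 32045 (Nat.add i 2)))
        (Nat.mul (Nat.pow Q (Nat.add i 2)) (Nat.pow R (Nat.add i 3))) := by
      simp only [Nat.mul_eq, Nat.pow_eq, Nat.add_eq]
      positivity
    have hdenR : 0 < Nat.mul (Nat.mul 100000 (Nat.pow 32045 (Nat.add i 3)))
        (Nat.mul (Nat.pow R (Nat.add i 2)) (Nat.pow Q (Nat.add i 3))) := by
      simp only [Nat.mul_eq, Nat.pow_eq, Nat.add_eq]
      positivity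
    have hL := absP_spec (numLP_rep hm Q R hQ hR cz dz cp (dp.mul d) hcp hdp')
      (numLP_small A B C hA hB hC Q R hQ' hR' _ _ hcz hdz i hi8) _ hdenL rfl
    have hRt := absP_spec (numRP_rep hm Q R hQ hR cz dz (cp.mul c) dp hcp' hdp)
      (numRP_small A B C hA hB hC Q R hQ' hR' _ _ hcz hdz i hi8) _ hdenR rfl
    have hmon := monUp_spec r 0 (Nat.succ i) 0
    have hpow : ‖cz / Q‖ ^ (i + 1) * 100000000 ≤ ((monUp r 0 (Nat.succ i) 0 : ℕ) : ℝ) := by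
      refine le_trans ?_ hmon
      rw [pow_zero, mul_one, Nat.succ_eq_add_one]
      gcongr
    have hacc := VLoop_step acc _ _ _ (‖cz / Q‖ ^ (i + 1)) _ _ (by positivity) (norm_nonneg _)
      (norm_nonneg _) hpow hL hRt
    refine le_trans ?_ (ih (i + 1) _ (cp.mul c) (dp.mul d) hms' hcp' hdp'
      (by simp only [List.length_cons] at hlen; omega))
    clear ih hpow hmon hL hRt
    rw [List.length_cons, Finset.sum_range_succ', mul_add, add_zero]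
    have hsum : ∑ k ∈ Finset.range ms.length, ‖cz / Q‖ ^ (i + (k + 1) + 1) *
        (‖LL A B C (cz / Q) (dz / R) (i + (k + 1))‖ + ‖RR A B C (cz / Q) (dz / R) (i + (k + 1))‖) =
        ∑ k ∈ Finset.range ms.length, ‖cz / Q‖ ^ (i + 1 + k + 1) *
        (‖LL A B C (cz / Q) (dz / R) (i + 1 + k)‖ + ‖RR A B C (cz / Q) (dz / R) (i + 1 + k)‖) := by
      refine Finset.sum_congr rfl fun k _ => ?_
      rw [show i + (k + 1) = i + 1 + k by ring]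
    rw [hsum]
    linarith [hacc]

end Pool.Agent.MaxTerm58
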