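import Pool.Agent.MaxTerm58.WDef
import Pool.Agent.MaxTerm58.GenBall

/-! The ball with one exempt coordinate, generic forbidden index `ex`: adapt the proofs of `GenBall.lean`
(replace `1` by `ex`). -/

namespace Pool.Agent.MaxTerm58

private theorem WBall_maxU_left (a b : ℕ) : a ≤ maxU a b := by
  unfold maxU
  by_cases h : a ≤ b
  · have h1 : Nat.ble a b = true := by rw [Nat.ble_eq]; exact h
    rw [h1]; exact h
  · have h1 : Nat.ble a b = false := by
      rw [Bool.eq_false_iff]; intro h2; rw [Nat.ble_eq] at h2; exact h h2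
    rw [h1]; exact le_refl _

private theorem WBall_maxU_right (a b : ℕ) : b ≤ maxU a b := by
  unfold maxU
  by_cases h : a ≤ b
  · have h1 : Nat.ble a b = true := by rw [Nat.ble_eq]; exact h
    rw [h1]; exact le_refl _
  · have h1 : Nat.ble a b = false := by
      rw [Bool.eq_false_iff]; intro h2; rw [Nat.ble_eq] at h2; exact h h2
    rw [h1]; exact (not_le.1 h).le

theorem ballMxE_ge (nu ex S : ℕ) (bs : List ℕ) (u0 acc : ℕ) : acc ≤ ballMxE nu ex S bs u0 acc := by
  induction bs generalizing u0 acc with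
  | nil => exact le_refl _
  | cons b l ih =>
    rw [ballMxE]
    refine le_trans ?_ (ih _ _)
    cases Nat.beq u0 ex
    · exact WBall_maxU_left _ _
    · exact le_refl _

private theorem WBall_sqU (n : ℕ) : Real.sqrt (n : ℝ) ≤ ((sqU n : ℕ) : ℝ) := by
  rw [Real.sqrt_le_left (by positivity)]
  exact sqU_spec n

private theorem WBall_div (nu m : ℕ) (x : ℝ) (hx : x ≤ ((sqU m : ℕ) : ℝ)) :
    (nu : ℝ) / 100000000 * x ≤
      ((Nat.succ (Nat.div (Nat.mul nu (sqU m)) 100000000) : ℕ) : ℝ) := by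
  have h1 : nu * sqU m < 100000000 * (nu * sqU m / 100000000 + 1) :=
    Nat.lt_mul_div_succ _ (by norm_num)
  have h2 : (nu : ℝ) * (sqU m : ℝ) < 100000000 * (((nu * sqU m / 100000000 : ℕ) : ℝ) + 1) := by
    exact_mod_cast h1
  have h3 : ((Nat.succ (Nat.div (Nat.mul nu (sqU m)) 100000000) : ℕ) : ℝ)
      = ((nu * sqU m / 100000000 : ℕ) : ℝ) + 1 := by
    push_cast
    rfl
  rw [h3]
  have h4 : (nu : ℝ) * x ≤ (nu : ℝ) * (sqU m : ℝ) := by
    apply mul_le_mul_of_nonneg_left hx
    positivity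
  rw [div_mul_eq_mul_div, div_le_iff₀ (by norm_num)]
  linarith

theorem ballMxE_spec (nu ex S : ℕ) (bs : List ℕ) (u0 acc : ℕ) (k : ℕ) (hk : k < bs.length) (h1 : u0 + k ≠ ex) :
    ((bs[k] : ℕ) : ℝ) + (nu : ℝ) / 100000000 * Real.sqrt ((S : ℝ) - ((bs[k] : ℕ) : ℝ) ^ 2) ≤
      ((ballMxE nu ex S bs u0 acc : ℕ) : ℝ) := by
  induction bs generalizing u0 acc k with
  | nil => exact absurd hk (by simp)
  | cons b l ih =>
    rw [ballMxE]
    cases k with
    | zero =>
      have h2 : Nat.beq u0 ex = false := by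
        rw [Bool.eq_false_iff]; intro h3; exact h1 (by rw [Nat.eq_of_beq_eq_true h3, Nat.add_zero])
      rw [h2]
      have h3 := ballMxE_ge nu ex S l (Nat.succ u0)
        (maxU acc (Nat.succ (Nat.add b (Nat.div (Nat.mul nu (sqU (Nat.sub S (Nat.mul b b)))) 100000000))))
      have h4 := WBall_maxU_right acc
        (Nat.succ (Nat.add b (Nat.div (Nat.mul nu (sqU (Nat.sub S (Nat.mul b b)))) 100000000)))
      have h5 : ((Nat.succ (Nat.add b (Nat.div (Nat.mul nu (sqU (Nat.sub S (Nat.mul b b)))) 100000000)) : ℕ) : ℝ)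
          ≤ ((ballMxE nu ex S l (Nat.succ u0)
        (maxU acc (Nat.succ (Nat.add b (Nat.div (Nat.mul nu (sqU (Nat.sub S (Nat.mul b b)))) 100000000)))) : ℕ) : ℝ) := by
        exact_mod_cast h4.trans h3
      refine le_trans ?_ h5
      have h6 : Real.sqrt ((S : ℝ) - ((b : ℕ) : ℝ) ^ 2) ≤ ((sqU (Nat.sub S (Nat.mul b b)) : ℕ) : ℝ) := by
        refine le_trans (Real.sqrt_le_sqrt ?_) (WBall_sqU _)
        have h7 : S ≤ (S - b * b) + b * b := le_tsub_add
        have h8 : (S : ℝ) ≤ ((S - b * b : ℕ) : ℝ) + (b : ℝ) * b := by exact_mod_cast h7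
        have h9 : ((Nat.sub S (Nat.mul b b) : ℕ) : ℝ) = ((S - b * b : ℕ) : ℝ) := rfl
        rw [h9]
        nlinarith
      have h7 := WBall_div nu (Nat.sub S (Nat.mul b b)) _ h6
      have h8 : ((Nat.succ (Nat.add b (Nat.div (Nat.mul nu (sqU (Nat.sub S (Nat.mul b b)))) 100000000)) : ℕ) : ℝ)
          = (b : ℝ) + ((Nat.succ (Nat.div (Nat.mul nu (sqU (Nat.sub S (Nat.mul b b)))) 100000000) : ℕ) : ℝ) := by
        have h9 : (Nat.succ (Nat.add b (Nat.div (Nat.mul nu (sqU (Nat.sub S (Nat.mul b b)))) 100000000)) : ℕ)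
          = b + (Nat.succ (Nat.div (Nat.mul nu (sqU (Nat.sub S (Nat.mul b b)))) 100000000)) := rfl
        rw [h9, Nat.cast_add]
      rw [h8]
      simp only [List.getElem_cons_zero]
      linarith
    | succ k =>
      have h2 := ih (Nat.succ u0) (bif Nat.beq u0 ex then acc else
        maxU acc (Nat.succ (Nat.add b (Nat.div (Nat.mul nu (sqU (Nat.sub S (Nat.mul b b)))) 100000000)))) k
        (by simpa using hk) (by omega)
      simpa using h2

private theorem WBall_sqSum (l : List ℕ) :
    ((sqSum l : ℕ) : ℝ) = ∑ i ∈ Finset.range l.length, ((l.getD i 0 : ℕ) : ℝ) ^ 2 := by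
  induction l with
  | nil => simp [sqSum]
  | cons b l ih =>
    have h1 : sqSum (b :: l) = b * b + sqSum l := rfl
    rw [h1, List.length_cons, Finset.sum_range_succ']
    simp only [List.getD_cons_succ, List.getD_cons_zero]
    push_cast
    rw [ih]
    ring

private theorem WBall_maxL (l : List ℕ) (i : ℕ) (hi : i < l.length) : l[i] ≤ maxL l := by
  induction l generalizing i with
  | nil => exact absurd hi (by simp)
  | cons b l ih =>
    have h1 : maxL (b :: l) = maxU b (maxL l) := rfl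
    rw [h1]
    cases i with
    | zero => exact WBall_maxU_left _ _
    | succ i =>
      refine le_trans ?_ (WBall_maxU_right _ _)
      simpa using ih i (by simpa using hi)

/-- `c` in the ball of radius `nu / 10^8` except for the coordinate `u` -/
theorem ballPE_spec (nu ex : ℕ) (bs cr : List ℕ) (c β : ℕ → ℝ) (hc0 : ∀ i, 0 ≤ c i) (hc1 : ∀ i, c i ≤ 1)
    (u : ℕ) (hu : u ≠ ex) (hball : ∀ s : Finset ℕ, u ∉ s → ∑ i ∈ s, c i ^ 2 ≤ ((nu : ℝ) / 100000000) ^ 2)
    (hβ : ∀ i, 0 ≤ β i) (hb : ∀ i (hi : i < bs.length), β i * 100000000 ≤ ((bs[i] : ℕ) : ℝ))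
    (hcr : ∀ i (hi : i < cr.length), β (bs.length + i) * 100000000 ≤ ((cr[i] : ℕ) : ℝ)) :
    (∑ i ∈ Finset.range (bs.length + cr.length), c i * β i) * 100000000 ≤
      ((ballPE nu ex (sqSum cr) (maxL cr) bs : ℕ) : ℝ) := by
  classical
  set N := bs.length + cr.length with hN
  -- the upper bounds
  have hlen : (bs ++ cr).length = N := by simp [hN]
  have hE : ∀ i ∈ Finset.range N, β i * 100000000 ≤ (((bs ++ cr).getD i 0 : ℕ) : ℝ) := by
    intro i hi
    rw [Finset.mem_range] at hi
    by_cases h : i < bs.length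
    · have h1 : (bs ++ cr).getD i 0 = bs[i] := by
        rw [List.getD_append _ _ _ _ h, List.getD_eq_getElem _ _ h]
      rw [h1]; exact hb i h
    · have h2 : i - bs.length < cr.length := by omega
      have h1 : (bs ++ cr).getD i 0 = cr[i - bs.length] := by
        rw [List.getD_append_right _ _ _ _ (by omega), List.getD_eq_getElem _ _ h2]
      rw [h1]
      have h3 := hcr (i - bs.length) h2
      rwa [show bs.length + (i - bs.length) = i by omega] at h3
  have hSum : ∑ i ∈ Finset.range N, (((bs ++ cr).getD i 0 : ℕ) : ℝ) ^ 2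
      = ((Nat.add (sqSum cr) (sqSum bs) : ℕ) : ℝ) := by
    rw [← hlen, ← WBall_sqSum]
    have h1 : sqSum (bs ++ cr) = sqSum cr + sqSum bs := by
      clear hE hlen hN hb hcr
      induction bs with
      | nil => simp [sqSum]
      | cons b l ih =>
        have e1 : sqSum ((b :: l) ++ cr) = b * b + sqSum (l ++ cr) := rfl
        have e2 : sqSum (b :: l) = b * b + sqSum l := rfl
        rw [e1, e2, ih]
        omega
    rw [h1]
    rfl
  have hnu : (0 : ℝ) ≤ (nu : ℝ) / 100000000 := by positivity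
  -- Cauchy-Schwarz without the coordinate `u`
  have hCS : ∀ s : Finset ℕ, s ⊆ Finset.range N → u ∉ s →
      ∑ i ∈ s, c i * (β i * 100000000) ≤
        (nu : ℝ) / 100000000 * Real.sqrt (∑ i ∈ s, (((bs ++ cr).getD i 0 : ℕ) : ℝ) ^ 2) := by
    intro s hs hus
    refine (Real.sum_mul_le_sqrt_mul_sqrt s c (fun i => β i * 100000000)).trans ?_
    refine mul_le_mul ?_ (Real.sqrt_le_sqrt ?_) (Real.sqrt_nonneg _) hnu
    · rw [← Real.sqrt_sq hnu]
      exact Real.sqrt_le_sqrt (hball s hus)
    · refine Finset.sum_le_sum fun i hi => ?_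
      have h0 : 0 ≤ β i * 100000000 := mul_nonneg (hβ i) (by norm_num)
      exact pow_le_pow_left₀ h0 (hE i (hs hi)) 2
  have hmul : (∑ i ∈ Finset.range N, c i * β i) * 100000000
      = ∑ i ∈ Finset.range N, c i * (β i * 100000000) := by
    rw [Finset.sum_mul]
    exact Finset.sum_congr rfl fun i _ => by ring
  rw [hmul]
  set T := Nat.add (sqSum cr) (sqSum bs) with hT
  have hball0 : ballPE nu ex (sqSum cr) (maxL cr) bs = ballMxE nu ex T bs 0
      (Nat.succ (Nat.add (maxL cr) (Nat.div (Nat.mul nu (sqU T)) 100000000))) := rfl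
  rw [hball0]
  by_cases huL : u < bs.length
  · -- exempt coordinate in `bs`
    have huN : u ∈ Finset.range N := by rw [Finset.mem_range]; omega
    have h1 := ballMxE_spec nu ex T bs 0
      (Nat.succ (Nat.add (maxL cr) (Nat.div (Nat.mul nu (sqU T)) 100000000))) u huL (by omega)
    refine le_trans ?_ h1
    rw [← Finset.add_sum_erase _ _ huN]
    have hgu : (bs ++ cr).getD u 0 = bs[u] := by
      rw [List.getD_append _ _ _ _ huL, List.getD_eq_getElem _ _ huL]
    refine add_le_add ?_ ?_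
    · have h2 := hb u huL
      have h0 : 0 ≤ β u * 100000000 := mul_nonneg (hβ u) (by norm_num)
      have h3 : c u * (β u * 100000000) ≤ 1 * (β u * 100000000) :=
        mul_le_mul_of_nonneg_right (hc1 u) h0
      linarith
    · refine (hCS _ (Finset.erase_subset _ _) (Finset.notMem_erase _ _)).trans ?_
      refine mul_le_mul_of_nonneg_left (Real.sqrt_le_sqrt ?_) hnu
      have h2 := Finset.add_sum_erase (Finset.range N)
        (fun i => (((bs ++ cr).getD i 0 : ℕ) : ℝ) ^ 2) huN
      simp only [hSum, hgu] at h2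
      linarith
  · have h1 : (((Nat.succ (Nat.add (maxL cr) (Nat.div (Nat.mul nu (sqU T)) 100000000))) : ℕ) : ℝ) ≤
        ((ballMxE nu ex T bs 0
      (Nat.succ (Nat.add (maxL cr) (Nat.div (Nat.mul nu (sqU T)) 100000000))) : ℕ) : ℝ) := by
      exact_mod_cast ballMxE_ge _ _ _ _ _ _
    refine le_trans ?_ h1
    have h2 : ((Nat.succ (Nat.add (maxL cr) (Nat.div (Nat.mul nu (sqU T)) 100000000)) : ℕ) : ℝ)
        = (maxL cr : ℝ) + ((Nat.succ (Nat.div (Nat.mul nu (sqU T)) 100000000) : ℕ) : ℝ) := by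
      have h9 : (Nat.succ (Nat.add (maxL cr) (Nat.div (Nat.mul nu (sqU T)) 100000000)) : ℕ)
        = maxL cr + (Nat.succ (Nat.div (Nat.mul nu (sqU T)) 100000000)) := rfl
      rw [h9, Nat.cast_add]
    rw [h2]
    have h3 := WBall_div nu T _ (WBall_sqU T)
    have h4 : ∑ i ∈ (Finset.range N).erase u, c i * (β i * 100000000) ≤
        ((Nat.succ (Nat.div (Nat.mul nu (sqU T)) 100000000) : ℕ) : ℝ) := by
      refine (hCS _ (Finset.erase_subset _ _) (Finset.notMem_erase _ _)).trans (le_trans ?_ h3)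
      refine mul_le_mul_of_nonneg_left (Real.sqrt_le_sqrt ?_) hnu
      rw [← hSum]
      exact Finset.sum_le_sum_of_subset_of_nonneg (Finset.erase_subset _ _)
        (fun i _ _ => by positivity)
    by_cases huN : u ∈ Finset.range N
    · rw [← Finset.add_sum_erase _ _ huN]
      refine add_le_add ?_ h4
      rw [Finset.mem_range] at huN
      have h5 : u - bs.length < cr.length := by omega
      have h6 := hcr (u - bs.length) h5
      rw [show bs.length + (u - bs.length) = u by omega] at h6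
      have h7 : ((cr[u - bs.length] : ℕ) : ℝ) ≤ (maxL cr : ℝ) := by
        exact_mod_cast WBall_maxL cr _ h5
      have h0 : 0 ≤ β u * 100000000 := mul_nonneg (hβ u) (by norm_num)
      have h8 : c u * (β u * 100000000) ≤ 1 * (β u * 100000000) :=
        mul_le_mul_of_nonneg_right (hc1 u) h0
      linarith
    · rw [Finset.erase_eq_of_notMem huN] at h4
      have h5 : (0 : ℝ) ≤ (maxL cr : ℝ) := by positivity
      linarith

end Pool.Agent.MaxTerm58
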