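import Pool.Agent.MaxTerm58.CheckS

/-! A generic check for two-sided sequences `v`: the value at the corner `X = 0, 1, 2` of the position `n : ℤ` is
`v n * s ^ eaZ m1 X n * t ^ ebZ kd X n` (`kd = 0`: no second parameter). Positions `n = e` (`g = true`) or
`n = -e` (`g = false`). -/

namespace Pool.Agent.MaxTerm58

/-- a position with the weight `10^(-8) k |s|^al |t|^be` -/
structure PosW where
  g : Bool
  e : Nat
  k : Nat
  al : Nat
  be : Nat

/-- exponent of the first parameter -/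
def eaN (m1 X : Nat) (g : Bool) (e : Nat) : Nat :=
  bif Nat.beq X 0 then (bif g then Nat.add e m1 else Nat.sub m1 e) else (bif g then 0 else Nat.sub e m1)

/-- exponent of the second parameter -/
def ebN (kd X : Nat) (g : Bool) (e : Nat) : Nat :=
  bif Nat.beq kd 0 then 0 else bif Nat.beq X 2 then (bif g then 0 else e) else (bif g then e else 0)

/-- initial state: node, `h`, `h` -/
def initW (l : List (PC × PC)) : StP := l.map fun x => (x.1, x.2, x.2)

def PM.zero : PM := ⟨⟨0, 0⟩, ⟨0, 0⟩, ⟨0, 0⟩, ⟨0, 0⟩, ⟨0, 0⟩, ⟨0, 0⟩⟩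

/-- the moment of the list `X` at the position -/
def PM.at (m : PM) (X : Nat) (g : Bool) : PC :=
  bif g then (bif Nat.beq X 0 then m.ua else bif Nat.beq X 1 then m.ub else m.uc)
  else (bif Nat.beq X 0 then m.va else bif Nat.beq X 1 then m.vb else m.vc)

/-- a monomial of the polynomial of a position; `al`, `be` additional exponents -/
def tmW (kd m1 X : Nat) (m : PC) (g : Bool) (e al be : Nat) : TmP :=
  ⟨m, Nat.add (eaN m1 X g e) al, Nat.add (ebN kd X g e) be⟩

/-- the polynomial of a position -/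
def itW (kd m1 : Nat) (m : PM) (p : PosW) : ItP :=
  ⟨Nat.mul 100000 (Nat.pow 32045 p.e),
   Nat.add (bif p.g then Nat.add p.e m1 else Nat.add (Nat.sub m1 p.e) (Nat.sub p.e m1)) p.al,
   Nat.add (bif Nat.beq kd 0 then 0 else p.e) p.be,
   [tmW kd m1 0 (m.at 0 p.g) p.g p.e p.al p.be, tmW kd m1 1 (m.at 1 p.g) p.g p.e p.al p.be,
    tmW kd m1 2 (m.at 2 p.g) p.g p.e p.al p.be]⟩

/-- the weighted polynomials of a list of positions -/
def lsW (kd m1 : Nat) (ms : List PM) : List PosW → List (Nat × ItP)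
  | [] => []
  | p :: l => (p.k, itW kd m1 (ms.getD p.e PM.zero) p) :: lsW kd m1 ms l

/-- the monomials of the main term, common denominator `100000 * 32045^E0` -/
def mainT (kd m1 E0 : Nat) (ms : List PM) : List (Bool × Nat) → List TmP
  | [] => []
  | p :: l =>
    tmW kd m1 0 (((ms.getD p.2 PM.zero).at 0 p.1).smul (Nat.pow 32045 (Nat.sub E0 p.2))) p.1 p.2 0 0 ::
    tmW kd m1 1 (((ms.getD p.2 PM.zero).at 1 p.1).smul (Nat.pow 32045 (Nat.sub E0 p.2))) p.1 p.2 0 0 ::
    tmW kd m1 2 (((ms.getD p.2 PM.zero).at 2 p.1).smul (Nat.pow 32045 (Nat.sub E0 p.2))) p.1 p.2 0 0 ::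
    mainT kd m1 E0 ms l

def mainW (kd m1 E0 A0 B0 : Nat) (ms : List PM) (fx : List (Bool × Nat)) : ItP :=
  ⟨Nat.mul 100000 (Nat.pow 32045 E0), A0, B0, mainT kd m1 E0 ms fx⟩

/-- as `ballMx`, exceptional index `ex` -/
def ballMxE (nu ex S : Nat) : List Nat → Nat → Nat → Nat
  | [], _, acc => acc
  | b :: l, u, acc =>
    ballMxE nu ex S l (Nat.succ u) (bif Nat.beq u ex then acc else
      maxU acc (Nat.succ (Nat.add b (Nat.div (Nat.mul nu (sqU (Nat.sub S (Nat.mul b b)))) 100000000))))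

/-- upper bound for `sum c_i b_i`, `c` in the ball of radius `nu` except for one coordinate, which is not
the coordinate `ex` and is at most one -/
def ballPE (nu ex scr mcr : Nat) (bs : List Nat) : Nat :=
  ballMxE nu ex (Nat.add scr (sqSum bs)) bs 0
    (Nat.succ (Nat.add mcr (Nat.div (Nat.mul nu (sqU (Nat.add scr (sqSum bs)))) 100000000)))

/-- a group of positions with the ball constraint -/
structure GrW where
  nu : Nat
  ex : Nat
  its : List PosW
  crd : List PosW

/-- penalty of a group at a vertex -/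
def penG (nu ex scr mcr : Nat) (c d : PC) (Q R : Nat) (l : List (Nat × ItP)) : Nat :=
  ballPE nu ex scr mcr (bAbs c d Q R l)

/-- the vertices -/
def coreW (cl dl : List (Nat × Nat)) (Q R nuR exR scR mcR nuL exL scL mcL : Nat) (M : ItP)
    (BX RG LG : List (Nat × ItP)) (tot : Nat) : Bool :=
  cl.all fun cc => dl.all fun dd =>
    vtxG (itV (encP 100000 cc.1 cc.2) (encP 100000 dd.1 dd.2) Q R M) (itDen Q R M)
      (Nat.add (wAbs (encP 100000 cc.1 cc.2) (encP 100000 dd.1 dd.2) Q R BX 0)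
        (Nat.add (penG nuR exR scR mcR (encP 100000 cc.1 cc.2) (encP 100000 dd.1 dd.2) Q R RG)
          (penG nuL exL scL mcL (encP 100000 cc.1 cc.2) (encP 100000 dd.1 dd.2) Q R LG))) tot

/-- constant part of the bound, times `10^11` -/
def totW (rq rp Q R tail : Nat) (M : ItP) (BX RG LG : List (Nat × ItP)) (cr : List Nat) : Nat :=
  Nat.add 170919000000 (Nat.mul 1000 (Nat.add (Nat.add (itErr rq rp Q R M) (wErr rq rp Q R BX 0))
    (Nat.add (Nat.add (wErr rq rp Q R RG 0) (wErr rq rp Q R LG 0)) (Nat.add (sumL cr) tail))))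

def checkW2 (cl dl : List (Nat × Nat)) (Q R rq rp rqc rpc tail nuR exR nuL exL : Nat) (M : ItP)
    (BX BC RG RC LG LC : List (Nat × ItP)) : Bool :=
  szOK Q R M && BX.all (fun z => szOK Q R z.2) && RG.all (fun z => szOK Q R z.2) &&
  LG.all (fun z => szOK Q R z.2) &&
  BC.all (fun z => szM z.2) && RC.all (fun z => szM z.2) && LC.all (fun z => szM z.2) &&
  coreW cl dl Q R nuR exR (sqSum (bCr rqc rpc RC)) (maxL (bCr rqc rpc RC))
    nuL exL (sqSum (bCr rqc rpc LC)) (maxL (bCr rqc rpc LC)) M BX RG LG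
    (totW rq rp Q R tail M BX RG LG (bCr rqc rpc BC))

def checkW1 (cl dl : List (Nat × Nat)) (kd m1 E0 A0 B0 Q R rq rp rqc rpc tail : Nat)
    (fx : List (Bool × Nat)) (BX BC : List PosW) (gR gL : GrW) (ms : List PM) : Bool :=
  checkW2 cl dl Q R rq rp rqc rpc tail gR.nu gR.ex gL.nu gL.ex (mainW kd m1 E0 A0 B0 ms fx)
    (lsW kd m1 ms BX) (lsW kd m1 ms BC) (lsW kd m1 ms gR.its) (lsW kd m1 ms gR.crd)
    (lsW kd m1 ms gL.its) (lsW kd m1 ms gL.crd)

/-- side conditions -/
def sideW (x y Q R P E0 : Nat) (fx : List (Bool × Nat)) (BX BC : List PosW) (gR gL : GrW)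
    (la lb lc : List Nat) : Bool :=
  Nat.ble 1 Q && Nat.ble 1 R && Nat.ble Q 4096 && Nat.ble R 4096 && 
  Nat.ble (Nat.succ (absD x)) (Nat.mul 2 Q) && Nat.ble (Nat.succ (absD y)) (Nat.mul 2 Q) &&
  la.all okP && lb.all okP && lc.all okP &&
  Nat.ble (Nat.add (wsumP la) (Nat.add (wsumP lb) (wsumP lc))) 100000000 &&
  fx.all (fun p => Nat.ble p.2 E0 && Nat.ble p.2 P) &&
  BX.all (fun p => Nat.ble p.e P) && BC.all (fun p => Nat.ble p.e P) &&
  gR.its.all (fun p => Nat.ble p.e P) && gR.crd.all (fun p => Nat.ble p.e P) &&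
  gL.its.all (fun p => Nat.ble p.e P) && gL.crd.all (fun p => Nat.ble p.e P)

/-- the check of a leaf; `rq`, `rp` bounds for `10^4 |s|`, `10^4 |t|` on the cell and `0.1`-neighbourhood of
its vertices (radii of the vertices), `rqc`, `rpc` bounds for the parameters themselves -/
def checkW (dl : List (Nat × Nat)) (kd m1 P E0 A0 B0 x y Q R rp rqc rpc tail : Nat) (fx : List (Bool × Nat))
    (BX BC : List PosW) (gR gL : GrW) (la lb lc : List Nat) : Bool :=
  sideW x y Q R P E0 fx BX BC gR gL la lb lc &&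
  checkW1 (crnL x y) dl kd m1 E0 A0 B0 Q R (radS Q x y) rp rqc rpc tail fx BX BC gR gL
    (momsP (Nat.succ P) (initW (la.map (decP))) (initW (lb.map (decP))) (initW (lc.map (decP))))

/-- positions in an arithmetic progression with the weights `w i` -/
def posL (g : Bool) (w : Nat → Nat × Nat × Nat) : Nat → Nat → Nat → List PosW
  | 0, _, _ => []
  | f+1, e, i => ⟨g, e, (w i).1, (w i).2.1, (w i).2.2⟩ :: posL g w f (Nat.succ e) (Nat.succ i)

end Pool.Agent.MaxTerm58
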