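import Pool.Agent.MaxTerm58.WRep
import Pool.Agent.MaxTerm58.DualInf

/-! The corner functions of a two-sided sequence and the dual inequality. Hints: `lamC`, `wtC` by induction on the
lists; models `DualInf.lean`, `DualS.lean`; `G_X(z) = sum' v n * (s^a * t^b) * z^n`, multiply by the weights of the
nodes and add; `Summable.of_norm_bounded` with `‖v n‖` (the parameters and the nodes have modulus at most one). -/

namespace Pool.Agent.MaxTerm58

/-- all corner functions of `v` are bounded by `B` -/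
structure HypV (kd m1 : ℕ) (s t : ℂ) (v : ℤ → ℂ) : Prop where
  s_le : ‖s‖ ≤ 1
  t_le : ‖t‖ ≤ 1
  summ : Summable fun n => ‖v n‖
  bd : ∀ X < 3, ∀ z : ℂ, ‖z‖ = 1 →
    ‖∑' n : ℤ, v n * (s ^ eaZ m1 X n * t ^ ebZ kd X n) * z ^ n‖ ≤ 170919 / 100000

/-- bound for the multiplier of `v n` -/
noncomputable def gW (kd m1 : ℕ) (s t : ℂ) (wa wb wc : ℝ) (n : ℤ) : ℝ :=
  wa * (‖s‖ ^ eaZ m1 0 n * ‖t‖ ^ ebZ kd 0 n) + wb * (‖s‖ ^ eaZ m1 1 n * ‖t‖ ^ ebZ kd 1 n) +
    wc * (‖s‖ ^ eaZ m1 2 n * ‖t‖ ^ ebZ kd 2 n)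

/-- the sum over all positions is the sum over the list up to `τ` -/
def SplitOK (v : ℤ → ℂ) (G : ℤ → ℝ) (l : List ℤ) (τ : ℝ) : Prop :=
  ∀ g : ℤ → ℂ, (∀ n, ‖g n‖ ≤ G n) → (∀ n, ‖g n‖ ≤ 1) →
    ‖∑' n, v n * g n - (l.map fun n => v n * g n).sum‖ ≤ τ

private theorem WDual_cons (x : ℂ × ℂ) (t : List (ℂ × ℂ)) (k : ℤ) :
    lamC (x :: t) k = x.2 * x.1 ^ k + lamC t k := by
  simp [lamC]

private theorem WDual_wt (x : ℂ × ℂ) (t : List (ℂ × ℂ)) :
    wtC (x :: t) = ‖x.2‖ + wtC t := by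
  simp [wtC]

private theorem WDual_wt_nonneg (nd : List (ℂ × ℂ)) : 0 ≤ wtC nd := by
  induction nd with
  | nil => simp [wtC]
  | cons x t ih =>
    rw [WDual_wt]
    exact add_nonneg (norm_nonneg _) ih

private theorem WDual_summable (nd : List (ℂ × ℂ)) (h : ∀ x ∈ nd, ‖x.1‖ = 1) {c : ℤ → ℂ}
    (hc : Summable fun i => ‖c i‖) : Summable fun i => c i * lamC nd i := by
  refine Summable.of_norm_bounded (hc.mul_right (wtC nd)) fun i => ?_
  rw [norm_mul]
  exact mul_le_mul_of_nonneg_left (lamC_le nd h _) (norm_nonneg _)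

private theorem WDual_tsum (nd : List (ℂ × ℂ)) (h : ∀ x ∈ nd, ‖x.1‖ = 1) {c : ℤ → ℂ}
    (hc : Summable fun i => ‖c i‖) :
    (nd.map fun x => x.2 * ∑' i, c i * x.1 ^ i).sum = ∑' i, c i * lamC nd i := by
  induction nd with
  | nil => simp [lamC]
  | cons x t ih =>
    have ht : ∀ y ∈ t, ‖y.1‖ = 1 := fun y hy => h y (List.mem_cons_of_mem _ hy)
    rw [List.map_cons, List.sum_cons, ih ht, ← tsum_mul_left]
    have h1 : Summable fun i : ℤ => x.2 * (c i * x.1 ^ i) := by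
      refine Summable.mul_left _ (Summable.of_norm ?_)
      refine hc.congr fun i => ?_
      rw [norm_mul, norm_zpow, h x List.mem_cons_self, one_zpow, mul_one]
    rw [← h1.tsum_add (WDual_summable t ht hc)]
    refine tsum_congr fun i => ?_
    rw [WDual_cons]
    ring

private theorem WDual_norm (nd : List (ℂ × ℂ)) (h : ∀ x ∈ nd, ‖x.1‖ = 1) {g : ℂ → ℂ} {B : ℝ}
    (hg : ∀ z : ℂ, ‖z‖ = 1 → ‖g z‖ ≤ B) :
    ‖(nd.map fun x => x.2 * g x.1).sum‖ ≤ B * wtC nd := by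
  induction nd with
  | nil => simp [wtC]
  | cons x t ih =>
    rw [List.map_cons, List.sum_cons, WDual_wt, mul_add]
    refine (norm_add_le _ _).trans (add_le_add ?_ (ih fun y hy => h y (List.mem_cons_of_mem _ hy)))
    rw [norm_mul, mul_comm]
    exact mul_le_mul_of_nonneg_right (hg _ (h x List.mem_cons_self)) (norm_nonneg _)

theorem fW_pval (kd m1 : ℕ) (A B C : ℤ → ℂ) (n : ℤ) (al be : ℕ) (s t : ℂ) :
    pval (fW kd m1 A B C n al be) s t = s ^ al * t ^ be * pval (fW kd m1 A B C n 0 0) s t := by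
  simp only [pval, fW, List.map_cons, List.map_nil, List.sum_cons, List.sum_nil, add_zero, pow_add]
  ring

private theorem WDual_pval0 (kd m1 : ℕ) (A B C : ℤ → ℂ) (n : ℤ) (s t : ℂ) :
    pval (fW kd m1 A B C n 0 0) s t = A n * (s ^ eaZ m1 0 n * t ^ ebZ kd 0 n) +
      B n * (s ^ eaZ m1 1 n * t ^ ebZ kd 1 n) + C n * (s ^ eaZ m1 2 n * t ^ ebZ kd 2 n) := by
  simp only [pval, fW, List.map_cons, List.map_nil, List.sum_cons, List.sum_nil, add_zero]
  ring

theorem fW_norm (kd m1 : ℕ) (a b e : List (ℂ × ℂ)) (ha : ∀ x ∈ a, ‖x.1‖ = 1) (hb : ∀ x ∈ b, ‖x.1‖ = 1)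
    (he : ∀ x ∈ e, ‖x.1‖ = 1) (n : ℤ) (s t : ℂ) :
    ‖pval (fW kd m1 (lamC a) (lamC b) (lamC e) n 0 0) s t‖ ≤ gW kd m1 s t (wtC a) (wtC b) (wtC e) n := by
  rw [WDual_pval0]
  unfold gW
  refine norm_add₃_le.trans (add_le_add (add_le_add ?_ ?_) ?_)
  · rw [norm_mul, norm_mul, norm_pow, norm_pow]
    exact mul_le_mul_of_nonneg_right (lamC_le a ha n) (by positivity)
  · rw [norm_mul, norm_mul, norm_pow, norm_pow]
    exact mul_le_mul_of_nonneg_right (lamC_le b hb n) (by positivity)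
  · rw [norm_mul, norm_mul, norm_pow, norm_pow]
    exact mul_le_mul_of_nonneg_right (lamC_le e he n) (by positivity)

private theorem WDual_gW_le {kd m1 : ℕ} {s t : ℂ} (hs : ‖s‖ ≤ 1) (ht : ‖t‖ ≤ 1) {wa wb wc : ℝ}
    (ha : 0 ≤ wa) (hb : 0 ≤ wb) (hc : 0 ≤ wc) (n : ℤ) : gW kd m1 s t wa wb wc n ≤ wa + wb + wc := by
  have key : ∀ i j : ℕ, ‖s‖ ^ i * ‖t‖ ^ j ≤ 1 := fun i j =>
    mul_le_one₀ (pow_le_one₀ (norm_nonneg _) hs) (by positivity) (pow_le_one₀ (norm_nonneg _) ht)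
  unfold gW
  exact add_le_add (add_le_add (mul_le_of_le_one_right ha (key _ _)) (mul_le_of_le_one_right hb (key _ _)))
    (mul_le_of_le_one_right hc (key _ _))

theorem w_dual {kd m1 : ℕ} {s t : ℂ} {v : ℤ → ℂ} (H : HypV kd m1 s t v) (a b e : List (ℂ × ℂ))
    (ha : ∀ x ∈ a, ‖x.1‖ = 1) (hb : ∀ x ∈ b, ‖x.1‖ = 1) (he : ∀ x ∈ e, ‖x.1‖ = 1)
    (hw : wtC a + wtC b + wtC e ≤ 1) :
    (∑' n : ℤ, v n * pval (fW kd m1 (lamC a) (lamC b) (lamC e) n 0 0) s t).re ≤ 170919 / 100000 := by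
  have hc : ∀ X : ℕ, Summable fun n : ℤ => ‖v n * (s ^ eaZ m1 X n * t ^ ebZ kd X n)‖ := by
    intro X
    refine Summable.of_nonneg_of_le (fun _ => norm_nonneg _) (fun n => ?_) H.summ
    rw [norm_mul, norm_mul, norm_pow, norm_pow]
    exact mul_le_of_le_one_right (norm_nonneg _) (mul_le_one₀ (pow_le_one₀ (norm_nonneg _) H.s_le)
      (by positivity) (pow_le_one₀ (norm_nonneg _) H.t_le))
  have sA := WDual_summable a ha (hc 0)
  have sB := WDual_summable b hb (hc 1)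
  have sC := WDual_summable e he (hc 2)
  have tA := WDual_tsum a ha (hc 0)
  have tB := WDual_tsum b hb (hc 1)
  have tC := WDual_tsum e he (hc 2)
  have nA := WDual_norm a ha (H.bd 0 (by norm_num))
  have nB := WDual_norm b hb (H.bd 1 (by norm_num))
  have nC := WDual_norm e he (H.bd 2 (by norm_num))
  have e1 : (∑' n : ℤ, v n * pval (fW kd m1 (lamC a) (lamC b) (lamC e) n 0 0) s t) =
      (∑' n : ℤ, v n * (s ^ eaZ m1 0 n * t ^ ebZ kd 0 n) * lamC a n) +
      (∑' n : ℤ, v n * (s ^ eaZ m1 1 n * t ^ ebZ kd 1 n) * lamC b n) +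
      (∑' n : ℤ, v n * (s ^ eaZ m1 2 n * t ^ ebZ kd 2 n) * lamC e n) := by
    rw [← sA.tsum_add sB, ← (sA.add sB).tsum_add sC]
    refine tsum_congr fun n => ?_
    rw [WDual_pval0]
    ring
  rw [e1, ← tA, ← tB, ← tC]
  refine (Complex.re_le_norm _).trans (norm_add₃_le.trans ?_)
  have w1 := WDual_wt_nonneg a
  have w2 := WDual_wt_nonneg b
  have w3 := WDual_wt_nonneg e
  nlinarith

private theorem WDual_flat (f : ℤ → List (ℂ × ℕ × ℕ)) (l : List ℤ) (s t : ℂ) :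
    pval (l.flatMap f) s t = (l.map fun n => pval (f n) s t).sum := by
  induction l with
  | nil => simp [pval]
  | cons x l ih =>
    rw [List.flatMap_cons, List.map_cons, List.sum_cons, ← ih]
    simp [pval]

private theorem WDual_sumnorm (l : List ℤ) (f : ℤ → ℂ) : ‖(l.map f).sum‖ ≤ (l.map fun n => ‖f n‖).sum := by
  induction l with
  | nil => simp
  | cons x l ih =>
    rw [List.map_cons, List.sum_cons, List.map_cons, List.sum_cons]
    exact (norm_add_le _ _).trans (add_le_add le_rfl ih)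

/-- the finite dual inequality: `fx` fixed positions, `l` the other ones -/
theorem w_core {kd m1 : ℕ} {s t : ℂ} {v : ℤ → ℂ} (H : HypV kd m1 s t v) (a b e : List (ℂ × ℂ))
    (ha : ∀ x ∈ a, ‖x.1‖ = 1) (hb : ∀ x ∈ b, ‖x.1‖ = 1) (he : ∀ x ∈ e, ‖x.1‖ = 1)
    (hw : wtC a + wtC b + wtC e ≤ 1) (fx l : List ℤ) (τ : ℝ) (hfx : ∀ n ∈ fx, v n = 1)
    (hsp : SplitOK v (gW kd m1 s t (wtC a) (wtC b) (wtC e)) (fx ++ l) τ) :
    (pval (fx.flatMap fun n => fW kd m1 (lamC a) (lamC b) (lamC e) n 0 0) s t).re ≤ 170919 / 100000 + τ +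
      (l.map fun n => ‖v n‖ * ‖pval (fW kd m1 (lamC a) (lamC b) (lamC e) n 0 0) s t‖).sum := by
  have hg := fW_norm kd m1 a b e ha hb he
  have h1 := hsp (fun n => pval (fW kd m1 (lamC a) (lamC b) (lamC e) n 0 0) s t)
    (fun n => hg n s t) (fun n => (hg n s t).trans ((WDual_gW_le H.s_le H.t_le (WDual_wt_nonneg a)
      (WDual_wt_nonneg b) (WDual_wt_nonneg e) n).trans hw))
  have h2 := w_dual H a b e ha hb he hw
  have h3 : ((fx ++ l).map fun n => v n * pval (fW kd m1 (lamC a) (lamC b) (lamC e) n 0 0) s t).sum =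
      pval (fx.flatMap fun n => fW kd m1 (lamC a) (lamC b) (lamC e) n 0 0) s t +
      (l.map fun n => v n * pval (fW kd m1 (lamC a) (lamC b) (lamC e) n 0 0) s t).sum := by
    rw [List.map_append, List.sum_append, WDual_flat]
    congr 2
    refine List.map_congr_left fun n hn => ?_
    rw [hfx n hn, one_mul]
  have h4 : ‖(l.map fun n => v n * pval (fW kd m1 (lamC a) (lamC b) (lamC e) n 0 0) s t).sum‖ ≤
      (l.map fun n => ‖v n‖ * ‖pval (fW kd m1 (lamC a) (lamC b) (lamC e) n 0 0) s t‖).sum := by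
    refine (WDual_sumnorm _ _).trans (le_of_eq ?_)
    simp only [norm_mul]
  rw [h3] at h1
  set S := ∑' n, v n * pval (fW kd m1 (lamC a) (lamC b) (lamC e) n 0 0) s t
  set F := pval (fx.flatMap fun n => fW kd m1 (lamC a) (lamC b) (lamC e) n 0 0) s t
  set L := (l.map fun n => v n * pval (fW kd m1 (lamC a) (lamC b) (lamC e) n 0 0) s t).sum
  have h5 : F.re = S.re - (S - (F + L)).re - L.re := by
    simp only [Complex.sub_re, Complex.add_re]
    ring
  have h6 := Complex.abs_re_le_norm (S - (F + L))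
  have h7 := Complex.abs_re_le_norm L
  have h8 := neg_abs_le (S - (F + L)).re
  have h9 := neg_abs_le L.re
  rw [h5]
  linarith

private theorem WDual_lr0 (f : ℕ → ℂ) (n : ℕ) : ((List.range n).map f).sum = ∑ i ∈ Finset.range n, f i := by
  induction n with
  | zero => simp
  | succ n ih => rw [List.range_succ, List.map_append, List.sum_append, ih, Finset.sum_range_succ]; simp

private theorem WDual_lr (F : ℤ → ℂ) (n : ℕ) :
    (List.map F (do
      let a ← List.range n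
      pure (a : ℤ))).sum = ∑ i ∈ Finset.range n, F (i : ℤ) := by
  rw [← WDual_lr0 (fun i => F (i : ℤ)) n]
  congr 1
  induction List.range n with
  | nil => rfl
  | cons x l ih =>
    rw [List.map_cons, ← ih]
    rfl

/-- the splitting for a window of positions `-m2 - PL, .., b + PR` -/
theorem splitOK_window (v : ℤ → ℂ) (hv : Summable fun n => ‖v n‖) (G : ℤ → ℝ) (hG : ∀ n, 0 ≤ G n)
    (m2 b PL PR : ℕ) (l : List ℤ)
    (hl : l.Perm ((List.range (m2 + b + 1)).map (fun i => (i : ℤ) - m2) ++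
      ((List.range PR).map (fun i => (b : ℤ) + 1 + i) ++ (List.range PL).map (fun i => -(m2 : ℤ) - 1 - i))))
    (γR γL τR τL : ℝ) (hγR : ∀ i : ℕ, G ((b : ℤ) + 1 + PR + i) ≤ γR)
    (hγL : ∀ i : ℕ, G (-(m2 : ℤ) - 1 - PL - i) ≤ γL)
    (hτR : ∑' i : ℕ, ‖v ((b : ℤ) + 1 + PR + i)‖ ≤ τR) (hτL : ∑' i : ℕ, ‖v (-(m2 : ℤ) - 1 - PL - i)‖ ≤ τL) :
    SplitOK v G l (γR * τR + γL * τL) := by
  intro g hgG hg1
  have hf : Summable fun n => ‖v n * g n‖ := by
    refine Summable.of_nonneg_of_le (fun _ => norm_nonneg _) (fun n => ?_) hv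
    rw [norm_mul]
    exact mul_le_of_le_one_right (norm_nonneg _) (hg1 n)
  have hinjR : Function.Injective (fun i : ℕ => (b : ℤ) + 1 + PR + i) := fun i j h => by
    simp only at h; omega
  have hinjL : Function.Injective (fun i : ℕ => -(m2 : ℤ) - 1 - PL - i) := fun i j h => by
    simp only at h; omega
  have hinj1 : Function.Injective (fun i : ℕ => (i : ℤ)) := fun i j h => by simp only at h; omega
  have hinj2 : Function.Injective (fun i : ℕ => -((i : ℤ) + 1)) := fun i j h => by simp only at h; omega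
  have tailb : ∀ (k : ℕ → ℤ) (γ τ : ℝ), Function.Injective k → (∀ i, G (k i) ≤ γ) →
      ∑' i, ‖v (k i)‖ ≤ τ → ‖∑' i, v (k i) * g (k i)‖ ≤ γ * τ := by
    intro k γ τ hk hγ hτ
    have hγ0 : 0 ≤ γ := (hG _).trans (hγ 0)
    have s1 : Summable fun i => ‖v (k i) * g (k i)‖ := hf.comp_injective hk
    have s2 : Summable fun i => ‖v (k i)‖ := hv.comp_injective hk
    refine (norm_tsum_le_tsum_norm s1).trans ?_
    calc ∑' i, ‖v (k i) * g (k i)‖ ≤ ∑' i, γ * ‖v (k i)‖ := by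
          refine s1.tsum_le_tsum (fun i => ?_) (s2.mul_left γ)
          rw [norm_mul, mul_comm]
          exact mul_le_mul_of_nonneg_right ((hgG _).trans (hγ i)) (norm_nonneg _)
      _ = γ * ∑' i, ‖v (k i)‖ := tsum_mul_left
      _ ≤ γ * τ := mul_le_mul_of_nonneg_left hτ hγ0
  have hR := tailb _ γR τR hinjR hγR hτR
  have hL := tailb _ γL τL hinjL hγL hτL
  set f : ℤ → ℂ := fun n => v n * g n with hfdef
  have s1 : Summable fun i : ℕ => f (i : ℤ) := (hf.comp_injective hinj1).of_norm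
  have s2 : Summable fun i : ℕ => f (-((i : ℤ) + 1)) := (hf.comp_injective hinj2).of_norm
  have h1 : ∑' n, f n = ∑' i : ℕ, f (i : ℤ) + ∑' i : ℕ, f (-((i : ℤ) + 1)) :=
    tsum_of_nat_of_neg_add_one s1 s2
  have h2 := s1.sum_add_tsum_nat_add (b + 1 + PR)
  have h3 := s2.sum_add_tsum_nat_add (m2 + PL)
  have h4 : (l.map f).sum = ∑ i ∈ Finset.range (m2 + b + 1), f ((i : ℤ) - m2) +
      (∑ i ∈ Finset.range PR, f ((b : ℤ) + 1 + i) + ∑ i ∈ Finset.range PL, f (-(m2 : ℤ) - 1 - i)) := by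
    rw [(hl.map f).sum_eq, List.map_append, List.map_append, List.sum_append, List.sum_append]
    rw [List.map_map, List.map_map, List.map_map, WDual_lr, WDual_lr, WDual_lr]
    rfl
  have h5 : ∑ i ∈ Finset.range (m2 + b + 1), f ((i : ℤ) - m2) =
      ∑ i ∈ Finset.range m2, f (-((i : ℤ) + 1)) + ∑ i ∈ Finset.range (b + 1), f (i : ℤ) := by
    rw [add_assoc, Finset.sum_range_add]
    congr 1
    · rw [← Finset.sum_range_reflect]
      refine Finset.sum_congr rfl fun i hi => ?_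
      have := Finset.mem_range.1 hi
      congr 1
      omega
    · refine Finset.sum_congr rfl fun i _ => ?_
      congr 1
      push_cast
      ring
  have h6 : ∑ i ∈ Finset.range (b + 1 + PR), f (i : ℤ) = ∑ i ∈ Finset.range (b + 1), f (i : ℤ) +
      ∑ i ∈ Finset.range PR, f ((b : ℤ) + 1 + i) := by
    simp only [Finset.sum_range_add, Nat.cast_add, Nat.cast_one]
  have h7 : ∑ i ∈ Finset.range (m2 + PL), f (-((i : ℤ) + 1)) = ∑ i ∈ Finset.range m2, f (-((i : ℤ) + 1)) +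
      ∑ i ∈ Finset.range PL, f (-(m2 : ℤ) - 1 - i) := by
    rw [Finset.sum_range_add]
    congr 1
    refine Finset.sum_congr rfl fun i _ => ?_
    congr 1
    push_cast
    ring
  have h8 : ∑' i : ℕ, f (((i + (b + 1 + PR) : ℕ) : ℤ)) = ∑' i : ℕ, f ((b : ℤ) + 1 + PR + i) := by
    refine tsum_congr fun i => ?_
    congr 1
    push_cast
    ring
  have h9 : ∑' i : ℕ, f (-(((i + (m2 + PL) : ℕ) : ℤ) + 1)) = ∑' i : ℕ, f (-(m2 : ℤ) - 1 - PL - i) := by
    refine tsum_congr fun i => ?_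
    congr 1
    push_cast
    ring
  have h10 : ∑' n, f n - (l.map f).sum = ∑' i : ℕ, f ((b : ℤ) + 1 + PR + i) +
      ∑' i : ℕ, f (-(m2 : ℤ) - 1 - PL - i) := by
    rw [h1, ← h2, ← h3, h4, h5, h6, h7, h8, h9]
    ring
  change ‖∑' n, f n - (l.map f).sum‖ ≤ _
  rw [h10]
  exact (norm_add_le _ _).trans (add_le_add hR hL)

end Pool.Agent.MaxTerm58
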