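import Pool.Agent.MaxTerm58.WLeaf

/-! The window check for a family: fixed positions `fx` and inner positions `inn` between `-m2` and `b`, outer
positions `b + 1 + i` (weights `wR i`) and `-m2 - 1 - i` (weights `wL i`); mode `0`: box, otherwise ball. -/

namespace Pool.Agent.MaxTerm58

structure FamS where
  kd : Nat
  m1 : Nat
  m2 : Nat
  b : Nat
  E0 : Nat
  A0 : Nat
  B0 : Nat
  fx : List (Bool × Nat)
  inn : List PosW
  wR : Nat → Nat × Nat × Nat
  wL : Nat → Nat × Nat × Nat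
  mR : Nat
  mL : Nat
  nuR : Nat
  exR : Nat
  nuL : Nat
  exL : Nat
  nR : Nat
  nL : Nat
  PR : Nat
  PL : Nat
  tail : Nat
  rqc : Nat
  rpc : Nat

def famBX (F : FamS) : List PosW :=
  F.inn ++ ((bif Nat.beq F.mR 0 then posL true F.wR F.nR (Nat.succ F.b) 0 else []) ++
    (bif Nat.beq F.mL 0 then posL false F.wL F.nL (Nat.succ F.m2) 0 else []))

def famBC (F : FamS) : List PosW :=
  (bif Nat.beq F.mR 0 then posL true F.wR (Nat.sub F.PR F.nR) (Nat.add (Nat.succ F.b) F.nR) F.nR else []) ++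
    (bif Nat.beq F.mL 0 then posL false F.wL (Nat.sub F.PL F.nL) (Nat.add (Nat.succ F.m2) F.nL) F.nL else [])

def famGR (F : FamS) : GrW :=
  bif Nat.beq F.mR 0 then ⟨0, 0, [], []⟩ else
    ⟨F.nuR, F.exR, posL true F.wR F.nR (Nat.succ F.b) 0,
      posL true F.wR (Nat.sub F.PR F.nR) (Nat.add (Nat.succ F.b) F.nR) F.nR⟩

def famGL (F : FamS) : GrW :=
  bif Nat.beq F.mL 0 then ⟨0, 0, [], []⟩ else
    ⟨F.nuL, F.exL, posL false F.wL F.nL (Nat.succ F.m2) 0,
      posL false F.wL (Nat.sub F.PL F.nL) (Nat.add (Nat.succ F.m2) F.nL) F.nL⟩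

def FamS.chk (F : FamS) (dl : List (Nat × Nat)) (P x y Q R rp : Nat) (la lb lc : List Nat) : Bool :=
  Nat.ble F.nR F.PR && Nat.ble F.nL F.PL &&
  checkW dl F.kd F.m1 P F.E0 F.A0 F.B0 x y Q R rp F.rqc F.rpc F.tail F.fx (famBX F) (famBC F) (famGR F) (famGL F)
    la lb lc

/-- the weight -/
noncomputable def wtV (w : ℕ × ℕ × ℕ) (s t : ℂ) : ℝ :=
  (w.1 : ℝ) / 100000000 * (‖s‖ ^ w.2.1 * ‖t‖ ^ w.2.2)

/-- the constraint for the outer positions of one side -/
def SeqOK (md nu ex : ℕ) (w : ℕ → ℕ × ℕ × ℕ) (P : ℕ) (r : ℕ → ℂ) (s t : ℂ) : Prop :=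
  if md = 0 then ∀ i < P, ‖r i‖ ≤ wtV (w i) s t
  else ∃ (c : ℕ → ℝ) (u : ℕ), (∀ i, 0 ≤ c i) ∧ (∀ i, c i ≤ 1) ∧ u ≠ ex ∧
    (∀ S : Finset ℕ, u ∉ S → ∑ i ∈ S, c i ^ 2 ≤ ((nu : ℝ) / 100000000) ^ 2) ∧
    ∀ i < P, ‖r i‖ ≤ c i * wtV (w i) s t

private theorem WFam_append (g : Bool) (w : ℕ → ℕ × ℕ × ℕ) (a c e i : ℕ) :
    posL g w (a + c) e i = posL g w a e i ++ posL g w c (e + a) (i + a) := by
  induction a generalizing e i with
  | zero => simp [posL]
  | succ a ih =>
    rw [Nat.succ_add]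
    simp only [posL, List.cons_append]
    rw [ih]
    simp only [Nat.succ_eq_add_one, Nat.add_assoc, Nat.add_comm 1 a]

private theorem WFam_bx (s t : ℂ) (v : ℤ → ℂ) (g : Bool) (w : ℕ → ℕ × ℕ × ℕ) (f e : ℕ)
    (h : ∀ i < f, ‖v (posZ g (e + i))‖ ≤ wtV (w i) s t) (p : PosW) (hp : p ∈ posL g w f e 0) :
    ‖v p.z‖ ≤ (p.k : ℝ) / 100000000 * (‖s‖ ^ p.al * ‖t‖ ^ p.be) := by
  obtain ⟨i, hi, rfl⟩ := List.getElem_of_mem hp
  rw [posL_get]
  rw [posL_length] at hi
  have h1 := h i hi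
  simp only [Nat.zero_add]
  exact h1

private theorem WFam_grp (s t : ℂ) (v : ℤ → ℂ) (g : Bool) (w : ℕ → ℕ × ℕ × ℕ) (md nu ex f e : ℕ)
    (hmd : md ≠ 0) (h : SeqOK md nu ex w f (fun i => v (posZ g (e + i))) s t) :
    GrpOK s t v (posL g w f e 0) nu ex := by
  unfold SeqOK at h
  rw [if_neg hmd] at h
  obtain ⟨c, u, h0, h1, h2, h3, h4⟩ := h
  refine ⟨c, u, h0, h1, h2, h3, fun i hi => ?_⟩
  rw [posL_get]
  rw [posL_length] at hi
  have h5 := h4 i hi
  simp only [Nat.zero_add]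
  exact h5

private theorem WFam_do (F : ℤ → ℤ) (n : ℕ) :
    List.map F (do
      let a ← List.range n
      pure (a : ℤ)) = (List.range n).map fun i : ℕ => F (i : ℤ) := by
  induction List.range n with
  | nil => rfl
  | cons x l ih =>
    rw [List.map_cons, ← ih]
    rfl

private theorem WFam_perm (F : FamS) (hnR : F.nR ≤ F.PR) (hnL : F.nL ≤ F.PL) (A W : List ℤ)
    (hperm : (A ++ F.inn.map PosW.z).Perm W) :
    (A ++ ((famBX F ++ famBC F) ++ (((famGR F).its ++ (famGR F).crd) ++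
      ((famGL F).its ++ (famGL F).crd))).map PosW.z).Perm
    (W ++ ((posL true F.wR F.PR (F.b + 1) 0).map PosW.z ++ (posL false F.wL F.PL (F.m2 + 1) 0).map PosW.z)) := by
  have e1 : posL true F.wR F.PR (F.b + 1) 0 = posL true F.wR F.nR (F.b + 1) 0 ++
      posL true F.wR (F.PR - F.nR) (F.b + 1 + F.nR) F.nR := by
    have := WFam_append true F.wR F.nR (F.PR - F.nR) (F.b + 1) 0
    rwa [Nat.add_sub_cancel' hnR, Nat.zero_add] at this
  have e2 : posL false F.wL F.PL (F.m2 + 1) 0 = posL false F.wL F.nL (F.m2 + 1) 0 ++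
      posL false F.wL (F.PL - F.nL) (F.m2 + 1 + F.nL) F.nL := by
    have := WFam_append false F.wL F.nL (F.PL - F.nL) (F.m2 + 1) 0
    rwa [Nat.add_sub_cancel' hnL, Nat.zero_add] at this
  rw [e1, e2]
  have k : (W : Multiset ℤ) = A + (F.inn.map PosW.z : List ℤ) := by
    rw [Multiset.coe_add]
    exact (Multiset.coe_eq_coe.2 hperm).symm
  refine Multiset.coe_eq_coe.1 ?_
  unfold famBX famBC famGR famGL
  cases hR : Nat.beq F.mR 0 <;> cases hL : Nat.beq F.mL 0 <;>
  · simp only [cond_true, cond_false, List.map_append, ← Multiset.coe_add, List.map_nil, List.append_nil,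
      List.nil_append, Nat.succ_eq_add_one, Nat.add_eq, Nat.sub_eq, k]
    abel

theorem fam_sound (F : FamS) {dl : List (ℕ × ℕ)} {P x y Q R rp : ℕ} {la lb lc : List ℕ}
    (h : F.chk dl P x y Q R rp la lb lc = true)
    {s t : ℂ} {v : ℤ → ℂ} (H : HypV F.kd F.m1 s t v) (hs : InSq s x y Q)
    {w' : Fin 4 → ℝ} {δ : Fin 4 → ℂ} (ht : TSide t dl R rp w' δ)
    (hsc : ‖s‖ ≤ (F.rqc : ℝ) / 10000) (htc : ‖t‖ ≤ (F.rpc : ℝ) / 10000)
    (hfx : ∀ p ∈ F.fx, v (posZ p.1 p.2) = 1)
    (hperm : (F.fx.map (fun p => posZ p.1 p.2) ++ F.inn.map PosW.z).Perm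
      ((List.range (F.m2 + F.b + 1)).map (fun i => (i : ℤ) - F.m2)))
    (hinn : ∀ p ∈ F.inn, ‖v p.z‖ ≤ wtV (p.k, p.al, p.be) s t)
    (hR : SeqOK F.mR F.nuR F.exR F.wR F.PR (fun i => v ((F.b : ℤ) + 1 + i)) s t)
    (hL : SeqOK F.mL F.nuL F.exL F.wL F.PL (fun i => v (-(F.m2 : ℤ) - 1 - i)) s t)
    (γR γL τR τL : ℝ)
    (hγR : ∀ i : ℕ, gW F.kd F.m1 s t (wtC (la.map ndC)) (wtC (lb.map ndC)) (wtC (lc.map ndC))
      ((F.b : ℤ) + 1 + F.PR + i) ≤ γR)
    (hγL : ∀ i : ℕ, gW F.kd F.m1 s t (wtC (la.map ndC)) (wtC (lb.map ndC)) (wtC (lc.map ndC))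
      (-(F.m2 : ℤ) - 1 - F.PL - i) ≤ γL)
    (hτR : ∑' i : ℕ, ‖v ((F.b : ℤ) + 1 + F.PR + i)‖ ≤ τR)
    (hτL : ∑' i : ℕ, ‖v (-(F.m2 : ℤ) - 1 - F.PL - i)‖ ≤ τL)
    (htail : (γR * τR + γL * τL) * 100000000 ≤ (F.tail : ℝ)) : False := by
  have hc : (Nat.ble F.nR F.PR = true ∧ Nat.ble F.nL F.PL = true) ∧
      checkW dl F.kd F.m1 P F.E0 F.A0 F.B0 x y Q R rp F.rqc F.rpc F.tail F.fx (famBX F) (famBC F) (famGR F)
        (famGL F) la lb lc = true := by
    have := h
    unfold FamS.chk at this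
    rw [Bool.and_eq_true, Bool.and_eq_true] at this
    exact this
  obtain ⟨⟨hnR, hnL⟩, hck⟩ := hc
  have hnR := Nat.le_of_ble_eq_true hnR
  have hnL := Nat.le_of_ble_eq_true hnL
  have zR : ∀ i : ℕ, posZ true (F.b + 1 + i) = (F.b : ℤ) + 1 + i := by
    intro i
    simp [posZ]
  have zL : ∀ i : ℕ, posZ false (F.m2 + 1 + i) = -(F.m2 : ℤ) - 1 - i := by
    intro i
    simp only [posZ, Bool.false_eq_true, if_false]
    push_cast
    ring
  have hR' : SeqOK F.mR F.nuR F.exR F.wR F.PR (fun i => v (posZ true (F.b + 1 + i))) s t := by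
    simp only [zR]
    exact hR
  have hL' : SeqOK F.mL F.nuL F.exL F.wL F.PL (fun i => v (posZ false (F.m2 + 1 + i))) s t := by
    simp only [zL]
    exact hL
  have e1 : posL true F.wR F.PR (F.b + 1) 0 = posL true F.wR F.nR (F.b + 1) 0 ++
      posL true F.wR (F.PR - F.nR) (F.b + 1 + F.nR) F.nR := by
    have := WFam_append true F.wR F.nR (F.PR - F.nR) (F.b + 1) 0
    rwa [Nat.add_sub_cancel' hnR, Nat.zero_add] at this
  have e2 : posL false F.wL F.PL (F.m2 + 1) 0 = posL false F.wL F.nL (F.m2 + 1) 0 ++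
      posL false F.wL (F.PL - F.nL) (F.m2 + 1 + F.nL) F.nL := by
    have := WFam_append false F.wL F.nL (F.PL - F.nL) (F.m2 + 1) 0
    rwa [Nat.add_sub_cancel' hnL, Nat.zero_add] at this
  refine checkW_sound hck H hs ht hsc htc hfx ?_ ?_ ?_ ?_
  · intro p hp
    have hRm : Nat.beq F.mR 0 = true → ∀ p ∈ posL true F.wR F.PR (F.b + 1) 0,
        ‖v p.z‖ ≤ (p.k : ℝ) / 100000000 * (‖s‖ ^ p.al * ‖t‖ ^ p.be) := by
      intro hm p hp
      have hm := Nat.eq_of_beq_eq_true hm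
      unfold SeqOK at hR'
      rw [if_pos hm] at hR'
      exact WFam_bx s t v true F.wR F.PR (F.b + 1) hR' p hp
    have hLm : Nat.beq F.mL 0 = true → ∀ p ∈ posL false F.wL F.PL (F.m2 + 1) 0,
        ‖v p.z‖ ≤ (p.k : ℝ) / 100000000 * (‖s‖ ^ p.al * ‖t‖ ^ p.be) := by
      intro hm p hp
      have hm := Nat.eq_of_beq_eq_true hm
      unfold SeqOK at hL'
      rw [if_pos hm] at hL'
      exact WFam_bx s t v false F.wL F.PL (F.m2 + 1) hL' p hp
    rw [e1] at hRm
    rw [e2] at hLm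
    unfold famBX famBC at hp
    rcases List.mem_append.1 hp with hp | hp
    · rcases List.mem_append.1 hp with hp | hp
      · exact hinn p hp
      · rcases List.mem_append.1 hp with hp | hp
        · cases hm : Nat.beq F.mR 0
          · rw [hm] at hp
            exact absurd hp List.not_mem_nil
          · rw [hm] at hp
            exact hRm hm p (List.mem_append_left _ hp)
        · cases hm : Nat.beq F.mL 0
          · rw [hm] at hp
            exact absurd hp List.not_mem_nil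
          · rw [hm] at hp
            exact hLm hm p (List.mem_append_left _ hp)
    · rcases List.mem_append.1 hp with hp | hp
      · cases hm : Nat.beq F.mR 0
        · rw [hm] at hp
          exact absurd hp List.not_mem_nil
        · rw [hm] at hp
          exact hRm hm p (List.mem_append_right _ hp)
      · cases hm : Nat.beq F.mL 0
        · rw [hm] at hp
          exact absurd hp List.not_mem_nil
        · rw [hm] at hp
          exact hLm hm p (List.mem_append_right _ hp)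
  · unfold famGR
    cases hm : Nat.beq F.mR 0
    · have hm' : F.mR ≠ 0 := by
        intro h0
        rw [h0] at hm
        exact absurd hm (by decide)
      have := WFam_grp s t v true F.wR F.mR F.nuR F.exR F.PR (F.b + 1) hm' hR'
      rw [e1] at this
      exact this
    · exact GrpOK.nil s t v 0 0
  · unfold famGL
    cases hm : Nat.beq F.mL 0
    · have hm' : F.mL ≠ 0 := by
        intro h0
        rw [h0] at hm
        exact absurd hm (by decide)
      have := WFam_grp s t v false F.wL F.mL F.nuL F.exL F.PL (F.m2 + 1) hm' hL'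
      rw [e2] at this
      exact this
    · exact GrpOK.nil s t v 0 0
  · have hp := WFam_perm F hnR hnL _ _ hperm
    have eR : (posL true F.wR F.PR (F.b + 1) 0).map PosW.z =
        (List.range F.PR).map (fun i => (F.b : ℤ) + 1 + i) := by
      rw [posL_z, WFam_do]
      exact List.map_congr_left fun i _ => zR i
    have eL : (posL false F.wL F.PL (F.m2 + 1) 0).map PosW.z =
        (List.range F.PL).map (fun i => -(F.m2 : ℤ) - 1 - i) := by
      rw [posL_z, WFam_do]
      exact List.map_congr_left fun i _ => zL i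
    rw [eR, eL] at hp
    have hG : ∀ n, 0 ≤ gW F.kd F.m1 s t (wtC (la.map ndC)) (wtC (lb.map ndC)) (wtC (lc.map ndC)) n := by
      intro n
      have hw : ∀ l : List (ℂ × ℂ), 0 ≤ wtC l := fun l => by
        unfold wtC
        exact List.sum_nonneg fun x hx => by
          obtain ⟨y, _, rfl⟩ := List.mem_map.1 hx
          exact norm_nonneg _
      have h1 := hw (la.map ndC)
      have h2 := hw (lb.map ndC)
      have h3 := hw (lc.map ndC)
      unfold gW
      positivity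
    have hsp := splitOK_window v H.summ _ hG F.m2 F.b F.PL F.PR _ hp γR γL τR τL hγR hγL hτR hτL
    intro g hg1 hg2
    refine (hsp g hg1 hg2).trans ?_
    rw [le_div_iff₀ (by norm_num)]
    exact htail

end Pool.Agent.MaxTerm58
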