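import Pool.Agent.MaxTerm58.WTs
import Pool.Agent.MaxTerm58.WBall

/-! One vertex of the window check. Model: `LeafS_ball` in `LeafS.lean` (twice); `vtxG_spec`, `wAbs_spec`, `bAbs_spec`,
`ballPE_spec` with `β i = x.1 * ‖pval ..‖` for the entries of the list and the crude bounds beyond. -/

namespace Pool.Agent.MaxTerm58

private theorem WVtx_mapIdx {α : Type} (l : List α) (F : ℕ → α → ℝ) :
    (l.mapIdx F).sum = ∑ i : Fin l.length, F i l[i] := by
  rw [List.mapIdx_eq_ofFn, List.sum_ofFn]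
  rfl

/-- one group at a vertex -/
private theorem WVtx_grp {l : List (ℕ × ItP)} {L : List (ℝ × List (ℂ × ℕ × ℕ))} (h : LsRep l L)
    (Q R : ℕ) (hs : l.all (fun z => szOK Q R z.2) = true) (hQ : 0 < Q) (hR : 0 < R) (c d : PC)
    (cz dz : ℂ) (hc : CRep c cz) (hd : CRep d dz) (hq : ‖cz / Q‖ ≤ 3) (ht : ‖dz / R‖ ≤ 3)
    (nu ex : ℕ) (cr : List ℕ) (cf β : ℕ → ℝ) (hc0 : ∀ i, 0 ≤ cf i) (hc1 : ∀ i, cf i ≤ 1)
    (u : ℕ) (hu : u ≠ ex)
    (hball : ∀ s : Finset ℕ, u ∉ s → ∑ i ∈ s, cf i ^ 2 ≤ ((nu : ℝ) / 100000000) ^ 2)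
    (hβ0 : ∀ i, 0 ≤ β i) (hβ : ∀ i (hi : i < cr.length), β i * 100000000 ≤ ((cr[i] : ℕ) : ℝ)) :
    ((L.mapIdx fun i x => cf i * x.1 * ‖pval x.2 (cz / Q) (dz / R)‖).sum +
      ∑ k ∈ Finset.range cr.length, cf (L.length + k) * β k) * 100000000 ≤
      ((penG nu ex (sqSum cr) (maxL cr) c d Q R l : ℕ) : ℝ) := by
  have h5 := bAbs_spec h Q R hs hQ hR c d cz dz hc hd hq ht
  obtain ⟨hlen, h6⟩ := List.forall₂_iff_get.1 h5
  obtain ⟨hlen', h7⟩ := List.forall₂_iff_get.1 h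
  have hpos : ∀ i (hi : i < L.length), 0 ≤ (L[i]).1 := fun i hi => (h7 i (by omega) hi).1
  have h8 := ballPE_spec nu ex (bAbs c d Q R l) cr cf
    (fun i => if hi : i < L.length then (L[i]).1 * ‖pval (L[i]).2 (cz / Q) (dz / R)‖
      else β (i - L.length)) hc0 hc1 u hu hball
    (fun i => by
      by_cases hi : i < L.length
      · simp only [hi, dif_pos]
        exact mul_nonneg (hpos i hi) (norm_nonneg _)
      · simp only [hi, dif_neg, not_false_eq_true]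
        exact hβ0 _)
    (fun i hi => by
      have hi' : i < L.length := by rw [← hlen]; exact hi
      simp only [hi', dif_pos]
      exact h6 i hi hi')
    (fun i hi => by
      have hi' : ¬ ((bAbs c d Q R l).length + i < L.length) := by omega
      have e : (bAbs c d Q R l).length + i - L.length = i := by omega
      simp only [hi', dif_neg, not_false_eq_true]
      rw [e]
      exact hβ i hi)
  rw [hlen, Finset.sum_range_add] at h8
  have e1 : ∑ i ∈ Finset.range L.length, cf i *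
      (if hi : i < L.length then (L[i]).1 * ‖pval (L[i]).2 (cz / Q) (dz / R)‖
        else β (i - L.length)) =
      (L.mapIdx fun i x => cf i * x.1 * ‖pval x.2 (cz / Q) (dz / R)‖).sum := by
    rw [WVtx_mapIdx, Finset.sum_range]
    refine Finset.sum_congr rfl fun i _ => ?_
    rw [dif_pos i.2, mul_assoc]
    rfl
  have e2 : ∑ k ∈ Finset.range cr.length, cf (L.length + k) *
      (if hi : L.length + k < L.length then (L[L.length + k]).1 *
        ‖pval (L[L.length + k]).2 (cz / Q) (dz / R)‖ else β (L.length + k - L.length)) =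
      ∑ k ∈ Finset.range cr.length, cf (L.length + k) * β k := by
    refine Finset.sum_congr rfl fun k _ => ?_
    rw [dif_neg (by omega), Nat.add_sub_cancel_left]
  rw [e1, e2] at h8
  exact h8

/-- the vertices: `P`, `RP`, `LP` the polynomials with weights, `cR`, `cL` the coordinates of the balls,
`βR`, `βL` the crude bounds -/
theorem coreW_vtx {cl dl : List (ℕ × ℕ)} {Q R nuR exR nuL exL tot : ℕ} {M : ItP} {BX RG LG : List (ℕ × ItP)}
    {crR crL : List ℕ}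
    (h : coreW cl dl Q R nuR exR (sqSum crR) (maxL crR) nuL exL (sqSum crL) (maxL crL) M BX RG LG tot = true)
    (hQ : 0 < Q) (hR : 0 < R) {f0 : List (ℂ × ℕ × ℕ)} {LB LR LL : List (ℝ × List (ℂ × ℕ × ℕ))}
    (h0 : ItRep M f0) (h1 : LsRep BX LB) (h2 : LsRep RG LR) (h3 : LsRep LG LL) (hs0 : szOK Q R M = true)
    (hs1 : BX.all (fun z => szOK Q R z.2) = true) (hs2 : RG.all (fun z => szOK Q R z.2) = true)
    (hs3 : LG.all (fun z => szOK Q R z.2) = true)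
    {cR cL : ℕ → ℝ} {uR uL : ℕ} (hcR0 : ∀ i, 0 ≤ cR i) (hcR1 : ∀ i, cR i ≤ 1) (huR : uR ≠ exR)
    (hbR : ∀ S : Finset ℕ, uR ∉ S → ∑ i ∈ S, cR i ^ 2 ≤ ((nuR : ℝ) / 100000000) ^ 2)
    (hcL0 : ∀ i, 0 ≤ cL i) (hcL1 : ∀ i, cL i ≤ 1) (huL : uL ≠ exL)
    (hbL : ∀ S : Finset ℕ, uL ∉ S → ∑ i ∈ S, cL i ^ 2 ≤ ((nuL : ℝ) / 100000000) ^ 2)
    {βR βL : ℕ → ℝ} (hβR : ∀ i, 0 ≤ βR i) (hβL : ∀ i, 0 ≤ βL i)
    (hβR' : ∀ i (hi : i < crR.length), βR i * 100000000 ≤ ((crR[i] : ℕ) : ℝ))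
    (hβL' : ∀ i (hi : i < crL.length), βL i * 100000000 ≤ ((crL[i] : ℕ) : ℝ))
    {zc zd : ℂ} (hc : ∃ cc ∈ cl, CRep (encP 100000 cc.1 cc.2) zc) (hd : ∃ dd ∈ dl, CRep (encP 100000 dd.1 dd.2) zd)
    (hc3 : ‖zc / Q‖ ≤ 3) (hd3 : ‖zd / R‖ ≤ 3) :
    (tot : ℝ) / 100000000000 + ∑ k ∈ Finset.range crR.length, cR (LR.length + k) * βR k +
        ∑ k ∈ Finset.range crL.length, cL (LL.length + k) * βL k <
      (pval f0 (zc / Q) (zd / R)).re - (LB.map fun x => x.1 * ‖pval x.2 (zc / Q) (zd / R)‖).sum -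
      ((LR.mapIdx fun i x => cR i * x.1 * ‖pval x.2 (zc / Q) (zd / R)‖).sum +
        (LL.mapIdx fun i x => cL i * x.1 * ‖pval x.2 (zc / Q) (zd / R)‖).sum) := by
  obtain ⟨cc, hcc, hcrep⟩ := hc
  obtain ⟨dd, hdd, hdrep⟩ := hd
  unfold coreW at h
  have hvx := List.all_eq_true.1 (List.all_eq_true.1 h cc hcc) dd hdd
  generalize encP 100000 cc.1 cc.2 = c at *
  generalize encP 100000 dd.1 dd.2 = d at *
  have g0 := vtxG_spec h0 Q R hs0 hQ hR c d _ _ hcrep hdrep hc3 hd3 _ _ hvx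
  have g1 := wAbs_spec h1 Q R hs1 hQ hR c d _ _ hcrep hdrep hc3 hd3 0
  have g2 := WVtx_grp h2 Q R hs2 hQ hR c d _ _ hcrep hdrep hc3 hd3 nuR exR crR cR βR hcR0 hcR1 uR huR
    hbR hβR hβR'
  have g3 := WVtx_grp h3 Q R hs3 hQ hR c d _ _ hcrep hdrep hc3 hd3 nuL exL crL cL βL hcL0 hcL1 uL huL
    hbL hβL hβL'
  simp only [Nat.add_eq] at g0
  push_cast at g0 g1 g2 g3
  linarith

end Pool.Agent.MaxTerm58
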