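import Pool.Agent.MaxTerm58.WDual
import Pool.Agent.MaxTerm58.WVtx

/-! Soundness of the window check of a leaf. Model: `LeafS.lean` (`LeafS_setup`, `LeafS_fin`, `LeafS_final`,
`checkS_sound_B`). The first parameter: `boxAvg_of_mem x y Q x y Q`; `gen_box` with the vertex lists (weights
`k / 10^8` for `BX`, `c i * k / 10^8` for the groups), `w_core`, `pval_le_pabs` for the crude terms (`bCr_spec`). -/

namespace Pool.Agent.MaxTerm58

private theorem WLeaf_absD (x : ℕ) : ((absD x : ℕ) : ℝ) = |(x : ℝ) - 100000| := by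
  have h0 : absD x = (x - 100000) + (100000 - x) := rfl
  rw [h0]
  rcases le_total x 100000 with h | h
  · rw [Nat.sub_eq_zero_of_le h, zero_add, Nat.cast_sub h]
    have h' : (x : ℝ) ≤ 100000 := by exact_mod_cast h
    rw [abs_of_nonpos (by linarith)]
    push_cast
    ring
  · rw [Nat.sub_eq_zero_of_le h, add_zero, Nat.cast_sub h]
    have h' : (100000 : ℝ) ≤ x := by exact_mod_cast h
    rw [abs_of_nonneg (by linarith)]
    push_cast
    ring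

/-- facts from the side conditions -/
private theorem WLeaf_side {x y Q R P E0 : ℕ} {fx : List (Bool × ℕ)} {BX BC : List PosW} {gR gL : GrW}
    {la lb lc : List ℕ} (h : sideW x y Q R P E0 fx BX BC gR gL la lb lc = true) :
    0 < Q ∧ 0 < R ∧ Q ≤ 4096 ∧ R ≤ 4096 ∧
    |(x : ℝ) - 100000| + 1 ≤ 2 * Q ∧ |(y : ℝ) - 100000| + 1 ≤ 2 * Q ∧
    (∀ n ∈ la, okP n = true) ∧ (∀ n ∈ lb, okP n = true) ∧ (∀ n ∈ lc, okP n = true) ∧
    wtC (la.map ndC) + wtC (lb.map ndC) + wtC (lc.map ndC) ≤ 1 ∧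
    (∀ p ∈ fx, p.2 ≤ E0 ∧ p.2 ≤ P) ∧ (∀ p ∈ BX, p.e ≤ P) ∧ (∀ p ∈ BC, p.e ≤ P) ∧
    (∀ p ∈ gR.its, p.e ≤ P) ∧ (∀ p ∈ gR.crd, p.e ≤ P) ∧
    (∀ p ∈ gL.its, p.e ≤ P) ∧ (∀ p ∈ gL.crd, p.e ≤ P) := by
  unfold sideW at h
  simp only [Bool.and_eq_true, Nat.ble_eq, List.all_eq_true] at h
  obtain ⟨⟨⟨⟨⟨⟨⟨⟨⟨⟨⟨⟨⟨⟨⟨⟨h1, h2⟩, h3⟩, h4⟩, h5⟩, h6⟩, h7⟩, h8⟩, h9⟩, h10⟩, h11⟩, h12⟩, h13⟩, h14⟩,
    h15⟩, h16⟩, h17⟩ := h
  have key : ∀ z N : ℕ, Nat.succ (absD z) ≤ Nat.mul 2 N → |(z : ℝ) - 100000| + 1 ≤ 2 * N := by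
    intro z N hz
    rw [← WLeaf_absD]
    have hz' : absD z + 1 ≤ 2 * N := hz
    exact_mod_cast hz'
  refine ⟨h1, h2, h3, h4, key _ _ h5, key _ _ h6, h7, h8, h9, ?_, h11, h12, h13, h14, h15, h16, h17⟩
  have a1 := wsumP_spec la
  have a2 := wsumP_spec lb
  have a3 := wsumP_spec lc
  have a4 : ((wsumP la : ℕ) : ℝ) + (((wsumP lb : ℕ) : ℝ) + ((wsumP lc : ℕ) : ℝ)) ≤ 100000000 := by
    have h21 : wsumP la + (wsumP lb + wsumP lc) ≤ 100000000 := h10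
    exact_mod_cast h21
  linarith

private theorem WLeaf_nd1 {la : List ℕ} (ha : ∀ n ∈ la, okP n = true) :
    ∀ x ∈ la.map ndC, ‖x.1‖ = 1 := by
  intro x hx
  obtain ⟨n, hn, rfl⟩ := List.mem_map.1 hx
  exact okP_norm n (ha n hn)

private theorem WLeaf_wt0 (nd : List (ℂ × ℂ)) : 0 ≤ wtC nd := by
  unfold wtC
  apply List.sum_nonneg
  intro x hx
  obtain ⟨y, _, rfl⟩ := List.mem_map.1 hx
  exact norm_nonneg _

private theorem WLeaf_le1 {la lb lc : List ℕ} (ha : ∀ n ∈ la, okP n = true)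
    (hw : wtC (la.map ndC) + wtC (lb.map ndC) + wtC (lc.map ndC) ≤ 1) (k : ℤ) :
    ‖lamC (la.map ndC) k‖ ≤ 1 := by
  have h1 := lamC_le _ (WLeaf_nd1 ha) k
  have h2 := WLeaf_wt0 (lb.map ndC)
  have h3 := WLeaf_wt0 (lc.map ndC)
  linarith

private theorem WLeaf_pabs0 (f : List (ℂ × ℕ × ℕ)) (ρ σ : ℝ) (hρ : 0 ≤ ρ) (hσ : 0 ≤ σ) :
    0 ≤ pabs f ρ σ := by
  unfold pabs
  apply List.sum_nonneg
  intro x hx
  obtain ⟨y, -, rfl⟩ := List.mem_map.1 hx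
  positivity

/-- strict version of `gen_box` -/
private theorem WLeaf_gen {w w' : Fin 4 → ℝ} {z y : Fin 4 → ℂ} {q t : ℂ} {ρ σ h k : ℝ}
    (H : BoxAvg w w' z y q t ρ σ h k) (f0 : List (ℂ × ℕ × ℕ))
    (L : List (ℝ × List (ℂ × ℕ × ℕ))) (hL : ∀ x ∈ L, 0 ≤ x.1) (τ : ℝ)
    (hv : ∀ i j, τ < (pval f0 (z i) (y j)).re - (L.map fun x => x.1 * ‖pval x.2 (z i) (y j)‖).sum) :
    τ < (pval f0 q t).re - (L.map fun x => x.1 * ‖pval x.2 q t‖).sum + perr f0 ρ σ h k +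
      (L.map fun x => x.1 * perr x.2 ρ σ h k).sum := by
  obtain ⟨ij, _, hmin⟩ := Finset.exists_min_image (Finset.univ : Finset (Fin 4 × Fin 4))
    (fun ij => (pval f0 (z ij.1) (y ij.2)).re -
      (L.map fun x => x.1 * ‖pval x.2 (z ij.1) (y ij.2)‖).sum) ⟨(0, 0), Finset.mem_univ _⟩
  have h1 := gen_box H f0 L hL _ (fun i j => hmin (i, j) (Finset.mem_univ _))
  exact lt_of_lt_of_le (hv ij.1 ij.2) h1

private theorem WLeaf_map_idx {α β γ : Type*} (L : List α) (f : ℕ → α → β) (g : β → γ) :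
    (L.mapIdx f).map g = L.mapIdx fun i x => g (f i x) := by
  refine List.ext_getElem (by simp) fun i h1 h2 => by simp

private theorem WLeaf_idx_map {α β γ : Type*} (L : List α) (g : α → β) (f : ℕ → β → γ) :
    (L.map g).mapIdx f = L.mapIdx fun i x => f i (g x) := by
  refine List.ext_getElem (by simp) fun i h1 h2 => by simp

private theorem WLeaf_idx_le {α : Type*} (L : List α) (f : ℕ → α → ℝ) (g : α → ℝ)
    (h : ∀ i, ∀ x ∈ L, f i x ≤ g x) : (L.mapIdx f).sum ≤ (L.map g).sum := by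
  induction L generalizing f with
  | nil => simp
  | cons a l ih =>
    rw [List.mapIdx_cons, List.sum_cons, List.map_cons, List.sum_cons]
    exact add_le_add (h 0 a List.mem_cons_self)
      (ih (fun i => f (i + 1)) fun i x hx => h (i + 1) x (List.mem_cons_of_mem _ hx))

private theorem WLeaf_idx_ge {α : Type*} (L : List α) (f : ℕ → α → ℝ) (g : α → ℝ)
    (h : ∀ i (hi : i < L.length), g L[i] ≤ f i L[i]) : (L.map g).sum ≤ (L.mapIdx f).sum := by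
  induction L generalizing f with
  | nil => simp
  | cons a l ih =>
    rw [List.mapIdx_cons, List.sum_cons, List.map_cons, List.sum_cons]
    refine add_le_add (h 0 (by simp)) (ih (fun i => f (i + 1)) fun i hi => ?_)
    exact h (i + 1) (by simpa using hi)

private theorem WLeaf_idx_crd {α : Type*} (L : List α) (c β : ℕ → ℝ) (F : α → ℝ) (hc : ∀ i, 0 ≤ c i)
    (h : ∀ i (hi : i < L.length), F L[i] ≤ β i) :
    (L.mapIdx fun i x => c i * F x).sum ≤ ∑ k ∈ Finset.range L.length, c k * β k := by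
  induction L generalizing c β with
  | nil => simp
  | cons a l ih =>
    rw [List.mapIdx_cons, List.sum_cons, List.length_cons, Finset.sum_range_succ', add_comm]
    refine add_le_add (ih (fun i => c (i + 1)) (fun i => β (i + 1)) (fun i => hc _) fun i hi => ?_) ?_
    · exact h (i + 1) (by simpa using hi)
    · exact mul_le_mul_of_nonneg_left (h 0 (by simp)) (hc 0)

private theorem WLeaf_sumL {l : List ℕ} {L : List (ℝ × List (ℂ × ℕ × ℕ))} {F : List (ℂ × ℕ × ℕ) → ℝ}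
    (h : List.Forall₂ (fun (x : ℕ) (y : ℝ × List (ℂ × ℕ × ℕ)) => y.1 * F y.2 * 100000000 ≤ (x : ℝ)) l L) :
    (L.map fun y => y.1 * F y.2).sum * 100000000 ≤ ((sumL l : ℕ) : ℝ) := by
  induction h with
  | nil => simp [sumL]
  | @cons a b l L hab _ ih =>
    have e : sumL (a :: l) = a + sumL l := rfl
    rw [e, List.map_cons, List.sum_cons]
    push_cast
    linarith

/-- the crude bound of an entry -/
private noncomputable def WLeaf_beta (L : List (ℝ × List (ℂ × ℕ × ℕ))) (ρ σ : ℝ) (i : ℕ) : ℝ :=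
  (L.getD i (0, [])).1 * pabs (L.getD i (0, [])).2 ρ σ

private theorem WLeaf_beta_get (L : List (ℝ × List (ℂ × ℕ × ℕ))) (ρ σ : ℝ) (i : ℕ) (hi : i < L.length) :
    WLeaf_beta L ρ σ i = L[i].1 * pabs L[i].2 ρ σ := by
  unfold WLeaf_beta
  rw [List.getD_eq_getElem L (0, []) hi]

private theorem WLeaf_beta0 (L : List (ℝ × List (ℂ × ℕ × ℕ))) (hL : ∀ x ∈ L, 0 ≤ x.1) (ρ σ : ℝ)
    (hρ : 0 ≤ ρ) (hσ : 0 ≤ σ) (i : ℕ) : 0 ≤ WLeaf_beta L ρ σ i := by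
  by_cases hi : i < L.length
  · rw [WLeaf_beta_get L ρ σ i hi]
    exact mul_nonneg (hL _ (List.getElem_mem hi)) (WLeaf_pabs0 _ _ _ hρ hσ)
  · unfold WLeaf_beta
    rw [List.getD_eq_default L (0, []) (not_lt.1 hi)]
    simp

/-- a list of positions as a list of weighted polynomials -/
private noncomputable def WLeaf_L (kd m1 : ℕ) (A B C : ℤ → ℂ) (l : List PosW) :
    List (ℝ × List (ℂ × ℕ × ℕ)) :=
  l.map fun p => ((p.k : ℝ) / 100000000, fW kd m1 A B C p.z p.al p.be)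

private theorem WLeaf_L0 (kd m1 : ℕ) (A B C : ℤ → ℂ) (l : List PosW) :
    ∀ x ∈ WLeaf_L kd m1 A B C l, 0 ≤ x.1 := by
  intro x hx
  obtain ⟨p, -, rfl⟩ := List.mem_map.1 hx
  positivity

private theorem WLeaf_term (kd m1 : ℕ) (A B C : ℤ → ℂ) (s t : ℂ) (v : ℤ → ℂ) (p : PosW) (c : ℝ)
    (h : ‖v p.z‖ ≤ c * ((p.k : ℝ) / 100000000 * (‖s‖ ^ p.al * ‖t‖ ^ p.be))) :
    ‖v p.z‖ * ‖pval (fW kd m1 A B C p.z 0 0) s t‖ ≤
      c * ((p.k : ℝ) / 100000000 * ‖pval (fW kd m1 A B C p.z p.al p.be) s t‖) := by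
  rw [fW_pval kd m1 A B C p.z p.al p.be s t, norm_mul, norm_mul, norm_pow, norm_pow]
  have h1 := mul_le_mul_of_nonneg_right h (norm_nonneg (pval (fW kd m1 A B C p.z 0 0) s t))
  refine h1.trans (le_of_eq ?_)
  ring

private theorem WLeaf_box (kd m1 : ℕ) (A B C : ℤ → ℂ) (s t : ℂ) (v : ℤ → ℂ) (l : List PosW)
    (h : ∀ p ∈ l, ‖v p.z‖ ≤ (p.k : ℝ) / 100000000 * (‖s‖ ^ p.al * ‖t‖ ^ p.be)) :
    (l.map fun p => ‖v p.z‖ * ‖pval (fW kd m1 A B C p.z 0 0) s t‖).sum ≤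
      ((WLeaf_L kd m1 A B C l).map fun x => x.1 * ‖pval x.2 s t‖).sum := by
  unfold WLeaf_L
  rw [List.map_map]
  refine List.sum_le_sum fun p hp => ?_
  have h1 := WLeaf_term kd m1 A B C s t v p 1 (by rw [one_mul]; exact h p hp)
  rw [one_mul] at h1
  exact h1

/-- the vertex list of a group -/
private noncomputable def WLeaf_G (L : List (ℝ × List (ℂ × ℕ × ℕ))) (c : ℕ → ℝ) :
    List (ℝ × List (ℂ × ℕ × ℕ)) := L.mapIdx fun i x => (c i * x.1, x.2)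

private theorem WLeaf_G0 (L : List (ℝ × List (ℂ × ℕ × ℕ))) (hL : ∀ x ∈ L, 0 ≤ x.1) (c : ℕ → ℝ)
    (hc : ∀ i, 0 ≤ c i) : ∀ x ∈ WLeaf_G L c, 0 ≤ x.1 := by
  intro x hx
  obtain ⟨i, hi, rfl⟩ := List.mem_mapIdx.1 hx
  exact mul_nonneg (hc i) (hL _ (List.getElem_mem hi))

private theorem WLeaf_G_sum (L : List (ℝ × List (ℂ × ℕ × ℕ))) (c : ℕ → ℝ)
    (F : List (ℂ × ℕ × ℕ) → ℝ) :
    ((WLeaf_G L c).map fun x => x.1 * F x.2).sum = (L.mapIdx fun i x => c i * x.1 * F x.2).sum := by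
  unfold WLeaf_G
  rw [WLeaf_map_idx]

private theorem WLeaf_G_le (L : List (ℝ × List (ℂ × ℕ × ℕ))) (hL : ∀ x ∈ L, 0 ≤ x.1) (c : ℕ → ℝ)
    (hc1 : ∀ i, c i ≤ 1) (F : List (ℂ × ℕ × ℕ) → ℝ) (hF : ∀ f, 0 ≤ F f) :
    ((WLeaf_G L c).map fun x => x.1 * F x.2).sum ≤ (L.map fun x => x.1 * F x.2).sum := by
  rw [WLeaf_G_sum]
  refine WLeaf_idx_le L _ _ fun i x hx => ?_
  have h1 : c i * x.1 ≤ x.1 := by
    have := mul_le_mul_of_nonneg_right (hc1 i) (hL x hx)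
    linarith
  exact mul_le_mul_of_nonneg_right h1 (hF _)

/-- the sum of a group -/
private theorem WLeaf_grp (kd m1 : ℕ) (A B C : ℤ → ℂ) (s t : ℂ) (v : ℤ → ℂ) (its crd : List PosW)
    (c : ℕ → ℝ) (hc0 : ∀ i, 0 ≤ c i)
    (h : ∀ i (hi : i < (its ++ crd).length), ‖v ((its ++ crd)[i]).z‖ ≤
      c i * ((((its ++ crd)[i]).k : ℝ) / 100000000 * (‖s‖ ^ ((its ++ crd)[i]).al * ‖t‖ ^ ((its ++ crd)[i]).be)))
    (ρ σ : ℝ) (hs : ‖s‖ ≤ ρ) (ht : ‖t‖ ≤ σ) :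
    ((its ++ crd).map fun p => ‖v p.z‖ * ‖pval (fW kd m1 A B C p.z 0 0) s t‖).sum ≤
      ((WLeaf_G (WLeaf_L kd m1 A B C its) c).map fun x => x.1 * ‖pval x.2 s t‖).sum +
      ∑ k ∈ Finset.range (WLeaf_L kd m1 A B C crd).length,
        c ((WLeaf_L kd m1 A B C its).length + k) * WLeaf_beta (WLeaf_L kd m1 A B C crd) ρ σ k := by
  have h1 := WLeaf_idx_ge (its ++ crd)
    (fun i p => c i * ((p.k : ℝ) / 100000000 * ‖pval (fW kd m1 A B C p.z p.al p.be) s t‖))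
    (fun p => ‖v p.z‖ * ‖pval (fW kd m1 A B C p.z 0 0) s t‖)
    (fun i hi => WLeaf_term kd m1 A B C s t v _ _ (h i hi))
  refine h1.trans ?_
  rw [List.mapIdx_append, List.sum_append]
  refine add_le_add (le_of_eq ?_) ?_
  · rw [WLeaf_G_sum _ c (fun f => ‖pval f s t‖)]
    unfold WLeaf_L
    rw [WLeaf_idx_map]
    congr 1
    refine List.ext_getElem (by simp) fun i h2 h3 => ?_
    simp only [List.getElem_mapIdx]
    ring
  · have h4 := WLeaf_idx_crd (WLeaf_L kd m1 A B C crd) (fun i => c (its.length + i))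
      (WLeaf_beta (WLeaf_L kd m1 A B C crd) ρ σ) (fun x => x.1 * ‖pval x.2 s t‖) (fun i => hc0 _)
      (fun i hi => by
        rw [WLeaf_beta_get _ _ _ _ hi]
        exact mul_le_mul_of_nonneg_left (pval_le_pabs _ _ _ _ _ hs ht)
          (WLeaf_L0 kd m1 A B C crd _ (List.getElem_mem hi)))
    have e1 : (WLeaf_L kd m1 A B C its).length = its.length := by
      unfold WLeaf_L
      rw [List.length_map]
    rw [e1]
    refine le_trans (le_of_eq ?_) h4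
    unfold WLeaf_L
    rw [WLeaf_idx_map]
    congr 1
    refine List.ext_getElem (by simp) fun i h2 h3 => ?_
    simp only [List.getElem_mapIdx]
    rw [add_comm i its.length]

private theorem WLeaf_tot (rq rp Q R tail : ℕ) (M : ItP) (BX RG LG : List (ℕ × ItP)) (cr : List ℕ) :
    ((totW rq rp Q R tail M BX RG LG cr : ℕ) : ℝ) / 100000000000 =
      170919 / 100000 + (((itErr rq rp Q R M : ℕ) : ℝ) + ((wErr rq rp Q R BX 0 : ℕ) : ℝ) +
        ((wErr rq rp Q R RG 0 : ℕ) : ℝ) + ((wErr rq rp Q R LG 0 : ℕ) : ℝ) + ((sumL cr : ℕ) : ℝ) +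
        (tail : ℝ)) / 100000000 := by
  have e : totW rq rp Q R tail M BX RG LG cr = 170919000000 + 1000 *
      ((itErr rq rp Q R M + wErr rq rp Q R BX 0) + ((wErr rq rp Q R RG 0 + wErr rq rp Q R LG 0) +
        (sumL cr + tail))) := rfl
  rw [e]
  push_cast
  ring

/-- soundness of the check of a leaf -/
theorem checkW_sound {dl : List (ℕ × ℕ)} {kd m1 P E0 A0 B0 x y Q R rp rqc rpc tail : ℕ} {fx : List (Bool × ℕ)}
    {BX BC : List PosW} {gR gL : GrW} {la lb lc : List ℕ}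
    (h : checkW dl kd m1 P E0 A0 B0 x y Q R rp rqc rpc tail fx BX BC gR gL la lb lc = true)
    {s t : ℂ} {v : ℤ → ℂ} (H : HypV kd m1 s t v) (hs : InSq s x y Q)
    {w' : Fin 4 → ℝ} {δ : Fin 4 → ℂ} (ht : TSide t dl R rp w' δ)
    (hsc : ‖s‖ ≤ (rqc : ℝ) / 10000) (htc : ‖t‖ ≤ (rpc : ℝ) / 10000)
    (hfx : ∀ p ∈ fx, v (posZ p.1 p.2) = 1)
    (hbox : ∀ p ∈ BX ++ BC, ‖v p.z‖ ≤ (p.k : ℝ) / 100000000 * (‖s‖ ^ p.al * ‖t‖ ^ p.be))
    (hR : GrpOK s t v (gR.its ++ gR.crd) gR.nu gR.ex) (hL : GrpOK s t v (gL.its ++ gL.crd) gL.nu gL.ex)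
    (hsp : SplitOK v (gW kd m1 s t (wtC (la.map ndC)) (wtC (lb.map ndC)) (wtC (lc.map ndC)))
      (fx.map (fun p => posZ p.1 p.2) ++
        ((BX ++ BC) ++ ((gR.its ++ gR.crd) ++ (gL.its ++ gL.crd))).map PosW.z)
      ((tail : ℝ) / 100000000)) : False := by
  unfold checkW at h
  rw [Bool.and_eq_true] at h
  obtain ⟨hside, h⟩ := h
  obtain ⟨hQ, hR0, hQ', hR', hx, hy, hla, hlb, hlc, hw, hfxP, hBX, hBC, hgR1, hgR2, hgL1, hgL2⟩ :=
    WLeaf_side hside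
  have hms := momsW_rep la lb lc hla hlb hlc P
  obtain ⟨ms, ems⟩ : ∃ ms, ms = momsP (Nat.succ P) (initW (la.map decP)) (initW (lb.map decP))
    (initW (lc.map decP)) := ⟨_, rfl⟩
  rw [← ems] at hms h
  obtain ⟨A, eA⟩ : ∃ A, A = lamC (la.map ndC) := ⟨_, rfl⟩
  obtain ⟨B, eB⟩ : ∃ B, B = lamC (lb.map ndC) := ⟨_, rfl⟩
  obtain ⟨C, eC⟩ : ∃ C, C = lamC (lc.map ndC) := ⟨_, rfl⟩
  have hA : ∀ k, ‖A k‖ ≤ 1 := fun k => by rw [eA]; exact WLeaf_le1 hla hw k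
  have hB : ∀ k, ‖B k‖ ≤ 1 := fun k => by
    rw [eB]
    exact WLeaf_le1 (lb := la) (lc := lc) hlb (by linarith) k
  have hC : ∀ k, ‖C k‖ ≤ 1 := fun k => by
    rw [eC]
    exact WLeaf_le1 (lb := la) (lc := lb) hlc (by linarith) k
  -- the dual inequality
  have hD := w_core H (la.map ndC) (lb.map ndC) (lc.map ndC) (WLeaf_nd1 hla) (WLeaf_nd1 hlb)
    (WLeaf_nd1 hlc) hw (fx.map fun p => posZ p.1 p.2)
    (((BX ++ BC) ++ ((gR.its ++ gR.crd) ++ (gL.its ++ gL.crd))).map PosW.z)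
    ((tail : ℝ) / 100000000) (by
      intro n hn
      obtain ⟨p, hp, rfl⟩ := List.mem_map.1 hn
      exact hfx p hp) hsp
  rw [← eA, ← eB, ← eC] at hms hD
  rw [List.flatMap_map, List.map_map] at hD
  -- representations
  have rM := mainW_rep (kd := kd) (m1 := m1) (A0 := A0) (B0 := B0) hms hA hB hC fx hfxP
  have rBX := lsW_rep (kd := kd) (m1 := m1) hms hA hB hC BX hBX
  have rBC := lsW_rep (kd := kd) (m1 := m1) hms hA hB hC BC hBC
  have rR1 := lsW_rep (kd := kd) (m1 := m1) hms hA hB hC gR.its hgR1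
  have rR2 := lsW_rep (kd := kd) (m1 := m1) hms hA hB hC gR.crd hgR2
  have rL1 := lsW_rep (kd := kd) (m1 := m1) hms hA hB hC gL.its hgL1
  have rL2 := lsW_rep (kd := kd) (m1 := m1) hms hA hB hC gL.crd hgL2
  unfold checkW1 checkW2 at h
  simp only [Bool.and_eq_true] at h
  obtain ⟨⟨⟨⟨⟨⟨⟨s1, s2⟩, s3⟩, s4⟩, s5⟩, s6⟩, s7⟩, hcore⟩ := h
  obtain ⟨cR, uR, hcR0, hcR1, huR, hbR, hvR⟩ := hR
  obtain ⟨cL, uL, hcL0, hcL1, huL, hbL, hvL⟩ := hL
  have hρ : (0 : ℝ) ≤ (rqc : ℝ) / 10000 := by positivity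
  have hσ : (0 : ℝ) ≤ (rpc : ℝ) / 10000 := by positivity
  have fR := bCr_spec rR2 s6 rqc rpc
  have fL := bCr_spec rL2 s7 rqc rpc
  have fB := bCr_spec rBC s5 rqc rpc
  have lenR : (bCr rqc rpc (lsW kd m1 ms gR.crd)).length = (WLeaf_L kd m1 A B C gR.crd).length :=
    fR.length_eq
  have lenL : (bCr rqc rpc (lsW kd m1 ms gL.crd)).length = (WLeaf_L kd m1 A B C gL.crd).length :=
    fL.length_eq
  obtain ⟨w, w2, hBox0⟩ := boxAvg_of_mem x y Q x y Q hQ hQ s s hs hs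
  have hBox : BoxAvg w w' (fun i => (ctr x y + crnR i) / Q) (fun i => δ i / R) s t
      (((radS Q x y : ℕ) : ℝ) / 10000) ((rp : ℝ) / 10000) (1 / (Q : ℝ) ^ 2) (1 / (R : ℝ) ^ 2) :=
    ⟨hBox0.w0, hBox0.w1, ht.w0, ht.w1, hBox0.hq, ht.avg, hBox0.hV, ht.var, hBox0.hz, ht.bd⟩
  have hh : (0 : ℝ) ≤ 1 / (Q : ℝ) ^ 2 := by positivity
  have hk : (0 : ℝ) ≤ 1 / (R : ℝ) ^ 2 := by positivity
  have hρ' : (0 : ℝ) ≤ ((radS Q x y : ℕ) : ℝ) / 10000 := by positivity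
  have hσ' : (0 : ℝ) ≤ (rp : ℝ) / 10000 := by positivity
  -- the vertices
  have hvx : ∀ i j, ((totW (radS Q x y) rp Q R tail (mainW kd m1 E0 A0 B0 ms fx) (lsW kd m1 ms BX)
        (lsW kd m1 ms gR.its) (lsW kd m1 ms gL.its) (bCr rqc rpc (lsW kd m1 ms BC)) : ℕ) : ℝ) /
        100000000000 +
      ∑ k ∈ Finset.range (WLeaf_L kd m1 A B C gR.crd).length,
        cR ((WLeaf_L kd m1 A B C gR.its).length + k) *
          WLeaf_beta (WLeaf_L kd m1 A B C gR.crd) ((rqc : ℝ) / 10000) ((rpc : ℝ) / 10000) k +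
      ∑ k ∈ Finset.range (WLeaf_L kd m1 A B C gL.crd).length,
        cL ((WLeaf_L kd m1 A B C gL.its).length + k) *
          WLeaf_beta (WLeaf_L kd m1 A B C gL.crd) ((rqc : ℝ) / 10000) ((rpc : ℝ) / 10000) k <
      (pval (fx.flatMap fun p => fW kd m1 A B C (posZ p.1 p.2) 0 0) ((ctr x y + crnR i) / Q)
        (δ j / R)).re -
      ((WLeaf_L kd m1 A B C BX ++ (WLeaf_G (WLeaf_L kd m1 A B C gR.its) cR ++
        WLeaf_G (WLeaf_L kd m1 A B C gL.its) cL)).map fun z =>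
          z.1 * ‖pval z.2 ((ctr x y + crnR i) / Q) (δ j / R)‖).sum := by
    intro i j
    obtain ⟨cc, hcc, hcrep, hc3, -⟩ := crnL_rep x y Q hQ' hx hy hQ i
    have h1 := coreW_vtx (zc := ctr x y + crnR i) (zd := δ j) hcore hQ hR0 rM rBX rR1 rL1 s1 s2 s3 s4
      hcR0 hcR1 huR hbR hcL0 hcL1 huL hbL
      (βR := WLeaf_beta (WLeaf_L kd m1 A B C gR.crd) ((rqc : ℝ) / 10000) ((rpc : ℝ) / 10000))
      (βL := WLeaf_beta (WLeaf_L kd m1 A B C gL.crd) ((rqc : ℝ) / 10000) ((rpc : ℝ) / 10000))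
      (WLeaf_beta0 _ (WLeaf_L0 _ _ _ _ _ _) _ _ hρ hσ) (WLeaf_beta0 _ (WLeaf_L0 _ _ _ _ _ _) _ _ hρ hσ)
      (fun k hk' => by
        rw [WLeaf_beta_get _ _ _ k (lenR ▸ hk')]
        exact (List.forall₂_iff_get.1 fR).2 k hk' (lenR ▸ hk'))
      (fun k hk' => by
        rw [WLeaf_beta_get _ _ _ k (lenL ▸ hk')]
        exact (List.forall₂_iff_get.1 fL).2 k hk' (lenL ▸ hk'))
      ⟨cc, hcc, hcrep⟩ (ht.rep j) hc3 (ht.b3 j)
    rw [lenR, lenL] at h1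
    rw [List.map_append, List.sum_append, List.map_append, List.sum_append,
      WLeaf_G_sum _ cR (fun f => ‖pval f ((ctr x y + crnR i) / Q) (δ j / R)‖),
      WLeaf_G_sum _ cL (fun f => ‖pval f ((ctr x y + crnR i) / Q) (δ j / R)‖), ← sub_sub]
    exact h1
  have hnn : ∀ x ∈ WLeaf_L kd m1 A B C BX ++ (WLeaf_G (WLeaf_L kd m1 A B C gR.its) cR ++
        WLeaf_G (WLeaf_L kd m1 A B C gL.its) cL), 0 ≤ x.1 := by
    intro z hz
    rcases List.mem_append.1 hz with hz | hz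
    · exact WLeaf_L0 _ _ _ _ _ _ z hz
    · rcases List.mem_append.1 hz with hz | hz
      · exact WLeaf_G0 _ (WLeaf_L0 _ _ _ _ _ _) _ hcR0 z hz
      · exact WLeaf_G0 _ (WLeaf_L0 _ _ _ _ _ _) _ hcL0 z hz
  have hfin := WLeaf_gen hBox _ _ hnn _ hvx
  rw [WLeaf_tot] at hfin
  simp only [List.map_append, List.sum_append] at hfin hD
  have s1' : szM (mainW kd m1 E0 A0 B0 ms fx) = true := by
    unfold szOK at s1
    simp only [Bool.and_eq_true] at s1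
    exact s1.1.1
  have hE := itErr_spec rM s1' (radS Q x y) rp Q R hQ hR0
  have hW1 := wErr_spec rBX Q R s2 hQ hR0 (radS Q x y) rp 0
  have hW2 := wErr_spec rR1 Q R s3 hQ hR0 (radS Q x y) rp 0
  have hW3 := wErr_spec rL1 Q R s4 hQ hR0 (radS Q x y) rp 0
  have hp0 : ∀ f, 0 ≤ perr f (((radS Q x y : ℕ) : ℝ) / 10000) ((rp : ℝ) / 10000)
      (1 / (Q : ℝ) ^ 2) (1 / (R : ℝ) ^ 2) := fun f => perr_nonneg f _ _ _ _ hρ' hσ' hh hk
  have hG2 := WLeaf_G_le (WLeaf_L kd m1 A B C gR.its) (WLeaf_L0 _ _ _ _ _ _) cR hcR1 _ hp0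
  have hG3 := WLeaf_G_le (WLeaf_L kd m1 A B C gL.its) (WLeaf_L0 _ _ _ _ _ _) cL hcL1 _ hp0
  have hS1 := WLeaf_box kd m1 A B C s t v BX fun p hp => hbox p (List.mem_append_left _ hp)
  have hS2 := WLeaf_box kd m1 A B C s t v BC fun p hp => hbox p (List.mem_append_right _ hp)
  have hS3 := WLeaf_sumL (F := fun f => pabs f ((rqc : ℝ) / 10000) ((rpc : ℝ) / 10000)) fB
  have hS4 : ((WLeaf_L kd m1 A B C BC).map fun x => x.1 * ‖pval x.2 s t‖).sum ≤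
      ((WLeaf_L kd m1 A B C BC).map fun x => x.1 *
        pabs x.2 ((rqc : ℝ) / 10000) ((rpc : ℝ) / 10000)).sum :=
    List.sum_le_sum fun z hz => mul_le_mul_of_nonneg_left (pval_le_pabs _ _ _ _ _ hsc htc)
      (WLeaf_L0 _ _ _ _ _ _ z hz)
  have hS5 := WLeaf_grp kd m1 A B C s t v gR.its gR.crd cR hcR0 hvR _ _ hsc htc
  have hS6 := WLeaf_grp kd m1 A B C s t v gL.its gL.crd cL hcL0 hvL _ _ hsc htc
  rw [List.map_append, List.sum_append] at hS5 hS6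
  unfold WLeaf_L at *
  push_cast at hW1 hW2 hW3
  simp only [Function.comp_def] at hD
  linarith

end Pool.Agent.MaxTerm58
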