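import Pool.Agent.MaxTerm58.WDef
import Pool.Agent.MaxTerm58.GenRep
import Pool.Agent.MaxTerm58.NodeRep

/-! Representation lemmas for the window check. Hints: `StRep.step`, `StRep.sumU`, `StRep.sumV` (with `k = m`),
models: `NodeRep.lean`, `RepS.lean`; `CRep.smul`. -/

namespace Pool.Agent.MaxTerm58

/-- exponent of the first parameter at the corner `X`, position `n` -/
def eaZ (m1 X : ℕ) (n : ℤ) : ℕ := if X = 0 then (n + m1).toNat else (-n - m1).toNat

/-- exponent of the second parameter -/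
def ebZ (kd X : ℕ) (n : ℤ) : ℕ := if kd = 0 then 0 else if X = 2 then (-n).toNat else n.toNat

def posZ (g : Bool) (e : ℕ) : ℤ := if g then (e : ℤ) else -(e : ℤ)

def PosW.z (p : PosW) : ℤ := posZ p.g p.e

/-- the polynomial of the position `n`, multiplied by `s^al t^be` -/
noncomputable def fW (kd m1 : ℕ) (A B C : ℤ → ℂ) (n : ℤ) (al be : ℕ) : List (ℂ × ℕ × ℕ) :=
  [(A n, eaZ m1 0 n + al, ebZ kd 0 n + be), (B n, eaZ m1 1 n + al, ebZ kd 1 n + be),
   (C n, eaZ m1 2 n + al, ebZ kd 2 n + be)]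

theorem eaN_eq (m1 X : ℕ) (g : Bool) (e : ℕ) : eaN m1 X g e = eaZ m1 X (posZ g e) := by
  unfold eaN eaZ posZ
  rcases Nat.eq_zero_or_pos X with rfl | hX
  · have h0 : Nat.beq 0 0 = true := rfl
    rw [h0, cond_true, if_pos rfl]
    cases g
    · rw [cond_false, if_neg (by simp)]
      show m1 - e = _
      omega
    · rw [cond_true, if_pos rfl]
      show e + m1 = _
      omega
  · have h0 : Nat.beq X 0 = false := by
      cases X with
      | zero => exact absurd hX (lt_irrefl 0)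
      | succ n => rfl
    rw [h0, cond_false, if_neg (by omega)]
    cases g
    · rw [cond_false, if_neg (by simp)]
      show e - m1 = _
      omega
    · rw [cond_true, if_pos rfl]
      omega

theorem ebN_eq (kd X : ℕ) (g : Bool) (e : ℕ) : ebN kd X g e = ebZ kd X (posZ g e) := by
  unfold ebN ebZ posZ
  rcases Nat.eq_zero_or_pos kd with rfl | hX
  · have h0 : Nat.beq 0 0 = true := rfl
    rw [h0, cond_true, if_pos rfl]
  · have h0 : Nat.beq kd 0 = false := by
      cases kd with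
      | zero => exact absurd hX (lt_irrefl 0)
      | succ n => rfl
    rw [h0, cond_false, if_neg (by omega)]
    by_cases h2 : X = 2
    · subst h2
      have h3 : Nat.beq 2 2 = true := rfl
      rw [h3, cond_true, if_pos rfl]
      cases g
      · rw [cond_false, if_neg (by simp)]
        omega
      · rw [cond_true, if_pos rfl]
        omega
    · have h3 : Nat.beq X 2 = false := by
        cases hc : Nat.beq X 2
        · rfl
        · exact absurd (Nat.eq_of_beq_eq_true hc) h2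
      rw [h3, cond_false, if_neg h2]
      cases g
      · rw [cond_false, if_neg (by simp)]
        omega
      · rw [cond_true, if_pos rfl]
        omega

/-- the moments of the exponents `e`, `-e` -/
def MRepW (m : PM) (e : ℕ) (A B C : ℤ → ℂ) : Prop :=
  CRep m.va (100000 * 32045 ^ e * A (-(e : ℤ))) ∧
  CRep m.vb (100000 * 32045 ^ e * B (-(e : ℤ))) ∧
  CRep m.vc (100000 * 32045 ^ e * C (-(e : ℤ))) ∧
  CRep m.ua (100000 * 32045 ^ e * A (e : ℤ)) ∧
  CRep m.ub (100000 * 32045 ^ e * B (e : ℤ)) ∧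
  CRep m.uc (100000 * 32045 ^ e * C (e : ℤ))

def MsRepW (ms : List PM) (P : ℕ) (A B C : ℤ → ℂ) : Prop :=
  ∀ e, e ≤ P → MRepW (ms.getD e PM.zero) e A B C

private theorem WRep_congr {x : PC} {w v : ℂ} (h : CRep x w) (e : w = v) : CRep x v := e ▸ h

private theorem WRep_nodes (l : List ℕ) (h : ∀ n ∈ l, okP n = true) :
    ∀ x ∈ l.map ndC, ‖x.1‖ = 1 := by
  intro x hx
  obtain ⟨n, hn, rfl⟩ := List.mem_map.1 hx
  exact okP_norm n (h n hn)

private theorem WRep_init (l : List ℕ) : StRep (initW (l.map decP)) (l.map ndC) 0 0 := by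
  unfold StRep initW
  induction l with
  | nil => simp
  | cons n l ih =>
    simp only [List.map_cons]
    have h1 := decP_fst n
    have h2 := decP_snd n
    refine List.Forall₂.cons ⟨h1, ?_, ?_⟩ ih
    · exact WRep_congr h2 (by simp)
    · exact WRep_congr h2 (by simp)

private theorem WRep_moms (A B C : List (ℂ × ℂ)) (hA : ∀ x ∈ A, ‖x.1‖ = 1)
    (hB : ∀ x ∈ B, ‖x.1‖ = 1) (hC : ∀ x ∈ C, ‖x.1‖ = 1) (f : ℕ) :
    ∀ (i : ℕ) (a b c : StP), StRep a A i i → StRep b B i i → StRep c C i i →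
      ∀ e, e < f → MRepW ((momsP f a b c).getD e PM.zero) (i + e) (lamC A) (lamC B) (lamC C) := by
  induction f with
  | zero => intro i a b c _ _ _ e he; exact absurd he (Nat.not_lt_zero e)
  | succ f ih =>
    intro i a b c ha hb hc e he
    cases e with
    | zero => exact ⟨ha.sumV, hb.sumV, hc.sumV, ha.sumU, hb.sumU, hc.sumU⟩
    | succ e =>
      have h1 := ih (i + 1) _ _ _ (ha.step hA) (hb.step hB) (hc.step hC) e (by omega)
      rw [show i + 1 + e = i + (e + 1) by omega] at h1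
      exact h1

theorem momsW_rep (la lb lc : List ℕ) (ha : ∀ n ∈ la, okP n = true) (hb : ∀ n ∈ lb, okP n = true)
    (hc : ∀ n ∈ lc, okP n = true) (P : ℕ) :
    MsRepW (momsP (Nat.succ P) (initW (la.map decP)) (initW (lb.map decP)) (initW (lc.map decP))) P
      (lamC (la.map ndC)) (lamC (lb.map ndC)) (lamC (lc.map ndC)) := by
  intro e he
  have h := WRep_moms _ _ _ (WRep_nodes la ha) (WRep_nodes lb hb) (WRep_nodes lc hc) (Nat.succ P) 0
    _ _ _ (WRep_init la) (WRep_init lb) (WRep_init lc) e (Nat.lt_succ_of_le he)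
  rw [zero_add] at h
  exact h

private theorem WRep_at {m : PM} {e : ℕ} {A B C : ℤ → ℂ} (h : MRepW m e A B C) (g : Bool) :
    CRep (m.at 0 g) (100000 * 32045 ^ e * A (posZ g e)) ∧
    CRep (m.at 1 g) (100000 * 32045 ^ e * B (posZ g e)) ∧
    CRep (m.at 2 g) (100000 * 32045 ^ e * C (posZ g e)) := by
  obtain ⟨h1, h2, h3, h4, h5, h6⟩ := h
  cases g
  · exact ⟨h1, h2, h3⟩
  · exact ⟨h4, h5, h6⟩

private theorem WRep_den (e : ℕ) :
    ((Nat.mul 100000 (Nat.pow 32045 e) : ℕ) : ℂ) = 100000 * 32045 ^ e := by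
  simp only [Nat.mul_eq, Nat.pow_eq]
  push_cast
  rfl

theorem itW_rep {kd m1 : ℕ} {m : PM} {p : PosW} {A B C : ℤ → ℂ} (h : MRepW m p.e A B C)
    (hA : ∀ k, ‖A k‖ ≤ 1) (hB : ∀ k, ‖B k‖ ≤ 1) (hC : ∀ k, ‖C k‖ ≤ 1) :
    ItRep (itW kd m1 m p) (fW kd m1 A B C p.z p.al p.be) := by
  obtain ⟨h0, h1, h2⟩ := WRep_at h p.g
  have e := WRep_den p.e
  unfold ItRep itW fW
  refine List.Forall₂.cons ⟨?_, ?_, ?_, ?_⟩ (List.Forall₂.cons ⟨?_, ?_, ?_, ?_⟩
    (List.Forall₂.cons ⟨?_, ?_, ?_, ?_⟩ List.Forall₂.nil))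
  · exact WRep_congr h0 (by rw [← e]; rfl)
  · show eaN m1 0 p.g p.e + p.al = _
    rw [eaN_eq]
    rfl
  · show ebN kd 0 p.g p.e + p.be = _
    rw [ebN_eq]
    rfl
  · exact (hA _).trans (by norm_num)
  · exact WRep_congr h1 (by rw [← e]; rfl)
  · show eaN m1 1 p.g p.e + p.al = _
    rw [eaN_eq]
    rfl
  · show ebN kd 1 p.g p.e + p.be = _
    rw [ebN_eq]
    rfl
  · exact (hB _).trans (by norm_num)
  · exact WRep_congr h2 (by rw [← e]; rfl)
  · show eaN m1 2 p.g p.e + p.al = _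
    rw [eaN_eq]
    rfl
  · show ebN kd 2 p.g p.e + p.be = _
    rw [ebN_eq]
    rfl
  · exact (hC _).trans (by norm_num)

theorem lsW_rep {kd m1 P : ℕ} {ms : List PM} {A B C : ℤ → ℂ} (h : MsRepW ms P A B C)
    (hA : ∀ k, ‖A k‖ ≤ 1) (hB : ∀ k, ‖B k‖ ≤ 1) (hC : ∀ k, ‖C k‖ ≤ 1) (l : List PosW)
    (hl : ∀ p ∈ l, p.e ≤ P) :
    LsRep (lsW kd m1 ms l) (l.map fun p => ((p.k : ℝ) / 100000000, fW kd m1 A B C p.z p.al p.be)) := by
  induction l with
  | nil => exact List.Forall₂.nil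
  | cons p l ih =>
    refine List.Forall₂.cons ⟨?_, ?_, ?_⟩ (ih fun q hq => hl q (List.mem_cons_of_mem _ hq))
    · positivity
    · show (p.k : ℝ) / 100000000 * 100000000 ≤ (p.k : ℝ)
      rw [div_mul_cancel₀ _ (by norm_num)]
    · exact itW_rep (h p.e (hl p List.mem_cons_self)) hA hB hC

private theorem WRep_smul {x : PC} {w : ℂ} {e E0 : ℕ} (he : e ≤ E0)
    (h : CRep x (100000 * 32045 ^ e * w)) :
    CRep (x.smul (Nat.pow 32045 (Nat.sub E0 e))) ((Nat.mul 100000 (Nat.pow 32045 E0) : ℕ) * w) := by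
  refine WRep_congr (h.smul _) ?_
  rw [WRep_den]
  have h1 : ((Nat.pow 32045 (Nat.sub E0 e) : ℕ) : ℂ) = 32045 ^ (E0 - e) := by
    simp only [Nat.pow_eq, Nat.sub_eq]
    push_cast
    rfl
  rw [h1]
  have h2 : (32045 : ℂ) ^ E0 = 32045 ^ (E0 - e) * 32045 ^ e := by
    rw [← pow_add, Nat.sub_add_cancel he]
  rw [h2]
  ring

theorem mainW_rep {kd m1 P E0 A0 B0 : ℕ} {ms : List PM} {A B C : ℤ → ℂ} (h : MsRepW ms P A B C)
    (hA : ∀ k, ‖A k‖ ≤ 1) (hB : ∀ k, ‖B k‖ ≤ 1) (hC : ∀ k, ‖C k‖ ≤ 1) (fx : List (Bool × ℕ))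
    (hl : ∀ p ∈ fx, p.2 ≤ E0 ∧ p.2 ≤ P) :
    ItRep (mainW kd m1 E0 A0 B0 ms fx) (fx.flatMap fun p => fW kd m1 A B C (posZ p.1 p.2) 0 0) := by
  unfold ItRep mainW
  simp only
  induction fx with
  | nil => exact List.Forall₂.nil
  | cons p l ih =>
    obtain ⟨h0, h1, h2⟩ := WRep_at (h p.2 (hl p List.mem_cons_self).2) p.1
    have he := (hl p List.mem_cons_self).1
    rw [List.flatMap_cons]
    refine List.Forall₂.cons ⟨?_, ?_, ?_, ?_⟩ (List.Forall₂.cons ⟨?_, ?_, ?_, ?_⟩
      (List.Forall₂.cons ⟨?_, ?_, ?_, ?_⟩ (ih fun q hq => hl q (List.mem_cons_of_mem _ hq))))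
    · exact WRep_smul he h0
    · show eaN m1 0 p.1 p.2 + 0 = _
      rw [eaN_eq]
    · show ebN kd 0 p.1 p.2 + 0 = _
      rw [ebN_eq]
    · exact (hA _).trans (by norm_num)
    · exact WRep_smul he h1
    · show eaN m1 1 p.1 p.2 + 0 = _
      rw [eaN_eq]
    · show ebN kd 1 p.1 p.2 + 0 = _
      rw [ebN_eq]
    · exact (hB _).trans (by norm_num)
    · exact WRep_smul he h2
    · show eaN m1 2 p.1 p.2 + 0 = _
      rw [eaN_eq]
    · show ebN kd 2 p.1 p.2 + 0 = _
      rw [ebN_eq]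
    · exact (hC _).trans (by norm_num)

theorem posL_length (g : Bool) (w : ℕ → ℕ × ℕ × ℕ) (f e i : ℕ) : (posL g w f e i).length = f := by
  induction f generalizing e i with
  | zero => rfl
  | succ f ih =>
    show (posL g w f (Nat.succ e) (Nat.succ i)).length + 1 = f + 1
    rw [ih]

theorem posL_get (g : Bool) (w : ℕ → ℕ × ℕ × ℕ) (f e i k : ℕ) (h : k < (posL g w f e i).length) :
    (posL g w f e i)[k] = ⟨g, e + k, (w (i + k)).1, (w (i + k)).2.1, (w (i + k)).2.2⟩ := by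
  induction f generalizing e i k with
  | zero => exact absurd h (Nat.not_lt_zero k)
  | succ f ih =>
    cases k with
    | zero => rfl
    | succ k =>
      have h1 := ih (Nat.succ e) (Nat.succ i) k (by
        have : k + 1 < (posL g w f (Nat.succ e) (Nat.succ i)).length + 1 := h
        omega)
      have h2 : (posL g w (f + 1) e i)[k + 1] = (posL g w f (Nat.succ e) (Nat.succ i))[k]'(by
        have : k + 1 < (posL g w f (Nat.succ e) (Nat.succ i)).length + 1 := h
        omega) := rfl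
      rw [h2, h1, show Nat.succ e + k = e + (k + 1) by omega, show Nat.succ i + k = i + (k + 1) by omega]

theorem posL_z (g : Bool) (w : ℕ → ℕ × ℕ × ℕ) (f e i : ℕ) :
    (posL g w f e i).map PosW.z = (List.range f).map fun k => posZ g (e + k) := by
  refine List.ext_getElem ?_ fun k h1 h2 => ?_
  · rw [List.length_map, List.length_map, List.length_range, posL_length]
  · rw [List.getElem_map, List.getElem_map, List.getElem_range, posL_get]
    rfl

end Pool.Agent.MaxTerm58
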