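import Pool.Agent.MaxTerm58.RepS
import Pool.Agent.MaxTerm58.LoopTI
import Pool.Agent.MaxTerm58.LeafC

/-! The constants of the family S. `E = (170919/100000)^2 - 2 = 0.9213304561`. Hints: `sqU_spec`; `y (E - min(y, 0.55)^2)` is
increasing on `[0, 1]` (`E >= 3 * 0.55^2`); `(1 + 1/34000)^33 <= 1.001`. -/

namespace Pool.Agent.MaxTerm58

private theorem WtS_absD (x : ℕ) : ((absD x : ℕ) : ℝ) = |(x : ℝ) - 100000| := by
  have h0 : absD x = (x - 100000) + (100000 - x) := rfl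
  rw [h0]
  rcases le_total x 100000 with h | h
  · rw [Nat.sub_eq_zero_of_le h, zero_add, Nat.cast_sub h]
    have h' : (x : ℝ) ≤ 100000 := by exact_mod_cast h
    rw [abs_of_nonpos (by linarith)]
    push_cast
    ring
  · rw [Nat.sub_eq_zero_of_le h, add_zero, Nat.cast_sub h]
    have h' : (100000 : ℝ) ≤ x := by exact_mod_cast h
    rw [abs_of_nonneg (by linarith)]
    push_cast
    ring

private theorem WtS_sq (x : ℕ) (a : ℝ) (h : |a - ((x : ℝ) - 100000)| ≤ 1) :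
    ((absD x - 1 : ℕ) : ℝ) ^ 2 ≤ a ^ 2 := by
  have h1 : ((absD x - 1 : ℕ) : ℝ) ≤ |a| := by
    rcases Nat.eq_zero_or_pos (absD x) with h0 | h0
    · rw [h0]
      simp
    · rw [Nat.cast_sub h0, WtS_absD, Nat.cast_one]
      have h2 : |(x : ℝ) - 100000| ≤ |a| + |a - ((x : ℝ) - 100000)| := by
        have h3 := abs_sub a (a - ((x : ℝ) - 100000))
        have h4 : a - (a - ((x : ℝ) - 100000)) = (x : ℝ) - 100000 := by ring
        rw [h4] at h3
        exact h3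
      linarith
  rw [← sq_abs a]
  exact pow_le_pow_left₀ (Nat.cast_nonneg _) h1 2

private theorem WtS_div (a b : ℕ) (hb : 0 < b) : (a : ℝ) / (b : ℝ) ≤ ((Nat.succ (a / b) : ℕ) : ℝ) := by
  have hb' : (0 : ℝ) < b := by exact_mod_cast hb
  rw [div_le_iff₀ hb']
  have h1 : a < b * (a / b + 1) := Nat.lt_mul_div_succ a hb
  have h2 : a ≤ (a / b + 1) * b := by
    rw [mul_comm]
    exact h1.le
  exact_mod_cast h2

/-- `(y + 10^-5)^i <= 1.001 y^i` for `i <= 33` -/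
private theorem WtS_pow (y : ℝ) (hy : 17 / 50 ≤ y) (i : ℕ) (hi : i ≤ 33) :
    (y + 1 / 100000) ^ i ≤ 1001 / 1000 * y ^ i := by
  have h1 : y + 1 / 100000 ≤ (1 + 1 / 34000) * y := by linarith
  have h2 : (y + 1 / 100000) ^ i ≤ ((1 + 1 / 34000) * y) ^ i :=
    pow_le_pow_left₀ (by linarith) h1 i
  have h3 : (1 + 1 / 34000 : ℝ) ^ i ≤ (1 + 1 / 34000) ^ 33 :=
    pow_le_pow_right₀ (by norm_num) hi
  have h4 : (1 + 1 / 34000 : ℝ) ^ 33 ≤ 1001 / 1000 := by norm_num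
  rw [mul_pow] at h2
  refine h2.trans ?_
  exact mul_le_mul_of_nonneg_right (h3.trans h4) (by positivity)

/-- `y (E - min(y, 0.55)^2)` is increasing -/
private theorem WtS_mono (D y : ℝ) (hD : 0 ≤ D) (h : D ≤ y) :
    D * ((170919 / 100000) ^ 2 - 2 - (min D (11 / 20)) ^ 2) ≤
      y * ((170919 / 100000) ^ 2 - 2 - (min y (11 / 20)) ^ 2) := by
  rcases le_total y (11 / 20) with h1 | h1
  · rw [min_eq_left h1, min_eq_left (h.trans h1)]
    have h2 : 0 ≤ (y - D) * ((170919 / 100000) ^ 2 - 2 - (y ^ 2 + y * D + D ^ 2)) := by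
      apply mul_nonneg (by linarith)
      have h3 : y ^ 2 ≤ (11 / 20) ^ 2 := pow_le_pow_left₀ (by linarith) h1 2
      have h4 : D ^ 2 ≤ (11 / 20) ^ 2 := pow_le_pow_left₀ hD (h.trans h1) 2
      have h5 : y * D ≤ 11 / 20 * (11 / 20) := mul_le_mul h1 (h.trans h1) hD (by norm_num)
      norm_num at *
      linarith
    nlinarith
  · rw [min_eq_right h1]
    rcases le_total D (11 / 20) with h6 | h6
    · rw [min_eq_left h6]
      have h2 : 0 ≤ (11 / 20 - D) * ((170919 / 100000) ^ 2 - 2 -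
          ((11 / 20) ^ 2 + 11 / 20 * D + D ^ 2)) := by
        apply mul_nonneg (by linarith)
        have h4 : D ^ 2 ≤ (11 / 20) ^ 2 := pow_le_pow_left₀ hD h6 2
        norm_num at *
        linarith
      have h7 : 11 / 20 * ((170919 / 100000 : ℝ) ^ 2 - 2 - (11 / 20) ^ 2) ≤
          y * ((170919 / 100000) ^ 2 - 2 - (11 / 20) ^ 2) := by
        apply mul_le_mul_of_nonneg_right h1
        norm_num
      nlinarith
    · rw [min_eq_right h6]
      apply mul_le_mul_of_nonneg_right h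
      norm_num

theorem minN_eq (a b : ℕ) : minN a b = min a b := by
  unfold minN
  rcases le_or_gt a b with h | h
  · rw [Nat.ble_eq_true_of_le h, cond_true, min_eq_left h]
  · have h1 : Nat.ble a b = false := by
      cases hc : Nat.ble a b
      · rfl
      · exact absurd (Nat.le_of_ble_eq_true hc) (not_le.mpr h)
    rw [h1, cond_false, min_eq_right h.le]

theorem maxU_eq (a b : ℕ) : maxU a b = max a b := by
  unfold maxU
  rcases le_or_gt a b with h | h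
  · rw [Nat.ble_eq_true_of_le h, cond_true, max_eq_right h]
  · have h1 : Nat.ble a b = false := by
      cases hc : Nat.ble a b
      · rfl
      · exact absurd (Nat.le_of_ble_eq_true hc) (not_le.mpr h)
    rw [h1, cond_false, max_eq_left h.le]

theorem c3U_spec (rq : ℕ) (D : ℝ) (hD0 : 0 ≤ D) (hD : D ≤ (rq : ℝ) / 10000) (hr : rq < 10000) :
    D * ((170919 / 100000) ^ 2 - 2 - (min D (11 / 20)) ^ 2) ≤ (((c3U rq : ℕ) : ℝ) / 100000000) ^ 2 := by
  have hE : ((170919 / 100000 : ℝ) ^ 2 - 2) = 9213304561 / 10000000000 := by norm_num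
  have hm := WtS_mono D ((rq : ℝ) / 10000) hD0 hD
  refine hm.trans ?_
  set m : ℕ := min rq 5500 with hmd
  have hm5 : m ≤ 5500 := min_le_right _ _
  have e : c3U rq = sqU (Nat.succ (Nat.mul (Nat.mul rq 100) (Nat.sub 9213304561
      (Nat.mul 100 (Nat.mul m m))))) := by
    unfold c3U
    rw [minN_eq]
  have h1 := sqU_spec (Nat.succ (Nat.mul (Nat.mul rq 100) (Nat.sub 9213304561
      (Nat.mul 100 (Nat.mul m m)))))
  rw [← e] at h1
  have hle : 100 * (m * m) ≤ 9213304561 := by nlinarith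
  have h2 : ((Nat.succ (Nat.mul (Nat.mul rq 100) (Nat.sub 9213304561
      (Nat.mul 100 (Nat.mul m m)))) : ℕ) : ℝ) =
      (rq : ℝ) * 100 * (9213304561 - 100 * ((m : ℝ) * m)) + 1 := by
    have e2 : Nat.succ (Nat.mul (Nat.mul rq 100) (Nat.sub 9213304561
      (Nat.mul 100 (Nat.mul m m)))) = rq * 100 * (9213304561 - 100 * (m * m)) + 1 := rfl
    rw [e2, Nat.cast_add, Nat.cast_mul, Nat.cast_mul, Nat.cast_sub hle]
    push_cast
    ring
  rw [h2] at h1
  have h3 : min ((rq : ℝ) / 10000) (11 / 20) = (m : ℝ) / 10000 := by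
    have h4 : (11 / 20 : ℝ) = (5500 : ℝ) / 10000 := by norm_num
    rw [h4, min_div_div_right (by norm_num : (0 : ℝ) ≤ 10000), hmd]
    push_cast
    rfl
  rw [h3, hE, div_pow (((c3U rq : ℕ) : ℝ))]
  rw [le_div_iff₀ (by norm_num)]
  have h5 : (rq : ℝ) / 10000 * (9213304561 / 10000000000 - ((m : ℝ) / 10000) ^ 2) *
      (100000000 : ℝ) ^ 2 = (rq : ℝ) * 100 * (9213304561 - 100 * ((m : ℝ) * m)) := by
    ring
  rw [h5]
  linarith

theorem sbU_spec (rq : ℕ) (D : ℝ) (hD : D ≤ (rq : ℝ) / 10000) :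
    9 / 10 * D ≤ (((sbU rq : ℕ) : ℝ) / 100000000) ^ 2 := by
  have h1 := sqU_spec (Nat.succ (Nat.mul 900000000000 rq))
  have e : sbU rq = sqU (Nat.succ (Nat.mul 900000000000 rq)) := rfl
  rw [← e] at h1
  have h2 : ((Nat.succ (Nat.mul 900000000000 rq) : ℕ) : ℝ) = 900000000000 * (rq : ℝ) + 1 := by
    have e2 : Nat.succ (Nat.mul 900000000000 rq) = 900000000000 * rq + 1 := rfl
    rw [e2]
    push_cast
    ring
  rw [h2] at h1
  rw [div_pow, le_div_iff₀ (by norm_num)]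
  have h3 : 9 / 10 * D * (100000000 : ℝ) ^ 2 ≤ 9 / 10 * ((rq : ℝ) / 10000) * (100000000 : ℝ) ^ 2 := by
    apply mul_le_mul_of_nonneg_right _ (by norm_num)
    linarith
  have h4 : 9 / 10 * ((rq : ℝ) / 10000) * (100000000 : ℝ) ^ 2 = 900000000000 * (rq : ℝ) := by ring
  linarith

theorem nuU_spec (x y Q : ℕ) (hQ : 0 < Q) (q : ℂ) (h : InSq q x y Q) :
    (170919 / 100000) ^ 2 - 2 - (min (9 / 10 * (‖q‖ + 1 / 100000)) (11 / 20)) ^ 2 ≤
      (((nuU Q x y : ℕ) : ℝ) / 100000000) ^ 2 := by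
  obtain ⟨hx, hy⟩ := h
  have hQ' : (0 : ℝ) < Q := by exact_mod_cast hQ
  have hE : ((170919 / 100000 : ℝ) ^ 2 - 2) = 9213304561 / 10000000000 := by norm_num
  set B : ℕ := 8100000000000000 * ((absD x - 1) ^ 2 + (absD y - 1) ^ 2) with hB
  set M : ℕ := min 3025000000000000 (B / (Q * Q)) with hM
  have e : nuU Q x y = sqU (Nat.succ (Nat.sub 9213304561000000 M)) := by
    unfold nuU
    rw [minN_eq]
    rfl
  have h1 := sqU_spec (Nat.succ (Nat.sub 9213304561000000 M))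
  rw [← e] at h1
  have hM0 : M ≤ 3025000000000000 := min_le_left _ _
  have h2 : ((Nat.succ (Nat.sub 9213304561000000 M) : ℕ) : ℝ) = 9213304561000000 - (M : ℝ) + 1 := by
    have e2 : Nat.succ (Nat.sub 9213304561000000 M) = 9213304561000000 - M + 1 := rfl
    rw [e2, Nat.cast_add, Nat.cast_sub (by omega)]
    push_cast
    ring
  rw [h2] at h1
  have h4 := WtS_sq x _ hx
  have h5 := WtS_sq y _ hy
  have h6 : ‖q‖ ^ 2 * (Q : ℝ) ^ 2 = (q.re * Q) ^ 2 + (q.im * Q) ^ 2 := by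
    rw [Complex.sq_norm, Complex.normSq_apply]
    ring
  have hM1 : (M : ℝ) ≤ 3025000000000000 := by exact_mod_cast hM0
  have hM2 : (M : ℝ) ≤ 8100000000000000 * ‖q‖ ^ 2 := by
    have h7 : (M : ℝ) ≤ ((B / (Q * Q) : ℕ) : ℝ) := by exact_mod_cast min_le_right _ _
    have h8 : ((B / (Q * Q) : ℕ) : ℝ) ≤ (B : ℝ) / ((Q * Q : ℕ) : ℝ) := Nat.cast_div_le
    have h9 : (B : ℝ) / ((Q * Q : ℕ) : ℝ) ≤ 8100000000000000 * ‖q‖ ^ 2 := by
      rw [div_le_iff₀ (by positivity), hB]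
      push_cast
      have h10 : 8100000000000000 * ‖q‖ ^ 2 * ((Q : ℝ) * Q) =
          8100000000000000 * (‖q‖ ^ 2 * (Q : ℝ) ^ 2) := by ring
      rw [h10, h6]
      linarith
    linarith
  have h11 : (M : ℝ) / 10000000000000000 ≤ (min (9 / 10 * (‖q‖ + 1 / 100000)) (11 / 20)) ^ 2 := by
    have hq0 := norm_nonneg q
    rcases le_total (9 / 10 * (‖q‖ + 1 / 100000)) (11 / 20) with h | h
    · rw [min_eq_left h, div_le_iff₀ (by norm_num)]
      nlinarith
    · rw [min_eq_right h, div_le_iff₀ (by norm_num)]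
      norm_num
      linarith
  rw [hE, div_pow, le_div_iff₀ (by norm_num)]
  have h12 : (9213304561 / 10000000000 - (M : ℝ) / 10000000000000000) * (100000000 : ℝ) ^ 2 =
      9213304561000000 - (M : ℝ) := by ring
  have h13 : (9213304561 / 10000000000 - (min (9 / 10 * (‖q‖ + 1 / 100000)) (11 / 20)) ^ 2) *
      (100000000 : ℝ) ^ 2 ≤ (9213304561 / 10000000000 - (M : ℝ) / 10000000000000000) *
      (100000000 : ℝ) ^ 2 := by
    apply mul_le_mul_of_nonneg_right _ (by norm_num)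
    linarith
  linarith

theorem rsU_spec (rq : ℕ) (D : ℝ) (hD : D ≤ (rq : ℝ) / 10000) :
    9 / 10 * D ≤ (((sqU (Nat.mul 9000 rq) : ℕ) : ℝ) / 10000) ^ 2 := by
  have h1 := sqU_spec (Nat.mul 9000 rq)
  have h2 : ((Nat.mul 9000 rq : ℕ) : ℝ) = 9000 * (rq : ℝ) := by
    have e2 : Nat.mul 9000 rq = 9000 * rq := rfl
    rw [e2]
    push_cast
    ring
  rw [h2] at h1
  rw [div_pow, le_div_iff₀ (by norm_num)]
  linarith

/-- weights, family SA -/
theorem kapA_spec (sb c3 : ℕ) (q : ℂ) (hq : 17 / 50 ≤ ‖q‖) (i : ℕ) (hi : 1 ≤ i) (hi2 : i < 33) :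
    (‖q‖ + 1 / 100000) ^ i ≤ kapR 0 c3 sb i * ‖q‖ ^ i := by
  have e : kapR 0 c3 sb i = 1001 / 1000 := by
    have h1 : Nat.beq i 0 = false := by
      cases hc : Nat.beq i 0
      · rfl
      · exact absurd (Nat.eq_of_beq_eq_true hc) (by omega)
    have h2 : kapA c3 i = 100100000 := by
      unfold kapA
      rw [h1, cond_false]
    unfold kapR
    have h3 : Nat.beq 0 0 = true := rfl
    rw [h3, cond_true, h2]
    norm_num
  rw [e]
  exact WtS_pow _ hq i (by omega)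

/-- weights, family SB -/
theorem kapB_spec (md c3 sb : ℕ) (hmd : 1 ≤ md) (q : ℂ) (hq : 17 / 50 ≤ ‖q‖)
    (hs : 9 / 10 * (‖q‖ + 1 / 100000) ≤ ((sb : ℝ) / 100000000) ^ 2) (i : ℕ) (hi : i < 33) :
    (9 / 10 * (‖q‖ + 1 / 100000)) ^ (i + 1) ≤ (kapR md c3 sb i * ‖q‖ ^ ((i + 1) / 2)) ^ 2 := by
  have hq0 : 0 ≤ ‖q‖ := norm_nonneg q
  have hbeq : Nat.beq md 0 = false := by
    cases hc : Nat.beq md 0
    · rfl
    · exact absurd (Nat.eq_of_beq_eq_true hc) (by omega)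
  set m : ℕ := (i + 1) / 2 with hm
  have hm33 : m ≤ 33 := by omega
  have e : kapR md c3 sb i = ((kapB sb i : ℕ) : ℝ) / 100000000 := by
    unfold kapR
    rw [hbeq, cond_false]
  have hpow := WtS_pow _ hq m hm33
  have h9 : (9 / 10 * (‖q‖ + 1 / 100000)) ^ m ≤ (9 / 10) ^ m * (1001 / 1000) * ‖q‖ ^ m := by
    rw [mul_pow, mul_assoc]
    exact mul_le_mul_of_nonneg_left hpow (by positivity)
  rcases Nat.mod_two_eq_zero_or_one i with hi0 | hi1
  · -- even
    have hb : Nat.beq (Nat.mod i 2) 1 = false := by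
      have h0 : Nat.mod i 2 = 0 := hi0
      rw [h0]
      rfl
    have hk : (9 / 10 : ℝ) ^ m * (1001 / 1000) * ((sb : ℝ) / 100000000) ≤ kapR md c3 sb i := by
      rw [e]
      have h1 : kapB sb i = Nat.succ ((9 ^ m * sb * 1001) / (10 ^ m * 1000)) := by
        unfold kapB
        rw [hb, cond_false]
        rfl
      rw [h1]
      have h2 := WtS_div (9 ^ m * sb * 1001) (10 ^ m * 1000) (by positivity)
      have h3 : (9 / 10 : ℝ) ^ m * (1001 / 1000) * ((sb : ℝ) / 100000000) =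
          (((9 ^ m * sb * 1001 : ℕ) : ℝ) / ((10 ^ m * 1000 : ℕ) : ℝ)) / 100000000 := by
        push_cast
        rw [div_pow]
        field_simp
      rw [h3]
      exact div_le_div_of_nonneg_right h2 (by norm_num)
    have hi' : i + 1 = 2 * m + 1 := by omega
    rw [hi', pow_succ, mul_comm 2 m, pow_mul]
    have hA : ((9 / 10 * (‖q‖ + 1 / 100000)) ^ m) ^ 2 ≤
        ((9 / 10) ^ m * (1001 / 1000) * ‖q‖ ^ m) ^ 2 := pow_le_pow_left₀ (by positivity) h9 2
    calc ((9 / 10 * (‖q‖ + 1 / 100000)) ^ m) ^ 2 * (9 / 10 * (‖q‖ + 1 / 100000))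
        ≤ ((9 / 10) ^ m * (1001 / 1000) * ‖q‖ ^ m) ^ 2 * ((sb : ℝ) / 100000000) ^ 2 :=
          mul_le_mul hA hs (by positivity) (by positivity)
      _ = ((9 / 10) ^ m * (1001 / 1000) * ((sb : ℝ) / 100000000) * ‖q‖ ^ m) ^ 2 := by ring
      _ ≤ (kapR md c3 sb i * ‖q‖ ^ m) ^ 2 := by
          apply pow_le_pow_left₀ (by positivity)
          exact mul_le_mul_of_nonneg_right hk (by positivity)
  · -- odd
    have hb : Nat.beq (Nat.mod i 2) 1 = true := by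
      have h0 : Nat.mod i 2 = 1 := hi1
      rw [h0]
      rfl
    have hk : (9 / 10 : ℝ) ^ m * (1001 / 1000) ≤ kapR md c3 sb i := by
      rw [e]
      have h1 : kapB sb i = Nat.succ ((9 ^ m * 100000000 * 1001) / (10 ^ m * 1000)) := by
        unfold kapB
        rw [hb, cond_true]
        rfl
      rw [h1]
      have h2 := WtS_div (9 ^ m * 100000000 * 1001) (10 ^ m * 1000) (by positivity)
      have h3 : (9 / 10 : ℝ) ^ m * (1001 / 1000) =
          (((9 ^ m * 100000000 * 1001 : ℕ) : ℝ) / ((10 ^ m * 1000 : ℕ) : ℝ)) / 100000000 := by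
        push_cast
        rw [div_pow]
        field_simp
      rw [h3]
      exact div_le_div_of_nonneg_right h2 (by norm_num)
    have hi' : i + 1 = 2 * m := by omega
    rw [hi', mul_comm 2 m, pow_mul]
    apply pow_le_pow_left₀ (by positivity)
    refine h9.trans ?_
    exact mul_le_mul_of_nonneg_right hk (by positivity)

/-- better bounds of the two parameters -/
theorem radS_spec (x y Q : ℕ) (hQ : 0 < Q) (q : ℂ) (h : InSq q x y Q) (b : ℕ)
    (hb : ‖q‖ + 1 / 100000 ≤ (b : ℝ) / 10000) :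
    ‖q‖ + 1 / 100000 ≤ ((minN (radS Q x y) b : ℕ) : ℝ) / 10000 := by
  rw [minN_eq]
  have h1 : ‖q‖ + 1 / 100000 ≤ ((radS Q x y : ℕ) : ℝ) / 10000 := radius_spec x y Q hQ q h
  rcases min_choice (radS Q x y) b with h2 | h2
  · rw [h2]
    exact h1
  · rw [h2]
    exact hb

/-- facts from the side conditions -/
theorem sideS_spec {x y Q u v R md P nL nR PL PR rqc : ℕ} {la lb lc : List ℕ}
    (h : sideS x y Q u v R md P nL nR PL PR rqc la lb lc = true) :
    0 < Q ∧ 0 < R ∧ Q ≤ 4096 ∧ R ≤ 4096 ∧ P ≤ 33 ∧ PL ≤ P ∧ PR ≤ P ∧ nL ≤ PL ∧ nR ≤ PR ∧ 1 ≤ PR ∧ md ≤ 2 ∧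
    |(x : ℝ) - 100000| + 1 ≤ 2 * Q ∧ |(y : ℝ) - 100000| + 1 ≤ 2 * Q ∧
    |(u : ℝ) - 100000| + 1 ≤ 2 * R ∧ |(v : ℝ) - 100000| + 1 ≤ 2 * R ∧
    sqU (Nat.mul 9000 rqc) < 10000 ∧
    (∀ n ∈ la, okP n = true) ∧ (∀ n ∈ lb, okP n = true) ∧ (∀ n ∈ lc, okP n = true) ∧
    wtC (la.map ndC) + wtC (lb.map ndC) + wtC (lc.map ndC) ≤ 1 := by
  unfold sideS at h
  simp only [Bool.and_eq_true, Nat.ble_eq, List.all_eq_true] at h
  obtain ⟨⟨⟨⟨⟨⟨⟨⟨⟨⟨⟨⟨⟨⟨⟨⟨⟨⟨⟨h1, h2⟩, h3⟩, h4⟩, h5⟩, h6⟩, h7⟩, h8⟩, h9⟩, h10⟩, h11⟩, h12⟩, h13⟩, h14⟩,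
    h15⟩, h16⟩, h17⟩, h18⟩, h19⟩, h20⟩ := h
  have key : ∀ z N : ℕ, Nat.succ (absD z) ≤ Nat.mul 2 N → |(z : ℝ) - 100000| + 1 ≤ 2 * N := by
    intro z N hz
    rw [← WtS_absD]
    have hz' : absD z + 1 ≤ 2 * N := hz
    exact_mod_cast hz'
  refine ⟨h1, h2, h3, h4, h5, h6, h7, h8, h9, h10, h11, key _ _ h12, key _ _ h13, key _ _ h14,
    key _ _ h15, h16, h17, h18, h19, ?_⟩
  have a1 := wsumP_spec la
  have a2 := wsumP_spec lb
  have a3 := wsumP_spec lc
  have a4 : ((wsumP la : ℕ) : ℝ) + (((wsumP lb : ℕ) : ℝ) + ((wsumP lc : ℕ) : ℝ)) ≤ 100000000 := by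
    have h21 : wsumP la + (wsumP lb + wsumP lc) ≤ 100000000 := h20
    exact_mod_cast h21
  linarith

end Pool.Agent.MaxTerm58
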