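import Pool.Agent.MaxTerm58.WRep
import Pool.Agent.MaxTerm58.WtS
import Pool.Agent.MaxTerm58.LeafC

/-! The second parameter and the ball groups. Hints: `boxAvg_of_mem u v R u v R` contains all facts for a square,
`crnL_rep`; for the zero parameter take all weights `1 / 4` (`XX`, `MM` irreducible; `encP_rep` with `a = b = o`). -/

namespace Pool.Agent.MaxTerm58

/-- averaging data for the second parameter -/
structure TSide (t : ℂ) (dl : List (ℕ × ℕ)) (R rp : ℕ) (w' : Fin 4 → ℝ) (δ : Fin 4 → ℂ) : Prop where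
  w0 : ∀ i, 0 ≤ w' i
  w1 : ∑ i, w' i = 1
  avg : ∑ i, (w' i : ℂ) * (δ i / R) = t
  var : ∑ i, w' i * ‖δ i / R - t‖ ^ 2 ≤ 2 * (1 / (R : ℝ) ^ 2)
  bd : ∀ i, ‖δ i / R‖ ≤ (rp : ℝ) / 10000
  b3 : ∀ i, ‖δ i / R‖ ≤ 3
  rep : ∀ i, ∃ dd ∈ dl, CRep (encP 100000 dd.1 dd.2) (δ i)

theorem tside_sq (u v R : ℕ) (hR : 0 < R) (hR' : R ≤ 4096) (hu : |(u : ℝ) - 100000| + 1 ≤ 2 * R)
    (hv : |(v : ℝ) - 100000| + 1 ≤ 2 * R) (t : ℂ) (h : InSq t u v R) :
    ∃ w', TSide t (crnL u v) R (radS R u v) w' (fun i => ctr u v + crnR i) := by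
  obtain ⟨w, w', H⟩ := boxAvg_of_mem u v R u v R hR hR t t h h
  exact ⟨w', H.v0, H.v1, H.hp, H.hV', H.hy,
    fun i => by
      obtain ⟨cc, _, _, h2, _⟩ := crnL_rep u v R hR' hu hv hR i
      exact h2,
    fun i => by
      obtain ⟨cc, h0, h1, _, _⟩ := crnL_rep u v R hR' hu hv hR i
      exact ⟨cc, h0, h1⟩⟩

private theorem WTs_rep : CRep (encP 100000 100000 100000) 0 := by
  have h1 : 1 ≤ XX := by
    rw [XX_eq]
    exact Nat.one_le_two_pow
  have h2 : 100000 ≤ 100000 * XX := by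
    calc 100000 = 100000 * 1 := by norm_num
      _ ≤ 100000 * XX := Nat.mul_le_mul_left _ h1
  have h := encP_rep 100000 100000 100000 (by norm_num) h2
  have e : (((100000 : ℕ) : ℂ) - (100000 : ℕ)) + (((100000 : ℕ) : ℂ) - (100000 : ℕ)) * Complex.I = 0 := by
    rw [sub_self, zero_mul, add_zero]
  rwa [e] at h

theorem tside_zero (rp : ℕ) : ∃ w', TSide 0 [(100000, 100000)] 1 rp w' (fun _ => 0) := by
  refine ⟨fun _ => 1 / 4, fun _ => by norm_num, ?_, ?_, ?_, fun _ => ?_, fun _ => ?_, fun _ => ?_⟩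
  · rw [Fin.sum_univ_four]
    norm_num
  · simp
  · simp
  · rw [zero_div, norm_zero]
    positivity
  · rw [zero_div, norm_zero]
    norm_num
  · exact ⟨(100000, 100000), List.mem_singleton_self _, WTs_rep⟩

/-- a group of positions in the ball, except for one of them -/
def GrpOK (s t : ℂ) (v : ℤ → ℂ) (l : List PosW) (nu ex : ℕ) : Prop :=
  ∃ (c : ℕ → ℝ) (u : ℕ), (∀ i, 0 ≤ c i) ∧ (∀ i, c i ≤ 1) ∧ u ≠ ex ∧
    (∀ S : Finset ℕ, u ∉ S → ∑ i ∈ S, c i ^ 2 ≤ ((nu : ℝ) / 100000000) ^ 2) ∧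
    ∀ i (hi : i < l.length), ‖v (l[i]).z‖ ≤
      c i * (((l[i]).k : ℝ) / 100000000 * (‖s‖ ^ (l[i]).al * ‖t‖ ^ (l[i]).be))

theorem GrpOK.nil (s t : ℂ) (v : ℤ → ℂ) (nu ex : ℕ) : GrpOK s t v [] nu ex := by
  refine ⟨fun _ => 0, ex + 1, fun _ => le_rfl, fun _ => zero_le_one, Nat.succ_ne_self ex, ?_, ?_⟩
  · intro S _
    simp only [ne_eq, OfNat.ofNat_ne_zero, not_false_eq_true, zero_pow, Finset.sum_const_zero]
    positivity
  · intro i hi
    exact absurd hi (Nat.not_lt_zero i)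

end Pool.Agent.MaxTerm58
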