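import Pool.Agent.MaxTerm58.MDef

/-! The check for the units `0, 1` with a very small left side: one corner function (the corner `X = 1` of the window
engine with `s = 1`, `m1 = 40`). -/

namespace Pool.Agent.MaxTerm58

/-- weight `(1/40)^(i+1)` -/
def wtX (i : Nat) : Nat × Nat × Nat := (Nat.succ (Nat.div 100000000 (Nat.pow 40 (Nat.succ i))), 0, 0)

def tailX (md PR PL : Nat) : Nat :=
  Nat.succ (Nat.add (tauM md 1 3401 PR) (Nat.div (Nat.mul 100000000 40) (Nat.mul 39 (Nat.pow 40 (Nat.succ PL)))))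

def famX (md nu nL nR PL PR : Nat) : FamS :=
  { kd := 0, m1 := 40, m2 := 0, b := 1, E0 := 1, A0 := 41, B0 := 0,
    fx := [(true, 0), (true, 1)], inn := [],
    wR := wtM md 1 3401, wL := wtX, mR := md, mL := 0,
    nuR := nu, exR := 0, nuL := 0, exL := 0, nR := nR, nL := nL, PR := PR, PL := PL,
    tail := tailX md PR PL, rqc := 10000, rpc := 0 }

def checkX (md nu P nL nR PL PR : Nat) (lb : List Nat) : Bool :=
  (Nat.beq md 0 || (okNu 1 3401 nu && Nat.ble 1 PR)) && Nat.ble PL 38 &&
  (famX md nu nL nR PL PR).chk [(100000, 100000)] P 100064 100000 64 1 0 [] lb []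

end Pool.Agent.MaxTerm58
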