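import Pool.Agent.MaxTerm58.XSound

/-! The units `0, 1` with a very small left side: certificates and conclusion. -/

namespace Pool.Agent.MaxTerm58

def listX0 : List Nat :=
  [906773157377813100404, 933866889145449026603, 923638204218934912871, 906776773668008716277]

def listX1 : List Nat :=
  [906773157374557267678, 933866889143301278220, 1154022491397151623027, 1154400936636965553620,
  923638204213915910087, 906776773667625200091]

theorem chkX0 : checkX 0 0 13 3 8 5 12 listX0 = true := by decide +kernel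

theorem chkX1 : checkX 1 89758702 13 3 8 5 12 listX1 = true := by decide +kernel

theorem smallx_final {v : ℤ → ℂ} {D : ℝ} (h0 : v 0 = 1) (h1 : v 1 = 1)
    (hL : ∀ i : ℕ, ‖v (-1 - (i : ℤ))‖ ≤ (1 / 40) ^ (i + 1)) (hD : D ≤ 34001 / 100000)
    (hR : OutM 1 D (fun i => v (2 + (i : ℤ))) ∨ OutN 1 D (fun i => v (2 + (i : ℤ))))
    (bd : ∀ z : ℂ, ‖z‖ = 1 → ‖∑' n : ℤ, v n * z ^ n‖ ≤ 170919 / 100000) : False := by
  rcases hR with hR | hR
  · refine checkX_sound 0 _ _ _ _ _ _ listX0 chkX0 h0 h1 hL hD ?_ bd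
    unfold OutX
    rw [if_pos rfl]
    exact hR
  · refine checkX_sound 1 _ _ _ _ _ _ listX1 chkX1 h0 h1 hL hD ?_ bd
    unfold OutX
    rw [if_neg one_ne_zero]
    exact hR

theorem smallx_hypM {a b : ℕ} {x : ℂ} {D : ℝ} {v : ℤ → ℂ} (ha : 0 < a) (hab : a < b) (H : HypM a b x D v)
    (hx : ‖x‖ ^ b ≤ 1 / 40) (hD : D ≤ 34001 / 100000)
    (hR : OutM b D (fun i => v (b + 1 + (i : ℤ))) ∨ OutN b D (fun i => v (b + 1 + (i : ℤ))))
    (hL : OutM a D (fun i => v (-(a : ℤ) - 1 - (i : ℤ))) ∨ OutN a D (fun i => v (-(a : ℤ) - 1 - (i : ℤ)))) :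
    False := by
  obtain ⟨u, h0, h1, h2, h3, h4⟩ := smallx_class ha hab H hx hR hL
  exact smallx_final h0 h1 h2 hD h3 h4

end Pool.Agent.MaxTerm58
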