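import Pool.Agent.MaxTerm58.XDef
import Pool.Agent.MaxTerm58.MLeaf
import Pool.Agent.MaxTerm59.ClassFn

/-! Soundness of `checkX` and the reduction of `HypM` with a very small `‖x‖ ^ b`.
`checkX_sound`: apply `fam_sound` (model `MLeaf.lean`, `ELeaf.lean`) with `s = 1`, `t = 0`, `m1 = 40`:
`HypV 0 40 1 0 v` since all powers of `1` are `1`; `InSq 1 100064 100000 64`; `gW ≤ 1`; tails: right `tail_box` /
`tail_ball` with `w = 3401/10000`, `D ≤ 34001/100000`, `g = 1`; left `(1/40)^(PL+1) / (1 - 1/40)`.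
`smallx_class`: class `0` modulo `b` of the right corner: `u k = v (b k) * x ^ ((-(b k))⁺)`;
`Pool.Agent.MaxTerm59.cls_bound` for the bound; for `OutN`: `y' = y ^ b`, `c' i = c (b (i + 1) - 1)`, `u' + 1 = (u + 1) / b`
if `b` divides `u + 1`, otherwise `u' = 1`. -/

namespace Pool.Agent.MaxTerm58

private theorem XSound_wt0 (nd : List (ℂ × ℂ)) : 0 ≤ wtC nd := by
  unfold wtC
  apply List.sum_nonneg
  intro x hx
  obtain ⟨y, _, rfl⟩ := List.mem_map.1 hx
  exact norm_nonneg _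

private theorem XSound_side {F : FamS} {dl : List (ℕ × ℕ)} {P x y Q R rp : ℕ} {la lb lc : List ℕ}
    (h : F.chk dl P x y Q R rp la lb lc = true) :
    wtC (la.map ndC) + wtC (lb.map ndC) + wtC (lc.map ndC) ≤ 1 := by
  unfold FamS.chk checkW sideW at h
  simp only [Bool.and_eq_true, Nat.ble_eq, List.all_eq_true] at h
  obtain ⟨_, ⟨⟨⟨⟨⟨⟨⟨⟨⟨⟨⟨⟨⟨⟨⟨⟨h1, h2⟩, h3⟩, h4⟩, h5⟩, h6⟩, h7⟩, h8⟩, h9⟩, h10⟩, h11⟩, h12⟩, h13⟩, h14⟩,
    h15⟩, h16⟩, h17⟩, _⟩ := h
  have a1 := wsumP_spec la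
  have a2 := wsumP_spec lb
  have a3 := wsumP_spec lc
  have a4 : ((wsumP la : ℕ) : ℝ) + (((wsumP lb : ℕ) : ℝ) + ((wsumP lc : ℕ) : ℝ)) ≤ 100000000 := by
    have h21 : wsumP la + (wsumP lb + wsumP lc) ≤ 100000000 := h10
    exact_mod_cast h21
  linarith

private theorem XSound_gW (wa wb wc : ℝ) (hw : wa + wb + wc ≤ 1) (n : ℤ) :
    gW 0 40 (1 : ℂ) 0 wa wb wc n ≤ 1 := by
  have f : ∀ X : ℕ, ebZ 0 X n = 0 := fun X => by
    unfold ebZ
    rw [if_pos rfl]
  unfold gW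
  simp only [f, norm_one, one_pow, pow_zero, mul_one]
  exact hw

private theorem XSound_div (n d : ℕ) (hd : 0 < d) : (n : ℝ) / d ≤ ((n / d + 1 : ℕ) : ℝ) := by
  rw [div_le_iff₀ (by exact_mod_cast hd), mul_comm]
  exact_mod_cast (Nat.lt_mul_div_succ n hd).le

/-- the geometric left side -/
private theorem XSound_geo (r : ℕ → ℝ) (hr0 : ∀ i, 0 ≤ r i) (h : ∀ i, r i ≤ (1 / 40) ^ (i + 1)) (P : ℕ) :
    ∑' i, r (P + i) ≤ (1 / 40) ^ (P + 1) * (40 / 39) := by
  have h1 : ∀ i, r (P + i) ≤ (1 / 40) ^ (P + 1) * (1 / 40) ^ i := fun i => by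
    refine (h _).trans (le_of_eq ?_)
    rw [← pow_add]
    congr 1
    omega
  have hg : Summable fun i : ℕ => ((1 : ℝ) / 40) ^ (P + 1) * (1 / 40) ^ i :=
    (summable_geometric_of_lt_one (by norm_num) (by norm_num)).mul_left _
  have hr : Summable fun i => r (P + i) := Summable.of_nonneg_of_le (fun i => hr0 _) h1 hg
  calc ∑' i, r (P + i) ≤ ∑' i : ℕ, ((1 : ℝ) / 40) ^ (P + 1) * (1 / 40) ^ i := hr.tsum_le_tsum h1 hg
    _ = (1 / 40) ^ (P + 1) * (40 / 39) := by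
      rw [tsum_mul_left, tsum_geometric_of_lt_one (by norm_num) (by norm_num)]
      norm_num

theorem checkX_sound (md nu P nL nR PL PR : ℕ) (lb : List ℕ) (h : checkX md nu P nL nR PL PR lb = true)
    {v : ℤ → ℂ} {D : ℝ} (h0 : v 0 = 1) (h1 : v 1 = 1) (hL : ∀ i : ℕ, ‖v (-1 - (i : ℤ))‖ ≤ (1 / 40) ^ (i + 1))
    (hD : D ≤ 34001 / 100000) (hR : OutX md 1 D (fun i => v (2 + (i : ℤ))))
    (bd : ∀ z : ℂ, ‖z‖ = 1 → ‖∑' n : ℤ, v n * z ^ n‖ ≤ 170919 / 100000) : False := by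
  unfold checkX at h
  simp only [Bool.and_eq_true, Bool.or_eq_true, Nat.ble_eq] at h
  obtain ⟨⟨hmd, hPL⟩, hck⟩ := h
  have hside := XSound_side hck
  have hw0 : (0 : ℝ) ≤ 3401 / 10000 := by norm_num
  have hw1 : (3401 / 10000 : ℝ) < 1 := by norm_num
  have hDw : D ≤ (3401 / 10000 : ℝ) ^ 1 := by
    rw [pow_one]
    linarith
  -- the right side
  have hright : SeqOK md nu 0 (wtM md 1 3401) PR (fun i => v ((1 : ℕ) + 1 + (i : ℤ))) 1 0 ∧
      (Summable fun i : ℕ => ‖v (2 + (i : ℤ))‖) ∧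
      ∑' i : ℕ, ‖v (2 + ((PR + i : ℕ) : ℤ))‖ ≤ (tauM md 1 3401 PR : ℝ) / 100000000 := by
    have e2 : ∀ i : ℕ, ((1 : ℕ) : ℤ) + 1 + (i : ℤ) = 2 + (i : ℤ) := fun i => by norm_num
    have hspec := fun i : ℕ => wtM_spec md 1 3401 i (1 : ℂ) 0
    have htau := tauM_spec md 1 3401 PR one_pos (by norm_num) (by omega)
    push_cast at hspec htau
    unfold OutX at hR
    unfold SeqOK
    simp only [e2]
    by_cases hm : md = 0
    · rw [if_pos hm] at hR htau ⊢
      simp only [if_pos hm] at hspec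
      have hD0 : 0 ≤ D := by
        have h2 := hR 0
        rw [pow_one] at h2
        have h3 : 0 + 1 + (0 + 1 - 1) = 1 := rfl
        rw [h3, pow_one] at h2
        exact (norm_nonneg _).trans h2
      obtain ⟨k1, k2⟩ := tail_box (P := PR) one_pos hw0 hw1 hD0 hDw (by omega) hR
      refine ⟨fun i _ => (k1 i).trans (hspec i), ?_, k2.trans htau⟩
      refine Summable.of_nonneg_of_le (fun _ => norm_nonneg _)
        (fun i => (k1 i).trans (pow_le_pow_of_le_one hw0 hw1.le (Nat.le_add_right (i + 1) _))) ?_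
      exact (summable_nat_add_iff 1).2 (summable_geometric_of_lt_one hw0 hw1)
    · rw [if_neg hm] at hR htau ⊢
      simp only [if_neg hm] at hspec
      obtain ⟨hnu, hPR⟩ : okNu 1 3401 nu = true ∧ 1 ≤ PR := by
        rcases hmd with h2 | h2
        · exact absurd (Nat.eq_of_beq_eq_true h2) hm
        · exact h2
      have hPR' : (1 : ℝ) ≤ PR := by exact_mod_cast hPR
      have hnus := okNu_spec hnu
      push_cast at hnus
      have hP : (((1 : ℕ) : ℝ) + ((PR : ℝ) + 1)) * (3401 / 10000) ^ (2 * 1) ≤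
          ((PR : ℝ) + 1) * ((170919 / 100000) ^ 2 - 2) := by
        have e1 : (3401 / 10000 : ℝ) ^ (2 * 1) ≤ 12 / 100 := by norm_num
        have e2 : (92 / 100 : ℝ) ≤ (170919 / 100000) ^ 2 - 2 := by norm_num
        have e3 := mul_le_mul_of_nonneg_left e1 (show (0 : ℝ) ≤ ((1 : ℕ) : ℝ) + ((PR : ℝ) + 1) by positivity)
        have e4 := mul_le_mul_of_nonneg_left e2 (show (0 : ℝ) ≤ (PR : ℝ) + 1 by positivity)
        refine e3.trans (le_trans ?_ e4)
        push_cast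
        linarith
      obtain ⟨c, u, k0, k1, ku, k2, k3, k4⟩ := OutN.scaleN (g := 1) (w := 3401 / 10000)
        (ν := (nu : ℝ) / 100000000) (P := PR) (Or.inl rfl) hR (by norm_num) hw1.le hDw (by positivity)
        (by push_cast; exact hnus) hP
      refine ⟨⟨c, u, k0, k1, by omega, k2, fun i _ => ?_⟩, ?_, ?_⟩
      · refine (k4 i).trans (mul_le_mul_of_nonneg_left ?_ (k0 i))
        have := hspec i
        rwa [add_zero] at this
      · refine Summable.of_nonneg_of_le (fun _ => norm_nonneg _)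
          (fun i => (k4 i).trans (mul_le_of_le_one_left (by positivity) (k1 i))) ?_
        exact (summable_nat_add_iff 1).2 (summable_geometric_of_lt_one hw0 hw1)
      · refine le_trans ?_ htau
        exact tail_ball (P := PR) hw0 hw1 (by norm_num) k0 k1 k3
          (r := fun i : ℕ => ‖v (2 + (i : ℤ))‖) (fun i => norm_nonneg _) k4
  obtain ⟨hseqR, hsumR, htauR⟩ := hright
  -- the left side
  have hleft : Summable fun i : ℕ => ‖v (-1 - (i : ℤ))‖ :=
    Summable.of_nonneg_of_le (fun _ => norm_nonneg _) hL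
      ((summable_nat_add_iff 1).2 (summable_geometric_of_lt_one (by norm_num) (by norm_num)))
  have hsum : Summable fun n => ‖v n‖ := by
    have g1 : Summable fun n : ℕ => ‖v (n : ℤ)‖ := by
      refine (summable_nat_add_iff 2).1 (hsumR.congr fun i => ?_)
      congr 2
      push_cast
      ring
    have g2 : Summable fun n : ℕ => ‖v (-(n : ℤ))‖ := by
      refine (summable_nat_add_iff 1).1 (hleft.congr fun i => ?_)
      congr 2
      push_cast
      ring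
    exact Summable.of_nat_of_neg g1 g2
  have HV : HypV 0 40 1 0 v := by
    refine ⟨by simp, by simp, hsum, fun X _ z hz => ?_⟩
    have e1 : ∀ n : ℤ, v n * ((1 : ℂ) ^ eaZ 40 X n * (0 : ℂ) ^ ebZ 0 X n) * z ^ n = v n * z ^ n := by
      intro n
      have h0 : ebZ 0 X n = 0 := by
        unfold ebZ
        rw [if_pos rfl]
      rw [h0, one_pow, pow_zero, mul_one, mul_one]
    simp only [e1]
    exact bd z hz
  obtain ⟨w', hT⟩ := tside_zero 0
  have hsq : InSq (1 : ℂ) 100064 100000 64 := by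
    constructor <;> norm_num
  have hτL : ∑' i : ℕ, ‖v (-((0 : ℕ) : ℤ) - 1 - (PL : ℤ) - (i : ℤ))‖ ≤
      (1 / 40) ^ (PL + 1) * (40 / 39) := by
    have e : ∀ i : ℕ, -((0 : ℕ) : ℤ) - 1 - (PL : ℤ) - (i : ℤ) = -1 - ((PL + i : ℕ) : ℤ) := by
      intro i
      push_cast
      ring
    simp only [e]
    exact XSound_geo (fun i : ℕ => ‖v (-1 - (i : ℤ))‖) (fun i => norm_nonneg _) hL PL
  have hτR : ∑' i : ℕ, ‖v (((1 : ℕ) : ℤ) + 1 + (PR : ℤ) + (i : ℤ))‖ ≤
      (tauM md 1 3401 PR : ℝ) / 100000000 := by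
    have e : ∀ i : ℕ, ((1 : ℕ) : ℤ) + 1 + (PR : ℤ) + (i : ℤ) = 2 + ((PR + i : ℕ) : ℤ) := by
      intro i
      push_cast
      ring
    simp only [e]
    exact htauR
  refine fam_sound (famX md nu nL nR PL PR) hck HV hsq hT ?_ ?_ ?_ ?_ ?_ hseqR ?_ 1 1
    ((tauM md 1 3401 PR : ℝ) / 100000000) ((1 / 40) ^ (PL + 1) * (40 / 39)) ?_ ?_ hτR hτL ?_
  · show ‖(1 : ℂ)‖ ≤ ((10000 : ℕ) : ℝ) / 10000
    norm_num
  · show ‖(0 : ℂ)‖ ≤ ((0 : ℕ) : ℝ) / 10000
    norm_num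
  · intro p hp
    fin_cases hp
    · exact h0
    · exact h1
  · show List.Perm ([0, 1] : List ℤ) [0, 1]
    exact List.Perm.refl _
  · intro p hp
    exact absurd hp List.not_mem_nil
  · unfold SeqOK
    rw [if_pos (show (famX md nu nL nR PL PR).mL = 0 from rfl)]
    intro i _
    show ‖v (-((0 : ℕ) : ℤ) - 1 - (i : ℤ))‖ ≤ wtV (wtX i) 1 0
    have e : -((0 : ℕ) : ℤ) - 1 - (i : ℤ) = -1 - (i : ℤ) := by norm_num
    rw [e]
    refine (hL i).trans ?_
    unfold wtV wtX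
    simp only [pow_zero, mul_one]
    have h5 := XSound_div 100000000 (40 ^ (i + 1)) (by positivity)
    push_cast at h5
    show _ ≤ ((100000000 / 40 ^ (i + 1) + 1 : ℕ) : ℝ) / 100000000
    rw [le_div_iff₀ (by norm_num)]
    push_cast
    refine le_trans (le_of_eq ?_) h5
    rw [one_div, inv_pow]
    field_simp
  · intro i
    exact XSound_gW _ _ _ hside _
  · intro i
    exact XSound_gW _ _ _ hside _
  · show ((1 : ℝ) * _ + 1 * _) * 100000000 ≤ ((tauM md 1 3401 PR +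
      100000000 * 40 / (39 * 40 ^ (PL + 1)) + 1 : ℕ) : ℝ)
    have h5 := XSound_div (100000000 * 40) (39 * 40 ^ (PL + 1)) (by positivity)
    push_cast at h5 ⊢
    have e : ((1 : ℝ) / 40) ^ (PL + 1) * (40 / 39) * 100000000 =
        100000000 * 40 / (39 * 40 ^ (PL + 1)) := by
      rw [one_div, inv_pow]
      field_simp
    nlinarith

private theorem XSound_le1 {g : ℕ} (hg : 0 < g) {D : ℝ} (hD : D ≤ 761 / 1000) {r : ℕ → ℂ}
    (h : OutM g D r ∨ OutN g D r) (i : ℕ) : ‖r i‖ ≤ 1 := by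
  rcases h with h | ⟨y, c, u, hy0, hyD, hc0, hc1, -, -, hr⟩
  · have h0 := h 0
    have hD0 : 0 ≤ D := by
      have h1 : 0 + 1 + (0 + 1 - g) = 1 := by omega
      rw [h1, pow_one] at h0
      exact (pow_nonneg (norm_nonneg _) _).trans h0
    have h2 : ‖r i‖ ^ g ≤ 1 ^ g := by
      rw [one_pow]
      exact (h i).trans (pow_le_one₀ hD0 (by linarith))
    exact le_of_pow_le_pow_left₀ (by omega) zero_le_one h2
  · have hy1 : y ≤ 1 := by
      by_contra hc
      push Not at hc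
      have := one_le_pow₀ hc.le (n := g)
      linarith
    exact (hr i).trans (mul_le_one₀ (hc1 i) (pow_nonneg hy0 _) (pow_le_one₀ hy0 hy1))

private theorem XSound_outM {b : ℕ} (hb : 0 < b) {D : ℝ} {r : ℕ → ℂ} (h : OutM b D r) :
    OutM 1 D (fun i => r (b * (i + 1) - 1)) := by
  have h0 := h 0
  have hD0 : 0 ≤ D := by
    have h1 : 0 + 1 + (0 + 1 - b) = 1 := by omega
    rw [h1, pow_one] at h0
    exact (pow_nonneg (norm_nonneg _) _).trans h0
  intro i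
  rw [pow_one]
  refine le_of_pow_le_pow_left₀ hb.ne' (pow_nonneg hD0 _) ((h _).trans (le_of_eq ?_))
  rw [← pow_mul]
  congr 1
  have h2 : b ≤ b * (i + 1) := Nat.le_mul_of_pos_right b (Nat.succ_pos i)
  have h3 : b * (i + 1) - 1 + 1 = b * (i + 1) := by omega
  have h4 : i + 1 - 1 = i := by omega
  rw [h3, h4]
  have h5 : b * (i + 1) - b = b * i := by
    rw [Nat.mul_succ]
    omega
  rw [h5]
  ring

private theorem XSound_outN {b : ℕ} (hb : 0 < b) {D : ℝ} {r : ℕ → ℂ} (h : OutN b D r) :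
    OutN 1 D (fun i => r (b * (i + 1) - 1)) := by
  obtain ⟨y, c, u, hy0, hyD, hc0, hc1, hu, hS, hr⟩ := h
  have hpos : ∀ i, b * (i + 1) - 1 + 1 = b * (i + 1) := fun i => by
    have h2 : b ≤ b * (i + 1) := Nat.le_mul_of_pos_right b (Nat.succ_pos i)
    omega
  have hinj : Function.Injective fun i : ℕ => b * (i + 1) - 1 := by
    intro i j hij
    have h1 : b * (i + 1) - 1 = b * (j + 1) - 1 := hij
    have h2 : b * (i + 1) = b * (j + 1) := by
      rw [← hpos i, ← hpos j, h1]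
    have := Nat.eq_of_mul_eq_mul_left hb h2
    omega
  obtain ⟨u', hu'0, hu'⟩ : ∃ u' : ℕ, u' ≠ 0 ∧ ∀ i, b * (i + 1) - 1 = u → i = u' := by
    by_cases hd : ∃ i, b * (i + 1) - 1 = u
    · obtain ⟨i, hi⟩ := hd
      refine ⟨i, ?_, fun j hj => hinj (hj.trans hi.symm)⟩
      rintro rfl
      apply hu
      rw [← hi, hpos 0]
      ring
    · exact ⟨1, one_ne_zero, fun i hi => absurd ⟨i, hi⟩ hd⟩
  refine ⟨y ^ b, fun i => c (b * (i + 1) - 1), u', pow_nonneg hy0 _, by rwa [pow_one],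
    fun i => hc0 _, fun i => hc1 _, by omega, ?_, ?_⟩
  · intro S hS'
    have h1 := hS (S.map ⟨_, hinj⟩) (by
      intro hmem
      rw [Finset.mem_map] at hmem
      obtain ⟨i, hi, hiu⟩ := hmem
      exact hS' ((hu' i hiu) ▸ hi))
    rw [Finset.sum_map] at h1
    refine h1.trans (le_of_eq ?_)
    rw [← pow_mul]
    ring_nf
  · intro i
    refine (hr _).trans (le_of_eq ?_)
    rw [hpos, pow_mul]

/-- reduction to the class-zero function of the right corner -/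
theorem smallx_class {a b : ℕ} {x : ℂ} {D : ℝ} {v : ℤ → ℂ} (ha : 0 < a) (hab : a < b) (H : HypM a b x D v)
    (hx : ‖x‖ ^ b ≤ 1 / 40)
    (hR : OutM b D (fun i => v (b + 1 + (i : ℤ))) ∨ OutN b D (fun i => v (b + 1 + (i : ℤ))))
    (hL : OutM a D (fun i => v (-(a : ℤ) - 1 - (i : ℤ))) ∨ OutN a D (fun i => v (-(a : ℤ) - 1 - (i : ℤ)))) :
    ∃ u : ℤ → ℂ, u 0 = 1 ∧ u 1 = 1 ∧ (∀ i : ℕ, ‖u (-1 - (i : ℤ))‖ ≤ (1 / 40) ^ (i + 1)) ∧
      (OutM 1 D (fun i => u (2 + (i : ℤ))) ∨ OutN 1 D (fun i => u (2 + (i : ℤ)))) ∧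
      ∀ z : ℂ, ‖z‖ = 1 → ‖∑' n : ℤ, u n * z ^ n‖ ≤ 170919 / 100000 := by
  have hb : 0 < b := by omega
  have HV := H.toV ha hb hR hL
  have e0 : ∀ n : ℤ, 0 ≤ n → eaZ 0 1 n = 0 := fun n hn => by
    unfold eaZ
    rw [if_neg (by norm_num)]
    omega
  refine ⟨fun k => v (0 + k * (b : ℤ)) * x ^ eaZ 0 1 (0 + k * (b : ℤ)), ?_, ?_, ?_, ?_, ?_⟩
  · show v (0 + 0 * (b : ℤ)) * x ^ eaZ 0 1 (0 + 0 * (b : ℤ)) = 1
    rw [zero_mul, zero_add, H.v0, e0 0 le_rfl, pow_zero, mul_one]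
  · show v (0 + 1 * (b : ℤ)) * x ^ eaZ 0 1 (0 + 1 * (b : ℤ)) = 1
    rw [one_mul, zero_add, H.vb, e0 _ (by positivity), pow_zero, mul_one]
  · intro i
    show ‖v (0 + (-1 - (i : ℤ)) * (b : ℤ)) * x ^ eaZ 0 1 (0 + (-1 - (i : ℤ)) * (b : ℤ))‖ ≤ _
    have h1 : a + 1 ≤ b * (i + 1) := by
      have h2 : b ≤ b * (i + 1) := Nat.le_mul_of_pos_right b (Nat.succ_pos i)
      omega
    have e1 : (0 + (-1 - (i : ℤ)) * (b : ℤ)) = -((b * (i + 1) : ℕ) : ℤ) := by
      push_cast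
      ring
    have e2 : -((b * (i + 1) : ℕ) : ℤ) = -(a : ℤ) - 1 - ((b * (i + 1) - a - 1 : ℕ) : ℤ) := by
      omega
    have e3 : eaZ 0 1 (-((b * (i + 1) : ℕ) : ℤ)) = b * (i + 1) := by
      unfold eaZ
      rw [if_neg (by norm_num)]
      omega
    have h2 := XSound_le1 ha H.D_le hL (b * (i + 1) - a - 1)
    rw [e1, e3, norm_mul, norm_pow, pow_mul]
    have h3 : ‖v (-((b * (i + 1) : ℕ) : ℤ))‖ ≤ 1 := by
      rw [e2]
      exact h2
    calc ‖v (-((b * (i + 1) : ℕ) : ℤ))‖ * (‖x‖ ^ b) ^ (i + 1) ≤ 1 * (1 / 40) ^ (i + 1) :=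
          mul_le_mul h3 (pow_le_pow_left₀ (by positivity) hx _) (by positivity) zero_le_one
      _ = _ := one_mul _
  · have e1 : (fun i : ℕ => v (0 + (2 + (i : ℤ)) * (b : ℤ)) * x ^ eaZ 0 1 (0 + (2 + (i : ℤ)) * (b : ℤ))) =
        fun i : ℕ => (fun i : ℕ => v (b + 1 + (i : ℤ))) (b * (i + 1) - 1) := by
      funext i
      have h2 : b ≤ b * (i + 1) := Nat.le_mul_of_pos_right b (Nat.succ_pos i)
      have e2 : (0 + (2 + (i : ℤ)) * (b : ℤ)) = b + 1 + ((b * (i + 1) - 1 : ℕ) : ℤ) := by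
        have e3 : ((b * (i + 1) - 1 : ℕ) : ℤ) = (b : ℤ) * (i + 1) - 1 := by
          rw [Nat.cast_sub (by omega)]
          push_cast
          ring
        rw [e3]
        ring
      rw [e0 _ (by positivity), pow_zero, mul_one, e2]
    show OutM 1 D (fun i : ℕ => v (0 + (2 + (i : ℤ)) * (b : ℤ)) *
        x ^ eaZ 0 1 (0 + (2 + (i : ℤ)) * (b : ℤ))) ∨ OutN 1 D (fun i : ℕ =>
        v (0 + (2 + (i : ℤ)) * (b : ℤ)) * x ^ eaZ 0 1 (0 + (2 + (i : ℤ)) * (b : ℤ)))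
    rw [e1]
    rcases hR with hR | hR
    · exact Or.inl (XSound_outM hb hR)
    · exact Or.inr (XSound_outN hb hR)
  · intro z hz
    have h1 := Pool.Agent.MaxTerm59.cls_bound (fun n => v n * x ^ eaZ 0 1 n) ?_ (170919 / 100000)
      (H.bd 1 (by norm_num)) b hb 0 z hz
    · exact h1
    · refine Summable.of_nonneg_of_le (fun _ => norm_nonneg _) (fun n => ?_) HV.summ
      rw [norm_mul, norm_pow]
      exact mul_le_of_le_one_right (norm_nonneg _) (pow_le_one₀ (norm_nonneg _) HV.s_le)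

end Pool.Agent.MaxTerm58
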